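import Pool.Agent.Lib.MP_5d3e93_al.Br.A1Rf

/-! Free diagrams: the left adjoint of evaluation. -/

open CategoryTheory Limits ZeroObject

namespace Pool.Agent.Lib.MP_5d3e93_al

universe u v u' v' u'' v'' w

namespace Gr.Am

open Br

variable {a : Am.{v, u}} {b : Am.{v', u'}} {β β' : Prop} {E : Type w} [Category.{0} E]

theorem a1ad_fan (S : ObjectProperty a.D) [Tg S] {ι : Type} [Fintype ι] {Z Y : a.D}
    (o : ι → (Z ⟶ Y)) (n : ι → (Y ⟶ Z)) (h : ∀ i, n i ≫ o i = 𝟙 Y)
    (h' : ∀ i j, i ≠ j → n i ≫ o j = 0) (t : ∑ i, o i ≫ n i = 𝟙 Z) (y : S Y) : S Z :=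
  S.prop_of_isLimit_fan (f := fun _ : ι => Y) (F := Fan.mk Z o)
    (Fan.IsLimit.mk _ (fun s => ∑ i, s.proj i ≫ n i) (fun s j => by
      change (∑ i, s.proj i ≫ n i) ≫ o j = s.proj j
      rw [Preadditive.sum_comp, Finset.sum_eq_single j (fun i _ k => by
        rw [Category.assoc, h' i j k, comp_zero]) (by simp), Category.assoc, h, Category.comp_id])
      fun s m k => by
        have k' : ∀ i, m ≫ o i = s.proj i := k
        simp only [← k', Category.assoc, ← Preadditive.comp_sum, t]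
        exact (Category.comp_id m).symm)
    fun _ => y

/-- A finite sum of copies of the identity functor. -/
theorem a1ad_sum (S : ObjectProperty a.D) [Tg S] {ι : Type} [Fintype ι] (G : a.A ⥤ a.A)
    [G.Additive] (o : ι → (G ⟶ 𝟭 _)) (n : ι → (𝟭 _ ⟶ G))
    (h : ∀ i X, (n i).app X ≫ (o i).app X = 𝟙 X)
    (h' : ∀ i j X, i ≠ j → (n i).app X ≫ (o j).app X = 0)
    (t : ∀ X, ∑ i, (o i).app X ≫ (n i).app X = 𝟙 _) (K : CochainComplex a.A ℤ)
    (y : S (a.nq.obj K)) : S (a.nq.obj ((G.mapHomologicalComplex _).obj K)) := by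
  let o' (i : ι) : (G.mapHomologicalComplex _).obj K ⟶ K :=
    (NatTrans.mapHomologicalComplex (o i) (ComplexShape.up ℤ)).app K
  let n' (i : ι) : K ⟶ (G.mapHomologicalComplex _).obj K :=
    (NatTrans.mapHomologicalComplex (n i) (ComplexShape.up ℤ)).app K
  refine a1ad_fan S (fun i => a.nq.map (o' i)) (fun i => a.nq.map (n' i)) (fun i => ?_)
    (fun i j k => ?_) ?_ y
  · rw [← a.nq.map_comp, ← a.nq.map_id]
    exact congrArg _ (HomologicalComplex.hom_ext _ _ fun m => h i _)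
  · rw [← a.nq.map_comp, ← a.nq.map_zero]
    exact congrArg _ (HomologicalComplex.hom_ext _ _ fun m => h' i j _ k)
  · simp only [← a.nq.map_comp]
    rw [← a.nq.map_sum, ← a.nq.map_id]
    refine congrArg _ (HomologicalComplex.hom_ext _ _ fun m => ?_)
    exact ((HomologicalComplex.eval _ _ m).map_sum _ _).trans (t _)

theorem a1ad_cop (a : Am.{v, u}) : HasFiniteCoproducts a.A :=
  have : HasFiniteProducts a.A := hasFiniteProducts_of_has_binary_and_terminal
  have := HasFiniteBiproducts.of_hasFiniteProducts (C := a.A)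
  inferInstance

attribute [local instance] a1ad_cop

section A1Ad
variable [FD E]

/-- Free diagrams. -/
structure FrD (a : Am.{v, u}) (β : Prop) (e : E) where
  L : Map a (a.dg β E)
  adj : L.D ⊣ (a.evd β e).D
  unit : ∀ Y, IsIso (adj.unit.app Y)
  sum : ∀ (S : ObjectProperty a.D) [Tg S] (Y) (e' : E), S Y → S ((a.evd β e').D.obj (L.D.obj Y))
  out : ∀ (Y) (e' : E), IsEmpty (e ⟶ e') → IsZero ((a.evd β e').D.obj (L.D.obj Y))

theorem a1ad_add (a : Am.{v, u}) (e : E) : (evaluationLeftAdjoint a.A e).Additive :=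
  (evaluationAdjunctionRight a.A e).left_adjoint_additive

attribute [local instance] a1ad_add

theorem a1ad_val (S : ObjectProperty a.D) [Tg S] (e e' : E) (K : CochainComplex a.A ℤ)
    (y : S (a.nq.obj K)) : S (a.nq.obj (((evaluationLeftAdjoint a.A e ⋙
      (evaluation E a.A).obj e').mapHomologicalComplex _).obj K)) := by
  classical
  have := Fintype.ofFinite (e ⟶ e')
  let o (i : e ⟶ e') (X : a.A) : (∐ fun _ : e ⟶ e' => X) ⟶ X :=
    Sigma.desc fun j => if j = i then 𝟙 X else 0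
  have h (i j X) : Sigma.ι (fun _ : e ⟶ e' => X) j ≫ o i X = if j = i then 𝟙 X else 0 :=
    Sigma.ι_desc _ _
  have n (i) {X Y : a.A} (f : X ⟶ Y) :
      (Sigma.desc fun j => f ≫ Sigma.ι (fun _ : e ⟶ e' => Y) j) ≫ o i Y = o i X ≫ f :=
    Sigma.hom_ext _ _ fun j => by
      rw [Sigma.ι_desc_assoc, Category.assoc, h, reassoc_of% h]
      split_ifs <;> simp
  have t (X : a.A) : ∑ i, o i X ≫ Sigma.ι (fun _ : e ⟶ e' => X) i = 𝟙 _ :=
    Sigma.hom_ext _ _ fun j => by
      simp [Preadditive.comp_sum, reassoc_of% h, ite_comp]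
  exact a1ad_sum S (ι := e ⟶ e') (evaluationLeftAdjoint a.A e ⋙ (evaluation E a.A).obj e')
    (fun i => ⟨o i, fun _ _ => n i⟩)
    (fun i => ⟨fun X => Sigma.ι (fun _ : e ⟶ e' => X) i, fun _ _ f =>
      (Sigma.ι_desc (fun j => f ≫ Sigma.ι (fun _ : e ⟶ e' => _) j) i).symm⟩)
    (fun i X => (h i i X).trans (if_pos rfl)) (fun i j X k => (h j i X).trans (if_neg k)) t K y

variable (β) in
/-- The free diagram as a map. -/
noncomputable def a1adL (ha : β → a.T ≤ genK ⊤) (e : E) : Map a (a.dg β E) where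
  F := evaluationLeftAdjoint a.A e
  add := a1ad_add a e
  hT X h := (a.dg β E).le_Tb _ ⟨fun c => genK_mapTop (evaluationLeftAdjoint a.A e) (ha c X h),
    fun e' => by
      obtain ⟨K, rfl⟩ := HomotopyCategory.quotient_obj_surjective X
      exact a1ad_val Zr e e' K (a.le_Tb _ h)⟩

theorem a1ad_unit (e : E) (X : a.A) : (evaluationAdjunctionRight a.A e).unit.app X =
    Sigma.ι (fun _ : e ⟶ e => X) (𝟙 e) := Category.comp_id _

theorem a1ad_fr (ha : β → a.T ≤ genK ⊤) (e : E) : ∃ (ad : (a1adL β ha e).D ⊣ (a.evd β e).D)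
    (l : FrD a β e), HEq l.adj ad ∧ l.L = a1adL β ha e ∧ ∀ X, ad.unit.app X =
      (a.idm.nat ((a1adL β ha e).comp (a.evd β e)) (evaluationAdjunctionRight a.A e).unit).app X := by
  obtain ⟨ad, h, -⟩ := Map.exists_adj (a1adL β ha e) (a.evd β e) (evaluationAdjunctionRight a.A e)
  refine ⟨ad, ⟨a1adL β ha e, ad, fun Y => ?_, fun S _ Y e' y => ?_, fun Y e' k => ?_⟩, HEq.rfl, rfl, h⟩
  · rw [h]
    refine Map.isIso_nat _ _ _ (fun X => ⟨Sigma.desc (f := fun _ : e ⟶ e => X) fun _ => 𝟙 X,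
      ?_, ?_⟩) Y
    · exact (comp_congr (a1ad_unit e X) rfl).trans (Sigma.ι_desc _ _)
    · refine Sigma.hom_ext (f := fun _ : e ⟶ e => X) _ _ fun j => ?_
      rw [FD.endo e j]
      exact (Sigma.ι_desc_assoc _ _ _).trans ((Category.id_comp _).trans
        ((a1ad_unit e X).trans (Category.comp_id _).symm))
  · induction Y using nq_ind with | h K => exact a1ad_val S e e' K y
  · exact ((a1adL β ha e).comp (a.evd β e')).isZero (fun X => (IsZero.iff_id_eq_zero _).2
      (Sigma.hom_ext (f := fun _ : e ⟶ e' => X) _ _ fun j => k.elim j)) Y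

theorem a1ad_cmp (f : Map a b) {ι : Type} [Finite ι] (X : a.A) :
    IsIso (sigmaComparison f.F fun _ : ι => X) := inferInstance

/-- The comparison of free diagrams. -/
noncomputable def a1adK (f : Map a b) (e : E) : f.F ⋙ evaluationLeftAdjoint b.A e ≅
    evaluationLeftAdjoint a.A e ⋙ (Functor.whiskeringRight E a.A b.A).obj f.F :=
  NatIso.ofComponents (fun X => NatIso.ofComponents
    (fun t => @asIso _ _ _ _ (sigmaComparison f.F fun _ : e ⟶ t => X) (a1ad_cmp f X))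
      fun {s t} g => show (Sigma.desc fun j => Sigma.ι (fun _ : e ⟶ t => f.F.obj X) (j ≫ g)) ≫
        sigmaComparison f.F (fun _ : e ⟶ t => X) = sigmaComparison f.F (fun _ : e ⟶ s => X) ≫
          f.F.map (Sigma.desc fun j => Sigma.ι (fun _ : e ⟶ t => X) (j ≫ g)) from
      Sigma.hom_ext _ _ fun j => by
        rw [Sigma.ι_desc_assoc, ι_comp_sigmaComparison, ι_comp_sigmaComparison_assoc,
          ← f.F.map_comp, Sigma.ι_desc])
    fun {X Y} g => NatTrans.ext (funext fun t => show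
      (Sigma.desc fun j => f.F.map g ≫ Sigma.ι (fun _ : e ⟶ t => f.F.obj Y) j) ≫
        sigmaComparison f.F (fun _ : e ⟶ t => Y) = sigmaComparison f.F (fun _ : e ⟶ t => X) ≫
          f.F.map (Sigma.desc fun j => g ≫ Sigma.ι (fun _ : e ⟶ t => Y) j) from
      Sigma.hom_ext _ _ fun j => by
        rw [Sigma.ι_desc_assoc, Category.assoc, ι_comp_sigmaComparison,
          ι_comp_sigmaComparison_assoc, ← f.F.map_comp, ← f.F.map_comp, Sigma.ι_desc])

theorem ex_fr₂ (ha : β → a.T ≤ genK ⊤) (hb : β' → b.T ≤ genK ⊤) (f : Map a b) (k : β' → β) (e : E) :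
    ∃ (l : FrD a β e) (l' : FrD b β' e) (κ : f.D ⋙ l'.L.D ≅ l.L.D ⋙ (f.dg E k).D), ∀ Y,
      l'.adj.unit.app (f.D.obj Y) ≫ (b.evd β' e).D.map (κ.hom.app Y) =
        f.D.map (l.adj.unit.app Y) ≫ eqToHom (evd_dg f k e _).symm := by
  obtain ⟨ad, ⟨L, ad₁, u, s, o⟩, h₁, rfl, h⟩ := a1ad_fr ha e
  obtain ⟨ad', ⟨L', ad₂, u', s', o'⟩, h₂, rfl, h'⟩ := a1ad_fr hb e
  obtain rfl := eq_of_heq h₁
  obtain rfl := eq_of_heq h₂
  refine ⟨⟨_, ad₁, u, s, o⟩, ⟨_, ad₂, u', s', o'⟩,
    f.sq (a1adL β' hb e) (a1adL β ha e) (f.dg E k) (a1adK f e), fun Y => ?_⟩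
  refine (comp_congr ((h' _).trans (Map.nat_obj f b.idm ((a1adL β' hb e).comp (b.evd β' e)) _ Y))
    ((congrArg (b.evd β' e).D.map (Map.sq_hom f (a1adL β' hb e) (a1adL β ha e) (f.dg E k) _ Y)).trans
      (Map.map_nat _ _ (b.evd β' e) _ Y))).trans ?_
  refine Eq.trans ?_ (Category.comp_id _).symm
  refine Eq.trans ?_ ((congrArg f.D.map (h Y)).trans
    (Map.map_nat a.idm ((a1adL β ha e).comp (a.evd β e)) f _ Y)).symm
  refine Map.nat_app_comp _ _ _ _ _ _ (NatTrans.ext (funext fun X => ?_)) Y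
  exact (comp_congr (a1ad_unit e (f.F.obj X)) rfl).trans
    ((ι_comp_sigmaComparison f.F (fun _ : e ⟶ e => X) (𝟙 e)).trans
      (congrArg f.F.map (a1ad_unit e X).symm))
end A1Ad

end Gr.Am

end Pool.Agent.Lib.MP_5d3e93_al
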