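import Pool.Agent.Lib.MP_5d3e93_al.Br.A1Ch

/-! Acyclic models. -/

namespace Pool.Agent.Lib.MP_5d3e93_al.Br

universe u v w

open SS

variable {M : Cs.{u}} {X : SS.{v}} {Y : SS.{w}}

theorem Cs.Re.ev_single (r : M.Re X Y) {n k : ℕ} (s : (M.P n).C k) (x : X.X n) (a : ℤ) :
    r.ev s (Finsupp.single x a) = a • (r.ι x).c k s :=
  Finsupp.linearCombination_single ℤ a x

theorem Cs.a1Am_D (n k : ℕ) (s : (M.P n).C k) :
    M.D n k s = ∑ i : Fin (n + 2), (-1 : ℤ) ^ (i : ℕ) • (M.δ (fc i)).c k s := by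
  rw [Cs.D, LinearMap.sum_apply]
  rfl

theorem Cs.Re.ev_d (r : M.Re X Y) {n k : ℕ} (s : (M.P n).C k) (z : X.C (n + 1)) :
    r.ev s (X.d n z) = r.ev (M.D n k s) z := by
  induction z using Finsupp.induction_linear with
  | zero => simp only [map_zero]
  | add y z hy hz => simp only [map_add, hy, hz]
  | single x a =>
    rw [SS.d_single, map_sum, r.ev_single, Cs.a1Am_D, map_sum, Finset.smul_sum]
    refine Finset.sum_congr rfl fun i _ => ?_
    rw [map_smul, map_smul, r.ev_single, r.nat, Hom.c_comp, smul_comm]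

theorem Cs.Re.d_ev (r : M.Re X Y) {n k : ℕ} (s : (M.P n).C (k + 1)) (z : X.C n) :
    Y.d k (r.ev s z) = r.ev ((M.P n).d k s) z := by
  induction z using Finsupp.induction_linear with
  | zero => simp only [map_zero]
  | add y z hy hz => simp only [map_add, hy, hz]
  | single x a => rw [r.ev_single, r.ev_single, map_smul, Hom.c_d]

theorem Cs.Re.ev_sub (r : M.Re X Y) {n k : ℕ} (s t : (M.P n).C k) (z : X.C n) :
    r.ev (s - t) z = r.ev s z - r.ev t z := by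
  induction z using Finsupp.induction_linear with
  | zero => simp only [map_zero, sub_zero]
  | add y z hy hz => simp only [map_add, hy, hz, add_sub_add_comm]
  | single x a => rw [r.ev_single, r.ev_single, r.ev_single, map_sub, smul_sub]

theorem Cs.D_D (n k : ℕ) (s : (M.P n).C k) : M.D (n + 1) k (M.D n k s) = 0 := by
  let r : M.Re (std (n + 2)) (M.P (n + 2)) := ⟨fun θ => M.δ θ, fun θ φ => M.δ_comp θ φ⟩
  let x : (std (n + 2)).X (n + 2) := RelEmbedding.refl _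
  have h := r.ev_d (M.D n k s) (Finsupp.single x 1)
  rw [← r.ev_d, SS.d_d, map_zero, r.ev_single, one_smul] at h
  have e : r.ι x = Hom.id _ := M.δ_id _
  rw [e, Hom.c_id] at h
  exact h.symm

theorem Cs.d_D (n k : ℕ) (s : (M.P n).C (k + 1)) :
    (M.P (n + 1)).d k (M.D n (k + 1) s) = M.D n k ((M.P n).d k s) := by
  simp only [Cs.a1Am_D, map_sum, map_smul, Hom.c_d]

theorem a1Am_rec {A : ℕ → Type u} (I : ∀ n, A n → Prop) (R : ∀ n, A n → A (n + 1) → Prop) (a : A 0)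
    (h0 : I 0 a) (h : ∀ n a, I n a → ∃ b, I (n + 1) b ∧ R n a b) :
    ∃ s : ∀ n, A n, s 0 = a ∧ ∀ n, R n (s n) (s (n + 1)) := by
  choose b hb hr using h
  let s (n : ℕ) : {a // I n a} := Nat.rec ⟨a, h0⟩ (fun n a => ⟨b n a.1 a.2, hb n a.1 a.2⟩) n
  exact ⟨fun n => (s n).1, rfl, fun n => hr n _ (s n).2⟩

theorem Cs.ex_s (x : (M.P 0).X 0) : ∃ s : ∀ n, (M.P n).C n, (M.P 0).ε (s 0) = 1 ∧
    ∀ n, (M.P (n + 1)).d n (s (n + 1)) = M.D n n (s n) := by
  obtain ⟨s, h0, h⟩ := a1Am_rec (A := fun n => (M.P n).C n)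
    (fun n s => M.D n n s ∈ (M.P (n + 1)).bd n) (fun n s t => (M.P (n + 1)).d n t = M.D n n s)
    (Finsupp.single x 1) ((M.acy 1).1 _ (by
      rw [Cs.a1Am_D, map_sum, Fin.sum_univ_two, map_smul, map_smul, Hom.ε_c, Hom.ε_c]
      simp)) fun n s ⟨t, ht⟩ => ⟨t, (M.acy _).2 _ _ (by rw [Cs.d_D, ht, Cs.D_D]), ht⟩
  exact ⟨s, by rw [h0, SS.ε_single], h⟩

theorem Cs.Re.null (r : M.Re X Y) (t : ∀ n, (M.P n).C n) (h0 : (M.P 0).ε (t 0) = 0)
    (h : ∀ n, (M.P (n + 1)).d n (t (n + 1)) = M.D n n (t n)) (n : ℕ) :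
    ∀ z ∈ X.cy n, r.ev (t n) z ∈ Y.bd n := by
  obtain ⟨a, ha⟩ := (M.acy 0).1 _ h0
  obtain ⟨s, e0, e⟩ := a1Am_rec (A := fun n => (M.P n).C (n + 1))
    (fun n s => (M.P (n + 1)).d n (t (n + 1) - M.D n (n + 1) s) = 0)
    (fun n s q => (M.P (n + 1)).d (n + 1) q = t (n + 1) - M.D n (n + 1) s) a
    (by rw [map_sub, h, Cs.d_D, ha, sub_self]) fun n s hs => by
      obtain ⟨q, hq⟩ := (M.acy _).2 _ _ hs
      exact ⟨q, by rw [map_sub, h, Cs.d_D, hq, map_sub, Cs.D_D, sub_zero, sub_self], hq⟩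
  intro z hz
  refine ⟨r.ev (s n) z, ?_⟩
  rw [r.d_ev]
  cases n with
  | zero => rw [e0, ha]
  | succ n => rw [e, r.ev_sub, ← r.ev_d, show X.d n z = 0 from hz, map_zero, sub_zero]

end Pool.Agent.Lib.MP_5d3e93_al.Br
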