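import Pool.Agent.Lib.MP_5d3e93_al.Br.A1Df

/-! Finite subobjects of semi-simplicial sets. -/

open CategoryTheory Limits ZeroObject

namespace Pool.Agent.Lib.MP_5d3e93_al

universe u v u' v' u'' v'' w

namespace Br

open SS

variable {X : SS.{u}}

theorem a1fn_le {m n : ℕ} (θ : Oe m n) : m ≤ n := by
  simpa using Fintype.card_le_of_injective θ θ.injective

theorem a1fn_id {n : ℕ} (θ : Oe n n) : θ = RelEmbedding.refl _ :=
  RelEmbedding.ext fun _ => (θ.strictMono.apply_eq).trans rfl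

instance a1fn_fin (m n : ℕ) : Finite (Oe m n) :=
  Finite.of_injective (fun θ : Oe m n => (θ : Fin (m + 1) → Fin (n + 1))) DFunLike.coe_injective

theorem fd_el (h : Finite (El X)) : FD (El X) where
  fin := h
  hom a b := inferInstanceAs (Finite {θ : Oe a.n b.n // X.act θ b.x = a.x})
  deg := ⟨El.n, by
    rintro ⟨m, x⟩ ⟨n, y⟩ ⟨θ, e⟩
    dsimp only at θ e
    obtain l | rfl := (a1fn_le θ).lt_or_eq
    · exact .inr l
    · rw [a1fn_id θ, X.act_id] at e
      exact .inl (by rw [e])⟩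
  endo a f := Subtype.ext (a1fn_id f.1)

theorem ex_sub {T : Set (El X)} (hT : T.Finite) : ∃ (p : ∀ n, X.X n → Prop)
    (h : ∀ m n (θ : Oe m n) x, p n x → p m (X.act θ x)),
      Finite (El (X.sub p h)) ∧ ∀ a ∈ T, p a.n a.x := by
  have := hT.to_subtype
  refine ⟨fun m y => ∃ a ∈ T, ∃ θ : Oe m a.n, y = X.act θ a.x, ?_, ?_,
    fun a ha => ⟨a, ha, _, (X.act_id _).symm⟩⟩
  · rintro m n θ _ ⟨a, ha, φ, rfl⟩
    exact ⟨a, ha, θ.trans φ, (X.act_comp ..).symm⟩
  · refine Finite.of_surjective (α := Σ (a : T) (m : Fin (a.1.n + 1)), Oe m a.1.n)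
      (fun z => ⟨z.2.1, X.act z.2.2 z.1.1.x, z.1.1, z.1.2, z.2.2, rfl⟩) ?_
    rintro ⟨m, _, a, ha, θ, rfl⟩
    exact ⟨⟨⟨a, ha⟩, ⟨m, Nat.lt_succ_of_le (a1fn_le θ)⟩, θ⟩, rfl⟩

variable {p : ∀ n, X.X n → Prop} {h : ∀ m n (θ : Oe m n) x, p n x → p m (X.act θ x)}

theorem sub_inj (n : ℕ) : Function.Injective ((X.subι p h).c n) :=
  Finsupp.mapDomain_injective Subtype.val_injective

theorem sub_lift {n : ℕ} (z : X.C n) (k : ∀ x ∈ z.support, p n x) :
    ∃ y, (X.subι p h).c n y = z :=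
  ⟨Finsupp.comapDomain Subtype.val z Subtype.val_injective.injOn,
    Finsupp.mapDomain_comapDomain _ Subtype.val_injective z fun x hx => ⟨⟨x, k x hx⟩, rfl⟩⟩

theorem a1fn_c_d (n : ℕ) (y : (X.sub p h).C (n + 1)) :
    (X.subι p h).c n ((X.sub p h).d n y) = X.d n ((X.subι p h).c (n + 1) y) := by
  induction y using Finsupp.induction_linear with
  | zero => simp
  | add a b ha hb => simp only [map_add, ha, hb]
  | single x a =>
    simp only [SS.d, Hom.c, LinearMap.sum_apply, LinearMap.smul_apply, map_sum, map_zsmul,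
      Finsupp.lmapDomain_apply, Finsupp.mapDomain_single]
    rfl

theorem sub_cy {n : ℕ} {y : (X.sub p h).C n} (k : (X.subι p h).c n y ∈ X.cy n) :
    y ∈ (X.sub p h).cy n := by
  cases n with
  | zero => trivial
  | succ n =>
    refine sub_inj n ?_
    rw [map_zero]
    exact (a1fn_c_d n y).trans k

end Br

end Pool.Agent.Lib.MP_5d3e93_al
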