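import Pool.Agent.Lib.MP_5d3e93_al.Br.A1Ch

/-! A thin category with a terminal object is acyclic. -/

open CategoryTheory

namespace Pool.Agent.Lib.MP_5d3e93_al.Br

universe u v

open SS

/-- An extra last coface makes a semi-simplicial set acyclic. -/
theorem a1cn_cone {X : SS.{u}} (s : ∀ n, X.X n → X.X (n + 1)) (t : X.X 0)
    (h0 : ∀ x, X.act (fc 0) (s 0 x) = t) (hl : ∀ n x, X.act (fc (Fin.last _)) (s n x) = x)
    (hc : ∀ n x (i : Fin (n + 2)), X.act (fc i.castSucc) (s (n + 1) x) = s n (X.act (fc i) x)) :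
    X.Acy := by
  constructor
  · have k : ∀ z, X.d 0 (Finsupp.lmapDomain ℤ ℤ (s 0) z) = X.ε z • Finsupp.single t 1 - z :=
      fun z => by
        induction z using Finsupp.induction_linear with
        | zero => simp
        | add a b p q => rw [map_add, map_add, p, q, map_add, add_smul]; abel
        | single x a =>
          have := hl 0 x
          rw [Finsupp.lmapDomain_apply, Finsupp.mapDomain_single, d_single, Fin.sum_univ_two, h0,
            show (1 : Fin 2) = Fin.last 1 from rfl, this, ε_single]
          simp [sub_eq_add_neg]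
    exact fun z hz => ⟨-Finsupp.lmapDomain ℤ ℤ (s 0) z, by rw [map_neg, k, hz]; simp⟩
  · intro n
    have k : ∀ z, X.d (n + 1) (Finsupp.lmapDomain ℤ ℤ (s (n + 1)) z) =
        Finsupp.lmapDomain ℤ ℤ (s n) (X.d n z) + (-1 : ℤ) ^ (n + 2) • z := fun z => by
      induction z using Finsupp.induction_linear with
      | zero => simp
      | add a b p q => rw [map_add, map_add, p, q, map_add, map_add, smul_add]; abel
      | single x a =>
        rw [Finsupp.lmapDomain_apply, Finsupp.mapDomain_single, d_single, Fin.sum_univ_castSucc, hl,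
          d_single, map_sum]
        simp only [hc, map_smul, Finsupp.lmapDomain_apply, Finsupp.mapDomain_single,
          Fin.val_castSucc, Fin.val_last]
    refine fun z hz => ⟨(-1 : ℤ) ^ (n + 2) • Finsupp.lmapDomain ℤ ℤ (s (n + 1)) z, ?_⟩
    rw [map_smul, k, hz, map_zero, zero_add, smul_smul, ← mul_pow]
    simp

theorem acy_thin {P : Type u} [Category.{v} P] (h : ∀ a b : P, Subsingleton (a ⟶ b)) (t : P)
    (k : ∀ a, Nonempty (a ⟶ t)) : (nv P).Acy := by
  have ex : ∀ {n : ℕ} {σ τ : Fin (n + 1) ⥤ P}, (∀ i, σ.obj i = τ.obj i) → σ = τ := fun e =>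
    CategoryTheory.Functor.ext e fun _ _ _ => Subsingleton.elim _ _
  have sn : ∀ {n : ℕ} (σ : Fin (n + 1) ⥤ P), ∃ τ : Fin (n + 2) ⥤ P,
      τ.obj (Fin.last _) = t ∧ ∀ i : Fin (n + 1), τ.obj i.castSucc = σ.obj i := fun {n} σ => by
    have m : ∀ i j : Fin (n + 2), i ≤ j → Nonempty (Fin.snoc (α := fun _ => P) σ.obj t i ⟶
        Fin.snoc (α := fun _ => P) σ.obj t j) := fun i j l => by
      induction j using Fin.lastCases with
      | last => rw [Fin.snoc_last]; exact k _
      | cast j =>
        obtain ⟨i, rfl⟩ := Fin.exists_castSucc_eq.2 (l.trans_lt j.castSucc_lt_last).ne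
        rw [Fin.snoc_castSucc, Fin.snoc_castSucc]
        exact ⟨σ.map (homOfLE (Fin.castSucc_le_castSucc_iff.1 l))⟩
    exact ⟨{ obj := Fin.snoc (α := fun _ => P) σ.obj t
             map := fun f => (m _ _ f.le).some
             map_id := fun _ => Subsingleton.elim _ _
             map_comp := fun _ _ => Subsingleton.elim _ _ },
      Fin.snoc_last (α := fun _ => P) t σ.obj, Fin.snoc_castSucc (α := fun _ => P) t σ.obj⟩
  choose s s1 s2 using @sn
  refine a1cn_cone (X := nv P) (fun _ => s) ((Functor.const _).obj t) (fun x => ex fun i => ?_)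
    (fun n x => ex fun i => ?_) fun n x i => ex fun j => ?_
  · rw [Subsingleton.elim (α := Fin 1) i 0]
    exact s1 x
  · exact (congrArg (s x).obj (congrFun Fin.succAbove_last i)).trans (s2 x i)
  · induction j using Fin.lastCases with
    | last =>
      exact (congrArg (s x).obj (Fin.succAbove_ne_last_last i.castSucc_lt_last.ne)).trans
        ((s1 x).trans (s1 _).symm)
    | cast j =>
      exact (congrArg (s x).obj Fin.castSucc_succAbove_castSucc).trans
        ((s2 x _).trans (s2 ((nv P).act (fc i) x) j).symm)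

end Pool.Agent.Lib.MP_5d3e93_al.Br
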