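import Pool.Agent.Lib.MP_5d3e93_al.Br.A1Am
import Pool.Agent.Lib.MP_5d3e93_al.Br.A1Cn

/-! Subdivision and the last vertex map. -/

open CategoryTheory

namespace Pool.Agent.Lib.MP_5d3e93_al.Br

universe u v u' v'

open SS

variable {X : SS.{u}} {Y : SS.{v}}

/-- The subdivided simplices as models. -/
def a1sdM : Cs.{0} where
  P n := nv (El (std n))
  δ {_ n} θ := nvm (elm (yon (X := std n) θ))
  δ_id _ := rfl
  δ_comp _ _ := rfl
  acy n := acy_thin (fun _ b => ⟨fun f g => Subtype.ext (RelEmbedding.ext fun i =>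
      (RelEmbedding.injective b.x (congrArg (fun φ : Oe _ n => φ i) (f.2.trans g.2.symm))))⟩)
    ⟨n, RelEmbedding.refl _⟩ fun a => ⟨⟨a.x, rfl⟩⟩

/-- Their characteristic maps. -/
def a1sdR (X : SS.{u}) : a1sdM.Re X (nv (El X)) where
  ι x := nvm (elm (yon x))
  nat {_ n} θ x := congrArg (fun f => nvm (elm f))
    (show yon (X.act θ x) = (yon (X := std n) θ).comp (yon x) from
      Hom.ext (funext fun _ => funext fun φ => (X.act_comp φ θ x).symm))

theorem a1sd_single (s : ∀ n, (nv (El (std n))).C n) {n : ℕ} (x : X.X n) (a : ℤ) :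
    sd s X n (Finsupp.single x a) = a • (nvm (elm (yon x))).c n (s n) :=
  Finsupp.linearCombination_single _ _ _

theorem sd_nat (s : ∀ n, (nv (El (std n))).C n) (f : Hom X Y) (n : ℕ) (z : X.C n) :
    (nvm (elm f)).c n (sd s X n z) = sd s Y n (f.c n z) := by
  induction z using Finsupp.induction_linear with
  | zero => simp only [map_zero]
  | add x y a b => simp only [map_add, a, b]
  | single x a =>
    rw [f.c_single, a1sd_single, a1sd_single, map_smul, ← Hom.c_comp,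
      show yon (f.f x) = (yon x).comp f from
        Hom.ext (funext fun _ => funext fun φ => (f.nat φ x).symm)]
    rfl

theorem lv_nat {𝒳 : Type u} [Category.{v} 𝒳] {𝒴 : Type u'} [Category.{v'} 𝒴] (F : 𝒳 ⥤ 𝒴) :
    elm (nvm F) ⋙ lv 𝒴 = lv 𝒳 ⋙ F :=
  CategoryTheory.Functor.hext (fun _ => rfl) fun _ _ _ => heq_of_eq
    ((F.map_comp _ _).trans (congrArg (· ≫ _) (eqToHom_map F _))).symm

/-- The properties of the universal chains. -/
def Sds (s : ∀ n, (nv (El (std n))).C n) : Prop := (nv (El (std 0))).ε (s 0) = 1 ∧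
  ∀ n, (nv (El (std (n + 1)))).d n (s (n + 1)) = ∑ i : Fin (n + 2), (-1 : ℤ) ^ (i : ℕ) •
    (nvm (elm (yon (X := std (n + 1)) (fc i)))).c n (s n)

theorem a1sd_D (M : Cs.{u}) (n k : ℕ) (s : (M.P n).C k) :
    M.D n k s = ∑ i : Fin (n + 2), (-1 : ℤ) ^ (i : ℕ) • (M.δ (fc i)).c k s :=
  LinearMap.sum_apply _ _ _

theorem ex_sds : ∃ s, Sds s := by
  obtain ⟨s, a, b⟩ := Cs.ex_s (M := a1sdM) ((Functor.const _).obj ⟨0, RelEmbedding.refl _⟩)
  exact ⟨s, a, fun n => (b n).trans (a1sd_D _ _ _ _)⟩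

theorem Sds.sd_d {s} (h : Sds s) (n : ℕ) (z : X.C (n + 1)) :
    (nv (El X)).d n (sd s X (n + 1) z) = sd s X n (X.d n z) :=
  ((a1sdR X).d_ev (s (n + 1)) z).trans ((congrArg (fun t => (a1sdR X).ev t z)
    ((h.2 n).trans (a1sd_D a1sdM n n (s n)).symm)).trans ((a1sdR X).ev_d (s n) z).symm)

/-- The ordinals as models. -/
def a1sdL : Cs.{0} where
  P n := nv (Fin (n + 1))
  δ θ := nvm θ.monotone.functor
  δ_id _ := rfl
  δ_comp _ _ := rfl
  acy n := acy_thin (fun _ _ => inferInstance) (Fin.last n) fun a => ⟨homOfLE a.le_last⟩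

/-- Last vertex after subdivision minus the identity. -/
noncomputable def a1sdT (s : ∀ n, (nv (El (std n))).C n) (𝒳 : Type u) [Category.{v} 𝒳] (n : ℕ) :
    (nv 𝒳).C n →ₗ[ℤ] (nv 𝒳).C n := (nvm (lv 𝒳)).c n ∘ₗ sd s _ n - LinearMap.id

theorem a1sd_nat (s : ∀ n, (nv (El (std n))).C n) {𝒳 : Type u} [Category.{v} 𝒳] {𝒴 : Type u'}
    [Category.{v'} 𝒴] (F : 𝒳 ⥤ 𝒴) (n : ℕ) (z : (nv 𝒳).C n) :
    (nvm F).c n (a1sdT s 𝒳 n z) = a1sdT s 𝒴 n ((nvm F).c n z) := by
  have e : (nvm (lv 𝒳)).comp (nvm F) = (nvm (elm (nvm F))).comp (nvm (lv 𝒴)) :=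
    congrArg nvm (lv_nat F).symm
  simp only [a1sdT, LinearMap.sub_apply, LinearMap.comp_apply, LinearMap.id_apply, map_sub]
  rw [← Hom.c_comp, e, Hom.c_comp, sd_nat]

/-- The top simplex. -/
def a1sdI (n : ℕ) : (nv (Fin (n + 1))).X n := 𝟭 _

theorem a1sd_I (s : ∀ n, (nv (El (std n))).C n) {𝒳 : Type u} [Category.{v} 𝒳] {n : ℕ}
    (σ : (nv 𝒳).X n) : (nvm (𝒳 := Fin (n + 1)) σ).c n (a1sdT s _ n (Finsupp.single (a1sdI n) 1)) =
      a1sdT s 𝒳 n (Finsupp.single σ 1) :=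
  (a1sd_nat s σ n _).trans (congrArg _ (Hom.c_single _ _ _))

theorem Sds.lv_sd {s} (h : Sds s) (𝒳 : Type u) [Category.{v} 𝒳] (n : ℕ) :
    ∀ z ∈ (nv 𝒳).cy n, (nvm (lv 𝒳)).c n (sd s _ n z) - z ∈ (nv 𝒳).bd n := by
  let r : a1sdL.Re (nv 𝒳) (nv 𝒳) := ⟨fun σ => nvm σ, fun _ _ => rfl⟩
  let t (n : ℕ) : (a1sdL.P n).C n := a1sdT s (Fin (n + 1)) n (Finsupp.single (a1sdI n) 1)
  have e (z : (nv 𝒳).C n) : r.ev (t n) z = a1sdT s 𝒳 n z := by
    induction z using Finsupp.induction_linear with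
    | zero => simp only [map_zero]
    | add x y a b => simp only [map_add, a, b]
    | single x a =>
      refine (r.ev_single _ x a).trans ((congrArg (a • ·) (a1sd_I s x)).trans ?_)
      rw [← map_smul, Finsupp.smul_single, smul_eq_mul, mul_one]
  refine fun z hz => (e z).subst (motive := (· ∈ (nv 𝒳).bd n)) (r.null t ?_ (fun n => ?_) n z hz)
  · refine (map_sub _ _ _).trans (sub_eq_zero.2 (((nvm (lv _)).ε_c _).trans ?_))
    rw [a1sd_single, one_smul, Hom.ε_c, h.1]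
    exact (SS.ε_single _ _).symm
  · have k (z : (nv (Fin (n + 1 + 1))).C (n + 1)) :
        (nv _).d n (a1sdT s _ (n + 1) z) = a1sdT s _ n ((nv _).d n z) := by
      simp only [a1sdT, LinearMap.sub_apply, LinearMap.comp_apply, LinearMap.id_apply, map_sub]
      rw [← Hom.c_d, h.sd_d]
    refine (k _).trans (Eq.trans ?_ (a1sd_D a1sdL n n (t n)).symm)
    rw [SS.d_single, map_sum]
    exact Finset.sum_congr rfl fun i _ => (map_smul _ _ _).trans
      (congrArg (_ • ·) (a1sd_I s _).symm)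

end Pool.Agent.Lib.MP_5d3e93_al.Br
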