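import Pool.Agent.Lib.MP_5d3e93_al.Br.A1Pz
import Pool.Agent.Lib.MP_5d3e93_al.Br.A1Sd
import Pool.Agent.Lib.MP_5d3e93_al.Br.A1Fn

/-! A functor that is bijective on components of finite direct diagrams is a homology isomorphism. -/

open CategoryTheory

namespace Pool.Agent.Lib.MP_5d3e93_al.Br

universe u v u' v' w

open SS

theorem Sds.a1pi_cy {s} (h : Sds s) {X : SS.{u}} {n : ℕ} {z : X.C n} (k : z ∈ X.cy n) :
    sd s X n z ∈ (nv (El X)).cy n := by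
  cases n with
  | zero => trivial
  | succ n => exact (h.sd_d n z).trans ((congrArg _ k).trans (map_zero _))

theorem Sds.a1pi_lv {s} (h : Sds s) {𝒳 : Type u} [Category.{v} 𝒳] {K : SS.{w}} (i : Hom K (nv 𝒳))
    {n : ℕ} {z : K.C n} (k : z ∈ K.cy n) :
    (nvm (elm i ⋙ lv 𝒳)).c n (sd s K n z) - i.c n z ∈ (nv 𝒳).bd n := by
  have := h.lv_sd 𝒳 n _ (i.c_cy k)
  rw [← sd_nat, ← Hom.c_comp] at this
  exact this

theorem a1pi_fin {X : SS.{u}} {n : ℕ} (z : X.C n) :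
    ((fun x => (⟨n, x⟩ : El X)) '' z.support).Finite := z.support.finite_toSet.image _

theorem hi_of_pi {𝒳 : Type u} [Category.{v} 𝒳] {𝒴 : Type u'} [Category.{v'} 𝒴] (F : 𝒳 ⥤ 𝒴)
    (hS : PiS.{u, v, u', v', max u' v'} F) (hI : PiI.{u, v, u', v', max u v} F) : (nvm F).Hi := by
  obtain ⟨s, hs⟩ := ex_sds
  refine ⟨fun n z hz => ?_, fun n x hx ⟨c, e⟩ => ?_⟩
  · obtain ⟨p, h, f, k⟩ := ex_sub (a1pi_fin z)
    obtain ⟨y, rfl⟩ := sub_lift (p := p) (h := h) z fun x l => k _ ⟨x, l, rfl⟩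
    have := fd_el f
    obtain ⟨a, ha⟩ := hS _ (elm ((nv 𝒴).subι p h) ⋙ lv 𝒴)
    have c := hs.a1pi_cy (sub_cy hz)
    refine ⟨_, (nvm a).c_cy c, ?_⟩
    have := add_mem (ht_zigzag ha n _ c) (hs.a1pi_lv ((nv 𝒴).subι p h) (sub_cy hz))
    rw [sub_add_sub_cancel] at this
    rw [← Hom.c_comp]
    exact this
  · obtain ⟨p, h, f, k⟩ := ex_sub (a1pi_fin x)
    obtain ⟨y, rfl⟩ := sub_lift (p := p) (h := h) x fun x l => k _ ⟨x, l, rfl⟩
    obtain ⟨p', h', f', k'⟩ := ex_sub ((a1pi_fin c).union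
      (Set.finite_range (elm (((nv 𝒳).subι p h).comp (nvm F))).obj))
    obtain ⟨c, rfl⟩ := sub_lift (p := p') (h := h') c fun x l => k' _ (.inl ⟨x, l, rfl⟩)
    have := fd_el f
    have := fd_el f'
    let j : Hom ((nv 𝒳).sub p h) ((nv 𝒴).sub p' h') :=
      ⟨fun {m} x => ⟨(nvm F).f x.1, k' _ (.inr ⟨⟨m, x⟩, rfl⟩)⟩, fun _ _ => rfl⟩
    have e' : j.c n y = SS.d _ n c := sub_inj n (by
      rw [Hom.c_d, e, ← Hom.c_comp, ← Hom.c_comp]
      rfl)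
    obtain ⟨a, ha⟩ := hS _ (elm ((nv 𝒴).subι p' h') ⋙ lv 𝒴)
    have z : Zigzag (elm j ⋙ a) (elm ((nv 𝒳).subι p h) ⋙ lv 𝒳) := hI _ _ _ (by
      have := zigzag_obj_of_zigzag ((Functor.whiskeringLeft _ _ _).obj (elm j)) ha
      rw [Functor.assoc, Functor.assoc, ← lv_nat]
      exact this)
    have c1 := hs.a1pi_cy (sub_cy hx)
    have c2 : (nvm (elm j ⋙ a)).c n (sd s _ n y) ∈ (nv 𝒳).bd n := by
      have : sd s _ n (j.c n y) ∈ (nv (El _)).bd n := ⟨_, (hs.sd_d n c).trans (by rw [e'])⟩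
      have := (nvm a).c_bd this
      rw [← sd_nat, ← Hom.c_comp] at this
      exact this
    have := sub_mem (sub_mem c2 (ht_zigzag z n _ c1))
      (hs.a1pi_lv ((nv 𝒳).subι p h) (sub_cy hx))
    rwa [sub_sub_cancel, sub_sub_cancel] at this

end Pool.Agent.Lib.MP_5d3e93_al.Br
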