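import Pool.Agent.Lib.MP_5d3e93_al.Br.A1Rf

/-! Diagrams of complexes and complexes of diagrams. -/

open CategoryTheory Limits ZeroObject

namespace Pool.Agent.Lib.MP_5d3e93_al

universe u v u' v' u'' v'' w

namespace Gr.Am

open Br

variable {a : Am.{v, u}} {b : Am.{v', u'}} {β β' : Prop} {E : Type w} [Category.{0} E]

section A1Zz
variable {P : ObjectProperty a.D}

/-- The complex of diagrams. -/
def cx (x : E ⥤ a.Wq β P) : CochainComplex (a.dg β E).A ℤ where
  X n := { obj := fun e => (x.obj e).K.X n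
           map := fun g => (x.map g).1.f n
           map_id := fun e => congrArg (fun φ : x.obj e ⟶ x.obj e => φ.1.f n) (x.map_id e)
           map_comp := fun {e _ e'} g g' =>
             congrArg (fun φ : x.obj e ⟶ x.obj e' => φ.1.f n) (x.map_comp g g') }
  d i j := { app := fun e => (x.obj e).K.d i j
             naturality := fun _ _ g => (x.map g).1.comm i j }
  shape := fun i j h => NatTrans.ext (funext fun e => (x.obj e).K.shape i j h)
  d_comp_d' := fun i j k _ _ => NatTrans.ext (funext fun e => (x.obj e).K.d_comp_d i j k)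

theorem cx_sb [Finite E] (x : E ⥤ a.Wq β P) (h : β) : Sb ⊤ (cx x) := by
  choose p q k using fun e => ((x.obj e).sb h).2
  obtain ⟨p', hp⟩ := Finite.exists_ge p
  obtain ⟨q', hq⟩ := Finite.exists_le q
  refine ⟨fun _ => trivial, p', q', fun n c => Functor.isZero _ fun e => k e n ?_⟩
  exact c.imp (fun c => c.trans_le (hp e)) fun c => (hq e).trans_lt c

theorem cx_p (x : E ⥤ a.Wq β P) : dgP β E P ((a.dg β E).nq.obj (cx x)) :=
  ⟨fun e => (x.obj e).p, fun e e' g =>
    ((a.evd β e).nq_nat (a.evd β e') ((evaluation E a.A).map g) (cx x)).symm ▸ (x.map g).2⟩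

theorem cx_map (f : Map a b) (k : β' → β) {P' : ObjectProperty b.D} (h : P ≤ P'.inverseImage f.D)
    (x : E ⥤ a.Wq β P) : (b.dg β' E).nq.obj (cx (x ⋙ f.wq k h)) =
      (f.dg E k).D.obj ((a.dg β E).nq.obj (cx x)) := rfl

theorem ex_cx {K : CochainComplex (a.dg β E).A ℤ} (h : β → Sb ⊤ K)
    (k : dgP β E P ((a.dg β E).nq.obj K)) : ∃ x : E ⥤ a.Wq β P, cx x = K :=
  ⟨{ obj := fun e => ⟨((a.evd β e).F.mapHomologicalComplex _).obj K,
       fun c => (h c).mapTop _, k.1 e⟩
     map := fun {e e'} g => ⟨(NatTrans.mapHomologicalComplex ((evaluation E a.A).map g) _).app K,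
       (a.evd β e).nq_nat (a.evd β e') ((evaluation E a.A).map g) K ▸ k.2 e e' g⟩
     map_id := fun e => Subtype.ext (HomologicalComplex.hom_ext _ _ fun n =>
       CategoryTheory.Functor.map_id (K.X n) e)
     map_comp := fun g g' => Subtype.ext (HomologicalComplex.hom_ext _ _ fun n =>
       CategoryTheory.Functor.map_comp (K.X n) g g') }, rfl⟩

/-- The chain map of a map of diagrams. -/
def a1zz_to {x y : E ⥤ a.Wq β P} (φ : x ⟶ y) : cx x ⟶ cx y where
  f n := { app := fun e => (φ.app e).1.f n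
           naturality := fun e e' g =>
             congrArg (fun ψ : x.obj e ⟶ y.obj e' => ψ.1.f n) (φ.naturality g) }
  comm' := fun i j _ => NatTrans.ext (funext fun e => (φ.app e).1.comm i j)

theorem a1zz_iso [Finite E] {x y : E ⥤ a.Wq β P} (φ : x ⟶ y) :
    IsIso ((a.dg β E).nq.map (a1zz_to φ)) :=
  dg_isIso (fun c => bdd_of_sb (cx_sb x c)) (fun c => bdd_of_sb (cx_sb y c)) _ fun e =>
    ((a.evd β e).nq_map (a1zz_to φ)).symm ▸ (φ.app e).2

/-- The map of diagrams of a chain map. -/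
def a1zz_of {x y : E ⥤ a.Wq β P} (φ : cx x ⟶ cx y) (h : IsIso ((a.dg β E).nq.map φ)) : x ⟶ y where
  app e := ⟨((a.evd β e).F.mapHomologicalComplex _).map φ,
    (a.evd β e).nq_map φ ▸ Functor.map_isIso _ _⟩
  naturality := fun _ _ g => Subtype.ext (HomologicalComplex.hom_ext _ _ fun n =>
    NatTrans.naturality (φ.f n) g)

theorem zz_iff [Finite E] [P.IsClosedUnderIsomorphisms] (x y : E ⥤ a.Wq β P) : Zigzag x y ↔
    Nonempty ((a.dg β E).nq.obj (cx x) ≅ (a.dg β E).nq.obj (cx y)) := by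
  refine ⟨fun h => ?_, fun ⟨e⟩ => ?_⟩
  · induction h with
    | refl => exact ⟨Iso.refl _⟩
    | tail _ h ih =>
      obtain ⟨e⟩ := ih
      rcases h with ⟨⟨φ⟩⟩ | ⟨⟨φ⟩⟩
      · have := a1zz_iso φ
        exact ⟨e ≪≫ asIso ((a.dg β E).nq.map (a1zz_to φ))⟩
      · have := a1zz_iso φ
        exact ⟨e ≪≫ (asIso ((a.dg β E).nq.map (a1zz_to φ))).symm⟩
  · obtain ⟨M, φ, ψ, h, i, j⟩ := roof (fun c => dg_gs c) (cx_sb x) (cx_sb y) e
    obtain ⟨z, rfl⟩ := ex_cx h (dgP_iso (asIso ((a.dg β E).nq.map φ)) (cx_p x))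
    exact (Zigzag.of_hom (a1zz_of φ i)).trans (Zigzag.of_inv (a1zz_of ψ j))
end A1Zz

end Gr.Am

end Pool.Agent.Lib.MP_5d3e93_al
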