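import Pool.Agent.Lib.MP_5d3e93_al.Br.A1Dq
import Pool.Agent.Lib.MP_5d3e93_al.Br.A1Zz
import Pool.Agent.Lib.MP_5d3e93_al.Br.A1Pi

/-! Derived equivalences induce homology isomorphisms of nerves of weak equivalences. -/

open CategoryTheory Limits ZeroObject

namespace Pool.Agent.Lib.MP_5d3e93_al.Gr.Am

universe u v u' v' w

open Br

variable {a : Am.{v, u}} {b : Am.{v', u'}} {β β' : Prop} {E : Type w} [Category.{0} E]

theorem a1ap_s [Finite E] {S P : ObjectProperty a.D} (hP : P ≤ S) (x : E ⥤ a.Wq β P) :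
    dgS β E S ((a.dg β E).nq.obj (cx x)) :=
  ⟨fun c => bdd_of_sb (cx_sb x c), fun e => hP _ ((cx_p x).1 e)⟩

theorem a1ap_iso {D D' : Type*} [Category* D] [Category* D'] {F : D ⥤ D'} {S : ObjectProperty D}
    (h : FF F S) {X Y : D} (p : S X) (q : S Y) (φ : X ⟶ Y) (k : IsIso (F.map φ)) : IsIso φ := by
  obtain ⟨ψ, e⟩ := (h q p).2 (inv (F.map φ))
  exact ⟨ψ, (h p p).1 (by simp [e]), (h q q).1 (by simp [e])⟩

theorem app (ha : β → a.T ≤ genK ⊤) (hb : β' → b.T ≤ genK ⊤) (f : Map a b) (k : β' → β)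
    {S P : ObjectProperty a.D} {S' P' : ObjectProperty b.D} [Tg S] [Tg S']
    [P.IsClosedUnderIsomorphisms] [P'.IsClosedUnderIsomorphisms] (hS : β → S ≤ a.bdd)
    (h : Deq f.D S S') (hP : P ≤ S) (hP' : P' ≤ S') (c : P ≤ P'.inverseImage f.D)
    (c' : ∀ X, S X → P' (f.D.obj X) → P X) : (nvm (f.wq k c)).Hi := by
  refine hi_of_pi _ (fun E _ _ y => ?_) fun E _ _ x x' z => ?_
  · have : Finite E := FD.fin
    obtain ⟨X, s, ⟨e⟩⟩ := (dg_deq ha hb f k hS h).surj _ (a1ap_s hP' y)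
    obtain ⟨K, l, ⟨e'⟩⟩ := ex_sb (a := a.dg β E) dg_gs s.1
    have q := dgP_iso e.symm (cx_p y)
    obtain ⟨x, rfl⟩ := ex_cx (P := P) l (dgP_iso e'.symm
      ⟨fun i => c' _ (s.2 i) (evd_dg f k i X ▸ q.1 i), fun i j g =>
        a1ap_iso h.ff (s.2 i) (s.2 j) _ ((evm_dg f k g X).1 (q.2 i j g))⟩)
    exact ⟨x, (zz_iff _ _).2 ⟨eqToIso (cx_map f k c x) ≪≫ (f.dg E k).D.mapIso e' ≪≫ e⟩⟩
  · have : Finite E := FD.fin
    obtain ⟨e⟩ := (zz_iff _ _).1 z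
    have d := (dg_deq (E := E) ha hb f k hS h).ff
    obtain ⟨φ, l⟩ := (d (a1ap_s hP x) (a1ap_s hP x')).2
      ((eqToIso (cx_map f k c x)).symm ≪≫ e ≪≫ eqToIso (cx_map f k c x')).hom
    have := a1ap_iso d (a1ap_s hP x) (a1ap_s hP x') φ (l ▸ Iso.isIso_hom _)
    exact (zz_iff _ _).2 ⟨asIso φ⟩

end Pool.Agent.Lib.MP_5d3e93_al.Gr.Am
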