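import Pool.Agent.Lib.MP_5d3e93_al.Br.A1Df

/-! Chains of semi-simplicial sets. -/

open CategoryTheory Limits ZeroObject

namespace Pool.Agent.Lib.MP_5d3e93_al

universe u v u' v' u'' v'' w

namespace Br

open SS

section A1Ch
variable {X : SS.{u}} {Y : SS.{v}} {Z : SS.{w}}

theorem SS.d_single {n : ℕ} (x : X.X (n + 1)) (a : ℤ) : X.d n (Finsupp.single x a) =
    ∑ i : Fin (n + 2), (-1 : ℤ) ^ (i : ℕ) • Finsupp.single (X.act (fc i) x) a := by
  simp only [SS.d, LinearMap.sum_apply, LinearMap.smul_apply, Finsupp.lmapDomain_apply,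
    Finsupp.mapDomain_single]

theorem SS.Hom.c_single (f : Hom X Y) {n : ℕ} (x : X.X n) (a : ℤ) :
    f.c n (Finsupp.single x a) = Finsupp.single (f.f x) a := Finsupp.mapDomain_single

theorem a1ch_fc {n : ℕ} (i : Fin (n + 3)) (j : Fin (n + 2)) :
    (fc (j.predAbove i)).trans (fc (i.succAbove j)) = (fc j).trans (fc i) :=
  RelEmbedding.ext fun k => Fin.succAbove_succAbove_succAbove_predAbove i j k

theorem SS.d_d (n : ℕ) (z : X.C (n + 2)) : X.d n (X.d (n + 1) z) = 0 := by
  induction z using Finsupp.induction_linear with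
  | zero => rw [map_zero, map_zero]
  | add f g hf hg => rw [map_add, map_add, hf, hg, add_zero]
  | single x a =>
    simp only [SS.d_single, map_sum, map_smul, Finset.smul_sum, smul_smul, ← pow_add, ← X.act_comp]
    rw [← Finset.sum_product']
    refine Finset.sum_ninvolution (fun p => (p.1.succAbove p.2, p.2.predAbove p.1)) (fun p => ?_)
      (fun p _ e => Fin.succAbove_ne p.1 p.2 (congrArg Prod.fst e)) (fun p => by simp)
      fun p => Prod.ext (Fin.succAbove_succAbove_predAbove ..) (Fin.predAbove_predAbove_succAbove ..)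
    rw [Fin.neg_one_pow_succAbove_add_predAbove, a1ch_fc, neg_smul, add_neg_cancel]

theorem SS.Hom.c_d (f : Hom X Y) (n : ℕ) (z : X.C (n + 1)) :
    f.c n (X.d n z) = Y.d n (f.c (n + 1) z) := by
  induction z using Finsupp.induction_linear with
  | zero => simp only [map_zero]
  | add f g hf hg => simp only [map_add, hf, hg]
  | single x a => simp only [SS.d_single, Hom.c_single, map_sum, map_smul, f.nat]

theorem SS.Hom.c_comp (f : Hom X Y) (g : Hom Y Z) (n : ℕ) (z : X.C n) :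
    (f.comp g).c n z = g.c n (f.c n z) := Finsupp.mapDomain_comp (f := f.f) (g := g.f)

theorem SS.Hom.c_id (n : ℕ) (z : X.C n) : (Hom.id X).c n z = z := Finsupp.mapDomain_id

theorem SS.ε_single (x : X.X 0) (a : ℤ) : X.ε (Finsupp.single x a) = a := by
  rw [SS.ε, Finsupp.linearCombination_single, smul_eq_mul, mul_one]

theorem SS.Hom.ε_c (f : Hom X Y) (z : X.C 0) : Y.ε (f.c 0 z) = X.ε z := by
  induction z using Finsupp.induction_linear with
  | zero => simp only [map_zero]
  | add f g hf hg => simp only [map_add, hf, hg]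
  | single x a => rw [Hom.c_single, SS.ε_single, SS.ε_single]

theorem SS.ε_d (z : X.C 1) : X.ε (X.d 0 z) = 0 := by
  induction z using Finsupp.induction_linear with
  | zero => simp only [map_zero]
  | add f g hf hg => simp only [map_add, hf, hg, add_zero]
  | single x a =>
    simp only [SS.d_single, map_sum, map_smul, SS.ε_single]
    simp

theorem SS.bd_le (n : ℕ) : X.bd n ≤ X.cy n := by
  rintro _ ⟨z, rfl⟩
  cases n with
  | zero => trivial
  | succ n => exact X.d_d n z

theorem SS.Hom.c_cy (f : Hom X Y) {n : ℕ} {z : X.C n} (h : z ∈ X.cy n) : f.c n z ∈ Y.cy n := by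
  cases n with
  | zero => trivial
  | succ n =>
    have k : X.d n z = 0 := h
    exact (f.c_d n z).symm.trans (by rw [k, map_zero])

theorem SS.Hom.c_bd (f : Hom X Y) {n : ℕ} {z : X.C n} (h : z ∈ X.bd n) : f.c n z ∈ Y.bd n := by
  obtain ⟨y, rfl⟩ := h
  exact ⟨_, (f.c_d n y).symm⟩

theorem SS.Hom.Ht.refl (f : Hom X Y) : f.Ht f := fun n z _ => by
  rw [sub_self]
  exact zero_mem _

theorem SS.Hom.Ht.symm {f g : Hom X Y} (h : f.Ht g) : g.Ht f := fun n z k => by
  rw [← neg_sub]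
  exact neg_mem (h n z k)

theorem SS.Hom.Ht.trans {f g k : Hom X Y} (h : f.Ht g) (h' : g.Ht k) : f.Ht k := fun n z l => by
  rw [← sub_add_sub_cancel _ (g.c n z)]
  exact add_mem (h n z l) (h' n z l)

theorem SS.Hom.Hi.comp {f : Hom X Y} {g : Hom Y Z} (h : f.Hi) (k : g.Hi) : (f.comp g).Hi := by
  refine ⟨fun n z hz => ?_, fun n x hx e => ?_⟩
  · obtain ⟨y, hy, e⟩ := k.surj n z hz
    obtain ⟨x, hx, e'⟩ := h.surj n y hy
    refine ⟨x, hx, ?_⟩
    rw [Hom.c_comp, ← sub_add_sub_cancel _ (g.c n y), ← map_sub]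
    exact add_mem (g.c_bd e') e
  · rw [Hom.c_comp] at e
    exact h.inj n x hx (k.inj n _ (f.c_cy hx) e)

theorem SS.Hom.Hi.of_ht {f g : Hom X Y} (h : f.Hi) (k : f.Ht g) : g.Hi := by
  refine ⟨fun n z hz => ?_, fun n x hx e => h.inj n x hx ?_⟩
  · obtain ⟨x, hx, e⟩ := h.surj n z hz
    refine ⟨x, hx, ?_⟩
    rw [← sub_add_sub_cancel _ (f.c n x)]
    exact add_mem (k.symm n x hx) e
  · rw [← sub_add_cancel (f.c n x) (g.c n x)]
    exact add_mem (k n x hx) e

theorem SS.Hom.hi_of_inv {f : Hom X Y} {g : Hom Y X} (h : (f.comp g).Ht (Hom.id X))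
    (k : (g.comp f).Ht (Hom.id Y)) : f.Hi := by
  refine ⟨fun n z hz => ⟨g.c n z, g.c_cy hz, ?_⟩, fun n x hx e => ?_⟩
  · have := k n z hz
    rwa [Hom.c_comp, Hom.c_id] at this
  · have := sub_mem (g.c_bd e) (h n x hx)
    rwa [Hom.c_comp, Hom.c_id, sub_sub_cancel] at this

/-- The relative form: the mapping cone is exact. -/
theorem SS.Hom.Hi.cone {f : Hom X Y} (h : f.Hi) {n : ℕ} {x : X.C n} (hx : x ∈ X.cy n)
    {y : Y.C (n + 1)} (e : f.c n x = Y.d n y) :
    ∃ x' y', X.d n x' = x ∧ y = f.c (n + 1) x' + Y.d (n + 1) y' := by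
  obtain ⟨p, rfl⟩ := h.inj n x hx ⟨y, e.symm⟩
  obtain ⟨q, hq, t, ht⟩ := h.surj (n + 1) (y - f.c (n + 1) p)
    (show Y.d n _ = 0 by rw [map_sub, ← e, f.c_d, sub_self])
  have k : X.d n q = 0 := hq
  refine ⟨p + q, -t, by rw [map_add, k, add_zero], ?_⟩
  rw [map_add, map_neg, ht]
  abel
end A1Ch

end Br

end Pool.Agent.Lib.MP_5d3e93_al
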