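import Mathlib

/-! Semi-simplicial sets, their chains, nerves and categories of simplices. -/

open CategoryTheory

namespace Pool.Agent.Lib.MP_5d3e93_al.Br

universe u v u' v' u'' w

/-- Injective monotone maps. -/
abbrev Oe (m n : ℕ) : Type := Fin (m + 1) ↪o Fin (n + 1)

/-- The face maps. -/
abbrev fc {n : ℕ} (i : Fin (n + 2)) : Oe n (n + 1) := Fin.succAboveOrderEmb i

/-- Semi-simplicial sets. -/
structure SS where
  X : ℕ → Type u
  act : ∀ {m n : ℕ}, Oe m n → X n → X m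
  act_id : ∀ {n : ℕ} (x : X n), act (RelEmbedding.refl _) x = x
  act_comp : ∀ {l m n : ℕ} (f : Oe l m) (g : Oe m n) (x : X n), act (f.trans g) x = act f (act g x)

namespace SS

/-- Maps of semi-simplicial sets. -/
@[ext] structure Hom (X : SS.{u}) (Y : SS.{v}) where
  f : ∀ {n : ℕ}, X.X n → Y.X n
  nat : ∀ {m n : ℕ} (θ : Oe m n) (x : X.X n), f (X.act θ x) = Y.act θ (f x)

variable {X : SS.{u}} {Y : SS.{v}} {Z : SS.{w}}

/-- The identity. -/
def Hom.id (X : SS.{u}) : Hom X X := ⟨fun x => x, fun _ _ => rfl⟩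

/-- Composition. -/
def Hom.comp (f : Hom X Y) (g : Hom Y Z) : Hom X Z :=
  ⟨fun x => g.f (f.f x), fun θ x => by rw [f.nat, g.nat]⟩

/-- Chains. -/
abbrev C (X : SS.{u}) (n : ℕ) : Type u := X.X n →₀ ℤ

/-- The differential. -/
noncomputable def d (X : SS.{u}) (n : ℕ) : X.C (n + 1) →ₗ[ℤ] X.C n :=
  ∑ i : Fin (n + 2), (-1 : ℤ) ^ (i : ℕ) • Finsupp.lmapDomain ℤ ℤ (X.act (fc i))

/-- The map on chains. -/
noncomputable def Hom.c (f : Hom X Y) (n : ℕ) : X.C n →ₗ[ℤ] Y.C n := Finsupp.lmapDomain ℤ ℤ f.f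

/-- The augmentation. -/
noncomputable def ε (X : SS.{u}) : X.C 0 →ₗ[ℤ] ℤ := Finsupp.linearCombination ℤ fun _ => 1

/-- Cycles. -/
noncomputable def cy (X : SS.{u}) : ∀ n, Submodule ℤ (X.C n)
  | 0 => ⊤
  | n + 1 => LinearMap.ker (X.d n)

/-- Boundaries. -/
noncomputable def bd (X : SS.{u}) (n : ℕ) : Submodule ℤ (X.C n) := LinearMap.range (X.d n)

/-- The reduced homology vanishes. -/
def Acy (X : SS.{u}) : Prop :=
  (∀ z, X.ε z = 0 → z ∈ X.bd 0) ∧ ∀ n z, X.d n z = 0 → z ∈ X.bd (n + 1)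

/-- Maps that agree on homology. -/
def Hom.Ht (f g : Hom X Y) : Prop := ∀ n, ∀ z ∈ X.cy n, f.c n z - g.c n z ∈ Y.bd n

/-- Homology isomorphisms. -/
structure Hom.Hi (f : Hom X Y) : Prop where
  surj : ∀ n, ∀ z ∈ Y.cy n, ∃ x ∈ X.cy n, f.c n x - z ∈ Y.bd n
  inj : ∀ n, ∀ x ∈ X.cy n, f.c n x ∈ Y.bd n → x ∈ X.bd n

/-- The standard simplex. -/
def std (n : ℕ) : SS.{0} := ⟨fun m => Oe m n, fun θ φ => θ.trans φ, fun _ => rfl, fun _ _ _ => rfl⟩

/-- The characteristic map of a simplex. -/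
def yon {n : ℕ} (x : X.X n) : Hom (std n) X := ⟨fun θ => X.act θ x, fun θ φ => X.act_comp θ φ x⟩

/-- A subobject. -/
def sub (X : SS.{u}) (p : ∀ n, X.X n → Prop)
    (h : ∀ m n (θ : Oe m n) x, p n x → p m (X.act θ x)) : SS.{u} :=
  ⟨fun n => {x // p n x}, fun θ x => ⟨X.act θ x.1, h _ _ θ _ x.2⟩,
    fun x => Subtype.ext (X.act_id x.1), fun f g x => Subtype.ext (X.act_comp f g x.1)⟩

/-- The inclusion of a subobject. -/
def subι (X : SS.{u}) (p : ∀ n, X.X n → Prop)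
    (h : ∀ m n (θ : Oe m n) x, p n x → p m (X.act θ x)) : Hom (X.sub p h) X :=
  ⟨fun x => x.1, fun _ _ => rfl⟩

/-- The underlying semi-simplicial set of a simplicial set. -/
def ofSSet (X : SSet.{u}) : SS.{u} where
  X n := X.obj (.op (.mk n))
  act θ := X.map (SimplexCategory.mkHom θ.toOrderHom).op
  act_id x := ConcreteCategory.congr_hom (X.map_id _) x
  act_comp f g x := by
    rw [← types_comp_apply (X.map _) (X.map _), ← X.map_comp]
    rfl

/-- The category of simplices with injective maps. -/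
structure El (X : SS.{u}) : Type u where
  n : ℕ
  x : X.X n

instance : Category.{0} (El X) where
  Hom a b := {θ : Oe a.n b.n // X.act θ b.x = a.x}
  id a := ⟨RelEmbedding.refl _, X.act_id _⟩
  comp f g := ⟨f.1.trans g.1, by rw [X.act_comp, g.2, f.2]⟩

/-- The functor on categories of simplices. -/
def elm (f : Hom X Y) : El X ⥤ El Y where
  obj a := ⟨a.n, f.f a.x⟩
  map θ := ⟨θ.1, (f.nat _ _).symm.trans (congrArg f.f θ.2)⟩

end SS

open SS

variable {𝒳 : Type u} [Category.{v} 𝒳] {𝒴 : Type u'} [Category.{v'} 𝒴]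

variable (𝒳) in
/-- The nerve. -/
def nv : SS.{max u v} :=
  ⟨fun n => Fin (n + 1) ⥤ 𝒳, fun θ σ => θ.monotone.functor ⋙ σ, fun _ => rfl, fun _ _ _ => rfl⟩

/-- The map of nerves. -/
def nvm (F : 𝒳 ⥤ 𝒴) : Hom (nv 𝒳) (nv 𝒴) := ⟨fun σ => σ ⋙ F, fun _ _ => rfl⟩

variable (𝒳) in
/-- The last vertex functor. -/
def lv : El (nv 𝒳) ⥤ 𝒳 where
  obj a := CategoryTheory.Functor.obj a.x (Fin.last _)
  map {a b} θ := eqToHom (CategoryTheory.Functor.congr_obj θ.2.symm (Fin.last _)) ≫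
    CategoryTheory.Functor.map b.x (homOfLE (Fin.le_last (θ.1 (Fin.last _))))
  map_id a := (Category.id_comp _).trans (CategoryTheory.Functor.map_id a.x _)
  map_comp := by
    rintro ⟨l, x⟩ ⟨m, y⟩ ⟨n, σ⟩ ⟨f, p⟩ ⟨g, q⟩
    dsimp only at f g p q
    subst p q
    exact (Category.id_comp _).trans ((CategoryTheory.Functor.map_comp σ _ _).trans
      (congrArg₂ (· ≫ ·) (Category.id_comp _).symm (Category.id_comp _).symm))

/-- Finite direct categories. -/
class FD (E : Type u) [Category.{v} E] : Prop where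
  fin : Finite E
  hom : ∀ a b : E, Finite (a ⟶ b)
  deg : ∃ k : E → ℕ, ∀ a b : E, (a ⟶ b) → a = b ∨ k a < k b
  endo : ∀ (a : E) (f : a ⟶ a), f = 𝟙 a

attribute [instance] FD.hom

/-- Onto on components of finite direct diagrams. -/
def PiS (F : 𝒳 ⥤ 𝒴) : Prop :=
  ∀ (E : Type w) [Category.{0} E] [FD E] (b : E ⥤ 𝒴), ∃ a : E ⥤ 𝒳, Zigzag (a ⋙ F) b

/-- Injective on components of finite direct diagrams. -/
def PiI (F : 𝒳 ⥤ 𝒴) : Prop :=
  ∀ (E : Type w) [Category.{0} E] [FD E] (a a' : E ⥤ 𝒳), Zigzag (a ⋙ F) (a' ⋙ F) → Zigzag a a'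

/-- Acyclic models. -/
structure Cs where
  P : ℕ → SS.{u}
  δ : ∀ {m n : ℕ}, Oe m n → Hom (P m) (P n)
  δ_id : ∀ n, δ (RelEmbedding.refl _) = Hom.id (P n)
  δ_comp : ∀ {l m n : ℕ} (f : Oe l m) (g : Oe m n), δ (f.trans g) = (δ f).comp (δ g)
  acy : ∀ n, (P n).Acy

namespace Cs

/-- The alternating sum of the cofaces. -/
noncomputable def D (M : Cs.{u}) (n k : ℕ) : (M.P n).C k →ₗ[ℤ] (M.P (n + 1)).C k :=
  ∑ i : Fin (n + 2), (-1 : ℤ) ^ (i : ℕ) • (M.δ (fc i)).c k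

/-- Characteristic maps out of the models. -/
structure Re (M : Cs.{u}) (X : SS.{v}) (Y : SS.{w}) where
  ι : ∀ {n : ℕ}, X.X n → Hom (M.P n) Y
  nat : ∀ {m n : ℕ} (θ : Oe m n) (x : X.X n), ι (X.act θ x) = (M.δ θ).comp (ι x)

/-- The operation on chains given by a universal chain. -/
noncomputable def Re.ev {M : Cs.{u}} {X : SS.{v}} {Y : SS.{w}} (r : M.Re X Y) {n k : ℕ}
    (s : (M.P n).C k) : X.C n →ₗ[ℤ] Y.C k := Finsupp.linearCombination ℤ fun x => (r.ι x).c k s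

end Cs

/-- The subdivision attached to universal chains. -/
noncomputable def sd (s : ∀ n, (nv (El (std n))).C n) (X : SS.{u}) (n : ℕ) :
    X.C n →ₗ[ℤ] (nv (El X)).C n :=
  Finsupp.linearCombination ℤ fun x => (nvm (elm (yon x))).c n (s n)

end Pool.Agent.Lib.MP_5d3e93_al.Br
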