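import Pool.Agent.Lib.MP_5d3e93_al.Br.A1Df
import Pool.Agent.Lib.MP_5d3e93_al.Gr.Str
import Pool.Agent.Lib.MP_5d3e93_al.Gr.BsI
import Pool.Agent.Lib.MP_5d3e93_al.Gr.Loc

/-! Categories of weak equivalences and ambient categories of diagrams. -/

open CategoryTheory Limits ZeroObject

namespace Pool.Agent.Lib.MP_5d3e93_al.Gr

universe v u v' u' w

theorem Sb.mapTop {A : Type u} [Category.{v} A] [Preadditive A] {B : Type u'} [Category.{v'} B]
    [Preadditive B] (F : A ⥤ B) [F.Additive] {K : CochainComplex A ℤ} (h : Sb ⊤ K) :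
    Sb ⊤ ((F.mapHomologicalComplex _).obj K) := by
  obtain ⟨-, p, q, h⟩ := h
  exact ⟨fun _ => trivial, p, q, fun n k => F.map_isZero (h n k)⟩

theorem genK_mapTop {A : Type u} [Category.{v} A] [Preadditive A] [HasZeroObject A]
    [HasBinaryBiproducts A] {B : Type u'} [Category.{v'} B] [Preadditive B] [HasZeroObject B]
    [HasBinaryBiproducts B] (F : A ⥤ B) [F.Additive] {X : Kh A} (h : genK ⊤ X) :
    genK ⊤ ((F.mapHomotopyCategory _).obj X) := by
  obtain ⟨K, k, ⟨e⟩⟩ := genK_strict h
  exact Cl.iso ((F.mapHomotopyCategory _).mapIso e).symm (k.mapTop F).genK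

namespace Am

variable (a : Am.{v, u}) {b : Am.{v', u'}} (β : Prop) {β' : Prop}

/-- Complexes with class in `P`, strictly bounded if `β` holds. -/
structure Wq (P : ObjectProperty a.D) where
  K : CochainComplex a.A ℤ
  sb : β → Sb ⊤ K
  p : P (a.nq.obj K)

/-- The morphisms are the weak equivalences. -/
instance (P : ObjectProperty a.D) : Category.{v} (a.Wq β P) where
  Hom X Y := {φ : X.K ⟶ Y.K // IsIso (a.nq.map φ)}
  id X := ⟨𝟙 _, inferInstance⟩
  comp f g := ⟨f.1 ≫ g.1, by
    have := f.2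
    have := g.2
    rw [Functor.map_comp]
    infer_instance⟩
  id_comp _ := Subtype.ext (Category.id_comp _)
  comp_id _ := Subtype.ext (Category.comp_id _)
  assoc _ _ _ := Subtype.ext (Category.assoc ..)

variable {a β} in
/-- The functor on weak equivalences. -/
def Map.wq (f : Map a b) (k : β' → β) {P : ObjectProperty a.D} {P' : ObjectProperty b.D}
    (h : P ≤ P'.inverseImage f.D) : a.Wq β P ⥤ b.Wq β' P' where
  obj X := ⟨(f.F.mapHomologicalComplex _).obj X.K, fun c => (X.sb (k c)).mapTop _, h _ X.p⟩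
  map φ := ⟨(f.F.mapHomologicalComplex _).map φ.1, by
    have := φ.2
    rw [← f.nq_map]
    exact Functor.map_isIso _ _⟩
  map_id X := Subtype.ext ((f.F.mapHomologicalComplex _).map_id X.K)
  map_comp φ ψ := Subtype.ext ((f.F.mapHomologicalComplex _).map_comp φ.1 ψ.1)

variable (E : Type w) [Category.{0} E]

/-- Complexes of diagrams that are pointwise trivial, and bounded if `β` holds. -/
def dgT : ObjectProperty (Kh (E ⥤ a.A)) := fun X => (β → genK ⊤ X) ∧
  ∀ e, a.Tb ((((evaluation E a.A).obj e).mapHomotopyCategory _).obj X)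

instance : Tg (a.dgT β E) :=
  Tg.mk' (fun _ h => ⟨fun _ => Tg.zero _ h, fun _ => Tg.zero _ (Functor.map_isZero _ h)⟩)
    (fun n X h => ⟨fun c => (genK ⊤).le_shift n X (h.1 c), fun e => (a.Tb.inverseImage
      (((evaluation E a.A).obj e).mapHomotopyCategory _)).le_shift n X (h.2 e)⟩)
    fun T k h h' => ⟨fun c => (genK ⊤).ext_of_isTriangulatedClosed₂ T k (h.1 c) (h'.1 c),
      fun e => (a.Tb.inverseImage
        (((evaluation E a.A).obj e).mapHomotopyCategory _)).ext_of_isTriangulatedClosed₂ T k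
          (h.2 e) (h'.2 e)⟩

/-- Diagrams. -/
def dg : Am.{max w v, u} := ⟨E ⥤ a.A, a.dgT β E⟩

variable {E} in
/-- Evaluation. -/
def evd (e : E) : Map (a.dg β E) a where
  F := (evaluation E a.A).obj e
  add := inferInstanceAs ((evaluation E a.A).obj e).Additive
  hT _ h := h.2 e

variable {a β} in
/-- A map applied pointwise. -/
def Map.dg (f : Map a b) (k : β' → β) : Map (a.dg β E) (b.dg β' E) where
  F := (Functor.whiskeringRight E a.A b.A).obj f.F
  add := inferInstanceAs ((Functor.whiskeringRight E a.A b.A).obj f.F).Additive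
  hT _ h := (b.dg β' E).le_Tb _ ⟨fun c => genK_mapTop
    ((Functor.whiskeringRight E a.A b.A).obj f.F) (h.1 (k c)), fun e => f.hTb _ (h.2 e)⟩

variable {a} in
/-- Diagrams with values in `S`. -/
def dgS (S : ObjectProperty a.D) : ObjectProperty (a.dg β E).D :=
  fun X => (β → (a.dg β E).bdd X) ∧ ∀ e, S ((a.evd β e).D.obj X)

variable {E} in
/-- The structure maps of a diagram in the derived category. -/
noncomputable def evm {e e' : E} (g : e ⟶ e') : (a.evd β e).D ⟶ (a.evd β e').D :=
  (a.evd β e).nat (a.evd β e') ((evaluation E a.A).map g)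

variable {a} in
/-- Diagrams with values in `P` whose structure maps are invertible. -/
def dgP (P : ObjectProperty a.D) : ObjectProperty (a.dg β E).D := fun X =>
  (∀ e, P ((a.evd β e).D.obj X)) ∧ ∀ (e e' : E) (g : e ⟶ e'), IsIso ((a.evm β g).app X)

end Am

end Pool.Agent.Lib.MP_5d3e93_al.Gr
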