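import Pool.Agent.Lib.MP_5d3e93_al.Br.A1Ad
import Pool.Agent.Lib.MP_5d3e93_al.Gr.Five

/-! Finite direct diagrams keep derived equivalences. -/

open CategoryTheory Limits ZeroObject Pretriangulated

namespace Pool.Agent.Lib.MP_5d3e93_al.Gr.Am

universe v u u' v' w

open Br

variable {a : Am.{v, u}} {b : Am.{v', u'}} {β β' : Prop} {E : Type w} [Category.{0} E] [FD E]

theorem dg_gen (l : ∀ e : E, FrD a β e) (S : ObjectProperty a.D) [Tg S] (hS : β → S ≤ a.bdd) :
    dgS β E S = Cl fun X => ∃ e Y, S Y ∧ X = (l e).L.D.obj Y := by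
  classical
  have g (e Y) (h : S Y) : dgS β E S ((l e).L.D.obj Y) :=
    ⟨fun c => (l e).L.bdd_map _ (hS c _ h), fun e' => (l e).sum S Y e' h⟩
  refine le_antisymm (fun X h => ?_) (Cl.le (by rintro _ ⟨e, Y, h, rfl⟩; exact g e Y h))
  obtain ⟨k, hk⟩ := FD.deg (E := E)
  have : Finite E := FD.fin
  have := Fintype.ofFinite E
  suffices ∀ U : Finset E, (∀ e ∈ U, ∀ e', (e ⟶ e') → e' ∈ U) → ∀ X, dgS β E S X →
      (∀ e ∉ U, IsZero ((a.evd β e).D.obj X)) →
        Cl (fun X => ∃ e Y, S Y ∧ X = (l e).L.D.obj Y) X from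
    this Finset.univ (by simp) X h (by simp)
  intro U
  induction U using Finset.strongInduction with
  | H U ih =>
    intro c X h z
    rcases U.eq_empty_or_nonempty with rfl | n
    · exact .zero (dg_zero h.1 fun e => z e (by simp))
    obtain ⟨e, m, p⟩ := U.exists_min_image k n
    obtain ⟨ε, hε⟩ : ∃ ε : (l e).L.D.obj ((a.evd β e).D.obj X) ⟶ X,
        (l e).adj.unit.app _ ≫ (a.evd β e).D.map ε = 𝟙 _ :=
      ⟨_, (l e).adj.right_triangle_components X⟩
    obtain ⟨Z, s, t, d⟩ := distinguished_cocone_triangle ε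
    refine Cl.ext _ d (.of ⟨e, _, h.2 e, rfl⟩) (ih _ (U.erase_ssubset m) (fun x q y r => ?_) Z
      ((dgS β E S).ext_of_isTriangulatedClosed₃ _ d (g e _ (h.2 e)) h) fun x q => ?_)
    · obtain ⟨q1, q2⟩ := Finset.mem_erase.1 q
      refine Finset.mem_erase.2 ⟨?_, c x q2 y r⟩
      rintro rfl
      exact (hk _ _ r).elim q1 (p x q2).not_gt
    · refine (Triangle.isZero₃_iff_isIso₁ _ ((a.evd β x).D.map_distinguished _ d)).2 ?_
      change IsIso ((a.evd β x).D.map ε)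
      by_cases r : x = e
      · subst r
        have := (l x).unit ((a.evd β x).D.obj X)
        exact IsIso.of_isIso_fac_left hε
      · have q' : x ∉ U := fun y => q (Finset.mem_erase.2 ⟨r, y⟩)
        have z' := (l e).out ((a.evd β e).D.obj X) x ⟨fun y => q' (c e m x y)⟩
        exact ⟨0, z'.eq_of_src _ _, (z x q').eq_of_src _ _⟩

omit [FD E] in
theorem a1dq_map (f : Map a b) (k : β' → β) (e : E) {X Y : (a.dg β E).D} (φ : X ⟶ Y) :
    (b.evd β' e).D.map ((f.dg E k).D.map φ) = f.D.map ((a.evd β e).D.map φ) :=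
  (Map.comp_map (f.dg E k) (b.evd β' e) φ).symm.trans (Map.comp_map (a.evd β e) f φ)

theorem dg_deq (ha : β → a.T ≤ genK ⊤) (hb : β' → b.T ≤ genK ⊤) (f : Map a b) (k : β' → β)
    {S : ObjectProperty a.D} {S' : ObjectProperty b.D} [Tg S] [Tg S'] (hS : β → S ≤ a.bdd)
    (h : Deq f.D S S') : Deq (f.dg E k).D (dgS β E S) (dgS β' E S') := by
  choose l l' κ hκ using fun e : E => ex_fr₂ ha hb f k e
  have hS' (c : β') : S' ≤ b.bdd := fun Y p => by
    obtain ⟨X, q, ⟨e⟩⟩ := h.surj Y p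
    exact Cl.iso e (f.bdd_map _ (hS (k c) X q))
  have ff : FF (f.dg E k).D (dgS β E S) := by
    refine ff_of_gen (dg_gen l S hS).le ?_
    rintro _ Y ⟨e, X, p, rfl⟩ q
    have i1 := ((l' e).adj.homEquiv (f.D.obj X) ((f.dg E k).D.obj Y)).bijective.comp
      (five_bij_pre (Z := (f.dg E k).D.obj Y) ((κ e).app X))
    have i2 := (h.ff p (q.2 e)).comp ((l e).adj.homEquiv X Y).bijective
    refine (Function.Bijective.of_comp_iff' i1 _).1 ?_
    refine (congrArg Function.Bijective (funext fun φ => ?_)).mpr i2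
    change (l' e).adj.unit.app _ ≫ (b.evd β' e).D.map ((κ e).hom.app X ≫ (f.dg E k).D.map φ) =
      f.D.map ((l e).adj.unit.app X ≫ (a.evd β e).D.map φ)
    rw [Functor.map_comp, Functor.map_comp, ← Category.assoc]
    exact congrArg₂ (· ≫ ·) ((hκ e X).trans (Category.comp_id _)) (a1dq_map f k e φ)
  refine ⟨ff, fun X p => ⟨fun c => (f.dg E k).bdd_map _ (p.1 (k c)), fun e => h.maps _ (p.2 e)⟩,
    fun Y p => ?_⟩
  have := ff.tg_map
  rw [dg_gen l' S' hS'] at p
  refine Cl.le (S := (dgS β E S).map (f.dg E k).D) ?_ Y p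
  rintro _ ⟨e, Y, q, rfl⟩
  obtain ⟨X, r, ⟨i⟩⟩ := h.surj Y q
  exact ⟨(l e).L.D.obj X, (dg_gen l S hS).ge _ (.of ⟨e, X, r, rfl⟩),
    ⟨((κ e).app X).symm ≪≫ (l' e).L.D.mapIso i⟩⟩

end Pool.Agent.Lib.MP_5d3e93_al.Gr.Am
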