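import Pool.Agent.Lib.MP_5d3e93_al.Br.Four

/-! Simplicial and bisimplicial abelian groups, their chains and diagonals. -/

open CategoryTheory CategoryTheory.Limits Simplicial Opposite AlgebraicTopology

namespace Pool.Agent.Lib.MP_5d3e93_al.Br

universe u

/-- Simplicial abelian groups. -/
abbrev SA : Type (u + 1) := SimplicialObject (ModuleCat.{u} ℤ)

/-- The chain complex of a simplicial abelian group. -/
noncomputable abbrev CC : SA.{u} ⥤ Chc.{u} := alternatingFaceMapComplex (ModuleCat.{u} ℤ)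

/-- The free abelian group on a type. -/
noncomputable def Fr : Type u ⥤ ModuleCat.{u} ℤ where
  obj X := ModuleCat.of ℤ (X →₀ ℤ)
  map {_ _} f := ModuleCat.ofHom (Finsupp.lmapDomain ℤ ℤ (f : _ → _))
  map_id X := by
    ext x
    simp
  map_comp f g := by
    ext x
    simp

/-- The free simplicial abelian group on a simplicial set. -/
noncomputable def ZF : SSet.{u} ⥤ SA.{u} := (Functor.whiskeringRight _ _ _).obj Fr

/-- The unreduced chain complex of a simplicial set. -/
noncomputable abbrev ZC : SSet.{u} ⥤ Chc.{u} := ZF ⋙ CC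

/-- Bisimplicial abelian groups. -/
abbrev BS : Type (u + 1) := SimplexCategoryᵒᵖ ⥤ SA.{u}

/-- The diagonal of a functor of two variables. -/
@[simps]
def dgG (J : Type*) [Category J] (C : Type*) [Category C] : (J ⥤ J ⥤ C) ⥤ J ⥤ C where
  obj M :=
    { obj := fun n => (M.obj n).obj n
      map := fun {n m} f => (M.map f).app n ≫ (M.obj m).map f }
  map f := { app := fun n => (f.app n).app n
             naturality := fun n m g => by
               simp only [Category.assoc, NatTrans.naturality]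
               rw [← Category.assoc, ← Category.assoc, ← NatTrans.comp_app, ← NatTrans.comp_app,
                 f.naturality] }

/-- The diagonal of a bisimplicial abelian group. -/
abbrev dg : BS.{u} ⥤ SA.{u} := dgG SimplexCategoryᵒᵖ (ModuleCat.{u} ℤ)

theorem cc_d (X : SA.{u}) (n : ℕ) (x : X _⦋n + 1⦌) :
    (CC.obj X).d (n + 1) n x = ∑ i : Fin (n + 2), (-1 : ℤ) ^ (i : ℕ) • X.δ i x := by
  rw [alternatingFaceMapComplex_obj_d, AlternatingFaceMapComplex.objD]
  simp [ModuleCat.hom_sum]

theorem cc_f {X Y : SA.{u}} (f : X ⟶ Y) (n : ℕ) : (CC.map f).f n = f.app (op ⦋n⦌) := rfl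

theorem fr_map {X Y : Type u} (f : X ⟶ Y) (z : X →₀ ℤ) :
    (Fr.map f : Fr.obj X ⟶ Fr.obj Y) z = Finsupp.mapDomain f z := rfl

theorem zf_map (X : SSet.{u}) {n m : SimplexCategoryᵒᵖ} (g : n ⟶ m) (z : X.obj n →₀ ℤ) :
    (ZF.obj X).map g z = Finsupp.mapDomain (X.map g) z := rfl

theorem zc_f {X Y : SSet.{u}} (f : X ⟶ Y) (n : ℕ) (z : X _⦋n⦌ →₀ ℤ) :
    (ZC.map f).f n z = Finsupp.mapDomain (f.app (op ⦋n⦌)) z := rfl

theorem zc_d (X : SSet.{u}) (n : ℕ) (z : X _⦋n + 1⦌ →₀ ℤ) :
    (ZC.obj X).d (n + 1) n z = ∑ i : Fin (n + 2), (-1 : ℤ) ^ (i : ℕ) • Finsupp.mapDomain (X.δ i) z :=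
  cc_d (ZF.obj X) n z

/-- A degreewise short exact sequence of simplicial abelian groups gives one of chains. -/
theorem cc_shortExact (S : ShortComplex SA.{u})
    (hf : ∀ n, Function.Injective (S.f.app n)) (hg : ∀ n, Function.Surjective (S.g.app n))
    (he : ∀ n (x : S.X₂.obj n), S.g.app n x = 0 → ∃ y, S.f.app n y = x) :
    (S.map CC).ShortExact := by
  refine HomologicalComplex.shortExact_of_degreewise_shortExact _ fun n => ?_
  refine { exact := (ShortComplex.moduleCat_exact_iff _).2 (he (op ⦋n⦌))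
           mono_f := (ModuleCat.mono_iff_injective _).2 (hf (op ⦋n⦌))
           epi_g := (ModuleCat.epi_iff_surjective _).2 (hg (op ⦋n⦌)) }

end Pool.Agent.Lib.MP_5d3e93_al.Br
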