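import Pool.Agent.Lib.MP_5d3e93_al.Br.A1Df
import Pool.Agent.Lib.MP_5d3e93_al.Br.Sa

/-! Homology isomorphisms of semi-simplicial sets give connected chain maps. -/

open CategoryTheory Limits ZeroObject

namespace Pool.Agent.Lib.MP_5d3e93_al

universe u v u' v' u'' v'' w

namespace Br

open SS

section A1Gl
/-- The underlying map of semi-simplicial sets. -/
def SS.ofMap {X Y : SSet.{u}} (f : X ⟶ Y) : Hom (ofSSet X) (ofSSet Y) :=
  ⟨fun {n} x => f.app (.op (.mk n)) x, fun θ x =>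
    ConcreteCategory.congr_hom (f.naturality (SimplexCategory.mkHom θ.toOrderHom).op) x⟩

theorem a1gl_d (X : SSet.{u}) (n : ℕ) (z : (ofSSet X).C (n + 1)) :
    (ZC.obj X).d (n + 1) n z = (ofSSet X).d n z := by
  refine (zc_d X n z).trans ?_
  rw [SS.d, LinearMap.sum_apply]
  rfl

theorem a1gl_cy (X : SSet.{u}) (n : ℕ) (z : (ofSSet X).C n) :
    IsCy (ZC.obj X) n z ↔ z ∈ (ofSSet X).cy n := by
  cases n with
  | zero => exact ⟨fun _ => trivial, fun _ => cy_zero _⟩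
  | succ n => exact ⟨fun h => (a1gl_d X n z).symm.trans h, fun h => (a1gl_d X n z).trans h⟩

theorem cn_of_hi {X Y : SSet.{u}} {f : X ⟶ Y} (h : (SS.ofMap f).Hi) (a : ℕ) : Cn a (ZC.map f) := by
  refine ⟨fun n _ y hy => ?_, fun n _ x z hx e => ?_⟩
  · obtain ⟨x, hx, z, hz⟩ := h.surj n y ((a1gl_cy Y n y).1 hy)
    refine ⟨x, (-z : (ofSSet Y).C (n + 1)), (a1gl_cy X n x).2 hx, ?_⟩
    have e : ∀ y : (ofSSet Y).C n, (ofSSet Y).d n z = (SS.ofMap f).c n x - y →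
        y = (SS.ofMap f).c n x + (ofSSet Y).d n (-z) := fun y hz => by
      rw [map_neg, hz]
      abel
    exact (e y hz).trans (congrArg (fun t : (ofSSet Y).C n => (SS.ofMap f).c n x + t)
      (a1gl_d Y n (-z)).symm)
  · obtain ⟨w, hw⟩ := h.inj n x ((a1gl_cy X n x).1 hx) ⟨z, (e.trans (a1gl_d Y n z)).symm⟩
    exact ⟨w, ((a1gl_d X n w).trans hw).symm⟩

theorem cn_nerve {𝒳 𝒴 : Type u} [Category.{v} 𝒳] [Category.{v} 𝒴] {F : 𝒳 ⥤ 𝒴} (h : (nvm F).Hi)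
    (a : ℕ) : Cn a (ZC.map (nerveMap F)) :=
  cn_of_hi (f := nerveMap F) ⟨h.surj, h.inj⟩ a
end A1Gl

end Br

end Pool.Agent.Lib.MP_5d3e93_al
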