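import Pool.Agent.Lib.MP_5d3e93_al.Br.A1Am
import Pool.Agent.Lib.MP_5d3e93_al.Br.A1Cn

/-! Natural transformations give homotopies of nerves. -/

open CategoryTheory

namespace Pool.Agent.Lib.MP_5d3e93_al.Br

open SS

universe u v u' v'

variable {𝒳 : Type u} [Category.{v} 𝒳] {𝒴 : Type u'} [Category.{v'} 𝒴]

/-- The prisms as acyclic models. -/
def pzM : Cs.{0} where
  P n := nv (Fin 2 × Fin (n + 1))
  δ θ := nvm ((𝟭 _).prod θ.monotone.functor)
  δ_id _ := rfl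
  δ_comp _ _ := rfl
  acy _ := acy_thin (fun a b => inferInstanceAs (Subsingleton ((a.1 ⟶ b.1) × (a.2 ⟶ b.2))))
    (Fin.last _, Fin.last _) fun _ => ⟨(homOfLE (Fin.le_last _), homOfLE (Fin.le_last _))⟩

/-- The characteristic maps of a homotopy. -/
def pzR (K : Fin 2 ⥤ 𝒳 ⥤ 𝒴) : pzM.Re (nv 𝒳) (nv 𝒴) :=
  ⟨fun σ => nvm ((𝟭 _).prod σ ⋙ Functor.uncurry.obj K), fun _ _ => rfl⟩

/-- The two ends of the prism. -/
def pzX (j : Fin 2) (n : ℕ) : (pzM.P n).X n := Prod.sectR j (Fin (n + 1))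

/-- The two ends of the prism as chains. -/
noncomputable def pzE (j : Fin 2) (n : ℕ) : (pzM.P n).C n := Finsupp.single (pzX j n) 1

theorem pz_d (j : Fin 2) (n : ℕ) : (pzM.P (n + 1)).d n (pzE j (n + 1)) = pzM.D n n (pzE j n) := by
  rw [pzE, pzE, SS.d_single, Cs.D, LinearMap.sum_apply]
  exact Finset.sum_congr rfl fun i _ => by
    rw [LinearMap.smul_apply, SS.Hom.c_single]
    rfl

theorem pz_ev (K : Fin 2 ⥤ 𝒳 ⥤ 𝒴) (j : Fin 2) (n : ℕ) (z : (nv 𝒳).C n) :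
    (pzR K).ev (pzE j n) z = (nvm (K.obj j)).c n z := by
  have e : Prod.sectR j 𝒳 ⋙ Functor.uncurry.obj K = K.obj j :=
    Functor.hext (fun _ => rfl) fun X _ f => heq_of_eq
      ((congrArg (fun t => t.app X ≫ (K.obj j).map f) (K.map_id j)).trans (Category.id_comp _))
  induction z using Finsupp.induction_linear with
  | zero => rw [map_zero, map_zero]
  | add x y a b => rw [map_add, map_add, a, b]
  | single x a =>
    rw [Cs.Re.ev_single, pzE, SS.Hom.c_single, SS.Hom.c_single, Finsupp.smul_single, smul_eq_mul,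
      mul_one, ← e]
    rfl

theorem ht_nat {F G : 𝒳 ⥤ 𝒴} (α : F ⟶ G) : (nvm F).Ht (nvm G) := fun n z hz => by
  have h := (pzR (ComposableArrows.mk₁ α)).null (fun n => pzE 0 n - pzE 1 n)
    (by rw [map_sub, pzE, pzE, SS.ε_single, SS.ε_single, sub_self])
    (fun n => by rw [map_sub, map_sub, pz_d, pz_d]) n z hz
  rwa [Cs.Re.ev_sub, pz_ev, pz_ev] at h

theorem ht_zigzag {F G : 𝒳 ⥤ 𝒴} (h : Zigzag F G) : (nvm F).Ht (nvm G) := by
  induction h with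
  | refl => exact SS.Hom.Ht.refl _
  | tail _ k ih => exact ih.trans (k.elim (fun ⟨α⟩ => ht_nat α) fun ⟨α⟩ => (ht_nat α).symm)

theorem hi_of_zigzag (F : 𝒳 ⥤ 𝒴) (G : 𝒴 ⥤ 𝒳) (h : Zigzag (F ⋙ G) (𝟭 _))
    (k : Zigzag (G ⋙ F) (𝟭 _)) : (nvm F).Hi :=
  SS.Hom.hi_of_inv (g := nvm G) (show (nvm (F ⋙ G)).Ht (nvm (𝟭 _)) from ht_zigzag h)
    (show (nvm (G ⋙ F)).Ht (nvm (𝟭 _)) from ht_zigzag k)

/-- A category whose identity is connected to a constant functor is acyclic. -/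
theorem acy_of_zigzag (t : 𝒳) (h : Zigzag (𝟭 𝒳) ((Functor.const 𝒳).obj t)) : (nv 𝒳).Acy := by
  let p := nvm ((Functor.const 𝒳).obj (0 : Fin 1))
  have a : (nv (Fin 1)).Acy := acy_thin (fun _ _ => inferInstance) 0
    fun a => ⟨homOfLE (Subsingleton.elim a 0).le⟩
  have key : ∀ n, ∀ z ∈ (nv 𝒳).cy n, p.c n z ∈ (nv (Fin 1)).bd n → z ∈ (nv 𝒳).bd n :=
    fun n z hz k => by
      have k' : (nvm ((Functor.const 𝒳).obj t)).c n z ∈ (nv 𝒳).bd n := by
        have := (nvm ((Functor.const (Fin 1)).obj t)).c_bd k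
        rwa [← SS.Hom.c_comp] at this
      have e := add_mem (ht_zigzag h n z hz) k'
      rwa [sub_add_cancel, show nvm (𝟭 𝒳) = SS.Hom.id _ from rfl, SS.Hom.c_id] at e
  exact ⟨fun z hz => key 0 z trivial (a.1 _ ((p.ε_c z).trans hz)),
    fun n z hz => key (n + 1) z hz (a.2 n _ (p.c_cy (n := n + 1) hz))⟩

end Pool.Agent.Lib.MP_5d3e93_al.Br
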