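import Pool.Agent.Lib.MP_5d3e93_al.Br.A1Dg

/-! Roofs of strictly bounded complexes and conservativity of the evaluation functors. -/

open CategoryTheory Limits ZeroObject Pretriangulated

namespace Pool.Agent.Lib.MP_5d3e93_al

universe u v u' v' u'' v'' w

namespace Gr.Am

open Br

variable {a : Am.{v, u}} {b : Am.{v', u'}} {β β' : Prop} {E : Type w} [Category.{0} E]

theorem a1rf_strict {C : Type u} [Category.{v} C] [Preadditive C] [HasZeroObject C]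
    [HasBinaryBiproducts C] {X : Kh C} (h : β → genK ⊤ X) :
    ∃ K, (β → Sb ⊤ K) ∧ Nonempty (X ≅ (HomotopyCategory.quotient _ _).obj K) := by
  by_cases c : β
  · obtain ⟨K, k, e⟩ := genK_strict (h c)
    exact ⟨K, fun _ => k, e⟩
  · exact ⟨X.as, fun d => (c d).elim, ⟨Iso.refl _⟩⟩

theorem roof (ha : β → a.T ≤ genK ⊤) {K L : CochainComplex a.A ℤ} (hK : β → Sb ⊤ K)
    (hL : β → Sb ⊤ L) (e : a.nq.obj K ≅ a.nq.obj L) :
    ∃ (M : CochainComplex a.A ℤ) (φ : K ⟶ M) (ψ : L ⟶ M),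
      (β → Sb ⊤ M) ∧ IsIso (a.nq.map φ) ∧ IsIso (a.nq.map ψ) := by
  obtain ⟨r, hr⟩ := Localization.exists_leftFraction a.Q a.T.trW
    (X := (HomotopyCategory.quotient _ _).obj K) (Y := (HomotopyCategory.quotient _ _).obj L) e.hom
  have s := Localization.inverts a.Q a.T.trW r.s r.hs
  have i : IsIso (a.Q.map r.f) := by
    rw [← r.map_comp_map_s a.Q (Localization.inverts _ _), ← hr]
    exact IsIso.comp_isIso' e.isIso_hom s
  obtain ⟨Z, g, t, hZ, z⟩ := r.hs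
  obtain ⟨M, m, ⟨k⟩⟩ := a1rf_strict (β := β) (X := r.Y') fun c =>
    Cl.ext _ hZ (hL c).genK (ha c _ z)
  obtain ⟨φ, hφ⟩ := (HomotopyCategory.quotient a.A (.up ℤ)).map_surjective (r.f ≫ k.hom)
  obtain ⟨ψ, hψ⟩ := (HomotopyCategory.quotient a.A (.up ℤ)).map_surjective (r.s ≫ k.hom)
  refine ⟨M, φ, ψ, m, ?_, ?_⟩
  · show IsIso (a.Q.map ((HomotopyCategory.quotient a.A (.up ℤ)).map φ))
    rw [hφ, Functor.map_comp]
    infer_instance
  · show IsIso (a.Q.map ((HomotopyCategory.quotient a.A (.up ℤ)).map ψ))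
    rw [hψ, Functor.map_comp]
    infer_instance

theorem a1rf_ex (ha : β → a.T ≤ genK ⊤) {X : a.D} (h : β → a.bdd X) :
    ∃ Y, (β → genK ⊤ Y) ∧ Nonempty (a.Q.obj Y ≅ X) := by
  by_cases c : β
  · obtain ⟨Y, y, e⟩ := a.exists_genK (ha c) (h c)
    exact ⟨Y, fun _ => y, e⟩
  · obtain ⟨K, rfl⟩ := a.exists_cx X
    exact ⟨_, fun d => (c d).elim, ⟨Iso.refl _⟩⟩

theorem ex_sb (ha : β → a.T ≤ genK ⊤) {X : a.D} (h : β → a.bdd X) :
    ∃ K, (β → Sb ⊤ K) ∧ Nonempty (a.nq.obj K ≅ X) := by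
  obtain ⟨Y, y, ⟨e⟩⟩ := a1rf_ex ha h
  obtain ⟨K, k, ⟨i⟩⟩ := a1rf_strict y
  exact ⟨K, k, ⟨(a.Q.mapIso i).symm ≪≫ e⟩⟩

theorem bdd_of_sb {K : CochainComplex a.A ℤ} (h : Sb ⊤ K) : a.bdd (a.nq.obj K) :=
  a.gen_of_genK h.genK

theorem dg_gs (h : β) : (a.dg β E).T ≤ genK ⊤ := fun _ k => k.1 h

theorem dg_zero {X : (a.dg β E).D} (h : β → (a.dg β E).bdd X)
    (k : ∀ e, IsZero ((a.evd β e).D.obj X)) : IsZero X := by
  obtain ⟨Y, y, ⟨i⟩⟩ := a1rf_ex (a := a.dg β E) dg_gs h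
  exact IsZero.of_iso ((a.dg β E).le_Tb Y ⟨y, fun e =>
    (k e).of_iso ((a.evd β e).D.mapIso i)⟩) i.symm

theorem dg_isIso {X Y : (a.dg β E).D} (h : β → (a.dg β E).bdd X) (h' : β → (a.dg β E).bdd Y)
    (φ : X ⟶ Y) (k : ∀ e, IsIso ((a.evd β e).D.map φ)) : IsIso φ := by
  obtain ⟨Z, g, t, hZ⟩ := distinguished_cocone_triangle φ
  exact (Triangle.isZero₃_iff_isIso₁ _ hZ).1 (dg_zero
    (fun c => (a.dg β E).bdd.ext_of_isTriangulatedClosed₃ _ hZ (h c) (h' c)) fun e =>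
      (Triangle.isZero₃_iff_isIso₁ _ ((a.evd β e).D.map_distinguished _ hZ)).2 (k e))

instance (S : ObjectProperty a.D) [Tg S] : Tg (dgS β E S) :=
  Tg.mk' (fun _ h => ⟨fun _ => Tg.zero _ h, fun _ => Tg.zero _ (Functor.map_isZero _ h)⟩)
    (fun n X h => ⟨fun c => (a.dg β E).bdd.le_shift n X (h.1 c), fun e =>
      (S.inverseImage (a.evd β e).D).le_shift n X (h.2 e)⟩)
    fun T k h h' => ⟨fun c => (a.dg β E).bdd.ext_of_isTriangulatedClosed₂ T k (h.1 c) (h'.1 c),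
      fun e => (S.inverseImage (a.evd β e).D).ext_of_isTriangulatedClosed₂ T k (h.2 e) (h'.2 e)⟩

theorem dgP_iso {P : ObjectProperty a.D} [P.IsClosedUnderIsomorphisms] {X Y : (a.dg β E).D}
    (e : X ≅ Y) (h : dgP β E P X) : dgP β E P Y :=
  ⟨fun c => P.prop_of_iso ((a.evd β c).D.mapIso e) (h.1 c), fun c c' g =>
    (NatTrans.isIso_app_iff_of_iso _ e).1 (h.2 c c' g)⟩

theorem evd_dg (f : Map a b) (k : β' → β) (e : E) (X : (a.dg β E).D) :
    (b.evd β' e).D.obj ((f.dg E k).D.obj X) = f.D.obj ((a.evd β e).D.obj X) := by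
  induction X using nq_ind with | h K => rfl

/-- Both sides are `nat` of one transformation (`nat_obj`, `map_nat`). -/
theorem evm_dg (f : Map a b) (k : β' → β) {e e' : E} (g : e ⟶ e') (X : (a.dg β E).D) :
    IsIso ((b.evm β' g).app ((f.dg E k).D.obj X)) ↔ IsIso (f.D.map ((a.evm β g).app X)) := by
  induction X using nq_ind with | h K => ?_
  rw [evm, evm, Map.nat_obj, Map.map_nat, Map.nq_nat, Map.nq_nat]
  rfl

end Gr.Am

end Pool.Agent.Lib.MP_5d3e93_al
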