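import Pool.Agent.Lib.MP_5d3e93_al.Br.Df

/-! Universal coefficients for the cellular complexes. -/

open CategoryTheory Topology Set Function Filter Opposite

namespace Pool.Agent.Lib.MP_5d3e93_al.Br

universe u v

open Ps

theorem cdif_map {J J' : Type v} {k : ℕ} (fc : J → Fin k → Option J') {B B' : Type*}
    [AddCommGroup B] [AddCommGroup B'] (φ : B →+ B') (c : J →₀ B) :
    cdif fc B' (Finsupp.mapRange.addMonoidHom φ c) =
      Finsupp.mapRange.addMonoidHom φ (cdif fc B c) := by
  induction c using Finsupp.induction_linear with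
  | zero => simp only [map_zero]
  | add a b h k => simp only [map_add, h, k]
  | single x b =>
    have e {K : Type v} (y : K) (b : B) : Finsupp.mapRange.addMonoidHom φ (Finsupp.single y b) =
        Finsupp.single y (φ b) := Finsupp.mapRange_single (hf := φ.map_zero)
    simp only [e, cdif, Finsupp.liftAddHom_apply_single, AddMonoidHom.finsetSum_apply, map_sum,
      AddMonoidHom.smul_apply, map_zsmul]
    refine Finset.sum_congr rfl fun i _ => ?_
    cases fc x i
    · simp
    · exact congrArg _ (e _ _).symm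

theorem uc_lift {J : Type v} {A M : Type*} [AddCommGroup A] [AddCommGroup M] (p : A →+ M)
    (g : (J →₀ ℤ) →+ M) (h : ∀ x, ∃ b, p b = g (Finsupp.single x 1)) :
    ∃ s : (J →₀ ℤ) →+ A, ∀ c, p (s c) = g c := by
  choose b hb using h
  refine ⟨Finsupp.liftAddHom fun x => zmultiplesHom A (b x), fun c => DFunLike.congr_fun
    (?_ : p.comp _ = g) c⟩
  ext x
  simp [hb]

/-- An integer vector times a coefficient. -/
noncomputable def ucL (J : Type v) (B : Type*) [AddCommGroup B] : (J →₀ ℤ) →+ B →+ (J →₀ B) :=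
  Finsupp.liftAddHom fun y => zmultiplesHom _ (Finsupp.singleAddHom y)

theorem ucL_one {J : Type v} {B : Type*} [AddCommGroup B] (x : J) (b : B) :
    ucL J B (Finsupp.single x 1) b = Finsupp.single x b := by
  simp [ucL]

theorem ucL_eq {J : Type v} {B : Type*} [AddCommGroup B] (c : J →₀ ℤ) (b : B) :
    ucL J B c b = Finsupp.mapRange.addMonoidHom (zmultiplesHom B b) c := by
  induction c using Finsupp.induction_linear with
  | zero => simp only [map_zero, AddMonoidHom.zero_apply]
  | add a b h k => simp only [map_add, AddMonoidHom.add_apply, h, k]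
  | single x n => simp [ucL]

/-- An integer matrix acts on vectors with coefficients. -/
theorem uc_act {J J' : Type v} (B : Type*) [AddCommGroup B] (φ : (J →₀ ℤ) →+ (J' →₀ ℤ)) :
    ∃ T : (J →₀ B) →+ (J' →₀ B), ∀ c b, T (ucL J B c b) = ucL J' B (φ c) b := by
  refine ⟨Finsupp.liftAddHom fun x => ucL J' B (φ (Finsupp.single x 1)), fun c b => ?_⟩
  induction c using Finsupp.induction_linear with
  | zero => simp only [map_zero, AddMonoidHom.zero_apply]
  | add a b h k => simp only [map_add, AddMonoidHom.add_apply, h, k]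
  | single x n =>
    rw [show Finsupp.single x n = n • Finsupp.single x (1 : ℤ) by simp]
    simp only [map_zsmul, AddMonoidHom.smul_apply, ucL_one, Finsupp.liftAddHom_apply_single]

section Uc
variable {J : ℕ → Type v} {fc : ∀ d, J (d + 1) → Fin (d + 2) → Option (J d)} {a : ℕ}

theorem uc_step (h : Acy fc ℤ a) {d : ℕ} (hd : d + 1 < a) {s : (J d →₀ ℤ) →+ (J (d + 1) →₀ ℤ)}
    (hs : ∀ c, cdif (fc d) ℤ (s (cdif (fc d) ℤ c)) = cdif (fc d) ℤ c) :
    ∃ s' : (J (d + 1) →₀ ℤ) →+ (J (d + 2) →₀ ℤ),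
      ∀ c, cdif (fc (d + 1)) ℤ (s' c) = c - s (cdif (fc d) ℤ c) :=
  uc_lift _ (.id _ - s.comp (cdif (fc d) ℤ)) fun x => h.succ d hd _ (by simp [hs])

theorem uc_ex (h : Acy fc ℤ a) (dd : ∀ d c, cdif (fc d) ℤ (cdif (fc (d + 1)) ℤ c) = 0) (d : ℕ)
    (hd : d < a) : ∃ s : (J d →₀ ℤ) →+ (J (d + 1) →₀ ℤ),
      ∀ c, cdif (fc d) ℤ (s (cdif (fc d) ℤ c)) = cdif (fc d) ℤ c := by
  induction d with
  | zero => exact (uc_lift _ (.id _) fun x => h.zero hd _).imp fun s k c => k _
  | succ d ih =>
    obtain ⟨s, hs⟩ := ih (by omega)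
    exact (uc_step h hd hs).imp fun s' k c => by rw [k, dd, map_zero, sub_zero]

theorem Acy.coef (h : Acy fc ℤ a) (dd : ∀ d c, cdif (fc d) ℤ (cdif (fc (d + 1)) ℤ c) = 0)
    (B : Type*) [AddCommGroup B] : Acy fc B a := by
  have n (d) (c) (b : B) : cdif (fc d) B (ucL _ B c b) = ucL _ B (cdif (fc d) ℤ c) b := by
    rw [ucL_eq, ucL_eq, cdif_map]
  refine ⟨fun ha c => ?_, fun d hd c hc => ?_⟩
  · induction c using Finsupp.induction_linear with
    | zero => exact ⟨0, map_zero _⟩
    | add _ _ h k =>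
      obtain ⟨x, rfl⟩ := h
      obtain ⟨y, rfl⟩ := k
      exact ⟨x + y, map_add ..⟩
    | single x b =>
      obtain ⟨y, e⟩ := h.zero ha (Finsupp.single x 1)
      exact ⟨ucL _ B y b, by rw [n, e, ucL_one]⟩
  · obtain ⟨s, hs⟩ := uc_ex h dd d (by omega)
    obtain ⟨s', hs'⟩ := uc_step h hd hs
    obtain ⟨T, hT⟩ := uc_act B s
    obtain ⟨T', hT'⟩ := uc_act B s'
    have e (c) : cdif (fc (d + 1)) B (T' c) = c - T (cdif (fc d) B c) := by
      induction c using Finsupp.induction_linear with
      | zero => simp only [map_zero, sub_zero]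
      | add _ _ h k => rw [map_add, map_add, h, k, map_add, map_add, add_sub_add_comm]
      | single x b => rw [← ucL_one, hT', n, hs', n, hT, map_sub, AddMonoidHom.sub_apply]
    exact ⟨T' c, by rw [e, hc, map_zero, sub_zero]⟩
end Uc

end Pool.Agent.Lib.MP_5d3e93_al.Br
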