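import Pool.Agent.Lib.MP_5d3e93_al.Br.D1
import Pool.Agent.Lib.MP_5d3e93_al.Br.Uc

/-! Descent along the cell filtration. -/

open CategoryTheory Function

namespace Pool.Agent.Lib.MP_5d3e93_al.Br

universe u

open Ps

variable {T : Ps.{u}} (K : Cx T) {a : ℕ} {n : ℤ}

theorem Cx.ah_low {d : ℕ} (h : n < d) (e : Sh n (Q (K.v d))) : e = 0 := by
  obtain ⟨c, rfl⟩ := (K.st d).wedge.2 e
  rw [show c = 0 from Finsupp.ext fun x => sh_Dq h _, map_zero]

theorem Cx.ah_img {d : ℕ} (b : K.J (d + 1) →₀ Sh n (Dq d)) :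
    ∃ z, hm n (qk (K.v d)) ((K.st (d + 1)).ndr.bd n z) =
      Finsupp.liftAddHom (fun x => hm n ((K.st d).χ x)) (cdif K.fc _ b) := by
  obtain ⟨b, rfl⟩ := Finsupp.mapRange_surjective _ (map_zero (cf d 0 n)) (cf_bij d n).2 b
  exact ⟨_, K.d1 d n b⟩

variable (h : ∀ B : Type u, ∀ [AddCommGroup B], Acy (fun _ => K.fc) B a)

include h

theorem Cx.ah_zero (ha : 0 < a) (e : Sh n (Q (K.v 0))) :
    ∃ z, hm n (qk (K.v 0)) ((K.st 1).ndr.bd n z) = e := by
  obtain ⟨c, rfl⟩ := (K.st 0).wedge.2 e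
  obtain ⟨b, rfl⟩ := (h _).zero ha c
  exact K.ah_img b

theorem Cx.ah_succ {d : ℕ} (ha : d + 1 < a) (e : Sh (n + 1) (Q (K.v (d + 1))))
    (k : hm n (qk (K.v d)) ((K.st (d + 1)).ndr.bd n e) = 0) :
    ∃ z, hm (n + 1) (qk (K.v (d + 1))) ((K.st (d + 2)).ndr.bd (n + 1) z) = e := by
  obtain ⟨c, rfl⟩ := (K.st (d + 1)).wedge.2 e
  rw [K.d1, map_eq_zero_iff _ (K.st d).wedge.1, cdif_map, map_eq_zero_iff _
    (Finsupp.mapRange_injective _ (map_zero (cf d 0 n)) (cf_bij d n).1)] at k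
  obtain ⟨b, rfl⟩ := (h _).succ d ha c k
  exact K.ah_img b

theorem Cx.surj (hn : n < a) : Surjective (hm n (K.w 0)) := by
  intro x
  obtain ⟨d, y, rfl⟩ := K.toFl.surj x
  induction d with
  | zero => exact ⟨y, rfl⟩
  | succ d ih =>
    have : ∃ z, hm n (qk (K.v d)) ((K.st (d + 1)).ndr.bd n z) = hm n (qk (K.v d)) y := by
      obtain l | l := lt_or_ge n d
      · exact ⟨0, (K.ah_low l _).trans (K.ah_low l _).symm⟩
      obtain _ | d := d
      · exact K.ah_zero h (by omega) _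
      obtain ⟨n, rfl⟩ : ∃ k, n = k + 1 := ⟨n - 1, by omega⟩
      exact K.ah_succ h (by omega) _ (by
        rw [(K.st (d + 1)).ndr.ex₂.apply_apply_eq_zero, map_zero])
    obtain ⟨z, e⟩ := this
    obtain ⟨y', e'⟩ := ((K.st d).ndr.ex₁ (y - (K.st (d + 1)).ndr.bd n z)).1
      (by rw [map_sub, e, sub_self])
    obtain ⟨x, k⟩ := ih y'
    refine ⟨x, ?_⟩
    rw [k, ← K.vw d, hm_comp, e', map_sub, ← K.vw (d + 1), hm_comp _ _ (Ndr.bd _ n z),
      (K.st (d + 1)).ndr.ex₃.apply_apply_eq_zero, map_zero, sub_zero]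

theorem Cx.inj (hn : n + 1 < a) : Injective (hm n (K.w 0)) := by
  have : ∀ d x, hm n (K.v0 d) x = 0 → x = 0 := by
    intro d
    induction d with
    | zero => exact fun x e => (hm_id x).symm.trans e
    | succ d ih =>
      intro x e
      obtain ⟨z, k⟩ := ((K.st d).ndr.ex₃ _).1 ((hm_comp (K.v0 d) (K.v d) x).symm.trans e)
      refine ih x (k ▸ ((K.st d).ndr.ex₂ z).2 ?_)
      obtain l | l := lt_or_ge (n + 1) d
      · exact ⟨0, (map_zero _).trans (K.ah_low l _).symm⟩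
      obtain _ | d := d
      · exact (K.ah_zero h (by omega) z).elim fun _ e => ⟨_, e⟩
      refine (K.ah_succ h (by omega) z ?_).elim fun _ e => ⟨_, e⟩
      rw [k, show K.v0 (d + 1) = K.v0 d ≫ K.v d from rfl, hm_comp,
        (K.st d).ndr.ex₁.apply_apply_eq_zero]
  refine (injective_iff_map_eq_zero _).2 fun x e => K.toFl.zero
    (p := fun d y => ∀ x, hm n (K.v0 d) x = y → x = 0) this (fun d y k x e => k x ?_) e x (hm_id x)
  rw [← e, ← hm_comp]
  rfl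

end Pool.Agent.Lib.MP_5d3e93_al.Br
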