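import Pool.Agent.Lib.MP_5d3e93_al.Br.FamB
import Pool.Agent.Lib.MP_5d3e93_al.Br.A1Dg

/-! Labelled families over an ambient category, triples and labelled triples. -/

open CategoryTheory Limits Pretriangulated ZeroObject Opposite

namespace Pool.Agent.Lib.MP_5d3e93_al.A2

open Gr Am Lab.Cv

universe v u v' u'

set_option backward.isDefEq.respectTransparency false

instance (a : Am.{v, u}) : HasFiniteBiproducts a.A :=
  have := hasFiniteProducts_of_has_binary_and_terminal (C := a.A)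
  HasFiniteBiproducts.of_hasFiniteProducts

variable {Λ Λ' : Lab} {a : Am.{v, u}} {a' : Am.{v', u'}}

theorem cut_tri {b : Am.{v', u'}} {f₁ f f₂ : Map b a} {α : f₁.F ⟶ f.F} {β : f.F ⟶ f₂.F}
    (h : α ≫ β = 0) (k : ∀ X, ∃ r s, α.app X ≫ r = 𝟙 _ ∧ s ≫ β.app X = 𝟙 _ ∧
      r ≫ α.app X + β.app X ≫ s = 𝟙 _) (X : b.D) :
    ∃ δ, Triangle.mk ((f₁.nat f α).app X) ((f.nat f₂ β).app X) δ ∈ distTriang a.D :=
  Ses.tri (ses_of_split (h := h) k ⊤) trivial

/-- A sum lies in a class as soon as its graded pieces do. -/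
theorem gr_of (P : ObjectProperty a.D) [Tg P] (K : CochainComplex (Fam Λ a.A) ℤ) (V : Λ.Cv)
    (h : ∀ l ∈ V.V, P (a.nq.obj (((Fam.sm a.A (one l)).mapHomologicalComplex _).obj K))) :
    P (a.nq.obj (((Fam.sm a.A V).mapHomologicalComplex _).obj K)) := by
  let s (W : Λ.Cv) : Map (of.{v, max 1 u} (Fam Λ a.A)) a := ofMap (Fam.sm a.A W)
  let X := (of.{v, max 1 u} (Fam Λ a.A)).nq.obj K
  change P ((s V).D.obj X)
  induction hn : V.V.ncard using Nat.strong_induction_on generalizing V with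
  | _ n ih =>
  rcases V.V.eq_empty_or_nonempty with e | ne
  · exact Tg.zero P ((s V).isZero (fun Q => Fam.sm_isZero fun i => by simp [e]) X)
  obtain ⟨l, hl, m⟩ := (Set.toFinite V.V).exists_maximal ne
  let V₁ : Λ.Cv := ⟨V.V \ {l}, Set.sdiff_subset.trans V.sub, ⟨fun x p z q y r =>
    ⟨V.conv.out p.1 q.1 r, fun e => q.2 (le_antisymm (m q.1 (e ▸ r.2)) (e ▸ r.2))⟩⟩⟩
  have c : Cut V₁ V (one l) := ⟨fun x => ⟨fun p => (em (x = l)).elim
    (fun e => .inr ⟨V.sub p, e⟩) fun e => .inl ⟨p, e⟩, fun p => p.elim (·.1) fun q => q.2 ▸ hl⟩,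
    fun x p y q r => p.2 (le_antisymm (m p.1 (q.2 ▸ r)) (q.2 ▸ r))⟩
  obtain ⟨δ, t⟩ := cut_tri (f₁ := s V₁) (f := s V) (f₂ := s (one l)) (Fam.eta_zero c)
    (Fam.eta_split c) X
  exact P.ext_of_isTriangulatedClosed₂ _ t (ih _ (hn ▸ Set.ncard_sdiff_singleton_lt_of_mem hl) V₁
    (fun x p => h x p.1) rfl) (h l hl)

variable (Λ a) in
/-- Complexes of families all of whose graded pieces are trivial. -/
def famT : ObjectProperty (Kh (Fam Λ a.A)) :=
  fun X => ∀ l, a.Tb (((Fam.sm a.A (one l)).mapHomotopyCategory _).obj X)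

instance : Tg (famT Λ a) := Tg.mk' (fun _ h _ => Tg.zero _ (Functor.map_isZero _ h))
  (fun n X h l => (a.Tb.inverseImage
    ((Fam.sm a.A (one l)).mapHomotopyCategory _)).le_shift n X (h l))
  fun T k h h' l => (a.Tb.inverseImage
    ((Fam.sm a.A (one l)).mapHomotopyCategory _)).ext_of_isTriangulatedClosed₂ T k (h l) (h' l)

variable (Λ a) in
/-- Families over an ambient category. -/
noncomputable def FamA : Am.{v, max 1 u} := ⟨Fam Λ a.A, famT Λ a⟩

variable (a) in
/-- The sum over a convex set of labels. -/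
noncomputable def smM (V : Λ.Cv) : Map (FamA Λ a) a where
  F := Fam.sm a.A V
  add := inferInstanceAs (Fam.sm a.A V).Additive
  hT X h := gr_of Zr X.as V fun l _ => h l

theorem gr_sm (P : ObjectProperty a.D) [Tg P] (X : (FamA Λ a).D) (V : Λ.Cv)
    (h : ∀ l ∈ V.V, P ((smM a (one l)).D.obj X)) : P ((smM a V).D.obj X) := by
  induction X using nq_ind with | h K => exact gr_of P K V h

theorem fam_zero {X : (FamA Λ a).D} (h : ∀ l, IsZero ((smM a (one l)).D.obj X)) : IsZero X := by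
  obtain ⟨K, rfl⟩ := (FamA Λ a).exists_cx X
  exact (FamA Λ a).le_Tb _ h

/-- The map of a map of labels and a map of ambient categories. -/
noncomputable def fmM (f : Λ ⟶ Λ') (φ : Map a a') : Map (FamA Λ a) (FamA Λ' a') where
  F := Fam.map f φ.F
  add := inferInstanceAs (Fam.map f φ.F).Additive
  hT X h := (FamA Λ' a').le_Tb _ fun l => by
    have z := ((smM a ((one l).pre f)).comp φ).hT X h
    exact IsZero.of_iso z (a'.nq.mapIso ((NatIso.mapHomologicalComplex
      (Fam.smIso f φ.F (one l)) _).app X.as)).symm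

/-- Sums commute with the maps of families. -/
noncomputable def smD (f : Λ ⟶ Λ') (φ : Map a a') (V : Λ'.Cv) (X : (FamA Λ a).D) :
    φ.D.obj ((smM a (V.pre f)).D.obj X) ≅ (smM a' V).D.obj ((fmM f φ).D.obj X) :=
  (((smM a (V.pre f)).comp φ).natIso ((fmM f φ).comp (smM a' V)) (Fam.smIso f φ.F V)).app X

variable (a) in
/-- One object with a label. -/
noncomputable def jM (l : Λ.L) : Map a (FamA Λ a) where
  F := Fam.jl a.A l
  add := inferInstanceAs (Fam.jl a.A l).Additive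
  hT X h := (FamA Λ a).le_Tb _ fun l' => by
    by_cases c : l ∈ (one l').V
    · exact IsZero.of_iso (a.idm.hT X h) (a.nq.mapIso ((NatIso.mapHomologicalComplex
        (Fam.ju a.A c) _).app X.as)).symm
    · exact (ofMap.{v, u} (b := a) (Fam.jl a.A l ⋙ Fam.sm a.A (one l'))).isZero
        (fun _ => Fam.sm_isZero fun _ => c) ((of a.A).Q.obj X)

/-- Families whose graded pieces lie in given classes. -/
def cls (S : Λ.L → ObjectProperty a.D) : ObjectProperty (FamA Λ a).D :=
  fun X => ∀ l, S l ((smM a (one l)).D.obj X)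

instance (S : Λ.L → ObjectProperty a.D) [∀ l, Tg (S l)] : Tg (cls S) :=
  Tg.mk' (fun _ h l => Tg.zero (S l) (Functor.map_isZero _ h))
    (fun n X h l => ((S l).inverseImage (smM a (one l)).D).le_shift n X (h l))
    fun T k h h' l => ((S l).inverseImage
      (smM a (one l)).D).ext_of_isTriangulatedClosed₂ T k (h l) (h' l)

theorem cls_map (f : Λ ⟶ Λ') (φ : Map a a') {S : Λ.L → ObjectProperty a.D}
    {S' : Λ'.L → ObjectProperty a'.D} [∀ l, Tg (S' l)]
    (h : ∀ l, f.f l ∈ Λ'.U → S l ≤ (S' (f.f l)).inverseImage φ.D) :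
    cls S ≤ (cls S').inverseImage (fmM f φ).D := fun X k l' =>
  (S' l').prop_of_iso (smD f φ (one l') X) (gr_sm ((S' l').inverseImage φ.D) X _
    fun l c => (show f.f l = l' from c.2) ▸ h l c.1 _ (k l))

theorem map_ext {b : Am.{v', u'}} {f g : Map a b} (h : f.F = g.F) : f = g := by
  cases f
  cases g
  cases h
  rfl

set_option linter.checkUnivs false in
/-- An ambient category with a triangulated class. -/
structure Tp where
  a : Am.{v, u}
  S : ObjectProperty a.D
  [tg : Tg S]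

attribute [instance] Tp.tg

/-- Maps of triples. -/
structure Tp.Hom (x y : Tp.{v, u}) where
  f : Map x.a y.a
  h : x.S ≤ y.S.inverseImage f.D

instance : Category Tp.{v, u} where
  Hom := Tp.Hom
  id x := ⟨x.a.idm, fun _ h => h⟩
  comp f g := ⟨f.f.comp g.f, fun _ k => g.h _ (f.h _ k)⟩

theorem Tp.hom_ext {x y : Tp.{v, u}} {f g : x ⟶ y} (h : f.f.F = g.f.F) : f = g := by
  obtain ⟨f, _⟩ := f
  obtain ⟨g, _⟩ := g
  obtain rfl : f = g := map_ext h
  rfl

set_option linter.checkUnivs false in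
/-- Labels, an ambient category and a class for every label. -/
structure LT where
  Λ : Lab
  a : Am.{v, u}
  S : Λ.L → ObjectProperty a.D
  [tg : ∀ l, Tg (S l)]

attribute [instance] LT.tg

/-- Maps of labelled triples. -/
structure LT.Hom (x y : LT.{v, u}) where
  f : x.Λ ⟶ y.Λ
  φ : Map x.a y.a
  h : ∀ l, f.f l ∈ y.Λ.U → x.S l ≤ (y.S (f.f l)).inverseImage φ.D

instance : Category LT.{v, u} where
  Hom := LT.Hom
  id x := ⟨𝟙 _, x.a.idm, fun _ _ _ h => h⟩
  comp f g := ⟨f.f ≫ g.f, f.φ.comp g.φ, fun l c _ k => g.h _ c _ (f.h l (g.f.al _ c) _ k)⟩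

theorem LT.hom_ext {x y : LT.{v, u}} {f g : x ⟶ y} (h : f.f = g.f) (k : f.φ = g.φ) : f = g := by
  obtain ⟨f, φ, _⟩ := f
  obtain ⟨g, ψ, _⟩ := g
  cases h
  cases k
  rfl

/-- The triple of families. -/
noncomputable def Fm : LT.{v, u} ⥤ Tp.{v, max 1 u} where
  obj x := ⟨FamA x.Λ x.a, cls x.S⟩
  map f := ⟨fmM f.f f.φ, cls_map f.f f.φ f.h⟩
  map_id _ := Tp.hom_ext Fam.map_id
  map_comp f g := Tp.hom_ext (Fam.map_comp f.f g.f f.φ.F g.φ.F)

end Pool.Agent.Lib.MP_5d3e93_al.A2
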