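import Pool.Agent.Lib.MP_5d3e93_al.K.Kar
import Pool.Agent.Lib.MP_5d3e93_al.K.Ad

/-! Additive envelopes of preadditive categories and classes generated by entries. -/

open CategoryTheory Limits Pretriangulated ZeroObject

namespace Pool.Agent.Lib.MP_5d3e93_al.Br

open Gr Am

universe v u u' u''

variable {D : Type (max u v)} [Category.{v} D] [Preadditive D] {E : Type (max u' v)}
  [Category.{v} E] [Preadditive E] {E' : Type (max u'' v)} [Category.{v} E'] [Preadditive E']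

instance {C : Type*} [Category* C] [Preadditive C] : HasBinaryBiproducts (Mat_ C) :=
  hasBinaryBiproducts_of_finite_biproducts _

instance {C : Type*} [Category.{v} C] [Preadditive C] {C' : Type*} [Category.{v} C']
    [Preadditive C'] (F : C ⥤ C') [F.Additive] : F.mapMat_.Additive :=
  ⟨Mat_.hom_ext _ _ fun _ _ => F.map_add⟩

variable (D) in
/-- Complexes of matrices. -/
noncomputable def mam : Am.{v, max 1 u} := Am.of.{v, max 1 u} (Mat_ D)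

/-- The class generated by the families with entries in `P`. -/
def mg (P : ObjectProperty D) : ObjectProperty (mam.{v, u} D).D :=
  (mam.{v, u} D).gen fun M : Mat_ D => ∀ i, P (M.X i)

instance (P : ObjectProperty D) : Tg (mg.{v, u} P) := inferInstanceAs (Tg (Cl _))

/-- An object as a complex. -/
noncomputable def mo : D ⥤ (mam.{v, u} D).D := Mat_.embedding D ⋙ (mam.{v, u} D).sg

instance : (mo.{v, u} (D := D)).Additive :=
  let s : Mat_ D ⥤ (mam.{v, u} D).D := (mam.{v, u} D).sg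
  have : s.Additive := K.kar_sg_add (mam.{v, u} D)
  inferInstanceAs (Mat_.embedding D ⋙ s).Additive

/-- An additive functor on matrices. -/
noncomputable def mm (F : D ⥤ E) [F.Additive] : Map (mam.{v, u} D) (mam.{v, u'} E) :=
  ofOf.{v, max 1 u, v, max 1 u'} F.mapMat_

theorem mm_comp (F : D ⥤ E) [F.Additive] (H : E ⥤ E') [H.Additive] :
    (mm.{v, u, u'} F).comp (mm.{v, u', u''} H) = mm.{v, u, u''} (F ⋙ H) := rfl

theorem mm_id : mm.{v, u, u} (𝟭 D) = (mam.{v, u} D).idm := rfl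

theorem mg_top : mg.{v, u} (⊤ : ObjectProperty D) = (mam.{v, u} D).bdd :=
  congrArg _ (funext fun _ => eq_true fun _ => trivial)

variable {P P' : ObjectProperty D} {R : ObjectProperty E}

theorem mg_mo {x : D} (h : P x) : mg.{v, u} P (mo.obj x) :=
  Cl.of ⟨(Mat_.embedding D).obj x, fun _ => h, ⟨.refl _⟩⟩

theorem mg_le {S : ObjectProperty (mam.{v, u} D).D} [Tg S] (h : ∀ x, P x → S (mo.obj x)) :
    mg.{v, u} P ≤ S := Cl.le (by
  rintro _ ⟨M, a, ⟨e⟩⟩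
  let s : Mat_ D ⥤ (mam.{v, u} D).D := (mam.{v, u} D).sg
  have : s.Additive := K.kar_sg_add (mam.{v, u} D)
  refine S.prop_of_iso ((s.mapIso (Mat_.isoBiproductEmbedding M) ≪≫ s.mapBiproduct _).symm ≪≫ e) ?_
  exact S.prop_of_iso (biproduct.isoProduct _).symm (S.prop_product fun i => h _ (a i)))

theorem mg_mono (h : P ≤ P') : mg.{v, u} P ≤ mg.{v, u} P' := mg_le fun x a => mg_mo (h x a)

theorem mg_spl {S : ObjectProperty (mam.{v, u} D).D} [Tg S] {x y z : D} {i : x ⟶ y} {p : y ⟶ z}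
    (h : Spl i p) : (S (mo.obj z) → S.trW (mo.map i)) ∧
      (S (mo.obj x) → S (mo.obj z) → S (mo.obj y)) := by
  obtain ⟨r, s, a, b, c⟩ := h
  let e := Mat_.embedding D
  obtain ⟨δ, k⟩ := K.kar_tri.{v, max 1 u} (i := e.map i) (p := e.map p) ⟨e.map r, e.map s,
    by rw [← e.map_comp, a, e.map_id], by rw [← e.map_comp, b, e.map_id],
    by rw [← e.map_comp, ← e.map_comp, ← e.map_add, c, e.map_id]⟩
  exact ⟨fun d => ⟨_, _, δ, k, d⟩, S.ext_of_isTriangulatedClosed₂ _ k⟩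

variable (F : D ⥤ E) [F.Additive]

theorem mm_mo (x : D) : Nonempty ((mm.{v, u, u'} F).D.obj (mo.obj x) ≅ mo.obj (F.obj x)) :=
  (mm.{v, u, u'} F).sg_iso.map fun e => e.app ((Mat_.embedding D).obj x)

theorem mm_maps (h : P ≤ R.inverseImage F) :
    mg.{v, u} P ≤ (mg.{v, u'} R).inverseImage (mm.{v, u, u'} F).D :=
  Map.gen_map _ fun _ a i => h _ (a i)

theorem mm_le {S : ObjectProperty (mam.{v, u'} E).D} [Tg S] (h : ∀ x, P x → S (mo.obj (F.obj x))) :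
    mg.{v, u} P ≤ S.inverseImage (mm.{v, u, u'} F).D :=
  mg_le fun x a => (mm_mo F x).elim fun e => S.prop_of_iso e.symm (h x a)

theorem mm_gen (h : P ≤ R.inverseImage F) (k : ∀ y, R y → mg.{v, u'} (P.map F) (mo.obj y)) :
    (mam.{v, u'} E).gen (ObjectProperty.map (fun M : Mat_ D => ∀ i, P (M.X i))
      (mm.{v, u, u'} F).F) = mg.{v, u'} R := by
  refine le_antisymm (Cl.le ?_) ((mg_le k).trans (mg_le (S := Cl _) ?_))
  · rintro _ ⟨_, ⟨M, a, ⟨e⟩⟩, ⟨e'⟩⟩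
    exact Cl.of ⟨F.mapMat_.obj M, fun i => h _ (a i), ⟨(mam.{v, u'} E).sg.mapIso e ≪≫ e'⟩⟩
  · rintro _ ⟨x, a, ⟨e⟩⟩
    exact Cl.of ⟨_, ⟨(Mat_.embedding D).obj x, fun _ => a, ⟨(Mat_.embedding E).mapIso e⟩⟩,
      ⟨.refl _⟩⟩

theorem mm_deq [F.Full] [F.Faithful] (h : P ≤ R.inverseImage F)
    (k : ∀ y, R y → mg.{v, u'} (P.map F) (mo.obj y)) :
    Deq (mm.{v, u, u'} F).D (mg.{v, u} P) (mg.{v, u'} R) := by
  rw [← mm_gen F h k]
  exact FF.deq_gen _ (ff_of_pj _ (fun g _ => of_pj.{v, max 1 u} g)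
    (fun g _ => of_pj.{v, max 1 u'} _) fun _ _ _ _ =>
      ⟨fun f g e => Mat_.hom_ext _ _ fun i j => F.map_injective (congrFun₂ e i j),
        fun f => ⟨fun i j => F.preimage (f i j), Mat_.hom_ext _ _ fun _ _ => F.map_preimage _⟩⟩)

theorem mm_locOn [F.Full] (kill : ∀ x, P x → IsZero (F.obj x))
    (cut : ∀ (x y : D) (f : x ⟶ y), F.map f = 0 → ∃ (x' z : D) (i : x' ⟶ x) (p : x ⟶ z),
      Spl i p ∧ mg.{v, u} P (mo.obj z) ∧ i ≫ f = 0) :
    LocOn (mm.{v, u, u'} F).D (mg.{v, u} P) (mam.{v, u} D).bdd := by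
  let G : ObjectProperty (Mat_ D) := fun M => ∃ x, M = (Mat_.embedding D).obj x
  have e : (mam.{v, u} D).bdd ≤ (mam.{v, u} D).gen G :=
    mg_top.ge.trans (mg_le (S := Cl _) fun x _ => Cl.of ⟨_, ⟨x, rfl⟩, ⟨.refl _⟩⟩)
  have k : LocOn (mm.{v, u, u'} F).D (mg.{v, u} P) ((mam.{v, u} D).gen G) := by
    refine proadj (G := G) _ ((mg_mono le_top).trans (mg_top.le.trans e))
      (mm_le F (S := Zr) fun x a => mo.map_isZero (kill x a)) le_rfl
      (fun g _ => of_pj.{v, max 1 u} g) (fun g _ => of_pj.{v, max 1 u'} _) ?_ ?_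
    · rintro _ _ ⟨x, rfl⟩ ⟨y, rfl⟩ φ
      refine ⟨_, 𝟙 _, fun i j => F.preimage (φ i j), ⟨x, rfl⟩, ?_, ?_⟩
      · rw [CategoryTheory.Functor.map_id]
        exact MorphismProperty.id_mem _ _
      · rw [CategoryTheory.Functor.map_id, Category.id_comp]
        exact Mat_.hom_ext _ _ fun _ _ => (F.map_preimage _).symm
    · rintro _ _ ⟨x, rfl⟩ ⟨y, rfl⟩ ψ z
      obtain ⟨f, rfl⟩ := (Mat_.embedding D).map_surjective ψ
      obtain ⟨x', c, i, p, s, a, b⟩ := cut x y f (congrFun₂ z () ())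
      exact ⟨_, (Mat_.embedding D).map i, ⟨x', rfl⟩, (mg_spl s).1 a,
        ((Mat_.embedding D).map_comp i f).symm.trans
          ((congrArg _ b).trans ((Mat_.embedding D).map_zero _ _))⟩
  exact k.mono ((mg_mono le_top).trans mg_top.le) e

theorem mm_loc (l : LocOn (mm.{v, u, u'} F).D (mg.{v, u} P) (mam.{v, u} D).bdd) (le : P ≤ P')
    (h : P' ≤ R.inverseImage F) (k : ∀ y, R y → mg.{v, u'} (P'.map F) (mo.obj y)) :
    Loc (mm.{v, u, u'} F).D (mg.{v, u} P' ⊓ Th (mg.{v, u} P)) (mg.{v, u} P') (mg.{v, u'} R) := by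
  have l' := l.mono (mg_mono le) ((mg_mono le_top).trans mg_top.le)
  have e : (mg.{v, u} P').map (mm.{v, u, u'} F).D = mg.{v, u'} R :=
    (l'.map_cl.trans (gen_map_eq _ _)).trans (mm_gen F h k)
  have w {X Y} {s : X ⟶ Y} (a : (mg.{v, u} P).trW s) :
      (mg.{v, u} P' ⊓ Th (mg.{v, u} P)).trW s := by
    obtain ⟨Z, g, δ, b, c⟩ := a
    exact ⟨Z, g, δ, b, mg_mono le _ c, Th.of_retract _ _ (Category.id_comp _) c⟩
  refine ⟨⟨inf_le_left, fun X ⟨_, Y, a⟩ => ?_, fun a b φ => ?_, fun a b f z => ?_⟩,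
    fun X a b => ⟨a, l'.th a b⟩, mm_maps F h, fun Y a => e.ge Y a⟩
  · have := (l.kill _ a).eq_of_src (𝟙 _) 0
    rw [IsZero.iff_id_eq_zero, ← CategoryTheory.Functor.map_id, ← biprod.inl_fst (Y := Y),
      Functor.map_comp, (l.kill _ a).eq_of_src ((mm.{v, u, u'} F).D.map biprod.fst) 0, comp_zero]
  · obtain ⟨Y', s, f, c, d⟩ := l'.full a b φ
    exact ⟨Y', s, f, w c, d⟩
  · obtain ⟨Y', s, c, d⟩ := l'.faith a b f z
    exact ⟨Y', s, w c, d⟩

open Classical in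
/-- A natural transformation on matrices. -/
noncomputable def mnat {F H : D ⥤ E} [F.Additive] [H.Additive] (α : F ⟶ H) :
    F.mapMat_ ⟶ H.mapMat_ where
  app M i j := α.app _ ≫ H.map ((𝟙 M : M ⟶ M) i j)
  naturality M N f := Mat_.hom_ext _ _ fun i j => by
    change ∑ x : N.ι, F.map (f i x) ≫ α.app _ ≫ H.map ((𝟙 N : N ⟶ N) x j) =
      ∑ x : M.ι, (α.app _ ≫ H.map ((𝟙 M : M ⟶ M) i x)) ≫ H.map (f x j)
    simp only [α.naturality_assoc, Category.assoc, ← H.map_comp, ← Preadditive.comp_sum,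
      ← H.map_sum, ← Mat_.comp_apply, Category.comp_id, Category.id_comp]

theorem mnat_comp {F H L : D ⥤ E} [F.Additive] [H.Additive] [L.Additive] (α : F ⟶ H) (β : H ⟶ L) :
    mnat.{v, u, u'} α ≫ mnat.{v, u, u'} β = mnat.{v, u, u'} (α ≫ β) := by
  ext M i j
  change ∑ x : M.ι, (α.app _ ≫ H.map ((𝟙 M : M ⟶ M) i x)) ≫ β.app _ ≫ L.map ((𝟙 M : M ⟶ M) x j) =
    (α.app _ ≫ β.app _) ≫ L.map ((𝟙 M : M ⟶ M) i j)
  simp only [β.naturality_assoc, Category.assoc, ← L.map_comp, ← Preadditive.comp_sum,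
    ← L.map_sum, ← Mat_.comp_apply, Category.comp_id]

theorem mnat_add {F H : D ⥤ E} [F.Additive] [H.Additive] (α β : F ⟶ H) :
    mnat.{v, u, u'} α + mnat.{v, u, u'} β = mnat.{v, u, u'} (α + β) := by
  ext M i j
  exact (Preadditive.add_comp ..).symm

theorem mnat_id : mnat.{v, u, u'} (𝟙 F) = 𝟙 _ := by
  ext M i j
  exact (Category.id_comp _).trans (congrFun₂ (F.mapMat_.map_id M) i j)

theorem mm_sw (Φ : D ⥤ D) [Φ.Additive] (i : 𝟭 D ⟶ Φ) (r : Φ ⟶ 𝟭 D) (i' r' : Φ ⟶ Φ)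
    (h₁ : i ≫ r = 𝟙 _) (h₂ : i' ≫ r' = 𝟙 _) (h₃ : r ≫ i + r' ≫ i' = 𝟙 _)
    (h : P ≤ P.inverseImage Φ) : Z (mg.{v, u} P) ∧ Th (mg.{v, u} P) ≤ mg.{v, u} P := by
  have k₁ : mnat.{v, u, u} i ≫ mnat.{v, u, u} r = 𝟙 _ := by rw [mnat_comp, h₁, mnat_id]
  have k₂ : mnat.{v, u, u} i' ≫ mnat.{v, u, u} r' = 𝟙 _ := by rw [mnat_comp, h₂, mnat_id]
  have k₃ : mnat.{v, u, u} r ≫ mnat.{v, u, u} i + mnat.{v, u, u} r' ≫ mnat.{v, u, u} i' = 𝟙 _ := by
    rw [mnat_comp, mnat_comp, mnat_add, h₃, mnat_id]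
  have z (S : ObjectProperty (mam.{v, u} D).D) [Tg S] (m : S ≤ S.inverseImage (mm.{v, u, u} Φ).D) :
      Z S := Z_of_swindle (ses_of_split (f₁ := (mam.{v, u} D).idm) (f := mm.{v, u, u} Φ)
    (f₂ := mm.{v, u, u} Φ) (α := mnat.{v, u, u} i) (β := mnat.{v, u, u} r')
    (h := ad_zero k₁ k₂ k₃) (fun X => ⟨_, _, NatTrans.congr_app k₁ X, NatTrans.congr_app k₂ X,
      NatTrans.congr_app k₃ X⟩) _) (Iso.refl _) m
  have := preservesBinaryBiproducts_of_preservesBinaryProducts (mm.{v, u, u} Φ).D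
  exact ⟨z _ (mm_maps Φ h), (dense_eq (fun X a => Th.of_retract _ _ (Category.id_comp _) a)
    (fun X ⟨Y, a⟩ => ⟨Y, ⟨X, (mg.{v, u} P).prop_of_iso (biprod.braiding X Y) a⟩, a⟩)
    (z _ (fun X ⟨Y, a⟩ => ⟨_, (mg.{v, u} P).prop_of_iso ((mm.{v, u, u} Φ).D.mapBiprod X Y)
      (mm_maps Φ h _ a)⟩) 0)).ge⟩

theorem mg_union {Q : ℕ → ObjectProperty D} (m : Monotone Q) (h : ∀ x, ∃ n, Q n x) (X)
    (a : (mam.{v, u} D).bdd X) : ∃ n, mg.{v, u} (Q n) X := by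
  have : Tg fun X : (mam.{v, u} D).D => ∃ n, mg.{v, u} (Q n) X :=
    Tg.mk' (fun _ a => ⟨0, Tg.zero _ a⟩)
      (fun k _ ⟨n, a⟩ => ⟨n, (mg.{v, u} (Q n)).le_shift k _ a⟩) fun T t ⟨n, a⟩ ⟨k, b⟩ =>
        ⟨n + k, (mg.{v, u} (Q (n + k))).ext_of_isTriangulatedClosed₂ T t
          (mg_mono (m (by omega)) _ a) (mg_mono (m (by omega)) _ b)⟩
  exact mg_le (S := fun X => ∃ n, mg.{v, u} (Q n) X) (fun x _ => (h x).imp fun _ => mg_mo) X
    (mg_top.ge X a)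

end Pool.Agent.Lib.MP_5d3e93_al.Br
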