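import Pool.Agent.Lib.MP_5d3e93_al.Br.DefA
import Pool.Agent.Lib.MP_5d3e93_al.Br.Mt
import Pool.Agent.Lib.MP_5d3e93_al.Br.FamA

/-! Preadditive categories as marked ambient categories. -/

open CategoryTheory

namespace Pool.Agent.Lib.MP_5d3e93_al.Br

open As A2

universe v u

/-- Complexes of matrices with the class of bounded complexes. -/
noncomputable def AM : AC.{v, max u v} ⥤ Tp.{v, max 1 u} where
  obj B := ⟨mam.{v, u} B.C, mg.{v, u} ⊤⟩
  map f := ⟨mm.{v, u, u} f.F, mm_maps _ le_top⟩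

end Pool.Agent.Lib.MP_5d3e93_al.Br
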