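import Pool.Agent.Lib.MP_5d3e93_al.Br.KD

/-! Additivity, first part: maps of coloured labels that agree on the alive labels. -/

open CategoryTheory Limits Pretriangulated ZeroObject Opposite Simplicial

namespace Pool.Agent.Lib.MP_5d3e93_al.A2

open Gr Am Br

universe v u v' u' w w' w'' x x'

set_option backward.isDefEq.respectTransparency false

namespace LC

variable {C : Type w} [Preorder C] {Φ : LC C ⥤ SA.{w'}} {X Y : LC C} {r : ℕ}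

/-- Factor through `⟨⟨X.Λ.L, ∅, _⟩, X.c⟩`. -/
theorem Gd.zero (h : Gd Φ) (f : X ⟶ Y) (k : ∀ l, f.f.f l ∉ Y.Λ.U) : Φ.map f = 0 := by
  let X₀ : LC C := ⟨⟨X.Λ.L, ∅, Set.ordConnected_empty⟩, X.c⟩
  let a : X ⟶ X₀ := ⟨⟨.id, fun _ c => c.elim⟩, fun _ c => c.elim⟩
  let b : X₀ ⟶ Y := ⟨⟨f.f.f, fun l c => k l c⟩, fun l c => (k l c).elim⟩
  have e : f = a ≫ b := hom_ext fun _ => rfl
  rw [e, Φ.map_comp, (h.z X₀ fun _ c => c).eq_of_tgt (Φ.map a) 0, zero_comp]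

theorem Gd.bij (h : Gd Φ) {f : X ⟶ Y} (k : Eqv f) (j : ℕ) :
    Function.Bijective ((HH j).map (Φ.map f)) :=
  ⟨(cn_iff_hh.1 (h.e f k (j + 2))).2 j (by omega), (cn_iff_hh.1 (h.e f k (j + 2))).1 j (by omega)⟩

/-- Pairs of labels that are equal or both dead. -/
def adaP (Y : LC C) : LC C :=
  ⟨⟨{p : Y.Λ.L × Y.Λ.L // p.1 ∈ Y.Λ.U ∨ p.2 ∈ Y.Λ.U → p.1 = p.2}, {p | p.1.1 ∈ Y.Λ.U},
    ⟨fun _ a _ b _ c => Lab.mid a b (Prod.le_def.1 (Subtype.coe_le_coe.2 c.1)).1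
      (Prod.le_def.1 (Subtype.coe_le_coe.2 c.2)).1⟩⟩, fun p => Y.c p.1.1⟩

/-- `Y'` = pairs `(x, y)` of labels of `Y` with `x = y` or both dead (subtype of the product),
alive = `x` alive, colour of `x`. The diagonal `Δ : Y ⟶ Y'` is `Eqv`, `Δ p₁ = Δ p₂ = 𝟙`, so
`H p₁ = H p₂` (`cn_iff_hh`, `H Δ` onto), and `f = (f, g) p₁`, `g = (f, g) p₂`. -/
theorem Gd.agree (h : Gd Φ) (f g : X ⟶ Y)
    (k : ∀ l, f.f.f l ∈ Y.Λ.U ∨ g.f.f l ∈ Y.Λ.U → f.f.f l = g.f.f l) (j : ℕ) :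
    (HH j).map (Φ.map f) = (HH j).map (Φ.map g) := by
  let Δ : Y ⟶ adaP Y :=
    ⟨⟨⟨fun l => ⟨(l, l), fun _ => rfl⟩, fun _ _ c => ⟨c, c⟩⟩, fun _ c => c⟩, fun _ _ => le_rfl⟩
  let p₁ : adaP Y ⟶ Y := ⟨⟨⟨fun p => p.1.1, fun _ _ c => c.1⟩, fun _ c => c⟩, fun _ _ => le_rfl⟩
  let p₂ : adaP Y ⟶ Y := ⟨⟨⟨fun p => p.1.2, fun _ _ c => c.2⟩,
    fun p c => show p.1.1 ∈ Y.Λ.U from (p.2 (Or.inr c)).symm ▸ c⟩,
    fun p c => (congrArg Y.c (p.2 (Or.inr c))).le⟩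
  let s : X ⟶ adaP Y := ⟨⟨⟨fun l => ⟨(f.f.f l, g.f.f l), k l⟩,
    fun _ _ c => ⟨f.f.f.monotone c, g.f.f.monotone c⟩⟩, fun l c => f.f.al l c⟩, fun l c => f.h l c⟩
  have hΔ : Eqv Δ := ⟨fun _ c => c, fun _ _ _ _ c => c.1,
    fun p c => ⟨p.1.1, Subtype.ext (Prod.ext rfl (p.2 (Or.inl c)))⟩, fun _ _ => le_rfl⟩
  have e : Δ ≫ p₁ = Δ ≫ p₂ := hom_ext fun _ => rfl
  have := (ModuleCat.epi_iff_surjective _).2 (h.bij hΔ j).2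
  have e' : (HH j).map (Φ.map p₁) = (HH j).map (Φ.map p₂) := by
    rw [← cancel_epi ((HH j).map (Φ.map Δ)), ← Functor.map_comp, ← Functor.map_comp,
      ← Functor.map_comp, ← Functor.map_comp, e]
  have e₁ : f = s ≫ p₁ := hom_ext fun _ => rfl
  have e₂ : g = s ≫ p₂ := hom_ext fun _ => rfl
  rw [e₁, e₂, Φ.map_comp, Φ.map_comp, Functor.map_comp, Functor.map_comp, e']

theorem ada_nc {t : Iv (op ⦋1⦌)} (h : t.Nc) : t = OrderHom.id :=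
  OrderHom.ext _ _ (funext fun i => by
    fin_cases i
    exacts [h.1, h.2])

theorem ι₁_eqv (Y : LC C) : Eqv (ι₁ Y) :=
  ⟨fun _ c => ⟨⟨rfl, rfl⟩, c⟩, fun _ _ _ _ c => c.2,
    fun p c => ⟨p.2, Prod.ext (ada_nc c.1).symm rfl⟩, fun _ _ => le_rfl⟩

theorem ι₁_nat (f : X ⟶ Y) : f ≫ ι₁ Y = ι₁ X ≫ ((act C).map f).app _ := hom_ext fun _ => rfl

/-- The label `001`. -/
def adaA : Iv (op ⦋2⦌) := (⟨![0, 0, 1], by decide⟩ : Fin 3 →o Fin 2)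

/-- The label `011`. -/
def adaB : Iv (op ⦋2⦌) := (⟨![0, 1, 1], by decide⟩ : Fin 3 →o Fin 2)

theorem ada_le : adaA ≤ adaB := fun i => by fin_cases i <;> decide

theorem ada_A0 : Iv.act (SimplexCategory.δ (0 : Fin 3)).op adaA = OrderHom.id := ada_nc ⟨rfl, rfl⟩
theorem ada_A1 : Iv.act (SimplexCategory.δ (1 : Fin 3)).op adaA = OrderHom.id := ada_nc ⟨rfl, rfl⟩
theorem ada_B1 : Iv.act (SimplexCategory.δ (1 : Fin 3)).op adaB = OrderHom.id := ada_nc ⟨rfl, rfl⟩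
theorem ada_B2 : Iv.act (SimplexCategory.δ (2 : Fin 3)).op adaB = OrderHom.id := ada_nc ⟨rfl, rfl⟩
theorem ada_A2 : ¬ (Iv.act (SimplexCategory.δ (2 : Fin 3)).op adaA).Nc := fun h =>
  absurd (show (0 : Fin 2) = 1 from h.2) (by decide)
theorem ada_B0 : ¬ (Iv.act (SimplexCategory.δ (0 : Fin 3)).op adaB).Nc := fun h =>
  absurd (show (1 : Fin 2) = 0 from h.1) (by decide)

/-- `s : X ⟶ S₂ Y`, `l ↦ (c l, F₁ l)`, `c l = 011` if some `b ≤ l` has `F₂ b` alive, else `001`.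
`s ≫ sd Y i` agrees on alive labels with `F i ≫ ι₁ Y` (`Gd.agree`); cancel `H ι₁` (`Gd.bij`). -/
theorem Gd.ga (h : Gd Φ) (ad : Add Φ r) (F₀ F₁ F₂ : X ⟶ Y)
    (h₀ : ∀ l, F₀.f.f l ∈ Y.Λ.U → F₀.f.f l = F₁.f.f l)
    (h₂ : ∀ l, F₂.f.f l ∈ Y.Λ.U → F₂.f.f l = F₁.f.f l)
    (h₁ : ∀ l, F₁.f.f l ∈ Y.Λ.U → F₀.f.f l ∈ Y.Λ.U ∨ F₂.f.f l ∈ Y.Λ.U)
    (lt : ∀ a b, F₀.f.f a ∈ Y.Λ.U → F₂.f.f b ∈ Y.Λ.U → ¬ b ≤ a) {j : ℕ} (hj : j < r) :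
    (HH j).map (Φ.map F₁) = (HH j).map (Φ.map F₀) + (HH j).map (Φ.map F₂) := by
  classical
  let c : X.Λ.L → Iv (op ⦋2⦌) := fun l => if ∃ b ≤ l, F₂.f.f b ∈ Y.Λ.U then adaB else adaA
  have cA : ∀ l, (¬ ∃ b ≤ l, F₂.f.f b ∈ Y.Λ.U) → c l = adaA := fun _ k => if_neg k
  have cB : ∀ l, (∃ b ≤ l, F₂.f.f b ∈ Y.Λ.U) → c l = adaB := fun _ k => if_pos k
  have mc : Monotone c := fun l l' k => by
    by_cases a : ∃ b ≤ l, F₂.f.f b ∈ Y.Λ.U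
    · rw [cB l a, cB l' (a.imp fun b t => ⟨t.1.trans k, t.2⟩)]
    · rw [cA l a]
      by_cases a' : ∃ b ≤ l', F₂.f.f b ∈ Y.Λ.U
      · rw [cB l' a']; exact ada_le
      · rw [cA l' a']
  let s : X ⟶ ((act C).obj Y).obj (DS.obj (op ⦋2⦌)) :=
    ⟨⟨⟨fun l => (c l, F₁.f.f l), fun _ _ k => ⟨mc k, F₁.f.f.monotone k⟩⟩,
      fun l k => F₁.f.al l k.2⟩, fun l k => F₁.h l k.2⟩
  have v : ∀ i l, (s ≫ sd Y i).f.f l = (Iv.act (SimplexCategory.δ i).op (c l), F₁.f.f l) :=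
    fun _ _ => rfl
  have v' : ∀ (F : X ⟶ Y) l, (F ≫ ι₁ Y).f.f l = (OrderHom.id, F.f.f l) := fun _ _ => rfl
  have e₁ : s ≫ sd Y 1 = F₁ ≫ ι₁ Y := hom_ext fun l => by
    rw [v, v']
    by_cases a : ∃ b ≤ l, F₂.f.f b ∈ Y.Λ.U
    · rw [cB l a, ada_B1]
    · rw [cA l a, ada_A1]
  have e₀ := h.agree (s ≫ sd Y 0) (F₀ ≫ ι₁ Y) (fun l k => by
    rw [v, v'] at k ⊢
    by_cases a : ∃ b ≤ l, F₂.f.f b ∈ Y.Λ.U
    · obtain ⟨b, bl, t⟩ := id a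
      rw [cB l a] at k
      exact (k.elim (fun k => ada_B0 k.1) fun k => lt l b k.2 t bl).elim
    · have t : F₀.f.f l ∈ Y.Λ.U := k.elim
        (fun k => (h₁ l k.2).resolve_right fun t => a ⟨l, le_rfl, t⟩) fun k => k.2
      rw [cA l a, ada_A0, h₀ l t]) j
  have e₂ := h.agree (s ≫ sd Y 2) (F₂ ≫ ι₁ Y) (fun l k => by
    rw [v, v'] at k ⊢
    by_cases a : ∃ b ≤ l, F₂.f.f b ∈ Y.Λ.U
    · obtain ⟨b, bl, t⟩ := id a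
      have t' : F₂.f.f l ∈ Y.Λ.U := k.elim
        (fun k => (h₁ l k.2).resolve_left fun q => lt l b q t bl) fun k => k.2
      rw [cB l a, ada_B2, h₂ l t']
    · rw [cA l a] at k
      exact (k.elim (fun k => ada_A2 k.1) fun k => a ⟨l, le_rfl, k.2⟩).elim) j
  have := (ModuleCat.mono_iff_injective _).2 (h.bij (ι₁_eqv Y) j).1
  rw [← cancel_mono ((HH j).map (Φ.map (ι₁ Y))), Preadditive.add_comp]
  simp only [← Functor.map_comp]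
  rw [← e₀, ← e₂, ← e₁]
  simp only [Functor.map_comp]
  rw [ad Y j hj, Preadditive.comp_add]

end LC

end Pool.Agent.Lib.MP_5d3e93_al.A2
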