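import Pool.Agent.Lib.MP_5d3e93_al.Br.Ht

/-! Connectivity of the diagonal from connectivity of the rows, by decalage. -/

open CategoryTheory CategoryTheory.Limits Simplicial Opposite AlgebraicTopology SimplexCategory

namespace Pool.Agent.Lib.MP_5d3e93_al.Br

universe u

/-- Prepend the value zero to a monotone map. -/
def cons0 {m : ℕ} {n : SimplexCategory} (g : ⦋m⦌ ⟶ n) : ⦋m + 1⦌ ⟶ n :=
  SSet.Augmented.StandardSimplex.shift g

theorem cons0_zero {m : ℕ} {n : SimplexCategory} (g : ⦋m⦌ ⟶ n) : (cons0 g).toOrderHom 0 = 0 := rfl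

theorem cons0_succ {m : ℕ} {n : SimplexCategory} (g : ⦋m⦌ ⟶ n) (i : Fin (m + 1)) :
    (cons0 g).toOrderHom i.succ = g.toOrderHom i := rfl

theorem sx_ext {m : ℕ} {n : SimplexCategory} {g h : ⦋m + 1⦌ ⟶ n}
    (e0 : g.toOrderHom 0 = h.toOrderHom 0)
    (e1 : ∀ i : Fin (m + 1), g.toOrderHom i.succ = h.toOrderHom i.succ) : g = h := by
  refine SimplexCategory.Hom.ext _ _ (OrderHom.ext _ _ (funext fun i => ?_))
  exact Fin.cases e0 e1 i

/-- Add a new first vertex. -/
def sh : SimplexCategory ⥤ SimplexCategory where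
  obj n := ⦋n.len + 1⦌
  map {m n} g := cons0 (m := m.len) (g ≫ δ (n := n.len) 0)
  map_id n := sx_ext rfl fun _ => rfl
  map_comp f g := sx_ext rfl fun _ => rfl

theorem sh_d {m n : SimplexCategory} (g : m ⟶ n) :
    g ≫ δ (n := n.len) 0 = δ (n := m.len) 0 ≫ sh.map g :=
  SimplexCategory.Hom.ext _ _ (OrderHom.ext _ _ (funext fun _ => rfl))

/-- Equal composites in the simplex category act equally. -/
theorem bs_sq (M : BS.{u}) {a b b' c : SimplexCategory} {f : a ⟶ b} {g : b ⟶ c} {f' : a ⟶ b'}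
    {g' : b' ⟶ c} (e : f ≫ g = f' ≫ g') : M.map g.op ≫ M.map f.op = M.map g'.op ≫ M.map f'.op := by
  rw [← M.map_comp, ← M.map_comp, ← op_comp, ← op_comp, e]

/-- Decalage. -/
abbrev Dec : BS.{u} ⥤ BS.{u} := (Functor.whiskeringLeft _ _ _).obj sh.op

/-- The face that forgets the new vertex. -/
def decD (M : BS.{u}) : Dec.obj M ⟶ M where
  app n := M.map (δ (n := n.unop.len) 0).op
  naturality n m g := bs_sq M (sh_d g.unop).symm

theorem decD_nat {M N : BS.{u}} (f : M ⟶ N) : Dec.map f ≫ decD N = decD M ≫ f :=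
  NatTrans.ext (funext fun _ => (f.naturality _).symm)

instance decD_epi (M : BS.{u}) : Epi (decD M) := by
  have : ∀ n, Epi ((decD M).app n) := fun n =>
    (IsSplitEpi.mk' ⟨M.map (σ (n := n.unop.len) 0).op, by
      change M.map _ ≫ M.map _ = 𝟙 (M.obj n)
      rw [← M.map_comp, ← op_comp]
      have e : δ (n := n.unop.len) 0 ≫ σ (n := n.unop.len) 0 = 𝟙 _ := δ_comp_σ_self (i := 0)
      rw [e]
      exact M.map_id _⟩).epi
  exact NatTrans.epi_of_epi_app _

/-- The interpolation between the constant map and the identity. -/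
def decK (n : SimplexCategory) (t : n ⟶ ⦋1⦌) : ⦋n.len⦌ ⟶ ⦋n.len + 1⦌ :=
  Hom.mk ⟨fun i => if t.toOrderHom i = 0 then 0 else Fin.succ i, fun i j h => by
    dsimp only
    by_cases hi : t.toOrderHom i = 0
    · rw [if_pos hi]
      exact Fin.zero_le _
    · have hj : t.toOrderHom j ≠ 0 := fun e => hi (le_antisymm (e ▸ t.toOrderHom.monotone h)
        (Fin.zero_le _))
      rw [if_neg hi, if_neg hj]
      exact Fin.succ_le_succ_iff.2 h⟩

theorem decK_nat {m n : SimplexCategory} (a : m ⟶ n) (t : n ⟶ ⦋1⦌) :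
    sh.map a ≫ cons0 (decK n t) = cons0 (decK m (a ≫ t)) ≫ sh.map a := by
  refine sx_ext rfl fun i => ?_
  change (if t.toOrderHom (a.toOrderHom i) = 0 then 0 else Fin.succ (a.toOrderHom i)) =
    (sh.map a).toOrderHom (if t.toOrderHom (a.toOrderHom i) = 0 then 0 else Fin.succ i)
  split_ifs <;> rfl

/-- The projection of the diagonal of the decalage to the first row. -/
def decP (M : BS.{u}) : dg.obj (Dec.obj M) ⟶ M.obj (op ⦋0⦌) where
  app n := (M.map (const ⦋0⦌ ⦋n.unop.len + 1⦌ 0).op).app n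
  naturality n m g := by
    change ((M.map (sh.map g.unop).op).app n ≫ (M.obj _).map g) ≫ (M.map _).app m = _
    rw [Category.assoc, NatTrans.naturality, ← Category.assoc, ← NatTrans.comp_app, ← M.map_comp]
    rfl

/-- Its section. -/
def decI (M : BS.{u}) : M.obj (op ⦋0⦌) ⟶ dg.obj (Dec.obj M) where
  app n := (M.map (const ⦋n.unop.len + 1⦌ ⦋0⦌ 0).op).app n
  naturality n m g := by
    refine ((M.map (const ⦋m.unop.len + 1⦌ ⦋0⦌ 0).op).naturality g).trans ?_
    refine Eq.trans ?_ (Category.assoc _ _ _)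
    congr 1
    exact (NatTrans.congr_app (M.map_comp (const ⦋n.unop.len + 1⦌ ⦋0⦌ 0).op (sh.map g.unop).op) n)

theorem decI_P (M : BS.{u}) : decI M ≫ decP M = 𝟙 _ := by
  refine NatTrans.ext (funext fun n => ?_)
  change (M.map _).app n ≫ (M.map _).app n = 𝟙 _
  have e : const ⦋0⦌ ⦋n.unop.len + 1⦌ 0 ≫ const ⦋n.unop.len + 1⦌ ⦋0⦌ 0 = 𝟙 _ := Subsingleton.elim _ _
  rw [← NatTrans.comp_app, ← M.map_comp, ← op_comp, e, op_id, M.map_id]
  rfl

/-- The contraction. -/
def decT (M : BS.{u}) : TH (decP M ≫ decI M) (𝟙 _) where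
  H n t := (M.map (cons0 (decK n t)).op).app (op n)
  nat {m n} a t := by
    change (M.map _).app _ ≫ (M.map (sh.map a).op).app _ ≫ (M.obj _).map a.op =
      ((M.map (sh.map a).op).app _ ≫ (M.obj _).map a.op) ≫ (M.map _).app _
    rw [Category.assoc, NatTrans.naturality, ← Category.assoc, ← Category.assoc]
    congr 1
    exact NatTrans.congr_app (bs_sq M (decK_nat a t)) (op n)
  h0 n := by
    change _ = (M.map _).app _ ≫ (M.map _).app _
    rw [← NatTrans.comp_app, ← M.map_comp, ← op_comp]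
    congr 3
    exact sx_ext rfl fun _ => rfl
  h1 n := by
    have e : cons0 (decK n (const n ⦋1⦌ 1)) = 𝟙 _ := sx_ext rfl fun _ => rfl
    rw [e, op_id, M.map_id]
    rfl

instance decP_quasiIso (M : BS.{u}) : QuasiIso (CC.map (decP M)) :=
  quasiIso_of_th _ _ (decI_P M) (decT M)

theorem decP_nat {M N : BS.{u}} (f : M ⟶ N) :
    dg.map (Dec.map f) ≫ decP N = decP M ≫ f.app (op ⦋0⦌) :=
  NatTrans.ext (funext fun n =>
    (NatTrans.congr_app (f.naturality (const ⦋0⦌ ⦋n.unop.len + 1⦌ 0).op) n).symm)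

instance dg_add : dg.{u}.Additive where

theorem sa_shortExact {S : ShortComplex SA.{u}} (h : S.ShortExact) : (S.map CC).ShortExact :=
  HomologicalComplex.shortExact_of_degreewise_shortExact _ fun n =>
    h.map_of_exact ((evaluation _ _).obj (op ⦋n⦌))

theorem row_shortExact {S : ShortComplex BS.{u}} (h : S.ShortExact) (p : SimplexCategoryᵒᵖ) :
    (S.map ((evaluation _ _).obj p ⋙ CC)).ShortExact :=
  sa_shortExact (h.map_of_exact ((evaluation _ _).obj p))

theorem dg_shortExact {S : ShortComplex BS.{u}} (h : S.ShortExact) :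
    (S.map (dg ⋙ CC)).ShortExact :=
  HomologicalComplex.shortExact_of_degreewise_shortExact _ fun n =>
    (h.map_of_exact ((evaluation _ _).obj (op ⦋n⦌))).map_of_exact ((evaluation _ _).obj (op ⦋n⦌))

/-- The short exact sequence of the decalage. -/
noncomputable abbrev decS (M : BS.{u}) : ShortComplex BS.{u} :=
  ShortComplex.mk (kernel.ι (decD M)) (decD M) (kernel.condition _)

theorem decS_se (M : BS.{u}) : (decS M).ShortExact :=
  { exact := ShortComplex.exact_of_f_is_kernel _ (kernelIsKernel _) }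

/-- Its functoriality. -/
noncomputable def decM {M N : BS.{u}} (f : M ⟶ N) : decS M ⟶ decS N where
  τ₁ := kernel.map _ _ (Dec.map f) f (decD_nat f).symm
  τ₂ := Dec.map f
  τ₃ := f
  comm₁₂ := by simp
  comm₂₃ := decD_nat f

/-- Rows `a - p` connected give an `a` connected diagonal. -/
theorem r1 (a : ℕ) {M N : BS.{u}} (f : M ⟶ N)
    (h : ∀ p : ℕ, Cn (a - p) (CC.map (f.app (op ⦋p⦌)))) : Cn a (CC.map (dg.map f)) := by
  induction a generalizing M N with
  | zero => exact cn_zero _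
  | succ a ih =>
    have h1 : Cn a (CC.map (dg.map (decM f).τ₁)) := ih _ fun p => by
      by_cases hp : a ≤ p
      · rw [Nat.sub_eq_zero_of_le hp]
        exact cn_zero _
      · refine cn_four₁ (((evaluation _ _).obj (op ⦋p⦌) ⋙ CC).mapShortComplex.map (decM f))
          (row_shortExact (decS_se M) _) (row_shortExact (decS_se N) _) ?_ ?_
        · exact (h (p + 1)).mono (by omega)
        · exact (h p).mono (by omega)
    have h2 : Cn (a + 1) (CC.map (dg.map (Dec.map f))) :=
      (cn_sq (CC.map (decP M)) (CC.map (decP N))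
        (by rw [← CC.map_comp, ← CC.map_comp, decP_nat])).2 (h 0)
    exact cn_four₃ ((dg ⋙ CC).mapShortComplex.map (decM f)) (dg_shortExact (decS_se M))
      (dg_shortExact (decS_se N)) h1 h2

/-- Rowwise quasi-isomorphisms give a quasi-isomorphism of diagonals. -/
theorem r1_quasiIso {M N : BS.{u}} (f : M ⟶ N)
    (h : ∀ p : ℕ, QuasiIso (CC.map (f.app (op ⦋p⦌)))) : QuasiIso (CC.map (dg.map f)) :=
  quasiIso_of_cn fun a => r1 a f fun p => have := h p; cn_of_quasiIso _ _

end Pool.Agent.Lib.MP_5d3e93_al.Br
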