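import Pool.Agent.Lib.MP_5d3e93_al.Br.Rel
import Pool.Agent.Lib.MP_5d3e93_al.Br.R1

/-! Connectivity of diagonals after a functor to abelian groups. -/

open CategoryTheory Limits Opposite Simplicial AlgebraicTopology ZeroObject

namespace Pool.Agent.Lib.MP_5d3e93_al.Br

universe u v w

variable {a : ℕ} {C : Type w} [Category.{v} C] (F : C ⥤ ModuleCat.{u} ℤ)
  {M N : SimplexCategoryᵒᵖ ⥤ SimplicialObject C}

/-- The diagonal commutes with functors. -/
noncomputable def dgIso (M : SimplexCategoryᵒᵖ ⥤ SimplicialObject C) :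
    dg.obj (M ⋙ wh F) ≅ (wh F).obj ((dgG _ C).obj M) :=
  NatIso.ofComponents (fun _ => Iso.refl _) fun _ =>
    (Category.comp_id _).trans ((F.map_comp _ _).symm.trans (Category.id_comp _).symm)

theorem dgIso_nat (f : M ⟶ N) : dg.map (Functor.whiskerRight f (wh F)) ≫ (dgIso F N).hom =
    (dgIso F M).hom ≫ (wh F).map ((dgG _ C).map f) :=
  NatTrans.ext (funext fun _ => (Category.comp_id _).trans (Category.id_comp _).symm)

theorem r1F (f : M ⟶ N) (h : ∀ p : ℕ, Cn (a - p) (CC.map ((wh F).map (f.app (op ⦋p⦌))))) :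
    Cn a (CC.map ((wh F).map ((dgG _ C).map f))) :=
  (cn_sq (CC.map (dgIso F M).hom) (CC.map (dgIso F N).hom)
    (by rw [← CC.map_comp, ← CC.map_comp, dgIso_nat])).1 (r1 a (Functor.whiskerRight f (wh F)) h)

/-- The diagonal of the flip. -/
def r1F_flip (M : SimplexCategoryᵒᵖ ⥤ SimplicialObject C) :
    (dgG _ C).obj M.flip ≅ (dgG _ C).obj M :=
  NatIso.ofComponents (fun _ => Iso.refl _) fun g =>
    (Category.comp_id _).trans (((M.map g).naturality g).trans (Category.id_comp _).symm)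

/-- R1 for columns. -/
theorem r1F' (f : M ⟶ N)
    (h : ∀ p : ℕ, Cn (a - p) (CC.map ((wh F).map (((flipFunctor _ _ _).map f).app (op ⦋p⦌))))) :
    Cn a (CC.map ((wh F).map ((dgG _ C).map f))) :=
  (cn_sq (CC.map ((wh F).map (r1F_flip M).hom)) (CC.map ((wh F).map (r1F_flip N).hom)) (by
    rw [← CC.map_comp, ← CC.map_comp, ← Functor.map_comp, ← Functor.map_comp]
    exact congrArg _ (congrArg _ (NatTrans.ext (funext fun _ =>
      (Category.comp_id _).trans (Category.id_comp _).symm))))).1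
    (r1F F ((flipFunctor _ _ _).map f) h)

theorem r1_ac (M : BS.{u}) (h : ∀ p : ℕ, Ac (a - p) (CC.obj (M.obj (op ⦋p⦌)))) :
    Ac a (CC.obj (dg.obj M)) := fun n c y e => by
  obtain ⟨_, w, -, k⟩ := (r1 a (0 : M ⟶ M) fun p =>
    ⟨fun n c y e => (h p n c y e).elim fun w f => ⟨0, w, map_zero _, by rw [map_zero, zero_add, f]⟩,
      fun n c x _ e _ => h p n (by omega) x e⟩).1 n c y e
  exact ⟨w, k.trans (zero_add _)⟩

theorem TH.hq {X Y : SimplicialObject C} {f g : X ⟶ Y} (T : TH f g) :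
    Hq (CC.map ((wh F).map f)) (CC.map ((wh F).map g)) :=
  .of_homotopy (T.homotopy.whiskerRight F).toChainHomotopy

end Pool.Agent.Lib.MP_5d3e93_al.Br
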