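import Pool.Agent.Lib.MP_5d3e93_al.Br.AdE
import Pool.Agent.Lib.MP_5d3e93_al.Br.R1F

/-! One step of the S-construction improves additivity by two degrees. -/

open CategoryTheory Limits Pretriangulated ZeroObject Opposite Simplicial

namespace Pool.Agent.Lib.MP_5d3e93_al.A2

open Gr Am Br Lab.Cv

universe v u v' u' w w' w'' x x'

set_option backward.isDefEq.respectTransparency false

namespace LC

variable {C : Type w} [Preorder C] {Φ : LC C ⥤ SA.{w'}} {X Y : LC C} {r : ℕ}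

theorem Eqv.act {f : X ⟶ Y} (h : Eqv f) (Λ : Lab) : Eqv (((act C).map f).app Λ) :=
  ⟨fun _ a => ⟨a.1, h.al _ a.2⟩, fun _ a _ a' c => ⟨c.1, h.ord _ a.2 _ a'.2 c.2⟩,
    fun l a => (h.on _ a.2).elim fun k e => ⟨(l.1, k), Prod.ext rfl e⟩, fun _ a => h.col _ a.2⟩

theorem Gd.it (h : Gd Φ) (D : SimplexCategoryᵒᵖ ⥤ Lab) : Gd (It D Φ) :=
  ⟨fun Y k => Functor.isZero _ fun n =>
      (h.z (((act C).obj Y).obj (D.obj n)) fun _ c => k _ c.2).obj n,
    fun f k b => r1 b (Functor.whiskerLeft D (Functor.whiskerRight ((act C).map f) Φ))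
      fun _ => h.e _ (k.act _) _⟩

/-- The only non constant label in degree one. -/
theorem adC_id {a : Iv (op ⦋1⦌)} (h : a.Nc) : a = OrderHom.id :=
  OrderHom.ext _ _ (funext fun (i : Fin 2) => by
    obtain rfl | rfl : i = 0 ∨ i = 1 := by revert i; decide
    exacts [h.1, h.2])

theorem adC_zero (h : Gd Φ) (Z : LC C) : IsZero (Φ.obj (((act C).obj Z).obj (DS.obj (op ⦋0⦌)))) :=
  h.z _ fun _ c => absurd (c.1.1.symm.trans c.1.2) (by decide)

/-- The alive labels of level `n` are the degeneracies of those of level one. -/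
def adC_dec (Z : LC C) (n : ℕ) :
    Dec fun l : Nc ⦋n⦌ => ((act C).obj Z).map (DS.map l.1.op) where
  P := Iv (op ⦋n⦌)
  p := OrderHom.fst
  t l := l.1.toOrderHom
  inj _ _ e := Subtype.ext (SimplexCategory.Hom.ext _ _ e)
  ρ _ := ⟨fun l => (OrderHom.id, l.2), fun _ _ c => ⟨le_rfl, c.2⟩⟩
  cov l a := ⟨⟨SimplexCategory.Hom.mk l.1, (nc_iff _).2 a.1⟩, rfl⟩
  sec k := fun ⟨_, _⟩ ⟨a, c⟩ => by
    obtain rfl := adC_id a
    exact ⟨⟨(nc_iff _).1 k.2, c⟩, OrderHom.ext _ _ (funext fun _ => rfl), rfl⟩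
  al k := fun ⟨_, _⟩ e => by
    obtain rfl : _ = _ := e
    exact ⟨fun c => ⟨(nc_iff _).1 k.2, c.2⟩, fun c => ⟨⟨rfl, rfl⟩, c.2⟩⟩
  ret k := fun ⟨_, _⟩ _ e => by
    obtain rfl : _ = _ := e
    exact ⟨Prod.ext (OrderHom.ext _ _ (funext fun _ => rfl)) rfl, le_rfl⟩

/-- Exchange of two tensor factors. -/
def adC_sw (Y : LC C) (Λ Λ' : Lab) : ((act C).obj (((act C).obj Y).obj Λ')).obj Λ ⟶
    ((act C).obj (((act C).obj Y).obj Λ)).obj Λ' :=
  ⟨⟨⟨fun l => (l.2.1, l.1, l.2.2), fun _ _ c => ⟨c.2.1, c.1, c.2.2⟩⟩,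
    fun _ c => ⟨c.2.1, c.1, c.2.2⟩⟩, fun _ _ => le_rfl⟩

theorem Gd.add_step (h : Gd Φ) (ad : Add Φ r) : Add (It DS Φ) (r + 2) := fun Y _ hj =>
  r3c (M := DS ⋙ (act C).obj (((act C).obj Y).obj (DS.obj (op ⦋2⦌))) ⋙ Φ)
    (M' := DS ⋙ (act C).obj (((act C).obj Y).obj (DS.obj (op ⦋1⦌))) ⋙ Φ)
    (adC_zero h _) (adC_zero h _) (fun n _ c z => (adC_dec _ n).on h ad c z)
    (fun i => Functor.whiskerLeft DS (Functor.whiskerRight ((act C).map (sd Y i)) Φ))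
    (Φ.map (adC_sw Y _ _)) (fun i j => (h.agree (((act C).map (sd Y i)).app _)
      (adC_sw Y _ _ ≫ sd _ i) (fun l c => by
        obtain ⟨a, b⟩ : Iv.Nc l.1 ∧ Iv.Nc (Iv.act (SimplexCategory.δ i).op l.2.1) :=
          c.elim (fun c => ⟨c.1, c.2.1⟩) fun c => ⟨c.2.1, c.1⟩
        have e := (adC_id a).trans (adC_id b).symm
        exact Prod.ext e (Prod.ext e.symm rfl)) j).trans
      (congrArg (HH j).map (Φ.map_comp _ _))) hj

end LC

end Pool.Agent.Lib.MP_5d3e93_al.A2
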