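import Pool.Agent.Lib.MP_5d3e93_al.Br.KD

/-! Isomorphisms of iterated constructions. -/

open CategoryTheory Limits Pretriangulated ZeroObject Opposite Simplicial

namespace Pool.Agent.Lib.MP_5d3e93_al.A2

open Gr Am Br Lab.Cv

universe v u v' u' w w' w'' x x'

set_option backward.isDefEq.respectTransparency false

namespace LC

variable {C : Type w} [Preorder C] {Φ : LC C ⥤ SA.{w'}} {X Y : LC C} {r : ℕ}

/-- Splitting off the first label. -/
def adiE (Y : LC C) (m : ℕ) (n : SimplexCategoryᵒᵖ) :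
    ((act C).obj Y).obj ((Dm (m + 1)).obj n) ≅
      ((act C).obj (((act C).obj Y).obj (DS.obj n))).obj ((Dm m).obj n) where
  hom := ⟨⟨⟨fun l => (fun k => l.1 k.succ, l.1 0, l.2),
    fun _ _ h => ⟨fun k => h.1 k.succ, h.1 0, h.2⟩⟩,
    fun _ h => ⟨fun k => Fin.cases h.2.1 (fun j => h.1 j) k, h.2.2⟩⟩, fun _ _ => le_rfl⟩
  inv := ⟨⟨⟨fun l => (Fin.cons l.2.1 l.1, l.2.2),
    fun _ _ h => ⟨fun k => Fin.cases h.2.1 (fun j => h.1 j) k, h.2.2⟩⟩,
    fun _ h => ⟨fun k => h.1 k.succ, h.1 0, h.2⟩⟩, fun _ _ => le_rfl⟩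
  hom_inv_id := hom_ext fun _ => Prod.ext (funext fun k => Fin.cases rfl (fun _ => rfl) k) rfl
  inv_hom_id := hom_ext fun _ => rfl

theorem it_succ {E : Type w'} [Category.{w''} E] (Φ : LC C ⥤ SimplicialObject E) (m : ℕ) :
    Nonempty (It (Dm (m + 1)) Φ ≅ It DS (It (Dm m) Φ)) := by
  refine ⟨NatIso.ofComponents (fun Y => NatIso.ofComponents
    (fun n => (Φ.mapIso (adiE Y m n)).app n) fun {n n'} θ => ?_) fun {X Y} f => ?_⟩
  · change ((Φ.map (((act C).obj Y).map ((Dm (m + 1)).map θ))).app n ≫ (Φ.obj _).map θ) ≫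
      (Φ.map (adiE Y m n').hom).app n' = (Φ.map (adiE Y m n).hom).app n ≫
      (Φ.map (((act C).map (((act C).obj Y).map (DS.map θ))).app ((Dm m).obj n))).app n ≫
      (Φ.map (((act C).obj _).map ((Dm m).map θ))).app n ≫ (Φ.obj _).map θ
    rw [Category.assoc, NatTrans.naturality]
    simp only [← Category.assoc, ← NatTrans.comp_app, ← Φ.map_comp]
    rfl
  · refine NatTrans.ext (funext fun n => ?_)
    change (Φ.map (((act C).map f).app _)).app n ≫ (Φ.map (adiE Y m n).hom).app n =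
      (Φ.map (adiE X m n).hom).app n ≫
        (Φ.map (((act C).map (((act C).map f).app _)).app ((Dm m).obj n))).app n
    simp only [← NatTrans.comp_app, ← Φ.map_comp]
    rfl

theorem adi_conj {Φ' : LC C ⥤ SA.{w'}} (e : Φ ≅ Φ') (f : X ⟶ Y) :
    Φ'.map f = e.inv.app X ≫ Φ.map f ≫ e.hom.app Y := (NatIso.naturality_1 e f).symm

theorem Add.of_iso {Φ' : LC C ⥤ SA.{w'}} (e : Φ ≅ Φ') (h : Add Φ r) : Add Φ' r := fun Y j hj => by
  simp only [adi_conj e, Functor.map_comp, h Y j hj, Preadditive.add_comp, Preadditive.comp_add]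

theorem Gd.of_iso {Φ' : LC C ⥤ SA.{w'}} (e : Φ ≅ Φ') (h : Gd Φ) : Gd Φ' := by
  refine ⟨fun Y k => (h.z Y k).of_iso (e.app Y).symm, fun f k b => ?_⟩
  have := quasiIso_of_cn (h.e f k)
  rw [adi_conj e, Functor.map_comp, Functor.map_comp]
  exact cn_of_quasiIso _ _

theorem it_rf (D : SimplexCategoryᵒᵖ ⥤ Lab) (Ψ : LC C ⥤ SP.{w'}) :
    Nonempty (It D (Ψ ⋙ RF) ≅ It D Ψ ⋙ RF) :=
  ⟨NatIso.ofComponents (fun _ => NatIso.ofComponents (fun _ => Iso.refl _) fun _ =>
    (Category.comp_id _).trans ((PT.fr.map_comp _ _).symm.trans (Category.id_comp _).symm))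
    fun _ => NatTrans.ext (funext fun _ => (Category.comp_id _).trans (Category.id_comp _).symm)⟩

end LC

end Pool.Agent.Lib.MP_5d3e93_al.A2
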