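import Pool.Agent.Lib.MP_5d3e93_al.Br.AdC
import Pool.Agent.Lib.MP_5d3e93_al.Br.AdI

/-! Additivity for the iterated construction and the abstract fibration step. -/

open CategoryTheory Limits Pretriangulated ZeroObject Opposite Simplicial

namespace Pool.Agent.Lib.MP_5d3e93_al.A2

open Gr Am Br Lab.Cv

universe v u v' u' w w' w'' x x'

set_option backward.isDefEq.respectTransparency false

namespace LC

variable {C : Type w} [Preorder C] {Φ : LC C ⥤ SA.{w'}} {X Y : LC C} {r : ℕ}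

theorem Gd.add (h : Gd Φ) (m : ℕ) : Add (It (Dm m) Φ) (2 * m) := by
  induction m with
  | zero => exact fun _ _ k => absurd k (Nat.not_lt_zero _)
  | succ m ih =>
    obtain ⟨e⟩ := it_succ Φ m
    exact Add.of_iso e.symm ((h.it (Dm m)).add_step ih)

section
variable {N S : C} (h : N ≤ S) (q : ℕ)

/-- The constant alive label. -/
def addO (n : SimplexCategoryᵒᵖ) : (DR.obj n).L := OrderDual.toDual (OrderHom.const _ (1 : Fin 2))

theorem add_o {x : oL.L} (k : x ∈ oL.U) : x = addO _ :=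
  OrderHom.ext (α := Fin 1) (β := Fin 2) _ _ (funext fun i => by
    obtain rfl : i = 0 := Subsingleton.elim _ _
    exact k)

/-- The pieces of a level of the relative construction. -/
def addX (k : Option (Nc ⦋q⦌)) : LC C := ⟨oL, k.elim ((Rq h).obj (op ⦋0⦌)).c fun _ _ => N⟩

/-- The inclusions of the pieces. -/
def addH (k : Option (Nc ⦋q⦌)) : addX h q k ⟶ (Rq h).obj (op ⦋q⦌) :=
  Option.rec (motive := fun k => addX h q k ⟶ (Rq h).obj (op ⦋q⦌)) ((Rq h).map (tm ⦋q⦌).op)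
    (fun l => iR h ≫ (Rq h).map l.1.op) k

/-- The alive labels. -/
def addT (k : Option (Nc ⦋q⦌)) : (DR.obj (op ⦋q⦌)).L :=
  k.elim (addO _) fun l => OrderDual.toDual l.1.toOrderHom

theorem add_ht (k) : (addH h q k).f.f (addO _) = addT q k := by
  rcases k with _ | l
  · rfl
  · exact OrderHom.ext (α := Fin (q + 1)) (β := Fin 2) _ _
      (funext fun i => min_eq_left (Fin.le_last (l.1.toOrderHom i)))

theorem add_tu (k) : addT q k ∈ (DR.obj (op ⦋q⦌)).U := by
  rcases k with _ | l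
  exacts [rfl, ((nc_iff l.1).1 l.2).2]

theorem add_ne (l : Nc ⦋q⦌) : vl (q := op ⦋q⦌) (addT q (some l)) 0 ≠ 1 := fun k =>
  absurd (((nc_iff l.1).1 l.2).1.symm.trans k) (show ¬ (0 : Fin 2) = 1 by decide)

/-- The decomposition of a level of the relative construction. -/
def addD : Dec (addH h q) where
  P := (DR.obj (op ⦋q⦌)).L
  p := OrderHom.id
  t := addT q
  inj := by
    rintro (_ | l) (_ | l') e
    · rfl
    · exact (add_ne q l' (e ▸ rfl)).elim
    · exact (add_ne q l (e.symm ▸ rfl)).elim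
    · exact congrArg some (Subtype.ext (SimplexCategory.Hom.ext _ _ e))
  ρ _ := OrderHom.const _ (addO _)
  cov l c := by
    by_cases a : vl l 0 = 1
    · exact ⟨none, OrderHom.ext (α := Fin (q + 1)) (β := Fin 2) _ _ (funext fun i =>
        le_antisymm (Fin.le_last _) (a.ge.trans ((vl l).monotone (Fin.zero_le i))))⟩
    · exact ⟨some ⟨SimplexCategory.Hom.mk (vl l), (nc_iff _).2
        ⟨(by decide : ∀ x : Fin 2, x ≠ 1 → x = 0) _ a, c⟩⟩, rfl⟩
  sec k x c := by
    obtain rfl := add_o c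
    exact ⟨(add_ht h q k).symm ▸ add_tu q k, add_ht h q k, rfl⟩
  al k l e := iff_of_true rfl ((show l = addT q k from e).symm ▸ add_tu q k)
  ret k l _ e := by
    obtain rfl : l = addT q k := e
    refine ⟨add_ht h q k, ?_⟩
    rcases k with _ | l
    exacts [le_rfl, (if_neg (add_ne q l)).le]

theorem add_sum (j : ℕ) (w : ∀ k, (HH j).obj (Φ.obj (addX h q k))) :
    ∑ k, (HH j).map (Φ.map (addH h q k)) (w k) =
      (HH j).map ((Rq h ⋙ Φ).map (tm ⦋q⦌).op) (w none) +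
        ∑ l : Nc ⦋q⦌, (HH j).map (Φ.map (iR h) ≫ (Rq h ⋙ Φ).map l.1.op) (w (some l)) :=
  (Fintype.sum_option _).trans (congrArg₂ (· + ·) rfl (Finset.sum_congr rfl fun l _ =>
    congrArg (fun f => (HH j).map f (w (some l))) (Φ.map_comp (iR h) ((Rq h).map l.1.op))))

theorem add_d0 : iR h ≫ (Rq h).map (SimplexCategory.δ (0 : Fin 2)).op = ocm h ≫ (yR h).hom :=
  hom_ext fun l => OrderHom.ext (α := Fin 1) (β := Fin 2) _ _ (funext fun i => by
    obtain rfl : i = 0 := Subsingleton.elim _ _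
    exact min_eq_right (Fin.le_last (vl l 0)))

theorem add_d1 (l) : (iR h ≫ (Rq h).map (SimplexCategory.δ (1 : Fin 2)).op).f.f l ∉
    ((Rq h).obj (op ⦋0⦌)).Λ.U := fun k =>
  absurd ((min_eq_left (Fin.zero_le (vl l 0))).symm.trans k) (show ¬ (0 : Fin 2) = 1 by decide)

end

theorem Gd.fib (g : Gd Φ) (ad : Add Φ r) {N S : C} (h : N ≤ S) {Q Z : SA.{w'}}
    (π : Φ.obj (oc S) ⟶ Q) (z : Φ.map (ocm h) ≫ π = 0) (se : (ShortComplex.mk _ _ z).ShortExact)
    (ψ : dg.obj (Rq h ⋙ Φ) ⟶ Z) (q : Q ⟶ Z)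
    (e1 : ∀ n : SimplexCategoryᵒᵖ, (Φ.map ((yR h).hom ≫ (Rq h).map (tm n.unop).op)).app n ≫
      ψ.app n = π.app n ≫ q.app n)
    (e2 : ∀ (n : SimplexCategoryᵒᵖ) (l : Nc n.unop),
      (Φ.map (iR h ≫ (Rq h).map l.1.op)).app n ≫ ψ.app n = 0)
    (hψ : Cn r (CC.map ψ)) : Cn r (CC.map q) := by
  have d0 : Φ.map (iR h) ≫ SimplicialObject.δ (Rq h ⋙ Φ) 0 = Φ.map (ocm h) ≫ Φ.map (yR h).hom :=
    (Φ.map_comp _ _).symm.trans ((congrArg Φ.map (add_d0 h)).trans (Φ.map_comp _ _))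
  have k : Φ.map (yR h).hom ≫ Φ.map (yR h).inv ≫ π = π := (Φ.mapIso (yR h)).hom_inv_id_assoc π
  have z' : (Φ.map (iR h) ≫ SimplicialObject.δ (Rq h ⋙ Φ) 0) ≫ Φ.map (yR h).inv ≫ π = 0 := by
    rw [d0, Category.assoc, k, z]
  refine r4c (Rq h ⋙ Φ) (Φ.map (iR h)) ((Φ.map_comp _ _).symm.trans (g.zero _ (add_d1 h)))
    (Φ.map (yR h).inv ≫ π) z' (ShortComplex.shortExact_of_iso (S₁ := ShortComplex.mk _ _ z)
      (ShortComplex.isoMk (Iso.refl _) (Φ.mapIso (yR h)) (Iso.refl _)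
        ((Category.id_comp _).trans d0) (k.trans (Category.comp_id _).symm)) se) ψ q
    (fun n => ?_) (fun n l => ?_) (fun n j c x => ?_) (fun n j _ x y e => ?_) hψ
  · rw [NatTrans.comp_app, Category.assoc, ← e1, ← NatTrans.comp_app_assoc, ← Φ.map_comp,
      Iso.inv_hom_id_assoc]
    rfl
  · rw [← e2 n l, Φ.map_comp, NatTrans.comp_app, Category.assoc]
    rfl
  · obtain ⟨w, e⟩ := (addD h n).on g ad (show j < r by omega) x
    exact ⟨w none, fun l => w (some l), e.trans (add_sum h n j w)⟩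
  · have := (addD h n).inj' g j (fun k => Option.rec
      (motive := fun k => (HH j).obj (Φ.obj (addX h n k))) x y k) ((add_sum h n j _).trans e)
    exact ⟨this none, fun l => this (some l)⟩

end LC

end Pool.Agent.Lib.MP_5d3e93_al.A2
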