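import Pool.Agent.Lib.MP_5d3e93_al.Br.AdA

/-! Decompositions of alive labels split the homology. -/

open CategoryTheory Limits Pretriangulated ZeroObject Opposite Simplicial

namespace Pool.Agent.Lib.MP_5d3e93_al.A2

open Gr Am Br Lab.Cv

universe v u v' u' w w' w'' x x'

set_option backward.isDefEq.respectTransparency false

namespace LC

variable {C : Type w} [Preorder C] {Φ : LC C ⥤ SA.{w'}} {X Y : LC C} {r : ℕ}

open Classical in
/-- The label of the interval with given values at the two vertices. -/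
noncomputable def adbI (a b : Prop) : Iv (op ⦋1⦌) :=
  ⟨fun i : Fin 2 => if (i = 0 → a) ∧ b then 1 else 0, fun i j e => by
    dsimp only
    split_ifs with c d
    · exact le_rfl
    · exact (d ⟨fun k => c.1 (Fin.le_zero_iff.1 (k ▸ e)), c.2⟩).elim
    · exact Fin.zero_le _
    · exact le_rfl⟩

theorem adbI_le {a b a' b' : Prop} (k : a → a') (k' : b → b') :
    adbI a b ≤ adbI a' b' := fun i => by
  dsimp only [adbI, OrderHom.coe_mk]
  split_ifs with c d
  · exact le_rfl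
  · exact (d ⟨fun e => k (c.1 e), k' c.2⟩).elim
  · exact Fin.zero_le _
  · exact le_rfl

theorem adbI_nc {a b : Prop} : (adbI a b).Nc ↔ ¬ a ∧ b := by
  have e : (Fin.last 1 : Fin 2) ≠ 0 := by decide
  by_cases c : a <;> by_cases d : b <;> simp_all [Iv.Nc, adbI]

theorem adbI_id {a b : Prop} (c : ¬ a) (d : b) : adbI a b = OrderHom.id :=
  OrderHom.ext _ _ (funext fun i : Fin 2 => by fin_cases i <;> simp [adbI, c, d])

attribute [local instance] Dec.ord Dec.fin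

variable {κ : Type} {Z : κ → LC C} {h : ∀ k, Z k ⟶ Y}

theorem Dec.adb_nc (d : Dec h) {k} {x : d.P} :
    (adbI (d.t k < x) (d.t k ≤ x)).Nc ↔ x = d.t k :=
  adbI_nc.trans ⟨fun c => (c.2.eq_of_not_lt c.1).symm, fun c => c ▸ ⟨lt_irrefl _, le_rfl⟩⟩

/-- The retraction to a summand. -/
noncomputable def Dec.adbR (d : Dec h) (k : κ) :
    Y ⟶ ((act C).obj (Z k)).obj (DS.obj (op ⦋1⦌)) :=
  ⟨⟨⟨fun l => (adbI (d.t k < d.p l) (d.t k ≤ d.p l), d.ρ k l), fun _ _ e =>
    ⟨adbI_le (fun c => lt_of_lt_of_le c (d.p.monotone e)) fun c => le_trans c (d.p.monotone e),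
      (d.ρ k).monotone e⟩⟩, fun l c => (d.al k l (d.adb_nc.1 c.1)).1 c.2⟩,
    fun l c => (d.ret k l ((d.al k l (d.adb_nc.1 c.1)).1 c.2) (d.adb_nc.1 c.1)).2⟩

/-- The part over a lower set. -/
noncomputable def Dec.adbG (d : Dec h) (D : Finset d.P) (hD : IsLowerSet (D : Set d.P)) :
    Y ⟶ ((act C).obj Y).obj (DS.obj (op ⦋1⦌)) :=
  ⟨⟨⟨fun l => (adbI (d.p l ∉ D) True, l), fun _ _ e =>
    ⟨adbI_le (fun c k => c (hD (d.p.monotone e) k)) id, e⟩⟩, fun _ c => c.2⟩, fun _ _ => le_rfl⟩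

theorem Dec.adbG_al (d : Dec h) {D hD l} : (d.adbG D hD).f.f l ∈
    (((act C).obj Y).obj (DS.obj (op ⦋1⦌))).Λ.U ↔ d.p l ∈ D ∧ l ∈ Y.Λ.U :=
  and_congr_left' (adbI_nc.trans (by simp))

theorem Dec.adbG_eq (d : Dec h) {D hD l} (c : d.p l ∈ D) :
    (d.adbG D hD).f.f l = (OrderHom.id, l) :=
  Prod.ext (adbI_id (not_not.2 c) trivial) rfl

theorem Dec.adbR_al (d : Dec h) {k l} : (d.adbR k ≫ ((act C).map (h k)).app _).f.f l ∈
    (((act C).obj Y).obj (DS.obj (op ⦋1⦌))).Λ.U ↔ d.p l = d.t k ∧ l ∈ Y.Λ.U :=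
  ⟨fun c => ⟨d.adb_nc.1 c.1, (d.adbR k ≫ ((act C).map (h k)).app _).f.al l c⟩, fun c =>
    ⟨d.adb_nc.2 c.1, show (h k).f.f (d.ρ k l) ∈ _ from (d.ret k l c.2 c.1).1.symm ▸ c.2⟩⟩

theorem Dec.adbR_eq (d : Dec h) {k l} (c : d.p l = d.t k) (e : l ∈ Y.Λ.U) :
    (d.adbR k ≫ ((act C).map (h k)).app _).f.f l = (OrderHom.id, l) :=
  Prod.ext (adbI_id c.not_gt c.ge) (d.ret k l e c).1

open Classical in
theorem Dec.adb_sum [Fintype κ] (d : Dec h) (g : Gd Φ) (ad : Add Φ r) {j : ℕ} (hj : j < r)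
    (D : Finset d.P) : ∀ hD, (HH j).map (Φ.map (d.adbG D hD)) =
      ∑ k with d.t k ∈ D, (HH j).map (Φ.map (d.adbR k ≫ ((act C).map (h k)).app _)) := by
  induction D using Finset.strongInduction with | H D ih => ?_
  intro hD
  obtain rfl | ne := D.eq_empty_or_nonempty
  · rw [g.zero _ fun l c => by simpa using (d.adbG_al.1 c).1, Functor.map_zero]
    simp
  obtain ⟨x, hx, mx⟩ := D.exists_maximal ne
  have hD' : IsLowerSet ((D.erase x : Finset d.P) : Set d.P) := fun y z e c => by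
    obtain ⟨c₁, c₂⟩ := Finset.mem_erase.1 c
    exact Finset.mem_erase.2 ⟨fun k => c₁ (le_antisymm (mx c₂ (k ▸ e)) (k ▸ e)), hD e c₂⟩
  have ih := ih _ (Finset.erase_ssubset hx) hD'
  by_cases c : ∃ k, d.t k = x
  · obtain ⟨k, rfl⟩ := c
    have e : (Finset.univ.filter fun k' => d.t k' ∈ D) =
        insert k (Finset.univ.filter fun k' => d.t k' ∈ D.erase (d.t k)) := by
      ext k'
      by_cases c : k' = k <;> simp [c, hx, d.inj.eq_iff]
    rw [e, Finset.sum_insert (by simp), ← ih, add_comm]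
    refine g.ga ad _ _ _ (fun l c => ?_) (fun l c => ?_) (fun l c => ?_) (fun a b c c' e => ?_) hj
    · have := (d.adbG_al.1 c).1
      rw [d.adbG_eq this, d.adbG_eq (Finset.mem_of_mem_erase this)]
    · have := d.adbR_al.1 c
      rw [d.adbR_eq this.1 this.2, d.adbG_eq (this.1 ▸ hx)]
    · have := d.adbG_al.1 c
      exact (eq_or_ne (d.p l) (d.t k)).symm.imp
        (fun e => d.adbG_al.2 ⟨Finset.mem_erase.2 ⟨e, this.1⟩, this.2⟩)
        fun e => d.adbR_al.2 ⟨e, this.2⟩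
    · exact (Finset.mem_erase.1 (hD' (d.p.monotone e) (d.adbG_al.1 c).1)).1 (d.adbR_al.1 c').1
  · have e : (Finset.univ.filter fun k' => d.t k' ∈ D) =
        Finset.univ.filter fun k' => d.t k' ∈ D.erase x := by
      ext k'
      simp [not_exists.1 c k']
    rw [e, ← ih]
    refine g.agree _ _ (fun l c' => ?_) j
    have : d.p l ∈ D.erase x := c'.elim (fun c' => by
      obtain ⟨a, b⟩ := d.adbG_al.1 c'
      obtain ⟨k, e⟩ := d.cov l b
      exact Finset.mem_erase.2 ⟨fun f => c ⟨k, e ▸ f⟩, a⟩) fun c' => (d.adbG_al.1 c').1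
    rw [d.adbG_eq this, d.adbG_eq (Finset.mem_of_mem_erase this)]

theorem Dec.on {κ : Type} [Fintype κ] {X : κ → LC C} {h : ∀ k, X k ⟶ Y} (d : Dec h) (g : Gd Φ)
    (ad : Add Φ r) {j : ℕ} (hj : j < r) (z : (HH j).obj (Φ.obj Y)) :
    ∃ w : ∀ k, (HH j).obj (Φ.obj (X k)), z = ∑ k, (HH j).map (Φ.map (h k)) (w k) := by
  have := Fintype.ofFinite d.P
  have e := d.adb_sum g ad hj Finset.univ fun _ _ _ _ => Finset.mem_coe.2 (Finset.mem_univ _)
  rw [show d.adbG _ _ = ι₁ Y from hom_ext fun l => d.adbG_eq (Finset.mem_univ _)] at e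
  choose w hw using fun k => (g.bij (ι₁_eqv (X k)) j).2 ((HH j).map (Φ.map (d.adbR k)) z)
  refine ⟨w, (g.bij (ι₁_eqv Y) j).1 ?_⟩
  have e' := congrArg (fun f => f.hom z) e
  simp only [Finset.mem_univ, Finset.filter_true, ModuleCat.hom_sum, LinearMap.sum_apply] at e'
  rw [map_sum]
  refine e'.trans (Finset.sum_congr rfl fun k _ => ?_)
  rw [← ConcreteCategory.comp_apply, ← Functor.map_comp, ← Functor.map_comp, ι₁_nat]
  simp only [Functor.map_comp, ConcreteCategory.comp_apply, hw]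

/-- Apply `H (r k)`: `h k' ≫ r k` is dead for `k' ≠ k` (`Gd.zero`), `h k ≫ r k` agrees with `ι₁`. -/
theorem Dec.inj' {κ : Type} [Fintype κ] {X : κ → LC C} {h : ∀ k, X k ⟶ Y} (d : Dec h) (g : Gd Φ)
    (j : ℕ) (w : ∀ k, (HH j).obj (Φ.obj (X k))) (e : ∑ k, (HH j).map (Φ.map (h k)) (w k) = 0) (k) :
    w k = 0 := by
  have a := congrArg ((HH j).map (Φ.map (d.adbR k))) e
  rw [map_sum, map_zero, Finset.sum_eq_single k (fun k' _ c => ?_) (by simp)] at a
  · refine (g.bij (ι₁_eqv (X k)) j).1 ?_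
    rw [map_zero, ← a, ← ConcreteCategory.comp_apply, ← Functor.map_comp, ← Functor.map_comp,
      g.agree (h k ≫ d.adbR k) (ι₁ _) (fun l c => ?_) j]
    obtain ⟨-, p, q⟩ := d.sec k l (c.elim ((h k ≫ d.adbR k).f.al l) fun c => c.2)
    exact Prod.ext (adbI_id p.not_gt p.ge) q
  · rw [← ConcreteCategory.comp_apply, ← Functor.map_comp, ← Functor.map_comp,
      g.zero _ fun l a => c (d.inj ((d.sec k' l ((h k' ≫ d.adbR k).f.al l a)).2.1.symm.trans
        (d.adb_nc.1 a.1))), Functor.map_zero]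
    rfl

end LC

end Pool.Agent.Lib.MP_5d3e93_al.A2
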