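import Pool.Agent.Lib.MP_5d3e93_al.Gr.BsI
import Pool.Agent.Lib.MP_5d3e93_al.Gr.Five
import Pool.Agent.Lib.MP_5d3e93_al.Gr.ZooB

/-! Bijectivity on morphisms out of a left adjoint. -/

open CategoryTheory Limits Pretriangulated ZeroObject Opposite

namespace Pool.Agent.Lib.MP_5d3e93_al.A2

open Gr Am

universe v u v' u' w w' x x'

set_option backward.isDefEq.respectTransparency false

theorem adb_cat {A₀ : Type*} [Category* A₀] {A₁ : Type*} [Category* A₁] {B₀ : Type*} [Category* B₀]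
    {B₁ : Type*} [Category* B₁] {j : A₀ ⥤ B₀} {r : B₀ ⥤ A₀} {j' : A₁ ⥤ B₁} {r' : B₁ ⥤ A₁}
    {φ : A₀ ⥤ A₁} {F : B₀ ⥤ B₁} (ad : j ⊣ r) (ad' : j' ⊣ r') (κ : φ ⋙ j' ≅ j ⋙ F)
    (μ : r ⋙ φ ≅ F ⋙ r') (X : A₀) (c : φ.map (ad.unit.app X) ≫ μ.hom.app (j.obj X) =
      ad'.unit.app (φ.obj X) ≫ r'.map (κ.hom.app X)) (Y : B₀)
    (h : Function.Bijective (φ.map : (X ⟶ r.obj Y) → _)) :
    Function.Bijective (F.map : (j.obj X ⟶ Y) → _) := by
  have i1 := (ad'.homEquiv (φ.obj X) (F.obj Y)).bijective.comp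
    (five_bij_pre (Z := F.obj Y) (κ.app X))
  have i2 := (five_bij_post (X := φ.obj X) (μ.app Y)).comp (h.comp (ad.homEquiv X Y).bijective)
  refine (Function.Bijective.of_comp_iff' i1 _).1 ?_
  refine (congrArg Function.Bijective (funext fun g => ?_)).mpr i2
  change ad'.unit.app _ ≫ r'.map (κ.hom.app X ≫ F.map g) =
    φ.map (ad.unit.app X ≫ r.map g) ≫ μ.hom.app Y
  have n := μ.hom.naturality g
  simp only [Functor.comp_map] at n
  rw [Functor.map_comp, Functor.map_comp, ← Category.assoc, ← c, Category.assoc, Category.assoc, n]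

/-- As the `ff` part of `dg_deq` and `ex_fr₂`: `Map.exists_adj` twice, `Map.sq`, `five_bij_pre`. -/
theorem adj_bij {a₀ : Am.{v, u}} {a₁ : Am.{v', u'}} {b₀ : Am.{w, w'}} {b₁ : Am.{x, x'}}
    (j : Map a₀ b₀) (r : Map b₀ a₀) (j' : Map a₁ b₁) (r' : Map b₁ a₁) (φ : Map a₀ a₁)
    (F : Map b₀ b₁) (ad : j.F ⊣ r.F) (ad' : j'.F ⊣ r'.F) (κ : φ.F ⋙ j'.F ≅ j.F ⋙ F.F)
    (μ : r.F ⋙ φ.F ≅ F.F ⋙ r'.F) (c : ∀ X, φ.F.map (ad.unit.app X) ≫ μ.hom.app (j.F.obj X) =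
      ad'.unit.app (φ.F.obj X) ≫ r'.F.map (κ.hom.app X)) (X : a₀.D) (Y : b₀.D)
    (h : Function.Bijective (φ.D.map : (X ⟶ r.D.obj Y) → _)) :
    Function.Bijective (F.D.map : (j.D.obj X ⟶ Y) → _) := by
  obtain ⟨A, hA, -⟩ := Map.exists_adj j r ad
  obtain ⟨A', hA', -⟩ := Map.exists_adj j' r' ad'
  refine adb_cat A A' (φ.sq j' j F κ) (r.sq φ F r' μ) X ?_ Y h
  refine (comp_congr ((congrArg φ.D.map (hA X)).trans (Map.map_nat a₀.idm (j.comp r) φ _ X))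
    ((Map.sq_hom r φ F r' μ _).trans (Map.nat_obj j (r.comp φ) (F.comp r') _ X))).trans ?_
  refine Eq.trans ?_ (comp_congr ((hA' _).trans (Map.nat_obj φ a₁.idm (j'.comp r') _ X))
    ((congrArg r'.D.map (Map.sq_hom φ j' j F κ X)).trans
      (Map.map_nat (φ.comp j') (j.comp F) r' _ X))).symm
  refine (Map.nat_app_comp φ (j.comp (r.comp φ)) (j.comp (F.comp r')) _ _ _ rfl X).trans ?_
  refine (Map.nat_app_comp φ (φ.comp (j'.comp r')) (j.comp (F.comp r')) _ _ _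
    (NatTrans.ext (funext fun Z => ?_)) X).symm
  exact (c Z).symm

end Pool.Agent.Lib.MP_5d3e93_al.A2
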