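import Pool.Agent.Lib.MP_5d3e93_al.Br.Cpt

/-! Attaching cells of one dimension: continuity, gluing, neighbourhood deformation data. -/

open CategoryTheory Simplicial Opposite Topology unitInterval

namespace Pool.Agent.Lib.MP_5d3e93_al.Br

universe u

variable {X Y : SSet.{u}} {n m d : ℕ} {W T : Type*}

section Cont

variable [TopologicalSpace W] [TopologicalSpace T] [LocallyCompactSpace T]

theorem rl_cont_nd {f : Rl X → W} : Continuous f ↔
    ∀ n (x : X _⦋n⦌), x ∈ X.nonDegenerate n → Continuous fun t => f (ch x t) := by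
  refine rl_cont.trans ⟨fun h n x _ => h n x, fun h n x => ?_⟩
  obtain ⟨k, g, -, y, rfl⟩ := X.exists_nonDegenerate x
  simp only [ch_nat]
  exact (h k y.1 y.2).comp (nf_sm_cont g)

theorem rl_cont_prod_nd {f : Rl X × T → W} : Continuous f ↔ ∀ n (x : X _⦋n⦌),
    x ∈ X.nonDegenerate n → Continuous fun p : Sx n × T => f (ch x p.1, p.2) := by
  refine rl_cont_prod.trans ⟨fun h n x _ => h n x, fun h n x => ?_⟩
  obtain ⟨k, g, -, y, rfl⟩ := X.exists_nonDegenerate x
  simp only [ch_nat]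
  exact (h k y.1 y.2).comp ((nf_sm_cont g).prodMap continuous_id)

/-- Continuity is tested on the image of a map and on the new nondegenerate simplices. -/
theorem rel_cont (i : X ⟶ Y) {f : Rl Y → W} (h : Continuous fun p => f (rm i p))
    (c : ∀ n (y : Y _⦋n⦌), y ∈ Y.nonDegenerate n → y ∉ Set.range (i.app (op ⦋n⦌)) →
      Continuous fun t => f (ch y t)) : Continuous f := by
  refine rl_cont_nd.2 fun n y hy => ?_
  by_cases e : y ∈ Set.range (i.app (op ⦋n⦌))
  · obtain ⟨x, rfl⟩ := e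
    simp only [← ch_map]
    exact h.comp (ch x).continuous
  · exact c n y hy e

theorem rel_cont_prod (i : X ⟶ Y) {f : Rl Y × T → W}
    (h : Continuous fun p : Rl X × T => f (rm i p.1, p.2))
    (c : ∀ n (y : Y _⦋n⦌), y ∈ Y.nonDegenerate n → y ∉ Set.range (i.app (op ⦋n⦌)) →
      Continuous fun p : Sx n × T => f (ch y p.1, p.2)) : Continuous f := by
  refine rl_cont_prod_nd.2 fun n y hy => ?_
  by_cases e : y ∈ Set.range (i.app (op ⦋n⦌))
  · obtain ⟨x, rfl⟩ := e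
    simp only [← ch_map]
    exact h.comp ((ch x).continuous.prodMap continuous_id)
  · exact c n y hy e

end Cont

/-- The new cells of dimension `d`. -/
def NewC (i : X ⟶ Y) (d : ℕ) : Type u :=
  {y : Y _⦋d⦌ // y ∈ Y.nonDegenerate d ∧ y ∉ Set.range (i.app (op ⦋d⦌))}

/-- All new nondegenerate simplices have dimension `d`. -/
def Att (i : X ⟶ Y) (d : ℕ) : Prop :=
  ∀ n (y : Y _⦋n⦌), y ∈ Y.nonDegenerate n → y ∉ Set.range (i.app (op ⦋n⦌)) → n = d

variable {i : X ⟶ Y}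

theorem Att.low (h : Att i d) (hn : n < d) (y : Y _⦋n⦌) : y ∈ Set.range (i.app (op ⦋n⦌)) := by
  obtain ⟨k, g, hg, z, rfl⟩ := Y.exists_nonDegenerate y
  have hk : k ≤ n := SimplexCategory.len_le_of_epi g
  obtain ⟨x, hx⟩ : z.1 ∈ Set.range (i.app (op ⦋k⦌)) := by
    by_contra e
    have := h k z.1 z.2 e
    omega
  exact ⟨X.map g.op x, by rw [nf_app_map, hx]⟩

/-- A boundary point is an interior point of a proper face. -/
theorem sx_bd {t : Sx n} {j : Fin (n + 1)} (e : t j = 0) :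
    ∃ k < n, ∃ (a : ⦋k⦌ ⟶ ⦋n⦌) (v : Sx k), (∀ i, 0 < v i) ∧ sm a v = t := by
  obtain ⟨k, a, v, ha, hv, rfl⟩ := nf_sm_face t
  refine ⟨k, ?_, a, v, hv, rfl⟩
  have := Fintype.card_lt_of_injective_of_notMem (β := Fin (n + 1)) (α := Fin (k + 1))
    (fun i => a.toOrderHom i) ha (b := j) fun hj => ((nf_sm_pos a hv j).2 hj).ne' e
  simpa using this

theorem Att.bd (h : Att i d) (y : Y _⦋d⦌) {t : Sx d} {j : Fin (d + 1)} (e : t j = 0) :
    ch y t ∈ Set.range (rm i) := by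
  obtain ⟨k, hk, a, v, hv, rfl⟩ := sx_bd e
  rw [← ch_nat]
  exact (mem_range_rm i hv).2 (h.low hk _)

theorem sx_pos_or (t : Sx n) : (∀ j, 0 < t j) ∨ ∃ j, t j = 0 := by
  by_contra e
  push Not at e
  obtain ⟨⟨j, hj⟩, e⟩ := e
  exact e j (le_antisymm hj (t.2.1 j))

theorem Att.mem_iff (h : Att i d) (c : NewC i d) (t : Sx d) :
    ch c.1 t ∈ Set.range (rm i) ↔ ∃ j, t j = 0 := by
  refine ⟨fun e => (sx_pos_or t).resolve_left fun ht => c.2.2 ((mem_range_rm i ht).1 e), ?_⟩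
  rintro ⟨j, e⟩
  exact h.bd _ e

theorem Att.cases (h : Att i d) (p : Rl Y) :
    p ∈ Set.range (rm i) ∨ ∃ (c : NewC i d) (t : Sx d), (∀ j, 0 < t j) ∧ ch c.1 t = p := by
  obtain ⟨k, y, t, hy, ht, rfl⟩ := nf_ex p
  by_cases e : y ∈ Set.range (i.app (op ⦋k⦌))
  · exact .inl ((mem_range_rm i ht).2 e)
  · obtain rfl := h k y hy e
    exact .inr ⟨⟨y, hy, e⟩, t, ht, rfl⟩

theorem Att.ind (h : Att i d) {P : Rl Y → Prop} (h0 : ∀ p, P (rm i p))
    (h1 : ∀ (c : NewC i d) (t : Sx d), (∀ j, 0 < t j) → P (ch c.1 t)) (p : Rl Y) : P p := by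
  obtain ⟨q, rfl⟩ | ⟨c, t, ht, rfl⟩ := h.cases p
  exacts [h0 q, h1 c t ht]

theorem Att.uniq (h : Att i d) {c c' : NewC i d} {t t' : Sx d} (ht : ∀ j, 0 < t j)
    (e : ch c.1 t = ch c'.1 t') : c = c' ∧ t = t' := by
  obtain ht' | ht' := sx_pos_or t'
  · have := nf_uniq c.2.1 c'.2.1 ht ht' e
    simp only [Sigma.mk.injEq, heq_eq_eq, true_and, Prod.mk.injEq] at this
    exact ⟨Subtype.ext this.1, this.2⟩
  · obtain ⟨j, hj⟩ := (h.mem_iff c t).1 (e ▸ (h.mem_iff c' t').2 ht')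
    exact ((ht j).ne' hj).elim

/-- Gluing of a map on the old part and maps on the new cells. -/
theorem Att.glue0 [Mono i] (h : Att i d) (g : Rl X → W) (F : NewC i d → Sx d → W)
    (e : ∀ c t p, rm i p = ch c.1 t → F c t = g p) :
    ∃ f : Rl Y → W, (∀ p, f (rm i p) = g p) ∧ ∀ c t, f (ch c.1 t) = F c t := by
  have : ∀ q : Rl Y, ∃ w, (∀ p, rm i p = q → w = g p) ∧ ∀ c t, ch c.1 t = q → w = F c t := by
    refine h.ind (fun q => ⟨g q, fun p hp => by rw [rm_inj i hp], fun c t hc =>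
      (e c t q hc.symm).symm⟩) fun c t ht => ⟨F c t, fun p hp => e c t p hp, fun c' t' hc => ?_⟩
    obtain ⟨rfl, rfl⟩ := h.uniq ht hc.symm
    rfl
  choose f a b using this
  exact ⟨f, fun p => a _ p rfl, fun c t => b _ c t rfl⟩

section Cont

variable [TopologicalSpace W] [TopologicalSpace T] [LocallyCompactSpace T]

theorem Att.cont (h : Att i d) {f : Rl Y → W} (h0 : Continuous fun p => f (rm i p))
    (c : ∀ c : NewC i d, Continuous fun t => f (ch c.1 t)) : Continuous f :=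
  rel_cont i h0 fun n y hy e => by
    obtain rfl := h n y hy e
    exact c ⟨y, hy, e⟩

theorem Att.cont_prod (h : Att i d) {f : Rl Y × T → W}
    (h0 : Continuous fun p : Rl X × T => f (rm i p.1, p.2))
    (c : ∀ c : NewC i d, Continuous fun p : Sx d × T => f (ch c.1 p.1, p.2)) : Continuous f :=
  rel_cont_prod i h0 fun n y hy e => by
    obtain rfl := h n y hy e
    exact c ⟨y, hy, e⟩

theorem Att.glue [Mono i] (h : Att i d) (g : C(Rl X, W)) (F : NewC i d → C(Sx d, W))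
    (e : ∀ c t p, rm i p = ch c.1 t → F c t = g p) :
    ∃ f : C(Rl Y, W), (∀ p, f (rm i p) = g p) ∧ ∀ c t, f (ch c.1 t) = F c t := by
  obtain ⟨f, a, b⟩ := h.glue0 g (fun c => F c) e
  exact ⟨⟨f, h.cont (g.continuous.congr fun p => (a p).symm) fun c =>
    (F c).continuous.congr fun t => (b c t).symm⟩, a, b⟩

theorem Att.glue_prod [Mono i] (h : Att i d) (g : C(Rl X × T, W))
    (F : NewC i d → C(Sx d × T, W))
    (e : ∀ c t p s, rm i p = ch c.1 t → F c (t, s) = g (p, s)) :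
    ∃ f : C(Rl Y × T, W), (∀ p s, f (rm i p, s) = g (p, s)) ∧
      ∀ c t s, f (ch c.1 t, s) = F c (t, s) := by
  obtain ⟨f, a, b⟩ := h.glue0 (W := T → W) (fun p s => g (p, s)) (fun c t s => F c (t, s))
    fun c t p hp => funext fun s => e c t p s hp
  exact ⟨⟨fun p => f p.1 p.2, h.cont_prod (g.continuous.congr fun p => (congrFun (a _) _).symm)
    fun c => (F c).continuous.congr fun p => (congrFun (b c _) _).symm⟩,
    fun p s => congrFun (a p) s, fun c t s => congrFun (b c t) s⟩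

end Cont

theorem att_sub {A B : X.Subcomplex} (h : A ≤ B) (e : ∀ n (x : X _⦋n⦌), x ∈ X.nonDegenerate n →
    x ∈ B.obj (op ⦋n⦌) → x ∉ A.obj (op ⦋n⦌) → n = d) : Att (SSet.Subcomplex.homOfLE h) d :=
  fun n y hy a => e n y.1 ((B.mem_nonDegenerate_iff y).1 hy) y.2 fun b => a ⟨⟨y.1, b⟩, rfl⟩

theorem att_skm (i : X ⟶ Y) (d : ℕ) :
    Att (SSet.Subcomplex.homOfLE ((SSet.skeletonOfMono i).monotone d.le_succ)) d :=
  att_sub _ fun n y hy a b => by
    have := SSet.mem_skeletonOfMono_obj_iff_of_nonDegenerate i ⟨y, hy⟩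
    rw [this, not_or] at b
    have := ((this _).1 a).resolve_left b.1
    omega

theorem att_sk (X : SSet.{u}) (d : ℕ) :
    Att (SSet.Subcomplex.homOfLE (X.skeleton.monotone d.le_succ)) d :=
  att_sub _ fun n y hy a b => by
    have := X.mem_skeleton_obj_iff_of_nonDegenerate ⟨y, hy⟩
    rw [this] at a b
    omega

/-- The smallest barycentric coordinate. -/
noncomputable def mn (t : Sx n) : ℝ := Finset.univ.inf' Finset.univ_nonempty fun j => t j

theorem mn_cont : Continuous (mn : Sx n → ℝ) :=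
  Continuous.finset_inf'_apply _ fun j _ => (continuous_apply j).comp continuous_subtype_val

theorem mn_le (t : Sx n) (j : Fin (n + 1)) : mn t ≤ t j := Finset.inf'_le _ (Finset.mem_univ j)

theorem mn_ex (t : Sx n) : ∃ j, mn t = t j :=
  (Finset.exists_mem_eq_inf' Finset.univ_nonempty fun j => t j).imp fun _ h => h.2

theorem mn_nonneg (t : Sx n) : 0 ≤ mn t := by
  obtain ⟨j, e⟩ := mn_ex t
  exact e ▸ t.2.1 j

theorem mn_eq_zero {t : Sx n} : mn t = 0 ↔ ∃ j, t j = 0 :=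
  ⟨fun h => (mn_ex t).imp fun _ e => e.symm.trans h, fun ⟨j, e⟩ =>
    le_antisymm (e ▸ mn_le t j) (mn_nonneg t)⟩

theorem mn_mul_le (t : Sx n) : (n + 1) * mn t ≤ 1 := by
  have := Finset.card_nsmul_le_sum Finset.univ (fun j => t j) (mn t) fun j _ => mn_le t j
  simpa using this

/-- Radial deformation of the simplex towards its boundary. -/
theorem sx_ndr (n : ℕ) : ∃ (φ : C(Sx n, I)) (H : C(Sx n × I, Sx n)),
    (∀ t, φ t = 0 ↔ ∃ j, t j = 0) ∧ (∀ t, H (t, 0) = t) ∧ (∀ t s, φ t = 0 → H (t, s) = t) ∧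
      ∀ t, φ t < 1 → ∃ j, H (t, 1) j = 0 := by
  have hn : (0 : ℝ) < n + 1 := by positivity
  let φ (t : Sx n) : ℝ := min 1 (2 * (n + 1) * mn t)
  have cφ : Continuous φ := continuous_const.min (continuous_const.mul mn_cont)
  have φ0 (t) : 0 ≤ φ t := le_min zero_le_one (by have := mn_nonneg t; positivity)
  have φ1 (t) : φ t ≤ 1 := min_le_left _ _
  have φz (t) : φ t = 0 ↔ mn t = 0 := by
    refine ⟨fun h => ?_, fun h => by simp [φ, h]⟩
    rcases min_choice 1 (2 * (n + 1) * mn t) with e | e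
    · exact absurd (e.symm.trans h) one_ne_zero
    · exact (mul_eq_zero.1 (e.symm.trans h)).resolve_left (by positivity)
  let a (p : Sx n × I) : ℝ := p.2 * φ p.1 / 2
  have ca : Continuous a := by fun_prop
  have a1 (p) : 0 < 1 - a p := by
    have := mul_le_one₀ p.2.2.2 (φ0 p.1) (φ1 p.1)
    simp only [a]
    linarith
  have a2 (p) (j) : a p / (n + 1) ≤ p.1 j := by
    refine le_trans ?_ (mn_le _ j)
    rw [div_le_iff₀ hn]
    have := mul_le_of_le_one_left (φ0 p.1) p.2.2.2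
    have : φ p.1 ≤ _ := min_le_right _ _
    simp only [a]
    linarith
  let H (p : Sx n × I) : Sx n := ⟨fun j => (p.1 j - a p / (n + 1)) / (1 - a p),
    fun j => div_nonneg (sub_nonneg.2 (a2 p j)) (a1 p).le, by
      rw [← Finset.sum_div, Finset.sum_sub_distrib, stdSimplex.sum_eq_one, Finset.sum_const,
        Finset.card_univ, Fintype.card_fin, nsmul_eq_mul, div_eq_one_iff_eq (a1 p).ne']
      push_cast
      field_simp⟩
  have cH : Continuous H := Continuous.subtype_mk (continuous_pi fun j =>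
    ((((continuous_apply j).comp continuous_subtype_val).comp continuous_fst).sub
      (ca.div_const _)).div (continuous_const.sub ca) fun p => (a1 p).ne') _
  have H0 (p) (h : a p = 0) : H p = p.1 := by
    ext j
    show (p.1 j - a p / (n + 1)) / (1 - a p) = p.1 j
    simp [h]
  refine ⟨⟨fun t => ⟨φ t, φ0 t, φ1 t⟩, cφ.subtype_mk _⟩, ⟨H, cH⟩,
    fun t => Subtype.ext_iff.trans ((φz t).trans mn_eq_zero), fun t => H0 _ (by simp [a]),
    fun t s h => H0 _ ?_, fun t h => ?_⟩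
  · have : φ t = 0 := congrArg Subtype.val h
    simp [a, this]
  · obtain ⟨j, e⟩ := mn_ex t
    have h : φ t < 1 := h
    have : φ t = 2 * (n + 1) * mn t := (min_choice _ _).resolve_left h.ne
    refine ⟨j, ?_⟩
    show (t j - a (t, 1) / (n + 1)) / (1 - a (t, 1)) = 0
    rw [div_eq_zero_iff, ← e]
    left
    simp only [a, this, Set.Icc.coe_one]
    field_simp
    ring

/-- The old part is a neighbourhood deformation retract. -/
theorem Att.ndr [Mono i] (h : Att i d) : ∃ (φ : C(Rl Y, I)) (H : C(Rl Y × I, Rl Y)),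
    (∀ p, φ p = 0 ↔ p ∈ Set.range (rm i)) ∧ (∀ p, H (p, 0) = p) ∧
      (∀ p s, H (rm i p, s) = rm i p) ∧ ∀ p, φ p < 1 → H (p, 1) ∈ Set.range (rm i) := by
  obtain ⟨φ, H, a, b, c, e⟩ := sx_ndr d
  have k {y : NewC i d} {t p} (hp : rm i p = ch y.1 t) : φ t = 0 :=
    (a t).2 ((h.mem_iff y t).1 ⟨p, hp⟩)
  obtain ⟨ψ, ψ0, ψ1⟩ := h.glue (.const _ (0 : I)) (fun _ => φ) fun y t p hp => k hp
  obtain ⟨G, G0, G1⟩ := h.glue_prod (T := I) ((rm i).comp .fst) (fun y => (ch y.1).comp H)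
    fun y t p s hp => (congrArg (ch y.1) (c t s (k hp))).trans hp.symm
  refine ⟨ψ, G, h.ind (fun p => iff_of_true (ψ0 p) ⟨p, rfl⟩) fun y t _ => ?_,
    h.ind (fun p => G0 p 0) fun y t _ => (G1 y t 0).trans (congrArg (ch y.1) (b t)), G0,
    h.ind (fun p _ => ⟨p, (G0 p 1).symm⟩) fun y t _ l => ?_⟩
  · rw [ψ1, a, h.mem_iff]
  · rw [ψ1] at l
    rw [G1]
    exact (h.mem_iff y _).2 (e t l)

/-- The same data with a retraction near the old part. -/
theorem Att.ndr' [Mono i] (h : Att i d) (a₀ : Rl X) :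
    ∃ (u : C(Rl Y, ℝ)) (D : C(I × Rl Y, Rl Y)) (r : Rl Y → Rl X),
      ContinuousOn r {x | 0 ≤ u x} ∧ (∀ x, D (0, x) = x) ∧ (∀ s a, D (s, rm i a) = rm i a) ∧
        (∀ a, 1 ≤ u (rm i a)) ∧ (∀ a, r (rm i a) = a) ∧ ∀ x, 0 ≤ u x → rm i (r x) = D (1, x) := by
  obtain ⟨φ, H, a, b, c, e⟩ := h.ndr
  have : Nonempty (Rl X) := ⟨a₀⟩
  have k (x) (hx : 0 ≤ 1 - 2 * (φ x : ℝ)) : rm i (Function.invFun (rm i) (H (x, 1))) = H (x, 1) :=
    Function.invFun_eq (e x (show (φ x : ℝ) < 1 by linarith))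
  refine ⟨⟨fun x => 1 - 2 * (φ x : ℝ), by fun_prop⟩, ⟨fun p => H p.swap, by fun_prop⟩,
    fun x => Function.invFun (rm i) (H (x, 1)), ?_, b, fun s p => c p s, fun p => ?_,
    fun p => ?_, k⟩
  · exact (rm_cemb i).isInducing.continuousOn_iff.2
      ((by fun_prop : Continuous fun x => H (x, 1)).continuousOn.congr k)
  · show 1 ≤ 1 - 2 * (φ (rm i p) : ℝ)
    simp [(a _).2 ⟨p, rfl⟩]
  · exact (congrArg _ (c p 1)).trans (Function.leftInverse_invFun (rm_inj i) p)

end Pool.Agent.Lib.MP_5d3e93_al.Br
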