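import Pool.Agent.Lib.MP_5d3e93_al.Br.Hs

/-! The homotopy groups of a sphere vanish below its dimension. -/

open CategoryTheory Topology Set Function Filter Opposite unitInterval

namespace Pool.Agent.Lib.MP_5d3e93_al.Br

universe u v

open Ps

section
variable {T : Ps.{u}} (e : T.X)

/-- The points of an iterated suspension. -/
def sph_q : ∀ l, (Fin l → I) → ((Sl l).obj T).X
  | 0, _ => e
  | l + 1, t => sk (X := (Sl l).obj T) (t 0) (sph_q l (Fin.tail t))

theorem sph_q_cont : ∀ l, Continuous (sph_q e l)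
  | 0 => continuous_const
  | l + 1 => sk_cont (continuous_apply 0) ((sph_q_cont l).comp (by fun_prop))

theorem sph_q_bd : ∀ l t, t ∈ Cube.boundary (Fin l) → sph_q e l t = ((Sl l).obj T).pt
  | 0, _, ⟨a, _⟩ => a.elim0
  | l + 1, t, ⟨a, h⟩ => sk_bp (X := (Sl l).obj T) (by
      revert h
      exact a.cases (fun h => h.imp_right .inl) fun a h => .inr (.inr (sph_q_bd l _ ⟨a, h⟩)))

theorem sph_q_pt : ∀ l t, sph_q T.pt l t = ((Sl l).obj T).pt
  | 0, _ => rfl
  | l + 1, _ => sk_bp (X := (Sl l).obj T) (.inr (.inr (sph_q_pt l _)))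

theorem sph_q_surj (hT : ∀ x, x = T.pt ∨ x = e) :
    ∀ l x, x = ((Sl l).obj T).pt ∨ ∃ t, x = sph_q e l t
  | 0, x => (hT x).imp_right fun h => ⟨default, h⟩
  | l + 1, x => sk_ind (X := (Sl l).obj T) x fun s y => (sph_q_surj hT l y).imp
      (fun h => sk_bp (.inr (.inr h))) fun ⟨t, h⟩ => ⟨Fin.cons s t, by rw [h]; rfl⟩

/-- Maps out of the sphere, with parameters. -/
theorem sph_desc [T1Space T.X] (hT : ∀ x, x = T.pt ∨ x = e) (he : e ≠ T.pt) {Y : Type v}
    [TopologicalSpace Y] (b : Y) : ∀ (l) (K : Type) [TopologicalSpace K] [LocallyCompactSpace K]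
    (F : C(K × (Fin l → I), Y)), (∀ k, ∀ t ∈ Cube.boundary (Fin l), F (k, t) = b) →
      ∃ D : C(K × ((Sl l).obj T).X, Y), (∀ k t, D (k, sph_q e l t) = F (k, t)) ∧
        ∀ k, D (k, ((Sl l).obj T).pt) = b
  | 0, K, _, _, F, _ => by
    classical
    have : Finite T.X := finite_univ_iff.1 ((toFinite {T.pt, e}).subset fun x _ => hT x)
    have : DiscreteTopology T.X := Finite.instDiscreteTopology
    have c : Continuous fun p : K × T.X => if p.2 = T.pt then b else F (p.1, default) := by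
      refine continuous_prod_of_discrete_right.2 fun y => ?_
      by_cases h : y = T.pt
      · simp only [if_pos h]; exact continuous_const
      · simp only [if_neg h]; fun_prop
    exact ⟨⟨_, c⟩, fun k t => (if_neg he).trans
      (congrArg (fun s => F (k, s)) (Subsingleton.elim _ _)), fun k => if_pos rfl⟩
  | l + 1, K, _, _, F, hF => by
    obtain ⟨D, a, c⟩ := sph_desc hT he b l (K × I)
      ⟨fun p => F (p.1.1, Fin.cons p.1.2 p.2), by fun_prop⟩ fun k t ⟨i, h⟩ => hF _ _ ⟨i.succ, h⟩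
    have z : ∀ k (p : I × ((Sl l).obj T).X), Bp _ p → D ((k, p.1), p.2) = b := by
      rintro k ⟨s, x⟩ h
      obtain rfl | ⟨t, rfl⟩ := sph_q_surj e hT l x
      · exact c _
      · obtain h | h | h := h
        · exact (a _ t).trans (hF _ _ ⟨0, .inl h⟩)
        · exact (a _ t).trans (hF _ _ ⟨0, .inr h⟩)
        · exact (congrArg (fun x => D ((k, s), x)) h).trans (c _)
    exact ⟨lft (r := fun a b => Bp _ a ∧ Bp _ b) ⟨fun p => D ((p.1, p.2.1), p.2.2), by fun_prop⟩
      fun k p q h => (z k p h.1).trans (z k q h.2).symm, fun k t =>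
        (a (k, t 0) (Fin.tail t)).trans (congrArg (fun s => F (k, s)) (Fin.cons_self_tail t)),
      fun k => c _⟩

open Classical in
/-- The radial projection to the sphere. -/
noncomputable def sph_R (l) (z : ℝ × (Fin l → ℝ)) : ((Sl l).obj T).X :=
  if 0 < z.1 then sph_q e l fun i => pj (1 / 2 + z.2 i / z.1) else ((Sl l).obj T).pt

theorem sph_R_pt {l} {z : ℝ × (Fin l → ℝ)} (h : z.1 ≤ 2 * ‖z.2‖) :
    sph_R e l z = ((Sl l).obj T).pt := by
  unfold sph_R
  split_ifs with a
  · have : ¬ ∀ i, ‖z.2 i‖ < z.1 / 2 := fun k =>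
      absurd ((pi_norm_lt_iff (half_pos a)).2 k) (by linarith)
    obtain ⟨i, k⟩ := not_forall.1 this
    refine sph_q_bd e l _ ⟨i, ?_⟩
    obtain k | k := le_abs.1 (not_lt.1 k)
    · have : 1 / 2 ≤ z.2 i / z.1 := (le_div_iff₀ a).2 (by linarith)
      exact .inr (pj_ge (by linarith))
    · have : z.2 i / z.1 ≤ -(1 / 2) := (div_le_iff₀ a).2 (by linarith)
      exact .inl (pj_le (by linarith))
  · rfl

theorem sph_R_neg {l} {z : ℝ × (Fin l → ℝ)} (h : z.1 ≤ 0) : sph_R e l z = ((Sl l).obj T).pt :=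
  if_neg h.not_gt

theorem sph_R_at {l} {z : ℝ × (Fin l → ℝ)} (h : z ≠ 0) : ContinuousAt (sph_R e l) z := by
  obtain a | a := lt_or_ge 0 z.1
  · refine ContinuousAt.congr (f := fun z : ℝ × (Fin l → ℝ) =>
      sph_q e l fun i => pj (1 / 2 + z.2 i / z.1)) ((sph_q_cont e l).continuousAt.comp
        (continuousAt_pi.2 fun i => pj_cont.continuousAt.comp ?_)) ?_
    · exact continuousAt_const.add (ContinuousAt.div (by fun_prop) (by fun_prop) a.ne')
    · filter_upwards [(isOpen_lt continuous_const continuous_fst).mem_nhds a] with w hw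
      exact (if_pos hw).symm
  · have b : z.1 < 2 * ‖z.2‖ := by
      by_contra b
      have := norm_nonneg z.2
      exact h (Prod.ext (show z.1 = 0 by linarith) (norm_eq_zero.1 (by linarith)))
    refine ContinuousAt.congr (f := fun _ => ((Sl l).obj T).pt) continuousAt_const ?_
    filter_upwards [(isOpen_lt (f := fun z : ℝ × (Fin l → ℝ) => z.1) (g := fun z => 2 * ‖z.2‖)
      continuous_fst (by fun_prop)).mem_nhds b] with w hw
    exact (sph_R_pt e (le_of_lt hw)).symm

theorem sph_R_cont {l} {K : Type v} [TopologicalSpace K] {A : K → ℝ × (Fin l → ℝ)}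
    (c : Continuous A) (h : ∀ p, A p ≠ 0) : Continuous fun p => sph_R e l (A p) :=
  continuous_iff_continuousAt.2 fun p => (sph_R_at e (h p)).comp c.continuousAt

/-- The loop of a nowhere vanishing map. -/
noncomputable def sph_lp {k l} (A : (Fin k → I) → ℝ × (Fin l → ℝ)) (c : Continuous A)
    (h : ∀ t, A t ≠ 0) (b : ∀ t ∈ Cube.boundary (Fin k), (A t).1 ≤ 0) : Lp k ((Sl l).obj T) :=
  ⟨⟨fun t => sph_R e l (A t), sph_R_cont e c h⟩, fun t ht => sph_R_neg e (b t ht)⟩

theorem sph_line {k l} {A B : (Fin k → I) → ℝ × (Fin l → ℝ)} {c c' h h' b b'}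
    (n : ∀ s : ℝ, 0 ≤ s → s ≤ 1 → ∀ t, (1 - s) • A t + s • B t ≠ 0) :
    GenLoop.Homotopic (sph_lp e A c h b) (sph_lp e B c' h' b') :=
  ht_of ⟨fun p => sph_R e l ((1 - p.1 : ℝ) • A p.2 + (p.1 : ℝ) • B p.2),
    sph_R_cont e (by fun_prop) fun p => n _ p.1.2.1 p.1.2.2 _⟩
    (fun t => congrArg (sph_R e l) (by simp)) (fun t => congrArg (sph_R e l) (by simp))
    fun s t ht => sph_R_neg e (add_nonpos (mul_nonpos_of_nonneg_of_nonpos (sub_nonneg.2 s.2.2)
      (b t ht)) (mul_nonpos_of_nonneg_of_nonpos s.2.1 (b' t ht)))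

/-- General position. -/
theorem sph_null {k l} (hk : k < l) (A : (Fin k → I) → ℝ × (Fin l → ℝ)) (c : Continuous A)
    (h : ∀ t, A t ≠ 0) (b : ∀ t ∈ Cube.boundary (Fin k), A t = (-1, 0)) (b') :
    GenLoop.Homotopic (sph_lp e A c h b') GenLoop.const := by
  have gc : Continuous fun y : Fin k → ℝ => A fun i => pj (y i) := by fun_prop
  obtain ⟨P, Pc, Pa, -⟩ := gc.exists_contDiff_approx 1 gc.norm fun y => norm_pos_iff.2 (h _)
  replace Pa : ∀ t : Fin k → I, ‖(P fun i => t i) - A t‖ < ‖A t‖ := fun t => by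
    simpa only [pj_coe, dist_eq_norm] using Pa fun i => t i
  have Pn : ∀ s : ℝ, 0 ≤ s → s ≤ 1 → ∀ t : Fin k → I, (1 - s) • A t + s • (P fun i => t i) ≠ 0 :=
    fun s s0 s1 t z => by
      have : A t = -(s • ((P fun i => t i) - A t)) := by
        rw [eq_neg_iff_add_eq_zero, ← z]; module
      have k := congrArg norm this
      rw [norm_neg, norm_smul, Real.norm_of_nonneg s0] at k
      nlinarith [Pa t, norm_nonneg ((P fun i => t i) - A t)]
  have P0 : ∀ t : Fin k → I, (P fun i => t i) ≠ 0 := fun t => by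
    simpa using Pn 1 zero_le_one le_rfl t
  have Pb : ∀ t ∈ Cube.boundary (Fin k), (P fun i => t i).1 ≤ 0 := fun t ht => by
    have := (norm_fst_le _).trans_lt (Pa t)
    rw [b t ht] at this
    have := (abs_lt.1 this).2
    simp [Prod.norm_def] at this
    exact this.le
  have D := (show ContDiff ℝ 1 fun p : ℝ × (Fin k → ℝ) => p.1 • P p.2 from
    contDiff_fst.smul (Pc.comp contDiff_snd)).dense_compl_range_of_finrank_lt_finrank
      (by simpa [Module.finrank_prod] using hk)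
  obtain ⟨z, z0, z1⟩ := D.inter_open_nonempty {z | 0 < z.1}
    (isOpen_lt continuous_const continuous_fst) ⟨(1, 0), show (0 : ℝ) < 1 from zero_lt_one⟩
  have z0 : 0 < z.1 := z0
  have zn : -z ≠ 0 := fun k => by rw [neg_eq_zero.1 k] at z0; exact lt_irrefl _ z0
  have Pc' : Continuous fun t : Fin k → I => P fun i => t i := Pc.continuous.comp (by fun_prop)
  refine (sph_line e (c' := Pc') (h' := P0) (b' := Pb) Pn).trans ((sph_line e (B := fun _ => -z)
    (c' := continuous_const) (h' := fun _ => zn) (b' := fun _ _ => neg_nonpos.2 z0.le)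
    fun s s0 s1 t w => ?_).trans ?_)
  · obtain rfl | s0 := s0.eq_or_lt
    · exact P0 t (by simpa using w)
    · refine z1 ⟨((1 - s) / s, fun i => t i), ?_⟩
      rw [smul_neg, add_neg_eq_zero] at w
      show ((1 - s) / s) • _ = z
      rw [div_eq_inv_mul, mul_smul, w, inv_smul_smul₀ s0.ne']
  · exact (congrArg (GenLoop.Homotopic · _) (GenLoop.ext _ _ fun t =>
      sph_R_neg e (neg_nonpos.2 z0.le))).mpr (.refl _)

/-- The centred coordinates of the cube. -/
noncomputable def sph_c {l} (t : Fin l → I) : Fin l → ℝ := fun i => t i - 1 / 2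

@[fun_prop]
theorem sph_c_cont {l} : Continuous (sph_c (l := l)) := by unfold sph_c; fun_prop

theorem sph_c_bd {l} {t : Fin l → I} (h : t ∈ Cube.boundary (Fin l)) : ‖sph_c t‖ = 1 / 2 := by
  refine le_antisymm ((pi_norm_le_iff_of_nonneg (by norm_num)).2 fun i => abs_le.2
    ⟨by unfold sph_c; linarith [(t i).2.1], by unfold sph_c; linarith [(t i).2.2]⟩) ?_
  obtain ⟨i, h⟩ := h
  refine le_trans ?_ (norm_le_pi_norm _ i)
  obtain h | h := h <;> norm_num [sph_c, h]

/-- The family of coordinates. -/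
noncomputable def sph_w {l} (s : ℝ) (t : Fin l → I) : ℝ × (Fin l → ℝ) :=
  (1 - 4 * ‖sph_c t‖ * s, (1 - 2 * ‖sph_c t‖ * s) • sph_c t)

theorem sph_w_ne {l} (s : ℝ) (t : Fin l → I) : sph_w s t ≠ 0 := fun h => by
  have a : 1 - 4 * ‖sph_c t‖ * s = 0 := congrArg Prod.fst h
  obtain b | b := smul_eq_zero.1 (show (1 - 2 * ‖sph_c t‖ * s) • sph_c t = 0 from
    congrArg Prod.snd h)
  · linarith
  · simp [b] at a

end

theorem g_sph {T : Ps.{u}} [T1Space T.X] (e : T.X) (hT : ∀ x, x = T.pt ∨ x = e) {l j : ℕ}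
    (h : j + 2 < l) (x : G ((Sl l).obj T) j) : x = 0 := by
  refine cl_ind x fun f => ?_
  rw [← cl_const]
  by_cases he : e = T.pt
  · subst he
    exact congrArg cl (GenLoop.ext _ _ fun t => (sph_q_surj _ hT l (f t)).elim id
      fun ⟨s, k⟩ => k.trans (sph_q_pt l s))
  obtain ⟨Φ, Φq, Φp⟩ := sph_desc e hT he ((-1, 0) : ℝ × (Fin l → ℝ)) l Unit
    ⟨fun p => sph_w 1 p.2, by unfold sph_w; fun_prop⟩ fun _ t ht => by
      simp [sph_w, sph_c_bd ht]; norm_num
  obtain ⟨H, Hq, Hp⟩ := sph_desc e hT he ((Sl l).obj T).pt l I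
    ⟨fun p => sph_R e l (sph_w p.1 p.2), sph_R_cont e (by unfold sph_w; fun_prop)
      fun p => sph_w_ne _ _⟩ fun s t ht => sph_R_pt e (by
        have := s.2.2
        simp only [sph_w, norm_smul, sph_c_bd ht]
        rw [Real.norm_of_nonneg (by linarith)]
        linarith [s.2.1])
  have n : ∀ x, Φ ((), x) ≠ 0 := fun x => by
    obtain rfl | ⟨t, rfl⟩ := sph_q_surj e hT l x
    · rw [Φp]; simp
    · rw [Φq]; exact sph_w_ne _ _
  have b : ∀ t ∈ Cube.boundary (Fin (j + 2)), Φ ((), f t) = (-1, 0) := fun t ht =>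
    (congrArg (fun x => Φ ((), x)) (f.2 t ht)).trans (Φp _)
  refine cl_eq.2 (.trans (ht_of ⟨fun p => H (p.1, f p.2), by fun_prop⟩ (fun t => ?_) (fun t => ?_)
    fun s t ht => ?_) (sph_null e h (fun t => Φ ((), f t)) (by fun_prop) (fun t => n _) b
      fun t ht => by rw [b t ht]; norm_num))
  · show H (0, f t) = f t
    obtain k | ⟨s, k⟩ := sph_q_surj e hT l (f t)
    · rw [k, Hp]
    · rw [k, Hq]
      show sph_R e l (sph_w _ s) = _
      simp [sph_R, sph_w, sph_c]
  · show H (1, f t) = sph_R e l (Φ ((), f t))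
    obtain k | ⟨s, k⟩ := sph_q_surj e hT l (f t)
    · rw [k, Hp, Φp, sph_R_neg e (by norm_num)]
    · rw [k, Hq, Φq]; rfl
  · exact (congrArg (fun x => H (s, x)) (f.2 t ht)).trans (Hp _)

theorem sh_two {T : Ps.{u}} [T1Space T.X] (e : T.X) (hT : ∀ x, x = T.pt ∨ x = e) {n : ℤ}
    (h : n < 0) (x : Sh n T) : x = 0 :=
  Pre.ind x fun m j k y => by
    rw [g_sph (l := m) e hT (by omega) y]
    exact map_zero _

end Pool.Agent.Lib.MP_5d3e93_al.Br
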