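import Pool.Agent.Lib.MP_5d3e93_al.Br.StB
import Pool.Agent.Lib.MP_5d3e93_al.Br.Sph

/-! The collapse of the boundary of a simplex to a face and the coefficient groups. -/

open CategoryTheory Topology Set Function Filter Opposite unitInterval

namespace Pool.Agent.Lib.MP_5d3e93_al.Br

universe u v

open Ps

theorem cfa_self {d : ℕ} (i : Fin (d + 2)) (s : Sx d) : fa i s i = 0 := by
  simp [fa, FunOnFinite.linearMap_apply_apply]

theorem cfa_above {d : ℕ} (i : Fin (d + 2)) (s : Sx d) (j) : fa i s (i.succAbove j) = s j := by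
  simp [fa, FunOnFinite.linearMap_apply_apply, Finset.filter_eq']

theorem cfa_inj {d : ℕ} (i : Fin (d + 2)) : Function.Injective (fa i) := fun s t e =>
  stdSimplex.ext (funext fun j => by rw [← cfa_above i s, e, cfa_above])

theorem cfa_surj {d : ℕ} {i : Fin (d + 2)} {t : Sx (d + 1)} (h : t i = 0) : ∃ s, fa i s = t := by
  refine ⟨⟨fun j => t (i.succAbove j), fun j => t.2.1 _, ?_⟩, stdSimplex.ext (funext fun k => ?_)⟩
  · have := stdSimplex.sum_eq_one t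
    rwa [Fin.sum_univ_succAbove _ i, h, zero_add] at this
  · rcases Fin.eq_self_or_eq_succAbove i k with rfl | ⟨j, rfl⟩
    · rw [cfa_self, h]
    · exact cfa_above ..

/-- The horn. -/
abbrev cfaH (d : ℕ) (i : Fin (d + 2)) : Type := {t : Sx (d + 1) // ∃ k, k ≠ i ∧ t k = 0}

instance (d : ℕ) (i : Fin (d + 2)) : CompactSpace (cfaH d i) := by
  refine isCompact_iff_compactSpace.1 (IsClosed.isCompact ?_)
  change IsClosed {t : Sx (d + 1) | ∃ k, k ≠ i ∧ t k = 0}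
  rw [ofPred_exists]
  exact isClosed_iUnion_of_finite fun k => isClosed_const.and
    (isClosed_eq ((continuous_apply k).comp continuous_subtype_val) continuous_const)

/-- The inclusion of the horn in the boundary. -/
def cfaI (d : ℕ) (i : Fin (d + 2)) : Pl.{u} (cfaH d i) ⟶ Pl (Bn (d + 1)) :=
  plm ⟨fun t => .inl ⟨t.1, t.2.imp fun _ h => h.2⟩,
    continuous_inl.comp (continuous_subtype_val.subtype_mk _)⟩

/-- The missing face. -/
noncomputable def cfaC (d : ℕ) (i : Fin (d + 2)) (_ : Unit) : C(Sx d, (Pl.{u} (Bn (d + 1))).X) :=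
  ⟨fun s => .inl ⟨fa i s, i, cfa_self i s⟩,
    continuous_inl.comp ((fa i).continuous.subtype_mk _)⟩

theorem cfa_mem {d : ℕ} {i : Fin (d + 2)} {t : Bn (d + 1)} :
    Sum.inl t ∈ range (cfaI.{u} d i).1 ↔ ∃ k, k ≠ i ∧ t.1 k = 0 := by
  refine ⟨?_, fun h => ⟨.inl ⟨t.1, h⟩, rfl⟩⟩
  rintro ⟨a | a, e⟩
  · exact Sum.inl.inj e ▸ a.2
  · cases e

theorem cfa_st (d : ℕ) (i : Fin (d + 2)) : St d (cfaI.{u} d i) (cfaC d i) := by
  have : T2Space (Pl.{u} (Bn (d + 1))).X := inferInstanceAs (T2Space (_ ⊕ _))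
  have : CompactSpace (Pl.{u} (cfaH d i)).X := inferInstanceAs (CompactSpace (_ ⊕ _))
  have su : ∀ z, z ∈ range (cfaI.{u} d i).1 ∨ ∃ x t, cfaC d i x t = z := by
    rintro (⟨t, k, h⟩ | a)
    · rcases eq_or_ne k i with rfl | c
      · obtain ⟨s, rfl⟩ := cfa_surj h
        exact .inr ⟨(), s, rfl⟩
      · exact .inl (cfa_mem.2 ⟨k, c, h⟩)
    · exact .inl ⟨.inr a, rfl⟩
  refine ⟨inferInstance, (cfaI d i).1.continuous.isClosedEmbedding ?_, fun _ s => cfa_mem.trans ?_,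
    fun _ _ s t e => .inr ⟨rfl, cfa_inj i (congrArg Subtype.val (Sum.inl.inj e))⟩, su,
    fun C a b => ?_⟩
  · rintro (a | a) (b | b) e
    · exact congrArg Sum.inl (Subtype.ext (congrArg Subtype.val (Sum.inl.inj e) :))
    · cases e
    · cases e
    · rfl
  · refine ⟨fun ⟨k, c, h⟩ => ?_, fun ⟨j, h⟩ => ⟨_, i.succAbove_ne j, (cfa_above ..).trans h⟩⟩
    obtain ⟨j, rfl⟩ := Fin.exists_succAbove_eq c
    exact ⟨j, (cfa_above i s j).symm.trans h⟩
  · convert ((cfaI d i).1.continuous.isClosedMap _ a).union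
      ((cfaC d i ()).continuous.isClosedMap _ (b ())) using 1
    refine Subset.antisymm (fun z hz => ?_)
      (union_subset (image_preimage_subset _ _) (image_preimage_subset _ _))
    rcases su z with ⟨y, rfl⟩ | ⟨_, t, rfl⟩
    exacts [.inl ⟨y, hz, rfl⟩, .inr ⟨t, hz, rfl⟩]

theorem cfa_kp {d : ℕ} {i : Fin (d + 2)} {p : Q (cfaI.{u} d i) ⟶ Dq d}
    (h : ∀ t, p.1 ((qk _).1 (cfaC d i () t)) = dk t) :
    (∀ (t : Bn (d + 1)) s, t.1 = fa i s → (qk _ ≫ p).1 (.inl t) = dk s) ∧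
      ∀ t : Bn (d + 1), t.1 i ≠ 0 → (qk _ ≫ p).1 (.inl t) = (Dq d).pt := by
  refine ⟨?_, fun t c => ?_⟩
  · rintro ⟨_, _⟩ s rfl
    exact h s
  · obtain ⟨k, hk⟩ := t.2
    obtain ⟨a, e⟩ := (cfa_mem.{u} (i := i)).2 ⟨k, fun e => c (e ▸ hk), hk⟩
    rw [← e, Ps.comp_apply, qk_i, p.2]

theorem ex_kp (d : ℕ) (i : Fin (d + 2)) : ∃ κ : Pl.{u} (Bn (d + 1)) ⟶ Dq d,
    (∀ (t : Bn (d + 1)) s, t.1 = fa i s → κ.1 (.inl t) = dk s) ∧
      ∀ t : Bn (d + 1), t.1 i ≠ 0 → κ.1 (.inl t) = (Dq d).pt :=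
  ((cfa_st d i).ex_p ()).elim fun _ h => ⟨_, cfa_kp h.1⟩

/-- The collapse of the boundary to a face. -/
noncomputable def kp (d : ℕ) (i : Fin (d + 2)) : Pl.{u} (Bn (d + 1)) ⟶ Dq d := (ex_kp d i).choose

/-- The component of the boundary map at a face. -/
noncomputable def cf (d : ℕ) (i : Fin (d + 2)) (n : ℤ) :
    Sh (n + 1) (Dq.{u} (d + 1)) →+ Sh n (Dq.{u} d) :=
  (hm n (kp d i)).comp ((st_one (d + 1)).ndr.bd n)

theorem cfa_ho {Z : Type} [TopologicalSpace Z] {T : Ps.{u}} {f g : Pl Z ⟶ T} (H : C(I × Z, T.X))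
    (h0 : ∀ z, H (0, z) = f.1 (.inl z)) (h1 : ∀ z, H (1, z) = g.1 (.inl z)) : Ho f g := by
  refine .of ⟨fun p => p.2.elim (fun z => H (p.1, z)) fun _ => T.pt, ?_⟩ ?_ ?_ fun _ => rfl
  · refine ((H.continuous.sumElim (continuous_const (y := T.pt))).comp
      Homeomorph.prodSumDistrib.continuous).congr ?_
    rintro ⟨k, a | a⟩ <;> rfl
  · rintro (a | a)
    exacts [h0 a, f.2.symm]
  · rintro (a | a)
    exacts [h1 a, g.2.symm]

/-- Straight lines to a point. -/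
noncomputable def cfaL {d : ℕ} (v : Sx d) : C(I × Sx d, Sx d) :=
  ⟨fun p => ⟨(1 - p.1 : ℝ) • p.2.1 + (p.1 : ℝ) • v.1, convex_stdSimplex ℝ _ p.2.2 v.2
    (sub_nonneg.2 p.1.2.2) p.1.2.1 (sub_add_cancel _ _)⟩, by fun_prop⟩

theorem cfa_L0 {d : ℕ} (v t : Sx d) : cfaL v (0, t) = t := Subtype.ext (by simp [cfaL])

theorem cfa_L1 {d : ℕ} (v t : Sx d) : cfaL v (1, t) = v := Subtype.ext (by simp [cfaL])

theorem cfa_eqv (d : ℕ) (i : Fin (d + 2)) (n : ℤ) :
    Bijective (hm n (cfaI.{u} d i ≫ bi (d + 1))) := by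
  have z : ∀ k, k ≠ i → (stdSimplex.vertex i : Sx (d + 1)) k = 0 := fun k h => by simp [h]
  let v : cfaH d i := ⟨stdSimplex.vertex i, _, i.succAbove_ne 0, z _ (i.succAbove_ne 0)⟩
  refine hm_bij (g := plm (.const _ (.inl v))) (.symm (cfa_ho ⟨fun p => .inl ⟨cfaL v.1 (p.1, p.2.1),
    p.2.2.imp fun k h => ⟨h.1, ?_⟩⟩, continuous_inl.comp (Continuous.subtype_mk (by fun_prop) _)⟩
      (fun t => congrArg Sum.inl (Subtype.ext (cfa_L0 ..)))
      fun t => congrArg Sum.inl (Subtype.ext (cfa_L1 ..))))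
    (.symm (cfa_ho ⟨fun p => .inl (cfaL v.1 p), continuous_inl.comp (map_continuous _)⟩
      (fun t => congrArg Sum.inl (cfa_L0 ..)) fun t => congrArg Sum.inl (cfa_L1 ..)))
  change (1 - p.1 : ℝ) * p.2.1 k + p.1 * (stdSimplex.vertex i : Sx (d + 1)) k = 0
  rw [h.2, z k h.1, mul_zero, mul_zero, add_zero]

/-- The boundary map of a triple whose composite is an equivalence. -/
theorem cfa_tri {A B T : Ps.{u}} {l : A ⟶ B} {j : B ⟶ T} (H : Ndr l) (K : Ndr j)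
    (h : ∀ n, Bijective (hm n (l ≫ j))) (n : ℤ) : Bijective ((hm n (qk l)).comp (K.bd n)) := by
  refine ⟨(injective_iff_map_eq_zero _).2 fun x e => ?_, fun y => ?_⟩
  · obtain ⟨y, hy⟩ := (H.ex₁ _).1 e
    have y0 : y = 0 := (injective_iff_map_eq_zero _).1 (h n).1 y (by
      rw [hm_comp, hy, K.ex₃.apply_apply_eq_zero])
    rw [y0, map_zero] at hy
    obtain ⟨z, rfl⟩ := (K.ex₂ _).1 hy.symm
    obtain ⟨w, rfl⟩ := (h _).2 z
    rw [hm_comp, K.ex₁.apply_apply_eq_zero]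
  · obtain ⟨m, rfl⟩ : ∃ m, n = m + 1 := ⟨n - 1, by ring⟩
    obtain ⟨b, rfl⟩ := (H.ex₂ y).1 ((injective_iff_map_eq_zero _).1 (h m).1 _ (by
      rw [hm_comp, H.ex₃.apply_apply_eq_zero, map_zero]))
    obtain ⟨a, ha⟩ := (h _).2 (hm _ j b)
    obtain ⟨x, hx⟩ := (K.ex₃ (b - hm _ l a)).1 (by rw [map_sub, ← hm_comp, ha, sub_self])
    exact ⟨x, by rw [AddMonoidHom.comp_apply, hx, map_sub, H.ex₁.apply_apply_eq_zero, sub_zero]⟩

theorem cfa_bij (d : ℕ) (i : Fin (d + 2)) (n : ℤ) : Bijective (cf.{u} d i n) := by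
  have H := cfa_st.{u} d i
  obtain ⟨p, hp, -⟩ := H.ex_p ()
  have e : kp d i = qk _ ≫ p := Ps.ext fun
    | .inr _ => (kp d i).2.trans (qk _ ≫ p).2.symm
    | .inl t => by
      by_cases c : t.1 i = 0
      · obtain ⟨s, hs⟩ := cfa_surj c
        exact ((ex_kp d i).choose_spec.1 t s hs.symm).trans ((cfa_kp hp).1 t s hs.symm).symm
      · exact ((ex_kp d i).choose_spec.2 t c).trans ((cfa_kp hp).2 t c).symm
  have a : p ≫ H.χ () = 𝟙 _ := Q_ext fun z => by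
    rcases H.surj z with ⟨y, rfl⟩ | ⟨_, t, rfl⟩
    · rw [qk_i]
      exact (p ≫ H.χ ()).2
    · exact congrArg (H.χ ()).1 (hp t)
  have b : H.χ () ≫ p = 𝟙 _ := Q_ext fun
    | .inl t => hp t
    | .inr _ => p.2
  have k := (hm_bij (n := n) (f := p) (g := H.χ ()) (by rw [a]; exact .refl _)
    (by rw [b]; exact .refl _)).comp
    (cfa_tri H.ndr (st_one (d + 1)).ndr (cfa_eqv d i) n)
  refine (funext fun x => ?_ : _ = ⇑(cf d i n)) ▸ k
  rw [cf, e]
  exact (hm_comp ..).symm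

theorem cf_bij (d : ℕ) (n : ℤ) : Bijective (cf.{u} d 0 n) := cfa_bij d 0 n

theorem sh_Dq {d : ℕ} {n : ℤ} (h : n < d) (x : Sh n (Dq.{u} d)) : x = 0 := by
  induction d generalizing n with
  | zero =>
    have := (st_one.{u} 0).t1
    have : T1Space (Dq.{u} 0).X := t1_Q (st_one 0).emb.isClosed_range
    refine sh_two (dk v0) (fun y => qk_ind y ?_) (by simpa using h) x
    rintro (t | t)
    · exact .inr (congrArg dk (Subsingleton.elim _ _))
    · exact .inl rfl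
  | succ d ih =>
    obtain ⟨m, rfl⟩ : ∃ m, n = m + 1 := ⟨n - 1, by ring⟩
    exact (injective_iff_map_eq_zero _).1 (cf_bij d m).1 x (ih (by push_cast at h; omega) _)

end Pool.Agent.Lib.MP_5d3e93_al.Br
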