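import Pool.Agent.Lib.MP_5d3e93_al.Br.Rl

/-! Coordinates on the realisation of a product of two standard simplices. -/

open CategoryTheory Simplicial Opposite Topology MonoidalCategory SSet

namespace Pool.Agent.Lib.MP_5d3e93_al.Br

universe u

section
variable {P Q : Type*} [Fintype P] [Fintype Q]

theorem smap_apply [DecidableEq Q] (f : P → Q) (t : stdSimplex ℝ P) (y : Q) :
    stdSimplex.map f t y = ∑ x, if f x = y then t x else 0 := by
  rw [stdSimplex.map_coe, FunOnFinite.linearMap_apply_apply, Finset.sum_filter]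

theorem smap_inj {f : P → Q} (h : Function.Injective f) (t : stdSimplex ℝ P) (x : P) :
    stdSimplex.map f t (f x) = t x := by
  classical
  simp only [smap_apply, h.eq_iff, Finset.sum_ite_eq', Finset.mem_univ, if_true]

theorem smap_off {f : P → Q} (t : stdSimplex ℝ P) {y : Q} (h : y ∉ Set.range f) :
    stdSimplex.map f t y = 0 := by
  classical
  rw [smap_apply]
  exact Finset.sum_eq_zero fun x _ => if_neg fun e => h ⟨x, e⟩

theorem smap_sum (f : P → Q) (t : stdSimplex ℝ P) (A : Q → Prop) [DecidablePred A] :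
    ∑ y, (if A y then stdSimplex.map f t y else 0) = ∑ x, if A (f x) then t x else 0 := by
  classical
  have (y : Q) : (if A y then stdSimplex.map f t y else 0) =
      ∑ x, if f x = y then (if A (f x) then t x else 0) else 0 := by
    rw [smap_apply]
    split_ifs with a
    · exact Finset.sum_congr rfl fun x _ => by split_ifs <;> simp_all
    · exact (Finset.sum_eq_zero fun x _ => by split_ifs <;> simp_all).symm
  simp only [this]
  rw [Finset.sum_comm]
  simp

theorem up_ext [PartialOrder P] [DecidableLE P] {c d : P → ℝ}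
    (h : ∀ y, ∑ z, (if y ≤ z then c z else 0) = ∑ z, if y ≤ z then d z else 0) : c = d := by
  classical
  funext y
  induction y using WellFoundedGT.induction with
  | ind y ih =>
    have a := h y
    rw [← Finset.add_sum_erase _ _ (Finset.mem_univ y),
      ← Finset.add_sum_erase _ (fun z => if y ≤ z then d z else 0) (Finset.mem_univ y),
      if_pos le_rfl, if_pos le_rfl, Finset.sum_congr rfl (g := fun z => if y ≤ z then d z else 0)
        fun z b => by
          split_ifs with e
          · exact ih z (lt_of_le_of_ne e (Finset.ne_of_mem_erase b).symm)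
          · rfl] at a
    exact add_right_cancel a

theorem up_min {L A B : Type*} [Fintype L] [LinearOrder L] [Preorder A] [Preorder B]
    [DecidableLE A] [DecidableLE B] {a : L → A} {b : L → B} (ha : Monotone a) (hb : Monotone b)
    (t : stdSimplex ℝ L) (i : A) (j : B) : ∑ l, (if i ≤ a l ∧ j ≤ b l then t l else 0) =
      min (∑ l, if i ≤ a l then t l else 0) (∑ l, if j ≤ b l then t l else 0) := by
  have k {U V : L → Prop} [DecidablePred U] [DecidablePred V] (h : ∀ l, U l → V l) :
      ∑ l, (if U l then t l else 0) ≤ ∑ l, if V l then t l else 0 :=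
    Finset.sum_le_sum fun l _ => by
      have := stdSimplex.zero_le t l
      have := h l
      split_ifs <;> simp_all
  by_cases h : ∀ l, i ≤ a l → j ≤ b l
  · rw [min_eq_left (k h)]
    exact le_antisymm (k fun _ c => c.1) (k fun l c => ⟨c, h l c⟩)
  · push Not at h
    obtain ⟨l, c, d⟩ := h
    have h (m : L) (e : j ≤ b m) : i ≤ a m :=
      c.trans (ha (le_of_not_ge fun f => d (e.trans (hb f))))
    rw [min_eq_right (k h)]
    exact le_antisymm (k fun _ c => c.2) (k fun l c => ⟨h l c, c⟩)

end

theorem sm_face {n : ℕ} (t : Sx (n + 1)) (i : Fin (n + 2)) (h : t i = 0) :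
    ∃ s : Sx n, sm (SimplexCategory.δ i) s = t := by
  refine ⟨⟨fun j => t (i.succAbove j), fun j => stdSimplex.zero_le t _, ?_⟩,
    stdSimplex.ext (funext fun j => ?_)⟩
  · have := stdSimplex.sum_eq_one t
    rwa [Fin.sum_univ_succAbove _ i, h, zero_add] at this
  · obtain rfl | ⟨j, rfl⟩ := Fin.eq_self_or_eq_succAbove i j
    · exact (smap_off _ fun ⟨_, e⟩ => Fin.succAbove_ne _ _ e).trans h.symm
    · exact smap_inj Fin.succAbove_right_injective _ _

theorem pr_nf {X : SSet.{u}} (p : Rl X) : ∃ (n : ℕ) (x : X _⦋n⦌) (t : Sx n),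
    x ∈ X.nonDegenerate n ∧ (∀ i, 0 < t i) ∧ ch x t = p := by
  obtain ⟨n, x, t, rfl⟩ := ch_surj p
  induction n using Nat.strong_induction_on with
  | h n ih =>
    by_cases a : x ∈ X.nonDegenerate n
    · by_cases b : ∀ i, 0 < t i
      · exact ⟨n, x, t, a, b, rfl⟩
      · push Not at b
        obtain ⟨i, b⟩ := b
        have b := le_antisymm b (stdSimplex.zero_le t i)
        obtain _ | n := n
        · exact absurd ((stdSimplex.eq_one_of_unique (X := Fin 1) t i).symm.trans b) one_ne_zero
        · obtain ⟨s, rfl⟩ := sm_face t i b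
          rw [← ch_nat]
          exact ih n n.lt_succ_self _ _
    · obtain ⟨m, c, f, y, rfl⟩ := not_not.1 a
      rw [ch_nat]
      exact ih m c _ _

/-- The two coordinates of a point of the product of two standard simplices. -/
noncomputable def co (p q : ℕ) : Rl (Δ[p] ⊗ Δ[q] : SSet.{u}) → Sx p × Sx q :=
  lift fun _ z t => (stdSimplex.map z.1 t, stdSimplex.map z.2 t)

theorem co_cpt (p q : ℕ) : Cpt (X := (Δ[p] ⊗ Δ[q] : SSet.{u})) (W := Sx p × Sx q)
    fun _ z t => (stdSimplex.map z.1 t, stdSimplex.map z.2 t) := fun _ _ g z t =>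
  Prod.ext (stdSimplex.map_comp_apply (fun i => g.toOrderHom i) z.1 t).symm
    (stdSimplex.map_comp_apply (fun i => g.toOrderHom i) z.2 t).symm

theorem co_ch {p q n : ℕ} (z : (Δ[p] ⊗ Δ[q] : SSet.{u}) _⦋n⦌) (t : Sx n) :
    co p q (ch z t) = (stdSimplex.map z.1 t, stdSimplex.map z.2 t) := (co_cpt p q).lift_ch z t

theorem co_cont (p q : ℕ) : Continuous (co.{u} p q) := (co_cpt p q).cont fun _ _ =>
  (stdSimplex.continuous_map _).prodMk (stdSimplex.continuous_map _)

theorem co_inj (p q : ℕ) : Function.Injective (co.{u} p q) := by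
  intro a b h
  obtain ⟨n, z, t, a1, a2, rfl⟩ := pr_nf a
  obtain ⟨m, w, s, b1, b2, rfl⟩ := pr_nf b
  rw [co_ch, co_ch, Prod.mk.injEq] at h
  rw [prodStdSimplex.nonDegenerate_iff_strictMono_objEquiv] at a1 b1
  have k {n : ℕ} (z : (Δ[p] ⊗ Δ[q] : SSet.{u}) _⦋n⦌) (t : Sx n) (y : Fin (p + 1) × Fin (q + 1)) :
      ∑ x, (if y ≤ x then stdSimplex.map (prodStdSimplex.objEquiv z) t x else 0) =
        min (∑ x, if y.1 ≤ x then stdSimplex.map z.1 t x else 0)
          (∑ x, if y.2 ≤ x then stdSimplex.map z.2 t x else 0) := by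
    rw [smap_sum, smap_sum, smap_sum, ← up_min (stdSimplex.monotone_apply _)
      (stdSimplex.monotone_apply _)]
    exact Finset.sum_congr rfl fun _ _ => if_congr Iff.rfl rfl rfl
  have e : ⇑(stdSimplex.map (prodStdSimplex.objEquiv z) t) =
      ⇑(stdSimplex.map (prodStdSimplex.objEquiv w) s) := up_ext fun y => by rw [k, k, h.1, h.2]
  have r : Set.range (prodStdSimplex.objEquiv z) = Set.range (prodStdSimplex.objEquiv w) := by
    refine Set.Subset.antisymm ?_ ?_ <;> rintro _ ⟨i, rfl⟩ <;> by_contra c
    · exact (a2 i).ne' ((smap_inj a1.injective t i).symm.trans ((congrFun e _).trans (smap_off _ c)))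
    · exact (b2 i).ne' ((smap_inj b1.injective s i).symm.trans
        ((congrFun e _).symm.trans (smap_off _ c)))
  obtain rfl : n = m := by
    have := congrArg Set.ncard r
    rw [Set.ncard_range_of_injective a1.injective, Set.ncard_range_of_injective b1.injective] at this
    simpa using this
  obtain rfl : z = w := prodStdSimplex.objEquiv.injective
    (DFunLike.coe_injective ((a1.range_inj b1).1 r))
  obtain rfl : t = s := stdSimplex.ext (funext fun i =>
    (smap_inj a1.injective t i).symm.trans ((congrFun e _).trans (smap_inj a1.injective s i)))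
  rfl

end Pool.Agent.Lib.MP_5d3e93_al.Br
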