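import Pool.Agent.Lib.MP_5d3e93_al.Br.CfA
import Pool.Agent.Lib.MP_5d3e93_al.Br.PrA

/-! The signs of the components of the boundary map of a simplex. -/

open CategoryTheory Topology Set Function Filter Opposite unitInterval

namespace Pool.Agent.Lib.MP_5d3e93_al.Br

universe u v

open Ps

section CfB
variable {d : ℕ} {p q : Fin (d + 1)}

/-- The mass of the coordinates `p`, `q` is redistributed. -/
noncomputable def cfbMv (h : p ≠ q) (t : Sx d) (r : ℝ) : Sx d :=
  ⟨fun k => t k + (max 0 (min (t p + t q) r) - t p) *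
      ((if k = p then 1 else 0) - if k = q then 1 else 0), fun k => by
    have a := stdSimplex.zero_le t p
    have b := stdSimplex.zero_le t q
    have c := le_max_left 0 (min (t p + t q) r)
    have e : max 0 (min (t p + t q) r) ≤ t p + t q := max_le (add_nonneg a b) (min_le_left _ _)
    have f := stdSimplex.zero_le t k
    dsimp only
    split_ifs with x y y
    · exact absurd (x.symm.trans y) h
    · rw [x]; linarith
    · rw [y]; linarith
    · linarith, by simp [Finset.sum_add_distrib, ← Finset.mul_sum, Finset.sum_sub_distrib]⟩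

theorem cfb_apply (h : p ≠ q) (t : Sx d) (r : ℝ) (k) : cfbMv h t r k =
    if k = p then max 0 (min (t p + t q) r) else
      if k = q then t p + t q - max 0 (min (t p + t q) r) else t k := by
  show t k + _ * _ = _
  split_ifs with x y y
  · exact absurd (x.symm.trans y) h
  · rw [x]; ring
  · rw [y]; ring
  · ring

theorem cfb_cont (h : p ≠ q) {K : Type*} [TopologicalSpace K] {t : K → Sx d} {r : K → ℝ}
    (a : Continuous t) (b : Continuous r) : Continuous fun x => cfbMv h (t x) (r x) := by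
  have c : ∀ k, Continuous fun x => t x k := fun k =>
    (continuous_apply k).comp (continuous_subtype_val.comp a)
  exact (continuous_pi fun k => (c k).add (((continuous_const.max (((c p).add (c q)).min b)).sub
    (c p)).mul continuous_const)).subtype_mk _

theorem cfb_self (h : p ≠ q) (t : Sx d) : cfbMv h t (t p) = t := by
  have a := stdSimplex.zero_le t p
  have b := stdSimplex.zero_le t q
  refine stdSimplex.ext (funext fun k => ?_)
  rw [cfb_apply, min_eq_right (by linarith), max_eq_right a]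
  split_ifs with x y
  · rw [x]
  · rw [y]; ring
  · rfl

theorem cfb_pt (h : p ≠ q) {t : Sx d} {r : ℝ} (e : r ≤ 0 ∨ t p + t q ≤ r) :
    dk.{u} (cfbMv h t r) = (Dq d).pt := by
  have a := add_nonneg (stdSimplex.zero_le t p) (stdSimplex.zero_le t q)
  refine dk_bd.2 (e.elim (fun e => ⟨p, ?_⟩) fun e => ⟨q, ?_⟩)
  · rw [cfb_apply, if_pos rfl, max_eq_left ((min_le_right _ _).trans e)]
  · rw [cfb_apply, if_neg h.symm, if_pos rfl, min_eq_left e, max_eq_right a, sub_self]

theorem cfb_bd (h : p ≠ q) {t : Sx d} {r : ℝ} (e : t p = 0 ∨ t q = 0 → r ≤ 0 ∨ t p + t q ≤ r)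
    (b : ∃ k, t k = 0) : dk.{u} (cfbMv h t r) = (Dq d).pt := by
  obtain ⟨k, b⟩ := b
  by_cases x : k = p
  · exact cfb_pt h (e (.inl (x ▸ b)))
  by_cases y : k = q
  · exact cfb_pt h (e (.inr (y ▸ b)))
  exact dk_bd.2 ⟨k, by rw [cfb_apply, if_neg x, if_neg y, b]⟩

theorem cfb_dk : Continuous (dk.{u} (d := d)) := (qk (bi d)).1.continuous.comp continuous_inl

/-- Self maps of the simplex modulo its boundary. -/
def cfbM (f : C(Sx d, (Dq.{u} d).X)) (h : ∀ t : Sx d, (∃ k, t k = 0) → f t = (Dq d).pt) :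
    Dq.{u} d ⟶ Dq.{u} d :=
  qm (plm f) fun
    | .inl t => h t.1 t.2
    | .inr _ => rfl

@[elab_as_elim]
theorem cfb_ind {P : (Dq.{u} d).X → Prop} (y) (h : ∀ t, P (dk t)) (k : P (Dq d).pt) : P y :=
  qk_ind y fun
    | .inl t => h t
    | .inr _ => k

theorem cfb_ho {f g : Dq.{u} d ⟶ Dq.{u} d} (H : I × Sx d → (Dq.{u} d).X) (c : Continuous H)
    (h : ∀ s, ∀ t : Sx d, (∃ k, t k = 0) → H (s, t) = (Dq d).pt)
    (h0 : ∀ t, H (0, t) = f.1 (dk t)) (h1 : ∀ t, H (1, t) = g.1 (dk t)) : Ho f g := by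
  have c' : Continuous fun z : I × (Pl.{u} (Sx d)).X =>
      Sum.elim (fun a => H (z.1, a)) (fun _ => (Dq d).pt) z.2 := by
    have := (c.sumElim (continuous_const : Continuous fun _ : I × PUnit.{u + 1} => (Dq d).pt)).comp
      Homeomorph.prodSumDistrib.continuous
    refine this.congr ?_
    rintro ⟨s, a | b⟩ <;> rfl
  exact .of (qd (i := bi d) (Y := Dq d) ⟨_, c'⟩ fun s => fun
      | .inl t => h s t.1 t.2
      | .inr _ => rfl)
    (fun y => cfb_ind y h0 f.2.symm) (fun y => cfb_ind y h1 g.2.symm) fun _ => rfl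

/-- The transposition of two vertices. -/
noncomputable def cfbS (p q : Fin (d + 1)) : C(Sx d, Sx d) :=
  ⟨stdSimplex.map (Equiv.swap p q), stdSimplex.continuous_map _⟩

theorem cfb_S (t : Sx d) (k) : cfbS p q t k = t (Equiv.swap p q k) := by
  have := smap_inj (Equiv.swap p q).injective t (Equiv.swap p q k)
  rwa [Equiv.swap_apply_self] at this

theorem cfb_S_bd {t : Sx d} (h : ∃ k, t k = 0) : ∃ k, cfbS p q t k = 0 :=
  h.elim fun k e => ⟨Equiv.swap p q k, by rw [cfb_S, Equiv.swap_apply_self, e]⟩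

theorem cfb_mv_S (h : p ≠ q) (t : Sx d) (r : ℝ) : cfbMv h (cfbS p q t) r = cfbMv h t r := by
  refine stdSimplex.ext (funext fun k => ?_)
  simp only [cfb_apply, cfb_S, Equiv.swap_apply_left, Equiv.swap_apply_right, add_comm (t q)]
  split_ifs with x y
  exacts [rfl, rfl, by rw [Equiv.swap_apply_of_ne_of_ne x y]]

/-- The transposition on the simplex modulo its boundary. -/
noncomputable def cfbT (p q : Fin (d + 1)) : Dq.{u} d ⟶ Dq.{u} d :=
  cfbM ⟨fun t => dk (cfbS p q t), cfb_dk.comp (cfbS p q).continuous⟩ fun _ h =>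
    dk_bd.2 (cfb_S_bd h)

/-- A transposition acts by `-1`. -/
theorem cfb_neg (h : p ≠ q) (n : ℤ) (x : Sh n (Dq.{u} d)) : hm n (cfbT p q) x = -x := by
  have c : ∀ k, Continuous fun t : Sx d => t k := fun k =>
    (continuous_apply k).comp continuous_subtype_val
  have z := fun t : Sx d => stdSimplex.zero_le t
  have A : ∀ (s : I) (t : Sx d), (∃ k, t k = 0) →
      dk.{u} (cfbMv h t (t p - s * t q)) = (Dq d).pt := fun s t => cfb_bd h fun e =>
    e.imp (fun e => by nlinarith [s.2.1, z t q]) fun e => by simp [e]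
  have B : ∀ (s : I) (t : Sx d), (∃ k, t k = 0) →
      dk.{u} (cfbMv h t (|t p - t q| + s * (t p + t q))) = (Dq d).pt := fun s t =>
    cfb_bd h fun e => .inr <| le_add_of_le_of_nonneg (e.elim
      (fun e => by simp [e, le_abs_self]) fun e => by simp [e, le_abs_self])
      (mul_nonneg s.2.1 (add_nonneg (z t p) (z t q)))
  let a : Dq.{u} d ⟶ Dq.{u} d := cfbM ⟨fun t => dk (cfbMv h t (t p - t q)),
    cfb_dk.comp (cfb_cont h continuous_id ((c p).sub (c q)))⟩ fun t e => by simpa using A 1 t e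
  let g : Dq.{u} d ⟶ Dq.{u} d := cfbM ⟨fun t => dk (cfbMv h t |t p - t q|),
    cfb_dk.comp (cfb_cont h continuous_id ((c p).sub (c q)).abs)⟩ fun t e => by simpa using B 0 t e
  have a1 : ∀ t, a.1 (dk t) = dk (cfbMv h t (t p - t q)) := fun _ => rfl
  have g1 : ∀ t, g.1 (dk t) = dk (cfbMv h t |t p - t q|) := fun _ => rfl
  have b1 : ∀ t, (cfbT p q ≫ a).1 (dk t) = dk (cfbMv h t (t q - t p)) := fun t =>
    (a1 (cfbS p q t)).trans (by
      rw [cfb_mv_S, cfb_S, cfb_S, Equiv.swap_apply_left, Equiv.swap_apply_right])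
  have Ha : Ho (𝟙 _) a := cfb_ho (fun w => dk (cfbMv h w.2 (w.2 p - w.1 * w.2 q)))
    (cfb_dk.comp (cfb_cont h continuous_snd (((c p).comp continuous_snd).sub
      ((continuous_subtype_val.comp continuous_fst).mul ((c q).comp continuous_snd))))) A
    (fun t => by simp [cfb_self]) fun t => by simp [a1]
  have Hg : Ho g (cst _ _) :=
    cfb_ho (fun w => dk (cfbMv h w.2 (|w.2 p - w.2 q| + w.1 * (w.2 p + w.2 q))))
      (cfb_dk.comp (cfb_cont h continuous_snd ((((c p).sub (c q)).abs.comp continuous_snd).add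
        ((continuous_subtype_val.comp continuous_fst).mul
          (((c p).add (c q)).comp continuous_snd))))) B
      (fun t => by simp [g1]) fun t => cfb_pt h (.inr (by simp))
  have := (st_one.{u} d).t1
  have : T1Space (Dq.{u} d).X := t1_Q (st_one.{u} d).emb.isClosed_range
  have e := hm_add (n := n) (g := g) (a := a) (b := cfbT p q ≫ a) isClosed_singleton
    (fun y => cfb_ind y (fun t => by
      rw [a1, g1, b1]
      rcases le_total (t q) (t p) with y | y
      · exact .inl ⟨by rw [abs_of_nonneg (sub_nonneg.2 y)], cfb_pt h (.inl (sub_nonpos.2 y))⟩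
      · exact .inr ⟨cfb_pt h (.inl (sub_nonpos.2 y)), by
          rw [abs_sub_comm, abs_of_nonneg (sub_nonneg.2 y)]⟩)
      (.inl ⟨a.2.trans g.2.symm, (cfbT p q ≫ a).2⟩)) x
  rw [Hg.hm, hm_cst, hm_comp, ← Ha.hm, ← Ha.hm, hm_id, hm_id] at e
  exact eq_neg_of_add_eq_zero_right e.symm

end CfB

theorem cfb_swap {d : ℕ} (i : Fin (d + 1)) :
    Equiv.swap i.castSucc i.succ ∘ i.castSucc.succAbove = i.succ.succAbove := by
  funext k
  rcases lt_trichotomy k i with h | rfl | h
  · rw [Function.comp_apply, Fin.succAbove_castSucc_of_lt _ _ h, Fin.succAbove_succ_of_le _ _ h.le,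
      Equiv.swap_apply_of_ne_of_ne (by simpa using h.ne)
        ((Fin.castSucc_lt_succ_iff.2 h.le).ne)]
  · rw [Function.comp_apply, Fin.succAbove_castSucc_self, Fin.succAbove_succ_self, Equiv.swap_apply_right]
  · rw [Function.comp_apply, Fin.succAbove_castSucc_of_le _ _ h.le, Fin.succAbove_succ_of_lt _ _ h,
      Equiv.swap_apply_of_ne_of_ne (Fin.castSucc_lt_succ_iff.2 h.le).ne' (by simpa using h.ne')]

theorem cfb_step (d : ℕ) (i : Fin (d + 1)) (n : ℤ) (x : Sh (n + 1) (Dq.{u} (d + 1))) :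
    cf d i.succ n x = -cf d i.castSucc n x := by
  let a : Pl.{u} (Bn (d + 1)) ⟶ Pl (Bn (d + 1)) := plm ⟨fun t =>
    .inl ⟨cfbS i.castSucc i.succ t.1, cfb_S_bd t.2⟩, continuous_inl.comp
      (((cfbS _ _).continuous.comp continuous_subtype_val).subtype_mk _)⟩
  let b : Pl.{u} (Sx (d + 1)) ⟶ Pl (Sx (d + 1)) := plm ⟨fun t => .inl (cfbS i.castSucc i.succ t),
    continuous_inl.comp (cfbS _ _).continuous⟩
  have e := (st_one (d + 1)).ndr.nat (st_one (d + 1)).ndr (a := a) (b := b)
    (c := cfbT i.castSucc i.succ) (Ps.ext (by rintro (_ | _) <;> rfl))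
    (Ps.ext (by rintro (_ | _) <;> rfl)) x
  have k : a ≫ kp d i.succ = kp d i.castSucc := by
    obtain ⟨p1, p2⟩ := (ex_kp.{u} d i.castSucc).choose_spec
    obtain ⟨q1, q2⟩ := (ex_kp.{u} d i.succ).choose_spec
    refine Ps.ext ?_
    rintro (t | _)
    · by_cases y : t.1 i.castSucc = 0
      · obtain ⟨s, w⟩ : ∃ s, fa i.castSucc s = t.1 := sm_face _ _ y
        refine (q1 _ s ?_).trans (p1 t s w.symm).symm
        show stdSimplex.map _ t.1 = stdSimplex.map _ s
        rw [← w, ← cfb_swap, ← stdSimplex.map_comp_apply]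
        rfl
      · exact (q2 _ (by rwa [cfb_S, Equiv.swap_apply_right])).trans (p2 t y).symm
    · exact (a ≫ kp d i.succ).2.trans (kp d i.castSucc).2.symm
  have f : cf d i.succ n (hm (n + 1) (cfbT i.castSucc i.succ) x) = cf d i.castSucc n x :=
    (congrArg (hm n (kp d i.succ)) e).trans ((hm_comp _ _ _).symm.trans (by rw [k]; rfl))
  rw [cfb_neg (Fin.castSucc_lt_succ (i := i)).ne, map_neg] at f
  exact neg_eq_iff_eq_neg.1 f

theorem cf_sign (d : ℕ) (i : Fin (d + 2)) (n : ℤ) (x : Sh (n + 1) (Dq.{u} (d + 1))) :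
    cf d i n x = (-1 : ℤ) ^ (i : ℕ) • cf d 0 n x := by
  induction i using Fin.induction with
  | zero => simp
  | succ i ih => rw [cfb_step, ih, Fin.val_succ, Fin.val_castSucc, pow_succ, mul_neg_one, neg_smul]

end Pool.Agent.Lib.MP_5d3e93_al.Br
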