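import Pool.Agent.Lib.MP_5d3e93_al.Br.Tw

/-! Comparison lemmas for towers. -/

open CategoryTheory Function

namespace Pool.Agent.Lib.MP_5d3e93_al.Br

universe u

open Ps

namespace Pre

variable {X X' P P' Y Y' : Pre.{u}} {i : X ⟶ P} {q : P ⟶ Y} {i' : X' ⟶ P'} {q' : P' ⟶ Y'}
  {a : X ⟶ X'} {b : P ⟶ P'} {c : Y ⟶ Y'}

theorem bij_comp {f : X ⟶ Y} {g : Y ⟶ P} {n : ℤ} (h : Bijective (map n f))
    (k : Bijective (map n g)) : Bijective (map n (f ≫ g)) := by
  have : ⇑(map n (f ≫ g)) = map n g ∘ map n f := funext fun x => map_comp f g x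
  exact this ▸ k.comp h

theorem bij_id (n : ℤ) : Bijective (map n (𝟙 X)) := by
  have : ⇑(map n (𝟙 X)) = id := funext fun x => map_id x
  exact this ▸ bijective_id

theorem bij_of_acy (h : X.Acy) (k : Y.Acy) (f : X ⟶ Y) (n : ℤ) : Bijective (map n f) :=
  ⟨fun x y _ => (h n x).trans (h n y).symm, fun y => ⟨0, (k n _).trans (k n y).symm⟩⟩

/-- Five lemma on the right. -/
theorem Nl.bij_right (h : Nl i q) (h' : Nl i' q') (e : i ≫ b = a ≫ i') (e' : q ≫ c = b ≫ q')
    (k : ∀ n, Bijective (map n h.col)) (k' : ∀ n, Bijective (map n h'.col))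
    (ha : ∀ n, Bijective (map n a)) (hb : ∀ n, Bijective (map n b)) (n : ℤ) :
    Bijective (map n c) := by
  have := bij_comp (cf_bij' e ha hb n) (k' n)
  rw [h.cf_col h' e e'] at this
  have e : ⇑(map n (h.col ≫ c)) = map n c ∘ map n h.col := funext fun x => map_comp _ _ x
  exact (Bijective.of_comp_iff _ (k n)).1 (e ▸ this)

theorem Nl.C (h : Nl i q) (h' : Nl i' q') (e : i ≫ b = a ≫ i') (e' : q ≫ c = b ≫ q') :
    Nl (cf e.symm) (cf e'.symm) := fun m x => cn_ind x
  (fun x => congrArg (ci (c.1 m)).1 (h' m x))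
  fun t x => (congrArg (cn (c.1 m) t) (h m x)).trans (cn_pt t)

/-- Cofibre sequences pass to cones. -/
theorem Nl.col_C (h : Nl i q) (h' : Nl i' q') (e : i ≫ b = a ≫ i') (e' : q ≫ c = b ≫ q')
    (k : ∀ n, Bijective (map n h.col)) (k' : ∀ n, Bijective (map n h'.col)) (n : ℤ) :
    Bijective (map n (h.C h' e e').col) := by
  have x : Bijective (map n (xc e.symm)) := bijective_iff_has_inverse.2 ⟨map n (xc e),
    fun x => by rw [← map_comp, xc_xc, map_id], fun x => by rw [← map_comp, xc_xc e, map_id]⟩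
  have : (h.C h' e e').col = xc e.symm ≫ cf (h.cf_col h' e e') := ext fun m => C_ext
    (fun y => cn_ind y (fun _ => rfl) fun _ _ => rfl) fun _ y => cn_ind y (fun _ => rfl)
      fun t _ => (cn_pt t).symm
  exact this ▸ bij_comp x (cf_bij' _ k k' n)

end Pre

open Pre

namespace Tm

variable {T U T' U' : To.{u}}

theorem surj_of {F : Tm T U} (h : ∀ k n, Surjective (map n (F.a k))) : F.Surj := fun k n y => by
  obtain ⟨x, rfl⟩ := h k n y
  exact .im x

theorem inj_of' {F : Tm T U} (h : ∀ k n, Injective (map n (F.a k))) : F.Inj :=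
  inj_of fun k n _ e => (map_eq_zero_iff _ (h k n)).1 e ▸ .zero

/-- Levelwise equivalent maps of towers have the same cone. -/
theorem z_iff {F : Tm T U} {F' : Tm T' U'} (G : Tm T T') (H : Tm U U')
    (ha : ∀ k, F.a k ≫ H.a k = G.a k ≫ F'.a k) (hb : ∀ k, F.b k ≫ H.b k = G.b k ≫ F'.b k)
    (g : ∀ k n, Bijective (map n (G.a k))) (h : ∀ k n, Bijective (map n (H.a k))) :
    F.C.Z ↔ F'.C.Z :=
  have k := fun k n => cf_bij' (ha k) (g k) (h k) n
  ⟨(surj_of (F := F.cf F' G H ha hb) fun l n => (k l n).2).z,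
    (inj_of' (F := F.cf F' G H ha hb) fun l n => (k l n).1).z⟩

end Tm

end Pool.Agent.Lib.MP_5d3e93_al.Br
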