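import Mathlib

/-! Connectivity of chain maps of abelian groups. -/

open CategoryTheory CategoryTheory.Limits HomologicalComplex

namespace Pool.Agent.Lib.MP_5d3e93_al.Br

universe u

/-- Chain complexes of abelian groups in degrees `0, 1, ...`. -/
abbrev Chc : Type (u + 1) := ChainComplex (ModuleCat.{u} ℤ) ℕ

variable {K L M : Chc.{u}}

/-- Cycles (in degree zero every element). -/
def IsCy (K : Chc.{u}) (n : ℕ) (x : K.X n) : Prop := K.d n (n - 1) x = 0

/-- Every cycle of the target is the image of a cycle up to a boundary. -/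
def HSur (f : K ⟶ L) (n : ℕ) : Prop :=
  ∀ y : L.X n, IsCy L n y → ∃ (x : K.X n) (z : L.X (n + 1)),
    IsCy K n x ∧ y = f.f n x + L.d (n + 1) n z

/-- A cycle whose image is a boundary is a boundary. -/
def HInj (f : K ⟶ L) (n : ℕ) : Prop :=
  ∀ (x : K.X n) (z : L.X (n + 1)), IsCy K n x → f.f n x = L.d (n + 1) n z →
    ∃ w : K.X (n + 1), x = K.d (n + 1) n w

/-- The cone of `f` is exact in all degrees below `a`. -/
def Cn (a : ℕ) (f : K ⟶ L) : Prop :=
  (∀ n, n < a → HSur f n) ∧ (∀ n, n + 1 < a → HInj f n)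

theorem cy_zero (x : K.X 0) : IsCy K 0 x := by
  unfold IsCy
  rw [K.shape 0 (0 - 1) (by simp)]
  rfl

theorem cy_succ {n : ℕ} {x : K.X (n + 1)} : IsCy K (n + 1) x ↔ K.d (n + 1) n x = 0 := Iff.rfl

theorem cn_dd (i j k : ℕ) (x : K.X i) : K.d j k (K.d i j x) = 0 := by
  rw [← ConcreteCategory.comp_apply, K.d_comp_d]
  rfl

theorem cy_d (n : ℕ) (z : K.X (n + 1)) : IsCy K n (K.d (n + 1) n z) := cn_dd _ _ _ _

theorem cn_comm (f : K ⟶ L) (i j : ℕ) (x : K.X i) :
    L.d i j (f.f i x) = f.f j (K.d i j x) := by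
  rw [← ConcreteCategory.comp_apply, f.comm]
  rfl

theorem IsCy.map (f : K ⟶ L) {n : ℕ} {x : K.X n} (h : IsCy K n x) : IsCy L n (f.f n x) := by
  unfold IsCy at h ⊢
  rw [cn_comm, h, map_zero]

theorem cn_nx (n : ℕ) : (ComplexShape.down ℕ).next n = n - 1 := by
  cases n with
  | zero => simp
  | succ n => simp

theorem cy_i (n : ℕ) (c : K.cycles n) : IsCy K n (K.iCycles n c) := by
  unfold IsCy
  rw [← ConcreteCategory.comp_apply, K.iCycles_d]
  rfl

theorem cy_ex {n : ℕ} {x : K.X n} (h : IsCy K n x) : ∃ c : K.cycles n, K.iCycles n c = x :=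
  (ShortComplex.moduleCat_exact_iff _).1 (ShortComplex.exact_of_f_is_kernel
    (ShortComplex.mk _ _ (K.iCycles_d n (n - 1))) (K.cyclesIsKernel n (n - 1) (cn_nx n))) x h

theorem cn_i_inj (n : ℕ) : Function.Injective (K.iCycles n) :=
  (ModuleCat.mono_iff_injective _).1 inferInstance

theorem cn_pi_surj (n : ℕ) : Function.Surjective (K.homologyπ n) :=
  (ModuleCat.epi_iff_surjective _).1 inferInstance

theorem cn_pi_zero {n : ℕ} (c : K.cycles n) :
    K.homologyπ n c = 0 ↔ ∃ z : K.X (n + 1), K.iCycles n c = K.d (n + 1) n z := by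
  have e : ∀ z : K.X (n + 1), K.iCycles n (K.toCycles (n + 1) n z) = K.d (n + 1) n z := fun z => by
    rw [← ConcreteCategory.comp_apply, K.toCycles_i]
  constructor
  · intro h
    have hx : (ShortComplex.mk _ _ (K.toCycles_comp_homologyπ (n + 1) n)).Exact :=
      ShortComplex.exact_of_g_is_cokernel _ (K.homologyIsCokernel (n + 1) n (by simp))
    obtain ⟨z, hz⟩ := (ShortComplex.moduleCat_exact_iff _).1 hx c h
    exact ⟨z, by rw [← e]; exact congrArg _ hz.symm⟩
  · rintro ⟨z, hz⟩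
    rw [cn_i_inj n (hz.trans (e z).symm), ← ConcreteCategory.comp_apply, K.toCycles_comp_homologyπ]
    rfl

theorem cn_pi_nat (f : K ⟶ L) (n : ℕ) (c : K.cycles n) :
    homologyMap f n (K.homologyπ n c) = L.homologyπ n (cyclesMap f n c) := by
  rw [← ConcreteCategory.comp_apply, homologyπ_naturality]
  rfl

theorem cn_i_nat (f : K ⟶ L) (n : ℕ) (c : K.cycles n) :
    L.iCycles n (cyclesMap f n c) = f.f n (K.iCycles n c) := by
  rw [← ConcreteCategory.comp_apply, cyclesMap_i]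
  rfl

theorem cn_epi (f : K ⟶ L) (n : ℕ) : Epi (homologyMap f n) ↔ HSur f n := by
  rw [ModuleCat.epi_iff_surjective]
  constructor
  · intro h y hy
    obtain ⟨c, rfl⟩ := cy_ex hy
    obtain ⟨b, hb⟩ := h (L.homologyπ n c)
    obtain ⟨b, rfl⟩ := cn_pi_surj n b
    rw [cn_pi_nat, eq_comm, ← sub_eq_zero, ← map_sub, cn_pi_zero] at hb
    obtain ⟨z, hz⟩ := hb
    rw [map_sub, cn_i_nat, sub_eq_iff_eq_add'] at hz
    exact ⟨_, z, cy_i n b, hz⟩
  · intro h y
    obtain ⟨c, rfl⟩ := cn_pi_surj n y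
    obtain ⟨x, z, hx, e⟩ := h _ (cy_i n c)
    obtain ⟨b, rfl⟩ := cy_ex hx
    refine ⟨K.homologyπ n b, ?_⟩
    rw [cn_pi_nat, eq_comm, ← sub_eq_zero, ← map_sub, cn_pi_zero]
    exact ⟨z, by rw [map_sub, cn_i_nat, e, add_sub_cancel_left]⟩

theorem cn_mono (f : K ⟶ L) (n : ℕ) : Mono (homologyMap f n) ↔ HInj f n := by
  rw [ModuleCat.mono_iff_injective, injective_iff_map_eq_zero]
  constructor
  · intro h x z hx e
    obtain ⟨c, rfl⟩ := cy_ex hx
    refine (cn_pi_zero c).1 (h _ ?_)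
    exact (cn_pi_nat f n c).trans ((cn_pi_zero _).2 ⟨z, by rw [cn_i_nat, e]⟩)
  · intro h y hy
    obtain ⟨c, rfl⟩ := cn_pi_surj n y
    obtain ⟨z, hz⟩ := (cn_pi_zero _).1 ((cn_pi_nat f n c).symm.trans hy)
    rw [cn_i_nat] at hz
    exact (cn_pi_zero c).2 (h _ z (cy_i n c) hz)

theorem cn_iff {a : ℕ} {f : K ⟶ L} :
    Cn a f ↔ (∀ n, n < a → HSur f n) ∧ (∀ n, n + 1 < a → HInj f n) := Iff.rfl

theorem cn_iff_h {a : ℕ} {f : K ⟶ L} :
    Cn a f ↔ (∀ n, n < a → Epi (homologyMap f n)) ∧ (∀ n, n + 1 < a → Mono (homologyMap f n)) := by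
  simp only [Cn, cn_epi, cn_mono]

theorem Cn.epi {a n : ℕ} {f : K ⟶ L} (h : Cn a f) (hn : n < a) : Epi (homologyMap f n) :=
  (cn_iff_h.1 h).1 n hn

theorem Cn.mon {a n : ℕ} {f : K ⟶ L} (h : Cn a f) (hn : n + 1 < a) : Mono (homologyMap f n) :=
  (cn_iff_h.1 h).2 n hn

/-- The cone form of connectivity: pairs `(x, y)` with `d x = 0`, `d y = f x`. -/
theorem cn_iff_cone {a : ℕ} {f : K ⟶ L} :
    Cn a f ↔ (0 < a → ∀ y : L.X 0, ∃ (x : K.X 0) (z : L.X 1), y = f.f 0 x + L.d 1 0 z) ∧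
      ∀ n, n + 1 < a → ∀ (x : K.X n) (y : L.X (n + 1)), IsCy K n x → f.f n x = L.d (n + 1) n y →
        ∃ (w : K.X (n + 1)) (z : L.X (n + 2)), x = K.d (n + 1) n w ∧
          y = f.f (n + 1) w + L.d (n + 2) (n + 1) z := by
  rw [cn_iff]
  constructor
  · rintro ⟨hs, hi⟩
    refine ⟨fun h y => ?_, fun n hn x y hx e => ?_⟩
    · obtain ⟨x, z, -, e⟩ := hs 0 h y (cy_zero y)
      exact ⟨x, z, e⟩
    · obtain ⟨w, rfl⟩ := hi n hn x y hx e
      obtain ⟨v, z, hv, e'⟩ := hs (n + 1) hn (y - f.f (n + 1) w) (by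
        rw [cy_succ, map_sub, cn_comm, e, sub_self])
      refine ⟨w + v, z, by rw [map_add, cy_succ.1 hv, add_zero], ?_⟩
      rw [sub_eq_iff_eq_add] at e'
      rw [e', map_add]
      abel
  · rintro ⟨h0, h1⟩
    refine ⟨fun n hn y hy => ?_, fun n hn x z hx e => ?_⟩
    · cases n with
      | zero =>
        obtain ⟨x, z, e⟩ := h0 hn y
        exact ⟨x, z, cy_zero x, e⟩
      | succ n =>
        obtain ⟨w, z, e, e'⟩ := h1 n hn 0 y (map_zero _) (by rw [map_zero, cy_succ.1 hy])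
        exact ⟨w, z, e.symm, e'⟩
    · obtain ⟨w, -, e, -⟩ := h1 n hn x z hx e
      exact ⟨w, e⟩

theorem Cn.mono {a b : ℕ} {f : K ⟶ L} (h : Cn a f) (hb : b ≤ a) : Cn b f :=
  ⟨fun n hn => h.1 n (by omega), fun n hn => h.2 n (by omega)⟩

theorem cn_zero (f : K ⟶ L) : Cn 0 f := ⟨fun _ h => absurd h (by omega), fun _ h => absurd h (by omega)⟩

theorem Cn.isIso {a n : ℕ} {f : K ⟶ L} (h : Cn a f) (hn : n + 1 < a) : IsIso (homologyMap f n) :=
  have := h.epi (n := n) (by omega)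
  have := h.mon (n := n) hn
  isIso_of_mono_of_epi _

theorem cn_of_quasiIso (a : ℕ) (f : K ⟶ L) [QuasiIso f] : Cn a f :=
  cn_iff_h.2 ⟨fun _ _ => inferInstance, fun _ _ => inferInstance⟩

theorem quasiIso_of_cn {f : K ⟶ L} (h : ∀ a, Cn a f) : QuasiIso f :=
  ⟨fun n => (quasiIsoAt_iff_isIso_homologyMap f n).2 ((h (n + 2)).isIso (by omega))⟩

theorem Cn.comp {a : ℕ} {f : K ⟶ L} {g : L ⟶ M} (hf : Cn a f) (hg : Cn a g) : Cn a (f ≫ g) := by
  refine cn_iff_h.2 ⟨fun n hn => ?_, fun n hn => ?_⟩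
  · have := hf.epi (n := n) hn
    have := hg.epi (n := n) hn
    rw [homologyMap_comp]
    infer_instance
  · have := hf.mon (n := n) hn
    have := hg.mon (n := n) hn
    rw [homologyMap_comp]
    infer_instance

/-- Two out of three, left cancellation. -/
theorem Cn.of_comp_left {a : ℕ} {f : K ⟶ L} {g : L ⟶ M} (h : Cn a (f ≫ g)) (hg : Cn (a + 1) g) :
    Cn a f := by
  refine cn_iff_h.2 ⟨fun n hn => ?_, fun n hn => ?_⟩
  · have := h.epi (n := n) hn
    have := hg.isIso (n := n) (by omega)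
    have e : homologyMap f n = homologyMap (f ≫ g) n ≫ inv (homologyMap g n) := by
      simp [homologyMap_comp]
    rw [e]
    infer_instance
  · have := h.mon (n := n) hn
    rw [homologyMap_comp] at this
    exact mono_of_mono _ (homologyMap g n)

/-- Two out of three, right cancellation. -/
theorem Cn.of_comp_right {a : ℕ} {f : K ⟶ L} {g : L ⟶ M} (h : Cn (a + 1) (f ≫ g)) (hf : Cn a f) :
    Cn (a + 1) g := by
  refine cn_iff_h.2 ⟨fun n hn => ?_, fun n hn => ?_⟩
  · have := h.epi (n := n) hn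
    rw [homologyMap_comp] at this
    exact epi_of_epi (homologyMap f n) _
  · have h1 := h.mon (n := n) hn
    have h2 := hf.epi (n := n) (by omega)
    rw [homologyMap_comp] at h1
    have := mono_of_mono (homologyMap f n) (homologyMap g n)
    have := isIso_of_mono_of_epi (homologyMap f n)
    have e : homologyMap g n = inv (homologyMap f n) ≫ homologyMap f n ≫ homologyMap g n := by simp
    rw [e]
    infer_instance

theorem Cn.of_homotopy {a : ℕ} {f g : K ⟶ L} (h : Cn a f) (H : Homotopy f g) : Cn a g :=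
  cn_iff_h.2 ⟨fun n hn => H.homologyMap_eq n ▸ h.epi hn, fun n hn => H.homologyMap_eq n ▸ h.mon hn⟩

/-- Transport along a square whose vertical maps are quasi-isomorphisms. -/
theorem cn_sq {K' L' : Chc.{u}} {a : ℕ} {f : K ⟶ L} {g : K' ⟶ L'} (p : K ⟶ K') (q : L ⟶ L')
    [QuasiIso p] [QuasiIso q] (e : f ≫ q = p ≫ g) : Cn a f ↔ Cn a g := by
  constructor
  · intro h
    have h1 : Cn a (p ≫ g) := e ▸ h.comp (cn_of_quasiIso a q)
    cases a with
    | zero => exact cn_zero _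
    | succ a => exact h1.of_comp_right (cn_of_quasiIso a p)
  · intro h
    have h1 : Cn a (f ≫ q) := e ▸ (cn_of_quasiIso a p).comp h
    exact h1.of_comp_left (cn_of_quasiIso _ q)

end Pool.Agent.Lib.MP_5d3e93_al.Br
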