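import Pool.Agent.Lib.MP_5d3e93_al.Br.Hq

/-! Short exact sequences with an acyclic middle term. -/

open CategoryTheory CategoryTheory.Limits HomologicalComplex

namespace Pool.Agent.Lib.MP_5d3e93_al.Br

universe u

section
variable {K L : Chc.{u}}

theorem hq_at {φ ψ : K ⟶ L} {n : ℕ} : homologyMap φ n = homologyMap ψ n ↔
    ∀ x : K.X n, IsCy K n x → ∃ w : L.X (n + 1), φ.f n x = ψ.f n x + L.d (n + 1) n w := by
  constructor
  · intro h x hx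
    obtain ⟨c, rfl⟩ := cy_ex hx
    have e : L.homologyπ n (cyclesMap φ n c - cyclesMap ψ n c) = 0 := by
      rw [map_sub, ← cn_pi_nat, ← cn_pi_nat, h, sub_self]
    obtain ⟨w, hw⟩ := (cn_pi_zero _).1 e
    rw [map_sub, cn_i_nat, cn_i_nat, sub_eq_iff_eq_add'] at hw
    exact ⟨w, hw⟩
  · intro h
    refine ModuleCat.hom_ext (LinearMap.ext fun y => ?_)
    obtain ⟨c, rfl⟩ := cn_pi_surj n y
    obtain ⟨w, hw⟩ := h _ (cy_i n c)
    change homologyMap φ n _ = homologyMap ψ n _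
    rw [cn_pi_nat, cn_pi_nat, ← sub_eq_zero, ← map_sub, cn_pi_zero]
    exact ⟨w, by rw [map_sub, cn_i_nat, cn_i_nat, hw, add_sub_cancel_left]⟩

theorem hq_iff {φ ψ : K ⟶ L} : Hq φ ψ ↔ ∀ n, homologyMap φ n = homologyMap ψ n :=
  forall_congr' fun _ => hq_at.symm

theorem ac_iff {a : ℕ} : Ac a K ↔ ∀ n, n < a → IsZero (K.homology n) := by
  refine forall₂_congr fun n _ => ?_
  rw [ModuleCat.isZero_iff_subsingleton]
  constructor
  · intro h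
    refine subsingleton_of_forall_eq 0 fun y => ?_
    obtain ⟨c, rfl⟩ := cn_pi_surj n y
    exact (cn_pi_zero c).2 (h _ (cy_i n c))
  · intro h y hy
    obtain ⟨c, rfl⟩ := cy_ex hy
    exact (cn_pi_zero c).1 (Subsingleton.elim _ _)

end

variable {S T : ShortComplex Chc.{u}}

theorem se_inj (hS : S.ShortExact) (n : ℕ) : Function.Injective (S.f.f n) :=
  (ModuleCat.mono_iff_injective _).1 (hS.map_of_exact (HomologicalComplex.eval _ _ n)).mono_f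

theorem se_surj (hS : S.ShortExact) (n : ℕ) : Function.Surjective (S.g.f n) :=
  (ModuleCat.epi_iff_surjective _).1 (hS.map_of_exact (HomologicalComplex.eval _ _ n)).epi_g

theorem se_ex (hS : S.ShortExact) (n : ℕ) (x : S.X₂.X n) (h : S.g.f n x = 0) :
    ∃ y, S.f.f n y = x :=
  (ShortComplex.moduleCat_exact_iff _).1 (hS.map_of_exact (HomologicalComplex.eval _ _ n)).exact x h

theorem se_zero (S : ShortComplex Chc.{u}) (n : ℕ) (x : S.X₁.X n) : S.g.f n (S.f.f n x) = 0 := by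
  rw [← sa_comp, S.zero]
  rfl

theorem se_c12 (φ : S ⟶ T) (n : ℕ) (x : S.X₁.X n) : φ.τ₂.f n (S.f.f n x) = T.f.f n (φ.τ₁.f n x) := by
  rw [← sa_comp, ← sa_comp, φ.comm₁₂]

theorem se_c23 (φ : S ⟶ T) (n : ℕ) (x : S.X₂.X n) : φ.τ₃.f n (S.g.f n x) = T.g.f n (φ.τ₂.f n x) := by
  rw [← sa_comp, ← sa_comp, φ.comm₂₃]

/-- The connecting construction in elements. -/
theorem se_bd (hS : S.ShortExact) {n : ℕ} (z : S.X₃.X (n + 1)) (hz : IsCy S.X₃ (n + 1) z) :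
    ∃ (c : S.X₂.X (n + 1)) (x : S.X₁.X n), S.g.f _ c = z ∧ IsCy S.X₁ n x ∧
      S.f.f n x = S.X₂.d (n + 1) n c := by
  obtain ⟨c, rfl⟩ := se_surj hS _ z
  obtain ⟨x, hx⟩ := se_ex hS n (S.X₂.d (n + 1) n c) (by rw [← cn_comm]; exact hz)
  refine ⟨c, x, rfl, se_inj hS (n - 1) ?_, hx⟩
  rw [← cn_comm, hx, cn_dd, map_zero]

/-- Equality on homology passes to the quotients, degree by degree. -/
theorem hq_quot_at (φ ψ : S ⟶ T) (hS : S.ShortExact) {n : ℕ} (hT : Ac (n + 2) T.X₂)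
    (h : homologyMap φ.τ₁ n = homologyMap ψ.τ₁ n) :
    homologyMap φ.τ₃ (n + 1) = homologyMap ψ.τ₃ (n + 1) := by
  refine hq_at.2 fun z hz => ?_
  obtain ⟨c, x, rfl, hx, e⟩ := se_bd hS z hz
  obtain ⟨w, hw⟩ := hq_at.1 h x hx
  obtain ⟨v, hv⟩ := hT (n + 1) (by omega) (φ.τ₂.f _ c - ψ.τ₂.f _ c - T.f.f _ w) (by
    rw [cy_succ, map_sub, map_sub, cn_comm, cn_comm, cn_comm, ← e, se_c12, se_c12, hw, map_add]
    abel)
  refine ⟨T.g.f _ v, ?_⟩
  rw [cn_comm, ← hv, map_sub, map_sub, se_zero, se_c23, se_c23]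
  abel

theorem hq_quot_zero (φ ψ : S ⟶ T) (hS : S.ShortExact) (hT : Ac 1 T.X₂) :
    homologyMap φ.τ₃ 0 = homologyMap ψ.τ₃ 0 := by
  refine hq_at.2 fun z _ => ?_
  obtain ⟨c, rfl⟩ := se_surj hS _ z
  obtain ⟨v, hv⟩ := hT 0 (by omega) (φ.τ₂.f _ c - ψ.τ₂.f _ c) (cy_zero _)
  refine ⟨T.g.f _ v, ?_⟩
  rw [cn_comm, ← hv, map_sub, se_c23, se_c23]
  abel

theorem hq_quot (φ ψ : S ⟶ T) (hS : S.ShortExact) (hT : ∀ a, Ac a T.X₂) (h : Hq φ.τ₁ ψ.τ₁) :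
    Hq φ.τ₃ ψ.τ₃ := hq_iff.2 fun n => by
  cases n with
  | zero => exact hq_quot_zero φ ψ hS (hT _)
  | succ n => exact hq_quot_at φ ψ hS (hT _) (hq_iff.1 h n)

/-- The converse, degree by degree. -/
theorem hq_sub_at (φ ψ : S ⟶ T) (hT : T.ShortExact) {n : ℕ} (hS : Ac (n + 1) S.X₂)
    (h : homologyMap φ.τ₃ (n + 1) = homologyMap ψ.τ₃ (n + 1)) :
    homologyMap φ.τ₁ n = homologyMap ψ.τ₁ n := by
  refine hq_at.2 fun x hx => ?_
  obtain ⟨c, hc⟩ := hS n (by omega) _ (hx.map S.f)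
  obtain ⟨w, hw⟩ := hq_at.1 h (S.g.f _ c) (by rw [cy_succ, cn_comm, ← hc, se_zero])
  obtain ⟨v, rfl⟩ := se_surj hT _ w
  obtain ⟨y, hy⟩ := se_ex hT _ (φ.τ₂.f _ c - ψ.τ₂.f _ c - T.X₂.d (n + 2) (n + 1) v) (by
    rw [map_sub, map_sub, ← se_c23, ← se_c23, hw, cn_comm]
    abel)
  refine ⟨y, se_inj hT n ?_⟩
  rw [map_add, ← cn_comm, hy, map_sub, map_sub, cn_dd, cn_comm, cn_comm, ← hc, se_c12, se_c12]
  abel

theorem cn_quot_iff (φ : S ⟶ T) (hS : S.ShortExact) (hT : T.ShortExact) (aS : ∀ a, Ac a S.X₂)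
    (aT : ∀ a, Ac a T.X₂) (a : ℕ) : Cn (a + 1) φ.τ₃ ↔ Cn a φ.τ₁ :=
  ⟨cn_four₁ φ hS hT ((cn_of_ac (aS a) (aT _) _).mono (by omega)),
    fun h => cn_four₃ φ hS hT h (cn_of_ac (aS a) (aT _) _)⟩

theorem ac_quot (hS : S.ShortExact) {a : ℕ} (h1 : Ac a S.X₁) (h2 : Ac (a + 1) S.X₂) :
    Ac (a + 1) S.X₃ := fun n hn z hz => by
  cases n with
  | zero =>
    obtain ⟨c, rfl⟩ := se_surj hS _ z
    obtain ⟨v, rfl⟩ := h2 0 hn c (cy_zero _)
    exact ⟨S.g.f _ v, (cn_comm _ _ _ _).symm⟩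
  | succ n =>
    obtain ⟨c, x, rfl, hx, e⟩ := se_bd hS z hz
    obtain ⟨w, rfl⟩ := h1 n (by omega) x hx
    obtain ⟨v, hv⟩ := h2 (n + 1) hn (c - S.f.f _ w) (by rw [cy_succ, map_sub, cn_comm, e, sub_self])
    exact ⟨S.g.f _ v, by rw [cn_comm, ← hv, map_sub, se_zero, sub_zero]⟩

theorem ac_mid (hS : S.ShortExact) {a : ℕ} (h1 : Ac a S.X₁) (h3 : Ac a S.X₃) : Ac a S.X₂ :=
  fun n hn c hc => by
    obtain ⟨z, hz⟩ := h3 n hn _ (hc.map S.g)
    obtain ⟨v, rfl⟩ := se_surj hS _ z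
    obtain ⟨x, hx⟩ := se_ex hS n (c - S.X₂.d (n + 1) n v) (by rw [map_sub, hz, cn_comm, sub_self])
    obtain ⟨w, rfl⟩ := h1 n hn x (se_inj hS (n - 1) (by
      rw [← cn_comm, hx, map_sub, cn_dd, hc, sub_zero, map_zero]))
    exact ⟨S.f.f _ w + v, by rw [map_add, cn_comm, hx, sub_add_cancel]⟩

theorem ac_sub (hS : S.ShortExact) {a : ℕ} (h2 : Ac a S.X₂) (h3 : Ac (a + 1) S.X₃) : Ac a S.X₁ :=
  fun n hn x hx => by
    obtain ⟨c, hc⟩ := h2 n hn _ (hx.map S.f)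
    obtain ⟨z, hz⟩ := h3 (n + 1) (by omega) (S.g.f _ c) (by rw [cy_succ, cn_comm, ← hc, se_zero])
    obtain ⟨v, rfl⟩ := se_surj hS _ z
    obtain ⟨y, hy⟩ := se_ex hS _ (c - S.X₂.d (n + 2) (n + 1) v) (by
      rw [map_sub, hz, cn_comm, sub_self])
    exact ⟨y, se_inj hS n (by rw [← cn_comm, hy, map_sub, cn_dd, sub_zero, hc])⟩

/-- The quotient map is connected when the sub term is acyclic. -/
theorem cn_g_iff (hS : S.ShortExact) (a : ℕ) : Cn (a + 1) S.g ↔ Ac a S.X₁ := by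
  constructor
  · intro h n hn x hx
    obtain ⟨c, hc⟩ := h.2 n (by omega) _ 0 (hx.map S.f) (by rw [se_zero, map_zero])
    obtain ⟨c', z, h1, h2⟩ := h.1 (n + 1) (by omega) (S.g.f _ c) (by
      rw [cy_succ, cn_comm, ← hc, se_zero])
    obtain ⟨v, rfl⟩ := se_surj hS _ z
    obtain ⟨y, hy⟩ := se_ex hS _ (c - c' - S.X₂.d (n + 2) (n + 1) v) (by
      rw [map_sub, map_sub, h2, cn_comm]; abel)
    exact ⟨y, se_inj hS n (by
      rw [← cn_comm, hy, map_sub, map_sub, cn_dd, cy_succ.1 h1, sub_zero, sub_zero, hc])⟩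
  · intro h
    refine ⟨fun n hn z hz => ?_, fun n hn c z hc e => ?_⟩
    · cases n with
      | zero =>
        obtain ⟨c, rfl⟩ := se_surj hS _ z
        exact ⟨c, 0, cy_zero _, by simp⟩
      | succ n =>
        obtain ⟨c, x, rfl, hx, e⟩ := se_bd hS z hz
        obtain ⟨w, rfl⟩ := h n (by omega) x hx
        exact ⟨c - S.f.f _ w, 0, by rw [cy_succ, map_sub, cn_comm, e, sub_self],
          by rw [map_sub, se_zero, map_zero, sub_zero, add_zero]⟩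
    · obtain ⟨v, rfl⟩ := se_surj hS _ z
      obtain ⟨x, hx⟩ := se_ex hS n (c - S.X₂.d (n + 1) n v) (by rw [map_sub, e, cn_comm, sub_self])
      obtain ⟨w, rfl⟩ := h n (by omega) x (se_inj hS (n - 1) (by
        rw [← cn_comm, hx, map_sub, cn_dd, hc, sub_zero, map_zero]))
      exact ⟨S.f.f _ w + v, by rw [map_add, cn_comm, hx, sub_add_cancel]⟩

/-- The inclusion is connected exactly when the quotient is acyclic. -/
theorem cn_f_iff (hS : S.ShortExact) (a : ℕ) : Cn a S.f ↔ Ac a S.X₃ := by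
  rw [cn_iff_cone]
  constructor
  · rintro ⟨h0, h1⟩ n hn z hz
    cases n with
    | zero =>
      obtain ⟨c, rfl⟩ := se_surj hS _ z
      obtain ⟨x, v, rfl⟩ := h0 hn c
      exact ⟨S.g.f _ v, by rw [map_add, se_zero, zero_add, cn_comm]⟩
    | succ n =>
      obtain ⟨c, x, rfl, hx, e⟩ := se_bd hS z hz
      obtain ⟨w, v, -, rfl⟩ := h1 n hn x c hx e
      exact ⟨S.g.f _ v, by rw [map_add, se_zero, zero_add, cn_comm]⟩
  · intro h
    refine ⟨fun hn c => ?_, fun n hn x c hx e => ?_⟩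
    · obtain ⟨z, hz⟩ := h 0 hn (S.g.f _ c) (cy_zero _)
      obtain ⟨v, rfl⟩ := se_surj hS _ z
      obtain ⟨x, hx⟩ := se_ex hS 0 (c - S.X₂.d 1 0 v) (by rw [map_sub, hz, cn_comm, sub_self])
      exact ⟨x, v, by rw [hx, sub_add_cancel]⟩
    · obtain ⟨z, hz⟩ := h (n + 1) hn (S.g.f _ c) (by rw [cy_succ, cn_comm, ← e, se_zero])
      obtain ⟨v, rfl⟩ := se_surj hS _ z
      obtain ⟨y, hy⟩ := se_ex hS _ (c - S.X₂.d (n + 2) (n + 1) v) (by
        rw [map_sub, hz, cn_comm, sub_self])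
      exact ⟨y, v, se_inj hS n (by rw [← cn_comm, hy, map_sub, cn_dd, sub_zero, e]),
        by rw [hy, sub_add_cancel]⟩

end Pool.Agent.Lib.MP_5d3e93_al.Br
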