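import Pool.Agent.Lib.MP_5d3e93_al.Br.Rel
import Pool.Agent.Lib.MP_5d3e93_al.Br.R1

/-! Relative chains: the exact sequence of a pair, excision, directed unions. -/

open CategoryTheory Limits Opposite Simplicial AlgebraicTopology ZeroObject

namespace Pool.Agent.Lib.MP_5d3e93_al.Br

universe u v w

/-- Short exact sequences of simplicial abelian groups, degreewise. -/
theorem relA_se (S : ShortComplex SA.{u})
    (hf : ∀ n, Function.Injective (S.f.app n)) (hg : ∀ n, Function.Surjective (S.g.app n))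
    (he : ∀ n (x : S.X₂.obj n), S.g.app n x = 0 → ∃ y, S.f.app n y = x) : S.ShortExact := by
  have J : JointlyReflectIsomorphisms fun n : SimplexCategoryᵒᵖ =>
      (evaluation _ (ModuleCat.{u} ℤ)).obj n :=
    ⟨fun f h => have : ∀ n, IsIso (f.app n) := h; NatIso.isIso_of_isIso_app f⟩
  exact (J.shortExact_iff S).2 fun n =>
    { exact := (ShortComplex.moduleCat_exact_iff _).2 (he n)
      mono_f := (ModuleCat.mono_iff_injective _).2 (hf n)
      epi_g := (ModuleCat.epi_iff_surjective _).2 (hg n) }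

/-- The classes of elements generate. -/
theorem relA_ind (p : PT.{u}) (S : AddSubgroup (PT.fr.obj p)) (h : ∀ x, p.cl x ∈ S)
    (y : PT.fr.obj p) : y ∈ S := by
  obtain ⟨z, rfl⟩ := (Finsupp.supported ℤ ℤ p.A).mkQ_surjective y
  induction z using Finsupp.induction_linear with
  | zero => exact (map_zero (Finsupp.supported ℤ ℤ p.A).mkQ).symm ▸ S.zero_mem
  | add f g a b => exact (map_add (Finsupp.supported ℤ ℤ p.A).mkQ f g).symm ▸ S.add_mem a b
  | single x m =>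
    rw [show Finsupp.single x m = m • Finsupp.single x (1 : ℤ) by simp, map_zsmul]
    exact S.zsmul_mem (h x) m

theorem relA_left {p q : PT.{u}} (f : p ⟶ q) (h : Set.InjOn f.1 p.Aᶜ)
    (k : ∀ x, f.1 x ∈ q.A → x ∈ p.A) : ∃ r, PT.fr.map f ≫ r = 𝟙 _ := by
  classical
  refine ⟨q.desc (fun y => if c : ∃ x, x ∉ p.A ∧ f.1 x = y then p.cl c.choose else 0)
    fun y b => dif_neg fun ⟨x, c, e⟩ => c (k x (e ▸ b)), PT.fr_ext fun x => ?_⟩
  rw [ConcreteCategory.comp_apply, PT.map_cl]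
  by_cases b : x ∈ p.A
  · rw [q.cl_zero (f.2 b), p.cl_zero b, map_zero, map_zero]
  · have c : ∃ x', x' ∉ p.A ∧ f.1 x' = f.1 x := ⟨x, b, rfl⟩
    rw [PT.desc_cl, dif_pos c, h c.choose_spec.1 b c.choose_spec.2]
    rfl

section RelA
variable {a : ℕ} {P Q : SP.{u}}

/-- The inclusion of the simplicial subset. -/
def SP.ι (P : SP.{u}) : SP.sub.obj P ⟶ SP.tot.obj P where
  app _ := TypeCat.ofHom Subtype.val
  naturality := fun _ _ _ => rfl

/-- The projection to the relative group. -/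
noncomputable def SP.π (P : SP.{u}) : ZF.obj (SP.tot.obj P) ⟶ RF.obj P where
  app _ := ModuleCat.ofHom (Submodule.mkQ _)
  naturality := fun _ _ _ => rfl

theorem relA_rg (p : PT.{u}) (z : p.X →₀ ℤ) : z ∈ Finsupp.supported ℤ ℤ p.A ↔
    ∃ y : p.A →₀ ℤ, Finsupp.mapDomain Subtype.val y = z := by
  have := Finsupp.lmapDomain_supported ℤ ℤ (Subtype.val : p.A → p.X) Set.univ
  rw [Set.image_univ, Subtype.range_coe, Finsupp.supported_univ, Submodule.map_top] at this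
  rw [← this]
  rfl

theorem SP.ι_π (P : SP.{u}) : ZF.map P.ι ≫ P.π = 0 :=
  NatTrans.ext (funext fun n => ModuleCat.hom_ext (LinearMap.ext fun y =>
    (Submodule.Quotient.mk_eq_zero _).2 ((relA_rg (P.obj n) _).2 ⟨y, rfl⟩)))

theorem SP.se (P : SP.{u}) : (ShortComplex.mk _ _ P.ι_π).ShortExact :=
  relA_se _ (fun _ => Finsupp.mapDomain_injective Subtype.val_injective)
    (fun _ => Submodule.mkQ_surjective _) fun n x h =>
      (relA_rg (P.obj n) x).1 ((Submodule.Quotient.mk_eq_zero _).1 h)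

theorem SP.π_nat (f : P ⟶ Q) : ZF.map (SP.tot.map f) ≫ Q.π = P.π ≫ RF.map f := rfl

/-- The map of exact sequences. -/
noncomputable def relA_map (f : P ⟶ Q) :
    (ShortComplex.mk _ _ P.ι_π).map CC ⟶ (ShortComplex.mk _ _ Q.ι_π).map CC :=
  CC.mapShortComplex.map
    { τ₁ := ZF.map (SP.sub.map f)
      τ₂ := ZF.map (SP.tot.map f)
      τ₃ := RF.map f
      comm₁₂ := (ZF.map_comp _ _).symm.trans (ZF.map_comp P.ι (SP.tot.map f))
      comm₂₃ := SP.π_nat f }

theorem cn_rel (f : P ⟶ Q) (h : Cn a (ZC.map (SP.sub.map f)))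
    (k : Cn (a + 1) (ZC.map (SP.tot.map f))) : Cn (a + 1) (RC.map f) :=
  cn_four₃ (relA_map f) (sa_shortExact P.se) (sa_shortExact Q.se) h k

theorem cn_abs (f : P ⟶ Q) (h : Cn a (ZC.map (SP.sub.map f))) (k : Cn a (RC.map f)) :
    Cn a (ZC.map (SP.tot.map f)) :=
  cn_four₂ (relA_map f) (sa_shortExact P.se) (sa_shortExact Q.se) h k

theorem cn_rel_iff (f : P ⟶ Q) (h : ∀ b, Cn b (ZC.map (SP.sub.map f))) :
    Cn a (RC.map f) ↔ Cn a (ZC.map (SP.tot.map f)) := by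
  refine ⟨cn_abs f (h a), fun k => ?_⟩
  cases a with
  | zero => exact cn_zero _
  | succ a => exact cn_rel f (h a) k

/-- Pointed pairs. -/
theorem cn_pt_iff (f : P ⟶ Q) (h : ∀ n, ∃ x, (P.obj n).A = {x}) (k : ∀ n, ∃ x, (Q.obj n).A = {x}) :
    Cn a (RC.map f) ↔ Cn a (ZC.map (SP.tot.map f)) := by
  have : ∀ n, IsIso ((SP.sub.map f).app n) := fun n => by
    obtain ⟨x, e⟩ := h n
    obtain ⟨y, e'⟩ := k n
    have i (s t : (P.obj n).A) : s = t := Subtype.ext ((e.le s.2).trans (e.le t.2).symm)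
    have i' (s t : (Q.obj n).A) : s = t := Subtype.ext ((e'.le s.2).trans (e'.le t.2).symm)
    exact (isIso_iff_bijective _).2 ⟨fun s t _ => i s t, fun t => ⟨⟨x, e.ge rfl⟩, i' _ _⟩⟩
  have := NatIso.isIso_of_isIso_app (SP.sub.map f)
  exact cn_rel_iff f fun b => cn_iso b _

/-- Excision. -/
theorem PT.iso_fr {p q : PT.{u}} (f : p ⟶ q) (h : Set.BijOn f.1 p.Aᶜ q.Aᶜ) : IsIso (PT.fr.map f) :=
  by
  obtain ⟨r, e⟩ := relA_left f h.injOn fun x b => not_not.1 fun c => h.mapsTo c b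
  refine ⟨r, e, PT.fr_ext fun y => ?_⟩
  by_cases b : y ∈ q.A
  · rw [q.cl_zero b, map_zero, map_zero]
  · obtain ⟨x, -, rfl⟩ := h.surjOn b
    rw [← PT.map_cl, ← ConcreteCategory.comp_apply, ← Category.assoc, e, Category.id_comp]
    rfl

theorem rf_iso (f : P ⟶ Q) (h : ∀ n, Set.BijOn (f.app n).1 (P.obj n).Aᶜ (Q.obj n).Aᶜ) :
    IsIso (RF.map f) :=
  have : ∀ n, IsIso ((RF.map f).app n) := fun n => PT.iso_fr _ (h n)
  NatIso.isIso_of_isIso_app _

theorem rf_zero (f : P ⟶ Q) (h : ∀ n x, (f.app n).1 x ∈ (Q.obj n).A) : RF.map f = 0 :=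
  NatTrans.ext (funext fun n => PT.fr_ext fun x =>
    (PT.map_cl (f.app n) x).trans (PT.cl_zero _ (h n x)))

theorem rf_isZero (h : ∀ n x, x ∈ (P.obj n).A) : IsZero (RF.obj P) :=
  (IsZero.iff_id_eq_zero _).2 ((RF.map_id P).symm.trans (rf_zero (𝟙 P) h))

theorem relA_mono {p p' q : PT.{u}} (f : p ⟶ q) (g : p' ⟶ q) (h : Set.range f.1 ⊆ Set.range g.1)
    (x : PT.fr.obj p) : ∃ x', PT.fr.map g x' = PT.fr.map f x :=
  relA_ind p ((PT.fr.map g).hom.toAddMonoidHom.range.comap (PT.fr.map f).hom.toAddMonoidHom)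
    (fun x => (h ⟨x, rfl⟩).elim fun x' e =>
      ⟨p'.cl x', (PT.map_cl g x').trans (e ▸ (PT.map_cl f x).symm)⟩) x

/-- Directed unions: every finite set of simplices of the target comes from a stage. -/
theorem ac_union {ι : Type w} [Nonempty ι] [Preorder ι] [IsDirectedOrder ι] (T : ι → SP.{u})
    (j : ∀ i, T i ⟶ P) (hm : ∀ i k, i ≤ k → ∀ n, Set.range ((j i).app n).1 ⊆ Set.range ((j k).app n).1)
    (hs : ∀ n x, ∃ i, x ∈ Set.range ((j i).app n).1)
    (hi : ∀ i n, Set.InjOn ((j i).app n).1 ((T i).obj n).Aᶜ)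
    (ha : ∀ i n x, ((j i).app n).1 x ∈ (P.obj n).A → x ∈ ((T i).obj n).A)
    (h : ∀ i, Ac a (RC.obj (T i))) : Ac a (RC.obj P) := by
  intro n c y e
  obtain ⟨i, x, rfl⟩ : ∃ i x, (RC.map (j i)).f n x = y := relA_ind (P.obj (op ⦋n⦌))
    { carrier := {y | ∃ i x, PT.fr.map ((j i).app (op ⦋n⦌)) x = y}
      zero_mem' := ⟨Classical.arbitrary ι, 0, map_zero _⟩
      neg_mem' := fun ⟨i, x, e⟩ => ⟨i, -x, by rw [map_neg, e]⟩
      add_mem' := fun ⟨i, x, e⟩ ⟨k, x', e'⟩ => by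
        obtain ⟨l, l1, l2⟩ := exists_ge_ge i k
        obtain ⟨s, s1⟩ := relA_mono _ _ (hm i l l1 _) x
        obtain ⟨t, t1⟩ := relA_mono _ _ (hm k l l2 _) x'
        exact ⟨l, s + t, by rw [map_add, s1, t1, e, e']⟩ }
    (fun x => (hs _ x).elim fun i ⟨x', e⟩ => ⟨i, PT.cl _ x', (PT.map_cl _ x').trans (e ▸ rfl)⟩) y
  have inj (m : ℕ) : Function.Injective ((RC.map (j i)).f m) := by
    obtain ⟨r, e⟩ := relA_left ((j i).app (op ⦋m⦌)) (hi i _) (ha i _)
    exact Function.LeftInverse.injective (g := r) fun x => ConcreteCategory.congr_hom e x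
  obtain ⟨z, rfl⟩ := h i n c x (inj _ ((cn_comm _ _ _ x).symm.trans (e.trans (map_zero _).symm)))
  exact ⟨_, (cn_comm _ _ _ z).symm⟩

end RelA

end Pool.Agent.Lib.MP_5d3e93_al.Br
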