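import Pool.Agent.Lib.MP_5d3e93_al.Br.SPr
import Pool.Agent.Lib.MP_5d3e93_al.Br.RelA
import Pool.Agent.Lib.MP_5d3e93_al.Br.FourH

/-! Collapsing the subobject of a simplicial pair. -/

open CategoryTheory Function Set Opposite Simplicial

namespace Pool.Agent.Lib.MP_5d3e93_al.Br

universe u

variable {P Q : SP.{u}} {X Y Z : SSet.{u}} {x : X _⦋0⦌} {y : Y _⦋0⦌} {z : Z _⦋0⦌} {a : ℕ}

/-- The degenerate simplices on a vertex. -/
def bp (x : X _⦋0⦌) (n : SimplexCategoryᵒᵖ) : X.obj n :=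
  X.map (SimplexCategory.const n.unop ⦋0⦌ 0).op x

theorem bp_map (x : X _⦋0⦌) {n m} (θ : n ⟶ m) : X.map θ (bp x n) = bp x m :=
  (Functor.map_comp_apply X _ θ x).symm.trans
    (congrArg (fun g => X.map g x) (Quiver.Hom.unop_inj (SimplexCategory.eq_const_to_zero _)))

theorem bp_app {f : X ⟶ Y} (h : f.app _ x = y) (n) : f.app n (bp x n) = bp y n :=
  (NatTrans.naturality_apply f _ x).trans (congrArg _ h)

theorem const_bp (y : Y _⦋0⦌) (n) (w : X.obj n) : (SSet.const y : X ⟶ Y).app n w = bp y n := rfl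

/-- A pointed simplicial set as a pair. -/
def ptP (X : SSet.{u}) (x : X _⦋0⦌) : SP.{u} :=
  SP.mk X (fun n => {bp x n}) fun θ _ e => e ▸ bp_map x θ

/-- The map `π` collapses the subobject to the base point. -/
structure Cp (P : SP.{u}) {X : SSet.{u}} (x : X _⦋0⦌) (π : SP.tot.obj P ⟶ X) : Prop where
  base : ∀ n w, π.app n w = bp x n ↔ w ∈ (P.obj n).A
  inj : ∀ n w w', π.app n w = π.app n w' → w = w' ∨ w ∈ (P.obj n).A
  surj : ∀ n w, w = bp x n ∨ w ∈ range (π.app n)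

variable {π : SP.tot.obj P ⟶ X} {ρ : SP.tot.obj Q ⟶ Y}

/-- The collapse as a map of pairs. -/
def Cp.hom (h : Cp P x π) : P ⟶ ptP X x := SP.hom π fun n w k => (h.base n w).2 k

theorem Cp.iso (h : Cp P x π) : IsIso (RC.map h.hom) := by
  have := rf_iso h.hom fun n => ⟨fun w k e => k ((h.base n w).1 e),
    fun w k w' _ e => (h.inj n w w' e).resolve_right k, fun w k => by
      obtain ⟨w, rfl⟩ := (h.surj n w).resolve_left k
      exact ⟨w, fun e => k ((h.base n w).2 e), rfl⟩⟩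
  exact inferInstanceAs (IsIso (CC.map (RF.map h.hom)))

theorem cp_pt (x : X _⦋0⦌) : Cp (ptP X x) x (𝟙 X) :=
  ⟨fun _ _ => Iff.rfl, fun _ _ _ e => .inl e, fun _ w => .inr ⟨w, rfl⟩⟩

theorem Cp.cn (h : Cp P x π) (k : Cp Q y ρ) (f : P ⟶ Q) {g : X ⟶ Y} (b : g.app _ x = y)
    (e : SP.tot.map f ≫ ρ = π ≫ g) : Cn a (RC.map f) ↔ Cn a (ZC.map g) := by
  let g' : ptP X x ⟶ ptP Y y := SP.hom g fun n _ e => e ▸ bp_app b n
  have s : RC.map f ≫ RC.map k.hom = RC.map h.hom ≫ RC.map g' := by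
    rw [← RC.map_comp, ← RC.map_comp]
    exact congrArg RC.map (NatTrans.ext (funext fun n => PT.hom_ext fun w =>
      congrArg (fun φ : _ ⟶ Y => φ.app n w) e))
  have := h.iso
  have := k.iso
  refine Iff.trans ⟨fun c => ?_, fun c => ?_⟩
    (cn_pt_iff g' (fun _ => ⟨_, rfl⟩) fun _ => ⟨_, rfl⟩)
  · rw [(IsIso.inv_comp_eq _).2 s |>.symm]
    exact (cn_iso _ _).comp (c.comp (cn_iso _ _))
  · rw [(IsIso.eq_comp_inv _).2 s]
    exact ((cn_iso _ _).comp c).comp (cn_iso _ _)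

theorem Cp.ac (h : Cp P x π) : Ac a (RC.obj P) ↔ Cn a (ZC.map (SSet.const x : Δ[0] ⟶ X)) := by
  let o : (Δ[0] : SSet.{u}) _⦋0⦌ := SSet.stdSimplex.obj₀Equiv.symm 0
  let g : ptP Δ[0] o ⟶ ptP X x := SP.hom (SSet.const x) fun n _ _ => rfl
  have z : Limits.IsZero (RC.obj (ptP Δ[0] o)) :=
    CC.map_isZero (rf_isZero fun n w => SSet.stdSimplex.objEquiv.injective
      ((SimplexCategory.eq_const_to_zero _).trans (SimplexCategory.eq_const_to_zero _).symm))
  have z' (b) : Ac b (RC.obj (ptP Δ[0] o)) := .of_hq (.of_eq (z.eq_of_src _ _)) b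
  have := h.iso
  refine Iff.trans ⟨fun c => ?_, fun c => ?_⟩ (cn_pt_iff g (fun _ => ⟨_, rfl⟩) fun _ => ⟨_, rfl⟩)
  · cases a with
    | zero => exact cn_zero _
    | succ a => exact cn_of_ac (z' a) (c.of_cn (cn_iso _ (RC.map h.hom))) _
  · exact ((z' a).of_cn c).of_cn (cn_iso a (inv (RC.map h.hom)))

/-- Collapsing twice. -/
theorem Cp.sq (h : Cp P x π) {i : Z ⟶ X} (hi : i.app _ z = x) (B : ∀ n, Set (P.obj n).X) (hB)
    (e : ∀ n w, π.app n w ∈ range (i.app n) ↔ w ∈ B n) :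
    Cp (SP.mk (SP.tot.obj P) B hB) ((sqk i).app _ x) (π ≫ sqk i) := by
  have q (n) (a b : X.obj n) : (sqk i).app n a = (sqk i).app n b ↔
      a = b ∨ a ∈ range (i.app n) ∧ b ∈ range (i.app n) := by
    refine ⟨fun k => ?_, fun k => k.elim (congrArg _) fun k => Quot.sound k⟩
    induction Quot.eqvGen_exact k with
    | rel _ _ h => exact .inr h
    | refl => exact .inl rfl
    | symm _ _ h ih => exact (ih (Quot.eqvGen_sound h)).imp .symm .symm
    | trans _ _ _ h l ih ih' =>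
      obtain rfl | a := ih (Quot.eqvGen_sound h)
      · exact ih' (Quot.eqvGen_sound l)
      · exact .inr ⟨a.1, (ih' (Quot.eqvGen_sound l)).elim (· ▸ a.2) (·.2)⟩
  have b (n) : bp x n ∈ range (i.app n) := ⟨_, bp_app hi n⟩
  refine ⟨fun n w => ?_, fun n w w' k => ?_, fun n w => ?_⟩
  · rw [← bp_app rfl]
    exact (q n _ _).trans (Iff.trans ⟨fun k => k.elim (fun k => k ▸ b n) (·.1),
      fun k => .inr ⟨k, b n⟩⟩ (e n w))
  · obtain k | k := (q n _ _).1 k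
    · exact (h.inj n w w' k).imp_right fun k => (e n w).1 (((h.base n w).2 k).symm ▸ b n)
    · exact .inr ((e n w).1 k.1)
  · obtain ⟨w⟩ := w
    obtain rfl | ⟨w, rfl⟩ := h.surj n w
    exacts [.inl (bp_app (f := sqk i) rfl n), .inr ⟨w, rfl⟩]

/-- The hypothesis of the fibre sequence theorem from relative chains. -/
theorem Cp.sqm (h : Cp P x π) (k : Cp Q y ρ) {i : Z ⟶ X} (hi : i.app _ z = x) {q : X ⟶ Y}
    (hq : q.app _ x = y) (o : i ≫ q = SSet.const y) (B : ∀ n, Set (P.obj n).X) (hB)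
    (e : ∀ n w, π.app n w ∈ range (i.app n) ↔ w ∈ B n) (f : SP.mk (SP.tot.obj P) B hB ⟶ Q)
    (c : SP.tot.map f ≫ ρ = π ≫ q) : Cn a (RC.map f) ↔ Cn a (ZC.map (sqm i q y o)) :=
  (h.sq hi B hB e).cn k f hq c

end Pool.Agent.Lib.MP_5d3e93_al.Br
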