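import Pool.Agent.Lib.MP_5d3e93_al.Br.Nf

/-! Compact subsets of a geometric realisation meet finitely many open cells. -/

open CategoryTheory Simplicial Opposite Topology

namespace Pool.Agent.Lib.MP_5d3e93_al.Br

universe u

variable {X Y : SSet.{u}} {n m : ℕ}

/-- The nondegenerate simplex whose open cell contains the point. -/
noncomputable def cell (p : Rl X) : X.N :=
  SSet.N.mk _ (nf_ex p).choose_spec.choose_spec.choose_spec.1

theorem cell_spec (p : Rl X) :
    ∃ t : Sx (cell p).dim, (∀ i, 0 < t i) ∧ ch (cell p).simplex t = p :=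
  ⟨_, (nf_ex p).choose_spec.choose_spec.choose_spec.2⟩

theorem cell_ch {x : X _⦋n⦌} (hx : x ∈ X.nonDegenerate n) {t : Sx n} (ht : ∀ i, 0 < t i) :
    cell (ch x t) = SSet.N.mk x hx := by
  obtain ⟨s, hs, e⟩ := cell_spec (ch x t)
  generalize cell (ch x t) = c at s hs e
  obtain ⟨k, ⟨y, hy⟩, rfl⟩ := c.mk_surjective
  cases nf_uniq hy hx hs ht e
  rfl

theorem mem_rm_iff (A : X.Subcomplex) (p : Rl X) :
    p ∈ Set.range (rm A.ι) ↔ (cell p).simplex ∈ A.obj (op ⦋(cell p).dim⦌) := by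
  obtain ⟨t, ht, e⟩ := cell_spec p
  conv_lhs => rw [← e]
  exact mem_range_sub A ht

theorem mem_rm_iff' (f : X ⟶ Y) (p : Rl Y) :
    p ∈ Set.range (rm f) ↔ (cell p).simplex ∈ Set.range (f.app (op ⦋(cell p).dim⦌)) := by
  obtain ⟨t, ht, e⟩ := cell_spec p
  conv_lhs => rw [← e]
  exact mem_range_rm f ht

theorem ch_mem (A : X.Subcomplex) {x : X _⦋n⦌} (hx : x ∈ A.obj (op ⦋n⦌)) (t : Sx n) :
    ch x t ∈ Set.range (rm A.ι) :=
  ⟨ch (X := A) ⟨x, hx⟩ t, ch_map A.ι _ t⟩

theorem range_rm_range (f : X ⟶ Y) :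
    Set.range (rm (SSet.Subcomplex.range f).ι) = Set.range (rm f) :=
  Set.ext fun p => (mem_rm_iff _ p).trans (mem_rm_iff' f p).symm

theorem range_rm_mono {A B : X.Subcomplex} (h : A ≤ B) :
    Set.range (rm A.ι) ⊆ Set.range (rm B.ι) :=
  fun p hp => (mem_rm_iff B p).2 (h _ ((mem_rm_iff A p).1 hp))

theorem range_rm_sup (A B : X.Subcomplex) :
    Set.range (rm (A ⊔ B).ι) = Set.range (rm A.ι) ∪ Set.range (rm B.ι) :=
  Set.ext fun p => by simp only [Set.mem_union, mem_rm_iff]; rfl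

theorem range_rm_inf (A B : X.Subcomplex) :
    Set.range (rm (A ⊓ B).ι) = Set.range (rm A.ι) ∩ Set.range (rm B.ι) :=
  Set.ext fun p => by simp only [Set.mem_inter_iff, mem_rm_iff]; rfl

theorem range_rm_iSup {ι : Sort*} (A : ι → X.Subcomplex) :
    Set.range (rm (⨆ i, A i).ι) = ⋃ i, Set.range (rm (A i).ι) :=
  Set.ext fun p => by simp only [Set.mem_iUnion, mem_rm_iff, Subfunctor.iSup_obj]

theorem range_rm_top : Set.range (rm (⊤ : X.Subcomplex).ι) = Set.univ :=
  Set.eq_univ_of_forall fun p => (mem_rm_iff _ p).2 trivial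

theorem range_rm_bot : Set.range (rm (⊥ : X.Subcomplex).ι) = ∅ :=
  Set.eq_empty_of_forall_notMem fun p h => (mem_rm_iff _ p).1 h

theorem range_rm_preimage (f : X ⟶ Y) (B : Y.Subcomplex) :
    Set.range (rm (B.preimage f).ι) = rm f ⁻¹' Set.range (rm B.ι) :=
  Set.ext fun p => by
    obtain ⟨k, x, t, -, ht, rfl⟩ := nf_ex p
    rw [Set.mem_preimage, ch_map, mem_range_sub _ ht, mem_range_sub _ ht]
    rfl

theorem mem_sk_iff (d : ℕ) (p : Rl X) :
    p ∈ Set.range (rm (X.skeleton d).ι) ↔ (cell p).dim < d :=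
  (mem_rm_iff _ p).trans
    (X.mem_skeleton_obj_iff_of_nonDegenerate ⟨_, (cell p).nonDegenerate⟩ d)

theorem cells_fin (A : X.Subcomplex) [SSet.Finite A] :
    (Set.ofPred fun s : X.N => s.simplex ∈ A.obj (op ⦋s.dim⦌)).Finite := by
  refine (Set.finite_range fun a : (A : SSet.{u}).N =>
    SSet.N.mk a.simplex.1 ((A.mem_nonDegenerate_iff _).1 a.nonDegenerate)).subset fun s hs => ?_
  exact ⟨SSet.N.mk (X := A) ⟨s.simplex, hs⟩ ((A.mem_nonDegenerate_iff _).2 s.nonDegenerate), rfl⟩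

theorem cell_ch_fin (x : X _⦋n⦌) : (cell '' Set.range (ch x)).Finite := by
  refine (cells_fin (SSet.Subcomplex.ofSimplex x)).subset ?_
  rintro _ ⟨_, ⟨t, rfl⟩, rfl⟩
  exact (mem_rm_iff _ _).1 (ch_mem _ (SSet.Subcomplex.mem_ofSimplex_obj x) t)

/-- A set with at most one point in every open cell is closed. -/
theorem isClosed_of_injOn {S : Set (Rl X)} (h : Set.InjOn cell S) : IsClosed S := by
  refine rl_isClosed.2 fun n x => ?_
  have : (S ∩ Set.range (ch x)).Finite := Set.Finite.of_finite_image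
    ((cell_ch_fin x).subset (Set.image_mono Set.inter_subset_right))
    (h.mono Set.inter_subset_left)
  rw [← Set.preimage_inter_range]
  exact this.isClosed.preimage (ch x).continuous

/-- A compact set meets finitely many open cells. -/
theorem cpt_cells {K : Set (Rl X)} (hK : IsCompact K) : (cell '' K).Finite := by
  obtain ⟨S, hS, b⟩ := (Set.surjOn_image cell K).exists_bijOn_subset
  rw [← b.image_eq]
  refine ((hK.of_isClosed_subset (isClosed_of_injOn b.injOn) hS).finite ?_).image _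
  exact isDiscrete_iff_forall_mem_exists_isClosed.2 fun T hT =>
    ⟨T, isClosed_of_injOn (b.injOn.mono hT), Set.inter_eq_left.2 hT⟩

theorem cpt_sub {K : Set (Rl X)} (hK : IsCompact K) :
    ∃ A : X.Subcomplex, SSet.Finite A ∧ K ⊆ Set.range (rm A.ι) := by
  have := (cpt_cells hK).to_subtype
  refine ⟨⨆ s : cell '' K, SSet.Subcomplex.ofSimplex s.1.simplex,
    (SSet.finite_iSup_iff _).2 fun _ => inferInstance, fun p hp => ?_⟩
  exact range_rm_mono (le_iSup _ ⟨cell p, p, hp, rfl⟩)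
    ((mem_rm_iff _ p).2 (SSet.Subcomplex.mem_ofSimplex_obj _))

/-- A compact subset of a directed union of subcomplexes lies in one of them. -/
theorem cpt_dir {ι : Type*} [Nonempty ι] {A : ι → X.Subcomplex} (hA : Directed (· ≤ ·) A)
    {K : Set (Rl X)} (hK : IsCompact K) (h : K ⊆ Set.range (rm (⨆ i, A i).ι)) :
    ∃ i, K ⊆ Set.range (rm (A i).ι) := by
  rw [range_rm_iSup] at h
  have c : ∀ s : cell '' K, ∃ i, s.1.simplex ∈ (A i).obj (op ⦋s.1.dim⦌) := by
    rintro ⟨_, p, hp, rfl⟩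
    obtain ⟨i, hi⟩ := Set.mem_iUnion.1 (h hp)
    exact ⟨i, (mem_rm_iff _ p).1 hi⟩
  choose c hc using c
  have := (cpt_cells hK).to_subtype
  obtain ⟨i, hi⟩ := hA.finite_le c
  exact ⟨i, fun p hp => (mem_rm_iff _ p).2 (hi ⟨cell p, p, hp, rfl⟩ _ (hc _))⟩

theorem cpt_seq {A : ℕ → X.Subcomplex} (hA : Monotone A) (e : ⨆ i, A i = ⊤)
    {K : Set (Rl X)} (hK : IsCompact K) : ∃ i, K ⊆ Set.range (rm (A i).ι) :=
  cpt_dir hA.directed_le hK (by rw [e, range_rm_top]; exact Set.subset_univ _)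

theorem cpt_sk {K : Set (Rl X)} (hK : IsCompact K) :
    ∃ d, K ⊆ Set.range (rm (X.skeleton d).ι) :=
  cpt_seq X.skeleton.monotone X.iSup_skeleton hK

theorem cpt_skm (i : X ⟶ Y) {K : Set (Rl Y)} (hK : IsCompact K) :
    ∃ d, K ⊆ Set.range (rm (SSet.skeletonOfMono i d).ι) :=
  cpt_seq (SSet.skeletonOfMono i).monotone (SSet.iSup_skeletonOfMono i) hK

instance rl_compact [X.Finite] : CompactSpace (Rl X) := by
  refine ⟨?_⟩
  have : (Set.univ : Set (Rl X)) = ⋃ s : X.N, Set.range (ch s.simplex) :=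
    (Set.eq_univ_of_forall fun p => by
      obtain ⟨t, -, e⟩ := cell_spec p
      exact Set.mem_iUnion.2 ⟨cell p, t, e⟩).symm
  rw [this]
  exact isCompact_iUnion fun s => isCompact_range (ch s.simplex).continuous

/-- A map into the realisation of a subobject lifts. -/
theorem rm_lift {T : Type*} [TopologicalSpace T] (i : X ⟶ Y) [Mono i] (f : C(T, Rl Y))
    (h : ∀ t, f t ∈ Set.range (rm i)) : ∃ g : C(T, Rl X), ∀ t, rm i (g t) = f t := by
  choose g hg using h
  exact ⟨⟨g, (rm_cemb i).isInducing.continuous_iff.2 (f.continuous.congr fun t => (hg t).symm)⟩,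
    hg⟩

/-- A map from a compact space factors through a stage of an exhaustion by subcomplexes. -/
theorem cpt_lift {T : Type*} [TopologicalSpace T] [CompactSpace T] {A : ℕ → X.Subcomplex}
    (hA : Monotone A) (e : ⨆ i, A i = ⊤) (f : C(T, Rl X)) :
    ∃ (i : ℕ) (g : C(T, Rl (A i))), ∀ t, rm (A i).ι (g t) = f t := by
  obtain ⟨i, hi⟩ := cpt_seq hA e (isCompact_range f.continuous)
  exact ⟨i, rm_lift _ f fun t => hi ⟨t, rfl⟩⟩

theorem cpt_lift_fin {T : Type*} [TopologicalSpace T] [CompactSpace T] (f : C(T, Rl X)) :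
    ∃ (A : X.Subcomplex) (_ : SSet.Finite A) (g : C(T, Rl A)), ∀ t, rm A.ι (g t) = f t := by
  obtain ⟨A, hA, h⟩ := cpt_sub (isCompact_range f.continuous)
  exact ⟨A, hA, rm_lift _ f fun t => h ⟨t, rfl⟩⟩

end Pool.Agent.Lib.MP_5d3e93_al.Br
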