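import Pool.Agent.Lib.MP_5d3e93_al.PrS

/-! Bounded control over the lattice points of the cone on a set. -/

open CategoryTheory Limits

namespace Pool.Agent.Lib.MP_5d3e93_al.Br

universe w w' v u v' u' v'' u''

/-- Locally finite families over the lattice points of a finite face. -/
structure Ct (S : Type w') (C : Type u) where
  σ : Set S
  hσ : σ.Finite
  ι : Type
  B : ι → C
  π : ι → S → ℕ
  sup : ∀ i s, s ∉ σ → π i s = 0
  fin : ∀ r, {i | ∀ s, π i s ≤ r}.Finite

namespace Ct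

variable {S : Type w'} {C : Type u} {X Y Z : Ct S C}

/-- Points at distance at most `r`. -/
def Nr (r : ℕ) (x y : S → ℕ) : Prop := ∀ s, x s ≤ y s + r ∧ y s ≤ x s + r

theorem Nr.mono {r r' : ℕ} {x y : S → ℕ} (h : Nr r x y) (k : r ≤ r') : Nr r' x y := fun s => by
  have := h s
  omega

theorem Nr.trans {r r' : ℕ} {x y z : S → ℕ} (h : Nr r x y) (k : Nr r' y z) : Nr (r + r') x z :=
  fun s => by
    have := h s
    have := k s
    omega

theorem Nr.symm {r : ℕ} {x y : S → ℕ} (h : Nr r x y) : Nr r y x := fun s => (h s).symm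

theorem Nr.refl (r : ℕ) (x : S → ℕ) : Nr r x x := fun s => by omega

theorem bdd (X : Ct S C) (i : X.ι) : ∃ m, ∀ s, X.π i s ≤ m := by
  obtain ⟨m, h⟩ := (X.hσ.image (X.π i)).bddAbove
  exact ⟨m, fun s => by
    by_cases k : s ∈ X.σ
    exacts [h ⟨s, k, rfl⟩, (X.sup i s k).le.trans (Nat.zero_le m)]⟩

variable [Category.{v} C] [Preadditive C]

variable (X Y) in
/-- Bounded matrices. -/
@[ext] structure Mor where
  e : ∀ i j, X.B i ⟶ Y.B j
  ctl : ∃ r, ∀ i j, e i j ≠ 0 → Nr r (X.π i) (Y.π j)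

theorem row (φ : Mor X Y) (i : X.ι) : ∃ J : Finset Y.ι, ∀ j ∉ J, φ.e i j = 0 := by
  obtain ⟨r, a⟩ := φ.ctl
  obtain ⟨m, b⟩ := X.bdd i
  exact ⟨(Y.fin (m + r)).toFinset, fun j c => by_contra fun d =>
    c (by simpa using fun s => (a i j d s).2.trans (Nat.add_le_add_right (b s) r))⟩

theorem col (φ : Mor X Y) (j : Y.ι) : ∃ J : Finset X.ι, ∀ i ∉ J, φ.e i j = 0 := by
  obtain ⟨r, a⟩ := φ.ctl
  obtain ⟨m, b⟩ := Y.bdd j
  exact ⟨(X.fin (m + r)).toFinset, fun i c => by_contra fun d =>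
    c (by simpa using fun s => (a i j d s).1.trans (Nat.add_le_add_right (b s) r))⟩

theorem ex_ne {ι : Type} {A D : C} {B : ι → C} {a : ∀ j, A ⟶ B j} {b : ∀ j, B j ⟶ D}
    (h : ∑ᶠ j, a j ≫ b j ≠ 0) : ∃ j, a j ≠ 0 ∧ b j ≠ 0 :=
  by_contra fun k => h (finsum_eq_zero_of_forall_eq_zero fun j => by_contra fun c =>
    k ⟨j, fun e => c (by simp [e]), fun e => c (by simp [e])⟩)

namespace Mor

open Classical in
variable (X) in
/-- The identity matrix. -/
noncomputable def id : Mor X X :=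
  ⟨fun i j => if h : i = j then eqToHom (congrArg X.B h) else 0,
    0, fun i j a => by
      obtain rfl : i = j := by_contra fun b => a (dif_neg b)
      exact .refl _ _⟩

/-- The product of matrices. -/
noncomputable def comp (φ : Mor X Y) (ψ : Mor Y Z) : Mor X Z :=
  ⟨fun i l => ∑ᶠ j, φ.e i j ≫ ψ.e j l, φ.ctl.elim fun r a => ψ.ctl.elim fun s b =>
    ⟨r + s, fun i l c => (ex_ne c).elim fun j d => (a i j d.1).trans (b j l d.2)⟩⟩

instance : Add (Mor X Y) := ⟨fun φ ψ => ⟨fun i j => φ.e i j + ψ.e i j,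
  φ.ctl.elim fun r a => ψ.ctl.elim fun s b => ⟨r + s, fun i j c => by
    by_cases d : φ.e i j = 0
    exacts [(b i j (by simpa [d] using c)).mono (by omega), (a i j d).mono (by omega)]⟩⟩⟩

instance : Zero (Mor X Y) := ⟨⟨fun _ _ => 0, 0, by simp⟩⟩

instance : Neg (Mor X Y) := ⟨fun φ => ⟨fun i j => -φ.e i j, by simpa using φ.ctl⟩⟩

instance : AddCommGroup (Mor X Y) where
  add_assoc _ _ _ := Mor.ext (funext₂ fun _ _ => add_assoc ..)
  zero_add _ := Mor.ext (funext₂ fun _ _ => zero_add _)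
  add_zero _ := Mor.ext (funext₂ fun _ _ => add_zero _)
  nsmul := nsmulRec
  zsmul := zsmulRec
  neg_add_cancel _ := Mor.ext (funext₂ fun _ _ => neg_add_cancel _)
  add_comm _ _ := Mor.ext (funext₂ fun _ _ => add_comm ..)

end Mor

open Obs in
noncomputable instance : Category (Ct S C) where
  Hom X Y := Mor X Y
  id X := Mor.id X
  comp φ ψ := Mor.comp φ ψ
  id_comp φ := Mor.ext (funext₂ fun i l =>
    (finsum_eq_single _ i fun j a => by simp [Mor.id, a.symm]).trans (by simp [Mor.id]))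
  comp_id φ := Mor.ext (funext₂ fun i l =>
    (finsum_eq_single _ l fun j a => by simp [Mor.id, a]).trans (by simp [Mor.id]))
  assoc φ ψ χ := Mor.ext (funext₂ fun i l => by
    obtain ⟨J, a⟩ := row φ i
    obtain ⟨K, b⟩ := col χ l
    refine (fs _ _ (.inr b)).trans (.trans ?_ (fs _ _ (.inl a)).symm)
    simp only [Mor.comp, fs _ _ (.inl a), fs _ _ (.inr b), Preadditive.sum_comp,
      Preadditive.comp_sum, Category.assoc]
    rw [Finset.sum_comm])

open Obs in
noncomputable instance : Preadditive (Ct S C) where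
  homGroup _ _ := Mor.instAddCommGroup
  add_comp _ _ _ φ φ' ψ := Mor.ext (funext₂ fun i l => by
    obtain ⟨K, b⟩ := col ψ l
    change ∑ᶠ j, (φ.e i j + φ'.e i j) ≫ _ = ∑ᶠ j, _ ≫ _ + ∑ᶠ j, _ ≫ _
    simp only [fs _ _ (.inr b)]
    simp [Finset.sum_add_distrib])
  comp_add _ _ _ φ ψ ψ' := Mor.ext (funext₂ fun i l => by
    obtain ⟨K, b⟩ := row φ i
    change ∑ᶠ j, _ ≫ (ψ.e j l + ψ'.e j l) = ∑ᶠ j, _ ≫ _ + ∑ᶠ j, _ ≫ _
    simp only [fs _ _ (.inl b)]
    simp [Finset.sum_add_distrib])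

theorem hom_ext {φ ψ : X ⟶ Y} (h : ∀ i j, φ.e i j = ψ.e i j) : φ = ψ := Mor.ext (funext₂ h)

theorem comp_e (φ : X ⟶ Y) (ψ : Y ⟶ Z) (i l) : (φ ≫ ψ).e i l = ∑ᶠ j, φ.e i j ≫ ψ.e j l := rfl

@[simp] theorem add_e (φ ψ : X ⟶ Y) (i j) : (φ + ψ).e i j = φ.e i j + ψ.e i j := rfl

@[simp] theorem zero_e (i j) : (0 : X ⟶ Y).e i j = 0 := rfl

@[simp] theorem neg_e (φ : X ⟶ Y) (i j) : (-φ).e i j = -φ.e i j := rfl

@[simp] theorem id_e (i) : (𝟙 X : X ⟶ X).e i i = 𝟙 _ := (dif_pos rfl).trans rfl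

theorem id_ne {i j} (h : i ≠ j) : (𝟙 X : X ⟶ X).e i j = 0 := dif_neg h

open Classical in
/-- The matrix of a partial injection of index sets. -/
noncomputable def alg (R : X.ι → Y.ι → Prop) (a : ∀ i j, R i j → (X.B i ⟶ Y.B j))
    (h : ∃ r, ∀ i j, R i j → Nr r (X.π i) (Y.π j)) : X ⟶ Y :=
  ⟨fun i j => if k : R i j then a i j k else 0,
    h.imp fun _ b i j c => b i j (by_contra fun d => c (dif_neg d))⟩

theorem alg_of {R : X.ι → Y.ι → Prop} {a h i j} (k : R i j) : (alg R a h).e i j = a i j k :=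
  dif_pos k

theorem alg_not {R : X.ι → Y.ι → Prop} {a h i j} (k : ¬R i j) : (alg R a h).e i j = 0 :=
  dif_neg k

theorem alg_comp {R : X.ι → Y.ι → Prop} {a h i j} (k : R i j) (u : ∀ j', R i j' → j' = j)
    (ψ : Y ⟶ Z) (l) : (alg R a h ≫ ψ).e i l = a i j k ≫ ψ.e j l :=
  (finsum_eq_single _ j fun j' b => by rw [alg_not fun c => b (u _ c), zero_comp]).trans
    (by rw [alg_of k])

theorem alg_comp' {R : X.ι → Y.ι → Prop} {a h i} (u : ∀ j, ¬R i j) (ψ : Y ⟶ Z) (l) :
    (alg R a h ≫ ψ).e i l = 0 :=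
  finsum_eq_zero_of_forall_eq_zero fun j => by rw [alg_not (u j), zero_comp]

theorem comp_alg {R : Y.ι → Z.ι → Prop} {a h j l} (k : R j l) (u : ∀ j', R j' l → j' = j)
    (φ : X ⟶ Y) (i) : (φ ≫ alg R a h).e i l = φ.e i j ≫ a j l k :=
  (finsum_eq_single _ j fun j' b => by rw [alg_not fun c => b (u _ c), comp_zero]).trans
    (by rw [alg_of k])

theorem comp_alg' {R : Y.ι → Z.ι → Prop} {a h l} (u : ∀ j, ¬R j l) (φ : X ⟶ Y) (i) :
    (φ ≫ alg R a h).e i l = 0 :=
  finsum_eq_zero_of_forall_eq_zero fun j => by rw [alg_not (u j), comp_zero]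

instance : HasZeroObject (Ct S C) :=
  ⟨⟨⟨∅, Set.finite_empty, Empty, Empty.elim, Empty.elim, (·.elim), fun _ => Set.toFinite _⟩,
    (IsZero.iff_id_eq_zero _).2 (hom_ext (·.elim))⟩⟩

section ind
variable {D : Type u'} [Category.{v'} D] [Preadditive D] {E : Type u''} [Category.{v''} E]
  [Preadditive E] (F : C ⥤ D) (hF : F.Additive) (f : S → S) (h : Function.Bijective f)

/-- The image of an object. -/
def indO (X : Ct S C) : Ct S D :=
  ⟨f ⁻¹' X.σ, X.hσ.preimage h.1.injOn, X.ι, fun i => F.obj (X.B i), fun i s => X.π i (f s),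
    fun i s => X.sup i (f s), fun r => (X.fin r).subset fun _ a => h.2.forall.2 a⟩

open Classical Obs in
/-- The functor induced by an additive functor and a permutation of the vertices. -/
noncomputable def ind : Ct S C ⥤ Ct S D where
  obj := indO F f h
  map φ := ⟨fun i j => F.map (φ.e i j), φ.ctl.imp fun _ a i j b s =>
    a i j (fun c => b ((congrArg F.map c).trans (F.map_zero _ _))) (f s)⟩
  map_id X := hom_ext fun i j => by
    by_cases k : i = j
    · subst k
      exact (congrArg F.map (id_e (X := X) i)).trans ((F.map_id _).trans (id_e (X := indO F f h X) i).symm)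
    · exact (congrArg F.map (id_ne (X := X) k)).trans
        ((F.map_zero _ _).trans (id_ne (X := indO F f h X) k).symm)
  map_comp {_ Y _} φ ψ := hom_ext fun i l => by
    obtain ⟨K, b⟩ := col ψ l
    change F.map (∑ᶠ j, _) = ∑ᶠ j : Y.ι, F.map (φ.e i j) ≫ F.map (ψ.e j l)
    rw [fs _ _ (.inr b), fs (J := K) _ _ (.inr fun j c => by simp [b j c]), F.map_sum]
    simp

instance : (ind F hF f h).Additive := ⟨hom_ext fun _ _ => F.map_add⟩

theorem ind_congr {F F' : C ⥤ D} (e : F = F') {f f' : S → S} (e' : f = f') (a b c d) :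
    ind F a f b = ind F' c f' d := by
  subst e e'
  rfl

end ind

variable (S) in
/-- The diagonal action. -/
noncomputable def act {G : Type w} [Group G] [MulAction G S] (ρ : Act G C) : Act G (Ct S C) where
  F g := ind (ρ.F g) (ρ.additive g) (g⁻¹ • ·) (MulAction.bijective _)
  additive _ := inferInstance
  one := ind_congr (f' := id) ρ.one (funext fun _ => by simp) _ _ inferInstance
    Function.bijective_id
  mul g h := ind_congr (f' := (h⁻¹ • ·) ∘ (g⁻¹ • ·)) (ρ.mul g h) (funext fun _ => by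
    simp [mul_smul]) _ _ (have := ρ.additive g; have := ρ.additive h; inferInstance)
      ((MulAction.bijective _).comp (MulAction.bijective _))

end Ct

end Pool.Agent.Lib.MP_5d3e93_al.Br
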