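import Pool.Agent.Lib.MP_5d3e93_al.Br.CtS

/-! The filtration by the number of big coordinates, ideals, cuts. -/

open CategoryTheory Limits

namespace Pool.Agent.Lib.MP_5d3e93_al.Br.Ct

universe w w' v u v' u'

variable {S : Type w'} {C : Type u} {X Y Z : Ct S C} {n : ℕ}

/-- The coordinates above `r`. -/
def Big (r : ℕ) (x : S → ℕ) : Set S := {s | r < x s}

theorem big_sub (X : Ct S C) (r : ℕ) (i : X.ι) : Big r (X.π i) ⊆ X.σ := fun s h =>
  by_contra fun k => (Nat.not_lt_zero r) (X.sup i s k ▸ h)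

theorem big_fin (X : Ct S C) (r : ℕ) (i : X.ι) : (Big r (X.π i)).Finite :=
  X.hσ.subset (big_sub X r i)

theorem Nr.big {r k : ℕ} {x y : S → ℕ} (h : Nr k x y) : Big (r + k) x ⊆ Big r y := fun s a => by
  have := h s
  change r + k < x s at a
  change r < y s
  omega

theorem big_mono {r k : ℕ} (h : r ≤ k) (x : S → ℕ) : Big k x ⊆ Big r x := fun _ a => h.trans_lt a

/-- Objects over faces with at most `n` vertices. -/
def Lv (n : ℕ) (X : Ct S C) : Prop := X.σ.ncard ≤ n

/-- The part of an object over a set of indices. -/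
abbrev part (X : Ct S C) (p : X.ι → Prop) : Ct S C :=
  ⟨X.σ, X.hσ, Subtype p, fun i => X.B i, fun i => X.π i, fun i => X.sup i,
    fun r => (X.fin r).preimage Subtype.val_injective.injOn⟩

theorem part_nr (X : Ct S C) (p : X.ι → Prop) :
    ∃ r, ∀ i : Subtype p, Nr r ((part X p).π i) (X.π i.1) := ⟨0, fun _ => .refl _ _⟩

variable [Category.{v} C] [Preadditive C]

/-- Matrices supported near the faces with at most `n` vertices. -/
def Id (n : ℕ) (φ : X ⟶ Y) : Prop := ∃ r, ∀ i j, φ.e i j ≠ 0 → (Big r (X.π i)).ncard ≤ n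

theorem Id.zero : Id n (0 : X ⟶ Y) := ⟨0, fun _ _ h => (h rfl).elim⟩

theorem Id.add {φ ψ : X ⟶ Y} (h : Id n φ) (k : Id n ψ) : Id n (φ + ψ) := by
  obtain ⟨r, a⟩ := h
  obtain ⟨s, b⟩ := k
  refine ⟨r + s, fun i j c => ?_⟩
  by_cases d : φ.e i j = 0
  · exact (Set.ncard_le_ncard (big_mono (by omega) _) (big_fin ..)).trans
      (b i j (by simpa [d] using c))
  · exact (Set.ncard_le_ncard (big_mono (by omega) _) (big_fin ..)).trans (a i j d)

theorem Id.neg {φ : X ⟶ Y} (h : Id n φ) : Id n (-φ) :=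
  h.imp fun _ a i j c => a i j (by simpa using c)

theorem Id.comp {φ : X ⟶ Y} (h : Id n φ) (ψ : Y ⟶ Z) : Id n (φ ≫ ψ) :=
  h.imp fun _ a i _ c => (ex_ne c).elim fun j d => a i j d.1

theorem Id.comp' {ψ : Y ⟶ Z} (h : Id n ψ) (φ : X ⟶ Y) : Id n (φ ≫ ψ) := by
  obtain ⟨r, a⟩ := h
  obtain ⟨k, b⟩ := φ.ctl
  exact ⟨r + k, fun i l c => (ex_ne c).elim fun j d =>
    (Set.ncard_le_ncard (b i j d.1).big (big_fin ..)).trans (a j l d.2)⟩

theorem Id.of_ne (hX : Lv (n + 1) X) (hY : Lv (n + 1) Y) (h : X.σ ≠ Y.σ) (φ : X ⟶ Y) :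
    Id n φ := by
  obtain ⟨k, b⟩ := φ.ctl
  refine ⟨k, fun i j c => (Set.ncard_le_ncard (t := X.σ ∩ Y.σ) (fun s a =>
    ⟨big_sub X k i a, big_sub Y 0 j ((b i j c).big (by rwa [Nat.zero_add]))⟩)
      (X.hσ.inter_of_left _)).trans (by_contra fun d => h ?_)⟩
  exact (Set.eq_of_subset_of_ncard_le Set.inter_subset_left (hX.trans (by omega)) X.hσ).symm.trans
    (Set.eq_of_subset_of_ncard_le Set.inter_subset_right (hY.trans (by omega)) Y.hσ)

theorem Id.of_lv (hX : Lv n X) (φ : X ⟶ Y) : Id n φ :=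
  ⟨0, fun i _ _ => (Set.ncard_le_ncard (big_sub X 0 i) X.hσ).trans hX⟩

/-- The inclusion of a part. -/
noncomputable def pi (X : Ct S C) (p : X.ι → Prop) : part X p ⟶ X :=
  mt (·.1) (fun _ => rfl) (part_nr X p)

/-- The projection to a part. -/
noncomputable def pr (X : Ct S C) (p : X.ι → Prop) : X ⟶ part X p :=
  mt' (X := part X p) (·.1) (fun _ => rfl) (part_nr X p)

theorem pi_pr (p : X.ι → Prop) : pi X p ≫ pr X p = 𝟙 _ := mt_mt' _ _ _ Subtype.val_injective

theorem pr_total (p : X.ι → Prop) :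
    pr X (¬p ·) ≫ pi X (¬p ·) + pr X p ≫ pi X p = 𝟙 X :=
  mt_total _ _ _ _ _ _ Subtype.val_injective Subtype.val_injective
    (fun i j e => i.2 (e ▸ j.2)) fun y => (em (p y)).elim (fun h => .inr ⟨⟨y, h⟩, rfl⟩)
      fun h => .inl ⟨⟨y, h⟩, rfl⟩

theorem pi_comp (p : X.ι → Prop) (φ : X ⟶ Y) (h : ∀ i j, p i → φ.e i j = 0) : pi X p ≫ φ = 0 :=
  hom_ext fun i j => (mt_comp ..).trans (by rw [h _ _ i.2, comp_zero, zero_e])

/-- Induction over the faces near which an object lies. -/
theorem near_ind {P : Ct S C → Prop} (h1 : ∀ X, Lv n X → P X)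
    (h2 : ∀ X Y, Nonempty (X ≅ Y) → P Y → P X)
    (h3 : ∀ X p, P (part X p) → P (part X (¬p ·)) → P X) (r : ℕ) (X : Ct S C)
    (h : ∀ i, (Big r (X.π i)).ncard ≤ n) : P X := by
  classical
  have k (F : Finset (Set S)) : ∀ X : Ct S C, (∀ i, (Big r (X.π i)).ncard ≤ n) →
      (∀ i, Big r (X.π i) ∈ F) → P X := by
    have one (τ : Set S) (X : Ct S C) (a : τ.Finite) (b : τ.ncard ≤ n)
        (c : ∀ i, Big r (X.π i) ⊆ τ) : P X := by
      have d (i) : Nr r (X.π i) fun s => if s ∈ τ then X.π i s else 0 := fun s => by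
        have : s ∉ τ → X.π i s ≤ r := fun e => not_lt.1 fun f => e (c i f)
        dsimp only
        split_ifs with e
        · omega
        · have := this e
          omega
      let Y : Ct S C := ⟨τ, a, X.ι, X.B, fun i s => if s ∈ τ then X.π i s else 0,
        fun _ _ e => if_neg e, fun m => (X.fin (m + r)).subset fun i e s =>
          (d i s).1.trans (Nat.add_le_add_right (e s) r)⟩
      refine h2 X Y ⟨⟨mt id (fun _ => rfl) ⟨r, d⟩, mt' (Y := Y) id (fun _ => rfl) ⟨r, d⟩,
        mt_mt' _ _ _ Function.injective_id, hom_ext fun i j => ?_⟩⟩ (h1 Y b)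
      exact mt'_mt (X := X) (Y := Y) id (fun _ => rfl) ⟨r, d⟩ Function.injective_id i j
    induction F using Finset.induction_on with
    | empty =>
      exact fun X _ b => one ∅ X Set.finite_empty (by simp) fun i => (by simpa using b i : False).elim
    | insert τ F _ ih =>
      intro X a b
      refine h3 X (fun i => Big r (X.π i) = τ) ?_
        (ih _ (fun i => a i) fun i => (Finset.mem_insert.1 (b i)).resolve_left i.2)
      by_cases e : ∃ i, Big r (X.π i) = τ
      · obtain ⟨i, e⟩ := e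
        exact one τ _ (e ▸ big_fin ..) (e ▸ a i) fun j => j.2.le
      · exact one ∅ _ Set.finite_empty (by simp) fun j => (e ⟨j.1, j.2⟩).elim
  exact k X.hσ.finite_subsets.toFinset X h fun i => by simpa using big_sub X r i

variable (S C) in
/-- Congruence modulo the ideal. -/
def rel (n : ℕ) : HomRel (Ct S C) := fun _ _ f g => Id n (f - g)

instance : Congruence (rel S C n) where
  equivalence := ⟨fun f => by simpa [rel] using Id.zero, fun h => by simpa [rel] using h.neg,
    fun h k => by simpa [rel] using h.add k⟩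
  comp_left f _ _ h := by simpa [rel] using h.comp' f
  comp_right g h := by simpa [rel] using h.comp g

theorem rel_add ⦃X Y : Ct S C⦄ (f₁ f₂ g₁ g₂ : X ⟶ Y) (h : rel S C n f₁ f₂) (k : rel S C n g₁ g₂) :
    rel S C n (f₁ + g₁) (f₂ + g₂) := by
  have := Id.add h k
  rwa [← add_sub_add_comm] at this

variable (S C) in
/-- The quotient by the ideal. -/
def Cq (n : ℕ) : Type _ := CategoryTheory.Quotient (rel S C n)

noncomputable instance : Category (Cq S C n) :=
  inferInstanceAs (Category (CategoryTheory.Quotient (rel S C n)))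

noncomputable instance : Preadditive (Cq S C n) := Quotient.preadditive _ rel_add

variable (S C) in
/-- The projection to the quotient. -/
noncomputable def pq (n : ℕ) : Ct S C ⥤ Cq S C n := Quotient.functor _

instance : (pq S C n).Additive := Quotient.functor_additive _ rel_add

instance : (pq S C n).Full := Quotient.full_functor _

theorem pq_eq {f g : X ⟶ Y} : (pq S C n).map f = (pq S C n).map g ↔ Id n (f - g) :=
  Quotient.functor_map_eq_iff _ f g

theorem pq_zero {f : X ⟶ Y} : (pq S C n).map f = 0 ↔ Id n f := by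
  rw [← (pq S C n).map_zero, pq_eq, sub_zero]

section ind
variable {D : Type u'} [Category.{v'} D] [Preadditive D] (F : C ⥤ D) (hF : F.Additive)
  (f : S → S) (h : Function.Bijective f)

omit [Category C] [Preadditive C] in
include h in
theorem ncard_pre (τ : Set S) : (f ⁻¹' τ).ncard = τ.ncard :=
  Set.ncard_preimage_of_injective_subset_range h.1 (h.2.range_eq ▸ Set.subset_univ _)

theorem lv_ind : Lv n ((ind F hF f h).obj X) ↔ Lv n X := by
  change (f ⁻¹' X.σ).ncard ≤ n ↔ _
  rw [ncard_pre f h, Lv]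

theorem Id.ind {φ : X ⟶ Y} (k : Id n φ) : Id n ((ind F hF f h).map φ) :=
  k.imp fun r a i j b => (ncard_pre f h (Big r (X.π i))).le.trans
    (a i j fun c => b ((congrArg F.map c).trans (F.map_zero _ _)))

/-- The induced functor on quotients. -/
noncomputable def indq (n : ℕ) : Cq S C n ⥤ Cq S D n :=
  CategoryTheory.Quotient.lift _ (ind F hF f h ⋙ pq S D n) fun _ _ _ _ k => pq_eq.2 (by
    rw [← (ind F hF f h).map_sub]
    exact Id.ind F hF f h k)

theorem pq_indq : pq S C n ⋙ indq F hF f h n = ind F hF f h ⋙ pq S D n :=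
  CategoryTheory.Quotient.lift_spec ..

instance : (indq F hF f h n).Additive :=
  have : (pq S C n ⋙ indq F hF f h n).Additive :=
    inferInstanceAs (ind F hF f h ⋙ pq S D n).Additive
  have : (pq S C n).EssSurj := Quotient.essSurj_functor _
  Functor.additive_of_full_essSurj_comp (pq S C n) _

end ind

variable {G : Type w} [Group G] [MulAction G S] (ρ : Act G C)

variable (S) in
/-- The action on the quotient. -/
noncomputable def actq (n : ℕ) : Act G (Cq S C n) where
  F g := indq (ρ.F g) (ρ.additive g) (g⁻¹ • ·) (MulAction.bijective _) n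
  additive _ := inferInstance
  one := CategoryTheory.Quotient.lift_unique' _ _ _ ((pq_indq ..).trans (congrArg (· ⋙ pq S C n) (act S ρ).one))
  mul g h := CategoryTheory.Quotient.lift_unique' _ _ _ ((pq_indq ..).trans
    (congrArg (· ⋙ pq S C n) ((act S ρ).mul g h)))

theorem pq_act (g : G) : (act S ρ).F g ⋙ pq S C n = pq S C n ⋙ (actq S ρ n).F g :=
  (pq_indq ..).symm

end Pool.Agent.Lib.MP_5d3e93_al.Br.Ct
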