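import Pool.Agent.Lib.MP_5d3e93_al.Br.Ev
import Pool.Agent.Lib.MP_5d3e93_al.Br.CtI

/-! The layers of the filtration of the control category. -/

open CategoryTheory Limits

namespace Pool.Agent.Lib.MP_5d3e93_al.Br.Ct

open Gr Am

universe v u u'

variable {G : Type v} [Group G] {S : Type v} [MulAction G S] {C : Type u} [Category.{v} C]
  [Preadditive C] {D : Type u'} [Category.{v} D] [Preadditive D] (ρ : Act G C) {τ : Act G D}
  (T : Type v) [MulAction G T] {n : ℕ}

variable (S) in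
/-- An object placed at the origin. -/
abbrev oneO {C : Type u} (A : C) : Ct S C :=
  ⟨∅, Set.finite_empty, Unit, fun _ => A, fun _ _ => 0, fun _ _ _ => rfl, fun _ => Set.toFinite _⟩

variable (S C) in
/-- An object placed at the origin. -/
noncomputable def one : C ⥤ Ct S C where
  obj := oneO S
  map f := ⟨fun _ _ => f, 0, fun _ _ _ => .refl _ _⟩
  map_id A := hom_ext fun _ _ => (id_e (X := oneO S A) ()).symm
  map_comp f g := hom_ext fun _ _ => (finsum_unique fun _ : Unit => f ≫ g).symm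

instance : (one S C).Additive := ⟨rfl⟩

instance : (one S C).Faithful := ⟨fun h => congrArg (·.e () ()) h⟩

instance : (one S C).Full := ⟨fun f => ⟨f.e () (), rfl⟩⟩

theorem one_eqv (g : G) : ρ.F g ⋙ one S C = one S C ⋙ (act S ρ).F g := rfl

theorem part_spl (X : Ct S C) (p : X.ι → Prop) : Spl (pi X (¬p ·)) (pr X p) :=
  ⟨_, _, pi_pr _, pi_pr _, pr_total p⟩

theorem zero_of_empty (X : Ct S C) (h : IsEmpty X.ι) : IsZero X :=
  (IsZero.iff_id_eq_zero _).2 (hom_ext h.elim)

theorem lv_zero_ind {P : Ct S C → Prop} (h0 : ∀ X, IsZero X → P X)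
    (h1 : ∀ A, P ((one S C).obj A)) (h2 : ∀ X Y, Nonempty (X ≅ Y) → P Y → P X)
    (h3 : ∀ X p, P (part X p) → P (part X (¬p ·)) → P X) (X : Ct S C) (h : Lv 0 X) : P X := by
  have z (X : Ct S C) (h : Lv 0 X) (i s) : X.π i s = 0 :=
    X.sup i s (by simp [(Set.ncard_eq_zero X.hσ).1 (Nat.le_zero.1 h)])
  have k (F : Finset ℕ) : ∀ (X : Ct S C) (c : X.ι → ℕ), c.Injective → (∀ i, c i ∈ F) →
      Lv 0 X → P X := by
    induction F using Finset.induction_on with
    | empty => exact fun X c _ b _ => h0 X (zero_of_empty X ⟨fun i => by simpa using b i⟩)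
    | insert m F _ ih =>
      intro X c a b d
      refine h3 X (c · = m) ?_ (ih _ (fun i => c i.1) (a.comp Subtype.val_injective)
        (fun i => (Finset.mem_insert.1 (b i)).resolve_left i.2) d)
      by_cases e : ∃ i, c i = m
      · obtain ⟨i, e⟩ := e
        have w : ∃ r, ∀ j : Unit, Nr r (((one S C).obj (X.B i)).π j)
            ((part X (c · = m)).π ⟨i, e⟩) := ⟨0, fun _ s => by simp [one, z X d]⟩
        refine h2 _ _ ⟨⟨mt' (X := (one S C).obj (X.B i)) (fun _ => ⟨i, e⟩) (fun _ => rfl) w,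
          mt (X := (one S C).obj (X.B i)) (fun _ => ⟨i, e⟩) (fun _ => rfl) w,
          hom_ext fun j l => ?_, mt_mt' _ _ _ fun _ _ _ => rfl⟩⟩ (h1 _)
        obtain rfl : j = ⟨i, e⟩ := Subtype.ext (a (j.2.trans e.symm))
        exact mt'_mt (X := (one S C).obj (X.B i)) (Y := part X (c · = m)) (fun _ => ⟨i, e⟩)
          (fun _ => rfl) w (fun _ _ _ => rfl) () l
      · exact h0 _ (zero_of_empty _ ⟨fun i => e ⟨i.1, i.2⟩⟩)
  have : Finite X.ι := Set.finite_univ_iff.1 ((X.fin 0).subset fun i _ s => (z X h i s).le)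
  obtain ⟨c, hc⟩ := exists_injective_nat X.ι
  exact k (Set.finite_range c).toFinset X c hc (by simp) h

variable (S) in
/-- The coefficients at the origin. -/
noncomputable def e0 : Map (ea ρ T) (ea (act S ρ) T) := (Ef.fn T (one S C) (one_eqv ρ)).em

theorem ct_a : Deq (e0 S ρ T).D (ea ρ T).bdd (eg (act S ρ) T (Lv 0)) := by
  rw [← eg_top]
  refine ef_deq _ _ (fun _ _ => (Set.ncard_empty S).le) fun Q _ t a X b => ?_
  exact lv_zero_ind (P := fun X => Q ((eo (act S ρ) t).obj X))
    (fun X c => Tg.zero Q ((eo _ t).map_isZero c)) (fun A => a A trivial)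
    (fun _ _ ⟨e⟩ => Q.prop_of_iso ((eo _ t).mapIso e.symm))
    (fun X p c d => eo_spl (part_spl X p) t d c) X b

/-- The objects of the quotient in filtration `n + 1`. -/
def Lq (n : ℕ) : ObjectProperty (Cq S C n) := fun X => Lv (n + 1) X.as

variable (S) in
/-- The projection to the quotient. -/
noncomputable def eq' (n : ℕ) : Map (ea (act S ρ) T) (ea (actq S ρ n) T) :=
  (Ef.fn T (pq S C n) (pq_act ρ)).em

theorem ct_b : Gr.Loc (eq' S ρ T n).D
    (eg (act S ρ) T (Lv (n + 1)) ⊓ Th (eg (act S ρ) T (Lv n))) (eg (act S ρ) T (Lv (n + 1)))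
    (eg (actq S ρ n) T (Lq n)) := by
  refine ef_loc _ _ (fun X a => (IsZero.iff_id_eq_zero _).2
    (((pq S C n).map_id X).symm.trans (pq_zero.2 (.of_lv a _)))) (fun X s B f z => ?_)
    (fun _ a => a.trans (Nat.le_succ n)) (fun _ a => a) fun _ _ _ a Y b => a Y.as b
  choose r hr using fun g => pq_zero.1 (z g)
  let p : X.ι → Prop := fun i => (Big (s.sup r) (X.π i)).ncard ≤ n
  refine ⟨_, _, _, _, part_spl X p, fun t => ?_, fun g a => pi_comp _ _ fun i j b =>
    by_contra fun c => b ((Set.ncard_le_ncard (big_mono (Finset.le_sup a) _)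
      (big_fin ..)).trans (hr g i j c))⟩
  exact near_ind (P := fun X => eg (act S ρ) T (Lv n) ((eo (act S ρ) t).obj X))
    (fun X c => mg_mo (x := (⟨⟨X, t⟩⟩ : Tc (act S ρ) T)) c)
    (fun _ _ ⟨e⟩ => (eg _ T _).prop_of_iso ((eo _ t).mapIso e.symm))
    (fun X p c d => eo_spl (part_spl X p) t d c) (s.sup r) _ fun i => i.2

variable (S C) in
/-- The graded part of the quotient. -/
abbrev Cg (n : ℕ) :=
  ObjectProperty.FullSubcategory fun X : Cq S C n => Lv (n + 1) X.as ∧ X.as.σ.Nonempty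

variable (S C) in
/-- The inclusion of the graded part. -/
noncomputable abbrev ig (n : ℕ) : Cg S C n ⥤ Cq S C n := ObjectProperty.ι _

section ind
variable (F : C ⥤ D) (hF : F.Additive) (f : S → S) (h : Function.Bijective f)

/-- The induced functor on graded parts. -/
noncomputable def indg (n : ℕ) : Cg S C n ⥤ Cg S D n :=
  ObjectProperty.lift _ (ig S C n ⋙ indq F hF f h n) fun X =>
    ⟨(lv_ind F hF f h).2 X.2.1, X.2.2.preimage h.2⟩

instance : (indg F hF f h n).Additive := inferInstanceAs (ObjectProperty.lift ..).Additive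

end ind

theorem g_ext {E : Type*} [Category* E] {F H : E ⥤ Cg S C n} (h : F ⋙ ig S C n = H ⋙ ig S C n) :
    F = H := by
  have k (X) : F.obj X = H.obj X := ObjectProperty.FullSubcategory.ext (Functor.congr_obj h X)
  exact CategoryTheory.Functor.ext k fun X Y f => (ig S C n).map_injective
    ((Functor.congr_hom h f).trans (by simp))

variable (S) in
/-- The action on the graded part. -/
noncomputable def actg (n : ℕ) : Act G (Cg S C n) where
  F g := indg (ρ.F g) (ρ.additive g) (g⁻¹ • ·) (MulAction.bijective _) n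
  additive _ := inferInstance
  one := g_ext (congrArg (ig S C n ⋙ ·) (actq S ρ n).one)
  mul g h := g_ext (congrArg (ig S C n ⋙ ·) ((actq S ρ n).mul g h))

variable (S) in
/-- The inclusion of the graded part. -/
noncomputable def eg' (n : ℕ) : Map (ea (actg S ρ n) T) (ea (actq S ρ n) T) :=
  (Ef.fn T (ig S C n) fun _ => rfl).em

theorem ct_c : Deq (eg' S ρ T n).D (ea (actg S ρ n) T).bdd (eg (actq S ρ n) T (Lq n)) := by
  rw [← eg_top]
  refine ef_deq _ _ (fun X _ => X.2.1) fun Q _ t a X b => ?_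
  obtain c | c := X.as.σ.eq_empty_or_nonempty
  · exact Tg.zero Q ((eo _ t).map_isZero ((IsZero.iff_id_eq_zero _).2
      (((pq S C n).map_id X.as).symm.trans (pq_zero.2 (.of_lv (by simp [Lv, c]) _)))))
  · exact a ⟨X, b, c⟩ trivial

theorem ct_e (X) (h : (ea (act S ρ) T).bdd X) : ∃ n, eg (act S ρ) T (Lv n) X :=
  mg_union (Q := fun n (x : Tc (act S ρ) T) => Lv n x.as.A) (fun _ _ a _ b => b.trans a)
    (fun _ => ⟨_, le_rfl⟩) X h

theorem lv_mono : eg (act S ρ) T (Lv n) ≤ eg (act S ρ) T (Lv (n + 1)) :=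
  eg_mono fun _ a => a.trans (Nat.le_succ n)

theorem ct_lab {l : Set S → S} (h : ∀ (g : G) (τ : Set S), τ.Finite → τ.Nonempty →
    l ((g⁻¹ • ·) ⁻¹' τ) = g • l τ) : ∃ lab : Cg S C n → S,
      (∀ ⦃A B : Cg S C n⦄ (f : A ⟶ B), f ≠ 0 → lab A = lab B) ∧
        ∀ g A, lab (((actg S ρ n).F g).obj A) = g • lab A := by
  refine ⟨fun X => l X.obj.as.σ, fun A B f a => congrArg l (by_contra fun b => a ?_),
    fun g A => h g _ A.obj.as.hσ A.2.2⟩
  obtain ⟨φ, e⟩ := (pq S C n).map_surjective (X := A.obj.as) (Y := B.obj.as) f.hom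
  exact (ig S C n).map_injective (e.symm.trans (pq_zero.2 (.of_ne A.2.1 B.2.1 b φ)))

section coef
variable {ρ} (F : C ⥤ D) [hF : F.Additive] (e : ∀ g, ρ.F g ⋙ F = F ⋙ τ.F g)

variable (S) in
/-- Change of coefficients. -/
noncomputable abbrev cf : Ct S C ⥤ Ct S D := ind F hF id Function.bijective_id

include e in
theorem cf_eqv (g : G) : (act S ρ).F g ⋙ cf S F = cf S F ⋙ (act S τ).F g :=
  have := ρ.additive g
  have := τ.additive g
  ind_congr (f := (g⁻¹ • ·)) (f' := (g⁻¹ • ·)) (e g) rfl inferInstance (MulAction.bijective _)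
    inferInstance (MulAction.bijective _)

theorem one_cf : one S C ⋙ cf S F = F ⋙ one S D := rfl

theorem cf_zero (h : ∀ A, IsZero (F.obj A)) (X : Ct S C) : IsZero ((cf S F).obj X) :=
  (IsZero.iff_id_eq_zero _).2 (hom_ext fun _ _ => (h _).eq_of_src _ _)

end coef

end Pool.Agent.Lib.MP_5d3e93_al.Br.Ct
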