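import Pool.Agent.Lib.MP_5d3e93_al.Br.Ct

/-! Sums and swindles for bounded control over the cone. -/

open CategoryTheory Limits

namespace Pool.Agent.Lib.MP_5d3e93_al.Br.Ct

universe w w' v u v' u'

variable {S : Type w'} {C : Type u} [Category.{v} C] [Preadditive C] {X Y Z : Ct S C}

section mt
variable (f : X.ι → Y.ι) (a : ∀ i, X.B i = Y.B (f i)) (h : ∃ r, ∀ i, Nr r (X.π i) (Y.π (f i)))

/-- The matrix of a map of index sets. -/
noncomputable def mt : X ⟶ Y :=
  alg (fun i j => f i = j) (fun i _ k => eqToHom ((a i).trans (congrArg Y.B k)))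
    (h.imp fun _ b i _ k => k ▸ b i)

/-- The transposed matrix of a map of index sets. -/
noncomputable def mt' : Y ⟶ X :=
  alg (fun j i => f i = j) (fun _ i k => eqToHom ((a i).trans (congrArg Y.B k)).symm)
    (h.imp fun _ b _ i k => k ▸ (b i).symm)

theorem mt_comp (ψ : Y ⟶ Z) (i l) : (mt f a h ≫ ψ).e i l = eqToHom (a i) ≫ ψ.e (f i) l :=
  alg_comp (R := fun i j => f i = j) rfl (fun _ k => k.symm) ψ l

theorem comp_mt' (ψ : Z ⟶ Y) (l i) : (ψ ≫ mt' f a h).e l i = ψ.e l (f i) ≫ eqToHom (a i).symm :=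
  comp_alg (R := fun j i => f i = j) rfl (fun _ k => k.symm) ψ l

theorem mt'_comp (k : Function.Injective f) (ψ : X ⟶ Z) (i l) :
    (mt' f a h ≫ ψ).e (f i) l = eqToHom (a i).symm ≫ ψ.e i l :=
  alg_comp (R := fun j i => f i = j) rfl (fun _ e => k e) ψ l

theorem mt'_comp' {j} (k : ∀ i, f i ≠ j) (ψ : X ⟶ Z) (l) : (mt' f a h ≫ ψ).e j l = 0 :=
  alg_comp' (R := fun j i => f i = j) k ψ l

theorem comp_mt (k : Function.Injective f) (ψ : Z ⟶ X) (l i) :
    (ψ ≫ mt f a h).e l (f i) = ψ.e l i ≫ eqToHom (a i) :=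
  comp_alg (R := fun i j => f i = j) rfl (fun _ e => k e) ψ l

theorem comp_mt_not {j} (k : ∀ i, f i ≠ j) (ψ : Z ⟶ X) (l) : (ψ ≫ mt f a h).e l j = 0 :=
  comp_alg' (R := fun i j => f i = j) k ψ l

theorem mt_mt' (k : Function.Injective f) : mt f a h ≫ mt' f a h = 𝟙 X := hom_ext fun i j => by
  rw [mt_comp, ← Category.comp_id (mt' f a h), mt'_comp _ _ _ k]
  simp

theorem mt_mt'_zero (g : Z.ι → Y.ι) (b) (c) (k : ∀ i j, g j ≠ f i) : mt f a h ≫ mt' g b c = 0 :=
  hom_ext fun i j => by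
    rw [mt_comp, ← Category.comp_id (mt' g b c), mt'_comp' _ _ _ (k i), comp_zero, zero_e]

theorem mt'_mt (k : Function.Injective f) (i j) :
    (mt' f a h ≫ mt f a h).e (f i) j = (𝟙 Y : Y ⟶ Y).e (f i) j := by
  rw [mt'_comp _ _ _ k, ← Category.comp_id (mt f a h), mt_comp]
  simp

theorem mt_total (g : Z.ι → Y.ι) (b) (c) (k : Function.Injective f) (k' : Function.Injective g)
    (d : ∀ i j, g j ≠ f i) (e : ∀ y, (∃ i, f i = y) ∨ ∃ j, g j = y) :
    mt' f a h ≫ mt f a h + mt' g b c ≫ mt g b c = 𝟙 Y := hom_ext fun y j => by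
  rw [add_e]
  obtain ⟨i, rfl⟩ | ⟨i, rfl⟩ := e y
  · rw [mt'_mt _ _ _ k, mt'_comp' _ _ _ (d i), add_zero]
  · rw [mt'_mt _ _ _ k', mt'_comp' _ _ _ fun j => (d j i).symm, zero_add]

end mt

/-- The sum of two objects. -/
abbrev sum (X Y : Ct S C) : Ct S C :=
  ⟨X.σ ∪ Y.σ, X.hσ.union Y.hσ, X.ι ⊕ Y.ι, Sum.elim X.B Y.B, Sum.elim X.π Y.π,
    fun i s h => match i with
      | .inl i => X.sup i s fun k => h (.inl k)
      | .inr i => Y.sup i s fun k => h (.inr k),
    fun r => (((X.fin r).image .inl).union ((Y.fin r).image .inr)).subset fun i h => match i with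
      | .inl i => .inl ⟨i, h, rfl⟩
      | .inr i => .inr ⟨i, h, rfl⟩⟩

instance : HasBinaryBiproducts (Ct S C) := ⟨fun X Y => by
  have a : ∃ r, ∀ i, Nr r (X.π i) ((sum X Y).π (.inl i)) := ⟨0, fun _ => .refl _ _⟩
  have b : ∃ r, ∀ i, Nr r (Y.π i) ((sum X Y).π (.inr i)) := ⟨0, fun _ => .refl _ _⟩
  exact hasBinaryBiproduct_of_total ⟨sum X Y, mt' .inl (fun _ => rfl) a, mt' .inr (fun _ => rfl) b,
    mt .inl (fun _ => rfl) a, mt .inr (fun _ => rfl) b, mt_mt' _ _ _ Sum.inl_injective,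
    mt_mt'_zero _ _ _ _ _ _ (by simp), mt_mt'_zero _ _ _ _ _ _ (by simp),
    mt_mt' _ _ _ Sum.inr_injective⟩
    (mt_total (Y := sum X Y) .inl (fun _ => rfl) a .inr (fun _ => rfl) b Sum.inl_injective
      Sum.inr_injective (by simp) (by simp))⟩

variable (s : S)

open Classical in
/-- Translation along the ray of a vertex. -/
noncomputable def tr (k : ℕ) (x : S → ℕ) : S → ℕ := fun t => x t + if t = s then k else 0

/-- The sum of all translates. -/
noncomputable abbrev sw (X : Ct S C) : Ct S C :=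
  ⟨insert s X.σ, X.hσ.insert s, X.ι × ℕ, fun p => X.B p.1, fun p => tr s p.2 (X.π p.1),
    fun p t h => by
      rw [Set.mem_insert_iff, not_or] at h
      simp [tr, h.1, X.sup p.1 t h.2],
    fun r => ((X.fin r).prod (Set.finite_le_nat r)).subset fun p h =>
      ⟨fun t => (Nat.le_add_right ..).trans (h t), by
        have := h s
        simp only [tr, if_true] at this
        exact (Nat.le_add_left ..).trans this⟩⟩

theorem Nr.tr {r k l : ℕ} {x y : S → ℕ} (h : Nr r x y) (a : k ≤ l) (b : l ≤ k + 1) :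
    Nr (r + 1) (tr s k x) (tr s l y) := fun t => by
  have := h t
  simp only [Ct.tr]
  split_ifs <;> omega

open Classical Obs in
/-- The swindle functor. -/
noncomputable def swF : Ct S C ⥤ Ct S C where
  obj := sw s
  map φ := ⟨fun p q => if p.2 = q.2 then φ.e p.1 q.1 else 0, φ.ctl.elim fun r c =>
    ⟨r + 1, fun p q a => by
      by_cases e : p.2 = q.2
      · exact (c _ _ (by simpa [e] using a)).tr s e.le (by omega)
      · exact (a (if_neg e)).elim⟩⟩
  map_id X := hom_ext fun ⟨i, k⟩ ⟨j, l⟩ => by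
    by_cases f : k = l
    · subst f
      by_cases e : i = j
      · subst e
        exact (if_pos rfl).trans ((id_e (X := X) i).trans (id_e (X := sw s X) (i, k)).symm)
      · exact (if_pos rfl).trans ((id_ne (X := X) e).trans
          (id_ne (X := sw s X) (i := (i, k)) (j := (j, k)) fun c => e (congrArg Prod.fst c)).symm)
    · exact (if_neg f).trans 
        (id_ne (X := sw s X) (i := (i, k)) (j := (j, l)) fun c => f (congrArg Prod.snd c)).symm
  map_comp φ ψ := hom_ext fun ⟨i, k⟩ ⟨j, l⟩ => by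
    obtain ⟨J, a⟩ := row φ i
    refine .trans ?_ (fs (J := J.image (·, k)) _ _ (.inl fun ⟨x, y⟩ b => ?_)).symm
    · rw [Finset.sum_image (by simp)]
      by_cases e : k = l <;> simp [e, comp_e, fs _ _ (.inl a)]
    · by_cases e : k = y
      · simpa [e] using a x (by simpa [e] using b)
      · simp [e]

instance : (swF (C := C) s).Additive := ⟨fun {_ _ f g} => hom_ext fun p q => by
  change ite (p.2 = q.2) (f.e p.1 q.1 + g.e p.1 q.1) 0 =
    ite (p.2 = q.2) (f.e p.1 q.1) 0 + ite (p.2 = q.2) (g.e p.1 q.1) 0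
  split_ifs <;> simp⟩

omit [Category C] [Preadditive C] in
theorem c0 (X : Ct S C) : ∃ r, ∀ i, Nr r (X.π i) ((sw s X).π (i, 0)) :=
  ⟨0, fun i t => by simp [tr]⟩

omit [Category C] [Preadditive C] in
theorem c1 (X : Ct S C) : ∃ r, ∀ p : X.ι × ℕ, Nr r ((sw s X).π p) ((sw s X).π (p.1, p.2 + 1)) :=
  ⟨1, fun p => (Nr.refl 0 _).tr s (by omega) le_rfl⟩

/-- The first structure map. -/
noncomputable def i0 (X : Ct S C) : X ⟶ (swF s).obj X := mt _ (fun _ => rfl) (c0 s X)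

/-- The first projection. -/
noncomputable def r0 (X : Ct S C) : (swF s).obj X ⟶ X := mt' _ (fun _ => rfl) (c0 s X)

/-- The shift. -/
noncomputable def i1 (X : Ct S C) : (swF s).obj X ⟶ (swF s).obj X :=
  mt (X := sw s X) (Y := sw s X) (fun p => (p.1, p.2 + 1)) (fun _ => rfl) (c1 s X)

/-- The backward shift. -/
noncomputable def r1 (X : Ct S C) : (swF s).obj X ⟶ (swF s).obj X :=
  mt' (X := sw s X) (Y := sw s X) (fun p => (p.1, p.2 + 1)) (fun _ => rfl) (c1 s X)

theorem sw_total (X : Ct S C) : r0 s X ≫ i0 s X + r1 s X ≫ i1 s X = 𝟙 _ :=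
  mt_total _ _ _ _ _ _ (fun _ _ e => congrArg Prod.fst e)
    (fun _ _ e => Prod.ext (Prod.mk.inj e).1 (Nat.succ_injective (Prod.mk.inj e).2))
    (fun _ _ e => Nat.succ_ne_zero _ (Prod.mk.inj e).2) fun ⟨i, k⟩ => by
      obtain _ | k := k
      exacts [.inl ⟨i, rfl⟩, .inr ⟨(i, k), rfl⟩]

theorem sw_nat (f : X ⟶ Y) : i0 s X ≫ (swF s).map f ≫ r0 s Y = f ∧
    i0 s X ≫ (swF s).map f ≫ r1 s Y = 0 ∧ i1 s X ≫ (swF s).map f ≫ r0 s Y = 0 ∧
      i1 s X ≫ (swF s).map f ≫ r1 s Y = (swF s).map f := by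
  refine ⟨hom_ext fun i j => ?_, hom_ext fun i j => ?_, hom_ext fun i j => ?_,
    hom_ext fun i j => ?_⟩ <;>
    refine (mt_comp ..).trans ((congrArg _ (comp_mt' ..)).trans ?_) <;> simp [swF] <;> rfl

theorem heq_of {ι κ : Type} {σ σ' : Set S} {a a' B π π' c c' d d'} {τ τ' : Set S}
    {b b' B' μ μ' m m' n n'} (e : π = π') (e' : μ = μ') (t : σ = σ') (t' : τ = τ')
    {f : (⟨σ, a, ι, B, π, c, d⟩ : Ct S C) ⟶ ⟨τ, b, κ, B', μ, m, n⟩}
    {g : (⟨σ', a', ι, B, π', c', d'⟩ : Ct S C) ⟶ ⟨τ', b', κ, B', μ', m', n'⟩}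
    (k : ∀ i j, f.e i j = g.e i j) : HEq f g := by
  subst e e' t t'
  exact heq_of_eq (hom_ext k)

theorem map_alg {D : Type u'} [Category.{v'} D] [Preadditive D] (F : C ⥤ D) [F.Additive]
    {p : Prop} {d : Decidable p} {A B : C} {a : p → (A ⟶ B)} {b : p → (F.obj A ⟶ F.obj B)}
    (h : ∀ k, F.map (a k) = b k) :
    F.map (if k : p then a k else 0) = if k : p then b k else 0 := by
  split_ifs
  exacts [h _, F.map_zero _ _]

variable {G : Type w} [Group G] [MulAction G S] (ρ : Act G C)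

theorem ct_swd : Swd (act S ρ) fun g => g • s = s := by
  refine ⟨swF s, inferInstance, _, _, _, _, sw_total s, fun _ _ => sw_nat s, fun g hg => ?_⟩
  have k (t : S) : g⁻¹ • t = s ↔ t = s := by rw [inv_smul_eq_iff, hg]
  have e (X : Ct S C) : (fun p : X.ι × ℕ => tr s p.2 fun t => X.π p.1 (g⁻¹ • t)) =
      fun p t => tr s p.2 (X.π p.1) (g⁻¹ • t) := funext₂ fun p t => by
    by_cases c : t = s <;> simp [tr, k, c]
  have e' (X : Ct S C) : insert s ((g⁻¹ • ·) ⁻¹' X.σ) = (g⁻¹ • ·) ⁻¹' insert s X.σ :=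
    Set.ext fun t => by simp only [Set.mem_insert_iff, Set.mem_preimage, k]
  refine ⟨Functor.hext (fun X => ?_) fun X Y f => heq_of (e X) (e Y) (e' X) (e' Y) fun p q => ?_,
    fun A => ⟨heq_of (e A).symm rfl (e' A).symm rfl fun p q => ?_,
      heq_of (e A).symm (e A).symm (e' A).symm (e' A).symm fun p q => ?_⟩⟩
  · change Ct.mk .. = Ct.mk ..
    congr 1
    exacts [e' X, e X]
  all_goals have := ρ.additive g
  · exact ((apply_ite (ρ.F g).map ..).trans (by rw [Functor.map_zero]; rfl)).symm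
  all_goals
    refine map_alg (ρ.F g) (fun _ => ?_)
    exact eqToHom_map ..

theorem ct_sw (hS : ∀ (H : Subgroup G) (x : H), (Subgroup.zpowers x).FiniteIndex →
    ∃ s : S, ∀ g ∈ H, g • s = s) : Sw (act S ρ) := fun H _ x h φ => by
  obtain ⟨s, k⟩ := hS φ.range (φ.rangeRestrict x) (fi_top.1 (((fi_top.2 h).map φ.rangeRestrict).mono
    (MonoidHom.map_zpowers ..).le (Subgroup.map_top_of_surjective _ φ.rangeRestrict_surjective).ge))
  obtain ⟨Φ, b, i, r, i', r', c, d, e⟩ := ct_swd s ρ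
  exact ⟨Φ, b, i, r, i', r', c, d, fun g hg => e g (k g hg)⟩

end Pool.Agent.Lib.MP_5d3e93_al.Br.Ct
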