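import Pool.Agent.Lib.MP_5d3e93_al.Br.Df
import Pool.Agent.Lib.MP_5d3e93_al.Br.Att

/-! The realisation of a monomorphism of simplicial sets is a relative cell complex. -/

open CategoryTheory Topology Set Function Filter Opposite

namespace Pool.Agent.Lib.MP_5d3e93_al.Br

universe u v

open Ps

open Simplicial MonoidalCategory CartesianMonoidalCategory SSet

variable {X Y P Z : SSet.{u}} {x : X _⦋0⦌} {y : Y _⦋0⦌} {p : P _⦋0⦌} {a : ℕ} {n : ℤ}

/-- The realisation of a pointed isomorphism. -/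
noncomputable def cxIso (E : X ≅ Y) (h : E.hom.app _ x = y) : rl X x ≅ rl Y y where
  hom := rlm E.hom h
  inv := rlm E.inv (h ▸ congrArg (fun k : X ⟶ X => k.app _ x) E.hom_inv_id)
  hom_inv_id := Ps.ext fun q =>
    (rm_comp _ _ q).symm.trans ((congrArg (rm · q) E.hom_inv_id).trans (rm_id q))
  inv_hom_id := Ps.ext fun q =>
    (rm_comp _ _ q).symm.trans ((congrArg (rm · q) E.inv_hom_id).trans (rm_id q))

theorem cx_low (i : X ⟶ Y) {d m : ℕ} (h : d < m) (z : Y _⦋d⦌) :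
    z ∈ (skeletonOfMono i m).obj (op ⦋d⦌) := by
  rw [skeletonOfMono_obj_eq_top i h]
  trivial

theorem cx_old (i : X ⟶ Y) {d : ℕ} (m : ℕ) {z : Y _⦋d⦌} (h : z ∈ range (i.app _)) :
    z ∈ (skeletonOfMono i m).obj (op ⦋d⦌) := Or.inl h

theorem cx_deg (i : X ⟶ Y) {d : ℕ} {z : Y _⦋d⦌} (h : z ∉ Y.nonDegenerate d) :
    z ∈ (skeletonOfMono i d).obj (op ⦋d⦌) := by
  obtain ⟨m, hm, f, w, rfl⟩ : z ∈ Y.degenerate d := not_not.1 h
  exact (skeletonOfMono i d).map f.op (cx_low i hm w)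

/-- The inclusion of one relative skeleton in the next. -/
abbrev cxV (i : X ⟶ Y) (d : ℕ) :
    (skeletonOfMono i d : SSet.{u}) ⟶ (skeletonOfMono i (d + 1) : SSet.{u}) :=
  Subcomplex.homOfLE ((skeletonOfMono i).monotone d.le_succ)

/-- The cells of the pair as new cells of the next skeleton. -/
def cxN (i : X ⟶ Y) (d : ℕ) (z : Cl i d) : NewC (cxV i d) d :=
  ⟨⟨z.1.1, cx_low i d.lt_succ_self _⟩, (Subcomplex.mem_nonDegenerate_iff _ _).2 z.1.2,
    fun ⟨w, e⟩ => by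
      have k : z.1.1 ∈ (skeletonOfMono i d).obj _ := congrArg Subtype.val e ▸ w.2
      exact ((mem_skeletonOfMono_obj_iff_of_nonDegenerate i z.1 d).1 k).elim z.2 (lt_irrefl d)⟩

theorem cxN_inj (i : X ⟶ Y) (d : ℕ) : Injective (cxN i d) := fun _ _ e =>
  Subtype.ext (Subtype.ext (congrArg (fun c : NewC (cxV i d) d => c.1.1) e))

theorem cxN_surj (i : X ⟶ Y) (d : ℕ) : Surjective (cxN i d) := fun c =>
  ⟨⟨⟨c.1.1, (Subcomplex.mem_nonDegenerate_iff _ _).1 c.2.1⟩,
    fun h => c.2.2 ⟨⟨c.1.1, cx_old i d h⟩, rfl⟩⟩, rfl⟩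

theorem cx_face {d : ℕ} (z : Y _⦋d + 1⦌) (k : Fin (d + 2)) (t : Sx d) :
    ch z (fa k t) = ch (Y.δ k z) t :=
  (ch_nat (SimplexCategory.δ k) z t).symm

theorem cx_cl (i : X ⟶ Y) {C : Set (Rl Y)}
    (h : ∀ d, IsClosed (rm (skeletonOfMono i d).ι ⁻¹' C)) : IsClosed C :=
  rl_isClosed.2 fun m z => by
    have e : ch z ⁻¹' C = ch (X := skeletonOfMono i (m + 1)) ⟨z, cx_low i m.lt_succ_self z⟩ ⁻¹'
        (rm (skeletonOfMono i (m + 1)).ι ⁻¹' C) :=
      Set.ext fun t => iff_of_eq (congrArg (· ∈ C)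
        (ch_map (skeletonOfMono i (m + 1)).ι ⟨z, cx_low i m.lt_succ_self z⟩ t).symm)
    exact e ▸ (h (m + 1)).preimage (ContinuousMap.continuous _)

theorem cx_some (i : X ⟶ Y) {d : ℕ} (z : Cl i (d + 1)) (w : Cl i d) (k : Fin (d + 2))
    (e : Y.δ k z.1.1 = w.1.1) (t : Sx d) :
    ch (cxN i (d + 1) z).1 (fa k t) = rm (cxV i (d + 1)) (ch (cxN i d w).1 t) := by
  rw [cx_face, ch_map]
  exact congrArg (ch · t) (Subtype.ext e)

theorem cx_none (i : X ⟶ Y) {d : ℕ} (z : Cl i (d + 1)) (k : Fin (d + 2))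
    (c : Y.δ k z.1.1 ∈ (skeletonOfMono i d).obj (op ⦋d⦌)) (t : Sx d) :
    ch (cxN i (d + 1) z).1 (fa k t) =
      rm (cxV i (d + 1)) (rm (cxV i d) (ch (X := skeletonOfMono i d) ⟨_, c⟩ t)) := by
  rw [cx_face, ch_map, ch_map]
  rfl

/-- The cell structure of the realisation of a monomorphism. -/
noncomputable def cxK (i : X ⟶ Y) (h : i.app _ x = y) : Cx (rl Y y) where
  W d := rl (skeletonOfMono i d) ⟨y, cx_old i d ⟨x, h⟩⟩
  v d := rlm (cxV i d) rfl
  w d := rlm (skeletonOfMono i d).ι rfl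
  vw d := Ps.ext fun q => (rm_comp _ _ q).symm
  jq :=
    { t1 := rl_t1
      inj := fun d => rm_inj _
      surj := fun q => by
        obtain ⟨m, z, t, rfl⟩ := ch_surj q
        exact .inr ⟨m + 1, ch_mem _ (cx_low i m.lt_succ_self z) t⟩
      cl := fun _ hC => cx_cl i hC }
  emb d := rm_cemb _
  J := Cl i
  ch d z := ch (cxN i d z).1
  st d :=
    { t1 := rl_t1
      emb := rm_cemb _
      bd := fun z t => (att_skm i d).mem_iff (cxN i d z) t
      uniq := fun _ _ t _ e => (sx_pos_or t).symm.imp_right fun ht =>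
        ((att_skm i d).uniq ht e).imp_left fun k => cxN_inj i d k
      surj := fun q => ((att_skm i d).cases q).imp_right fun ⟨c, t, _, e⟩ => by
        obtain ⟨z, rfl⟩ := cxN_surj i d c
        exact ⟨z, t, e⟩
      cl := fun C h1 h2 => isOpen_compl_iff.1 (isOpen_iff_continuous_mem.2
        ((att_skm i d).cont (isOpen_iff_continuous_mem.1 h1.isOpen_compl) fun c => by
          obtain ⟨z, rfl⟩ := cxN_surj i d c
          exact isOpen_iff_continuous_mem.1 (h2 z).isOpen_compl)) }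
  fc := clf i _
  fc_some {d} z k w e t := by
    unfold clf at e
    split_ifs at e with c
    obtain rfl := Option.some.inj e
    exact cx_some i z _ k rfl t
  fc_none {d} z k e t := by
    have c : Y.δ k z.1.1 ∈ (skeletonOfMono i d).obj (op ⦋d⦌) := by
      unfold clf at e
      split_ifs at e with c
      by_cases c' : Y.δ k z.1.1 ∈ Y.nonDegenerate d
      · exact cx_old i d (not_not.1 fun k => c ⟨c', k⟩)
      · exact cx_deg i c'
    exact ⟨_, cx_none i z k c t⟩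

theorem ex_cx (i : X ⟶ Y) [Mono i] (h : i.app _ x = y) : ∃ (K : Cx (rl Y y)) (e : rl X x ≅ K.W 0)
    (b : ∀ d, K.J d ≃ Cl i d), e.hom ≫ K.w 0 = rlm i h ∧
      ∀ d (z : K.J (d + 1)) k, (K.fc z k).map (b d) = clf i d (b _ z) k := by
  let E : X ≅ skeletonOfMono i 0 :=
    asIso (Subcomplex.toRange i) ≪≫ Subcomplex.eqToIso (skeletonOfMono_zero i).symm
  have e : E.hom ≫ (skeletonOfMono i 0).ι = i := rfl
  exact ⟨cxK i h, cxIso E (Subtype.ext h : _ = (⟨y, cx_old i 0 ⟨x, h⟩⟩ : (skeletonOfMono i 0).obj _)), fun _ => .refl _,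
    Ps.ext fun q => (rm_comp _ _ q).symm.trans (congrArg (rm · q) e), fun _ _ _ => Option.map_id'⟩

end Pool.Agent.Lib.MP_5d3e93_al.Br
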