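import Pool.Agent.Lib.MP_5d3e93_al.Br.Hq

/-! Simplicial mapping cones and suspensions. -/

open CategoryTheory Limits Opposite Simplicial AlgebraicTopology ZeroObject

namespace Pool.Agent.Lib.MP_5d3e93_al.Br

universe u v

/-- Labels that are not constant. -/
abbrev Nc (q : SimplexCategory) : Type := {α : q ⟶ ⦋1⦌ // Function.Surjective α.toOrderHom}

noncomputable instance (q : SimplexCategory) : Fintype (Nc q) := Fintype.ofFinite _

/-- The map to the point. -/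
abbrev tm (q : SimplexCategory) : q ⟶ ⦋0⦌ := SimplexCategory.const q ⦋0⦌ 0

/-- A constant label. -/
abbrev cst (q : SimplexCategory) (e : Fin 2) : q ⟶ ⦋1⦌ := SimplexCategory.const q ⦋1⦌ e

theorem lab_cases {q : SimplexCategory} (β : q ⟶ ⦋1⦌) :
    Function.Surjective β.toOrderHom ∨ β = cst q 0 ∨ β = cst q 1 := by
  by_cases h0 : ∀ i, β.toOrderHom i = (0 : Fin 2)
  · exact .inr (.inl (SimplexCategory.Hom.ext _ _ (OrderHom.ext _ _ (funext h0))))
  by_cases h1 : ∀ i, β.toOrderHom i = (1 : Fin 2)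
  · exact .inr (.inr (SimplexCategory.Hom.ext _ _ (OrderHom.ext _ _ (funext h1))))
  obtain ⟨i, hi⟩ := not_forall.1 h0
  obtain ⟨j, hj⟩ := not_forall.1 h1
  have k : ∀ x : Fin 2, (x ≠ 0 → x = 1) ∧ (x ≠ 1 → x = 0) := by decide
  refine .inl fun (e : Fin 2) => ?_
  by_cases c : e = 0
  · exact ⟨j, ((k _).2 hj).trans c.symm⟩
  · exact ⟨i, ((k _).1 hi).trans ((k e).1 c).symm⟩

theorem cst_not (q : SimplexCategory) (e : Fin 2) : ¬ Function.Surjective (cst q e).toOrderHom :=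
  fun h => by
    obtain ⟨_, a⟩ := h (0 : Fin 2)
    obtain ⟨_, b⟩ := h (1 : Fin 2)
    exact absurd (a.symm.trans b) (by decide : (0 : Fin 2) ≠ 1)

theorem cst_ne (q : SimplexCategory) : cst q 1 ≠ cst q 0 := fun h =>
  absurd (congrArg (fun α : q ⟶ ⦋1⦌ => α.toOrderHom 0) h) (by decide : (1 : Fin 2) ≠ 0)

theorem comp_cst {q q' : SimplexCategory} (θ : q' ⟶ q) (e : Fin 2) : θ ≫ cst q e = cst q' e := rfl

theorem tm_δ0 (q : SimplexCategory) : tm q ≫ SimplexCategory.δ 0 = cst q 1 := rfl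

theorem tm_δ1 (q : SimplexCategory) : tm q ≫ SimplexCategory.δ 1 = cst q 0 := rfl

theorem comp_tm {q q' : SimplexCategory} (θ : q' ⟶ q) : θ ≫ tm q = tm q' := rfl

section
variable {C : Type u} [Category.{v} C] [Preadditive C] [HasFiniteBiproducts C]
  [HasBinaryBiproducts C] {X Y X' Y' : C} (g : X ⟶ Y)

open Classical in
/-- The piece with a given label. -/
noncomputable def cyP {q : SimplexCategory} (β : q ⟶ ⦋1⦌) : X ⟶ Y ⊞ ⨁ fun _ : Nc q => X :=
  if h : Function.Surjective β.toOrderHom then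
    biproduct.ι (fun _ : Nc q => X) ⟨β, h⟩ ≫ biprod.inr
  else if β = cst q 0 then g ≫ biprod.inl else 0

theorem cyP_nc {q : SimplexCategory} (α : Nc q) :
    cyP g α.1 = biproduct.ι (fun _ : Nc q => X) α ≫ biprod.inr := dif_pos α.2

theorem cyP_zero (q : SimplexCategory) : cyP g (cst q 0) = g ≫ biprod.inl :=
  (dif_neg (cst_not q 0)).trans (if_pos rfl)

theorem cyP_one (q : SimplexCategory) : cyP g (cst q 1) = 0 :=
  (dif_neg (cst_not q 1)).trans (if_neg (cst_ne q))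

/-- Maps out of a row. -/
theorem cyP_desc {q : SimplexCategory} {Z : C} (y : Y ⟶ Z) (x : (q ⟶ ⦋1⦌) → (X ⟶ Z))
    (h0 : x (cst q 0) = g ≫ y) (h1 : x (cst q 1) = 0) (β : q ⟶ ⦋1⦌) :
    cyP g β ≫ biprod.desc y (biproduct.desc fun α : Nc q => x α.1) = x β := by
  rcases lab_cases β with h | rfl | rfl
  · rw [cyP_nc g ⟨β, h⟩]; simp
  · rw [cyP_zero]; simp [h0]
  · rw [cyP_one, h1, zero_comp]

theorem cy_ext {q : SimplexCategory} {Z : C} {a b : (Y ⊞ ⨁ fun _ : Nc q => X) ⟶ Z}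
    (h : biprod.inl ≫ a = biprod.inl ≫ b) (k : ∀ β, cyP g β ≫ a = cyP g β ≫ b) : a = b :=
  biprod.hom_ext' _ _ h (biproduct.hom_ext' _ _ fun α => by
    simpa only [cyP_nc, Category.assoc] using k α.1)

/-- The mapping cone as a simplicial object: label `0` is glued to `Y`, label `1` is collapsed. -/
noncomputable def Cyl : SimplicialObject C where
  obj q := Y ⊞ ⨁ fun _ : Nc q.unop => X
  map θ := biprod.desc biprod.inl (biproduct.desc fun α => cyP g (θ.unop ≫ α.1))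
  map_id q := biprod.hom_ext' _ _ (by simp) (biproduct.hom_ext' _ _ fun α => by simp [cyP_nc])
  map_comp θ η := biprod.hom_ext' _ _ (by simp) (biproduct.hom_ext' _ _ fun α => by
    simp only [biprod.inr_desc, biproduct.ι_desc, biprod.inr_desc_assoc, biproduct.ι_desc_assoc]
    rw [cyP_desc g biprod.inl (fun β => cyP g (η.unop ≫ β)) (cyP_zero g _) (cyP_one g _)]
    rfl)

/-- The base of the cone. -/
noncomputable def cyI (q : SimplexCategoryᵒᵖ) : Y ⟶ (Cyl g).obj q := biprod.inl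

/-- The piece with a given label. -/
noncomputable def cyJ {q : SimplexCategoryᵒᵖ} (β : q.unop ⟶ ⦋1⦌) : X ⟶ (Cyl g).obj q := cyP g β

@[reassoc] theorem cyI_map {q q' : SimplexCategoryᵒᵖ} (θ : q ⟶ q') :
    cyI g q ≫ (Cyl g).map θ = cyI g q' := biprod.inl_desc _ _

@[reassoc] theorem cyJ_map {q q' : SimplexCategoryᵒᵖ} (θ : q ⟶ q') (β : q.unop ⟶ ⦋1⦌) :
    cyJ g β ≫ (Cyl g).map θ = cyJ g (θ.unop ≫ β) :=
  cyP_desc g biprod.inl (fun β => cyP g (θ.unop ≫ β)) (cyP_zero g _) (cyP_one g _) β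

theorem cyJ_zero (q : SimplexCategoryᵒᵖ) : cyJ g (cst q.unop 0) = g ≫ cyI g q := cyP_zero g _

theorem cyJ_one (q : SimplexCategoryᵒᵖ) : cyJ g (cst q.unop 1) = 0 := cyP_one g _

theorem cyl_ext {q : SimplexCategoryᵒᵖ} {Z : C} {a b : (Cyl g).obj q ⟶ Z}
    (h : cyI g q ≫ a = cyI g q ≫ b) (k : ∀ β, cyJ g β ≫ a = cyJ g β ≫ b) : a = b := cy_ext g h k

variable {P : SimplicialObject C} (y : Y ⟶ P _⦋0⦌) (i : X ⟶ P _⦋1⦌)

/-- A row of a map out of the cone. -/
noncomputable def cyR (q : SimplexCategoryᵒᵖ) : (Cyl g).obj q ⟶ P.obj q :=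
  biprod.desc (y ≫ P.map (tm q.unop).op) (biproduct.desc fun α => i ≫ P.map α.1.op)

@[reassoc] theorem cyI_R (q : SimplexCategoryᵒᵖ) :
    cyI g q ≫ cyR g y i q = y ≫ P.map (tm q.unop).op := biprod.inl_desc _ _

variable (h0 : i ≫ P.δ 0 = 0) (h1 : i ≫ P.δ 1 = g ≫ y)

include h0 h1 in
@[reassoc] theorem cyJ_R {q : SimplexCategoryᵒᵖ} (β : q.unop ⟶ ⦋1⦌) :
    cyJ g β ≫ cyR g y i q = i ≫ P.map β.op :=
  cyP_desc g _ (fun β => i ≫ P.map β.op)
    (by rw [← tm_δ1, op_comp, P.map_comp, ← Category.assoc, ← Category.assoc, ← h1]; rfl)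
    (by
      rw [← tm_δ0, op_comp, P.map_comp, ← Category.assoc]
      exact (congrArg (· ≫ _) h0).trans zero_comp) β

/-- Maps out of the cone. -/
noncomputable def cyD : Cyl g ⟶ P where
  app q := cyR g y i q
  naturality q q' θ := cyl_ext g
    (by rw [cyI_map_assoc, cyI_R, cyI_R_assoc, ← P.map_comp]; rfl)
    fun β => by
      rw [cyJ_map_assoc, cyJ_R g y i h0 h1, cyJ_R_assoc g y i h0 h1, ← P.map_comp]; rfl

theorem cyJ_δ0 : cyJ g (q := op ⦋1⦌) (𝟙 _) ≫ (Cyl g).δ 0 = 0 := by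
  rw [SimplicialObject.δ, cyJ_map, ← cyJ_one g (op ⦋0⦌)]
  exact congrArg (cyJ g (q := op ⦋0⦌)) (SimplexCategory.Hom.ext _ _ (OrderHom.ext _ _
    (funext fun i => by rw [Subsingleton.elim (α := Fin 1) i 0]; rfl)))

theorem cyJ_δ1 : cyJ g (q := op ⦋1⦌) (𝟙 _) ≫ (Cyl g).δ 1 = g ≫ cyI g _ := by
  rw [SimplicialObject.δ, cyJ_map, ← cyJ_zero g (op ⦋0⦌)]
  exact congrArg (cyJ g (q := op ⦋0⦌)) (SimplexCategory.Hom.ext _ _ (OrderHom.ext _ _
    (funext fun i => by rw [Subsingleton.elim (α := Fin 1) i 0]; rfl)))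

variable {g} {g' : X' ⟶ Y'} (a : X ⟶ X') (b : Y ⟶ Y') (e : a ≫ g' = g ≫ b)

/-- The map of cones induced by a square. -/
noncomputable def cyM : Cyl g ⟶ Cyl g' :=
  cyD g (b ≫ cyI g' _) (a ≫ cyJ g' (𝟙 _)) (by rw [Category.assoc, cyJ_δ0, comp_zero])
    (by rw [Category.assoc, cyJ_δ1, reassoc_of% e])

@[reassoc] theorem cyI_M (q : SimplexCategoryᵒᵖ) :
    cyI g q ≫ (cyM a b e).app q = b ≫ cyI g' q := by
  refine (cyI_R g _ _ q).trans ?_
  rw [Category.assoc, cyI_map]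

@[reassoc] theorem cyJ_M {q : SimplexCategoryᵒᵖ} (β : q.unop ⟶ ⦋1⦌) :
    cyJ g β ≫ (cyM a b e).app q = a ≫ cyJ g' β := by
  refine (cyJ_R g _ _ (by rw [Category.assoc, cyJ_δ0, comp_zero])
    (by rw [Category.assoc, cyJ_δ1, reassoc_of% e]) β).trans ?_
  rw [Category.assoc, cyJ_map]
  exact congrArg (a ≫ cyJ g' ·) (Category.comp_id β)

end

instance : HasFiniteBiproducts SA.{u} := Abelian.hasFiniteBiproducts

instance : HasFiniteBiproducts Chc.{u} := Abelian.hasFiniteBiproducts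

section
variable {X Y X' Y' : SA.{u}}

/-- The simplicial mapping cone. -/
noncomputable abbrev Con (g : X ⟶ Y) : SA.{u} := dg.obj (Cyl g)

/-- The suspension. -/
noncomputable abbrev Sus (X : SA.{u}) : SA.{u} := Con (0 : X ⟶ 0)

/-- The suspension of a map. -/
noncomputable def susM (a : X ⟶ X') : Sus X ⟶ Sus X' := dg.map (cyM a 0 (by simp))

/-- The base of the cone. -/
noncomputable def conI (g : X ⟶ Y) : Y ⟶ Con g where
  app n := (cyI g n).app n
  naturality n m θ := by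
    have := congrArg (·.app n ≫ ((Cyl g).obj m).map θ) (cyI_map g θ)
    exact ((cyI g m).naturality θ).trans (this.symm.trans (Category.assoc _ _ _))

/-- The projection to the suspension. -/
noncomputable def conQ (g : X ⟶ Y) : Con g ⟶ Sus X := dg.map (cyM (𝟙 X) 0 (by simp))

/-- The suspension map of a reduced bisimplicial abelian group. -/
noncomputable def sg (P : BS.{u}) (h : IsZero (P.obj (op ⦋0⦌))) :
    Sus (P.obj (op ⦋1⦌)) ⟶ dg.obj P :=
  dg.map (cyD (P := P) _ 0 (𝟙 _) (h.eq_of_tgt _ _) (h.eq_of_tgt _ _))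

end

end Pool.Agent.Lib.MP_5d3e93_al.Br
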