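import Pool.Agent.Lib.MP_5d3e93_al.Br.Cyl
import Pool.Agent.Lib.MP_5d3e93_al.Br.R1

/-! Sums, and connectivity of maps out of cones. -/

open CategoryTheory Limits Opposite Simplicial AlgebraicTopology ZeroObject

namespace Pool.Agent.Lib.MP_5d3e93_al.Br

universe u v w

section CylA
variable {a b : ℕ} {X Y X' Y' Z : SA.{u}} {ι : Type} [Fintype ι]

theorem cya_c (f : X ⟶ Y) (g : Y ⟶ Z) (n : ℕ) (x : (CC.obj X).X n) :
    (CC.map g).f n ((CC.map f).f n x) = (CC.map (f ≫ g)).f n x := rfl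

theorem cya_add (f g : X ⟶ Y) (n : ℕ) (x : (CC.obj X).X n) :
    (CC.map (f + g)).f n x = (CC.map f).f n x + (CC.map g).f n x := rfl

theorem cya_zero (n : ℕ) (x : (CC.obj X).X n) : (CC.map (0 : X ⟶ Y)).f n x = 0 := rfl

theorem cya_id (n : ℕ) (x : (CC.obj X).X n) : (CC.map (𝟙 X)).f n x = x := rfl

theorem cya_sum {κ : Type} (s : Finset κ) (f : κ → (X ⟶ Y)) (n : ℕ) (x : (CC.obj X).X n) :
    (CC.map (∑ i ∈ s, f i)).f n x = ∑ i ∈ s, (CC.map (f i)).f n x := by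
  classical
  induction s using Finset.induction_on with
  | empty => rw [Finset.sum_empty, Finset.sum_empty, cya_zero]
  | insert i s h ih => rw [Finset.sum_insert h, Finset.sum_insert h, cya_add, ih]

theorem cya_tot₂ {n : ℕ} (x : (CC.obj (X ⊞ Y)).X n) :
    x = (CC.map biprod.inl).f n ((CC.map biprod.fst).f n x) +
      (CC.map biprod.inr).f n ((CC.map biprod.snd).f n x) := by
  rw [cya_c, cya_c, ← cya_add, biprod.total, cya_id]

theorem cya_tot {A : ι → SA.{u}} {n : ℕ} (x : (CC.obj (⨁ A)).X n) :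
    x = ∑ i, (CC.map (biproduct.ι A i)).f n ((CC.map (biproduct.π A i)).f n x) := by
  simp only [cya_c]
  rw [← cya_sum, biproduct.total, cya_id]

theorem cya_cy_add {K : Chc.{u}} {n : ℕ} {x y : K.X n} (h : IsCy K n x) (k : IsCy K n y) :
    IsCy K n (x + y) := by
  unfold IsCy at h k ⊢
  rw [map_add, h, k, add_zero]

theorem cya_cy_sum {K : Chc.{u}} {n : ℕ} {x : ι → K.X n} (h : ∀ i, IsCy K n (x i)) :
    IsCy K n (∑ i, x i) := by
  unfold IsCy at h ⊢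
  rw [map_sum]
  exact Finset.sum_eq_zero fun i _ => h i

theorem cn_biprod {f : X ⟶ X'} {g : Y ⟶ Y'} (h : Cn a (CC.map f)) (k : Cn a (CC.map g)) :
    Cn a (CC.map (biprod.map f g)) := by
  refine ⟨fun n c y e => ?_, fun n c x z e m => ?_⟩
  · obtain ⟨x1, z1, c1, e1⟩ := h.1 n c _ (e.map (CC.map biprod.fst))
    obtain ⟨x2, z2, c2, e2⟩ := k.1 n c _ (e.map (CC.map biprod.snd))
    refine ⟨(CC.map biprod.inl).f n x1 + (CC.map biprod.inr).f n x2,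
      (CC.map biprod.inl).f _ z1 + (CC.map biprod.inr).f _ z2,
      cya_cy_add (c1.map _) (c2.map _), (cya_tot₂ y).trans ?_⟩
    rw [e1, e2]
    simp only [map_add, cn_comm, cya_c, biprod.inl_map, biprod.inr_map]
    abel
  · obtain ⟨w1, e1⟩ := h.2 n c _ ((CC.map biprod.fst).f _ z) (e.map (CC.map biprod.fst)) (by
      rw [cn_comm, ← m, cya_c, cya_c, biprod.map_fst])
    obtain ⟨w2, e2⟩ := k.2 n c _ ((CC.map biprod.snd).f _ z) (e.map (CC.map biprod.snd)) (by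
      rw [cn_comm, ← m, cya_c, cya_c, biprod.map_snd])
    refine ⟨(CC.map biprod.inl).f _ w1 + (CC.map biprod.inr).f _ w2, (cya_tot₂ x).trans ?_⟩
    rw [e1, e2, map_add, cn_comm, cn_comm]

theorem cn_biproduct {A B : ι → SA.{u}} {f : ∀ i, A i ⟶ B i} (h : ∀ i, Cn a (CC.map (f i))) :
    Cn a (CC.map (biproduct.map f)) := by
  refine ⟨fun n c y e => ?_, fun n c x z e m => ?_⟩
  · choose x z c1 e1 using fun i => (h i).1 n c _ (e.map (CC.map (biproduct.π B i)))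
    refine ⟨∑ i, (CC.map (biproduct.ι A i)).f n (x i), ∑ i, (CC.map (biproduct.ι B i)).f _ (z i),
      cya_cy_sum fun i => (c1 i).map _, (cya_tot y).trans ?_⟩
    simp only [e1, map_add, map_sum, cn_comm, cya_c, biproduct.ι_map, Finset.sum_add_distrib]
  · choose w e1 using fun i => (h i).2 n c _ ((CC.map (biproduct.π B i)).f _ z)
      (e.map (CC.map (biproduct.π A i))) (by rw [cn_comm, ← m, cya_c, cya_c, biproduct.map_π])
    refine ⟨∑ i, (CC.map (biproduct.ι A i)).f _ (w i), (cya_tot x).trans ?_⟩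
    simp only [e1, map_sum, cn_comm]

theorem cya_key {A : ι → SA.{u}} (φ : ∀ i, A i ⟶ Z) (ψ : ∀ i, Z ⟶ A i)
    (h1 : ∀ i, Hq (CC.map (φ i ≫ ψ i)) (𝟙 _)) (h2 : ∀ i j, i ≠ j → Hq (CC.map (φ i ≫ ψ j)) 0)
    {n : ℕ} {x : ∀ i, (CC.obj (A i)).X n} (c : ∀ i, IsCy _ n (x i)) (j : ι)
    {z : (CC.obj (A j)).X (n + 1)}
    (e : (CC.map (ψ j)).f n (∑ i, (CC.map (φ i)).f n (x i)) = (CC.obj (A j)).d (n + 1) n z) :
    ∃ w, x j = (CC.obj (A j)).d (n + 1) n w := by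
  classical
  obtain ⟨w, e1⟩ := h1 j n _ (c j)
  obtain ⟨v, e2⟩ : ∑ i ∈ Finset.univ.erase j, (CC.map (φ i ≫ ψ j)).f n (x i) ∈
      LinearMap.range ((CC.obj (A j)).d (n + 1) n).hom :=
    Submodule.sum_mem _ fun i hi => (h2 i j (Finset.ne_of_mem_erase hi) n _ (c i)).elim
      fun v k => ⟨v, (k.trans (zero_add _)).symm⟩
  simp only [map_sum, cya_c] at e
  rw [← Finset.add_sum_erase _ _ (Finset.mem_univ j), e1, ← e2, sa_id] at e
  refine ⟨z - v - w, ?_⟩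
  rw [map_sub, map_sub, ← e]
  abel

theorem cya_desc {A : ι → SA.{u}} (φ : ∀ i, A i ⟶ Z) {n : ℕ} (x : (CC.obj (⨁ A)).X n) :
    (CC.map (biproduct.desc φ)).f n x =
      ∑ i, (CC.map (φ i)).f n ((CC.map (biproduct.π A i)).f n x) := by
  conv_lhs => rw [cya_tot x]
  simp only [map_sum]
  simp only [cya_c (biproduct.ι A _), biproduct.ι_desc]

open Classical in
/-- Sum maps: projections up to homology give injectivity. -/
theorem cn_desc {A : ι → SA.{u}} (φ : ∀ i, A i ⟶ Z) (ψ : ∀ i, Z ⟶ A i)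
    (h1 : ∀ i, Hq (CC.map (φ i ≫ ψ i)) (𝟙 _)) (h2 : ∀ i j, i ≠ j → Hq (CC.map (φ i ≫ ψ j)) 0)
    (h3 : ∀ n < a, ∀ z : (CC.obj Z).X n, IsCy _ n z → ∃ (x : ∀ i, (CC.obj (A i)).X n)
      (w : (CC.obj Z).X (n + 1)), (∀ i, IsCy _ n (x i)) ∧
        z = ∑ i, (CC.map (φ i)).f n (x i) + (CC.obj Z).d (n + 1) n w) :
    Cn a (CC.map (biproduct.desc φ)) := by
  refine ⟨fun n c y e => ?_, fun n c x z e m => ?_⟩
  · obtain ⟨x, w, c1, e1⟩ := h3 n c y e
    refine ⟨∑ i, (CC.map (biproduct.ι A i)).f n (x i), w, cya_cy_sum fun i => (c1 i).map _, ?_⟩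
    simp only [e1, map_sum, cya_c, biproduct.ι_desc]
  · choose w e1 using fun j => cya_key φ ψ h1 h2 (fun i => e.map (CC.map (biproduct.π A i))) j
      (z := (CC.map (ψ j)).f _ z) (by rw [← cya_desc, m, cn_comm])
    refine ⟨∑ i, (CC.map (biproduct.ι A i)).f _ (w i), (cya_tot x).trans ?_⟩
    simp only [e1, map_sum, cn_comm]

/-- The same with a base summand. -/
theorem cn_desc₂ {A : ι → SA.{u}} (y : Y ⟶ Z) (r : Z ⟶ Y) (φ : ∀ i, A i ⟶ Z) (ψ : ∀ i, Z ⟶ A i)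
    (k1 : Hq (CC.map (y ≫ r)) (𝟙 _)) (k2 : ∀ i, Hq (CC.map (y ≫ ψ i)) 0)
    (h1 : ∀ i, Hq (CC.map (φ i ≫ ψ i)) (𝟙 _)) (h2 : ∀ i j, i ≠ j → Hq (CC.map (φ i ≫ ψ j)) 0)
    (h3 : ∀ n < a, ∀ z : (CC.obj Z).X n, IsCy _ n z → ∃ (x₀ : (CC.obj Y).X n)
      (x : ∀ i, (CC.obj (A i)).X n) (w : (CC.obj Z).X (n + 1)), IsCy _ n x₀ ∧ (∀ i, IsCy _ n (x i)) ∧
        z = (CC.map y).f n x₀ + ∑ i, (CC.map (φ i)).f n (x i) + (CC.obj Z).d (n + 1) n w) :
    Cn a (CC.map (biprod.desc y (biproduct.desc φ))) := by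
  refine ⟨fun n c t e => ?_, fun n c x z e m => ?_⟩
  · obtain ⟨x₀, x, w, c0, c1, e1⟩ := h3 n c t e
    refine ⟨(CC.map biprod.inl).f n x₀ +
      (CC.map biprod.inr).f n (∑ i, (CC.map (biproduct.ι A i)).f n (x i)), w,
      cya_cy_add (c0.map _) ((cya_cy_sum fun i => (c1 i).map _).map _), ?_⟩
    simp only [e1, map_add, map_sum, cya_c, Category.assoc, biprod.inl_desc, biprod.inr_desc,
      biproduct.ι_desc]
  · have c0 := e.map (CC.map biprod.fst)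
    have c1 := e.map (CC.map biprod.snd)
    have t := cya_tot₂ x
    generalize (CC.map biprod.fst).f n x = x₀ at c0 t
    generalize (CC.map biprod.snd).f n x = x₁ at c1 t
    rw [t, map_add, cya_c, cya_c, biprod.inl_desc, biprod.inr_desc] at m
    choose v e0 using fun j => k2 j n _ c0
    choose w e1 using fun j => cya_key φ ψ h1 h2 (fun i => c1.map (CC.map (biproduct.π A i))) j
      (z := (CC.map (ψ j)).f _ z - v j) (by
        rw [← cya_desc, map_sub, cn_comm, ← m, map_add, cya_c y, e0]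
        change _ = 0 + _ + _ - _
        abel)
    have e2 : x₁ = (CC.obj (⨁ A)).d (n + 1) n (∑ i, (CC.map (biproduct.ι A i)).f _ (w i)) := by
      refine (cya_tot x₁).trans ?_
      simp only [e1, map_sum, cn_comm]
    generalize ∑ i, (CC.map (biproduct.ι A i)).f _ (w i) = w₁ at e2
    obtain ⟨w₀, e3⟩ := k1.symm n _ c0
    rw [sa_id, ← cya_c, eq_sub_of_add_eq m, e2, ← cn_comm, ← map_sub, ← cn_comm, ← map_add] at e3
    generalize (CC.map r).f _ _ + w₀ = w₂ at e3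
    refine ⟨(CC.map biprod.inl).f _ w₂ + (CC.map biprod.inr).f _ w₁, ?_⟩
    rw [map_add, cn_comm, cn_comm, ← e3, ← e2]
    exact t

/-- R4. -/
theorem r4 {P : BS.{u}} (g : X ⟶ Y) (y : Y ⟶ P.obj (op ⦋0⦌)) (i : X ⟶ P.obj (op ⦋1⦌))
    (h0 : i ≫ SimplicialObject.δ P 0 = 0) (h1 : i ≫ SimplicialObject.δ P 1 = g ≫ y)
    (h : ∀ q : ℕ, Cn (b - q) (CC.map (cyR (P := P) g y i (op ⦋q⦌)))) :
    Cn b (CC.map (dg.map (cyD (P := P) g y i h0 h1))) := r1 b _ h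

theorem cya_nc0 (α : Nc ⦋0⦌) : False := by
  obtain ⟨i, a⟩ := α.2 (0 : Fin 2)
  obtain ⟨j, b⟩ := α.2 (1 : Fin 2)
  rw [Subsingleton.elim (α := Fin 1) i j] at a
  exact absurd (a.symm.trans b) (by decide : (0 : Fin 2) ≠ 1)

theorem cya_nc1 (α : Nc ⦋1⦌) : α = ⟨𝟙 _, Function.surjective_id⟩ :=
  have := SimplexCategory.epi_iff_surjective.2 α.2
  Subtype.ext (SimplexCategory.eq_id_of_epi α.1)

/-- R3, first part. Rows `0` and `1` are isomorphisms. -/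
theorem r3 (P : BS.{u}) (h0 : IsZero (P.obj (op ⦋0⦌)))
    (h : ∀ q : ℕ, 2 ≤ q → Cn a (CC.map (biproduct.desc fun α : Nc ⦋q⦌ => P.map α.1.op))) :
    Cn (a + 2) (CC.map (sg P h0)) := by
  refine r4 _ _ _ _ _ fun q => ?_
  have e : cyR (P := P) (0 : P.obj (op ⦋1⦌) ⟶ 0) 0 (𝟙 _) (op ⦋q⦌) =
      biprod.snd ≫ biproduct.desc fun α : Nc ⦋q⦌ => P.map α.1.op :=
    biprod.hom_ext' _ _ ((isZero_zero _).eq_of_src _ _) (by simp [cyR])
  have : IsIso (biprod.snd : (0 ⊞ ⨁ fun _ : Nc ⦋q⦌ => P.obj (op ⦋1⦌)) ⟶ _) :=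
    ⟨biprod.inr, biprod.hom_ext' _ _ ((isZero_zero _).eq_of_src _ _) (by simp), by simp⟩
  rw [e]
  refine (CC.map_comp _ _).symm ▸ (cn_iso _ (CC.map biprod.snd)).comp
    (g := CC.map (biproduct.desc fun α : Nc ⦋q⦌ => P.map α.1.op)) ?_
  match q with
  | 0 =>
    have : IsIso (biproduct.desc fun α : Nc ⦋0⦌ => P.map α.1.op) :=
      ⟨0, biproduct.hom_ext' _ _ fun α => (cya_nc0 α).elim, h0.eq_of_src _ _⟩
    exact cn_iso _ _
  | 1 =>
    have : IsIso (biproduct.desc fun α : Nc ⦋1⦌ => P.map α.1.op) :=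
      ⟨biproduct.ι (fun _ : Nc ⦋1⦌ => P.obj (op ⦋1⦌)) ⟨𝟙 _, Function.surjective_id⟩,
        biproduct.hom_ext' _ _ fun α => by rw [cya_nc1 α]; simp, by simp⟩
    exact cn_iso _ _
  | q + 2 => exact (h _ (by omega)).mono (by omega)

theorem cya_row {g : X ⟶ Y} {g' : X' ⟶ Y'} {s : X ⟶ X'} {t : Y ⟶ Y'} (e : s ≫ g' = g ≫ t)
    (q : SimplexCategoryᵒᵖ) :
    (cyM s t e).app q = biprod.map t (biproduct.map fun _ : Nc q.unop => s) := by
  refine biprod.hom_ext' _ _ ((cyI_M s t e q).trans (biprod.inl_map _ _).symm)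
    (biproduct.hom_ext' _ _ fun α => ?_)
  have k := cyJ_M s t e α.1
  unfold cyJ at k
  rw [cyP_nc, cyP_nc] at k
  refine (Category.assoc _ _ _).symm.trans (k.trans ?_)
  change _ = _ ≫ biprod.inr ≫ biprod.map t (biproduct.map fun _ : Nc q.unop => s)
  rw [biprod.inr_map, biproduct.ι_map_assoc]
  rfl

/-- Row `q` of `cyM` is `biprod.map v (biproduct.map _)`; `Nc ⦋0⦌` is empty. -/
theorem cn_con {g : X ⟶ Y} {g' : X' ⟶ Y'} {s : X ⟶ X'} {t : Y ⟶ Y'} (e : s ≫ g' = g ≫ t)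
    (h : Cn a (CC.map s)) (k : Cn (a + 1) (CC.map t)) :
    Cn (a + 1) (CC.map (dg.map (cyM s t e))) := by
  refine r1 _ _ fun q => ?_
  rw [cya_row]
  refine cn_biprod (k.mono (by omega)) (cn_biproduct fun α => ?_)
  match q with
  | 0 => exact (cya_nc0 α).elim
  | q + 1 => exact h.mono (by omega)

theorem cn_sus {s : X ⟶ X'} (h : Cn a (CC.map s)) : Cn (a + 1) (CC.map (susM s)) := by
  refine cn_con _ h ?_
  rw [(isZero_zero SA.{u}).eq_of_src 0 (𝟙 _)]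
  exact cn_iso _ _

theorem cya_ext {P : BS.{u}} {f g : Cyl (0 : X ⟶ 0) ⟶ P}
    (k : ∀ (q : SimplexCategoryᵒᵖ) (β : q.unop ⟶ ⦋1⦌),
      cyJ 0 β ≫ f.app q = cyJ 0 β ≫ g.app q) : dg.map f = dg.map g :=
  congrArg dg.map (NatTrans.ext (funext fun q =>
    cyl_ext _ ((isZero_zero _).eq_of_src _ _) (k q)))

theorem susM_id (X : SA.{u}) : susM (𝟙 X) = 𝟙 _ :=
  (cya_ext fun q β => by rw [cyJ_M, Category.id_comp, NatTrans.id_app, Category.comp_id]).trans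
    (dg.map_id _)

theorem susM_comp (s : X ⟶ X') (t : X' ⟶ Z) : susM (s ≫ t) = susM s ≫ susM t :=
  (cya_ext fun q β => by
    rw [NatTrans.comp_app, cyJ_M_assoc, cyJ_M, cyJ_M, Category.assoc]).trans (dg.map_comp _ _)

theorem susM_add (s t : X ⟶ X') : susM (s + t) = susM s + susM t :=
  (cya_ext fun q β => by
    rw [NatTrans.app_add, Preadditive.comp_add, cyJ_M, cyJ_M, cyJ_M, Preadditive.add_comp]).trans
    dg.map_add

theorem susM_zero : susM (0 : X ⟶ X') = 0 :=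
  (cya_ext fun q β => by rw [cyJ_M, NatTrans.app_zero, zero_comp, comp_zero]).trans
    (dg.map_zero _ _)

theorem sg_nat {P Q : BS.{u}} (f : P ⟶ Q) (h : IsZero (P.obj (op ⦋0⦌)))
    (k : IsZero (Q.obj (op ⦋0⦌))) :
    susM (f.app (op ⦋1⦌)) ≫ sg Q k = sg P h ≫ dg.map f := by
  refine (dg.map_comp _ _).symm.trans ((cya_ext fun q β => ?_).trans (dg.map_comp _ _))
  have a1 := cyJ_R (P := Q) (0 : Q.obj (op ⦋1⦌) ⟶ 0) 0 (𝟙 _) (k.eq_of_tgt _ _) (k.eq_of_tgt _ _) β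
  have a2 := cyJ_R (P := P) (0 : P.obj (op ⦋1⦌) ⟶ 0) 0 (𝟙 _) (h.eq_of_tgt _ _) (h.eq_of_tgt _ _) β
  rw [NatTrans.comp_app, NatTrans.comp_app, cyJ_M_assoc, ← Category.assoc (cyJ 0 β)]
  refine (congrArg (_ ≫ ·) a1).trans (Eq.trans ?_ (congrArg (· ≫ _) a2).symm)
  rw [Category.id_comp, Category.id_comp]
  exact (f.naturality _).symm
end CylA

end Pool.Agent.Lib.MP_5d3e93_al.Br
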