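import Pool.Agent.Lib.MP_5d3e93_al.Br.Cyl
import Pool.Agent.Lib.MP_5d3e93_al.Br.FourH
import Pool.Agent.Lib.MP_5d3e93_al.Br.R1

/-! The exact sequence of a cone and desuspension. -/

open CategoryTheory Limits Opposite Simplicial AlgebraicTopology ZeroObject

namespace Pool.Agent.Lib.MP_5d3e93_al.Br

universe u

variable {a : ℕ} {X Y X' Y' Z : SA.{u}}

theorem cylB_se {S : ShortComplex SA.{u}}
    (h : ∀ n, (S.map ((evaluation _ _).obj n)).ShortExact) : S.ShortExact :=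
  (JointlyReflectIsomorphisms.shortExact_iff (F := fun n => (evaluation _ _).obj n)
    ⟨fun f hf => @NatIso.isIso_of_isIso_app _ _ _ _ _ _ f hf⟩ S).2 h

/-- The rows of a map of cones. -/
theorem cylB_M {g : X ⟶ Y} {g' : X' ⟶ Y'} (s : X ⟶ X') (t : Y ⟶ Y') (e : s ≫ g' = g ≫ t)
    (q : SimplexCategoryᵒᵖ) :
    (cyM s t e).app q = biprod.map t (biproduct.map fun _ : Nc q.unop => s) := by
  refine biprod.hom_ext' _ _ ((cyI_M s t e q).trans (biprod.inl_map _ _).symm)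
    (biproduct.hom_ext' _ _ fun α => ?_)
  have h : (biproduct.ι (fun _ : Nc q.unop => X) α ≫ biprod.inr) ≫ (cyM s t e).app q =
      s ≫ biproduct.ι (fun _ : Nc q.unop => X') α ≫ biprod.inr :=
    ((congrArg (· ≫ _) (cyP_nc g α)).symm.trans (cyJ_M s t e α.1)).trans
      (congrArg (s ≫ ·) (cyP_nc g' α))
  refine ((Category.assoc _ _ _).symm.trans h).trans ?_
  change s ≫ biproduct.ι (fun _ : Nc q.unop => X') α ≫ biprod.inr =
    biproduct.ι (fun _ : Nc q.unop => X) α ≫ biprod.inr ≫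
      biprod.map t (biproduct.map fun _ : Nc q.unop => s)
  simp

theorem cylB_map_id (q : SimplexCategory) :
    (biproduct.map fun _ : Nc q => 𝟙 X) = 𝟙 (⨁ fun _ : Nc q => X) :=
  biproduct.hom_ext' _ _ fun _ => by simp

theorem cylB_row1 (Y S : SA.{u}) : (ShortComplex.mk (biprod.inl : Y ⟶ Y ⊞ S)
    (biprod.map (0 : Y ⟶ 0) (𝟙 S)) (by simp)).ShortExact :=
  ShortComplex.Splitting.shortExact
    { r := biprod.fst
      s := biprod.snd ≫ biprod.inr
      f_r := biprod.inl_fst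
      s_g := biprod.hom_ext' _ _ ((isZero_zero _).eq_of_src _ _) (by simp)
      id := by simp }

theorem cylB_row2 {g : X ⟶ Y} {q : Y ⟶ Z} {h : g ≫ q = 0} (k : (ShortComplex.mk _ _ h).ShortExact)
    (S : SA.{u}) : (ShortComplex.mk (biprod.map g (𝟙 S)) (biprod.desc q (0 : S ⟶ Z))
      (biprod.hom_ext' _ _ (by simp [h]) (by simp))).ShortExact := by
  have m : Mono g := k.mono_f
  have e : Epi q := k.epi_g
  have e' : Epi (biprod.desc q (0 : S ⟶ Z)) := epi_of_epi_fac (biprod.inl_desc q 0)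
  refine { exact := ShortComplex.exact_of_f_is_kernel _ (KernelFork.IsLimit.ofι' _ _ fun w hw => ?_) }
  have hw' : (w ≫ biprod.fst) ≫ q = 0 := by
    rw [← hw, Category.assoc]
    congr 1
    exact biprod.hom_ext' _ _ (by simp) (by simp)
  exact ⟨biprod.lift (k.exact.lift _ hw') (w ≫ biprod.snd), biprod.hom_ext _ _
    (by simpa using k.exact.lift_f _ hw') (by simp)⟩

theorem cylB_JD (g : X ⟶ Y) (q : Y ⟶ Z) (h : g ≫ q = 0) {n : SimplexCategoryᵒᵖ}
    (β : n.unop ⟶ ⦋1⦌) : cyJ g β ≫ (biprod.desc q 0 : (Cyl g).obj n ⟶ Z) = 0 := by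
  have e : (0 : (⨁ fun _ : Nc n.unop => X) ⟶ Z) = biproduct.desc fun _ => 0 :=
    biproduct.hom_ext' _ _ fun _ => by simp
  rw [e]
  exact cyP_desc g q (fun _ => 0) h.symm rfl β

theorem cylB_ID (g : X ⟶ Y) (q : Y ⟶ Z) (n : SimplexCategoryᵒᵖ) :
    cyI g n ≫ (biprod.desc q 0 : (Cyl g).obj n ⟶ Z) = q := biprod.inl_desc _ _

/-- Maps out of the cone that kill the labels. -/
noncomputable def conD (g : X ⟶ Y) (q : Y ⟶ Z) (h : g ≫ q = 0) : Con g ⟶ Z where
  app n := (biprod.desc q 0 : (Cyl g).obj n ⟶ Z).app n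
  naturality n m θ := by
    have e : (Cyl g).map θ ≫ (biprod.desc q 0 : (Cyl g).obj m ⟶ Z) = biprod.desc q 0 :=
      cyl_ext g (by rw [cyI_map_assoc, cylB_ID, cylB_ID]) fun β => by
        rw [cyJ_map_assoc, cylB_JD g q h, cylB_JD g q h]
    refine (Category.assoc _ _ _).trans ?_
    refine (congrArg (_ ≫ ·) ((biprod.desc q 0 : (Cyl g).obj m ⟶ Z).naturality θ)).trans ?_
    exact (Category.assoc _ _ _).symm.trans (congrArg (·.app n ≫ Z.map θ) e)

theorem conI_D (g : X ⟶ Y) (q : Y ⟶ Z) (h : g ≫ q = 0) : conI g ≫ conD g q h = q :=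
  NatTrans.ext (funext fun n => congrArg (·.app n) (cylB_ID g q n))

theorem conI_Q (g : X ⟶ Y) : conI g ≫ conQ g = 0 :=
  NatTrans.ext (funext fun n => congrArg (·.app n)
    ((cyI_M (g := g) (g' := (0 : X ⟶ 0)) (𝟙 X) 0 (by simp) n).trans zero_comp))

theorem con_se (g : X ⟶ Y) : (ShortComplex.mk _ _ (conI_Q g)).ShortExact := by
  refine cylB_se fun n => ?_
  have e := cylB_M (g := g) (g' := (0 : X ⟶ 0)) (𝟙 X) 0 (by simp) n
  rw [cylB_map_id] at e
  refine ShortComplex.shortExact_of_iso ?_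
    ((cylB_row1 Y (⨁ fun _ : Nc n.unop => X)).map_of_exact ((evaluation _ _).obj n))
  exact ShortComplex.isoMk (Iso.refl _) (Iso.refl _) (Iso.refl _)
    ((Category.id_comp _).trans (Category.comp_id _).symm)
    ((Category.id_comp _).trans ((congrArg (·.app n) e).trans (Category.comp_id _).symm))

theorem conI_M {g : X ⟶ Y} {g' : X' ⟶ Y'} {s : X ⟶ X'} {t : Y ⟶ Y'} (e : s ≫ g' = g ≫ t) :
    conI g ≫ dg.map (cyM s t e) = t ≫ conI g' :=
  NatTrans.ext (funext fun n => congrArg (·.app n) (cyI_M s t e n))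

theorem conM_Q {g : X ⟶ Y} {g' : X' ⟶ Y'} {s : X ⟶ X'} {t : Y ⟶ Y'} (e : s ≫ g' = g ≫ t) :
    dg.map (cyM s t e) ≫ conQ g' = conQ g ≫ susM s := by
  unfold conQ susM
  rw [← dg.map_comp, ← dg.map_comp]
  refine congrArg dg.map (NatTrans.ext (funext fun q => cyl_ext g ?_ fun β => ?_))
  · rw [NatTrans.comp_app, NatTrans.comp_app, cyI_M_assoc, cyI_M, cyI_M_assoc]
    simp
  · rw [NatTrans.comp_app, NatTrans.comp_app, cyJ_M_assoc, cyJ_M, cyJ_M_assoc, cyJ_M]
    simp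

/-- The sequence of the cone. -/
noncomputable abbrev conS (g : X ⟶ Y) : ShortComplex Chc.{u} :=
  (ShortComplex.mk _ _ (conI_Q g)).map CC

theorem conS_se (g : X ⟶ Y) : (conS g).ShortExact := sa_shortExact (con_se g)

/-- The map of sequences induced by a square. -/
noncomputable def conSM {g : X ⟶ Y} {g' : X' ⟶ Y'} (s : X ⟶ X') (t : Y ⟶ Y')
    (e : s ≫ g' = g ≫ t) : conS g ⟶ conS g' :=
  CC.mapShortComplex.map
    { τ₁ := t, τ₂ := dg.map (cyM s t e), τ₃ := susM s, comm₁₂ := (conI_M e).symm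
      comm₂₃ := conM_Q e }

/-- The pointwise maximum of two labels. -/
def labMax {q : SimplexCategory} (s t : q ⟶ ⦋1⦌) : q ⟶ ⦋1⦌ :=
  SimplexCategory.Hom.mk ⟨fun i => max (s.toOrderHom i) (t.toOrderHom i), fun _ _ h =>
    max_le_max (s.toOrderHom.monotone h) (t.toOrderHom.monotone h)⟩

theorem lab_ext {q k : SimplexCategory} {s t : q ⟶ k} (h : ∀ i, s.toOrderHom i = t.toOrderHom i) :
    s = t := SimplexCategory.Hom.ext _ _ (OrderHom.ext _ _ (funext h))

theorem labMax_zero {q : SimplexCategory} (s : q ⟶ ⦋1⦌) : labMax s (cst q 0) = s :=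
  lab_ext fun _ => max_eq_left (Fin.zero_le _)

theorem labMax_one {q : SimplexCategory} (s : q ⟶ ⦋1⦌) : labMax s (cst q 1) = cst q 1 :=
  lab_ext fun _ => max_eq_right (Fin.le_last _)

theorem zero_labMax {q : SimplexCategory} (s : q ⟶ ⦋1⦌) : labMax (cst q 0) s = s :=
  lab_ext fun _ => max_eq_right (Fin.zero_le _)

theorem one_labMax {q : SimplexCategory} (s : q ⟶ ⦋1⦌) : labMax (cst q 1) s = cst q 1 :=
  lab_ext fun _ => max_eq_left (Fin.le_last _)

/-- The rows of the contraction of the cone of the identity. -/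
noncomputable def cylB_H (X : SA.{u}) {q : SimplexCategory} (s : q ⟶ ⦋1⦌) :
    (Cyl (𝟙 X)).obj (op q) ⟶ (Cyl (𝟙 X)).obj (op q) :=
  biprod.desc (cyJ (𝟙 X) (q := op q) s)
    (biproduct.desc fun α : Nc q => cyJ (𝟙 X) (q := op q) (labMax s α.1))

@[reassoc] theorem cylB_IH {q : SimplexCategory} (s : q ⟶ ⦋1⦌) :
    cyI (𝟙 X) (op q) ≫ cylB_H X s = cyJ (𝟙 X) (q := op q) s := biprod.inl_desc _ _

@[reassoc] theorem cylB_JH {q : SimplexCategory} (s β : q ⟶ ⦋1⦌) :
    cyJ (𝟙 X) (q := op q) β ≫ cylB_H X s = cyJ (𝟙 X) (q := op q) (labMax s β) :=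
  cyP_desc (𝟙 X) _ (fun β => cyJ (𝟙 X) (q := op q) (labMax s β))
    (by rw [labMax_zero, Category.id_comp]) (by rw [labMax_one]; exact cyJ_one _ (op q)) β

/-- The contraction of the cone of the identity. -/
noncomputable def cylB_T (X : SA.{u}) : TH (𝟙 (Con (𝟙 X))) 0 where
  H n s := (cylB_H X s).app (op n)
  nat {m n} a s := by
    have e : cylB_H X s ≫ (Cyl (𝟙 X)).map a.op = (Cyl (𝟙 X)).map a.op ≫ cylB_H X (a ≫ s) :=
      cyl_ext _ (by rw [cylB_IH_assoc, cyJ_map, cyI_map_assoc, cylB_IH]; rfl) fun β => by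
        rw [cylB_JH_assoc, cyJ_map, cyJ_map_assoc, cylB_JH]
        rfl
    change (cylB_H X s).app _ ≫ ((Cyl (𝟙 X)).map a.op).app _ ≫ ((Cyl (𝟙 X)).obj _).map a.op =
      (((Cyl (𝟙 X)).map a.op).app _ ≫ ((Cyl (𝟙 X)).obj _).map a.op) ≫ (cylB_H X (a ≫ s)).app _
    rw [Category.assoc, NatTrans.naturality, ← Category.assoc, ← Category.assoc,
      ← NatTrans.comp_app, ← NatTrans.comp_app, e]
  h0 n := by
    have e : cylB_H X (cst n 0) = 𝟙 _ := cyl_ext _
      (by rw [cylB_IH, Category.comp_id, cyJ_zero _ (op n), Category.id_comp]) fun β => by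
        rw [cylB_JH, zero_labMax, Category.comp_id]
    exact congrArg (·.app (op n)) e
  h1 n := by
    have e : cylB_H X (cst n 1) = 0 := cyl_ext _
      (by rw [cylB_IH, cyJ_one _ (op n), comp_zero]) fun β => by
        rw [cylB_JH, one_labMax, cyJ_one _ (op n), comp_zero]
    exact congrArg (·.app (op n)) e

/-- The cone of the identity is acyclic. -/
theorem ac_con_id (X : SA.{u}) (a : ℕ) : Ac a (CC.obj (Con (𝟙 X))) :=
  Ac.of_hq ((Hq.of_eq (CC.map_id _).symm).trans ((Hq.of_homotopy (cylB_T X).chain).trans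
    (Hq.of_eq (CC.map_zero _ _)))) a

theorem hq_conI (g : X ⟶ Y) : Hq (CC.map (g ≫ conI g)) 0 := by
  rw [← conI_M (g := 𝟙 X) (g' := g) (s := 𝟙 X) (t := g) rfl, CC.map_comp]
  exact ((Ac.hq (ac_con_id X) _ 0).post _).trans (Hq.of_eq zero_comp)

/-- Desuspension of connectivity. -/
theorem cn_sus_iff (a : ℕ) (f : X ⟶ X') : Cn (a + 1) (CC.map (susM f)) ↔ Cn a (CC.map f) :=
  cn_quot_iff (conSM (g := 𝟙 X) (g' := 𝟙 X') f f (by simp)) (conS_se _) (conS_se _) (ac_con_id X)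
    (ac_con_id X') a

theorem cn_of_sus {s : X ⟶ X'} (h : Cn (a + 1) (CC.map (susM s))) : Cn a (CC.map s) :=
  (cn_sus_iff a s).1 h

theorem hm_sus {f f' : X ⟶ X'} {n : ℕ} :
    HomologicalComplex.homologyMap (CC.map (susM f)) (n + 1) =
      HomologicalComplex.homologyMap (CC.map (susM f')) (n + 1) ↔
    HomologicalComplex.homologyMap (CC.map f) n = HomologicalComplex.homologyMap (CC.map f') n :=
  ⟨hq_sub_at (conSM (g := 𝟙 X) (g' := 𝟙 X') f f (by simp))
      (conSM (g := 𝟙 X) (g' := 𝟙 X') f' f' (by simp)) (conS_se _) (ac_con_id X _),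
    hq_quot_at (conSM (g := 𝟙 X) (g' := 𝟙 X') f f (by simp))
      (conSM (g := 𝟙 X) (g' := 𝟙 X') f' f' (by simp)) (conS_se _) (ac_con_id X' _)⟩

theorem ac_sus : Ac (a + 1) (CC.obj (Sus X)) ↔ Ac a (CC.obj X) :=
  ⟨ac_sub (conS_se (𝟙 X)) (ac_con_id X _), fun h => ac_quot (conS_se (𝟙 X)) h (ac_con_id X _)⟩

/-- The cone is acyclic exactly in the range where the map is connected. -/
theorem ac_con (g : X ⟶ Y) : Ac a (CC.obj (Con g)) ↔ Cn a (CC.map g) := by
  have i : ∀ b, Cn b (conSM (g := g) (g' := 𝟙 Y) g (𝟙 Y) rfl).τ₁ := fun b => cn_iso b (CC.map (𝟙 Y))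
  constructor
  · intro h
    exact cn_of_sus (cn_four₃ (conSM (g := g) (g' := 𝟙 Y) g (𝟙 Y) rfl) (conS_se _) (conS_se _)
      (i _) (cn_of_ac h (ac_con_id Y _) _))
  · intro h
    exact (ac_con_id Y a).of_cn' (cn_four₂ (conSM (g := g) (g' := 𝟙 Y) g (𝟙 Y) rfl) (conS_se _)
      (conS_se _) (i _) ((cn_sus_iff a g).2 h))

theorem hq_sus {s t : X ⟶ X'} : Hq (CC.map (susM s)) (CC.map (susM t)) ↔ Hq (CC.map s) (CC.map t) :=
  ⟨fun h => hq_iff.2 fun n => hm_sus.1 (hq_iff.1 h (n + 1)),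
    hq_quot (conSM (g := 𝟙 X) (g' := 𝟙 X') s s (by simp))
      (conSM (g := 𝟙 X) (g' := 𝟙 X') t t (by simp)) (conS_se _) (ac_con_id X')⟩

theorem cn_conI (g : X ⟶ Y) : Cn (a + 1) (CC.map (conI g)) ↔ Ac a (CC.obj X) :=
  (cn_f_iff (conS_se g) _).trans ac_sus

theorem cn_conQ (g : X ⟶ Y) : Cn (a + 1) (CC.map (conQ g)) ↔ Ac a (CC.obj Y) :=
  cn_g_iff (conS_se g) a

theorem cylB_MD {g : X ⟶ Y} {q : Y ⟶ Z} (h : g ≫ q = 0) :
    dg.map (cyM (g := 𝟙 X) (g' := g) (𝟙 X) g rfl) ≫ conD g q h = 0 :=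
  NatTrans.ext (funext fun n => congrArg (·.app n) (show (cyM (g := 𝟙 X) (g' := g) (𝟙 X) g rfl).app n ≫
      (biprod.desc q 0 : (Cyl g).obj n ⟶ Z) = 0 from cyl_ext _
    (by rw [cyI_M_assoc, cylB_ID, h, comp_zero]) fun β => by
      rw [cyJ_M_assoc, cylB_JD g q h, comp_zero, comp_zero]))

/-- The cone of a monomorphism and its quotient. -/
theorem cn_conD {g : X ⟶ Y} {q : Y ⟶ Z} {h : g ≫ q = 0}
    (k : (ShortComplex.mk _ _ h).ShortExact) (a : ℕ) : Cn a (CC.map (conD g q h)) := by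
  have se : (ShortComplex.mk _ _ (cylB_MD h)).ShortExact := cylB_se fun n => by
    have e := cylB_M (g := 𝟙 X) (g' := g) (𝟙 X) g rfl n
    rw [cylB_map_id] at e
    refine ShortComplex.shortExact_of_iso ?_
      ((cylB_row2 k (⨁ fun _ : Nc n.unop => X)).map_of_exact ((evaluation _ _).obj n))
    exact ShortComplex.isoMk (Iso.refl _) (Iso.refl _) (Iso.refl _)
      ((Category.id_comp _).trans ((congrArg (·.app n) e).trans (Category.comp_id _).symm))
      ((Category.id_comp _).trans (Category.comp_id _).symm)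
  exact ((cn_g_iff (sa_shortExact se) a).2 (ac_con_id X a)).mono (Nat.le_succ a)

end Pool.Agent.Lib.MP_5d3e93_al.Br
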