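import Pool.Agent.Lib.MP_5d3e93_al.Br.Sa

/-! Simplicial homotopies given by families indexed by the simplices of the interval. -/

open CategoryTheory CategoryTheory.Limits Simplicial Opposite AlgebraicTopology SimplexCategory

namespace Pool.Agent.Lib.MP_5d3e93_al.Br

universe u

section
variable {C : Type*} [Category C] {X Y : SimplicialObject C}

/-- A family `H t : X_n → Y_n`, `t` an `n`-simplex of the interval, natural in `n`. -/
structure TH (f g : X ⟶ Y) where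
  /-- The maps. -/
  H : ∀ n : SimplexCategory, (n ⟶ ⦋1⦌) → (X.obj (op n) ⟶ Y.obj (op n))
  nat : ∀ {m n : SimplexCategory} (a : m ⟶ n) (t : n ⟶ ⦋1⦌),
    H n t ≫ Y.map a.op = X.map a.op ≫ H m (a ≫ t)
  h0 : ∀ n, H n (const n ⦋1⦌ 0) = f.app (op n)
  h1 : ∀ n, H n (const n ⦋1⦌ 1) = g.app (op n)

variable {f g : X ⟶ Y}

theorem TH.d (T : TH f g) {n : ℕ} (i : Fin (n + 2)) (t : ⦋n + 1⦌ ⟶ ⦋1⦌) :
    T.H _ t ≫ Y.δ i = X.δ i ≫ T.H _ (δ i ≫ t) := T.nat _ t

theorem TH.s (T : TH f g) {n : ℕ} (i : Fin (n + 1)) (t : ⦋n⦌ ⟶ ⦋1⦌) :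
    T.H _ t ≫ Y.σ i = X.σ i ≫ T.H _ (σ i ≫ t) := T.nat _ t

theorem toMk₁_zero' (n : ℕ) : toMk₁ (0 : Fin (n + 2)) = const ⦋n⦌ ⦋1⦌ 1 := by
  refine ConcreteCategory.hom_ext _ _ fun k => ?_
  exact toMk₁_of_le_castSucc _ _ (Fin.zero_le _)

theorem toMk₁_last' (n : ℕ) : toMk₁ (Fin.last (n + 1)) = const ⦋n⦌ ⦋1⦌ 0 := by
  refine ConcreteCategory.hom_ext _ _ fun k => ?_
  exact toMk₁_of_castSucc_lt _ _ (Fin.castSucc_lt_last _)

/-- The combinatorial homotopy of such a family. -/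
def TH.homotopy (T : TH f g) : SimplicialObject.Homotopy f g where
  h {n} j := X.σ j ≫ T.H _ (toMk₁ j.succ.castSucc)
  h_zero_comp_δ_zero n := by
    rw [Category.assoc, T.d, δ_comp_toMk₁_of_lt _ _ (by simp [Fin.lt_def]), ← Category.assoc]
    have e : X.σ (0 : Fin (n + 1)) ≫ X.δ 0 = 𝟙 _ := X.δ_comp_σ_self (i := 0)
    rw [e, Category.id_comp, ← T.h1, ← toMk₁_zero']
    rfl
  h_last_comp_δ_last n := by
    rw [Category.assoc, T.d, δ_comp_toMk₁_of_le _ _ (by simp), ← Category.assoc]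
    have e : X.σ (Fin.last n) ≫ X.δ (Fin.last (n + 1)) = 𝟙 _ := X.δ_comp_σ_succ (i := Fin.last n)
    rw [e, Category.id_comp, ← T.h0, ← toMk₁_last']
    rfl
  h_succ_comp_δ_castSucc_of_lt {n} i j hij := by
    rw [Category.assoc, T.d, δ_comp_toMk₁_of_lt _ _ (by
      simp only [Fin.lt_def, Fin.le_def, Fin.val_castSucc, Fin.val_succ] at hij ⊢; omega),
      ← Category.assoc, X.δ_comp_σ_of_le hij, Category.assoc]
    rfl
  h_succ_comp_δ_castSucc_succ {n} j := by
    rw [Category.assoc, Category.assoc, T.d, T.d, δ_comp_toMk₁_of_lt _ _ (by simp [Fin.lt_def]),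
      δ_comp_toMk₁_of_le _ _ (by simp [Fin.le_def]), ← Category.assoc, ← Category.assoc]
    have e1 : X.σ j.succ ≫ X.δ j.castSucc.succ = 𝟙 _ := X.δ_comp_σ_self (i := j.succ)
    have e2 : X.σ j.castSucc ≫ X.δ j.castSucc.succ = 𝟙 _ := X.δ_comp_σ_succ (i := j.castSucc)
    rw [e1, e2]
    rfl
  h_castSucc_comp_δ_succ_of_lt {n} i j hji := by
    rw [Category.assoc, T.d, δ_comp_toMk₁_of_le _ _ (by
      simp only [Fin.lt_def, Fin.le_def, Fin.val_castSucc, Fin.val_succ] at hji ⊢; omega),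
      ← Category.assoc, X.δ_comp_σ_of_gt hji, Category.assoc]
    rfl
  h_comp_σ_castSucc_of_le {n} i j hij := by
    rw [Category.assoc, T.s, σ_comp_toMk₁_of_lt _ _ (by
      simp only [Fin.lt_def, Fin.le_def, Fin.val_castSucc, Fin.val_succ] at hij ⊢; omega),
      ← Category.assoc, X.σ_comp_σ hij, Category.assoc]
    rfl
  h_comp_σ_succ_of_lt {n} i j hji := by
    rw [Category.assoc, T.s, σ_comp_toMk₁_of_le _ _ (by
      simp only [Fin.lt_def, Fin.le_def, Fin.val_castSucc, Fin.val_succ] at hji ⊢; omega),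
      ← Category.assoc, ← X.σ_comp_σ hji, Category.assoc]
    rfl

end

/-- The chain homotopy of such a family. -/
noncomputable def TH.chain {X Y : SA.{u}} {f g : X ⟶ Y} (T : TH f g) :
    Homotopy (CC.map f) (CC.map g) := T.homotopy.toChainHomotopy

/-- A simplicial homotopy of maps of simplicial sets gives a chain homotopy. -/
noncomputable def TH.zc {X Y : SSet.{u}} {f g : X ⟶ Y} (T : TH f g) :
    Homotopy (ZC.map f) (ZC.map g) := (T.homotopy.whiskerRight Fr).toChainHomotopy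

/-- A simplicial deformation retraction is a quasi-isomorphism. -/
theorem quasiIso_of_th {X Y : SA.{u}} (p : X ⟶ Y) (i : Y ⟶ X) (e : i ≫ p = 𝟙 Y)
    (T : TH (p ≫ i) (𝟙 X)) : QuasiIso (CC.map p) :=
  (show HomotopyEquiv (CC.obj X) (CC.obj Y) from
    { hom := CC.map p
      inv := CC.map i
      homotopyHomInvId := (Homotopy.ofEq (CC.map_comp p i).symm).trans
        (T.chain.trans (Homotopy.ofEq (CC.map_id X)))
      homotopyInvHomId := Homotopy.ofEq (by rw [← CC.map_comp, e, CC.map_id]) }).quasiIso_hom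

end Pool.Agent.Lib.MP_5d3e93_al.Br
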