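import Pool.Agent.Lib.MP_5d3e93_al.Br.Cyl
import Pool.Agent.Lib.MP_5d3e93_al.Br.Ht

/-! The long edge of a triangle is homologous to the sum of the short edges. -/

open CategoryTheory Limits Opposite Simplicial AlgebraicTopology ZeroObject SimplexCategory

namespace Pool.Agent.Lib.MP_5d3e93_al.Br

universe u

/-- The map of the square to the triangle with values `0, 1, 0, 2`. -/
def cylC_A {n : SimplexCategory} (s t : n ⟶ ⦋1⦌) : n ⟶ ⦋2⦌ :=
  Hom.mk ⟨fun i => (![![0, 1], ![0, 2]] : Fin 2 → Fin 2 → Fin 3) (s.toOrderHom i) (t.toOrderHom i),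
    fun _ _ h => (by decide : ∀ a a' b b' : Fin 2, a ≤ a' → b ≤ b' →
      (![![0, 1], ![0, 2]] : Fin 2 → Fin 2 → Fin 3) a b ≤ ![![0, 1], ![0, 2]] a' b') _ _ _ _
      (s.toOrderHom.monotone h) (t.toOrderHom.monotone h)⟩

/-- The map of the square to the triangle with values `1, 1, 1, 2`. -/
def cylC_B {n : SimplexCategory} (s t : n ⟶ ⦋1⦌) : n ⟶ ⦋2⦌ :=
  Hom.mk ⟨fun i => (![![1, 1], ![1, 2]] : Fin 2 → Fin 2 → Fin 3) (s.toOrderHom i) (t.toOrderHom i),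
    fun _ _ h => (by decide : ∀ a a' b b' : Fin 2, a ≤ a' → b ≤ b' →
      (![![1, 1], ![1, 2]] : Fin 2 → Fin 2 → Fin 3) a b ≤ ![![1, 1], ![1, 2]] a' b') _ _ _ _
      (s.toOrderHom.monotone h) (t.toOrderHom.monotone h)⟩

theorem cylC_ext {n : SimplexCategory} {f g : n ⟶ ⦋2⦌}
    (h : ∀ i, f.toOrderHom i = g.toOrderHom i) : f = g :=
  SimplexCategory.Hom.ext _ _ (OrderHom.ext _ _ (funext h))

variable {P : BS.{u}} (h0 : IsZero (P.obj (op ⦋0⦌))) {A : SA.{u}}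

include h0 in
theorem cylC_const {n k : SimplexCategory} (c : Fin (k.len + 1)) : P.map (const n k c).op = 0 := by
  have : const n k c = tm n ≫ const ⦋0⦌ k c := rfl
  rw [this, op_comp, P.map_comp, h0.eq_of_tgt (P.map (const ⦋0⦌ k c).op) 0, zero_comp]

/-- The suspension map on rows. -/
noncomputable def sgB (s : A ⟶ P.obj (op ⦋1⦌)) : Cyl (0 : A ⟶ 0) ⟶ P :=
  cyD (P := P) _ 0 s (h0.eq_of_tgt _ _) (h0.eq_of_tgt _ _)

theorem cyJ_sgB (s : A ⟶ P.obj (op ⦋1⦌)) {q : SimplexCategoryᵒᵖ} (β : q.unop ⟶ ⦋1⦌) :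
    cyJ _ β ≫ (sgB h0 s).app q = s ≫ P.map β.op :=
  cyJ_R (P := P) _ 0 s (h0.eq_of_tgt _ _) (h0.eq_of_tgt _ _) β

theorem sus_ext {q : SimplexCategoryᵒᵖ} {Z : SA.{u}} {a b : (Cyl (0 : A ⟶ 0)).obj q ⟶ Z}
    (k : ∀ β, cyJ _ β ≫ a = cyJ _ β ≫ b) : a = b := cyl_ext _ ((isZero_zero _).eq_of_src _ _) k

theorem susM_sg (s : A ⟶ P.obj (op ⦋1⦌)) : susM s ≫ sg P h0 = dg.map (sgB h0 s) := by
  refine (dg.map_comp _ _).symm.trans (congrArg dg.map (NatTrans.ext (funext fun q =>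
    sus_ext fun β => ?_)))
  rw [NatTrans.comp_app, cyJ_M_assoc, cyJ_sgB]
  exact congrArg (s ≫ ·) ((cyJ_sgB h0 (𝟙 _) β).trans (Category.id_comp _))

/-- The components of the homotopy. -/
noncomputable def cylC_O (w : A ⟶ P.obj (op ⦋2⦌)) {n : SimplexCategory} (s : n ⟶ ⦋1⦌) :
    (Cyl (0 : A ⟶ 0)).obj (op n) ⟶ P.obj (op n) :=
  biprod.desc 0 (biproduct.desc fun t : Nc n =>
    w ≫ P.map (cylC_A s t.1).op - w ≫ P.map (cylC_B s t.1).op)

include h0 in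
@[reassoc] theorem cylC_J (w : A ⟶ P.obj (op ⦋2⦌)) {n : SimplexCategory} (s t : n ⟶ ⦋1⦌) :
    cyJ (q := op n) _ t ≫ cylC_O w s = w ≫ P.map (cylC_A s t).op - w ≫ P.map (cylC_B s t).op := by
  refine cyP_desc _ 0 (fun t => w ≫ P.map (cylC_A s t).op - w ≫ P.map (cylC_B s t).op) ?_ ?_ t
  · have e1 : cylC_A s (cst n 0) = const n ⦋2⦌ 0 := cylC_ext fun i =>
      (by decide : ∀ a : Fin 2, (![![0, 1], ![0, 2]] : Fin 2 → Fin 2 → Fin 3) a 0 = 0) _
    have e2 : cylC_B s (cst n 0) = const n ⦋2⦌ 1 := cylC_ext fun i =>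
      (by decide : ∀ a : Fin 2, (![![1, 1], ![1, 2]] : Fin 2 → Fin 2 → Fin 3) a 0 = 1) _
    simp only [e1, e2, cylC_const h0, sub_self, comp_zero]
  · have e : cylC_A s (cst n 1) = cylC_B s (cst n 1) := cylC_ext fun i =>
      (by decide : ∀ a : Fin 2, (![![0, 1], ![0, 2]] : Fin 2 → Fin 2 → Fin 3) a 1 =
        (![![1, 1], ![1, 2]] : Fin 2 → Fin 2 → Fin 3) a 1) _
    simp only [e, sub_self]

/-- The homotopy. -/
noncomputable def cylC_T (w : A ⟶ P.obj (op ⦋2⦌)) :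
    TH (dg.map (sgB h0 (w ≫ P.map (δ 2).op)))
      (dg.map (sgB h0 (w ≫ P.map (δ 1).op)) - dg.map (sgB h0 (w ≫ P.map (δ 0).op))) where
  H n s := (cylC_O w s).app (op n)
  nat {m n} a s := by
    have e : cylC_O w s ≫ P.map a.op = (Cyl (0 : A ⟶ 0)).map a.op ≫ cylC_O w (a ≫ s) :=
      sus_ext fun t => by
        rw [cylC_J_assoc h0, cyJ_map_assoc, cylC_J h0, Preadditive.sub_comp, Category.assoc,
          Category.assoc, ← P.map_comp, ← P.map_comp]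
        rfl
    change (cylC_O w s).app _ ≫ (P.map a.op).app _ ≫ (P.obj _).map a.op =
      (((Cyl (0 : A ⟶ 0)).map a.op).app _ ≫ ((Cyl (0 : A ⟶ 0)).obj (op m)).map a.op) ≫
        (cylC_O w (a ≫ s)).app _
    rw [Category.assoc, NatTrans.naturality, ← Category.assoc, ← Category.assoc,
      ← NatTrans.comp_app, ← NatTrans.comp_app, e]
  h0 n := by
    have e : cylC_O w (const n ⦋1⦌ 0) = (sgB h0 (w ≫ P.map (δ 2).op)).app (op n) :=
      sus_ext fun t => by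
        have e1 : cylC_A (const n ⦋1⦌ 0) t = t ≫ δ 2 := cylC_ext fun i =>
          (by decide : ∀ b : Fin 2, (![![0, 1], ![0, 2]] : Fin 2 → Fin 2 → Fin 3) 0 b =
            (2 : Fin 3).succAbove b) _
        have e2 : cylC_B (const n ⦋1⦌ 0) t = const n ⦋2⦌ 1 := cylC_ext fun i =>
          (by decide : ∀ b : Fin 2, (![![1, 1], ![1, 2]] : Fin 2 → Fin 2 → Fin 3) 0 b = 1) _
        rw [cylC_J h0, cyJ_sgB, e1, e2, cylC_const h0, comp_zero, sub_zero, op_comp, P.map_comp,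
          Category.assoc]
    rw [e]
    rfl
  h1 n := by
    have e : cylC_O w (const n ⦋1⦌ 1) = (sgB h0 (w ≫ P.map (δ 1).op)).app (op n) -
        (sgB h0 (w ≫ P.map (δ 0).op)).app (op n) := sus_ext fun t => by
      have e1 : cylC_A (const n ⦋1⦌ 1) t = t ≫ δ 1 := cylC_ext fun i =>
        (by decide : ∀ b : Fin 2, (![![0, 1], ![0, 2]] : Fin 2 → Fin 2 → Fin 3) 1 b =
          (1 : Fin 3).succAbove b) _
      have e2 : cylC_B (const n ⦋1⦌ 1) t = t ≫ δ 0 := cylC_ext fun i =>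
        (by decide : ∀ b : Fin 2, (![![1, 1], ![1, 2]] : Fin 2 → Fin 2 → Fin 3) 1 b =
          (0 : Fin 3).succAbove b) _
      rw [cylC_J h0, Preadditive.comp_sub, cyJ_sgB, cyJ_sgB, e1, e2, op_comp,
        op_comp, P.map_comp, P.map_comp, Category.assoc, Category.assoc]
    rw [e]
    rfl

theorem r3' (P : BS.{u}) (h0 : IsZero (P.obj (op ⦋0⦌))) {A : SA.{u}} (Φ : A ⟶ P.obj (op ⦋2⦌)) :
    Hq (CC.map (susM (Φ ≫ SimplicialObject.δ P 1) ≫ sg P h0))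
      (CC.map (susM (Φ ≫ SimplicialObject.δ P 0) ≫ sg P h0) +
        CC.map (susM (Φ ≫ SimplicialObject.δ P 2) ≫ sg P h0)) := by
  rw [susM_sg, susM_sg, susM_sg]
  refine (Hq.of_eq ?_).trans (Hq.rfl.add (Hq.of_homotopy (cylC_T h0 Φ).chain).symm)
  exact (add_sub_cancel _ _).symm

end Pool.Agent.Lib.MP_5d3e93_al.Br
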