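import Pool.Agent.Lib.MP_5d3e93_al.Br.CylE
import Pool.Agent.Lib.MP_5d3e93_al.Br.CylC

/-! Additivity on homology classes. -/

open CategoryTheory Limits Opposite Simplicial AlgebraicTopology ZeroObject SimplexCategory

namespace Pool.Agent.Lib.MP_5d3e93_al.Br

universe u

theorem nc_iff {q : SimplexCategory} (l : q ⟶ ⦋1⦌) : Function.Surjective l.toOrderHom ↔
    l.toOrderHom 0 = 0 ∧ l.toOrderHom (Fin.last _) = 1 := by
  refine ⟨fun h => ⟨?_, ?_⟩, fun h (e : Fin 2) => ?_⟩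
  · obtain ⟨i, k⟩ := h (0 : Fin 2)
    exact le_antisymm (k ▸ l.toOrderHom.monotone (Fin.zero_le i)) (Fin.zero_le _)
  · obtain ⟨i, k⟩ := h (1 : Fin 2)
    exact le_antisymm (Fin.le_last _) (k ▸ l.toOrderHom.monotone (Fin.le_last i))
  · obtain rfl | rfl : e = 0 ∨ e = 1 := by revert e; decide
    exacts [⟨_, h.1⟩, ⟨_, h.2⟩]

/-- The edge on which a label jumps. -/
theorem ex_edge {q : SimplexCategory} (l : Nc q) : ∃ e : ⦋1⦌ ⟶ q, e ≫ l.1 = 𝟙 _ ∧
    ∀ l' : Nc q, l' ≠ l → ∃ c, e ≫ l'.1 = cst _ c := by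
  induction q using SimplexCategory.rec with | _ n
  obtain ⟨l, hl⟩ := l
  obtain ⟨i, rfl⟩ := toMk₁_surjective l
  obtain ⟨h0, h1⟩ := (nc_iff _).1 hl
  have a0 := (toMk₁_apply_eq_zero_iff i 0).1 h0
  have a1 := (toMk₁_apply_eq_one_iff i (Fin.last n)).1 h1
  simp only [Fin.lt_def, Fin.le_def, Fin.val_castSucc, Fin.val_zero, Fin.val_last] at a0 a1
  let x : Fin (n + 1) := ⟨i - 1, by omega⟩
  let y : Fin (n + 1) := ⟨i, by omega⟩
  refine ⟨mkOfLe x y (by simp [x, y, Fin.le_def]), lab_ext fun (k : Fin 2) => ?_, ?_⟩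
  · obtain rfl | rfl : k = 0 ∨ k = 1 := by revert k; decide
    · exact toMk₁_of_castSucc_lt i x (by simp only [x, Fin.lt_def, Fin.val_castSucc]; omega)
    · exact toMk₁_of_le_castSucc i y (by simp [y])
  · rintro ⟨l', hl'⟩ e
    obtain ⟨j, rfl⟩ := toMk₁_surjective l'
    have : (j : ℕ) ≠ i := fun c => e (Subtype.ext (congrArg toMk₁ (Fin.ext c)))
    by_cases c : (j : ℕ) < i
    · refine ⟨1, lab_ext fun (k : Fin 2) => ?_⟩
      obtain rfl | rfl : k = 0 ∨ k = 1 := by revert k; decide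
      · exact toMk₁_of_le_castSucc j x (by simp only [x, Fin.le_def, Fin.val_castSucc]; omega)
      · exact toMk₁_of_le_castSucc j y (by simp only [y, Fin.le_def, Fin.val_castSucc]; omega)
    · refine ⟨0, lab_ext fun (k : Fin 2) => ?_⟩
      obtain rfl | rfl : k = 0 ∨ k = 1 := by revert k; decide
      · exact toMk₁_of_castSucc_lt j x (by simp only [x, Fin.lt_def, Fin.val_castSucc]; omega)
      · exact toMk₁_of_castSucc_lt j y (by simp only [y, Fin.lt_def, Fin.val_castSucc]; omega)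

variable {a : ℕ} {X Y Z Q : SA.{u}}

theorem hh_id (j : ℕ) (x : (HH j).obj X) : (HH j).map (𝟙 X) x = x := by
  rw [CategoryTheory.Functor.map_id]
  rfl

theorem hh_zero (j : ℕ) (x : (HH j).obj X) : (HH j).map (0 : X ⟶ Y) x = 0 := by
  rw [Functor.map_zero]
  rfl

theorem hh_add (j : ℕ) (f g : X ⟶ Y) (x : (HH j).obj X) :
    (HH j).map (f + g) x = (HH j).map f x + (HH j).map g x := by
  rw [Functor.map_add]
  rfl

theorem hh_sub (j : ℕ) (f g : X ⟶ Y) (x : (HH j).obj X) :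
    (HH j).map (f - g) x = (HH j).map f x - (HH j).map g x := by
  rw [Functor.map_sub]
  rfl

theorem hh_sum {ι : Type} (s : Finset ι) (j : ℕ) (f : ι → (X ⟶ Y)) (x : (HH j).obj X) :
    (HH j).map (∑ i ∈ s, f i) x = ∑ i ∈ s, (HH j).map (f i) x := by
  rw [Functor.map_sum]
  exact (LinearMap.congr_fun (ModuleCat.hom_sum _ _) x).trans (LinearMap.sum_apply _ _ _)

theorem cn_iff_hh {f : X ⟶ Y} : Cn a (CC.map f) ↔
    (∀ j < a, Function.Surjective ((HH j).map f)) ∧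
      ∀ j, j + 1 < a → Function.Injective ((HH j).map f) :=
  cn_iff_h.trans (and_congr (forall₂_congr fun _ _ => ModuleCat.epi_iff_surjective _)
    (forall₂_congr fun _ _ => ModuleCat.mono_iff_injective _))

theorem hq_iff_hh {f g : X ⟶ Y} : Hq (CC.map f) (CC.map g) ↔ ∀ j, (HH j).map f = (HH j).map g :=
  hq_iff

/-- The suspension map from surjectivity of the sum maps. -/
theorem r3_on (M : BS.{u}) (h0 : IsZero (M.obj (op ⦋0⦌)))
    (on : ∀ n : ℕ, ∀ j < a, ∀ z : (HH j).obj (M.obj (op ⦋n⦌)),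
      ∃ w : Nc ⦋n⦌ → (HH j).obj (M.obj (op ⦋1⦌)), z = ∑ l, (HH j).map (M.map l.1.op) (w l)) :
    Cn (a + 2) (CC.map (sg M h0)) := by
  classical
  refine r1 _ _ fun q => cn_desc_h _ _ (fun j c z => ?_) fun j _ x₀ x e => ?_
  · simp only [Category.id_comp, zero_comp, hh_zero, zero_add]
    refine ⟨0, ?_⟩
    obtain rfl | rfl | k : q = 0 ∨ q = 1 ∨ 2 ≤ q := by omega
    · exact ⟨0, by rw [← hh_id j z, h0.eq_of_src (𝟙 _) 0, hh_zero]; simp⟩
    · let o : Nc ⦋1⦌ := ⟨𝟙 _, fun x => ⟨x, rfl⟩⟩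
      refine ⟨Pi.single o z, ?_⟩
      rw [Finset.sum_eq_single o (fun l _ k => by rw [Pi.single_eq_of_ne k, map_zero]) (by simp),
        Pi.single_eq_same]
      exact (hh_id j z).symm.trans (congrArg (fun f => (HH j).map f z) (M.map_id _).symm)
    · exact on q j (by omega) z
  · refine ⟨by rw [← hh_id j x₀, (isZero_zero _).eq_of_src (𝟙 _) 0, hh_zero], fun l => ?_⟩
    simp only [Category.id_comp, zero_comp, hh_zero, zero_add] at e
    obtain ⟨s, s1, s2⟩ := ex_edge l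
    have := congrArg ((HH j).map (M.map s.op)) e
    rw [map_sum, map_zero, Finset.sum_eq_single l (fun l' _ k => by
      obtain ⟨c, k⟩ := s2 l' k
      rw [← hh_comp, ← M.map_comp, ← op_comp, k, cylC_const h0, hh_zero]) (by simp),
      ← hh_comp, ← M.map_comp, ← op_comp, s1, op_id, M.map_id, hh_id] at this
    exact this

theorem cylD_nat {M N : BS.{u}} (f : M ⟶ N) (h : IsZero (M.obj (op ⦋0⦌)))
    (k : IsZero (N.obj (op ⦋0⦌))) : sg M h ≫ dg.map f = susM (f.app (op ⦋1⦌)) ≫ sg N k := by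
  rw [susM_sg]
  refine (dg.map_comp _ _).symm.trans (congrArg dg.map (NatTrans.ext (funext fun q =>
    sus_ext fun β => ?_)))
  rw [cyJ_sgB, NatTrans.comp_app, ← Category.assoc]
  exact (congrArg (· ≫ f.app q) ((cyJ_sgB h (𝟙 _) β).trans (Category.id_comp _))).trans
    (f.naturality β.op)

/-- Additivity on the diagonal. -/
theorem r3c {M M' : BS.{u}} (h0 : IsZero (M.obj (op ⦋0⦌))) (h0' : IsZero (M'.obj (op ⦋0⦌)))
    (on : ∀ n : ℕ, ∀ j < a, ∀ z : (HH j).obj (M.obj (op ⦋n⦌)),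
      ∃ w : Nc ⦋n⦌ → (HH j).obj (M.obj (op ⦋1⦌)), z = ∑ l, (HH j).map (M.map l.1.op) (w l))
    (F : Fin 3 → (M ⟶ M')) (s : M.obj (op ⦋1⦌) ⟶ M'.obj (op ⦋2⦌))
    (hs : ∀ i j, (HH j).map ((F i).app (op ⦋1⦌)) = (HH j).map (s ≫ M'.map (δ i).op))
    {j : ℕ} (hj : j < a + 2) :
    (HH j).map (dg.map (F 1)) = (HH j).map (dg.map (F 0)) + (HH j).map (dg.map (F 2)) := by
  have : Epi ((HH j).map (sg M h0)) := (r3_on M h0 on).epi hj
  have e (i) : (HH j).map (sg M h0) ≫ (HH j).map (dg.map (F i)) =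
      (HH j).map (susM (s ≫ M'.map (δ i).op) ≫ sg M' h0') := by
    rw [← Functor.map_comp, cylD_nat _ h0 h0', Functor.map_comp, Functor.map_comp,
      hq_iff_hh.1 (hq_sus.2 (hq_iff_hh.2 (hs i))) j]
  rw [← cancel_epi ((HH j).map (sg M h0)), Preadditive.comp_add, e, e, e, ← Functor.map_add]
  exact hq_iff.1 (r3' M' h0' s) j

end Pool.Agent.Lib.MP_5d3e93_al.Br
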