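import Pool.Agent.Lib.MP_5d3e93_al.Br.CylB

/-! The relative form of the row lemma, with hypotheses on homology classes. -/

open CategoryTheory Limits Opposite Simplicial AlgebraicTopology ZeroObject

namespace Pool.Agent.Lib.MP_5d3e93_al.Br

universe u

/-- Homology of simplicial abelian groups. -/
noncomputable abbrev HH (j : ℕ) : SA.{u} ⥤ ModuleCat.{u} ℤ :=
  CC ⋙ HomologicalComplex.homologyFunctor _ _ j

variable {a : ℕ} {X Y Z Q : SA.{u}} {ι : Type} [Fintype ι]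

theorem hh_comp (j : ℕ) (f : X ⟶ Y) (g : Y ⟶ Z) (x : (HH j).obj X) :
    (HH j).map (f ≫ g) x = (HH j).map g ((HH j).map f x) := by
  rw [Functor.map_comp]
  rfl

theorem cylE_total (Y : SA.{u}) (A : ι → SA.{u}) : 𝟙 (Y ⊞ ⨁ A) = biprod.fst ≫ biprod.inl +
    ∑ l, (biprod.snd ≫ biproduct.π A l) ≫ biproduct.ι A l ≫ biprod.inr := by
  have t : ∑ l, (biprod.snd ≫ biproduct.π A l) ≫ biproduct.ι A l ≫ biprod.inr =
      (biprod.snd : Y ⊞ ⨁ A ⟶ _) ≫ (∑ l, biproduct.π A l ≫ biproduct.ι A l) ≫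
        (biprod.inr : _ ⟶ Y ⊞ ⨁ A) := by
    simp only [Preadditive.comp_sum, Preadditive.sum_comp, Category.assoc]
  rw [t, biproduct.total, Category.id_comp, biprod.total]

theorem hh_total (j : ℕ) (A : ι → SA.{u}) (c : (HH j).obj (Y ⊞ ⨁ A)) :
    c = (HH j).map biprod.inl ((HH j).map biprod.fst c) +
      ∑ l, (HH j).map (biproduct.ι A l ≫ biprod.inr) ((HH j).map (biprod.snd ≫ biproduct.π A l) c) := by
  have h := congrArg (fun k => (HH j).map k c) (cylE_total Y A)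
  simp only [Functor.map_id, Functor.map_add, Functor.map_sum, ModuleCat.hom_id, ModuleCat.hom_add,
    ModuleCat.hom_sum, LinearMap.add_apply, LinearMap.sum_apply, LinearMap.id_apply] at h
  refine Eq.trans ?_ (h.trans (by simp only [hh_comp]))
  rw [CategoryTheory.Functor.map_id]
  rfl

/-- Sum maps that are onto in a range and injective on homology. -/
theorem cn_desc_h {A : ι → SA.{u}} (y : Y ⟶ Z) (φ : ∀ l, A l ⟶ Z)
    (on : ∀ j < a, ∀ z : (HH j).obj Z, ∃ (v : (HH j).obj Y) (w : ∀ l, (HH j).obj (A l)),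
      z = (HH j).map y v + ∑ l, (HH j).map (φ l) (w l))
    (inj : ∀ j, j + 1 < a → ∀ (v : (HH j).obj Y) (w : ∀ l, (HH j).obj (A l)),
      (HH j).map y v + ∑ l, (HH j).map (φ l) (w l) = 0 → v = 0 ∧ ∀ l, w l = 0) :
    Cn a (CC.map (biprod.desc y (biproduct.desc φ))) := by
  have key : ∀ j (v : (HH j).obj Y) (w : ∀ l, (HH j).obj (A l)),
      (HH j).map (biprod.desc y (biproduct.desc φ)) ((HH j).map biprod.inl v +
        ∑ l, (HH j).map (biproduct.ι A l ≫ biprod.inr) (w l)) =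
      (HH j).map y v + ∑ l, (HH j).map (φ l) (w l) := fun j v w => by
    rw [map_add, map_sum, ← hh_comp, biprod.inl_desc]
    refine congrArg _ (Finset.sum_congr rfl fun l _ => ?_)
    rw [← hh_comp, Category.assoc, biprod.inr_desc, biproduct.ι_desc]
  refine cn_iff_h.2 ⟨fun j hj => (ModuleCat.epi_iff_surjective _).2 fun z => ?_,
    fun j hj => (ModuleCat.mono_iff_injective _).2 ((injective_iff_map_eq_zero _).2 fun c hc => ?_)⟩
  · obtain ⟨v, w, rfl⟩ := on j hj z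
    exact ⟨_, key j v w⟩
  · have e := hh_total j A c
    have hc' : (HH j).map (biprod.desc y (biproduct.desc φ)) c = 0 := hc
    rw [e, key] at hc'
    obtain ⟨h1, h2⟩ := inj j hj _ _ hc'
    rw [h1, map_zero, zero_add] at e
    exact e.trans (Finset.sum_eq_zero fun l _ => by rw [h2 l, map_zero])

/-- Maps out of one entry of the cone are determined on the pieces. -/
theorem cyl_app_ext (g : X ⟶ Y) (q n : SimplexCategoryᵒᵖ) {W : ModuleCat.{u} ℤ}
    {s t : ((Cyl g).obj q).obj n ⟶ W} (h : (cyI g q).app n ≫ s = (cyI g q).app n ≫ t)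
    (k : ∀ l : Nc q.unop, (cyJ g l.1).app n ≫ s = (cyJ g l.1).app n ≫ t) : s = t := by
  let p : (Cyl g).obj q ⟶ Y := biprod.fst
  let r : Nc q.unop → ((Cyl g).obj q ⟶ X) := fun l =>
    (biprod.snd ≫ biproduct.π (fun _ : Nc q.unop => X) l : (Y ⊞ ⨁ fun _ : Nc q.unop => X) ⟶ X)
  have e : 𝟙 ((Cyl g).obj q) = p ≫ cyI g q + ∑ l : Nc q.unop, r l ≫ cyJ g l.1 :=
    (cylE_total Y fun _ : Nc q.unop => X).trans (congrArg _ (Finset.sum_congr rfl fun l _ =>
      congrArg (_ ≫ ·) (cyP_nc g l).symm))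
  clear_value p r
  have e' := congrArg (·.app n) e
  simp only [NatTrans.app_add, NatTrans.app_sum, NatTrans.comp_app, NatTrans.id_app] at e'
  rw [← Category.id_comp s, ← Category.id_comp t, e']
  simp only [Preadditive.add_comp, Preadditive.sum_comp, Category.assoc, h, k]

/-- The relative row lemma: the quotient of the first row computes the diagonal. -/
theorem r4c (P : BS.{u}) (i : X ⟶ P.obj (op ⦋1⦌)) (h1 : i ≫ SimplicialObject.δ P 1 = 0)
    (π : P.obj (op ⦋0⦌) ⟶ Q) (z : (i ≫ SimplicialObject.δ P 0) ≫ π = 0)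
    (se : (ShortComplex.mk _ _ z).ShortExact) (ψ : dg.obj P ⟶ Z) (g : Q ⟶ Z)
    (e1 : ∀ n : SimplexCategoryᵒᵖ, (P.map (tm n.unop).op).app n ≫ ψ.app n = π.app n ≫ g.app n)
    (e2 : ∀ (n : SimplexCategoryᵒᵖ) (l : Nc n.unop),
      i.app n ≫ (P.map l.1.op).app n ≫ ψ.app n = 0)
    (on : ∀ q : ℕ, ∀ j < a - q, ∀ z : (HH j).obj (P.obj (op ⦋q⦌)),
      ∃ (v : (HH j).obj (P.obj (op ⦋0⦌))) (w : Nc ⦋q⦌ → (HH j).obj X),
        z = (HH j).map (P.map (tm ⦋q⦌).op) v + ∑ l, (HH j).map (i ≫ P.map l.1.op) (w l))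
    (inj : ∀ q j : ℕ, j + 1 < a - q → ∀ (v : (HH j).obj (P.obj (op ⦋0⦌))) (w : Nc ⦋q⦌ → (HH j).obj X),
      (HH j).map (P.map (tm ⦋q⦌).op) v + ∑ l, (HH j).map (i ≫ P.map l.1.op) (w l) = 0 →
        v = 0 ∧ ∀ l, w l = 0)
    (hψ : Cn a (CC.map ψ)) : Cn a (CC.map g) := by
  set f := i ≫ SimplicialObject.δ P 0 with hf
  set i' : X ⟶ P.obj (op ⦋1⦌) := i - f ≫ P.map (tm ⦋1⦌).op with hi
  have s0 : ∀ k : Fin 2, P.map (tm ⦋1⦌).op ≫ SimplicialObject.δ P k = 𝟙 _ := fun k => by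
    rw [SimplicialObject.δ, ← P.map_comp, ← op_comp,
      Subsingleton.elim (SimplexCategory.δ k ≫ tm ⦋1⦌) (𝟙 _), op_id, P.map_id]
  have k0 : i' ≫ SimplicialObject.δ P 0 = 0 := by
    rw [hi, Preadditive.sub_comp, Category.assoc, s0, Category.comp_id, sub_self]
  have k1 : i' ≫ SimplicialObject.δ P 1 = (-f) ≫ 𝟙 _ := by
    rw [hi, Preadditive.sub_comp, Category.assoc, s0, h1, zero_sub, Category.comp_id,
      Category.comp_id]
  have kl : ∀ {q : SimplexCategory} (l : q ⟶ ⦋1⦌),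
      i' ≫ P.map l.op = i ≫ P.map l.op - f ≫ P.map (tm q).op := fun l => by
    rw [hi, Preadditive.sub_comp, Category.assoc, ← P.map_comp]
    rfl
  have z' : (-f) ≫ π = 0 := by rw [Preadditive.neg_comp, z, neg_zero]
  have se' : (ShortComplex.mk _ _ z').ShortExact := ShortComplex.shortExact_of_iso
    (S₁ := ShortComplex.mk _ _ z)
    (ShortComplex.isoMk (-Iso.refl _) (Iso.refl _) (Iso.refl _) (by simp) (by simp)) se
  have hs : ∀ (q j : ℕ) (v : (HH j).obj (P.obj (op ⦋0⦌))) (w : Nc ⦋q⦌ → (HH j).obj X),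
      (HH j).map (𝟙 _ ≫ P.map (tm ⦋q⦌).op) v + ∑ l, (HH j).map (i' ≫ P.map l.1.op) (w l) =
      (HH j).map (P.map (tm ⦋q⦌).op) (v - (HH j).map f (∑ l, w l)) +
        ∑ l, (HH j).map (i ≫ P.map l.1.op) (w l) := fun q j v w => by
    simp only [kl, Category.id_comp, Functor.map_sub, ModuleCat.hom_sub, LinearMap.sub_apply,
      Finset.sum_sub_distrib, map_sub, map_sum, hh_comp j f]
    abel
  have c1 : Cn a (CC.map (dg.map (cyD (P := P) (-f) (𝟙 _) i' k0 k1))) := r1 a _ fun q =>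
    cn_desc_h (𝟙 _ ≫ P.map (tm ⦋q⦌).op) (fun l : Nc ⦋q⦌ => i' ≫ P.map l.1.op)
      (fun j hj z => by
        obtain ⟨v, w, rfl⟩ := on q j hj z
        exact ⟨v + (HH j).map f (∑ l, w l), w, by rw [hs, add_sub_cancel_right]⟩)
      (fun j hj v w e => by
        rw [hs] at e
        obtain ⟨e1, e2⟩ := inj q j hj _ _ e
        rw [Finset.sum_eq_zero fun l _ => e2 l, map_zero, sub_zero] at e1
        exact ⟨e1, e2⟩)
  have e : conD (-f) π z' ≫ g = dg.map (cyD (P := P) (-f) (𝟙 _) i' k0 k1) ≫ ψ := by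
    refine NatTrans.ext (funext fun n => ?_)
    change (biprod.desc π 0 : (Cyl (-f)).obj n ⟶ Q).app n ≫ g.app n =
      (cyR (P := P) (-f) (𝟙 _) i' n).app n ≫ ψ.app n
    have a1 : (cyI (-f) n).app n ≫ (biprod.desc π 0 : (Cyl (-f)).obj n ⟶ Q).app n ≫ g.app n =
        (cyI (-f) n).app n ≫ (cyR (P := P) (-f) (𝟙 _) i' n).app n ≫ ψ.app n := by
      rw [← NatTrans.comp_app_assoc, ← NatTrans.comp_app_assoc, cylB_ID, cyI_R, Category.id_comp, e1]
    have a2 : ∀ l : Nc n.unop,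
        (cyJ (-f) l.1).app n ≫ (biprod.desc π 0 : (Cyl (-f)).obj n ⟶ Q).app n ≫ g.app n =
        (cyJ (-f) l.1).app n ≫ (cyR (P := P) (-f) (𝟙 _) i' n).app n ≫ ψ.app n := fun l => by
      rw [← NatTrans.comp_app_assoc, ← NatTrans.comp_app_assoc, cylB_JD _ _ z',
        cyJ_R _ _ _ k0 k1, kl, NatTrans.app_sub, Preadditive.sub_comp, NatTrans.comp_app,
        NatTrans.comp_app, Category.assoc, Category.assoc, e2, e1, ← NatTrans.comp_app_assoc, z]
      simp
    exact cyl_app_ext (-f) n n a1 a2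
  have c2 : Cn a (CC.map (conD (-f) π z') ≫ CC.map g) := by
    rw [← CC.map_comp, e, CC.map_comp]
    exact c1.comp hψ
  cases a with
  | zero => exact cn_zero _
  | succ a => exact c2.of_comp_right (cn_conD se' a)

end Pool.Agent.Lib.MP_5d3e93_al.Br
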