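import Pool.Agent.Lib.MP_5d3e93_al.Br.Hs

/-! A map that splits pointwise induces the sum of the induced maps. -/

open CategoryTheory Topology Set unitInterval Function

namespace Pool.Agent.Lib.MP_5d3e93_al.Br

universe u v

open Ps

variable {X Y : Ps.{u}} {n : ℤ}

theorem sum_bp {t : I} {x : X.X} (h : sk t x = X.S.pt) : X.Bp (t, x) :=
  (congrArg (Quot.lift X.Bp fun _ _ e => propext ⟨fun _ => e.2, fun _ => e.1⟩) h).mpr (.inl rfl)

theorem sum_closed (hY : IsClosed ({Y.pt} : Set Y.X)) : IsClosed ({Y.S.pt} : Set Y.S.X) := by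
  refine isQuotientMap_quot_mk.isClosed_preimage.1 ?_
  have e : Quot.mk _ ⁻¹' ({Y.S.pt} : Set Y.S.X) =
      Prod.fst ⁻¹' {0} ∪ (Prod.fst ⁻¹' {1} ∪ Prod.snd ⁻¹' {Y.pt}) :=
    Set.ext fun a => ⟨fun h => sum_bp (t := a.1) (x := a.2) h,
      fun h => sk_bp (t := a.1) (x := a.2) h⟩
  exact e ▸ (isClosed_singleton.preimage continuous_fst).union
    ((isClosed_singleton.preimage continuous_fst).union (hY.preimage continuous_snd))

theorem sum_closed_Sl (hY : IsClosed ({Y.pt} : Set Y.X)) :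
    ∀ l, IsClosed ({((Sl l).obj Y).pt} : Set ((Sl l).obj Y).X)
  | 0 => hY
  | l + 1 => sum_closed (sum_closed_Sl hY l)

/-- The map `g` splits pointwise into `a` and `b`. -/
def SumP (g a b : X ⟶ Y) : Prop :=
  ∀ x, a.1 x = g.1 x ∧ b.1 x = Y.pt ∨ a.1 x = Y.pt ∧ b.1 x = g.1 x

theorem SumP.sl {g a b : X ⟶ Y} (e : SumP g a b) :
    ∀ l, SumP ((Sl l).map g) ((Sl l).map a) ((Sl l).map b)
  | 0 => e
  | l + 1 => fun y => sk_ind y fun t x => (e.sl l x).imp
    (fun h => ⟨congrArg (sk t) h.1, (congrArg (sk t) h.2).trans (sk_pt t)⟩)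
    fun h => ⟨(congrArg (sk t) h.1).trans (sk_pt t), congrArg (sk t) h.2⟩

open Classical in
theorem sum_if {K Z : Type*} [TopologicalSpace K] [TopologicalSpace Z] {p q : K → Prop}
    (hp : IsClosed {k | p k}) (hq : IsClosed {k | q k}) (h : ∀ k, p k ∨ q k) {f g : K → Z}
    (hf : Continuous f) (hg : Continuous g) (e : ∀ k, p k → q k → f k = g k) :
    Continuous fun k => if p k then f k else g k :=
  Continuous.if (fun k hk => e k (hp.frontier_subset hk) (closure_minimal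
    (s := {k | p k}ᶜ) (fun k a => (h k).resolve_left a) hq
      (frontier_subset_closure ((frontier_compl {k | p k}).symm ▸ hk)))) hf hg

theorem SumP.su (hY : IsClosed ({Y.pt} : Set Y.X)) {g a b : X ⟶ Y} (e : SumP g a b) {j : ℕ}
    (y : G X j) : su 0 (pm g y) = su 0 (pm a y) + su 0 (pm b y) := by
  classical
  refine cl_ind y fun f => ?_
  have bd : ∀ {t : Fin (j + 3) → I}, t ∈ Cube.boundary _ →
      t 0 = 0 ∨ t 0 = 1 ∨ Fin.tail t ∈ Cube.boundary _ := fun ⟨a, h⟩ =>
    a.cases (fun h => h.imp_right .inl) (fun a h => .inr (.inr ⟨a, h⟩)) h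
  let L (c : X ⟶ Y) : Lp (j + 1 + 2) Y.S := ⟨⟨fun t => sk (t 0) (c.1 (f (Fin.tail t))), by fun_prop⟩,
    fun t h => sk_bp ((bd h).imp_right fun h => h.imp_right fun h =>
      (congrArg c.1 (f.2 _ h)).trans c.2)⟩
  show cl (L g) = cl (L a) + cl (L b)
  rw [add_comm (cl (L a)), ← cl_add 0]
  have ea (x) (h : b.1 x = Y.pt) : a.1 x = g.1 x :=
    (e x).elim (·.1) fun k => k.1.trans (h.symm.trans k.2)
  refine cl_eq.2 (ht_of ⟨fun p => if b.1 (f (Fin.tail p.2)) = Y.pt then
    sk (pj ((1 + p.1) * p.2 0)) (a.1 (f (Fin.tail p.2))) else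
    sk (pj ((1 + p.1) * p.2 0 - p.1)) (b.1 (f (Fin.tail p.2))),
    sum_if (q := fun p => a.1 (f (Fin.tail p.2)) = Y.pt) (hY.preimage (by fun_prop))
      (hY.preimage (by fun_prop)) (fun p => (e _).imp (·.2) (·.1)) (by fun_prop) (by fun_prop)
      fun p h k => by rw [h, k, sk_pt, sk_pt]⟩ (fun t => ?_) (fun t => ?_) fun u t h => ?_)
  · show ite _ _ _ = sk (t 0) (g.1 (f (Fin.tail t)))
    split_ifs with h
    · simp [ea _ h]
    · simp [((e _).resolve_left fun k => h k.2).2]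
  · simp only [GenLoop.transAt, GenLoop.coe_copy]
    show ite _ _ _ = ite _ (sk (update t 0 _ 0) (a.1 (f (Fin.tail (update t 0 _)))))
      (sk (update t 0 _ 0) (b.1 (f (Fin.tail (update t 0 _)))))
    simp only [update_self, Fin.tail_update_zero, Icc.coe_one, one_add_one_eq_two]
    split_ifs with h k k
    · rfl
    · rw [h, sk_pt, pj_ge (by linarith), sk_one]
    · rw [((e _).resolve_left fun k => h k.2).1, sk_pt, pj_le (by linarith), sk_zero]
    · rfl
  · show ite _ _ _ = _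
    obtain h | h | h := bd h
    · split_ifs
      · simp [h, pj_le]
      · rw [pj_le (by simpa [h] using u.2.1), sk_zero]
    · split_ifs
      · rw [pj_ge (by simpa [h] using u.2.1), sk_one]
      · rw [pj_ge (by simp [h]), sk_one]
    · have k : f (Fin.tail t) = X.pt := f.2 _ h
      simp [k, a.2, b.2]

theorem hm_add (hY : IsClosed ({Y.pt} : Set Y.X)) {g a b : X ⟶ Y}
    (e : ∀ x, a.1 x = g.1 x ∧ b.1 x = Y.pt ∨ a.1 x = Y.pt ∧ b.1 x = g.1 x) (x : Sh n X) :
    hm n g x = hm n a x + hm n b x := by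
  refine Pre.ind x fun m j h y => ?_
  have k (c : X ⟶ Y) : hm n c ((inf X).of h y) = (inf Y).of (m := m + 1) (j := j + 1)
      (by push_cast; omega) (pm ((inf Y).ev m) (Ps.su 0 (pm ((Sl m).map c) y))) :=
    (Pre.map_of (infm c) h y).trans (Pre.of_up h _ _).symm
  rw [k, k, k, ← map_add, ← map_add]
  exact congrArg _ (congrArg _ ((SumP.sl e m).su (sum_closed_Sl hY m) y))

theorem hm_sum (hY : IsClosed ({Y.pt} : Set Y.X)) {ι : Type v} (s : Finset ι) {g : X ⟶ Y}
    (a : ι → (X ⟶ Y)) (e : ∀ x, (∃ i ∈ s, (a i).1 x = g.1 x ∧ ∀ j ∈ s, j ≠ i → (a j).1 x = Y.pt) ∨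
      g.1 x = Y.pt ∧ ∀ j ∈ s, (a j).1 x = Y.pt) (x : Sh n X) :
    hm n g x = ∑ i ∈ s, hm n (a i) x := by
  classical
  induction s using Finset.induction_on generalizing g with
  | empty =>
    rw [show g = cst X Y from Ps.ext fun y => ((e y).resolve_left (by simp)).1, hm_cst,
      Finset.sum_empty]
  | insert i s hi ih =>
    have ne (j) (hj : j ∈ s) : j ≠ i := fun h => hi (h ▸ hj)
    have k (y) (h : (a i).1 y ≠ Y.pt) : (a i).1 y = g.1 y ∧ ∀ j ∈ s, (a j).1 y = Y.pt := by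
      obtain ⟨l, -, h₁, h₂⟩ := (e y).resolve_right fun c => h (c.2 i (Finset.mem_insert_self ..))
      obtain rfl : i = l := by_contra fun c => h (h₂ i (Finset.mem_insert_self ..) c)
      exact ⟨h₁, fun j hj => h₂ j (Finset.mem_insert_of_mem hj) (ne j hj)⟩
    let g' : X ⟶ Y := ⟨⟨fun y => if (a i).1 y = Y.pt then g.1 y else Y.pt,
      sum_if (q := fun y => ∀ j ∈ s, (a j).1 y = Y.pt) (hY.preimage (a i).1.continuous)
        (by simp only [ofPred_forall]
            exact isClosed_iInter fun j => isClosed_iInter fun _ => hY.preimage (a j).1.continuous)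
        (fun y => (em _).imp_right fun h => (k y h).2) g.1.continuous continuous_const
        fun y h₁ h₂ => (e y).elim (fun ⟨l, hl, c, _⟩ => c.symm.trans
          ((Finset.mem_insert.1 hl).elim (fun d => d ▸ h₁) (h₂ l))) (·.1)⟩,
      (if_pos (a i).2).trans g.2⟩
    rw [Finset.sum_insert hi, hm_add hY (g := g) (a := a i) (b := g') fun y => (em _).symm.imp
      (fun h => ⟨(k y h).1, if_neg h⟩) fun h => ⟨h, if_pos h⟩, ih (g := g') fun y => ?_]
    by_cases h : (a i).1 y = Y.pt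
    · rw [show g'.1 y = g.1 y from if_pos h]
      obtain ⟨l, hl, h₁, h₂⟩ | ⟨h₁, h₂⟩ := e y
      · obtain rfl | hl := Finset.mem_insert.1 hl
        · exact .inr ⟨h₁.symm.trans h, fun j hj => h₂ j (Finset.mem_insert_of_mem hj) (ne j hj)⟩
        · exact .inl ⟨l, hl, h₁, fun j hj => h₂ j (Finset.mem_insert_of_mem hj)⟩
      · exact .inr ⟨h₁, fun j hj => h₂ j (Finset.mem_insert_of_mem hj)⟩
    · exact .inr ⟨if_neg h, (k y h).2⟩

end Pool.Agent.Lib.MP_5d3e93_al.Br
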