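import Pool.Agent.Lib.MP_5d3e93_al.Br.CfB
import Pool.Agent.Lib.MP_5d3e93_al.Br.PrA
import Pool.Agent.Lib.MP_5d3e93_al.Br.Sum

/-! The first differential of a cell complex. -/

open CategoryTheory Topology Set Function Filter Opposite

namespace Pool.Agent.Lib.MP_5d3e93_al.Br

universe u v

open Ps

theorem d1_fa {d : ℕ} {t : Sx (d + 1)} {i : Fin (d + 2)} (h : t i = 0) :
    ∃ s : Sx d, t = fa i s ∧ ∀ k, s k = t (i.succAbove k) := by
  obtain ⟨s, rfl⟩ := sm_face t i h
  exact ⟨s, rfl, fun k => (smap_inj Fin.succAbove_right_injective s k).symm⟩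

/-- The attaching map of a cell. -/
theorem St.ex_att {d : ℕ} {A T : Ps.{u}} {i : A ⟶ T} {J : Type v} {ch : J → C(Sx d, T.X)}
    (H : St d i ch) (x : J) : ∃ a : Pl (Bn d) ⟶ A, bi d ≫ plm (ch x) = a ≫ i := by
  choose f hf using fun t : Bn d => (H.bd x t.1).2 t.2
  refine ⟨plm ⟨f, H.emb.isInducing.continuous_iff.2 ?_⟩, Ps.ext ?_⟩
  · rw [show i.1 ∘ f = fun t => ch x t.1 from funext hf]
    fun_prop
  · rintro (t | _)
    exacts [(hf t).symm, i.2.symm]

theorem Cx.d1 {T : Ps.{u}} (K : Cx T) (d : ℕ) (n : ℤ) (c : K.J (d + 1) →₀ Sh (n + 1) (Dq (d + 1))) :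
    hm n (qk (K.v d)) ((K.st (d + 1)).ndr.bd n
      (Finsupp.liftAddHom (fun x => hm (n + 1) ((K.st (d + 1)).χ x)) c)) =
    Finsupp.liftAddHom (fun x => hm n ((K.st d).χ x))
      (cdif K.fc _ (Finsupp.mapRange.addMonoidHom (cf d 0 n) c)) := by
  induction c using Finsupp.induction_linear with
  | zero => simp only [map_zero]
  | add a b ha hb => simp only [map_add, ha, hb]
  | single x b => ?_
  obtain ⟨a, e⟩ := (K.st (d + 1)).ex_att x
  let g : Fin (d + 2) → (Pl (Bn (d + 1)) ⟶ Q (K.v d)) := fun i =>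
    (K.fc x i).elim (cst _ _) fun y => kp d i ≫ (K.st d).χ y
  have g0 (i z) (h : (kp d i).1 z = (Dq d).pt) : (g i).1 z = (Q (K.v d)).pt := by
    simp only [g]
    cases K.fc x i with
    | none => rfl
    | some y => exact (congrArg ((K.st d).χ y).1 h).trans ((K.st d).χ y).2
  have := (K.st d).t1
  have := t1_Q (K.st d).emb.isClosed_range
  have nt : (K.st (d + 1)).ndr.bd n (hm (n + 1) ((K.st (d + 1)).χ x) b) = _ :=
    (st_one (d + 1)).ndr.nat (K.st (d + 1)).ndr e (c := (K.st (d + 1)).χ x) rfl b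
  rw [Finsupp.liftAddHom_apply_single, nt, ← hm_comp,
    hm_sum isClosed_singleton Finset.univ g, Finsupp.mapRange.addMonoidHom_apply,
    Finsupp.mapRange_single, cdif, Finsupp.liftAddHom_apply_single, AddMonoidHom.finsetSum_apply,
    map_sum]
  · refine Finset.sum_congr rfl fun i _ => ?_
    simp only [g]
    cases K.fc x i with
    | none => simp [hm_cst]
    | some y =>
      simp only [Option.elim, AddMonoidHom.smul_apply, Finsupp.singleAddHom_apply, map_zsmul,
        Finsupp.liftAddHom_apply_single, hm_comp]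
      rw [← map_zsmul, ← cf_sign]
      rfl
  rintro (t | _)
  swap
  · exact .inr ⟨(a ≫ qk _).2, fun j _ => (g j).2⟩
  obtain ⟨k, hk⟩ := t.2
  refine .inl ⟨k, Finset.mem_univ _, ?_, fun j _ l => g0 j _ ?_⟩
  · obtain ⟨s, hs, -⟩ := d1_fa hk
    have q : (K.v (d + 1)).1 (a.1 (.inl t)) = K.ch (d + 1) x (fa k s) :=
      (congrArg (fun f => f.1 (.inl t)) e).symm.trans (congrArg (K.ch (d + 1) x) hs)
    have w := (K.st (d + 1)).emb.injective
    simp only [g]
    rcases o : K.fc x k with _ | y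
    · obtain ⟨z, r⟩ := K.fc_none x k o s
      exact ((congrArg (qk _).1 (w (q.trans r))).trans (qk_i z)).symm
    · exact (congrArg ((K.st d).χ y).1 ((ex_kp d k).choose_spec.1 t s hs)).trans
        (congrArg (qk _).1 (w (q.trans (K.fc_some x k y o s))).symm)
  · by_cases o : t.1 j = 0
    · obtain ⟨s, hs, r⟩ := d1_fa o
      obtain ⟨m, rfl⟩ := Fin.exists_succAbove_eq l.symm
      exact ((ex_kp d j).choose_spec.1 t s hs).trans (dk_bd.2 ⟨m, (r m).trans hk⟩)
    · exact (ex_kp d j).choose_spec.2 t o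

end Pool.Agent.Lib.MP_5d3e93_al.Br
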