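import Pool.Agent.Lib.MP_5d3e93_al.Defs

/-! Preadditive categories and the category of a set with group action. -/

open CategoryTheory Limits

namespace Pool.Agent.Lib.MP_5d3e93_al.As

universe v u

set_option linter.checkUnivs false in
/-- Small preadditive categories. -/
structure AC where
  C : Type u
  [cat : Category.{v} C]
  [pre : Preadditive C]

attribute [instance] AC.cat AC.pre

/-- Additive functors. -/
structure AC.Hom (A B : AC.{v, u}) where
  F : A.C ⥤ B.C
  [add : F.Additive]

attribute [instance] AC.Hom.add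

/-- The identity. -/
def AC.id (A : AC.{v, u}) : A.Hom A := ⟨𝟭 A.C⟩

/-- The composite. -/
def AC.comp {A B D : AC.{v, u}} (Φ : A.Hom B) (H : B.Hom D) : A.Hom D := ⟨Φ.F ⋙ H.F⟩

instance AC.inst : Category AC.{v, u} where
  Hom := AC.Hom
  id := AC.id
  comp := AC.comp

/-- The sum of morphisms. -/
def AC.add {A : AC.{v, u}} {X Y : A.C} (a b : X ⟶ Y) : X ⟶ Y := a + b

/-- The negative of a morphism. -/
def AC.neg {A : AC.{v, u}} {X Y : A.C} (a : X ⟶ Y) : X ⟶ Y := -a

/-- The zero morphism. -/
def AC.zero {A : AC.{v, u}} (X Y : A.C) : X ⟶ Y := 0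

theorem AC.ext {A B : AC.{v, u}} {Φ H : AC.Hom A B} (hy : Φ.F = H.F) : Φ = H := by
  cases Φ
  cases H
  cases hy
  rfl

/-- Sets with an action of `G`. -/
structure GS (G : Type v) [Group G] where
  V : Type v
  [act : MulAction G V]

attribute [instance] GS.act

variable {G : Type v} [Group G]

/-- The action. -/
def GS.sm (T : GS G) (g : G) (t : T.V) : T.V := g • t

/-- Equivariant maps. -/
@[ext] structure GS.Hom (T T' : GS G) where
  f : T.V → T'.V
  eqv : ∀ g t, f (T.sm g t) = T'.sm g (f t)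

theorem GS.comp_eqv {T T' T'' : GS G} (a : T.Hom T') (b : T'.Hom T'') (g : G) (t : T.V) :
    b.f (a.f (T.sm g t)) = T''.sm g (b.f (a.f t)) := by rw [a.eqv, b.eqv]

/-- The identity. -/
def GS.id (T : GS G) : T.Hom T := ⟨fun t => t, fun _ _ => rfl⟩

/-- The composite. -/
def GS.comp {T T' T'' : GS G} (a : T.Hom T') (b : T'.Hom T'') : T.Hom T'' :=
  ⟨fun t => b.f (a.f t), GS.comp_eqv a b⟩

instance GS.cat : Category (GS G) where
  Hom := GS.Hom
  id := GS.id
  comp := GS.comp

/-- Actions of `G` on a preadditive category. -/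
abbrev AC.Ac (A : AC.{v, u}) (G : Type v) [Group G] : Type (max v u) := Act G A.C

variable {A : AC.{v, u}}

section
variable {ρ : A.Ac G}

variable (ρ) in
/-- The objects of the twisted group category. -/
abbrev TwO : Type u := Tw ρ

/-- The coefficients of formal sums. -/
abbrev Cf (X Y : TwO ρ) (g : G) : Type v := X.as ⟶ (ρ.F g).obj Y.as

/-- Formal sums. -/
abbrev TwS (X Y : TwO ρ) : Type v := DFinsupp (Cf X Y)

/-- The group of formal sums. -/
@[instance_reducible] noncomputable def twG (X Y : TwO ρ) : AddCommGroup (TwS X Y) :=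
  DFinsupp.addCommGroup

/-- The sum of formal sums. -/
noncomputable def twA {X Y : TwO ρ} (a b : TwS X Y) : TwS X Y := (twG X Y).add a b

/-- The product of formal sums. -/
noncomputable def twM {X Y Z : TwO ρ} (a : TwS X Y) (b : TwS Y Z) : TwS X Z := Tw.mul a b

theorem twA_l (X Y Z : TwO ρ) (a b : TwS X Y) (c : TwS Y Z) :
    twM (twA a b) c = twA (twM a c) (twM b c) := Tw.add_mul a b c

theorem twA_r (X Y Z : TwO ρ) (a : TwS X Y) (b c : TwS Y Z) :
    twM a (twA b c) = twA (twM a b) (twM a c) := Tw.mul_add a b c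

theorem tw_one (X : TwO ρ) : X.as = (ρ.F 1).obj X.as := (Functor.congr_obj ρ.one X.as).symm

open Classical in
/-- The identity formal sum. -/
noncomputable def twI (X : TwO ρ) : TwS X X := DFinsupp.single (β := Cf X X) 1 (eqToHom (tw_one X))

theorem twM_l {X Y : TwO ρ} (a : TwS X Y) : twM (twI X) a = a := @Category.id_comp (Tw ρ) _ X Y a

theorem twM_r {X Y : TwO ρ} (a : TwS X Y) : twM a (twI Y) = a := @Category.comp_id (Tw ρ) _ X Y a

theorem twM_a {W X Y Z : TwO ρ} (a : TwS W X) (b : TwS X Y) (c : TwS Y Z) :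
    twM (twM a b) c = twM a (twM b c) := @Category.assoc (Tw ρ) _ W X Y Z a b c

variable (ρ) in
/-- The category of formal sums. -/
@[instance_reducible] noncomputable def twC : Category.{v} (TwO ρ) where
  Hom := TwS
  id := twI
  comp := twM
  id_comp := twM_l
  comp_id := twM_r
  assoc := twM_a

end

/-- The twisted group category. -/
noncomputable def tw (ρ : A.Ac G) : AC.{v, u} :=
  @AC.mk (TwO ρ) (twC ρ) (@Preadditive.mk _ (twC ρ) twG twA_l twA_r)

/-- The coefficient of `g` in a formal sum. -/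
def co {ρ : A.Ac G} {X Y : (tw ρ).C} (a : X ⟶ Y) (g : G) : Cf X Y g :=
  DFinsupp.toFun (β := Cf X Y) a g

/-- Objects of the twisted group category placed at a point of a set with action. -/
structure St (ρ : A.Ac G) (T : GS G) : Type (max 1 u v) where
  A : (tw ρ).C
  t : T.V

namespace St

variable {ρ : A.Ac G} {T T' : GS G} {X Y Z : St ρ T}

variable (X Y) in
/-- The coefficient of `g` vanishes unless `g` moves the point of `Y` to the point of `X`. -/
def Sp (a : X.A ⟶ Y.A) : Prop := ∀ g, X.t ≠ T.sm g Y.t → co a g = AC.zero _ _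

variable (X Y) in
/-- The morphisms. -/
@[ext] structure Mor where
  f : X.A ⟶ Y.A
  sp : Sp X Y f

namespace Mor

theorem id_sp (X : St ρ T) : Sp X X (𝟙 X.A) := fun g hy => by
  classical
  exact DFinsupp.single_eq_of_ne (β := fun k => X.A.as ⟶ (ρ.F k).obj X.A.as)
    fun e => hy (by simp [e, GS.sm])

theorem comp_sp (a : Mor X Y) (b : Mor Y Z) : Sp X Z (a.f ≫ b.f) := fun k hy => by
  classical
  refine (DFinsupp.sum_apply (f := a.f)).trans (Finset.sum_eq_zero fun g p => ?_)
  refine (DFinsupp.sum_apply (f := b.f)).trans (Finset.sum_eq_zero fun l q => ?_)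
  refine DFinsupp.single_eq_of_ne (β := fun k => X.A.as ⟶ (ρ.F k).obj Z.A.as) fun e => hy ?_
  have p : X.t = T.sm g Y.t := by_contra fun c => DFinsupp.mem_support_iff.1 p (a.sp g c)
  have q : Y.t = T.sm l Z.t := by_contra fun c => DFinsupp.mem_support_iff.1 q (b.sp l c)
  simp [p, q, e, GS.sm, mul_smul]

theorem add_sp (a b : Mor X Y) : Sp X Y (AC.add a.f b.f) := fun g hy =>
  (congrArg₂ (· + ·) (a.sp g hy) (b.sp g hy)).trans (add_zero 0)

theorem neg_sp (a : Mor X Y) : Sp X Y (AC.neg a.f) := fun g hy =>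
  (congrArg (-·) (a.sp g hy)).trans neg_zero

theorem zero_sp (X Y : St ρ T) : Sp X Y (AC.zero X.A Y.A) := fun _ _ => rfl

/-- The identity. -/
noncomputable def id (X : St ρ T) : Mor X X := ⟨𝟙 X.A, id_sp X⟩

/-- The composite. -/
noncomputable def comp (a : Mor X Y) (b : Mor Y Z) : Mor X Z := ⟨a.f ≫ b.f, comp_sp a b⟩

/-- The sum. -/
noncomputable def add (a b : Mor X Y) : Mor X Y := ⟨AC.add a.f b.f, add_sp a b⟩

/-- The negative. -/
noncomputable def neg (a : Mor X Y) : Mor X Y := ⟨AC.neg a.f, neg_sp a⟩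

/-- Zero. -/
noncomputable def zero (X Y : St ρ T) : Mor X Y := ⟨AC.zero X.A Y.A, zero_sp X Y⟩

theorem id_comp (a : Mor X Y) : (id X).comp a = a := Mor.ext (Category.id_comp _)

theorem comp_id (a : Mor X Y) : a.comp (id Y) = a := Mor.ext (Category.comp_id _)

theorem assoc {W : St ρ T} (a : Mor W X) (b : Mor X Y) (c : Mor Y Z) :
    (a.comp b).comp c = a.comp (b.comp c) := Mor.ext (Category.assoc ..)

theorem add_assoc (a b c : Mor X Y) : (a.add b).add c = a.add (b.add c) :=
  Mor.ext (_root_.add_assoc a.f ..)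

theorem zero_add (a : Mor X Y) : (zero X Y).add a = a := Mor.ext (_root_.zero_add a.f)

theorem neg_add (a : Mor X Y) : a.neg.add a = zero X Y := Mor.ext (neg_add_cancel a.f)

theorem add_comm (a b : Mor X Y) : a.add b = b.add a := Mor.ext (_root_.add_comm a.f b.f)

theorem add_comp (X Y Z : St ρ T) (a b : Mor X Y) (c : Mor Y Z) :
    (a.add b).comp c = (a.comp c).add (b.comp c) := Mor.ext (Preadditive.add_comp ..)

theorem comp_add (X Y Z : St ρ T) (a : Mor X Y) (b c : Mor Y Z) :
    a.comp (b.add c) = (a.comp b).add (a.comp c) := Mor.ext (Preadditive.comp_add ..)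

end Mor

noncomputable instance cat : Category (St ρ T) where
  Hom := Mor
  id := Mor.id
  comp := Mor.comp
  id_comp := Mor.id_comp
  comp_id := Mor.comp_id
  assoc := Mor.assoc

noncomputable instance pre : Preadditive (St ρ T) where
  homGroup X Y := @AddCommGroup.mk _ (@AddGroup.ofLeftAxioms (Mor X Y) ⟨Mor.add⟩ ⟨Mor.neg⟩
    ⟨Mor.zero X Y⟩ Mor.add_assoc Mor.zero_add Mor.neg_add) Mor.add_comm
  add_comp := Mor.add_comp
  comp_add := Mor.comp_add

variable (s : T.Hom T')

/-- The image of an object. -/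
def mapO (X : St ρ T) : St ρ T' := ⟨X.A, s.f X.t⟩

theorem map_sp (a : Mor X Y) : Sp (mapO s X) (mapO s Y) a.f := fun g hy =>
  a.sp g fun e => hy ((congrArg s.f e).trans (s.eqv ..))

/-- The image of a morphism. -/
def mapM (a : Mor X Y) : Mor (mapO s X) (mapO s Y) := ⟨a.f, map_sp s a⟩

theorem mapM_id (X : St ρ T) : mapM s (Mor.id X) = Mor.id (mapO s X) := rfl

theorem mapM_comp (a : Mor X Y) (b : Mor Y Z) :
    mapM s (a.comp b) = (mapM s a).comp (mapM s b) := rfl

variable (ρ) in
/-- The functor induced by an equivariant map. -/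
noncomputable def map : St ρ T ⥤ St ρ T' where
  obj := mapO s
  map := mapM s
  map_id := mapM_id s
  map_comp := mapM_comp s

theorem map_add : (map ρ s).Additive := ⟨rfl⟩

variable (ρ)

/-- The bundled category. -/
noncomputable def ob (T : GS G) : AC.{v, max 1 u v} := ⟨St ρ T⟩

/-- The bundled functor. -/
noncomputable def hom : (ob ρ T).Hom (ob ρ T') := @AC.Hom.mk _ _ (map ρ s) (map_add s)

theorem hom_id (T : GS G) : hom ρ T.id = (ob ρ T).id := rfl

theorem hom_comp {T T' T'' : GS G} (a : T.Hom T') (b : T'.Hom T'') :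
    hom ρ (GS.comp a b) = AC.comp (hom ρ a) (hom ρ b) := rfl

end St

/-- The category `A *_G T` as a functor of `T`. -/
noncomputable def star (ρ : A.Ac G) : GS G ⥤ AC.{v, max 1 u v} where
  obj := St.ob ρ
  map := St.hom ρ
  map_id := St.hom_id ρ
  map_comp := St.hom_comp ρ

end Pool.Agent.Lib.MP_5d3e93_al.As
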