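import Pool.Agent.Lib.MP_5d3e93_al.Br.DefA

/-! Matrix categories. -/

open CategoryTheory Limits

namespace Pool.Agent.Lib.MP_5d3e93_al.As

universe v u

/-- Preordered labels with a convex set of alive labels and a height. -/
structure Lab where
  P : Type
  le : P → P → Prop
  U : P → Prop
  h : P → ℕ
  refl : ∀ a, le a a
  trans : ∀ a b c, le a b → le b c → le a c
  conv : ∀ a b c, le a b → le b c → U a → U c → U b

/-- Monotone maps that keep dead labels dead and keep the height. -/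
structure Lab.Hom (Z Z' : Lab) where
  f : Z.P → Z'.P
  mono : ∀ a b, Z.le a b → Z'.le (f a) (f b)
  al : ∀ a, Z'.U (f a) → Z.U a
  ht : ∀ a, Z'.h (f a) = Z.h a

/-- Allowed positions of matrix entries. -/
def Lab.Ok (Z : Lab) (r : ℕ) (a b : Z.P) : Prop :=
  Z.U a ∧ Z.U b ∧ Z.le b a ∧ Z.h a ≤ Z.h b + r ∧ Z.h b ≤ Z.h a + r

/-- Labelled families with finitely many members of bounded height. -/
structure Mx (Z : Lab) (B : AC.{v, u}) where
  I : Set ℕ
  X : I → B.C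
  π : I → Z.P
  fin : ∀ r, {i | Z.h (π i) ≤ r}.Finite

namespace Mx

variable {Z Z' : Lab} {B B' : AC.{v, u}} {X Y W : Mx Z B}

variable (X Y) in
/-- Matrices. -/
def Mat : Type v := ∀ i j, X.X i ⟶ Y.X j

/-- The entries sit at allowed positions. -/
def Mat.Ok (e : Mat X Y) : Prop := ∃ r, ∀ i j, e i j ≠ 0 → Z.Ok r (X.π i) (Y.π j)

variable (X Y) in
/-- Matrices with entries at allowed positions. -/
@[ext] structure Mor where
  e : Mat X Y
  ok : e.Ok

theorem row (a : Mor X Y) (i : X.I) : ∃ J : Finset Y.I, ∀ j ∉ J, a.e i j = 0 :=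
  a.ok.elim fun r hy => ⟨(Y.fin (Z.h (X.π i) + r)).toFinset, fun j b => by_contra fun c =>
    b (by simpa using (hy i j c).2.2.2.2)⟩

theorem col (a : Mor X Y) (j : Y.I) : ∃ J : Finset X.I, ∀ i ∉ J, a.e i j = 0 :=
  a.ok.elim fun r hy => ⟨(X.fin (Z.h (Y.π j) + r)).toFinset, fun i b => by_contra fun c =>
    b (by simpa using (hy i j c).2.2.2.1)⟩

theorem fs {ι : Type} {J : Finset ι} {A D : B.C} {E : ι → B.C} (a : ∀ j, A ⟶ E j)
    (b : ∀ j, E j ⟶ D) (hy : (∀ j ∉ J, a j = 0) ∨ ∀ j ∉ J, b j = 0) :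
    ∑ᶠ j, a j ≫ b j = ∑ j ∈ J, a j ≫ b j :=
  finsum_eq_sum_of_support_subset _ fun j c => by_contra fun e => c (by
    rcases hy with hy | hy <;> simp [hy j e])

theorem ex_ne {ι : Type} {A D : B.C} {E : ι → B.C} {a : ∀ j, A ⟶ E j} {b : ∀ j, E j ⟶ D}
    (hy : ∑ᶠ j, a j ≫ b j ≠ 0) : ∃ j, a j ≠ 0 ∧ b j ≠ 0 :=
  by_contra fun k => hy (finsum_eq_zero_of_forall_eq_zero fun j => by_contra fun c =>
    k ⟨j, fun e => c (by simp [e]), fun e => c (by simp [e])⟩)

theorem eq_X (X : Mx Z B) {i j : X.I} (hy : i = j ∧ Z.U (X.π i)) : X.X i = X.X j := congrArg _ hy.1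

open Classical in
/-- The entries of the identity. -/
noncomputable def idE (X : Mx Z B) : Mat X X := fun i j =>
  if hy : i = j ∧ Z.U (X.π i) then eqToHom (eq_X X hy) else AC.zero _ _

/-- The entries of a product. -/
noncomputable def Mor.mul (a : Mor X Y) (b : Mor Y W) : Mat X W :=
  fun i l => ∑ᶠ j, a.e i j ≫ b.e j l

/-- The entries of a sum. -/
def Mor.addE (a b : Mor X Y) : Mat X Y := fun i j => AC.add (a.e i j) (b.e i j)

/-- The entries of the negative. -/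
def Mor.negE (a : Mor X Y) : Mat X Y := fun i j => AC.neg (a.e i j)

/-- The entries of zero. -/
def zeroE (X Y : Mx Z B) : Mat X Y := fun _ _ => AC.zero _ _

namespace Mor

theorem dead (a : Mor X Y) {i j} (hy : ¬Z.U (X.π i) ∨ ¬Z.U (Y.π j)) : a.e i j = 0 :=
  a.ok.elim fun _ k => by_contra fun c => hy.elim (· (k i j c).1) (· (k i j c).2.1)

theorem id_ok (X : Mx Z B) : (idE X).Ok :=
  ⟨0, fun i j a => by
    obtain ⟨rfl, b⟩ : i = j ∧ Z.U (X.π i) := by_contra fun b => a (dif_neg b)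
    exact ⟨b, b, Z.refl _, le_rfl, le_rfl⟩⟩

theorem mul_ok (a : Mor X Y) (b : Mor Y W) : (a.mul b).Ok :=
  a.ok.elim fun r p => b.ok.elim fun s q => ⟨r + s, fun i l c => (ex_ne c).elim fun j d => by
    obtain ⟨p1, -, p2, p3, p4⟩ := p i j d.1
    obtain ⟨-, q1, q2, q3, q4⟩ := q j l d.2
    exact ⟨p1, q1, Z.trans _ _ _ q2 p2, by omega, by omega⟩⟩

theorem add_ok (a b : Mor X Y) : (a.addE b).Ok :=
  a.ok.elim fun r p => b.ok.elim fun s q => ⟨r + s, fun i j c => by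
    by_cases d : a.e i j = 0
    · obtain ⟨p1, p2, p3, p4, p5⟩ := q i j (by simpa [addE, AC.add, d] using c)
      exact ⟨p1, p2, p3, by omega, by omega⟩
    · obtain ⟨p1, p2, p3, p4, p5⟩ := p i j d
      exact ⟨p1, p2, p3, by omega, by omega⟩⟩

theorem neg_ok (a : Mor X Y) : a.negE.Ok := by
  simpa [negE, Mat.Ok, AC.neg] using a.ok

theorem zero_ok (X Y : Mx Z B) : (zeroE X Y).Ok :=
  ⟨0, fun _ _ hy => (hy rfl).elim⟩

/-- The identity. -/
noncomputable def id (X : Mx Z B) : Mor X X := ⟨idE X, id_ok X⟩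

/-- The product. -/
noncomputable def comp (a : Mor X Y) (b : Mor Y W) : Mor X W := ⟨a.mul b, mul_ok a b⟩

/-- The sum. -/
def add (a b : Mor X Y) : Mor X Y := ⟨a.addE b, add_ok a b⟩

/-- The negative. -/
def neg (a : Mor X Y) : Mor X Y := ⟨a.negE, neg_ok a⟩

/-- Zero. -/
def zero (X Y : Mx Z B) : Mor X Y := ⟨zeroE X Y, zero_ok X Y⟩

theorem id_comp (a : Mor X Y) : (id X).comp a = a := Mor.ext (funext₂ fun i l =>
  (finsum_eq_single _ i fun j c => by simp [id, idE, AC.zero, c.symm]).trans (by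
    by_cases hy : Z.U (X.π i) <;> simp [id, idE, AC.zero, hy, a.dead]))

theorem comp_id (a : Mor X Y) : a.comp (id Y) = a := Mor.ext (funext₂ fun i l =>
  (finsum_eq_single _ l fun j c => by simp [id, idE, AC.zero, c]).trans (by
    by_cases hy : Z.U (Y.π l) <;> simp [id, idE, AC.zero, hy, a.dead]))

theorem assoc {V : Mx Z B} (a : Mor V X) (b : Mor X Y) (c : Mor Y W) :
    (a.comp b).comp c = a.comp (b.comp c) := Mor.ext (funext₂ fun i l => by
  obtain ⟨J, p⟩ := row a i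
  obtain ⟨K, q⟩ := col c l
  refine (fs _ _ (.inr q)).trans (.trans ?_ (fs _ _ (.inl p)).symm)
  simp only [comp, mul, fs _ _ (.inl p), fs _ _ (.inr q), Preadditive.sum_comp,
    Preadditive.comp_sum, Category.assoc]
  rw [Finset.sum_comm])

theorem add_assoc (a b c : Mor X Y) : (a.add b).add c = a.add (b.add c) :=
  Mor.ext (funext₂ fun i j => _root_.add_assoc (a.e i j) ..)

theorem zero_add (a : Mor X Y) : (zero X Y).add a = a :=
  Mor.ext (funext₂ fun i j => _root_.zero_add (a.e i j))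

theorem neg_add (a : Mor X Y) : a.neg.add a = zero X Y :=
  Mor.ext (funext₂ fun i j => neg_add_cancel (a.e i j))

theorem add_comm (a b : Mor X Y) : a.add b = b.add a :=
  Mor.ext (funext₂ fun i j => _root_.add_comm (a.e i j) _)

theorem add_comp (X Y W : Mx Z B) (a b : Mor X Y) (c : Mor Y W) :
    (a.add b).comp c = (a.comp c).add (b.comp c) := Mor.ext (funext₂ fun i l => by
  obtain ⟨K, q⟩ := col c l
  simp only [comp, mul, add, addE, AC.add, fs _ _ (.inr q)]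
  simp [Finset.sum_add_distrib])

theorem comp_add (X Y W : Mx Z B) (a : Mor X Y) (b c : Mor Y W) :
    a.comp (b.add c) = (a.comp b).add (a.comp c) := Mor.ext (funext₂ fun i l => by
  obtain ⟨K, q⟩ := row a i
  simp only [comp, mul, add, addE, AC.add, fs _ _ (.inl q)]
  simp [Finset.sum_add_distrib])

end Mor

noncomputable instance cat : Category (Mx Z B) where
  Hom := Mor
  id := Mor.id
  comp := Mor.comp
  id_comp := Mor.id_comp
  comp_id := Mor.comp_id
  assoc := Mor.assoc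

noncomputable instance pre : Preadditive (Mx Z B) where
  homGroup X Y := @AddCommGroup.mk _ (@AddGroup.ofLeftAxioms (Mor X Y) ⟨Mor.add⟩ ⟨Mor.neg⟩
    ⟨Mor.zero X Y⟩ Mor.add_assoc Mor.zero_add Mor.neg_add) Mor.add_comm
  add_comp := Mor.add_comp
  comp_add := Mor.comp_add

variable (φ : Z.Hom Z') (Φ : B.Hom B')

theorem mapO_fin (X : Mx Z B) (r : ℕ) : {i | Z'.h (φ.f (X.π i)) ≤ r}.Finite := by
  simpa [φ.ht] using X.fin r

/-- The image of a family. -/
def mapO (X : Mx Z B) : Mx Z' B' :=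
  ⟨X.I, fun i => Φ.F.obj (X.X i), fun i => φ.f (X.π i), mapO_fin φ X⟩

open Classical in
/-- The entries of the image of a matrix. -/
noncomputable def mapE (a : Mor X Y) (i : X.I) (j : Y.I) : Φ.F.obj (X.X i) ⟶ Φ.F.obj (Y.X j) :=
  if Z'.U (φ.f (X.π i)) ∧ Z'.U (φ.f (Y.π j)) then Φ.F.map (a.e i j) else AC.zero _ _

theorem map_ok (a : Mor X Y) : @Mat.Ok _ _ (mapO φ Φ X) (mapO φ Φ Y) (mapE φ Φ a) :=
  a.ok.imp fun r hy i j c => by
  have k : _ ∧ _ := by_contra fun k => c (if_neg k)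
  obtain ⟨-, -, p, q⟩ := hy i j fun e => c ((if_pos k).trans ((congrArg Φ.F.map e).trans (Φ.F.map_zero ..)))
  exact ⟨k.1, k.2, φ.mono _ _ p, by simpa [mapO, φ.ht] using q⟩

/-- The image of a matrix. -/
noncomputable def mapM (a : Mor X Y) : Mor (mapO φ Φ X) (mapO φ Φ Y) := ⟨mapE φ Φ a, map_ok φ Φ a⟩

theorem mapM_id (X : Mx Z B) : mapM φ Φ (Mor.id X) = Mor.id (mapO φ Φ X) :=
  Mor.ext (funext₂ fun (i j : X.I) => by
    classical
    change mapE φ Φ (Mor.id X) i j = dite (i = j ∧ Z'.U (φ.f (X.π i))) _ fun _ => 0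
    by_cases e : i = j
    · subst e
      by_cases hy : Z'.U (φ.f (X.π i)) <;> simp [mapE, Mor.id, idE, AC.zero, hy, φ.al _]
      rfl
    · simp [mapE, Mor.id, idE, AC.zero, e])

theorem mapM_comp (a : Mor X Y) (b : Mor Y W) :
    mapM φ Φ (a.comp b) = (mapM φ Φ a).comp (mapM φ Φ b) :=
  Mor.ext (funext₂ fun (i : X.I) (l : W.I) => by
  obtain ⟨K, q⟩ := row a i
  obtain ⟨r, p⟩ := a.ok
  obtain ⟨s, p'⟩ := b.ok
  change mapE φ Φ _ i l = ∑ᶠ j : Y.I, mapE φ Φ a i j ≫ mapE φ Φ b j l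
  rw [fs (J := K) _ _ (.inl fun j c => by simp [mapE, AC.zero, q j c])]
  simp only [mapE, AC.zero, Mor.comp, Mor.mul, fs _ _ (.inl q)]
  split_ifs with hy
  · rw [Φ.F.map_sum]
    refine Finset.sum_congr rfl fun j _ => ?_
    by_cases c : Z'.U (φ.f (Y.π j))
    · simp [hy.1, hy.2, c]
    · by_cases d : a.e i j = 0
      · simp [d]
      · have : b.e j l = 0 := by_contra fun e => c (Z'.conv _ _ _ (φ.mono _ _ (p' j l e).2.2.1)
          (φ.mono _ _ (p i j d).2.2.1) hy.2 hy.1)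
        simp [this]
  · refine (Finset.sum_eq_zero fun j _ => ?_).symm
    rcases not_and_or.1 hy with c | c <;> simp [c])

/-- The functor of a map of labels and an additive functor. -/
noncomputable def map : Mx Z B ⥤ Mx Z' B' where
  obj := mapO φ Φ
  map := mapM φ Φ
  map_id := mapM_id φ Φ
  map_comp := mapM_comp φ Φ

theorem map_add : (map φ Φ).Additive := ⟨fun {X Y a b} => Mor.ext (funext₂ fun (i : X.I) (j : Y.I) => by
  change mapE φ Φ (a.add b) i j = mapE φ Φ a i j + mapE φ Φ b i j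
  by_cases hy : Z'.U (φ.f (X.π i)) ∧ Z'.U (φ.f (Y.π j)) <;> simp [mapE, hy, Mor.add, Mor.addE, AC.add, AC.zero])⟩

end Mx

/-- The matrix category. -/
noncomputable def mx (Z : Lab) (B : AC.{v, u}) : AC.{v, u} := ⟨Mx Z B⟩

/-- Its functoriality. -/
noncomputable def mxm {Z Z' : Lab} {B B' : AC.{v, u}} (φ : Z.Hom Z') (Φ : B.Hom B') :
    (mx Z B).Hom (mx Z' B') := @AC.Hom.mk _ _ (Mx.map φ Φ) (Mx.map_add φ Φ)

theorem mxm_id {Z : Lab} {B : AC.{v, u}} {φ : Z.Hom Z} (hy : ∀ a, φ.f a = a) :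
    mxm φ (𝟙 B :) = (𝟙 (mx Z B) :) := by
  obtain ⟨φ, _, _, _⟩ := φ
  obtain rfl : φ = id := funext hy
  exact AC.ext (Functor.hext (fun _ => rfl) fun X Y a => heq_of_eq (Mx.Mor.ext (funext₂ fun i j =>
    by classical exact ite_eq_left_iff.2 fun c => (Mx.Mor.dead a (not_and_or.1 c)).symm)))

theorem mxm_comp {Z Z' Z'' : Lab} {B B' B'' : AC.{v, u}} {φ : Z.Hom Z'} {g : Z'.Hom Z''}
    {k : Z.Hom Z''} (hy : ∀ a, k.f a = g.f (φ.f a)) (Φ : B ⟶ B') (H : B' ⟶ B'') :
    mxm k (Φ ≫ H) = (mxm φ Φ ≫ mxm g H : mx Z B ⟶ mx Z'' B'') := by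
  obtain ⟨k, _, _, _⟩ := k
  obtain rfl : k = fun a => g.f (φ.f a) := funext hy
  refine AC.ext (Functor.hext (fun _ => rfl) fun X Y a => heq_of_eq (Mx.Mor.ext (funext₂ fun i j =>
    ?_)))
  by_cases c : Z''.U (g.f (φ.f (X.π i))) ∧ Z''.U (g.f (φ.f (Y.π j)))
  · exact (if_pos c).trans (.trans (congrArg H.F.map (if_pos ⟨g.al _ c.1, g.al _ c.2⟩)).symm
      (if_pos c).symm)
  · exact (if_neg c).trans (if_neg c).symm

end Pool.Agent.Lib.MP_5d3e93_al.As
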