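import Pool.Agent.Lib.MP_5d3e93_al.Br.DefB

/-! Cone and suspension. -/

open CategoryTheory Limits

namespace Pool.Agent.Lib.MP_5d3e93_al.As

universe v u

/-- The natural numbers, all alive and comparable. -/
def nat : Lab := ⟨ℕ, fun _ _ => True, fun _ => True, fun n => n, fun _ => trivial,
  fun _ _ _ _ _ => trivial, fun _ _ _ _ _ _ _ => trivial⟩

/-- The identity map of labels. -/
def Lab.id (Z : Lab) : Z.Hom Z := ⟨fun a => a, fun _ _ hy => hy, fun _ hy => hy, fun _ => rfl⟩

theorem cone_id (B : AC.{v, u}) : mxm nat.id B.id = (mx nat B).id := mxm_id fun _ => rfl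

theorem cone_comp {A B D : AC.{v, u}} (Φ : A.Hom B) (H : B.Hom D) :
    mxm nat.id (AC.comp Φ H) = AC.comp (mxm nat.id Φ) (mxm nat.id H) :=
  mxm_comp (fun _ => rfl) Φ H

/-- The cone: locally finite families over the natural numbers and bounded matrices. -/
noncomputable def cone : AC.{v, u} ⥤ AC.{v, u} where
  obj := mx nat
  map := mxm nat.id
  map_id := cone_id
  map_comp := cone_comp

/-- Matrices that differ in finitely many entries. -/
def Fd {B : AC.{v, u}} {X Y : Mx nat B} (a b : Mx.Mor X Y) : Prop :=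
  {p : X.I × Y.I | a.e p.1 p.2 ≠ b.e p.1 p.2}.Finite

/-- This relation on the cone. -/
def Gm (B : AC.{v, u}) : HomRel (Mx nat B) := @Fd B

namespace Gm

variable {A B D : AC.{v, u}}

instance cong : Congruence (Gm B) where
  equivalence := ⟨fun _ => by simp [Gm, Fd], fun hy => by simpa [Gm, Fd, ne_comm] using hy, fun hy k =>
    (hy.union k).subset fun p c => by_contra fun d => c (by
      simp only [Set.mem_union, Set.mem_ofPred_eq, not_or, not_not] at d
      exact d.1.trans d.2)⟩
  comp_left {X Y W} a b c hy := by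
    choose J hJ using Mx.col a
    refine (hy.biUnion fun p _ => ((J p.1).finite_toSet.image (·, p.2))).subset fun p d => ?_
    by_contra k
    refine d (finsum_congr fun j => by_contra fun e => k ?_)
    exact Set.mem_biUnion (x := (j, p.2)) (fun o => e (congrArg _ o))
      ⟨p.1, by_contra fun o => e (by simp [hJ j p.1 o]), rfl⟩
  comp_right {X Y W a b} c hy := by
    choose J hJ using Mx.row c
    refine (hy.biUnion fun p _ => ((J p.2).finite_toSet.image (p.1, ·))).subset fun p d => ?_
    by_contra k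
    refine d (finsum_congr fun j => by_contra fun e => k ?_)
    exact Set.mem_biUnion (x := (p.1, j)) (fun o => e (congrArg (· ≫ _) o))
      ⟨p.2, by_contra fun o => e (by simp [hJ j p.2 o]), rfl⟩

theorem add (X Y : Mx nat B) (a b c d : Mx.Mor X Y) (hy : Fd a b) (k : Fd c d) :
    Fd (a.add c) (b.add d) := (hy.union k).subset fun p e => by_contra fun o => e (by
  simp only [Set.mem_union, Set.mem_ofPred_eq, not_or, not_not] at o
  exact congrArg₂ (· + ·) o.1 o.2)

/-- The quotient by these matrices. -/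
noncomputable def obj (B : AC.{v, u}) : AC.{v, u} :=
  @AC.mk (CategoryTheory.Quotient (Gm B)) _ (Quotient.preadditive (Gm B) add)

/-- The projection. -/
noncomputable def qF (B : AC.{v, u}) : Mx nat B ⥤ (obj B).C := Quotient.functor (Gm B)

theorem q_add : (qF B).Additive := Quotient.functor_additive (Gm B) add

/-- The projection as an additive functor. -/
noncomputable def q (B : AC.{v, u}) : (mx nat B).Hom (obj B) := @AC.Hom.mk _ _ (qF B) q_add

theorem map_ok (Φ : A.Hom B) (X Y : Mx nat A) (a b : Mx.Mor X Y) (hy : Fd a b) :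
    (qF B).map (Mx.mapM nat.id Φ a) = (qF B).map (Mx.mapM nat.id Φ b) :=
  CategoryTheory.Quotient.sound _ (hy.subset fun p c d => c (by
    change Mx.mapE _ Φ a _ _ = Mx.mapE _ Φ b _ _
    rw [Mx.mapE, Mx.mapE, d]))

/-- The induced functor. -/
noncomputable def mapF (Φ : A.Hom B) : (obj A).C ⥤ (obj B).C :=
  CategoryTheory.Quotient.lift (Gm A) (Mx.map nat.id Φ ⋙ qF B) (map_ok Φ)

theorem map_add (Φ : A.Hom B) : (mapF Φ).Additive := ⟨by
  rintro _ _ ⟨a⟩ ⟨b⟩
  exact (mxm nat.id Φ ≫ q B : mx nat A ⟶ obj B).add.map_add (f := a) (g := b)⟩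

/-- The induced additive functor. -/
noncomputable def map (Φ : A.Hom B) : (obj A).Hom (obj B) := @AC.Hom.mk _ _ (mapF Φ) (map_add Φ)

theorem map_id (B : AC.{v, u}) : map B.id = (obj B).id :=
  AC.ext (Quotient.lift_unique' _ _ _ (congrArg (fun Φ => Φ.F ⋙ (q B).F) (cone_id B)))

theorem map_comp (Φ : A.Hom B) (H : B.Hom D) : map (AC.comp Φ H) = AC.comp (map Φ) (map H) :=
  AC.ext (Quotient.lift_unique' _ _ _ (congrArg (fun Φ => Φ.F ⋙ (q D).F) (cone_comp Φ H)))

theorem q_nat ⦃A B : AC.{v, u}⦄ (Φ : A.Hom B) :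
    AC.comp (mxm nat.id Φ) (q B) = AC.comp (q A) (map Φ) := rfl

end Gm

/-- The suspension: the cone modulo matrices with finitely many entries. -/
noncomputable def susp : AC.{v, u} ⥤ AC.{v, u} where
  obj := Gm.obj
  map := Gm.map
  map_id := Gm.map_id
  map_comp := Gm.map_comp

/-- The projection from the cone to the suspension. -/
noncomputable def proj : cone.{v, u} ⟶ susp := ⟨Gm.q, Gm.q_nat⟩

namespace Inc

variable {B : AC.{v, u}}

/-- One object at the origin. -/
def obj (A : B.C) : Mx nat B := ⟨{0}, fun _ => A, fun _ => (0 : ℕ), fun _ => Set.toFinite _⟩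

theorem ok {A D : B.C} (a : A ⟶ D) : @Mx.Mat.Ok _ _ (obj A) (obj D) fun _ _ => a :=
  ⟨0, fun _ _ _ => ⟨trivial, trivial, trivial, le_rfl, le_rfl⟩⟩

/-- The matrix with one entry. -/
def map {A D : B.C} (a : A ⟶ D) : Mx.Mor (obj A) (obj D) := ⟨fun _ _ => a, ok a⟩

theorem map_id (A : B.C) : map (𝟙 A) = Mx.Mor.id (obj A) := Mx.Mor.ext (funext₂ fun i j => by
  have hy : i = j ∧ nat.U ((obj A).π i) := ⟨i.ext (i.2.trans j.2.symm), trivial⟩
  exact .symm ((dif_pos hy).trans rfl))

theorem map_comp {A D E : B.C} (a : A ⟶ D) (b : D ⟶ E) : map (a ≫ b) = (map a).comp (map b) :=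
  Mx.Mor.ext (funext₂ fun _ _ => (finsum_unique (α := ({0} : Set ℕ)) fun _ => a ≫ b).symm)

/-- The inclusion as a functor. -/
noncomputable def F (B : AC.{v, u}) : B.C ⥤ Mx nat B where
  obj := obj
  map := map
  map_id := map_id
  map_comp := map_comp

theorem add : (F B).Additive := ⟨rfl⟩

/-- The inclusion as an additive functor. -/
noncomputable def app (B : AC.{v, u}) : B.Hom (mx nat B) := @AC.Hom.mk _ _ (F B) add

theorem nat ⦃A B : AC.{v, u}⦄ (H : A.Hom B) :
    AC.comp H (app B) = AC.comp (app A) (mxm As.nat.id H) :=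
  AC.ext (Functor.hext (fun _ => rfl) fun _ _ _ => heq_of_eq (Mx.Mor.ext (funext₂ fun _ _ =>
    (if_pos ⟨trivial, trivial⟩).symm)))

end Inc

/-- The inclusion in the cone. -/
noncomputable def incl : 𝟭 AC.{v, u} ⟶ cone := ⟨Inc.app, Inc.nat⟩

end Pool.Agent.Lib.MP_5d3e93_al.As
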