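import Pool.Agent.Lib.MP_5d3e93_al.Br.DefC

/-! K-theory spaces, the homology theory and the assembly map. -/

open CategoryTheory Limits MonoidalCategory Opposite unitInterval

namespace Pool.Agent.Lib.MP_5d3e93_al.As

universe v u

/-- The opposite of the simplex category. -/
abbrev Dl : Type := SimplexCategoryᵒᵖ

set_option linter.checkUnivs false in
/-- Simplicial preadditive categories. -/
abbrev SA : Type _ := Dl ⥤ AC.{v, u}

/-- Simplicial additive functors. -/
abbrev SA.Hm (D D' : SA.{v, u}) : Type (max v u) := D ⟶ D'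

section
open Simplicial

/-- The simplices of the standard interval. -/
def Iv (n : Dl) : Type := n.unop ⟶ ⦋1⦌

/-- The pointwise order. -/
def Iv.le {n : Dl} (a b : Iv n) : Prop := ∀ i, a.toOrderHom i ≤ b.toOrderHom i

/-- The non constant simplices. -/
def Iv.Nc {n : Dl} (a : Iv n) : Prop := Function.Surjective a.toOrderHom

theorem Iv.conv {n : Dl} {a b c : Iv n} (hy : a.le b) (k : b.le c) (p : a.Nc)
    (q : c.Nc) : b.Nc := fun x => by
  obtain ⟨i, e⟩ := p 1
  obtain ⟨j, φ⟩ := q 0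
  fin_cases x
  exacts [⟨j, Fin.le_zero_iff.1 (φ ▸ k j)⟩, ⟨i, le_antisymm (Fin.le_last _) (e.ge.trans (hy i))⟩]

variable {m : ℕ} {n n' : Dl}

theorem lab_trans (a b c : Fin m → Iv n) (hy : ∀ k, (a k).le (b k)) (l : ∀ k, (b k).le (c k)) (k) :
    (a k).le (c k) := fun i => (hy k i).trans (l k i)

theorem lab_conv (a b c : Fin m → Iv n) (hy : ∀ k, (a k).le (b k)) (l : ∀ k, (b k).le (c k))
    (p : ∀ k, (a k).Nc) (q : ∀ k, (c k).Nc) (k) : (b k).Nc := Iv.conv (hy k) (l k) (p k) (q k)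

theorem lab_refl (a : Fin m → Iv n) (k) : (a k).le (a k) := fun _ => le_rfl

/-- The labels of the iterated S-construction. -/
def lab (m : ℕ) (n : Dl) : Lab :=
  ⟨Fin m → Iv n, fun a b => ∀ k, (a k).le (b k), fun a => ∀ k, (a k).Nc, fun _ => 0, lab_refl,
    lab_trans, lab_conv⟩

/-- The simplicial operators on simplices of the interval. -/
def Iv.act (θ : n ⟶ n') (a : Iv n) : Iv n' := θ.unop ≫ a

theorem act_le (θ : n ⟶ n') (a b : Fin m → Iv n) (hy : ∀ k, (a k).le (b k)) (k) :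
    (Iv.act θ (a k)).le (Iv.act θ (b k)) := fun _ => hy k _

theorem act_nc (θ : n ⟶ n') (a : Fin m → Iv n) (hy : ∀ k, (Iv.act θ (a k)).Nc) (k) : (a k).Nc :=
  Function.Surjective.of_comp (g := θ.unop.toOrderHom) (hy k)

/-- The simplicial operators on labels. -/
def labm (m : ℕ) (θ : n ⟶ n') : (lab m n).Hom (lab m n') :=
  ⟨fun a k => Iv.act θ (a k), act_le θ, act_nc θ, fun _ => rfl⟩

/-- A new first label. -/
def cns (l : Iv n) (a : Fin m → Iv n) : Fin (m + 1) → Iv n := Fin.cons l a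

theorem cns_le (l : Iv n) (a b : Fin m → Iv n) (hy : ∀ k, (a k).le (b k)) (k) :
    (cns l a k).le (cns l b k) := k.cases (fun _ => le_rfl) hy

theorem cns_nc (l : Iv n) (a : Fin m → Iv n) (hy : ∀ k, (cns l a k).Nc) (k) : (a k).Nc := hy k.succ

/-- The map of labels that adds a first label. -/
def labc (m : ℕ) (l : Iv n) : (lab m n).Hom (lab (m + 1) n) :=
  ⟨cns l, cns_le l, cns_nc l, fun _ => rfl⟩

/-- Complexes. -/
abbrev Cx (B : AC.{v, u}) : Type (max v u) := CochainComplex B.C ℤ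

/-- Bounded complexes. -/
def Cx.Bd {B : AC.{v, u}} (X : Cx B) : Prop := ∃ r : ℕ, ∀ k : ℤ, r < |k| → IsZero (X.X k)

/-- Homotopy equivalences. -/
def Cx.He {B : AC.{v, u}} {X Y : Cx B} (φ : X ⟶ Y) : Prop :=
  HomologicalComplex.homotopyEquivalences _ _ φ

/-- Contractible complexes. -/
def Cx.Ct {B : AC.{v, u}} (X : Cx B) : Prop := Nonempty (Homotopy (𝟙 X) 0)

/-- The ordered set of vertices. -/
abbrev Vt (n : Dl) : Type := Fin (n.unop.len + 1)

/-- Chains of homotopy equivalences of bounded complexes. -/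
@[ext] structure Chn (n : Dl) (B : AC.{v, u}) where
  F : Vt n ⥤ Cx B
  bdd : ∀ i, (F.obj i).Bd
  eqv : ∀ i j (a : i ⟶ j), Cx.He (F.map a)

variable {A B : AC.{v, u}}

namespace Chn

/-- Chains of contractible complexes. -/
def Nul (x : Chn n B) : Prop := ∀ i, (x.F.obj i).Ct

variable (θ : n ⟶ n') (H : A.Hom B) (x : Chn n A)

/-- The image of a chain. -/
noncomputable def mapF : Vt n' ⥤ Cx B :=
  θ.unop.toOrderHom.toFunctor ⋙ x.F ⋙ H.F.mapHomologicalComplex _

theorem map_bdd (i) : ((mapF θ H x).obj i).Bd :=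
  (x.bdd _).imp fun _ hy k l => H.F.map_isZero (hy k l)

theorem map_eqv (i j) (a : i ⟶ j) : Cx.He ((mapF θ H x).map a) :=
  (x.eqv _ _ _).elim fun e hy => ⟨H.F.mapHomotopyEquiv e, congrArg (H.F.mapHomologicalComplex _).map hy⟩

/-- Simplicial operators and additive functors act on chains. -/
noncomputable def map : Chn n' B := ⟨mapF θ H x, map_bdd θ H x, map_eqv θ H x⟩

theorem Nul.map {x : Chn n A} (hy : x.Nul) : (map θ H x).Nul := fun _ => (hy _).elim fun k =>
  ⟨(Homotopy.ofEq ((H.F.mapHomologicalComplex _).map_id _).symm).trans ((H.F.mapHomotopy k).trans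
    (.ofEq (Functor.map_zero ..)))⟩

end Chn

/-- Contractible chains are identified with the base point. -/
def Col (x y : Option (Chn n B)) : Prop := ∃ z, z.Nul ∧ x = none ∧ y = some z

/-- Chains modulo contractible ones. -/
def Kq (n : Dl) (B : AC.{v, u}) : Type (max v u) := Quot (Col (n := n) (B := B))

theorem Col.map (θ : n ⟶ n') (H : A.Hom B) (x y : Option (Chn n A)) (hy : Col x y) :
    Col (x.map (Chn.map θ H)) (y.map (Chn.map θ H)) := by
  obtain ⟨z, a, rfl, rfl⟩ := hy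
  exact ⟨_, a.map θ H, rfl, rfl⟩

/-- The induced maps. -/
noncomputable def Kq.map (θ : n ⟶ n') (H : A.Hom B) : Kq n A → Kq n' B :=
  Quot.map (Option.map (Chn.map θ H)) (Col.map θ H)

theorem Kq.map_id (x : Kq n B) : Kq.map (𝟙 n) (𝟙 B :) x = x := by
  obtain ⟨_ | x⟩ := x <;> rfl

theorem Kq.map_comp {n'' : Dl} {D : AC.{v, u}} (θ : n ⟶ n') (η : n' ⟶ n'')
    (H : A ⟶ B) (L : B ⟶ D) (x : Kq n A) :
    Kq.map (θ ≫ η) (H ≫ L) x = Kq.map η L (Kq.map θ H x) := by
  obtain ⟨_ | x⟩ := x <;> rfl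

variable (m) {D D' : SA.{v, u}}

variable (D) in
/-- The simplices of the K-theory space. -/
def Ko (n : Dl) : Type (max v u) := Kq n (mx (lab m n) (D.obj n))

variable (D) in
/-- The simplicial operators. -/
noncomputable def Km ⦃n n' : Dl⦄ (θ : n ⟶ n') : Ko m D n ⟶ Ko m D n' :=
  ↾Kq.map θ (mxm (labm m θ) (D.map θ))

theorem Km_id (n) : Km m D (𝟙 n) = 𝟙 (Ko m D n) := by
  ext x
  refine .trans (congrArg (Kq.map _ · x) ?_) (Kq.map_id x)
  rw [D.map_id]
  exact mxm_id fun _ => funext fun _ => Category.id_comp _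

theorem Km_comp {n n' n'' : Dl} (θ : n ⟶ n') (η : n' ⟶ n'') :
    Km m D (θ ≫ η) = Km m D θ ≫ Km m D η := by
  ext x
  refine .trans (congrArg (Kq.map _ · x) ?_) (Kq.map_comp θ η _ _ x)
  rw [D.map_comp]
  exact mxm_comp (fun _ => funext fun _ => Category.assoc ..) ..

variable (D) in
/-- The diagonal of the iterated S-construction of a simplicial category. -/
noncomputable def K : SSet.{max v u} where
  obj := Ko m D
  map := @Km m D
  map_id := Km_id m
  map_comp := Km_comp m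

/-- The map induced by a simplicial functor. -/
noncomputable def Kf (φ : D.Hm D') (n) : Ko m D n ⟶ Ko m D' n :=
  ↾Kq.map (𝟙 n) (mxm (lab m n).id (φ.app n))

theorem Kf_nat (φ : D.Hm D') ⦃n n' : Dl⦄ (θ : n ⟶ n') :
    Km m D θ ≫ Kf m φ n' = Kf m φ n ≫ Km m D' θ := by
  ext x
  refine (Kq.map_comp θ _ _ _ x).symm.trans (.trans ?_ (Kq.map_comp _ θ _ _ x))
  rw [← mxm_comp (k := labm m θ) fun _ => rfl, ← mxm_comp (k := labm m θ) fun _ => rfl,
    φ.naturality, Category.comp_id, Category.id_comp]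

/-- The map of simplicial sets. -/
noncomputable def Kh (φ : D.Hm D') : K m D ⟶ K m D' := ⟨Kf m φ, Kf_nat m φ⟩

/-- The cylinder. -/
noncomputable def cyl (X : SSet.{u}) : SSet.{u} := X ⊗ Δ[1]

variable (D) in
/-- The structure map on simplices. -/
noncomputable def Ks (n) : (cyl (K m D)).obj n ⟶ Ko (m + 1) D n :=
  ↾fun x => Kq.map (𝟙 n) (mxm (labc m x.2.down) (D.obj n).id) x.1

theorem Ks_nat ⦃n n' : Dl⦄ (θ : n ⟶ n') :
    (cyl (K m D)).map θ ≫ Ks m D n' = Ks m D n ≫ Km (m + 1) D θ := by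
  ext ⟨x, l⟩
  refine (Kq.map_comp θ _ _ _ x).symm.trans (.trans ?_ (Kq.map_comp _ θ _ _ x))
  let k : (lab m n).Hom (lab (m + 1) n') := ⟨fun a k => Iv.act θ (cns l.down a k), fun _ _ hy =>
    act_le θ _ _ (cns_le _ _ _ hy), fun _ hy => cns_nc _ _ (act_nc θ _ hy), fun _ => rfl⟩
  rw [← mxm_comp (k := k) fun _ => funext fun k => k.cases rfl fun _ => rfl,
    ← mxm_comp (k := k) fun _ => rfl, Category.comp_id, Category.id_comp]
  rfl

variable (D) in
/-- The structure map of the K-theory prespectrum. -/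
noncomputable def σK : cyl (K m D) ⟶ K (m + 1) D := ⟨Ks m D, Ks_nat m⟩

/-- The geometric realisation. -/
def Rl (X : SSet.{u}) : Type u := SSet.toTop.obj X

noncomputable instance Rl.top (X : SSet.{u}) : TopologicalSpace (Rl X) := (SSet.toTop.obj X).str

/-- The realisation of a map. -/
noncomputable def rm {X Y : SSet.{u}} (a₀ : X ⟶ Y) : C(Rl X, Rl Y) := (SSet.toTop.map a₀).hom

/-- The realisation of a map on points. -/
noncomputable def rp {X Y : SSet.{u}} (a₀ : X ⟶ Y) (x : Rl X) : Rl Y := rm a₀ x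

/-- The point of the realisation given by a vertex. -/
noncomputable def vx {X : SSet.{u}} (x : X _⦋0⦌) : Rl X :=
  rp (SSet.const x) (⦋0⦌.toTopHomeo.invFun default)

/-- The projection of the cylinder. -/
noncomputable def c₁ {X : SSet.{u}} : Rl (cyl X) → Rl X := rp (CartesianMonoidalCategory.fst X Δ[1])

/-- The cylinder coordinate. -/
noncomputable def c₂ {X : SSet.{u}} (w : Rl (cyl X)) : I := stdSimplexHomeomorphUnitInterval.toFun
  (⦋1⦌.toTopHomeo.toFun (rp (CartesianMonoidalCategory.snd X Δ[1]) w))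

variable (D) in
/-- The base point of the K-theory space. -/
noncomputable def pt : Rl (K m D) := vx (X := K m D) (Quot.mk _ none)

theorem rp_pt (φ : D.Hm D') : rp (Kh m φ) (pt m D) = pt m D' :=
  (ConcreteCategory.congr_hom (SSet.toTop.map_comp (SSet.const _) (Kh m φ)) _).symm

end

variable {D D' : SA.{v, u}} {m N : ℕ}

/-- The iterated suspension. -/
noncomputable def Sg (D : SA.{v, u}) : ℕ → SA.{v, u} := Nat.rec D fun _ E => E ⋙ susp

/-- The iterated suspension of a simplicial functor. -/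
noncomputable def Sgm (φ : D.Hm D') : ∀ k, (Sg D k).Hm (Sg D' k) :=
  Nat.rec φ fun _ ψ => Functor.whiskerRight ψ susp

/-- The cube. -/
abbrev Cu (N : ℕ) : Type := Fin N → I

section
variable {X Y P : SSet.{u}} {x : Rl X} {y : Rl Y}

/-- Loops in a realisation. -/
def Lp (N : ℕ) (x : Rl X) : Type u := GenLoop (Fin N) (Rl X) x

variable (N X) in
/-- Maps from the cube to a realisation. -/
abbrev CuM : Type u := C(Cu N, Rl X)

variable (x) in
/-- Maps that send the boundary to the base point. -/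
def CuM.Lp (a : CuM N X) : Prop := a ∈ GenLoop (Fin N) (Rl X) x

/-- The map of a loop. -/
noncomputable def Lp.cm (a : Lp N x) : CuM N X := @Subtype.val _ (CuM.Lp x) a

/-- The value of a loop at a point of the cube. -/
noncomputable def Lp.ev (a : Lp N x) (t : Cu N) : Rl X := a.cm.toFun t

/-- Homotopy of loops. -/
def Lp.Ht (a b : Lp N x) : Prop := GenLoop.Homotopic a b

/-- The composite with the realisation of a map. -/
noncomputable def Lp.cmp (φ : X ⟶ Y) (a : Lp N x) : CuM N Y := (rm φ).comp a.cm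

theorem lm_bd (φ : X ⟶ Y) (e : rp φ x = y) (a : Lp N x) : CuM.Lp y (a.cmp φ) :=
  fun t l => (congrArg (rp φ) (a.2 t l)).trans e

/-- The image of a loop. -/
noncomputable def Lp.map (φ : X ⟶ Y) (hy : rp φ x = y) (a₀ : Lp N x) : Lp N y :=
  @Subtype.mk _ (CuM.Lp y) (a₀.cmp φ) (lm_bd φ hy a₀)

/-- The loop `g` is the image of the loop `f` under the structure map `s`. -/
def StS (s : cyl X ⟶ Y) (a₀ : Lp N x) (g : Lp (N + 1) y) : Prop :=
  ∃ w : Cu (N + 1) → Rl (cyl X), Continuous w ∧ ∀ t,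
    c₁ (w t) = a₀.ev (t ∘ Fin.succ) ∧ c₂ (w t) = t 0 ∧ g.ev t = rp s (w t)

/-- The loop `f` bounds a cube in `P` whose image is the loop `g`. -/
def StC (i : X ⟶ P) (q : P ⟶ Y) (p : Rl P) (a₀ : Lp N x) (g : Lp (N + 1) y) : Prop :=
  ∃ w : Cu (N + 1) → Rl P, Continuous w ∧ ∀ t,
    (t (Fin.last N) = 1 ∨ t ∘ Fin.castSucc ∈ Cube.boundary (Fin N) → w t = p) ∧
    (t (Fin.last N) = 0 → w t = rp i (a₀.ev (t ∘ Fin.castSucc))) ∧ g.ev t = rp q (w t)

end

/-- The map to the space of the cone. -/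
noncomputable def iK (m : ℕ) (D : SA.{v, u}) : K m D ⟶ K m (D ⋙ cone) := Kh m (D.whiskerLeft incl)

/-- The map to the space of the suspension. -/
noncomputable def qK (m : ℕ) (D : SA.{v, u}) : K m (D ⋙ cone) ⟶ K m (D ⋙ susp) :=
  Kh m (D.whiskerLeft proj)

/-- Loops that represent classes of degree `n`. -/
structure El (D : SA.{v, u}) (n : ℤ) where
  k : ℕ
  m : ℕ
  N : ℕ
  h : (N : ℤ) = n + k + m
  f : Lp N (pt m (Sg D k))

/-- The relation that presents the colimit of the homotopy groups. -/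
inductive Step (D : SA.{v, u}) (n : ℤ) : El D n → El D n → Prop where
  | ht : ∀ k m N h f g, Lp.Ht f g → Step D n ⟨k, m, N, h, f⟩ ⟨k, m, N, h, g⟩
  | sd : ∀ k m N h l f g, StS (σK m _) f g →
      Step D n ⟨k, m, N, h, f⟩ ⟨k, m + 1, N + 1, l, g⟩
  | cn : ∀ k m N h l f g, StC (iK m _) (qK m _) (pt m _) f g →
      Step D n ⟨k, m, N, h, f⟩ ⟨k + 1, m, N + 1, l, g⟩

/-- The homotopy groups of the non connective K-theory spectrum. -/
def H (D : SA.{v, u}) (n : ℤ) : Type (max v u) := Quot (Step D n)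

/-- The image of a representative. -/
noncomputable def El.map (φ : D.Hm D') {n : ℤ} (a : El D n) : El D' n :=
  ⟨a.k, a.m, a.N, a.h, a.f.map (Kh _ (Sgm φ a.k)) (rp_pt ..)⟩

/-- The map induced in degree `n` is bijective. -/
def Bij (φ : D.Hm D') (n : ℤ) : Prop :=
  ∃ Φ : H D n → H D' n, (∀ a, Φ (Quot.mk _ a) = Quot.mk _ (a.map φ)) ∧ Function.Bijective Φ

variable {G : Type v} [Group G]

/-- Tuples of points. -/
def tup (S : GS G) (n : Dl) : GS G := ⟨Vt n → S.V⟩

/-- The simplicial operators on tuples. -/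
def tupm (S : GS G) {n n' : Dl} (θ : n ⟶ n') : (tup S n).Hom (tup S n') :=
  ⟨fun x i => x (θ.unop.toOrderHom i), fun _ _ => rfl⟩

/-- The simplicial set with action of all tuples of points. -/
def cech (S : GS G) : Dl ⥤ GS G where
  obj := tup S
  map := tupm S

/-- The point. -/
def point (G : Type v) [Group G] : GS G := ⟨PUnit⟩

/-- The constant simplicial point. -/
def cpt (G : Type v) [Group G] : Dl ⥤ GS G where
  obj _ := point G
  map _ := (point G).id

/-- The map to the point. -/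
def toPt (T : GS G) : T.Hom (point G) := ⟨fun _ => PUnit.unit, fun _ _ => rfl⟩

theorem toPt_nat (X : Dl ⥤ GS G) ⦃n n' : Dl⦄ (θ : n ⟶ n') :
    GS.comp (X.map θ) (toPt _) = GS.comp (toPt _) (point G).id := rfl

/-- The projection to the point. -/
def pr (X : Dl ⥤ GS G) : X ⟶ cpt G := ⟨fun _ => toPt _, toPt_nat X⟩

end Pool.Agent.Lib.MP_5d3e93_al.As
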