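import Pool.Agent.Lib.MP_5d3e93_al.Br.DefD

/-! The Farrell-Jones property. -/

open CategoryTheory

namespace Pool.Agent.Lib.MP_5d3e93_al.As

universe v u

/-- The assembly map for the family of virtually cyclic subgroups is bijective in all degrees and
for all coefficients. -/
def FJ (G : Type v) [Group G] : Prop :=
  ∀ S : GS G, (∀ (H : Subgroup G) (x : H), (Subgroup.zpowers x).FiniteIndex →
    ∃ s : S.V, ∀ g ∈ H, g • s = s) →
  (∀ s : S.V, ∃ x : MulAction.stabilizer G s, (Subgroup.zpowers x).FiniteIndex) →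
  ∀ (A : AC.{v, u}) (ρ : Act G A.C) (n : ℤ), Bij (Functor.whiskerRight (pr (cech S)) (star ρ)) n

end Pool.Agent.Lib.MP_5d3e93_al.As
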