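import Mathlib

/-! Points, topology and maps of the geometric realisation of a simplicial set. -/

open CategoryTheory Simplicial Opposite Topology

namespace Pool.Agent.Lib.MP_5d3e93_al.Br

universe u

/-- The topological simplex. -/
abbrev Sx (n : ℕ) : Type := stdSimplex ℝ (Fin (n + 1))

/-- The geometric realisation as a type. -/
abbrev Rl (X : SSet.{u}) : Type u := SSet.toTop.obj X

/-- The map of topological simplices of a map of the simplex category. -/
noncomputable abbrev sm {m n : ℕ} (g : ⦋m⦌ ⟶ ⦋n⦌) (t : Sx m) : Sx n :=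
  stdSimplex.map (fun i => g.toOrderHom i) t

/-- The map of realisations. -/
noncomputable def rm {X Y : SSet.{u}} (f : X ⟶ Y) : C(Rl X, Rl Y) := (SSet.toTop.map f).hom

/-- The characteristic map of a simplex. -/
noncomputable def ch {X : SSet.{u}} {n : ℕ} (x : X _⦋n⦌) : C(Sx n, Rl X) :=
  TopCat.toSSetObjEquiv _ (op ⦋n⦌) ((sSetTopAdj.unit.app X).app (op ⦋n⦌) x)

variable {X Y Z : SSet.{u}} {n m : ℕ}

theorem rm_id (p : Rl X) : rm (𝟙 X) p = p := by
  simp [rm]

theorem rm_comp (f : X ⟶ Y) (g : Y ⟶ Z) (p : Rl X) : rm (f ≫ g) p = rm g (rm f p) := by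
  simp [rm]

theorem ch_map (f : X ⟶ Y) (x : X _⦋n⦌) (t : Sx n) :
    rm f (ch x t) = ch (f.app (op ⦋n⦌) x) t := by
  have h := ConcreteCategory.congr_hom
    (NatTrans.congr_app (sSetTopAdj.unit.naturality f) (op ⦋n⦌)) x
  exact (congrArg (fun y => TopCat.toSSetObjEquiv _ (op ⦋n⦌) y t) h).symm

theorem ch_nat (g : ⦋m⦌ ⟶ ⦋n⦌) (x : X _⦋n⦌) (t : Sx m) :
    ch (X.map g.op x) t = ch x (sm g t) := by
  have h := ConcreteCategory.congr_hom ((sSetTopAdj.unit.app X).naturality g.op) x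
  exact congrArg (fun y => TopCat.toSSetObjEquiv _ (op ⦋m⦌) y t) h

/-- A family of maps on the simplices that is compatible with the simplicial operators. -/
def Cpt {W : Sort*} (F : ∀ n, X _⦋n⦌ → Sx n → W) : Prop :=
  ∀ m n (g : ⦋m⦌ ⟶ ⦋n⦌) x t, F m (X.map g.op x) t = F n x (sm g t)

theorem rl_ex {W : Type u} [TopologicalSpace W] (F : ∀ n, X _⦋n⦌ → Sx n → W) (h : Cpt F)
    (c : ∀ n x, Continuous (F n x)) : ∃ f : C(Rl X, W), ∀ n x t, f (ch x t) = F n x t := by
  let a : X ⟶ TopCat.toSSet.obj (TopCat.of W) :=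
    { app := fun n => ↾fun x => (TopCat.toSSetObjEquiv _ n).symm ⟨F n.unop.len x, c _ _⟩
      naturality := fun n m g => by
        ext x
        refine (TopCat.toSSetObjEquiv _ m).injective ?_
        ext t
        exact h m.unop.len n.unop.len g.unop x t }
  refine ⟨((sSetTopAdj.homEquiv _ _).symm a).hom, fun n x t => ?_⟩
  have e := (sSetTopAdj.homEquiv _ _).apply_symm_apply a
  rw [Adjunction.homEquiv_unit] at e
  exact congrArg (fun y : X ⟶ _ => TopCat.toSSetObjEquiv _ (op ⦋n⦌) (y.app (op ⦋n⦌) x) t) e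

theorem rl_ext0 {W : Type u} [TopologicalSpace W] {f g : C(Rl X, W)}
    (h : ∀ n (x : X _⦋n⦌) t, f (ch x t) = g (ch x t)) : f = g := by
  have : TopCat.ofHom f = TopCat.ofHom g := (sSetTopAdj.homEquiv X (TopCat.of W)).injective (by
    rw [Adjunction.homEquiv_unit, Adjunction.homEquiv_unit]
    ext n x
    refine (TopCat.toSSetObjEquiv _ n).injective ?_
    ext t
    exact h n.unop.len x t)
  exact congrArg TopCat.Hom.hom this

theorem ch_surj (p : Rl X) : ∃ (n : ℕ) (x : X _⦋n⦌) (t : Sx n), ch x t = p := by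
  let _ : TopologicalSpace (ULift.{u} Prop) := ⊤
  have := rl_ext0 (X := X) (W := ULift.{u} Prop) (f := ⟨fun _ => ⟨True⟩, continuous_top⟩)
    (g := ⟨fun p => ⟨∃ (n : ℕ) (x : X _⦋n⦌) (t : Sx n), ch x t = p⟩, continuous_top⟩)
    fun n x t => congrArg ULift.up (eq_true ⟨n, x, t, rfl⟩).symm
  exact of_eq_true (congrArg ULift.down (DFunLike.congr_fun this p)).symm

theorem rl_ind {P : Rl X → Prop} (h : ∀ n (x : X _⦋n⦌) t, P (ch x t)) (p : Rl X) : P p := by
  obtain ⟨n, x, t, rfl⟩ := ch_surj p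
  exact h n x t

theorem Cpt.eq {W : Sort*} {F : ∀ n, X _⦋n⦌ → Sx n → W} (h : Cpt F) {x : X _⦋n⦌} {y : X _⦋m⦌}
    {t : Sx n} {s : Sx m} (e : ch x t = ch y s) : F n x t = F m y s := by
  let r (a b : Σ n, X _⦋n⦌ × Sx n) : Prop := F _ a.2.1 a.2.2 = F _ b.2.1 b.2.2
  let _ : TopologicalSpace (Quot r) := ⊤
  obtain ⟨f, hf⟩ := rl_ex (W := Quot r) (fun n x t => Quot.mk r ⟨n, x, t⟩)
    (fun m n g x t => Quot.sound (h m n g x t)) fun _ _ => continuous_top
  exact congrArg (Quot.lift (r := r) (fun a => F _ a.2.1 a.2.2) fun _ _ => id)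
    ((hf n x t).symm.trans (e ▸ hf m y s))

/-- The map on the realisation given by a compatible family. -/
noncomputable def lift {W : Sort*} (F : ∀ n, X _⦋n⦌ → Sx n → W) (p : Rl X) : W :=
  F _ (ch_surj p).choose_spec.choose (ch_surj p).choose_spec.choose_spec.choose

theorem Cpt.lift_ch {W : Sort*} {F : ∀ n, X _⦋n⦌ → Sx n → W} (h : Cpt F) (x : X _⦋n⦌)
    (t : Sx n) : lift F (ch x t) = F n x t :=
  h.eq (ch_surj _).choose_spec.choose_spec.choose_spec

theorem rl_isOpen {U : Set (Rl X)} : IsOpen U ↔ ∀ n (x : X _⦋n⦌), IsOpen (ch x ⁻¹' U) := by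
  refine ⟨fun h _ x => h.preimage (ch x).continuous, fun h => ?_⟩
  obtain ⟨f, hf⟩ := rl_ex (W := ULift.{u} Prop) (fun n x t => ⟨ch x t ∈ U⟩)
    (fun m n g x t => by simp only [ch_nat]) fun n x =>
      continuous_uliftUp.comp (isOpen_iff_continuous_mem.1 (h n x))
  refine isOpen_iff_continuous_mem.2 ((continuous_uliftDown.comp f.continuous).congr ?_)
  exact rl_ind fun n x t => congrArg ULift.down (hf n x t)

theorem rl_isClosed {U : Set (Rl X)} : IsClosed U ↔ ∀ n (x : X _⦋n⦌), IsClosed (ch x ⁻¹' U) := by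
  simp only [← isOpen_compl_iff, rl_isOpen, Set.preimage_compl]

theorem rl_cont {W : Type*} [TopologicalSpace W] {f : Rl X → W} :
    Continuous f ↔ ∀ n (x : X _⦋n⦌), Continuous fun t => f (ch x t) :=
  ⟨fun h _ x => h.comp (ch x).continuous,
    fun h => ⟨fun _ a => rl_isOpen.2 fun n x => a.preimage (h n x)⟩⟩

theorem rl_cont_prod {W T : Type*} [TopologicalSpace W] [TopologicalSpace T]
    [LocallyCompactSpace T] {f : Rl X × T → W} :
    Continuous f ↔ ∀ n (x : X _⦋n⦌), Continuous fun p : Sx n × T => f (ch x p.1, p.2) := by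
  refine ⟨fun h _ x => h.comp (by fun_prop), fun h => ?_⟩
  let g (p : Rl X) : C(T, W) := ⟨fun s => f (p, s), rl_ind (P := fun p => Continuous fun s =>
    f (p, s)) (fun n x t => (h n x).comp (Continuous.prodMk_right t)) p⟩
  have c : Continuous g := rl_cont.2 fun n x => (ContinuousMap.curry ⟨_, h n x⟩).continuous
  exact (c.comp continuous_fst).eval continuous_snd

theorem rl_prod_cont {W T : Type*} [TopologicalSpace W] [TopologicalSpace T]
    [LocallyCompactSpace T] {f : T × Rl X → W} :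
    Continuous f ↔ ∀ n (x : X _⦋n⦌), Continuous fun p : T × Sx n => f (p.1, ch x p.2) :=
  ⟨fun h _ x => h.comp (by fun_prop), fun h => (rl_cont_prod (f := fun p => f p.swap).2
    fun n x => (h n x).comp continuous_swap).comp continuous_swap⟩

theorem Cpt.cont {W : Type*} [TopologicalSpace W] {F : ∀ n, X _⦋n⦌ → Sx n → W} (h : Cpt F)
    (c : ∀ n x, Continuous (F n x)) : Continuous (lift F) :=
  rl_cont.2 fun n x => (c n x).congr fun t => (h.lift_ch x t).symm

end Pool.Agent.Lib.MP_5d3e93_al.Br
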