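import Pool.Agent.Lib.MP_5d3e93_al.Br.Hs
import Pool.Agent.Lib.MP_5d3e93_al.Br.Rl

/-! Cells, cell complexes, realisations as pointed spaces. -/

open CategoryTheory Topology Set Opposite

namespace Pool.Agent.Lib.MP_5d3e93_al.Br

universe u v

open Ps

/-- A space with a disjoint base point. -/
def Pl (Z : Type) [TopologicalSpace Z] : Ps.{u} := ⟨Z ⊕ PUnit.{u + 1}, .inr ⟨⟩⟩

/-- Maps out of a space with a disjoint base point. -/
def plm {Z : Type} [TopologicalSpace Z] {T : Ps.{u}} (f : C(Z, T.X)) : Pl Z ⟶ T :=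
  ⟨⟨Sum.elim f fun _ => T.pt, f.continuous.sumElim continuous_const⟩, rfl⟩

/-- The boundary of the simplex. -/
abbrev Bn (d : ℕ) : Type := {t : Sx d // ∃ k, t k = 0}

/-- The inclusion of the boundary. -/
def bi (d : ℕ) : Pl.{u} (Bn d) ⟶ Pl (Sx d) :=
  plm ⟨fun t => .inl t.1, continuous_inl.comp continuous_subtype_val⟩

/-- The simplex modulo its boundary. -/
def Dq (d : ℕ) : Ps.{u} := Q (bi d)

/-- The points of the simplex modulo its boundary. -/
def dk {d : ℕ} (t : Sx d) : (Dq.{u} d).X := (qk (bi d)).1 (.inl t)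

/-- The faces of the simplex. -/
noncomputable def fa {d : ℕ} (i : Fin (d + 2)) : C(Sx d, Sx (d + 1)) :=
  ⟨stdSimplex.map i.succAbove, stdSimplex.continuous_map _⟩

/-- The space `T` arises from `A` by attaching cells of dimension `d`. -/
structure St (d : ℕ) {A T : Ps.{u}} (i : A ⟶ T) {J : Type v} (ch : J → C(Sx d, T.X)) : Prop where
  t1 : T1Space T.X
  emb : IsClosedEmbedding i.1
  bd : ∀ x t, ch x t ∈ range i.1 ↔ ∃ k, t k = 0
  uniq : ∀ x y t t', ch x t = ch y t' → (∃ k, t k = 0) ∨ x = y ∧ t = t'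
  surj : ∀ z, z ∈ range i.1 ∨ ∃ x t, ch x t = z
  cl : ∀ C : Set T.X, IsClosed (i.1 ⁻¹' C) → (∀ x, IsClosed (ch x ⁻¹' C)) → IsClosed C

/-- The inclusion of a cell in the quotient. -/
def St.χ {d : ℕ} {A T : Ps.{u}} {i : A ⟶ T} {J : Type v} {ch : J → C(Sx d, T.X)} (H : St d i ch)
    (x : J) : Dq d ⟶ Q i :=
  qm (plm (ch x) ≫ qk i) fun
    | .inl t => qk_eq.2 (.inr ⟨(H.bd x t.1).2 t.2, _, i.2⟩)
    | .inr _ => rfl

/-- Families of subspaces that determine the topology. -/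
structure Jq {T : Ps.{u}} {J : Type v} {W : J → Ps.{u}} (w : ∀ j, W j ⟶ T) : Prop where
  t1 : T1Space T.X
  inj : ∀ j, Function.Injective (w j).1
  surj : ∀ z, z = T.pt ∨ ∃ j y, (w j).1 y = z
  cl : ∀ C : Set T.X, (∀ j, IsClosed ((w j).1 ⁻¹' C)) → IsClosed C

/-- Filtered spaces. -/
structure Fl (T : Ps.{u}) where
  W : ℕ → Ps.{u}
  v : ∀ d, W d ⟶ W (d + 1)
  w : ∀ d, W d ⟶ T
  vw : ∀ d, v d ≫ w (d + 1) = w d
  jq : Jq w
  emb : ∀ d, IsClosedEmbedding (w d).1

/-- The inclusion of the bottom of the filtration. -/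
def Fl.v0 {T : Ps.{u}} (F : Fl T) : ∀ d, F.W 0 ⟶ F.W d
  | 0 => 𝟙 _
  | d + 1 => F.v0 d ≫ F.v d

/-- Relative cell complexes with simplicial cells. -/
structure Cx (T : Ps.{u}) extends Fl T where
  J : ℕ → Type u
  ch : ∀ d, J d → C(Sx d, (W (d + 1)).X)
  st : ∀ d, St d (v d) (ch d)
  fc : ∀ {d}, J (d + 1) → Fin (d + 2) → Option (J d)
  fc_some : ∀ {d} (x : J (d + 1)) i y, fc x i = some y →
    ∀ t, ch (d + 1) x (fa i t) = (v (d + 1)).1 (ch d y t)
  fc_none : ∀ {d} (x : J (d + 1)) i, fc x i = none →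
    ∀ t, ∃ z, ch (d + 1) x (fa i t) = (v (d + 1)).1 ((v d).1 z)

/-- The cellular differential of a family of faces, with coefficients. -/
noncomputable def cdif {J J' : Type v} {k : ℕ} (fc : J → Fin k → Option J') (B : Type*)
    [AddCommGroup B] : (J →₀ B) →+ (J' →₀ B) :=
  Finsupp.liftAddHom fun x => ∑ i : Fin k, (-1 : ℤ) ^ (i : ℕ) • (fc x i).elim 0 Finsupp.singleAddHom

/-- The complex of a family of faces is exact in the degrees below `a`. -/
structure Acy {J : ℕ → Type v} (fc : ∀ d, J (d + 1) → Fin (d + 2) → Option (J d)) (B : Type*)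
    [AddCommGroup B] (a : ℕ) : Prop where
  zero : 0 < a → Function.Surjective (cdif (fc 0) B)
  succ : ∀ d, d + 1 < a → ∀ c, cdif (fc d) B c = 0 → ∃ b, cdif (fc (d + 1)) B b = c

open Simplicial

/-- The vertex of the point. -/
noncomputable def v0 : Sx 0 := stdSimplex.vertex 0

/-- The realisation as a pointed space. -/
noncomputable def rl (X : SSet.{u}) (x : X _⦋0⦌) : Ps.{u} := ⟨Rl X, ch x v0⟩

/-- The realisation of a pointed map. -/
noncomputable def rlm {X Y : SSet.{u}} {x : X _⦋0⦌} {y : Y _⦋0⦌} (f : X ⟶ Y)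
    (h : f.app _ x = y) : rl X x ⟶ rl Y y := ⟨rm f, (ch_map f x v0).trans (congrArg (ch · v0) h)⟩

/-- The quotient of a simplicial set by the image of a pointed one. -/
def SQ {X P : SSet.{u}} (i : X ⟶ P) : SSet.{u} where
  obj n := Quot fun a b : P.obj n => a ∈ range (i.app n) ∧ b ∈ range (i.app n)
  map g := ↾Quot.map (P.map g) fun _ _ ⟨⟨a, e⟩, b, f⟩ =>
    ⟨⟨X.map g a, e ▸ NatTrans.naturality_apply i g a⟩, X.map g b,
      f ▸ NatTrans.naturality_apply i g b⟩
  map_id n := by ext ⟨a⟩; exact congrArg (Quot.mk _) (by simp)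
  map_comp f g := by ext ⟨a⟩; exact congrArg (Quot.mk _) (by simp)

/-- The projection to the quotient. -/
def sqk {X P : SSet.{u}} (i : X ⟶ P) : P ⟶ SQ i where
  app n := ↾Quot.mk _

/-- Maps out of the quotient. -/
def sqm {X P Y : SSet.{u}} (i : X ⟶ P) (q : P ⟶ Y) (y : Y _⦋0⦌)
    (h : i ≫ q = SSet.const y) : SQ i ⟶ Y where
  app n := ↾Quot.lift (q.app n) fun _ _ ⟨⟨a, e⟩, b, f⟩ => e ▸ f ▸
    (congrArg (fun k : X ⟶ Y => k.app n a) h).trans (congrArg (fun k : X ⟶ Y => k.app n b) h).symm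
  naturality _ _ g := by ext ⟨a⟩; exact NatTrans.naturality_apply q g a

/-- The coinduced simplicial set of all families of simplices. -/
def EE (X : SSet.{u}) : SSet.{u} where
  obj n := ∀ k : SimplexCategoryᵒᵖ, (n ⟶ k) → X.obj k
  map g := ↾fun e k φ => e k (g ≫ φ)

/-- A simplex gives a family of simplices. -/
def ee (X : SSet.{u}) : X ⟶ EE X where
  app n := ↾fun x _ φ => X.map φ x
  naturality _ _ g := by ext x; funext k φ; exact (Functor.map_comp_apply X g φ x).symm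

/-- The cells of a relative complex. -/
abbrev Cl {X Y : SSet.{u}} (i : X ⟶ Y) (d : ℕ) : Type u := {z : Y.nonDegenerate d // z.1 ∉ range (i.app _)}

open Classical in
/-- The faces of the cells. -/
noncomputable def clf {X Y : SSet.{u}} (i : X ⟶ Y) (d : ℕ) (z : Cl i (d + 1)) (k : Fin (d + 2)) :
    Option (Cl i d) :=
  if h : Y.δ k z.1.1 ∈ Y.nonDegenerate d ∧ Y.δ k z.1.1 ∉ range (i.app _) then
    some ⟨⟨_, h.1⟩, h.2⟩ else none

end Pool.Agent.Lib.MP_5d3e93_al.Br
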