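import Pool.Agent.Lib.MP_5d3e93_al.Br.Cp
import Pool.Agent.Lib.MP_5d3e93_al.Br.R1F

/-! The diagonal of a simplicial object in simplicial prespectra. -/

open CategoryTheory Function Set Opposite Simplicial MonoidalCategory CartesianMonoidalCategory SSet

namespace Pool.Agent.Lib.MP_5d3e93_al.Br

universe u v

theorem ap {X Y : SSet.{u}} {f g : X ⟶ Y} (e : f = g) (n) (z : X.obj n) :
    f.app n z = g.app n z := e ▸ rfl

theorem cn_pre {X Y Z : SSet.{u}} (e : X ≅ Y) {f : Y ⟶ Z} {g : X ⟶ Z} (k : g = e.hom ≫ f) {a : ℕ}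
    (h : Cn a (ZC.map f)) : Cn a (ZC.map g) := by
  rw [k, ZC.map_comp]
  exact (cn_iso _ _).comp h

namespace SPr

/-- The levels. -/
def ev (m : ℕ) : SPr.{u} ⥤ SSet.{u} where
  obj P := P.X m
  map f := f.1 m

/-- The diagonal of a bisimplicial set. -/
abbrev dS : (SimplexCategoryᵒᵖ ⥤ SSet.{u}) ⥤ SSet.{u} := dgG _ (Type u)

theorem dg_bp (M : SimplicialObject SPr.{u}) (m : ℕ) (n : SimplexCategoryᵒᵖ) :
    bp (X := dS.obj (M ⋙ ev m)) ((M.obj (op ⦋0⦌)).x m) n = bp ((M.obj n).x m) n :=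
  congrArg (((M.obj n).X m).map _) ((M.map _).2.1 m)

/-- The diagonal. -/
def dg : SimplicialObject SPr.{u} ⥤ SPr.{u} where
  obj M :=
    { X m := dS.obj (M ⋙ ev m)
      x m := (M.obj (op ⦋0⦌)).x m
      H m :=
        { app n := ((M.obj n).H m).app n
          naturality n n' g := by
            ext ⟨z, t⟩
            exact (ConcreteCategory.congr_hom (((M.obj n').H m).naturality g)
              (show ((M.obj n').X m ⊗ Δ[1]).obj n from (((M.map g).1 m).app n z, t))).trans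
                (congrArg (((M.obj n').X (m + 1)).map g) (ap ((M.map g).2.2 m) n (z, t))) }
      h0 m := by
        ext n z
        exact (ap ((M.obj n).h0 m) n z).trans (dg_bp M (m + 1) n).symm
      h1 m := by
        ext n z
        exact (ap ((M.obj n).h1 m) n z).trans (dg_bp M (m + 1) n).symm
      hp m := by
        ext n ⟨z, t⟩
        exact (congrArg (fun w => ((M.obj n).H m).app n (w, t)) (dg_bp M m n)).trans
          ((ap ((M.obj n).hp m) n (z, t)).trans (dg_bp M (m + 1) n).symm) }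
  map f := ⟨fun m => dS.map (Functor.whiskerRight f (ev m)), fun m => (f.app _).2.1 m, fun m => by
    ext n z
    exact ap ((f.app n).2.2 m) n z⟩
  map_id _ := rfl
  map_comp _ _ := rfl

variable {M N L : SimplicialObject SPr.{u}} {a m : ℕ}

theorem dg_app (f : M ⟶ N) (n) : ((dg.map f).1 m).app n = ((f.app n).1 m).app n := rfl

theorem dg_cn (f : M ⟶ N) (h : ∀ p, Cn a (ZC.map ((f.app p).1 m))) :
    Cn a (ZC.map ((dg.map f).1 m)) :=
  r1F Fr (Functor.whiskerRight f (ev m)) fun _ => (h _).mono (Nat.sub_le ..)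

theorem dg_const (f : M ⟶ N) (h : ∀ p, (f.app p).1 m = const ((N.obj p).x m)) :
    (dg.map f).1 m = const ((dg.obj N).x m) := by
  ext n z
  exact (ap (h n) n z).trans (dg_bp N m n).symm

theorem dg_ac (h : ∀ p, Cn a (ZC.map (const ((M.obj p).x m) : Δ[0] ⟶ (M.obj p).X m))) :
    Cn a (ZC.map (const ((dg.obj M).x m) : Δ[0] ⟶ (dg.obj M).X m)) := by
  let φ : (Functor.const _).obj Δ[0] ⟶ M ⋙ ev m :=
    { app p := const ((M.obj p).x m)
      naturality p q g := by
        ext n z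
        exact (bp_app ((M.map g).2.1 m) n).symm }
  let ι : dS.obj ((Functor.const _).obj Δ[0]) ≅ (Δ[0] : SSet.{u}) :=
    NatIso.ofComponents (fun _ => Iso.refl _) fun _ => rfl
  refine cn_pre ι.symm (f := dS.map φ) ?_ (r1F Fr φ fun _ => (h _).mono (Nat.sub_le ..))
  ext n z
  exact dg_bp M m n

theorem dg_mono (f : M ⟶ N) [h : ∀ p, Mono ((f.app p).1 m)] : Mono ((dg.map f).1 m) :=
  ho_mono fun n => (mono_iff_injective (((f.app n).1 m).app n)).1 inferInstance

theorem dg_sqm {i : M ⟶ N} {q : N ⟶ L}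
    (e : ∀ p, (i.app p).1 m ≫ (q.app p).1 m = const ((L.obj p).x m)) (e')
    (h : ∀ p, Cn a (ZC.map (sqm _ _ _ (e p)))) :
    Cn a (ZC.map (sqm ((dg.map i).1 m) ((dg.map q).1 m) ((dg.obj L).x m) e')) := by
  let Q : SimplexCategoryᵒᵖ ⥤ SSet.{u} :=
    { obj p := SQ ((i.app p).1 m)
      map {p p'} g :=
        { app n := ↾Quot.map (((N.map g).1 m).app n) fun _ _ ⟨⟨x, c⟩, y, d⟩ =>
            ⟨⟨((M.map g).1 m).app n x, c ▸ congrArg (fun φ : _ ⟶ N.obj p' => (φ.1 m).app n x)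
              (i.naturality g)⟩, ((M.map g).1 m).app n y,
              d ▸ congrArg (fun φ : _ ⟶ N.obj p' => (φ.1 m).app n y) (i.naturality g)⟩
          naturality _ _ θ := by
            ext ⟨z⟩
            exact congrArg (Quot.mk _) (NatTrans.naturality_apply ((N.map g).1 m) θ z) }
      map_id p := by
        ext n ⟨z⟩
        exact congrArg (fun φ : _ ⟶ N.obj p => Quot.mk _ ((φ.1 m).app n z)) (N.map_id p)
      map_comp f g := by
        ext n ⟨z⟩
        exact congrArg (fun φ : _ ⟶ N.obj _ => Quot.mk _ ((φ.1 m).app n z)) (N.map_comp f g) }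
  let φ : Q ⟶ L ⋙ ev m :=
    { app p := sqm _ _ _ (e p)
      naturality p p' g := by
        ext n ⟨z⟩
        exact congrArg (fun φ : _ ⟶ L.obj p' => (φ.1 m).app n z) (q.naturality g) }
  let ι : SQ ((dg.map i).1 m) ≅ dS.obj Q :=
    NatIso.ofComponents (fun _ => Iso.refl _) fun _ => by
      ext ⟨z⟩
      rfl
  refine cn_pre ι (f := dS.map φ) ?_ (r1F Fr φ fun _ => (h _).mono (Nat.sub_le ..))
  ext n ⟨z⟩
  rfl

theorem dg_he (f : M ⟶ N) (g : N ⟶ M) (h : SimplicialObject.Homotopy (f ≫ g) (𝟙 M))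
    (e : g ≫ f = 𝟙 N) : Cn a (ZC.map ((dg.map f).1 m)) := by
  refine r1F' Fr (Functor.whiskerRight f (ev m)) fun p => ?_
  let F := ev m ⋙ (evaluation _ _).obj (op ⦋p⦌) ⋙ Fr
  refine cn_of_inv (φ := CC.map ((wh F).map f)) (CC.map ((wh F).map g)) ?_ (.of_eq ?_) _
  · rw [← CC.map_comp, ← (wh F).map_comp, ← CC.map_id, ← (wh F).map_id]
    exact .of_homotopy (h.whiskerRight F).toChainHomotopy
  · rw [← CC.map_comp, ← (wh F).map_comp, e, (wh F).map_id, CC.map_id]

/-- The realisation of the diagonal. -/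
noncomputable abbrev KD : SimplicialObject SPr.{u} ⥤ Pre.{u} := dg ⋙ R

variable {b : ℕ → ℕ}

theorem kd_bij (f : M ⟶ N) (hb : Gw b) (h : ∀ p m, Cn (b m) (ZC.map ((f.app p).1 m))) (n : ℤ) :
    Bijective (Pre.map n (KD.map f)) := bij _ hb (fun m => dg_cn f fun p => h p m) n

theorem kd_acy (hb : Gw b)
    (h : ∀ p m, Cn (b m) (ZC.map (const ((M.obj p).x m) : Δ[0] ⟶ (M.obj p).X m))) :
    (KD.obj M).Acy := acy hb fun m => dg_ac fun p => h p m

theorem dg_nl {i : M ⟶ N} {q : N ⟶ L}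
    (e : ∀ p m, (i.app p).1 m ≫ (q.app p).1 m = const ((L.obj p).x m)) (m : ℕ) :
    (dg.map i).1 m ≫ (dg.map q).1 m = const ((dg.obj L).x m) :=
  dg_const (i ≫ q) fun p => e p m

theorem kd_nl {i : M ⟶ N} {q : N ⟶ L}
    (e : ∀ p m, (i.app p).1 m ≫ (q.app p).1 m = const ((L.obj p).x m)) :
    Pre.Nl (KD.map i) (KD.map q) := nl (dg_nl e)

theorem kd_col {i : M ⟶ N} {q : N ⟶ L} [∀ p m, Mono ((i.app p).1 m)]
    (e : ∀ p m, (i.app p).1 m ≫ (q.app p).1 m = const ((L.obj p).x m)) (hb : Gw b)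
    (h : ∀ p m, Cn (b m) (ZC.map (sqm _ _ _ (e p m)))) (k : Pre.Nl (KD.map i) (KD.map q)) (n : ℤ) :
    Bijective (Pre.map n k.col) :=
  have := fun m => dg_mono (m := m) i
  col_bij (dg_nl e) hb (fun m => dg_sqm (fun p => e p m) _ fun p => h p m) k n

theorem kd_un {J : Type v} [Preorder J] [IsDirected J (· ≤ ·)] [Nonempty J]
    {W : J → SimplicialObject SPr.{u}} {v : ∀ {d e}, d ≤ e → (W d ⟶ W e)} {w : ∀ d, W d ⟶ M}
    (vv : ∀ {d e f} (h : d ≤ e) (k : e ≤ f), v h ≫ v k = v (h.trans k))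
    (vw : ∀ {d e} (h : d ≤ e), v h ≫ w e = w d) [∀ d p m, Mono (((w d).app p).1 m)]
    (h : ∀ p m k z, ∃ d y, (((w d).app p).1 m).app k y = z) :
    Pre.Un (fun l => KD.map (v l)) fun d => KD.map (w d) :=
  have := fun d m => dg_mono (m := m) (w d)
  un (v := fun l => dg.map (v l)) (w := fun d => dg.map (w d))
    (fun a b => by rw [← dg.map_comp, vv]) (fun a => by rw [← dg.map_comp, vw])
    fun m k z => h k m k z

theorem kd_he (f : M ⟶ N) (g : N ⟶ M) (h : SimplicialObject.Homotopy (f ≫ g) (𝟙 M))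
    (e : g ≫ f = 𝟙 N) (n : ℤ) : Bijective (Pre.map n (KD.map f)) :=
  bij' _ (fun _ _ => dg_he f g h e) n

/-- Extra degeneracies. -/
theorem kd_ed {C : Type*} [Category C] (k : C ⥤ SPr.{u}) {X : SimplicialObject.Augmented C}
    (d : X.ExtraDegeneracy) (n : ℤ) : Bijective (Pre.map n (KD.map ((wh k).map X.hom))) := by
  refine kd_he _ ((wh k).map d.section_) ?_ ?_ n
  · rw [← (wh k).map_comp, ← (wh k).map_id]
    exact d.homotopy.whiskerRight k
  · rw [← (wh k).map_comp, d.section_comp_hom, (wh k).map_id]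

end SPr

end Pool.Agent.Lib.MP_5d3e93_al.Br
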