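import Pool.Agent.Lib.MP_5d3e93_al.Br.Cp

/-! Prespectra of simplicial pairs. -/

open CategoryTheory Function Set Opposite Simplicial MonoidalCategory SSet

namespace Pool.Agent.Lib.MP_5d3e93_al.Br

universe u v

namespace PT

variable {p q : PT.{u}}

/-- The subset collapsed to a point. -/
def Cl (p : PT.{u}) : Type u :=
  Quot fun a b : Option p.X => (∀ x ∈ a, x ∈ p.A) ∧ ∀ x ∈ b, x ∈ p.A

/-- The base point. -/
def o (p : PT.{u}) : p.Cl := Quot.mk _ none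

/-- The class of an element. -/
def k (p : PT.{u}) (x : p.X) : p.Cl := Quot.mk _ (some x)

theorem k_eq {a b : Option p.X} : (Quot.mk _ a : p.Cl) = Quot.mk _ b ↔
    a = b ∨ (∀ x ∈ a, x ∈ p.A) ∧ ∀ x ∈ b, x ∈ p.A := by
  refine ⟨fun k => ?_, fun k => k.elim (congrArg _) fun k => Quot.sound k⟩
  induction Quot.eqvGen_exact k with
  | rel _ _ h => exact .inr h
  | refl => exact .inl rfl
  | symm _ _ h ih => exact (ih (Quot.eqvGen_sound h)).imp .symm .symm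
  | trans _ _ _ h l ih ih' =>
    obtain rfl | a := ih (Quot.eqvGen_sound h)
    · exact ih' (Quot.eqvGen_sound l)
    · exact .inr ⟨a.1, (ih' (Quot.eqvGen_sound l)).elim (· ▸ a.2) (·.2)⟩

theorem k_o {x : p.X} : p.k x = p.o ↔ x ∈ p.A := k_eq.trans (by simp)

theorem k_k {x y : p.X} : p.k x = p.k y ↔ x = y ∨ x ∈ p.A ∧ y ∈ p.A := k_eq.trans (by simp)

@[elab_as_elim]
theorem cl_ind {r : p.Cl → Prop} (z : p.Cl) (h : r p.o) (h' : ∀ x, r (p.k x)) : r z := by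
  obtain ⟨_ | x⟩ := z
  exacts [h, h' x]

/-- Induced maps. -/
def cm (f : p ⟶ q) : p.Cl → q.Cl := Quot.map (Option.map f.1) fun a b h =>
  ⟨fun _ e => by obtain ⟨x, k, rfl⟩ := Option.mem_map.1 e; exact f.2 (h.1 x k),
    fun _ e => by obtain ⟨x, k, rfl⟩ := Option.mem_map.1 e; exact f.2 (h.2 x k)⟩

/-- The collapse functor. -/
def col : PT.{u} ⥤ Type u where
  obj := Cl
  map f := ↾cm f
  map_id _ := by ext z; exact cl_ind z rfl fun _ => rfl
  map_comp _ _ := by ext z; exact cl_ind z rfl fun _ => rfl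

theorem cm_null {f : p ⟶ q} (h : ∀ x, f.1 x ∈ q.A) (z : p.Cl) : cm f z = q.o :=
  cl_ind z rfl fun x => k_o.2 (h x)

theorem cm_inj {f : p ⟶ q} (h : InjOn f.1 p.Aᶜ) (k : ∀ x, f.1 x ∈ q.A → x ∈ p.A) :
    Injective (cm f) := fun a b => cl_ind a
  (cl_ind b (fun _ => rfl) fun y e => (k_o.2 (k y (k_o.1 e.symm))).symm) fun x =>
    cl_ind b (fun e => k_o.2 (k x (k_o.1 e))) fun y e => k_k.2 (by
      obtain e | e := k_k.1 e
      · by_cases c : x ∈ p.A
        · exact .inr ⟨c, k y (e ▸ f.2 c)⟩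
        · exact .inl (h c (fun d => c (k x (e ▸ f.2 d))) e)
      · exact .inr ⟨k x e.1, k y e.2⟩)

end PT

namespace SP

variable {X P Q Y : SP.{u}}

/-- The collapse of a simplicial pair. -/
abbrev col : SP.{u} ⥤ SSet.{u} := wh PT.col

/-- The base point. -/
def o (P : SP.{u}) : col.obj P _⦋0⦌ := (P.obj _).o

/-- The projection. -/
def k (P : SP.{u}) : tot.obj P ⟶ col.obj P where
  app n := ↾(P.obj n).k

theorem cp (P : SP.{u}) : Cp P P.o P.k :=
  ⟨fun _ _ => PT.k_o, fun _ _ _ e => (PT.k_k.1 e).imp_right (·.1),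
    fun _ z => PT.cl_ind z (.inl rfl) fun x => .inr ⟨x, rfl⟩⟩

theorem cn_col (f : P ⟶ Q) {a : ℕ} : Cn a (RC.map f) ↔ Cn a (ZC.map (col.map f)) :=
  P.cp.cn Q.cp f rfl rfl

/-- Maps that embed the complement of the subobject. -/
def Em (i : X ⟶ P) : Prop := ∀ n, InjOn (i.app n).1 (X.obj n).Aᶜ ∧
  ∀ x, (i.app n).1 x ∈ (P.obj n).A → x ∈ (X.obj n).A

theorem Em.mono {i : X ⟶ P} (h : Em i) : Mono (col.map i) :=
  ho_mono fun n => PT.cm_inj (h n).1 (h n).2

/-- The pair with the image of `i` added to the subobject. -/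
def md (i : X ⟶ P) : SP.{u} :=
  SP.mk (tot.obj P) (fun n => (P.obj n).A ∪ range (i.app n).1) fun θ _ h => h.imp (fun h => (P.map θ).2 h)
    fun ⟨x, e⟩ => ⟨(X.map θ).1 x, e ▸ congrArg (fun f => f.1 x) (i.naturality θ)⟩

/-- The map to the enlarged pair. -/
def mdI (i : X ⟶ P) : P ⟶ md i := SP.hom (𝟙 (tot.obj P)) fun _ _ h => .inl h

/-- The composite lands in the subobject. -/
def Nl (i : X ⟶ P) (q : P ⟶ Y) : Prop := ∀ n x, (q.app n).1 ((i.app n).1 x) ∈ (Y.obj n).A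

/-- Maps out of the enlarged pair. -/
def Nl.md {i : X ⟶ P} {q : P ⟶ Y} (h : Nl i q) : md i ⟶ Y :=
  SP.hom (P := SP.md i) (tot.map q : tot.obj P ⟶ _) fun n _ k =>
    k.elim (fun k => (q.app n).2 k) fun ⟨x, e⟩ => e ▸ h n x

theorem Nl.I_md {i : X ⟶ P} {q : P ⟶ Y} (h : Nl i q) : mdI i ≫ h.md = q := rfl

theorem Nl.col {i : X ⟶ P} {q : P ⟶ Y} (h : Nl i q) : col.map i ≫ col.map q = const Y.o := by
  ext n z
  exact PT.cl_ind z rfl fun x => PT.k_o.2 (h n x)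

theorem Nl.cn {i : X ⟶ P} {q : P ⟶ Y} (h : Nl i q) {a : ℕ} :
    Cn a (RC.map h.md) ↔ Cn a (ZC.map (sqm _ _ _ h.col)) :=
  P.cp.sqm Y.cp (z := X.o) rfl rfl h.col _ _ (fun n _ => ⟨fun ⟨z, e⟩ => PT.cl_ind z
    (fun e => .inl (PT.k_o.1 e.symm)) (fun x e => (PT.k_k.1 e).elim (fun e => .inr ⟨x, e⟩)
      fun e => .inl e.2) e, fun k => k.elim (fun k => ⟨(X.obj n).o, (PT.k_o.2 k).symm⟩)
        fun ⟨x, e⟩ => ⟨(X.obj n).k x, congrArg (P.obj n).k e⟩⟩) h.md rfl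

theorem md_zero (i : X ⟶ P) : RF.map i ≫ RF.map (mdI i) = 0 :=
  (RF.map_comp _ _).symm.trans (rf_zero _ fun _ x => .inr ⟨x, rfl⟩)

/-- The exact sequence of a triple. -/
theorem Em.se {i : X ⟶ P} (h : Em i) : (ShortComplex.mk _ _ (md_zero i)).ShortExact := by
  classical
  refine relA_se _ (fun n => ?_) (fun n y => ?_) fun n y e => ?_
  · obtain ⟨r, e⟩ := relA_left (i.app n) (h n).1 (h n).2
    exact LeftInverse.injective (g := r) fun x => ConcreteCategory.congr_hom e x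
  · exact relA_ind ((md i).obj n) (PT.fr.map ((mdI i).app n)).hom.toAddMonoidHom.range
      (fun x => ⟨(P.obj n).cl x, PT.map_cl ((mdI i).app n) x⟩) y
  · let s : PT.fr.obj ((md i).obj n) ⟶ PT.fr.obj (P.obj n) := ((md i).obj n).desc
      (fun x => if x ∈ ((md i).obj n).A then 0 else (P.obj n).cl x) fun x c => if_pos c
    have := relA_ind (P.obj n) ((PT.fr.map (i.app n)).hom.toAddMonoidHom.range.comap
      (ModuleCat.Hom.hom (𝟙 _ - PT.fr.map ((mdI i).app n) ≫ s)).toAddMonoidHom) (fun x => ?_) y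
    · obtain ⟨w, k⟩ := this
      exact ⟨w, k.trans ((congrArg (fun z => (show PT.fr.obj (P.obj n) from y) - s z) e).trans
        (by rw [map_zero, sub_zero]))⟩
    · show ∃ w, PT.fr.map (i.app n) w = (P.obj n).cl x - s (PT.fr.map ((mdI i).app n) ((P.obj n).cl x))
      rw [PT.map_cl, PT.desc_cl]
      split_ifs with c
      · obtain c | ⟨w, rfl⟩ := c
        · exact ⟨0, by rw [map_zero, sub_zero]; exact (PT.cl_zero _ c).symm⟩
        · exact ⟨_, (PT.map_cl _ w).trans (sub_zero _).symm⟩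
      · exact ⟨0, (map_zero _).trans (sub_self _).symm⟩

/-- Families of maps over the simplices of the interval. -/
structure Hm (P Q : SP.{u}) where
  H : ∀ n, (n.unop ⟶ ⦋1⦌) → (P.obj n ⟶ Q.obj n)
  nat : ∀ {n n'} (θ : n ⟶ n') t, P.map θ ≫ H n' (θ.unop ≫ t) = H n t ≫ Q.map θ

/-- The homotopy of collapsed pairs. -/
def Hm.col (H : Hm P Q) : col.obj P ⊗ Δ[1] ⟶ col.obj Q where
  app n := ↾fun z => PT.cm (H.H n (stdSimplex.objEquiv z.2)) z.1
  naturality _ _ θ := by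
    ext ⟨z, t⟩
    exact PT.cl_ind z rfl fun x => congrArg (Q.obj _).k (congrArg (fun f => f.1 x) (H.nat θ _))

theorem Hm.base (H : Hm P Q) : (const P.o : Δ[0] ⟶ _) ▷ Δ[1] ≫ H.col = const Q.o := rfl

theorem Hm.ι₀ (H : Hm P Q) {f : P ⟶ Q} (h : ∀ n, H.H n (SimplexCategory.const _ _ 0) = f.app n) :
    ι₀ ≫ H.col = SP.col.map f := by
  ext n z
  exact congrArg (PT.cm · z) (h n)

theorem Hm.ι₁ (H : Hm P Q) {f : P ⟶ Q} (h : ∀ n, H.H n (SimplexCategory.const _ _ 1) = f.app n) :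
    ι₁ ≫ H.col = SP.col.map f := by
  ext n z
  exact congrArg (PT.cm · z) (h n)

/-- Connectivity is invariant under homotopies of pairs. -/
theorem Hm.cn (H : Hm P Q) {f g : P ⟶ Q}
    (h0 : ∀ n, H.H n (SimplexCategory.const _ _ 0) = f.app n)
    (h1 : ∀ n, H.H n (SimplexCategory.const _ _ 1) = g.app n) {a : ℕ} (h : Cn a (RC.map f)) :
    Cn a (RC.map g) :=
  (cn_col g).2 (((cn_col f).1 h).of_homotopy (hoZ H.col (H.ι₀ h0) (H.ι₁ h1)))

end SP

/-- Prespectra of pairs. -/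
structure PP where
  X : ℕ → SP.{u}
  H : ∀ m, SP.Hm (X m) (X (m + 1))
  e : ∀ m n c x, ((H m).H n (SimplexCategory.const _ _ c)).1 x ∈ ((X (m + 1)).obj n).A

namespace PP

open SP SPr

instance : Category PP.{u} where
  Hom P Q := {f : ∀ m, P.X m ⟶ Q.X m //
    ∀ m n t, (f m).app n ≫ (Q.H m).H n t = (P.H m).H n t ≫ (f (m + 1)).app n}
  id P := ⟨fun _ => 𝟙 _, fun _ _ _ => by simp⟩
  comp f g := ⟨fun m => f.1 m ≫ g.1 m, fun m n t => by
    rw [NatTrans.comp_app, NatTrans.comp_app, Category.assoc, g.2, ← Category.assoc, f.2,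
      Category.assoc]⟩

theorem ext {P Q : PP.{u}} {f g : P ⟶ Q} (h : ∀ m, f.1 m = g.1 m) : f = g := Subtype.ext (funext h)

/-- The collapse. -/
def Co : PP.{u} ⥤ SPr.{u} where
  obj P := ⟨fun m => col.obj (P.X m), fun m => (P.X m).o, fun m => (P.H m).col,
    fun m => by ext n z; exact PT.cm_null (P.e m n 0) z,
    fun m => by ext n z; exact PT.cm_null (P.e m n 1) z, fun m => (P.H m).base⟩
  map {P Q} f := ⟨fun m => col.map (f.1 m), fun _ => rfl, fun m => by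
    ext n ⟨z, t⟩
    exact PT.cl_ind z rfl fun x =>
      congrArg ((Q.X _).obj _).k (congrArg (fun f => f.1 x) (f.2 m n _))⟩
  map_id _ := SPr.ext fun _ => col.map_id _
  map_comp _ _ := SPr.ext fun _ => col.map_comp _ _

/-- The realisation. -/
noncomputable def R : PP.{u} ⥤ Pre.{u} := Co ⋙ SPr.R

variable {X P Y : PP.{u}} {a : ℕ → ℕ}

theorem bij (f : X ⟶ Y) (ha : Gw a) (h : ∀ m, Cn (a m) (RC.map (f.1 m))) (n : ℤ) :
    Bijective (Pre.map n (R.map f)) := SPr.bij (Co.map f) ha (fun m => (cn_col _).1 (h m)) n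

theorem bij' (f : X ⟶ Y) (h : ∀ m b, Cn b (RC.map (f.1 m))) (n : ℤ) :
    Bijective (Pre.map n (R.map f)) := bij f (gw_two 0) (fun _ => h _ _) n

theorem acy (ha : Gw a) (h : ∀ m, Ac (a m) (RC.obj (X.X m))) : (R.obj X).Acy :=
  SPr.acy (X := Co.obj X) ha fun m => (X.X m).cp.ac.1 (h m)

theorem map_ho {f g : X ⟶ Y} (H : ∀ m, Hm (X.X m) (Y.X m))
    (h0 : ∀ m n, (H m).H n (SimplexCategory.const _ _ 0) = (f.1 m).app n)
    (h1 : ∀ m n, (H m).H n (SimplexCategory.const _ _ 1) = (g.1 m).app n) {n : ℤ} (z) :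
    Pre.map n (R.map f) z = Pre.map n (R.map g) z :=
  SPr.map_ho (f := Co.map f) (g := Co.map g) (fun m => (H m).col) (fun m => (H m).ι₀ (h0 m)) (fun m => (H m).ι₁ (h1 m))
    (fun m => (H m).base) z

variable {i : X ⟶ P} {q : P ⟶ Y}

theorem nl (e : ∀ m, Nl (i.1 m) (q.1 m)) : Pre.Nl (R.map i) (R.map q) := 
  SPr.nl (i := Co.map i) (q := Co.map q) fun m => (e m).col

theorem col_bij (hi : ∀ m, Em (i.1 m)) (e : ∀ m, Nl (i.1 m) (q.1 m)) (ha : Gw a)
    (h : ∀ m, Cn (a m) (RC.map (e m).md)) (k : Pre.Nl (R.map i) (R.map q)) (n : ℤ) :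
    Bijective (Pre.map n k.col) :=
  have : ∀ m, Mono ((Co.map i).1 m) := fun m => (hi m).mono
  SPr.col_bij (i := Co.map i) (q := Co.map q) (fun m => (e m).col) ha (fun m => (e m).cn.1 (h m)) k n

theorem un {J : Type v} [Preorder J] [IsDirected J (· ≤ ·)] [Nonempty J] {W : J → PP.{u}}
    {v : ∀ {d e}, d ≤ e → (W d ⟶ W e)} {w : ∀ d, W d ⟶ X}
    (vv : ∀ {d e f} (h : d ≤ e) (k : e ≤ f), v h ≫ v k = v (h.trans k))
    (vw : ∀ {d e} (h : d ≤ e), v h ≫ w e = w d) (hw : ∀ d m, Em ((w d).1 m))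
    (h : ∀ m n z, z ∈ ((X.X m).obj n).A ∨ ∃ d y, (((w d).1 m).app n).1 y = z) :
    Pre.Un (fun l => R.map (v l)) fun d => R.map (w d) :=
  have : ∀ d m, Mono ((Co.map (w d)).1 m) := fun d m => (hw d m).mono
  SPr.un (W := fun d => Co.obj (W d)) (v := fun l => Co.map (v l)) (w := fun d => Co.map (w d))
    (fun a b => by rw [← Co.map_comp, vv]) (fun a => by rw [← Co.map_comp, vw]) fun m n z =>
      PT.cl_ind z ⟨Classical.arbitrary J, PT.o _, rfl⟩ fun x => (h m n x).elim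
        (fun k => ⟨Classical.arbitrary J, PT.o _, (PT.k_o.2 k).symm⟩)
        fun ⟨d, y, e⟩ => ⟨d, PT.k _ y, congrArg (PT.k _) e⟩

end PP

end Pool.Agent.Lib.MP_5d3e93_al.Br
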