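import Pool.Agent.Lib.MP_5d3e93_al.Br.FamA
import Pool.Agent.Lib.MP_5d3e93_al.Br.PP
import Pool.Agent.Lib.MP_5d3e93_al.Br.CylD

/-! Nerves of weak equivalences, coloured labels and the iterated S-construction. -/

open CategoryTheory Limits ZeroObject Opposite Simplicial

namespace Pool.Agent.Lib.MP_5d3e93_al.A2

open Gr Am Br

universe v u w w' w''

set_option backward.isDefEq.respectTransparency false

/-- The functor on weak equivalences. -/
def Tp.Hom.w {x y : Tp.{v, u}} (f : x ⟶ y) : x.a.Wq False x.S ⥤ y.a.Wq False y.S := f.f.wq id f.h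

/-- The nerve of the weak equivalences with the chains of trivial complexes. -/
noncomputable def NP : Tp.{v, u} ⥤ SP.{max u v} where
  obj x := SP.mk (nerve (x.a.Wq False x.S)) (fun _ => {σ | ∀ k, IsZero (x.a.nq.obj (σ.obj k).K)})
    fun _ _ h _ => h _
  map f := SP.hom (nerveMap f.w) fun _ _ h k => f.f.D.map_isZero (h k)
  map_id _ := rfl
  map_comp _ _ := rfl

/-- The labels of degree zero of the relative construction. -/
abbrev oL : Lab := DR.obj (op ⦋0⦌)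

/-- A triple with constant classes. -/
def inT : Tp.{v, u} ⥤ Lab ⥤ LT.{v, u} where
  obj x := { obj := fun Λ => ⟨Λ.ten oL, x.a, fun _ => x.S⟩
             map := fun g => ⟨Lab.tenm g (𝟙 _), x.a.idm, fun _ _ _ h => h⟩ }
  map f := { app := fun _ => ⟨𝟙 _, f.f, fun _ _ => f.h⟩ }

/-- Postcomposition. -/
abbrev wr {A : Type*} [Category* A] {B : Type*} [Category* B] (J : Type*) [Category* J]
    (F : A ⥤ B) : (J ⥤ A) ⥤ J ⥤ B := (Functor.whiskeringRight _ _ _).obj F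

section
variable (E : Type w) [Category.{w'} E]

/-- The diagonal over a simplicial system of labels. -/
def St (D : SimplexCategoryᵒᵖ ⥤ Lab) : (Lab ⥤ SimplicialObject E) ⥤ SimplicialObject E :=
  (Functor.whiskeringLeft _ _ _).obj D ⋙ dgG _ E

end

/-- The nerve pair of families with labels tensored by a variable system. -/
noncomputable def KL : Tp.{v, u} ⥤ Lab ⥤ SP.{max 1 u v} := inT ⋙ wr Lab (Fm ⋙ NP)

/-- The iterated S-construction. -/
noncomputable def KP (m : ℕ) : Tp.{v, u} ⥤ SP.{max 1 u v} := KL ⋙ St _ (Dm m)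

/-- Adding a label in front. -/
def cns (m : ℕ) (n : SimplexCategoryᵒᵖ) (t : Iv n) : (Dm m).obj n ⟶ (Dm (m + 1)).obj n :=
  ⟨⟨fun l => Fin.cons t l, fun _ _ h k => Fin.cases le_rfl (fun j => h j) k⟩, fun _ h k => h k.succ⟩

theorem cns_nat (m : ℕ) {n n' : SimplexCategoryᵒᵖ} (θ : n ⟶ n') (t : n.unop ⟶ ⦋1⦌) :
    (Dm m).map θ ≫ cns m n' (θ.unop ≫ t).toOrderHom =
      cns m n t.toOrderHom ≫ (Dm (m + 1)).map θ :=
  Lab.hom_ext fun _ => funext fun k => Fin.cases rfl (fun _ => rfl) k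

/-- The structure maps for a functor on labels. -/
def stH (Ψ : Lab ⥤ SP.{w}) (m : ℕ) :
    SP.Hm ((St _ (Dm m)).obj Ψ) ((St _ (Dm (m + 1))).obj Ψ) where
  H n t := (Ψ.map (cns m n t.toOrderHom)).app n
  nat {n n'} θ t := by
    change ((Ψ.map ((Dm m).map θ)).app n ≫ (Ψ.obj _).map θ) ≫ _ =
      _ ≫ (Ψ.map ((Dm (m + 1)).map θ)).app n ≫ (Ψ.obj _).map θ
    rw [Category.assoc, NatTrans.naturality, ← Category.assoc, ← Category.assoc,
      ← NatTrans.comp_app, ← NatTrans.comp_app, ← Ψ.map_comp, ← Ψ.map_comp, cns_nat]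

/-- Families all of whose labels are dead are trivial. -/
theorem fm_dead {x y : LT.{v, u}} (f : x ⟶ y) (h : ∀ l, f.f.f l ∉ y.Λ.U) (n) (σ) :
    (((Fm ⋙ NP).map f).app n).1 σ ∈ (((Fm ⋙ NP).obj y).obj n).A := fun k =>
  (fmM f.f f.φ).isZero (fun _ => Fam.isZero_of fun _ => h _) ((FamA x.Λ x.a).nq.obj (σ.obj k).K)

/-- The K-theory prespectrum of pairs. -/
noncomputable def kp : Tp.{v, u} ⥤ PP.{max 1 u v} where
  obj x := ⟨fun m => (KP m).obj x, stH (KL.obj x), fun m n c σ =>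
    fm_dead ((inT.obj x).map (cns m n _)) (fun l h => by
      have := (h.1 0).1.symm.trans (h.1 0).2
      exact absurd this (by decide)) n σ⟩
  map f := ⟨fun m => (KP m).map f, fun m n t =>
    congrArg (·.app n) ((KL.map f).naturality (cns m n t.toOrderHom)).symm⟩
  map_id x := PP.ext fun m => (KP m).map_id x
  map_comp f g := PP.ext fun m => (KP m).map_comp f g

/-- Coloured labels. -/
structure LC (C : Type w) where
  Λ : Lab
  c : Λ.L → C

namespace LC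

variable {C : Type w} [Preorder C]

/-- Maps of coloured labels. -/
structure Hom (X Y : LC C) where
  f : X.Λ ⟶ Y.Λ
  h : ∀ l, f.f l ∈ Y.Λ.U → X.c l ≤ Y.c (f.f l)

instance : Category (LC C) where
  Hom := Hom
  id _ := ⟨𝟙 _, fun _ _ => le_rfl⟩
  comp f g := ⟨f.f ≫ g.f, fun l c => (f.h l (g.f.al _ c)).trans (g.h _ c)⟩

theorem hom_ext {X Y : LC C} {f g : X ⟶ Y} (h : ∀ l, f.f.f l = g.f.f l) : f = g := by
  obtain ⟨f, _⟩ := f
  obtain ⟨g, _⟩ := g
  obtain rfl : f = g := Lab.hom_ext h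
  rfl

variable (C) in
/-- Tensoring with labels. -/
def act : LC C ⥤ Lab ⥤ LC C where
  obj Y := { obj := fun Λ => ⟨Λ.ten Y.Λ, fun l => Y.c l.2⟩
             map := fun g => ⟨Lab.tenm g (𝟙 _), fun _ _ => le_rfl⟩ }
  map f := { app := fun _ => ⟨Lab.tenm (𝟙 _) f.f, fun l c => f.h l.2 c.2⟩ }

/-- Maps that are colour preserving order isomorphisms on the alive labels. -/
structure Eqv {X Y : LC C} (f : X ⟶ Y) : Prop where
  al : ∀ l ∈ X.Λ.U, f.f.f l ∈ Y.Λ.U
  ord : ∀ l ∈ X.Λ.U, ∀ l' ∈ X.Λ.U, f.f.f l ≤ f.f.f l' → l ≤ l'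
  on : ∀ l ∈ Y.Λ.U, ∃ k, f.f.f k = l
  col : ∀ l ∈ X.Λ.U, Y.c (f.f.f l) ≤ X.c l

/-- One alive label with a colour. -/
def oc (S : C) : LC C := ⟨oL, fun _ => S⟩

/-- The inclusion for two colours. -/
def ocm {N S : C} (h : N ≤ S) : oc N ⟶ oc S := ⟨𝟙 _, fun _ _ => h⟩

/-- The value of a label at a vertex. -/
def vl {q : SimplexCategoryᵒᵖ} (l : (DR.obj q).L) : Iv q := l

/-- The relative construction. -/
def Rq {N S : C} (h : N ≤ S) : SimplexCategoryᵒᵖ ⥤ LC C where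
  obj q := ⟨DR.obj q, fun l => if vl l 0 = 1 then S else N⟩
  map θ := ⟨DR.map θ, fun l _ => by
    dsimp only
    split_ifs with a b
    · exact le_rfl
    · exact (b (le_antisymm (Fin.le_last _) (a.ge.trans ((vl l).monotone (Fin.zero_le _))))).elim
    · exact h
    · exact le_rfl⟩
  map_id _ := hom_ext fun _ => rfl
  map_comp _ _ := hom_ext fun _ => rfl

/-- The middle label in degree one. -/
def iR {N S : C} (h : N ≤ S) : oc N ⟶ (Rq h).obj (op ⦋1⦌) :=
  ⟨⟨⟨fun l => OrderDual.toDual ⟨fun i : Fin 2 => min i (vl l 0),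
      fun _ _ c => min_le_min_right _ c⟩, fun _ _ c _ => min_le_min_left _ (c 0)⟩,
    fun l c => le_antisymm (Fin.le_last _) (c.symm.le.trans (min_le_right _ _))⟩, fun l _ => by
    dsimp only [oc, Rq]
    split_ifs
    exacts [h, le_rfl]⟩

/-- Degree zero of the relative construction. -/
def yR {N S : C} (h : N ≤ S) : oc S ≅ (Rq h).obj (op ⦋0⦌) where
  hom := ⟨𝟙 _, fun l c => (if_pos (show vl l 0 = 1 from c)).ge⟩
  inv := ⟨𝟙 _, fun l c => (if_pos (show vl l 0 = 1 from c)).le⟩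

variable {E : Type w'} [Category.{w''} E]

/-- The diagonal construction on functors of coloured labels. -/
def It (D : SimplexCategoryᵒᵖ ⥤ Lab) (Φ : LC C ⥤ SimplicialObject E) :
    LC C ⥤ SimplicialObject E := act C ⋙ wr Lab Φ ⋙ St E D

/-- Functors that kill dead systems and invert equivalences. -/
structure Gd (Φ : LC C ⥤ SA.{w'}) : Prop where
  z : ∀ Y : LC C, (∀ l, l ∉ Y.Λ.U) → IsZero (Φ.obj Y)
  e : ∀ {X Y : LC C} (f : X ⟶ Y), Eqv f → ∀ b, Cn b (CC.map (Φ.map f))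

/-- The faces of the second level of the S-construction. -/
def sd (Y : LC C) (i : Fin 3) : ((act C).obj Y).obj (DS.obj (op ⦋2⦌)) ⟶
    ((act C).obj Y).obj (DS.obj (op ⦋1⦌)) := ((act C).obj Y).map (DS.map (SimplexCategory.δ i).op)

/-- Additivity in degrees below `r`. -/
def Add (Φ : LC C ⥤ SA.{w'}) (r : ℕ) : Prop := ∀ (Y : LC C) j, j < r →
  (HH j).map (Φ.map (sd Y 1)) = (HH j).map (Φ.map (sd Y 0)) + (HH j).map (Φ.map (sd Y 2))

/-- The inclusion into the first level of the S-construction. -/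
def ι₁ (Y : LC C) : Y ⟶ ((act C).obj Y).obj (DS.obj (op ⦋1⦌)) :=
  ⟨⟨⟨fun l => (OrderHom.id, l), fun _ _ c => ⟨le_rfl, c⟩⟩, fun _ c => c.2⟩, fun _ _ => le_rfl⟩

/-- A decomposition of the alive labels of `Y` into the images of the maps `h k`. -/
structure Dec {Y : LC C} {κ : Type} {X : κ → LC C} (h : ∀ k, X k ⟶ Y) where
  P : Type
  [ord : PartialOrder P]
  [fin : Finite P]
  p : Y.Λ.L →o P
  t : κ → P
  inj : Function.Injective t
  ρ : ∀ k, Y.Λ.L →o (X k).Λ.L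
  cov : ∀ l ∈ Y.Λ.U, ∃ k, p l = t k
  sec : ∀ k, ∀ x ∈ (X k).Λ.U, (h k).f.f x ∈ Y.Λ.U ∧ p ((h k).f.f x) = t k ∧ ρ k ((h k).f.f x) = x
  al : ∀ k l, p l = t k → (ρ k l ∈ (X k).Λ.U ↔ l ∈ Y.Λ.U)
  ret : ∀ k, ∀ l ∈ Y.Λ.U, p l = t k → (h k).f.f (ρ k l) = l ∧ Y.c l ≤ (X k).c (ρ k l)

end LC

/-- Triangulated classes. -/
abbrev Cls (a : Am.{v, u}) : Type (max u v) := {S : ObjectProperty a.D // Tg S}

/-- Coloured labels as labelled triples. -/
def inC (a : Am.{v, u}) : LC (Cls a) ⥤ LT.{v, u} where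
  obj Y := @LT.mk Y.Λ a (fun l => (Y.c l).1) fun l => (Y.c l).2
  map f := ⟨f.f, a.idm, f.h⟩

/-- The nerve pair of coloured families. -/
noncomputable def PhP (a : Am.{v, u}) : LC (Cls a) ⥤ SP.{max 1 u v} := inC a ⋙ Fm ⋙ NP

theorem kp_oc (m : ℕ) (x : Tp.{v, u}) :
    (KP m).obj x = (LC.It (Dm m) (PhP x.a)).obj (LC.oc ⟨x.S, x.tg⟩) := rfl

end Pool.Agent.Lib.MP_5d3e93_al.A2
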