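import Pool.Agent.Lib.MP_5d3e93_al.Br.DefD
import Pool.Agent.Lib.MP_5d3e93_al.Br.KD
import Pool.Agent.Lib.MP_5d3e93_al.Br.A1Ap
import Pool.Agent.Lib.MP_5d3e93_al.Br.A1Gl
import Pool.Agent.Lib.MP_5d3e93_al.Br.RelA
import Pool.Agent.Lib.MP_5d3e93_al.Gr.Of

/-! Chains of homotopy equivalences and nerves of weak equivalences. -/

open CategoryTheory Limits Opposite

namespace Pool.Agent.Lib.MP_5d3e93_al.As

open Br Gr Am

universe v u u'

set_option backward.isDefEq.respectTransparency false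

section GlC

/-- Chains of homotopy equivalences with the contractible chains. -/
noncomputable def CP : AC.{v, u} ⥤ SP.{max v u} where
  obj B :=
    { obj n := ⟨Chn n B, {x | x.Nul}⟩
      map θ := ⟨Chn.map θ (𝟙 B :), fun _ h => Chn.Nul.map θ _ h⟩
      map_id _ := rfl
      map_comp _ _ := rfl }
  map H := { app n := ⟨Chn.map (𝟙 n) H, fun _ h => Chn.Nul.map _ H h⟩, naturality _ _ _ := rfl }
  map_id _ := rfl
  map_comp _ _ := rfl

theorem glc_sb {C : Type u} [Category.{v} C] [Preadditive C] {K : CochainComplex C ℤ} :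
    Sb ⊤ K ↔ ∃ r : ℕ, ∀ k : ℤ, r < |k| → IsZero (K.X k) :=
  ⟨fun ⟨_, p, q, h⟩ => ⟨p.natAbs + q.natAbs, fun k l => h k (by
      rcases abs_cases k with c | c <;> omega)⟩,
    fun ⟨r, h⟩ => ⟨fun _ => trivial, -r, r, fun k l => h k (by
      rcases abs_cases k with c | c <;> omega)⟩⟩

theorem glc_eqv {C : Type u} [Category.{v} C] [Preadditive C] {K L : CochainComplex C ℤ}
    (φ : K ⟶ L) : IsIso ((HomotopyCategory.quotient _ _).map φ) ↔
      HomologicalComplex.homotopyEquivalences _ _ φ := by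
  rw [← HomotopyCategory.inverseImage_quotient_isomorphisms]
  rfl

variable {B B' : AC.{v, max u v}} {x x' : A2.Tp.{v, u}} (Φ : B.C ⥤ x.a.A) [Φ.Additive]
  (h : x.a.bdd ≤ x.S) (Φ' : B'.C ⥤ x'.a.A) [Φ'.Additive] (h' : x'.a.bdd ≤ x'.S)

/-- A chain of homotopy equivalences as a chain of weak equivalences. -/
noncomputable def cw {n : SimplexCategoryᵒᵖ} (σ : Chn n B) :
    Fin (n.unop.len + 1) ⥤ x.a.Wq False x.S where
  obj i := ⟨(Φ.mapHomologicalComplex _).obj (σ.F.obj i), nofun, h _ (bdd_of_sb (glc_sb.2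
    ((σ.bdd i).imp fun _ c k l => Φ.map_isZero (c k l))))⟩
  map a := ⟨(Φ.mapHomologicalComplex _).map (σ.F.map a),
    have := (glc_eqv _).2 (σ.eqv _ _ a)
    inferInstanceAs (IsIso (x.a.Q.map ((Φ.mapHomotopyCategory _).map
      ((HomotopyCategory.quotient _ _).map (σ.F.map a)))))⟩
  map_id i := Subtype.ext ((σ.F ⋙ Φ.mapHomologicalComplex _).map_id i)
  map_comp a b := Subtype.ext ((σ.F ⋙ Φ.mapHomologicalComplex _).map_comp a b)

/-- The map of pairs. -/
noncomputable def cpn : CP.obj B ⟶ A2.NP.obj x where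
  app n := ⟨cw Φ h, fun σ c k => x.a.Q.map_isZero ((Φ.mapHomotopyCategory _).map_isZero
    ((HomotopyCategory.isZero_quotient_obj_iff (σ.F.obj k)).2 (c k)))⟩
  naturality _ _ _ := rfl

theorem glc_congr (Ψ : B.C ⥤ x.a.A) [Ψ.Additive] (e : Φ = Ψ) : cpn Φ h = cpn Ψ h := by
  subst e
  rfl

theorem cpn_nat (H : B ⟶ B') (f : x ⟶ x') (e : H.F ⋙ Φ' = Φ ⋙ f.f.F) :
    CP.map H ≫ cpn Φ' h' = cpn Φ h ≫ A2.NP.map f :=
  glc_congr (H.F ⋙ Φ') h' (Φ ⋙ f.f.F) e

section
variable [HasZeroObject B.C] [HasBinaryBiproducts B.C]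

/-- A chain of weak equivalences of the split ambient category as a chain of homotopy
equivalences. -/
noncomputable def glcB {P : ObjectProperty (Am.of.{v, u} B.C).D} {n : SimplexCategoryᵒᵖ}
    (σ : Fin (n.unop.len + 1) ⥤ (Am.of.{v, u} B.C).Wq True P) : Chn n B where
  F := { obj i := (σ.obj i).K
         map a := (σ.map a).1
         map_id i := congrArg Subtype.val (σ.map_id i)
         map_comp a b := congrArg Subtype.val (σ.map_comp a b) }
  bdd i := glc_sb.1 ((σ.obj i).sb trivial)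
  eqv _ _ a := (glc_eqv _).1 (a1ap_iso of_Q_ff trivial trivial _ (σ.map a).2)

/-- The inverse construction. -/
noncomputable def glcA {P : ObjectProperty (Am.of.{v, u} B.C).D} {n : SimplexCategoryᵒᵖ}
    (σ : Chn n B) (p : ∀ i, P ((Am.of.{v, u} B.C).nq.obj (σ.F.obj i))) :
    Fin (n.unop.len + 1) ⥤ (Am.of.{v, u} B.C).Wq True P where
  obj i := ⟨σ.F.obj i, fun _ => glc_sb.2 (σ.bdd i), p i⟩
  map a := ⟨σ.F.map a,
    @Functor.map_isIso _ _ _ _ _ _ (Am.of.{v, u} B.C).Q _ ((glc_eqv _).2 (σ.eqv _ _ a))⟩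
  map_id i := Subtype.ext (σ.F.map_id i)
  map_comp a b := Subtype.ext (σ.F.map_comp a b)

variable (B) in
/-- The total space is a nerve. -/
noncomputable def glcT :
    nerve ((Am.of.{v, u} B.C).Wq True (Am.of.{v, u} B.C).bdd) ≅ SP.tot.obj (CP.obj B) :=
  NatIso.ofComponents (fun _ => Equiv.toIso
    { toFun := fun σ => glcB σ
      invFun := fun σ => glcA σ fun i => bdd_of_sb (glc_sb.2 (σ.bdd i))
      left_inv := fun _ => rfl
      right_inv := fun _ => rfl }) fun _ => rfl

variable (B) in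
/-- The subobject is a nerve. -/
noncomputable def glcS : nerve ((Am.of.{v, u} B.C).Wq True Zr) ≅ SP.sub.obj (CP.obj B) :=
  NatIso.ofComponents (fun _ => Equiv.toIso
    { toFun := fun σ => ⟨glcB σ, fun i => (HomotopyCategory.isZero_quotient_obj_iff _).1
        ((of_Tb _).1 (σ.obj i).p)⟩
      invFun := fun σ => glcA σ.1 fun i => (of_Tb _).2
        ((HomotopyCategory.isZero_quotient_obj_iff _).2 (σ.2 i))
      left_inv := fun _ => rfl
      right_inv := fun _ => rfl }) fun _ => rfl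

end

variable (x) in
/-- The subobject of the nerve pair is the nerve of the trivial complexes. -/
noncomputable def glcZ : nerve (x.a.Wq False Zr) ≅ SP.sub.obj (A2.NP.obj x) :=
  NatIso.ofComponents (fun _ => Equiv.toIso
    { toFun := fun σ => ⟨
        { obj := fun k => ⟨(σ.obj k).K, (σ.obj k).sb, Tg.zero _ (σ.obj k).p⟩
          map := fun g => σ.map g
          map_id := fun k => σ.map_id k
          map_comp := fun g g' => σ.map_comp g g' }, fun k => (σ.obj k).p⟩
      invFun := fun σ =>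
        { obj := fun k => ⟨(σ.1.obj k).K, (σ.1.obj k).sb, σ.2 k⟩
          map := fun g => σ.1.map g
          map_id := fun k => σ.1.map_id k
          map_comp := fun g g' => σ.1.map_comp g g' }
      left_inv := fun _ => rfl
      right_inv := fun _ => rfl }) fun _ => rfl

/-- Derived equivalences give isomorphisms on relative homology. -/
theorem cpn_cn [HasZeroObject B.C] [HasBinaryBiproducts B.C]
    (d : Deq (ofMap.{v, u} (b := x.a) Φ).D (Am.of.{v, u} B.C).bdd x.S) (b : ℕ) :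
    Cn b (RC.map (cpn Φ h)) := by
  have g : True → (Am.of.{v, u} B.C).T ≤ genK ⊤ := fun _ _ k => Cl.zero k
  have z : Zr ≤ Zr.inverseImage (ofMap.{v, u} (b := x.a) Φ).D :=
    fun _ k => (ofMap.{v, u} (b := x.a) Φ).D.map_isZero k
  refine (cn_rel_iff _ fun c => ?_).2 ?_
  · exact (cn_sq (ZC.map (glcS B).hom) (ZC.map (glcZ x).hom) (by
      rw [← ZC.map_comp, ← ZC.map_comp]
      rfl)).1 (cn_nerve (app (β := True) (β' := False) g nofun (ofMap.{v, u} (b := x.a) Φ) nofun
        (fun _ => le_rfl) d (fun _ k => Tg.zero _ k) (fun _ k => Tg.zero _ k) z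
        fun X p k => (IsZero.iff_id_eq_zero X).2 ((d.ff p p).1 (IsZero.eq_of_src k _ _))) c)
  · exact (cn_sq (ZC.map (glcT B).hom) (𝟙 _) (by
      rw [← ZC.map_comp, Category.comp_id]
      rfl)).1 (cn_nerve (app (β := True) (β' := False) g nofun (ofMap.{v, u} (b := x.a) Φ) nofun
        (fun _ => le_rfl) d le_rfl le_rfl d.maps fun _ p _ => p) b)

end GlC

end Pool.Agent.Lib.MP_5d3e93_al.As
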