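import Pool.Agent.Lib.MP_5d3e93_al.Br.FC
import Pool.Agent.Lib.MP_5d3e93_al.Gr.Of

/-! Families over a split category. -/

open CategoryTheory Limits Pretriangulated ZeroObject Opposite

namespace Pool.Agent.Lib.MP_5d3e93_al.A2

open Gr Am Lab.Cv Fam

universe v u v' u'

set_option backward.isDefEq.respectTransparency false

section
open Classical

variable {Λ : Lab} {C : Type u} [Category.{v} C] [Preadditive C] {P Q R : Fam Λ C}

/-- The inclusion of a member. -/
noncomputable def glIn (P : Fam Λ C) (i : P.ι) : (jl C (P.l i)).obj (P.X i) ⟶ P :=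
  homMk (fun _ j => (𝟙 P : P ⟶ P).1 i j) fun _ _ a => e_zero (𝟙 P) a

/-- The projection to a member. -/
noncomputable def glPr (P : Fam Λ C) (i : P.ι) : P ⟶ (jl C (P.l i)).obj (P.X i) :=
  homMk (fun j _ => (𝟙 P : P ⟶ P).1 j i) fun _ _ a => e_zero (𝟙 P) a

theorem gl_sum_e {ι : Type*} (s : Finset ι) (f : ι → (P ⟶ Q)) (i j) :
    (∑ a ∈ s, f a).1 i j = ∑ a ∈ s, (f a).1 i j := by
  induction s using Finset.induction_on with
  | empty => simp
  | insert a s h ih => rw [Finset.sum_insert h, Finset.sum_insert h, add_e, ih]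

theorem gl_tot (P : Fam Λ C) : ∑ i, glPr P i ≫ glIn P i = 𝟙 P := hom_ext fun i j => by
  rw [gl_sum_e, ← Category.comp_id (𝟙 P), comp_e]
  exact Finset.sum_congr rfl fun k _ => (comp_e ..).trans (Fintype.sum_unique (ι := Unit) _)

end

variable {Λ : Lab} {A : Type (max u v)} [Category.{v} A] [Preadditive A] [HasZeroObject A]
  [HasBinaryBiproducts A]

theorem gl_pj_jl (l : Λ.L) (Y : A) :
    (FamA Λ (of.{v, u} A)).Pj ((jl A l).obj Y) := fun t h φ => by
  by_cases c : l ∈ Λ.U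
  · obtain ⟨ad, -⟩ := jl_adj (C := (of.{v, u} A).A) (l := l) ⟨c, le_rfl⟩
    let j : Map (of.{v, u} A) (of.{v, max 1 u} (Fam Λ A)) :=
      @ofMap _ _ _ _ _ (of.{v, max 1 u} (Fam Λ A)) (jl A l) (inferInstanceAs (jl A l).Additive)
    let r : Map (of.{v, max 1 u} (Fam Λ A)) (of.{v, u} A) := ofMap (sm (of.{v, u} A).A (le l))
    obtain ⟨ad', -⟩ := j.exists_adj r ad
    obtain ⟨e⟩ := j.sg_iso
    have z : IsZero (r.D.obj ((of.{v, max 1 u} (Fam Λ A)).Q.obj t)) :=
      gr_of (a := of.{v, u} A) Zr t.as (le l) fun l _ => h l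
    refine (of_Q_ff.{v, max 1 u} (A := Fam Λ A) trivial trivial).1 ?_
    exact (cancel_epi (Y := (of.{v, max 1 u} (Fam Λ A)).sg.obj ((jl A l).obj Y)) (e.app Y).hom).1
      ((ad'.homEquiv _ _).injective (z.eq_of_tgt _ _))
  · exact ((HomotopyCategory.singleFunctor _ 0).map_isZero
      (isZero_of (P := (jl A l).obj Y) fun _ => c)).eq_of_src _ _

theorem gl_pj (P : Fam Λ A) : (FamA Λ (of.{v, u} A)).Pj P := fun t h φ => by
  let s := HomotopyCategory.singleFunctor (Fam Λ A) 0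
  have k : ∀ i, s.map (glIn P i) ≫ φ = 0 := fun i => gl_pj_jl _ _ t h _
  refine (Category.id_comp φ).symm.trans ?_
  erw [← s.map_id, ← gl_tot, s.map_sum, Preadditive.sum_comp]
  exact Finset.sum_eq_zero fun i _ => by erw [s.map_comp, Category.assoc, k, comp_zero]

theorem gl_cls (a : Am.{v, u}) : cls (Λ := Λ) (fun _ => a.bdd) = (FamA Λ a).bdd := by
  have : Tg a.bdd := inferInstanceAs (Tg (Cl _))
  have : Tg (FamA Λ a).bdd := inferInstanceAs (Tg (Cl _))
  refine le_antisymm ((fm_gen _).le.trans (Cl.le ?_)) fun X h l => (smM a (one l)).bdd_map X h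
  rintro _ ⟨l, -, Y, y, rfl⟩
  exact (jM a l).bdd_map Y y

/-- An equivalence with a category of families over a split category. -/
theorem gl_deq {B : Type (max u' v')} [Category.{v'} B] [Preadditive B] [HasZeroObject B]
    [HasBinaryBiproducts B] (F : B ⥤ Fam Λ A) [F.Additive] [F.IsEquivalence] :
    Deq (ofMap.{v', u'} (b := FamA Λ (of.{v, u} A)) F).D (of.{v', u'} B).bdd
      (cls fun _ => (of.{v, u} A).bdd) := by
  have e : (⊤ : ObjectProperty B).map F = ⊤ :=
    le_antisymm le_top fun Y _ => ⟨_, trivial, ⟨F.objObjPreimageIso Y⟩⟩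
  have := FF.deq_gen (ofMap.{v', u'} (b := FamA Λ (of.{v, u} A)) F) (ff_of_pj _ (G := ⊤)
    (fun g _ => of_pj.{v', u'} g) (fun g _ => gl_pj (F.obj g))
    fun _ _ _ _ => ⟨F.map_injective, F.map_surjective⟩)
  rw [gl_cls]
  exact cast (congrArg (fun S => Deq _ _ ((FamA Λ (of.{v, u} A)).gen S)) e) this

end Pool.Agent.Lib.MP_5d3e93_al.A2
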