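import Pool.Agent.Lib.MP_5d3e93_al.Br.Tp

/-! Towers of prespectra. -/

open CategoryTheory Function

namespace Pool.Agent.Lib.MP_5d3e93_al.Br

universe u

open Pre

/-- Towers. -/
structure To where
  X : ℕ → Pre.{u}
  P : ℕ → Pre.{u}
  i : ∀ k, X k ⟶ P k
  q : ∀ k, P k ⟶ X (k + 1)
  z : ∀ k, Nl (i k) (q k)
  ac : ∀ k, (P k).Acy

/-- Maps of towers. -/
structure Tm (T U : To.{u}) where
  a : ∀ k, T.X k ⟶ U.X k
  b : ∀ k, T.P k ⟶ U.P k
  hi : ∀ k, T.i k ≫ b k = a k ≫ U.i k
  hq : ∀ k, T.q k ≫ a (k + 1) = b k ≫ U.q k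

namespace To

variable {T U V : To.{u}} {k : ℕ} {n : ℤ}

/-- The transition maps. -/
noncomputable def τ (T : To.{u}) (k : ℕ) (n : ℤ) : (T.X k).π n →+ (T.X (k + 1)).π (n + 1) :=
  (T.z k).τ (T.ac k) n

variable (T) in
/-- Classes that die in the tower. -/
inductive Dies : ∀ k n, (T.X k).π n → Prop
  | zero {l j} : Dies l j 0
  | up {l j x} : Dies (l + 1) (j + 1) (T.τ l j x) → Dies l j x

/-- All classes die. -/
def Z (T : To.{u}) : Prop := ∀ k n x, T.Dies k n x

theorem Dies.τ {x : (T.X k).π n} (h : T.Dies k n x) : T.Dies _ _ (T.τ k n x) := by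
  cases h with
  | zero => exact (map_zero (T.τ k n)).symm ▸ .zero
  | up h => exact h

theorem Dies.add {x y : (T.X k).π n} (h : T.Dies k n x) (h' : T.Dies k n y) :
    T.Dies k n (x + y) := by
  induction h with
  | zero => rwa [zero_add]
  | up _ ih => exact .up (map_add (T.τ _ _) _ y ▸ ih h'.τ)

theorem Dies.neg {x : (T.X k).π n} (h : T.Dies k n x) : T.Dies k n (-x) := by
  induction h with
  | zero => exact neg_zero (G := (T.X _).π _).symm ▸ .zero
  | up _ ih => exact .up (map_neg (T.τ _ _) _ ▸ ih)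

theorem z_of_acy (h : ∀ k, (T.X k).Acy) : T.Z := fun k n x => h k n x ▸ .zero

/-- The suspension of a tower. -/
def S (T : To.{u}) : To.{u} :=
  ⟨fun k => (T.X k).S, fun k => (T.P k).S, fun k => spm (T.i k), fun k => spm (T.q k),
    fun k => (T.z k).S, fun k => (T.ac k).S⟩

theorem dies_s {y : (T.S.X k).π n} (h : T.S.Dies k n y) :
    ∀ n' (e : n = n' + 1) (x : (T.X k).π n'), (T.X k).s n' x = e ▸ y → T.Dies k n' x := by
  induction h with
  | zero =>
    rintro n rfl x e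
    exact (map_eq_zero_iff _ s_bij.1).1 e ▸ .zero
  | up _ ih =>
    rintro n rfl x rfl
    exact .up (neg_neg (T.τ _ n x) ▸ (ih _ rfl _ ((map_neg ..).trans (Nl.τ_S ..).symm)).neg)

end To

namespace Tm

open To

variable {T U V : To.{u}} (F : Tm T U) {k : ℕ} {n : ℤ}

theorem τ_nat (x : (T.X k).π n) : U.τ k n (map n (F.a k) x) = map _ (F.a (k + 1)) (T.τ k n x) :=
  Nl.τ_nat _ _ _ _ (F.hi k) (F.hq k) x

theorem dies {x : (T.X k).π n} (h : T.Dies k n x) : U.Dies k n (map n (F.a k) x) := by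
  induction h with
  | zero => exact (map_zero (map _ (F.a _))).symm ▸ .zero
  | up _ ih => exact .up (F.τ_nat _ ▸ ih)

/-- Injective in the limit. -/
def Inj : Prop := ∀ k n x, U.Dies k n (map n (F.a k) x) → T.Dies k n x

/-- Classes that finally come from the source. -/
inductive Hit : ∀ k n, (U.X k).π n → Prop
  | im {l j} (x) : Hit l j (map j (F.a l) x)
  | up {l j y} : Hit (l + 1) (j + 1) (U.τ l j y) → Hit l j y

/-- Surjective in the limit. -/
def Surj : Prop := ∀ k n y, F.Hit k n y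

variable {F}

theorem inj_of (h : ∀ k n x, map n (F.a k) x = 0 → T.Dies k n x) : F.Inj := by
  have : ∀ k n y, U.Dies k n y → ∀ x, map n (F.a k) x = y → T.Dies k n x := fun k n y e => by
    induction e with
    | zero => exact h _ _
    | up _ ih => exact fun x e => .up (ih _ (by rw [← F.τ_nat, e]))
  exact fun k n x e => this k n _ e x rfl

theorem Inj.z (h : F.Inj) (z : U.Z) : T.Z := fun k n x => h k n x (z _ _ _)

theorem Surj.z (h : F.Surj) (z : T.Z) : U.Z := fun k n y => by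
  induction h k n y with
  | im x => exact F.dies (z _ _ x)
  | up _ ih => exact .up ih

/-- The defect of injectivity is killed by one transition. -/
theorem inj_of_kill (h : ∀ k, ∃ (N : Pre.{u}) (a : T.X k ⟶ N) (b : N ⟶ U.X k) (r : N ⟶ T.P k),
    a ≫ b = F.a k ∧ a ≫ r = T.i k ∧ Nl r (T.q k) ∧ ∀ n, Injective (map n b)) : F.Inj :=
  inj_of fun k n x e => by
    obtain ⟨N, a, b, r, h1, h2, h3, h4⟩ := h k
    rw [← h1, map_comp, map_eq_zero_iff _ (h4 n)] at e
    exact .up (((T.z k).τ_kill (T.ac k) h2 h3 e : T.τ k n x = 0) ▸ .zero)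

variable (F)

/-- Composition. -/
def comp (G : Tm U V) : Tm T V :=
  ⟨fun k => F.a k ≫ G.a k, fun k => F.b k ≫ G.b k,
    fun k => by rw [← Category.assoc, F.hi, Category.assoc, G.hi, Category.assoc],
    fun k => by rw [← Category.assoc, F.hq, Category.assoc, G.hq, Category.assoc]⟩

/-- The cone of a map of towers. -/
def C : To.{u} :=
  ⟨fun k => Pre.C (F.a k), fun k => Pre.C (F.b k), fun k => cf (F.hi k).symm,
    fun k => cf (F.hq k).symm, fun k m x => Ps.cn_ind x
      (fun x => congrArg (Ps.ci ((F.a (k + 1)).1 m)).1 (U.z k m x))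
      fun t x => (congrArg (Ps.cn ((F.a (k + 1)).1 m) t) (T.z k m x)).trans (Ps.cn_pt t),
    fun k => (T.ac k).C (U.ac k)⟩

/-- The inclusion in the cone. -/
def ci : Tm U F.C := ⟨fun _ => cim _, fun _ => cim _, fun _ => rfl, fun _ => rfl⟩

/-- The projection of the cone. -/
def cc : Tm F.C T.S :=
  ⟨fun _ => ccm _, fun _ => ccm _, fun k => cf_ccm (F.hi k).symm, fun k => cf_ccm (F.hq k).symm⟩

/-- Maps of cones. -/
def cf {T' U' : To.{u}} (F' : Tm T' U') (G : Tm T T') (H : Tm U U')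
    (ha : ∀ k, F.a k ≫ H.a k = G.a k ≫ F'.a k) (hb : ∀ k, F.b k ≫ H.b k = G.b k ≫ F'.b k) :
    Tm F.C F'.C :=
  ⟨fun k => Pre.cf (ha k), fun k => Pre.cf (hb k),
    fun k => Pre.ext fun m => Ps.C_ext
      (fun x => congrArg (fun f : U.X k ⟶ U'.P k => (Ps.ci ((F'.b k).1 m)).1 ((f.1 m).1 x)) (H.hi k))
      fun t x => congrArg (fun f : T.X k ⟶ T'.P k => Ps.cn ((F'.b k).1 m) t ((f.1 m).1 x)) (G.hi k),
    fun k => Pre.ext fun m => Ps.C_ext
      (fun x => congrArg (fun f : U.P k ⟶ U'.X (k + 1) =>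
        (Ps.ci ((F'.a (k + 1)).1 m)).1 ((f.1 m).1 x)) (H.hq k))
      fun t x => congrArg (fun f : T.P k ⟶ T'.X (k + 1) =>
        Ps.cn ((F'.a (k + 1)).1 m) t ((f.1 m).1 x)) (G.hq k)⟩

variable {F}

theorem inj_of_C (h : F.C.Z) : F.Inj := inj_of fun k n x e => by
  obtain ⟨w, a⟩ := (exact₃ (F.a k) ((T.X k).s n x)).1 (by rw [← s_nat, e, map_zero])
  exact dies_s (F.cc.dies (h k _ w)) n rfl x a.symm

theorem surj_of_C (h : F.C.Z) : F.Surj := fun k n y => by
  have : ∀ k n w, F.C.Dies k n w → ∀ y, map n (F.ci.a k) y = w → F.Hit k n y := fun k n w e => by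
    induction e with
    | zero =>
      intro y e
      obtain ⟨x, rfl⟩ := (exact₁ _ y).1 e
      exact .im x
    | up _ ih => exact fun y e => .up (ih _ (by rw [← F.ci.τ_nat, e]))
  exact this k n _ (h _ _ _) y rfl

end Tm

/-- Classes that die along a sequence of towers, at a fixed stage. -/
inductive To.Sd {E : ℕ → To.{u}} (F : ∀ r, Tm (E r) (E (r + 1))) (k : ℕ) (n : ℤ) :
    ∀ r, ((E r).X k).π n → Prop
  | zero {r} : Sd F k n r 0
  | up {r x} : Sd F k n (r + 1) (map n ((F r).a k) x) → Sd F k n r x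

theorem To.z_of_seq {E : ℕ → To.{u}} {F : ∀ r, Tm (E r) (E (r + 1))} (h : ∀ r, (F r).Inj)
    (h0 : ∀ k n x, To.Sd F k n 0 x) : (E 0).Z := fun k n x => by
  have : ∀ r x, To.Sd F k n r x → (E r).Dies k n x := fun r x e => by
    induction e with
    | zero => exact .zero
    | up _ ih => exact h _ _ _ _ ih
  exact this 0 x (h0 k n x)

end Pool.Agent.Lib.MP_5d3e93_al.Br
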