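import Pool.Agent.Lib.MP_5d3e93_al.Br.Rc
import Pool.Agent.Lib.MP_5d3e93_al.Br.Tw

/-! The colimit of a tower as a quotient of a set of loops. -/

open CategoryTheory Function

namespace Pool.Agent.Lib.MP_5d3e93_al.Br

universe u

open Ps Pre

namespace To

variable {T U : To.{u}} {n : ℤ}

/-- All classes of a tower. -/
def Wd (T : To.{u}) : Type u := Σ (k : ℕ) (j : ℤ), (T.X k).π j

/-- The transition map with a sign. -/
noncomputable def Wd.st (a : T.Wd) : T.Wd := ⟨a.1 + 1, a.2.1 + 1, -T.τ _ _ a.2.2⟩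

/-- Classes that finally agree. -/
def Sm (a b : T.Wd) : Prop := ∃ r r', Wd.st^[r] a = Wd.st^[r'] b

theorem Sm.equiv : Equivalence (Sm (T := T)) :=
  ⟨fun _ => ⟨0, 0, rfl⟩, fun ⟨r, r', e⟩ => ⟨r', r, e.symm⟩, fun ⟨r, r', e⟩ ⟨s, s', e'⟩ =>
    ⟨s + r, r' + s', by rw [iterate_add_apply, e, ← iterate_add_apply, add_comm, iterate_add_apply,
      e', iterate_add_apply]⟩⟩

theorem sm_of_dies {k j} {z : (T.X k).π j} (h : T.Dies k j z) :
    ∀ x x', x - x' = z ∨ x' - x = z → Sm (T := T) ⟨k, j, x⟩ ⟨k, j, x'⟩ := by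
  induction h with
  | zero => exact fun x x' e => (e.elim sub_eq_zero.1 fun e => (sub_eq_zero.1 e).symm) ▸ ⟨0, 0, rfl⟩
  | up _ ih =>
    intro x x' e
    obtain ⟨r, r', a⟩ := ih (-T.τ _ _ x) (-T.τ _ _ x') (e.symm.imp
      (fun e => by rw [← e, map_sub]; abel) fun e => by rw [← e, map_sub]; abel)
    exact ⟨r + 1, r' + 1, a⟩

/-- Induced maps. -/
noncomputable def Wd.map (F : Tm T U) (a : T.Wd) : U.Wd := ⟨a.1, a.2.1, Pre.map _ (F.a _) a.2.2⟩

theorem Wd.map_st (F : Tm T U) : Semiconj (Wd.map F) Wd.st Wd.st := fun a =>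
  congrArg (fun z => (⟨a.1 + 1, a.2.1 + 1, z⟩ : U.Wd)) 
    ((map_neg ..).trans (congrArg (-·) (F.τ_nat _).symm))

theorem Wd.inj {F : Tm T U} (h : F.Inj) {a b : T.Wd} (e : Sm (a.map F) (b.map F)) : Sm a b := by
  obtain ⟨r, r', e⟩ := e
  rw [← (map_st F).iterate_right, ← (map_st F).iterate_right] at e
  refine Sm.equiv.trans ⟨r, 0, rfl⟩ (Sm.equiv.trans ?_ ⟨0, r', rfl⟩)
  generalize st^[r] a = a, st^[r'] b = b at e
  obtain ⟨k, j, x⟩ := a
  obtain ⟨k', j', x'⟩ := b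
  obtain rfl : k = k' := congrArg (·.1) e
  obtain rfl : j = j' := congrArg (·.2.1) e
  have := eq_of_heq (Sigma.mk.inj (eq_of_heq (Sigma.mk.inj e).2)).2
  exact sm_of_dies (h k j _ (by rw [map_sub, sub_eq_zero.2 this]; exact .zero)) x x' (.inl rfl)

theorem Wd.surj {F : Tm T U} {k j} {y : (U.X k).π j} (h : F.Hit k j y) : ∀ z, z = y ∨ z = -y →
    ∃ (a : T.Wd) (r : ℕ), a.map F = st^[r] ⟨k, j, z⟩ := by
  induction h with
  | im x =>
    rintro z (rfl | rfl)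
    exacts [⟨⟨_, _, x⟩, 0, rfl⟩, ⟨⟨_, _, -x⟩, 0, congrArg (fun z => (⟨_, _, z⟩ : U.Wd)) (map_neg ..)⟩]
  | up _ ih =>
    intro z e
    obtain ⟨a, r, b⟩ := ih (-U.τ _ _ z) (e.symm.imp (fun e => by rw [e, map_neg, neg_neg])
      fun e => by rw [e])
    exact ⟨a, r + 1, b⟩

theorem Wd.st_deg (r : ℕ) (a : T.Wd) : (st^[r] a).2.1 - (st^[r] a).1 = a.2.1 - a.1 := by
  induction r generalizing a with
  | zero => rfl
  | succ r ih => rw [iterate_succ_apply, ih]; simp [st]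

/-- Loops that represent classes of degree `n`. -/
structure El (T : To.{u}) (n : ℤ) where
  k : ℕ
  m : ℕ
  N : ℕ
  h : (N : ℤ) = n + k + m
  f : Lp N ((T.X k).X m)

/-- The class of a loop. -/
noncomputable def El.val (a : T.El n) : T.Wd := ⟨a.k, n + a.k, (T.X a.k).cs a.h a.f⟩

/-- Induced maps. -/
def El.map (F : Tm T U) (a : T.El n) : U.El n := ⟨a.k, a.m, a.N, a.h, lm ((F.a _).1 _) a.f⟩

theorem El.val_map (F : Tm T U) (a : T.El n) : (a.map F).val = a.val.map F :=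
  congrArg (fun z => (⟨a.k, n + a.k, z⟩ : U.Wd)) (map_cs ..).symm

theorem val_ht {k m N h} {f g} (e : GenLoop.Homotopic f g) :
    (⟨k, m, N, h, f⟩ : T.El n).val = (⟨k, m, N, h, g⟩ : T.El n).val :=
  congrArg (fun z => (⟨k, n + k, z⟩ : T.Wd)) (cs_ht h e)

theorem val_lu {k m N h h'} (f) : (⟨k, m + 1, N + 1, h', (T.X k).lu f⟩ : T.El n).val =
    (⟨k, m, N, h, f⟩ : T.El n).val := congrArg (fun z => (⟨k, n + k, z⟩ : T.Wd)) (cs_lu h h' f)

theorem val_rc {k m N h h'} {f g} (e : Rc ((T.i k).1 m) ((T.q k).1 m) (Fin.last N) f g) :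
    (⟨k + 1, m, N + 1, h', g⟩ : T.El n).val = (⟨k, m, N, h, f⟩ : T.El n).val.st := by
  have c : ∀ j j' (e : j = j') a a', (⟨k + 1, j, (T.X (k + 1)).cs a g⟩ : T.Wd) =
      ⟨k + 1, j', (T.X (k + 1)).cs a' g⟩ := by rintro _ _ rfl _ _; rfl
  refine (c _ (n + k + 1) (by push_cast; omega) h' (by push_cast; omega)).trans ?_
  exact congrArg (fun z => (⟨k + 1, n + k + 1, z⟩ : T.Wd))
    (neg_eq_iff_eq_neg.2 ((T.z k).τ_rc (T.ac k) h _ e)).symm

theorem ex_val {a : T.Wd} (e : a.2.1 - a.1 = n) : ∃ b : T.El n, b.val = a := by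
  obtain ⟨k, j, x⟩ := a
  obtain rfl : j = n + k := by dsimp only at e; omega
  refine ind x fun m N h y => cl_ind y fun f => ?_
  exact ⟨⟨k, m, N + 2, by push_cast; omega, f⟩,
    congrArg (fun z => (⟨k, n + k, z⟩ : T.Wd)) (cs_cl h _ f)⟩

/-- Relations that present the colimit. -/
structure Ad (R : T.El n → T.El n → Prop) : Prop where
  snd : ∀ a b, R a b → Sm a.val b.val
  ht : ∀ k m N h f g, GenLoop.Homotopic f g → Quot.mk R ⟨k, m, N, h, f⟩ = Quot.mk R ⟨k, m, N, h, g⟩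
  lu : ∀ k m N h h' f, Quot.mk R ⟨k, m + 1, N + 1, h', (T.X k).lu f⟩ = Quot.mk R ⟨k, m, N, h, f⟩
  rc : ∀ k m N h h' f g, Rc ((T.i k).1 m) ((T.q k).1 m) (Fin.last N) f g →
    Quot.mk R ⟨k + 1, m, N + 1, h', g⟩ = Quot.mk R ⟨k, m, N, h, f⟩

variable {R : T.El n → T.El n → Prop} (H : Ad R)
include H

theorem Ad.up (a : T.El n) (r : ℕ) : ∃ b : T.El n, b.k = a.k ∧ b.m = a.m + r ∧ b.val = a.val ∧
    Quot.mk R b = Quot.mk R a := by
  induction r with
  | zero => exact ⟨a, rfl, rfl, rfl, rfl⟩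
  | succ r ih =>
    obtain ⟨⟨k, m, N, h, f⟩, a1, a2, a3, a4⟩ := ih
    exact ⟨⟨k, m + 1, N + 1, by push_cast; omega, _⟩, a1, congrArg (· + 1) a2,
      (val_lu f).trans a3, (H.lu ..).trans a4⟩

theorem Ad.of_val {a b : T.El n} (e : a.val = b.val) : Quot.mk R a = Quot.mk R b := by
  obtain ⟨⟨k, m, N, h, f⟩, -, a2, a3, a4⟩ := H.up a b.m
  obtain ⟨⟨k', m', N', h', f'⟩, -, b2, b3, b4⟩ := H.up b a.m
  rw [← a3, ← b3] at e
  rw [← a4, ← b4]
  obtain rfl : k = k' := congrArg (·.1) e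
  obtain rfl : m = m' := by dsimp only at a2 b2; omega
  obtain rfl : N = N' := by omega
  have := eq_of_heq (Sigma.mk.inj (eq_of_heq (Sigma.mk.inj e).2)).2
  rw [← H.lu k m N h (by push_cast; omega), ← H.lu k m N h' (by push_cast; omega),
    ← H.lu k _ _ _ (by push_cast; omega), ← H.lu k (m + 1) (N + 1) _ (by push_cast; omega)]
  refine of_zero (P := T.X k) (n := n + k) (p := fun m j z => ∀ h f g, cl f - cl g = z →
    Quot.mk R ⟨k, m, j + 2, h, f⟩ = Quot.mk R ⟨k, m, j + 2, h, g⟩)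
    ((map_sub ..).trans (sub_eq_zero.2 this))
    (fun m j _ h f g e => H.ht _ _ _ _ _ _ (cl_eq.1 (sub_eq_zero.1 e)))
    (fun m j z _ c h f g e => ?_) _ _ _ rfl
  rw [← H.lu k m _ h (by push_cast; omega), ← H.lu k m _ h (by push_cast; omega) g]
  exact c _ _ _ (by rw [← e, map_sub, map_sub]; rfl)

theorem Ad.st (a : T.El n) (r : ℕ) :
    ∃ b : T.El n, b.val = Wd.st^[r] a.val ∧ Quot.mk R b = Quot.mk R a := by
  induction r generalizing a with
  | zero => exact ⟨a, rfl, rfl⟩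
  | succ r ih =>
    obtain ⟨m, j, h, y, e, e'⟩ := (ker (T.i a.k) (T.ac a.k _ (Pre.map _ _
      ((T.X a.k).cs a.h a.f)))).exists
    induction y using cl_ind with | h f => ?_
    obtain ⟨g, c⟩ := rc_of_ht (T.z a.k m) (Fin.last _) (cl_eq.1 e')
    have v : (⟨a.k, m, j + 2, by push_cast; omega, f⟩ : T.El n).val = a.val :=
      congrArg (fun z => (⟨a.k, n + a.k, z⟩ : T.Wd)) ((cs_cl h _ f).trans e)
    obtain ⟨b, b1, b2⟩ := ih ⟨a.k + 1, m, j + 2 + 1, by push_cast; omega, g⟩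
    exact ⟨b, by rw [b1, iterate_succ_apply, ← v, val_rc c],
      b2.trans ((H.rc _ _ _ _ _ _ _ c).trans (H.of_val v))⟩

theorem Ad.eq {a b : T.El n} : Quot.mk R a = Quot.mk R b ↔ Sm a.val b.val := by
  refine ⟨fun e => ?_, fun ⟨r, r', e⟩ => ?_⟩
  · induction Quot.eqvGen_exact e with
    | rel _ _ h => exact H.snd _ _ h
    | refl => exact Sm.equiv.refl _
    | symm _ _ h ih => exact Sm.equiv.symm (ih (Quot.eqvGen_sound h))
    | trans _ _ _ h k ih ih' =>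
      exact Sm.equiv.trans (ih (Quot.eqvGen_sound h)) (ih' (Quot.eqvGen_sound k))
  · obtain ⟨a', a1, a2⟩ := H.st a r
    obtain ⟨b', b1, b2⟩ := H.st b r'
    rw [← a2, ← b2, H.of_val (a1.trans (e.trans b1.symm))]

/-- Maps of towers that are bijective in the limit. -/
theorem Ad.bij {R' : U.El n → U.El n → Prop} (H' : Ad R') {F : Tm T U} (h : F.Inj) (k : F.Surj)
    {φ : Quot R → Quot R'} (e : ∀ a, φ (Quot.mk R a) = Quot.mk R' (a.map F)) : Bijective φ := by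
  refine ⟨?_, ?_⟩
  · rintro ⟨a⟩ ⟨b⟩ c
    have := H'.eq.1 ((e a).symm.trans (c.trans (e b)))
    rw [El.val_map, El.val_map] at this
    exact H.eq.2 (Wd.inj h this)
  · rintro ⟨b⟩
    obtain ⟨a, r, c⟩ := Wd.surj (k _ _ b.val.2.2) _ (.inl rfl)
    obtain ⟨a, rfl⟩ := ex_val (n := n) (a := a)
      ((congrArg (fun z : U.Wd => z.2.1 - z.1) c).trans ((Wd.st_deg ..).trans (by simp [El.val])))
    exact ⟨Quot.mk R a, (e a).trans (H'.eq.2 ⟨0, r, (El.val_map ..).trans c⟩)⟩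

end To

end Pool.Agent.Lib.MP_5d3e93_al.Br
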