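import Pool.Agent.Lib.MP_5d3e93_al.Br.SPr
import Pool.Agent.Lib.MP_5d3e93_al.Br.Lk

/-! The structure map of a simplicial prespectrum on loops. -/

open CategoryTheory Function Simplicial MonoidalCategory CartesianMonoidalCategory SSet unitInterval

namespace Pool.Agent.Lib.MP_5d3e93_al.Br

universe u

open Ps

/-- The points of the realisation of the interval. -/
noncomputable def iv (t : I) : Rl (Δ[1] : SSet.{u}) :=
  ch (yonedaEquiv (𝟙 Δ[1])) (stdSimplexHomeomorphUnitInterval.symm t)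

theorem ch_iv {n : ℕ} (b : (Δ[1] : SSet.{u}) _⦋n⦌) (s : Sx n) : ch b s = iv (hI b s) := by
  rw [iv, hI, Homeomorph.symm_apply_apply]
  exact (congrArg (ch · s) (stdSimplex.objEquiv.injective (Category.comp_id _).symm)).trans
    (ch_nat (stdSimplex.objEquiv b) (yonedaEquiv (𝟙 Δ[1])) s)

theorem tI_iv (t : I) : tI (iv.{u} t) = t := by
  rw [iv, tI_ch, hI]
  exact (congrArg _ (stdSimplex.map_id_apply _)).trans (Homeomorph.apply_symm_apply ..)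

theorem iv_tI (p : Rl (Δ[1] : SSet.{u})) : iv (tI p) = p :=
  rl_ind (P := fun p => iv (tI p) = p) (fun _ b s => by rw [tI_ch, ch_iv]) p

theorem pr_iv {X : SSet.{u}} (p : Rl X) (s : I) : rm (snd X Δ[1]) (pr X (p, s)) = iv s := by
  rw [← iv_tI (rm _ _), pr_snd]

theorem eq_pr {X : SSet.{u}} {w : Rl (X ⊗ Δ[1])} {p s} :
    w = pr X (p, s) ↔ rm (fst X Δ[1]) w = p ∧ rm (snd X Δ[1]) w = iv s :=
  ⟨fun e => e ▸ ⟨pr_fst p s, pr_iv p s⟩, fun ⟨a, b⟩ => by rw [← pr_inv w, a, b, tI_iv]⟩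

namespace SPr

variable {P : SPr.{u}} {m N : ℕ} {f : Lp N ((R.obj P).X m)} {g : Lp (N + 1) ((R.obj P).X (m + 1))}

theorem lu_apply (t) : (R.obj P).lu f t = rm (P.H m) (pr _ (f (t ∘ Fin.succ), t 0)) := rfl

theorem lu_iff : g = (R.obj P).lu f ↔ ∃ w : C(Fin (N + 1) → I, Rl (P.X m ⊗ Δ[1])), ∀ t,
    rm (fst _ _) (w t) = f (t ∘ Fin.succ) ∧ rm (snd _ _) (w t) = iv (t 0) ∧
      g t = rm (P.H m) (w t) :=
  ⟨fun e => ⟨⟨fun t => pr _ (f (t ∘ Fin.succ), t 0), by fun_prop⟩,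
    fun t => ⟨pr_fst .., pr_iv .., by rw [e]; rfl⟩⟩, fun ⟨_, h⟩ => GenLoop.ext _ _ fun t =>
      (h t).2.2.trans (congrArg (rm (P.H m)) (eq_pr.2 ⟨(h t).1, (h t).2.1⟩))⟩

theorem lu_iff' : g = (R.obj P).lu f ↔ ∀ t w, rm (fst _ _) w = f (t ∘ Fin.succ) →
    rm (snd (P.X m) Δ[1]) w = iv (t 0) → g t = rm (P.H m) w :=
  ⟨fun e _ _ a b => e ▸ congrArg (rm (P.H m)) (eq_pr.2 ⟨a, b⟩).symm,
    fun h => GenLoop.ext _ _ fun t => h t _ (pr_fst ..) (pr_iv ..)⟩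

theorem lu_iff'' : g = (R.obj P).lu f ↔ ∀ t n (x : P.X m _⦋n⦌) (b : (Δ[1] : SSet.{u}) _⦋n⦌) s,
    ch x s = f (t ∘ Fin.succ) → hI b s = t 0 → g t = ch ((P.H m).app _ (x, b)) s := by
  refine ⟨fun e t n x b s c d => ?_, fun h => GenLoop.ext _ _ fun t => ?_⟩
  · rw [e, lu_apply, ← c, ← d, pr_ch, ch_map]
  · obtain ⟨n, x, b, s, c, d⟩ := pr_surj (X := P.X m) (f (t ∘ Fin.succ)) (t 0)
    rw [h t n x b s c d, lu_apply, ← c, ← d, pr_ch, ch_map]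

end SPr

end Pool.Agent.Lib.MP_5d3e93_al.Br
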