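import Pool.Agent.Lib.MP_5d3e93_al.Br.Lk
import Pool.Agent.Lib.MP_5d3e93_al.Br.Cm

/-! Presentations of the colimit of a tower, towers in a category. -/

open CategoryTheory Function

namespace Pool.Agent.Lib.MP_5d3e93_al.Br

universe u v w v' w'

open Ps Pre

namespace To

variable {T U : To.{u}} {n : ℤ}

/-- The generating relation. -/
inductive Rl : T.El n → T.El n → Prop
  | ht {k m N h f g} : GenLoop.Homotopic f g → Rl ⟨k, m, N, h, f⟩ ⟨k, m, N, h, g⟩
  | lu {k m N h h' f} : Rl ⟨k, m, N, h, f⟩ ⟨k, m + 1, N + 1, h', (T.X k).lu f⟩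
  | rc {k m N h h' f g} : Rc ((T.i k).1 m) ((T.q k).1 m) (Fin.last N) f g →
      Rl ⟨k, m, N, h, f⟩ ⟨k + 1, m, N + 1, h', g⟩

theorem Rl.sm {a b : T.El n} (h : Rl a b) : Sm a.val b.val := by
  cases h with
  | ht e => exact ⟨0, 0, val_ht e⟩
  | lu => exact ⟨0, 0, (val_lu _).symm⟩
  | rc e => exact ⟨1, 0, (val_rc e).symm⟩

theorem ad_rl : Ad (Rl (T := T) (n := n)) :=
  ⟨fun _ _ => Rl.sm, fun _ _ _ _ _ _ e => Quot.sound (.ht e),
    fun _ _ _ _ _ _ => (Quot.sound .lu).symm, fun _ _ _ _ _ _ _ e => (Quot.sound (.rc e)).symm⟩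

/-- A map of towers with trivial cone is bijective on any presentation of the colimit. -/
theorem bij_of {F : Tm T U} (h : F.C.Z) {A : Type v} {B : Type w} {R : A → A → Prop}
    {R' : B → B → Prop} (e : A ≃ T.El n) (e' : B ≃ U.El n) (H : ∀ a b, R a b ↔ Rl (e a) (e b))
    (H' : ∀ a b, R' a b ↔ Rl (e' a) (e' b)) {φ : Quot R → Quot R'} {ψ : A → B}
    (k : ∀ a, φ (Quot.mk R a) = Quot.mk R' (ψ a)) (l : ∀ a, e' (ψ a) = (e a).map F) :
    Bijective φ := by
  have := ad_rl.bij ad_rl (Tm.inj_of_C h) (Tm.surj_of_C h)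
    (φ := Quot.congr e' H' ∘ φ ∘ (Quot.congr e H).symm) fun a => by
      obtain ⟨a, rfl⟩ := e.surjective a
      rw [Function.comp_apply, Function.comp_apply, ← Quot.congr_mk e H, Equiv.symm_apply_apply, k, Quot.congr_mk, l]
  exact (Bijective.of_comp_iff _ (Quot.congr e H).symm.bijective).1
    ((Bijective.of_comp_iff' (Quot.congr e' H').bijective _).1 this)

end To

/-- Towers in a category. -/
structure Ft (D : Type w) [Category.{v} D] where
  X : ℕ → D
  P : ℕ → D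
  i : ∀ k, X k ⟶ P k
  q : ∀ k, P k ⟶ X (k + 1)

namespace Ft

variable {D : Type w} [Category.{v} D] {D' : Type w'} [Category.{v'} D'] {T U T' U' : Ft D}

variable (T U) in
/-- Maps of towers. -/
structure Hom where
  a : ∀ k, T.X k ⟶ U.X k
  b : ∀ k, T.P k ⟶ U.P k
  hi : ∀ k, T.i k ≫ b k = a k ≫ U.i k
  hq : ∀ k, T.q k ≫ a (k + 1) = b k ≫ U.q k

/-- The image under a functor. -/
def map (T : Ft D) (F : D ⥤ D') : Ft D' :=
  ⟨fun k => F.obj (T.X k), fun k => F.obj (T.P k), fun k => F.map (T.i k), fun k => F.map (T.q k)⟩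

/-- The image under a functor. -/
def Hom.map (f : Hom T U) (F : D ⥤ D') : Hom (T.map F) (U.map F) :=
  ⟨fun k => F.map (f.a k), fun k => F.map (f.b k),
    fun k => (F.map_comp ..).symm.trans ((congrArg F.map (f.hi k)).trans (F.map_comp ..)),
    fun k => (F.map_comp ..).symm.trans ((congrArg F.map (f.hq k)).trans (F.map_comp ..))⟩

/-- The map of a natural transformation. -/
def nat (T : Ft D) {F F' : D ⥤ D'} (α : F ⟶ F') : Hom (T.map F) (T.map F') :=
  ⟨fun _ => α.app _, fun _ => α.app _, fun _ => α.naturality _, fun _ => α.naturality _⟩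

/-- Constant composites and acyclic middle terms. -/
def Ok (T : Ft Pre.{u}) : Prop := (∀ k, Nl (T.i k) (T.q k)) ∧ ∀ k, (T.P k).Acy

/-- The tower of prespectra. -/
def tw (T : Ft Pre.{u}) (h : T.Ok) : To.{u} := ⟨T.X, T.P, T.i, T.q, h.1, h.2⟩

/-- The map of towers of prespectra. -/
def Hom.tm {T U : Ft Pre.{u}} (f : Hom T U) (h : T.Ok) (k : U.Ok) : Tm (T.tw h) (U.tw k) :=
  ⟨f.a, f.b, f.hi, f.hq⟩

theorem z_nat {K K' : D ⥤ Pre.{u}} (α : K ⟶ K') (f : Hom T U) (h k h' k')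
    (a : ∀ l n, Bijective (Pre.map n (α.app (T.X l))))
    (b : ∀ l n, Bijective (Pre.map n (α.app (U.X l)))) :
    ((f.map K).tm h k).C.Z ↔ ((f.map K').tm h' k').C.Z :=
  Tm.z_iff ((T.nat α).tm h h') ((U.nat α).tm k k') (fun _ => α.naturality _)
    (fun _ => α.naturality _) a b

theorem z_sq (K : D ⥤ Pre.{u}) {f : Hom T U} {f' : Hom T' U'} (g : Hom T T') (g' : Hom U U')
    (ea : ∀ k, f.a k ≫ g'.a k = g.a k ≫ f'.a k) (eb : ∀ k, f.b k ≫ g'.b k = g.b k ≫ f'.b k)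
    (h k h' k') (a : ∀ l n, Bijective (Pre.map n (K.map (g.a l))))
    (b : ∀ l n, Bijective (Pre.map n (K.map (g'.a l)))) :
    ((f.map K).tm h k).C.Z ↔ ((f'.map K).tm h' k').C.Z :=
  Tm.z_iff ((g.map K).tm h h') ((g'.map K).tm k k')
    (fun l => (K.map_comp ..).symm.trans ((congrArg K.map (ea l)).trans (K.map_comp ..)))
    (fun l => (K.map_comp ..).symm.trans ((congrArg K.map (eb l)).trans (K.map_comp ..))) a b

theorem acy_of_bij {X Y : Pre.{u}} (f : X ⟶ Y) (h : ∀ n, Injective (Pre.map n f)) (k : Y.Acy) :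
    X.Acy := fun n _ => (map_eq_zero_iff _ (h n)).1 (k n _)

end Ft

end Pool.Agent.Lib.MP_5d3e93_al.Br
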