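import Pool.Agent.Lib.MP_5d3e93_al.Br.DefD
import Pool.Agent.Lib.MP_5d3e93_al.Br.Ls
import Pool.Agent.Lib.MP_5d3e93_al.Br.Lz

/-! The statement in terms of towers. -/

open CategoryTheory Limits Function Simplicial MonoidalCategory CartesianMonoidalCategory SSet
  unitInterval Opposite

namespace Pool.Agent.Lib.MP_5d3e93_al.As

open Br Ps

universe v u w

theorem ch_id {r : ℕ} (s : Sx r) :
    ch (yonedaEquiv (𝟙 (Δ[r] : SSet.{w}))) s = ⦋r⦌.toTopHomeo.symm s := by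
  have := sSetTopAdj_unit_app_app_down (Δ[r] : SSet.{w}) _ (yonedaEquiv (𝟙 _))
  rw [Equiv.symm_apply_apply, CategoryTheory.Functor.map_id] at this
  exact congrArg (fun f : SimplexCategory.toTop.obj ⦋r⦌ ⟶ _ => f (ULift.up s))
    (this.trans (Category.comp_id _))

theorem iv_iff {p : Br.Rl (Δ[1] : SSet.{w})} {t : I} :
    stdSimplexHomeomorphUnitInterval (⦋1⦌.toTopHomeo p) = t ↔ p = iv t := by
  rw [iv, ch_id, Homeomorph.eq_symm_apply, Homeomorph.eq_symm_apply]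

theorem vx_eq {X : SSet.{w}} (x : X _⦋0⦌) : vx x = ch x v0 :=
  (congrArg (Br.rm (SSet.const x)) (ch_id _).symm).trans ((ch_map ..).trans
    (congrArg₂ (fun a b => ch a b) (yonedaEquiv_const x)
      (Subsingleton.elim (α := stdSimplex ℝ (Fin 1)) _ _)))

theorem _root_.Pool.Agent.Lib.MP_5d3e93_al.Br.To.Rl.map {T U : To.{w}} {n : ℤ} {a b : T.El n}
    (h : To.Rl a b) (F : Tm T U) : To.Rl (a.map F) (b.map F) := by
  cases h with
  | ht e => exact .ht (lm_ht _ e)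
  | @lu k m N c l f =>
    have := To.Rl.lu (T := U) (h := c) (h' := l) (f := lm ((F.a k).1 m) f)
    rwa [Pre.lu_lm] at this
  | @rc k m _ _ _ _ _ e =>
    exact .rc (e.map (congrArg (·.1 m) (F.hi k)) (congrArg (·.1 m) (F.hq k)))

variable {n n' : Dl} {A B : AC.{v, u}}

theorem Kq.null (θ : n ⟶ n') (H : A.Hom B) (h : ∀ X, IsZero (H.F.obj X)) (x : Kq n A) :
    Kq.map θ H x = Quot.mk _ none := by
  obtain ⟨_ | x⟩ := x
  · rfl
  · exact (Quot.sound ⟨_, fun i => ⟨.ofEq (HomologicalComplex.hom_ext _ _ fun k =>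
      (h _).eq_of_src _ _)⟩, rfl, rfl⟩).symm

theorem mx_zero {Z : Lab} {X : Mx Z B} (h : ∀ i, ¬Z.U (X.π i) ∨ IsZero (X.X i)) : IsZero X :=
  (IsZero.iff_id_eq_zero _).2 (Mx.Mor.ext (funext₂ fun i _ =>
    (h i).elim (fun c => dif_neg fun d => c d.2) fun c => c.eq_of_src _ _))

theorem Ks_dead {m : ℕ} {D : SA.{v, u}} {l : Iv n} (h : ¬l.Nc) (x : Ko m D n) :
    Kq.map (𝟙 n) (mxm (labc m l) (𝟙 (D.obj n) :)) x = Quot.mk _ none :=
  Kq.null _ _ (fun _ => mx_zero (Z := lab (m + 1) n) fun _ => .inl fun c => h (c 0)) x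

theorem not_nc (c : Fin 2) : ¬Iv.Nc (n := n) (SimplexCategory.const _ _ c) := fun h => by
  obtain ⟨_, a⟩ := h 0
  obtain ⟨_, b⟩ := h 1
  exact zero_ne_one (a.symm.trans b)

/-- The K-theory prespectrum. -/
noncomputable def KS : SA.{v, u} ⥤ SPr.{max v u} where
  obj D := ⟨fun m => K m D, fun _ => Quot.mk _ none, fun m => σK m D,
    fun m => by ext n x; exact Ks_dead (not_nc 0) x,
    fun m => by ext n x; exact Ks_dead (not_nc 1) x, fun m => rfl⟩
  map {D D'} φ := ⟨fun m => Kh m φ, fun _ => rfl, fun m => by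
    ext n ⟨x, l⟩
    refine (Kq.map_comp (𝟙 n) (𝟙 n) _ _ x).symm.trans (.trans ?_ (Kq.map_comp (𝟙 n) (𝟙 n) _ _ x))
    rw [← mxm_comp (k := labc m l.down) fun _ => rfl, ← mxm_comp (k := labc m l.down) fun _ => rfl]
    rfl⟩
  map_id D := SPr.ext fun m => by
    ext n x
    exact (congrArg (Kq.map _ · x) (mxm_id fun _ => rfl)).trans (Kq.map_id x)
  map_comp φ ψ := SPr.ext fun m => by
    ext n x
    refine .trans ?_ (Kq.map_comp (𝟙 n) (𝟙 n) _ _ x)
    rw [← mxm_comp (k := (lab m n).id) fun _ => rfl, Category.comp_id]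
    rfl

/-- Its realisation. -/
noncomputable abbrev KR : SA.{v, u} ⥤ Pre.{max v u} := KS ⋙ SPr.R

variable {D D' : SA.{v, u}}

/-- The tower of suspensions. -/
noncomputable def ft (D : SA.{v, u}) : Ft SA.{v, u} :=
  ⟨Sg D, fun k => Sg D k ⋙ cone, fun k => (Sg D k).whiskerLeft incl,
    fun k => (Sg D k).whiskerLeft proj⟩

/-- The induced map of towers. -/
noncomputable def ftm (φ : D ⟶ D') : Ft.Hom (ft D) (ft D') :=
  ⟨Sgm φ, fun k => Functor.whiskerRight (Sgm φ k) cone,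
    fun k => NatTrans.ext (funext fun p => (incl.naturality ((Sgm φ k).app p)).symm),
    fun k => NatTrans.ext (funext fun p => (proj.naturality ((Sgm φ k).app p)).symm)⟩

theorem incl_proj (X : B.C) : IsZero ((incl.app B ≫ proj.app B).F.obj X) :=
  (IsZero.iff_id_eq_zero _).2 (((Gm.qF B).map_id (Inc.obj X)).symm.trans
    ((CategoryTheory.Quotient.sound _ (Set.toFinite (α := ({0} : Set ℕ) × ({0} : Set ℕ)) _)).trans
      (have := Gm.q_add (B := B); (Gm.qF B).map_zero _ _)))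

theorem ft_ok (h : ∀ k, (KR.obj (Sg D k ⋙ cone)).Acy) : ((ft D).map KR).Ok := by
  refine ⟨fun k => SPr.nl fun m => ?_, h⟩
  ext n x
  refine (Kq.map_comp (𝟙 n) (𝟙 n) _ _ x).symm.trans ?_
  refine (congrArg (Kq.map _ · x) (mxm_comp (k := (lab m n).id) (fun _ => rfl) ..).symm).trans ?_
  exact Kq.null _ _ (fun _ => mx_zero fun _ => .inr (incl_proj _)) x

theorem pt_eq (m : ℕ) (D : SA.{v, u}) : pt m D = ((KR.obj D).X m).pt := vx_eq _

variable {m N : ℕ}

/-- Loops of the statement as loops of the prespectrum. -/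
noncomputable def lq : As.Lp N (pt m D) ≃ Ps.Lp N ((KR.obj D).X m) :=
  ⟨fun f => ⟨f.1, fun t h => (f.2 t h).trans (pt_eq m D)⟩,
    fun f => ⟨f.1, fun t h => (f.2 t h).trans (pt_eq m D).symm⟩, fun _ => rfl, fun _ => rfl⟩

theorem sts_iff {f : As.Lp N (pt m D)} {g} : StS (σK m D) f g ↔ lq g = (KR.obj D).lu (lq f) :=
  .trans ⟨fun ⟨w, c, h⟩ => ⟨⟨w, c⟩, fun t => ⟨(h t).1, iv_iff.1 (h t).2.1, (h t).2.2⟩⟩,
    fun ⟨w, h⟩ => ⟨w, w.2, fun t => ⟨(h t).1, iv_iff.2 (h t).2.1, (h t).2.2⟩⟩⟩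
    (SPr.lu_iff (P := KS.obj D) (f := lq f) (g := lq g)).symm

theorem stc_iff {f : As.Lp N (pt m D)} {g} :
    StC (iK m D) (qK m D) (pt m _) f g ↔ Rc ((KR.map (D.whiskerLeft incl)).1 m)
      ((KR.map (D.whiskerLeft proj)).1 m) (Fin.last N) (lq f) (lq g) := by
  unfold StC Rc Hc
  rw [Fin.succAbove_last, pt_eq]
  exact ⟨fun ⟨w, c, h⟩ => ⟨⟨w, c⟩, fun t => (h t).1, fun t => (h t).2.1, fun t => (h t).2.2⟩,
    fun ⟨w, a, b, c⟩ => ⟨w, w.2, fun t => ⟨a t, b t, c t⟩⟩⟩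

/-- Elements of the statement as elements of the tower. -/
noncomputable def el (h : ((ft D).map KR).Ok) (n : ℤ) : El D n ≃ (((ft D).map KR).tw h).El n :=
  ⟨fun a => ⟨a.k, a.m, a.N, a.h, lq a.f⟩, fun a => ⟨a.k, a.m, a.N, a.h, lq.symm a.f⟩,
    fun _ => rfl, fun _ => rfl⟩

theorem step_iff (h : ((ft D).map KR).Ok) (n : ℤ) (a b : El D n) :
    Step D n a b ↔ To.Rl (el h n a) (el h n b) := by
  refine ⟨fun s => ?_, fun s => ?_⟩
  · cases s with
    | ht _ _ _ _ _ _ e => exact .ht e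
    | sd k m N c l f g e =>
      have := To.Rl.lu (T := ((ft D).map KR).tw h) (h := c) (h' := l) (f := lq f)
      exact (congrArg (fun z => To.Rl _ (⟨k, m + 1, N + 1, l, z⟩ : (((ft D).map KR).tw h).El n))
        (sts_iff.1 e)).mpr this
    | cn _ _ _ _ _ _ _ e => exact .rc (stc_iff.1 e)
  · have : ∀ a b, To.Rl a b → Step D n ((el h n).symm a) ((el h n).symm b) := fun a b s => by
      cases s with
      | ht e => exact .ht _ _ _ _ _ _ e
      | lu => exact .sd _ _ _ _ _ _ _ (sts_iff.2 rfl)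
      | rc e => exact .cn _ _ _ _ _ _ _ (stc_iff.2 e)
    exact this _ _ s

theorem bij_of_z (φ : D ⟶ D') (h h') (z : (((ftm φ).map KR).tm h h').C.Z) (n : ℤ) : Bij φ n := by
  have k (a : El D n) : el h' n (a.map φ) = (el h n a).map (((ftm φ).map KR).tm h h') := rfl
  refine ⟨Quot.map (El.map φ) fun a b s => (step_iff h' n _ _).2 ?_, fun _ => rfl,
    To.bij_of z (el h n) (el h' n) (step_iff h n) (step_iff h' n) (fun _ => rfl) k⟩
  rw [k, k]
  exact ((step_iff h n _ _).1 s).map _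

end Pool.Agent.Lib.MP_5d3e93_al.As
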