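import Pool.Agent.Lib.MP_5d3e93_al.Br.PP
import Pool.Agent.Lib.MP_5d3e93_al.Br.R1F

/-! The diagonal of a simplicial prespectrum of pairs. -/

open CategoryTheory Function Set Opposite Simplicial

namespace Pool.Agent.Lib.MP_5d3e93_al.Br

universe u v w

/-- Functors keep simplicial homotopies. -/
def TH.map {C : Type*} [Category* C] {D : Type*} [Category* D] (F : C ⥤ D)
    {X Y : SimplicialObject C} {f g : X ⟶ Y} (T : TH f g) : TH ((wh F).map f) ((wh F).map g) where
  H n t := F.map (T.H n t)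
  nat a t := (F.map_comp _ _).symm.trans ((congrArg F.map (T.nat a t)).trans (F.map_comp _ _))
  h0 n := congrArg F.map (T.h0 n)
  h1 n := congrArg F.map (T.h1 n)

namespace PP

open SP SPr

/-- The pair at a level. -/
def ev (m : ℕ) : PP.{u} ⥤ SP.{u} where
  obj P := P.X m
  map f := f.1 m

/-- The diagonal. -/
def dg : SimplicialObject PP.{u} ⥤ PP.{u} where
  obj E := ⟨fun m => (dgG _ PT).obj (E ⋙ ev m), fun m => ⟨fun n t => ((E.obj n).H m).H n t,
    fun {n n'} θ t => ((Category.assoc _ _ _).trans (congrArg (((E.map θ).1 m).app n ≫ ·)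
      (((E.obj n').H m).nat θ t))).trans ((Category.assoc _ _ _).symm.trans
        ((congrArg (· ≫ _) ((E.map θ).2 m n t)).trans (Category.assoc _ _ _)))⟩,
    fun m n => (E.obj n).e m n⟩
  map f := ⟨fun m => (dgG _ PT).map (Functor.whiskerRight f (ev m)), fun m n => (f.app n).2 m n⟩

/-- The realisation of the diagonal. -/
noncomputable def D : SimplicialObject PP.{u} ⥤ Pre.{u} := dg ⋙ R

variable {X P Y : SimplicialObject PP.{u}} {a : ℕ → ℕ} {b m : ℕ}

theorem dg_cn (f : X ⟶ Y) (h : ∀ p, Cn b (RC.map ((f.app p).1 m))) :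
    Cn b (RC.map ((dg.map f).1 m)) :=
  r1F PT.fr (Functor.whiskerRight f (ev m)) fun _ => (h _).mono (by omega)

theorem dg_ac (h : ∀ p, Ac b (RC.obj ((X.obj p).X m))) : Ac b (RC.obj ((dg.obj X).X m)) :=
  (r1_ac ((X ⋙ ev m) ⋙ wh PT.fr) fun _ => (h _).mono (Nat.sub_le _ _)).of_cn
    (cn_iso b (CC.map (dgIso PT.fr (X ⋙ ev m)).hom))

variable {i : X ⟶ P} {q : P ⟶ Y}

theorem dg_em (h : ∀ p, Em ((i.app p).1 m)) : Em ((dg.map i).1 m) := fun n => h n n

theorem dg_nl (h : ∀ p, Nl ((i.app p).1 m) ((q.app p).1 m)) :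
    Nl ((dg.map i).1 m) ((dg.map q).1 m) := fun n => h n n

theorem dg_md (e : ∀ p, Nl ((i.app p).1 m) ((q.app p).1 m)) (h : ∀ p, Cn b (RC.map (e p).md)) :
    Cn b (RC.map (dg_nl e).md) := by
  let M : SimplexCategoryᵒᵖ ⥤ SP.{u} :=
    { obj p := md ((i.app p).1 m)
      map := fun {p p'} θ => SP.hom (P := md _) (Q := md _) (tot.map ((P.map θ).1 m) :
        tot.obj ((P.obj p).X m) ⟶ _) fun n _ k => k.imp (fun k => (((P.map θ).1 m).app n).2 k)
          fun ⟨x, e⟩ => ⟨(((X.map θ).1 m).app n).1 x, e ▸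
            congrArg (fun f : X.obj p ⟶ P.obj p' => ((f.1 m).app n).1 x) (i.naturality θ)⟩
      map_id p := NatTrans.ext (funext fun n => PT.hom_ext fun x =>
        congrArg (fun f : P.obj p ⟶ P.obj p => ((f.1 m).app n).1 x) (P.map_id p))
      map_comp := fun {p _ p'} θ η => NatTrans.ext (funext fun n => PT.hom_ext fun x =>
        congrArg (fun f : P.obj p ⟶ P.obj p' => ((f.1 m).app n).1 x) (P.map_comp θ η)) }
  let F : M ⟶ Y ⋙ ev m :=
    { app p := (e p).md
      naturality := fun p p' θ => NatTrans.ext (funext fun n => PT.hom_ext fun x =>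
        congrArg (fun f : P.obj p ⟶ Y.obj p' => ((f.1 m).app n).1 x) (q.naturality θ)) }
  exact r1F PT.fr F fun _ => (h _).mono (Nat.sub_le _ _)

theorem D_bij (f : X ⟶ Y) (ha : Gw a) (h : ∀ p m, Cn (a m) (RC.map ((f.app p).1 m))) (n : ℤ) :
    Bijective (Pre.map n (D.map f)) := bij (dg.map f) ha (fun m => dg_cn f (h · m)) n

theorem D_bij' (f : X ⟶ Y) (h : ∀ p m b, Cn b (RC.map ((f.app p).1 m))) (n : ℤ) :
    Bijective (Pre.map n (D.map f)) := D_bij f (gw_two 0) (fun _ _ => h _ _ _) n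

theorem D_acy (ha : Gw a) (h : ∀ p m, Ac (a m) (RC.obj ((X.obj p).X m))) : (D.obj X).Acy :=
  acy (X := dg.obj X) ha fun m => dg_ac (h · m)

theorem D_nl (e : ∀ p m, Nl ((i.app p).1 m) ((q.app p).1 m)) : Pre.Nl (D.map i) (D.map q) :=
  nl (i := dg.map i) (q := dg.map q) fun m => dg_nl (e · m)

theorem D_col (hi : ∀ p m, Em ((i.app p).1 m)) (e : ∀ p m, Nl ((i.app p).1 m) ((q.app p).1 m))
    (ha : Gw a) (h : ∀ p m, Cn (a m) (RC.map (e p m).md)) (k : Pre.Nl (D.map i) (D.map q))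
    (n : ℤ) : Bijective (Pre.map n k.col) :=
  col_bij (i := dg.map i) (q := dg.map q) (fun m => dg_em (hi · m)) (fun m => dg_nl (e · m)) ha
    (fun m => dg_md (e · m) (h · m)) k n

theorem D_un {J : Type v} [Preorder J] [IsDirected J (· ≤ ·)] [Nonempty J]
    {W : J → SimplicialObject PP.{u}} {v : ∀ {d e}, d ≤ e → (W d ⟶ W e)} {w : ∀ d, W d ⟶ X}
    (vv : ∀ {d e f} (h : d ≤ e) (k : e ≤ f), v h ≫ v k = v (h.trans k))
    (vw : ∀ {d e} (h : d ≤ e), v h ≫ w e = w d) (hw : ∀ d p m, Em (((w d).app p).1 m))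
    (h : ∀ p m n z, z ∈ (((X.obj p).X m).obj n).A ∨
      ∃ d y, ((((w d).app p).1 m).app n).1 y = z) :
    Pre.Un (fun l => D.map (v l)) fun d => D.map (w d) :=
  un (W := fun d => dg.obj (W d)) (v := fun l => dg.map (v l)) (w := fun d => dg.map (w d))
    (fun a b => by rw [← dg.map_comp, vv]) (fun a => by rw [← dg.map_comp, vw])
    (fun d m => dg_em (hw d · m)) fun m n => h n m n

/-- Simplicially homotopic maps induce the same map. -/
theorem D_th {f g : X ⟶ Y} (T : TH f g) {n : ℤ} (z) :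
    Pre.map n (D.map f) z = Pre.map n (D.map g) z :=
  map_ho (f := dg.map f) (g := dg.map g) (fun m => ⟨fun n t => ((T.H n.unop t).1 m).app n,
    fun {n n'} θ t => by
      have := congrArg (fun f : X.obj n ⟶ Y.obj n' => (f.1 m).app n) (T.nat θ.unop t)
      exact ((Category.assoc _ _ _).trans (congrArg (((X.map θ).1 m).app n ≫ ·)
        (((T.H n'.unop (θ.unop ≫ t)).1 m).naturality θ))).trans ((Category.assoc _ _ _).symm.trans
          ((congrArg (· ≫ _) this.symm).trans (Category.assoc _ _ _)))⟩)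
    (fun m n => congrArg (fun f : X.obj n ⟶ Y.obj n => (f.1 m).app n) (T.h0 n.unop))
    (fun m n => congrArg (fun f : X.obj n ⟶ Y.obj n => (f.1 m).app n) (T.h1 n.unop)) z

/-- Simplicial deformation retractions. -/
theorem D_retr (p : X ⟶ Y) (s : Y ⟶ X) (e : s ≫ p = 𝟙 Y)
    (T : TH (p ≫ s) (𝟙 X) ⊕ TH (𝟙 X) (p ≫ s)) (n : ℤ) : Bijective (Pre.map n (D.map p)) :=
  bijective_iff_has_inverse.2 ⟨Pre.map n (D.map s), fun z => by
    rw [← Pre.map_comp, ← D.map_comp, T.elim (D_th · z) fun T => (D_th T z).symm, D.map_id,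
      Pre.map_id], fun z => by rw [← Pre.map_comp, ← D.map_comp, e, D.map_id, Pre.map_id]⟩

end PP

end Pool.Agent.Lib.MP_5d3e93_al.Br
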