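import Pool.Agent.Lib.MP_5d3e93_al.Br.GlM
import Pool.Agent.Lib.MP_5d3e93_al.Br.GlC
import Pool.Agent.Lib.MP_5d3e93_al.Br.GlF
import Pool.Agent.Lib.MP_5d3e93_al.Br.AM
import Pool.Agent.Lib.MP_5d3e93_al.Br.PD
import Pool.Agent.Lib.MP_5d3e93_al.Br.Lnk

/-! The K-theory of the statement and the K-theory of marked ambient categories. -/

open CategoryTheory Limits Opposite Simplicial MonoidalCategory

namespace Pool.Agent.Lib.MP_5d3e93_al.As

open Br Gr Am A2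

universe v u

set_option backward.isDefEq.respectTransparency false

section
variable {Y Y' : Lab} {Λ Λ' : A2.Lab} (c : Mu Y Λ) (c' : Mu Y' Λ')
  {B B' : AC.{v, max (max 1 u) v}}

variable (Λ B) in
/-- Matrices with labels. -/
noncomputable def glkL : A2.LT.{v, max 1 u} := ⟨Λ, mam.{v, max 1 u} B.C, fun _ => mg.{v, max 1 u} ⊤⟩

variable (Λ B) in
/-- Families of matrices. -/
noncomputable abbrev glkX : Tp.{v, max 1 u} := Fm.{v, max 1 u}.obj (glkL.{v, u} Λ B)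

theorem glk_S : (glkX.{v, u} Λ B).S = (glkX.{v, u} Λ B).a.bdd :=
  (congrArg (fun S => cls fun _ : Λ.L => S) mg_top).trans (gl_cls _)

instance : Functor.Additive (C := (mx Y B).C) (D := (glkX.{v, u} Λ B).a.A) (c.mu B) :=
  inferInstanceAs (c.mu B).Additive

variable (B) in
/-- The comparison of pairs. -/
noncomputable def glkT : CP.obj (mx Y B) ⟶ NP.{v, max 1 u}.obj (glkX.{v, u} Λ B) :=
  cpn.{v, max 1 u} (B := mx Y B) (x := glkX.{v, u} Λ B) (c.mu B) glk_S.ge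

theorem glk_cn (b : ℕ) : Cn b (RC.map (glkT.{v, u} c B)) := by
  have : HasZeroObject (mx Y B).C := c.zero
  have : HasBinaryBiproducts (mx Y B).C := c.bip
  have : Functor.IsEquivalence (C := (mx Y B).C) (c.mu B) := inferInstanceAs (c.mu B).IsEquivalence
  have : Functor.Additive (C := (mx Y B).C) (c.mu B) := inferInstanceAs (c.mu B).Additive
  refine cpn_cn.{v, max 1 u} _ _ ?_ b
  exact cast (congrArg (fun S => Deq _ _ (cls fun _ : Λ.L => S)) mg_top.{v, max 1 u}.symm)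
    (gl_deq.{v, max 1 u, v, max 1 u} (B := (mx Y B).C) (c.mu B))

theorem glk_nat (f : Y.Hom Y') (F : B ⟶ B') (k : glkL.{v, u} Λ B ⟶ glkL.{v, u} Λ' B')
    (e : k.φ = mm.{v, max 1 u, max 1 u} F.F) (h : ∀ a, c'.e (f.f a) = k.f.f (c.e a)) :
    CP.map (mxm f F) ≫ glkT.{v, u} c' B' =
      glkT.{v, u} c B ≫ NP.{v, max 1 u}.map (Fm.{v, max 1 u}.map k) := by
  obtain ⟨g, φ, k⟩ := k
  cases e
  exact cpn_nat.{v, max 1 u} (B := mx Y B) (B' := mx Y' B') (x := glkX.{v, u} Λ B)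
    (x' := glkX.{v, u} Λ' B') _ _ _ _ (mxm f F) _ (c.mu_nat c' f g h F)

end

variable {m : ℕ} {n n' : Dl}

theorem glk_nc {a : Iv n} : a.Nc ↔ A2.Iv.Nc (n := n) a.toOrderHom := nc_iff a

variable (m n) in
/-- The labels of the two constructions. -/
def glkM : Mu (lab m n) (((Dm m).obj n).ten oL) where
  e a := (fun k => (a k).toOrderHom,
    OrderDual.toDual (⟨fun _ => 1, monotone_const⟩ : A2.Iv (op ⦋0⦌)))
  on l h := ⟨fun k => SimplexCategory.Hom.mk (l.1 k), Prod.ext rfl (OrderHom.ext _ _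
    (funext fun i => ((congrArg (LC.vl l.2) (Subsingleton.elim (α := Fin 1) i _)).trans h.2).symm))⟩
  al _ := ⟨fun h => ⟨fun k => glk_nc.1 (h k), rfl⟩, fun h k => glk_nc.2 (h.1 k)⟩
  ok _ _ _ := ⟨fun h => ⟨⟨fun k => glk_nc.1 (h.1 k), rfl⟩, ⟨fun k => glk_nc.1 (h.2.1 k), rfl⟩,
    h.2.2.1, le_rfl⟩, fun h => ⟨fun k => glk_nc.2 (h.1.1 k), fun k => glk_nc.2 (h.2.1.1 k),
      h.2.2.1, Nat.zero_le _, Nat.zero_le _⟩⟩
  ht _ := rfl

variable {D D' : SA.{v, max (max 1 u) v}}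

variable (m D) in
/-- The simplicial category of the S-construction. -/
noncomputable def glkS : SA.{v, max (max 1 u) v} where
  obj p := mx (lab m p) (D.obj p)
  map θ := mxm (labm m θ) (D.map θ)
  map_id _ := by
    rw [D.map_id]
    exact mxm_id fun _ => funext fun _ => Category.id_comp _
  map_comp _ _ := by
    rw [D.map_comp]
    exact mxm_comp (fun _ => funext fun _ => Category.assoc ..) ..

variable (m D) in
/-- The bisimplicial pair of weak equivalences. -/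
noncomputable def glkN : Dl ⥤ SP.{max (max 1 u) v} :=
  (dgG _ _).obj ((D ⋙ AM.{v, max 1 u}) ⋙ KL.{v, max 1 u} ⋙
    (Functor.whiskeringLeft _ _ _).obj (Dm m))

variable (m D) in
/-- The map of bisimplicial pairs. -/
noncomputable def glkB : glkS.{v, u} m D ⋙ CP ⟶ glkN.{v, u} m D where
  app p := glkT.{v, u} (glkM m p) (D.obj p)
  naturality p q θ := (glk_nat.{v, u} (glkM m p) (glkM m q) (labm m θ) (D.map θ)
    ((inT.map (AM.{v, max 1 u}.map (D.map θ))).app ((Dm m).obj p) ≫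
      (inT.obj (AM.{v, max 1 u}.obj (D.obj q))).map ((Dm m).map θ)) rfl fun _ => rfl).trans
      (congrArg (glkT.{v, u} (glkM m p) (D.obj p) ≫ ·)
        ((Fm.{v, max 1 u} ⋙ NP.{v, max 1 u}).map_comp _ _))

/-- The target prespectrum. -/
noncomputable def glkP : SA.{v, max (max 1 u) v} ⥤ PP.{max (max 1 u) v} :=
  wh AM.{v, max 1 u} ⋙ wh A2.kp.{v, max 1 u} ⋙ PP.dg

section
variable {M : Dl ⥤ SP.{u}} {E : Type*} [Category* E] (X : Dl ⥤ E) (L : E ⥤ A2.Lab ⥤ SP.{u})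
  (T : M ⟶ (dgG _ _).obj (X ⋙ L ⋙ (Functor.whiskeringLeft _ _ _).obj (Dm m)))

/-- Two ways to take the diagonal. -/
def glkG : (dgG _ _).obj M ⟶ (dgG _ _).obj (X ⋙ L ⋙ A2.St _ (Dm m)) :=
  ((dgG _ _).map T : _ ⟶ (dgG _ _).obj ((dgG _ _).obj _))

theorem glk_G {b : ℕ} (h : ∀ p b, Cn b (RC.map (T.app p))) : Cn b (RC.map (glkG X L T)) :=
  r1F PT.fr T fun _ => h _ _

end

variable (m D) in
/-- The map of pairs. -/
noncomputable def glkF : (dgG _ _).obj (glkS.{v, u} m D ⋙ CP) ⟶ (glkP.{v, u}.obj D).X m :=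
  glkG (D ⋙ AM.{v, max 1 u}) KL.{v, max 1 u} (glkB.{v, u} m D)

theorem glk_F (b : ℕ) : Cn b (RC.map (glkF.{v, u} m D)) :=
  glk_G (D ⋙ AM.{v, max 1 u}) KL.{v, max 1 u} (glkB.{v, u} m D) fun _ => glk_cn _

theorem glk_eq {B : AC.{v, u}} {a b : Option (Chn n B)} : (Quot.mk _ a : Kq n B) = Quot.mk _ b ↔
    a = b ∨ (∀ x ∈ a, x.Nul) ∧ ∀ x ∈ b, x.Nul := by
  have z : ∀ a : Option (Chn n B), (∀ x ∈ a, x.Nul) → (Quot.mk _ a : Kq n B) = Quot.mk _ none := by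
    rintro (_ | a) h
    exacts [rfl, (Quot.sound ⟨a, h a rfl, rfl, rfl⟩).symm]
  refine ⟨fun k => ?_, fun k => k.elim (congrArg _) fun k => (z a k.1).trans (z b k.2).symm⟩
  induction Quot.eqvGen_exact k with
  | rel _ _ h =>
    obtain ⟨x, h, rfl, rfl⟩ := h
    exact .inr ⟨nofun, fun _ e => Option.some.inj e ▸ h⟩
  | refl => exact .inl rfl
  | symm _ _ h ih => exact (ih (Quot.eqvGen_sound h)).imp .symm .symm
  | trans _ _ _ h l ih ih' =>
    obtain rfl | a := ih (Quot.eqvGen_sound h)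
    · exact ih' (Quot.eqvGen_sound l)
    · exact .inr ⟨a.1, (ih' (Quot.eqvGen_sound l)).elim (· ▸ a.2) (·.2)⟩

variable (m D) in
/-- The projection to the space of the statement. -/
noncomputable def glkπ : SP.tot.obj ((dgG _ _).obj (glkS.{v, u} m D ⋙ CP)) ⟶ K m D where
  app _ := ↾fun x => Quot.mk _ (some x)
  naturality _ _ _ := rfl

theorem glk_cp : Cp _ (X := K m D) (Quot.mk _ none) (glkπ.{v, u} m D) :=
  ⟨fun _ w => glk_eq.trans ⟨fun h => h.elim nofun fun h => h.1 w rfl,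
      fun h => .inr ⟨fun _ e => Option.some.inj e ▸ h, nofun⟩⟩,
    fun _ w _ e => (glk_eq.1 e).imp Option.some.inj fun h => h.1 w rfl, by
      rintro n ⟨_ | x⟩
      exacts [.inl rfl, .inr ⟨x, rfl⟩]⟩

variable (m D) in
/-- The comparison map. -/
noncomputable def glkK : K m D ⟶ SP.col.obj ((glkP.{v, u}.obj D).X m) where
  app n := ↾Quot.map (Option.map ((glkF.{v, u} m D).app n).1) (by
    rintro _ _ ⟨z, h, rfl, rfl⟩
    exact ⟨nofun, fun _ e => Option.some.inj e ▸ ((glkF.{v, u} m D).app n).2 h⟩)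
  naturality _ _ θ := by
    ext ⟨_ | x⟩
    · rfl
    · exact congrArg (fun f => PT.k _ (f.1 x)) ((glkF.{v, u} m D).naturality θ)

theorem glk_K (b : ℕ) : Cn b (ZC.map (glkK.{v, u} m D)) :=
  (glk_cp.cn (SP.cp _) (glkF.{v, u} m D) rfl rfl).1 (glk_F b)

theorem glk_ap {P Q : SP.{u}} {f g : P ⟶ Q} (e : f = g) (n x) :
    (Q.obj n).k ((f.app n).1 x) = (Q.obj n).k ((g.app n).1 x) := e ▸ rfl

theorem glk_σ : glkK.{v, u} m D ▷ Δ[1] ≫ ((glkP.{v, u}.obj D).H m).col =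
    σK m D ≫ glkK.{v, u} (m + 1) D := by
  ext n ⟨⟨_ | x⟩, l⟩
  · rfl
  · exact glk_ap (glk_nat.{v, u} (glkM m n) (glkM (m + 1) n) (labc m l.down) (𝟙 (D.obj n))
        ((inT.obj (AM.{v, max 1 u}.obj (D.obj n))).map (A2.cns m n l.down.toOrderHom)) rfl
        fun _ => Prod.ext (funext fun k => k.cases rfl fun _ => rfl) rfl).symm n x

theorem glk_h (φ : D ⟶ D') : Kh m φ ≫ glkK.{v, u} m D' =
    glkK.{v, u} m D ≫ SP.col.map ((glkP.{v, u}.map φ).1 m) := by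
  ext n ⟨_ | x⟩
  · rfl
  · exact glk_ap (glk_nat.{v, u} (glkM m n) (glkM m n) (lab m n).id (φ.app n)
        ((inT.map (AM.{v, max 1 u}.map (φ.app n))).app ((Dm m).obj n)) rfl fun _ => rfl) n x

/-- A map to the collapse of a prespectrum of pairs. -/
def glkA {X : SPr.{u}} {P : PP.{u}} (f : ∀ m, X.X m ⟶ SP.col.obj (P.X m))
    (h : ∀ m, (f m).app _ (X.x m) = (P.X m).o)
    (k : ∀ m, f m ▷ Δ[1] ≫ (P.H m).col = X.H m ≫ f (m + 1)) : X ⟶ PP.Co.obj P := ⟨f, h, k⟩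

theorem glkA_nat {X X' : SPr.{u}} {P P' : PP.{u}} {f h k f' h' k'} (a : X ⟶ X') (b : P ⟶ P')
    (e : ∀ m, a.1 m ≫ f' m = f m ≫ SP.col.map (b.1 m)) :
    a ≫ glkA f' h' k' = glkA f h k ≫ PP.Co.map b := SPr.ext e

theorem glkA_bij {X : SPr.{u}} {P : PP.{u}} {f h k} (c : ∀ m b, Cn b (ZC.map (f m))) (n : ℤ) :
    Function.Bijective (Pre.map n (SPr.R.map (glkA (X := X) (P := P) f h k))) :=
  SPr.bij' (X := X) (Y := PP.Co.obj P) (glkA f h k) c n

theorem glk_o (m : ℕ) (D : SA.{v, max (max 1 u) v}) :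
    (glkK.{v, u} m D).app _ (Quot.mk _ none) = ((glkP.{v, u}.obj D).X m).o := rfl

/-- The comparison of simplicial prespectra. -/
noncomputable def tauA (D : SA.{v, max (max 1 u) v}) :
    KS.{v, max (max 1 u) v}.obj D ⟶ PP.Co.obj (glkP.{v, u}.obj D) :=
  glkA (X := KS.{v, max (max 1 u) v}.obj D) (fun m => glkK.{v, u} m D) (fun m => glk_o m D)
    fun _ => glk_σ

theorem tauA_nat {D D' : SA.{v, max (max 1 u) v}} (φ : D ⟶ D') :
    KS.map φ ≫ tauA.{v, u} D' = tauA.{v, u} D ≫ PP.Co.map (glkP.{v, u}.map φ) :=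
  glkA_nat _ _ fun _ => glk_h φ

theorem tauA_bij (D : SA.{v, max (max 1 u) v}) (n : ℤ) :
    Function.Bijective (Pre.map n (SPr.R.map (tauA.{v, u} D))) := by
  rw [tauA]
  exact glkA_bij (X := KS.{v, max (max 1 u) v}.obj D) (P := glkP.{v, u}.obj D)
    (f := fun m => glkK.{v, u} m D) (fun _ b => glk_K b) n

section
variable {E : Type*} [Category* E] {E' : Type*} [Category* E'] (F : E ⥤ SPr.{u})
  (H : E ⥤ E') (k : E' ⥤ SimplicialObject PP.{u}) {P : E ⥤ PP.{u}} (e : P = H ⋙ k ⋙ PP.dg)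
  (a : ∀ D, F.obj D ⟶ PP.Co.obj (P.obj D))
  (h : ∀ {D D'} (φ : D ⟶ D'), F.map φ ≫ a D' = a D ≫ PP.Co.map (P.map φ))
  (b : ∀ D n, Function.Bijective (Pre.map n (SPr.R.map (a D))))
include e h b

theorem glk_ex {K K' : E ⥤ Pre.{u}} (c : K = F ⋙ SPr.R) (c' : K' = H ⋙ k ⋙ PP.D) :
    ∃ τ : K ⟶ K', ∀ D n, Function.Bijective (Pre.map n (τ.app D)) := by
  subst e c c'
  exact ⟨⟨fun D => SPr.R.map (a D), fun _ _ φ => (SPr.R.map_comp _ _).symm.trans
    ((congrArg SPr.R.map (h φ)).trans (SPr.R.map_comp _ _))⟩, b⟩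

end

theorem ex_tau : ∃ τ : KR.{v, max (max 1 u) v} ⟶
    wh AM.{v, max 1 u} ⋙ wh A2.kp.{v, max 1 u} ⋙ PP.D,
    ∀ D n, Function.Bijective (Pre.map n (τ.app D)) :=
  glk_ex KS (wh AM.{v, max 1 u}) (wh A2.kp.{v, max 1 u}) (P := glkP.{v, u}) (by rw [glkP])
    tauA.{v, u} tauA_nat tauA_bij rfl rfl

/-- The comparison of prespectra. -/
noncomputable def tau : KR.{v, max (max 1 u) v} ⟶
    wh AM.{v, max 1 u} ⋙ wh A2.kp.{v, max 1 u} ⋙ PP.D := ex_tau.{v, u}.choose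

theorem tau_bij (D : SA.{v, max (max 1 u) v}) (n : ℤ) :
    Function.Bijective (Pre.map n (tau.{v, u}.app D)) := ex_tau.{v, u}.choose_spec D n

end Pool.Agent.Lib.MP_5d3e93_al.As
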