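import Pool.Agent.Lib.MP_5d3e93_al.Br.GyA

/-! Binary complexes acyclic for one differential, modulo acyclic ones. -/

open CategoryTheory Limits Pretriangulated ZeroObject

namespace Pool.Agent.Lib.MP_5d3e93_al.Br

open Gr Am

universe w v u

variable {a : Am.{v, u}} {S : ObjectProperty a.D} [Tg S]

/-- A map between complexes acyclic for different differentials factors through an acyclic one. -/
theorem gyc_fac {X Y : a.B.D} (f : X ⟶ Y) (x : Nb S true X) (y : Nb S false Y) :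
    ∃ (Z : a.B.D) (g : X ⟶ Z) (h : Z ⟶ Y), V S Z ∧ g ≫ h = f := by
  obtain ⟨P, -, u, hu⟩ := a.bs.tot y.1 true
  obtain ⟨m, hm⟩ := y.1.2
  obtain ⟨M, s, l, Z, g, h, hT, hZ⟩ := a.bs.raise x.1 m
  have e : s ≫ f = 0 := (a.bs.f4 m hm hu (f4_un_zero y.2) l).1 (by
    simp only [Category.assoc, x.2 _ (f ≫ u), comp_zero, zero_comp])
  obtain ⟨k, hk⟩ := Triangle.yoneda_exact₂ _ hT f e
  exact ⟨Z, g, k, hZ, hk.symm⟩

/-- Killing the second total object by a complex acyclic for the first differential. -/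
theorem gyc_kill (h0 : Subsingleton (K0 S)) {M : a.B.D} (m : W S M) :
    ∃ (C : a.B.D) (s : M ⟶ C), Nb S false C ∧ (Nb S true).trW s := by
  obtain ⟨P, -, u, hu⟩ := a.bs.tot m true
  obtain ⟨P', p, u', hu'⟩ := a.bs.tot m false
  obtain ⟨A, wA, v, v', hv, hv'⟩ := a.bs.pair (Tg.zero S (isZero_zero _)) p (h0.elim _ _)
  obtain ⟨A', w, w', φ, wA', hw, hw', -, e⟩ :=
    a.bs.lift_pair wA ⟨fun _ => trivial, m.2⟩ hv hv' hu hu' 0 (𝟙 _)
  obtain ⟨C, g, h', hC⟩ := distinguished_cocone_triangle φ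
  obtain ⟨t, ht⟩ := un_cone' (a.R false).D hC (contractible_distinguished P') hw' hu' e
  exact ⟨C, g, ⟨(Wd _ S).ext_of_isTriangulatedClosed₃ _ hC wA' m, ht.isZero_iff.1 (isZero_zero _)⟩,
    ObjectProperty.trW.mk' _ hC ⟨wA', hw.isZero_iff.1 (isZero_zero _)⟩⟩

theorem gy_two (h0 : Subsingleton (K0 S)) [Tg ((Nb S false).map (a.B.π (V S)).D)] :
    Deq (quoM (V_le_Nb S true)).D ((Nb S false).map (a.B.π (V S)).D)
      ((W S).map (a.B.π (Nb S true)).D) := by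
  let e : (a.B.π (V S)).D ⋙ (quoM (V_le_Nb S true)).D ≅ (a.B.π (Nb S true)).D :=
    ((a.B.π (V S)).compD (quoM (V_le_Nb S true))).symm
  have l := (gy_locN (S := S) true).toLocOn
  have k := l.verdier (V := Nb S false) inf_le_left fun X Y f x y => by
    obtain ⟨Z, g, h, z, c⟩ := gyc_fac f x y
    exact ⟨Z, g, h, V_le_Nb S _ _ z, V_le_Nb S _ _ z, c⟩
  have i : Nb S false ⊓ Nb S true = V S := le_antisymm
    (fun X x => ⟨x.1.1, fun b => by cases b; exacts [x.1.2, x.2.2]⟩)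
    (le_inf (V_le_Nb S _) (V_le_Nb S _))
  rw [i] at k
  refine ⟨LocOn.ff_of_fac e ((gy_locV (S := S)).toLocOn.mono (V_le_Nb S _) inf_le_left) k, ?_, ?_⟩
  · rintro _ ⟨X, x, ⟨j⟩⟩
    exact ⟨X, x.1, ⟨(e.app X).symm ≪≫ (quoM (V_le_Nb S true)).D.mapIso j⟩⟩
  · rintro _ ⟨M, m, ⟨j⟩⟩
    obtain ⟨C, s, c, hs⟩ := gyc_kill h0 m
    have := isIso_of_kill l.kill hs
    exact ⟨_, ObjectProperty.prop_map_obj _ _ c,
      ⟨e.app C ≪≫ (asIso ((a.B.π (Nb S true)).D.map s)).symm ≪≫ j⟩⟩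

end Pool.Agent.Lib.MP_5d3e93_al.Br
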