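import Pool.Agent.Lib.MP_5d3e93_al.Br.GyB
import Pool.Agent.Lib.MP_5d3e93_al.Br.GyC

/-! The Grayson step for an abstract theory. -/

open CategoryTheory Limits Pretriangulated ZeroObject

namespace Pool.Agent.Lib.MP_5d3e93_al.Br

open Gr Am

universe w v u


set_option linter.checkUnivs false in
/-- Homology theories of triples with localisation sequences in degrees below `r`. -/
structure Thy (r : ℕ) where
  H : ℕ → ∀ (a : Am.{v, u}) (S : ObjectProperty a.D) [Tg S], Type w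
  [grp : ∀ j a S [Tg S], AddCommGroup (H j a S)]
  map : ∀ (j) {a b : Am.{v, u}} (f : Map a b) {S : ObjectProperty a.D} {S' : ObjectProperty b.D}
    [Tg S] [Tg S'], S ≤ S'.inverseImage f.D → (H j a S →+ H j b S')
  id : ∀ (j) {a : Am.{v, u}} {S : ObjectProperty a.D} [Tg S] (h : S ≤ S.inverseImage a.idm.D) x,
    map j a.idm h x = x
  comp : ∀ (j) {a b c : Am.{v, u}} (f : Map a b) (g : Map b c) {S : ObjectProperty a.D}
    {S' : ObjectProperty b.D} {S'' : ObjectProperty c.D} [Tg S] [Tg S'] [Tg S'']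
    (h : S ≤ S'.inverseImage f.D) (k : S' ≤ S''.inverseImage g.D)
    (l : S ≤ S''.inverseImage (f.comp g).D) x, map j (f.comp g) l x = map j g k (map j f h x)
  weq : ∀ (j) {a b : Am.{v, u}} (f g : Map a b) (α : f.F ⟶ g.F) {S : ObjectProperty a.D}
    {S' : ObjectProperty b.D} [Tg S] [Tg S'], (∀ X, S X → IsIso ((f.nat g α).app X)) →
    ∀ (h : S ≤ S'.inverseImage f.D) (k : S ≤ S'.inverseImage g.D), map j f h = map j g k
  zero : ∀ (j) {a b : Am.{v, u}} (f : Map a b) {S : ObjectProperty a.D} {S' : ObjectProperty b.D}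
    [Tg S] [Tg S'], (∀ X, S X → IsZero (f.D.obj X)) → ∀ h : S ≤ S'.inverseImage f.D, map j f h = 0
  deq : ∀ (j) {a b : Am.{v, u}} {f : Map a b} {S : ObjectProperty a.D} {S' : ObjectProperty b.D}
    [Tg S] [Tg S'] (h : Deq f.D S S'), Function.Bijective (map j f h.maps)
  exact : ∀ (j) {a b : Am.{v, u}} {f : Map a b} {N S : ObjectProperty a.D}
    {S' : ObjectProperty b.D} [Tg N] [Tg S] [Tg S'] (h : Loc f.D N S S'), j < r →
    ∀ x, map j f h.maps x = 0 → ∃ y, map j a.idm (S := N) (S' := S) h.le y = x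
  surj : ∀ (j) {a b : Am.{v, u}} {f : Map a b} {N S : ObjectProperty a.D}
    {S' : ObjectProperty b.D} [Tg N] [Tg S] [Tg S'] (h : Loc f.D N S S'), j < r →
    (∀ i, i + 1 = j → Subsingleton (H i a N)) → Function.Surjective (map j f h.maps)
  union : ∀ (j) {a : Am.{v, u}} {S : ObjectProperty a.D} [Tg S] (P : ℕ → ObjectProperty a.D)
    [∀ i, Tg (P i)], Monotone P → ∀ (le : ∀ i, P i ≤ S), (∀ X, S X → ∃ i, P i X) →
    ∀ x, ∃ i y, map j a.idm (S := P i) (S' := S) (le i) y = x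

attribute [instance] Thy.grp

section
variable {r : ℕ} (θ : Thy.{w, v, u} r) {a : Am.{v, u}} {S : ObjectProperty a.D} [Tg S] {j : ℕ}

/-- An inclusion followed by a map. -/
theorem Thy.inc {b : Am.{v, u}} (f : Map a b) {N : ObjectProperty a.D} {S' : ObjectProperty b.D}
    [Tg N] [Tg S'] (le : N ≤ S) (h : S ≤ S'.inverseImage f.D) (k : N ≤ S'.inverseImage f.D) (x) :
    θ.map j f h (θ.map j a.idm (S := N) (S' := S) le x) = θ.map j f k x :=
  (θ.comp j a.idm f (S := N) (S' := S) le h k x).symm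

theorem gy_LV (i : ℕ) : S ≤ ((W S).map (a.B.π (V S)).D).inverseImage
    ((Lm a i).comp (a.B.π (V S))).D := fun _ h => gy_locV.maps _ (a.bs.W_L i h)

theorem Thy.up [Tg ((W S).map (a.B.π (V S)).D)] (i : ℕ) :
    θ.map j ((Lm a i).comp (a.B.π (V S))) (gy_LV i) =
      θ.map j ((Lm a 0).comp (a.B.π (V S))) (gy_LV 0) := by
  induction i with
  | zero => rfl
  | succ i ih =>
    obtain ⟨α, hα⟩ := gy_up (S := S) i
    exact (θ.weq j _ _ α hα _ _).symm.trans ih

theorem gy_Lk (m : ℕ) : S ≤ (knlW S (m + 1)).inverseImage (Lm a m).D := fun _ h => knlW_L m h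

theorem gy_kV (m : ℕ) : knlW S m ≤ ((W S).map (a.B.π (V S)).D).inverseImage (a.B.π (V S)).D :=
  fun _ h => gy_locV.maps _ h.1

theorem Thy.ev_L (m : ℕ) (t : θ.H j a S) :
    θ.map j (a.ev m) (knlW_loc m).maps (θ.map j (Lm a m) (gy_Lk m) t) = t := by
  obtain ⟨e⟩ := gy_unit (a := a) m
  have k : S ≤ S.inverseImage ((Lm a m).comp (a.ev m)).D :=
    fun _ h => (knlW_loc m).maps _ (knlW_L m h)
  have l : S ≤ S.inverseImage a.idm.D := fun _ h => h
  rw [← θ.comp j (Lm a m) (a.ev m) (gy_Lk m) (knlW_loc m).maps k, ← θ.weq j a.idm _ e.hom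
    (fun X _ => ((a.idm.natIso _ e).app X).isIso_hom) l k, θ.id]

theorem Thy.gen [Tg ((W S).map (a.B.π (V S)).D)] (hj : j < r) (m : ℕ)
    (x : θ.H j a.B (knlW S m)) : ∃ y, θ.map j ((Lm a 0).comp (a.B.π (V S))) (gy_LV 0) y =
      θ.map j (a.B.π (V S)) (gy_kV m) x := by
  induction m with
  | zero =>
    refine ⟨0, ?_⟩
    rw [map_zero, θ.zero j (a.B.π (V S)) fun X h =>
      (a.B.π (V S)).D.map_isZero (a.bs.cons X fun i => h.2 i i.zero_le)]
    rfl
  | succ m ih =>
    obtain ⟨y, hy⟩ := θ.exact j (knlW_loc (S := S) m) hj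
      (x - θ.map j (Lm a m) (gy_Lk m) (θ.map j (a.ev m) (knlW_loc m).maps x))
      (by rw [map_sub, θ.ev_L, sub_self])
    obtain ⟨t, ht⟩ := ih y
    have k := (congrArg (θ.map j _ (gy_kV (m + 1))) hy).symm.trans
      (θ.inc _ (knlW_loc (S := S) m).le (gy_kV (m + 1)) (gy_kV m) y)
    refine ⟨t + θ.map j (a.ev m) (knlW_loc m).maps x, ?_⟩
    rw [map_add, ht, ← k, map_sub, ← θ.comp j (Lm a m) _ (gy_Lk m) (gy_kV (m + 1)) (gy_LV m), θ.up,
      sub_add_cancel]

theorem Thy.onto [Tg ((W S).map (a.B.π (V S)).D)] (hj : j < r)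
    (ih : ∀ i, i + 1 = j → Subsingleton (θ.H i a.B (V S))) :
    Function.Surjective (θ.map j ((Lm a 0).comp (a.B.π (V S))) (gy_LV (S := S) 0)) := fun u => by
  obtain ⟨x, rfl⟩ := θ.surj j (gy_locV (S := S)) hj ih u
  obtain ⟨m, y, rfl⟩ := θ.union j (knlW S) (fun _ _ => knlW_mono) (fun _ => inf_le_left)
    (fun X h => h.2.imp fun _ c => ⟨h, c⟩) x
  obtain ⟨t, ht⟩ := θ.gen hj m y
  exact ⟨t, ht.trans (θ.inc (N := knlW S m) _ inf_le_left gy_locV.maps (gy_kV m) y).symm⟩

theorem gy_qm (e : Bool) : (W S).map (a.B.π (V S)).D ≤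
    ((W S).map (a.B.π (Nb S e)).D).inverseImage (quoM (V_le_Nb S e)).D :=
  fun _ ⟨M, h, ⟨i⟩⟩ => ⟨M, h, ⟨(quoM (V_le_Nb S e)).D.mapIso i⟩⟩

end

/-- Strong induction on `j` for all triples. `H j (W S)` is generated by the images of the `Lm i`
(`union`, `knlW_loc`, `exact`, `gy_unit`, `zero` for `knlW S 0`); these agree in `W / V` (`gy_up`,
`weq`); `H j W → H j (W / V)` is onto (`surj`, `Z.V`), so `Lm 0` is onto `H j (W / V)`. For `x` lift
`Lm 0 x` from `W / Nb true` to `u` in `Nb false / V` (`gy_two`); its image in `W / V` is `Lm 0 y`; it dies in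
`W / Nb false` (`zero`), so `y = 0` (`gy_one false`), so `x = 0` (`gy_one true`). -/
theorem Thy.z {r : ℕ} (θ : Thy.{w, v, u} r) {a : Am.{v, u}} {S : ObjectProperty a.D} [Tg S]
    (z : Z S) (j : ℕ) (hj : j < r) : Subsingleton (θ.H j a S) := by
  induction j using Nat.strong_induction_on generalizing a with
  | _ j ih =>
  have h0 : Subsingleton (K0 S) := z 0
  have := (gy_locV (S := S)).toLocOn.tg_map
  have := fun e => (gy_locN (S := S) e).toLocOn.tg_map
  have := gy_tg (S := S) false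
  have le : (Nb S false).map (a.B.π (V S)).D ≤ (W S).map (a.B.π (V S)).D :=
    fun _ ⟨M, h, i⟩ => ⟨M, h.1, i⟩
  have e : ∀ x : θ.H j a S, x = 0 := fun x => by
    obtain ⟨u, hu⟩ := (θ.deq j (gy_two h0)).2 (θ.map j _ (gy_one h0 true).maps x)
    obtain ⟨y, hy⟩ := θ.onto hj (fun i k => ih i (by omega) z.V (by omega))
      (θ.map j (a.B.quo (V S)).idm (S := (Nb S false).map (a.B.π (V S)).D)
        (S' := (W S).map (a.B.π (V S)).D) le u)
    have y0 : y = 0 := by
      apply (θ.deq j (gy_one h0 false)).1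
      have k := (congrArg (θ.map j _ (gy_qm (S := S) false)) hy).trans
        (θ.inc _ le (gy_qm false) (fun X h => gy_qm false X (le X h)) u)
      rw [θ.zero j (quoM (V_le_Nb S false)) (S := (Nb S false).map (a.B.π (V S)).D)
        fun _ ⟨M, h, ⟨i⟩⟩ => ((gy_locN false).kill M h).of_iso
          ((quoM (V_le_Nb S false)).D.mapIso i).symm] at k
      rw [map_zero]
      exact (θ.comp j _ (quoM (V_le_Nb S false)) (gy_LV 0) _ (gy_one h0 false).maps y).trans k
    apply (θ.deq j (gy_one h0 true)).1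
    rw [← hu, ← θ.inc _ le (gy_qm true), ← hy, y0, map_zero, map_zero, map_zero]
  exact ⟨fun x y => (e x).trans (e y).symm⟩

end Pool.Agent.Lib.MP_5d3e93_al.Br
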