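import Pool.Agent.Lib.MP_5d3e93_al.Br.RelA
import Pool.Agent.Lib.MP_5d3e93_al.Br.CylD

/-! Exact sequences and unions on homology classes. -/

open CategoryTheory Limits Opposite Simplicial AlgebraicTopology HomologicalComplex

namespace Pool.Agent.Lib.MP_5d3e93_al.Br

universe u w

variable {S : ShortComplex SA.{u}} {Z : SA.{u}} {r j : ℕ}

theorem hh_ex₂ (hS : S.ShortExact) (x : (HH j).obj S.X₂) (k : (HH j).map S.g x = 0) :
    ∃ y, (HH j).map S.f y = x :=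
  (ShortComplex.moduleCat_exact_iff _).1 ((sa_shortExact hS).homology_exact₂ j) x k

theorem hh_exact (hS : S.ShortExact) {t : S.X₃ ⟶ Z} (c : Cn r (CC.map t)) (hj : j + 1 < r)
    (x : (HH j).obj S.X₂) (k : (HH j).map (S.g ≫ t) x = 0) : ∃ y, (HH j).map S.f y = x :=
  hh_ex₂ hS x ((cn_iff_hh.1 c).2 j hj (((hh_comp j _ _ x).symm.trans k).trans (map_zero _).symm))

theorem hh_surj₀ (hS : S.ShortExact) (z : ∀ i, i + 1 = j → Subsingleton ((HH i).obj S.X₁)) :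
    Function.Surjective ((HH j).map S.g) := by
  cases j with
  | zero =>
    refine (ModuleCat.epi_iff_surjective _).1 ((cn_epi (CC.map S.g) 0).2 fun y _ => ?_)
    obtain ⟨x, rfl⟩ := se_surj (sa_shortExact hS) 0 y
    exact ⟨x, 0, cy_zero x, by rw [map_zero, add_zero]; rfl⟩
  | succ j =>
    have := z j rfl
    exact fun x => (ShortComplex.moduleCat_exact_iff _).1
      ((sa_shortExact hS).homology_exact₃ (j + 1) j rfl) x (@Subsingleton.elim _ this _ _)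

theorem hh_surj (hS : S.ShortExact) {t : S.X₃ ⟶ Z} (c : Cn r (CC.map t)) (hj : j < r)
    (z : ∀ i, i + 1 = j → Subsingleton ((HH i).obj S.X₁)) :
    Function.Surjective ((HH j).map (S.g ≫ t)) := fun x => by
  obtain ⟨y, rfl⟩ := (cn_iff_hh.1 c).1 j hj x
  obtain ⟨v, rfl⟩ := hh_surj₀ hS z y
  exact ⟨v, hh_comp j _ _ v⟩

theorem ac_iff_hh {X : SA.{u}} {a : ℕ} :
    Ac a (CC.obj X) ↔ ∀ j < a, Subsingleton ((HH j).obj X) :=
  ac_iff.trans (forall₂_congr fun _ _ => ModuleCat.isZero_iff_subsingleton)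

/-- Every class is represented by a cycle. -/
theorem hh_rep {Y : SA.{u}} (y : (HH j).obj Y) :
    ∃ c : Y _⦋j⦌, IsCy (CC.obj Y) j c ∧ ∀ {W : SA.{u}} (g : W ⟶ Y) (b : W _⦋j⦌),
      IsCy (CC.obj W) j b → g.app _ b = c → ∃ x, (HH j).map g x = y := by
  obtain ⟨c, rfl⟩ := cn_pi_surj (K := CC.obj Y) j y
  refine ⟨_, cy_i j c, fun g b hb e => ?_⟩
  obtain ⟨b, rfl⟩ := cy_ex hb
  exact ⟨_, (cn_pi_nat (CC.map g) j b).trans (congrArg _ (cn_i_inj j ((cn_i_nat _ j b).trans e)))⟩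

/-- Directed unions: every class comes from a stage. -/
theorem hh_union {P : SP.{u}} {ι : Type w} [Nonempty ι] [Preorder ι] [IsDirectedOrder ι]
    (T : ι → SP.{u}) (f : ∀ i, T i ⟶ P)
    (hm : ∀ i k, i ≤ k → ∀ n, Set.range ((f i).app n).1 ⊆ Set.range ((f k).app n).1)
    (hs : ∀ n x, ∃ i, x ∈ Set.range ((f i).app n).1)
    (hi : ∀ i n, Set.InjOn ((f i).app n).1 ((T i).obj n).Aᶜ)
    (ha : ∀ i n x, ((f i).app n).1 x ∈ (P.obj n).A → x ∈ ((T i).obj n).A)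
    (x : (HH j).obj (RF.obj P)) : ∃ i y, (HH j).map (RF.map (f i)) y = x := by
  obtain ⟨y, e, k⟩ := hh_rep x
  obtain ⟨i, x, rfl⟩ : ∃ i x, (RC.map (f i)).f j x = y := relA_ind (P.obj (op ⦋j⦌))
    { carrier := {y | ∃ i x, PT.fr.map ((f i).app (op ⦋j⦌)) x = y}
      zero_mem' := ⟨Classical.arbitrary ι, 0, map_zero _⟩
      neg_mem' := fun ⟨i, x, e⟩ => ⟨i, -x, by rw [map_neg, e]⟩
      add_mem' := fun ⟨i, x, e⟩ ⟨k, x', e'⟩ => by
        obtain ⟨l, l1, l2⟩ := exists_ge_ge i k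
        obtain ⟨s, s1⟩ := relA_mono _ _ (hm i l l1 _) x
        obtain ⟨t, t1⟩ := relA_mono _ _ (hm k l l2 _) x'
        exact ⟨l, s + t, by rw [map_add, s1, t1, e, e']⟩ }
    (fun x => (hs _ x).elim fun i ⟨x', e⟩ => ⟨i, PT.cl _ x', (PT.map_cl _ x').trans (e ▸ rfl)⟩) y
  have inj (m : ℕ) : Function.Injective ((RC.map (f i)).f m) := by
    obtain ⟨r, e⟩ := relA_left ((f i).app (op ⦋m⦌)) (hi i _) (ha i _)
    exact Function.LeftInverse.injective (g := r) fun x => ConcreteCategory.congr_hom e x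
  exact ⟨i, k (RF.map (f i)) x
    (inj _ ((cn_comm _ _ _ x).symm.trans (e.trans (map_zero _).symm))) rfl⟩

end Pool.Agent.Lib.MP_5d3e93_al.Br
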