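import Pool.Agent.Lib.MP_5d3e93_al.Br.FamA
import Pool.Agent.Lib.MP_5d3e93_al.Br.PP
import Pool.Agent.Lib.MP_5d3e93_al.Br.RelB
import Pool.Agent.Lib.MP_5d3e93_al.Br.Gy
import Pool.Agent.Lib.MP_5d3e93_al.Br.A1Rf

/-! Vanishing of the homology of K-theory pairs from the localisation property. -/

open CategoryTheory Limits Function Opposite Simplicial

namespace Pool.Agent.Lib.MP_5d3e93_al.Br

open Gr Am A2 SP

universe w v u

set_option backward.isDefEq.respectTransparency false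
set_option linter.unusedVariables false

section
variable {a b : Am.{v, u}}

variable (b) in
/-- Constant arrows. -/
def kzC : Map b (b.dg False (Fin 2)) where
  F := Functor.const _
  add := ⟨rfl⟩
  hT X h := (b.dg False (Fin 2)).le_Tb _ ⟨False.elim, fun _ => b.idm.hT X h⟩

/-- The arrows of a natural transformation. -/
def kzL (f g : Map a b) (α : f.F ⟶ g.F) : Map a (b.dg False (Fin 2)) where
  F := Functor.flip (ComposableArrows.mk₁ α)
  add := ⟨NatTrans.ext (funext fun i => match i with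
    | 0 => f.F.map_add
    | 1 => g.F.map_add)⟩
  hT X h := (b.dg False (Fin 2)).le_Tb _ ⟨False.elim, fun i => match i with
    | 0 => f.hT X h
    | 1 => g.hT X h⟩

variable (b) in
/-- Constant arrows are left adjoint to the source. -/
def kzA : (kzC b).F ⊣ (b.evd False (0 : Fin 2)).F where
  unit := 𝟙 (𝟭 b.A)
  counit := { app := fun F => { app := fun j => F.map (homOfLE (Fin.zero_le j))
                                naturality := fun _ _ _ =>
                                  (Category.id_comp _).trans (F.map_comp _ _) }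
              naturality := fun _ _ φ => NatTrans.ext (funext fun _ => (φ.naturality _).symm) }
  left_triangle_components _ := NatTrans.ext (funext fun _ => Category.id_comp _)
  right_triangle_components F := (Category.id_comp _).trans (F.map_id _)

theorem kz_ff (S : ObjectProperty b.D) : FF (kzC b).D S := by
  obtain ⟨ad, h, -⟩ := (kzC b).exists_adj _ (kzA b)
  have : ∀ X, IsIso (ad.unit.app X) := fun X => by
    rw [h]
    exact ((b.idm.natIso ((kzC b).comp (b.evd False (0 : Fin 2))) (Iso.refl _)).app X).isIso_hom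
  have := NatIso.isIso_of_isIso_app ad.unit
  exact fun _ _ _ _ => ad.fullyFaithfulLOfIsIsoUnit.map_bijective _ _

/-- The comparison of the constant arrow with the arrow of a transformation. -/
def kzT (f g : Map a b) (α : f.F ⟶ g.F) : (f.comp (kzC b)).F ⟶ (kzL f g α).F :=
  Functor.whiskerLeft (kzL f g α).F (kzA b).counit

theorem kz_iso (f g : Map a b) (α : f.F ⟶ g.F) {X : a.D} (h : IsIso ((f.nat g α).app X)) :
    IsIso (((f.comp (kzC b)).nat (kzL f g α) (kzT f g α)).app X) := by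
  refine dg_isIso False.elim False.elim _ fun i => ?_
  rw [Map.map_nat]
  match i with
  | 0 => exact ((f.natIso f (Iso.refl _)).app X).isIso_hom
  | 1 => exact h

/-- Weakly equivalent maps agree after a functor that inverts derived equivalences. -/
theorem kz_weq {E : Type*} [Category* E] (K : Tp.{v, u} ⥤ E)
    (deq : ∀ {x y : Tp.{v, u}} (f : x ⟶ y), Deq f.f.D x.S y.S → Epi (K.map f))
    {x y : Tp.{v, u}} (f g : x ⟶ y) (α : f.f.F ⟶ g.f.F)
    (h : ∀ X, x.S X → IsIso ((f.f.nat g.f α).app X)) : K.map f = K.map g := by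
  have := (kz_ff y.S).tg_map
  let z : Tp.{v, u} := ⟨y.a.dg False (Fin 2), y.S.map (kzC y.a).D⟩
  let c : y ⟶ z := ⟨kzC _, fun _ p => y.S.prop_map_obj _ p⟩
  let e (i : Fin 2) : z ⟶ y := ⟨y.a.evd False i, fun _ ⟨Y, p, ⟨k⟩⟩ =>
    y.S.prop_of_iso ((y.a.evd False i).D.mapIso k) p⟩
  let l : x ⟶ z := ⟨kzL f.f g.f α, fun X p => ⟨_, f.h X p, ⟨@asIso _ _ _ _ _ (kz_iso _ _ α (h X p))⟩⟩⟩
  have := deq c ⟨kz_ff _, c.h, fun _ p => p⟩
  have k : K.map (e 0) = K.map (e 1) := by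
    rw [← cancel_epi (K.map c), ← K.map_comp, ← K.map_comp]
    rfl
  change K.map (l ≫ e 0) = K.map (l ≫ e 1)
  rw [K.map_comp, K.map_comp, k]

end

/-- The properties of one level of K-theory. -/
structure KJ (K : Tp.{v, u} ⥤ SP.{w}) (c : ℕ) : Prop where
  deq : ∀ {x y : Tp.{v, u}} (f : x ⟶ y), Deq f.f.D x.S y.S → ∀ b, Cn b (RC.map (K.map f))
  nl : ∀ {x y : Tp.{v, u}} (f : x ⟶ y), x.S ≤ Zr.inverseImage f.f.D →
    ∀ n s, ((K.map f).app n).1 s ∈ ((K.obj y).obj n).A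
  em : ∀ {a : Am.{v, u}} {N S : ObjectProperty a.D} [Tg N] [Tg S] (h : N ≤ S),
    Em (K.map (⟨a.idm, h⟩ : Tp.mk a N ⟶ Tp.mk a S))
  loc : ∀ {a b : Am.{v, u}} {N S : ObjectProperty a.D} {S' : ObjectProperty b.D} [Tg N]
    [Tg S] [Tg S'] {f : Map a b} (h : Gr.Loc f.D N S S')
    (e : Nl (K.map (⟨a.idm, h.le⟩ : Tp.mk a N ⟶ Tp.mk a S))
      (K.map (⟨f, h.maps⟩ : Tp.mk a S ⟶ Tp.mk b S'))), Cn c (RC.map e.md)
  un : ∀ {a : Am.{v, u}} {N : ℕ → ObjectProperty a.D} {S : ObjectProperty a.D} [∀ r, Tg (N r)]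
    [Tg S] (le : ∀ r, N r ≤ S), Monotone N → (∀ X, S X → ∃ r, N r X) → ∀ n s, ∃ r t,
      ((K.map (⟨a.idm, le r⟩ : Tp.mk a (N r) ⟶ Tp.mk a S)).app n).1 t = s

variable {K : Tp.{v, u} ⥤ SP.{w}} {r : ℕ}

theorem KJ.nl' (h : KJ K r) {a b : Am.{v, u}} {N S : ObjectProperty a.D} {S' : ObjectProperty b.D}
    [Tg N] [Tg S] [Tg S'] {f : Map a b} (l : Gr.Loc f.D N S S') :
    Nl (K.map (⟨a.idm, l.le⟩ : Tp.mk a N ⟶ Tp.mk a S))
      (K.map (⟨f, l.maps⟩ : Tp.mk a S ⟶ Tp.mk b S')) := fun n s => by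
  have := h.nl ((⟨a.idm, l.le⟩ : Tp.mk a N ⟶ Tp.mk a S) ≫ (⟨f, l.maps⟩ : Tp.mk a S ⟶ Tp.mk b S'))
    (fun X k => l.kill X k) n s
  rwa [K.map_comp] at this

theorem KJ.bij (h : KJ K r) {x y : Tp.{v, u}} (f : x ⟶ y) (d : Deq f.f.D x.S y.S) (j : ℕ) :
    Bijective ((HH j).map (RF.map (K.map f))) :=
  ⟨(cn_iff_hh.1 (h.deq f d (j + 2))).2 j (by omega), (cn_iff_hh.1 (h.deq f d (j + 2))).1 j (by omega)⟩

theorem KJ.weq (h : KJ K r) {x y : Tp.{v, u}} (f g : x ⟶ y) (α : f.f.F ⟶ g.f.F)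
    (k : ∀ X, x.S X → IsIso ((f.f.nat g.f α).app X)) (j : ℕ) :
    (HH j).map (RF.map (K.map f)) = (HH j).map (RF.map (K.map g)) :=
  kz_weq (K ⋙ RF ⋙ HH j) (fun f d => (ModuleCat.epi_iff_surjective _).2 (h.bij f d j).2) f g α k

theorem KJ.union (h : KJ K r) {a : Am.{v, u}} {S : ObjectProperty a.D} [Tg S]
    (P : ℕ → ObjectProperty a.D) [∀ i, Tg (P i)] (m : Monotone P) (le : ∀ i, P i ≤ S)
    (c : ∀ X, S X → ∃ i, P i X) (j : ℕ) (x : (HH j).obj (RF.obj (K.obj ⟨a, S⟩))) : ∃ i y,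
    (HH j).map (RF.map (K.map (⟨a.idm, le i⟩ : Tp.mk a (P i) ⟶ Tp.mk a S))) y = x := by
  refine hh_union (fun i => K.obj ⟨a, P i⟩) _ (fun i k l n => ?_) (h.un le m c)
    (fun i n => (h.em (le i) n).1) (fun i n => (h.em (le i) n).2) x
  rintro _ ⟨t, rfl⟩
  have e := K.map_comp (⟨a.idm, m l⟩ : Tp.mk a (P i) ⟶ Tp.mk a (P k))
    (⟨a.idm, le k⟩ : Tp.mk a (P k) ⟶ Tp.mk a S)
  exact ⟨_, (congrArg (fun s : K.obj ⟨a, P i⟩ ⟶ K.obj ⟨a, S⟩ => (s.app n).1 t) e).symm⟩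

section
variable (h : KJ K (r + 1)) {a b : Am.{v, u}} {N S : ObjectProperty a.D} {S' : ObjectProperty b.D}
    [Tg N] [Tg S] [Tg S'] {f : Map a b} (l : Gr.Loc f.D N S S') {j : ℕ} (hj : j < r)
include h hj

theorem KJ.exact (x : (HH j).obj (RF.obj (K.obj ⟨a, S⟩)))
    (k : (HH j).map (RF.map (K.map (⟨f, l.maps⟩ : Tp.mk a S ⟶ Tp.mk b S'))) x = 0) : ∃ y,
    (HH j).map (RF.map (K.map (⟨a.idm, l.le⟩ : Tp.mk a N ⟶ Tp.mk a S))) y = x := by
  rw [← (h.nl' l).I_md, RF.map_comp] at k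
  exact hh_exact (h.em l.le).se (h.loc l (h.nl' l)) (by omega) x k

theorem KJ.surj (z : ∀ i, i + 1 = j → Subsingleton ((HH i).obj (RF.obj (K.obj ⟨a, N⟩)))) :
    Surjective ((HH j).map (RF.map (K.map (⟨f, l.maps⟩ : Tp.mk a S ⟶ Tp.mk b S')))) := by
  rw [← (h.nl' l).I_md, RF.map_comp]
  exact hh_surj (h.em l.le).se (h.loc l (h.nl' l)) (by omega) z

end

/-- The homology theory of one level. -/
noncomputable def KJ.thy (h : KJ K (r + 1)) : Thy.{w, v, u} r where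
  H j a S _ := (HH j).obj (RF.obj (K.obj ⟨a, S⟩))
  grp := inferInstance
  map j a b f S S' _ _ k :=
    ((HH j).map (RF.map (K.map (⟨f, k⟩ : Tp.mk a S ⟶ Tp.mk b S')))).hom.toAddMonoidHom
  id j a S _ _ x := ConcreteCategory.congr_hom ((K ⋙ RF ⋙ HH j).map_id ⟨a, S⟩) x
  comp j a b c f g S S' S'' _ _ _ k l _ x := ConcreteCategory.congr_hom ((K ⋙ RF ⋙ HH j).map_comp
    (⟨f, k⟩ : Tp.mk a S ⟶ Tp.mk b S') (⟨g, l⟩ : Tp.mk b S' ⟶ Tp.mk c S'')) x
  weq j a b f g α S S' _ _ i k l := congrArg (fun t => t.hom.toAddMonoidHom)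
    (h.weq (⟨f, k⟩ : Tp.mk a S ⟶ Tp.mk b S') ⟨g, l⟩ α i j)
  zero j a b f S S' _ _ i k := AddMonoidHom.ext fun x => (congrArg (fun t => (HH j).map t x)
    (rf_zero _ (h.nl (⟨f, k⟩ : Tp.mk a S ⟶ Tp.mk b S') i))).trans (hh_zero j x)
  deq j a b f S S' _ _ d := h.bij (⟨f, d.maps⟩ : Tp.mk a S ⟶ Tp.mk b S') d j
  exact j a b f N S S' _ _ _ l hj := h.exact l hj
  surj j a b f N S S' _ _ _ l hj := h.surj l hj
  union j a S _ P _ m le c x := h.union P m le c j x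

/-- Vanishing Grayson groups give acyclic levels. -/
theorem KJ.z (h : KJ K (r + 1)) (x : Tp.{v, u}) (z : Z x.S) : Ac r (RC.obj (K.obj x)) :=
  ac_iff_hh.2 fun j hj => h.thy.z z j hj

end Pool.Agent.Lib.MP_5d3e93_al.Br
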