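import Pool.Agent.Lib.MP_5d3e93_al.Br.KD
import Pool.Agent.Lib.MP_5d3e93_al.Br.A1Ap
import Pool.Agent.Lib.MP_5d3e93_al.Br.A1Gl
import Pool.Agent.Lib.MP_5d3e93_al.Br.R1F
import Pool.Agent.Lib.MP_5d3e93_al.Br.RelA

/-! Derived equivalences induce isomorphisms on the relative homology of nerve pairs. -/

open CategoryTheory Limits Pretriangulated ZeroObject Opposite Simplicial

namespace Pool.Agent.Lib.MP_5d3e93_al.A2

open Gr Am Br Lab.Cv

universe v u w

set_option backward.isDefEq.respectTransparency false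

variable {x y : Tp.{v, u}}

/-- The inclusion of the trivial complexes. -/
def pcI (x : Tp.{v, u}) : x.a.Wq False Zr ⥤ x.a.Wq False x.S where
  obj X := ⟨X.K, X.sb, Tg.zero _ X.p⟩
  map φ := φ

/-- The subobject of the nerve pair is the nerve of the trivial complexes. -/
noncomputable def pcE (x : Tp.{v, u}) : nerve (x.a.Wq False Zr) ≅ SP.sub.obj (NP.obj x) :=
  NatIso.ofComponents (fun _ => Equiv.toIso
    { toFun := fun σ => ⟨σ ⋙ pcI x, fun k => (σ.obj k).p⟩
      invFun := fun σ =>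
        { obj := fun k => ⟨(σ.1.obj k).K, (σ.1.obj k).sb, σ.2 k⟩
          map := fun g => σ.1.map g
          map_id := fun k => σ.1.map_id k
          map_comp := fun g g' => σ.1.map_comp g g' }
      left_inv := fun _ => rfl
      right_inv := fun _ => rfl }) fun _ => rfl

theorem pc_zr (f : Map x.a y.a) : Deq f.D Zr Zr where
  ff _ _ h _ := ⟨fun _ _ _ => h.eq_of_src _ _, fun _ => ⟨0, (f.D.map_isZero h).eq_of_src _ _⟩⟩
  maps _ h := f.D.map_isZero h
  surj _ h := ⟨0, isZero_zero _, ⟨(f.D.map_isZero (isZero_zero _)).iso h⟩⟩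

theorem pc_app {S : ObjectProperty x.a.D} {S' : ObjectProperty y.a.D} [Tg S] [Tg S']
    (f : Map x.a y.a) (h : Deq f.D S S') (c : S ≤ S'.inverseImage f.D) (b : ℕ) :
    Cn b (ZC.map (nerveMap (f.wq (β := False) (β' := False) id c))) :=
  cn_nerve (app (β := False) (β' := False) nofun nofun f id nofun h le_rfl le_rfl c
    fun _ k _ => k) b

/-- The subobject is the nerve of `x.a.Wq False Zr` (bijection on simplices), and `f` restricted
to the zero classes is `Deq f.f.D Zr Zr`: `app`, `cn_nerve`. -/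
theorem np_sub (f : x ⟶ y) (b : ℕ) : Cn b (ZC.map (SP.sub.map (NP.map f))) :=
  (cn_sq (ZC.map (pcE x).hom) (ZC.map (pcE y).hom) (by
    rw [← ZC.map_comp, ← ZC.map_comp]
    rfl)).1 (pc_app f.f (pc_zr f.f) (pc_zr f.f).maps b)

/-- `cn_rel_iff`, `np_sub`, `cn_nerve (app ..)`. -/
theorem np_deq (f : x ⟶ y) (h : Deq f.f.D x.S y.S) (b : ℕ) : Cn b (RC.map (NP.map f)) :=
  (cn_rel_iff _ (np_sub f)).2 (pc_app f.f h f.h b)

/-- `r1F` with `F = PT.fr`. -/
theorem st_cn (D : SimplexCategoryᵒᵖ ⥤ Lab) {Ψ Ψ' : Lab ⥤ SP.{w}} (f : Ψ ⟶ Ψ') {b : ℕ}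
    (h : ∀ Λ, Cn b (RC.map (f.app Λ))) : Cn b (RC.map ((St _ D).map f)) :=
  r1F PT.fr (Functor.whiskerLeft D f) fun _ => (h _).mono (Nat.sub_le _ _)

end Pool.Agent.Lib.MP_5d3e93_al.A2
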