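import Pool.Agent.Lib.MP_5d3e93_al.Br.FD
import Pool.Agent.Lib.MP_5d3e93_al.Br.Pc
import Pool.Agent.Lib.MP_5d3e93_al.Br.AdI
import Pool.Agent.Lib.MP_5d3e93_al.Br.AdD

/-! The nerve pair of coloured families is good and additive; invariance under equivalences. -/

open CategoryTheory Limits Pretriangulated ZeroObject Opposite Simplicial

namespace Pool.Agent.Lib.MP_5d3e93_al.A2

open Gr Am Br Lab.Cv

universe v u

set_option backward.isDefEq.respectTransparency false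

theorem kq_ff (a : Am.{v, u}) (S : ObjectProperty a.D) : FF a.idm.D S := fun X Y _ _ => by
  have : (a.idm.D.map : (X ⟶ Y) → _) = id := funext idm_map
  rw [this]
  exact Function.bijective_id

/-- `z`: `rf_isZero`, `fm_dead (𝟙 _)`; `e`: `np_deq`, `fm_deq` with `S₀ = ⊤` (`idm_map`). -/
theorem ph_gd (a : Am.{v, u}) : LC.Gd (PhP a ⋙ RF) where
  z Y h := rf_isZero fun n σ => by
    have := fm_dead (𝟙 ((inC a).obj Y)) h n σ
    rwa [(Fm ⋙ NP).map_id] at this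
  e {X Y} f h b :=
    have : ∀ l, Tg (X.c l).1 := fun l => (X.c l).2
    have : ∀ l, Tg (Y.c l).1 := fun l => (Y.c l).2
    np_deq (Fm.map ((inC a).map f)) (fm_deq f.f a.idm (S := fun l => (X.c l).1)
      (S' := fun l => (Y.c l).1) h.al h.ord h.on ⊤ (kq_ff a ⊤) (fun _ _ => le_top)
      (fun l c => f.h l (h.al l c)) fun l c Z k => ⟨Z, h.col l c Z k, ⟨Iso.refl _⟩⟩) b

theorem it_gd (a : Am.{v, u}) (m : ℕ) : LC.Gd (LC.It (Dm m) (PhP a) ⋙ RF) :=
  (LC.it_rf (Dm m) (PhP a)).elim fun e => LC.Gd.of_iso e ((ph_gd a).it _)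

theorem it_add (a : Am.{v, u}) (m : ℕ) : LC.Add (LC.It (Dm m) (PhP a) ⋙ RF) (2 * m) :=
  (LC.it_rf (Dm m) (PhP a)).elim fun e => LC.Add.of_iso e ((ph_gd a).add m)

theorem kl_deq {x y : Tp.{v, u}} (f : x ⟶ y) (h : Deq f.f.D x.S y.S) (Λ : Lab) (b : ℕ) :
    Cn b (RC.map ((KL.map f).app Λ)) :=
  np_deq (Fm.map ((inT.map f).app Λ)) (fm_deq (𝟙 (Λ.ten oL)) f.f (S := fun _ => x.S)
    (S' := fun _ => y.S) (fun _ c => c) (fun _ _ _ _ c => c) (fun l _ => ⟨l, rfl⟩) x.S h.ff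
    (fun _ _ => le_rfl) (fun _ _ => h.maps) fun _ _ => h.surj) b

theorem kp_deq {x y : Tp.{v, u}} (f : x ⟶ y) (h : Deq f.f.D x.S y.S) (m b : ℕ) :
    Cn b (RC.map ((KP m).map f)) :=
  st_cn (Dm m) (KL.map f) fun Λ => kl_deq f h Λ b

end Pool.Agent.Lib.MP_5d3e93_al.A2
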