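import Pool.Agent.Lib.MP_5d3e93_al.Br.KD

/-! Inclusions of classes, null maps and directed unions for the iterated S-construction. -/

open CategoryTheory Limits Pretriangulated ZeroObject Opposite Simplicial

namespace Pool.Agent.Lib.MP_5d3e93_al.A2

open Gr Am Br Lab.Cv

universe v u v' u' w w' w'' x x'

set_option backward.isDefEq.respectTransparency false

/-- An inclusion of classes. -/
def incl {a : Am.{v, u}} {N S : ObjectProperty a.D} [Tg N] [Tg S] (h : N ≤ S) :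
    (⟨a, N⟩ : Tp) ⟶ ⟨a, S⟩ := ⟨a.idm, h⟩

variable {a : Am.{v, u}} {N S : ObjectProperty a.D} [Tg N] [Tg S] {x y : Tp.{v, u}}

theorem ku_inj {J : Type*} [Category* J] {C : Type*} [Category* C] {D : Type*} [Category* D]
    (F : C ⥤ D) [F.Faithful] (hF : Function.Injective F.obj) {σ τ : J ⥤ C} (h : σ ⋙ F = τ ⋙ F) :
    σ = τ :=
  CategoryTheory.Functor.ext (fun i => hF (Functor.congr_obj h i)) fun i j f => F.map_injective (by
    rw [F.map_comp, F.map_comp, eqToHom_map, eqToHom_map]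
    exact Functor.congr_hom h f)

theorem ku_em (h : N ≤ S) : SP.Em (NP.map (incl h)) := fun n => by
  have : (Tp.Hom.w (incl h)).Faithful := ⟨fun e => Subtype.ext (congrArg Subtype.val e)⟩
  refine ⟨fun σ _ τ _ e => ku_inj (Tp.Hom.w (incl h)) (fun X Y k => ?_) e, fun σ k => k⟩
  obtain ⟨K, _, _⟩ := X
  obtain ⟨K', _, _⟩ := Y
  obtain rfl : K = K' := congrArg Wq.K k
  rfl

theorem ku_on (h : N ≤ S) (n) (σ : ((NP.obj (⟨a, S⟩ : Tp)).obj n).X)
    (k : ∀ i, N (a.nq.obj (σ.obj i).K)) : ∃ τ, ((NP.map (incl h)).app n).1 τ = σ :=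
  ⟨{ obj := fun i => ⟨(σ.obj i).K, (σ.obj i).sb, k i⟩
     map := fun f => ⟨(σ.map f).1, (σ.map f).2⟩
     map_id := fun i => Subtype.ext (congrArg Subtype.val (σ.map_id i))
     map_comp := fun f g => Subtype.ext (congrArg Subtype.val (σ.map_comp f g)) }, rfl⟩

omit [Tg N] [Tg S] in
theorem ku_mono (Λ : Lab) (h : N ≤ S) :
    (cls fun _ : Λ.L => N) ≤ cls fun _ : Λ.L => S := fun _ k l => h _ (k l)

theorem ku_eq (h : N ≤ S) (m : ℕ) (n) : ((KP m).map (incl h)).app n =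
    (NP.map (incl (ku_mono (((Dm m).obj n).ten oL) h))).app n :=
  congrArg (fun f => (NP.map f).app n) (Tp.hom_ext Fam.map_id :
    Fm.map ((inT.map (incl h)).app ((Dm m).obj n)) = incl (ku_mono _ h))

/-- `fmM (𝟙 _) idm = idm` (`map_ext Fam.map_id`), so the map is `NP.map (incl _)`. -/
theorem kp_em (h : N ≤ S) (m : ℕ) : SP.Em ((KP m).map (incl h)) := fun n => by
  rw [ku_eq]
  exact ku_em _ n

/-- `cls_map` into the zero classes and `fam_zero`. -/
theorem kp_nl (f : x ⟶ y) (h : ∀ X, x.S X → IsZero (f.f.D.obj X)) (m : ℕ) (n) (σ) :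
    (((KP m).map f).app n).1 σ ∈ (((KP m).obj y).obj n).A := fun k =>
  fam_zero (cls_map (𝟙 (((Dm m).obj n).ten oL)) f.f (S := fun _ => x.S) (S' := fun _ => Zr)
    (fun _ _ => h) _ (σ.obj k).p)

/-- Finitely many labels and vertices. -/
theorem kp_un {J : Type w} [Preorder J] [IsDirected J (· ≤ ·)] [Nonempty J]
    (P : J → ObjectProperty a.D) [∀ i, Tg (P i)] (mo : Monotone P) (le : ∀ i, P i ≤ S)
    (h : ∀ X, S X → ∃ i, P i X) (m : ℕ) (n) (T : Finset (((KP m).obj ⟨a, S⟩).obj n).X) :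
    ∃ i, ∀ σ ∈ T, ∃ τ, (((KP m).map (incl (le i))).app n).1 τ = σ := by
  choose c hc using fun z : T × Fin (n.unop.len + 1) × (((Dm m).obj n).ten oL).L =>
    h _ ((z.1.1.obj z.2.1).p z.2.2)
  obtain ⟨i, hi⟩ := Finite.exists_le c
  refine ⟨i, fun σ hσ => ?_⟩
  rw [ku_eq]
  exact ku_on _ n σ fun k l => mo (hi (⟨σ, hσ⟩, k, l)) _ (hc _)

end Pool.Agent.Lib.MP_5d3e93_al.A2
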