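import Pool.Agent.Lib.MP_5d3e93_al.Br.KE
import Pool.Agent.Lib.MP_5d3e93_al.Br.Pc
import Pool.Agent.Lib.MP_5d3e93_al.Br.A1Pz

/-! The chains of trivial complexes are contractible; exchanging two diagonals. -/

open CategoryTheory Limits Pretriangulated ZeroObject Opposite Simplicial

namespace Pool.Agent.Lib.MP_5d3e93_al.A2

open Gr Am Br Lab.Cv

universe v u v' u' w w' w'' x x'

set_option backward.isDefEq.respectTransparency false

theorem swb_nerve {𝒳 : Type u} [Category.{v} 𝒳] (o : 𝒳) (α : (Functor.const 𝒳).obj o ⟶ 𝟭 𝒳)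
    (t : nerve 𝒳 ⟶ Δ[0]) (b : ℕ) : Cn b (ZC.map t) := by
  let s : (Δ[0] : SSet.{max u v}) ⟶ nerve 𝒳 := SSet.const ((Functor.const _).obj o)
  have e : s ≫ t = 𝟙 _ := SSet.stdSimplex.ext₀
  have h := ht_nat α
  have k : (SS.ofMap (t ≫ s)).Ht (SS.ofMap (𝟙 _)) := fun n z hz => h n z hz
  refine cn_of_hi (SS.Hom.hi_of_inv (g := SS.ofMap s) k ?_) b
  change (SS.ofMap (s ≫ t)).Ht _
  rw [e]
  exact SS.Hom.Ht.refl _

/-- The category of trivial complexes has an initial object. -/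
theorem np_pt (x : Tp.{v, u}) (t : SP.sub.obj (NP.obj x) ⟶ Δ[0]) (b : ℕ) : Cn b (ZC.map t) := by
  have z : IsZero (x.a.nq.obj 0) := x.a.nq.map_isZero (isZero_zero _)
  let o : x.a.Wq False Zr := ⟨0, nofun, z⟩
  let α : (Functor.const _).obj o ⟶ 𝟭 _ :=
    { app := fun X => ⟨0, ⟨0, z.eq_of_src _ _, IsZero.eq_of_src X.p _ _⟩⟩
      naturality := fun _ _ _ => Subtype.ext ((isZero_zero _).eq_of_src _ _) }
  exact (cn_sq (ZC.map (pcE x).hom) (𝟙 _) (by rw [Category.comp_id, ZC.map_comp])).1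
    (swb_nerve o α ((pcE x).hom ≫ t) b)

/-- Rows to the point, two out of three. -/
theorem dg_sub (B : SimplexCategoryᵒᵖ ⥤ Tp.{v, u}) (y : Tp.{v, u})
    (g : (dgG _ PT).obj (B ⋙ NP) ⟶ NP.obj y) (b : ℕ) : Cn b (ZC.map (SP.sub.map g)) := by
  let T := SSet.stdSimplex.isTerminalObj₀.{max u v}
  let φ : B ⋙ NP ⋙ SP.sub ⟶ (Functor.const _).obj Δ[0] :=
    { app := fun _ => T.from _, naturality := fun _ _ _ => SSet.stdSimplex.ext₀ }
  let ι : (dgG _ _).obj ((Functor.const SimplexCategoryᵒᵖ).obj Δ[0]) ≅ (Δ[0] : SSet.{max u v}) :=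
    NatIso.ofComponents (fun _ => Iso.refl _) fun _ => rfl
  let κ : (dgG _ _).obj (B ⋙ NP ⋙ SP.sub) ≅ SP.sub.obj ((dgG _ PT).obj (B ⋙ NP)) :=
    NatIso.ofComponents (fun _ => Iso.refl _) fun _ => rfl
  have h : Cn b (ZC.map ((dgG _ _).map φ)) := r1F Fr φ fun p => np_pt _ _ _
  refine Cn.of_comp_left ?_ (np_pt y (T.from _) (b + 1))
  rw [← ZC.map_comp]
  exact (cn_sq (ZC.map κ.hom) (ZC.map ι.hom) (by
    rw [← ZC.map_comp, ← ZC.map_comp]
    exact congrArg _ SSet.stdSimplex.ext₀)).1 h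

/-- Both diagonals have the same simplices. -/
theorem st_swap (D : SimplexCategoryᵒᵖ ⥤ Lab) (B : SimplexCategoryᵒᵖ ⥤ Lab ⥤ SP.{w})
    (Z : Lab ⥤ SP.{w}) (ψ : B.flip ⋙ dgG _ PT ⟶ Z) {b : ℕ} (h : ∀ Λ, Cn b (RC.map (ψ.app Λ))) :
    ∃ ψ' : (dgG _ PT).obj (B ⋙ St _ D) ⟶ (St _ D).obj Z, Cn b (RC.map ψ') ∧
      ∀ n, ψ'.app n = (ψ.app (D.obj n)).app n := by
  let κ : (dgG _ PT).obj (B ⋙ St _ D) ≅ (St _ D).obj (B.flip ⋙ dgG _ PT) :=
    NatIso.ofComponents (fun _ => Iso.refl _) fun {n n'} θ => by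
      refine (Category.comp_id _).trans (Eq.trans ?_ (Category.id_comp _).symm)
      change ((B.map θ).app (D.obj n)).app n ≫ ((B.obj n').map (D.map θ)).app n ≫
        ((B.obj n').obj (D.obj n')).map θ = ((B.obj n).map (D.map θ)).app n ≫
        ((B.map θ).app (D.obj n')).app n ≫ ((B.obj n').obj (D.obj n')).map θ
      rw [← Category.assoc, ← Category.assoc, ← NatTrans.comp_app, ← NatTrans.comp_app,
        (B.map θ).naturality]
  refine ⟨κ.hom ≫ (St _ D).map ψ, ?_, fun n => Category.id_comp _⟩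
  rw [RC.map_comp]
  exact (cn_iso _ _).comp (st_cn D ψ h)

end Pool.Agent.Lib.MP_5d3e93_al.A2
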