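import Pool.Agent.Lib.MP_5d3e93_al.Br.Fb
import Pool.Agent.Lib.MP_5d3e93_al.Br.Kq
import Pool.Agent.Lib.MP_5d3e93_al.Br.Ku
import Pool.Agent.Lib.MP_5d3e93_al.Br.SwB

/-! The localisation sequence for the iterated S-construction. -/

open CategoryTheory Limits Pretriangulated ZeroObject Opposite Simplicial

namespace Pool.Agent.Lib.MP_5d3e93_al.A2

open Gr Am Br Lab.Cv

universe v u v' u' w w' w'' x x'

set_option backward.isDefEq.respectTransparency false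

theorem kp_loc {x y : Tp.{v, u}} (f : x ⟶ y) {N : ObjectProperty x.a.D} [Tg N]
    (h : Loc f.f.D N x.S y.S) (m : ℕ)
    (e : SP.Nl ((KP m).map (incl h.le)) ((KP m).map f)) : Cn (2 * m) (RC.map e.md) := by
  have le : (⟨N, ‹_›⟩ : Cls x.a) ≤ ⟨x.S, x.tg⟩ := h.le
  obtain ⟨ψ, c, e1, e2⟩ := ex_psi f le h
  obtain ⟨ψ', c', k⟩ := st_swap (Dm m) (LC.Rq le ⋙ LC.act _ ⋙ wr Lab (PhP x.a)) (KL.obj y) ψ
    fun Λ => c Λ (2 * m)
  refine (it_gd x.a m).fib (it_add x.a m) le (RF.map (SP.mdI ((KP m).map (incl h.le))))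
    (SP.md_zero ((KP m).map (incl h.le))) (kp_em h.le m).se
    ((dgIso PT.fr ((LC.Rq le ⋙ LC.act _ ⋙ wr Lab (PhP x.a)) ⋙ St _ (Dm m))).hom ≫ RF.map ψ')
    (RF.map e.md) (fun n => ?_) (fun n l => ?_) ?_
  · refine (congrArg (_ ≫ ·) (Category.id_comp _)).trans ((PT.fr.map_comp _ _).symm.trans
      ((congrArg PT.fr.map ?_).trans (PT.fr.map_comp _ _)))
    rw [k]
    exact e1 ((Dm m).obj n) n
  · refine (congrArg (_ ≫ ·) (Category.id_comp _)).trans ((PT.fr.map_comp _ _).symm.trans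
      (PT.fr_ext fun σ => (PT.map_cl _ σ).trans (PT.cl_zero _ ?_)))
    rw [k]
    exact e2 ((Dm m).obj n) n l.1 σ
  · rw [CC.map_comp]
    exact (cn_of_quasiIso _ _).comp c'

end Pool.Agent.Lib.MP_5d3e93_al.A2
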