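import Pool.Agent.Lib.MP_5d3e93_al.Br.Kp
import Pool.Agent.Lib.MP_5d3e93_al.Br.KZ
import Pool.Agent.Lib.MP_5d3e93_al.Br.Kl

/-! The iterated S-construction is a theory on simplicial diagrams. -/

open CategoryTheory Function Opposite Simplicial

namespace Pool.Agent.Lib.MP_5d3e93_al.Br

open Gr Am A2 SP SPr

universe v u

theorem kj_kp (m : ℕ) : KJ (KP.{v, u} m) (2 * m) where
  deq f h := kp_deq f h m
  nl f h := kp_nl f h m
  em h := kp_em h m
  loc {a b _ S S' _ _ _ f} h := kp_loc (⟨f, h.maps⟩ : Tp.mk a S ⟶ Tp.mk b S') h m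
  un le mo c n s := (kp_un _ mo le c m n {s}).imp fun _ h => h s (Finset.mem_singleton_self s)

/-- The iterated S-construction has the homological properties of K-theory. -/
theorem ki_kp : KI A2.kp.{v, u} where
  deq f h m := (kj_kp m).deq f h
  z := ⟨_, gw_two 1, fun x h m => match m with
    | 0 => nofun
    | m + 1 => KJ.z (r := 2 * m + 1) (kj_kp (m + 1)) x h⟩
  nl f h m := (kj_kp m).nl f h
  em h m := (kj_kp m).em h
  loc := ⟨_, gw_two 0, fun h m => (kj_kp m).loc h⟩
  un le mo c m := (kj_kp m).un le mo c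

theorem kt_kp : KT (wh A2.kp.{v, u} ⋙ PP.D) := ki_kp.kt

theorem ht_kp : HT (wh A2.kp.{v, u} ⋙ PP.D) := kt_ht _

end Pool.Agent.Lib.MP_5d3e93_al.Br
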