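import Pool.Agent.Lib.MP_5d3e93_al.Br.EndA
import Pool.Agent.Lib.MP_5d3e93_al.Br.GlK
import Pool.Agent.Lib.MP_5d3e93_al.Br.KpA

/-! The assembly map is bijective when the K-groups of the obstruction categories vanish. -/

open CategoryTheory Limits
open scoped Pointwise

namespace Pool.Agent.Lib.MP_5d3e93_al.As

universe v u

theorem bridge {G : Type v} [Group G] (S : GS G) [Nonempty S.V]
    (hl : ∀ s : Set S.V, s.Finite → s.Nonempty → ∃ x : S.V, ∀ g : G, g • s = s → g • x = x)
    (hK : ∀ (D : Type (max 1 u v)) [Category.{v} D] [Preadditive D] [HasBinaryBiproducts D]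
      [HasZeroObject D] (σ : Act G D), (∀ s : S.V, Swd σ fun g => g • s = s) → KZ σ)
    {A : AC.{v, u}} (ρ : Act G A.C) (n : ℤ) :
    Bij (Functor.whiskerRight (pr (cech S)) (star ρ)) n :=
  bridge_of.{v, u} Br.kt_kp.{v, max 1 u v} Br.ht_kp.{v, max 1 u v} tau.{v, max u v}
    tau_bij.{v, max u v} S hl hK ρ n

end Pool.Agent.Lib.MP_5d3e93_al.As
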