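import Pool.Agent.Lib.MP_5d3e93_al.Br.Tp

/-! Directed unions of prespectra. -/

open CategoryTheory Topology Set unitInterval Function Filter

namespace Pool.Agent.Lib.MP_5d3e93_al.Br

universe u v

open Ps

theorem un_lift {K : Type*} [TopologicalSpace K] {A X : Ps.{u}} {i : A ⟶ X} (h : IsEmbedding i.1)
    (f : C(K, X.X)) (e : range f ⊆ range i.1) : ∃ g : C(K, A.X), ∀ t, i.1 (g t) = f t := by
  choose g hg using fun t => e ⟨t, rfl⟩
  exact ⟨⟨g, h.isInducing.continuous_iff.2 (f.continuous.congr fun t => (hg t).symm)⟩, hg⟩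

namespace Pre

variable {J : Type v} [Preorder J] {W W' : J → Pre.{u}} {T T' : Pre.{u}}
  {v : ∀ {d e}, d ≤ e → (W d ⟶ W e)} {w : ∀ d, W d ⟶ T}
  {v' : ∀ {d e}, d ≤ e → (W' d ⟶ W' e)} {w' : ∀ d, W' d ⟶ T'}

/-- The groups of `T` are the colimit of the groups of the `W d`. -/
structure Un (v : ∀ {d e}, d ≤ e → (W d ⟶ W e)) (w : ∀ d, W d ⟶ T) : Prop where
  vv : ∀ {d e f} (h : d ≤ e) (k : e ≤ f), v h ≫ v k = v (h.trans k)
  vw : ∀ {d e} (h : d ≤ e), v h ≫ w e = w d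
  surj : ∀ n x, ∃ d y, map n (w d) y = x
  zero : ∀ n d y, map n (w d) y = 0 → ∃ e, ∃ h : d ≤ e, map n (v h) y = 0

theorem Un.of_cpt [Nonempty J] (vv : ∀ {d e f} (h : d ≤ e) (k : e ≤ f), v h ≫ v k = v (h.trans k))
    (vw : ∀ {d e} (h : d ≤ e), v h ≫ w e = w d) (emb : ∀ d m, IsEmbedding ((w d).1 m).1)
    (cpt : ∀ m d K, IsCompact K → ∃ e, d ≤ e ∧ K ⊆ range ((w e).1 m).1) : Un @v w := by
  refine ⟨vv, vw, fun n x => ?_, fun n d y k => ?_⟩
  · obtain ⟨m, j, h, y, rfl⟩ := (ex_of x).exists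
    induction y using cl_ind with | _ f
    obtain ⟨e, -, k⟩ := cpt m (Classical.arbitrary J) _ (isCompact_range f.1.continuous)
    obtain ⟨g, hg⟩ := un_lift (emb e m) f.1 k
    refine ⟨e, (W e).of h (cl ⟨g, fun t b => (emb e m).injective ?_⟩), ?_⟩
    · rw [hg, ((w e).1 m).2]
      exact f.2 t b
    · rw [map_of, pm_cl]
      exact congrArg (fun f => T.of h (cl f)) (GenLoop.ext _ _ hg)
  · obtain ⟨m, j, h, y, rfl, o⟩ := (ker _ k).exists
    induction y using cl_ind with | _ f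
    obtain ⟨H, H₀, H₁, H₂⟩ := cl_zero (f := lm ((w d).1 m) f) o
    obtain ⟨e, l, k⟩ := cpt m d _ (isCompact_range H.continuous)
    obtain ⟨g, hg⟩ := un_lift (emb e m) H k
    refine ⟨e, l, ?_⟩
    rw [map_of, pm_cl, cl_eq.2 (ht_of (g := GenLoop.const) g (fun t => (emb e m).injective ?_)
      (fun t => (emb e m).injective ?_) fun s t b => (emb e m).injective ?_), cl_const, map_zero]
    · rw [hg, H₀, ← vw l]; rfl
    · rw [hg, H₁]; exact ((w e).1 m).2.symm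
    · rw [hg, H₂ s t b]; exact ((w e).1 m).2.symm

theorem spm_comp {P Q R : Pre.{u}} (f : P ⟶ Q) (g : Q ⟶ R) : spm f ≫ spm g = spm (f ≫ g) :=
  ext fun _ => (sp_comp _ _).symm

theorem Un.S (h : Un @v w) : Un (fun l => spm (v l)) fun d => spm (w d) := by
  refine ⟨fun a b => by rw [spm_comp, h.vv], fun a => by rw [spm_comp, h.vw], fun n x => ?_,
    fun n d x k => ?_⟩ <;> obtain ⟨n, rfl⟩ : ∃ k, n = k + 1 := ⟨n - 1, by omega⟩ <;>
    obtain ⟨x, rfl⟩ := s_bij.2 x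
  · obtain ⟨d, y, rfl⟩ := h.surj n x
    exact ⟨d, _, (s_nat _ y).symm⟩
  · rw [← s_nat, map_eq_zero_iff _ s_bij.1] at k
    obtain ⟨e, l, k⟩ := h.zero n d x k
    exact ⟨e, l, by rw [← s_nat, k, map_zero]⟩

theorem cf_comp {A A' A'' X X' X'' : Pre.{u}} {i : A ⟶ X} {i' : A' ⟶ X'} {i'' : A'' ⟶ X''}
    {a : A ⟶ A'} {b : X ⟶ X'} {a' : A' ⟶ A''} {b' : X' ⟶ X''} {c d} (e : i ≫ b = a ≫ i')
    (e' : i' ≫ b' = a' ≫ i'') (e'' : i ≫ d = c ≫ i'') (p : a ≫ a' = c) (q : b ≫ b' = d) :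
    cf e ≫ cf e' = cf e'' := by
  subst p q
  exact ext fun _ => C_ext (fun _ => rfl) fun _ _ => rfl

/-- Unions pass to cones. -/
theorem Un.C [IsDirected J (· ≤ ·)] (h : Un @v w) (h' : Un @v' w') {α : ∀ d, W d ⟶ W' d}
    {β : T ⟶ T'} (a : ∀ {d e} (l : d ≤ e), α d ≫ v' l = v l ≫ α e)
    (b : ∀ d, α d ≫ w' d = w d ≫ β) : Un (fun l => cf (a l)) fun d => cf (b d) := by
  have vv : ∀ {d e f} (l : d ≤ e) (k : e ≤ f), cf (a l) ≫ cf (a k) = cf (a (l.trans k)) :=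
    fun l k => cf_comp _ _ _ (h.vv l k) (h'.vv l k)
  have vw : ∀ {d e} (l : d ≤ e), cf (a l) ≫ cf (b e) = cf (b d) :=
    fun l => cf_comp _ _ _ (h.vw l) (h'.vw l)
  refine ⟨vv, vw, fun n x => ?_, fun n d x k => ?_⟩
  · obtain ⟨d, z, p⟩ := h.S.surj n (map n (ccm β) x)
    obtain ⟨e, l, q⟩ := h'.S.zero n d (map n (spm (α d)) z) (by
      rw [← map_comp, spm_comp, b, ← spm_comp, map_comp, p]
      exact (exact₃ β _).2 ⟨x, rfl⟩)
    rw [← map_comp, spm_comp, a, ← spm_comp, map_comp] at q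
    obtain ⟨x', q⟩ := (exact₃ _ _).1 q
    obtain ⟨y, r⟩ := (exact₂ β (x - map n (cf (b e)) x')).1 (by
      rw [map_sub, map_sq (cf_ccm _), q, ← map_comp, spm_comp, h.vw, p, sub_self])
    obtain ⟨f, y, rfl⟩ := h'.surj n y
    obtain ⟨g, s, t⟩ := exists_ge_ge e f
    refine ⟨g, map n (cf (a s)) x' + map n (cim _) (map n (v' t) y), ?_⟩
    rw [map_add, ← map_comp, vw, map_sq (cim_cf _), ← map_comp (v' t), h'.vw, r, add_sub_cancel]
  · obtain ⟨e, l, p⟩ := h.S.zero n d (map n (ccm _) x) (by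
      rw [← map_sq (cf_ccm (b d)), k, map_zero])
    rw [← map_sq (cf_ccm (a l))] at p
    obtain ⟨y, p⟩ := (exact₂ _ _).1 p
    obtain ⟨z, q⟩ := (exact₁ β (map n (w' e) y)).1 (by
      rw [← map_sq (cim_cf (b e)), p, ← map_comp, vw, k])
    obtain ⟨f, z, rfl⟩ := h.surj n z
    obtain ⟨g, s, t⟩ := exists_ge_ge e f
    obtain ⟨c, r, o⟩ := h'.zero n g (map n (v' s) y - map n (α g) (map n (v t) z)) (by
      rw [map_sub, ← map_comp, h'.vw, map_sq (b g), ← map_comp (v t), h.vw, q, sub_self])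
    refine ⟨c, l.trans (s.trans r), ?_⟩
    rw [map_sub, sub_eq_zero, ← map_comp, h'.vv, map_sq (a r)] at o
    rw [← vv l (s.trans r), map_comp, ← p, map_sq (cim_cf _), o]
    exact (exact₁ _ _).2 ⟨_, rfl⟩

/-- A class that dies in the union of a sequence dies along the sequence. -/
theorem Un.dies {W : ℕ → Pre.{u}} {v : ∀ {d e}, d ≤ e → (W d ⟶ W e)} {w : ∀ d, W d ⟶ T}
    (h : Un @v w) {n : ℤ} {p : ∀ d, (W d).π n → Prop} (h0 : ∀ d, p d 0)
    (hs : ∀ d y, p (d + 1) (map n (v d.le_succ) y) → p d y) {d y} (k : map n (w d) y = 0) :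
    p d y := by
  obtain ⟨e, l, k⟩ := h.zero n d y k
  have : ∀ f (l : d ≤ f), p (f + 1) (map n (v (l.trans f.le_succ)) y) → p d y := fun f l => by
    induction f, l using Nat.le_induction with
    | base => exact hs d y
    | succ f l ih => exact fun k => ih (hs _ _ (by rwa [← map_comp, h.vv]))
  exact this e l (by rw [← h.vv l e.le_succ, map_comp, k, map_zero]; exact h0 _)

end Pre

end Pool.Agent.Lib.MP_5d3e93_al.Br
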