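import Pool.Agent.Lib.MP_5d3e93_al.Br.FamA
import Pool.Agent.Lib.MP_5d3e93_al.Br.Cm
import Pool.Agent.Lib.MP_5d3e93_al.Br.Un

/-! Theories on diagrams of marked ambient categories. -/

open CategoryTheory Limits Function Simplicial

namespace Pool.Agent.Lib.MP_5d3e93_al.Br

open Gr Am A2

universe w v u v' u' v'' u''

/-- The inclusion of a class followed by the localisation at it. -/
inductive Lc3 : ∀ {A B C : Tp.{v, u}}, (A ⟶ B) → (B ⟶ C) → Prop where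
  | mk {a : Am.{v, u}} {N S : ObjectProperty a.D} [Tg N] [Tg S] {C : Tp.{v, u}}
      (i : Tp.mk a N ⟶ Tp.mk a S) (q : Tp.mk a S ⟶ C) (hi : i.f = a.idm)
      (h : Gr.Loc q.f.D N S C.S) : Lc3 i q

theorem Lc3.kill {A B C : Tp.{v, u}} {i : A ⟶ B} {q : B ⟶ C} (h : Lc3 i q) :
    A.S ≤ Zr.inverseImage (i ≫ q).f.D := by
  obtain ⟨⟨i, a⟩, q, rfl, h⟩ := h
  exact fun X b => h.kill X b

/-- An increasing sequence of classes and its union. -/
inductive Un3 : ∀ {W : ℕ → Tp.{v, u}} {Y : Tp.{v, u}}, (∀ r, W r ⟶ Y) → Prop where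
  | mk {a : Am.{v, u}} {N : ℕ → ObjectProperty a.D} {S : ObjectProperty a.D} [∀ r, Tg (N r)] [Tg S]
      (w : ∀ r, Tp.mk a (N r) ⟶ Tp.mk a S) (hw : ∀ r, (w r).f = a.idm) (m : Monotone N)
      (h : ∀ X, S X → ∃ r, N r X) : Un3 w

variable {J : Type u'} [Category.{v'} J] {J' : Type u''} [Category.{v''} J']

/-- The properties of K-theory of diagrams that the chase uses. -/
structure KT (K : (J ⥤ Tp.{v, u}) ⥤ Pre.{w}) : Prop where
  deq : ∀ {X Y : J ⥤ Tp.{v, u}} (f : X ⟶ Y),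
    (∀ p, Deq (f.app p).f.D (X.obj p).S (Y.obj p).S) → ∀ n, Bijective (Pre.map n (K.map f))
  z : ∀ X : J ⥤ Tp.{v, u}, (∀ p, Z (X.obj p).S) → (K.obj X).Acy
  nl : ∀ {X Y W : J ⥤ Tp.{v, u}} (i : X ⟶ Y) (q : Y ⟶ W),
    (∀ p, (X.obj p).S ≤ Zr.inverseImage ((i ≫ q).app p).f.D) → Pre.Nl (K.map i) (K.map q)
  loc : ∀ {X Y W : J ⥤ Tp.{v, u}} (i : X ⟶ Y) (q : Y ⟶ W), (∀ p, Lc3 (i.app p) (q.app p)) →
    ∀ (h : Pre.Nl (K.map i) (K.map q)) n, Bijective (Pre.map n h.col)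
  un : ∀ {W : ℕ → J ⥤ Tp.{v, u}} {Y : J ⥤ Tp.{v, u}} (v : ∀ {d e}, d ≤ e → (W d ⟶ W e))
    (w : ∀ d, W d ⟶ Y), (∀ {d e f} (h : d ≤ e) (k : e ≤ f), v h ≫ v k = v (h.trans k)) →
    (∀ {d e} (h : d ≤ e), v h ≫ w e = w d) → (∀ p, Un3 fun d => (w d).app p) →
    Pre.Un (fun l => K.map (v l)) fun d => K.map (w d)

/-- Simplicially homotopic maps induce the same map. -/
def HT (K : (SimplexCategoryᵒᵖ ⥤ Tp.{v, u}) ⥤ Pre.{w}) : Prop :=
  ∀ {X Y : SimplexCategoryᵒᵖ ⥤ Tp.{v, u}} (f g : X ⟶ Y)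
    (H : ∀ p : SimplexCategoryᵒᵖ, (p.unop ⟶ ⦋1⦌) → (X.obj p ⟶ Y.obj p)),
    (∀ p q (θ : p ⟶ q) a, H p a ≫ Y.map θ = X.map θ ≫ H q (θ.unop ≫ a)) →
    (∀ p, H p (SimplexCategory.const _ _ 0) = f.app p) →
    (∀ p, H p (SimplexCategory.const _ _ 1) = g.app p) →
    ∀ n z, Pre.map n (K.map f) z = Pre.map n (K.map g) z

/-- Change of the index category. -/
theorem KT.pre {K : (J ⥤ Tp.{v, u}) ⥤ Pre.{w}} (h : KT K) (X : J ⥤ J') :
    KT ((Functor.whiskeringLeft J J' _).obj X ⋙ K) where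
  deq _ a := h.deq _ fun _ => a _
  z _ a := h.z _ fun _ => a _
  nl _ _ a := h.nl _ _ fun _ => a _
  loc _ _ a := h.loc _ _ fun _ => a _
  un v w a b c := h.un (fun l => X.whiskerLeft (v l)) (fun d => X.whiskerLeft (w d))
    (fun l k => congrArg X.whiskerLeft (a l k)) (fun l => congrArg X.whiskerLeft (b l)) fun _ => c _

/-- The cone of a natural transformation. -/
def cnF {D : Type u'} [Category.{v'} D] {K K' : D ⥤ Pre.{w}} (α : K ⟶ K') : D ⥤ Pre.{w} where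
  obj X := Pre.C (α.app X)
  map f := Pre.cf (α.naturality f).symm
  map_id X := Pre.ext fun m => Ps.C_ext
    (fun x => congrArg (fun f : K'.obj X ⟶ _ => (Ps.ci ((α.app X).1 m)).1 ((f.1 m).1 x)) (K'.map_id X))
    fun t x => congrArg (fun f : K.obj X ⟶ _ => Ps.cn ((α.app X).1 m) t ((f.1 m).1 x)) (K.map_id X)
  map_comp f g := (Pre.cf_comp _ _ _ (K.map_comp f g).symm (K'.map_comp f g).symm).symm

theorem KT.cn {K K' : (J ⥤ Tp.{v, u}) ⥤ Pre.{w}} (h : KT K) (h' : KT K') (α : K ⟶ K') :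
    KT (cnF α) where
  deq f a := Pre.cf_bij' (α.naturality f).symm (h.deq f a) (h'.deq f a)
  z X a := (h.z X a).C (h'.z X a)
  nl i q a := (h.nl i q a).C (h'.nl i q a) (α.naturality i) (α.naturality q)
  loc i q a _ := by
    have k := fun p => (a p).kill
    exact (h.nl i q k).col_C (h'.nl i q k) (α.naturality i) (α.naturality q) (h.loc i q a _)
      (h'.loc i q a _)
  un v w a b c := (h.un v w a b c).C (h'.un v w a b c) (fun l => (α.naturality (v l)).symm)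
    fun d => (α.naturality (w d)).symm

end Pool.Agent.Lib.MP_5d3e93_al.Br
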