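import Pool.Agent.Lib.MP_5d3e93_al.Br.Hq

/-! Pairs of sets and relative chains. -/

open CategoryTheory Limits Opposite Simplicial AlgebraicTopology

namespace Pool.Agent.Lib.MP_5d3e93_al.Br

universe u v

/-- A set with a subset. -/
structure PT where
  X : Type u
  A : Set X

namespace PT

instance : Category PT.{u} where
  Hom a b := {f : a.X → b.X // Set.MapsTo f a.A b.A}
  id a := ⟨id, Set.mapsTo_id _⟩
  comp f g := ⟨g.1 ∘ f.1, g.2.comp f.2⟩

theorem hom_ext {a b : PT.{u}} {f g : a ⟶ b} (h : ∀ x, f.1 x = g.1 x) : f = g :=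
  Subtype.ext (funext h)

/-- The total set. -/
def tot : PT.{u} ⥤ Type u where
  obj a := a.X
  map f := TypeCat.ofHom f.1

/-- The subset. -/
def sub : PT.{u} ⥤ Type u where
  obj a := a.A
  map f := TypeCat.ofHom f.2.restrict

/-- The free abelian group on the total set modulo the subset. -/
noncomputable def fr : PT.{u} ⥤ ModuleCat.{u} ℤ where
  obj a := ModuleCat.of ℤ ((a.X →₀ ℤ) ⧸ Finsupp.supported ℤ ℤ a.A)
  map f := ModuleCat.ofHom (Submodule.mapQ _ _ (Finsupp.lmapDomain ℤ ℤ f.1)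
    ((Finsupp.supported_comap_lmapDomain ℤ ℤ f.1 _).trans' (Finsupp.supported_mono f.2)))
  map_id _ := ModuleCat.hom_ext (Submodule.linearMap_qext _ (LinearMap.ext fun _ =>
    congrArg Submodule.Quotient.mk Finsupp.mapDomain_id))
  map_comp f g := ModuleCat.hom_ext (Submodule.linearMap_qext _ (LinearMap.ext fun _ =>
    congrArg Submodule.Quotient.mk (Finsupp.mapDomain_comp (f := f.1) (g := g.1))))

/-- The class of an element. -/
noncomputable def cl (a : PT.{u}) (x : a.X) : fr.obj a := Submodule.Quotient.mk (Finsupp.single x 1)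

theorem map_cl {a b : PT.{u}} (f : a ⟶ b) (x : a.X) : fr.map f (a.cl x) = b.cl (f.1 x) :=
  congrArg Submodule.Quotient.mk Finsupp.mapDomain_single

theorem cl_zero (a : PT.{u}) {x : a.X} (h : x ∈ a.A) : a.cl x = 0 :=
  (Submodule.Quotient.mk_eq_zero _).2 (Finsupp.single_mem_supported ℤ 1 h)

theorem fr_ext {a : PT.{u}} {M : ModuleCat.{u} ℤ} {f g : fr.obj a ⟶ M}
    (h : ∀ x, f (a.cl x) = g (a.cl x)) : f = g :=
  ModuleCat.hom_ext (Submodule.linearMap_qext _ (Finsupp.lhom_ext' fun x => LinearMap.ext_ring (h x)))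

/-- Maps out of the relative group. -/
noncomputable def desc (a : PT.{u}) {M : ModuleCat.{u} ℤ} (f : a.X → M) (h : ∀ x ∈ a.A, f x = 0) :
    fr.obj a ⟶ M :=
  ModuleCat.ofHom (Submodule.liftQ _ (Finsupp.linearCombination ℤ f) (by
    rw [Finsupp.supported_eq_span_single, Submodule.span_le]
    rintro _ ⟨x, k, rfl⟩
    simp [h x k]))

theorem desc_cl (a : PT.{u}) {M : ModuleCat.{u} ℤ} (f : a.X → M) (h : ∀ x ∈ a.A, f x = 0)
    (x : a.X) : a.desc f h (a.cl x) = f x :=
  (Finsupp.linearCombination_single ℤ 1 x).trans (M.isModule.one_smul _)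

end PT

/-- Simplicial pairs. -/
abbrev SP : Type (u + 1) := SimplicialObject PT.{u}

/-- Applying a functor in every degree. -/
abbrev wh {C : Type*} [Category C] {D : Type*} [Category D] (F : C ⥤ D) :
    SimplicialObject C ⥤ SimplicialObject D := (Functor.whiskeringRight _ _ _).obj F

/-- The relative simplicial abelian group. -/
noncomputable abbrev RF : SP.{u} ⥤ SA.{u} := wh PT.fr

/-- Relative chains. -/
noncomputable abbrev RC : SP.{u} ⥤ Chc.{u} := RF ⋙ CC

/-- The total simplicial set. -/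
abbrev SP.tot : SP.{u} ⥤ SSet.{u} := wh PT.tot

/-- The simplicial subset. -/
abbrev SP.sub : SP.{u} ⥤ SSet.{u} := wh PT.sub

/-- A simplicial set with a subcomplex. -/
def SP.mk (X : SSet.{u}) (A : ∀ n, Set (X.obj n))
    (h : ∀ {n m} (θ : n ⟶ m), Set.MapsTo (X.map θ) (A n) (A m)) : SP.{u} where
  obj n := ⟨X.obj n, A n⟩
  map θ := ⟨X.map θ, h θ⟩
  map_id n := PT.hom_ext fun x => by simp; rfl
  map_comp θ η := PT.hom_ext fun x => by simp; rfl

/-- A map of pairs. -/
def SP.hom {P Q : SP.{u}} (f : SP.tot.obj P ⟶ SP.tot.obj Q)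
    (h : ∀ n, Set.MapsTo (f.app n) (P.obj n).A (Q.obj n).A) : P ⟶ Q where
  app n := ⟨f.app n, h n⟩
  naturality _ _ θ := PT.hom_ext fun x => ConcreteCategory.congr_hom (f.naturality θ) x

theorem SP.tot_mk (X : SSet.{u}) (A) (h) : SP.tot.obj (SP.mk X A h) = X := rfl

theorem SP.tot_hom {P Q : SP.{u}} (f : SP.tot.obj P ⟶ SP.tot.obj Q) (h) :
    SP.tot.map (SP.hom f h) = f := rfl

end Pool.Agent.Lib.MP_5d3e93_al.Br
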