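import Pool.Agent.Lib.MP_5d3e93_al.Br.Lnk
import Pool.Agent.Lib.MP_5d3e93_al.Br.KT
import Pool.Agent.Lib.MP_5d3e93_al.Br.Rel

/-! Reduction of the statement to a theory on diagrams of marked ambient categories. -/

open CategoryTheory Limits Function

namespace Pool.Agent.Lib.MP_5d3e93_al.As

open Br Gr Am A2

universe v u u'

variable {K : (SimplexCategoryᵒᵖ ⥤ Tp.{v, u'}) ⥤ Pre.{max v u}} (hK : KT K)
  {M : AC.{v, u} ⥤ Tp.{v, u'}} (z : ∀ B, Z (M.obj (cone.obj B)).S)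
  (o : ∀ B, (M.obj B).S ≤ Zr.inverseImage (M.map (incl.app B) ≫ M.map (proj.app B)).f.D)
include hK z o

theorem ft_ok' (D : SimplexCategoryᵒᵖ ⥤ AC.{v, u}) : (((ft D).map (wh M)).map K).Ok :=
  ⟨fun _ => hK.nl _ _ fun _ => o _, fun _ => hK.z _ fun _ => z _⟩

theorem bij_of_kt (τ : KR.{v, u} ⟶ wh M ⋙ K) (hτ : ∀ D n, Bijective (Pre.map n (τ.app D)))
    {D D' : SimplexCategoryᵒᵖ ⥤ AC.{v, u}} (φ : D ⟶ D')
    {T T' : Ft (SimplexCategoryᵒᵖ ⥤ Tp.{v, u'})} (f : T.Hom T') (g : T.Hom ((ft D).map (wh M)))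
    (g' : T'.Hom ((ft D').map (wh M)))
    (ea : ∀ k, f.a k ≫ g'.a k = g.a k ≫ ((ftm φ).map (wh M)).a k)
    (eb : ∀ k, f.b k ≫ g'.b k = g.b k ≫ ((ftm φ).map (wh M)).b k)
    (a : ∀ l n, Bijective (Pre.map n (K.map (g.a l))))
    (b : ∀ l n, Bijective (Pre.map n (K.map (g'.a l)))) {h k} (c : ((f.map K).tm h k).C.Z)
    (n : ℤ) : Bij φ n :=
  have e (D : SimplexCategoryᵒᵖ ⥤ AC.{v, u}) : ((ft D).map KR).Ok := ft_ok fun l =>
    Ft.acy_of_bij (τ.app _) (fun n => (hτ _ n).1) ((ft_ok' hK z o D).2 l)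
  bij_of_z φ (e D) (e D') ((Ft.z_nat τ (ftm φ) _ _ (ft_ok' hK z o D) (ft_ok' hK z o D')
    (fun _ => hτ _) fun _ => hτ _).2 ((Ft.z_sq K g g' ea eb h k _ _ a b).1 c)) n

end Pool.Agent.Lib.MP_5d3e93_al.As
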