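import Pool.Agent.Lib.MP_5d3e93_al.Br.Ev
import Pool.Agent.Lib.MP_5d3e93_al.Br.CtI
import Pool.Agent.Lib.MP_5d3e93_al.K.Tw

/-! Swindles that keep a class of objects. -/

open CategoryTheory Limits

namespace Pool.Agent.Lib.MP_5d3e93_al.Br

open Gr Am

universe v u

variable {G : Type v} [Group G]

/-- Swindles that keep a class of objects. -/
def SwP {C : Type u} [Category.{v} C] [Preadditive C] (σ : Act G C) (P : ObjectProperty C) : Prop :=
  ∃ (Φ : C ⥤ C) (_ : Φ.Additive) (i : ∀ A, A ⟶ Φ.obj A) (r : ∀ A, Φ.obj A ⟶ A)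
    (i' r' : ∀ A, Φ.obj A ⟶ Φ.obj A), (∀ A, r A ≫ i A + r' A ≫ i' A = 𝟙 _) ∧
    (∀ (A B : C) (f : A ⟶ B), i A ≫ Φ.map f ≫ r B = f ∧ i A ≫ Φ.map f ≫ r' B = 0 ∧
      i' A ≫ Φ.map f ≫ r B = 0 ∧ i' A ≫ Φ.map f ≫ r' B = Φ.map f) ∧
    (∀ g, σ.F g ⋙ Φ = Φ ⋙ σ.F g ∧ ∀ A, HEq ((σ.F g).map (r A)) (r ((σ.F g).obj A)) ∧
      HEq ((σ.F g).map (r' A)) (r' ((σ.F g).obj A))) ∧ P ≤ P.inverseImage Φ

section
variable {S : Type v} {C : Type u} [Category.{v} C] [Preadditive C]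

/-- The same positions with other coefficients. -/
abbrev evS_re (X : Ct S C) (B : X.ι → C) : Ct S C := ⟨X.σ, X.hσ, X.ι, B, X.π, X.sup, X.fin⟩

/-- Diagonal matrices. -/
noncomputable def evS_dm (X : Ct S C) {B B' : X.ι → C} (a : ∀ i, B i ⟶ B' i) :
    evS_re X B ⟶ evS_re X B' :=
  Ct.alg (X := evS_re X B) (Y := evS_re X B') (fun i j => i = j)
    (fun i _ k => a i ≫ eqToHom (congrArg B' k)) ⟨0, fun _ _ k => k ▸ Ct.Nr.refl _ _⟩

variable {X : Ct S C} {B B' : X.ι → C} (a : ∀ i, B i ⟶ B' i)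

theorem evS_eq (i : X.ι) : (evS_dm X a).e i i = a i :=
  (Ct.alg_of (X := evS_re X B) (Y := evS_re X B') (R := fun i j => i = j) rfl).trans
    (Category.comp_id _)

theorem evS_ne {i j : X.ι} (h : i ≠ j) : (evS_dm X a).e i j = 0 :=
  Ct.alg_not (X := evS_re X B) (Y := evS_re X B') (R := fun i j => i = j) h

theorem evS_comp {Z : Ct S C} (ψ : evS_re X B' ⟶ Z) (i l) :
    (evS_dm X a ≫ ψ).e i l = a i ≫ ψ.e i l :=
  (Ct.alg_comp (X := evS_re X B) (Y := evS_re X B') (R := fun i j => i = j) rfl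
    (fun _ k => k.symm) ψ l).trans (congrArg (· ≫ _) (Category.comp_id _))

theorem evS_comp' {Z : Ct S C} (ψ : Z ⟶ evS_re X B) (l j) :
    (ψ ≫ evS_dm X a).e l j = ψ.e l j ≫ a j :=
  (Ct.comp_alg (Y := evS_re X B) (Z := evS_re X B') (R := fun i j => i = j) rfl
    (fun _ k => k) ψ l).trans (congrArg (_ ≫ ·) (Category.comp_id _))

theorem evS_three {Y : Ct S C} {D D' : Y.ι → C} (b : ∀ i, D i ⟶ D' i)
    (ψ : evS_re X B' ⟶ evS_re Y D) (i j) :
    (evS_dm X a ≫ ψ ≫ evS_dm Y b).e i j = a i ≫ ψ.e i j ≫ b j :=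
  (evS_comp ..).trans (congrArg (_ ≫ ·) (evS_comp' ..))

theorem evS_heq {D D' : X.ι → C} (e : B = D) (e' : B' = D') (f : evS_re X B ⟶ evS_re X B')
    (b : ∀ i, D i ⟶ D' i) (h : ∀ i, HEq (f.e i i) (b i)) (k : ∀ i j, i ≠ j → f.e i j = 0) :
    HEq f (evS_dm X b) := by
  subst e e'
  refine heq_of_eq (Ct.hom_ext fun i j => ?_)
  by_cases c : i = j
  · subst c
    exact (eq_of_heq (h i)).trans (evS_eq b i).symm
  · exact (k i j c).trans (evS_ne b c).symm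

end

/-- The swindle of the coefficients acts on controlled objects. -/
theorem swp_ct {C : Type u} [Category.{v} C] [Preadditive C] {ρ : Act G C}
    (h : Swd ρ fun _ => True) (S : Type v) [MulAction G S] (n : ℕ) :
    SwP (Ct.act S ρ) (Ct.Lv n) := by
  obtain ⟨Φ, b, i, r, i', r', c, d, e⟩ := h
  refine ⟨Ct.ind Φ b id Function.bijective_id, inferInstance,
    fun X => evS_dm X (B := X.B) fun j => i (X.B j), fun X => evS_dm X (B' := X.B) fun j => r (X.B j),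
    fun X => evS_dm X fun j => i' (X.B j), fun X => evS_dm X fun j => r' (X.B j),
    fun X => Ct.hom_ext fun j l => ?_,
    fun X Y f => ⟨Ct.hom_ext fun j l => ?_, Ct.hom_ext fun j l => ?_, Ct.hom_ext fun j l => ?_,
      Ct.hom_ext fun j l => ?_⟩, fun g => ⟨?_, fun X => ⟨?_, ?_⟩⟩, fun X a => a⟩
  · refine (congrArg₂ (· + ·) (evS_comp (X := X) _ _ j l) (evS_comp (X := X) _ _ j l)).trans ?_
    by_cases k : j = l
    · subst k
      rw [evS_eq, evS_eq]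
      exact (c _).trans (Ct.id_e (X := evS_re X fun j => Φ.obj (X.B j)) j).symm
    · rw [evS_ne (X := X) _ k, evS_ne (X := X) _ k]
      exact ((congrArg₂ (· + ·) comp_zero comp_zero).trans (add_zero _)).trans
        (Ct.id_ne (X := evS_re X fun j => Φ.obj (X.B j)) k).symm
  · exact (evS_three (X := X) (Y := Y) _ _ _ j l).trans (d _ _ (f.e j l)).1
  · exact (evS_three (X := X) (Y := Y) _ _ _ j l).trans (d _ _ (f.e j l)).2.1
  · exact (evS_three (X := X) (Y := Y) _ _ _ j l).trans (d _ _ (f.e j l)).2.2.1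
  · exact (evS_three (X := X) (Y := Y) _ _ _ j l).trans (d _ _ (f.e j l)).2.2.2
  · have := ρ.additive g
    exact Ct.ind_congr (F := ρ.F g ⋙ Φ) (F' := Φ ⋙ ρ.F g) (f := (g⁻¹ • ·)) (f' := (g⁻¹ • ·))
      (e g trivial).1 rfl inferInstance (MulAction.bijective _) inferInstance
      (MulAction.bijective _)
  · have := ρ.additive g
    exact evS_heq (X := ((Ct.act S ρ).F g).obj X)
      (funext fun j => (Functor.congr_obj (e g trivial).1 (X.B j)).symm) rfl _ _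
      (fun j => (heq_of_eq (congrArg (ρ.F g).map (evS_eq (X := X) _ j))).trans
        ((e g trivial).2 _).1)
      fun j l k => (congrArg (ρ.F g).map (evS_ne (X := X) _ k)).trans ((ρ.F g).map_zero _ _)
  · have := ρ.additive g
    exact evS_heq (X := ((Ct.act S ρ).F g).obj X)
      (funext fun j => (Functor.congr_obj (e g trivial).1 (X.B j)).symm)
      (funext fun j => (Functor.congr_obj (e g trivial).1 (X.B j)).symm) _ _
      (fun j => (heq_of_eq (congrArg (ρ.F g).map (evS_eq (X := X) _ j))).trans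
        ((e g trivial).2 _).2)
      fun j l k => (congrArg (ρ.F g).map (evS_ne (X := X) _ k)).trans ((ρ.F g).map_zero _ _)

theorem evS_sw {D : Type (max u v)} [Category.{v} D] [Preadditive D] {P : ObjectProperty D}
    (Φ : D ⥤ D) [Φ.Additive] (i : ∀ A, A ⟶ Φ.obj A) (r : ∀ A, Φ.obj A ⟶ A)
    (i' r' : ∀ A, Φ.obj A ⟶ Φ.obj A) (c : ∀ A, r A ≫ i A + r' A ≫ i' A = 𝟙 _)
    (d : ∀ (A B : D) (f : A ⟶ B), i A ≫ Φ.map f ≫ r B = f ∧ i A ≫ Φ.map f ≫ r' B = 0 ∧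
      i' A ≫ Φ.map f ≫ r B = 0 ∧ i' A ≫ Φ.map f ≫ r' B = Φ.map f)
    (h : P ≤ P.inverseImage Φ) : Z (mg.{v, u} P) ∧ Th (mg.{v, u} P) ≤ mg.{v, u} P := by
  have n1 {A B : D} (f : A ⟶ B) : f ≫ i B = i A ≫ Φ.map f := by
    obtain ⟨d1, d2, -, -⟩ := d A B f
    rw [← Category.comp_id (Φ.map f), ← c]
    simp [reassoc_of% d1, reassoc_of% d2]
  have n2 {A B : D} (f : A ⟶ B) : Φ.map f ≫ r B = r A ≫ f := by
    obtain ⟨d1, -, d3, -⟩ := d A B f
    rw [← Category.id_comp (Φ.map f), ← c]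
    simp [d1, d3]
  have n3 {A B : D} (f : A ⟶ B) : Φ.map f ≫ i' B = i' A ≫ Φ.map f := by
    obtain ⟨-, -, d3, d4⟩ := d A B f
    conv_rhs => rw [← Category.comp_id (Φ.map f), ← c]
    simp [reassoc_of% d3, reassoc_of% d4]
  have n4 {A B : D} (f : A ⟶ B) : Φ.map f ≫ r' B = r' A ≫ Φ.map f := by
    obtain ⟨-, d2, -, d4⟩ := d A B f
    conv_lhs => rw [← Category.id_comp (Φ.map f), ← c]
    simp [d2, d4]
  exact mm_sw.{v, u} Φ ⟨i, fun _ _ => n1⟩ ⟨r, fun _ _ => n2⟩ ⟨i', fun _ _ => n3⟩ ⟨r', fun _ _ => n4⟩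
    (NatTrans.ext (funext fun A => by simpa using (d A A (𝟙 A)).1))
    (NatTrans.ext (funext fun A => by simpa using (d A A (𝟙 A)).2.2.2))
    (NatTrans.ext (funext c)) h

open Tw in
theorem evS_tw {D : Type u} [Category.{v} D] [Preadditive D] {τ : Act G D} (Φ : D ⥤ D) [Φ.Additive]
    (h : ∀ g, τ.F g ⋙ Φ = Φ ⋙ τ.F g) (i : ∀ A, A ⟶ Φ.obj A) (r : ∀ A, Φ.obj A ⟶ A)
    (i' r' : ∀ A, Φ.obj A ⟶ Φ.obj A)
    (n : ∀ (A B : D) (f : A ⟶ B), i A ≫ Φ.map f ≫ r B = f ∧ i A ≫ Φ.map f ≫ r' B = 0 ∧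
      i' A ≫ Φ.map f ≫ r B = 0 ∧ i' A ≫ Φ.map f ≫ r' B = Φ.map f)
    (k1 : ∀ g A, eqToHom (Functor.congr_obj (h g) A) ≫ (τ.F g).map (r A) = r _)
    (k2 : ∀ g A, eqToHom (Functor.congr_obj (h g) A) ≫ (τ.F g).map (r' A) =
      r' _ ≫ eqToHom (Functor.congr_obj (h g) A)) (A B : Tw τ) (f : A ⟶ B) :
    emb (i A.as) ≫ twH Φ h A B f ≫ emb (r B.as) = f ∧
      emb (A := A) (i A.as) ≫ twH Φ h A B f ≫ emb (B := ⟨Φ.obj B.as⟩) (r' B.as) = 0 ∧
      emb (A := ⟨Φ.obj A.as⟩) (i' A.as) ≫ twH Φ h A B f ≫ emb (B := B) (r B.as) = 0 ∧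
      emb (i' A.as) ≫ twH Φ h A B f ≫ emb (r' B.as) = twH Φ h A B f := by
  induction f using ind' with
  | h0 => simp
  | h1 a b c d => simp [c, d]
  | h2 x a =>
    obtain ⟨f1, f2, f3, f4⟩ := n _ _ a
    simp only [twH_sg, sg_emb, emb_sg, Category.assoc, k1, k2, f1, f3, reassoc_of% f2,
      reassoc_of% f4, sg_zero, zero_comp, and_self]

open Tw in
/-- A swindle that keeps a class makes the generated class trivial and thick. -/
theorem eg_sw {C : Type u} [Category.{v} C] [Preadditive C] {σ : Act G C} {P : ObjectProperty C}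
    (h : SwP σ P) (T : Type v) [MulAction G T] : Z (eg σ T P) ∧ Th (eg σ T P) ≤ eg σ T P := by
  obtain ⟨Φ, b, i, r, i', r', c, d, e, m⟩ := h
  have h g := (e g).1
  have k1 (g A) : eqToHom (Functor.congr_obj (h g) A) ≫ (σ.F g).map (r A) = r _ :=
    eq_of_heq ((eqToHom_comp_heq ..).trans ((e g).2 A).1)
  have k2 (g A) : eqToHom (Functor.congr_obj (h g) A) ≫ (σ.F g).map (r' A) =
      r' _ ≫ eqToHom (Functor.congr_obj (h g) A) :=
    eq_of_heq ((eqToHom_comp_heq ..).trans (((e g).2 A).2.trans (comp_eqToHom_heq ..).symm))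
  let E (t : T) := Lb.at' (C := C) t ⋙ twe (Lb.act T σ)
  refine evS_sw.{v, max u v} (Ef.fn T Φ h).tc (fun X => (E X.as.t).map (i X.as.A))
    (fun X => (E X.as.t).map (r X.as.A)) (fun X => (E X.as.t).map (i' X.as.A))
    (fun X => (E X.as.t).map (r' X.as.A)) (fun X => ?_) (fun X Y f => ?_) fun X a => m _ a
  · exact (congrArg₂ (· + ·) ((E X.as.t).map_comp _ _).symm ((E X.as.t).map_comp _ _).symm).trans
      ((E X.as.t).map_add.symm.trans ((congrArg (E X.as.t).map (c _)).trans ((E X.as.t).map_id _)))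
  · refine evS_tw (τ := Lb.act T σ) (Lb.map Φ b (fun _ => id) (Lb.ok_const id))
      (Lb.map_eqv b (Lb.ok_const id) h fun _ _ _ => rfl) (fun A => (Lb.at' A.t).map (i A.A))
      (fun A => (Lb.at' A.t).map (r A.A)) (fun A => (Lb.at' A.t).map (i' A.A))
      (fun A => (Lb.at' A.t).map (r' A.A))
      (fun A B f => ⟨Lb.ext (d _ _ f.1).1, Lb.ext (d _ _ f.1).2.1, Lb.ext (d _ _ f.1).2.2.1,
        Lb.ext (d _ _ f.1).2.2.2⟩) (fun g A => Lb.ext ?_) (fun g A => Lb.ext ?_) X Y f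
    · exact (congrArg (· ≫ _) (Lb.eqToHom_val _)).trans (k1 g A.A)
    · exact (congrArg (· ≫ _) (Lb.eqToHom_val _)).trans ((k2 g A.A).trans
        (congrArg (_ ≫ ·) (Lb.eqToHom_val (Functor.congr_obj
          (Lb.map_eqv (T := T) b (Lb.ok_const id) h (fun _ _ _ => rfl) g) A)).symm))

end Pool.Agent.Lib.MP_5d3e93_al.Br
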