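import Pool.Agent.Lib.MP_5d3e93_al.Br.EvZ
import Pool.Agent.Lib.MP_5d3e93_al.Br.CtS
import Pool.Agent.Lib.MP_5d3e93_al.Bg.Tame

/-! Vanishing for transport categories of the control category. -/

open CategoryTheory Limits

namespace Pool.Agent.Lib.MP_5d3e93_al.Br

open Gr Am

universe v u

variable {G : Type v} [Group G] {S : Type v} [MulAction G S]

theorem ev_y {C : Type u} [Category.{v} C] [Preadditive C] [HasBinaryBiproducts C]
    [HasZeroObject C] {σ : Act G C} (hs : ∀ s : S, Swd σ fun g => g • s = s)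
    (hK : ∀ (D : Type (max u v)) [Category.{v} D] [Preadditive D] [HasBinaryBiproducts D]
      [HasZeroObject D] (τ : Act G D), (∀ s : S, Swd τ fun g => g • s = s) → KZ τ)
    (T : Type v) [MulAction G T] [Nonempty T] : Z (ea σ T).bdd := by
  let _ : Preorder T := { le := Eq, le_refl := Eq.refl, le_trans := fun _ _ _ => Eq.trans }
  have hm (g : G) (x y : T) (h : x ≤ y) : g • x ≤ g • y := congrArg (g • ·) h
  have := evz_full (C := C) (T := T) fun _ _ h => h
  refine evz_gc.{v, u} (twGC (Lc.act σ hm)) (twm evzJ (evz_eqv σ hm)) (fun y => ?_)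
    (evz_wk (hK _ _ fun s => (hs s).act hm))
  obtain ⟨s, x, a, b, e⟩ := evz_pieces y.as
  let E := twe (Lc.act σ hm)
  refine ⟨T, s, fun i => ⟨x i⟩, fun i => E.map (a i), fun i => E.map (b i), ?_⟩
  exact (Finset.sum_congr rfl fun i _ => (E.map_comp _ _).symm).trans
    ((E.map_sum _ _).symm.trans ((congrArg E.map e).trans (E.map_id _)))

theorem ct_z {C : Type u} [Category.{v} C] [Preadditive C] (ρ : Act G C)
    (hK : ∀ (D : Type (max 1 u v)) [Category.{v} D] [Preadditive D] [HasBinaryBiproducts D]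
      [HasZeroObject D] (τ : Act G D), (∀ s : S, Swd τ fun g => g • s = s) → KZ τ)
    (T : Type v) [MulAction G T] [Nonempty T] : Z (ea (Ct.act S ρ) T).bdd :=
  ev_y.{v, max 1 u v} (fun s => Ct.ct_swd s ρ) hK T

end Pool.Agent.Lib.MP_5d3e93_al.Br
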