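import Pool.Agent.Lib.MP_5d3e93_al.Br.Gs
import Pool.Agent.Lib.MP_5d3e93_al.Br.Lz
import Pool.Agent.Lib.MP_5d3e93_al.Br.CtL
import Pool.Agent.Lib.MP_5d3e93_al.Br.EvS
import Pool.Agent.Lib.MP_5d3e93_al.Br.EvY

/-! The assembly map for a tower of coefficient categories. -/

open CategoryTheory Limits Function Simplicial

namespace Pool.Agent.Lib.MP_5d3e93_al.Br

open Gr Am A2 Ct

universe w v u

variable {G : Type v} [Group G]

/-- All objects are marked. -/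
noncomputable def gt : Gc.{v, u} G ⥤ Mk.{v, u} G where
  obj A := A.g ⊤
  map f := Gc.gm f fun _ _ => trivial

variable (S : Type v) [MulAction G S]

/-- The control category. -/
noncomputable def ctF : Gc.{v, u} G ⥤ Gc.{v, u} G where
  obj A := ⟨Ct S A.C, act S A.ρ⟩
  map f := ⟨cf S f.F, cf_eqv f.F f.e⟩
  map_id _ := rfl
  map_comp _ _ := rfl

/-- The filtration. -/
noncomputable def inL (r : ℕ) : Gc.{v, u} G ⥤ Mk.{v, u} G where
  obj A := ((ctF S).obj A).g (Lv r)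
  map f := Gc.gm ((ctF S).map f) fun _ a => a
  map_id _ := rfl
  map_comp _ _ := rfl

/-- The bottom of the filtration. -/
noncomputable def inL0 : gt ⟶ inL.{v, u} (G := G) S 0 where
  app A := Gc.gm (B := (ctF S).obj A) (@Gc.Hom.mk _ _ A ((ctF S).obj A) (one S A.C)
    (inferInstanceAs (one S A.C).Additive) (one_eqv A.ρ)) fun _ _ => (Set.ncard_empty S).le
  naturality _ _ _ := rfl

/-- The inclusions. -/
noncomputable def inLi {d e : ℕ} (h : d ≤ e) : inL.{v, u} (G := G) S d ⟶ inL S e where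
  app _ := Gc.gm (𝟙 _) fun _ a => le_trans a h
  naturality _ _ _ := rfl

/-- Towers with zero composites and swindles. -/
def Gc.Ok (T : Ft (Gc.{v, u} G)) : Prop :=
  (∀ k A, IsZero ((T.i k ≫ T.q k).F.obj A)) ∧ ∀ k, Swd (T.P k).ρ fun _ => True

variable {H : (Gs G ⥤ Tp.{v, max 1 u v}) ⥤ Pre.{w}} {T : Ft (Gc.{v, u} G)}

theorem KT.nl' (h : KT H) {X Y W : Mk.{v, u} G} (i : X ⟶ Y) (q : Y ⟶ W)
    (a : ∀ T, X.N T ≤ (X.A.a T).bdd) (b : ∀ A, IsZero ((i ≫ q).1.F.obj A)) :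
    Pre.Nl ((EG ⋙ H).map i) ((EG ⋙ H).map q) :=
  h.nl _ _ fun T => by
    rw [← EG.map_comp]
    exact (a T).trans (Ef.kill _ b)

theorem eg_bdd {C : Type u} [Category.{v} C] [Preadditive C] {ρ : Act G C} {T : Type v}
    [MulAction G T] {P : ObjectProperty C} : eg ρ T P ≤ (ea ρ T).bdd :=
  (eg_mono le_top).trans (eg_top ρ).le

theorem ok_gt (h : KT H) (t : Gc.Ok T) : (T.map (gt ⋙ EG ⋙ H)).Ok :=
  ⟨fun k => h.nl' _ _ (fun _ => eg_bdd) (t.1 k), fun k => h.z _ fun _ => (eg_sw (by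
    obtain ⟨Φ, b, i, r, i', r', c, d, e⟩ := t.2 k
    exact ⟨Φ, b, i, r, i', r', c, d, fun g => e g trivial, fun _ _ => trivial⟩) _).1⟩

theorem ok_lv (h : KT H) (t : Gc.Ok T) (r : ℕ) : (T.map (inL S r ⋙ EG ⋙ H)).Ok :=
  ⟨fun k => h.nl' _ _ (fun _ => eg_bdd) (cf_zero (T.i k ≫ T.q k).F (t.1 k)),
    fun k => h.z _ fun _ => (eg_sw (swp_ct (t.2 k) S r) _).1⟩

variable {S}

theorem in_step (h : KT H) (l : Set S → S) (hl : ∀ (g : G) (τ : Set S), τ.Finite → τ.Nonempty →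
      l ((g⁻¹ • ·) ⁻¹' τ) = g • l τ)
    (hH : ∀ (A : Gc.{v, u} G) (l : A.C → S), (∀ ⦃B B' : A.C⦄ (f : B ⟶ B'), f ≠ 0 → l B = l B') →
      (∀ g B, l ((A.ρ.F g).obj B) = g • l B) → (H.obj (EG.obj (A.g ⊤))).Acy)
    (A : Gc.{v, u} G) (r : ℕ) (b : ((ctF S).obj A).n (Lv r) (Lv (r + 1)) ⟶ (inL S (r + 1)).obj A)
    (hb : b.1 = 𝟙 _) (n : ℤ) : Injective (Pre.map n ((EG ⋙ H).map b)) := by
  let Q : Gc.{v, u} G := ⟨Cq S A.C r, actq S A.ρ r⟩
  let R : Gc.{v, u} G := ⟨Cg S A.C r, actg S A.ρ r⟩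
  let p : (inL S (r + 1)).obj A ⟶ Q.g (Lq r) := Gc.gm (@Gc.Hom.mk _ _ ((ctF S).obj A) Q
    (pq S A.C r) (inferInstanceAs (pq S A.C r).Additive) (pq_act A.ρ)) fun _ a => a
  let j : R.g ⊤ ⟶ Q.g (Lq r) := Gc.gm (@Gc.Hom.mk _ _ R Q (ig S A.C r)
    (inferInstanceAs (ig S A.C r).Additive) fun _ => rfl) fun X _ => X.2.1
  have c (T : Gs G) : Lc3 ((EG.map b).app T) ((EG.map p).app T) :=
    .mk (N := eg (act S A.ρ) T.T (Lv (r + 1)) ⊓ Th (eg (act S A.ρ) T.T (Lv r)))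
      (S := eg (act S A.ρ) T.T (Lv (r + 1))) _ _
      ((congrArg (Gc.m · (𝟙 T)) hb).trans (Gc.m_id ..)) (ct_b A.ρ T.T)
  obtain ⟨lab, l1, l2⟩ := ct_lab (n := r) A.ρ hl
  have d (n) := h.deq (EG.map j) (fun T => by
    have := ct_c (S := S) (n := r) A.ρ T.T
    rwa [← eg_top] at this) n
  have e : (H.obj (EG.obj (Q.g (Lq r)))).Acy := fun n x => by
    obtain ⟨y, rfl⟩ := (d n).2 x
    rw [hH R lab l1 l2 n y, map_zero]
  exact (Pre.acy_C.1 (Ft.acy_of_bij _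
    (fun n => (h.loc _ _ c (h.nl _ _ fun T => (c T).kill) n).1) e) n).1

/-- The chase along the filtration of the control category. -/
theorem in_z (h : KT H) (t : Gc.Ok T)
    (l : Set S → S) (hl : ∀ (g : G) (τ : Set S), τ.Finite → τ.Nonempty →
      l ((g⁻¹ • ·) ⁻¹' τ) = g • l τ)
    (hK : ∀ (D : Type (max 1 u v)) [Category.{v} D] [Preadditive D] [HasBinaryBiproducts D]
      [HasZeroObject D] (τ : Act G D), (∀ s : S, Swd τ fun g => g • s = s) → KZ τ)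
    (hH : ∀ (A : Gc.{v, u} G) (l : A.C → S), (∀ ⦃B B' : A.C⦄ (f : B ⟶ B'), f ≠ 0 → l B = l B') →
      (∀ g B, l ((A.ρ.F g).obj B) = g • l B) → (H.obj (EG.obj (A.g ⊤))).Acy) :
    ((T.map (gt ⋙ EG ⋙ H)).tw (ok_gt h t)).Z := by
  refine (Tm.inj_of' (F := (T.nat (Functor.whiskerRight (inL0 S) (EG ⋙ H))).tm (ok_gt h t)
    (ok_lv S h t 0)) fun k n => (h.deq (EG.map ((inL0 S).app (T.X k))) (fun U => ?_) n).1).z
    (To.z_of_seq (E := fun r => (T.map (inL S r ⋙ EG ⋙ H)).tw (ok_lv S h t r))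
      (F := fun r => (T.nat (Functor.whiskerRight (inLi S r.le_succ) (EG ⋙ H))).tm _ _)
      (fun r => Tm.inj_of_kill fun k => ?_) fun k n x => ?_)
  · have := ct_a (S := S) (T.X k).ρ U.T
    rwa [← eg_top] at this
  · let N := ((ctF S).obj (T.X k)).n (Lv r) (Lv (r + 1))
    let a : (inL S r).obj (T.X k) ⟶ N := ⟨𝟙 _, fun U X c => (N.nat (𝟙 U)) X ⟨lv_mono _ _ _ c, Th.le _ c⟩⟩
    let b : N ⟶ (inL S (r + 1)).obj (T.X k) :=
      ⟨𝟙 _, fun U X c => ((inL S (r + 1)).obj (T.X k)).nat (𝟙 U) X c.1⟩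
    let c : N ⟶ (inL S r).obj (T.P k) := ⟨(ctF S).map (T.i k), fun U X c =>
      (eg_sw (swp_ct (t.2 k) S r) _).2 _ (Ef.maps_th _ (fun _ a => a) _ c.2)⟩
    exact ⟨_, (EG ⋙ H).map a, (EG ⋙ H).map b, (EG ⋙ H).map c, ((EG ⋙ H).map_comp a b).symm,
      ((EG ⋙ H).map_comp a c).symm, h.nl' _ _ (fun _ _ c => eg_bdd _ c.1)
        (cf_zero (T.i k ≫ T.q k).F (t.1 k)), in_step h l hl hH _ r b rfl⟩
  · let A := (ctF S).obj (T.X k)
    let w (d : ℕ) : (inL S d).obj (T.X k) ⟶ A.g ⊤ := Gc.gm (𝟙 _) fun _ _ => trivial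
    have o := h.un (fun c => EG.map ((inLi S c).app (T.X k))) (fun d => EG.map (w d))
      (fun _ _ => (EG.map_comp ..).symm) (fun _ => (EG.map_comp ..).symm) fun U =>
        .mk (N := fun r => eg (act S (T.X k).ρ) U.T (Lv r)) (S := eg (act S (T.X k).ρ) U.T ⊤) _
          (fun _ => Gc.m_id A U) (monotone_nat_of_le_succ fun _ => lv_mono _ _)
          fun X c => ct_e _ _ X (eg_bdd _ c)
    refine o.dies (d := 0) (y := x) ?_ ?_ (h.z _ (fun U => ?_) _ _)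
    · exact fun _ => .zero
    · exact fun _ _ => .up
    change Z (eg (act S (T.X k).ρ) U.T ⊤)
    obtain c | c := isEmpty_or_nonempty U.T
    · exact knl_zero (mg_le (S := Zr) fun (x : Tc (act S (T.X k).ρ) U.T) _ => c.elim x.as.t)
    · rw [eg_top]
      exact ev_y.{v, max 1 u v} (fun s => ct_swd s (T.X k).ρ) hK U.T

variable {X X' : SimplexCategoryᵒᵖ ⥤ Gs G} {K : (SimplexCategoryᵒᵖ ⥤ Tp.{v, max 1 u v}) ⥤ Pre.{w}}

/-- The map of towers of simplicial marked ambients. -/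
noncomputable def inF (T : Ft (Gc.{v, u} G)) (α : X ⟶ X') :=
  (T.map (gt ⋙ EG)).nat ((Functor.whiskeringLeft _ _ Tp.{v, max 1 u v}).map α)

theorem in_ok (h : KT K) (t : Gc.Ok T) (X : SimplexCategoryᵒᵖ ⥤ Gs G) :
    (((T.map (gt ⋙ EG)).map ((Functor.whiskeringLeft _ _ _).obj X)).map K).Ok := ok_gt (h.pre X) t

/-- The cone of the assembly map of the tower is trivial in the limit. -/
theorem in_asm (h : KT K) (h' : HT K) (t : Gc.Ok T) {α : X ⟶ X'} (z : Cz S α)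
    (l : Set S → S) (hl : ∀ (g : G) (τ : Set S), τ.Finite → τ.Nonempty →
      l ((g⁻¹ • ·) ⁻¹' τ) = g • l τ)
    (hK : ∀ (D : Type (max 1 u v)) [Category.{v} D] [Preadditive D] [HasBinaryBiproducts D]
      [HasZeroObject D] (τ : Act G D), (∀ s : S, Swd τ fun g => g • s = s) → KZ τ) :
    (((inF T α).map K).tm (in_ok h t X) (in_ok h t X')).C.Z :=
  in_z ((h.pre X).cn (h.pre X') (Functor.whiskerRight ((Functor.whiskeringLeft _ _ _).map α) K)) t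
    l hl hK fun A l a b => Pre.acy_C.2 (z.bij h' A l a b)

end Pool.Agent.Lib.MP_5d3e93_al.Br
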