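import Pool.Agent.Lib.MP_5d3e93_al.Br.KfT

/-! The transport category and the category of the statement. -/

open CategoryTheory Limits Function

namespace Pool.Agent.Lib.MP_5d3e93_al.Br

open As

universe v u

variable {G : Type v} [Group G] {A : AC.{v, u}} (ρ : Act G A.C)

/-- The coefficients in a larger universe. -/
def Gc.lift : Gc.{v, u} G := ⟨Lb A.C PUnit.{max 1 v + 1}, Lb.act _ ρ⟩

/-- The two categories of sets with an action. -/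
def gs : GS G ⥤ Gs G where
  obj T := ⟨T.V⟩
  map f := ⟨f.f, f.eqv⟩

variable (T : GS G)

/-- Forgetting the labels. -/
def kfzU : Lb (Gc.lift ρ).C T.V ⥤ A.C where
  obj x := x.A.A
  map f := f.1.1

instance : (kfzU ρ T).Additive := ⟨rfl⟩

theorem kfz_eqv (g : G) : (Lb.act T.V (Gc.lift ρ).ρ).F g ⋙ kfzU ρ T = kfzU ρ T ⋙ ρ.F g := rfl

theorem kfz_co {x y : Tc (Gc.lift ρ).ρ T.V} (f : x ⟶ y) (g : G) :
    Tw.co g ((twm (kfzU ρ T) (kfz_eqv ρ T)).map f) = (Tw.co g f).1.1 := Category.comp_id _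

/-- The comparison functor. -/
noncomputable def kfzF : Tc (Gc.lift ρ).ρ T.V ⥤ St ρ T where
  obj x := ⟨⟨x.as.A.A⟩, x.as.t⟩
  map f := ⟨(twm (kfzU ρ T) (kfz_eqv ρ T)).map f, fun g h =>
    (kfz_co ρ T f g).trans (congrArg Subtype.val ((Tw.co g f).2 h))⟩
  map_id x := St.Mor.ext ((twm (kfzU ρ T) (kfz_eqv ρ T)).map_id x)
  map_comp f g := St.Mor.ext ((twm (kfzU ρ T) (kfz_eqv ρ T)).map_comp f g)

instance : (kfzF ρ T).Additive := ⟨St.Mor.ext (twm (kfzU ρ T) (kfz_eqv ρ T)).map_add⟩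

theorem kfz_eq {X Y : (Gc.lift ρ).C} (a : X ⟶ Y) {t t' : T.V} (h : (⟨Y, t⟩ : Lb _ T.V) = ⟨Y, t'⟩)
    {b} (e : b = (eqToHom h).1) : (a ≫ b).1 = a.1 := by
  rw [e, Lb.eqToHom_val]
  exact Category.comp_id _

/-- The comparison. -/
noncomputable def p0 : gs ⋙ TC.obj (Gc.lift ρ) ⟶ star ρ where
  app T := @AC.Hom.mk _ (St.ob ρ T) (kfzF ρ T) (inferInstanceAs (kfzF ρ T).Additive)
  naturality T T' _ := AC.ext (Functor.hext (fun _ => rfl) fun _ _ f => heq_of_eq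
    (St.Mor.ext (Tw.co_ext fun g => (kfz_co ρ T' _ g).trans
      (.trans (kfz_eq ρ T' (Tw.co g f).1 _ rfl) (kfz_co ρ T f g).symm))))

theorem p0_ke : Ke ((p0 ρ).app T) := by
  refine ⟨fun x y => ⟨fun f f' e => Tw.co_ext fun g => Lb.ext (Lb.ext ((kfz_co ρ T f g).symm.trans
    ((congrArg (fun k => Tw.co g k.f) e).trans (kfz_co ρ T f' g)))), fun f => ?_⟩,
    fun ⟨⟨y⟩, t⟩ => ⟨⟨⟨⟨y, ⟨⟩⟩, t⟩⟩, rfl⟩⟩
  exact ⟨DFinsupp.mk' (fun g => ⟨⟨co f.f g, fun h => (h rfl).elim⟩, fun h => Lb.ext (f.sp g h)⟩)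
    (f.f.support'.map fun s => ⟨s.1, fun g => (s.2 g).imp_right fun e => Lb.ext (Lb.ext e)⟩),
    St.Mor.ext (Tw.co_ext fun g => kfz_co ρ T _ g)⟩

end Pool.Agent.Lib.MP_5d3e93_al.Br
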