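import Pool.Agent.Lib.MP_5d3e93_al.K.FamA

/-! Fixed points of finite orbits and swindles at the points of a set with action. -/

open CategoryTheory MulAction
open scoped Pointwise

namespace Pool.Agent.Lib.MP_5d3e93_al.Br

universe w w' v u

variable {G : Type w} [Group G] {S : Type w'} [MulAction G S]

theorem orb_vc (hS : ∀ (H : Subgroup G) (x : H), (Subgroup.zpowers x).FiniteIndex →
    ∃ s : S, ∀ g ∈ H, g • s = s)
    (hI : ∀ s : S, ∃ x : stabilizer G s, (Subgroup.zpowers x).FiniteIndex)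
    (H : Subgroup G) (s : S) (h : (orbit H s).Finite) : ∃ t : S, ∀ g ∈ H, g • t = t := by
  obtain ⟨x, a⟩ := hI s
  have b : Fi (Subgroup.zpowers (x : G)) (stabilizer G s) :=
    ((fi_top.2 a).map (stabilizer G s).subtype).mono (MonoidHom.map_zpowers ..).le
      fun g k => ⟨⟨g, k⟩, trivial, rfl⟩
  have c : Fi (stabilizer G s) H := by
    have := h.to_subtype
    have : Finite (H ⧸ stabilizer H s) := .of_equiv _ (orbitEquivQuotientStabilizer H s)
    exact (Subgroup.finiteIndex_of_finite_quotient (H := stabilizer H s)).index_ne_zero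
  obtain ⟨y, e⟩ := (Subgroup.le_zpowers_iff (x : G) (Subgroup.zpowers (x : G) ⊓ H)).1 inf_le_left
  have d : (x : G) ^ y ∈ H := (e.ge (Subgroup.mem_zpowers _)).2
  refine hS H ⟨_, d⟩ ⟨?_⟩
  have f : Fi (Subgroup.zpowers (x : G) ⊓ H) H := (b.trans c).inf (.of_le le_rfl)
  rw [e] at f
  refine mt (fun k => ?_) f
  rw [Subgroup.relIndex, ← k]
  congr 1
  ext g
  simp [Subgroup.mem_subgroupOf, Subgroup.mem_zpowers_iff, Subtype.ext_iff]

theorem set_fix (hF : ∀ (H : Subgroup G) (s : S), (orbit H s).Finite → ∃ t : S, ∀ g ∈ H, g • t = t)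
    (τ : Set S) (a : τ.Finite) (b : τ.Nonempty) : ∃ s : S, ∀ g : G, g • τ = τ → g • s = s :=
  b.elim fun s k => hF (stabilizer G τ) s (a.subset (by
    rintro _ ⟨g, rfl⟩
    exact g.2.le (Set.smul_mem_smul_set k)))

theorem ex_lab2 [Nonempty S] (hl : ∀ τ : Set S, τ.Finite → τ.Nonempty →
    ∃ s : S, ∀ g : G, g • τ = τ → g • s = s) : ∃ l : Set S → S,
      ∀ (g : G) (τ : Set S), τ.Finite → τ.Nonempty → l ((g⁻¹ • ·) ⁻¹' τ) = g • l τ := by
  choose! p hp using hl
  let r (τ : Set S) : Set S := (Quotient.mk (orbitRel G (Set S)) τ).out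
  have a (τ : Set S) : ∃ g : G, g • r τ = τ :=
    (orbitRel G (Set S)).symm (Quotient.mk_out (s := orbitRel G (Set S)) τ)
  choose c hc using a
  refine ⟨fun τ => c τ • p (r τ), fun g τ a b => ?_⟩
  rw [Set.preimage_smul_inv]
  have e : r (g • τ) = r τ := congrArg Quotient.out (Quotient.sound ⟨g, rfl⟩)
  have f : r τ = (c τ)⁻¹ • τ := eq_inv_smul_iff.2 (hc τ)
  have k := hp (r τ) (f ▸ a.smul_set) (f ▸ b.smul_set) ((g * c τ)⁻¹ * c (g • τ)) (by
    rw [mul_smul, inv_smul_eq_iff, mul_smul, hc, ← e, hc])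
  rw [mul_smul, inv_smul_eq_iff, mul_smul] at k
  exact (congrArg (c (g • τ) • p ·) e).trans k

variable {C : Type u} [Category.{v} C] [Preadditive C] {σ : Act G C}
  (h : ∀ s : S, Swd σ fun g => g • s = s)
include h

theorem sw_of (hS : ∀ (H : Subgroup G) (x : H), (Subgroup.zpowers x).FiniteIndex →
    ∃ s : S, ∀ g ∈ H, g • s = s) : Sw σ := fun _ _ x a φ =>
  (hS φ.range (φ.rangeRestrict x) (fi_top.1 (((fi_top.2 a).map φ.rangeRestrict).mono
    (MonoidHom.map_zpowers ..).le (Subgroup.map_top_of_surjective _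
      φ.rangeRestrict_surjective).ge))).elim fun s k => (h s).mono k

theorem swF_of : SwF (Fam.fix G S) σ := fun _ ⟨s, k⟩ => (h s).mono k

end Pool.Agent.Lib.MP_5d3e93_al.Br
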