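import Pool.Agent.Lib.MP_5d3e93_al.Br.KfQ
import Pool.Agent.Lib.MP_5d3e93_al.Br.KfZ
import Pool.Agent.Lib.MP_5d3e93_al.Br.In
import Pool.Agent.Lib.MP_5d3e93_al.Br.FinA
import Pool.Agent.Lib.MP_5d3e93_al.Br.Use

/-! The assembly map for a theory that is compared with the statement. -/

open CategoryTheory Limits Function
open scoped Pointwise

namespace Pool.Agent.Lib.MP_5d3e93_al.As

open Br Gr Am A2

universe v u u'

theorem am_z (B : AC.{v, max u v}) : Z (AM.{v, u}.obj (cone.obj B)).S := by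
  change Z (mg.{v, u} (⊤ : ObjectProperty (cone.obj B).C))
  rw [mg_top]
  exact (fq_cone B).z.1

theorem am_o (B : AC.{v, max u v}) : (AM.{v, u}.obj B).S ≤
    Zr.inverseImage (AM.{v, u}.map (incl.app B) ≫ AM.{v, u}.map (proj.app B)).f.D := by
  rw [← AM.map_comp]
  exact mm_le.{v, u, u} _ (S := Zr) fun x _ => mo.map_isZero (incl_proj x)

open Functor in
theorem bij_of_tw {K : (Dl ⥤ Tp.{v, u'}) ⥤ Pre.{max v u}} (hK : KT K) {M : AC.{v, u} ⥤ Tp.{v, u'}}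
    (z : ∀ B, Z (M.obj (cone.obj B)).S)
    (o : ∀ B, (M.obj B).S ≤ Zr.inverseImage (M.map (incl.app B) ≫ M.map (proj.app B)).f.D)
    (τ : KR.{v, u} ⟶ wh M ⋙ K) (hτ : ∀ D n, Bijective (Pre.map n (τ.app D)))
    {C : Type*} [Category* C] {J : Type*} [Category* J] {T : Ft C} {F : C ⥤ J ⥤ AC.{v, u}}
    {E : C ⥤ J ⥤ Tp.{v, u'}} (e : F ⋙ (whiskeringRight ..).obj M = E) {X X' : Dl ⥤ J} {α : X ⟶ X'}
    {D D' : SA.{v, u}} {φ : D ⟶ D'} {g : ((T.map F).map ((whiskeringLeft ..).obj X)).Hom (ft D)}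
    {g' : ((T.map F).map ((whiskeringLeft ..).obj X')).Hom (ft D')}
    (s : ∀ k, whiskerRight α _ ≫ g'.a k = g.a k ≫ (ftm φ).a k ∧
      whiskerRight α _ ≫ g'.b k = g.b k ≫ (ftm φ).b k)
    (a : ∀ l n, Bijective (Pre.map n (K.map (whiskerRight (g.a l) M))))
    (b : ∀ l n, Bijective (Pre.map n (K.map (whiskerRight (g'.a l) M)))) {h k}
    (c : ((((T.map E).nat ((whiskeringLeft ..).map α)).map K).tm h k).C.Z) (n : ℤ) : Bij φ n := by
  subst e
  exact bij_of_kt hK z o τ hτ φ _ (g.map (wh M)) (g'.map (wh M))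
    (fun k => ((wh M).map_comp ..).symm.trans ((congrArg _ (s k).1).trans ((wh M).map_comp ..)))
    (fun k => ((wh M).map_comp ..).symm.trans ((congrArg _ (s k).2).trans ((wh M).map_comp ..)))
    a b c n

theorem tc_eg {G : Type v} [Group G] :
    TC.{v, u} (G := G) ⋙ (Functor.whiskeringRight ..).obj AM.{v, max 1 u v} = gt ⋙ EG := rfl

theorem bridge_of {K : (Dl ⥤ Tp.{v, max 1 u v}) ⥤ Pre.{max 1 u v}} (h : KT K) (h' : HT K)
    (τ : KR.{v, max 1 u v} ⟶ wh AM.{v, max 1 u v} ⋙ K)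
    (hτ : ∀ D n, Bijective (Pre.map n (τ.app D))) {G : Type v} [Group G] (S : GS G) [Nonempty S.V]
    (hl : ∀ s : Set S.V, s.Finite → s.Nonempty → ∃ x : S.V, ∀ g : G, g • s = s → g • x = x)
    (hK : ∀ (D : Type (max 1 u v)) [Category.{v} D] [Preadditive D] [HasBinaryBiproducts D]
      [HasZeroObject D] (σ : Act G D), (∀ s : S.V, Swd σ fun g => g • s = s) → KZ σ)
    {A : AC.{v, u}} (ρ : Act G A.C) (n : ℤ) :
    Bij (Functor.whiskerRight (pr (cech S)) (star ρ)) n := by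
  obtain ⟨l, e⟩ := ex_lab2 hl
  have g (X : Dl ⥤ GS G) (k n) := (cmp_good.{v, u} (X := X ⋙ gs)
    (P := X.whiskerLeft (p0 ρ)) (.eqv _ fun p => p0_ke ρ (X.obj p)) k).bij.{_, v, max 1 u v} h n
  exact bij_of_tw h am_z.{v, max 1 u v} am_o.{v, max 1 u v} τ hτ tc_eg.{v, u}
    (cmp_sq (Functor.whiskerRight (pr (cech S)) gs) _
      (Functor.whiskerLeft_comp_whiskerRight (pr (cech S)) (p0 ρ)).symm) (g _) (g _)
    (in_asm h h' (gtw_ok _) (cz S.V _ fun _ => inferInstanceAs (Subsingleton PUnit)) l e hK) n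

end Pool.Agent.Lib.MP_5d3e93_al.As
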