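import Pool.Agent.Lib.MP_5d3e93_al.PrS

/-! Labelled objects and functoriality of twisted group categories. -/

open CategoryTheory Limits

namespace Pool.Agent.Lib.MP_5d3e93_al.Br

universe w y y' y'' v u v' u' v'' u''

/-- Objects with a label. -/
structure Lb (C : Type u) (T : Type y) where
  A : C
  t : T

namespace Lb

variable {C : Type u} [Category.{v} C] [Preadditive C] {T : Type y} {X Y Z : Lb C T}
  {D : Type u'} [Category.{v'} D] [Preadditive D] {T' : Type y'}

variable (X Y) in
/-- Morphisms keep the label. -/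
def Mo : AddSubgroup (X.A ⟶ Y.A) where
  carrier := {f | X.t ≠ Y.t → f = 0}
  add_mem' a b k := by rw [a k, b k, add_zero]
  zero_mem' _ := rfl
  neg_mem' a k := by rw [a k, neg_zero]

instance : Category.{v} (Lb C T) where
  Hom X Y := Mo X Y
  id X := ⟨𝟙 _, fun h => (h rfl).elim⟩
  comp {X Y Z} f g := ⟨f.1 ≫ g.1, fun h => by
    by_cases k : X.t = Y.t
    · rw [g.2 (k ▸ h), comp_zero]
    · rw [f.2 k, zero_comp]⟩
  id_comp f := Subtype.ext (Category.id_comp _)
  comp_id f := Subtype.ext (Category.comp_id _)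
  assoc f g h := Subtype.ext (Category.assoc ..)

instance : Preadditive (Lb C T) where
  homGroup X Y := inferInstanceAs (AddCommGroup (Mo X Y))
  add_comp _ _ _ _ _ _ := Subtype.ext (Preadditive.add_comp ..)
  comp_add _ _ _ _ _ _ := Subtype.ext (Preadditive.comp_add ..)

theorem ext {f g : X ⟶ Y} (h : f.1 = g.1) : f = g := Subtype.ext h

@[simp] theorem comp_val (f : X ⟶ Y) (g : Y ⟶ Z) : (f ≫ g).1 = f.1 ≫ g.1 := rfl

@[simp] theorem id_val : (𝟙 X : X ⟶ X).1 = 𝟙 X.A := rfl

@[simp] theorem add_val (f g : X ⟶ Y) : (f + g).1 = f.1 + g.1 := rfl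

@[simp] theorem zero_val : (0 : X ⟶ Y).1 = 0 := rfl

@[simp] theorem eqToHom_val (h : X = Y) : (eqToHom h).1 = eqToHom (congrArg A h) := by
  subst h
  rfl

/-- Relabellings that are constant along non zero morphisms. -/
def Ok (φ : C → T → T') : Prop := ∀ ⦃A B : C⦄ (f : A ⟶ B), f ≠ 0 → ∀ t, φ A t = φ B t

theorem ok_const (φ : T → T') : Ok fun (_ : C) => φ := fun _ _ _ _ _ => rfl

/-- The functor induced by a functor and a relabelling. -/
def map (F : C ⥤ D) (hF : F.Additive) (φ : C → T → T') (h : Ok φ) : Lb C T ⥤ Lb D T' where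
  obj X := ⟨F.obj X.A, φ X.A X.t⟩
  map {X Y} f := ⟨F.map f.1, fun k => by_contra fun z => by
    have a : f.1 ≠ 0 := fun e => z (by rw [e, F.map_zero])
    have b : X.t = Y.t := by_contra fun e => a (f.2 e)
    exact k ((h _ a _).trans (congrArg _ b))⟩
  map_id _ := ext (F.map_id _)
  map_comp _ _ := ext (F.map_comp ..)

instance (F : C ⥤ D) (hF φ) (h : Ok (T := T) (T' := T') φ) : (map F hF φ h).Additive :=
  ⟨ext F.map_add⟩

theorem map_congr {F F' : C ⥤ D} (e : F = F') {φ φ' : C → T → T'} (e' : φ = φ') (a b c d) :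
    map F a φ b = map F' c φ' d := by
  subst e e'
  rfl

/-- Objects with a fixed label. -/
def at' (t : T) : C ⥤ Lb C T where
  obj A := ⟨A, t⟩
  map f := ⟨f, fun h => (h rfl).elim⟩

instance (t : T) : (at' (C := C) t).Additive where

variable {G : Type w} [Group G] [MulAction G T] [MulAction G T'] (ρ : Act G C) (τ : Act G D)

variable (T) in
/-- The diagonal action. -/
def act : Act G (Lb C T) where
  F g := map (ρ.F g) (ρ.additive g) (fun _ t => g • t) (ok_const _)
  additive _ := inferInstance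
  one := map_congr (φ' := fun _ t => t) ρ.one (by simp) _ _ inferInstance (ok_const _)
  mul g h := map_congr (φ' := fun _ t => g • h • t) (ρ.mul g h) (by simp [mul_smul]) _ _
    (have := ρ.additive g; have := ρ.additive h; inferInstance) (ok_const _)

variable {ρ τ} in
theorem map_eqv {F : C ⥤ D} (hF : F.Additive) {φ : C → T → T'} (h : Ok φ)
    (e : ∀ g, ρ.F g ⋙ F = F ⋙ τ.F g) (e' : ∀ g A t, φ ((ρ.F g).obj A) (g • t) = g • φ A t) (g : G) :
    (act T ρ).F g ⋙ map F hF φ h = map F hF φ h ⋙ (act T' τ).F g :=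
  have := ρ.additive g
  have := τ.additive g
  map_congr (e g) (funext₂ (e' g)) inferInstance (fun _ _ f a t =>
    (e' ..).trans ((congrArg _ (h f a t)).trans (e' ..).symm)) inferInstance
      fun _ _ f a t => congrArg _ (h f a t)

end Lb

open Tw

variable {G : Type w} [Group G] {C : Type u} [Category.{v} C] [Preadditive C] {D : Type u'}
  [Category.{v'} D] [Preadditive D] {E : Type u''} [Category.{v''} E] [Preadditive E]
  {ρ : Act G C} {τ : Act G D} {υ : Act G E}

section twm
variable (F : C ⥤ D) [F.Additive] (h : ∀ g, ρ.F g ⋙ F = F ⋙ τ.F g) {A B : Tw ρ}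

/-- An equivariant functor on formal sums. -/
noncomputable def twH (A B : Tw ρ) : (A ⟶ B) →+ ((⟨F.obj A.as⟩ : Tw τ) ⟶ ⟨F.obj B.as⟩) :=
  DFinsupp.mapRange.addMonoidHom (β₁ := fun g => A.as ⟶ (ρ.F g).obj B.as) fun g =>
    (Preadditive.rightComp _ (eqToHom (Functor.congr_obj (h g) B.as))).comp F.mapAddHom

open Classical in
theorem twH_sg (g : G) (a : A.as ⟶ (ρ.F g).obj B.as) :
    twH F h A B (Tw.sg g a) = Tw.sg g (F.map a ≫ eqToHom (Functor.congr_obj (h g) B.as)) :=
  DFinsupp.mapRange_single (hf := fun _ => map_zero _)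

theorem co_twH (g : G) (f : A ⟶ B) :
    co g (twH F h A B f) = F.map (co g f) ≫ eqToHom (Functor.congr_obj (h g) B.as) := rfl

/-- The functor induced on twisted group categories. -/
noncomputable def twm : Tw ρ ⥤ Tw τ where
  obj A := ⟨F.obj A.as⟩
  map f := twH F h _ _ f
  map_id A := by
    rw [one_def, twH_sg, one_def]
    simp [eqToHom_map]
  map_comp f g := by
    induction f using ind' with
    | h0 => simp
    | h1 a b c d => simp [c, d]
    | h2 x a =>
      induction g using ind' with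
      | h0 => simp
      | h1 a b c d => simp [c, d]
      | h2 y b =>
        rw [sg_comp, twH_sg, twH_sg, twH_sg, sg_comp]
        have := Functor.congr_hom (h x) b
        simp only [Functor.comp_map] at this
        simp [Tw.cmp, eqToHom_map, this]

instance : (twm F h).Additive := ⟨map_add (twH F h _ _) _ _⟩

instance [F.Faithful] : (twm F h).Faithful := ⟨fun {_ _ f f'} e => co_ext fun g =>
  F.map_injective ((cancel_mono _).1 ((co_twH F h g f).symm.trans
    ((congrArg (co g) e).trans (co_twH F h g f'))))⟩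

instance [F.Full] : (twm F h).Full := ⟨fun {A B} f => by
  induction f using ind' with
  | h0 => exact ⟨0, map_zero (twH F h A B)⟩
  | h1 a b c d =>
    obtain ⟨c, rfl⟩ := c
    obtain ⟨d, rfl⟩ := d
    exact ⟨c + d, map_add (twH F h A B) c d⟩
  | h2 g a =>
    refine ⟨Tw.sg g (F.preimage (a ≫ eqToHom (Functor.congr_obj (h g) B.as).symm)),
      (twH_sg ..).trans (congrArg _ ?_)⟩
    rw [F.map_preimage]
    exact (Category.assoc ..).trans ((congrArg _ (eqToHom_trans ..)).trans (Category.comp_id _))⟩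

theorem twm_emb (f : A.as ⟶ B.as) : (twm F h).map (emb f) = emb (F.map f) :=
  (twH_sg ..).trans (by simp [emb, eqToHom_map])

theorem twm_comp (H : D ⥤ E) [H.Additive] (k : ∀ g, τ.F g ⋙ H = H ⋙ υ.F g) (l) :
    twm F h ⋙ twm H k = twm (τ := υ) (F ⋙ H) l :=
  Functor.hext (fun _ => rfl) fun _ _ f => heq_of_eq (co_ext fun g => by
    refine (co_twH H k g _).trans (.trans ?_ (co_twH (F ⋙ H) l g f).symm)
    refine (congrArg (H.map · ≫ _) (co_twH F h g f)).trans ?_
    rw [H.map_comp, eqToHom_map]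
    exact (Category.assoc ..).trans (congrArg _ (eqToHom_trans ..)))

theorem twm_id (l) : twm (ρ := ρ) (τ := ρ) (𝟭 C) l = 𝟭 _ :=
  Functor.hext (fun _ => rfl) fun _ _ f => heq_of_eq (co_ext fun g => by
    exact (co_twH (𝟭 C) l g f).trans (Category.comp_id _))

theorem twm_congr {F' : C ⥤ D} [F'.Additive] (e : F = F') (l) : twm F h = twm F' l := by
  subst e
  rfl

end twm

variable (ρ) in
/-- The constant morphisms. -/
noncomputable def twe : C ⥤ Tw ρ where
  obj A := ⟨A⟩
  map f := emb f
  map_id A := emb_id ⟨A⟩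
  map_comp _ _ := (emb_comp ..).symm

instance : (twe ρ).Additive := ⟨emb_add ..⟩

theorem co_emb_comp {A B B' : Tw ρ} (g : G) (a : A.as ⟶ B.as) (f : B ⟶ B') :
    co g (emb a ≫ f) = a ≫ co g f := by
  induction f using ind' with
  | h0 => simp
  | h1 a b c d => simp [c, d]
  | h2 x b =>
    rw [emb_sg]
    by_cases e : g = x
    · subst e
      rw [co_sg, co_sg]
    · rw [co_sg_ne e, co_sg_ne e, comp_zero]

theorem co_fin {A B : Tw ρ} (f : A ⟶ B) : ∃ s : Finset G, ∀ g ∉ s, co g f = 0 := by
  classical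
  exact ⟨DFinsupp.support (β := fun k => A.as ⟶ (ρ.F k).obj B.as) f,
    fun g h => DFinsupp.notMem_support_iff.1 h⟩

end Pool.Agent.Lib.MP_5d3e93_al.Br
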