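import Pool.Agent.Lib.MP_5d3e93_al.Br.Mt
import Pool.Agent.Lib.MP_5d3e93_al.Br.Lb

/-! Transport categories over a set with a group action, as ambient categories. -/

open CategoryTheory Limits

namespace Pool.Agent.Lib.MP_5d3e93_al.Br

open Gr Am

universe v u u' u''

variable {G : Type v} [Group G] {C : Type u} [Category.{v} C] [Preadditive C] {D : Type u'}
  [Category.{v} D] [Preadditive D] {E : Type u''} [Category.{v} E] [Preadditive E]
  {T T' T'' : Type v} [MulAction G T] [MulAction G T'] [MulAction G T'']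

/-- The transport category. -/
abbrev Tc (ρ : Act G C) (T : Type v) [MulAction G T] := Tw (Lb.act T ρ)

/-- Complexes of matrices over the transport category. -/
noncomputable abbrev ea (ρ : Act G C) (T : Type v) [MulAction G T] : Am.{v, max 1 u v} :=
  mam.{v, max u v} (Tc ρ T)

/-- The class generated by a property of the coefficient objects. -/
def eg (ρ : Act G C) (T : Type v) [MulAction G T] (P : ObjectProperty C) :
    ObjectProperty (ea ρ T).D := mg.{v, max u v} fun x : Tc ρ T => P x.as.A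

instance (ρ : Act G C) (P : ObjectProperty C) : Tg (eg ρ T P) := inferInstanceAs (Tg (mg _))

theorem eg_top (ρ : Act G C) : eg ρ T ⊤ = (ea ρ T).bdd := mg_top

variable {ρ : Act G C} {τ : Act G D} {υ : Act G E}

variable (ρ τ T T') in
/-- Equivariant functors with equivariant relabellings. -/
structure Ef where
  F : C ⥤ D
  add : F.Additive
  φ : C → T → T'
  ok : Lb.Ok φ
  e : ∀ g, ρ.F g ⋙ F = F ⋙ τ.F g
  e' : ∀ g A t, φ ((ρ.F g).obj A) (g • t) = g • φ A t

namespace Ef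

attribute [instance] add

variable (f : Ef T T' ρ τ) (g : Ef T' T'' τ υ)

/-- The functor on transport categories. -/
noncomputable def tc : Tc ρ T ⥤ Tc τ T' :=
  twm (Lb.map f.F f.add f.φ f.ok) (Lb.map_eqv f.add f.ok f.e f.e')

instance : f.tc.Additive := inferInstanceAs (twm _ _).Additive

/-- The map of ambient categories. -/
noncomputable def em : Map (ea ρ T) (ea τ T') := mm.{v, max u v, max u' v} f.tc

theorem tc_comp (h : Ef T T'' ρ υ) (e : h.F = f.F ⋙ g.F)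
    (e' : ∀ A t, h.φ A t = g.φ (f.F.obj A) (f.φ A t)) : f.tc ⋙ g.tc = h.tc := by
  have k : Lb.map h.F h.add h.φ h.ok = Lb.map f.F f.add f.φ f.ok ⋙ Lb.map g.F g.add g.φ g.ok :=
    Lb.map_congr (φ' := fun A t => g.φ (f.F.obj A) (f.φ A t)) e (funext₂ e') _ _ inferInstance
      fun A B a b t => (e' A t).symm.trans ((h.ok a b t).trans (e' B t))
  exact (twm_comp _ _ _ _ (k ▸ Lb.map_eqv h.add h.ok h.e h.e')).trans (twm_congr _ _ k.symm _)

theorem mm_congr {D : Type (max u v)} [Category.{v} D] [Preadditive D] {E : Type (max u' v)}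
    [Category.{v} E] [Preadditive E] {F H : D ⥤ E} [F.Additive] [H.Additive] (e : F = H) :
    mm.{v, u, u'} F = mm.{v, u, u'} H := by
  subst e
  rfl

theorem em_comp (h : Ef T T'' ρ υ) (e : h.F = f.F ⋙ g.F)
    (e' : ∀ A t, h.φ A t = g.φ (f.F.obj A) (f.φ A t)) : f.em.comp g.em = h.em :=
  (mm_comp _ _).trans (mm_congr (tc_comp f g h e e'))

theorem tc_id (h : Ef T T ρ ρ) (e : h.F = 𝟭 C) (e' : ∀ A t, h.φ A t = t) : h.tc = 𝟭 _ := by
  have k : Lb.map h.F h.add h.φ h.ok = 𝟭 _ :=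
    Lb.map_congr (φ' := fun _ t => t) e (funext₂ e') _ _ inferInstance (Lb.ok_const _)
  exact (twm_congr _ _ k fun _ => rfl).trans (twm_id _)

theorem em_id (h : Ef T T ρ ρ) (e : h.F = 𝟭 C) (e' : ∀ A t, h.φ A t = t) :
    h.em = (ea ρ T).idm := (mm_congr (tc_id h e e')).trans mm_id

theorem maps {P : ObjectProperty C} {R : ObjectProperty D} (h : P ≤ R.inverseImage f.F) :
    eg ρ T P ≤ (eg τ T' R).inverseImage f.em.D := mm_maps _ fun x a => h x.as.A a

theorem maps_th {P : ObjectProperty C} {R : ObjectProperty D} (h : P ≤ R.inverseImage f.F) :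
    Th (eg ρ T P) ≤ (Th (eg τ T' R)).inverseImage f.em.D := fun X ⟨Y, a⟩ =>
  have := preservesBinaryBiproducts_of_preservesBinaryProducts f.em.D
  ⟨_, (eg τ T' R).prop_of_iso (f.em.D.mapBiprod X Y) (f.maps h _ a)⟩

theorem kill (h : ∀ A, IsZero (f.F.obj A)) : (ea ρ T).bdd ≤ Zr.inverseImage f.em.D :=
  mg_top.ge.trans (mm_le _ (S := Zr) fun x _ => mo.map_isZero
    ((Lb.at' (f.φ x.as.A x.as.t) ⋙ twe (Lb.act T' τ)).map_isZero (h x.as.A)))

/-- An equivariant functor and an equivariant map. -/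
def of (F : C ⥤ D) [h : F.Additive] (e : ∀ g, ρ.F g ⋙ F = F ⋙ τ.F g) (φ : T → T')
    (e' : ∀ (g : G) t, φ (g • t) = g • φ t) : Ef T T' ρ τ :=
  ⟨F, h, fun _ => φ, Lb.ok_const φ, e, fun g _ => e' g⟩

variable (T) in
/-- An equivariant functor. -/
def fn (F : C ⥤ D) [F.Additive] (e : ∀ g, ρ.F g ⋙ F = F ⋙ τ.F g) : Ef T T ρ τ :=
  of F e id fun _ _ => rfl

variable (ρ) in
/-- An equivariant map. -/
def lb (φ : T → T') (e' : ∀ (g : G) t, φ (g • t) = g • φ t) : Ef T T' ρ ρ :=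
  of (𝟭 C) (fun _ => rfl) φ e'

variable (F : C ⥤ D) [F.Additive] (e : ∀ g, ρ.F g ⋙ F = F ⋙ τ.F g)

instance [F.Faithful] : (fn T F e).tc.Faithful :=
  have : (Lb.map F ‹_› (fun _ => id) (Lb.ok_const (T := T) id)).Faithful :=
    ⟨fun h => Lb.ext (F.map_injective (congrArg (·.1) h))⟩
  inferInstanceAs (twm (Lb.map F ‹_› (fun _ => id) (Lb.ok_const (T := T) id)) _).Faithful

instance [F.Full] : (fn T F e).tc.Full :=
  have : (Lb.map F ‹_› (fun _ => id) (Lb.ok_const (T := T) id)).Full := ⟨fun {X Y} f => by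
    by_cases h : X.t = Y.t
    · exact ⟨⟨F.preimage f.1, fun k => (k h).elim⟩, Lb.ext (F.map_preimage _)⟩
    · exact ⟨0, Lb.ext ((F.map_zero _ _).trans (f.2 h).symm)⟩⟩
  inferInstanceAs (twm (Lb.map F ‹_› (fun _ => id) (Lb.ok_const (T := T) id)) _).Full

end Ef

variable (ρ) in
/-- An object with a label as a complex. -/
noncomputable def eo (t : T) : C ⥤ (ea ρ T).D :=
  (Lb.at' t ⋙ twe (Lb.act T ρ)) ⋙ mo.{v, max u v}

instance (t : T) : (eo ρ t).Additive := inferInstanceAs (_ ⋙ mo).Additive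

theorem spl_map {C' : Type*} [Category* C'] [Preadditive C'] (e : C ⥤ C') [e.Additive]
    {A B A' : C} {i : A ⟶ B} {p : B ⟶ A'} (h : Spl i p) : Spl (e.map i) (e.map p) := by
  obtain ⟨r, s, h1, h2, h3⟩ := h
  exact ⟨e.map r, e.map s, by rw [← e.map_comp, h1, e.map_id], by rw [← e.map_comp, h2, e.map_id],
    by rw [← e.map_comp, ← e.map_comp, ← e.map_add, h3, e.map_id]⟩

theorem eo_spl {S : ObjectProperty (ea ρ T).D} [Tg S] {A B A' : C} {i : A ⟶ B} {p : B ⟶ A'}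
    (h : Spl i p) (t : T) (a : S ((eo ρ t).obj A)) (b : S ((eo ρ t).obj A')) :
    S ((eo ρ t).obj B) := (mg_spl (spl_map (Lb.at' t ⋙ twe (Lb.act T ρ)) h)).2 a b

variable {P P' : ObjectProperty C} {R : ObjectProperty D} (F : C ⥤ D) [F.Additive]
  (e : ∀ g, ρ.F g ⋙ F = F ⋙ τ.F g)

theorem eg_mono (h : P ≤ P') : eg ρ T P ≤ eg ρ T P' := mg_mono fun x a => h x.as.A a

theorem ef_gen (k : ∀ (S : ObjectProperty (ea τ T).D) [Tg S] t,
      (∀ A, P A → S ((eo τ t).obj (F.obj A))) → ∀ B, R B → S ((eo τ t).obj B))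
    (y : Tc τ T) (a : R y.as.A) : mg.{v, max u' v} (ObjectProperty.map
      (fun x : Tc ρ T => P x.as.A) (Ef.fn T F e).tc) (mo.obj y) :=
  k (mg.{v, max u' v} _) y.as.t (fun A b => mg_mo ⟨⟨⟨A, y.as.t⟩⟩, b, ⟨.refl _⟩⟩) _ a

theorem ef_deq [F.Full] [F.Faithful] (h : P ≤ R.inverseImage F)
    (k : ∀ (S : ObjectProperty (ea τ T).D) [Tg S] t,
      (∀ A, P A → S ((eo τ t).obj (F.obj A))) → ∀ B, R B → S ((eo τ t).obj B)) :
    Deq (Ef.fn T F e).em.D (eg ρ T P) (eg τ T R) :=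
  mm_deq _ (fun x a => h x.as.A a) (ef_gen F e k)

theorem ef_loc [F.Full] (kill : ∀ A, P A → IsZero (F.obj A))
    (cut : ∀ (A : C) (s : Finset G) (B : G → C) (f : ∀ g, A ⟶ B g), (∀ g, F.map (f g) = 0) →
      ∃ (A' Z : C) (i : A' ⟶ A) (p : A ⟶ Z), Spl i p ∧ (∀ t : T, eg ρ T P ((eo ρ t).obj Z)) ∧
        ∀ g ∈ s, i ≫ f g = 0)
    (le : P ≤ P') (h : P' ≤ R.inverseImage F)
    (k : ∀ (S : ObjectProperty (ea τ T).D) [Tg S] t,
      (∀ A, P' A → S ((eo τ t).obj (F.obj A))) → ∀ B, R B → S ((eo τ t).obj B)) :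
    Gr.Loc (Ef.fn T F e).em.D (eg ρ T P' ⊓ Th (eg ρ T P)) (eg ρ T P') (eg τ T R) := by
  refine mm_loc _ (mm_locOn _ (fun x a =>
    (Lb.at' x.as.t ⋙ twe (Lb.act T τ)).map_isZero (kill _ a)) fun x y f z => ?_)
    (fun x a => le x.as.A a) (fun x a => h x.as.A a) (ef_gen F e k)
  obtain ⟨s, hs⟩ := co_fin f
  obtain ⟨A', Z, i, p, a, b, c⟩ := cut x.as.A s _ (fun g => (Tw.co g f).1)
    fun g => congrArg Subtype.val ((cancel_mono _).1 ((co_twH _ _ g f).symm.trans
      ((congrArg (Tw.co g) z).trans ((map_zero _).trans zero_comp.symm))))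
  let E := Lb.at' x.as.t ⋙ twe (Lb.act T ρ)
  refine ⟨E.obj A', E.obj Z, E.map i, E.map p, spl_map E a, b _,
    Tw.co_ext fun g => (co_emb_comp ..).trans ?_⟩
  by_cases d : g ∈ s
  · exact Lb.ext (c g d)
  · rw [hs g d, comp_zero, map_zero]

end Pool.Agent.Lib.MP_5d3e93_al.Br
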