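import Pool.Agent.Lib.MP_5d3e93_al.Br.Ev
import Pool.Agent.Lib.MP_5d3e93_al.K.Tw
import Pool.Agent.Lib.MP_5d3e93_al.K.Kar

/-! Vanishing for transport categories from vanishing for located coefficients. -/

open CategoryTheory Limits ZeroObject

namespace Pool.Agent.Lib.MP_5d3e93_al.Br

open Gr Am

universe v u u'

variable {G : Type v} [Group G]

theorem evz_sum {D : Type*} [Category* D] [HasZeroObject D] [HasShift D ℤ] [Preadditive D]
    [∀ n : ℤ, (shiftFunctor D n).Additive] [Pretriangulated D] (S : ObjectProperty D) [Tg S]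
    {ι : Type*} (s : Finset ι) {X : D} (Y : ι → D) (hY : ∀ i, S (Y i)) (a : ∀ i, X ⟶ Y i)
    (b : ∀ i, Y i ⟶ X) : ∃ W, S W ∧ ∃ (c : X ⟶ W) (d : W ⟶ X), c ≫ d = ∑ i ∈ s, a i ≫ b i := by
  classical
  induction s using Finset.induction_on with
  | empty => exact ⟨0, Tg.zero S (isZero_zero D), 0, 0, by simp⟩
  | insert i s hi ih =>
    obtain ⟨W, w, c, d, e⟩ := ih
    exact ⟨Y i ⊞ W, Tg.biprod S (hY i) w, biprod.lift (a i) c, biprod.desc (b i) d, by
      rw [biprod.lift_desc, e, Finset.sum_insert hi]⟩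

/-- Matrices over an additive category. -/
theorem evz_mat {N : Type (max u v)} [Category.{v} N] [Preadditive N] [HasZeroObject N]
    [HasBinaryBiproducts N] (z : Z (Am.of.{v, u} N).bdd) : Z (mam.{v, u} N).bdd := by
  have e : (mam.{v, u} N).gen (Mat_.embedding N).essImage = (mam.{v, u} N).bdd :=
    le_antisymm (Gr.Cl.le fun _ ⟨x, _, e⟩ => Gr.Cl.of ⟨x, trivial, e⟩)
      (mg_top.ge.trans (mg_le (S := Gr.Cl _) fun x _ =>
        Gr.Cl.of ⟨_, (Mat_.embedding N).obj_mem_essImage x, ⟨.refl _⟩⟩))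
  rw [← e]
  exact (Z_ff.{v, u, v, max 1 u} (Mat_.embedding N)).1 z

/-- Cofinality for matrices. -/
theorem evz_cof {D : Type (max u v)} [Category.{v} D] [Preadditive D] {E : Type (max u' v)}
    [Category.{v} E] [Preadditive E] (F : D ⥤ E) [F.Additive] [F.Full] [F.Faithful]
    (h : ∀ y : E, ∃ (ι : Type v) (s : Finset ι) (x : ι → D) (a : ∀ i, y ⟶ F.obj (x i))
      (b : ∀ i, F.obj (x i) ⟶ y), ∑ i ∈ s, a i ≫ b i = 𝟙 y)
    (z : Z (mam.{v, u'} E).bdd) : Z (mam.{v, u} D).bdd := by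
  let R : ObjectProperty E := ObjectProperty.map ⊤ F
  have k : (mam.{v, u'} E).bdd ≤ Th (mg.{v, u'} R) := mg_top.ge.trans (mg_le fun y _ => by
    obtain ⟨ι, s, x, a, b, e⟩ := h y
    obtain ⟨W, w, c, d, l⟩ := evz_sum (mg.{v, u'} R) s (fun i => mo.obj (F.obj (x i)))
      (fun i => mg_mo ⟨x i, trivial, ⟨.refl _⟩⟩) (fun i => mo.map (a i)) fun i => mo.map (b i)
    refine Th.of_retract c d (l.trans ?_) w
    simp only [← Functor.map_comp]
    rw [← Functor.map_sum, e, CategoryTheory.Functor.map_id])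
  have : Tg (mam.{v, u'} E).bdd := inferInstanceAs (Tg (Gr.Cl _))
  have e : mg.{v, u'} R = (mam.{v, u'} E).bdd := dense_eq ((mg_mono le_top).trans mg_top.le)
    (fun X a => ⟨X⟦(1 : ℤ)⟧, (mam.{v, u'} E).bdd.le_shift 1 _ a, K.kar_th (k X a)⟩) (z 0)
  rw [← mg_top]
  rw [← e] at z
  exact (Z_deq (mm_deq F (P := ⊤) (R := R) (fun x _ => ⟨x, trivial, ⟨.refl _⟩⟩)
    fun _ => mg_mo)).2 z

theorem evz_gc {D : Type (max u v)} [Category.{v} D] [Preadditive D] {E : Type (max u v)}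
    [Category.{v} E] [Preadditive E] [HasZeroObject E] (S : GC G E) (F : D ⥤ E) [F.Additive]
    [F.Full] [F.Faithful]
    (h : ∀ y : E, ∃ (ι : Type v) (s : Finset ι) (x : ι → D) (a : ∀ i, y ⟶ F.obj (x i))
      (b : ∀ i, F.obj (x i) ⟶ y), ∑ i ∈ s, a i ≫ b i = 𝟙 y)
    (z : S.WK ⊤) : Z (mam.{v, max u v} D).bdd := by
  refine evz_cof.{v, max u v, max u v} (F ⋙ Idempotents.toKaroubi E ⋙ S.twK) (fun y => ?_)
    (evz_mat.{v, max u v} z)
  obtain ⟨ι, s, x, a, b, e⟩ := h y.A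
  refine ⟨ι, s, x, fun i => GC.LQ.cut (a i) (GC.tw_rg.2 (S.sup_top _)),
    fun i => GC.LQ.cut (b i) (GC.tw_rg.2 (S.sup_top _)), GC.LQ.hom_ext ?_⟩
  rw [GC.LQ.sum_f]
  change ∑ i ∈ s, (y.p ≫ a i ≫ 𝟙 _) ≫ 𝟙 _ ≫ b i ≫ y.p = y.p
  simp only [Category.comp_id, Category.id_comp, Category.assoc]
  have := congrArg (fun t => y.p ≫ t ≫ y.p) e
  simpa [Preadditive.comp_sum, Preadditive.sum_comp] using this

/-- The free abelian factor can be dropped. -/
theorem evz_wk {D : Type u} [Category.{v} D] [Preadditive D] [HasBinaryBiproducts D]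
    [HasZeroObject D] {τ : Act G D} (z : KZ τ) : (twGC τ).WK ⊤ := by
  let Φ : Tw τ ⥤ TwZ τ := Tw.pushF (ρ := τ.comap (MonoidHom.fst G Zi)) (MonoidHom.inl G Zi)
  have : Φ.Additive := inferInstanceAs (Tw.pushF _).Additive
  let Ψ : TwZ τ ⥤ Tw τ := Tw.pushF (MonoidHom.fst G Zi)
  have k {A B : Tw τ} (f : A ⟶ B) : Ψ.map (Φ.map f) = f := by
    induction f using Tw.ind' with
    | h0 => exact (Φ ⋙ Ψ).map_zero _ _
    | h1 a b c d => exact (Φ ⋙ Ψ).map_add.trans (congrArg₂ (· + ·) c d)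
    | h2 g a =>
      exact (congrArg Ψ.map (Tw.push_sg (ρ := τ.comap (MonoidHom.fst G Zi))
        (MonoidHom.inl G Zi) g a)).trans (Tw.push_sg (ρ := τ) (MonoidHom.fst G Zi)
          (X := Φ.obj A) (Y := Φ.obj B) (g, 1) a)
  let F := GC.twF (twGC τ) (SZ τ) ⊤ ⊤ Φ fun _ _ => GC.sup_top _ _
  let H := GC.twF (SZ τ) (twGC τ) ⊤ ⊤ Ψ fun _ _ => GC.sup_top _ _
  refine Z_retract F H (NatIso.ofComponents (fun M => ⟨GC.LQ.homMk M.p
    ((congrArg (· ≫ M.p) (k M.p)).trans M.idem) M.idem (GC.tw_rg.2 (GC.sup_top _ _)),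
    GC.LQ.homMk M.p M.idem ((congrArg (M.p ≫ ·) (k M.p)).trans M.idem)
      (GC.tw_rg.2 (GC.sup_top _ _)), GC.LQ.hom_ext (M.idem.trans (k M.p).symm),
    GC.LQ.hom_ext M.idem⟩) fun {M N} f => GC.LQ.hom_ext ?_) z
  exact (congrArg (· ≫ N.p) (k f.1)).trans ((GC.LQ.comp_p f).trans (GC.LQ.p_comp f).symm)

section
variable {C : Type u} [Category.{v} C] [Preadditive C] [HasZeroObject C] {T : Type v}

omit [HasZeroObject C] in
theorem evz_ld {A : C} {d d' : Ld T A} (h : d.e = d'.e) : d = d' := by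
  cases d
  cases d'
  cases h
  rfl

theorem evz_pt (t : T) (A : C) : (Ld.pt t A).e t = 𝟙 A := if_pos rfl

theorem evz_ne {t x : T} (h : x ≠ t) (A : C) : (Ld.pt t A).e x = 0 := if_neg h

variable [Preorder T]

/-- A labelled object is located at its label. -/
noncomputable def evzJ : Lb C T ⥤ Lc T C where
  obj X := ⟨X.A, .pt X.t X.A⟩
  map {X Y} f := ⟨f.1, fun x y k => by
    change (Ld.pt X.t X.A).e x ≫ f.1 ≫ (Ld.pt Y.t Y.A).e y = 0
    by_cases a : x = X.t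
    · by_cases b : y = Y.t
      · rw [f.2 fun e => k (a.trans (e.trans b.symm)).le, zero_comp, comp_zero]
      · rw [evz_ne b, comp_zero, comp_zero]
    · rw [evz_ne a, zero_comp]⟩

instance : (evzJ (C := C) (T := T)).Additive where

instance : (evzJ (C := C) (T := T)).Faithful := ⟨fun h => Lb.ext (congrArg (·.1) h)⟩

theorem evz_full (hd : ∀ x y : T, x ≤ y → x = y) : (evzJ (C := C) (T := T)).Full :=
  ⟨fun {X Y} f => ⟨⟨f.1, fun k => by
    have : (Ld.pt X.t X.A).e X.t ≫ f.1 ≫ (Ld.pt Y.t Y.A).e Y.t = 0 := f.2 _ _ (mt (hd _ _) k)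
    rw [evz_pt, evz_pt] at this
    exact ((Category.id_comp _).trans (Category.comp_id _)).symm.trans this⟩, rfl⟩⟩

theorem evz_eqv [MulAction G T] (σ : Act G C) (hm : ∀ (g : G) (x y : T), x ≤ y → g • x ≤ g • y)
    (g : G) : (Lb.act T σ).F g ⋙ evzJ = evzJ ⋙ (Lc.act σ hm).F g := by
  have := σ.additive g
  have e (X : Lb C T) : ((Lb.act T σ).F g ⋙ evzJ).obj X = (evzJ ⋙ (Lc.act σ hm).F g).obj X :=
    congrArg (Lc.mk ((σ.F g).obj X.A)) (evz_ld (funext fun x => by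
      change (Ld.pt (g • X.t) _).e x = (σ.F g).map ((Ld.pt X.t X.A).e (g⁻¹ • x))
      by_cases a : x = g • X.t
      · rw [a, inv_smul_smul, evz_pt, evz_pt, CategoryTheory.Functor.map_id]
      · rw [evz_ne a, evz_ne fun b => a (inv_smul_eq_iff.1 b), Functor.map_zero]))
  exact Functor.hext e fun X Y f => Lc.heq_of (e X) (e Y) HEq.rfl

theorem evz_pieces (X : Lc T C) : ∃ (s : Finset T) (x : T → Lb C T)
    (a : ∀ i, X ⟶ evzJ.obj (x i)) (b : ∀ i, evzJ.obj (x i) ⟶ X), ∑ i ∈ s, a i ≫ b i = 𝟙 X := by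
  obtain ⟨s, -, c⟩ := X.d.fin
  choose B i r h1 h2 using X.d.spl
  refine ⟨s, fun t => ⟨B t, t⟩, fun t => ⟨r t, Lc.mn_diag fun x => ?_⟩,
    fun t => ⟨i t, Lc.mn_diag fun x => ?_⟩, Lc.ext ?_⟩
  · change X.d.e x ≫ r t = r t ≫ (Ld.pt t (B t)).e x
    have k : X.d.e t ≫ r t = r t := by rw [← h2, Category.assoc, h1, Category.comp_id]
    by_cases a : x = t
    · rw [a, evz_pt, k, Category.comp_id]
    · rw [evz_ne a, ← k, reassoc_of% X.d.orth x t a, zero_comp, comp_zero]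
  · change (Ld.pt t (B t)).e x ≫ i t = i t ≫ X.d.e x
    have k : i t ≫ X.d.e t = i t := by rw [← h2, reassoc_of% h1]
    by_cases a : x = t
    · rw [a, evz_pt, k, Category.id_comp]
    · rw [evz_ne a, ← k, Category.assoc, X.d.orth t x (Ne.symm a), zero_comp, comp_zero]
  · exact (map_sum (Lc.Mn X X).subtype _ s).trans ((Finset.sum_congr rfl fun t _ => h2 t).trans c)

end

theorem ev_z {C : Type u} [Category.{v} C] [Preadditive C] [HasBinaryBiproducts C]
    [HasZeroObject C] {σ : Act G C} (hs : Sw σ)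
    (hK : ∀ (D : Type (max u v)) [Category.{v} D] [Preadditive D] [HasBinaryBiproducts D]
      [HasZeroObject D] (τ : Act G D), Sw τ → KZ τ)
    (T : Type v) [MulAction G T] [Nonempty T] : Z (ea σ T).bdd := by
  let _ : Preorder T := { le := Eq, le_refl := Eq.refl, le_trans := fun _ _ _ => Eq.trans }
  have hm (g : G) (x y : T) (h : x ≤ y) : g • x ≤ g • y := congrArg (g • ·) h
  have := evz_full (C := C) (T := T) fun _ _ h => h
  refine evz_gc.{v, u} (twGC (Lc.act σ hm)) (twm evzJ (evz_eqv σ hm)) (fun y => ?_)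
    (evz_wk (hK _ _ (hs.act hm)))
  obtain ⟨s, x, a, b, e⟩ := evz_pieces y.as
  let E := twe (Lc.act σ hm)
  refine ⟨T, s, fun i => ⟨x i⟩, fun i => E.map (a i), fun i => E.map (b i), ?_⟩
  exact (Finset.sum_congr rfl fun i _ => (E.map_comp _ _).symm).trans
    ((E.map_sum _ _).symm.trans ((congrArg E.map e).trans (E.map_id _)))

end Pool.Agent.Lib.MP_5d3e93_al.Br
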