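import Pool.Agent.Lib.MP_5d3e93_al.Br.FamA
import Pool.Agent.Lib.MP_5d3e93_al.Gr.ZooB
import Pool.Agent.Lib.MP_5d3e93_al.Gr.Five

/-! Generators of the derived category of labelled families. -/

open CategoryTheory Limits Pretriangulated ZeroObject Opposite Simplicial

namespace Pool.Agent.Lib.MP_5d3e93_al.A2

open Gr Am Br Lab.Cv

universe v u v' u' w w' w'' x x'

set_option backward.isDefEq.respectTransparency false

section FC
variable {a : Am.{v, u}} {Λ : Lab}

/-- `adj_of_unit`; a map `jl l X ⟶ P` is a row of entries `X ⟶ P.X j` with `P.l j ≤ l` alive. -/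
theorem jl_adj {C : Type u} [Category.{v} C] [Preadditive C] [HasFiniteBiproducts C] {l : Λ.L}
    (h : l ∈ (le l).V) : ∃ ad : Fam.jl C l ⊣ Fam.sm C (le l), ad.unit = (Fam.ju C h).hom := by
  classical
  have k : ∀ (X : C) (P : Fam Λ C) (g : (Fam.jl C l).obj X ⟶ P) (j : {j // P.l j ∈ (le l).V}),
      ((Fam.ju C h).hom.app X ≫ (Fam.sm C (le l)).map g) ≫
        biproduct.π (fun i : {j // P.l j ∈ (le l).V} => P.X i.1) j = g.1 () j.1 :=
    fun X P g j => by simp [Fam.ju, Fam.sm]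
  refine Zoo.adj_of_unit _ fun X P => ⟨fun g g' e => Fam.hom_ext fun _ j => ?_, fun φ => ?_⟩
  · by_cases c : P.l j ∈ (le l).V
    · exact (k X P g ⟨j, c⟩).symm.trans ((congrArg (· ≫ _) e).trans (k X P g' ⟨j, c⟩))
    · rw [Fam.e_zero g fun o => c ⟨o.2.1, o.2.2⟩, Fam.e_zero g' fun o => c ⟨o.2.1, o.2.2⟩]
  · refine ⟨Fam.homMk (fun _ j => if c : P.l j ∈ (le l).V then φ ≫
      biproduct.π (fun i : {j // P.l j ∈ (le l).V} => P.X i.1) ⟨j, c⟩ else 0)
      fun _ j o => dif_neg fun c => o ⟨h.1, c.1, c.2⟩, biproduct.hom_ext _ _ fun j => ?_⟩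
    exact (k X P _ j).trans (dif_pos j.2)

theorem fc_out {l : Λ.L} {V : Λ.Cv} (c : l ∉ V.V) (Y : a.D) :
    IsZero ((smM a V).D.obj ((jM a l).D.obj Y)) :=
  ((jM a l).comp (smM a V)).isZero (fun _ => Fam.sm_isZero fun _ => c) Y

theorem jM_cls {S : Λ.L → ObjectProperty a.D} [∀ l, Tg (S l)] {l : Λ.L} {Y : a.D} (h : S l Y) :
    cls S ((jM a l).D.obj Y) := fun l' => by
  by_cases c : l ∈ (one l').V
  · obtain rfl : l = l' := c.2
    exact (S l).prop_of_iso
      ((a.idm.natIso ((jM a l).comp (smM a (one l))) (Fam.ju a.A c)).app Y) h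
  · exact Tg.zero _ (fc_out c Y)

/-- The labels strictly below a label. -/
def fcLo (l : Λ.L) : Λ.Cv :=
  ⟨Λ.U ∩ Set.Iio l, Set.inter_subset_left, Λ.conv.inter Set.ordConnected_Iio⟩

theorem fc_cut (l : Λ.L) : Cut (fcLo l) (le l) (one l) :=
  ⟨fun _ => ⟨fun p => (show _ ≤ l from p.2).lt_or_eq.imp (⟨p.1, ·⟩) (⟨p.1, ·⟩),
    fun p => p.elim (fun q => ⟨q.1, le_of_lt q.2⟩) fun q => ⟨q.1, le_of_eq q.2⟩⟩,
    fun _ p _ q r => (show _ < l from p.2).not_ge (q.2 ▸ r)⟩

theorem fc_iso {l : Λ.L} {X : (FamA Λ a).D} (h : ∀ x, x < l → IsZero ((smM a (one x)).D.obj X)) :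
    IsIso (((smM a (le l)).nat (smM a (one l)) (Fam.eta a.A (fc_cut l).cmp₂)).app X) := by
  obtain ⟨δ, t⟩ := cut_tri (f₁ := smM a (fcLo l)) (f := smM a (le l)) (f₂ := smM a (one l))
    (Fam.eta_zero (fc_cut l)) (Fam.eta_split (fc_cut l)) X
  exact (Triangle.isZero₁_iff_isIso₂ _ t).1 (gr_sm Zr X _ fun x p => h x p.2)

/-- As `dg_gen`: induct on an upper set `W` of labels outside of which the graded pieces vanish;
`l` minimal alive in `W`; cone of the counit of `(jM l).D ⊣ (smM (le l)).D` (`Map.exists_adj`);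
`sm (le l) X ≅ sm (one l) X` by `cut_tri` for the cut `(U ∩ Iio l, le l, one l)` and `gr_sm Zr`;
`fam_zero` at the end. -/
theorem fm_gen (S : Λ.L → ObjectProperty a.D) [∀ l, Tg (S l)] :
    cls S = Cl fun X => ∃ l ∈ Λ.U, ∃ Y, S l Y ∧ X = (jM a l).D.obj Y := by
  classical
  refine le_antisymm (fun X h => ?_) (Cl.le (by rintro _ ⟨l, -, Y, h, rfl⟩; exact jM_cls h))
  have := Fintype.ofFinite Λ.L
  suffices ∀ W : Finset Λ.L, ∀ X, cls S X → (∀ e ∉ W, IsZero ((smM a (one e)).D.obj X)) →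
      Cl (fun X => ∃ l ∈ Λ.U, ∃ Y, S l Y ∧ X = (jM a l).D.obj Y) X from
    this Finset.univ X h (by simp)
  intro W
  induction W using Finset.strongInduction with
  | H W ih =>
    intro X h z
    rcases W.eq_empty_or_nonempty with rfl | n
    · exact .zero (fam_zero fun e => z e (by simp))
    obtain ⟨e, m, p⟩ := W.exists_minimal n
    by_cases al : e ∈ Λ.U
    swap
    · refine ih _ (W.erase_ssubset m) X h fun x q => ?_
      by_cases r : x = e
      · exact (smM a (one x)).isZero (fun _ => Fam.sm_isZero fun _ c => al (r ▸ c.2 ▸ c.1)) X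
      · exact z x fun y => q (Finset.mem_erase.2 ⟨r, y⟩)
    have he : e ∈ (le e).V := ⟨al, le_rfl⟩
    obtain ⟨ad, hu⟩ := jl_adj (C := a.A) he
    obtain ⟨ad', hu', -⟩ := Map.exists_adj (jM a e) (smM a (le e)) ad
    have i1 := fc_iso (X := X) fun x q => z x fun y => q.not_ge (p y q.le)
    have i2 := fc_iso (l := e) (X := (jM a e).D.obj ((smM a (le e)).D.obj X))
      fun x q => fc_out (V := one x) (fun c => q.ne' c.2) _
    have hY : S e ((smM a (le e)).D.obj X) := (S e).prop_of_iso (asIso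
      (((smM a (le e)).nat (smM a (one e)) (Fam.eta a.A (fc_cut e).cmp₂)).app X)).symm (h e)
    obtain ⟨Z, s, t, d⟩ := distinguished_cocone_triangle (ad'.counit.app X)
    refine Cl.ext _ d (.of ⟨e, al, _, hY, rfl⟩) (ih _ (W.erase_ssubset m) Z
      ((cls S).ext_of_isTriangulatedClosed₃ _ d (jM_cls hY) h) fun x q => ?_)
    refine (Triangle.isZero₃_iff_isIso₁ _ ((smM a (one x)).D.map_distinguished _ d)).2 ?_
    change IsIso ((smM a (one x)).D.map (ad'.counit.app X))
    by_cases r : x = e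
    · subst r
      have : IsIso (ad'.unit.app ((smM a (le x)).D.obj X)) := by
        rw [hu', hu]
        exact ((a.idm.natIso ((jM a x).comp (smM a (le x))) (Fam.ju a.A he)).app _).isIso_hom
      have : IsIso ((smM a (le x)).D.map (ad'.counit.app X)) :=
        IsIso.of_isIso_fac_left (ad'.right_triangle_components X)
      exact @IsIso.of_isIso_fac_left _ _ _ _ _ _ _ _ i2 (@IsIso.comp_isIso _ _ _ _ _ _ _ this i1)
        (((smM a (le x)).nat (smM a (one x))
          (Fam.eta a.A (fc_cut x).cmp₂)).naturality (ad'.counit.app X)).symm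
    · exact ⟨0, (fc_out (V := one x) (fun c => r (Eq.symm c.2)) _).eq_of_src _ _,
        (z x fun y => q (Finset.mem_erase.2 ⟨r, y⟩)).eq_of_src _ _⟩
end FC

end Pool.Agent.Lib.MP_5d3e93_al.A2
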