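import Pool.Agent.Lib.MP_5d3e93_al.Br.FC
import Pool.Agent.Lib.MP_5d3e93_al.Br.Adb
import Pool.Agent.Lib.MP_5d3e93_al.Br.KD

/-! Derived equivalences of labelled families. -/

open CategoryTheory Limits Pretriangulated ZeroObject Opposite Simplicial

namespace Pool.Agent.Lib.MP_5d3e93_al.A2

open Gr Am Br Lab.Cv

universe v u v' u' w w' w'' x x'

set_option backward.isDefEq.respectTransparency false

variable {a : Am.{v, u}} {a' : Am.{v', u'}} {Λ Λ' : Lab}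

/-- The functor of families on a single object. -/
noncomputable def fdK (f : Λ ⟶ Λ') (φ : Map a a') (l : Λ.L) :
    φ.F ⋙ (jM a' (f.f l)).F ≅ (jM a l).F ⋙ (fmM f φ).F :=
  NatIso.ofComponents (fun _ => Iso.refl _) fun {X Y} g => by
    refine (Category.comp_id _).trans (Eq.trans ?_ (Category.id_comp _).symm)
    refine Fam.hom_ext fun i j => ?_
    by_cases h : f.f l ∈ Λ'.U
    · simp [jM, fmM, Fam.jl, Fam.map_e, h, f.al _ h]
    · simp [jM, fmM, Fam.jl, Fam.map_e, h]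

theorem fd_adj {l : Λ.L} {V : Λ.Cv} (e : V = le l) (h : l ∈ V.V) :
    ∃ ad : (jM a l).F ⊣ (smM a V).F, ad.unit = (Fam.ju a.A h).hom := by
  subst e
  exact jl_adj h

/-- `ff_of_gen` with `fm_gen`; `adj_bij` with `jM l`, `smM (le l)`, `jM (f l)`, `smM (le (f l))`,
`(le (f l)).pre f = le l`, `μ = Fam.smIso`, `κ` with identity components; `gr_sm S₀`;
onto: `FF.tg_map`, `fm_gen` for `S'`. -/
theorem fm_deq (f : Λ ⟶ Λ') (φ : Map a a') {S : Λ.L → ObjectProperty a.D}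
    {S' : Λ'.L → ObjectProperty a'.D} [∀ l, Tg (S l)] [∀ l, Tg (S' l)]
    (al : ∀ l ∈ Λ.U, f.f l ∈ Λ'.U) (ord : ∀ l ∈ Λ.U, ∀ l' ∈ Λ.U, f.f l ≤ f.f l' → l ≤ l')
    (on : ∀ l ∈ Λ'.U, ∃ k, f.f k = l) (S₀ : ObjectProperty a.D) [Tg S₀] (ff : FF φ.D S₀)
    (le : ∀ l ∈ Λ.U, S l ≤ S₀) (mp : ∀ l ∈ Λ.U, S l ≤ (S' (f.f l)).inverseImage φ.D)
    (sur : ∀ l ∈ Λ.U, ∀ Y, S' (f.f l) Y → ∃ X, S l X ∧ Nonempty (φ.D.obj X ≅ Y)) :
    Deq (fmM f φ).D (cls S) (cls S') := by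
  have ff' : FF (fmM f φ).D (cls S) := by
    refine ff_of_gen (fm_gen S).le ?_
    rintro _ Y ⟨l, hl, X, p, rfl⟩ q
    have h' : f.f l ∈ (Lab.Cv.le (f.f l)).V := ⟨al l hl, le_rfl⟩
    obtain ⟨ad, e⟩ := fd_adj (a := a) (V := (Lab.Cv.le (f.f l)).pre f) (l := l)
      (Lab.Cv.ext (Set.ext fun k => ⟨fun c => ⟨f.al k c.1, ord k (f.al k c.1) l hl c.2⟩,
        fun c => ⟨al k c.1, f.f.monotone c.2⟩⟩)) h'
    obtain ⟨ad', e'⟩ := fd_adj (a := a') rfl h'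
    refine adj_bij (jM a l) (smM a _) (jM a' _) (smM a' _) φ (fmM f φ) ad ad' (fdK f φ l)
      (Fam.smIso f φ.F _) (fun Z => ?_) X Y (ff (le l hl X p)
        (gr_sm S₀ Y _ fun k c => le k (f.al k c.1) _ (q k)))
    rw [e, e']
    change _ = _ ≫ (smM a' _).F.map (𝟙 _)
    rw [CategoryTheory.Functor.map_id, Category.comp_id]
    refine (Iso.eq_comp_inv ((Fam.smIso f φ.F _).app _)).1 ?_
    simp only [Fam.smIso, Fam.ju, Iso.app_inv, NatIso.ofComponents_inv_app,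
      NatIso.ofComponents_hom_app, CategoryTheory.Functor.mapBiproduct_inv]
    erw [biproduct.ι_desc]
    rfl
  refine ⟨ff', cls_map f φ fun l c => mp l (f.al l c), fun Y p => ?_⟩
  have := ff'.tg_map
  rw [fm_gen S'] at p
  refine Cl.le (S := (cls S).map (fmM f φ).D) ?_ Y p
  rintro _ ⟨l, hl, Y, q, rfl⟩
  obtain ⟨k, rfl⟩ := on l hl
  obtain ⟨X, r, ⟨i⟩⟩ := sur k (f.al k hl) Y q
  exact ⟨(jM a k).D.obj X, jM_cls r, ⟨(((φ.comp (jM a' (f.f k))).natIso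
    ((jM a k).comp (fmM f φ)) (fdK f φ k)).app X).symm ≪≫ (jM a' (f.f k)).D.mapIso i⟩⟩

end Pool.Agent.Lib.MP_5d3e93_al.A2
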