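import Pool.Agent.Lib.MP_5d3e93_al.Br.KE
import Pool.Agent.Lib.MP_5d3e93_al.Br.FD
import Pool.Agent.Lib.MP_5d3e93_al.Br.A1Dq

/-! Relative families are chains of families. -/

open CategoryTheory Limits Pretriangulated ZeroObject Opposite Simplicial

namespace Pool.Agent.Lib.MP_5d3e93_al.A2

open Gr Am Br Lab.Cv

universe v u v' u' w w' w'' x x'

set_option backward.isDefEq.respectTransparency false

section FE
instance fd_fin (n : ℕ) : FD (Fin n) :=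
  ⟨inferInstance, fun _ _ => inferInstance, ⟨Fin.val, fun _ _ g => g.le.eq_or_lt⟩,
    fun _ _ => Subsingleton.elim _ _⟩

/-- Maps out of a diagram that is free on its value at `k`. -/
theorem fe_free {B : Type*} [Category* B] [HasZeroMorphisms B] {E : Type} [LinearOrder E]
    (D D' : E ⥤ B) (k : E) (z : ∀ e, ¬ k ≤ e → IsZero (D.obj e))
    (i : ∀ e (h : k ≤ e), IsIso (D.map h.hom)) : Function.Bijective fun g : D ⟶ D' => g.app k := by
  refine ⟨fun g g' c => NatTrans.ext (funext fun e => ?_), fun φ => ?_⟩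
  · by_cases h : k ≤ e
    · have := i e h
      rw [← cancel_epi (D.map h.hom), g.naturality, g'.naturality, show g.app k = g'.app k from c]
    · exact (z e h).eq_of_src _ _
  · refine ⟨⟨fun e => if h : k ≤ e then @inv _ _ _ _ _ (i e h) ≫ φ ≫ D'.map h.hom else 0,
      fun e e' g => ?_⟩, ?_⟩
    · by_cases h : k ≤ e
      · have := i e h
        have := i e' (h.trans g.le)
        rw [dif_pos h, dif_pos (h.trans g.le), ← cancel_epi (D.map h.hom), ← D.map_comp_assoc]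
        erw [IsIso.hom_inv_id_assoc]
        simp only [Category.assoc, IsIso.hom_inv_id_assoc, ← D'.map_comp]
        rfl
      · exact (z e h).eq_of_src _ _
    · have := i k le_rfl
      have a : (le_refl k).hom = 𝟙 k := rfl
      dsimp only
      rw [dif_pos le_rfl, IsIso.inv_comp_eq, a, D.map_id, D'.map_id, Category.id_comp,
        Category.comp_id]

section
variable {Λ Λ' : Lab} {C : Type u} [Category.{v} C] [Preadditive C]

theorem fe_iso {ι : Type} [Fintype ι] {X : ι → C} {l l' : ι → Λ.L} (e : l = l')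
    (φ : (⟨ι, l, X⟩ : Fam Λ C) ⟶ ⟨ι, l', X⟩)
    (h : ∀ i j, φ.1 i j = Fam.dia X (fun i => l i ∈ Λ.U) i j) : IsIso φ := by
  subst e
  rw [show φ = 𝟙 _ from Fam.hom_ext h]
  infer_instance

open Classical in
theorem fe_ent (f : Λ ⟶ Λ') {P Q : Fam Λ C} (φ : P ⟶ Q) (i j)
    (h : Fam.Ok (P.l i) (Q.l j) → f.f (P.l i) ∈ Λ'.U ∧ f.f (Q.l j) ∈ Λ'.U) :
    ((Fam.map f (𝟭 C)).map φ).1 i j = φ.1 i j :=
  ite_eq_left_iff.2 fun c => (Fam.e_zero φ fun o => c (h o)).symm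

variable (C) (f : Λ ⟶ Λ') (g : Λ' ⟶ Λ) (e : ∀ l, g.f (f.f l) = l)

/-- The identity matrix. -/
noncomputable def feU : 𝟭 (Fam Λ C) ⟶ Fam.map f (𝟭 C) ⋙ Fam.map g (𝟭 C) where
  app P := Fam.homMk (Fam.dia P.X fun i => P.l i ∈ Λ.U) fun i j a => Fam.dia_ne fun ⟨c, b⟩ =>
    a (c ▸ ⟨b, (congrArg (· ∈ Λ.U) (e _)).mpr b, (e _).le⟩)
  naturality P Q φ := Fam.hom_ext fun (i : P.ι) (k : Q.ι) => by
    classical
    refine (Fam.sum_dia Q.X (fun i => Q.l i ∈ Λ.U) k fun j => φ.1 i j).trans (Eq.trans ?_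
      (Fam.dia_sum P.X (fun i => P.l i ∈ Λ.U) i
        fun j => ((Fam.map f (𝟭 C) ⋙ Fam.map g (𝟭 C)).map φ).1 j k).symm)
    by_cases o : Fam.Ok (P.l i) (Q.l k)
    · have a : g.f (f.f (P.l i)) ∈ Λ.U := (e _).symm ▸ o.1
      have b : g.f (f.f (Q.l k)) ∈ Λ.U := (e _).symm ▸ o.2.1
      rw [if_pos o.1, if_pos o.2.1]
      exact ((fe_ent g ((Fam.map f (𝟭 C)).map φ) i k fun _ => ⟨a, b⟩).trans
        (fe_ent f φ i k fun _ => ⟨g.al _ a, g.al _ b⟩)).symm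
    · simp [Fam.map_e, Fam.e_zero φ o]

variable {C}

theorem feU_iso (P : Fam Λ C) : IsIso ((feU C f g e).app P) :=
  fe_iso (funext fun _ => (e _).symm) _ fun _ _ => rfl

theorem fe_adj (h : ∀ a b, Fam.Ok (f.f a) b ↔ Fam.Ok a (g.f b)) :
    ∃ ad : Fam.map f (𝟭 C) ⊣ Fam.map g (𝟭 C), ad.unit = feU C f g e := by
  classical
  have k (P : Fam Λ C) (Q : Fam Λ' C) (φ : (Fam.map f (𝟭 C)).obj P ⟶ Q) (i : P.ι) (j : Q.ι) :
      ((feU C f g e).app P ≫ (Fam.map g (𝟭 C)).map φ).1 i j = φ.1 i j := by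
    refine (Fam.dia_sum P.X (fun i => P.l i ∈ Λ.U) i
      fun i => ((Fam.map g (𝟭 C)).map φ).1 i j).trans ?_
    split_ifs with c
    · exact fe_ent g φ i j fun o => ⟨(e _).symm ▸ c, ((h _ _).1 o).2.1⟩
    · exact (Fam.e_zero φ fun o => c (f.al _ o.1)).symm
  refine Zoo.adj_of_unit _ fun P Q => ⟨fun φ ψ c => Fam.hom_ext fun i j => ?_, fun φ => ?_⟩
  · exact (k P Q φ i j).symm.trans ((congrArg (·.1 i j) c).trans (k P Q ψ i j))
  · exact ⟨Fam.homMk φ.1 fun i j o => Fam.e_zero φ fun c => o ((h _ _).2 c),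
      Fam.hom_ext fun i j => k P Q _ i j⟩
end

variable (Λ : Lab) {q : SimplexCategoryᵒᵖ}

/-- The label that jumps at `k`. -/
def feL (k : Fq q) : oL ⟶ DR.obj q :=
  ⟨⟨fun l => OrderDual.toDual ⟨fun i => if k ≤ i then LC.vl l 0 else 0, fun i j c => by
      dsimp only
      split_ifs with a b
      exacts [le_rfl, (b (a.trans c)).elim, Fin.zero_le _, le_rfl]⟩, fun l l' c i => by
      change (if k ≤ i then LC.vl l' 0 else 0) ≤ if k ≤ i then LC.vl l 0 else 0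
      split_ifs
      exacts [c 0, le_rfl]⟩, fun _ c => (if_pos (Fin.le_last k)).symm.trans c⟩

/-- The map of labels. -/
def feJ (k : Fq q) : Λ.ten oL ⟶ Λ.ten (DR.obj q) := Lab.tenm (𝟙 Λ) (feL k)

theorem fe_vx {k e : Fq q} (h : k ≤ e) (l) : (vx Λ e).f ((feJ Λ k).f l) = l :=
  Prod.ext rfl (OrderHom.ext _ _ (funext fun i =>
    (if_pos h).trans (congrArg (LC.vl l.2) (Subsingleton.elim (α := Fin 1) _ i))))

theorem fe_dead {k e : Fq q} (h : ¬ k ≤ e) (l) :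
    (vx Λ e).f ((feJ Λ k).f l) ∉ (Λ.ten oL).U := fun c =>
  absurd ((if_neg h).symm.trans c.2) (by decide)

theorem fe_ok (k : Fq q) (a b) :
    Fam.Ok ((feJ Λ k).f a) b ↔ Fam.Ok a ((vx Λ k).f b) := by
  refine ⟨fun o => ?_, fun o => ?_⟩
  · have c := (feJ Λ k).al _ o.1
    have d : (vx Λ k).f b ≤ a := fe_vx Λ le_rfl a ▸ (vx Λ k).f.monotone o.2.2
    exact ⟨c, ⟨o.2.1.1, le_antisymm (Fin.le_last _) (c.2.ge.trans (d.2 _))⟩, d⟩
  · have c : LC.vl b.2 k = 1 := o.2.1.2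
    refine ⟨(vx Λ k).al _ ((fe_vx Λ le_rfl a).symm ▸ o.1), (vx Λ k).al _ o.2.1, o.2.2.1, fun i => ?_⟩
    change (if k ≤ i then LC.vl a.2 0 else 0) ≤ LC.vl b.2 i
    split_ifs with d
    · exact (Fin.le_last _).trans (c.ge.trans ((LC.vl b.2).monotone d))
    · exact Fin.zero_le _

theorem fe_on {l} (h : l ∈ (Λ.ten (DR.obj q)).U) : ∃ (k : Fq q) (m : _), (feJ Λ k).f m = l := by
  obtain ⟨k, a, b⟩ := (Finset.univ.filter fun i => LC.vl l.2 i = 1).exists_min_image id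
    ⟨Fin.last _, Finset.mem_filter.2 ⟨Finset.mem_univ _, h.2⟩⟩
  have a := (Finset.mem_filter.1 a).2
  refine ⟨k, (l.1, OrderDual.toDual (OrderHom.const _ 1)), Prod.ext rfl
    (OrderHom.ext _ _ (funext fun i => ?_))⟩
  change (if k ≤ i then 1 else 0) = LC.vl l.2 i
  split_ifs with d
  · exact le_antisymm (a.ge.trans ((LC.vl l.2).monotone d)) (Fin.le_last _)
  · have : LC.vl l.2 i ≠ 1 := fun c => d (b i (Finset.mem_filter.2 ⟨Finset.mem_univ _, c⟩))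
    omega

variable (a : Am.{v, u})

/-- The free chain on a family. -/
noncomputable def feF (k : Fq q) :
    Map (FamA (Λ.ten oL) a) ((FamA (Λ.ten oL) a).dg False (Fq q)) :=
  (fmM (feJ Λ k) a.idm).comp (Fv Λ q a.idm)

theorem feF_zero {k e : Fq q} (h : ¬ k ≤ e) (P) : IsZero (((feF Λ a k).F.obj P).obj e) :=
  Fam.isZero_of fun _ => fe_dead Λ h _

theorem feF_iso {k e : Fq q} (h : k ≤ e) (P) : IsIso (((feF Λ a k).F.obj P).map h.hom) :=
  fe_iso (funext fun _ => (fe_vx Λ le_rfl _).trans (fe_vx Λ h _).symm) _ fun i j =>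
    (Category.id_comp _).trans (congrArg (Fam.dia P.X · i j) (funext fun _ => propext
      (and_iff_left_of_imp fun c => (congrArg (· ∈ (Λ.ten oL).U)
        ((fe_vx Λ le_rfl _).trans (fe_vx Λ h _).symm)).mp c)))

theorem feF_adj (k : Fq q) :
    ∃ ad : (feF Λ a k).F ⊣ ((FamA (Λ.ten oL) a).evd False k).F,
      ad.unit = feU a.A (feJ Λ k) (vx Λ k) (fe_vx Λ le_rfl) :=
  Zoo.adj_of_unit _ fun P D =>
    have := feU_iso (feJ Λ k) (vx Λ k) (fe_vx Λ le_rfl) P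
    (five_bij_pre (asIso ((feU a.A (feJ Λ k) (vx Λ k) (fe_vx Λ le_rfl)).app P))).comp
      (fe_free _ D k (fun _ h => feF_zero Λ a h P) fun _ h => feF_iso Λ a h P)

theorem fe_fr (k : Fq q) : ∃ l : FrD (FamA (Λ.ten oL) a) False k, l.L = feF Λ a k := by
  obtain ⟨ad, h⟩ := feF_adj Λ a k
  obtain ⟨ad', h', -⟩ := Map.exists_adj _ _ ad
  have i (P) : IsIso (ad.unit.app P) := h ▸ feU_iso _ _ _ P
  have z (Y) {e : Fq q} (c : ¬ k ≤ e) :=
    ((feF Λ a k).comp ((FamA (Λ.ten oL) a).evd False e)).isZero (feF_zero Λ a c) Y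
  refine ⟨⟨feF Λ a k, ad', fun Y => h' Y ▸ Map.isIso_nat _ _ _ i Y, fun S _ Y e y => ?_,
    fun Y e c => z Y fun d => c.elim d.hom⟩, rfl⟩
  by_cases c : k ≤ e
  · have := Map.isIso_nat (FamA (Λ.ten oL) a).idm
      ((feF Λ a k).comp ((FamA (Λ.ten oL) a).evd False e))
      (ad.unit ≫ Functor.whiskerLeft _ ((evaluation _ _).map c.hom))
      (fun P => @IsIso.comp_isIso _ _ _ _ _ _ _ (i P) (feF_iso Λ a c P)) Y
    exact S.prop_of_iso (@asIso _ _ _ _ _ this) y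
  · exact Tg.zero S (z Y c)

variable {a} in
theorem fe_bij (k : Fq q) (X) (Y) : Function.Bijective
    ((Fv Λ q a.idm).D.map : ((fmM (feJ Λ k) a.idm).D.obj X ⟶ Y) → _) := by
  obtain ⟨ad, h⟩ := fe_adj (C := a.A) (feJ Λ k) (vx Λ k) (fe_vx Λ le_rfl) (fe_ok Λ k)
  obtain ⟨ad', h'⟩ := feF_adj Λ a k
  refine adj_bij (fmM (feJ Λ k) a.idm) (fmM (vx Λ k) a.idm) (feF Λ a k)
    ((FamA (Λ.ten oL) a).evd False k) (FamA (Λ.ten oL) a).idm (Fv Λ q a.idm) ad ad' (Iso.refl _)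
    (Iso.refl _) (fun Z => ?_) X Y ?_
  · rw [h, h']
    rfl
  · rw [show (FamA (Λ.ten oL) a).idm.D.map = id from funext idm_map]
    exact Function.bijective_id

/-- `J k = fmM (tenm (𝟙 Λ) (lab k)) idm`, `lab k : oL ⟶ DR q`, `1 ↦ l k` (`l k i = 1` iff `k ≤ i`),
`0 ↦ const 0`. Adjunctions of additive functors `J k ⊣ Fam.map (vx Λ k) (𝟭 _)` and
`J k ⋙ (Fv ..).F ⊣ evaluation k` with the same unit (identity matrix, an isomorphism;
`adj_of_unit`). `ff_of_gen` with `fm_gen` (every alive label of `DR q` is some `l k`, and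
`jM (λ, l k) = jM (λ, 1)` then `J k`, `fdK`) and `adj_bij` with `φ = idm`, `κ = μ = Iso.refl`;
onto: `dg_gen` for the `FrD` made of `(J k).comp (Fv ..)`, `FF.tg_map`, `cls_map`. -/
theorem fe_deq (Λ : Lab) (q : SimplexCategoryᵒᵖ) {a : Am.{v, u}} (S : ObjectProperty a.D) [Tg S] :
    Deq (Fv Λ q a.idm).D (cls fun _ => S) (dgS False (Fq q) (cls fun _ => S)) := by
  have ff : FF (Fv Λ q a.idm).D (cls fun _ => S) := by
    refine ff_of_gen (fm_gen _).le ?_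
    rintro _ Y ⟨l, hl, X, -, rfl⟩ -
    obtain ⟨k, m, rfl⟩ := fe_on Λ hl
    exact lc_iso (((a.idm.comp (jM a _)).natIso ((jM a m).comp (fmM (feJ Λ k) a.idm))
      (fdK (feJ Λ k) a.idm m)).app X).symm (Iso.refl _) (fe_bij Λ k ((jM a m).D.obj X) Y)
  refine ⟨ff, fun X h => ⟨False.elim, fun k => cls_map (vx Λ k) a.idm (fun _ _ _ c => c) X h⟩,
    fun Y p => ?_⟩
  have := ff.tg_map
  choose l hl using fe_fr Λ a (q := q)
  rw [dg_gen l _ False.elim] at p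
  refine Cl.le (S := (cls fun _ => S).map (Fv Λ q a.idm).D) ?_ Y p
  rintro _ ⟨k, Y, y, rfl⟩
  rw [hl]
  exact ⟨_, cls_map (feJ Λ k) a.idm (fun _ _ _ c => c) Y y, ⟨Iso.refl _⟩⟩
end FE

end Pool.Agent.Lib.MP_5d3e93_al.A2
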