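import Pool.Agent.Lib.MP_5d3e93_al.Br.KE
import Pool.Agent.Lib.MP_5d3e93_al.Gr.BsI

/-! Graded pieces of the chain of a relative family. -/

open CategoryTheory Limits Pretriangulated ZeroObject Opposite Simplicial

namespace Pool.Agent.Lib.MP_5d3e93_al.A2

open Gr Am Br Lab.Cv

universe v u v' u' w w' w'' x x'

set_option backward.isDefEq.respectTransparency false

variable {a : Am.{v, u}} {c : Am.{v', u'}} {Λ Λ' : Lab}

/-- Cone, `fam_zero`. -/
theorem fam_isIso {X Y : (FamA Λ a).D} (φ : X ⟶ Y)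
    (h : ∀ l, IsIso ((smM a (one l)).D.map φ)) : IsIso φ := by
  obtain ⟨Z, s, t, d⟩ := distinguished_cocone_triangle φ
  exact (Triangle.isZero₃_iff_isIso₁ _ d).1 (fam_zero fun l =>
    (Triangle.isZero₃_iff_isIso₁ _ ((smM a (one l)).D.map_distinguished _ d)).2 (h l))

theorem cmp_one (f g : Λ ⟶ Λ') (h : ∀ l, g.f l ≤ f.f l) (l : Λ'.L) :
    Cmp ((one l).pre f) ((one l).pre g) := fun x p y q r => by
  have p2 : f.f x = l := p.2
  have q2 : g.f y = l := q.2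
  have e1 : f.f y = l := le_antisymm (p2 ▸ f.f.monotone r) (q2 ▸ h y)
  have e2 : g.f x = l := le_antisymm (p2 ▸ h x) (q2 ▸ g.f.monotone r)
  have al : l ∈ Λ'.U := p2 ▸ p.1
  exact iff_of_true ⟨e1 ▸ al, e1⟩ ⟨e2 ▸ al, e2⟩

theorem fg_sq {C : Type u} [Category.{v} C] [Preadditive C] [HasFiniteBiproducts C] {C' : Type u'}
    [Category.{v'} C'] [Preadditive C'] [HasFiniteBiproducts C'] (f g : Λ ⟶ Λ')
    (h : ∀ l, g.f l ≤ f.f l) (F : C ⥤ C') [F.Additive] (l : Λ'.L) :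
    (Fam.smIso f F (one l)).hom ≫ Functor.whiskerRight (Fam.tau f g h (𝟙 F)) (Fam.sm C' (one l)) =
      Functor.whiskerRight (Fam.eta C (cmp_one f g h l)) F ≫ (Fam.smIso g F (one l)).hom := by
  classical
  refine NatTrans.ext (funext fun P => biproduct.hom_ext _ _ fun k => ?_)
  rw [← cancel_epi (F.mapBiproduct fun i : {i // P.l i ∈ ((one l).pre f).V} => P.X i.1).inv]
  refine biproduct.hom_ext' _ _ fun i => ?_
  have e : ((Fam.tau f g h (𝟙 F)).app P).1 i.1 k.1 =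
      F.map (Fam.dia P.X (fun _ => True) i.1 k.1) := by
    rw [Fam.tau_e]
    refine (Category.id_comp _).trans (congrArg F.map ?_)
    by_cases c : i.1 = k.1
    · have a : f.f (P.l i.1) ∈ Λ'.U := i.2.1
      have b : g.f (P.l i.1) ∈ Λ'.U := c ▸ k.2.1
      simp [Fam.dia, a, b]
    · simp [Fam.dia, c]
  simp only [Fam.smIso, NatTrans.comp_app, NatIso.ofComponents_hom_app, Functor.whiskerRight_app,
    Category.assoc, Iso.inv_hom_id_assoc]
  simp [Fam.sm, Fam.eta, e]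
  erw [biproduct.lift_π]
  simp [← F.map_comp]

/-- Under `smIso` the graded piece of `tau` is `φ` of `eta` (`Map.map_nat`, `Map.nat_app_comp`). -/
theorem tau_iff (f g : Λ ⟶ Λ') (h : ∀ l, g.f l ≤ f.f l) (φ : Map a c) (X : (FamA Λ a).D) :
    IsIso (((fmM f φ).nat (fmM g φ) (Fam.tau f g h (𝟙 _))).app X) ↔ ∀ l, IsIso (φ.D.map
      (((smM a ((one l).pre f)).nat (smM a ((one l).pre g)) (Fam.eta _ (cmp_one f g h l))).app X)) :=
  by
  have key (l : Λ'.L) : IsIso ((smM c (one l)).D.map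
      (((fmM f φ).nat (fmM g φ) (Fam.tau f g h (𝟙 _))).app X)) ↔ IsIso (φ.D.map
      (((smM a ((one l).pre f)).nat (smM a ((one l).pre g))
        (Fam.eta _ (cmp_one f g h l))).app X)) := by
    rw [Map.map_nat, Map.map_nat]
    have e1 := Map.nat_app_comp ((smM a ((one l).pre f)).comp φ) ((fmM f φ).comp (smM c (one l)))
      ((fmM g φ).comp (smM c (one l))) _ _ _ (fg_sq f g h φ.F l) X
    have e2 := Map.nat_app_comp ((smM a ((one l).pre f)).comp φ) ((smM a ((one l).pre g)).comp φ)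
      ((fmM g φ).comp (smM c (one l))) (Functor.whiskerRight (Fam.eta _ (cmp_one f g h l)) φ.F)
      (Fam.smIso g φ.F (one l)).hom _ rfl X
    have i1 := (smD f φ (one l) X).isIso_hom
    have i2 := (smD g φ (one l) X).isIso_hom
    exact (@isIso_comp_left_iff _ _ _ _ _ _ _ i1).symm.trans ((iff_of_eq (congrArg IsIso
      (e1.trans e2.symm))).trans (@isIso_comp_right_iff _ _ _ _ _ _ _ i2))
  exact ⟨fun _ l => (key l).1 inferInstance, fun k => fam_isIso _ fun l => (key l).2 (k l)⟩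

theorem fg_mem {q : SimplexCategoryᵒᵖ} (k : Fq q) (l : (Λ.ten oL).L)
    (x : (Λ.ten (DR.obj q)).L) : x ∈ ((one l).pre (vx Λ k)).V ↔
      (x.1 ∈ Λ.U ∧ x.1 = l.1 ∧ LC.vl l.2 0 = 1) ∧ LC.vl x.2 k = 1 := by
  refine ⟨fun p => ?_, fun p => ⟨⟨p.1.1, p.2⟩, Prod.ext p.1.2.1 ?_⟩⟩
  · obtain rfl : (vx Λ k).f x = l := p.2
    exact ⟨⟨p.1.1, rfl, p.1.2⟩, p.1.2⟩
  · exact OrderHom.ext _ _ (funext fun i => by
      obtain rfl : i = 0 := Subsingleton.elim (α := Fin 1) _ _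
      exact p.2.trans p.1.2.2.symm)

/-- The labels that jump between two vertices. -/
def fgW {q : SimplexCategoryᵒᵖ} (k k' : Fq q) (l : (Λ.ten oL).L) : (Λ.ten (DR.obj q)).Cv :=
  ⟨((one l).pre (vx Λ k')).V ∩ {x | LC.vl x.2 k ≠ 1}, fun _ p => Lab.Cv.sub _ p.1,
    (Lab.Cv.conv _).inter ⟨fun _ p _ _ y r c => p (le_antisymm (Fin.le_last _)
      (c.ge.trans ((show LC.vl y.2 ≤ _ from r.1.2) k)))⟩⟩

theorem fg_cut {q : SimplexCategoryᵒᵖ} {k k' : Fq q} (h : k ≤ k') (l : (Λ.ten oL).L) :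
    Cut ((one l).pre (vx Λ k)) ((one l).pre (vx Λ k')) (fgW k k' l) := by
  refine ⟨fun x => ⟨fun p => ?_, fun p => p.elim (fun r => ?_) (·.1)⟩, fun x p y r c => r.2
    (le_antisymm (Fin.le_last _) (((fg_mem k l x).1 p).2.ge.trans
      ((show LC.vl x.2 ≤ _ from c.2) k)))⟩
  · by_cases c : LC.vl x.2 k = 1
    exacts [.inl ((fg_mem k l x).2 ⟨((fg_mem k' l x).1 p).1, c⟩), .inr ⟨p, c⟩]
  · obtain ⟨r1, r2⟩ := (fg_mem k l x).1 r
    exact (fg_mem k' l x).2 ⟨r1, le_antisymm (Fin.le_last _)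
      (r2.ge.trans ((LC.vl x.2).monotone h))⟩

theorem fg_iff (φ : Map a c) {q : SimplexCategoryᵒᵖ} {k k' : Fq q} (h : k ≤ k')
    (l : (Λ.ten oL).L) (X : (FamA (Λ.ten (DR.obj q)) a).D) :
    IsIso (φ.D.map (((smM a ((one l).pre (vx Λ k))).nat (smM a ((one l).pre (vx Λ k')))
      (Fam.eta _ (cmp_one _ _ (vx_le Λ h) l))).app X)) ↔
      IsZero (φ.D.obj ((smM a (fgW k k' l)).D.obj X)) := by
  obtain ⟨δ, t⟩ := cut_tri (f₁ := smM a _) (f := smM a _) (f₂ := smM a (fgW k k' l))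
    (Fam.eta_zero (fg_cut h l)) (Fam.eta_split (fg_cut h l)) X
  exact (Triangle.isZero₃_iff_isIso₁ _ (φ.D.map_distinguished _ t)).symm

/-- `(evm g).app ((Fv Λ q φ).D.obj X)` is the `nat` of `tau` (`Map.nat_obj`); `tau_iff`; the cut
`(V k, V k', V k' \ V k)`, `V k = (one l).pre (vx Λ k)`, `cut_tri`, `gr_sm`; labels in the
difference are not constant. -/
theorem fv_cls {N S : Cls a} (h : N ≤ S) (φ : Map a c) {S' : ObjectProperty c.D} [Tg S']
    (k : S.1 ≤ S'.inverseImage φ.D) (z : ∀ X, N.1 X → IsZero (φ.D.obj X)) (Λ : Lab)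
    (q : SimplexCategoryᵒᵖ) : cls (Λ := Λ.ten (DR.obj q)) (fun l => (((LC.Rq h).obj q).c l.2).1) ≤
      (dgP False (Fq q) (cls fun _ => S')).inverseImage (Fv Λ q φ).D := fun X s => by
  have := N.2
  refine ⟨fun e => cls_map (vx Λ e) φ (S' := fun _ => S') (fun l _ => le_trans ?_ k) X s,
    fun e e' g => ?_⟩
  · dsimp only [LC.Rq]
    split_ifs
    exacts [le_rfl, h]
  · rw [evm, Map.nat_obj]
    refine (tau_iff _ _ (vx_le Λ g.le) φ X).2 fun l => (fg_iff φ g.le l X).2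
      (z _ (gr_sm N.1 X _ fun x p => ?_))
    have := s x
    dsimp only [LC.Rq] at this
    rwa [if_neg fun c => p.2 (le_antisymm (Fin.le_last _)
      (c.ge.trans ((LC.vl x.2).monotone (Fin.zero_le _))))] at this

/-- An alive label `l` with `l 0 ≠ 1` jumps at some `k < k + 1`; there the difference of the cut is
the single label `(λ, l)`. -/
theorem fv_cls' {N S : Cls a} (h : N ≤ S) (φ : Map a c) {P : ObjectProperty (FamA (Λ.ten oL) c).D}
    (th : ∀ X, S.1 X → IsZero (φ.D.obj X) → N.1 X) (q : SimplexCategoryᵒᵖ)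
    (X : (FamA (Λ.ten (DR.obj q)) a).D) (s : cls (fun _ => S.1) X)
    (k : dgP False (Fq q) P ((Fv Λ q φ).D.obj X)) :
    cls (Λ := Λ.ten (DR.obj q)) (fun l => (((LC.Rq h).obj q).c l.2).1) X := fun l => by
  have := N.2
  dsimp only [LC.Rq]
  split_ifs with c0
  · exact s l
  by_cases al : l ∈ (Λ.ten (DR.obj q)).U
  swap
  · exact Tg.zero _ ((smM a (one l)).isZero
      (fun _ => Fam.sm_isZero fun _ c => al (c.2 ▸ c.1)) X)
  obtain ⟨i, i1, i2⟩ : ∃ i : Fin q.unop.len, LC.vl l.2 i.castSucc ≠ 1 ∧ LC.vl l.2 i.succ = 1 := by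
    by_contra! n
    exact (Fin.induction c0 n (Fin.last _) : LC.vl l.2 (Fin.last _) ≠ 1) al.2
  let o : (Λ.ten oL).L := (l.1, OrderDual.toDual (OrderHom.const _ 1))
  have e : fgW i.castSucc i.succ o = one l := by
    refine Lab.Cv.ext (Set.ext fun x => ⟨fun p => ?_, fun p => ?_⟩)
    · obtain ⟨⟨-, p1, -⟩, p2⟩ := (fg_mem _ o x).1 p.1
      refine ⟨Lab.Cv.sub _ p, Prod.ext p1 (OrderHom.ext _ _ (funext fun j => ?_))⟩
      change LC.vl x.2 j = LC.vl l.2 j
      have p3 : LC.vl x.2 i.castSucc ≠ 1 := p.2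
      rcases le_or_gt j i.castSucc with r | r
      · have a1 := (LC.vl x.2).monotone r
        have a2 := (LC.vl l.2).monotone r
        omega
      · have a1 := (LC.vl x.2).monotone (Fin.castSucc_lt_iff_succ_le.1 r)
        have a2 := (LC.vl l.2).monotone (Fin.castSucc_lt_iff_succ_le.1 r)
        omega
    · obtain rfl : x = l := p.2
      exact ⟨(fg_mem _ o x).2 ⟨⟨al.1, rfl, rfl⟩, i2⟩, i1⟩
  have r := k.2 _ _ (homOfLE (Fin.castSucc_le_succ i))
  rw [evm, Map.nat_obj] at r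
  exact th _ (s l) (e ▸ (fg_iff φ (Fin.castSucc_le_succ i) o X).1
    ((tau_iff _ _ (vx_le Λ (Fin.castSucc_le_succ i)) φ X).1 r o))

end Pool.Agent.Lib.MP_5d3e93_al.A2
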