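import Pool.Agent.Lib.MP_5d3e93_al.Br.FD
import Pool.Agent.Lib.MP_5d3e93_al.Gr.KnL
import Pool.Agent.Lib.MP_5d3e93_al.Gr.LocC

/-! Localisation sequences pass to labelled families. -/

open CategoryTheory Limits Pretriangulated ZeroObject Opposite Simplicial

namespace Pool.Agent.Lib.MP_5d3e93_al.A2

open Gr Am Br Lab.Cv

universe v u v' u' w w' w'' x x'

set_option backward.isDefEq.respectTransparency false

section FL
variable {a : Am.{v, u}} {c : Am.{v', u'}} {N S : ObjectProperty a.D} [Tg N] [Tg S]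
  {S' : ObjectProperty c.D} [Tg S']

/-- The map out of the quotient. -/
def quoD (f : Map a c) (h : ∀ X, N X → IsZero (f.D.obj X)) : Map (a.quo N) c where
  F := f.F
  add := f.add
  hT _ k := h _ k

/-- The map out of the quotient composed with the projection. -/
noncomputable def flE (f : Map a c) (h : ∀ X, N X → IsZero (f.D.obj X)) :
    (a.π N).D ⋙ (quoD f h).D ≅ f.D :=
  ((a.π N).compD (quoD f h)).symm ≪≫
    ((a.π N).comp (quoD f h)).natIso f (Functor.leftUnitor f.F)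

theorem fl_on (le : N ≤ S) : LocOn (a.π N).D N S :=
  have := π_isLocalization (N := N)
  locOn_of_isLocalization le

theorem fl_zero (f : Map a c) (h : ∀ X, N X → IsZero (f.D.obj X)) {Y : a.D}
    (z : IsZero ((a.π N).D.obj Y)) : IsZero (f.D.obj Y) :=
  ((quoD f h).D.map_isZero z).of_iso ((flE f h).app Y).symm

/-- Both `π N` (`quo_loc`) and `f` have the calculus of fractions for `N` on `S`. -/
theorem loc_quo {f : Map a c} (h : Loc f.D N S S') :
    Deq (quoD f h.kill).D (S.map (a.π N).D) S' where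
  ff := (fl_on h.le).ff_of_fac (flE f h.kill) h.toLocOn
  maps := by
    rintro _ ⟨X, p, ⟨i⟩⟩
    exact S'.prop_of_iso (((flE f h.kill).app X).symm ≪≫ (quoD f h.kill).D.mapIso i) (h.maps X p)
  surj Y p := by
    obtain ⟨X, q, ⟨i⟩⟩ := h.surj Y p
    exact ⟨_, S.prop_map_obj _ q, ⟨(flE f h.kill).app X ≪≫ i⟩⟩

theorem fl_ff (i : Map a c) (j : Map c a) (h : i.comp j = a.idm) (k : j.comp i = c.idm)
    (P : ObjectProperty a.D) : FF i.D P := fun _ _ _ _ =>
  (CategoryTheory.Equivalence.mk i.D j.D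
    (eqToIso (idm_D.symm.trans ((congrArg Map.D h).symm.trans (i.comp_D j))))
    (eqToIso ((j.comp_D i).symm.trans ((congrArg Map.D k).trans
      idm_D)))).fullyFaithfulFunctor.map_bijective _ _

theorem fl_kill (Λ : Lab) (f : Map a c) (h : ∀ X, N X → IsZero (f.D.obj X)) (X : (FamA Λ a).D)
    (p : cls (fun _ => N) X) : IsZero ((fmM (𝟙 Λ) f).D.obj X) :=
  fam_zero (cls_map (𝟙 Λ) f (S' := fun _ => Zr) (fun _ _ => h) X p)

/-- The identity functor from families over the quotient to the quotient of the families. -/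
noncomputable def flJ (Λ : Lab) (N : ObjectProperty a.D) [Tg N] :
    Map (FamA Λ (a.quo N)) ((FamA Λ a).quo (cls fun _ => N)) where
  F := 𝟭 (Fam Λ a.A)
  add := inferInstanceAs (𝟭 (Fam Λ a.A)).Additive
  hT X h := by
    have k : cls (fun _ => Zr.inverseImage (a.π N).D) ((FamA Λ a).Q.obj X) := h
    rw [fm_gen] at k
    refine Cl.le (S := Zr.inverseImage ((FamA Λ a).π (cls fun _ => N)).D) ?_ _ k
    rintro _ ⟨l, -, Y, z, rfl⟩
    exact fl_zero ((jM a l).comp ((FamA Λ a).π (cls fun _ => N)))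
      (fun Z p => (fl_on (le_refl _)).kill _ (jM_cls p)) z

theorem fl_pi (Λ : Lab) (le : N ≤ S) :
    LocOn (fmM (𝟙 Λ) (a.π N)).D (cls fun _ => N) (cls fun _ => S) :=
  (fl_on fun X p l => le _ (p l)).comp_ff
    (flE _ (fl_kill Λ (a.π N) (fl_on le).kill))
    (fl_ff (quoD (fmM (𝟙 Λ) (a.π N)) (fl_kill Λ (a.π N) (fl_on le).kill)) (flJ Λ N)
      (map_ext (Fam.map_id (C := a.A))) (map_ext (Fam.map_id (C := a.A))) _)

open Classical in
theorem fl_j {Λ : Lab} (f : Map a c) (l : Λ.L) :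
    (jM a l).comp (fmM (𝟙 Λ) f) = f.comp (jM c l) :=
  map_ext (Functor.hext (fun _ => rfl) fun X Y φ => heq_of_eq (Fam.hom_ext fun i j => by
    change (if l ∈ Λ.U ∧ l ∈ Λ.U then f.F.map (if l ∈ Λ.U then φ else 0) else 0) =
      if l ∈ Λ.U then f.F.map φ else 0
    by_cases h : l ∈ Λ.U <;> simp [h]))

/-- Localisation sequences pass to families. -/
theorem fm_loc (Λ : Lab) {f : Map a c} (h : Loc f.D N S S') :
    Loc (fmM (𝟙 Λ) f).D (cls fun _ => N) (cls fun _ => S) (cls fun _ => S') := by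
  have := (fl_on h.le).tg_map
  have q := loc_quo h
  have d := fm_deq (𝟙 Λ) (quoD f h.kill) (S := fun _ => S.map (a.π N).D) (S' := fun _ => S')
    (fun _ p => p) (fun _ _ _ _ p => p) (fun l _ => ⟨l, rfl⟩) _ q.ff (fun _ _ => le_rfl)
    (fun _ _ => q.maps) fun _ _ => q.surj
  have e : (fmM (𝟙 Λ) (a.π N)).comp (fmM (𝟙 Λ) (quoD f h.kill)) = fmM (𝟙 Λ) f :=
    map_ext (Fam.map_comp (𝟙 Λ) (𝟙 Λ) (𝟭 a.A) f.F).symm
  have m : (cls fun _ => S).map (fmM (𝟙 Λ) (a.π N)).D ≤ cls fun _ => S.map (a.π N).D := by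
    rintro _ ⟨X, p, ⟨i⟩⟩
    exact (cls _).prop_of_iso i
      (cls_map (𝟙 Λ) (a.π N) (S' := fun _ => S.map (a.π N).D)
        (fun _ _ _ r => S.prop_map_obj _ r) X p)
  have o : LocOn (fmM (𝟙 Λ) f).D (cls fun _ => N) (cls fun _ => S) :=
    (fl_pi Λ h.le).comp_ff (eqToIso ((Map.comp_D _ _).symm.trans (congrArg Map.D e)))
      fun X Y p r => d.ff (m X p) (m Y r)
  have := o.tg_map
  refine ⟨o, fun X p z l => h.thick _ (p l)
    (((smM c (one l)).D.map_isZero z).of_iso (smD (𝟙 Λ) f (one l) X)),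
    cls_map (𝟙 Λ) f fun _ _ => h.maps, ?_⟩
  rw [fm_gen fun _ => S']
  refine Cl.le (S := (cls fun _ => S).map (fmM (𝟙 Λ) f).D) ?_
  rintro _ ⟨l, -, Y, p, rfl⟩
  obtain ⟨X, r, ⟨i⟩⟩ := h.surj Y p
  exact ⟨_, jM_cls r, ⟨eqToIso (congrArg (·.D.obj X) (fl_j f l)) ≪≫ (jM c l).D.mapIso i⟩⟩
end FL

end Pool.Agent.Lib.MP_5d3e93_al.A2
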