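import Pool.Agent.Lib.MP_5d3e93_al.Br.KE
import Pool.Agent.Lib.MP_5d3e93_al.Br.Pc
import Pool.Agent.Lib.MP_5d3e93_al.Br.KZ

/-! Weakly equivalent maps agree on homology. -/

open CategoryTheory Limits Pretriangulated ZeroObject Opposite Simplicial

namespace Pool.Agent.Lib.MP_5d3e93_al.A2

open Gr Am Br Lab.Cv

universe v u w

set_option backward.isDefEq.respectTransparency false

/-- The path object argument `kz_weq` for the functor `K ⋙ HH j`. -/
theorem fp_weq (K : Tp.{v, u} ⥤ SA.{w})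
    (hK : ∀ {x y : Tp.{v, u}} (f : x ⟶ y), Deq f.f.D x.S y.S → ∀ b, Cn b (CC.map (K.map f)))
    {x y : Tp.{v, u}} (f g : x ⟶ y) (α : f.f.F ⟶ g.f.F)
    (h : ∀ X, x.S X → IsIso ((f.f.nat g.f α).app X)) (j : ℕ) :
    (HH j).map (K.map f) = (HH j).map (K.map g) :=
  kz_weq (K ⋙ HH j) (fun f d => (hK f d (j + 1)).epi (Nat.lt_succ_self j)) f g α h

end Pool.Agent.Lib.MP_5d3e93_al.A2
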