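import Pool.Agent.Lib.MP_5d3e93_al.Br.Lab

/-! Sums, subquotients and comparison maps for labelled families. -/

open CategoryTheory Limits ZeroObject Opposite

namespace Pool.Agent.Lib.MP_5d3e93_al.A2

universe v u v' u'

set_option backward.isDefEq.respectTransparency false

/-- Convex sets of alive labels. -/
@[ext] structure Lab.Cv (Λ : Lab) where
  V : Set Λ.L
  sub : V ⊆ Λ.U
  conv : V.OrdConnected

namespace Lab.Cv

variable {Λ Λ' : Lab}

/-- One label. -/
def one (l : Λ.L) : Λ.Cv := ⟨Λ.U ∩ {l}, Set.inter_subset_left, Λ.conv.inter Set.ordConnected_singleton⟩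

/-- The labels below a label. -/
def le (l : Λ.L) : Λ.Cv := ⟨Λ.U ∩ Set.Iic l, Set.inter_subset_left, Λ.conv.inter Set.ordConnected_Iic⟩

/-- The preimage. -/
def pre (f : Λ ⟶ Λ') (V : Λ'.Cv) : Λ.Cv :=
  ⟨f.f ⁻¹' V.V, fun l h => f.al l (V.sub h), V.conv.preimage_mono f.f.monotone⟩

/-- The condition for the identity matrix to be natural. -/
def Cmp (V W : Λ.Cv) : Prop := ∀ a ∈ V.V, ∀ b ∈ W.V, b ≤ a → (b ∈ V.V ↔ a ∈ W.V)

/-- `V` is the union of the lower part `V₁` and the upper part `V₂`. -/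
structure Cut (V₁ V V₂ : Λ.Cv) : Prop where
  mem : ∀ a, a ∈ V.V ↔ a ∈ V₁.V ∨ a ∈ V₂.V
  lt : ∀ a ∈ V₁.V, ∀ b ∈ V₂.V, ¬ b ≤ a

variable {V₁ V V₂ : Λ.Cv}

theorem Cut.cmp₁ (h : Cut V₁ V V₂) : Cmp V₁ V := fun a p b q r =>
  iff_of_true (((h.mem b).1 q).resolve_right fun s => h.lt a p b s r) ((h.mem a).2 (.inl p))

theorem Cut.cmp₂ (h : Cut V₁ V V₂) : Cmp V V₂ := fun a p b q r =>
  iff_of_true ((h.mem b).2 (.inr q)) (((h.mem a).1 p).resolve_left fun s => h.lt a s b q r)

theorem Cmp.pre (f : Λ' ⟶ Λ) {W : Λ.Cv} (h : Cmp V W) : Cmp (V.pre f) (W.pre f) :=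
  fun _ p _ q r => h _ p _ q (f.f.monotone r)

end Lab.Cv

namespace Fam

open Classical

variable {Λ Λ' : Lab} {C : Type u} [Category.{v} C] [Preadditive C]
  {C' : Type u'} [Category.{v'} C'] [Preadditive C']

/-- The union of two families. -/
abbrev sum (P Q : Fam Λ C) : Fam Λ C := ⟨P.ι ⊕ Q.ι, Sum.elim P.l Q.l, Sum.elim P.X Q.X⟩

instance : HasBinaryBiproducts (Fam Λ C) := ⟨fun P Q => hasBinaryBiproduct_of_total
  { pt := P.sum Q
    fst := homMk (fun i j => Sum.rec (motive := fun i => (P.sum Q).X i ⟶ P.X j)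
      (fun i => (𝟙 P : P ⟶ P).1 i j) (fun _ => 0) i) (by
        rintro (i | i) j a
        exacts [e_zero (𝟙 P) a, rfl])
    snd := homMk (fun i j => Sum.rec (motive := fun i => (P.sum Q).X i ⟶ Q.X j)
      (fun _ => 0) (fun i => (𝟙 Q : Q ⟶ Q).1 i j) i) (by
        rintro (i | i) j a
        exacts [rfl, e_zero (𝟙 Q) a])
    inl := homMk (fun i j => Sum.rec (motive := fun j => P.X i ⟶ (P.sum Q).X j)
      (fun j => (𝟙 P : P ⟶ P).1 i j) (fun _ => 0) j) (by
        rintro i (j | j) a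
        exacts [e_zero (𝟙 P) a, rfl])
    inr := homMk (fun i j => Sum.rec (motive := fun j => Q.X i ⟶ (P.sum Q).X j)
      (fun _ => 0) (fun j => (𝟙 Q : Q ⟶ Q).1 i j) j) (by
        rintro i (j | j) a
        exacts [rfl, e_zero (𝟙 Q) a])
    inl_fst := hom_ext fun i j => by
      rw [comp_e, Fintype.sum_sum_type]
      simp [← comp_e]
    inl_snd := hom_ext fun i j => by
      rw [comp_e, Fintype.sum_sum_type]
      simp
    inr_fst := hom_ext fun i j => by
      rw [comp_e, Fintype.sum_sum_type]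
      simp
    inr_snd := hom_ext fun i j => by
      rw [comp_e, Fintype.sum_sum_type]
      simp [← comp_e] }
  (hom_ext (by
    rintro (i | i) (j | j)
    · have := congrArg (fun t : P ⟶ P => t.1 i j) (Category.comp_id (𝟙 P))
      simp only [comp_e] at this
      simp [comp_e, this]
      simp [id_e, dia, sum]
    · simp [comp_e, id_e, dia]
    · simp [comp_e, id_e, dia]
    · have := congrArg (fun t : Q ⟶ Q => t.1 i j) (Category.comp_id (𝟙 Q))
      simp only [comp_e] at this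
      simp [comp_e, this]
      simp [id_e, dia, sum]))⟩

/-- The comparison map for labels that go down. -/
noncomputable def tau (f g : Λ ⟶ Λ') (h : ∀ l, g.f l ≤ f.f l) {F G : C ⥤ C'} [F.Additive]
    [G.Additive] (α : F ⟶ G) : map f F ⟶ map g G where
  app P := homMk (fun i j => α.app (P.X i) ≫
    G.map (dia P.X (fun i => f.f (P.l i) ∈ Λ'.U ∧ g.f (P.l i) ∈ Λ'.U) i j)) fun i j a => by
      rw [dia_ne fun ⟨e, b⟩ => a (e ▸ ⟨b.1, b.2, h _⟩), G.map_zero, comp_zero]
  naturality P Q φ := hom_ext fun (i : P.ι) (k : Q.ι) => by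
    refine ((Finset.sum_eq_single (ι := Q.ι) k (fun j _ c => by simp [dia, c]) (by simp)).trans
      ?_).trans (Finset.sum_eq_single (ι := P.ι) i (fun j _ c => by simp [dia, c.symm])
        (by simp)).symm
    simp only [homMk_e, map_e]
    by_cases o : Ok (P.l i) (Q.l k)
    · by_cases a : f.f (P.l i) ∈ Λ'.U ∧ g.f (Q.l k) ∈ Λ'.U
      · have b := Lab.mid a.2 a.1 (h _) (f.f.monotone o.2.2)
        have c := Lab.mid a.2 a.1 (g.f.monotone o.2.2) (h _)
        simp [dia, a.1, a.2, b, c]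
      · rcases not_and_or.1 a with c | c <;> simp [dia, c]
    · simp [e_zero φ o]

theorem tau_e (f g : Λ ⟶ Λ') (h : ∀ l, g.f l ≤ f.f l) {F G : C ⥤ C'} [F.Additive]
    [G.Additive] (α : F ⟶ G) (P : Fam Λ C) (i j : P.ι) : ((tau f g h α).app P).1 i j =
    α.app (P.X i) ≫ G.map (dia P.X (fun i => f.f (P.l i) ∈ Λ'.U ∧ g.f (P.l i) ∈ Λ'.U) i j) := rfl

variable (C) in
/-- One object with the label `l`. -/
noncomputable def jl (l : Λ.L) : C ⥤ Fam Λ C where
  obj X := ⟨Unit, fun _ => l, fun _ => X⟩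
  map φ := homMk (fun _ _ => if l ∈ Λ.U then φ else 0) fun _ _ a =>
    if_neg fun h => a ⟨h, h, le_rfl⟩
  map_id X := hom_ext fun i j => by
    by_cases h : l ∈ Λ.U <;> simp [id_e, dia, h]
  map_comp φ ψ := hom_ext fun i j => by
    by_cases h : l ∈ Λ.U <;> simp [comp_e, h]

instance (l : Λ.L) : (jl C l).Additive := ⟨hom_ext fun _ _ => by
  by_cases h : l ∈ Λ.U <;> simp [jl, h]⟩

variable [HasFiniteBiproducts C] [HasFiniteBiproducts C']

variable (C) in
/-- The sum of the members with label in `V`. -/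
noncomputable def sm (V : Λ.Cv) : Fam Λ C ⥤ C where
  obj P := ⨁ fun i : {i // P.l i ∈ V.V} => P.X i.1
  map φ := biproduct.matrix fun i j => φ.1 i.1 j.1
  map_id P := biproduct.hom_ext _ _ fun j => biproduct.hom_ext' _ _ fun i => by
    by_cases e : i = j
    · subst e
      simp [id_e, dia, V.sub i.2]
    · simp [id_e, dia, Subtype.ext_iff.not.1 e, biproduct.ι_π_ne _ e]
  map_comp {P Q R} φ ψ := biproduct.hom_ext _ _ fun k => biproduct.hom_ext' _ _ fun i => by
    simp only [biproduct.matrix_π, biproduct.ι_desc, Category.assoc, biproduct.ι_matrix_assoc,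
      biproduct.lift_desc, comp_e]
    rw [← Finset.sum_subtype (Finset.univ.filter fun j => Q.l j ∈ V.V) (by simp)
      fun j => φ.1 i.1 j ≫ ψ.1 j k.1]
    refine (Finset.sum_subset (Finset.filter_subset _ _) fun j _ c => ?_).symm
    by_cases a : Ok (P.l i.1) (Q.l j)
    · rw [e_zero ψ fun b => c (by simpa using V.conv.out k.2 i.2 ⟨b.2.2, a.2.2⟩), comp_zero]
    · rw [e_zero φ a, zero_comp]

instance (V : Λ.Cv) : (sm C V).Additive := ⟨biproduct.hom_ext _ _ fun k =>
  biproduct.hom_ext' _ _ fun i => by simp [sm]⟩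

variable (C) in
/-- The identity matrix between two sums. -/
noncomputable def eta {V W : Λ.Cv} (h : V.Cmp W) : sm C V ⟶ sm C W where
  app P := biproduct.matrix fun i j => dia P.X (fun _ => True) i.1 j.1
  naturality P Q φ := biproduct.hom_ext _ _ fun k => biproduct.hom_ext' _ _ fun i => by
    simp only [sm, biproduct.matrix_π, Category.assoc, biproduct.ι_matrix_assoc,
      biproduct.lift_desc]
    rw [← Finset.sum_subtype (Finset.univ.filter fun j => Q.l j ∈ V.V) (by simp)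
      fun j => φ.1 i.1 j ≫ dia Q.X (fun _ => True) j k.1,
      ← Finset.sum_subtype (Finset.univ.filter fun j => P.l j ∈ W.V) (by simp)
      fun j => dia P.X (fun _ => True) i.1 j ≫ φ.1 j k.1, Finset.sum_filter, Finset.sum_filter,
      Finset.sum_eq_single k.1 (fun j _ c => by simp [dia, c]) (by simp),
      Finset.sum_eq_single i.1 (fun j _ c => by simp [dia, c.symm]) (by simp)]
    by_cases o : Ok (P.l i.1) (Q.l k.1)
    · simp [dia, h _ i.2 _ k.2 o.2.2]
    · simp [e_zero φ o]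

/-- Diagonal matrices between two sums. -/
noncomputable def dm (P : Fam Λ C) (V W : Λ.Cv) (p : P.ι → Prop) :
    (sm C V).obj P ⟶ (sm C W).obj P := biproduct.matrix fun i j => dia P.X p i.1 j.1

theorem eta_app {V W : Λ.Cv} (h : V.Cmp W) (P : Fam Λ C) :
    (eta C h).app P = dm P V W fun _ => True := rfl

theorem dm_comp (P : Fam Λ C) (V W Z : Λ.Cv) (p q : P.ι → Prop) :
    dm P V W p ≫ dm P W Z q = dm P V Z fun i => p i ∧ P.l i ∈ W.V ∧ q i :=
  biproduct.hom_ext _ _ fun k => biproduct.hom_ext' _ _ fun i => by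
    simp only [dm, sm, biproduct.matrix_π, Category.assoc, biproduct.ι_matrix_assoc,
      biproduct.lift_desc, biproduct.ι_desc]
    rw [← Finset.sum_subtype (Finset.univ.filter fun j => P.l j ∈ W.V) (by simp)
      fun j => dia P.X p i.1 j ≫ dia P.X q j k.1, Finset.sum_filter,
      Finset.sum_eq_single i.1 (fun j _ c => by simp [dia, c.symm]) (by simp)]
    by_cases e : i.1 = k.1
    · by_cases a : p i.1 <;> by_cases b : P.l i.1 ∈ W.V <;> by_cases c : q i.1 <;>
        simp [dia, a, b, c, ← e]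
    · simp [dia, e]

theorem dm_add (P : Fam Λ C) (V W : Λ.Cv) {p q r : P.ι → Prop}
    (h : ∀ i, P.l i ∈ V.V → P.l i ∈ W.V → (r i ↔ p i ∨ q i) ∧ ¬ (p i ∧ q i)) :
    dm P V W p + dm P V W q = dm P V W r :=
  biproduct.hom_ext _ _ fun k => biproduct.hom_ext' _ _ fun i => by
    simp only [dm, sm, biproduct.matrix_π, Preadditive.add_comp, Preadditive.comp_add,
      biproduct.ι_desc]
    by_cases e : i.1 = k.1
    · obtain ⟨a, b⟩ := h i.1 i.2 (e ▸ k.2)
      by_cases c : p i.1 <;> by_cases d : q i.1 <;> simp_all [dia]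
    · simp [dia, e]

theorem dm_id (P : Fam Λ C) (V : Λ.Cv) {p : P.ι → Prop} (h : ∀ i, P.l i ∈ V.V → p i) :
    dm P V V p = 𝟙 _ :=
  biproduct.hom_ext _ _ fun j => biproduct.hom_ext' _ _ fun i => by
    by_cases e : i = j
    · subst e
      simp [dm, sm, dia, h _ i.2]
    · simp [dm, sm, dia, Subtype.ext_iff.not.1 e, biproduct.ι_π_ne _ e]

theorem dm_zero (P : Fam Λ C) (V W : Λ.Cv) {p : P.ι → Prop}
    (h : ∀ i, P.l i ∈ V.V → P.l i ∈ W.V → ¬ p i) : dm P V W p = 0 :=
  biproduct.hom_ext _ _ fun k => biproduct.hom_ext' _ _ fun i => by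
    simp only [dm, sm, biproduct.matrix_π, biproduct.ι_desc, zero_comp, comp_zero]
    exact dia_ne fun ⟨e, a⟩ => h _ i.2 (e ▸ k.2) a

variable {V₁ V V₂ : Λ.Cv}

theorem eta_zero (h : Lab.Cv.Cut V₁ V V₂) : eta C h.cmp₁ ≫ eta C h.cmp₂ = 0 :=
  NatTrans.ext (funext fun _ => (dm_comp ..).trans
    (dm_zero _ _ _ fun _ a b _ => h.lt _ a _ b le_rfl))

theorem eta_split (h : Lab.Cv.Cut V₁ V V₂) (P : Fam Λ C) : ∃ r s,
    (eta C h.cmp₁).app P ≫ r = 𝟙 _ ∧ s ≫ (eta C h.cmp₂).app P = 𝟙 _ ∧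
      r ≫ (eta C h.cmp₁).app P + (eta C h.cmp₂).app P ≫ s = 𝟙 _ :=
  ⟨dm P V V₁ fun _ => True, dm P V₂ V fun _ => True,
    (dm_comp ..).trans (dm_id _ _ fun _ a => ⟨trivial, (h.mem _).2 (.inl a), trivial⟩),
    (dm_comp ..).trans (dm_id _ _ fun _ a => ⟨trivial, (h.mem _).2 (.inr a), trivial⟩),
    (congrArg₂ (· + ·) (dm_comp ..) (dm_comp ..)).trans
      ((dm_add (r := fun _ => True) P V V fun _ a _ => ⟨by simpa using (h.mem _).1 a,
        fun b => h.lt _ b.1.2.1 _ b.2.2.1 le_rfl⟩).trans (dm_id _ _ fun _ _ => trivial))⟩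

theorem sm_isZero {P : Fam Λ C} (h : ∀ i, P.l i ∉ V.V) : IsZero ((sm C V).obj P) :=
  (IsZero.iff_id_eq_zero _).2 (biproduct.hom_ext _ _ fun k => (h _ k.2).elim)

/-- Sums commute with the functors of families. -/
noncomputable def smIso (f : Λ ⟶ Λ') (F : C ⥤ C') [F.Additive] (V : Λ'.Cv) :
    sm C (V.pre f) ⋙ F ≅ map f F ⋙ sm C' V :=
  NatIso.ofComponents (fun P => F.mapBiproduct fun i : {i // P.l i ∈ (V.pre f).V} => P.X i.1)
    fun {P Q} φ => biproduct.hom_ext _ _ fun k => by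
      rw [← cancel_epi (F.mapBiproduct fun i : {i // P.l i ∈ (V.pre f).V} => P.X i.1).inv]
      refine biproduct.hom_ext' _ _ fun i => ?_
      have e : ((map f F).map φ).1 i.1 k.1 = F.map (φ.1 i.1 k.1) := if_pos ⟨V.sub i.2, V.sub k.2⟩
      simp only [Functor.comp_map, Category.assoc, Iso.inv_hom_id_assoc]
      simp [sm, e]
      erw [biproduct.lift_π]
      simp [← F.map_comp]

variable (C) in
/-- The sum of a single object. -/
noncomputable def ju {l : Λ.L} (h : l ∈ V.V) : 𝟭 C ≅ jl C l ⋙ sm C V :=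
  NatIso.ofComponents (fun X => ⟨biproduct.ι (fun _ : {_i : Unit // l ∈ V.V} => X) ⟨(), h⟩,
    biproduct.π (fun _ : {_i : Unit // l ∈ V.V} => X) ⟨(), h⟩, biproduct.ι_π_self _ _,
    biproduct.hom_ext _ _ fun k => biproduct.hom_ext' _ _ fun i => by
      obtain rfl : k = ⟨(), h⟩ := rfl
      obtain rfl : i = ⟨(), h⟩ := rfl
      simp [jl]⟩) fun φ => biproduct.hom_ext _ _ fun k => by
      obtain rfl : k = ⟨(), h⟩ := rfl
      simp [sm, jl, V.sub h]

end Fam

end Pool.Agent.Lib.MP_5d3e93_al.A2
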