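import Pool.Agent.Lib.MP_5d3e93_al.Br.KD
import Pool.Agent.Lib.MP_5d3e93_al.Br.A1Ap
import Pool.Agent.Lib.MP_5d3e93_al.Br.A1Gl
import Pool.Agent.Lib.MP_5d3e93_al.Gr.KnL

/-! Full subcategories with a retraction that keeps compositions only. -/

open CategoryTheory Limits Pretriangulated ZeroObject Opposite

namespace Pool.Agent.Lib.MP_5d3e93_al.A2

open Gr Am Br

universe v u w

set_option backward.isDefEq.respectTransparency false

section
variable {W : Type u} [Category.{v} W] {Q : ObjectProperty W}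

variable (Q) in
/-- A retraction to a full subcategory that need not keep identities. -/
structure SwR where
  r : W → W
  q : ∀ K, Q (r K)
  η : ∀ K, K ⟶ r K
  ρ : ∀ {K L}, (K ⟶ L) → (r K ⟶ r L)
  comp : ∀ {K L M} (f : K ⟶ L) (g : L ⟶ M), ρ (f ≫ g) = ρ f ≫ ρ g
  nat : ∀ {K L} (f : K ⟶ L), f ≫ η L = η K ≫ ρ f

variable (R : SwR Q) {E : Type w} [Category.{0} E] [FD E]

open Classical in
/-- The retraction on finite direct diagrams. -/
noncomputable def SwR.ob (y : E ⥤ W) : E ⥤ Q.FullSubcategory where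
  obj e := ⟨R.r (y.obj e), R.q _⟩
  map {e e'} g := ObjectProperty.homMk
    (if h : e = e' then eqToHom (by rw [h]) else R.ρ (y.map g))
  map_id e := ObjectProperty.hom_ext _ (dif_pos rfl)
  map_comp {e e' e''} g g' := ObjectProperty.hom_ext _ (by
    change dite _ _ _ = dite _ _ _ ≫ dite _ _ _
    by_cases a : e = e'
    · subst a
      rw [FD.endo _ g, Category.id_comp, dif_pos rfl, eqToHom_refl, Category.id_comp]
    by_cases b : e' = e''
    · subst b
      rw [FD.endo _ g', Category.comp_id, dif_pos rfl, eqToHom_refl, Category.comp_id]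
    obtain ⟨k, hk⟩ := FD.deg (E := E)
    rw [dif_neg a, dif_neg b, dif_neg, y.map_comp, R.comp]
    rintro rfl
    exact (((hk _ _ g).resolve_left a).trans ((hk _ _ g').resolve_left b)).false)

theorem SwR.ob_ne (y : E ⥤ W) {e e' : E} (g : e ⟶ e') (h : e ≠ e') :
    ((R.ob y).map g).hom = R.ρ (y.map g) := dif_neg h

/-- The unit. -/
def SwR.un (y : E ⥤ W) : y ⟶ R.ob y ⋙ Q.ι where
  app e := R.η _
  naturality e e' g := by
    by_cases a : e = e'
    · subst a
      rw [FD.endo _ g, y.map_id, CategoryTheory.Functor.map_id, Category.id_comp, Category.comp_id]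
    · exact (R.nat _).trans (congrArg (_ ≫ ·) (R.ob_ne y g a).symm)

/-- The retraction on maps of diagrams. -/
noncomputable def SwR.mo {y y' : E ⥤ W} (φ : y ⟶ y') : R.ob y ⟶ R.ob y' where
  app e := ObjectProperty.homMk (R.ρ (φ.app e))
  naturality e e' g := by
    by_cases a : e = e'
    · subst a
      rw [FD.endo _ g, CategoryTheory.Functor.map_id, CategoryTheory.Functor.map_id,
        Category.id_comp, Category.comp_id]
    · refine ObjectProperty.hom_ext _ ?_
      change ((R.ob y).map g).hom ≫ R.ρ _ = R.ρ _ ≫ ((R.ob y').map g).hom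
      rw [R.ob_ne _ g a, R.ob_ne _ g a, ← R.comp, ← R.comp, φ.naturality]

include R in
theorem SwR.hi : (nvm Q.ι).Hi := by
  refine hi_of_pi _ (fun E _ _ y => ⟨R.ob y, Zigzag.of_inv (R.un y)⟩) fun E _ _ x x' z => ?_
  have u (x : E ⥤ Q.FullSubcategory) : Zigzag x (R.ob (x ⋙ Q.ι)) := Zigzag.of_hom
    (((Q.fullyFaithfulι).whiskeringRight E).preimage (R.un (x ⋙ Q.ι)))
  have k {y y' : E ⥤ W} (z : Zigzag y y') : Zigzag (R.ob y) (R.ob y') := by
    induction z with
    | refl => exact .refl _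
    | tail _ h ih =>
      rcases h with ⟨⟨φ⟩⟩ | ⟨⟨φ⟩⟩
      exacts [ih.trans (.of_hom (R.mo φ)), ih.trans (.of_inv (R.mo φ))]
  exact ((u x).trans (k z)).trans (u x').symm

end

variable {a : Am.{v, u}} (N S : ObjectProperty a.D) [Tg N] [Tg S]

/-- The complexes with class in `S` among the weak equivalences of the quotient. -/
def swQ : ObjectProperty ((a.quo N).Wq False (S.map (a.π N).D)) := fun K => S (a.nq.obj K.K)

variable {N S}

theorem swr_cpl (le : N ≤ S) {Y : a.D} (h : S.map (a.π N).D ((a.π N).D.obj Y)) :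
    ∃ C, IsZero ((a.π N).D.obj C) ∧ S (Y ⊞ C) := by
  obtain ⟨X, s, ⟨e⟩⟩ := h
  have := π_isLocalization (N := N)
  have l : LocOn (a.π N).D N ⊤ := locOn_of_isLocalization le_top
  obtain ⟨X', t, f, ht, k⟩ := l.full (X := Y) (Y := X) trivial trivial e.inv
  have := isIso_of_kill l.kill ht
  have : IsIso ((a.π N).D.map f) := k ▸ inferInstance
  obtain ⟨Z, g, m, d⟩ := distinguished_cocone_triangle f
  obtain ⟨Z', p⟩ := l.th (X := Z) trivial
    ((Triangle.isZero₃_iff_isIso₁ _ ((a.π N).D.map_distinguished _ d)).2 this)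
  refine ⟨_, ?_, k0_sum S (inv_rot_of_distTriang _ d) (k0_shift S (-1) (le _ p))
    (Tg.biprod S ((Tg.of_trW le ht).1 s) (Tg.zero S (isZero_zero _)))⟩
  have z : IsZero ((a.π N).D.obj Z') := (IsZero.iff_id_eq_zero _).2 (by
    rw [← (a.π N).D.map_id, ← biprod.inr_snd (X := Z), Functor.map_comp,
      (l.kill _ p).eq_zero_of_src ((a.π N).D.map biprod.snd), comp_zero])
  exact Tg.biprod (Zr.inverseImage (a.π N).D)
    ((Zr.inverseImage (a.π N).D).le_shift (-1) _ z) (Functor.map_isZero _ (isZero_zero _))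

theorem swr (le : N ≤ S) : (nvm (swQ N S).ι).Hi := by
  have c (K : (a.quo N).Wq False (S.map (a.π N).D)) : ∃ C : CochainComplex a.A ℤ,
      IsZero ((a.quo N).nq.obj C) ∧ S (a.nq.obj (K.K ⊞ C)) := by
    obtain ⟨C, z, s⟩ := swr_cpl le (Y := a.nq.obj K.K) K.p
    induction C using nq_ind with | h C => ?_
    have := preservesBinaryBiproducts_of_preservesBiproducts a.nq
    exact ⟨C, z, S.prop_of_iso (a.nq.mapBiprod _ _).symm s⟩
  choose C z s using c
  have i (K) : IsIso ((a.quo N).nq.map (biprod.inl : K.K ⟶ K.K ⊞ C K)) ∧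
      IsIso ((a.quo N).nq.map (biprod.fst : K.K ⊞ C K ⟶ K.K)) := by
    have e : (a.quo N).nq.map (biprod.inl : K.K ⟶ K.K ⊞ C K) ≫ (a.quo N).nq.map biprod.fst = 𝟙 _ := by
      rw [← Functor.map_comp, biprod.inl_fst, CategoryTheory.Functor.map_id]
    have e' : (a.quo N).nq.map (biprod.fst : K.K ⊞ C K ⟶ K.K) ≫ (a.quo N).nq.map biprod.inl = 𝟙 _ := by
      rw [← CategoryTheory.Functor.map_id, ← biprod.total, Functor.map_add, Functor.map_comp,
        Functor.map_comp, (z K).eq_zero_of_src ((a.quo N).nq.map biprod.inr), comp_zero, add_zero]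
    exact ⟨⟨_, e, e'⟩, ⟨_, e', e⟩⟩
  exact SwR.hi
    { r := fun K => ⟨K.K ⊞ C K, False.elim, S.prop_map_obj (a.π N).D (s K)⟩
      q := s
      η := fun K => ⟨biprod.inl, (i K).1⟩
      ρ := fun {K L} φ => ⟨biprod.fst ≫ φ.1 ≫ biprod.inl, by
        have := (i K).2
        have := (i L).1
        have := φ.2
        rw [Functor.map_comp, Functor.map_comp]
        infer_instance⟩
      comp := fun f g => Subtype.ext (by
        change _ ≫ (f.1 ≫ g.1) ≫ _ = (_ ≫ _) ≫ _ ≫ _
        simp)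
      nat := fun f => Subtype.ext (by
        change f.1 ≫ _ = _ ≫ _ ≫ _
        simp) }

end Pool.Agent.Lib.MP_5d3e93_al.A2
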