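import Pool.Agent.Lib.MP_5d3e93_al.Br.SwA
import Pool.Agent.Lib.MP_5d3e93_al.Br.SwB
import Pool.Agent.Lib.MP_5d3e93_al.Br.SwR
import Pool.Agent.Lib.MP_5d3e93_al.Br.FL

/-! Swallowing for chains of maps that become invertible in a localisation. -/

open CategoryTheory Limits Pretriangulated ZeroObject Opposite Simplicial

namespace Pool.Agent.Lib.MP_5d3e93_al.A2

open Gr Am Br Lab.Cv

universe v u v' u' w w' w'' x x'

set_option backward.isDefEq.respectTransparency false

section Sw

/-- The weak equivalences among the maps that are invertible in the quotient. -/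
def swW {a : Am.{v, u}} (N S : ObjectProperty a.D) [Tg N] :
    MorphismProperty (swQ N S).FullSubcategory := fun _ _ φ => IsIso (a.nq.map φ.hom.1)

instance {a : Am.{v, u}} (N S : ObjectProperty a.D) [Tg N] : (swW N S).IsMultiplicative where
  id_mem X := inferInstanceAs (IsIso (a.nq.map (𝟙 X.obj.K)))
  comp_mem φ ψ h k := by
    have : IsIso (a.nq.map φ.hom.1) := h
    have : IsIso (a.nq.map ψ.hom.1) := k
    change IsIso (a.nq.map (φ.hom.1 ≫ ψ.hom.1))
    rw [Functor.map_comp]
    infer_instance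

variable {x y : Tp.{v, u}} (f : x ⟶ y) {N : ObjectProperty x.a.D} [Tg N]
  (h : Loc f.f.D N x.S y.S) {E : Type} [Category.{0} E]

theorem sw_mem {K : CochainComplex x.a.A ℤ} (p : x.S (x.a.nq.obj K)) :
    x.S.map (x.a.π N).D ((x.a.quo N).nq.obj K) := x.S.prop_map_obj (x.a.π N).D p

include h in
theorem sw_iso {K L : CochainComplex x.a.A ℤ} (p : x.S (x.a.nq.obj K)) (q : x.S (x.a.nq.obj L))
    (φ : K ⟶ L) (k : IsIso (f.f.D.map (x.a.nq.map φ))) : IsIso ((x.a.quo N).nq.map φ) :=
  a1ap_iso (loc_quo h).ff (sw_mem p) (sw_mem q) _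
    (((quoD f.f h.kill).nq_map φ).trans (f.f.nq_map φ).symm ▸ k)

/-- The functor induced on the quotient. -/
def swV : (x.a.quo N).Wq False (x.S.map (x.a.π N).D) ⥤ y.a.Wq False y.S :=
  (quoD f.f h.kill).wq id (loc_quo h).maps

variable (E) in
/-- Complexes of diagrams as diagrams of complexes. -/
def swC : (x.a.dg False E).Wq False (dgQ f E) ⥤ WideSubcategory ((swW N x.S).functorCategory E) where
  obj K := ⟨
    { obj := fun e => ⟨⟨((x.a.evd False e).F.mapHomologicalComplex _).obj K.K, False.elim,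
        sw_mem (K.p.1.2 e)⟩, K.p.1.2 e⟩
      map := fun {e e'} g => ⟨⟨(NatTrans.mapHomologicalComplex ((evaluation E x.a.A).map g) _).app K.K,
        sw_iso f h (K.p.1.2 e) (K.p.1.2 e') _
          ((x.a.evd False e).nq_nat (x.a.evd False e') ((evaluation E x.a.A).map g) K.K ▸
            (evm_dg f.f id g _).1 (K.p.2.2 e e' g))⟩⟩
      map_id := fun e => ObjectProperty.hom_ext _ (Subtype.ext
        (HomologicalComplex.hom_ext _ _ fun n => CategoryTheory.Functor.map_id (K.K.X n) e))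
      map_comp := fun g g' => ObjectProperty.hom_ext _ (Subtype.ext
        (HomologicalComplex.hom_ext _ _ fun n => CategoryTheory.Functor.map_comp (K.K.X n) g g')) }⟩
  map {K L} φ :=
    have := φ.2
    have i (e : E) : IsIso (x.a.nq.map (((x.a.evd False e).F.mapHomologicalComplex _).map φ.1)) :=
      (x.a.evd False e).nq_map φ.1 ▸ Functor.map_isIso _ _
    ⟨{ app := fun e => ⟨⟨((x.a.evd False e).F.mapHomologicalComplex _).map φ.1,
          sw_iso f h (K.p.1.2 e) (L.p.1.2 e) _ (have := i e; Functor.map_isIso _ _)⟩⟩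
       naturality := fun _ _ g => ObjectProperty.hom_ext _ (Subtype.ext
         (HomologicalComplex.hom_ext _ _ fun n => NatTrans.naturality (φ.1.f n) g)) }, i⟩

variable (E) in
/-- The inverse functor. -/
def swD [Finite E] :
    WideSubcategory ((swW N x.S).functorCategory E) ⥤ (x.a.dg False E).Wq False (dgQ f E) where
  obj σ := ⟨cx (a := x.a.quo N) (σ.obj ⋙ (swQ N x.S).ι), False.elim,
    ⟨False.elim, fun e => (σ.obj.obj e).property⟩, cx_p (σ.obj ⋙ (swQ N x.S).ι ⋙ swV f h)⟩
  map φ := ⟨a1zz_to (a := x.a.quo N) (Functor.whiskerRight φ.1 (swQ N x.S).ι),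
    dg_isIso (a := x.a) nofun nofun _ fun e =>
      ((x.a.evd False e).nq_map _).symm ▸ (show IsIso (x.a.nq.map _) from φ.2 e)⟩
  map_id _ := rfl
  map_comp _ _ := rfl

theorem sw_c (q : SimplexCategoryᵒᵖ) (b : ℕ) : Cn b (ZC.map (nerveMap (swC f h (Fq q)))) :=
  cn_nerve (hi_of_zigzag _ (swD f h (Fq q)) (Zigzag.refl _) (Zigzag.refl _)) b

/-- The comparison of bisimplicial sets. -/
def swM : QD f ⋙ NP ⋙ SP.tot ⟶ Gw (swW N x.S) where
  app q := nerveMap (swC f h (Fq q))
  naturality _ _ _ := rfl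

/-- Swallowing: the diagonal of the chains of maps that become invertible. -/
theorem sw {x y : Tp.{v, u}} (f : x ⟶ y) {N : ObjectProperty x.a.D} [Tg N]
    (h : Loc f.f.D N x.S y.S) (b : ℕ) :
    Cn b (RC.map ((dgG _ PT).map (Functor.whiskerRight (uQ f) NP) ≫ dl.app y)) := by
  refine (cn_rel_iff _ (dg_sub (QD f) y _)).2 ?_
  have e : SP.tot.map ((dgG _ PT).map (Functor.whiskerRight (uQ f) NP) ≫ dl.app y) =
      (dgG _ _).map (swM f h) ≫ dw _ ≫ nerveMap (swQ N x.S).ι ≫ nerveMap (swV f h) :=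
    NatTrans.ext (funext fun n => ConcreteCategory.hom_ext _ _ fun σ =>
      dgG_wr (σ ⋙ swC f h (Fq n) ⋙ wideSubcategoryInclusion _) ((swQ N x.S).ι ⋙ swV f h))
  have := (fl_on h.le).tg_map
  rw [e, ZC.map_comp, ZC.map_comp, ZC.map_comp]
  exact (r1F Fr (swM f h) fun _ => sw_c f h _ _).comp ((swa _ b).comp
    ((cn_nerve (swr h.le) b).comp (pc_app (x := ⟨x.a.quo N, x.S.map (x.a.π N).D⟩) (y := y)
      (quoD f.f h.kill) (loc_quo h) (loc_quo h).maps b)))
end Sw

end Pool.Agent.Lib.MP_5d3e93_al.A2
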