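import Pool.Agent.Lib.MP_5d3e93_al.Br.FvN
import Pool.Agent.Lib.MP_5d3e93_al.Br.FE
import Pool.Agent.Lib.MP_5d3e93_al.Br.FG
import Pool.Agent.Lib.MP_5d3e93_al.Br.Sw
import Pool.Agent.Lib.MP_5d3e93_al.Br.Pc

/-! The fibration theorem: the relative construction maps to the localisation. -/

open CategoryTheory Limits Pretriangulated ZeroObject Opposite Simplicial

namespace Pool.Agent.Lib.MP_5d3e93_al.A2

open Gr Am Br Lab.Cv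

universe v u v' u' w w' w'' x x'

set_option backward.isDefEq.respectTransparency false

section
variable {a : Am.{v, u}} {c : Am.{v', u'}} {Λ Λ' : Lab} {q q' : SimplexCategoryᵒᵖ}

theorem fb_q (Λ : Lab) (θ : q ⟶ q') (φ : Map a c) :
    (fmM (Lab.tenm (𝟙 Λ) (DR.map θ)) a.idm).comp (Fv Λ q' φ) = (Fv Λ q φ).comp (pre _ (fq θ)) :=
  (fv_nat (𝟙 Λ) θ a.idm φ φ c.idm rfl).trans (congrArg (fun t : Map (FamA (Λ.ten oL) c) _ =>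
    ((Fv Λ q φ).comp (pre _ (fq θ))).comp (t.dg (Fq q') id)) (fm_id (Λ.ten oL) c))

theorem fb_u (Λ : Lab) (q : SimplexCategoryᵒᵖ) (φ : Map a c) :
    (Fv Λ q a.idm).comp ((fmM (𝟙 (Λ.ten oL)) φ).dg (Fq q) id) = Fv Λ q φ :=
  (fv_nat (𝟙 Λ) (𝟙 q) a.idm φ a.idm φ rfl).symm.trans
    (congrArg (fun t : Map _ (FamA (Λ.ten (DR.obj q)) a) => t.comp (Fv Λ q φ))
      (fm_id (Λ.ten (DR.obj q)) a))

theorem fb_L (g : Λ ⟶ Λ') (q : SimplexCategoryᵒᵖ) (φ : Map a c) :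
    (fmM (Lab.tenm g (𝟙 (DR.obj q))) a.idm).comp (Fv Λ' q φ) =
      (Fv Λ q φ).comp ((fmM (Lab.tenm g (𝟙 oL)) c.idm).dg (Fq q) id) :=
  fv_nat g (𝟙 q) a.idm φ φ c.idm rfl
end

theorem fb_dl (y : Tp.{v, u}) (n : SimplexCategoryᵒᵖ) :
    (NP.map ((PD.obj y).map (tm n.unop).op)).app n ≫ (dl.app y).app n =
      (NP.map (evP y (q := op ⦋0⦌) 0)).app n :=
  PT.hom_ext fun σ => Functor.hext (fun _ => rfl) fun _ j _ => heq_of_eq (Subtype.ext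
    (HomologicalComplex.hom_ext _ _ fun m =>
      (congrArg (_ ≫ ·) (((σ.obj j).K.X m).map_id (0 : Fq (op ⦋0⦌)))).trans (Category.comp_id _)))

section
variable {x y : Tp.{v, u}} (f : x ⟶ y) {N : Cls x.a} (h : N ≤ ⟨x.S, x.tg⟩)

/-- The triples of relative families. -/
noncomputable def fbB : Lab ⥤ SimplexCategoryᵒᵖ ⥤ Tp.{v, max 1 u} :=
  (LC.Rq h ⋙ LC.act _ ⋙ wr Lab (inC x.a ⋙ Fm)).flip

/-- The chains of the images of the subfamilies. -/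
noncomputable def fbE (z : ∀ X, N.1 X → IsZero (f.f.D.obj X)) :
    fbB h ⟶ inT.obj y ⋙ Fm ⋙ PD where
  app Λ := { app := fun q => ⟨Fv Λ q f.f, fv_cls h f.f f.h z Λ q⟩
             naturality := fun _ _ θ => Tp.hom_ext (congrArg Map.F (fb_q Λ θ f.f)) }
  naturality _ _ g := NatTrans.ext (funext fun q => Tp.hom_ext (congrArg Map.F (fb_L g q f.f)))

theorem fb_le (Λ : Lab) (q : SimplexCategoryᵒᵖ) :
    (((fbB h).obj Λ).obj q).S ≤ cls (Λ := Λ.ten (DR.obj q)) fun _ => x.S := fun X k l => by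
  have e : ((LC.Rq h).obj q).c l.2 ≤ ⟨x.S, x.tg⟩ := by
    dsimp only [LC.Rq]
    split_ifs
    exacts [le_rfl, h]
  exact e _ (k l)

/-- The chains of subfamilies. -/
noncomputable def fbF (z : ∀ X, N.1 X → IsZero (f.f.D.obj X)) (Λ : Lab) :
    (fbB h).obj Λ ⟶ QD (Fm.map ((inT.map f).app Λ)) where
  app q := ⟨Fv Λ q x.a.idm, fun X k => ⟨(fe_deq Λ q x.S).maps X (fb_le h Λ q X k),
    (congrArg (fun t : Map _ _ => dgP False (Fq q) (cls fun _ => y.S) (t.D.obj X))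
      (fb_u Λ q f.f)).mpr (fv_cls h f.f f.h z Λ q X k)⟩⟩
  naturality _ _ θ := Tp.hom_ext (congrArg Map.F (fb_q Λ θ x.a.idm))

theorem fb_fac (z : ∀ X, N.1 X → IsZero (f.f.D.obj X)) (Λ : Lab) :
    (fbE f h z).app Λ = fbF f h z Λ ≫ uQ _ :=
  NatTrans.ext (funext fun q => Tp.hom_ext (congrArg Map.F (fb_u Λ q f.f).symm))

theorem fb_deq (l : Loc f.f.D N.1 x.S y.S) (Λ : Lab) (q : SimplexCategoryᵒᵖ) :
    Deq ((fbF f h l.kill Λ).app q).f.D (((fbB h).obj Λ).obj q).S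
      ((QD (Fm.map ((inT.map f).app Λ))).obj q).S where
  ff _ _ k k' := (fe_deq Λ q x.S).ff (fb_le h Λ q _ k) (fb_le h Λ q _ k')
  maps := ((fbF f h l.kill Λ).app q).h
  surj Y k := by
    obtain ⟨X, s, ⟨i⟩⟩ := (fe_deq Λ q x.S).surj Y k.1
    refine ⟨X, fv_cls' h f.f (P := cls fun _ => y.S) l.thick q X s ?_, ⟨i⟩⟩
    exact (congrArg (fun t : Map _ _ => dgP False (Fq q) (cls fun _ => y.S) (t.D.obj X))
      (fb_u Λ q f.f)).mp ((dgP False (Fq q) (cls fun _ => y.S)).prop_of_iso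
        (((fmM (𝟙 (Λ.ten oL)) f.f).dg (β := False) (β' := False) (Fq q) id).D.mapIso i.symm) k.2)

/-- The family as a chain of length zero. -/
noncomputable def fbA (z : ∀ X, N.1 X → IsZero (f.f.D.obj X)) (Λ : Lab) :
    Fm.obj ((inT.obj x).obj Λ) ⟶ (PD.obj (Fm.obj ((inT.obj y).obj Λ))).obj (op ⦋0⦌) :=
  (inC x.a ⋙ Fm).map (((LC.act _).map (LC.yR h).hom).app Λ) ≫ ((fbE f h z).app Λ).app (op ⦋0⦌)

theorem fb_e (z : ∀ X, N.1 X → IsZero (f.f.D.obj X)) (Λ : Lab) (n : SimplexCategoryᵒᵖ) :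
    (inC x.a ⋙ Fm).map (((LC.act _).map ((LC.yR h).hom ≫
      (LC.Rq h).map (tm n.unop).op)).app Λ) ≫ ((fbE f h z).app Λ).app n =
      fbA f h z Λ ≫ (PD.obj (Fm.obj ((inT.obj y).obj Λ))).map (tm n.unop).op := by
  rw [Functor.map_comp, NatTrans.comp_app, Functor.map_comp, Category.assoc, fbA, Category.assoc]
  exact congrArg (_ ≫ ·) (((fbE f h z).app Λ).naturality (tm n.unop).op)

theorem fb_e' (z : ∀ X, N.1 X → IsZero (f.f.D.obj X)) (Λ : Lab) :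
    fbA f h z Λ ≫ evP (Fm.obj ((inT.obj y).obj Λ)) (q := op ⦋0⦌) 0 =
      Fm.map ((inT.map f).app Λ) := Tp.hom_ext (congrArg Map.F
  ((congrArg (fun t : Map _ (FamA (Λ.ten oL) x.a) => t.comp (fmM (vx Λ (q := op ⦋0⦌) 0) f.f))
    (fm_id (Λ.ten oL) x.a)).trans (congrArg (fmM · f.f) (vx_zero Λ))))

theorem fb_z (z : ∀ X, N.1 X → IsZero (f.f.D.obj X)) (Λ : Lab) (n : SimplexCategoryᵒᵖ)
    (k : n.unop ⟶ ⦋1⦌) (i : Fq n) (X : (FamA (Λ.ten oL) x.a).D) (p : cls (fun _ => N.1) X) :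
    IsZero (((FamA (Λ.ten oL) y.a).evd False i).D.obj ((Fv Λ n f.f).D.obj
      ((fmM (Lab.tenm (𝟙 Λ) (LC.iR h ≫ (LC.Rq h).map k.op).f) x.a.idm).D.obj X))) :=
  have := N.2
  fam_zero (cls_map (vx Λ i) f.f (S := fun _ => N.1) (S' := fun _ => Zr)
    (fun _ _ => z) _ (cls_map (Lab.tenm (𝟙 Λ) (LC.iR h ≫ (LC.Rq h).map k.op).f) x.a.idm
      (S := fun _ => N.1) (S' := fun _ => N.1) (fun _ _ _ p => p) X p))
end

/-- The output of the fibration theorem. -/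
def FbP {L : Type*} [Category* L] {C : Type*} [Category* C] (R : SimplexCategoryᵒᵖ ⥤ C)
    (A : C ⥤ L ⥤ C) (Ψ : C ⥤ SP.{w}) (K : L ⥤ SP.{w}) {s t : C} (α : ∀ q, s ⟶ R.obj q)
    (β : ∀ q : SimplexCategoryᵒᵖ, (q.unop ⟶ ⦋1⦌) → (t ⟶ R.obj q))
    (p : ∀ Λ, Ψ.obj ((A.obj s).obj Λ) ⟶ K.obj Λ) : Prop :=
  ∃ ψ : (R ⋙ A ⋙ wr L Ψ).flip ⋙ dgG _ PT ⟶ K, (∀ Λ b, Cn b (RC.map (ψ.app Λ))) ∧
    (∀ Λ q, (Ψ.map ((A.map (α q)).app Λ)).app q ≫ (ψ.app Λ).app q = (p Λ).app q) ∧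
    ∀ Λ q k σ, ((Ψ.map ((A.map (β q k)).app Λ)).app q ≫ (ψ.app Λ).app q).1 σ ∈
      ((K.obj Λ).obj q).A

theorem fb_gen {L : Type*} [Category* L] {C : Type*} [Category* C] {B : Type*} [Category* B]
    {T : Type*} [Category* T] (R : SimplexCategoryᵒᵖ ⥤ C) (A : C ⥤ L ⥤ C) (Φ : C ⥤ B) {M : B ⥤ T}
    {n : T ⥤ SP.{w}} {D : T ⥤ SimplexCategoryᵒᵖ ⥤ T} (d : D ⋙ wr _ n ⋙ dgG _ PT ⟶ n) (I : L ⥤ B)
    {Y : L ⥤ SimplexCategoryᵒᵖ ⥤ T} (eY : Y = (R ⋙ A ⋙ wr L (Φ ⋙ M)).flip)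
    (E : Y ⟶ I ⋙ M ⋙ D) {Ψ : C ⥤ SP.{w}} {K : L ⥤ SP.{w}}
    (e : Ψ = Φ ⋙ M ⋙ n) (e' : K = I ⋙ M ⋙ n) {s t : C} (α : ∀ q, s ⟶ R.obj q)
    (β : ∀ q : SimplexCategoryᵒᵖ, (q.unop ⟶ ⦋1⦌) → (t ⟶ R.obj q))
    (p : ∀ Λ, Ψ.obj ((A.obj s).obj Λ) ⟶ K.obj Λ) {X X' : L → T}
    (p' : ∀ Λ, X Λ ⟶ M.obj (I.obj Λ)) (hp : ∀ Λ, HEq (p Λ) (n.map (p' Λ)))
    (eX : ∀ Λ, X Λ = M.obj (Φ.obj ((A.obj s).obj Λ)))
    (eX' : ∀ Λ, X' Λ = M.obj (Φ.obj ((A.obj t).obj Λ)))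
    (j : ∀ Λ q, X Λ ⟶ (Y.obj Λ).obj q) (hj : ∀ Λ q, HEq (j Λ q) ((Φ ⋙ M).map ((A.map (α q)).app Λ)))
    (i : ∀ Λ q, (q.unop ⟶ ⦋1⦌) → (X' Λ ⟶ (Y.obj Λ).obj q))
    (hi : ∀ Λ q k, HEq (i Λ q k) ((Φ ⋙ M).map ((A.map (β q k)).app Λ)))
    {Q : L → SimplexCategoryᵒᵖ ⥤ T} (F : ∀ Λ, Y.obj Λ ⟶ Q Λ)
    (U : ∀ Λ, Q Λ ⟶ D.obj (M.obj (I.obj Λ))) (fac : ∀ Λ, E.app Λ = F Λ ≫ U Λ)
    (c1 : ∀ Λ q b, Cn b (RC.map (n.map ((F Λ).app q))))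
    (c2 : ∀ Λ b, Cn b (RC.map ((dgG _ PT).map (Functor.whiskerRight (U Λ) n) ≫
      d.app (M.obj (I.obj Λ)))))
    (W : ∀ {s y : T} {q}, (s ⟶ (D.obj y).obj q) → (s ⟶ y) → Prop)
    (hW : ∀ {s y : T} {q} (g : s ⟶ (D.obj y).obj q) (p : s ⟶ y), W g p →
      (n.map g).app q ≫ (d.app y).app q = (n.map p).app q)
    (h2 : ∀ Λ q, W (y := M.obj (I.obj Λ)) (j Λ q ≫ (E.app Λ).app q) (p' Λ))
    (V : ∀ {s y : T} {q}, (s ⟶ (D.obj y).obj q) → Prop)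
    (hV : ∀ {s y : T} {q} (g : s ⟶ (D.obj y).obj q), V g → ∀ σ,
      ((n.map g).app q ≫ (d.app y).app q).1 σ ∈ ((n.obj y).obj q).A)
    (h3 : ∀ Λ q k, V (y := M.obj (I.obj Λ)) (i Λ q k ≫ (E.app Λ).app q)) :
    FbP R A Ψ K α β p := by
  have h1 (Λ b) : Cn b (RC.map ((dgG _ PT).map (Functor.whiskerRight (E.app Λ) n) ≫
      d.app (M.obj (I.obj Λ)))) := by
    rw [fac, Functor.whiskerRight_comp, (dgG _ PT).map_comp, Category.assoc, RC.map_comp]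
    exact Cn.comp (r1F PT.fr (Functor.whiskerRight (F Λ) n) fun _ => c1 Λ _ _) (c2 Λ b)
  obtain rfl : X = _ := funext eX
  obtain rfl : X' = _ := funext eX'
  subst e e' eY
  obtain rfl : p = fun Λ => n.map (p' Λ) := funext fun Λ => eq_of_heq (hp Λ)
  obtain rfl : j = fun Λ q => (Φ ⋙ M).map ((A.map (α q)).app Λ) :=
    funext₂ fun Λ q => eq_of_heq (hj Λ q)
  obtain rfl : i = fun Λ q k => (Φ ⋙ M).map ((A.map (β q k)).app Λ) :=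
    funext₃ fun Λ q k => eq_of_heq (hi Λ q k)
  refine ⟨Functor.whiskerRight E (wr _ n ⋙ dgG _ PT) ≫ Functor.whiskerLeft (I ⋙ M) d, h1,
    fun Λ q => ?_, fun Λ q k σ => ?_⟩
  · have := hW _ _ (h2 Λ q)
    rw [n.map_comp, NatTrans.comp_app, Category.assoc] at this
    exact this
  · have := hV _ (h3 Λ q k) σ
    rw [n.map_comp, NatTrans.comp_app, Category.assoc] at this
    exact this

theorem fb_W {s y : Tp.{v, u}} {n : SimplexCategoryᵒᵖ} (g : s ⟶ (PD.obj y).obj n) (p : s ⟶ y)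
    (e : ∃ A : s ⟶ (PD.obj y).obj (op ⦋0⦌), g = A ≫ (PD.obj y).map (tm n.unop).op ∧
      A ≫ evP y (q := op ⦋0⦌) 0 = p) : (NP.map g).app n ≫ (dl.app y).app n = (NP.map p).app n := by
  obtain ⟨A, rfl, rfl⟩ := e
  rw [NP.map_comp, NP.map_comp, NatTrans.comp_app, NatTrans.comp_app, ← fb_dl, Category.assoc]

theorem fb_V {s y : Tp.{v, u}} {n : SimplexCategoryᵒᵖ} (g : s ⟶ (PD.obj y).obj n)
    (k : ∀ i X, s.S X → IsZero ((y.a.evd False i).D.obj (g.f.D.obj X))) (σ) :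
    ((NP.map g).app n ≫ (dl.app y).app n).1 σ ∈ ((NP.obj y).obj n).A :=
  fun i => k i _ (σ.obj i).p

theorem ex_psi {x y : Tp.{v, u}} (f : x ⟶ y) {N : Cls x.a} (h : N ≤ ⟨x.S, x.tg⟩)
    (l : Loc f.f.D N.1 x.S y.S) :
    FbP (LC.Rq h) (LC.act _) (PhP x.a) (KL.obj y)
      (fun n => (LC.yR h).hom ≫ (LC.Rq h).map (tm n.unop).op)
      (fun _ k => LC.iR h ≫ (LC.Rq h).map k.op) fun Λ => (KL.map f).app Λ := by
  refine fb_gen (LC.Rq h) (LC.act _) (inC x.a) dl (inT.obj y) (Y := fbB h) rfl (fbE f h l.kill) rfl rfl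
    _ _ _ (X := fun Λ => Fm.obj ((inT.obj x).obj Λ)) (fun Λ => Fm.map ((inT.map f).app Λ)) (fun _ => HEq.rfl)
    (fun _ => rfl) (fun _ => rfl) _ (fun _ _ => HEq.rfl) _ (fun _ _ _ => HEq.rfl)
    (fbF f h l.kill) (fun Λ => uQ (Fm.map ((inT.map f).app Λ))) ?_ ?_ ?_ _ fb_W ?_ _ fb_V ?_
  · exact fb_fac f h l.kill
  · exact fun Λ q => np_deq _ (fb_deq f h l Λ q)
  · have := N.2
    have t (Λ : Lab) : Tg (cls (Λ := Λ.ten oL) fun _ => N.1) := inferInstance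
    exact fun Λ => @sw _ _ (Fm.map ((inT.map f).app Λ)) _ (t Λ)
      (fm_loc (N := N.1) (S := x.S) (S' := y.S) (Λ.ten oL) l)
  · exact fun Λ n => ⟨_, fb_e f h l.kill Λ n, fb_e' f h l.kill Λ⟩
  · exact fun Λ n k => fb_z f h l.kill Λ n k

end Pool.Agent.Lib.MP_5d3e93_al.A2
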