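import Pool.Agent.Lib.MP_5d3e93_al.Br.Cn

/-! Connectivity along short exact sequences of chain complexes. -/

open CategoryTheory CategoryTheory.Limits HomologicalComplex HomologicalComplex.HomologySequence
open CategoryTheory.Abelian

namespace Pool.Agent.Lib.MP_5d3e93_al.Br

universe u

variable {S T : ShortComplex Chc.{u}} (φ : S ⟶ T) (hS : S.ShortExact) (hT : T.ShortExact) {a : ℕ}
include hS hT

/-- The quotient term. -/
theorem cn_four₃ (h₁ : Cn a φ.τ₁) (h₂ : Cn (a + 1) φ.τ₂) : Cn (a + 1) φ.τ₃ := by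
  refine cn_iff_h.2 ⟨fun n hn => ?_, fun n hn => ?_⟩
  · refine epi_homologyMap_τ₃ φ hS hT n (h₂.epi hn) (fun j hj => ?_) (fun j hj => ?_)
    · exact h₁.epi (by simp at hj; omega)
    · exact h₂.mon (by simp at hj; omega)
  · refine mono_homologyMap_τ₃ φ hS hT n (h₁.epi (by omega)) (h₂.mon hn) (fun j hj => ?_)
    exact h₁.mon (by simp at hj; omega)

/-- The middle term. -/
theorem cn_four₂ (h₁ : Cn a φ.τ₁) (h₃ : Cn a φ.τ₃) : Cn a φ.τ₂ := by
  refine cn_iff_h.2 ⟨fun n hn => ?_, fun n hn => ?_⟩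
  · cases n with
    | zero =>
      refine epi_of_epi_of_epi_of_epi (mapComposableArrows₂ φ 0) (composableArrows₂_exact hT 0) ?_
        (h₁.epi hn) (h₃.epi hn)
      have := hS.epi_g
      exact epi_homologyMap_of_epi_of_not_rel S.g 0 (by simp)
    | succ n =>
      exact epi_of_epi_of_epi_of_mono'' (k := 0) (by omega)
        (composableArrows₅_exact hS (n + 1) n rfl) (composableArrows₅_exact hT (n + 1) n rfl)
        (mapComposableArrows₅ φ hS hT (n + 1) n rfl) 0 1 2 3 rfl rfl rfl rfl (h₁.epi hn) (h₃.epi hn)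
        (h₁.mon hn)
  · exact mono_of_epi_of_mono_of_mono'' (k := 2) (by omega)
      (composableArrows₅_exact hS (n + 1) n rfl) (composableArrows₅_exact hT (n + 1) n rfl)
      (mapComposableArrows₅ φ hS hT (n + 1) n rfl) 2 3 4 5 rfl rfl rfl rfl (h₃.epi hn) (h₁.mon hn)
      (h₃.mon hn)

/-- The sub term. -/
theorem cn_four₁ (h₂ : Cn a φ.τ₂) (h₃ : Cn (a + 1) φ.τ₃) : Cn a φ.τ₁ := by
  refine cn_iff_h.2 ⟨fun n hn => ?_, fun n hn => ?_⟩
  · exact epi_of_epi_of_epi_of_mono'' (k := 2) (by omega)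
      (composableArrows₅_exact hS (n + 1) n rfl) (composableArrows₅_exact hT (n + 1) n rfl)
      (mapComposableArrows₅ φ hS hT (n + 1) n rfl) 2 3 4 5 rfl rfl rfl rfl
      (h₃.epi (n := n + 1) (by omega)) (h₂.epi hn) (h₃.mon (n := n) (by omega))
  · exact mono_of_epi_of_mono_of_mono'' (k := 1) (by omega)
      (composableArrows₅_exact hS (n + 1) n rfl) (composableArrows₅_exact hT (n + 1) n rfl)
      (mapComposableArrows₅ φ hS hT (n + 1) n rfl) 1 2 3 4 rfl rfl rfl rfl (h₂.epi hn)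
      (h₃.mon (n := n + 1) (by omega)) (h₂.mon hn)

end Pool.Agent.Lib.MP_5d3e93_al.Br
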