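import Pool.Agent.Lib.MP_5d3e93_al.Br.KE

/-! Naturality of the chain of subfamilies. -/

open CategoryTheory Limits Pretriangulated ZeroObject Opposite Simplicial

namespace Pool.Agent.Lib.MP_5d3e93_al.A2

open Gr Am Br Lab.Cv

universe v u v' u' w w' w'' x x'

set_option backward.isDefEq.respectTransparency false

theorem fvN_heq {A : Type*} [Category A] {B : Type*} [Category B] {F G F' G' : A ⥤ B}
    {α : F ⟶ G} {β : F' ⟶ G'} (e : F = F') (e' : G = G') (h : ∀ X, HEq (α.app X) (β.app X)) :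
    HEq α β := by
  subst e e'
  exact heq_of_eq (NatTrans.ext (funext fun X => eq_of_heq (h X)))

section
variable {Λ Λ' Λ'' : Lab} {C : Type u} [Category.{v} C] [Preadditive C]
  {C' : Type u'} [Category.{v'} C'] [Preadditive C'] {C'' : Type w'} [Category.{w} C'']
  [Preadditive C''] (F : C ⥤ C') [F.Additive] (G : C' ⥤ C'') [G.Additive] {n : ℕ}

/-- A chain of maps of labels as a diagram of functors. -/
noncomputable def fvNch (m : Fin n → (Λ ⟶ Λ')) (h : ∀ k k', k ≤ k' → ∀ l, (m k').f l ≤ (m k).f l) :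
    Fin n ⥤ Fam Λ C ⥤ Fam Λ' C' where
  obj k := Fam.map (m k) F
  map g := Fam.tau _ _ (h _ _ g.le) (𝟙 _)
  map_id _ := Fam.tau_id ..
  map_comp _ _ := (Fam.tau_comp ..).symm

theorem fvN_congr {F' : C ⥤ C'} [F'.Additive] (e : F = F') (m : Fin n → (Λ ⟶ Λ')) (h) :
    fvNch F m h = fvNch F' m h := by
  subst e
  rfl

theorem fvN_pre (f : Λ ⟶ Λ') (m : Fin n → (Λ' ⟶ Λ'')) (h h') :
    fvNch G m h ⋙ (Functor.whiskeringLeft _ _ _).obj (Fam.map f F) =
      fvNch (F ⋙ G) (fun k => f ≫ m k) h' :=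
  Functor.hext (fun _ => (Fam.map_comp ..).symm) fun k k' g =>
    fvN_heq (Fam.map_comp ..).symm (Fam.map_comp ..).symm fun P =>
      heq_of_eq (Fam.hom_ext fun (i j : P.ι) => by
        change 𝟙 _ ≫ G.map (Fam.dia (fun i => F.obj (P.X i)) _ i j) =
          𝟙 _ ≫ G.map (F.map (Fam.dia P.X _ i j))
        congr 2
        by_cases e : i = j
        · subst e
          by_cases c : (m k).f (f.f (P.l i)) ∈ Λ''.U ∧ (m k').f (f.f (P.l i)) ∈ Λ''.U <;>
            simp [Fam.dia, Fam.map, c]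
        · simp [Fam.dia, e])

open Classical in
theorem fvN_post (f : Λ' ⟶ Λ'') (m : Fin n → (Λ ⟶ Λ')) (h h') :
    fvNch F m h ⋙ (Functor.whiskeringRight _ _ _).obj (Fam.map f G) =
      fvNch (F ⋙ G) (fun k => m k ≫ f) h' :=
  Functor.hext (fun _ => (Fam.map_comp ..).symm) fun k k' g =>
    fvN_heq (Fam.map_comp ..).symm (Fam.map_comp ..).symm fun P =>
      heq_of_eq (Fam.hom_ext fun (i j : P.ι) => by
        change (if f.f ((m k).f (P.l i)) ∈ Λ''.U ∧ f.f ((m k').f (P.l j)) ∈ Λ''.U then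
          G.map (𝟙 _ ≫ F.map (Fam.dia P.X _ i j)) else 0) = 𝟙 _ ≫ G.map (F.map (Fam.dia P.X _ i j))
        by_cases e : i = j
        · subst e
          by_cases c : f.f ((m k).f (P.l i)) ∈ Λ''.U ∧ f.f ((m k').f (P.l i)) ∈ Λ''.U
          · simp [Fam.dia, c, f.al _ c.1, f.al _ c.2]
          · simp [Fam.dia, c]
        · simp [Fam.dia, e])

end

theorem fv_nat {a : Am.{v, u}} {a' : Am.{v', u'}} {c : Am.{w, w'}} {c' : Am.{x, x'}} {Λ Λ' : Lab}
    (g : Λ ⟶ Λ') {q q' : SimplexCategoryᵒᵖ} (θ : q ⟶ q') (φ : Map a a') (ψ' : Map a' c')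
    (ψ : Map a c) (φ' : Map c c') (e : φ.comp ψ' = ψ.comp φ') :
    (fmM (Lab.tenm g (DR.map θ)) φ).comp (Fv Λ' q' ψ') =
      ((Fv Λ q ψ).comp (pre _ (fq θ))).comp ((fmM (Lab.tenm g (𝟙 oL)) φ').dg (Fq q') id) :=
  map_ext (congrArg Functor.flip (((fvN_pre φ.F ψ'.F (Lab.tenm g (DR.map θ)) (vx Λ')
    (fun _ _ => vx_le Λ') fun _ _ h _ => vx_le Λ' h _).trans
      (fvN_congr _ (congrArg Map.F e) _ _)).trans (fvN_post ψ.F φ'.F (Lab.tenm g (𝟙 oL))
        (fun k => vx Λ (θ.unop.toOrderHom k))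
        (fun _ _ h => vx_le Λ (θ.unop.toOrderHom.monotone h)) _).symm))

theorem fm_id (Λ : Lab) (a : Am.{v, u}) : fmM (𝟙 Λ) a.idm = (FamA Λ a).idm := map_ext Fam.map_id

theorem vx_zero (Λ : Lab) : vx Λ (q := op ⦋0⦌) 0 = 𝟙 _ :=
  Lab.hom_ext fun l => Prod.ext rfl (OrderHom.ext _ _ (funext fun _ =>
    congrArg (LC.vl l.2) (Subsingleton.elim (α := Fin 1) _ _)))

end Pool.Agent.Lib.MP_5d3e93_al.A2
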