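import Pool.Agent.Lib.MP_5d3e93_al.Br.DefB
import Pool.Agent.Lib.MP_5d3e93_al.Br.FamB
import Pool.Agent.Lib.MP_5d3e93_al.Br.Mt

/-! Matrix categories as categories of finite labelled families. -/

open CategoryTheory Limits Opposite

namespace Pool.Agent.Lib.MP_5d3e93_al.As

open Br Gr Am

universe v u u'

set_option backward.isDefEq.respectTransparency false

/-- A comparison of label systems. -/
structure Mu (Z : Lab) (Λ : A2.Lab) where
  e : Z.P → Λ.L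
  on : ∀ l ∈ Λ.U, ∃ a, e a = l
  al : ∀ a, Z.U a ↔ e a ∈ Λ.U
  ok : ∀ r a b, Z.Ok r a b ↔ A2.Fam.Ok (e a) (e b)
  ht : ∀ a, Z.h a = 0

variable {Z Z' : Lab} {Λ Λ' : A2.Lab} (c : Mu Z Λ) (c' : Mu Z' Λ') {B B' : AC.{v, u}}

theorem Mu.fin (c : Mu Z Λ) (X : Mx Z B) : Finite X.I :=
  Set.finite_univ_iff.1 ((X.fin 0).subset fun _ _ => (c.ht _).le)

theorem glM_zero {X Y : Mx Z B} (a : Mx.Mor X Y) {i j}
    (h : ¬ A2.Fam.Ok (c.e (X.π i)) (c.e (Y.π j))) : a.e i j = 0 :=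
  a.ok.elim fun r k => by_contra fun d => h ((c.ok r _ _).1 (k i j d))

variable (B) in
/-- Matrices as families of matrices with one entry. -/
noncomputable def Mu.mu : Mx Z B ⥤ A2.Fam Λ (Mat_ B.C) where
  obj X := @A2.Fam.mk _ _ X.I (@Fintype.ofFinite _ (c.fin X)) (fun i => c.e (X.π i))
    fun i => (Mat_.embedding B.C).obj (X.X i)
  map {X Y} a := A2.Fam.homMk (fun i j => (Mat_.embedding B.C).map (a.e i j)) fun i j h => by
    rw [glM_zero c a h, Functor.map_zero]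
  map_id X := A2.Fam.hom_ext fun (i j : X.I) => by
    rw [A2.Fam.homMk_e, A2.Fam.id_e]
    change (Mat_.embedding B.C).map (Mx.idE X i j) = _
    by_cases e : i = j
    · subst e
      by_cases h : Z.U (X.π i)
      · simp [Mx.idE, A2.Fam.dia, h, (c.al _).1 h]
      · simp [Mx.idE, AC.zero, A2.Fam.dia, h, (c.al _).not.1 h]
    · simp [Mx.idE, AC.zero, A2.Fam.dia, e]
  map_comp {X Y W} a b := A2.Fam.hom_ext fun (i : X.I) (l : W.I) => by
    let _ := @Fintype.ofFinite _ (c.fin Y)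
    rw [A2.Fam.homMk_e, A2.Fam.comp_e]
    change (Mat_.embedding B.C).map (∑ᶠ j, a.e i j ≫ b.e j l) = _
    rw [finsum_eq_sum_of_fintype, Functor.map_sum]
    exact Finset.sum_congr rfl fun j _ => Functor.map_comp ..

theorem glM_e {X Y : Mx Z B} (a : X ⟶ Y) (i j) :
    ((c.mu B).map a).1 i j = (Mat_.embedding B.C).map (a.e i j) := rfl

instance : (c.mu B).Additive := ⟨A2.Fam.hom_ext fun _ _ => (Mat_.embedding B.C).map_add⟩

theorem glM_iso {C : Type u'} [Category.{v} C] [Preadditive C] {P Q : A2.Fam Λ C} (s : Q.ι → P.ι)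
    (hl : ∀ a, Q.l a = P.l (s a)) (hU : ∀ a, Q.l a ∈ Λ.U) (i : ∀ a, Q.X a ⟶ P.X (s a))
    (p : ∀ a, P.X (s a) ⟶ Q.X a) (h1 : ∀ a, i a ≫ p a = 𝟙 _)
    (h2 : ∀ a b, a ≠ b → i a ≫ (𝟙 P : P ⟶ P).1 (s a) (s b) ≫ p b = 0)
    (h3 : ∀ j k, ∑ a, ((𝟙 P : P ⟶ P).1 j (s a) ≫ p a) ≫ i a ≫ (𝟙 P : P ⟶ P).1 (s a) k =
      (𝟙 P : P ⟶ P).1 j k) : Nonempty (Q ≅ P) :=
  ⟨⟨A2.Fam.homMk (fun a k => i a ≫ (𝟙 P : P ⟶ P).1 (s a) k) fun a k h => by
      rw [A2.Fam.e_zero (𝟙 P) (hl a ▸ h), comp_zero],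
    A2.Fam.homMk (fun j a => (𝟙 P : P ⟶ P).1 j (s a) ≫ p a) fun j a h => by
      rw [A2.Fam.e_zero (𝟙 P) (hl a ▸ h), zero_comp],
    A2.Fam.hom_ext fun a b => by
      have e := congrArg (fun t : P ⟶ P => t.1 (s a) (s b)) (Category.comp_id (𝟙 P))
      simp only [A2.Fam.comp_e] at e
      simp only [A2.Fam.comp_e, A2.Fam.homMk_e, Category.assoc, ← Preadditive.comp_sum]
      simp only [← Category.assoc, ← Preadditive.sum_comp, e]
      by_cases d : a = b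
      · subst d
        simp [A2.Fam.id_e, A2.Fam.dia, hU a, hl a ▸ hU a, h1]
      · rw [Category.assoc, h2 a b d, A2.Fam.id_e, A2.Fam.dia_ne fun k => d k.1],
    A2.Fam.hom_ext h3⟩⟩

theorem glM_surj (P : A2.Fam Λ (Mat_ B.C)) : ∃ X, Nonempty ((c.mu B).obj X ≅ P) := by
  classical
  let κ := Σ i : {i // P.l i ∈ Λ.U}, (P.X i.1).ι
  obtain ⟨g, hg⟩ := Countable.exists_injective_nat κ
  let t : Set.range g ≃ κ := (Equiv.ofInjective g hg).symm
  choose π hπ using fun a : Set.range g => c.on _ (t a).1.2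
  let i : ∀ x : κ, (Mat_.embedding B.C).obj ((P.X x.1.1).X x.2) ⟶ P.X x.1.1 := fun x =>
    biproduct.ι (fun k => (Mat_.embedding B.C).obj ((P.X x.1.1).X k)) x.2 ≫
      (Mat_.isoBiproductEmbedding _).inv
  let p : ∀ x : κ, P.X x.1.1 ⟶ (Mat_.embedding B.C).obj ((P.X x.1.1).X x.2) := fun x =>
    (Mat_.isoBiproductEmbedding _).hom ≫
      biproduct.π (fun k => (Mat_.embedding B.C).obj ((P.X x.1.1).X k)) x.2
  have h2 : ∀ x y : κ, x ≠ y → i x ≫ (𝟙 P : P ⟶ P).1 x.1.1 y.1.1 ≫ p y = 0 := by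
    rintro ⟨x, k⟩ ⟨y, l⟩ d
    by_cases e : x = y
    · subst e
      have : k ≠ l := fun e => d (e ▸ rfl)
      simp [i, p, A2.Fam.id_e, A2.Fam.dia, x.2, biproduct.ι_π_ne _ this,
        -Mat_.isoBiproductEmbedding_hom, -Mat_.isoBiproductEmbedding_inv]
    · rw [A2.Fam.id_e, A2.Fam.dia_ne fun k => e (Subtype.ext k.1), zero_comp, comp_zero]
  have h3 : ∀ x : {i // P.l i ∈ Λ.U},
      ∑ k : (P.X x.1).ι, p ⟨x, k⟩ ≫ i ⟨x, k⟩ = 𝟙 (P.X x.1) := fun x => by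
    rw [← (Mat_.isoBiproductEmbedding (P.X x.1)).hom_inv_id, ← Category.id_comp
      (Mat_.isoBiproductEmbedding (P.X x.1)).inv, ← biproduct.total,
      Preadditive.sum_comp, Preadditive.comp_sum]
    exact Finset.sum_congr rfl fun k _ => by simp only [i, p, Category.assoc]
  refine ⟨⟨Set.range g, fun a => (P.X (t a).1.1).X (t a).2, π, fun _ =>
    have := (Set.finite_range g).to_subtype; Set.toFinite _⟩,
    glM_iso (fun a => (t a).1.1) hπ (fun a => (congrArg (· ∈ Λ.U) (hπ a)).mpr (t a).1.2) (fun a => i (t a))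
      (fun a => p (t a)) (fun a => ?_) (fun a b d => h2 _ _ (t.injective.ne d)) fun j k => ?_⟩
  · simp [i, p, -Mat_.isoBiproductEmbedding_hom, -Mat_.isoBiproductEmbedding_inv]
    rfl
  · refine (@Equiv.sum_comp _ _ _ (_) _ _ t fun x : κ => ((𝟙 P : P ⟶ P).1 j x.1.1 ≫ p x) ≫ i x ≫
      (𝟙 P : P ⟶ P).1 x.1.1 k).trans ?_
    rw [Fintype.sum_sigma]
    have e := congrArg (fun t : P ⟶ P => t.1 j k) (Category.comp_id (𝟙 P))
    simp only [A2.Fam.comp_e] at e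
    rw [← e, ← Finset.sum_subset (Finset.filter_subset (fun x => P.l x ∈ Λ.U) _) fun x _ d => by
      rw [A2.Fam.e_zero (𝟙 P) fun o => d (by simpa using o.2.1), zero_comp],
      Finset.sum_subtype (p := fun x => P.l x ∈ Λ.U) _ (by simp)]
    refine Finset.sum_congr rfl fun x _ => ?_
    simp only [Category.assoc, ← Preadditive.comp_sum]
    simp only [← Category.assoc, ← Preadditive.sum_comp, h3, Category.id_comp]

instance : (c.mu B).IsEquivalence where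
  faithful := ⟨fun {_ _ a b} e => Mx.Mor.ext (funext₂ fun i j =>
    (Mat_.embedding B.C).map_injective (congrArg (fun t => t.1 i j) e))⟩
  full := ⟨fun {X Y} φ => ⟨⟨fun i j => (Mat_.embedding B.C).preimage (φ.1 i j), 0, fun i j d =>
    (c.ok 0 _ _).2 (by_contra fun o => d ((Mat_.embedding B.C).map_injective (by
      rw [Functor.map_preimage, A2.Fam.e_zero φ o, Functor.map_zero])))⟩,
    A2.Fam.hom_ext fun i j => (Mat_.embedding B.C).map_preimage (φ.1 i j)⟩⟩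
  essSurj := ⟨glM_surj c⟩

theorem Mu.zero (c : Mu Z Λ) : HasZeroObject (Mx Z B) :=
  have := c.fin (B := B)
  ⟨⟨⟨∅, fun i => i.2.elim, fun i => i.2.elim, fun _ => Set.toFinite _⟩,
    (IsZero.iff_id_eq_zero _).2 (Mx.Mor.ext (funext fun i => i.2.elim))⟩⟩

theorem Mu.bip (c : Mu Z Λ) : HasBinaryBiproducts (Mx Z B) :=
  have : HasBinaryProducts (Mx Z B) := Adjunction.hasLimitsOfShape_of_equivalence (c.mu B)
  HasBinaryBiproducts.of_hasBinaryProducts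

theorem glM_heq {C : Type u'} [Category.{v} C] [Preadditive C] {ι κ : Type} [Fintype ι] [Fintype κ]
    {l l' : ι → Λ.L} {m m' : κ → Λ.L} (e : l = l') (e' : m = m') {X : ι → C} {Y : κ → C}
    (φ : A2.Fam.mk ι l X ⟶ A2.Fam.mk κ m Y) (ψ : A2.Fam.mk ι l' X ⟶ A2.Fam.mk κ m' Y)
    (h : ∀ i j, φ.1 i j = ψ.1 i j) : HEq φ ψ := by
  subst e e'
  exact heq_of_eq (A2.Fam.hom_ext h)

theorem Mu.mu_nat (f : Z.Hom Z') (g : Λ ⟶ Λ') (h : ∀ a, c'.e (f.f a) = g.f (c.e a))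
    (F : B.Hom B') : Mx.map f F ⋙ c'.mu B' = c.mu B ⋙ A2.Fam.map g F.F.mapMat_ := by
  refine Functor.hext (fun X => congrArg (fun l => @A2.Fam.mk _ _ X.I
    (@Fintype.ofFinite _ (c.fin X)) l fun i => (Mat_.embedding B'.C).obj (F.F.obj (X.X i)))
      (funext fun i => h (X.π i))) fun X Y a => ?_
  refine @glM_heq _ _ _ _ _ _ (@Fintype.ofFinite _ (c.fin X)) (@Fintype.ofFinite _ (c.fin Y))
    _ _ _ _ (funext fun i => h (X.π i)) (funext fun i => h (Y.π i)) _ _ _ _ fun i j => ?_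
  refine Eq.trans ?_ (A2.Fam.map_e g F.F.mapMat_ ((c.mu B).map a) i j).symm
  change (Mat_.embedding B'.C).map (Mx.mapE f F a i j) = _
  by_cases d : Z'.U (f.f (X.π i)) ∧ Z'.U (f.f (Y.π j))
  · rw [Mx.mapE, if_pos d, if_pos ⟨h _ ▸ (c'.al _).1 d.1, h _ ▸ (c'.al _).1 d.2⟩]
    rfl
  · rw [Mx.mapE, if_neg d, AC.zero, Functor.map_zero, if_neg fun k => d
      ⟨(c'.al _).2 ((h _).symm ▸ k.1), (c'.al _).2 ((h _).symm ▸ k.2)⟩]

end Pool.Agent.Lib.MP_5d3e93_al.As
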