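import Pool.Agent.Lib.MP_5d3e93_al.Br.KT
import Pool.Agent.Lib.MP_5d3e93_al.Br.Ev

/-! Marked categories with an action, as functors from sets with an action to marked ambients. -/

open CategoryTheory Limits Function Simplicial

namespace Pool.Agent.Lib.MP_5d3e93_al.Br

open Gr Am A2

universe w v u

theorem tp_ext {x y : Tp.{v, u}} {f g : x ⟶ y} (h : f.f = g.f) : f = g := by
  obtain ⟨f, _⟩ := f
  obtain ⟨g, _⟩ := g
  obtain rfl : f = g := h
  rfl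

/-- Sets with an action. -/
structure Gs (G : Type v) [Group G] where
  T : Type v
  [act : MulAction G T]

attribute [instance] Gs.act

/-- Preadditive categories with an action. -/
structure Gc (G : Type v) [Group G] where
  C : Type (max 1 u v)
  [cat : Category.{v} C]
  [pre : Preadditive C]
  ρ : Act G C

attribute [instance] Gc.cat Gc.pre

variable {G : Type v} [Group G]

instance : Category (Gs G) where
  Hom X Y := {f : X.T → Y.T // ∀ (g : G) t, f (g • t) = g • f t}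
  id _ := ⟨id, fun _ _ => rfl⟩
  comp f g := ⟨g.1 ∘ f.1, fun x t => (congrArg g.1 (f.2 x t)).trans (g.2 ..)⟩

/-- Equivariant additive functors. -/
structure Gc.Hom (A B : Gc.{v, u} G) where
  F : A.C ⥤ B.C
  [add : F.Additive]
  e : ∀ g, A.ρ.F g ⋙ F = F ⋙ B.ρ.F g

attribute [instance] Gc.Hom.add

instance : Category (Gc.{v, u} G) where
  Hom := Gc.Hom
  id A := ⟨𝟭 _, fun _ => rfl⟩
  comp f g := ⟨f.F ⋙ g.F, fun k => (congrArg (· ⋙ g.F) (f.e k)).trans (congrArg (f.F ⋙ ·) (g.e k))⟩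

/-- The ambient category. -/
noncomputable abbrev Gc.a (A : Gc.{v, u} G) (T : Gs G) : Am.{v, max 1 u v} := ea A.ρ T.T

/-- The map of ambient categories. -/
noncomputable def Gc.m {A B : Gc.{v, u} G} (f : A ⟶ B) {T T' : Gs G} (φ : T ⟶ T') :
    Map (A.a T) (B.a T') := (Ef.of f.F f.e φ.1 φ.2).em

theorem Gc.m_id (A : Gc.{v, u} G) (T : Gs G) : Gc.m (𝟙 A) (𝟙 T) = (A.a T).idm :=
  Ef.em_id _ rfl fun _ _ => rfl

theorem Gc.m_comp {A B C : Gc.{v, u} G} (f : A ⟶ B) (g : B ⟶ C) {T T' T'' : Gs G} (φ : T ⟶ T')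
    (ψ : T' ⟶ T'') : (Gc.m f φ).comp (Gc.m g ψ) = Gc.m (f ≫ g) (φ ≫ ψ) :=
  Ef.em_comp _ _ _ rfl fun _ _ => rfl

variable (G) in
/-- Categories with an action and a natural family of classes. -/
structure Mk where
  A : Gc.{v, u} G
  N : ∀ T : Gs G, ObjectProperty (A.a T).D
  [tg : ∀ T, Tg (N T)]
  nat : ∀ {T T' : Gs G} (φ : T ⟶ T'), N T ≤ (N T').inverseImage (Gc.m (𝟙 A) φ).D

attribute [instance] Mk.tg

instance : Category (Mk.{v, u} G) where
  Hom X Y := {f : X.A ⟶ Y.A // ∀ T, X.N T ≤ (Y.N T).inverseImage (Gc.m f (𝟙 T)).D}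
  id X := ⟨𝟙 _, fun T => X.nat (𝟙 T)⟩
  comp f g := ⟨f.1 ≫ g.1, fun T x a => by
    rw [← Category.id_comp (𝟙 T), ← Gc.m_comp]
    exact g.2 T _ (f.2 T x a)⟩

/-- The functor on sets with an action. -/
noncomputable def EG : Mk.{v, u} G ⥤ Gs G ⥤ Tp.{v, max 1 u v} where
  obj X :=
    { obj T := ⟨X.A.a T, X.N T⟩
      map φ := ⟨Gc.m (𝟙 _) φ, X.nat φ⟩
      map_id _ := tp_ext (Gc.m_id ..)
      map_comp φ ψ := tp_ext (Gc.m_comp (𝟙 _) (𝟙 _) φ ψ).symm }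
  map f := ⟨fun T => ⟨Gc.m f.1 (𝟙 T), f.2 T⟩, fun _ _ φ =>
    tp_ext ((Gc.m_comp (𝟙 _) f.1 φ (𝟙 _)).trans (Gc.m_comp f.1 (𝟙 _) (𝟙 _) φ).symm)⟩
  map_id _ := NatTrans.ext (funext fun _ => tp_ext (Gc.m_id ..))
  map_comp f g := NatTrans.ext (funext fun _ => tp_ext (Gc.m_comp f.1 g.1 (𝟙 _) (𝟙 _)).symm)

/-- The classes generated by a property of the coefficients. -/
noncomputable abbrev Gc.g (A : Gc.{v, u} G) (P : ObjectProperty A.C) : Mk.{v, u} G :=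
  ⟨A, fun T => eg A.ρ T.T P, fun _ => Ef.maps _ fun _ a => a⟩

/-- The thick closure inside a bigger class. -/
noncomputable abbrev Gc.n (A : Gc.{v, u} G) (P P' : ObjectProperty A.C) : Mk.{v, u} G :=
  ⟨A, fun T => eg A.ρ T.T P' ⊓ Th (eg A.ρ T.T P), fun _ _ h =>
    ⟨Ef.maps _ (fun _ a => a) _ h.1, Ef.maps_th _ (fun _ a => a) _ h.2⟩⟩

/-- Maps that keep the properties. -/
def Gc.gm {A B : Gc.{v, u} G} (f : A ⟶ B) {P : ObjectProperty A.C} {R : ObjectProperty B.C}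
    (h : P ≤ R.inverseImage f.F) : A.g P ⟶ B.g R := ⟨f, fun _ => Ef.maps _ h⟩

variable {X X' : SimplexCategoryᵒᵖ ⥤ Gs G}

/-- Contractions of a map of simplicial sets with an action that depend on a point of `S`. -/
structure Cz (S : Type v) [MulAction G S] (α : X ⟶ X') where
  c : ∀ p : SimplexCategoryᵒᵖ, (p.unop ⟶ ⦋1⦌) → S → (X.obj p).T → (X.obj p).T
  σ : ∀ p, S → (X'.obj p).T → (X.obj p).T
  ce : ∀ p a (g : G) s x, c p a (g • s) (g • x) = g • c p a s x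
  σe : ∀ p (g : G) s x, σ p (g • s) (g • x) = g • σ p s x
  cn : ∀ p q (θ : p ⟶ q) a s x, (X.map θ).1 (c p a s x) = c q (θ.unop ≫ a) s ((X.map θ).1 x)
  σn : ∀ p q (θ : p ⟶ q) s x, (X.map θ).1 (σ p s x) = σ q s ((X'.map θ).1 x)
  c0 : ∀ p s x, c p (SimplexCategory.const _ _ 0) s x = x
  c1 : ∀ p s x, c p (SimplexCategory.const _ _ 1) s x = σ p s ((α.app p).1 x)
  r : ∀ p s x, (α.app p).1 (σ p s x) = x

/-- With equivariant labels on the coefficients a contractible map induces an isomorphism. -/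
theorem Cz.bij {S : Type v} [MulAction G S] {α : X ⟶ X'} (z : Cz S α)
    {K : (SimplexCategoryᵒᵖ ⥤ Tp.{v, max 1 u v}) ⥤ Pre.{w}} (h : HT K) (A : Gc.{v, u} G)
    (l : A.C → S) (h1 : ∀ ⦃B B' : A.C⦄ (f : B ⟶ B'), f ≠ 0 → l B = l B')
    (h2 : ∀ g B, l ((A.ρ.F g).obj B) = g • l B) (n : ℤ) :
    Bijective (Pre.map n (K.map (Functor.whiskerRight α (EG.obj (A.g ⊤))))) := by
  let e {T T' : Gs G} (φ : S → T.T → T'.T) (k : ∀ (g : G) s x, φ (g • s) (g • x) = g • φ s x) :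
      Ef T.T T'.T A.ρ A.ρ := ⟨𝟭 _, inferInstance, fun B => φ (l B),
        fun _ _ f a t => congrArg (φ · t) (h1 f a), fun _ => rfl, fun g B t => by rw [h2, k]⟩
  let m {T T' : Gs G} (φ : S → T.T → T'.T) (k) : (EG.obj (A.g ⊤)).obj T ⟶ (EG.obj (A.g ⊤)).obj T' :=
    ⟨(e φ k).em, Ef.maps _ fun _ a => a⟩
  let s : X' ⋙ EG.obj (A.g ⊤) ⟶ X ⋙ EG.obj (A.g ⊤) := ⟨fun p => m (z.σ p) (z.σe p), fun p q θ =>
    tp_ext ((Ef.em_comp _ _ (e (fun s x => z.σ q s ((X'.map θ).1 x)) fun g s x => by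
      rw [(X'.map θ).2, z.σe]) rfl fun _ _ => rfl).trans
        (Ef.em_comp _ _ _ rfl fun _ _ => (z.σn ..).symm).symm)⟩
  refine bijective_iff_has_inverse.2 ⟨Pre.map n (K.map s), fun x => ?_, fun x => ?_⟩
  · rw [← Pre.map_comp, ← K.map_comp, ← h (𝟙 _) _ (fun p a => m (z.c p a) (z.ce p a))
      (fun p q θ a => tp_ext ((Ef.em_comp _ _ (e (fun s x => (X.map θ).1 (z.c p a s x))
        fun g s x => by rw [z.ce, (X.map θ).2]) rfl fun _ _ => rfl).trans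
          (Ef.em_comp _ _ _ rfl fun _ _ => z.cn ..).symm))
      (fun p => tp_ext (Ef.em_id _ rfl fun _ _ => z.c0 ..))
      (fun p => tp_ext (Ef.em_comp _ _ _ rfl fun _ _ => z.c1 ..).symm), K.map_id, Pre.map_id]
  · rw [← Pre.map_comp, ← K.map_comp, show s ≫ Functor.whiskerRight α _ = 𝟙 _ from
      NatTrans.ext (funext fun p => tp_ext ((Ef.em_comp _ _ (Ef.lb A.ρ id fun _ _ => rfl) rfl
        fun _ _ => (z.r ..).symm).trans (Ef.em_id _ rfl fun _ _ => rfl))), K.map_id, Pre.map_id]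

/-- The nerve: tuples of points. -/
def cech (S : Type v) [MulAction G S] : SimplexCategoryᵒᵖ ⥤ Gs G where
  obj p := ⟨Fin (p.unop.len + 1) → S⟩
  map θ := ⟨fun x => x ∘ θ.unop.toOrderHom, fun _ _ => rfl⟩

/-- The contraction of the nerve. -/
def cz (S : Type v) [MulAction G S] (α : cech S ⟶ X') (h : ∀ p, Subsingleton (X'.obj p).T) :
    Cz S α where
  c _ a s x i := if a.toOrderHom i = 0 then x i else s
  σ _ s _ _ := s
  ce _ _ g _ _ := funext fun _ => (apply_ite (g • ·) ..).symm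
  σe _ _ _ _ := rfl
  cn _ _ _ _ _ _ := rfl
  σn _ _ _ _ _ := rfl
  c0 _ _ _ := rfl
  c1 _ _ _ := rfl
  r p _ _ := (h p).elim ..

end Pool.Agent.Lib.MP_5d3e93_al.Br
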