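import Pool.Agent.Lib.MP_5d3e93_al.Gr.KnL

/-! Categorical input of the Grayson step: the classes `V ≤ Nb ≤ W` and their quotients. -/

open CategoryTheory Limits Pretriangulated ZeroObject

namespace Pool.Agent.Lib.MP_5d3e93_al.Br

open Gr Am

universe w v u

variable {a : Am.{v, u}}

/-- The map between two quotients. -/
def quoM {N N' : ObjectProperty a.D} [Tg N] [Tg N'] (h : N ≤ N') : Map (a.quo N) (a.quo N') where
  F := 𝟭 a.A
  add := inferInstanceAs (𝟭 a.A).Additive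
  hT X k := (a.quo N').le_Tb X (h _ k)

theorem π_quoM {N N' : ObjectProperty a.D} [Tg N] [Tg N'] (h : N ≤ N') :
    (a.π N).comp (quoM h) = a.π N' := rfl

/-- Bounded binary complexes that are acyclic for the differential `e`. -/
def Nb (S : ObjectProperty a.D) (e : Bool) : ObjectProperty a.B.D :=
  W S ⊓ fun M => ∀ Y (φ : M ⟶ (a.R e).D.obj Y), φ = 0

instance (S : ObjectProperty a.D) [Tg S] (e : Bool) : Tg (Nb S e) :=
  have : Tg (fun M : a.B.D => ∀ Y (φ : M ⟶ (a.R e).D.obj Y), φ = 0 : ObjectProperty _) := by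
    have k : Tg (Ac fun _ : Bool => (a.R e).D) := inferInstance
    have q : (Ac fun _ : Bool => (a.R e).D) =
        fun M : a.B.D => ∀ Y (φ : M ⟶ (a.R e).D.obj Y), φ = 0 :=
      funext fun _ => propext ⟨fun h => h true, fun h _ => h⟩
    exact q ▸ k
  inferInstanceAs (Tg (W S ⊓ _))

theorem V_le_Nb (S : ObjectProperty a.D) (e : Bool) : V S ≤ Nb S e := fun _ h => ⟨h.1, h.2 e⟩

variable (a) in
/-- The free binary complex on a generator of degree `i`. -/
noncomputable abbrev Lm (i : ℕ) : Map a a.B := a.zo (Zoo.okL i)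

variable {S : ObjectProperty a.D} [Tg S]

/-- `quo_loc`; `Ac` is closed under retracts. -/
theorem gy_locV : Loc (a.B.π (V S)).D (V S) (W S) ((W S).map (a.B.π (V S)).D) :=
  quo_loc (fun _ h => h.1) fun X h ⟨Y, k⟩ => ⟨h, fun b Z φ => by
    rw [← Category.id_comp φ, ← biprod.inl_fst (Y := Y), Category.assoc, k.2 b Z (_ ≫ φ),
      comp_zero]⟩

theorem gy_locN (e : Bool) :
    Loc (a.B.π (Nb S e)).D (Nb S e) (W S) ((W S).map (a.B.π (Nb S e)).D) :=
  quo_loc (fun _ h => h.1) fun X h ⟨Y, k⟩ => ⟨h, fun Z φ => by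
    rw [← Category.id_comp φ, ← biprod.inl_fst (Y := Y), Category.assoc, k.2 Z (_ ≫ φ),
      comp_zero]⟩

theorem gy_tg (e : Bool) : Tg ((Nb S e).map (a.B.π (V S)).D) :=
  ((gy_locV (S := S)).toLocOn.mono (V_le_Nb S e) fun _ h => h.1).tg_map

/-- The transformation `α i` of `bs_up`; its cone is acyclic (`ac_cone`, as in `rais_L`). -/
theorem gy_up (i : ℕ) : ∃ α : ((Lm a i).comp (a.B.π (V S))).F ⟶
    ((Lm a (i + 1)).comp (a.B.π (V S))).F, ∀ X, S X →
      IsIso ((((Lm a i).comp (a.B.π (V S))).nat ((Lm a (i + 1)).comp (a.B.π (V S))) α).app X) := by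
  let α : (Lm a i).F ⟶ (Lm a (i + 1)).F := Zoo.idn (Zoo.okL i) (Zoo.okL (i + 1))
    (fun _ _ _ => by omega) (fun _ _ _ => by omega) fun _ _ _ => by omega
  refine ⟨Functor.whiskerRight α (a.B.π (V S)).F, fun X h => ?_⟩
  obtain ⟨C, g, k, hT⟩ := distinguished_cocone_triangle (((Lm a i).nat (Lm a (i + 1)) α).app X)
  have hC : V S C := ⟨(W S).ext_of_isTriangulatedClosed₃ _ hT (a.bs.W_L i h) (a.bs.W_L (i + 1) h),
    ac_cone (R := fun b => (a.R b).D) hT fun b =>
      ⟨X, (a.bs.ι (i + 1) b).app X, a.bs.un_L _ _ _, by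
        have e : ((Lm a i).nat (Lm a (i + 1)) α).app X ≫ (a.bs.ι (i + 1) b).app X =
            (a.bs.ι i b).app X :=
          Map.nat_app_comp _ _ _ _ _ _ (NatTrans.ext (funext fun Y => Bin.hom_ext fun n =>
            (Zoo.mp_pr b _ (by omega) (by omega)).trans (Category.comp_id _))) X
        exact e ▸ a.bs.un_L i b X⟩⟩
  exact (Map.map_nat _ _ (a.B.π (V S)) α X) ▸
    isIso_of_kill (gy_locV (S := S)).kill (ObjectProperty.trW.mk _ hT hC)

/-- `Bin.unit`. -/
theorem gy_unit (i : ℕ) : Nonempty (a.idm.F ≅ ((Lm a i).comp (a.ev i)).F) :=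
  ⟨@asIso _ _ _ _ (Zoo.iaN (C := a.A) (Zoo.okL i) i)
    (@NatIso.isIso_of_isIso_app _ _ _ _ _ _ _ fun _ => Zoo.isIso_ia le_rfl (lt_irrefl _))⟩

end Pool.Agent.Lib.MP_5d3e93_al.Br
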