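import Pool.Agent.Lib.MP_5d3e93_al.Br.GyA

/-! The quotient of bounded binary complexes by those acyclic for one differential. -/

open CategoryTheory Limits Pretriangulated ZeroObject

namespace Pool.Agent.Lib.MP_5d3e93_al.Br

open Gr Am

universe w v u

section one

variable {D : Type*} [Category* D] [HasZeroObject D] [HasShift D ℤ] [Preadditive D]
  [∀ n : ℤ, (shiftFunctor D n).Additive] [Pretriangulated D]
variable {E : Type*} [Category* E] [HasZeroObject E] [HasShift E ℤ] [Preadditive E]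
  [∀ n : ℤ, (shiftFunctor E n).Additive] [Pretriangulated E] [IsTriangulated E]
variable {E' : Type*} [Category* E'] [HasZeroObject E'] [HasShift E' ℤ] [Preadditive E']
  [∀ n : ℤ, (shiftFunctor E' n).Additive] [Pretriangulated E']
variable {ev : ℕ → E ⥤ D} {R : Bool → D ⥤ E} [∀ j, (ev j).CommShift ℤ]
  [∀ j, (ev j).IsTriangulated] [∀ b, (R b).CommShift ℤ] [∀ b, (R b).IsTriangulated]
  {S : ObjectProperty D} [Tg S] (β : Bs ev R) (e : Bool) {N : ObjectProperty E} [Tg N]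
  {F : E ⥤ E'} [F.CommShift ℤ] [F.IsTriangulated]
include β

omit [IsTriangulated E] in
theorem gyb_f4 (m : ℕ) {Y : E} (k : ∀ j, m ≤ j → IsZero ((ev j).obj Y)) {P P' : D}
    {u : Y ⟶ (R e).obj P} {u' : Y ⟶ (R (!e)).obj P'} (hu : Un _ u) (hu' : Un _ u') {M : E}
    (hM : ∀ j, j < m → IsZero ((ev j).obj M)) :
    Function.Bijective fun φ : M ⟶ Y => (φ ≫ u, φ ≫ u') := by
  cases e
  · exact Prod.swap_bijective.comp (β.f4 m k hu' hu hM)
  · exact β.f4 m k hu hu' hM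

theorem gyb_pair (h0 : Subsingleton (K0 S)) {P P' : D} (a : S P) (b : S P') :
    ∃ M, Wd ev S M ∧ ∃ (u : M ⟶ (R e).obj P) (u' : M ⟶ (R (!e)).obj P'), Un _ u ∧ Un _ u' := by
  cases e
  · obtain ⟨M, w, u, u', h, h'⟩ := β.pair b a (h0.elim _ _)
    exact ⟨M, w, u', u, h', h⟩
  · exact β.pair a b (h0.elim _ _)

/-- A pair of maps to the total objects comes from a map after raising the source. -/
theorem gyb_lift {A B : E} (a : Wd ev S A) (n : ℕ) (b : Wd ev S B) {Q Q' : D}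
    {u : B ⟶ (R e).obj Q} {u' : B ⟶ (R (!e)).obj Q'} (hu : Un _ u) (hu' : Un _ u')
    (x : A ⟶ (R e).obj Q) (x' : A ⟶ (R (!e)).obj Q') : ∃ (A' : E) (s : A' ⟶ A) (φ : A' ⟶ B),
      (∀ j, j < n → IsZero ((ev j).obj A')) ∧ (Vd ev R S).trW s ∧ φ ≫ u = s ≫ x ∧
        φ ≫ u' = s ≫ x' := by
  obtain ⟨-, m, hm⟩ := b
  obtain ⟨A', s, l, w⟩ := β.raise a (max m n)
  obtain ⟨φ, hφ⟩ := (gyb_f4 β e m hm hu hu' fun j k => l j (lt_max_of_lt_left k)).2
    (s ≫ x, s ≫ x')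
  exact ⟨A', s, φ, fun j k => l j (lt_max_of_lt_right k), w, congrArg Prod.fst hφ,
    congrArg Prod.snd hφ⟩

variable (hN : ∀ M, N M ↔ Wd ev S M ∧ ∀ Y (φ : M ⟶ (R e).obj Y), φ = 0)
  (h : LocOn F N (Wd ev S)) (h0 : Subsingleton (K0 S))
include hN h h0

/-- A map whose component for the differential `e` vanishes dies in the quotient. -/
theorem gyb_kill {X Y : E} (a : Wd ev S X) (b : Wd ev S Y) {P : D} {u : Y ⟶ (R e).obj P}
    (hu : Un _ u) (d : X ⟶ Y) (hd : d ≫ u = 0) : F.map d = 0 := by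
  have vn : Vd ev R S ≤ N := fun M k => (hN M).2 ⟨k.1, k.2 e⟩
  obtain ⟨P', p', u', hu'⟩ := β.tot b (!e)
  obtain ⟨A, wA, v, v', hv, hv'⟩ := gyb_pair β e h0 (Tg.zero S (isZero_zero D)) p'
  obtain ⟨A', t, φ, -, ht, e₁, e₂⟩ := gyb_lift β e wA 0 b hu hu' 0 v'
  have ht' : (Ac R).trW t := ObjectProperty.trW_monotone inf_le_right _ ht
  have wA' : Wd ev S A' := (Tg.of_trW inf_le_left ht).2 wA
  obtain ⟨-, m, hm⟩ := b
  obtain ⟨X', s, ψ, l, hs, e₃, e₄⟩ := gyb_lift β e a m wA' (un_of_trW ht' hv) (un_of_trW ht' hv')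
    0 (d ≫ u')
  have k : s ≫ d = ψ ≫ φ := (gyb_f4 β e m hm hu hu' l).1 (Prod.ext
    (by simp only [Category.assoc, hd, e₁, comp_zero])
    (by simp only [Category.assoc, e₂, e₄]))
  have z : IsZero (F.obj A') :=
    h.kill _ ((hN _).2 ⟨wA', (un_of_trW ht' hv).isZero_iff.1 (isZero_zero D)⟩)
  have := isIso_of_kill h.kill (ObjectProperty.trW_monotone vn _ hs)
  rw [← cancel_epi (F.map s), ← F.map_comp, k, F.map_comp, z.eq_of_src (F.map φ) 0, comp_zero,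
    comp_zero]

theorem gyb_deq : Deq (β.L 0 ⋙ F) S ((Wd ev S).map F) := by
  have vn : Vd ev R S ≤ N := fun M k => (hN M).2 ⟨k.1, k.2 e⟩
  have un : ∀ {M : E} {X : D} {s : M ⟶ (β.L 0).obj X}, N.trW s →
      Un (R e) (s ≫ (β.ι 0 e).app X) := fun {M X s} hs =>
    un_of_trW (R := fun _ => R e) (b := e)
      (ObjectProperty.trW_monotone (fun M k _ => ((hN M).1 k).2) _ hs) (β.un_L 0 e X)
  refine ⟨fun X Y a b => ⟨lc_inj.2 fun g k => ?_, fun φ => ?_⟩,
    fun X a => ⟨_, β.W_L 0 a, ⟨Iso.refl _⟩⟩, ?_⟩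
  · obtain ⟨M, s, hs, z⟩ := h.faith' (β.W_L 0 a) (β.W_L 0 b) ((β.L 0).map g) k
    refine (un hs Y).1 ?_
    simp only [Category.assoc, ← (β.ι 0 e).naturality g, reassoc_of% z, Functor.map_zero,
      zero_comp, comp_zero]
  · obtain ⟨M, s, f, hs, z⟩ := h.full' (β.W_L 0 a) (β.W_L 0 b) φ
    obtain ⟨g, hg⟩ := (un hs Y).2 (f ≫ (β.ι 0 e).app Y)
    have := isIso_of_kill h.kill hs
    have k := gyb_kill β e hN h h0 ((Tg.of_trW h.le hs).2 (β.W_L 0 a)) (β.W_L 0 b)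
      (β.un_L 0 e Y) (s ≫ (β.L 0).map g - f) (by
        rw [Preadditive.sub_comp, sub_eq_zero, Category.assoc, (β.ι 0 e).naturality g,
          ← Category.assoc]
        exact hg)
    rw [F.map_sub, sub_eq_zero, F.map_comp, ← z, cancel_epi] at k
    exact ⟨g, k⟩
  · rintro _ ⟨M, w, ⟨i⟩⟩
    obtain ⟨P, p, u, hu⟩ := β.tot w e
    obtain ⟨M', s, φ, -, hs, e₁, -⟩ := gyb_lift β e w 0 (β.W_L 0 p) (β.un_L 0 e P)
      (β.un_L 0 (!e) P) u 0
    obtain ⟨C, g, d, hC⟩ := distinguished_cocone_triangle φ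
    have := isIso_of_kill h.kill (ObjectProperty.trW_monotone vn _ hs)
    have : IsIso (F.map φ) := isIso_of_kill h.kill (ObjectProperty.trW.mk N hC ((hN C).2
      ⟨(Wd ev S).ext_of_isTriangulatedClosed₃ _ hC ((Tg.of_trW inf_le_left hs).2 w) (β.W_L 0 p),
        ac_cone (R := fun _ => R e) hC (fun _ => ⟨P, _, β.un_L 0 e P,
          e₁ ▸ un_of_trW (ObjectProperty.trW_monotone inf_le_right _ hs) hu⟩) e⟩))
    exact ⟨P, p, ⟨(asIso (F.map φ)).symm ≪≫ asIso (F.map s) ≪≫ i⟩⟩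

end one

variable {a : Am.{v, u}} {S : ObjectProperty a.D} [Tg S]

/-- Total objects for the differential `e` invert the free binary complex. -/
theorem gy_one (h0 : Subsingleton (K0 S)) (e : Bool) :
    Deq ((Lm a 0).comp (a.B.π (Nb S e))).D S ((W S).map (a.B.π (Nb S e)).D) := by
  rw [Map.comp_D]
  exact gyb_deq a.bs e (N := Nb S e) (fun _ => Iff.rfl) (gy_locN e).toLocOn h0

end Pool.Agent.Lib.MP_5d3e93_al.Br
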