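import Pool.Agent.Lib.MP_5d3e93_al.Br.PrA

/-! The realisation of the product with the standard interval is the cylinder. -/

open CategoryTheory Simplicial Opposite Topology MonoidalCategory SSet unitInterval
open CartesianMonoidalCategory (fst snd)

namespace Pool.Agent.Lib.MP_5d3e93_al.Br

universe u

/-- The top dimensional simplices of the prism. -/
def prj {n : ℕ} (j : Fin (n + 1)) : (Δ[n] ⊗ Δ[1] : SSet.{u}) _⦋n + 1⦌ :=
  (stdSimplex.objEquiv.symm (SimplexCategory.σ j), stdSimplex.objMk₁ j.succ.castSucc)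

theorem sx1_ext {s t : Sx 1} (h : s 1 = t 1) : s = t :=
  stdSimplexHomeomorphUnitInterval.injective (Subtype.ext h)

theorem prj_pt {n : ℕ} (t : Sx n) (s : Sx 1) : ∃ (j : Fin (n + 1)) (v : Sx (n + 1)),
    stdSimplex.map j.predAbove v = t ∧ ∀ β : Fin (n + 2) → Fin 2,
      (∀ l, β l = 1 ↔ j.1 + 1 ≤ l.1) → stdSimplex.map β v = s := by
  let T (i : ℕ) : ℝ := ∑ l : Fin (n + 1), if i ≤ l.1 then t l else 0
  have e0 : T (n + 1) ≤ s 1 := (Finset.sum_eq_zero fun l _ =>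
    if_neg (by omega)).trans_le (stdSimplex.zero_le s 1)
  have e : ∃ j, T (j + 1) ≤ s 1 := ⟨n, e0⟩
  obtain ⟨j, a, b⟩ : ∃ j : Fin (n + 1), T (j + 1) ≤ s 1 ∧ s 1 ≤ T j := by
    refine ⟨⟨Nat.find e, Nat.lt_succ_of_le (Nat.find_min' e e0)⟩, Nat.find_spec e, ?_⟩
    obtain c | c := Nat.eq_zero_or_pos (Nat.find e)
    · simp [T, c]
    · have := (not_le.1 (Nat.find_min e (m := Nat.find e - 1) (by omega))).le
      rwa [Nat.sub_add_cancel c] at this
  have c : T j = t j + T (j + 1) := by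
    rw [← Finset.sum_ite_eq_of_mem' Finset.univ j t (Finset.mem_univ j), ← Finset.sum_add_distrib]
    refine Finset.sum_congr rfl fun l _ => ?_
    simp only [Fin.ext_iff]
    split_ifs <;> first | omega | simp
  let w : Fin (n + 2) → ℝ := Pi.single j.castSucc 1 - Pi.single j.succ 1
  obtain ⟨v, hv⟩ : ∃ v : Sx (n + 1),
      ⇑v = ⇑(stdSimplex.map j.castSucc.succAbove t) + (T j - s 1) • w := by
    refine ⟨⟨⇑(stdSimplex.map j.castSucc.succAbove t) + (T j - s 1) • w, fun l => ?_, ?_⟩, rfl⟩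
    · have := stdSimplex.zero_le (stdSimplex.map j.castSucc.succAbove t) l
      have d := smap_inj (Fin.succAbove_right_injective (p := j.castSucc)) t j
      rw [Fin.succAbove_castSucc_self] at d
      simp only [w, Pi.add_apply, Pi.smul_apply, Pi.sub_apply, Pi.single_apply, smul_eq_mul]
      split_ifs with f g g
      · linarith
      · linarith
      · rw [g, d]
        linarith
      · linarith
    · simp [w, Finset.sum_add_distrib, ← Finset.mul_sum, -stdSimplex.map_coe]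
  refine ⟨j, v, stdSimplex.ext ?_, fun β β1 => sx1_ext ?_⟩
  · have : FunOnFinite.linearMap ℝ ℝ j.predAbove w = 0 := by
      simp [w, FunOnFinite.linearMap_piSingle]
    rw [stdSimplex.map_coe, hv, map_add, map_smul, this, smul_zero, add_zero,
      ← stdSimplex.map_coe, stdSimplex.map_comp_apply,
      show j.predAbove ∘ j.castSucc.succAbove = id from funext (Fin.predAbove_succAbove j),
      stdSimplex.map_id_apply]
  · have : FunOnFinite.linearMap ℝ ℝ β w 1 = -1 := by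
      simp [w, FunOnFinite.linearMap_piSingle, Pi.single_apply, eq_comm (a := (1 : Fin 2)), β1]
    rw [stdSimplex.map_coe, hv, map_add, map_smul, Pi.add_apply, Pi.smul_apply, this,
      ← stdSimplex.map_coe, stdSimplex.map_comp_apply, smap_apply]
    have : ∑ l, (if (β ∘ j.castSucc.succAbove) l = 1 then t l else 0) = T j := by
      refine Finset.sum_congr rfl fun l _ => if_congr ((β1 _).trans ?_) rfl rfl
      simp only [Fin.succAbove, Fin.lt_def]
      split_ifs <;> simp_all <;> omega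
    rw [this]
    simp

theorem prj_surj {n : ℕ} (t : Sx n) (s : Sx 1) :
    ∃ (j : Fin (n + 1)) (v : Sx (n + 1)), co n 1 (ch (prj.{u} j) v) = (t, s) := by
  obtain ⟨j, v, a, b⟩ := prj_pt t s
  refine ⟨j, v, (co_ch _ _).trans (Prod.ext a (b _ fun l => ?_))⟩
  exact stdSimplex.objMk₁_apply_eq_one_iff _ _

/-- The inverse of the coordinates on the standard prism. -/
noncomputable def pr0 (n : ℕ) (p : Sx n × Sx 1) : Rl (Δ[n] ⊗ Δ[1] : SSet.{u}) :=
  ch (prj (prj_surj.{u} p.1 p.2).choose) (prj_surj.{u} p.1 p.2).choose_spec.choose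

theorem co_pr0 {n : ℕ} (p : Sx n × Sx 1) : co n 1 (pr0.{u} n p) = p :=
  (prj_surj.{u} p.1 p.2).choose_spec.choose_spec

theorem pr0_co {n : ℕ} (p : Rl (Δ[n] ⊗ Δ[1] : SSet.{u})) : pr0 n (co n 1 p) = p :=
  co_inj _ _ (co_pr0 _)

theorem pr0_cont (n : ℕ) : Continuous (pr0.{u} n) := by
  have c : Continuous fun a : Fin (n + 1) × Sx (n + 1) => ch (prj.{u} a.1) a.2 :=
    continuous_prod_of_discrete_left.2 fun j => (ch (prj.{u} j)).continuous
  have d := (co_cont n 1).comp c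
  refine (d.isClosedMap.isQuotientMap d fun p => ?_).continuous_iff.2 (c.congr fun a => ?_)
  · obtain ⟨j, v, e⟩ := prj_surj.{u} p.1 p.2
    exact ⟨(j, v), e⟩
  · exact (pr0_co _).symm

theorem pr0_nat {m n : ℕ} (g : ⦋m⦌ ⟶ ⦋n⦌) (t : Sx m) (s : Sx 1) :
    rm (SSet.stdSimplex.map g ▷ Δ[1]) (pr0.{u} m (t, s)) = pr0 n (sm g t, s) := by
  have (p : Rl (Δ[m] ⊗ Δ[1] : SSet.{u})) : co n 1 (rm (SSet.stdSimplex.map g ▷ Δ[1]) p) =
      (sm g (co m 1 p).1, (co m 1 p).2) := by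
    induction p using rl_ind with
    | h k z v =>
      rw [ch_map, co_ch, co_ch]
      exact Prod.ext (stdSimplex.map_comp_apply z.1 (fun i => g.toOrderHom i) v).symm rfl
  refine co_inj _ _ ?_
  rw [this, co_pr0, co_pr0]

variable {X Y : SSet.{u}} {n : ℕ}

theorem pr_cpt (X : SSet.{u}) (s : Sx 1) : Cpt (X := X) fun n x t =>
    rm (SSet.yonedaEquiv.symm x ▷ Δ[1]) (pr0 n (t, s)) := fun m n g x t => by
  beta_reduce
  rw [← yonedaEquiv_symm_naturality_left, comp_whiskerRight, rm_comp, pr0_nat]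

/-- The map from the cylinder on the realisation to the realisation of the cylinder. -/
noncomputable def pr (X : SSet.{u}) : C(Rl X × I, Rl (X ⊗ Δ[1])) where
  toFun p := lift (X := X) (fun n x t => rm (SSet.yonedaEquiv.symm x ▷ Δ[1])
    (pr0 n (t, stdSimplexHomeomorphUnitInterval.symm p.2))) p.1
  continuous_toFun := rl_cont_prod.2 fun n x => by
    simp only [(pr_cpt X _).lift_ch]
    exact (rm _).continuous.comp ((pr0_cont n).comp (by fun_prop))

/-- The point of the interval given by a simplex of the standard interval. -/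
noncomputable def hI (b : (Δ[1] : SSet.{u}) _⦋n⦌) (t : Sx n) : I :=
  stdSimplexHomeomorphUnitInterval (stdSimplex.map b t)

theorem hI_val (b : (Δ[1] : SSet.{u}) _⦋n⦌) (t : Sx n) :
    (hI b t : ℝ) = ∑ i, if b i = 1 then t i else 0 := smap_apply b t 1

theorem hI_cpt : Cpt (X := (Δ[1] : SSet.{u})) fun _ b t => hI b t := fun _ _ g b t =>
  congrArg stdSimplexHomeomorphUnitInterval
    (stdSimplex.map_comp_apply (fun i => g.toOrderHom i) b t).symm

/-- The coordinate on the realisation of the standard interval. -/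
noncomputable def tI : C(Rl (Δ[1] : SSet.{u}), I) :=
  ⟨lift fun _ b t => hI b t, hI_cpt.cont fun _ _ =>
    stdSimplexHomeomorphUnitInterval.continuous.comp (stdSimplex.continuous_map _)⟩

theorem tI_ch (b : (Δ[1] : SSet.{u}) _⦋n⦌) (t : Sx n) : tI (ch b t) = hI b t :=
  hI_cpt.lift_ch b t

theorem pr_ch (x : X _⦋n⦌) (b : (Δ[1] : SSet.{u}) _⦋n⦌) (t : Sx n) :
    pr X (ch x t, hI b t) = ch (X := X ⊗ Δ[1]) (x, b) t := by
  refine ((pr_cpt X _).lift_ch x t).trans ?_
  have := pr0_co (ch (X := Δ[n] ⊗ Δ[1]) (SSet.yonedaEquiv (𝟙 _), b) t)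
  rw [co_ch, show stdSimplex.map (SSet.yonedaEquiv.{u} (𝟙 Δ[n])) t = t from
    stdSimplex.map_id_apply t] at this
  rw [hI, Homeomorph.symm_apply_apply, this, ch_map]
  exact congrArg (fun y => ch (X := X ⊗ Δ[1]) (y, b) t) (yonedaEquiv_symm_app_id x)

theorem pr_surj (p : Rl X) (s : I) : ∃ (n : ℕ) (x : X _⦋n⦌) (b : (Δ[1] : SSet.{u}) _⦋n⦌)
    (t : Sx n), ch x t = p ∧ hI b t = s := by
  obtain ⟨n, x, t, rfl⟩ := ch_surj p
  obtain ⟨j, v, e⟩ := prj_surj.{u} t (stdSimplexHomeomorphUnitInterval.symm s)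
  rw [co_ch, Prod.mk.injEq] at e
  exact ⟨_, X.map (SimplexCategory.σ j).op x, (prj j).2, v,
    (ch_nat _ _ _).trans (congrArg (ch x) e.1), by rw [hI, e.2, Homeomorph.apply_symm_apply]⟩

theorem pr_fst (p : Rl X) (s : I) : rm (fst X Δ[1]) (pr X (p, s)) = p := by
  obtain ⟨n, x, b, t, rfl, rfl⟩ := pr_surj p s
  rw [pr_ch, ch_map]
  rfl

theorem pr_snd (p : Rl X) (s : I) : tI (rm (snd X Δ[1]) (pr X (p, s))) = s := by
  obtain ⟨n, x, b, t, rfl, rfl⟩ := pr_surj p s
  rw [pr_ch, ch_map, tI_ch]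
  rfl

theorem pr_inv (q : Rl (X ⊗ Δ[1])) : pr X (rm (fst X Δ[1]) q, tI (rm (snd X Δ[1]) q)) = q := by
  induction q using rl_ind with
  | h n z t =>
    rw [ch_map, ch_map, tI_ch, pr_ch]
    rfl

/-- The cylinder on the realisation is the realisation of the cylinder. -/
noncomputable def prH (X : SSet.{u}) : Rl X × I ≃ₜ Rl (X ⊗ Δ[1]) where
  toFun := pr X
  invFun q := (rm (fst X Δ[1]) q, tI (rm (snd X Δ[1]) q))
  left_inv p := Prod.ext (pr_fst p.1 p.2) (pr_snd p.1 p.2)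
  right_inv := pr_inv
  continuous_toFun := (pr X).continuous
  continuous_invFun := by fun_prop

theorem pr_nat (f : X ⟶ Y) (p : Rl X) (s : I) :
    rm (f ▷ Δ[1]) (pr X (p, s)) = pr Y (rm f p, s) := by
  obtain ⟨n, x, b, t, rfl, rfl⟩ := pr_surj p s
  rw [pr_ch, ch_map, ch_map, pr_ch]
  rfl

theorem pr_zero (p : Rl X) : pr X (p, 0) = rm ι₀ p := by
  obtain ⟨n, x, t, rfl⟩ := ch_surj p
  have : hI ((ι₀ (X := X)).app _ x).2 t = 0 := Subtype.ext ((hI_val _ _).trans
    (Finset.sum_eq_zero fun _ _ => if_neg (show (0 : Fin 2) ≠ 1 from zero_ne_one)))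
  rw [← this, pr_ch, ch_map]
  rfl

theorem pr_one (p : Rl X) : pr X (p, 1) = rm ι₁ p := by
  obtain ⟨n, x, t, rfl⟩ := ch_surj p
  have : hI ((ι₁ (X := X)).app _ x).2 t = 1 := Subtype.ext ((hI_val _ _).trans
    ((Finset.sum_congr rfl fun _ _ => if_pos rfl).trans (stdSimplex.sum_eq_one t)))
  rw [← this, pr_ch, ch_map]
  rfl

/-- The realisation of a simplicial homotopy. -/
noncomputable def rH (h : X ⊗ Δ[1] ⟶ Y) : (rm (ι₀ ≫ h)).Homotopy (rm (ι₁ ≫ h)) where
  toFun p := rm h (pr X (p.2, p.1))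
  continuous_toFun := by fun_prop
  map_zero_left p := by rw [pr_zero, rm_comp]
  map_one_left p := by rw [pr_one, rm_comp]

theorem rH_apply (h : X ⊗ Δ[1] ⟶ Y) (s : I) (p : Rl X) : rH h (s, p) = rm h (pr X (p, s)) := rfl

theorem rH_rel {A : SSet.{u}} (h : X ⊗ Δ[1] ⟶ Y) (i : A ⟶ X) (φ : A ⟶ Y)
    (e : i ▷ Δ[1] ≫ h = fst A Δ[1] ≫ φ) (s : I) (p : Rl A) : rH h (s, rm i p) = rm φ p := by
  rw [rH_apply, ← pr_nat, ← rm_comp, e, rm_comp, pr_fst]

theorem ch_const (x : X _⦋0⦌) (g : ⦋n⦌ ⟶ ⦋0⦌) (t : Sx n) (s : Sx 0) :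
    ch (X.map g.op x) t = ch x s := by
  rw [ch_nat]
  exact congrArg _ (Subsingleton.elim (α := stdSimplex ℝ (Fin 1)) _ _)

theorem rm_const (y : Y _⦋0⦌) (s : Sx 0) (p : Rl X) : rm (SSet.const y : X ⟶ Y) p = ch y s := by
  obtain ⟨n, x, t, rfl⟩ := ch_surj p
  rw [ch_map]
  exact ch_const y _ t s

theorem rH_base (h : X ⊗ Δ[1] ⟶ Y) (x : X _⦋0⦌) (y : Y _⦋0⦌)
    (e : (SSet.const x : Δ[0] ⟶ X) ▷ Δ[1] ≫ h = SSet.const y) (s : I) (a b : Sx 0) :
    rH h (s, ch x a) = ch y b := by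
  rw [← rm_const (X := Δ[0]) x a default, rH_apply, ← pr_nat, ← rm_comp, e, rm_const]

end Pool.Agent.Lib.MP_5d3e93_al.Br
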