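import Pool.Agent.Lib.MP_5d3e93_al.Br.Df
import Pool.Agent.Lib.MP_5d3e93_al.Br.Sa
import Pool.Agent.Lib.MP_5d3e93_al.Br.Pr

/-! Simplicial homotopies and realisations, replacement by a monomorphism, quotients. -/

open CategoryTheory Topology Set Function Filter Opposite

namespace Pool.Agent.Lib.MP_5d3e93_al.Br

universe u v

open Ps

open Simplicial MonoidalCategory CartesianMonoidalCategory SSet

section Sim
variable {X Y P Z : SSet.{u}} {x : X _⦋0⦌} {y : Y _⦋0⦌} {p : P _⦋0⦌} {a : ℕ} {n : ℤ}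

theorem rl_ho {f g : X ⟶ Y} {hf : f.app _ x = y} {hg : g.app _ x = y} (H : X ⊗ Δ[1] ⟶ Y)
    (h0 : ι₀ ≫ H = f) (h1 : ι₁ ≫ H = g) (hp : (const x : Δ[0] ⟶ X) ▷ Δ[1] ≫ H = const y) :
    Ho (rlm f hf) (rlm g hg) := by
  subst h0 h1
  exact .of (rH H).toContinuousMap (rH H).map_zero_left (rH H).map_one_left
    fun s => rH_base H x y hp s v0 v0

theorem rlm_const (h) : rlm (x := x) (const y : X ⟶ Y) h = cst (rl X x) (rl Y y) :=
  Ps.ext fun z => rm_const y v0 z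

/-- The map on the suspension given by a simplicial homotopy from the base point to itself. -/
noncomputable def evS (H : X ⊗ Δ[1] ⟶ Y) (h0 : ι₀ ≫ H = const y) (h1 : ι₁ ≫ H = const y)
    (hp : (const x : Δ[0] ⟶ X) ▷ Δ[1] ≫ H = const y) : (rl X x).S ⟶ rl Y y :=
  Ps.sm (Y := rl Y y) (fun t z => rm H (pr X (z, t)))
    ((rm H).continuous.comp ((pr X).continuous.comp continuous_swap))
    (fun z => ((rH H).map_zero_left z).trans (h0 ▸ rm_const y v0 z))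
    (fun z => ((rH H).map_one_left z).trans (h1 ▸ rm_const y v0 z))
    fun s => rH_base H x y hp s v0 v0

theorem ho_mono {i : X ⟶ Y} (h : ∀ n, Injective (i.app n)) : Mono i :=
  have : ∀ n, Mono (i.app n) := fun n => (mono_iff_injective _).2 (h n)
  NatTrans.mono_of_mono_app i

theorem ho_ee (n : SimplexCategoryᵒᵖ) : Injective ((ee X).app n) := fun a b e =>
  (Functor.map_id_apply X n a).symm.trans
    ((congrFun (congrFun e n) (𝟙 n)).trans (Functor.map_id_apply X n b))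

instance : Mono (ee X) := ho_mono ho_ee

theorem ho_cst (z : Z _⦋0⦌) {n k : SimplexCategoryᵒᵖ} (φ : n ⟶ k) :
    Z.map φ (Z.map (n.unop.const _ 0).op z) = Z.map (k.unop.const _ 0).op z :=
  (Functor.map_comp_apply Z _ φ z).symm

open Classical in
/-- The contraction of the simplicial set of all families. -/
noncomputable def hoK (x : X _⦋0⦌) : EE X ⊗ Δ[1] ⟶ EE X where
  app n := ↾fun q k φ =>
    if (Δ[1] : SSet.{u}).map φ q.2 =
      (Δ[1] : SSet.{u}).map (k.unop.const _ 0).op (stdSimplex.obj₀Equiv.symm 1) then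
      X.map (k.unop.const _ 0).op x else q.1 k φ
  naturality _ _ g := by
    ext q
    funext k φ
    exact if_congr (Eq.congr_left (Functor.map_comp_apply (Δ[1] : SSet.{u}) g φ q.2).symm) rfl rfl

theorem hoK_zero (x : X _⦋0⦌) : ι₀ ≫ hoK x = 𝟙 _ := by
  ext n q
  funext k φ
  refine if_neg fun e => ?_
  have := congrArg (fun s => (stdSimplex.objEquiv s).toOrderHom 0)
    ((ho_cst (Z := Δ[1]) (stdSimplex.obj₀Equiv.symm 0) φ).symm.trans e)
  exact zero_ne_one (α := Fin 2) this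

theorem hoK_one (x : X _⦋0⦌) : ι₁ ≫ hoK x = const ((ee X).app _ x) := by
  ext n q
  funext k φ
  exact if_pos (ho_cst (Z := Δ[1]) (stdSimplex.obj₀Equiv.symm 1) φ)

theorem hoK_pt (x : X _⦋0⦌) :
    (const ((ee X).app _ x) : Δ[0] ⟶ EE X) ▷ Δ[1] ≫ hoK x = const ((ee X).app _ x) := by
  ext n q
  funext k φ
  exact ite_self _

theorem ho_rlm {f : X ⟶ Y} {g : Y ⟶ P} {k : X ⟶ P} (hf : f.app _ x = y) (hg : g.app _ y = p)
    (hk : k.app _ x = p) (e : f ≫ g = k) : rlm f hf ≫ rlm g hg = rlm k hk :=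
  Ps.ext fun z => e ▸ (rm_comp f g z).symm

theorem ho_rlm_id : rlm (𝟙 X) (rfl : _ = x) = 𝟙 (rl X x) := Ps.ext rm_id

/-- The chain homotopy of a simplicial homotopy. -/
noncomputable def hoZ {f g : X ⟶ Y} (H : X ⊗ Δ[1] ⟶ Y) (h0 : ι₀ ≫ H = f) (h1 : ι₁ ≫ H = g) :
    _root_.Homotopy (ZC.map f) (ZC.map g) :=
  ((SSet.Homotopy.toSimplicialObjectHomotopy (f := f) (g := g)
    ⟨H, h0, h1, by ext n q; exact q.1.2.elim⟩).whiskerRight Fr).toChainHomotopy

/-- A pointed simplicial deformation retraction. -/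
theorem ho_def (r : P ⟶ Y) (s : Y ⟶ P) (hr : r.app _ p = y) (hs : s.app _ y = p)
    (e : s ≫ r = 𝟙 Y) (H : P ⊗ Δ[1] ⟶ P) (h0 : ι₀ ≫ H = 𝟙 P) (h1 : ι₁ ≫ H = r ≫ s)
    (hp : (const p : Δ[0] ⟶ P) ▷ Δ[1] ≫ H = const p) :
    QuasiIso (ZC.map r) ∧ ∀ n, Bijective (hm n (rlm r hr)) := by
  have k : (r ≫ s).app _ p = p := (congrArg (s.app _) hr).trans hs
  refine ⟨(show HomotopyEquiv (ZC.obj P) (ZC.obj Y) from
      { hom := ZC.map r
        inv := ZC.map s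
        homotopyHomInvId := ((_root_.Homotopy.ofEq (ZC.map_comp _ _).symm).trans
          (hoZ H h0 h1).symm).trans (.ofEq (ZC.map_id _))
        homotopyInvHomId := .ofEq (by rw [← ZC.map_comp, e, ZC.map_id]) }).quasiIso_hom,
    fun n => hm_bij (g := rlm s hs) ?_ ?_⟩
  · rw [ho_rlm hr hs k rfl, ← ho_rlm_id]
    exact (rl_ho H h0 h1 hp).symm
  · rw [ho_rlm hs hr rfl e, ho_rlm_id]
    exact .refl _

theorem ho_prod (Y : SSet.{u}) (y : Y _⦋0⦌) (K : P ⊗ Δ[1] ⟶ P) (h0 : ι₀ ≫ K = 𝟙 P)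
    (h1 : ι₁ ≫ K = const p) (hp : (const p : Δ[0] ⟶ P) ▷ Δ[1] ≫ K = const p)
    (q : (Y ⊗ P) _⦋0⦌) (e : q = (y, p)) (hr : (fst Y P).app _ q = y) :
    QuasiIso (ZC.map (fst Y P)) ∧ ∀ n, Bijective (hm n (rlm (fst Y P) hr)) := by
  refine ho_def (fst Y P) (CartesianMonoidalCategory.lift (𝟙 Y) (const p)) hr ?_ (lift_fst _ _)
    (CartesianMonoidalCategory.lift (fst _ _ ≫ fst _ _) (snd _ _ ▷ _ ≫ K)) ?_ ?_ ?_
  · subst e
    exact Prod.ext rfl ((congrArg (fun g => P.map (Quiver.Hom.op g) p)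
      (Subsingleton.elim _ (𝟙 ⦋0⦌))).trans (Functor.map_id_apply P _ p))
  · ext n z
    exacts [rfl, congrArg (fun k : P ⟶ P => k.app n z.2) h0]
  · ext n z
    exacts [rfl, congrArg (fun k : P ⟶ P => k.app n z.2) h1]
  · subst e
    ext n z
    exacts [rfl, congrArg (fun k : (Δ[0] ⊗ Δ[1] : SSet.{u}) ⟶ P => k.app n z) hp]

theorem ex_mono (f : X ⟶ Y) (h : f.app _ x = y) : ∃ (Y' : SSet.{u}) (y' : Y' _⦋0⦌) (i : X ⟶ Y')
    (_ : Mono i) (_ : i.app _ x = y') (r : Y' ⟶ Y) (hr : r.app _ y' = y), i ≫ r = f ∧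
      QuasiIso (ZC.map r) ∧ ∀ n, Bijective (hm n (rlm r hr)) := by
  obtain ⟨a, b⟩ := ho_prod Y y (hoK x) (hoK_zero x) (hoK_one x) (hoK_pt x) _ rfl rfl
  exact ⟨Y ⊗ EE X, (y, (ee X).app _ x), CartesianMonoidalCategory.lift f (ee X),
    ho_mono fun n a b k => ho_ee n (congrArg Prod.snd k), Prod.ext h rfl, fst _ _, rfl,
    lift_fst _ _, a, b⟩

/-- Inverse by `lift` of the family `Quot.lift (qk ∘ ch)`. -/
theorem ex_sq (i : X ⟶ P) (h : i.app _ x = p) : ∃ e : Q (rlm i h) ≅ rl (SQ i) ((sqk i).app _ p),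
    qk (rlm i h) ≫ e.hom = rlm (sqk i) rfl := by
  let F : ∀ n, SQ i _⦋n⦌ → Sx n → (Q (rlm i h)).X := fun n w t =>
    Quot.lift (fun z : P _⦋n⦌ => (qk (rlm i h)).1 (ch z t))
      (fun _ _ ⟨⟨a, e⟩, b, f⟩ => qk_eq.2 (.inr ⟨⟨ch a t, e ▸ ch_map i a t⟩, ch b t,
        f ▸ ch_map i b t⟩)) w
  have c : Cpt F := fun m n g w t => Quot.inductionOn w fun z =>
    congrArg (qk (rlm i h)).1 (ch_nat g z t)
  have d : Continuous (Br.lift F) := c.cont fun n w => Quot.inductionOn w fun z =>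
    (qk (rlm i h)).1.continuous.comp (ch z).continuous
  have k (z : Rl P) : Br.lift F (rm (sqk i) z) = (qk (rlm i h)).1 z :=
    rl_ind (P := fun z => Br.lift F (rm (sqk i) z) = (qk (rlm i h)).1 z)
      (fun n z t => (congrArg _ (ch_map _ z t)).trans (c.lift_ch _ t)) z
  have j : i ≫ sqk i = const ((sqk i).app _ p) := by
    ext n z
    exact Quot.sound ⟨⟨z, rfl⟩, X.map (n.unop.const _ 0).op x,
      h ▸ NatTrans.naturality_apply i _ x⟩
  refine ⟨⟨qm (rlm (sqk i) rfl) fun z => (rm_comp i (sqk i) z).symm.trans (j ▸ rm_const _ v0 z),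
    ⟨⟨Br.lift F, d⟩, c.lift_ch _ v0⟩, Q_ext k, Ps.ext (rl_ind fun n w t => ?_)⟩, rfl⟩
  obtain ⟨z⟩ := w
  exact (congrArg _ (c.lift_ch _ t)).trans (ch_map (sqk i) z t)

end Sim

end Pool.Agent.Lib.MP_5d3e93_al.Br
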