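import Pool.Agent.Lib.MP_5d3e93_al.Br.Sa

/-! Equality on homology, exactness in a range, retracts. -/

open CategoryTheory Opposite Simplicial AlgebraicTopology

namespace Pool.Agent.Lib.MP_5d3e93_al.Br

universe u

section
variable {K L N : Chc.{u}}

/-- Exact in degrees below `a`. -/
def Ac (a : ℕ) (K : Chc.{u}) : Prop :=
  ∀ n < a, ∀ y : K.X n, IsCy K n y → ∃ w : K.X (n + 1), y = K.d (n + 1) n w

/-- Equal on homology. -/
def Hq (φ ψ : K ⟶ L) : Prop :=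
  ∀ n (x : K.X n), IsCy K n x → ∃ w : L.X (n + 1), φ.f n x = ψ.f n x + L.d (n + 1) n w

variable {a b : ℕ} {φ φ' : K ⟶ L} {ψ : L ⟶ N}

theorem sa_comp (φ : K ⟶ L) (ψ : L ⟶ N) (n : ℕ) (x : K.X n) :
    (φ ≫ ψ).f n x = ψ.f n (φ.f n x) := rfl

theorem sa_id (n : ℕ) (x : K.X n) : (𝟙 K : K ⟶ K).f n x = x := rfl

theorem Ac.mono (h : Ac b K) (e : a ≤ b) : Ac a K := fun n k => h n (by omega)

theorem cn_id (a : ℕ) (K : Chc.{u}) : Cn a (𝟙 K) := cn_of_quasiIso a _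

theorem cn_iso (a : ℕ) (φ : K ⟶ L) [IsIso φ] : Cn a φ := cn_of_quasiIso a _

theorem Hq.rfl : Hq φ φ := fun _ _ _ => ⟨0, by simp⟩

theorem Hq.of_eq (e : φ = φ') : Hq φ φ' := e ▸ Hq.rfl

theorem Hq.symm (h : Hq φ φ') : Hq φ' φ := fun n x e =>
  (h n x e).elim fun w k => ⟨-w, by rw [k, map_neg, add_neg_cancel_right]⟩

theorem Hq.trans {φ'' : K ⟶ L} (h : Hq φ φ') (k : Hq φ' φ'') : Hq φ φ'' := fun n x e => by
  obtain ⟨w, c⟩ := h n x e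
  obtain ⟨w', c'⟩ := k n x e
  exact ⟨w' + w, by rw [c, c', map_add, add_assoc]⟩

theorem Hq.pre (h : Hq φ φ') (χ : N ⟶ K) : Hq (χ ≫ φ) (χ ≫ φ') := fun n _ e => h n _ (e.map χ)

theorem Hq.post (h : Hq φ φ') (ψ : L ⟶ N) : Hq (φ ≫ ψ) (φ' ≫ ψ) := fun n x e =>
  (h n x e).elim fun w k => ⟨ψ.f _ w, by rw [sa_comp, k, map_add, cn_comm, sa_comp]⟩

theorem Hq.add {χ χ' : K ⟶ L} (h : Hq φ φ') (k : Hq χ χ') : Hq (φ + χ) (φ' + χ') :=
  fun n x e => by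
    obtain ⟨w, c⟩ := h n x e
    obtain ⟨w', c'⟩ := k n x e
    refine ⟨w + w', ?_⟩
    change φ.f n x + χ.f n x = φ'.f n x + χ'.f n x + _
    rw [c, c', map_add]
    abel

theorem Hq.of_homotopy (h : Homotopy φ φ') : Hq φ φ' := fun n x e => by
  have := LinearMap.congr_fun (congrArg ModuleCat.Hom.hom (h.comm n)) x
  rw [prevD_eq _ (j' := n + 1) (by simp)] at this
  refine ⟨(h.hom n (n + 1)).hom x, ?_⟩
  cases n with
  | zero =>
    rw [dNext_eq_zero _ _ (by simp), zero_add] at this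
    exact this.trans (add_comm _ _)
  | succ n =>
    rw [dNext_eq _ (i' := n) (by simp)] at this
    refine this.trans ?_
    change (h.hom n (n + 1)).hom (K.d (n + 1) n x) + _ + _ = _
    rw [cy_succ.1 e, map_zero, zero_add]
    exact add_comm _ _

theorem Cn.congr (h : Cn a φ) (k : Hq φ φ') : Cn a φ' := by
  refine ⟨fun n c y e => ?_, fun n c x w e f => ?_⟩
  · obtain ⟨x, w, e1, rfl⟩ := h.1 n c y e
    obtain ⟨w', e2⟩ := k n x e1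
    exact ⟨x, w' + w, e1, by rw [e2, map_add, add_assoc]⟩
  · obtain ⟨w', e2⟩ := k n x e
    exact h.2 n c x (w + w') e (by rw [e2, f, map_add])

/-- Retracts up to homology. -/
theorem Cn.retract {K' L' : Chc.{u}} {χ : K' ⟶ L'} (h : Cn a φ) (i : K' ⟶ K) (r : K ⟶ K')
    (j : L' ⟶ L) (s : L ⟶ L') (e1 : Hq (i ≫ r) (𝟙 _)) (e2 : Hq (j ≫ s) (𝟙 _))
    (e3 : Hq (i ≫ φ) (χ ≫ j)) (e4 : Hq (φ ≫ s) (r ≫ χ)) : Cn a χ := by
  refine ⟨fun n c y e => ?_, fun n c x w e f => ?_⟩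
  · obtain ⟨x, w, a1, a2⟩ := h.1 n c _ (e.map j)
    obtain ⟨w1, a3⟩ := e2.symm n y e
    obtain ⟨w2, a4⟩ := e4 n x a1
    refine ⟨_, w2 + s.f _ w + w1, a1.map r, ?_⟩
    rw [sa_id, sa_comp, a2, map_add, ← sa_comp, a4, ← cn_comm, sa_comp] at a3
    rw [a3, map_add, map_add]
    abel
  · obtain ⟨w1, a1⟩ := e3 n x e
    obtain ⟨v, a2⟩ := h.2 n c _ (j.f _ w + w1) (e.map i) (by
      rw [← sa_comp, a1, sa_comp, f, ← cn_comm, map_add])
    obtain ⟨w2, a3⟩ := e1.symm n x e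
    exact ⟨r.f _ v + w2, by rw [map_add, cn_comm, ← a2]; exact a3⟩

/-- Maps with an inverse on homology. -/
theorem cn_of_inv (χ : L ⟶ K) (e1 : Hq (φ ≫ χ) (𝟙 _)) (e2 : Hq (χ ≫ φ) (𝟙 _)) (a : ℕ) : Cn a φ :=
  (cn_id a L).retract φ χ (𝟙 _) (𝟙 _) e1 (.of_eq (by simp)) Hq.rfl
    ((Hq.of_eq (by simp)).trans e2.symm)

theorem cn_of_ac (h : Ac a K) (k : Ac (a + 1) L) (φ : K ⟶ L) : Cn (a + 1) φ :=
  ⟨fun n c y e => (k n c y e).elim fun w f => ⟨0, w, map_zero _, by simp [f]⟩,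
    fun n c x _ e _ => h n (by omega) x e⟩

theorem Ac.of_cn (h : Ac a K) (k : Cn a φ) : Ac a L := fun n c y e => by
  obtain ⟨x, w, e1, rfl⟩ := k.1 n c y e
  obtain ⟨v, rfl⟩ := h n c x e1
  exact ⟨φ.f _ v + w, by rw [map_add, cn_comm]⟩

theorem Ac.of_cn' (h : Ac a L) (k : Cn (a + 1) φ) : Ac a K := fun n c x e =>
  (h n c _ (e.map φ)).elim fun w f => k.2 n (by omega) x w e f

theorem Ac.of_hq (h : Hq (𝟙 K) 0) (a : ℕ) : Ac a K := fun n _ y e =>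
  (h n y e).elim fun w f => ⟨w, f.trans (zero_add _)⟩

theorem Ac.hq (h : ∀ a, Ac a L) (φ φ' : K ⟶ L) : Hq φ φ' := fun n x e => by
  obtain ⟨w, c⟩ := h (n + 1) n (by omega) _ (e.map φ)
  obtain ⟨w', c'⟩ := h (n + 1) n (by omega) _ (e.map φ')
  exact ⟨w - w', by rw [c, c', map_sub, add_sub_cancel]⟩

/-- A map that is injective on homology cancels. -/
theorem Hq.cancel (h : Hq (φ ≫ ψ) (φ' ≫ ψ)) (k : ∀ a, Cn a ψ) : Hq φ φ' := fun n x e => by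
  obtain ⟨w, c⟩ := h n x e
  obtain ⟨v, c'⟩ := (k (n + 2)).2 n (by omega) (φ.f n x - φ'.f n x) w (by
    have h1 := e.map φ
    have h2 := e.map φ'
    unfold IsCy at h1 h2 ⊢
    rw [map_sub, h1, h2, sub_zero]) (by rw [map_sub, ← sa_comp, c, sa_comp, add_sub_cancel_left])
  exact ⟨v, by rw [← c', add_sub_cancel]⟩

end

end Pool.Agent.Lib.MP_5d3e93_al.Br
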