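import Pool.Agent.Lib.MP_5d3e93_al.Br.Pre

/-! Stable homotopy of pointed spaces as a homology theory. -/

open CategoryTheory Topology Set unitInterval Function Filter

namespace Pool.Agent.Lib.MP_5d3e93_al.Br

universe u v

open Ps

variable {A A' X X' Y Z : Ps.{u}} {n : ℤ}

/-- Iterated suspension. -/
def Sl : ℕ → Ps.{u} ⥤ Ps.{u}
  | 0 => 𝟭 _
  | l + 1 => Sl l ⋙ SF

theorem gd_Sl : ∀ l, Gd.{u} (Sl l)
  | 0 => gd_id
  | l + 1 => (gd_Sl l).S

/-- The suspension prespectrum. -/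
def inf (X : Ps.{u}) : Pre.{u} := ⟨fun m => (Sl m).obj X, fun _ => 𝟙 _⟩

/-- Maps of suspension prespectra. -/
def infm (f : X ⟶ Y) : inf X ⟶ inf Y :=
  ⟨fun m => (Sl m).map f, fun _ => (Category.comp_id _).trans (Category.id_comp _).symm⟩

/-- Stable homotopy groups. -/
abbrev Sh (n : ℤ) (X : Ps.{u}) : Type u := (inf X).π n

/-- Induced maps. -/
noncomputable def hm (n : ℤ) (f : X ⟶ Y) : Sh n X →+ Sh n Y := Pre.map n (infm f)

theorem hm_comp (f : X ⟶ Y) (g : Y ⟶ Z) (x : Sh n X) : hm n (f ≫ g) x = hm n g (hm n f x) := by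
  rw [hm, hm, hm, ← Pre.map_comp]
  exact congrArg (Pre.map n · x) (Subtype.ext (funext fun m => (Sl m).map_comp f g))

theorem hm_id (x : Sh n X) : hm n (𝟙 X) x = x :=
  (congrArg (Pre.map n · x) (Subtype.ext (funext fun m => (Sl m).map_id X))).trans (Pre.map_id x)

theorem Ps.Ho.hm {f g : X ⟶ Y} (k : Ho f g) (x : Sh n X) : hm n f x = hm n g x :=
  Pre.map_ho (fun m => (gd_Sl m).1 k) x

theorem Sl_cst : ∀ l, (Sl l).map (cst X Y) = cst _ _
  | 0 => rfl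
  | l + 1 => (congrArg sp (Sl_cst l)).trans (S_ext fun t _ => sk_pt t)

theorem hm_cst (x : Sh n X) : hm n (cst X Y) x = 0 :=
  Pre.map_null (fun m => (Sl_cst m).symm ▸ Ho.refl _) x

theorem hm_bij {f : X ⟶ Y} {g : Y ⟶ X} (a : Ho (f ≫ g) (𝟙 _)) (b : Ho (g ≫ f) (𝟙 _)) :
    Bijective (hm n f) :=
  bijective_iff_has_inverse.2 ⟨hm n g, fun x => by rw [← hm_comp, a.hm, hm_id],
    fun x => by rw [← hm_comp, b.hm, hm_id]⟩

theorem h_exact {a : A ⟶ X} {b : X ⟶ Y} (e : ∀ l, Ex ((Sl l).map a) ((Sl l).map b))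
    (k : Ho (a ≫ b) (cst _ _)) : Function.Exact (hm n a) (hm n b) :=
  fun _ => ⟨Pre.ex e, fun ⟨y, e⟩ => by rw [← e, ← hm_comp, k.hm, hm_cst]⟩

/-- The inner suspension coordinate is moved outside. -/
def kap (X : Ps.{u}) : ∀ m, (Sl m).obj X.S ≅ ((Sl m).obj X).S
  | 0 => .refl _
  | m + 1 => SF.mapIso (kap X m) ≪≫ ⟨sw _, sw _, sw_sw, sw_sw⟩

theorem kap_nat (f : X ⟶ Y) :
    ∀ m, (Sl m).map (sp f) ≫ (kap Y m).hom = (kap X m).hom ≫ sp ((Sl m).map f)
  | 0 => (Category.comp_id _).trans (Category.id_comp _).symm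
  | m + 1 => by
    show sp ((Sl m).map (sp f)) ≫ sp (kap Y m).hom ≫ sw _ =
      (sp (kap X m).hom ≫ sw _) ≫ sp (sp ((Sl m).map f))
    rw [← Category.assoc, ← sp_comp, kap_nat f m, sp_comp, Category.assoc, Category.assoc, sw_nat]

/-- The exchange as a map of prespectra. -/
def kapm (X : Ps.{u}) : inf X.S ⟶ (inf X).S := ⟨fun m => (kap X m).hom, fun m => by
  show sp (kap X m).hom ≫ sw _ ≫ sp (𝟙 _) = 𝟙 _ ≫ sp (kap X m).hom ≫ sw _
  rw [sp_id, Category.comp_id, Category.id_comp]⟩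

theorem kapm_bij : Bijective (Pre.map n (kapm X)) :=
  Pre.map_bij (.of_forall fun m _ _ => bijective_iff_has_inverse.2 ⟨pm (kap X m).inv,
    fun x => (pm_comp _ _ x).symm.trans ((congrArg (pm · x) (kap X m).hom_inv_id).trans (pm_id x)),
    fun x => (pm_comp _ _ x).symm.trans
      ((congrArg (pm · x) (kap X m).inv_hom_id).trans (pm_id x))⟩)

/-- The desuspension isomorphism. -/
noncomputable def ds (X : Ps.{u}) (n : ℤ) : Sh (n + 1) X.S ≃+ Sh n X :=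
  (AddEquiv.ofBijective _ kapm_bij).trans (AddEquiv.ofBijective _ Pre.s_bij).symm

theorem ds_nat (f : X ⟶ Y) (x : Sh (n + 1) X.S) :
    ds Y n (hm (n + 1) (sp f) x) = hm n f (ds X n x) := by
  have e : ∀ (X : Ps.{u}) x, (inf X).s n (ds X n x) = Pre.map _ (kapm X) x := fun X x =>
    (AddEquiv.ofBijective _ Pre.s_bij).apply_symm_apply _
  refine Pre.s_bij.1 ?_
  rw [e, hm, hm, Pre.s_nat, e, ← Pre.map_comp, ← Pre.map_comp]
  exact congrArg (Pre.map _ · x) (Subtype.ext (funext (kap_nat f)))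

/-- The boundary map of a cone. -/
noncomputable def bd (i : A ⟶ X) (n : ℤ) : Sh (n + 1) (C i) →+ Sh n A :=
  (ds A n).toAddMonoidHom.comp (hm _ (cc i))

theorem h_ex₁ (i : A ⟶ X) : Function.Exact (hm n i) (hm n (ci i)) :=
  h_exact (fun l => (gd_Sl l).ex₁ i) (ho_ci i)

theorem h_ex₂ (i : A ⟶ X) : Function.Exact (hm (n + 1) (ci i)) (bd i n) := fun x =>
  (map_eq_zero_iff _ (ds A n).injective).trans
    (h_exact (fun l => (gd_Sl l).ex₂ i) (.refl _) x)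

theorem h_ex₃ (i : A ⟶ X) : Function.Exact (bd i n) (hm n i) := fun x => by
  obtain ⟨x, rfl⟩ := (ds A n).surjective x
  rw [← ds_nat, map_eq_zero_iff _ (ds X n).injective,
    h_exact (fun l => (gd_Sl l).ex₃ i) (ho_cc i) x]
  exact exists_congr fun y => (ds A n).injective.eq_iff.symm

/-- The quotient by the image. -/
def Q (i : A ⟶ X) : Ps.{u} := ⟨Quot fun a b => a ∈ range i.1 ∧ b ∈ range i.1, Quot.mk _ X.pt⟩

/-- The projection to the quotient. -/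
def qk (i : A ⟶ X) : X ⟶ Q i := ⟨⟨Quot.mk _, continuous_quot_mk⟩, rfl⟩

variable {i : A ⟶ X} {i' : A' ⟶ X'}

@[simp] theorem qk_i (a) : (qk i).1 (i.1 a) = (Q i).pt := Quot.sound ⟨⟨a, rfl⟩, _, i.2⟩

@[elab_as_elim]
theorem qk_ind {p : (Q i).X → Prop} (y : (Q i).X) (h : ∀ x, p ((qk i).1 x)) : p y :=
  Quot.inductionOn y h

theorem qk_eq {x y} : (qk i).1 x = (qk i).1 y ↔ x = y ∨ x ∈ range i.1 ∧ y ∈ range i.1 := by
  refine ⟨fun e => ?_, fun e => e.elim (congrArg _) fun e => Quot.sound e⟩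
  induction Quot.eqvGen_exact e with
  | rel _ _ h => exact .inr h
  | refl => exact .inl rfl
  | symm _ _ a ih => exact (ih (Quot.eqvGen_sound a)).imp .symm .symm
  | trans _ _ _ a b c d =>
    obtain rfl | c := c (Quot.eqvGen_sound a)
    · exact d (Quot.eqvGen_sound b)
    · exact .inr ((d (Quot.eqvGen_sound b)).elim (· ▸ c) fun d => ⟨c.1, d.2⟩)

/-- Maps out of a quotient, with parameters. -/
def qd {K : Type v} [TopologicalSpace K] [LocallyCompactSpace K] (F : C(K × X.X, Y.X))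
    (h : ∀ k a, F (k, i.1 a) = Y.pt) : C(K × (Q i).X, Y.X) :=
  lft F fun k _ _ ⟨⟨a, e⟩, b, f⟩ => e ▸ f ▸ (h k a).trans (h k b).symm

@[simp]
theorem qd_qk {K : Type v} [TopologicalSpace K] [LocallyCompactSpace K] {F : C(K × X.X, Y.X)}
    {h} (k x) : qd (i := i) F h (k, (qk i).1 x) = F (k, x) := rfl

/-- Maps out of a quotient. -/
def qm (F : X ⟶ Y) (h : ∀ a, F.1 (i.1 a) = Y.pt) : Q i ⟶ Y :=
  ⟨⟨Quot.lift F.1 fun _ _ ⟨⟨a, e⟩, b, f⟩ => e ▸ f ▸ (h a).trans (h b).symm,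
    continuous_quot_lift _ F.1.continuous⟩, F.2⟩

@[simp] theorem qm_qk {F : X ⟶ Y} {h} (x) : (qm (i := i) F h).1 ((qk i).1 x) = F.1 x := rfl

theorem Q_ext {f g : Q i ⟶ Y} (h : ∀ x, f.1 ((qk i).1 x) = g.1 ((qk i).1 x)) : f = g :=
  Ps.ext fun y => qk_ind y h

variable (i) in
/-- From the cone to the quotient. -/
def cq : C i ⟶ Q i := cm (qk i) (fun _ _ => (Q i).pt) continuous_const (fun a => (qk_i a).symm)
  (fun _ => rfl) fun _ => rfl

variable (i) in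
/-- Neighbourhood deformation retracts. -/
def Ndr : Prop := ∃ (u : C(X.X, ℝ)) (D : C(I × X.X, X.X)) (r : X.X → A.X),
  ContinuousOn r {x | 0 ≤ u x} ∧ (∀ x, D (0, x) = x) ∧ (∀ s a, D (s, i.1 a) = i.1 a) ∧
    (∀ a, 1 ≤ u (i.1 a)) ∧ (∀ a, r (i.1 a) = a) ∧ ∀ x, 0 ≤ u x → i.1 (r x) = D (1, x)

theorem Ndr.bij (H : Ndr i) : Bijective (hm n (cq i)) := by
  obtain ⟨u, D, r, hr, D₀, Di, ui, ri, ir⟩ := H
  have Dp : ∀ s, D (s, X.pt) = X.pt := fun s => i.2 ▸ Di s _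
  let F : I × X.X → (C i).X := fun p =>
    if 0 ≤ u p.2 then cn i (pj (p.1 * u p.2)) (r p.2) else (ci i).1 (D (1, p.2))
  have Fc : Continuous F := by
    refine continuous_if_le continuous_const (by fun_prop) ?_ (by fun_prop) fun p e => ?_
    · exact (cn_cont continuous_fst continuous_snd).comp_continuousOn
        (ContinuousOn.prodMk (by fun_prop) (hr.comp continuousOn_snd fun _ h => h))
    · rw [← e, mul_zero, pj_le le_rfl, cn_zero, ir _ e.le]
  have Fi : ∀ s a, F (s, i.1 a) = cn i (pj (s * u (i.1 a))) a := fun s a => by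
    simp only [F, if_pos (zero_le_one.trans (ui a)), ri]
  have F₀ : ∀ x, F (0, x) = (ci i).1 (D (1, x)) := fun x => by
    simp only [F]; split_ifs with e
    · simp [pj_le, ir _ e]
    · rfl
  have Fp : ∀ s, F (s, X.pt) = (C i).pt := fun s => by rw [← i.2, Fi, cn_pt]
  let ρ : Q i ⟶ C i := qm ⟨⟨fun x => F (1, x), by fun_prop⟩, Fp 1⟩ fun a =>
    (Fi 1 a).trans (by rw [pj_ge (by simpa using ui a), cn_one])
  let δ : C i ⟶ C i := cm ⟨⟨fun x => F (0, x), by fun_prop⟩, Fp 0⟩ (cn i) (by fun_prop)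
    (fun a => (cn_zero a).trans (by simp [F₀, Di])) cn_one cn_pt
  refine hm_bij (g := ρ) (Ho.trans (g := δ) (.symm (.of (cd (Y := C i) (fun s x => F (s, x))
    (fun s t a => cn i (pj (t + s * u (i.1 a))) a) Fc (by fun_prop) Fp (by simp [Fi])
    (fun s a => by
      rw [pj_ge (by simpa using mul_nonneg s.2.1 (zero_le_one.trans (ui a))), cn_one]) (by simp))
    (fun y => cn_ind y (fun _ => rfl) (by simp [δ])) (fun y => cn_ind y (fun _ => rfl) fun t a => ?_)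
    Fp)) (.symm (.of (cd (Y := C i) (fun s x => (ci i).1 (D (s, x))) (fun _ => cn i)
      ((ci i).1.continuous.comp D.continuous) (by fun_prop) (by simp [Dp]) (by simp [Di]) (by simp) (by simp))
      (fun y => cn_ind y (by simp [D₀]) fun _ _ => rfl)
      (fun y => cn_ind y (fun x => (F₀ x).symm) fun _ _ => rfl) fun s => congrArg (ci i).1 (Dp s))))
    (.symm (.of (qd (Y := Q i) ⟨fun p => (qk i).1 (D p), by fun_prop⟩ (by simp [Di]))
      (fun y => qk_ind y (by simp [D₀])) (fun y => qk_ind y fun x => ?_)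
      fun s => congrArg (qk i).1 (Dp s)))
  · rw [cd_cn, pj_ge (by simpa using le_add_of_nonneg_of_le t.2.1 (ui a)), cn_one]
    exact ρ.2.symm
  · show (qk i).1 (D (1, x)) = (cq i).1 (F (1, x))
    simp only [F]; split_ifs with e
    · rw [← ir _ e, qk_i]; rfl
    · rfl

/-- The boundary map of a quotient. -/
noncomputable def Ndr.bd (H : Ndr i) (n : ℤ) : Sh (n + 1) (Q i) →+ Sh n A :=
  (Br.bd i n).comp (AddEquiv.ofBijective _ H.bij).symm.toAddMonoidHom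

theorem Ndr.bd_cq (H : Ndr i) (x) : H.bd n (hm _ (cq i) x) = Br.bd i n x :=
  congrArg (Br.bd i n) ((AddEquiv.ofBijective _ H.bij).symm_apply_apply x)

theorem Ndr.ex₁ (H : Ndr i) : Function.Exact (hm n i) (hm n (qk i)) := fun x => by
  rw [← h_ex₁ i x, show qk i = ci i ≫ cq i from rfl, hm_comp, map_eq_zero_iff _ H.bij.1]

theorem Ndr.ex₂ (H : Ndr i) : Function.Exact (hm (n + 1) (qk i)) (H.bd n) := fun x => by
  obtain ⟨x, rfl⟩ := H.bij.2 x
  rw [H.bd_cq, h_ex₂ i x]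
  exact exists_congr fun y => by
    rw [show qk i = ci i ≫ cq i from rfl, hm_comp, H.bij.1.eq_iff]

theorem Ndr.ex₃ (H : Ndr i) : Function.Exact (H.bd n) (hm n i) := fun x =>
  (h_ex₃ i x).trans ⟨fun ⟨y, e⟩ => ⟨_, (H.bd_cq y).trans e⟩, fun ⟨y, e⟩ => by
    obtain ⟨y, rfl⟩ := H.bij.2 y
    exact ⟨y, (H.bd_cq y).symm.trans e⟩⟩

theorem Ndr.nat (H : Ndr i) (H' : Ndr i') {a : A ⟶ A'} {b : X ⟶ X'} {c : Q i ⟶ Q i'}
    (e₁ : i ≫ b = a ≫ i') (e₂ : qk i ≫ c = b ≫ qk i') (x : Sh (n + 1) (Q i)) :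
    H'.bd n (hm _ c x) = hm n a (H.bd n x) := by
  obtain ⟨x, rfl⟩ := H.bij.2 x
  let k : C i ⟶ C i' := cm (b ≫ ci i') (fun t y => cn i' t (a.1 y)) (by fun_prop)
    (fun y => (cn_zero _).trans (congrArg (fun f => (ci i').1 (f.1 y)) e₁.symm)) (by simp)
    (by simp [a.2])
  rw [← hm_comp, show cq i ≫ c = k ≫ cq i' from
    C_ext (fun y => congrArg (fun f => f.1 y) e₂) fun _ _ => c.2, hm_comp, H'.bd_cq, H.bd_cq]
  show ds A' n (hm _ (cc i') _) = hm n a (ds A n _)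
  rw [← ds_nat, ← hm_comp, ← hm_comp]
  exact congrArg (fun f => ds A' n (hm _ f x)) (C_ext (fun _ => (sp a).2.symm) fun _ _ => rfl)

end Pool.Agent.Lib.MP_5d3e93_al.Br
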