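import Pool.Agent.Lib.MP_5d3e93_al.Br.In

/-! The chase along the control filtration when the layers are only trivial in the limit. -/

open CategoryTheory Limits Function

namespace Pool.Agent.Lib.MP_5d3e93_al.Br

open Gr Am A2 Ct

universe w v u u'

variable {G : Type v} [Group G] (S : Type v) [MulAction G S]

section
variable {C : Type u} [Category.{v} C] [Preadditive C] {D : Type u'} [Category.{v} D]
  [Preadditive D] {ρ : Act G C} {τ : Act G D} (F : C ⥤ D) [hF : F.Additive] (n : ℕ)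

theorem q_ext {E : Type*} [Category* E] {F H : Cq S C n ⥤ E} (h : pq S C n ⋙ F = pq S C n ⋙ H) :
    F = H := CategoryTheory.Quotient.lift_unique' _ _ _ h

/-- Change of coefficients on the quotient. -/
noncomputable abbrev cqc : Cq S C n ⥤ Cq S D n := indq F hF id bijective_id n

/-- Change of coefficients on the graded part. -/
noncomputable abbrev cgc : Cg S C n ⥤ Cg S D n := indg F hF id bijective_id n

theorem cq_eqv (e : ∀ g, ρ.F g ⋙ F = F ⋙ τ.F g) (g : G) :
    (actq S ρ n).F g ⋙ cqc S F n = cqc S F n ⋙ (actq S τ n).F g :=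
  q_ext S n (congrArg (· ⋙ pq S D n) (cf_eqv F e g))

theorem cg_eqv (e : ∀ g, ρ.F g ⋙ F = F ⋙ τ.F g) (g : G) :
    (actg S ρ n).F g ⋙ cgc S F n = cgc S F n ⋙ (actg S τ n).F g :=
  g_ext (congrArg (ig S C n ⋙ ·) (cq_eqv S F n e g))

instance [F.Faithful] : (cgc S F n).Faithful := ⟨fun {X Y f g} h => (ig S C n).map_injective (by
  obtain ⟨φ, a⟩ := (pq S C n).map_surjective (X := X.obj.as) (Y := Y.obj.as) f.hom
  obtain ⟨ψ, b⟩ := (pq S C n).map_surjective (X := X.obj.as) (Y := Y.obj.as) g.hom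
  have c : (pq S D n).map ((cf S F).map φ) = (pq S D n).map ((cf S F).map ψ) :=
    (congrArg (cqc S F n).map a).trans ((congrArg (·.hom) h).trans (congrArg (cqc S F n).map b).symm)
  rw [pq_eq, ← (cf S F).map_sub] at c
  exact a.symm.trans ((pq_eq.2 (c.imp fun r k i j l => k i j fun o =>
    l (F.map_injective (o.trans (F.map_zero _ _).symm)))).trans b))⟩

instance [F.Full] [F.Faithful] : (cgc S F n).Full := ⟨fun {X Y} f => by
  obtain ⟨φ, a⟩ := (pq S D n).map_surjective (X := (cf S F).obj X.obj.as)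
    (Y := (cf S F).obj Y.obj.as) f.hom
  let ψ : X.obj.as ⟶ Y.obj.as := ⟨fun i j => F.preimage (φ.e i j), φ.ctl.imp fun _ k i j l =>
    k i j fun o => l (F.map_injective ((F.map_preimage _).trans (o.trans (F.map_zero _ _).symm)))⟩
  exact ⟨ObjectProperty.homMk ((pq S C n).map ψ), (ig S D n).map_injective
    ((congrArg (pq S D n).map (hom_ext fun _ _ => F.map_preimage _)).trans a)⟩⟩

/-- The swindle of the coefficients acts on the graded part. -/
theorem swd_cg (h : Swd ρ fun _ => True) : Swd (actg S ρ n) fun _ => True := by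
  obtain ⟨Φ, b, i, r, i', r', c, d, e⟩ := h
  let m {X Y : Cg S C n} (f : X.obj.as ⟶ Y.obj.as) : X ⟶ Y := ObjectProperty.homMk ((pq S C n).map f)
  have m1 {X Y Z : Cg S C n} (f : X.obj.as ⟶ Y.obj.as) (g : Y.obj.as ⟶ Z.obj.as) :
      m f ≫ m g = m (f ≫ g) := (ig S C n).map_injective ((pq S C n).map_comp f g).symm
  have m2 {X Y X' Y' : Cg S C n} (a : X = X') (b : Y = Y') (f : X.obj.as ⟶ Y.obj.as)
      (g : X'.obj.as ⟶ Y'.obj.as) (k : HEq f g) : HEq (m f) (m g) := by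
    subst a b
    rw [eq_of_heq k]
  have o g := cg_eqv S Φ n (fun g => (e g trivial).1) g
  refine ⟨cgc S Φ n, inferInstance,
    fun X => m (evS_dm X.obj.as (B := X.obj.as.B) fun j => i (X.obj.as.B j)),
    fun X => m (evS_dm X.obj.as (B' := X.obj.as.B) fun j => r (X.obj.as.B j)),
    fun X => m (evS_dm X.obj.as fun j => i' (X.obj.as.B j)),
    fun X => m (evS_dm X.obj.as fun j => r' (X.obj.as.B j)), fun X => ?_, fun X Y f => ?_,
    fun g _ => ⟨o g, fun X => ⟨?_, ?_⟩⟩⟩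
  · rw [m1, m1]
    refine (ig S C n).map_injective ((pq S C n).map_add.symm.trans
      ((congrArg (pq S C n).map (Ct.hom_ext fun j l => ?_)).trans ((pq S C n).map_id _)))
    refine (congrArg₂ (· + ·) (evS_comp (X := X.obj.as) _ _ j l)
      (evS_comp (X := X.obj.as) _ _ j l)).trans ?_
    by_cases k : j = l
    · subst k
      rw [evS_eq, evS_eq]
      exact (c _).trans (Ct.id_e (X := evS_re X.obj.as fun j => Φ.obj (X.obj.as.B j)) j).symm
    · rw [evS_ne (X := X.obj.as) _ k, evS_ne (X := X.obj.as) _ k]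
      exact ((congrArg₂ (· + ·) comp_zero comp_zero).trans (add_zero _)).trans
        (Ct.id_ne (X := evS_re X.obj.as fun j => Φ.obj (X.obj.as.B j)) k).symm
  · obtain ⟨φ, a⟩ := (pq S C n).map_surjective (X := X.obj.as) (Y := Y.obj.as) f.hom
    obtain rfl : m φ = f := (ig S C n).map_injective a
    have z {X Y : Cg S C n} : m (0 : X.obj.as ⟶ Y.obj.as) = 0 :=
      (ig S C n).map_injective ((pq S C n).map_zero _ _)
    rw [show (cgc S Φ n).map (m φ) = @m ((cgc S Φ n).obj X) ((cgc S Φ n).obj Y) ((cf S Φ).map φ)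
      from rfl]
    simp only [m1, ← z]
    refine ⟨congrArg m (Ct.hom_ext fun j l => ?_), congrArg m (Ct.hom_ext fun j l => ?_),
      congrArg m (Ct.hom_ext fun j l => ?_), congrArg m (Ct.hom_ext fun j l => ?_)⟩ <;>
      refine (evS_three (X := X.obj.as) (Y := Y.obj.as) _ _ _ j l).trans ?_
    exacts [(d _ _ (φ.e j l)).1, (d _ _ (φ.e j l)).2.1, (d _ _ (φ.e j l)).2.2.1,
      (d _ _ (φ.e j l)).2.2.2]
  · have := ρ.additive g
    exact m2 (Functor.congr_obj (o g) X).symm rfl _ _ (evS_heq (X := ((Ct.act S ρ).F g).obj X.obj.as)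
      (funext fun j => (Functor.congr_obj (e g trivial).1 (X.obj.as.B j)).symm) rfl _ _
      (fun j => (heq_of_eq (congrArg (ρ.F g).map (evS_eq (X := X.obj.as) _ j))).trans
        ((e g trivial).2 _).1)
      fun j l k => (congrArg (ρ.F g).map (evS_ne (X := X.obj.as) _ k)).trans ((ρ.F g).map_zero _ _))
  · have := ρ.additive g
    exact m2 (Functor.congr_obj (o g) X).symm (Functor.congr_obj (o g) X).symm _ _
      (evS_heq (X := ((Ct.act S ρ).F g).obj X.obj.as)
      (funext fun j => (Functor.congr_obj (e g trivial).1 (X.obj.as.B j)).symm)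
      (funext fun j => (Functor.congr_obj (e g trivial).1 (X.obj.as.B j)).symm) _ _
      (fun j => (heq_of_eq (congrArg (ρ.F g).map (evS_eq (X := X.obj.as) _ j))).trans
        ((e g trivial).2 _).2)
      fun j l k => (congrArg (ρ.F g).map (evS_ne (X := X.obj.as) _ k)).trans ((ρ.F g).map_zero _ _))

theorem cg_zero (h : ∀ A, IsZero (F.obj A)) (X : Cg S C n) : IsZero ((cgc S F n).obj X) :=
  (IsZero.iff_id_eq_zero _).2 ((ig S D n).map_injective
    (((pq S D n).map_isZero (cf_zero F h X.obj.as)).eq_of_src _ _))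

end

theorem Gc.ext' {A B : Gc.{v, u} G} {f g : A ⟶ B} (h : f.F = g.F) : f = g := by
  obtain ⟨f, _⟩ := f
  obtain ⟨g, _⟩ := g
  obtain rfl : f = g := h
  rfl

/-- The quotients of the control category. -/
noncomputable def cqF (r : ℕ) : Gc.{v, u} G ⥤ Gc.{v, u} G where
  obj A := ⟨Cq S A.C r, actq S A.ρ r⟩
  map f := ⟨cqc S f.F r, cq_eqv S f.F r f.e⟩
  map_id _ := Gc.ext' (q_ext S r rfl)
  map_comp _ _ := Gc.ext' (q_ext S r rfl)

/-- The graded parts of the control category. -/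
noncomputable def cgF (r : ℕ) : Gc.{v, u} G ⥤ Gc.{v, u} G where
  obj A := ⟨Cg S A.C r, actg S A.ρ r⟩
  map f := ⟨cgc S f.F r, cg_eqv S f.F r f.e⟩
  map_id A := Gc.ext' (g_ext (congrArg (ig S A.C r ⋙ ·)
    (congrArg Gc.Hom.F ((cqF S r).map_id A) : cqc S (𝟭 A.C) r = 𝟭 _)))
  map_comp {A _ _} f g := Gc.ext' (g_ext (congrArg (ig S A.C r ⋙ ·)
    (congrArg Gc.Hom.F ((cqF S r).map_comp f g) : cqc S (f.F ⋙ g.F) r = cqc S f.F r ⋙ cqc S g.F r)))

/-- The thick closure of one step of the filtration in the next. -/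
noncomputable def inN (r : ℕ) : Gc.{v, u} G ⥤ Mk.{v, u} G where
  obj A := ((ctF S).obj A).n (Lv r) (Lv (r + 1))
  map f := ⟨(ctF S).map f, fun _ _ c =>
    ⟨Ef.maps _ (fun _ a => a) _ c.1, Ef.maps_th _ (fun _ a => a) _ c.2⟩⟩
  map_id _ := rfl
  map_comp _ _ := rfl

/-- The layer. -/
noncomputable def inQ (r : ℕ) : Gc.{v, u} G ⥤ Mk.{v, u} G where
  obj A := ((cqF S r).obj A).g (Lq r)
  map f := Gc.gm ((cqF S r).map f) fun _ a => a
  map_id A := Subtype.ext ((cqF S r).map_id A)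
  map_comp f g := Subtype.ext ((cqF S r).map_comp f g)

/-- Into the thick closure. -/
noncomputable def inA (r : ℕ) : inL.{v, u} (G := G) S r ⟶ inN S r where
  app A := ⟨𝟙 _, fun U X c => ((inN S r).obj A).nat (𝟙 U) X ⟨lv_mono _ _ _ c, Th.le _ c⟩⟩
  naturality _ _ _ := rfl

/-- Out of the thick closure. -/
noncomputable def inB (r : ℕ) : inN.{v, u} (G := G) S r ⟶ inL S (r + 1) where
  app A := ⟨𝟙 _, fun U X c => ((inL S (r + 1)).obj A).nat (𝟙 U) X c.1⟩
  naturality _ _ _ := rfl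

/-- The projection to the layer. -/
noncomputable def inP (r : ℕ) : inL.{v, u} (G := G) S (r + 1) ⟶ inQ S r where
  app A := Gc.gm (@Gc.Hom.mk _ _ ((ctF S).obj A) ((cqF S r).obj A) (pq S A.C r)
    (inferInstanceAs (pq S A.C r).Additive) (pq_act A.ρ)) fun _ a => a
  naturality _ _ _ := rfl

/-- The graded part in the layer. -/
noncomputable def inJ (r : ℕ) : cgF.{v, u} (G := G) S r ⋙ gt ⟶ inQ S r where
  app A := Gc.gm (@Gc.Hom.mk _ _ ((cgF S r).obj A) ((cqF S r).obj A) (ig S A.C r)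
    (inferInstanceAs (ig S A.C r).Additive) fun _ => rfl) fun X _ => X.2.1
  naturality _ _ _ := rfl

variable {S}

theorem in_lc (r : ℕ) (A : Gc.{v, u} G) (U : Gs G) :
    Lc3 ((EG.map ((inB S r).app A)).app U) ((EG.map ((inP S r).app A)).app U) :=
  .mk (N := eg (act S A.ρ) U.T (Lv (r + 1)) ⊓ Th (eg (act S A.ρ) U.T (Lv r)))
    (S := eg (act S A.ρ) U.T (Lv (r + 1))) _ _ (Gc.m_id ((ctF S).obj A) U) (ct_b A.ρ U.T)

variable {H : (Gs G ⥤ Tp.{v, max 1 u v}) ⥤ Pre.{w}} {T : Ft (Gc.{v, u} G)}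

theorem in_j (h : KT H) (r : ℕ) (A : Gc.{v, u} G) (n : ℤ) :
    Bijective (Pre.map n (H.map (EG.map ((inJ S r).app A)))) :=
  h.deq _ (fun U => by
    have := ct_c (S := S) (n := r) A.ρ U.T
    rwa [← eg_top] at this) n

variable (S) in
theorem ok_n (h : KT H) (t : Gc.Ok T) (r : ℕ) : (T.map (inN S r ⋙ EG ⋙ H)).Ok :=
  ⟨fun k => h.nl' _ _ (fun _ _ c => eg_bdd _ c.1) (cf_zero (T.i k ≫ T.q k).F (t.1 k)),
    fun k => h.z _ fun U => by
      have := eg_sw (swp_ct (t.2 k) S r) U.T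
      change Z (eg (act S (T.P k).ρ) U.T (Lv (r + 1)) ⊓ Th (eg (act S (T.P k).ρ) U.T (Lv r)))
      rw [le_antisymm (inf_le_right.trans this.2) (le_inf (lv_mono _ _) Th.le)]
      exact this.1⟩

variable (S) in
theorem ok_q (h : KT H) (t : Gc.Ok T) (r : ℕ) : (T.map (inQ S r ⋙ EG ⋙ H)).Ok :=
  ⟨fun k => h.nl' _ _ (fun _ => eg_bdd) fun X => by
      rw [← Functor.map_comp]
      exact (pq S _ r).map_isZero (cf_zero (T.i k ≫ T.q k).F (t.1 k) X.as),
    fun k n x => by
      have c := in_lc (S := S) r (T.P k)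
      obtain ⟨y, rfl⟩ := (h.loc _ _ c (h.nl _ _ fun U => (c U).kill) n).2 x
      exact (congrArg _ ((((ok_n S h t r).2 k).C ((ok_lv S h t (r + 1)).2 k)) n y)).trans
        (map_zero _)⟩

theorem inj_comp {T U V : To.{w}} {F : Tm T U} {E : Tm U V} (a : F.Inj) (b : E.Inj) :
    (F.comp E).Inj := fun k n x c => a k n x (b k n _ (Pre.map_comp (F.a k) (E.a k) x ▸ c))

theorem in_nl (h : KT H) (r : ℕ) (A : Gc.{v, u} G) :
    Pre.Nl ((Functor.whiskerRight (inB S r) (EG ⋙ H)).app A)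
      ((Functor.whiskerRight (inP S r) (EG ⋙ H)).app A) := h.nl _ _ fun U => (in_lc r A U).kill

theorem z_row {D : Type*} [Category* D] {T : Ft D} {F F' F'' : D ⥤ Pre.{w}} (b : F ⟶ F')
    (p : F' ⟶ F'') (c : ∀ A, Pre.Nl (b.app A) (p.app A))
    (d : ∀ A n, Injective (Pre.map n (c A).col)) {o o' o''} (z : ((T.map F'').tw o'').Z) :
    ((T.nat b).tm o o').C.Z :=
  have e {A B : D} (f : A ⟶ B) := (c A).cf_col (c B) (b.naturality f).symm (p.naturality f).symm
  (Tm.inj_of' (T := ((T.nat b).tm o o').C) (U := (T.map F'').tw o'')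
    (F := ⟨fun _ => (c _).col, fun _ => (c _).col, fun k => e (T.i k), fun k => e (T.q k)⟩)
    fun _ => d _).z z

/-- The chase along the filtration of the control category. -/
theorem in_zq (h : KT H) (t : Gc.Ok T)
    (hK : ∀ (D : Type (max 1 u v)) [Category.{v} D] [Preadditive D] [HasBinaryBiproducts D]
      [HasZeroObject D] (τ : Act G D), (∀ s : S, Swd τ fun g => g • s = s) → KZ τ)
    (hH : ∀ r, ((T.map (inQ S r ⋙ EG ⋙ H)).tw (ok_q S h t r)).Z) :
    ((T.map (gt ⋙ EG ⋙ H)).tw (ok_gt h t)).Z := by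
  refine (Tm.inj_of' (F := (T.nat (Functor.whiskerRight (inL0 S) (EG ⋙ H))).tm (ok_gt h t)
    (ok_lv S h t 0)) fun k n => (h.deq (EG.map ((inL0 S).app (T.X k))) (fun U => ?_) n).1).z
    (To.z_of_seq (E := fun r => (T.map (inL S r ⋙ EG ⋙ H)).tw (ok_lv S h t r))
      (F := fun r => ((T.nat (Functor.whiskerRight (inA S r) (EG ⋙ H))).tm _ (ok_n S h t r)).comp
        ((T.nat (Functor.whiskerRight (inB S r) (EG ⋙ H))).tm _ _))
      (fun r => inj_comp (Tm.inj_of_kill fun k => ?_) (Tm.inj_of_C ?_)) fun k n x => ?_)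
  · have := ct_a (S := S) (T.X k).ρ U.T
    rwa [← eg_top] at this
  · let c : (inN S r).obj (T.X k) ⟶ (inL S r).obj (T.P k) := ⟨(ctF S).map (T.i k), fun U X c =>
      (eg_sw (swp_ct (t.2 k) S r) _).2 _ (Ef.maps_th _ (fun _ a => a) _ c.2)⟩
    exact ⟨_, (EG ⋙ H).map ((inA S r).app _), 𝟙 _, (EG ⋙ H).map c, Category.comp_id _,
      ((EG ⋙ H).map_comp _ c).symm, h.nl' _ _ (fun _ _ c => eg_bdd _ c.1)
        (cf_zero (T.i k ≫ T.q k).F (t.1 k)), fun n => (Pre.bij_id n).1⟩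
  · exact z_row _ _ (in_nl h r) (fun A n => (h.loc _ _ (in_lc r A) _ n).1) (hH r)
  · let A := (ctF S).obj (T.X k)
    let w (d : ℕ) : (inL S d).obj (T.X k) ⟶ A.g ⊤ := Gc.gm (𝟙 _) fun _ _ => trivial
    have o := h.un (fun c => EG.map ((inLi S c).app (T.X k))) (fun d => EG.map (w d))
      (fun _ _ => (EG.map_comp ..).symm) (fun _ => (EG.map_comp ..).symm) fun U =>
        .mk (N := fun r => eg (act S (T.X k).ρ) U.T (Lv r)) (S := eg (act S (T.X k).ρ) U.T ⊤) _
          (fun _ => Gc.m_id A U) (monotone_nat_of_le_succ fun _ => lv_mono _ _)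
          fun X c => ct_e _ _ X (eg_bdd _ c)
    refine o.dies (d := 0) (y := x) ?_ ?_ (h.z _ (fun U => ?_) _ _)
    · exact fun _ => .zero
    · exact fun d y c => .up ((congrArg (Pre.map n · y) ((EG ⋙ H).map_comp
        ((inA S d).app (T.X k)) ((inB S d).app (T.X k)))).symm ▸ c)
    change Z (eg (act S (T.X k).ρ) U.T ⊤)
    obtain c | c := isEmpty_or_nonempty U.T
    · exact knl_zero (mg_le (S := Zr) fun (x : Tc (act S (T.X k).ρ) U.T) _ => c.elim x.as.t)
    · rw [eg_top]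
      exact ct_z (T.X k).ρ hK U.T

theorem ok_cg (t : Gc.Ok T) (r : ℕ) : Gc.Ok (T.map (cgF S r)) :=
  ⟨fun k X => by
    rw [show (T.map (cgF S r)).i k ≫ (T.map (cgF S r)).q k = (cgF S r).map (T.i k ≫ T.q k) from
      ((cgF S r).map_comp ..).symm]
    exact cg_zero S (T.i k ≫ T.q k).F r (t.1 k) X, fun k => swd_cg S r (t.2 k)⟩

/-- The same with the towers of the graded parts. -/
theorem in_zg (h : KT H) (t : Gc.Ok T)
    (hK : ∀ (D : Type (max 1 u v)) [Category.{v} D] [Preadditive D] [HasBinaryBiproducts D]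
      [HasZeroObject D] (τ : Act G D), (∀ s : S, Swd τ fun g => g • s = s) → KZ τ)
    (hH : ∀ r, (((T.map (cgF S r)).map (gt ⋙ EG ⋙ H)).tw (ok_gt h (ok_cg t r))).Z) :
    ((T.map (gt ⋙ EG ⋙ H)).tw (ok_gt h t)).Z :=
  in_zq h t hK fun r => (Tm.surj_of (F := (T.nat (Functor.whiskerRight (inJ S r) (EG ⋙ H))).tm
    (ok_gt h (ok_cg t r)) _) fun _ n => (in_j h r _ n).2).z (hH r)

/-- It is enough to treat towers of labelled categories. -/
theorem in_zt (h : KT H) (t : Gc.Ok T) (f : ∀ k, (T.i k).F.Full ∧ (T.i k).F.Faithful)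
    (l : Set S → S) (hl : ∀ (g : G) (τ : Set S), τ.Finite → τ.Nonempty →
      l ((g⁻¹ • ·) ⁻¹' τ) = g • l τ)
    (hK : ∀ (D : Type (max 1 u v)) [Category.{v} D] [Preadditive D] [HasBinaryBiproducts D]
      [HasZeroObject D] (τ : Act G D), (∀ s : S, Swd τ fun g => g • s = s) → KZ τ)
    (hH : ∀ (R : Ft (Gc.{v, u} G)) (r : Gc.Ok R), (∀ k, (R.i k).F.Full ∧ (R.i k).F.Faithful) →
      (∀ k, ∃ z : (R.X k).C, IsZero z) → (∀ k, ∃ l : (R.X k).C → S,
        (∀ ⦃B B' : (R.X k).C⦄ (f : B ⟶ B'), f ≠ 0 → l B = l B') ∧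
          ∀ g B, l (((R.X k).ρ.F g).obj B) = g • l B) →
      ((R.map (gt ⋙ EG ⋙ H)).tw (ok_gt h r)).Z) :
    ((T.map (gt ⋙ EG ⋙ H)).tw (ok_gt h t)).Z :=
  in_zg h t hK fun r => hH _ (ok_cg t r)
    (fun k => have := (f k).1; have := (f k).2
      ⟨inferInstanceAs (cgc S (T.i k).F r).Full, inferInstanceAs (cgc S (T.i k).F r).Faithful⟩)
    (fun k => ⟨⟨⟨⟨{l ∅}, Set.finite_singleton _, Empty, Empty.elim, Empty.elim, (·.elim),
      fun _ => Set.toFinite _⟩⟩, (Set.ncard_singleton _).le.trans (Nat.le_add_left 1 r),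
        Set.singleton_nonempty _⟩, (IsZero.iff_id_eq_zero _).2 ((ig S (T.X k).C r).map_injective
          (((pq S (T.X k).C r).map_isZero (zero_of_empty _ ⟨Empty.elim⟩)).eq_of_src _ _))⟩)
    fun k => ct_lab (T.X k).ρ hl

end Pool.Agent.Lib.MP_5d3e93_al.Br
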