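import Pool.Agent.Lib.MP_5d3e93_al.Br.Df

/-! Compactness: stable classes are supported on finite stages. -/

open CategoryTheory Topology Set Function Filter Opposite unitInterval

namespace Pool.Agent.Lib.MP_5d3e93_al.Br

universe u v

open Ps

variable {A X T : Ps.{u}} {J : Type v} {W : J → Ps.{u}} {w : ∀ j, W j ⟶ T} {n : ℤ}

theorem jq_sk_eq {t s : I} {x y : X.X} :
    sk t x = sk s y ↔ (t, x) = (s, y) ∨ X.Bp (t, x) ∧ X.Bp (s, y) := by
  have k {a b : I × X.X} (e : Relation.EqvGen (fun a b => X.Bp a ∧ X.Bp b) a b) :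
      a = b ∨ X.Bp a ∧ X.Bp b := by
    induction e with
    | rel _ _ h => exact .inr h
    | refl => exact .inl rfl
    | symm _ _ _ ih => exact ih.imp .symm .symm
    | trans _ _ _ _ _ c d =>
      obtain rfl | c := c
      · exact d
      · exact .inr (d.elim (· ▸ c) fun d => ⟨c.1, d.2⟩)
  exact ⟨fun e => k (Quot.eqvGen_exact e), fun e => e.elim (congrArg (Quot.mk _))
    fun e => Quot.sound e⟩

theorem jq_sk_pt {t : I} {x : X.X} : sk t x = X.S.pt ↔ X.Bp (t, x) :=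
  ⟨fun e => (jq_sk_eq.1 e).elim (fun e => e ▸ .inl rfl) And.left, sk_bp⟩

theorem jq_closed {C : Set X.S.X} :
    IsClosed C ↔ IsClosed ((fun p : I × X.X => sk p.1 p.2) ⁻¹' C) :=
  isQuotientMap_quot_mk.isClosed_preimage.symm

theorem jq_bp [T1Space X.X] : IsClosed {a | X.Bp a} :=
  (isClosed_singleton.preimage continuous_fst).union
    ((isClosed_singleton.preimage continuous_fst).union (isClosed_singleton.preimage continuous_snd))

theorem Ps.t1_S [T1Space X.X] : T1Space X.S.X := ⟨fun y => sk_ind y fun t x => jq_closed.2 (by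
  have : (fun p : I × X.X => sk p.1 p.2) ⁻¹' {sk t x} =
      {(t, x)} ∪ {a | X.Bp a} ∩ {_a | X.Bp (t, x)} := Set.ext fun _ => jq_sk_eq
  exact this ▸ isClosed_singleton.union (jq_bp.inter isClosed_const))⟩

theorem jq_bp_iff {i : A ⟶ X} (h : Injective i.1) {t : I} {a : A.X} :
    X.Bp (t, i.1 a) ↔ A.Bp (t, a) :=
  or_congr_right (or_congr_right (h.eq_iff' i.2))

theorem jq_inj {i : A ⟶ X} (h : Injective i.1) : Injective (sp i).1 := fun a b =>
  sk_ind a (sk_ind b fun _ _ _ _ e => jq_sk_eq.2 ((jq_sk_eq.1 e).imp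
    (fun e => Prod.ext (Prod.mk.inj e).1 (h (Prod.mk.inj e).2))
    fun e => ⟨(jq_bp_iff h).1 e.1, (jq_bp_iff h).1 e.2⟩))

theorem Ps.emb_sp [T1Space X.X] {i : A ⟶ X} (h : IsClosedEmbedding i.1) :
    IsClosedEmbedding (sp i).1 := by
  refine .of_continuous_injective_isClosedMap (sp i).1.continuous (jq_inj h.injective)
    fun C c => jq_closed.2 ?_
  have : (fun p : I × X.X => sk p.1 p.2) ⁻¹' ((sp i).1 '' C) =
      Prod.map id i.1 '' ((fun p : I × A.X => sk p.1 p.2) ⁻¹' C) ∪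
        {a | X.Bp a} ∩ {_a | A.S.pt ∈ C} := by
    refine Set.ext fun p => ⟨fun ⟨y, a, b⟩ => ?_, ?_⟩
    · induction y using sk_ind with
      | h s y =>
        obtain e | e := (jq_sk_eq (t := s) (x := i.1 y)).1 b
        · exact .inl ⟨(s, y), a, e⟩
        · exact .inr ⟨e.2, show A.S.pt ∈ C from sk_bp ((jq_bp_iff h.injective).1 e.1) ▸ a⟩
    · rintro (⟨q, a, rfl⟩ | ⟨a, b⟩)
      · exact ⟨_, a, rfl⟩
      · exact ⟨_, b, (sp i).2.trans (sk_bp a).symm⟩
  rw [this]
  exact ((IsClosedEmbedding.id.prodMap h).isClosedMap _ (jq_closed.1 c)).union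
    (jq_bp.inter isClosed_const)

theorem Jq.cont (h : Jq w) {Z : Type*} [TopologicalSpace Z] {f : T.X → Z}
    (c : ∀ j, Continuous fun y => f ((w j).1 y)) : Continuous f :=
  continuous_iff_isClosed.2 fun _ a => h.cl _ fun j => a.preimage (c j)

theorem Jq.cont_prod (h : Jq w) {Z K : Type*} [TopologicalSpace Z] [TopologicalSpace K]
    [LocallyCompactSpace K] {f : K × T.X → Z} (c0 : Continuous fun k => f (k, T.pt))
    (c : ∀ j, Continuous fun p : K × (W j).X => f (p.1, (w j).1 p.2)) : Continuous f := by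
  let g (z : T.X) : C(K, Z) := ⟨fun k => f (k, z), by
    obtain rfl | ⟨j, y, rfl⟩ := h.surj z
    · exact c0
    · exact (c j).comp (Continuous.prodMk_left y)⟩
  have a : Continuous g := h.cont fun j =>
    (ContinuousMap.curry ⟨_, (c j).comp continuous_swap⟩).continuous
  exact (a.comp continuous_snd).eval continuous_fst

theorem Jq.S (h : Jq w) : Jq fun j => sp (w j) where
  t1 := @t1_S _ h.t1
  inj j := jq_inj (h.inj j)
  surj z := sk_ind z fun t z => (h.surj z).imp (fun e => (congrArg (sk t) e).trans (sk_pt t))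
    fun ⟨j, y, e⟩ => ⟨j, sk t y, congrArg (sk t) e⟩
  cl C c := jq_closed.2 (isOpen_compl_iff.1 (isOpen_iff_continuous_mem.2 (h.cont_prod
    (continuous_const.congr fun t => (congrArg (· ∉ C) (sk_pt t)).symm)
    fun j => isOpen_iff_continuous_mem.1 (jq_closed.1 (c j)).isOpen_compl)))

theorem Jq.fin (h : Jq w) {K P : Set T.X} (hK : IsCompact K) (hP : P ⊆ K)
    (e : ∀ j, ((w j).1 ⁻¹' P).Finite) : P.Finite := by
  have := h.t1
  have c (Q) (a : Q ⊆ P) : IsClosed Q := h.cl _ fun j =>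
    have := t1Space_of_injective_of_continuous (h.inj j) (w j).1.continuous
    ((e j).subset (preimage_mono a)).isClosed
  obtain ⟨s, a⟩ := (hK.of_isClosed_subset (c P le_rfl) hP).elim_finite_subcover
    (fun p => (P \ {p})ᶜ) (fun p => (c _ sdiff_subset).isOpen_compl)
    fun p _ => mem_iUnion.2 ⟨p, fun b => b.2 rfl⟩
  refine s.finite_toSet.subset fun p b => ?_
  obtain ⟨q, d, f⟩ := mem_iUnion₂.1 (a b)
  exact (not_not.1 fun g => f ⟨b, g⟩ : p = q) ▸ d

theorem Jq.Sl (h : Jq w) : ∀ l, Jq fun j => (Sl l).map (w j)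
  | 0 => h
  | l + 1 => (h.Sl l).S

theorem jq_t1 [T1Space X.X] : ∀ l, T1Space ((Sl l).obj X).X
  | 0 => ‹_›
  | l + 1 => @t1_S _ (jq_t1 l)

theorem jq_emb [T1Space X.X] {i : A ⟶ X} (h : IsClosedEmbedding i.1) :
    ∀ l, IsClosedEmbedding ((Sl l).map i).1
  | 0 => h
  | l + 1 => @emb_sp _ _ (jq_t1 l) _ (jq_emb h l)

theorem jq_dis (dis : ∀ j k y z, (w j).1 y = (w k).1 z → j = k ∨ (w j).1 y = T.pt) :
    ∀ l j k y z, ((Sl l).map (w j)).1 y = ((Sl l).map (w k)).1 z →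
      j = k ∨ ((Sl l).map (w j)).1 y = ((Sl l).obj T).pt
  | 0 => dis
  | l + 1 => fun j k y z => sk_ind y (sk_ind z fun _ z t y e => (jq_sk_eq.1 e).elim
      (fun e => (jq_dis dis l j k y z (Prod.mk.inj e).2).imp_right
        fun e => (congrArg (sk t) e).trans (sk_pt t)) fun e => .inr (sk_bp e.1))

theorem Jq.cpt (h : Jq w) (dis : ∀ j k y z, (w j).1 y = (w k).1 z → j = k ∨ (w j).1 y = T.pt)
    {K : Set T.X} (hK : IsCompact K) :
    ∃ F : Finset J, ∀ z ∈ K, z = T.pt ∨ ∃ j ∈ F, ∃ y, (w j).1 y = z := by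
  choose p a b using fun j : {j // ∃ y, (w j).1 y ∈ K ∧ (w j).1 y ≠ T.pt} => j.2
  have u {j k y} (e : (w j.1).1 (p j) = (w k).1 y) : j.1 = k := (dis _ _ _ _ e).resolve_right (b j)
  have f := h.fin hK (range_subset_iff.2 a) fun k => Set.Subsingleton.finite (by
    rintro y ⟨j, e⟩ z ⟨j', e'⟩
    obtain rfl : j = j' := Subtype.ext ((u e).trans (u e').symm)
    exact h.inj k (e.symm.trans e'))
  have g : {j | ∃ y, (w j).1 y ∈ K ∧ (w j).1 y ≠ T.pt}.Finite :=
    (finite_range_iff fun _ _ e => Subtype.ext (u e)).1 f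
  refine ⟨g.toFinset, fun z c => or_iff_not_imp_left.2 fun d => ?_⟩
  obtain ⟨j, y, rfl⟩ := (h.surj z).resolve_left d
  exact ⟨j, g.mem_toFinset.2 ⟨y, c, d⟩, y, rfl⟩

theorem hm_of {Y : Ps.{u}} (f : X ⟶ Y) {m j : ℕ} (h : (j : ℤ) + 2 = n + m)
    (y : G ((Sl m).obj X) j) : hm n f ((inf X).of h y) = (inf Y).of h (pm ((Sl m).map f) y) :=
  Pre.map_of (infm f) h y

/-- A class is supported on finitely many summands of a wedge. -/
theorem Jq.supp (h : Jq w) (dis : ∀ j k y z, (w j).1 y = (w k).1 z → j = k ∨ (w j).1 y = T.pt)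
    (e : Finset J → (T ⟶ T)) (he : ∀ F, ∀ j ∈ F, w j ≫ e F = w j) (x : Sh n T) :
    ∃ F, hm n (e F) x = x := by
  refine Pre.ind x fun m j k y => cl_ind y fun f => ?_
  obtain ⟨F, a⟩ := (h.Sl m).cpt (jq_dis dis m) (isCompact_range f.1.continuous)
  refine ⟨F, (hm_of _ k _).trans (congrArg ((inf T).of k) (congrArg Ps.cl
    (GenLoop.ext (lm ((Br.Sl m).map (e F)) f) f fun t => ?_)))⟩
  obtain b | ⟨i, c, z, b⟩ := a _ ⟨t, rfl⟩
  · exact (congrArg _ b).trans (((Br.Sl m).map (e F)).2.trans b.symm)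
  · refine (congrArg _ b.symm).trans (.trans ?_ b)
    exact congrArg (fun q => q.1 z) (((Br.Sl m).map_comp _ _).symm.trans
      (congrArg (Br.Sl m).map (he F i c)))

/-- The suspension of a filtration. -/
def Fl.Sl (F : Fl T) (l : ℕ) : Fl ((Sl l).obj T) where
  W d := (Br.Sl l).obj (F.W d)
  v d := (Br.Sl l).map (F.v d)
  w d := (Br.Sl l).map (F.w d)
  vw d := by rw [← Functor.map_comp, F.vw]
  jq := F.jq.Sl l
  emb d := @jq_emb _ _ F.jq.t1 _ (F.emb d) l

theorem Fl.mono (F : Fl T) : Monotone fun d => range (F.w d).1 :=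
  monotone_nat_of_le_succ fun d _ ⟨y, e⟩ =>
    ⟨(F.v d).1 y, (congrArg (fun f => f.1 y) (F.vw d)).trans e⟩

theorem Fl.cpt (F : Fl T) {K : Set T.X} (hK : IsCompact K) :
    ∀ᶠ d in atTop, K ⊆ range (F.w d).1 := by
  suffices ∃ d, K ⊆ range (F.w d).1 from this.elim fun d a =>
    (eventually_ge_atTop d).mono fun _ b => a.trans (F.mono b)
  by_contra c
  choose p a b using fun d => not_subset.1 fun e => c ⟨d, e⟩
  have f := F.jq.fin hK (range_subset_iff.2 a) fun d =>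
    (((finite_lt_nat d).image p).preimage (F.jq.inj d).injOn).subset fun y ⟨k, e⟩ =>
      ⟨k, not_le.1 fun g => b k (F.mono g ⟨y, e.symm⟩), e⟩
  obtain ⟨d, g⟩ := ((eventually_all_finite f (l := atTop) (p := fun z d => z ∈ range (F.w d).1)).2
    fun z _ => by
      obtain rfl | ⟨j, y, rfl⟩ := F.jq.surj z
      · exact .of_forall fun d => ⟨_, (F.w d).2⟩
      · exact (eventually_ge_atTop j).mono fun _ b => F.mono b ⟨y, rfl⟩).exists
  exact b d (g _ ⟨d, rfl⟩)

theorem Fl.lift (F : Fl T) {K : Type*} [TopologicalSpace K] [CompactSpace K] (f : C(K, T.X)) :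
    ∀ᶠ d in atTop, ∃ g : C(K, (F.W d).X), ∀ k, (F.w d).1 (g k) = f k :=
  (F.cpt (isCompact_range f.continuous)).mono fun d a => by
    choose g b using fun k => a ⟨k, rfl⟩
    exact ⟨⟨g, (F.emb d).isInducing.continuous_iff.2 (f.continuous.congr fun k => (b k).symm)⟩, b⟩

theorem Fl.surj (F : Fl T) (x : Sh n T) : ∃ d y, hm n (F.w d) y = x := by
  refine Pre.ind x fun m j k y => cl_ind y fun f => ?_
  obtain ⟨d, g, a⟩ := ((F.Sl m).lift f.1).exists
  exact ⟨d, (inf _).of k (cl ⟨g, fun t b => (F.Sl m).jq.inj d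
    ((a t).trans ((f.2 t b).trans ((F.Sl m).w d).2.symm))⟩),
    (hm_of _ k _).trans (congrArg _ (congrArg cl (GenLoop.ext _ _ a)))⟩

theorem Fl.zero (F : Fl T) {p : ∀ d, Sh n (F.W d) → Prop} (h0 : ∀ d, p d 0)
    (hs : ∀ d y, p (d + 1) (hm n (F.v d) y) → p d y) {d} {y : Sh n (F.W d)}
    (e : hm n (F.w d) y = 0) : p d y := by
  obtain ⟨m, j, k, z, rfl, a⟩ := (Pre.ker (infm (F.w d)) e).exists
  induction z using cl_ind with
  | h f =>
  obtain ⟨H, H₀, H₁, H₂⟩ := cl_zero (f := lm ((Br.Sl m).map (F.w d)) f) a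
  obtain ⟨d', ⟨g, b⟩, c⟩ := (((F.Sl m).lift H).and (eventually_ge_atTop d)).exists
  obtain ⟨q, q₁, q₂⟩ : ∃ q : F.W d ⟶ F.W d', q ≫ F.w d' = F.w d ∧
      ∀ y, p d' (hm n q y) → p d y := by
    clear b g
    induction d', c using Nat.le_induction with
    | base => exact ⟨𝟙 _, Category.id_comp _, fun y => by rw [hm_id]; exact id⟩
    | succ d' _ ih =>
      obtain ⟨q, q₁, q₂⟩ := ih
      exact ⟨q ≫ F.v d', by rw [Category.assoc, F.vw, q₁],
        fun y l => q₂ y (hs _ _ (by rwa [hm_comp] at l))⟩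
  have i := (F.Sl m).jq.inj d'
  have o := ((F.Sl m).w d').2.symm
  refine q₂ _ (Eq.subst (Eq.symm ?_) (h0 d'))
  refine (hm_of q k _).trans ((congrArg _ ((cl_eq (g := GenLoop.const)).2 (ht_of g
    (fun t => i ((b _).trans ((H₀ t).trans ?_))) (fun t => i ((b _).trans ((H₁ t).trans o)))
    fun u t l => i ((b _).trans ((H₂ u t l).trans o))))).trans (map_zero _))
  rw [← q₁, Functor.map_comp]
  rfl

end Pool.Agent.Lib.MP_5d3e93_al.Br
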