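import Pool.Agent.Lib.MP_5d3e93_al.Br.KD
import Pool.Agent.Lib.MP_5d3e93_al.Br.A1Zz

/-! Chains of maps, the diagonal map and the chain of a relative family. -/

open CategoryTheory Limits Pretriangulated ZeroObject Opposite Simplicial

namespace Pool.Agent.Lib.MP_5d3e93_al.A2

open Gr Am Br

universe v u v' u' w w'

set_option backward.isDefEq.respectTransparency false

theorem tg_iso {a : Am.{v, u}} {b : Am.{v', u'}} (f g : Map a b) (α : f.F ⟶ g.F) :
    Tg (fun X => IsIso ((f.nat g α).app X) : ObjectProperty a.D) :=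
  Tg.mk' (fun X h => ⟨0, (f.D.map_isZero h).eq_of_src _ _, (g.D.map_isZero h).eq_of_src _ _⟩)
    (fun n X h => by
      rw [NatTrans.app_shift]
      infer_instance)
    fun T k h h' => isIso₂_of_isIso₁₃ (Triangle.homMk (f.D.mapTriangle.obj T)
      (g.D.mapTriangle.obj T) ((f.nat g α).app _) ((f.nat g α).app _) ((f.nat g α).app _)
      ((f.nat g α).naturality _) ((f.nat g α).naturality _) ((Category.assoc ..).trans
        ((congrArg (_ ≫ ·) (NatTrans.shift_app_comm (f.nat g α) 1 T.obj₁)).trans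
          ((f.nat g α).naturality_assoc T.mor₃ _))))
      (f.D.map_distinguished _ k) (g.D.map_distinguished _ k) h h'

section
variable {a : Am.{v, u}} {E E' : Type} [Category.{0} E] [Category.{0} E']

instance (P : ObjectProperty a.D) [Tg P] : Tg (dgP False E P) :=
  have (e e' : E) (g : e ⟶ e') :
      Tg (fun X => IsIso ((a.evm False g).app X) : ObjectProperty (a.dg False E).D) :=
    tg_iso (a.evd False e) (a.evd False e') ((evaluation E a.A).map g)
  Tg.mk' (fun _ h => ⟨fun _ => Tg.zero _ (Functor.map_isZero _ h),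
      fun e e' g => @Tg.zero _ _ _ _ _ _ _ _ (this e e' g) _ h⟩)
    (fun n X h => ⟨fun e => (P.inverseImage (a.evd False e).D).le_shift n X (h.1 e), fun e e' g =>
      ObjectProperty.le_shift (fun X => IsIso ((a.evm False g).app X)) n X (h.2 e e' g)⟩)
    fun T k h h' => ⟨fun e => (P.inverseImage (a.evd False e).D).ext_of_isTriangulatedClosed₂ T k
      (h.1 e) (h'.1 e), fun e e' g =>
      ObjectProperty.ext_of_isTriangulatedClosed₂ (fun X => IsIso ((a.evm False g).app X)) T k
        (h.2 e e' g) (h'.2 e e' g)⟩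

variable (a) in
/-- Restriction of diagrams. -/
def pre (G : E' ⥤ E) : Map (a.dg False E) (a.dg False E') where
  F := (Functor.whiskeringLeft E' E a.A).obj G
  add := ⟨rfl⟩
  hT _ h := (a.dg False E').le_Tb _ ⟨False.elim, fun e => h.2 (G.obj e)⟩

theorem pre_S (G : E' ⥤ E) (S : ObjectProperty a.D) :
    dgS False E S ≤ (dgS False E' S).inverseImage (pre a G).D :=
  fun _ h => ⟨False.elim, fun e => h.2 (G.obj e)⟩

theorem pre_P (G : E' ⥤ E) (P : ObjectProperty a.D) :
    dgP False E P ≤ (dgP False E' P).inverseImage (pre a G).D := fun X h =>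
  ⟨fun e => h.1 (G.obj e), fun e e' g => by
    have := h.2 _ _ (G.map g)
    induction X using nq_ind with | h K => ?_
    rw [evm, Map.nq_nat] at this
    rw [evm, Map.nat_obj, Map.nq_nat]
    exact this⟩

theorem pre_dg {b : Am.{v', u'}} (f : Map a b) (G : E' ⥤ E) (X : (a.dg False E).D) :
    (f.dg E' id).D.obj ((pre a G).D.obj X) = (pre b G).D.obj ((f.dg E id).D.obj X) := by
  induction X using nq_ind with | h K => rfl

variable (a E) in
/-- Complexes of diagrams as diagrams of complexes. -/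
def unc (P : ObjectProperty a.D) : (a.dg False E).Wq False (dgP False E P) ⥤ E ⥤ a.Wq False P where
  obj K :=
    { obj := fun e => ⟨((a.evd False e).F.mapHomologicalComplex _).obj K.K, False.elim, K.p.1 e⟩
      map := fun {e e'} g =>
        ⟨(NatTrans.mapHomologicalComplex ((evaluation E a.A).map g) _).app K.K,
          (a.evd False e).nq_nat (a.evd False e') ((evaluation E a.A).map g) K.K ▸ K.p.2 e e' g⟩
      map_id := fun e => Subtype.ext (HomologicalComplex.hom_ext _ _ fun n =>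
        CategoryTheory.Functor.map_id (K.K.X n) e)
      map_comp := fun g g' => Subtype.ext (HomologicalComplex.hom_ext _ _ fun n =>
        CategoryTheory.Functor.map_comp (K.K.X n) g g') }
  map φ :=
    { app := fun e => ⟨((a.evd False e).F.mapHomologicalComplex _).map φ.1,
        have := φ.2
        (a.evd False e).nq_map φ.1 ▸ Functor.map_isIso _ _⟩
      naturality := fun _ _ g => Subtype.ext (HomologicalComplex.hom_ext _ _ fun n =>
        NatTrans.naturality (φ.1.f n) g) }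

end

/-- The vertices of a simplex. -/
abbrev Fq (q : SimplexCategoryᵒᵖ) : Type := Fin (q.unop.len + 1)

/-- The functor of a simplicial operator. -/
def fq {q q' : SimplexCategoryᵒᵖ} (θ : q ⟶ q') : Fq q' ⥤ Fq q := θ.unop.toOrderHom.monotone.functor

/-- Chains of weak equivalences. -/
def PD : Tp.{v, u} ⥤ SimplexCategoryᵒᵖ ⥤ Tp.{v, u} where
  obj y := { obj := fun q => ⟨y.a.dg False (Fq q), dgP False _ y.S⟩
             map := fun θ => ⟨pre y.a (fq θ), pre_P _ _⟩ }
  map f := { app := fun q => ⟨f.f.dg (Fq q) id, fun X h => ⟨fun e => f.h _ (h.1 e), fun e e' g =>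
    have := h.2 e e' g
    (evm_dg f.f id g X).2 inferInstance⟩⟩ }

/-- Evaluation at a vertex. -/
def evP (y : Tp.{v, u}) {q : SimplexCategoryᵒᵖ} (k : Fq q) : (PD.obj y).obj q ⟶ y :=
  ⟨y.a.evd False k, fun _ h => h.1 k⟩

theorem dgG_wr {J : Type*} [Category J] {A : Type*} [Category A] {B : Type*} [Category B]
    (M : J ⥤ J ⥤ A) (F : A ⥤ B) : (dgG J B).obj (M ⋙ wr J F) = (dgG J A).obj M ⋙ F :=
  Functor.hext (fun _ => rfl) fun _ _ _ => heq_of_eq (F.map_comp _ _).symm

/-- The diagonal of a square grid. -/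
noncomputable def dl : PD.{v, u} ⋙ wr _ NP ⋙ dgG _ PT ⟶ NP where
  app y :=
    { app := fun n => ⟨fun σ => (dgG (Fq n) _).obj (σ ⋙ unc y.a (Fq n) y.S), fun _ h k =>
        (y.a.evd False k).D.map_isZero (h k)⟩
      naturality := fun _ _ _ => rfl }
  naturality x _ f := NatTrans.ext (funext fun n => PT.hom_ext fun σ =>
    dgG_wr (σ ⋙ unc x.a (Fq n) x.S) f.w)

/-- Diagrams whose structure maps become invertible. -/
def dgQ {x y : Tp.{v, u}} (f : x ⟶ y) (E : Type) [Category.{0} E] :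
    ObjectProperty (x.a.dg False E).D :=
  dgS False E x.S ⊓ (dgP False E y.S).inverseImage (f.f.dg (β := False) (β' := False) E id).D

instance {x y : Tp.{v, u}} (f : x ⟶ y) (E : Type) [Category.{0} E] : Tg (dgQ f E) :=
  inferInstanceAs (Tg (_ ⊓ _))

theorem pre_Q {x y : Tp.{v, u}} (f : x ⟶ y) {E E' : Type} [Category.{0} E] [Category.{0} E']
    (G : E' ⥤ E) : dgQ f E ≤ (dgQ f E').inverseImage (pre x.a G).D := fun X h =>
  ⟨pre_S G x.S X h.1, (congrArg (dgP False E' y.S) (pre_dg f.f G X)).mpr (pre_P G y.S _ h.2)⟩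

/-- Chains of maps that become weak equivalences. -/
def QD {x y : Tp.{v, u}} (f : x ⟶ y) : SimplexCategoryᵒᵖ ⥤ Tp.{v, u} where
  obj q := ⟨x.a.dg False (Fq q), dgQ f _⟩
  map θ := ⟨pre x.a (fq θ), pre_Q f _⟩

/-- The comparison map. -/
def uQ {x y : Tp.{v, u}} (f : x ⟶ y) : QD f ⟶ PD.obj y where
  app q := ⟨f.f.dg (Fq q) id, fun _ h => h.2⟩

namespace Fam

variable {Λ Λ' : Lab} {C : Type u} [Category.{v} C] [Preadditive C]
  {C' : Type u'} [Category.{v'} C'] [Preadditive C'] (F : C ⥤ C') [F.Additive]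

theorem tau_id (f : Λ ⟶ Λ') (h) : tau f f h (𝟙 F) = 𝟙 _ :=
  NatTrans.ext (funext fun P => hom_ext fun (i j : P.ι) => by
    rw [tau_e, NatTrans.id_app, NatTrans.id_app, id_e]
    by_cases e : i = j
    · subst e
      by_cases c : f.f (P.l i) ∈ Λ'.U <;> simp [dia, c, map]
    · simp [dia, e])

theorem tau_comp (f g k : Λ ⟶ Λ') (h h' h'') :
    tau f g h (𝟙 F) ≫ tau g k h' (𝟙 F) = tau f k h'' (𝟙 F) :=
  NatTrans.ext (funext fun P => hom_ext fun (i j : P.ι) => by
    refine (Finset.sum_eq_single (ι := P.ι) i (fun j _ c => by simp [tau_e, dia, c.symm])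
      (by simp)).trans ?_
    simp only [tau_e]
    by_cases e : i = j
    · subst e
      by_cases a : f.f (P.l i) ∈ Λ'.U ∧ k.f (P.l i) ∈ Λ'.U
      · simp [dia, a.1, a.2, Lab.mid a.2 a.1 (h' _) (h _)]
        exact Category.id_comp _
      · rcases not_and_or.1 a with c | c <;> simp [dia, c]
    · simp [dia, e])

end Fam

/-- The map of labels given by a vertex. -/
def vx (Λ : Lab) {q : SimplexCategoryᵒᵖ} (k : Fq q) : Λ.ten (DR.obj q) ⟶ Λ.ten oL :=
  Lab.tenm (𝟙 Λ) (DR.map (SimplexCategory.const ⦋0⦌ q.unop k).op)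

theorem vx_le (Λ : Lab) {q : SimplexCategoryᵒᵖ} {k k' : Fq q} (h : k ≤ k') (l) :
    (vx Λ k').f l ≤ (vx Λ k).f l := ⟨le_rfl, fun _ => (LC.vl l.2).monotone h⟩

variable {a : Am.{v, u}} {c : Am.{v', u'}}

/-- The chain of subfamilies as a diagram of functors. -/
noncomputable def Fw (Λ : Lab) (q : SimplexCategoryᵒᵖ) (φ : Map a c) :
    Fq q ⥤ Fam (Λ.ten (DR.obj q)) a.A ⥤ Fam (Λ.ten oL) c.A where
  obj k := Fam.map (vx Λ k) φ.F
  map g := Fam.tau _ _ (vx_le Λ g.le) (𝟙 _)
  map_id _ := Fam.tau_id ..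
  map_comp _ _ := (Fam.tau_comp ..).symm

/-- The chain of subfamilies of a relative family. -/
noncomputable def Fv (Λ : Lab) (q : SimplexCategoryᵒᵖ) (φ : Map a c) :
    Map (FamA (Λ.ten (DR.obj q)) a) ((FamA (Λ.ten oL) c).dg False (Fq q)) where
  F := (Fw Λ q φ).flip
  add := ⟨NatTrans.ext (funext fun k => (Fam.map (vx Λ k) φ.F).map_add)⟩
  hT X h := Am.le_Tb _ _ ⟨False.elim, fun k => (fmM (vx Λ k) φ).hT X h⟩

theorem fv_ev (Λ : Lab) (q : SimplexCategoryᵒᵖ) (φ : Map a c) (k : Fq q) :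
    (Fv Λ q φ).comp ((FamA (Λ.ten oL) c).evd False k) = fmM (vx Λ k) φ := rfl

end Pool.Agent.Lib.MP_5d3e93_al.A2
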