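import Pool.Agent.Lib.MP_5d3e93_al.Br.Mt

/-! Natural swindles, thick closures, Karoubi filtrations in cut form. -/

open CategoryTheory Limits Pretriangulated ZeroObject

namespace Pool.Agent.Lib.MP_5d3e93_al.Br

open Gr Am

universe v u u'

/-- A natural swindle. -/
def Fq (D : Type*) [Category* D] [Preadditive D] : Prop :=
  ∃ (Φ : D ⥤ D) (_ : Φ.Additive) (i : 𝟭 D ⟶ Φ) (r : Φ ⟶ 𝟭 D) (i' r' : Φ ⟶ Φ),
    i ≫ r = 𝟙 _ ∧ i' ≫ r' = 𝟙 _ ∧ r ≫ i + r' ≫ i' = 𝟙 _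

section tri
variable {D : Type*} [Category* D] [HasZeroObject D] [HasShift D ℤ] [Preadditive D]
  [∀ n : ℤ, (shiftFunctor D n).Additive] [Pretriangulated D]
  {D' : Type*} [Category* D'] [HasZeroObject D'] [HasShift D' ℤ] [Preadditive D']
  [∀ n : ℤ, (shiftFunctor D' n).Additive] [Pretriangulated D']

theorem kf_compl {X Y : D} (m : X ⟶ Y) (l : Y ⟶ X) (h : m ≫ l = 𝟙 X) :
    ∃ (Z : D) (s : Z ⟶ Y) (p : Y ⟶ Z), s ≫ p = 𝟙 Z ∧ p ≫ s = 𝟙 Y - l ≫ m := by
  obtain ⟨Z, g, k, hd⟩ := distinguished_cocone_triangle m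
  have : Mono m := (SplitMono.mk l h).mono
  have z : k = 0 := Triangle.mor₃_eq_zero_of_mono₁ _ hd this
  obtain ⟨s, e⟩ := Triangle.yoneda_exact₂ _ hd (𝟙 Y - l ≫ m) (by
    change m ≫ _ = 0
    rw [Preadditive.comp_sub, reassoc_of% h, Category.comp_id, sub_self])
  have : Epi g := (Triangle.mor₃_eq_zero_iff_epi₂ _ hd).1 z
  have o : m ≫ g = 0 := comp_distTriang_mor_zero₁₂ _ hd
  refine ⟨Z, s, g, (cancel_epi g).1 ?_, e.symm⟩
  change 𝟙 Y - l ≫ m = g ≫ s at e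
  rw [← reassoc_of% e]
  simp [o]

theorem Fq.ic (h : Fq D) : IsIdempotentComplete D := ⟨fun X e k => by
  obtain ⟨Φ, _, i, r, i', r', h1, h2, h3⟩ := h
  have a : Φ.map e ≫ Φ.map e = Φ.map e := by rw [← Φ.map_comp, k]
  have b := i'.naturality e
  have c := r'.naturality e
  have d : Φ.map e ≫ r.app X = r.app X ≫ e := r.naturality e
  have h1 : i.app X ≫ r.app X = 𝟙 X := NatTrans.congr_app h1 X
  have h2 : i'.app X ≫ r'.app X = 𝟙 _ := NatTrans.congr_app h2 X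
  have h3 : r'.app X ≫ i'.app X = 𝟙 _ - r.app X ≫ i.app X :=
    eq_sub_of_add_eq' (NatTrans.congr_app h3 X)
  obtain ⟨Z, s, p, f, g⟩ := kf_compl (Φ.map e ≫ i'.app X + (𝟙 _ - Φ.map e))
    (Φ.map e ≫ r'.app X + (𝟙 _ - Φ.map e)) (by
      simp only [Preadditive.add_comp, Preadditive.comp_add, Preadditive.comp_sub,
        Preadditive.sub_comp, Category.assoc, Category.id_comp, Category.comp_id,
        ← reassoc_of% b, ← b, a, reassoc_of% a, h2]
      abel)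
  have g' : p ≫ s = r.app X ≫ e ≫ i.app X := by
    rw [g]
    simp only [Preadditive.add_comp, Preadditive.comp_add, Preadditive.comp_sub,
      Preadditive.sub_comp, Category.assoc, Category.id_comp, Category.comp_id,
      ← reassoc_of% c, ← c, a, reassoc_of% a, h3, reassoc_of% d, reassoc_of% k]
    abel
  refine ⟨Z, s ≫ r.app X, i.app X ≫ p, ?_, ?_⟩
  · have : s ≫ r.app X ≫ e ≫ i.app X = s := by rw [← g', reassoc_of% f]
    calc _ = (s ≫ r.app X ≫ e ≫ i.app X) ≫ r.app X ≫ i.app X ≫ p := by rw [this]; simp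
      _ = (s ≫ r.app X ≫ e ≫ i.app X) ≫ p := by simp [reassoc_of% h1]
      _ = _ := by rw [this, f]
  · simp [reassoc_of% g', reassoc_of% h1, h1]⟩

theorem th_ret {S : ObjectProperty D} {X : D} (h : Th S X) :
    ∃ (Y : D) (i : X ⟶ Y) (r : Y ⟶ X), S Y ∧ i ≫ r = 𝟙 X :=
  h.elim fun _ a => ⟨_, biprod.inl, biprod.fst, a, biprod.inl_fst⟩

theorem th_mono {S S' : ObjectProperty D} (h : S ≤ S') : Th S ≤ Th S' :=
  fun _ a => a.imp fun _ b => h _ b

theorem th_th {S : ObjectProperty D} [Tg S] : Th (Th S) ≤ Th S := fun _ a => by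
  obtain ⟨Y, i, r, b, c⟩ := th_ret a
  obtain ⟨Z, j, s, d, e⟩ := th_ret b
  exact Th.of_retract (i ≫ j) (s ≫ r) (by simp [reassoc_of% e, c]) d

theorem th_maps (F : D ⥤ D') {S : ObjectProperty D} {S' : ObjectProperty D'} [Tg S']
    (h : S ≤ S'.inverseImage F) : Th S ≤ (Th S').inverseImage F := fun _ a => by
  obtain ⟨Y, i, r, b, c⟩ := th_ret a
  exact Th.of_retract (F.map i) (F.map r) (by rw [← F.map_comp, c, F.map_id]) (h _ b)

theorem th_deq {F : D ⥤ D'} [IsIdempotentComplete D] {S : ObjectProperty D}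
    {S' : ObjectProperty D'} [Tg S] [Tg S'] (h : Deq F S S') : Deq F (Th S) (Th S') where
  ff X Y a b := by
    obtain ⟨X', i, r, c, d⟩ := th_ret a
    obtain ⟨Y', j, s, e, k⟩ := th_ret b
    refine ⟨fun f g z => ?_, fun φ => ?_⟩
    · have : r ≫ f ≫ j = r ≫ g ≫ j := (h.ff c e).1 (by simp only [F.map_comp, z])
      simpa [reassoc_of% d, k] using congrArg (i ≫ · ≫ s) this
    · obtain ⟨f, z⟩ := (h.ff c e).2 (F.map r ≫ φ ≫ F.map j)
      refine ⟨i ≫ f ≫ s, ?_⟩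
      simp only [F.map_comp, z, Category.assoc]
      rw [← F.map_comp_assoc, d, ← F.map_comp, k]
      simp
  maps := th_maps F h.maps
  surj Y a := by
    obtain ⟨Y', i, r, b, c⟩ := th_ret a
    obtain ⟨X, d, ⟨e⟩⟩ := h.surj Y' b
    obtain ⟨ε, k⟩ := (h.ff d d).2 (e.hom ≫ r ≫ i ≫ e.inv)
    obtain ⟨Z, j, q, h1, h2⟩ := IsIdempotentComplete.idempotents_split X ε
      ((h.ff d d).1 (by simp [k, reassoc_of% c]))
    have h3 : F.map q ≫ F.map j = e.hom ≫ r ≫ i ≫ e.inv := by rw [← F.map_comp, h2, k]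
    have h4 : F.map j ≫ F.map q = 𝟙 _ := by rw [← F.map_comp, h1, F.map_id]
    refine ⟨Z, Th.of_retract j q h1 d, ⟨⟨F.map j ≫ e.hom ≫ r, i ≫ e.inv ≫ F.map q, ?_, ?_⟩⟩⟩
    · simp only [Category.assoc]
      rw [← reassoc_of% h3, h4, Category.comp_id, h4]
    · simp [reassoc_of% h3, c]

end tri

variable {D : Type (max u v)} [Category.{v} D] [Preadditive D] {E : Type (max u' v)}
  [Category.{v} E] [Preadditive E] {P : ObjectProperty D} {R : ObjectProperty E}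

theorem Fq.mam (h : Fq D) : Fq (mam.{v, u} D).D := by
  obtain ⟨Φ, _, i, r, i', r', h1, h2, h3⟩ := h
  let f := mm.{v, u, u} Φ
  let o := (Br.mam.{v, u} D).idm
  have k₁ : o.nat f (mnat.{v, u, u} i) ≫ f.nat o (mnat.{v, u, u} r) = 𝟙 _ := by
    rw [← Map.nat_comp]
    exact (congrArg (o.nat o) ((mnat_comp i r).trans ((congrArg _ h1).trans (mnat_id _)))).trans
      (Map.nat_id o)
  have k₂ : f.nat f (mnat.{v, u, u} i') ≫ f.nat f (mnat.{v, u, u} r') = 𝟙 _ := by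
    rw [← Map.nat_comp]
    exact (congrArg (f.nat f) ((mnat_comp i' r').trans ((congrArg _ h2).trans (mnat_id _)))).trans
      (Map.nat_id f)
  have k₃ : f.nat o (mnat.{v, u, u} r) ≫ o.nat f (mnat.{v, u, u} i) +
      f.nat f (mnat.{v, u, u} r') ≫ f.nat f (mnat.{v, u, u} i') = 𝟙 _ := by
    rw [← Map.nat_comp, ← Map.nat_comp, ← Map.nat_add]
    refine (congrArg (f.nat f) ?_).trans (Map.nat_id f)
    exact (congrArg₂ (· + ·) (mnat_comp r i) (mnat_comp r' i')).trans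
      ((mnat_add _ _).trans ((congrArg _ h3).trans (mnat_id _)))
  refine ⟨f.D, inferInstance, (Br.mam.{v, u} D).idD.inv ≫ o.nat f (mnat.{v, u, u} i),
    f.nat o (mnat.{v, u, u} r) ≫ (Br.mam.{v, u} D).idD.hom, _, _, ?_, k₂, ?_⟩
  · rw [Category.assoc, reassoc_of% k₁, Iso.inv_hom_id]
  · rw [Category.assoc, Iso.hom_inv_id_assoc, k₃]

theorem Fq.z (h : Fq D) : Z (Br.mam.{v, u} D).bdd ∧
    Th (Br.mam.{v, u} D).bdd ≤ (Br.mam.{v, u} D).bdd := by
  obtain ⟨Φ, _, i, r, i', r', h1, h2, h3⟩ := h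
  exact mg_top.{v, u} (D := D) ▸ mm_sw.{v, u} Φ i r i' r' h1 h2 h3 le_rfl

/-- Karoubi filtrations in cut form. -/
structure Kf {D : Type*} [Category* D] [Preadditive D] {E : Type*} [Category* E] [Preadditive E]
    (p : D ⥤ E) (P : ObjectProperty D) : Prop where
  full : p.Full
  surj : ∀ y, ∃ x, p.obj x = y
  kill : ∀ x, P x → IsZero (p.obj x)
  cut : ∀ (x : D) {ι : Type} (s : Finset ι) (y : ι → D) (f : ∀ j, x ⟶ y j),
    (∀ j, p.map (f j) = 0) → ∃ (x' z : D) (i : x' ⟶ x) (q : x ⟶ z), Spl i q ∧ P z ∧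
      ∀ j ∈ s, i ≫ f j = 0

theorem Kf.loc {p : D ⥤ E} [p.Additive] (h : Kf p P) (w : Fq D) :
    Gr.Loc (mm.{v, u, u'} p).D (Th (mg.{v, u} P)) (mam.{v, u} D).bdd (mam.{v, u'} E).bdd := by
  have := h.full
  have k := mm_loc.{v, u, u'} p (P' := ⊤) (R := ⊤) (mm_locOn.{v, u, u'} p h.kill fun x y f z => by
    obtain ⟨x', c, i, q, a, b, d⟩ := h.cut x {()} (fun _ => y) (fun _ => f) fun _ => z
    exact ⟨x', c, i, q, a, mg_mo b, d () (by simp)⟩) le_top le_top fun y _ => by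
      obtain ⟨x, rfl⟩ := h.surj y
      exact mg_mo ⟨x, trivial, ⟨.refl _⟩⟩
  rwa [mg_top, mg_top, inf_eq_right.2
    ((th_mono ((mg_mono le_top).trans mg_top.le)).trans w.z.2)] at k

/-- Fully faithful on `P`, and `R` consists of retracts of finite sums of images. -/
structure Kc {D : Type*} [Category* D] [Preadditive D] {E : Type*} [Category* E] [Preadditive E]
    (a : D ⥤ E) (P : ObjectProperty D) (R : ObjectProperty E) : Prop where
  ff : ∀ x y, P x → P y → Function.Bijective (a.map : (x ⟶ y) → _)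
  ret : ∀ y, R y → ∃ (n : ℕ) (x : Fin n → D) (r : ∀ l, y ⟶ a.obj (x l))
    (i : ∀ l, a.obj (x l) ⟶ y), (∀ l, P (x l)) ∧ ∑ l, r l ≫ i l = 𝟙 y

theorem Kc.deq {a : D ⥤ E} [a.Additive] (h : Kc a P R) (m : P ≤ R.inverseImage a) (w : Fq D) :
    Deq (mm.{v, u, u'} a).D (Th (mg.{v, u} P)) (Th (mg.{v, u'} R)) := by
  have := w.mam.ic
  have k : Deq (mm.{v, u, u'} a).D (mg.{v, u} P) (mg.{v, u'} (P.map a)) := by
    rw [← mm_gen a (P := P) (R := P.map a) (fun x b => ⟨x, b, ⟨.refl _⟩⟩) fun _ => mg_mo]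
    exact FF.deq_gen _ (ff_of_pj _ (fun g _ => of_pj.{v, max 1 u} g)
      (fun g _ => of_pj.{v, max 1 u'} _) fun M N b c =>
        ⟨fun f g e => Mat_.hom_ext _ _ fun i j => (h.ff _ _ (b i) (c j)).1 (congrFun₂ e i j),
          fun f => ⟨fun i j => ((h.ff _ _ (b i) (c j)).2 (f i j)).choose, Mat_.hom_ext _ _
            fun i j => ((h.ff _ _ (b i) (c j)).2 (f i j)).choose_spec⟩⟩)
  have e : Th (mg.{v, u'} (P.map a)) = Th (mg.{v, u'} R) := by
    refine le_antisymm (th_mono (mg_le ?_)) ((th_mono (mg_le fun y b => ?_)).trans th_th)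
    · rintro _ ⟨x, b, ⟨e⟩⟩
      exact (mg.{v, u'} R).prop_of_iso (mo.mapIso e) (mg_mo (m x b))
    · obtain ⟨n, x, r, i, c, d⟩ := h.ret y b
      let M : Mat_ E := ⟨Fin n, fun l => a.obj (x l)⟩
      let s : Mat_ E ⥤ (mam.{v, u'} E).D := (mam.{v, u'} E).sg
      refine Th.of_retract (s.map (X := (Mat_.embedding E).obj y) (Y := M) fun _ l => r l)
        (s.map (X := M) (Y := (Mat_.embedding E).obj y) fun l _ => i l) ?_
        (Cl.of ⟨M, fun l => ⟨x l, c l, ⟨.refl _⟩⟩, ⟨.refl _⟩⟩)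
      refine (s.map_comp _ _).symm.trans ((congrArg s.map ?_).trans (s.map_id _))
      exact Mat_.hom_ext _ _ fun _ _ => d.trans (Mat_.id_apply_self ((Mat_.embedding E).obj y) ()).symm
  exact e ▸ th_deq k

end Pool.Agent.Lib.MP_5d3e93_al.Br
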