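import Pool.Agent.Lib.MP_5d3e93_al.Br.KfT

/-! The comparison functor from the transport category of the cone to the cone. -/

open CategoryTheory Limits Function

namespace Pool.Agent.Lib.MP_5d3e93_al.Br

open Gr Am As A2

universe w v u

theorem kfP_cg {A : AC.{v, u}} {X Y : Mx nat A} {a b : X ⟶ Y} (h : a = b) (i j) :
    a.e i j = b.e i j := by rw [h]

theorem kfP_eq {A : AC.{v, u}} {W X : Mx nat A} {Y Y' : X.I → A.C} (e : Y = Y')
    (h : kfS_ob X Y = kfS_ob X Y') (a : W ⟶ kfS_ob X Y) (i : W.I) (j : X.I) :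
    (a ≫ eqToHom h).e i j = a.e i j ≫ eqToHom (congrFun e j) := by
  subst e
  exact (kfP_cg (Category.comp_id a) i j).trans (Category.comp_id _).symm

theorem kfP_sum {A : AC.{v, u}} {X Y : Mx nat A} {ι : Type*} (s : Finset ι) (a : ι → (X ⟶ Y))
    (i j) : (∑ l ∈ s, a l).e i j = ∑ l ∈ s, (a l).e i j :=
  map_sum (⟨⟨fun a : X ⟶ Y => a.e i j, rfl⟩, fun _ _ => rfl⟩ : (X ⟶ Y) →+ _) a s

theorem kfP_val {C : Type*} [Category* C] [Preadditive C] {T : Type*} {X Y : Lb C T} {ι : Type*}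
    (s : Finset ι) (a : ι → (X ⟶ Y)) : (∑ l ∈ s, a l).1 = ∑ l ∈ s, (a l).1 :=
  map_sum (⟨⟨fun a : X ⟶ Y => a.1, rfl⟩, fun _ _ => rfl⟩ : (X ⟶ Y) →+ _) a s

theorem kfP_sg {G : Type*} [Group G] {C : Type*} [Category* C] [Preadditive C] {ρ : Act G C}
    {A B : Tw ρ} (g : G) {ι : Type*} (s : Finset ι) (a : ι → (A.as ⟶ (ρ.F g).obj B.as)) :
    Tw.sg g (∑ l ∈ s, a l) = ∑ l ∈ s, Tw.sg g (a l) :=
  map_sum (AddMonoidHom.mk' (Tw.sg g) (Tw.sg_add g)) a s

theorem kfP_id {A : AC.{v, u}} (X : Mx nat A) (i) : Mx.Mor.e (𝟙 X) i i = 𝟙 _ :=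
  (dif_pos ⟨rfl, trivial⟩).trans (eqToHom_refl ..)

theorem kfP_ne {A : AC.{v, u}} (X : Mx nat A) {i j} (h : i ≠ j) : Mx.Mor.e (𝟙 X) i j = 0 :=
  dif_neg fun c => h c.1

theorem kfP_fin {A : AC.{v, u}} (y : Mx nat A) (h : y.I.Finite) : ∃ (n : ℕ) (e : Fin n → y.I)
    (r : ∀ l, y ⟶ Inc.obj (y.X (e l))) (i : ∀ l, Inc.obj (y.X (e l)) ⟶ y),
    ∑ l, r l ≫ i l = 𝟙 y := by
  have := h.to_subtype
  obtain ⟨n, ⟨e⟩⟩ := Finite.exists_equiv_fin y.I
  have o {i j : y.I} (c : Mx.idE y i j ≠ 0) : i = j := by_contra fun b => c (dif_neg fun d => b d.1)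
  refine ⟨n, e.symm, fun l => ⟨fun i _ => Mx.idE y i (e.symm l), y.π (e.symm l), fun i _ c => ?_⟩,
    fun l => ⟨fun _ j => Mx.idE y (e.symm l) j, y.π (e.symm l), fun _ j c => ?_⟩,
    Mx.Mor.ext (funext₂ fun i j => (kfP_sum ..).trans ?_)⟩
  · exact o c ▸ ⟨trivial, trivial, trivial, (Nat.zero_add _).ge, Nat.zero_le _⟩
  · exact o c ▸ ⟨trivial, trivial, trivial, Nat.zero_le _, (Nat.zero_add _).ge⟩
  · refine .trans ?_ (congrFun₂ (congrArg Mx.Mor.e (Category.id_comp (𝟙 y))) i j)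
    have := Fintype.ofFinite y.I
    refine .trans ?_ (finsum_eq_sum_of_fintype fun l => Mx.idE y i l ≫ Mx.idE y l j).symm
    exact Fintype.sum_equiv e.symm _ _ fun l =>
      finsum_unique (α := ({0} : Set ℕ)) fun _ => Mx.idE y i (e.symm l) ≫ Mx.idE y (e.symm l) j

variable {G : Type v} [Group G] (B : Gc.{v, u} G) (T : Gs G)

open Gc Tw

/-- The family of labelled objects. -/
noncomputable def phO (x : Tc (ap cone B).ρ T.T) : Mx nat ((TC.obj B).obj T) :=
  kfS_ob (A := B.ac) x.as.A fun i => ⟨⟨x.as.A.X i, x.as.t⟩⟩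

variable {B T} {x y z : Tc (ap cone B).ρ T.T}

/-- An entry of a labelled matrix. -/
noncomputable def phE {g : G} (a : x.as ⟶ ((Lb.act T.T (ap cone B).ρ).F g).obj y.as) (i : x.as.A.I)
    (j : y.as.A.I) : (⟨x.as.A.X i, x.as.t⟩ : Lb B.C T.T) ⟶
      ((Lb.act T.T B.ρ).F g).obj ⟨y.as.A.X j, y.as.t⟩ :=
  ⟨a.1.e i j, fun h => congrFun₂ (congrArg Mx.Mor.e (a.2 h)) i j⟩

variable (x y) in
/-- A homogeneous morphism as a matrix. -/
noncomputable def phG (g : G) :
    (x.as ⟶ ((Lb.act T.T (ap cone B).ρ).F g).obj y.as) →+ (phO B T x ⟶ phO B T y) where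
  toFun a := ⟨fun i j => Tw.sg g (phE a i j), a.1.ok.imp fun _ h i j c =>
    h i j fun e => c ((congrArg (Tw.sg g) (Lb.ext e)).trans (sg_zero g))⟩
  map_zero' := Mx.Mor.ext (funext₂ fun _ _ => sg_zero g)
  map_add' a b := Mx.Mor.ext (funext₂ fun i j => sg_add g (phE a i j) (phE b i j))

open Classical in
variable (x y) in
/-- A formal sum as a matrix. -/
noncomputable def phH : (x ⟶ y) →+ (phO B T x ⟶ phO B T y) :=
  DFinsupp.sumAddHom (β := fun g => x.as ⟶ ((Lb.act T.T (ap cone B).ρ).F g).obj y.as) (phG x y)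

open Classical in
theorem phH_sg (g : G) (a) : phH x y (Tw.sg g a) = phG x y g a :=
  DFinsupp.sumAddHom_single
    (β := fun g => x.as ⟶ ((Lb.act T.T (ap cone B).ρ).F g).obj y.as) (phG x y) g a

theorem phH_co (f : x ⟶ y) (g : G) (i j) :
    Tw.co g ((phH x y f).e i j) = phE (Tw.co g f) i j := by
  induction f using ind' with
  | h0 => rw [map_zero, map_zero]; exact map_zero (Tw.co g)
  | h1 a b c d =>
    rw [map_add, map_add]
    exact (map_add (Tw.co g) _ _).trans ((congrArg₂ (· + ·) c d).trans (Lb.ext rfl))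
  | h2 k a =>
    rw [phH_sg]
    by_cases e : g = k
    · subst e
      rw [co_sg]
      exact co_sg _ _
    · rw [co_sg_ne e]
      exact co_sg_ne e _

theorem phG_comp (g h : G) (a) (b) :
    phG x z (g * h) (cmp g h a b) = phG x y g a ≫ phG y z h b := by
  refine Mx.Mor.ext (funext₂ fun i l => ?_)
  obtain ⟨J, k⟩ := Mx.row a.1 i
  have e : phE (cmp g h a b) i l = ∑ j ∈ J, cmp g h (phE a i j) (phE b j l) := by
    refine Lb.ext (.trans ?_ (kfP_val J _).symm)
    have o : (cmp g h a b).1 = (a.1 ≫ (cone.map (B.ag g)).F.map b.1) ≫ eqToHom _ :=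
      (congrArg (a.1 ≫ _ ≫ ·) (Lb.eqToHom_val _)).trans (Category.assoc ..).symm
    refine (kfP_cg o i l).trans ((kfP_eq (A := B.ac) (X := z.as.A)
      (funext fun j => (Functor.congr_obj (B.ρ.mul g h) _).symm) _ _ i l).trans ?_)
    refine (congrArg (· ≫ _) (Mx.fs _ _ (.inl k))).trans ((Preadditive.sum_comp ..).trans
      (Finset.sum_congr rfl fun j _ => (Category.assoc ..).trans (congrArg (_ ≫ ·) ?_)))
    exact congrArg₂ (· ≫ ·) (kfS_map (B.ag g) b.1 j l) (Lb.eqToHom_val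
      (Functor.congr_obj ((Lb.act T.T B.ρ).mul g h) ⟨z.as.A.X l, z.as.t⟩).symm).symm
  have f := Mx.fs (J := J) (fun j => (phG x y g a).e i j) (fun j => (phG y z h b).e j l)
    (.inl fun j c => (congrArg (Tw.sg g) (Lb.ext (k j c))).trans (sg_zero g))
  refine (congrArg (Tw.sg (g * h)) e).trans (.trans ?_ f.symm)
  exact (kfP_sg _ J _).trans
    (Finset.sum_congr rfl fun j _ => (sg_comp ..).symm)

theorem phH_id (x : Tc (ap cone B).ρ T.T) : phH x x (𝟙 x) = 𝟙 _ := by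
  rw [one_def, phH_sg]
  refine Mx.Mor.ext (funext₂ fun i j => ?_)
  have o := (kfP_cg ((Lb.eqToHom_val (Functor.congr_obj (Lb.act T.T (ap cone B).ρ).one
    x.as).symm).trans (Category.id_comp _).symm) i j).trans
    (kfP_eq (A := B.ac) (X := x.as.A) (Y := x.as.A.X)
      (funext fun j => (Functor.congr_obj B.ρ.one (x.as.A.X j)).symm) _ (𝟙 _) i j)
  by_cases e : i = j
  · subst e
    refine .trans (congrArg (Tw.sg 1) (Lb.ext (o.trans ?_)))
      ((one_def _).symm.trans (kfP_id (phO B T x) i).symm)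
    exact ((congrArg (· ≫ _) (kfP_id (A := B.ac) x.as.A i)).trans (Category.id_comp _)).trans
      (Lb.eqToHom_val (Functor.congr_obj (Lb.act T.T B.ρ).one ⟨x.as.A.X i, x.as.t⟩).symm).symm
  · refine .trans (congrArg (Tw.sg 1) (Lb.ext (o.trans ?_)))
      ((sg_zero 1).trans (kfP_ne (phO B T x) e).symm)
    exact (congrArg (· ≫ _) (kfP_ne (A := B.ac) x.as.A e)).trans zero_comp

variable (B T) in
/-- The comparison functor. -/
noncomputable def phF : Tc (ap cone B).ρ T.T ⥤ Mx nat ((TC.obj B).obj T) where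
  obj := phO B T
  map f := phH _ _ f
  map_id := phH_id
  map_comp f g := by
    induction f using ind' with
    | h0 => simp
    | h1 a b c d => simp [c, d]
    | h2 x a =>
      induction g using ind' with
      | h0 => simp
      | h1 a b c d => simp [c, d]
      | h2 y b => rw [sg_comp, phH_sg, phH_sg, phH_sg, phG_comp]

instance : (phF B T).Additive := ⟨map_add (phH _ _) _ _⟩

theorem phF_kc : Kc (phF B T) (fun x => x.as.A.I.Finite) fun y => y.I.Finite where
  ff x y a b := by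
    classical
    refine ⟨fun f g e => co_ext fun k => Lb.ext (Mx.Mor.ext (funext₂ fun i j => ?_)), fun m => ?_⟩
    · exact congrArg Subtype.val ((phH_co f k i j).symm.trans
        ((congrArg (Tw.co k) (congrFun₂ (congrArg Mx.Mor.e e) i j)).trans (phH_co g k i j)))
    · have := a.fintype
      have := b.fintype
      choose s hs using fun (p : x.as.A.I × y.as.A.I) => co_fin (m.e p.1 p.2)
      let c (g : G) : x.as ⟶ ((Lb.act T.T (ap cone B).ρ).F g).obj y.as :=
        ⟨⟨fun i j => (Tw.co g (m.e i j)).1, m.ok.imp fun _ h i j d => h i j fun e =>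
          d (congrArg Subtype.val ((congrArg (Tw.co g) e).trans (map_zero _)))⟩,
          fun h => Mx.Mor.ext (funext₂ fun i j => (Tw.co g (m.e i j)).2 h)⟩
      refine ⟨∑ g ∈ Finset.univ.biUnion s, Tw.sg g (c g), Mx.Mor.ext (funext₂ fun i j =>
        co_ext fun k => (phH_co _ k i j).trans ?_)⟩
      rw [map_sum, Finset.sum_eq_single k (fun g _ e => co_sg_ne e.symm _) fun e => ?_, co_sg]
      · rfl
      · rw [co_sg]
        exact Lb.ext (Mx.Mor.ext (funext₂ fun i j => congrArg Subtype.val (hs (i, j) k fun d =>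
          e (Finset.mem_biUnion.2 ⟨_, Finset.mem_univ _, d⟩))))
  ret y a := by
    obtain ⟨n, e, r, i, h⟩ := kfP_fin y a
    exact ⟨n, fun l => ⟨⟨Inc.obj (B := B.ac) (y.X (e l)).as.A, (y.X (e l)).as.t⟩⟩, r, i,
      fun _ => Set.finite_singleton 0, h⟩

end Pool.Agent.Lib.MP_5d3e93_al.Br
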