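import Pool.Agent.Lib.MP_5d3e93_al.Br.KfP
import Pool.Agent.Lib.MP_5d3e93_al.Br.Lnk

/-! Suspension of the coefficients against suspension of the transport category. -/

open CategoryTheory Limits Function

namespace Pool.Agent.Lib.MP_5d3e93_al.Br

open Gr Am As A2

universe w v u u'

theorem kfQ_ext {D E E' : Type*} [Category* D] [Category* E] [Category* E'] (Q : D ⥤ E) [Q.Full]
    (s : ∀ y, ∃ x, Q.obj x = y) {F H : E ⥤ E'} (h : Q ⋙ F = Q ⋙ H) : F = H :=
  Functor.hext (fun y => (s y).elim fun x e => e ▸ Functor.congr_obj h x) fun y y' f => by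
    obtain ⟨x, rfl⟩ := s y
    obtain ⟨x', rfl⟩ := s y'
    obtain ⟨f, rfl⟩ := Q.map_surjective f
    exact Functor.hcongr_hom h f

section desc
variable {D E E' : Type*} [Category* D] [Category* E] [Category* E'] (Q : D ⥤ E) [Q.Full]
  (s : E → D) (hs : ∀ y, Q.obj (s y) = y) (H : D ⥤ E')
  (h : ∀ ⦃x y⦄ ⦃f g : x ⟶ y⦄, Q.map f = Q.map g → H.map f = H.map g)

/-- Descent along a full functor with a section on objects. -/
noncomputable def kfQ_desc : E ⥤ E' where
  obj y := H.obj (s y)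
  map f := H.map (Q.preimage (eqToHom (hs _) ≫ f ≫ eqToHom (hs _).symm))
  map_id _ := (h (by simp)).trans (H.map_id _)
  map_comp _ _ := (h (by simp)).trans (H.map_comp ..)

theorem kfQ_add [Preadditive D] [Preadditive E] [Preadditive E'] [Q.Additive] [H.Additive] :
    (kfQ_desc Q s hs H h).Additive := ⟨(h (by simp)).trans H.map_add⟩

theorem kfQ_fac (k : ∀ x, s (Q.obj x) = x) : Q ⋙ kfQ_desc Q s hs H h = H :=
  CategoryTheory.Functor.ext (fun x => congrArg H.obj (k x)) fun x y f =>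
    (h (g := eqToHom (k x) ≫ f ≫ eqToHom (k y).symm) (by simp [eqToHom_map])).trans
      ((H.map_comp ..).trans (congrArg₂ (· ≫ ·) (eqToHom_map ..)
        ((H.map_comp ..).trans (congrArg (_ ≫ ·) (eqToHom_map ..)))))

end desc

variable {G : Type v} [Group G]

theorem kfQ_co {C : Type u} [Category.{v} C] [Preadditive C] {D : Type u'} [Category.{v} D]
    [Preadditive D] {T T' : Type v} [MulAction G T] [MulAction G T'] {ρ : Act G C} {τ : Act G D}
    (f : Ef T T' ρ τ) {x y : Tc ρ T} (a : x ⟶ y) (g : G) :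
    HEq (Tw.co g (f.tc.map a)).1 (f.F.map (Tw.co g a).1) :=
  (heq_of_eq ((congrArg Subtype.val (co_twH _ _ g a)).trans
    (congrArg (_ ≫ ·) (Lb.eqToHom_val _)))).trans (comp_eqToHom_heq ..)

variable (B : Gc.{v, u} G)

open Gc Tw

/-- The comparison for the cone. -/
noncomputable def PH : TC.obj (ap cone B) ⟶ TC.obj B ⋙ cone where
  app T := @AC.Hom.mk _ _ (phF B T) (inferInstanceAs (phF B T).Additive)
  naturality T T' s := AC.ext (Functor.hext (fun _ => rfl) fun x y f => heq_of_eq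
    (Mx.Mor.ext (funext₂ fun i j => .trans (co_ext fun g => (phH_co _ g i j).trans (Lb.ext (by
      refine (kfP_cg (eq_of_heq (kfQ_co (Ef.of (𝟭 (ap cone B).C) (fun _ => rfl) s.1 s.2) f g))
        i j).trans ?_
      exact (congrArg Subtype.val (phH_co f g i j)).symm.trans (eq_of_heq
        (kfQ_co (Ef.of (𝟭 B.C) (fun _ => rfl) s.1 s.2) ((phH x y f).e i j) g)).symm)))
      (kfS_map ((TC.obj B).map s) (phH x y f) i j).symm)))

theorem j_PH : TC.map (j B) ≫ PH B = (TC.obj B).whiskerLeft incl :=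
  NatTrans.ext (funext fun T => AC.ext (Functor.hext (fun _ => rfl) fun _ _ f => heq_of_eq
    (Mx.Mor.ext (funext₂ fun i j => co_ext fun g => (phH_co _ g i j).trans (Lb.ext
      (kfP_cg (eq_of_heq (kfQ_co (Ef.fn T.T (Gc.j B).F (Gc.j B).e) f g)) i j))))))

theorem kf_q (T : Gs G) : Br.Kf ((TC.map (q B)).app T).F fun x => x.as.A.I.Finite :=
  (kf_cone B.ac).tc T.T (q B).e

variable (T : Gs G)

/-- The projection on transport categories. -/
noncomputable abbrev psQ : Tc (ap cone B).ρ T.T ⥤ Tc (ap susp B).ρ T.T := ((TC.map (q B)).app T).F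

instance : (psQ B T).Full := (kf_q B T).full

/-- The comparison followed by the projection. -/
noncomputable abbrev psH : Tc (ap cone B).ρ T.T ⥤ (susp.obj ((TC.obj B).obj T)).C :=
  (((PH B).app T ≫ proj.app _ :)).F

theorem ps_wd ⦃x y : Tc (ap cone B).ρ T.T⦄ ⦃f g : x ⟶ y⦄ (h : (psQ B T).map f = (psQ B T).map g) :
    (psH B T).map f = (psH B T).map g := by
  obtain ⟨s, hs⟩ := co_fin f
  obtain ⟨t, ht⟩ := co_fin g
  have k (a : G) := (kfS_eq (A := B.ac) (Tw.co a f).1 (Tw.co a g).1).1 (congrArg Subtype.val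
    ((cancel_mono _).1 ((co_twH _ _ a f).symm.trans ((congrArg (Tw.co a) h).trans
      (co_twH _ _ a g)))))
  refine (kfS_eq (phH x y f) (phH x y g)).2 (((s.finite_toSet.union t.finite_toSet).biUnion
    fun a _ => k a).subset fun p c => by_contra fun d => c (co_ext fun a => ?_))
  rw [phH_co, phH_co]
  by_cases e : a ∈ (s : Set G) ∪ t
  · exact Lb.ext (by_contra fun o => d (Set.mem_biUnion e o))
  · rw [hs a fun o => e (.inl o), ht a fun o => e (.inr o)]

variable {B T} in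
/-- An object over the cone. -/
def psS (y : Tc (ap susp B).ρ T.T) : Tc (ap cone B).ρ T.T := ⟨⟨y.as.A.as, y.as.t⟩⟩

/-- The comparison functor for the suspension. -/
noncomputable def psF : Tc (ap susp B).ρ T.T ⥤ (susp.obj ((TC.obj B).obj T)).C :=
  kfQ_desc (psQ B T) psS (fun _ => rfl) (psH B T) (ps_wd B T)

instance : (psF B T).Additive :=
  @kfQ_add _ _ _ _ _ _ _ _ _ _ _ _ _ _ _ ((TC.map (q B)).app T).add
    ((PH B).app T ≫ proj.app _ :).add

theorem ps_fac : psQ B T ⋙ psF B T = psH B T := kfQ_fac _ _ _ _ _ fun _ => rfl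

/-- The comparison for the suspension. -/
noncomputable def PS : TC.obj (ap susp B) ⟶ TC.obj B ⋙ susp where
  app T := @AC.Hom.mk _ _ (psF B T) (inferInstanceAs (psF B T).Additive)
  naturality T T' s := AC.ext (kfQ_ext (psQ B T) (kf_q B T).surj (by
    have a := congrArg AC.Hom.F ((TC.map (q B)).naturality s)
    have b := congrArg AC.Hom.F ((PH B ≫ (TC.obj B).whiskerLeft proj).naturality s)
    exact (congrArg (· ⋙ psF B T') a.symm).trans ((congrArg (_ ⋙ ·) (ps_fac B T')).trans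
      (b.trans (congrArg (· ⋙ _) (ps_fac B T).symm)))))

theorem q_PS : TC.map (q B) ≫ PS B = PH B ≫ (TC.obj B).whiskerLeft proj :=
  NatTrans.ext (funext fun T => AC.ext (ps_fac B T))

/-- The row of the cone. -/
noncomputable def RC' : AC.{v, u} ⥤ Rw.{v, u} where
  obj A := ⟨cone.obj A, susp.obj A, proj.app A, fun X : Mx nat A => X.I.Finite⟩
  map f := ⟨cone.map f, susp.map f, proj.naturality f, fun _ h => h⟩
  map_id _ := Rw.Hom.ext (cone.map_id _) (susp.map_id _)
  map_comp _ _ := Rw.Hom.ext (cone.map_comp ..) (susp.map_comp ..)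

/-- The row of the transport categories. -/
noncomputable def RT : Gs G ⥤ Rw.{v, max 1 u v} where
  obj T := ⟨(TC.obj (ap cone B)).obj T, (TC.obj (ap susp B)).obj T, (TC.map (q B)).app T,
    fun x => x.as.A.I.Finite⟩
  map s := ⟨(TC.obj _).map s, (TC.obj _).map s, (TC.map (q B)).naturality s, fun _ h => h⟩
  map_id _ := Rw.Hom.ext ((TC.obj _).map_id _) ((TC.obj _).map_id _)
  map_comp _ _ := Rw.Hom.ext ((TC.obj _).map_comp ..) ((TC.obj _).map_comp ..)

theorem good_PS : Good (PS B) :=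
  .row (R := RT B) (R' := TC.obj B ⋙ RC') ⟨fun T => ⟨(PH B).app T, (PS B).app T,
    (NatTrans.congr_app (q_PS B) T).symm, fun _ h => h⟩, fun _ _ s =>
      Rw.Hom.ext ((PH B).naturality s) ((PS B).naturality s)⟩
    (fun T => ⟨kf_q B T, fq_tc T.T (swd B)⟩) (fun _ => ⟨kf_cone _, fq_cone _⟩) fun _ => phF_kc

/-- The iterated suspension with its action. -/
noncomputable def gX (A : Gc.{v, u} G) : ℕ → Gc.{v, u} G := Nat.rec A fun _ B => ap susp B

/-- The tower of coefficient categories. -/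
noncomputable def gtw (A : Gc.{v, u} G) : Ft (Gc.{v, u} G) :=
  ⟨gX A, fun k => ap cone (gX A k), fun _ => j _, fun _ => q _⟩

theorem gtw_ok (A : Gc.{v, u} G) : (∀ k x, IsZero (((gtw A).i k ≫ (gtw A).q k).F.obj x)) ∧
    ∀ k, Swd ((gtw A).P k).ρ fun _ => True :=
  ⟨fun k x => (kf_cone (gX A k).ac).kill (Inc.obj x) (Set.finite_singleton 0), fun _ => swd _⟩

variable {A : Gc.{v, u} G} {X X' : Dl ⥤ Gs G} {D D' : As.SA.{v, max 1 u v}}

/-- The comparison on the suspensions. -/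
noncomputable def cmA (P : X ⋙ TC.obj A ⟶ D) : ∀ k, X ⋙ TC.obj (gX A k) ⟶ Sg D k :=
  Nat.rec P fun k c => X.whiskerLeft (PS (gX A k)) ≫ Functor.whiskerRight c susp

/-- The comparison on the cones. -/
noncomputable def cmB (P : X ⋙ TC.obj A ⟶ D) (k : ℕ) :
    X ⋙ TC.obj (ap cone (gX A k)) ⟶ Sg D k ⋙ cone :=
  X.whiskerLeft (PH (gX A k)) ≫ Functor.whiskerRight (cmA P k) cone

theorem cm_good {P : X ⋙ TC.obj A ⟶ D} (h : Good P) : ∀ k, Good (cmA P k)
  | 0 => h
  | k + 1 => ((good_PS _).pre X).comp (cm_good h k).susp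

theorem cm_i (P : X ⋙ TC.obj A ⟶ D) (k : ℕ) : X.whiskerLeft (TC.map (j (gX A k))) ≫ cmB P k =
    cmA P k ≫ (Sg D k).whiskerLeft incl := NatTrans.ext (funext fun p =>
  (congrArg (· ≫ cone.map ((cmA P k).app p)) (NatTrans.congr_app (j_PH _) (X.obj p))).trans
    (incl.naturality ((cmA P k).app p)).symm)

theorem cm_q (P : X ⋙ TC.obj A ⟶ D) (k : ℕ) : X.whiskerLeft (TC.map (q (gX A k))) ≫ cmA P (k + 1) =
    cmB P k ≫ (Sg D k).whiskerLeft proj := NatTrans.ext (funext fun p =>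
  (congrArg (· ≫ susp.map ((cmA P k).app p)) (NatTrans.congr_app (q_PS _) (X.obj p))).trans
    (congrArg ((PH _).app (X.obj p) ≫ ·) (proj.naturality ((cmA P k).app p)).symm))

variable {P : X ⋙ TC.obj A ⟶ D} {P' : X' ⋙ TC.obj A ⟶ D'} {α : X ⟶ X'} {φ : D ⟶ D'}

theorem cm_step {B B' : Gc.{v, u} G} {F : AC.{v, max 1 u v} ⥤ AC.{v, max 1 u v}}
    (τ : TC.obj B' ⟶ TC.obj B ⋙ F) {P : X ⋙ TC.obj B ⟶ D} {P' : X' ⋙ TC.obj B ⟶ D'}
    (h : Functor.whiskerRight α (TC.obj B) ≫ P' = P ≫ φ) :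
    Functor.whiskerRight α (TC.obj B') ≫ X'.whiskerLeft τ ≫ Functor.whiskerRight P' F =
      (X.whiskerLeft τ ≫ Functor.whiskerRight P F) ≫ Functor.whiskerRight φ F :=
  NatTrans.ext (funext fun p => (congrArg (· ≫ F.map (P'.app p)) (τ.naturality (α.app p))).trans
    (congrArg (τ.app (X.obj p) ≫ ·) ((F.map_comp ..).symm.trans
      ((congrArg F.map (NatTrans.congr_app h p)).trans (F.map_comp ..)))))

theorem cm_a (h : Functor.whiskerRight α (TC.obj A) ≫ P' = P ≫ φ) :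
    ∀ k, Functor.whiskerRight α (TC.obj (gX A k)) ≫ cmA P' k = cmA P k ≫ Sgm φ k
  | 0 => h
  | k + 1 => cm_step (PS _) (cm_a h k)

theorem cm_b (h : Functor.whiskerRight α (TC.obj A) ≫ P' = P ≫ φ) (k : ℕ) :
    Functor.whiskerRight α (TC.obj (ap cone (gX A k))) ≫ cmB P' k =
      cmB P k ≫ Functor.whiskerRight (Sgm φ k) cone := cm_step (PH _) (cm_a h k)

variable (X) in
/-- The comparison of towers. -/
noncomputable def cmpH (P : X ⋙ TC.obj A ⟶ D) :
    Ft.Hom (((gtw A).map TC).map ((Functor.whiskeringLeft _ _ _).obj X)) (ft D) :=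
  ⟨cmA P, cmB P, cm_i P, cm_q P⟩

theorem cmp_good (h : Good P) (k : ℕ) : Good ((cmpH X P).a k) := cm_good h k

theorem cmp_sq (α : X ⟶ X') (φ : D ⟶ D') (e : Functor.whiskerRight α (TC.obj A) ≫ P' = P ≫ φ)
    (k : ℕ) :
    ((((gtw A).map TC).nat ((Functor.whiskeringLeft _ _ _).map α)).a k ≫ (cmpH X' P').a k =
      (cmpH X P).a k ≫ (ftm φ).a k) ∧
    (((gtw A).map TC).nat ((Functor.whiskeringLeft _ _ _).map α)).b k ≫ (cmpH X' P').b k =
      (cmpH X P).b k ≫ (ftm φ).b k := ⟨cm_a e k, cm_b e k⟩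

theorem tc_am (B : Gc.{v, u} G) : TC.obj B ⋙ AM.{v, max 1 u v} = EG.obj (B.g ⊤) := rfl

end Pool.Agent.Lib.MP_5d3e93_al.Br
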