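import Pool.Agent.Lib.MP_5d3e93_al.Br.KfU
import Pool.Agent.Lib.MP_5d3e93_al.Br.KT
import Pool.Agent.Lib.MP_5d3e93_al.Br.AM

/-! Rows of additive functors and maps that stay equivalences under suspension. -/

open CategoryTheory Limits Function

namespace Pool.Agent.Lib.MP_5d3e93_al.Br

open Gr Am As A2

universe w v u v' u'

set_option linter.checkUnivs false in
/-- A functor and a class of objects of its source. -/
structure Rw where
  A : AC.{v, u}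
  Q : AC.{v, u}
  p : A ⟶ Q
  P : ObjectProperty A.C

namespace Rw

/-- Maps of rows. -/
@[ext] structure Hom (R R' : Rw.{v, u}) where
  a : R.A ⟶ R'.A
  c : R.Q ⟶ R'.Q
  w : a ≫ R'.p = R.p ≫ c
  m : R.P ≤ R'.P.inverseImage a.F

instance : Category Rw.{v, u} where
  Hom := Hom
  id R := ⟨𝟙 _, 𝟙 _, rfl, le_rfl⟩
  comp f g := ⟨f.a ≫ g.a, f.c ≫ g.c, by rw [Category.assoc, g.w, reassoc_of% f.w],
    fun _ h => g.m _ (f.m _ h)⟩

/-- The source. -/
def fA : Rw.{v, u} ⥤ AC.{v, u} where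
  obj R := R.A
  map f := f.a

/-- The target. -/
def fQ : Rw.{v, u} ⥤ AC.{v, u} where
  obj R := R.Q
  map f := f.c

/-- The functor of the row. -/
def fp : fA.{v, u} ⟶ fQ := ⟨fun R => R.p, fun _ _ f => f.w⟩

/-- The thick closure of the class. -/
noncomputable def fN : Rw.{v, max u v} ⥤ Tp.{v, max 1 u} where
  obj R := ⟨mam.{v, u} R.A.C, mg.{v, u} ⊤ ⊓ Th (mg.{v, u} R.P)⟩
  map f := ⟨mm.{v, u, u} f.a.F, fun X h =>
    ⟨mm_maps _ le_top X h.1, th_maps _ (mm_maps _ f.m) X h.2⟩⟩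

/-- Its inclusion. -/
noncomputable def fi : fN.{v, u} ⟶ fA ⋙ AM.{v, u} :=
  ⟨fun R => ⟨(mam.{v, u} R.A.C).idm, fun _ h => h.1⟩, fun _ _ _ => rfl⟩

/-- The suspension of a row. -/
noncomputable def S : Rw.{v, u} ⥤ Rw.{v, u} where
  obj R := ⟨susp.obj R.A, susp.obj R.Q, susp.map R.p, sP R.P⟩
  map f := ⟨susp.map f.a, susp.map f.c, by rw [← susp.map_comp, f.w, susp.map_comp],
    fun _ h i => f.m _ (h i)⟩
  map_id _ := Hom.ext (susp.map_id _) (susp.map_id _)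
  map_comp _ _ := Hom.ext (susp.map_comp ..) (susp.map_comp ..)

/-- Filtrations of categories with a swindle. -/
def Ok (R : Rw.{v, u}) : Prop := Kf R.p.F R.P ∧ Fq R.A.C

theorem Ok.S {R : Rw.{v, u}} (h : R.Ok) : (S.obj R).Ok := ⟨h.1.susp, h.2.susp⟩

theorem Ok.th {R : Rw.{v, max u v}} (h : R.Ok) :
    mg.{v, u} ⊤ ⊓ Th (mg.{v, u} R.P) = Th (mg.{v, u} R.P) := inf_eq_right.2
  ((th_mono ((mg_mono le_top).trans mg_top.le)).trans (h.2.z.2.trans mg_top.ge))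

theorem Ok.lc {R : Rw.{v, max u v}} (h : R.Ok) : Lc3 (fi.{v, u}.app R) (AM.{v, u}.map R.p) := by
  have k : Gr.Loc (mm.{v, u, u} R.p.F).D (mg.{v, u} ⊤ ⊓ Th (mg.{v, u} R.P)) (mg.{v, u} ⊤)
      (mg.{v, u} ⊤) := by
    rw [h.th, mg_top, mg_top]
    exact h.1.loc h.2
  exact .mk (a := mam.{v, u} R.A.C) (S := mg.{v, u} (⊤ : ObjectProperty R.A.C)) _ _ rfl k

end Rw

variable {J : Type u'} [Category.{v'} J]

theorem fq_acy {K : (J ⥤ Tp.{v, max 1 u}) ⥤ Pre.{w}} (h : KT K) (X : J ⥤ AC.{v, max u v})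
    (k : ∀ p, Fq (X.obj p).C) : (K.obj (X ⋙ AM.{v, u})).Acy :=
  h.z _ fun p => by
    change Z (mg.{v, u} (⊤ : ObjectProperty (X.obj p).C))
    rw [mg_top]
    exact (k p).z.1

open Functor Rw in
theorem rw_bij {K : (J ⥤ Tp.{v, max 1 u}) ⥤ Pre.{w}} (h : KT K) {R R' : J ⥤ Rw.{v, max u v}}
    (ρ : R ⟶ R') (a : ∀ p, (R.obj p).Ok) (b : ∀ p, (R'.obj p).Ok)
    (c : ∀ p, Kc (ρ.app p).a.F (R.obj p).P (R'.obj p).P) (n : ℤ) :
    Bijective (Pre.map n (K.map (whiskerRight (whiskerRight ρ fQ) AM.{v, u}))) := by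
  let q : fA ⋙ AM.{v, u} ⟶ fQ ⋙ AM.{v, u} := whiskerRight fp AM.{v, u}
  have l (R : J ⥤ Rw.{v, max u v}) (a : ∀ p, (R.obj p).Ok) (p) :
    Lc3 ((whiskerLeft R fi.{v, u}).app p) ((whiskerLeft R q).app p) := (a p).lc
  refine Pre.Nl.bij_right (a := K.map (whiskerRight ρ fN.{v, u}))
    (b := K.map (whiskerRight ρ (fA ⋙ AM.{v, u}))) (h.nl _ _ fun p => (l R a p).kill)
    (h.nl _ _ fun p => (l R' b p).kill) ?_ ?_ (h.loc _ _ (l R a) _) (h.loc _ _ (l R' b) _)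
    (h.deq _ fun p => ?_) (Pre.bij_of_acy (fq_acy h (R ⋙ fA) fun p => (a p).2)
      (fq_acy h (R' ⋙ fA) fun p => (b p).2) _) n
  · rw [← K.map_comp, ← K.map_comp, whiskerLeft_comp_whiskerRight]
  · exact (K.map_comp ..).symm.trans ((congrArg K.map
      (whiskerLeft_comp_whiskerRight ρ q)).trans (K.map_comp ..))
  · change Deq (mm.{v, u, u} (ρ.app p).a.F).D (mg.{v, u} ⊤ ⊓ Th (mg.{v, u} _))
      (mg.{v, u} ⊤ ⊓ Th (mg.{v, u} _))
    rw [(a p).th, (b p).th]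
    exact (c p).deq (ρ.app p).m (a p).2

/-- Bijective on morphisms and onto on objects. -/
def Ke {A B : AC.{v, u}} (f : A ⟶ B) : Prop :=
  (∀ x y, Bijective (f.F.map : (x ⟶ y) → _)) ∧ ∀ y, ∃ x, f.F.obj x = y

theorem Ke.susp {A B : AC.{v, u}} {f : A ⟶ B} (h : Ke f) : Ke (susp.map f) :=
  ⟨fun x y => susp_ff (P := ⊤) (fun x y _ _ => h.1 x y) x y (fun _ => trivial) fun _ => trivial,
    susp_surj h.2⟩

theorem Ke.deq {A B : AC.{v, max u v}} {f : A ⟶ B} (h : Ke f) :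
    Deq (mm.{v, u, u} f.F).D (mg.{v, u} ⊤) (mg.{v, u} ⊤) :=
  have : f.F.Full := ⟨(h.1 _ _).2⟩
  have : f.F.Faithful := ⟨fun e => (h.1 _ _).1 e⟩
  mm_deq _ le_top fun y _ => (h.2 y).elim fun x e => mg_mo ⟨x, trivial, ⟨eqToIso e⟩⟩

/-- Maps of diagrams all of whose suspensions are equivalences in K-theory. -/
inductive Good : ∀ {X Y : J ⥤ AC.{v, u}}, (X ⟶ Y) → Prop
  | eqv {X Y : J ⥤ AC.{v, u}} (f : X ⟶ Y) : (∀ p, Ke (f.app p)) → Good f
  | comp {X Y Z : J ⥤ AC.{v, u}} {f : X ⟶ Y} {g : Y ⟶ Z} :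
      Good f → Good g → Good (f ≫ g)
  | row {R R' : J ⥤ Rw.{v, u}} (ρ : R ⟶ R') : (∀ p, (R.obj p).Ok) → (∀ p, (R'.obj p).Ok) →
      (∀ p, Kc (ρ.app p).a.F (R.obj p).P (R'.obj p).P) → Good (Functor.whiskerRight ρ Rw.fQ)

theorem Good.susp {X Y : J ⥤ AC.{v, u}} {f : X ⟶ Y} (h : Good f) :
    Good (Functor.whiskerRight f susp) := by
  induction h with
  | eqv f a => exact .eqv _ fun p => (a p).susp
  | comp _ _ a b =>
    rw [Functor.whiskerRight_comp]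
    exact a.comp b
  | row ρ a b c =>
    exact .row (Functor.whiskerRight ρ Rw.S) (fun p => (a p).S) (fun p => (b p).S)
      fun p => (c p).susp

theorem Good.pre {J' : Type*} [Category* J'] (E : J' ⥤ J) {X Y : J ⥤ AC.{v, u}} {f : X ⟶ Y}
    (h : Good f) : Good (E.whiskerLeft f) := by
  induction h with
  | eqv f a => exact .eqv _ fun p => a _
  | comp _ _ a b => exact a.comp b
  | row ρ a b c => exact .row (E.whiskerLeft ρ) (fun _ => a _) (fun _ => b _) fun _ => c _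

theorem Good.bij {K : (J ⥤ Tp.{v, max 1 u}) ⥤ Pre.{w}} (k : KT K) {X Y : J ⥤ AC.{v, max u v}}
    {f : X ⟶ Y} (h : Good f) (n : ℤ) :
    Bijective (Pre.map n (K.map (Functor.whiskerRight f AM.{v, u}))) := by
  induction h with
  | eqv f a => exact k.deq _ (fun p => (a p).deq) n
  | comp _ _ a b =>
    rw [Functor.whiskerRight_comp, K.map_comp]
    exact Pre.bij_comp a b
  | row ρ a b c => exact rw_bij k ρ a b c n

end Pool.Agent.Lib.MP_5d3e93_al.Br
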