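import Pool.Agent.Lib.MP_5d3e93_al.Br.KfA
import Pool.Agent.Lib.MP_5d3e93_al.Br.DefC

/-! The suspension keeps filtrations, fully faithful functors and swindles. -/

open CategoryTheory Limits

namespace Pool.Agent.Lib.MP_5d3e93_al.Br

open Gr As

universe v u

variable {A B : AC.{v, u}}

/-- Families with all members in a class. -/
def sP (P : ObjectProperty A.C) : ObjectProperty (susp.obj A).C := fun X => ∀ i, P (X.as.X i)

/-- A family with the index set and the heights of `X`. -/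
def kfS_ob (X : Mx nat A) (Y : X.I → B.C) : Mx nat B := ⟨X.I, Y, X.π, X.fin⟩

section dm
variable {X : Mx nat A} {Y Y' Y'' : X.I → B.C} {W : Mx nat B}

open Classical in
/-- Diagonal matrices. -/
noncomputable def kfS_dm (d : ∀ i, Y i ⟶ Y' i) : kfS_ob X Y ⟶ kfS_ob X Y' :=
  ⟨fun i j : X.I => if h : i = j then d i ≫ eqToHom (congrArg Y' h) else 0,
    0, fun i j : X.I => fun c => by
      obtain rfl : i = j := by_contra fun b => c (dif_neg b)
      exact ⟨trivial, trivial, trivial, le_rfl, le_rfl⟩⟩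

theorem kfS_self (d : ∀ i, Y i ⟶ Y' i) (i : X.I) : (kfS_dm d).e i i = d i :=
  (dif_pos rfl).trans (Category.comp_id _)

theorem kfS_ne (d : ∀ i, Y i ⟶ Y' i) {i j : X.I} (h : i ≠ j) : (kfS_dm d).e i j = 0 := dif_neg h

theorem kfS_left (d : ∀ i, Y i ⟶ Y' i) (a : kfS_ob X Y' ⟶ W) (i : X.I) (j : W.I) :
    (kfS_dm d ≫ a).e i j = d i ≫ a.e i j :=
  (finsum_eq_single (fun l : X.I => (kfS_dm d).e i l ≫ a.e l j) i fun l c => by
    rw [kfS_ne d c.symm, zero_comp]).trans (congrArg (· ≫ a.e i j) (kfS_self d i))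

theorem kfS_right (d : ∀ i, Y i ⟶ Y' i) (a : W ⟶ kfS_ob X Y) (i : W.I) (j : X.I) :
    (a ≫ kfS_dm d).e i j = a.e i j ≫ d j :=
  (finsum_eq_single (fun l : X.I => a.e i l ≫ (kfS_dm d).e l j) j fun l c => by
    rw [kfS_ne d c, comp_zero]).trans (congrArg (a.e i j ≫ ·) (kfS_self d j))

theorem kfS_comp (d : ∀ i, Y i ⟶ Y' i) (d' : ∀ i, Y' i ⟶ Y'' i) :
    kfS_dm d ≫ kfS_dm d' = kfS_dm fun i => d i ≫ d' i :=
  Mx.Mor.ext (funext₂ fun i j : X.I => (kfS_left d (kfS_dm d') i j).trans (by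
    by_cases h : i = j
    · subst h
      exact (congrArg (d i ≫ ·) (kfS_self d' i)).trans (kfS_self (fun i => d i ≫ d' i) i).symm
    · exact (congrArg (d i ≫ ·) (kfS_ne d' h)).trans (comp_zero.trans (kfS_ne _ h).symm)))

theorem kfS_add (d d' : ∀ i, Y i ⟶ Y' i) :
    kfS_dm d + kfS_dm d' = kfS_dm fun i => d i + d' i :=
  Mx.Mor.ext (funext₂ fun i j : X.I => by
    change (kfS_dm d).e i j + (kfS_dm d').e i j = _
    by_cases h : i = j
    · subst h
      rw [kfS_self, kfS_self, kfS_self]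
      rfl
    · rw [kfS_ne _ h, kfS_ne _ h, kfS_ne _ h, add_zero])

theorem kfS_id {d : ∀ i, Y i ⟶ Y i} (h : ∀ i, d i = 𝟙 _) : kfS_dm d = 𝟙 (kfS_ob X Y) :=
  Mx.Mor.ext (funext₂ fun i j : X.I => by
    by_cases k : i = j
    · subst k
      have : i = i ∧ nat.U ((kfS_ob X Y).π i) := ⟨rfl, trivial⟩
      exact (kfS_self d i).trans ((h i).trans (.symm ((dif_pos this).trans rfl)))
    · have : ¬(i = j ∧ nat.U ((kfS_ob X Y).π i)) := fun c => k c.1
      have e : Mx.idE (kfS_ob X Y) i j = 0 := dif_neg this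
      exact (kfS_ne d k).trans e.symm)

end dm

theorem kfS_map (F : A ⟶ B) {X Y : Mx nat A} (a : X ⟶ Y) (i : X.I) (j : Y.I) :
    ((Mx.map nat.id F).map a).e i j = F.F.map (a.e i j) := if_pos ⟨trivial, trivial⟩

theorem kfS_eq {X Y : Mx nat A} (a b : X ⟶ Y) : (Gm.qF A).map a = (Gm.qF A).map b ↔
    {p : X.I × Y.I | a.e p.1 p.2 ≠ b.e p.1 p.2}.Finite := Quotient.functor_map_eq_iff (Gm A) a b

theorem kfS_rep {x y : (susp.obj A).C} (f : x ⟶ y) :
    ∃ a : x.as ⟶ y.as, (Gm.qF A).map a = f := (Quotient.functor (Gm A)).map_surjective f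

theorem kfS_full (p : A ⟶ B) (x y : (susp.obj A).C)
    (h : ∀ i j, Function.Surjective (p.F.map : (x.as.X i ⟶ y.as.X j) → _)) :
    Function.Surjective ((susp.map p).F.map : (x ⟶ y) → _) := fun g => by
  classical
  obtain ⟨b, rfl⟩ := kfS_rep g
  choose c hc using fun (i : x.as.I) (j : y.as.I) => h i j (b.e i j)
  let a : x.as ⟶ y.as := ⟨fun i j => if b.e i j = 0 then 0 else c i j,
    b.ok.imp fun r k i j e => k i j fun o => e (if_pos o)⟩
  refine ⟨(Gm.qF A).map a, congrArg (Gm.qF B).map (Mx.Mor.ext (funext₂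
    fun (i : x.as.I) (j : y.as.I) => (kfS_map p a i j).trans ?_))⟩
  change p.F.map (if b.e i j = 0 then 0 else c i j) = _
  split_ifs with o
  · exact (p.F.map_zero _ _).trans o.symm
  · exact hc i j

theorem susp_ff {a : A ⟶ B} {P : ObjectProperty A.C}
    (h : ∀ x y, P x → P y → Function.Bijective (a.F.map : (x ⟶ y) → _)) (x y) (k : sP P x)
    (l : sP P y) : Function.Bijective ((susp.map a).F.map : (x ⟶ y) → _) := by
  refine ⟨fun f g e => ?_, kfS_full a x y fun i j => (h _ _ (k i) (l j)).2⟩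
  obtain ⟨f, rfl⟩ := kfS_rep f
  obtain ⟨g, rfl⟩ := kfS_rep g
  refine (kfS_eq f g).2 (((kfS_eq ((Mx.map nat.id a).map f) ((Mx.map nat.id a).map g)).1 e).subset
    fun p c d => c ((h _ _ (k p.1) (l p.2)).1 ?_))
  exact (kfS_map a f p.1 p.2).symm.trans (d.trans (kfS_map a g p.1 p.2))

theorem susp_surj {a : A ⟶ B} (h : ∀ y, ∃ x, a.F.obj x = y) (y) :
    ∃ x, (susp.map a).F.obj x = y := by
  obtain ⟨I, Y, π, f⟩ := y
  choose x hx using fun i => h (Y i)
  obtain rfl : (fun i => a.F.obj (x i)) = Y := funext hx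
  exact ⟨⟨⟨I, x, π, f⟩⟩, rfl⟩

/-- Row by row; in `cut` first change representatives of the `f j` in finitely many entries so that
`p` kills every entry, then cut each `x.X i` along the finitely many entries in row `i`; `x'`, `z`
keep `I` and `π`, the four maps are diagonal. -/
theorem Kf.susp {p : A ⟶ B} {P : ObjectProperty A.C} (h : Kf p.F P) :
    Kf (susp.map p).F (sP P) := by
  have := h.full
  have := @Gm.q_add A
  have := @Gm.q_add B
  refine ⟨⟨fun {x y} => kfS_full p x y fun _ _ => p.F.map_surjective⟩, susp_surj h.surj,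
    fun x k => ?_, fun x ι s y f z => ?_⟩
  · refine (Gm.qF B).map_isZero (X := (Mx.map nat.id p).obj x.as) ?_
    rw [IsZero.iff_id_eq_zero]
    exact Mx.Mor.ext (funext₂ fun i j => (h.kill _ (k i)).eq_of_src _ _)
  · classical
    choose b hb using fun j => kfS_rep (f j)
    let a : ∀ j, x.as ⟶ (y j).as := fun j =>
      ⟨fun i l => if p.F.map ((b j).e i l) = 0 then (b j).e i l else 0,
        (b j).ok.imp fun r k i l e => k i l fun o => e (ite_eq_right_iff.2 fun _ => o)⟩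
    have ha : ∀ j, (Gm.qF A).map (a j) = f j := fun j => by
      have e : (Gm.qF B).map ((Mx.map nat.id p).map (b j)) = (Gm.qF B).map 0 :=
        ((congrArg (As.susp.map p).F.map (hb j)).trans (z j)).trans ((Gm.qF B).map_zero _ _).symm
      refine ((kfS_eq (a j) (b j)).2 (((kfS_eq _ _).1 e).subset fun q c d => c ?_)).trans (hb j)
      exact if_pos ((kfS_map p (b j) q.1 q.2).symm.trans d)
    have hp : ∀ j i l, p.F.map ((a j).e i l) = 0 := fun j i l => by
      change p.F.map (if _ then _ else _) = 0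
      split_ifs with o
      exacts [o, p.F.map_zero _ _]
    choose J hJ using fun j i => Mx.row (a j) i
    choose x' c m q sp hc hm using fun i : x.as.I => h.cut (x.as.X i) (ι := Σ j, (y j).as.I)
      (s.sigma fun j => J j i) (fun t => (y t.1).as.X t.2) (fun t => (a t.1).e i t.2)
      fun t => hp _ _ _
    choose r t h1 h2 h3 using sp
    refine ⟨(Gm.qF A).obj (kfS_ob x.as x'), (Gm.qF A).obj (kfS_ob x.as c),
      (Gm.qF A).map (kfS_dm m), (Gm.qF A).map (kfS_dm q),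
      ⟨(Gm.qF A).map (kfS_dm r), (Gm.qF A).map (kfS_dm t), ?_, ?_, ?_⟩, hc, fun j hj => ?_⟩
    · exact ((Gm.qF A).map_comp _ _).symm.trans ((congrArg (Gm.qF A).map
        ((kfS_comp m r).trans (kfS_id h1))).trans ((Gm.qF A).map_id _))
    · exact ((Gm.qF A).map_comp _ _).symm.trans ((congrArg (Gm.qF A).map
        ((kfS_comp t q).trans (kfS_id h2))).trans ((Gm.qF A).map_id _))
    · refine (congrArg₂ (· + ·) ((Gm.qF A).map_comp _ _).symm ((Gm.qF A).map_comp _ _).symm).trans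
        ((Gm.qF A).map_add.symm.trans ((congrArg (Gm.qF A).map ?_).trans ((Gm.qF A).map_id _)))
      exact (congrArg₂ (· + ·) (kfS_comp r m) (kfS_comp q t)).trans ((kfS_add _ _).trans (kfS_id h3))
    · rw [← ha j]
      refine ((Gm.qF A).map_comp _ _).symm.trans ((congrArg (Gm.qF A).map ?_).trans
        ((Gm.qF A).map_zero _ _))
      refine Mx.Mor.ext (funext₂ fun (i : x.as.I) l => (kfS_left m (a j) i l).trans ?_)
      by_cases o : l ∈ J j i
      · exact hm i ⟨j, l⟩ (Finset.mem_sigma.2 ⟨hj, o⟩)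
      · exact (congrArg (m i ≫ ·) (hJ j i l o)).trans comp_zero

/-- The transformation of suspensions given by a transformation. -/
noncomputable def kfS_nt {F H : A ⟶ B} (t : F.F ⟶ H.F) : (susp.map F).F ⟶ (susp.map H).F where
  app x := (Gm.qF B).map (kfS_dm (X := x.as) fun i => t.app (x.as.X i))
  naturality x y f := by
    obtain ⟨a, rfl⟩ := kfS_rep f
    refine ((Gm.qF B).map_comp ((Mx.map nat.id F).map a) _).symm.trans (.trans
      (congrArg (Gm.qF B).map ?_) ((Gm.qF B).map_comp _ ((Mx.map nat.id H).map a)))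
    refine Mx.Mor.ext (funext₂ fun (i : x.as.I) (j : y.as.I) =>
      (kfS_right (fun i => t.app (y.as.X i)) ((Mx.map nat.id F).map a) i j).trans (.trans ?_
        (kfS_left (fun i => t.app (x.as.X i)) ((Mx.map nat.id H).map a) i j).symm))
    exact (congrArg (· ≫ _) (kfS_map F a i j)).trans ((t.naturality _).trans
      (congrArg (_ ≫ ·) (kfS_map H a i j).symm))

theorem kfS_nt_comp {F H K : A ⟶ B} (s : F.F ⟶ H.F) (t : H.F ⟶ K.F) :
    kfS_nt s ≫ kfS_nt t = kfS_nt (s ≫ t) := NatTrans.ext (funext fun _ =>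
  ((Gm.qF B).map_comp _ _).symm.trans (congrArg (Gm.qF B).map (kfS_comp _ _)))

theorem kfS_nt_add {F H : A ⟶ B} (s t : F.F ⟶ H.F) :
    kfS_nt s + kfS_nt t = kfS_nt (s + t) := NatTrans.ext (funext fun _ =>
  (@Gm.q_add B).map_add.symm.trans (congrArg (Gm.qF B).map (kfS_add _ _)))

theorem kfS_nt_id {F : A ⟶ B} {s : F.F ⟶ F.F} (h : s = 𝟙 _) : kfS_nt s = 𝟙 _ :=
  NatTrans.ext (funext fun _ => (congrArg (Gm.qF B).map
    (kfS_id fun _ => NatTrans.congr_app h _)).trans ((Gm.qF B).map_id _))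

/-- Diagonal matrices. -/
theorem Fq.susp (h : Fq A.C) : Fq (susp.obj A).C := by
  obtain ⟨Φ, _, i, r, i', r', h1, h2, h3⟩ := h
  let F : A ⟶ A := ⟨Φ⟩
  have k : ∃ (i : (As.susp.map (𝟙 A)).F ⟶ (As.susp.map F).F)
      (r : (As.susp.map F).F ⟶ (As.susp.map (𝟙 A)).F)
      (i' r' : (As.susp.map F).F ⟶ (As.susp.map F).F),
      i ≫ r = 𝟙 _ ∧ i' ≫ r' = 𝟙 _ ∧ r ≫ i + r' ≫ i' = 𝟙 _ :=
    ⟨kfS_nt i, kfS_nt r, kfS_nt i', kfS_nt r', (kfS_nt_comp _ _).trans (kfS_nt_id h1),
      (kfS_nt_comp _ _).trans (kfS_nt_id h2), (congrArg₂ (· + ·) (kfS_nt_comp _ _)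
        (kfS_nt_comp _ _)).trans ((kfS_nt_add _ _).trans (kfS_nt_id h3))⟩
  rw [As.susp.map_id] at k
  exact ⟨_, inferInstance, k⟩

end Pool.Agent.Lib.MP_5d3e93_al.Br
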