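import Pool.Agent.Lib.MP_5d3e93_al.Br.KfA
import Pool.Agent.Lib.MP_5d3e93_al.Br.DefC

/-! The shift swindle of the cone and its filtration by finite families. -/

open CategoryTheory Limits

namespace Pool.Agent.Lib.MP_5d3e93_al.Br

open Gr As

universe v u

variable {A B : AC.{v, u}}

section
variable {X Y W : Mx nat B}

theorem kfw_ext {a b : X ⟶ Y} (h : ∀ i j, a.e i j = b.e i j) : a = b := Mx.Mor.ext (funext₂ h)

theorem kfw_ok (a : X ⟶ Y) : ∃ r : ℕ, ∀ i j, a.e i j ≠ 0 →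
    nat.h (X.π i) ≤ nat.h (Y.π j) + r ∧ nat.h (Y.π j) ≤ nat.h (X.π i) + r :=
  a.ok.imp fun _ h i j c => (h i j c).2.2.2

theorem kfw_id_self (i : X.I) : (𝟙 X : X ⟶ X).e i i = 𝟙 _ :=
  (dif_pos (c := i = i ∧ nat.U (X.π i)) ⟨rfl, trivial⟩).trans rfl

theorem kfw_id_ne {i j : X.I} (h : i ≠ j) : (𝟙 X : X ⟶ X).e i j = 0 :=
  dif_neg (c := i = j ∧ nat.U (X.π i)) fun c => h c.1

theorem kfw_map (H : A ⟶ B) {X Y : Mx nat A} (a : X ⟶ Y) (i : X.I) (j : Y.I) :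
    Mx.Mor.e ((cone.map H).F.map a) i j = H.F.map (a.e i j) := if_pos ⟨trivial, trivial⟩

/-- The first coordinate. -/
def kfwF (X : Mx nat B) (n : {n : ℕ | n.unpair.1 ∈ X.I}) : X.I := ⟨n.1.unpair.1, n.2⟩

/-- The index with given coordinates. -/
def kfwP (j : X.I) (k : ℕ) : {n : ℕ | n.unpair.1 ∈ X.I} := ⟨Nat.pair j k, by simp⟩

theorem kfw_FP (j : X.I) (k : ℕ) : kfwF X (kfwP j k) = j := Subtype.ext (by simp [kfwF, kfwP])

theorem kfw_PF (n) : kfwP (kfwF X n) n.1.unpair.2 = n := Subtype.ext (Nat.pair_unpair _)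

theorem kfw_snd (j : X.I) (k : ℕ) : (kfwP j k).1.unpair.2 = k := by simp [kfwP]

/-- The sum of all shifts. -/
def kfwS (X : Mx nat B) : Mx nat B where
  I := {n | n.unpair.1 ∈ X.I}
  X n := X.X (kfwF X n)
  π n := (nat.h (X.π (kfwF X n)) + n.1.unpair.2 : ℕ)
  fin r := (((X.fin r).prod (Set.finite_le_nat r)).image fun p => kfwP p.1 p.2).subset
    fun n (h : nat.h (X.π (kfwF X n)) + n.1.unpair.2 ≤ r) => ⟨(kfwF X n, n.1.unpair.2),
      ⟨le_trans (Nat.le_add_right _ _) h, le_trans (Nat.le_add_left _ _) h⟩, kfw_PF n⟩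

theorem kfw_h (n : (kfwS X).I) :
    nat.h ((kfwS X).π n) = nat.h (X.π (kfwF X n)) + n.1.unpair.2 := rfl

/-- Matrices between sums of shifts. -/
noncomputable def kfwD (f : X ⟶ Y) (c d : ℕ) : kfwS X ⟶ kfwS Y where
  e n m := if n.1.unpair.2 + c = m.1.unpair.2 + d then f.e (kfwF X n) (kfwF Y m) else 0
  ok := (kfw_ok f).elim fun r h => ⟨r + c + d, fun n m z => by
    have k : n.1.unpair.2 + c = m.1.unpair.2 + d := by_contra fun k => z (if_neg k)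
    have := h _ _ fun e => z ((if_pos k).trans e)
    refine ⟨trivial, trivial, trivial, ?_, ?_⟩ <;> rw [kfw_h, kfw_h] <;> omega⟩

/-- Matrices into the first summand. -/
noncomputable def kfwU (f : X ⟶ Y) : X ⟶ kfwS Y where
  e n m := if m.1.unpair.2 = 0 then f.e n (kfwF Y m) else 0
  ok := (kfw_ok f).elim fun r h => ⟨r, fun n m z => by
    have k : m.1.unpair.2 = 0 := by_contra fun k => z (if_neg k)
    have := h _ _ fun e => z ((if_pos k).trans e)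
    refine ⟨trivial, trivial, trivial, ?_, ?_⟩ <;> rw [kfw_h] <;> omega⟩

/-- Matrices out of the first summand. -/
noncomputable def kfwN (f : X ⟶ Y) : kfwS X ⟶ Y where
  e n m := if n.1.unpair.2 = 0 then f.e (kfwF X n) m else 0
  ok := (kfw_ok f).elim fun r h => ⟨r, fun n m z => by
    have k : n.1.unpair.2 = 0 := by_contra fun k => z (if_neg k)
    have := h _ _ fun e => z ((if_pos k).trans e)
    refine ⟨trivial, trivial, trivial, ?_, ?_⟩ <;> rw [kfw_h] <;> omega⟩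

theorem kfw_sum {P Q : B.C} (u : ∀ j, P ⟶ Y.X j) (w : ∀ j, Y.X j ⟶ Q) (T S : ℕ → Prop)
    [DecidablePred T] [DecidablePred S] (R : Prop) [Decidable R]
    (h : R → ∃ k, ∀ l, T l ∧ S l ↔ l = k) (h' : ∀ l, T l → S l → R) :
    ∑ᶠ m : {n : ℕ | n.unpair.1 ∈ Y.I}, (if T m.1.unpair.2 then u (kfwF Y m) else 0) ≫
      (if S m.1.unpair.2 then w (kfwF Y m) else 0) = if R then ∑ᶠ j, u j ≫ w j else 0 := by
  classical
  split_ifs with c
  · obtain ⟨k, hk⟩ := h c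
    have inj : Function.Injective fun j : Y.I => kfwP j k := fun a b e => by
      rw [← kfw_FP a k, ← kfw_FP b k]
      exact congrArg _ e
    have e := finsum_mem_range (f := fun m => u (kfwF Y m) ≫ w (kfwF Y m)) inj
    refine .trans (finsum_congr fun m => ?_) (e.trans (finsum_congr fun j =>
      congrArg (fun j => u j ≫ w j) (kfw_FP j k)))
    rw [finsum_eq_if]
    by_cases d : m.1.unpair.2 = k
    · rw [if_pos ((hk _).2 d).1, if_pos ((hk _).2 d).2, 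
        if_pos (c := m ∈ Set.range fun j : Y.I => kfwP j k) ⟨kfwF Y m, d ▸ kfw_PF m⟩]
    · rw [if_neg (c := m ∈ Set.range fun j : Y.I => kfwP j k) fun ⟨j, e⟩ => d (e ▸ kfw_snd j k)]
      rcases not_and_or.1 (mt (hk _).1 d) with z | z <;> simp [z]
  · refine finsum_eq_zero_of_forall_eq_zero fun m => ?_
    rcases not_and_or.1 (fun z : T m.1.unpair.2 ∧ S m.1.unpair.2 => c (h' _ z.1 z.2)) with z | z <;>
      simp [z]

theorem kfw_DD (f : X ⟶ Y) (g : Y ⟶ W) (c d : ℕ) :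
    kfwD f c 0 ≫ kfwD g 0 d = kfwD (f ≫ g) c d := kfw_ext fun n m =>
  kfw_sum (f.e (kfwF X n)) (g.e · (kfwF W m)) (fun l => n.1.unpair.2 + c = l + 0)
    (fun l => l + 0 = m.1.unpair.2 + d) (n.1.unpair.2 + c = m.1.unpair.2 + d)
    (fun _ => ⟨n.1.unpair.2 + c, fun _ => by omega⟩) fun _ _ _ => by omega

theorem kfw_DN (f : X ⟶ Y) (g : Y ⟶ W) : kfwD f 0 0 ≫ kfwN g = kfwN (f ≫ g) := kfw_ext fun n m =>
  kfw_sum (f.e (kfwF X n)) (g.e · m) (fun l => n.1.unpair.2 + 0 = l + 0) (fun l => l = 0)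
    (n.1.unpair.2 = 0) (fun _ => ⟨0, fun _ => by omega⟩) fun _ _ _ => by omega

theorem kfw_DN' (f : X ⟶ Y) (g : Y ⟶ W) : kfwD f 1 0 ≫ kfwN g = 0 := kfw_ext fun n m =>
  (kfw_sum (f.e (kfwF X n)) (g.e · m) (fun l => n.1.unpair.2 + 1 = l + 0) (fun l => l = 0) False
    False.elim fun _ _ _ => by omega).trans (if_neg id)

theorem kfw_UD (f : X ⟶ Y) (g : Y ⟶ W) : kfwU f ≫ kfwD g 0 1 = 0 := kfw_ext fun n m =>
  (kfw_sum (f.e n) (g.e · (kfwF W m)) (fun l => l = 0) (fun l => l + 0 = m.1.unpair.2 + 1) False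
    False.elim fun _ _ _ => by omega).trans (if_neg id)

theorem kfw_UN (f : X ⟶ Y) (g : Y ⟶ W) : kfwU f ≫ kfwN g = f ≫ g := kfw_ext fun n m =>
  (kfw_sum (f.e n) (g.e · m) (fun l => l = 0) (fun l => l = 0) True
    (fun _ => ⟨0, fun _ => by omega⟩) fun _ _ _ => trivial).trans (if_pos trivial)

theorem kfw_D11 (f : X ⟶ Y) : kfwD f 1 1 = kfwD f 0 0 := kfw_ext fun _ _ =>
  if_congr (by omega) rfl rfl

theorem kfw_D_id (X : Mx nat B) : kfwD (𝟙 X) 0 0 = 𝟙 _ := kfw_ext fun n m => by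
  by_cases h : n = m
  · subst h
    exact (if_pos rfl).trans ((kfw_id_self _).trans (kfw_id_self (X := kfwS X) n).symm)
  · rw [kfw_id_ne h]
    refine ite_eq_right_iff.2 fun c => kfw_id_ne fun e => h ?_
    rw [← kfw_PF n, ← kfw_PF m, e]
    exact congrArg _ c

theorem kfw_tot (X : Mx nat B) :
    kfwN (𝟙 X) ≫ kfwU (𝟙 X) + kfwD (𝟙 X) 0 1 ≫ kfwD (𝟙 X) 1 0 = 𝟙 _ := by
  rw [← kfw_D_id]
  refine kfw_ext fun n m => ?_
  have a : (kfwD (𝟙 X) 0 1 ≫ kfwD (𝟙 X) 1 0).e n m =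
      if n.1.unpair.2 = m.1.unpair.2 ∧ n.1.unpair.2 ≠ 0 then
        (𝟙 X ≫ 𝟙 X).e (kfwF X n) (kfwF X m) else 0 :=
    kfw_sum ((𝟙 X : X ⟶ X).e (kfwF X n)) ((𝟙 X : X ⟶ X).e · (kfwF X m))
      (fun l => n.1.unpair.2 + 0 = l + 1) (fun l => l + 1 = m.1.unpair.2 + 0)
      (n.1.unpair.2 = m.1.unpair.2 ∧ n.1.unpair.2 ≠ 0)
      (fun _ => ⟨n.1.unpair.2 - 1, fun _ => by omega⟩) fun _ _ _ => by omega
  have b : (kfwN (𝟙 X) ≫ kfwU (𝟙 X)).e n m = if n.1.unpair.2 = 0 ∧ m.1.unpair.2 = 0 then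
      (𝟙 X ≫ 𝟙 X).e (kfwF X n) (kfwF X m) else 0 := by
    change ∑ᶠ j, (if n.1.unpair.2 = 0 then _ else _) ≫ (if m.1.unpair.2 = 0 then _ else _) = _
    split_ifs with p q r <;>
      first | rfl | omega | exact finsum_eq_zero_of_forall_eq_zero fun _ => by simp
  refine (congrArg₂ (· + ·) b a).trans ?_
  rw [Category.id_comp]
  change _ = if n.1.unpair.2 + 0 = m.1.unpair.2 + 0 then _ else _
  split_ifs <;> first | omega | exact add_zero _ | exact zero_add _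

/-- The sum of all shifts as a functor. -/
noncomputable def kfwΦ (B : AC.{v, u}) : Mx nat B ⥤ Mx nat B where
  obj := kfwS
  map f := kfwD f 0 0
  map_id := kfw_D_id
  map_comp f g := (kfw_DD f g 0 0).symm

theorem kfw_add : (kfwΦ B).Additive := ⟨fun {X Y a b} => kfw_ext fun n m => by
  change ite _ (_ + _) _ = ite _ _ _ + ite _ _ _
  split_ifs
  exacts [rfl, (add_zero _).symm]⟩

theorem kfw_mapD (H : A ⟶ B) {X Y : Mx nat A} (f : X ⟶ Y) (c d : ℕ) :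
    (cone.map H).F.map (kfwD f c d) = kfwD ((cone.map H).F.map f) c d := kfw_ext fun n m => by
  refine (kfw_map H _ n m).trans ((apply_ite H.F.map _ _ _).trans ?_)
  exact if_congr Iff.rfl (kfw_map H f _ _).symm (H.F.map_zero _ _)

theorem kfw_mapN (H : A ⟶ B) {X Y : Mx nat A} (f : X ⟶ Y) :
    (cone.map H).F.map (kfwN f) = kfwN ((cone.map H).F.map f) := kfw_ext fun n m => by
  refine (kfw_map H _ n m).trans ((apply_ite H.F.map _ _ _).trans ?_)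
  exact if_congr Iff.rfl (kfw_map H f _ _).symm (H.F.map_zero _ _)

/-- The part of a family over a set of indices. -/
def kfwR (X : Mx nat B) (S : Set ℕ) : Mx nat B where
  I := X.I ∩ S
  X n := X.X ⟨n.1, n.2.1⟩
  π n := X.π ⟨n.1, n.2.1⟩
  fin r := (X.fin r).preimage (f := fun n : ↥(X.I ∩ S) => (⟨n.1, n.2.1⟩ : X.I))
    fun _ _ _ _ e => Subtype.ext (congrArg (fun z : X.I => z.1) e)

/-- Some rows of a matrix. -/
def kfwI (f : X ⟶ Y) (S : Set ℕ) : kfwR X S ⟶ Y :=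
  ⟨fun n => f.e ⟨n.1, n.2.1⟩, f.ok.imp fun _ h _ => h _⟩

/-- Some columns of a matrix. -/
def kfwO (f : X ⟶ Y) (S : Set ℕ) : X ⟶ kfwR Y S :=
  ⟨fun i n => f.e i ⟨n.1, n.2.1⟩, f.ok.imp fun _ h _ _ => h _ _⟩

theorem kfw_IO (X : Mx nat B) (S : Set ℕ) : kfwI (𝟙 X) S ≫ kfwO (𝟙 X) S = 𝟙 _ :=
  kfw_ext fun n m => by
    change (𝟙 X ≫ 𝟙 X).e ⟨n.1, n.2.1⟩ ⟨m.1, m.2.1⟩ = _
    rw [Category.id_comp]
    by_cases h : n = m
    · subst h
      exact (kfw_id_self _).trans (kfw_id_self (X := kfwR X S) n).symm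
    · rw [kfw_id_ne h]
      exact kfw_id_ne fun e => h (Subtype.ext (congrArg (fun z : X.I => z.1) e))

open Classical in
theorem kfw_OI (f : X ⟶ Y) (S : Set ℕ) (i j) :
    (kfwO (𝟙 X) S ≫ kfwI f S).e i j = if i.1 ∈ S then f.e i j else 0 := by
  change ∑ᶠ m : ↥(X.I ∩ S), (𝟙 X : X ⟶ X).e i ⟨m.1, m.2.1⟩ ≫ f.e ⟨m.1, m.2.1⟩ j = _
  split_ifs with h
  · refine (finsum_eq_single _ ⟨i.1, i.2, h⟩ fun m c => ?_).trans ?_
    · rw [kfw_id_ne fun e => c (Subtype.ext (congrArg Subtype.val e).symm), zero_comp]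
    · exact (congrArg (· ≫ _) (kfw_id_self i)).trans (Category.id_comp _)
  · refine finsum_eq_zero_of_forall_eq_zero fun m => ?_
    rw [kfw_id_ne (i := i) (j := ⟨m.1, m.2.1⟩) fun e => h (by subst e; exact m.2.2), zero_comp]

end

theorem cone_sw : ∃ (Φ : ∀ B : AC.{v, u}, cone.obj B ⟶ cone.obj B)
    (i : ∀ (B : AC.{v, u}) (X : (cone.obj B).C), X ⟶ (Φ B).F.obj X)
    (r : ∀ (B : AC.{v, u}) (X : (cone.obj B).C), (Φ B).F.obj X ⟶ X)
    (i' r' : ∀ (B : AC.{v, u}) (X : (cone.obj B).C), (Φ B).F.obj X ⟶ (Φ B).F.obj X),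
    (∀ B X, r B X ≫ i B X + r' B X ≫ i' B X = 𝟙 _) ∧
    (∀ B X Y (f : X ⟶ Y), i B X ≫ (Φ B).F.map f ≫ r B Y = f ∧ i B X ≫ (Φ B).F.map f ≫ r' B Y = 0 ∧
      i' B X ≫ (Φ B).F.map f ≫ r B Y = 0 ∧ i' B X ≫ (Φ B).F.map f ≫ r' B Y = (Φ B).F.map f) ∧
    ∀ A B (H : A ⟶ B), (cone.map H).F ⋙ (Φ B).F = (Φ A).F ⋙ (cone.map H).F ∧ ∀ X,
      HEq ((cone.map H).F.map (r A X)) (r B ((cone.map H).F.obj X)) ∧
      HEq ((cone.map H).F.map (r' A X)) (r' B ((cone.map H).F.obj X)) := by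
  refine ⟨fun B => @AC.Hom.mk (mx nat B) (mx nat B) (kfwΦ B) kfw_add,
    fun B (X : Mx nat B) => kfwU (𝟙 X), fun B (X : Mx nat B) => kfwN (𝟙 X),
    fun B (X : Mx nat B) => kfwD (𝟙 X) 1 0, fun B (X : Mx nat B) => kfwD (𝟙 X) 0 1,
    fun B X => kfw_tot X, fun B (X Y : Mx nat B) (f : X ⟶ Y) => ?_,
    fun A B H => ⟨Functor.hext (fun _ => rfl) fun X Y f => heq_of_eq (kfw_mapD H f 0 0).symm,
      fun X => ⟨heq_of_eq ((kfw_mapN H _).trans (congrArg kfwN ((cone.map H).F.map_id X))),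
        heq_of_eq ((kfw_mapD H _ 0 1).trans
          (congrArg (kfwD · 0 1) ((cone.map H).F.map_id X)))⟩⟩⟩
  change kfwU (𝟙 X) ≫ kfwD f 0 0 ≫ kfwN (𝟙 Y) = f ∧
    kfwU (𝟙 X) ≫ kfwD f 0 0 ≫ kfwD (𝟙 Y) 0 1 = 0 ∧
    kfwD (𝟙 X) 1 0 ≫ kfwD f 0 0 ≫ kfwN (𝟙 Y) = 0 ∧
    kfwD (𝟙 X) 1 0 ≫ kfwD f 0 0 ≫ kfwD (𝟙 Y) 0 1 = kfwD f 0 0
  rw [kfw_DN, kfw_DD, kfw_UN, kfw_UD, kfw_DN', kfw_DD, kfw_D11, Category.comp_id, Category.id_comp]
  exact ⟨rfl, rfl, rfl, rfl⟩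

/-- Finite families form a filtration of the cone: `cut` takes as `z` the part of `x` over the
finitely many rows in which some `f j`, `j ∈ s`, has an entry, as `x'` the rest. -/
theorem kf_cone (B : AC.{v, u}) :
    Kf (proj.app B).F fun X : Mx nat B => X.I.Finite where
  full := inferInstanceAs (Quotient.functor (Gm B)).Full
  surj y := ⟨y.as, rfl⟩
  kill x h := by
    have := h.to_subtype
    rw [IsZero.iff_id_eq_zero, ← (proj.app B).F.map_id, ← (proj.app B).F.map_zero]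
    exact CategoryTheory.Quotient.sound (Gm B) (Set.toFinite _)
  cut := fun (x : Mx nat B) ι s (y : ι → Mx nat B) (f : ∀ j, x ⟶ y j) h => by
    classical
    have k : ∀ j, Gm B (f j) 0 := fun j => (Quotient.functor_map_eq_iff (Gm B) _ _).1
      ((h j).trans ((proj.app B).F.map_zero _ _).symm)
    let S : Set ℕ := ⋃ j ∈ s, (fun p : x.I × (y j).I => p.1.1) ''
      {p | (f j).e p.1 p.2 ≠ (0 : x ⟶ y j).e p.1 p.2}
    have hS : S.Finite := s.finite_toSet.biUnion fun j _ => (k j).image _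
    refine ⟨kfwR x Sᶜ, kfwR x S, kfwI (𝟙 x) _, kfwO (𝟙 x) _,
      ⟨kfwO (𝟙 x) _, kfwI (𝟙 x) _, kfw_IO _ _, kfw_IO _ _, kfw_ext fun i j => ?_⟩,
      hS.inter_of_right _, fun j hj => kfw_ext fun n l => ?_⟩
    · refine (congrArg₂ (· + ·) (kfw_OI (𝟙 x) Sᶜ i j) (kfw_OI (𝟙 x) S i j)).trans ?_
      by_cases c : i.1 ∈ S
      · exact (congrArg₂ (· + ·) (if_neg (not_not.2 c)) (if_pos c)).trans (zero_add _)
      · exact (congrArg₂ (· + ·) (if_pos c) (if_neg c)).trans (add_zero _)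
    · change (𝟙 x ≫ f j).e ⟨n.1, n.2.1⟩ l = 0
      rw [Category.id_comp]
      exact by_contra fun c => n.2.2 (Set.mem_biUnion hj ⟨(⟨n.1, n.2.1⟩, l), c, rfl⟩)

end Pool.Agent.Lib.MP_5d3e93_al.Br
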