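import Pool.Agent.Lib.MP_5d3e93_al.Br.KfR
import Pool.Agent.Lib.MP_5d3e93_al.Br.Gs
import Pool.Agent.Lib.MP_5d3e93_al.Br.EvS
import Pool.Agent.Lib.MP_5d3e93_al.Br.KfW

/-! Filtrations and swindles on transport categories, cone and suspension with an action. -/

open CategoryTheory Limits Function

namespace Pool.Agent.Lib.MP_5d3e93_al.Br

open Gr Am As A2

universe w v u u'

theorem Fq.of {D : Type*} [Category* D] [Preadditive D] (Φ : D ⥤ D) [Φ.Additive]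
    (i : ∀ A, A ⟶ Φ.obj A) (r : ∀ A, Φ.obj A ⟶ A) (i' r' : ∀ A, Φ.obj A ⟶ Φ.obj A)
    (c : ∀ A, r A ≫ i A + r' A ≫ i' A = 𝟙 _)
    (d : ∀ (A B : D) (f : A ⟶ B), i A ≫ Φ.map f ≫ r B = f ∧ i A ≫ Φ.map f ≫ r' B = 0 ∧
      i' A ≫ Φ.map f ≫ r B = 0 ∧ i' A ≫ Φ.map f ≫ r' B = Φ.map f) : Fq D := by
  have n1 {A B : D} (f : A ⟶ B) : f ≫ i B = i A ≫ Φ.map f := by
    obtain ⟨d1, d2, -, -⟩ := d A B f
    rw [← Category.comp_id (Φ.map f), ← c]
    simp [reassoc_of% d1, reassoc_of% d2]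
  have n2 {A B : D} (f : A ⟶ B) : Φ.map f ≫ r B = r A ≫ f := by
    obtain ⟨d1, -, d3, -⟩ := d A B f
    rw [← Category.id_comp (Φ.map f), ← c]
    simp [d1, d3]
  have n3 {A B : D} (f : A ⟶ B) : Φ.map f ≫ i' B = i' A ≫ Φ.map f := by
    obtain ⟨-, -, d3, d4⟩ := d A B f
    conv_rhs => rw [← Category.comp_id (Φ.map f), ← c]
    simp [reassoc_of% d3, reassoc_of% d4]
  have n4 {A B : D} (f : A ⟶ B) : Φ.map f ≫ r' B = r' A ≫ Φ.map f := by
    obtain ⟨-, d2, -, d4⟩ := d A B f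
    conv_lhs => rw [← Category.id_comp (Φ.map f), ← c]
    simp [d2, d4]
  exact ⟨Φ, inferInstance, ⟨i, fun _ _ => n1⟩, ⟨r, fun _ _ => n2⟩, ⟨i', fun _ _ => n3⟩,
    ⟨r', fun _ _ => n4⟩, NatTrans.ext (funext fun A => by simpa using (d A A (𝟙 A)).1),
    NatTrans.ext (funext fun A => by simpa using (d A A (𝟙 A)).2.2.2), NatTrans.ext (funext c)⟩

theorem fq_cone (B : AC.{v, u}) : Fq (cone.obj B).C := by
  obtain ⟨Φ, i, r, i', r', a, b, -⟩ := cone_sw.{v, u}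
  exact .of (Φ B).F (i B) (r B) (i' B) (r' B) (a B) (b B)

theorem Kf.cut' {D : Type*} [Category* D] [Preadditive D] {E : Type*} [Category* E] [Preadditive E]
    {p : D ⥤ E} {P : ObjectProperty D} (h : Kf p P) (x : D) {ι : Type*} (s : Finset ι) (y : ι → D)
    (f : ∀ j, x ⟶ y j) (k : ∀ j ∈ s, p.map (f j) = 0) :
    ∃ (x' z : D) (i : x' ⟶ x) (q : x ⟶ z), Spl i q ∧ P z ∧ ∀ j ∈ s, i ≫ f j = 0 := by
  obtain ⟨x', z, i, q, a, b, c⟩ := h.cut x Finset.univ (fun l => y (s.equivFin.symm l))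
    (fun l => f _) fun l => k _ (s.equivFin.symm l).2
  refine ⟨x', z, i, q, a, b, fun j m => ?_⟩
  obtain ⟨l, e⟩ := s.equivFin.symm.surjective ⟨j, m⟩
  obtain rfl : (s.equivFin.symm l).1 = j := congrArg Subtype.val e
  exact c l (Finset.mem_univ _)

variable {G : Type v} [Group G]

section tc
variable {C : Type u} [Category.{v} C] [Preadditive C] {D : Type u'} [Category.{v} D]
  [Preadditive D] {ρ : Act G C} {τ : Act G D} (T : Type v) [MulAction G T]

theorem Kf.tc {F : C ⥤ D} [F.Additive] {P : ObjectProperty C} (h : Kf F P)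
    (e : ∀ g, ρ.F g ⋙ F = F ⋙ τ.F g) : Kf (Ef.fn T F e).tc fun x : Tc ρ T => P x.as.A where
  full := have := h.full; inferInstance
  surj y := (h.surj y.as.A).elim fun x k => ⟨⟨⟨x, y.as.t⟩⟩, congrArg (fun A => (⟨⟨A, _⟩⟩ : Tc τ T)) k⟩
  kill x a := (Lb.at' x.as.t ⋙ twe (Lb.act T τ)).map_isZero (h.kill _ a)
  cut x ι s y f z := by
    classical
    choose t ht using fun j => co_fin (f j)
    obtain ⟨A', Z, i, p, a, b, c⟩ := h.cut' x.as.A (s.sigma t) _ (fun l => (Tw.co l.2 (f l.1)).1)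
      fun l _ => congrArg Subtype.val ((cancel_mono _).1 ((co_twH _ _ l.2 (f l.1)).symm.trans
        ((congrArg (Tw.co l.2) (z l.1)).trans ((map_zero _).trans zero_comp.symm))))
    let E := Lb.at' x.as.t ⋙ twe (Lb.act T ρ)
    refine ⟨E.obj A', E.obj Z, E.map i, E.map p, spl_map E a, b, fun j m =>
      Tw.co_ext fun g => (co_emb_comp ..).trans ?_⟩
    by_cases d : g ∈ t j
    · exact Lb.ext (c ⟨j, g⟩ (Finset.mem_sigma.2 ⟨m, d⟩))
    · rw [ht j g d, comp_zero, map_zero]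

open Tw in
theorem fq_tc (h : Swd ρ fun _ => True) : Fq (Tc ρ T) := by
  obtain ⟨Φ, b, i, r, i', r', c, d, e⟩ := h
  have h g := (e g trivial).1
  have k1 (g A) : eqToHom (Functor.congr_obj (h g) A) ≫ (ρ.F g).map (r A) = r _ :=
    eq_of_heq ((eqToHom_comp_heq ..).trans ((e g trivial).2 A).1)
  have k2 (g A) : eqToHom (Functor.congr_obj (h g) A) ≫ (ρ.F g).map (r' A) =
      r' _ ≫ eqToHom (Functor.congr_obj (h g) A) :=
    eq_of_heq ((eqToHom_comp_heq ..).trans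
      (((e g trivial).2 A).2.trans (comp_eqToHom_heq ..).symm))
  let E (t : T) := Lb.at' (C := C) t ⋙ twe (Lb.act T ρ)
  refine .of (Ef.fn T Φ h).tc (fun X => (E X.as.t).map (i X.as.A))
    (fun X => (E X.as.t).map (r X.as.A)) (fun X => (E X.as.t).map (i' X.as.A))
    (fun X => (E X.as.t).map (r' X.as.A)) (fun X => ?_) fun X Y f => ?_
  · exact (congrArg₂ (· + ·) ((E X.as.t).map_comp _ _).symm ((E X.as.t).map_comp _ _).symm).trans
      ((E X.as.t).map_add.symm.trans ((congrArg (E X.as.t).map (c _)).trans ((E X.as.t).map_id _)))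
  · refine evS_tw (τ := Lb.act T ρ) (Lb.map Φ b (fun _ => id) (Lb.ok_const id))
      (Lb.map_eqv b (Lb.ok_const id) h fun _ _ _ => rfl) (fun A => (Lb.at' A.t).map (i A.A))
      (fun A => (Lb.at' A.t).map (r A.A)) (fun A => (Lb.at' A.t).map (i' A.A))
      (fun A => (Lb.at' A.t).map (r' A.A))
      (fun A B f => ⟨Lb.ext (d _ _ f.1).1, Lb.ext (d _ _ f.1).2.1, Lb.ext (d _ _ f.1).2.2.1,
        Lb.ext (d _ _ f.1).2.2.2⟩) (fun g A => Lb.ext ?_) (fun g A => Lb.ext ?_) X Y f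
    · exact (congrArg (· ≫ _) (Lb.eqToHom_val _)).trans (k1 g A.A)
    · exact (congrArg (· ≫ _) (Lb.eqToHom_val _)).trans ((k2 g A.A).trans
        (congrArg (_ ≫ ·) (Lb.eqToHom_val (Functor.congr_obj
          (Lb.map_eqv (T := T) b (Lb.ok_const id) h (fun _ _ _ => rfl) g) A)).symm))

end tc

namespace Gc

/-- The underlying category. -/
abbrev ac (B : Gc.{v, u} G) : AC.{v, max 1 u v} := ⟨B.C⟩

/-- The functor of a group element. -/
def ag (B : Gc.{v, u} G) (g : G) : B.ac ⟶ B.ac := @AC.Hom.mk _ _ (B.ρ.F g) (B.ρ.additive g)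

/-- The induced action. -/
def ap (F : AC.{v, max 1 u v} ⥤ AC.{v, max 1 u v}) (B : Gc.{v, u} G) : Gc.{v, u} G :=
  ⟨(F.obj B.ac).C, fun g => (F.map (B.ag g)).F, fun _ => inferInstance,
    congrArg AC.Hom.F ((congrArg F.map (AC.ext B.ρ.one)).trans (F.map_id _)), fun g h =>
    congrArg AC.Hom.F ((congrArg F.map (AC.ext (B.ρ.mul g h))).trans
      (F.map_comp (B.ag h) (B.ag g)))⟩

/-- The inclusion in the cone. -/
noncomputable def j (B : Gc.{v, u} G) : B ⟶ ap cone B :=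
  @Hom.mk _ _ B (ap cone B) (incl.app B.ac).F (incl.app B.ac).add
    fun g => congrArg AC.Hom.F (incl.naturality (B.ag g))

/-- The projection to the suspension. -/
noncomputable def q (B : Gc.{v, u} G) : ap cone B ⟶ ap susp B :=
  @Hom.mk _ _ (ap cone B) (ap susp B) (proj.app B.ac).F (proj.app B.ac).add
    fun g => congrArg AC.Hom.F (proj.naturality (B.ag g))

theorem swd (B : Gc.{v, u} G) : Swd (ap cone B).ρ fun _ => True := by
  obtain ⟨Φ, i, r, i', r', a, b, c⟩ := cone_sw.{v, max 1 u v}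
  exact ⟨(Φ B.ac).F, (Φ B.ac).add, i _, r _, i' _, r' _, a _, b _, fun g _ => c _ _ (B.ag g)⟩

end Gc

/-- Transport categories as a functor of both variables. -/
noncomputable def TC : Gc.{v, u} G ⥤ Gs G ⥤ AC.{v, max 1 u v} where
  obj B :=
    { obj T := ⟨Tc B.ρ T.T⟩
      map φ := ⟨(Ef.of (𝟭 B.C) (fun _ => rfl) φ.1 φ.2).tc⟩
      map_id _ := AC.ext (Ef.tc_id _ rfl fun _ _ => rfl)
      map_comp _ _ := AC.ext (Ef.tc_comp _ _ _ rfl fun _ _ => rfl).symm }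
  map f := ⟨fun T => ⟨(Ef.fn T.T f.F f.e).tc⟩, fun _ _ φ => AC.ext
    ((Ef.tc_comp _ _ (Ef.of f.F f.e φ.1 φ.2) rfl fun _ _ => rfl).trans
      (Ef.tc_comp _ _ _ rfl fun _ _ => rfl).symm)⟩
  map_id _ := NatTrans.ext (funext fun _ => AC.ext (Ef.tc_id _ rfl fun _ _ => rfl))
  map_comp _ _ :=
    NatTrans.ext (funext fun _ => AC.ext (Ef.tc_comp _ _ _ rfl fun _ _ => rfl).symm)

end Pool.Agent.Lib.MP_5d3e93_al.Br
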