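import Pool.Agent.Lib.MP_5d3e93_al.Br.KfS

/-! The suspension keeps cofinal embeddings. -/

open CategoryTheory Limits

namespace Pool.Agent.Lib.MP_5d3e93_al.Br

open Gr As

universe v u

variable {A B : AC.{v, u}}

theorem kfu_ret (a : A ⟶ B) (Y : Mx nat B) (n : Y.I → ℕ) (x : ∀ j, Fin (n j) → A.C)
    (r : ∀ j l, Y.X j ⟶ a.F.obj (x j l)) (i : ∀ j l, a.F.obj (x j l) ⟶ Y.X j)
    (h : ∀ j, ∑ l, r j l ≫ i j l = 𝟙 _) :
    ∃ (X : Mx nat A) (ρ : Y ⟶ Mx.mapO nat.id a X) (ι : Mx.mapO nat.id a X ⟶ Y),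
      (∀ m, ∃ j l, X.X m = x j l) ∧ ρ ≫ ι = 𝟙 Y := by
  classical
  let e : (Σ j : Y.I, Fin (n j)) → ℕ := fun s => Nat.pair s.1 s.2
  have he : Function.Injective e := by
    rintro ⟨j, l⟩ ⟨j', l'⟩ k
    obtain ⟨p, q⟩ := Nat.pair_eq_pair.1 k
    obtain rfl : j = j' := Subtype.ext p
    obtain rfl : l = l' := Fin.ext q
    rfl
  let φ := (Equiv.ofInjective e he).symm
  let X : Mx nat A := ⟨Set.range e, fun m => x (φ m).1 (φ m).2, fun m => Y.π (φ m).1, fun t =>
    (((Y.fin t).toFinset.sigma fun j => (Finset.univ : Finset (Fin (n j)))).finite_toSet.preimage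
      φ.injective.injOn).subset fun m k => by simpa using k⟩
  let R : ∀ j (s : Σ j : Y.I, Fin (n j)), Y.X j ⟶ a.F.obj (x s.1 s.2) := fun j s =>
    if k : j = s.1 then eqToHom (congrArg _ k) ≫ r s.1 s.2 else 0
  let I : ∀ (s : Σ j : Y.I, Fin (n j)) j, a.F.obj (x s.1 s.2) ⟶ Y.X j := fun s j =>
    if k : s.1 = j then i s.1 s.2 ≫ eqToHom (congrArg _ k) else 0
  refine ⟨X, ⟨fun j m => R j (φ m), 0, fun j m k => ?_⟩, ⟨fun m j => I (φ m) j, 0, fun m j k => ?_⟩,
    fun m => ⟨_, _, rfl⟩, Mx.Mor.ext (funext₂ fun j j' => ?_)⟩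
  · obtain rfl : j = (φ m).1 := by_contra fun c => k (dif_neg c)
    exact ⟨trivial, trivial, trivial, le_rfl, le_rfl⟩
  · obtain rfl : (φ m).1 = j := by_contra fun c => k (dif_neg c)
    exact ⟨trivial, trivial, trivial, le_rfl, le_rfl⟩
  · refine (finsum_comp_equiv φ (f := fun s => R j s ≫ I s j')).trans ?_
    rw [Mx.fs (J := Finset.univ.map (Function.Embedding.sigmaMk j)) _ _ (.inl ?_), Finset.sum_map]
    · change _ = Mx.idE Y j j'
      by_cases c : j = j'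
      · subst c
        simpa [R, I, Mx.idE, nat, Function.Embedding.sigmaMk] using h j
      · simp [I, Mx.idE, AC.zero, c]
    · rintro ⟨j1, l⟩ k
      refine dif_neg fun c => k ?_
      obtain rfl : j = j1 := c
      exact Finset.mem_map_of_mem _ (Finset.mem_univ l)

/-- `ret` with one object. -/
theorem Kc.susp {a : A ⟶ B} {P : ObjectProperty A.C} {R : ObjectProperty B.C} (h : Kc a.F P R) :
    Kc (susp.map a).F (sP P) (sP R) where
  ff := susp_ff h.ff
  ret y k := by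
    choose n x r i p q using fun j => h.ret _ (k j)
    obtain ⟨X, ρ, ι, c, d⟩ := kfu_ret a y.as n x r i q
    refine ⟨1, fun _ => (Gm.qF A).obj X, fun _ => (Gm.qF B).map ρ, fun _ => (Gm.qF B).map ι,
      fun _ m => ?_, (Fin.sum_univ_one _).trans (((Gm.qF B).map_comp ρ ι).symm.trans
        ((congrArg _ d).trans ((Gm.qF B).map_id _)))⟩
    obtain ⟨j, l, e⟩ := c m
    exact (e ▸ p j l : P (X.X m))

end Pool.Agent.Lib.MP_5d3e93_al.Br
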