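import Pool.Agent.Lib.MP_5d3e93_al.Br.KT
import Pool.Agent.Lib.MP_5d3e93_al.Br.PD
import Pool.Agent.Lib.MP_5d3e93_al.Br.Dg

/-! From prespectra of pairs to theories on simplicial diagrams. -/

open CategoryTheory Function Opposite Simplicial

namespace Pool.Agent.Lib.MP_5d3e93_al.Br

open Gr Am A2 SP SPr

universe w v u

/-- The homological properties of K-theory. -/
structure KI (k : Tp.{v, u} ⥤ PP.{w}) : Prop where
  deq : ∀ {x y : Tp.{v, u}} (f : x ⟶ y), Deq f.f.D x.S y.S →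
    ∀ m b, Cn b (RC.map ((k.map f).1 m))
  z : ∃ a, Gw a ∧ ∀ x : Tp.{v, u}, Z x.S → ∀ m, Ac (a m) (RC.obj ((k.obj x).X m))
  nl : ∀ {x y : Tp.{v, u}} (f : x ⟶ y), x.S ≤ Zr.inverseImage f.f.D →
    ∀ m n s, (((k.map f).1 m).app n).1 s ∈ (((k.obj y).X m).obj n).A
  em : ∀ {a : Am.{v, u}} {N S : ObjectProperty a.D} [Tg N] [Tg S] (h : N ≤ S) (m),
    Em ((k.map (⟨a.idm, h⟩ : Tp.mk a N ⟶ Tp.mk a S)).1 m)
  loc : ∃ c, Gw c ∧ ∀ {a b : Am.{v, u}} {N S : ObjectProperty a.D} {S' : ObjectProperty b.D} [Tg N]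
    [Tg S] [Tg S'] {f : Map a b} (h : Gr.Loc f.D N S S') (m)
    (e : Nl ((k.map (⟨a.idm, h.le⟩ : Tp.mk a N ⟶ Tp.mk a S)).1 m)
      ((k.map (⟨f, h.maps⟩ : Tp.mk a S ⟶ Tp.mk b S')).1 m)), Cn (c m) (RC.map e.md)
  un : ∀ {a : Am.{v, u}} {N : ℕ → ObjectProperty a.D} {S : ObjectProperty a.D} [∀ r, Tg (N r)]
    [Tg S] (le : ∀ r, N r ≤ S), Monotone N → (∀ X, S X → ∃ r, N r X) → ∀ m n s, ∃ r t,
      (((k.map (⟨a.idm, le r⟩ : Tp.mk a (N r) ⟶ Tp.mk a S)).1 m).app n).1 t = s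

variable {k : Tp.{v, u} ⥤ PP.{w}} (h : KI k)
include h

theorem KI.nl' {x y z : Tp.{v, u}} {i : x ⟶ y} {q : y ⟶ z}
    (a : x.S ≤ Zr.inverseImage (i ≫ q).f.D) (m) : Nl ((k.map i).1 m) ((k.map q).1 m) :=
  fun n s => by
    have := h.nl _ a m n s
    rwa [k.map_comp] at this

theorem KI.em₃ {x y z : Tp.{v, u}} {i : x ⟶ y} {q : y ⟶ z} (a : Lc3 i q) (m) :
    Em ((k.map i).1 m) := by
  obtain ⟨⟨i, a⟩, q, rfl, -⟩ := a
  exact h.em a m

theorem KI.loc₃ : ∃ c, Gw c ∧ ∀ {x y z : Tp.{v, u}} {i : x ⟶ y} {q : y ⟶ z}, Lc3 i q →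
    ∀ m (e : Nl ((k.map i).1 m) ((k.map q).1 m)), Cn (c m) (RC.map e.md) :=
  h.loc.imp fun _ c => ⟨c.1, fun a => by
    obtain ⟨⟨i, a⟩, q, rfl, l⟩ := a
    exact c.2 l⟩

theorem KI.un₃ {W : ℕ → Tp.{v, u}} {Y : Tp.{v, u}} {w : ∀ r, W r ⟶ Y} (a : Un3 w) (m) :
    (∀ r, Em ((k.map (w r)).1 m)) ∧ ∀ n s, ∃ r t, (((k.map (w r)).1 m).app n).1 t = s := by
  obtain @⟨a, N, S, _, _, w, hw, mo, c⟩ := a
  have le (r) : N r ≤ S := by
    have := (w r).h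
    rwa [hw] at this
  obtain rfl : w = fun r => ⟨a.idm, le r⟩ := funext fun r => Tp.hom_ext (congrArg (·.F) (hw r))
  exact ⟨fun r => h.em (le r) m, h.un le mo c m⟩

/-- The theory given by the diagonal of pairs. -/
theorem KI.kt : KT (wh k ⋙ PP.D) where
  deq f a := PP.D_bij' _ fun p => h.deq _ (a p)
  z X a := h.z.elim fun _ c => PP.D_acy c.1 fun p => c.2 _ (a p)
  nl i q a := PP.D_nl fun p => h.nl' (a p)
  loc i q a := h.loc₃.elim fun _ c => PP.D_col (i := (wh k).map i) (q := (wh k).map q)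
    (fun p => h.em₃ (a p)) (fun p => h.nl' (a p).kill) c.1 fun p m => c.2 (a p) m _
  un v w a b c := PP.D_un (v := fun l => (wh k).map (v l)) (w := fun d => (wh k).map (w d))
    (fun l l' => by rw [← Functor.map_comp, a]) (fun l => by rw [← Functor.map_comp, b])
    (fun d p m => (h.un₃ (c p) m).1 d) fun p m n s => .inr ((h.un₃ (c p) m).2 n s)

omit h in
theorem kt_ht (k : Tp.{v, u} ⥤ PP.{w}) : HT (wh k ⋙ PP.D) := fun f g H a b c _ z =>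
  PP.D_th (TH.map k (f := f) (g := g)
    ⟨fun n => H (op n), fun θ t => a _ _ θ.op t, fun _ => b _, fun _ => c _⟩) z

/-- The theory given by the diagonal of the collapsed pairs. -/
theorem KI.kt' : KT (wh (k ⋙ PP.Co) ⋙ KD) where
  deq f a := kd_bij _ (gw_two 0) fun p m => (cn_col _).1 (h.deq _ (a p) m _)
  z X a := h.z.elim fun _ c => kd_acy c.1 fun p m => (SP.cp _).ac.1 (c.2 _ (a p) m)
  nl i q a := kd_nl fun p m => (h.nl' (a p) m).col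
  loc i q a := h.loc₃.elim fun _ c =>
    have : ∀ p m, Mono ((((wh (k ⋙ PP.Co)).map i).app p).1 m) := fun p m => (h.em₃ (a p) m).mono
    kd_col (i := (wh (k ⋙ PP.Co)).map i) (q := (wh (k ⋙ PP.Co)).map q)
      (fun p m => (h.nl' (a p).kill m).col) c.1 fun p m => (h.nl' (a p).kill m).cn.1 (c.2 (a p) m _)
  un v w a b c :=
    have : ∀ d p m, Mono ((((wh (k ⋙ PP.Co)).map (w d)).app p).1 m) := fun d p m =>
      ((h.un₃ (c p) m).1 d).mono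
    kd_un (v := fun l => (wh (k ⋙ PP.Co)).map (v l)) (w := fun d => (wh (k ⋙ PP.Co)).map (w d))
      (fun l l' => by rw [← Functor.map_comp, a]) (fun l => by rw [← Functor.map_comp, b])
      fun p m n s => PT.cl_ind s ⟨0, PT.o _, rfl⟩ fun s => ((h.un₃ (c p) m).2 n s).imp
        fun _ ⟨t, e⟩ => ⟨PT.k _ t, congrArg (PT.k _) e⟩

omit h

/-- The collapse commutes with the diagonal. -/
def colDg (M : SimplexCategoryᵒᵖ ⥤ SP.{w}) :
    col.obj ((dgG _ PT).obj M) ≅ dS.obj (M ⋙ col) :=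
  NatIso.ofComponents (fun _ => Iso.refl _) fun _ =>
    (Category.comp_id _).trans ((PT.col.map_comp _ _).trans (Category.id_comp _).symm)

/-- The two diagonals agree. -/
def coDg : PP.dg.{w} ⋙ PP.Co ≅ wh PP.Co ⋙ SPr.dg :=
  NatIso.ofComponents (fun E =>
    ⟨⟨fun m => (colDg (E ⋙ PP.ev m)).hom, fun _ => rfl, fun _ => rfl⟩,
      ⟨fun m => (colDg (E ⋙ PP.ev m)).inv, fun _ => rfl, fun _ => rfl⟩, rfl, rfl⟩) fun _ => rfl

theorem HT.of_iso {K K' : (SimplexCategoryᵒᵖ ⥤ Tp.{v, u}) ⥤ Pre.{w}} (e : K ≅ K') (h : HT K) :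
    HT K' := fun {X _} f g H a b c n z => by
  rw [← Pre.map_id z, ← e.inv_hom_id_app X, Pre.map_comp, Pre.map_sq (e.hom.naturality f).symm,
    Pre.map_sq (e.hom.naturality g).symm, h f g H a b c]

theorem kt_ht' (k : Tp.{v, u} ⥤ PP.{w}) : HT (wh (k ⋙ PP.Co) ⋙ KD) :=
  HT.of_iso (Functor.isoWhiskerLeft (wh k) (Functor.isoWhiskerRight coDg SPr.R)) (kt_ht k)

end Pool.Agent.Lib.MP_5d3e93_al.Br
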