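import Mathlib

/-! Label systems and finite labelled families with triangular matrices. -/

open CategoryTheory Limits ZeroObject Opposite

namespace Pool.Agent.Lib.MP_5d3e93_al.A2

universe v u v' u' v'' u''

set_option backward.isDefEq.respectTransparency false

/-- Finite posets of labels with a convex set of alive labels. -/
structure Lab where
  L : Type
  [ord : PartialOrder L]
  [fin : Finite L]
  U : Set L
  conv : U.OrdConnected

attribute [instance] Lab.ord Lab.fin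

namespace Lab

/-- Monotone maps that keep dead labels dead. -/
@[ext] structure Hom (Λ Λ' : Lab) where
  f : Λ.L →o Λ'.L
  al : ∀ l, f l ∈ Λ'.U → l ∈ Λ.U

instance : Category Lab where
  Hom := Hom
  id _ := ⟨.id, fun _ h => h⟩
  comp f g := ⟨g.f.comp f.f, fun l h => f.al l (g.al _ h)⟩

@[ext] theorem hom_ext {Λ Λ' : Lab} {f g : Λ ⟶ Λ'} (h : ∀ l, f.f l = g.f l) : f = g :=
  Hom.ext (OrderHom.ext _ _ (funext h))

@[simp] theorem id_f (Λ : Lab) (l) : (𝟙 Λ : Λ ⟶ Λ).f l = l := rfl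

@[simp] theorem comp_f {Λ Λ' Λ'' : Lab} (f : Λ ⟶ Λ') (g : Λ' ⟶ Λ'') (l) :
    (f ≫ g).f l = g.f (f.f l) := rfl

theorem mid {Λ : Lab} {a b c : Λ.L} (ha : a ∈ Λ.U) (hc : c ∈ Λ.U) (h : a ≤ b) (k : b ≤ c) :
    b ∈ Λ.U := Λ.conv.out ha hc ⟨h, k⟩

/-- One alive label. -/
abbrev pt : Lab := ⟨Unit, Set.univ, Set.ordConnected_univ⟩

/-- The product. -/
abbrev ten (Λ Λ' : Lab) : Lab := ⟨Λ.L × Λ'.L, {l | l.1 ∈ Λ.U ∧ l.2 ∈ Λ'.U},
  ⟨fun _ a _ b _ c => ⟨mid a.1 b.1 (Prod.le_def.1 c.1).1 (Prod.le_def.1 c.2).1,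
    mid a.2 b.2 (Prod.le_def.1 c.1).2 (Prod.le_def.1 c.2).2⟩⟩⟩

/-- The product of two maps. -/
def tenm {Λ₁ Λ₁' Λ₂ Λ₂' : Lab} (f : Λ₁ ⟶ Λ₁') (g : Λ₂ ⟶ Λ₂') : Λ₁.ten Λ₂ ⟶ Λ₁'.ten Λ₂' :=
  ⟨f.f.prodMap g.f, fun _ h => ⟨f.al _ h.1, g.al _ h.2⟩⟩

/-- The product as a functor. -/
def tenF : Lab ⥤ Lab ⥤ Lab where
  obj Λ := { obj := fun Λ' => Λ.ten Λ', map := fun g => tenm (𝟙 Λ) g }
  map f := { app := fun Λ' => tenm f (𝟙 Λ') }

end Lab

/-- The simplices of the standard interval. -/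
abbrev Iv (n : SimplexCategoryᵒᵖ) : Type := Fin (n.unop.len + 1) →o Fin 2

instance (n : SimplexCategoryᵒᵖ) : Finite (Iv n) :=
  Finite.of_injective (fun f : Iv n => (f : _ → _)) DFunLike.coe_injective

/-- The simplicial operators. -/
def Iv.act {n n' : SimplexCategoryᵒᵖ} (θ : n ⟶ n') : Iv n →o Iv n' :=
  ⟨fun l => l.comp θ.unop.toOrderHom, fun _ _ h _ => h _⟩

/-- The non constant simplices. -/
def Iv.Nc {n : SimplexCategoryᵒᵖ} (l : Iv n) : Prop := l 0 = 0 ∧ l (Fin.last _) = 1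

theorem Iv.Nc.mid {n : SimplexCategoryᵒᵖ} {a b c : Iv n} (ha : a.Nc) (hc : c.Nc) (h : a ≤ b)
    (k : b ≤ c) : b.Nc :=
  ⟨Fin.le_zero_iff.1 (hc.1 ▸ k 0), le_antisymm (Fin.le_last _) (ha.2 ▸ h _)⟩

theorem Iv.last_of {n n' : SimplexCategoryᵒᵖ} (θ : n ⟶ n') {l : Iv n}
    (h : Iv.act θ l (Fin.last _) = 1) : l (Fin.last _) = 1 :=
  le_antisymm (Fin.le_last _) (h ▸ l.monotone (Fin.le_last _))

theorem Iv.Nc.of_act {n n' : SimplexCategoryᵒᵖ} (θ : n ⟶ n') {l : Iv n} (h : (Iv.act θ l).Nc) :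
    l.Nc := ⟨Fin.le_zero_iff.1 (h.1 ▸ l.monotone (Fin.zero_le _)), Iv.last_of θ h.2⟩

/-- The labels of the S-construction. -/
def DS : SimplexCategoryᵒᵖ ⥤ Lab where
  obj n := ⟨Iv n, {l | l.Nc}, ⟨fun _ a _ b _ c => a.mid b c.1 c.2⟩⟩
  map θ := ⟨Iv.act θ, fun _ h => h.of_act θ⟩

/-- The labels of the iterated S-construction. -/
def Dm (m : ℕ) : SimplexCategoryᵒᵖ ⥤ Lab where
  obj n := ⟨Fin m → Iv n, {l | ∀ k, (l k).Nc},
    ⟨fun _ a _ b _ c k => (a k).mid (b k) (Pi.le_def.1 c.1 k) (Pi.le_def.1 c.2 k)⟩⟩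
  map θ := ⟨⟨fun l k => Iv.act θ (l k), fun _ _ h k => (Iv.act θ).monotone (h k)⟩,
    fun _ h k => (h k).of_act θ⟩

/-- The labels of the relative S-construction. -/
def DR : SimplexCategoryᵒᵖ ⥤ Lab where
  obj n := ⟨(Iv n)ᵒᵈ, {l | OrderDual.ofDual l (Fin.last _) = 1},
    ⟨fun _ _ y b x c => le_antisymm (Fin.le_last _) (b.symm.le.trans
      ((show OrderDual.ofDual y ≤ OrderDual.ofDual x from c.2) (Fin.last _)))⟩⟩
  map θ := ⟨(Iv.act θ).dual, fun _ h => Iv.last_of θ h⟩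

/-- Finite labelled families. -/
structure Fam (Λ : Lab) (C : Type u) where
  ι : Type
  [fin : Fintype ι]
  l : ι → Λ.L
  X : ι → C

attribute [instance] Fam.fin

namespace Fam

open Classical

variable {Λ Λ' Λ'' : Lab} {C : Type u} [Category.{v} C] [Preadditive C]
  {C' : Type u'} [Category.{v'} C'] [Preadditive C']
  {C'' : Type u''} [Category.{v''} C''] [Preadditive C'']

/-- The allowed positions of a matrix. -/
def Ok (a b : Λ.L) : Prop := a ∈ Λ.U ∧ b ∈ Λ.U ∧ b ≤ a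

/-- Matrices that go down. -/
def Mor (P Q : Fam Λ C) : AddSubgroup (∀ i j, P.X i ⟶ Q.X j) where
  carrier := {φ | ∀ i j, ¬ Ok (P.l i) (Q.l j) → φ i j = 0}
  add_mem' h k i j a := by simp [h i j a, k i j a]
  zero_mem' _ _ _ := rfl
  neg_mem' h i j a := by simp [h i j a]

/-- The diagonal matrix of a predicate. -/
noncomputable def dia {ι : Type} (X : ι → C) (p : ι → Prop) (i j : ι) : X i ⟶ X j :=
  if h : i = j ∧ p i then eqToHom (congrArg X h.1) else 0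

theorem dia_sum {ι : Type} [Fintype ι] (X : ι → C) (p : ι → Prop) (i : ι) {Y : C}
    (φ : ∀ j, X j ⟶ Y) : ∑ j, dia X p i j ≫ φ j = if p i then φ i else 0 := by
  rw [Finset.sum_eq_single i (fun j _ h => by simp [dia, h.symm]) (by simp)]
  by_cases h : p i <;> simp [dia, h]

theorem sum_dia {ι : Type} [Fintype ι] (X : ι → C) (p : ι → Prop) (j : ι) {Y : C}
    (φ : ∀ i, Y ⟶ X i) : ∑ i, φ i ≫ dia X p i j = if p j then φ j else 0 := by
  rw [Finset.sum_eq_single j (fun i _ h => by simp [dia, h]) (by simp)]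
  by_cases h : p j <;> simp [dia, h]

theorem dia_ne {ι : Type} {X : ι → C} {p : ι → Prop} {i j : ι} (h : ¬ (i = j ∧ p i)) :
    dia X p i j = 0 := dif_neg h

noncomputable instance : Category.{v} (Fam Λ C) where
  Hom P Q := Mor P Q
  id P := ⟨dia P.X fun i => P.l i ∈ Λ.U, fun _ _ a => dia_ne fun ⟨e, b⟩ => a (e ▸ ⟨b, b, le_rfl⟩)⟩
  comp {P Q _} f g := ⟨fun i k => ∑ j, f.1 i j ≫ g.1 j k, fun i k a => Finset.sum_eq_zero fun j _ => by
    by_cases b : Ok (P.l i) (Q.l j)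
    · rw [g.2 j k fun c => a ⟨b.1, c.2.1, c.2.2.trans b.2.2⟩, comp_zero]
    · rw [f.2 i j b, zero_comp]⟩
  id_comp {P _} f := Subtype.ext (funext₂ fun i k =>
    (dia_sum P.X (fun i => P.l i ∈ Λ.U) i fun j => f.1 j k).trans (by
    split_ifs with h
    exacts [rfl, (f.2 i k fun c => h c.1).symm]))
  comp_id {_ Q} f := Subtype.ext (funext₂ fun i k =>
    (sum_dia Q.X (fun i => Q.l i ∈ Λ.U) k fun j => f.1 i j).trans (by
    split_ifs with h
    exacts [rfl, (f.2 i k fun c => h c.2.1).symm]))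
  assoc f g h := Subtype.ext (funext₂ fun i k => by
    simp only [Preadditive.sum_comp, Preadditive.comp_sum, Category.assoc]
    exact Finset.sum_comm)

noncomputable instance : Preadditive (Fam Λ C) where
  homGroup P Q := inferInstanceAs (AddCommGroup (Mor P Q))
  add_comp _ _ _ f g h := Subtype.ext (funext₂ fun i k => by
    change ∑ j, (f.1 i j + g.1 i j) ≫ h.1 j k = ∑ j, f.1 i j ≫ h.1 j k + ∑ j, g.1 i j ≫ h.1 j k
    simp only [Preadditive.add_comp, Finset.sum_add_distrib])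
  comp_add _ _ _ f g h := Subtype.ext (funext₂ fun i k => by
    change ∑ j, f.1 i j ≫ (g.1 j k + h.1 j k) = ∑ j, f.1 i j ≫ g.1 j k + ∑ j, f.1 i j ≫ h.1 j k
    simp only [Preadditive.comp_add, Finset.sum_add_distrib])

variable {P Q R : Fam Λ C}

@[ext] theorem hom_ext {f g : P ⟶ Q} (h : ∀ i j, f.1 i j = g.1 i j) : f = g :=
  Subtype.ext (funext₂ h)

theorem id_e (P : Fam Λ C) (i j) : (𝟙 P : P ⟶ P).1 i j = dia P.X (fun i => P.l i ∈ Λ.U) i j := rfl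

theorem comp_e (f : P ⟶ Q) (g : Q ⟶ R) (i k) : (f ≫ g).1 i k = ∑ j, f.1 i j ≫ g.1 j k := rfl

@[simp] theorem add_e (f g : P ⟶ Q) (i j) : (f + g).1 i j = f.1 i j + g.1 i j := rfl

@[simp] theorem zero_e (i j) : (0 : P ⟶ Q).1 i j = 0 := rfl

theorem e_zero (f : P ⟶ Q) {i j} (h : ¬ Ok (P.l i) (Q.l j)) : f.1 i j = 0 := f.2 i j h

/-- A morphism from its matrix. -/
def homMk (φ : ∀ i j, P.X i ⟶ Q.X j) (h : ∀ i j, ¬ Ok (P.l i) (Q.l j) → φ i j = 0) : P ⟶ Q := ⟨φ, h⟩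

@[simp] theorem homMk_e (φ : ∀ i j, P.X i ⟶ Q.X j) (h i j) : (homMk φ h).1 i j = φ i j := rfl

theorem isZero_of (h : ∀ i, P.l i ∉ Λ.U) : IsZero P :=
  (IsZero.iff_id_eq_zero _).2 (hom_ext fun i _ =>
    dia_ne (p := fun i => P.l i ∈ Λ.U) fun a => h i a.2)

instance : HasZeroObject (Fam Λ C) :=
  ⟨⟨⟨Empty, nofun, nofun⟩, isZero_of nofun⟩⟩

/-- The functor of a map of labels and an additive functor. -/
noncomputable def map (f : Λ ⟶ Λ') (F : C ⥤ C') [F.Additive] : Fam Λ C ⥤ Fam Λ' C' where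
  obj P := ⟨P.ι, fun i => f.f (P.l i), fun i => F.obj (P.X i)⟩
  map {P Q} φ := homMk (fun i j => if f.f (P.l i) ∈ Λ'.U ∧ f.f (Q.l j) ∈ Λ'.U then
    F.map (φ.1 i j) else 0) fun i j a => by
      split_ifs with h
      · rw [e_zero φ fun c => a ⟨h.1, h.2, f.f.monotone c.2.2⟩, F.map_zero]
      · rfl
  map_id P := hom_ext fun i j => by
    rw [homMk_e, id_e, id_e]
    by_cases e : i = j
    · subst e
      by_cases h : f.f (P.l i) ∈ Λ'.U <;> simp [dia, h, f.al _]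
    · simp [dia, e]
  map_comp {P Q R} φ ψ := hom_ext fun i k => by
    rw [homMk_e, comp_e, comp_e]
    simp only [homMk_e]
    split_ifs with h
    · rw [F.map_sum]
      refine Finset.sum_congr rfl fun j _ => ?_
      by_cases c : f.f (Q.l j) ∈ Λ'.U
      · simp [h.1, h.2, c]
      · by_cases a : Ok (P.l i) (Q.l j)
        · rw [e_zero ψ fun b => c (Lab.mid h.2 h.1 (f.f.monotone b.2.2) (f.f.monotone a.2.2))]
          simp
        · simp [e_zero φ a]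
    · refine (Finset.sum_eq_zero fun j _ => ?_).symm
      rcases not_and_or.1 h with c | c <;> simp [c]

theorem map_e (f : Λ ⟶ Λ') (F : C ⥤ C') [F.Additive] (φ : P ⟶ Q) (i j) :
    ((map f F).map φ).1 i j =
      if f.f (P.l i) ∈ Λ'.U ∧ f.f (Q.l j) ∈ Λ'.U then F.map (φ.1 i j) else 0 := rfl

instance (f : Λ ⟶ Λ') (F : C ⥤ C') [F.Additive] : (map f F).Additive :=
  ⟨hom_ext fun i j => by
    simp only [map_e, add_e]
    split_ifs <;> simp⟩

theorem map_id : map (𝟙 Λ) (𝟭 C) = 𝟭 _ := Functor.hext (fun _ => rfl) fun P Q φ =>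
  heq_of_eq (hom_ext fun i j => by
    rw [map_e]
    split_ifs with h
    exacts [rfl, (e_zero φ fun c => h ⟨c.1, c.2.1⟩).symm])

theorem map_comp (f : Λ ⟶ Λ') (g : Λ' ⟶ Λ'') (F : C ⥤ C') [F.Additive] (G : C' ⥤ C'')
    [G.Additive] : map (f ≫ g) (F ⋙ G) = map f F ⋙ map g G := Functor.hext (fun _ => rfl)
  fun P Q φ => heq_of_eq (hom_ext fun i j => by
    change _ = if g.f (f.f (P.l i)) ∈ _ ∧ g.f (f.f (Q.l j)) ∈ _ then
      G.map (((map f F).map φ).1 i j) else 0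
    rw [map_e, map_e]
    by_cases h : g.f (f.f (P.l i)) ∈ Λ''.U ∧ g.f (f.f (Q.l j)) ∈ Λ''.U
    · rw [if_pos h, if_pos (by exact h), if_pos ⟨g.al _ h.1, g.al _ h.2⟩]
      rfl
    · rw [if_neg h, if_neg (by exact h)])

end Fam

end Pool.Agent.Lib.MP_5d3e93_al.A2
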