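import Pool.Agent.Lib.MP_5d3e93_al.Pc

/-! An equivariant choice of points for the finite subsets of a set with a group action. -/

open MulAction Pointwise

namespace Pool.Agent.Lib.MP_5d3e93_al.Br

universe v

variable {G : Type v} [Group G]

theorem lab_fix {S : Type v} [MulAction G S]
    (h1 : ∀ s : S, ∃ x : MulAction.stabilizer G s, (Subgroup.zpowers x).FiniteIndex)
    (h2 : ∀ (H : Subgroup G) (x : H), (Subgroup.zpowers x).FiniteIndex →
      ∃ s : S, ∀ g ∈ H, g • s = s) {τ : Set S} (hf : τ.Finite) (hn : τ.Nonempty) :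
    ∃ s : S, ∀ g ∈ stabilizer G τ, g • s = s := by
  obtain ⟨s, hs⟩ := hn
  obtain ⟨x, hx⟩ := h1 s
  have a : Fi (Subgroup.zpowers x.1) (stabilizer G s) := by
    have := (fi_top.2 hx).map (stabilizer G s).subtype
    rwa [MonoidHom.map_zpowers, ← MonoidHom.range_eq_map, Subgroup.range_subtype] at this
  have b : Fi (stabilizer G s) (stabilizer G τ) := by
    have : Finite (orbit (stabilizer G τ) s) := hf.subset fun _ ⟨g, e⟩ =>
      e ▸ (show g.1 • τ = τ from g.2).le (Set.smul_mem_smul_set hs)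
    have := Finite.of_equiv _ (orbitEquivQuotientStabilizer (stabilizer G τ) s)
    exact (Subgroup.finiteIndex_of_finite_quotient
      (H := stabilizer (stabilizer G τ) s)).index_ne_zero
  obtain ⟨n, e⟩ := (Subgroup.le_zpowers_iff x.1 (Subgroup.zpowers x.1 ⊓ stabilizer G τ)).1 inf_le_left
  have m : x.1 ^ n ∈ stabilizer G τ := (e.ge (Subgroup.mem_zpowers _)).2
  have c : Fi (Subgroup.zpowers (x.1 ^ n)) (stabilizer G τ) :=
    e ▸ (a.trans b).inf (.of_le le_rfl)
  have := (Subgroup.finiteIndex_iff).2 c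
  refine h2 _ ⟨_, m⟩ (Subgroup.finiteIndex_of_le
    (H := (Subgroup.zpowers (x.1 ^ n)).subgroupOf (stabilizer G τ)) fun y ⟨k, l⟩ => ⟨k, ?_⟩)
  exact Subtype.ext l

theorem ex_lab {S : Type v} [MulAction G S]
    (h1 : ∀ s : S, ∃ x : MulAction.stabilizer G s, (Subgroup.zpowers x).FiniteIndex)
    (h2 : ∀ (H : Subgroup G) (x : H), (Subgroup.zpowers x).FiniteIndex →
      ∃ s : S, ∀ g ∈ H, g • s = s) :
    ∃ l : Set S → S, ∀ (g : G) (τ : Set S), τ.Finite → τ.Nonempty →
      l ((g⁻¹ • ·) ⁻¹' τ) = g • l τ := by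
  have : Nonempty S := (h2 ⊥ 1 inferInstance).nonempty
  choose! c hc using fun (τ : Set S) (h : τ.Finite ∧ τ.Nonempty) => lab_fix h1 h2 h.1 h.2
  let r (τ : Set S) : Set S := (Quotient.mk (orbitRel G (Set S)) τ).out
  have ex (τ : Set S) : ∃ g : G, g • r τ = τ :=
    (orbitRel G (Set S)).symm (Quotient.mk_out (s := orbitRel G (Set S)) τ)
  choose a ha using ex
  refine ⟨fun τ => a τ • c (r τ), fun g τ hf hn => ?_⟩
  have e : r (g • τ) = r τ := congrArg Quotient.out (Quotient.sound (mem_orbit τ g))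
  have p : (r τ).Finite ∧ (r τ).Nonempty := by
    rw [← ha τ] at hf hn
    exact ⟨Set.finite_smul_set.1 hf, Set.smul_set_nonempty.1 hn⟩
  have k := hc _ p ((a (g • τ))⁻¹ * g * a τ) (by
    rw [mem_stabilizer_iff, mul_smul, mul_smul, ha, inv_smul_eq_iff, ← e, ha])
  rw [mul_smul, mul_smul, inv_smul_eq_iff] at k
  rw [Set.preimage_smul_inv]
  exact (congrArg (fun y => a (g • τ) • c y) e).trans k.symm

end Pool.Agent.Lib.MP_5d3e93_al.Br
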