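import Pool.Agent.Lib.MP_5d3e93_al.Br.Rl

/-! Normal forms of the points of a geometric realisation, and consequences. -/

open CategoryTheory Simplicial Opposite Topology

namespace Pool.Agent.Lib.MP_5d3e93_al.Br

universe u

variable {X Y : SSet.{u}} {n m k : ℕ}

theorem nf_sm_apply (g : ⦋m⦌ ⟶ ⦋n⦌) (t : Sx m) (j : Fin (n + 1)) :
    sm g t j = ∑ i : Fin (m + 1) with g.toOrderHom i = j, t i :=
  FunOnFinite.linearMap_apply_apply _ _ _ _ _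

theorem nf_sm_comp (f : ⦋k⦌ ⟶ ⦋m⦌) (g : ⦋m⦌ ⟶ ⦋n⦌) (t : Sx k) :
    sm (f ≫ g) t = sm g (sm f t) :=
  (stdSimplex.map_comp_apply (fun i => f.toOrderHom i) (fun i => g.toOrderHom i) t).symm

theorem nf_sm_id (t : Sx n) : sm (𝟙 ⦋n⦌) t = t :=
  stdSimplex.map_id_apply t

theorem nf_sm_cont (g : ⦋m⦌ ⟶ ⦋n⦌) : Continuous (sm g) :=
  stdSimplex.continuous_map _

theorem nf_sm_pos (g : ⦋m⦌ ⟶ ⦋n⦌) {t : Sx m} (ht : ∀ i, 0 < t i) (j : Fin (n + 1)) :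
    0 < sm g t j ↔ ∃ i : Fin (m + 1), g.toOrderHom i = j := by
  rw [nf_sm_apply]
  refine ⟨fun h => ?_, fun ⟨i, h⟩ => Finset.sum_pos (fun i _ => ht i) ⟨i, by simpa using h⟩⟩
  obtain ⟨i, hi, -⟩ := Finset.exists_ne_zero_of_sum_ne_zero h.ne'
  exact ⟨i, by simpa using hi⟩

theorem nf_sm_at (g : ⦋m⦌ ⟶ ⦋n⦌) (hg : Function.Injective g.toOrderHom) (t : Sx m)
    (i : Fin (m + 1)) : sm g t (g.toOrderHom i) = t i := by
  rw [nf_sm_apply]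
  exact Finset.sum_eq_single_of_mem i (by simp) fun j hj e => (e (hg (by simpa using hj))).elim

theorem nf_sm_inj (g : ⦋m⦌ ⟶ ⦋n⦌) (hg : Function.Injective g.toOrderHom) :
    Function.Injective (sm g) := fun s t e => by
  ext i
  rw [← nf_sm_at g hg, e, nf_sm_at g hg]

/-- Every point of a simplex is an interior point of a face. -/
theorem nf_sm_face (t : Sx n) : ∃ (k : ℕ) (a : ⦋k⦌ ⟶ ⦋n⦌) (v : Sx k),
    Function.Injective a.toOrderHom ∧ (∀ i, 0 < v i) ∧ sm a v = t := by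
  let S : Finset (Fin (n + 1)) := {i | t i ≠ 0}
  have hS : ∑ i ∈ S, t i = 1 := by
    rw [Finset.sum_filter_ne_zero]
    exact t.2.2
  obtain ⟨k, hk⟩ : ∃ k, S.card = k + 1 := Nat.exists_eq_succ_of_ne_zero fun h => by
    rw [Finset.card_eq_zero.1 h] at hS
    simp at hS
  let e := S.orderEmbOfFin hk
  have hr (j) : (∃ i, e i = j) ↔ t j ≠ 0 := by
    refine (Set.ext_iff.1 (S.range_orderEmbOfFin hk) j).trans ?_
    simp [S]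
  let a : ⦋k⦌ ⟶ ⦋n⦌ := SimplexCategory.Hom.mk e.toOrderHom
  let v : Sx k := ⟨fun i => t (e i), fun i => t.2.1 _, by
    rw [← hS, ← S.image_orderEmbOfFin_univ hk, Finset.sum_image fun _ _ _ _ h => e.injective h]⟩
  refine ⟨k, a, v, e.injective, fun i => (t.2.1 _).lt_of_ne' ((hr _).1 ⟨i, rfl⟩), ?_⟩
  ext j
  by_cases h : t j = 0
  · rw [h, nf_sm_apply]
    exact Finset.sum_eq_zero fun i hi => ((hr j).1 ⟨i, (Finset.mem_filter.1 hi).2⟩ h).elim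
  · obtain ⟨i, rfl⟩ := (hr j).2 h
    exact nf_sm_at a e.injective v i

theorem nf_hom_fac (d : ⦋m⦌ ⟶ ⦋n⦌) (hd : Function.Injective d.toOrderHom) (a : ⦋k⦌ ⟶ ⦋n⦌)
    (h : ∀ i : Fin (k + 1), ∃ j : Fin (m + 1), d.toOrderHom j = a.toOrderHom i) :
    ∃ r : ⦋k⦌ ⟶ ⦋m⦌, r ≫ d = a := by
  choose r hr using h
  refine ⟨SimplexCategory.Hom.mk ⟨r, fun i j hij => ?_⟩, ?_⟩
  · refine (d.toOrderHom.monotone.strictMono_of_injective hd).le_iff_le.1 ?_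
    rw [hr, hr]
    exact a.toOrderHom.monotone hij
  · ext i : 3
    exact hr i

theorem nf_map_comp (f : ⦋k⦌ ⟶ ⦋m⦌) (g : ⦋m⦌ ⟶ ⦋n⦌) (x : X _⦋n⦌) :
    X.map (f ≫ g).op x = X.map f.op (X.map g.op x) := by
  simp

theorem nf_face (x : X _⦋n⦌) (t : Sx n) : ∃ (k : ℕ) (a : ⦋k⦌ ⟶ ⦋n⦌) (m : ℕ) (b : ⦋k⦌ ⟶ ⦋m⦌)
    (y : X _⦋m⦌) (v : Sx k), Function.Injective a.toOrderHom ∧ Epi b ∧ y ∈ X.nonDegenerate m ∧
      (∀ i, 0 < v i) ∧ X.map a.op x = X.map b.op y ∧ sm a v = t := by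
  obtain ⟨k, a, v, ha, hv, e⟩ := nf_sm_face t
  obtain ⟨m, b, hb, y, hy⟩ := X.exists_nonDegenerate (X.map a.op x)
  exact ⟨k, a, m, b, y.1, v, ha, hb, y.2, hv, hy, e⟩

/-- The triple `q` is a normal form of the pair of a simplex and a point. -/
def NfR (x : X _⦋n⦌) (t : Sx n) (q : Σ m, X _⦋m⦌ × Sx m) : Prop :=
  q.2.1 ∈ X.nonDegenerate q.1 ∧ ∃ (k : ℕ) (a : ⦋k⦌ ⟶ ⦋n⦌) (b : ⦋k⦌ ⟶ ⦋q.1⦌) (v : Sx k),
    Epi b ∧ (∀ i, 0 < v i) ∧ X.map a.op x = X.map b.op q.2.1 ∧ sm a v = t ∧ sm b v = q.2.2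

theorem NfR.eq {x : X _⦋n⦌} {q : Σ m, X _⦋m⦌ × Sx m} {d : ⦋k⦌ ⟶ ⦋n⦌}
    {c : ⦋k⦌ ⟶ ⦋m⦌} {z : X _⦋m⦌} {w : Sx k} (h : NfR x (sm d w) q)
    (hd : Function.Injective d.toOrderHom) [Epi c] (hz : z ∈ X.nonDegenerate m)
    (hw : ∀ i, 0 < w i) (e : X.map d.op x = X.map c.op z) : q = ⟨m, z, sm c w⟩ := by
  obtain ⟨p, y, s⟩ := q
  obtain ⟨hy, l, a, b, v, hb, hv, e1, e2, e3⟩ := h
  dsimp only at hy b hb e1 e3
  have hr (j) := (nf_sm_pos a hv j).symm.trans (e2 ▸ nf_sm_pos d hw j)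
  obtain ⟨r, rfl⟩ := nf_hom_fac d hd a fun i => (hr _).1 ⟨i, rfl⟩
  have : Epi r := SimplexCategory.epi_iff_surjective.2 fun j =>
    ((hr _).2 ⟨j, rfl⟩).imp fun i hi => hd hi
  rw [nf_sm_comp] at e2
  obtain rfl := nf_sm_inj d hd e2
  have e4 : X.map (r ≫ d).op x = X.map (r ≫ c).op z := by rw [nf_map_comp, nf_map_comp, e]
  obtain rfl := X.unique_nonDegenerate_dim _ b ⟨y, hy⟩ e1 _ ⟨z, hz⟩ e4
  obtain rfl : y = z :=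
    congrArg Subtype.val (X.unique_nonDegenerate_simplex _ b ⟨y, hy⟩ e1 _ ⟨z, hz⟩ e4)
  obtain rfl := X.unique_nonDegenerate_map _ b ⟨y, hy⟩ e1 _ ⟨y, hz⟩ e4
  rw [← e3, nf_sm_comp]

theorem NfR.uniq {x : X _⦋n⦌} {t : Sx n} {q q' : Σ m, X _⦋m⦌ × Sx m} (h : NfR x t q)
    (h' : NfR x t q') : q = q' := by
  obtain ⟨k, a, m, b, y, v, ha, hb, hy, hv, e, rfl⟩ := nf_face x t
  exact (h.eq ha hy hv e).trans (h'.eq ha hy hv e).symm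

theorem nfR_cpt : Cpt fun n (x : X _⦋n⦌) t => NfR x t := by
  intro m n g x t
  have key (q) (h : NfR (X.map g.op x) t q) : NfR x (sm g t) q := by
    obtain ⟨hy, l, a, b, v, hb, hv, e1, e2, e3⟩ := h
    exact ⟨hy, l, a ≫ g, b, v, hb, hv, by rw [nf_map_comp, e1], by rw [nf_sm_comp, e2], e3⟩
  ext q
  refine ⟨key q, fun h => ?_⟩
  obtain ⟨k, a, p, b, y, v, -, hb, hy, hv, e, e'⟩ := nf_face (X.map g.op x) t
  have h' : NfR (X.map g.op x) t ⟨p, y, sm b v⟩ := ⟨hy, k, a, b, v, hb, hv, e, e', rfl⟩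
  exact h.uniq (key _ h') ▸ h'

theorem nfR_self {x : X _⦋n⦌} {t : Sx n} (hx : x ∈ X.nonDegenerate n) (ht : ∀ i, 0 < t i) :
    NfR x t ⟨n, x, t⟩ :=
  ⟨hx, n, 𝟙 _, 𝟙 _, t, inferInstance, ht, rfl, nf_sm_id t, nf_sm_id t⟩

theorem nf_ex (p : Rl X) : ∃ (n : ℕ) (x : X _⦋n⦌) (t : Sx n),
    x ∈ X.nonDegenerate n ∧ (∀ i, 0 < t i) ∧ ch x t = p := by
  obtain ⟨n, x, t, rfl⟩ := ch_surj p
  obtain ⟨k, a, m, b, y, v, -, hb, hy, hv, e, rfl⟩ := nf_face x t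
  exact ⟨m, y, sm b v, hy, fun j => (nf_sm_pos b hv j).2
    (SimplexCategory.epi_iff_surjective.1 hb j), by rw [← ch_nat, ← ch_nat, e]⟩

theorem nf_uniq {x : X _⦋n⦌} {y : X _⦋m⦌} {t : Sx n} {s : Sx m} (hx : x ∈ X.nonDegenerate n)
    (hy : y ∈ X.nonDegenerate m) (ht : ∀ i, 0 < t i) (hs : ∀ i, 0 < s i) (e : ch x t = ch y s) :
    (⟨n, x, t⟩ : Σ n, X _⦋n⦌ × Sx n) = ⟨m, y, s⟩ :=
  (nfR_self hx ht).uniq (nfR_cpt.eq e ▸ nfR_self hy hs)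

/-- The fibre over a point in normal form, with an injective face operator. -/
theorem ch_eq_face {x : X _⦋n⦌} {y : X _⦋m⦌} {t : Sx n} {s : Sx m} (hy : y ∈ X.nonDegenerate m)
    (hs : ∀ i, 0 < s i) (e : ch x t = ch y s) : ∃ (k : ℕ) (a : ⦋k⦌ ⟶ ⦋n⦌) (b : ⦋k⦌ ⟶ ⦋m⦌)
      (v : Sx k), Function.Injective a.toOrderHom ∧ Epi b ∧ (∀ i, 0 < v i) ∧
        X.map a.op x = X.map b.op y ∧ sm a v = t ∧ sm b v = s := by
  obtain ⟨k, a, p, b, z, v, ha, hb, hz, hv, e1, rfl⟩ := nf_face x t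
  have h : NfR x (sm a v) ⟨m, y, s⟩ := nfR_cpt.eq e ▸ nfR_self hy hs
  have h2 := h.eq ha hz hv e1
  obtain rfl : m = p := congrArg Sigma.fst h2
  obtain ⟨rfl, rfl⟩ := Prod.mk.inj (eq_of_heq (Sigma.mk.inj h2).2)
  exact ⟨k, a, b, v, ha, hb, hv, e1, rfl, rfl⟩

theorem ch_eq_nf {x : X _⦋n⦌} {y : X _⦋m⦌} {t : Sx n} {s : Sx m} (hy : y ∈ X.nonDegenerate m)
    (hs : ∀ i, 0 < s i) : ch x t = ch y s ↔ ∃ k ≤ n, ∃ (a : ⦋k⦌ ⟶ ⦋n⦌) (b : ⦋k⦌ ⟶ ⦋m⦌)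
      (v : Sx k), X.map a.op x = X.map b.op y ∧ sm a v = t ∧ sm b v = s := by
  refine ⟨fun e => ?_, ?_⟩
  · obtain ⟨k, a, b, v, ha, -, -, h⟩ := ch_eq_face hy hs e
    have := SimplexCategory.mono_iff_injective.2 ha
    exact ⟨k, SimplexCategory.le_of_mono a, a, b, v, h⟩
  · rintro ⟨k, -, a, b, v, e, rfl, rfl⟩
    rw [← ch_nat, ← ch_nat, e]

theorem nf_app_inj (f : X ⟶ Y) [Mono f] (n : ℕ) : Function.Injective (f.app (op ⦋n⦌)) :=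
  (mono_iff_injective _).1 inferInstance

theorem nf_app_map (f : X ⟶ Y) (g : ⦋m⦌ ⟶ ⦋n⦌) (x : X _⦋n⦌) :
    f.app _ (X.map g.op x) = Y.map g.op (f.app _ x) :=
  ConcreteCategory.congr_hom (f.naturality g.op) x

theorem rm_inj (f : X ⟶ Y) [Mono f] : Function.Injective (rm f) := fun p q e => by
  obtain ⟨n, x, t, hx, ht, rfl⟩ := nf_ex p
  obtain ⟨m, y, s, hy, hs, rfl⟩ := nf_ex q
  rw [ch_map, ch_map] at e
  have h := nf_uniq ((SSet.nonDegenerate_iff_of_mono f x).2 hx)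
    ((SSet.nonDegenerate_iff_of_mono f y).2 hy) ht hs e
  obtain rfl : n = m := congrArg Sigma.fst h
  obtain ⟨h1, rfl⟩ := Prod.mk.inj (eq_of_heq (Sigma.mk.inj h).2)
  rw [nf_app_inj f _ h1]

theorem nf_closed {D : ∀ k, (⦋k⦌ ⟶ ⦋n⦌) → Set (Sx k)} (h : ∀ k a, IsClosed (D k a))
    {C : Set (Sx n)} (e : ∀ t, t ∈ C ↔ ∃ k ≤ n, ∃ a, ∃ v ∈ D k a, sm a v = t) : IsClosed C := by
  have : C = ⋃ k : Fin (n + 1), ⋃ a, sm a '' D k a := by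
    ext t
    simp only [e, Set.mem_iUnion, Set.mem_image]
    exact ⟨fun ⟨k, hk, h⟩ => ⟨⟨k, Nat.lt_succ_of_le hk⟩, h⟩,
      fun ⟨k, h⟩ => ⟨k, Nat.le_of_lt_succ k.2, h⟩⟩
  rw [this]
  exact isClosed_iUnion_of_finite fun k => isClosed_iUnion_of_finite fun a =>
    ((h k a).isCompact.image (nf_sm_cont a)).isClosed

theorem rm_cemb (f : X ⟶ Y) [Mono f] : IsClosedEmbedding (rm f) := by
  refine .of_continuous_injective_isClosedMap (rm f).continuous (rm_inj f) fun C hC => ?_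
  refine rl_isClosed.2 fun n y => nf_closed (D := fun k a =>
    ⋃ x ∈ {x | f.app (op ⦋k⦌) x = Y.map a.op y}, ch x ⁻¹' C) (fun k a => ?_) fun t => ?_
  · exact Set.Finite.isClosed_biUnion (Set.Subsingleton.finite fun x hx z hz =>
      nf_app_inj f _ (hx.trans hz.symm)) fun x _ => hC.preimage (ch x).continuous
  · refine ⟨fun ⟨p, hp, e⟩ => ?_, ?_⟩
    · obtain ⟨m, x, s, hx, hs, rfl⟩ := nf_ex p
      rw [ch_map] at e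
      obtain ⟨k, hk, a, b, v, e1, e2, rfl⟩ :=
        (ch_eq_nf ((SSet.nonDegenerate_iff_of_mono f x).2 hx) hs).1 e.symm
      exact ⟨k, hk, a, v, Set.mem_biUnion (x := X.map b.op x) ((nf_app_map f b x).trans e1.symm)
        (by rwa [Set.mem_preimage, ch_nat]), e2⟩
    · rintro ⟨k, -, a, v, hv, rfl⟩
      obtain ⟨x, hx, hv⟩ := Set.mem_iUnion₂.1 hv
      exact ⟨_, hv, by rw [ch_map, hx, ch_nat]⟩

instance rl_t1 : T1Space (Rl X) := ⟨fun p => by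
  obtain ⟨m, y, s, hy, hs, rfl⟩ := nf_ex p
  refine rl_isClosed.2 fun n x => nf_closed (D := fun k a =>
    ⋃ b : ⦋k⦌ ⟶ ⦋m⦌, ⋃ _ : X.map a.op x = X.map b.op y, sm b ⁻¹' ({s} : Set (Sx m))) (fun k a => ?_) fun t => ?_
  · exact isClosed_iUnion_of_finite fun b => isClosed_iUnion_of_finite fun _ =>
      isClosed_singleton.preimage (nf_sm_cont b)
  · refine (ch_eq_nf hy hs).trans ⟨?_, ?_⟩
    · rintro ⟨k, hk, a, b, v, e1, e2, e3⟩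
      exact ⟨k, hk, a, v, Set.mem_iUnion₂.2 ⟨b, e1, e3⟩, e2⟩
    · rintro ⟨k, hk, a, v, hv, e⟩
      obtain ⟨b, hb, hv⟩ := Set.mem_iUnion₂.1 hv
      exact ⟨k, hk, a, b, v, hb, e, hv⟩⟩

theorem mem_range_rm (f : X ⟶ Y) {y : Y _⦋n⦌} {t : Sx n} (ht : ∀ i, 0 < t i) :
    ch y t ∈ Set.range (rm f) ↔ y ∈ Set.range (f.app (op ⦋n⦌)) := by
  refine ⟨fun ⟨p, e⟩ => ?_, fun ⟨x, e⟩ => ⟨ch x t, by rw [ch_map, e]⟩⟩
  obtain ⟨m, x, s, -, hs, rfl⟩ := nf_ex p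
  obtain ⟨l, c, hc, ⟨z, hz⟩, e0⟩ := Y.exists_nonDegenerate (f.app (op ⦋m⦌) x)
  rw [ch_map, e0, ch_nat] at e
  obtain ⟨k, a, b, v, ha, -, hv, e1, rfl, -⟩ := ch_eq_face hz (fun j => (nf_sm_pos c hs j).2
    (SimplexCategory.epi_iff_surjective.1 hc j)) e.symm
  have : IsIso a := SimplexCategory.isIso_of_bijective
    ⟨ha, fun j => (nf_sm_pos a hv j).1 (ht j)⟩
  obtain ⟨⟨hc'⟩⟩ := isSplitEpi_of_epi c
  refine ⟨X.map (inv a ≫ b ≫ hc'.section_).op x, ?_⟩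
  rw [nf_app_map, e0, ← nf_map_comp, Category.assoc, Category.assoc, hc'.id, Category.comp_id,
    nf_map_comp, ← e1, ← nf_map_comp]
  simp

theorem mem_range_sub (A : X.Subcomplex) {x : X _⦋n⦌} {t : Sx n} (ht : ∀ i, 0 < t i) :
    ch x t ∈ Set.range (rm A.ι) ↔ x ∈ A.obj (op ⦋n⦌) :=
  (mem_range_rm A.ι ht).trans ⟨fun ⟨z, e⟩ => e ▸ z.2, fun h => ⟨⟨x, h⟩, rfl⟩⟩

end Pool.Agent.Lib.MP_5d3e93_al.Br
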