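import Pool.Agent.Lib.MP_5d3e93_al.Br.Df
import Pool.Agent.Lib.MP_5d3e93_al.Br.Att

/-! Attaching cells to a pointed space: gluing and the neighbourhood deformation retraction. -/

open CategoryTheory Topology Set Function Filter Opposite unitInterval

namespace Pool.Agent.Lib.MP_5d3e93_al.Br

universe u v

open Ps

variable {d : ℕ} {A T : Ps.{u}} {i : A ⟶ T} {J : Type v} {ch : J → C(Sx d, T.X)} {n : ℤ}
variable {W K : Type*}

theorem St.ind (H : St d i ch) {P : T.X → Prop} (h0 : ∀ a, P (i.1 a)) (h1 : ∀ x t, P (ch x t))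
    (z : T.X) : P z := by
  obtain ⟨a, rfl⟩ | ⟨x, t, rfl⟩ := H.surj z
  exacts [h0 a, h1 x t]

theorem St.glue0 (H : St d i ch) (g : A.X → W) (F : J → Sx d → W)
    (e : ∀ x t a, i.1 a = ch x t → F x t = g a) :
    ∃ f : T.X → W, (∀ a, f (i.1 a) = g a) ∧ ∀ x t, f (ch x t) = F x t := by
  have k (a) : ∃ w, (∀ b, i.1 b = i.1 a → w = g b) ∧ ∀ x t, ch x t = i.1 a → w = F x t :=
    ⟨g a, fun b hb => by rw [H.emb.injective hb], fun x t hx => (e x t a hx.symm).symm⟩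
  have : ∀ z, ∃ w, (∀ b, i.1 b = z → w = g b) ∧ ∀ x t, ch x t = z → w = F x t := by
    refine H.ind k fun x t => ?_
    by_cases c : ch x t ∈ range i.1
    · obtain ⟨a, ha⟩ := c
      exact ha ▸ k a
    · refine ⟨F x t, fun b hb => (c ⟨b, hb⟩).elim, fun y s hy => ?_⟩
      obtain l | ⟨rfl, rfl⟩ := H.uniq x y t s hy.symm
      · exact (c ((H.bd x t).2 l)).elim
      · rfl
  choose f a b using this
  exact ⟨f, fun p => a _ p rfl, fun x t => b _ x t rfl⟩

variable [TopologicalSpace W] [TopologicalSpace K] [LocallyCompactSpace K]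

theorem St.cont (H : St d i ch) {f : T.X → W} (h0 : Continuous fun a => f (i.1 a))
    (c : ∀ x, Continuous fun t => f (ch x t)) : Continuous f :=
  continuous_iff_isClosed.2 fun _ h => H.cl _ (h.preimage h0) fun x => h.preimage (c x)

theorem St.cont_prod (H : St d i ch) {f : K × T.X → W}
    (h0 : Continuous fun p : K × A.X => f (p.1, i.1 p.2))
    (c : ∀ x, Continuous fun p : K × Sx d => f (p.1, ch x p.2)) : Continuous f := by
  let g (z : T.X) : C(K, W) := ⟨fun s => f (s, z), H.ind (P := fun z => Continuous fun s =>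
    f (s, z)) (fun a => h0.comp (Continuous.prodMk_left a))
      (fun x t => (c x).comp (Continuous.prodMk_left t)) z⟩
  have k : Continuous g :=
    H.cont (ContinuousMap.curry ⟨_, h0.comp continuous_swap⟩).continuous fun x =>
      (ContinuousMap.curry ⟨_, (c x).comp continuous_swap⟩).continuous
  exact (k.comp continuous_snd).eval continuous_fst

theorem St.glue (H : St d i ch) (g : C(A.X, W)) (F : J → C(Sx d, W))
    (e : ∀ x t a, i.1 a = ch x t → F x t = g a) :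
    ∃ f : C(T.X, W), (∀ a, f (i.1 a) = g a) ∧ ∀ x t, f (ch x t) = F x t := by
  obtain ⟨f, a, b⟩ := H.glue0 g (fun x => F x) e
  exact ⟨⟨f, H.cont (g.continuous.congr fun p => (a p).symm) fun x =>
    (F x).continuous.congr fun t => (b x t).symm⟩, a, b⟩

theorem St.glue_prod (H : St d i ch) (g : C(K × A.X, W)) (F : J → C(K × Sx d, W))
    (e : ∀ s x t a, i.1 a = ch x t → F x (s, t) = g (s, a)) :
    ∃ f : C(K × T.X, W), (∀ s a, f (s, i.1 a) = g (s, a)) ∧
      ∀ s x t, f (s, ch x t) = F x (s, t) := by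
  obtain ⟨f, a, b⟩ := H.glue0 (W := K → W) (fun p s => g (s, p)) (fun x t s => F x (s, t))
    fun x t p hp => funext fun s => e s x t p hp
  exact ⟨⟨fun p => f p.2 p.1, H.cont_prod (g.continuous.congr fun p => (congrFun (a _) _).symm)
    fun x => (F x).continuous.congr fun p => (congrFun (b x _) _).symm⟩,
    fun s p => congrFun (a p) s, fun s x t => congrFun (b x t) s⟩

/-- A criterion for embeddings. -/
theorem Ndr.of_emb (h : IsEmbedding i.1) (φ : C(T.X, I)) (D : C(I × T.X, T.X))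
    (h0 : ∀ a, φ (i.1 a) = 0) (h1 : ∀ z, D (0, z) = z) (h2 : ∀ s a, D (s, i.1 a) = i.1 a)
    (h3 : ∀ z, φ z < 1 → D (1, z) ∈ range i.1) : Ndr i := by
  have : Nonempty A.X := ⟨A.pt⟩
  have k (z) (hz : 0 ≤ 1 - 2 * (φ z : ℝ)) : i.1 (invFun i.1 (D (1, z))) = D (1, z) :=
    invFun_eq (h3 z (show (φ z : ℝ) < 1 by linarith))
  refine ⟨⟨fun z => 1 - 2 * (φ z : ℝ), by fun_prop⟩, D, fun z => invFun i.1 (D (1, z)), ?_, h1,
    h2, fun a => ?_, fun a => ?_, k⟩
  · exact h.isInducing.continuousOn_iff.2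
      ((by fun_prop : Continuous fun z => D (1, z)).continuousOn.congr k)
  · show 1 ≤ 1 - 2 * (φ (i.1 a) : ℝ)
    simp [h0]
  · exact (congrArg _ (h2 1 a)).trans (leftInverse_invFun h.injective a)

theorem St.ndr (H : St d i ch) : Ndr i := by
  obtain ⟨φ, D, a, b, c, e⟩ := sx_ndr d
  have k {x t p} (hp : i.1 p = ch x t) : φ t = 0 := (a t).2 ((H.bd x t).1 ⟨p, hp⟩)
  obtain ⟨ψ, ψ0, ψ1⟩ := H.glue (.const _ (0 : I)) (fun _ => φ) fun x t p hp => k hp
  obtain ⟨G, G0, G1⟩ := H.glue_prod (K := I) (i.1.comp .snd)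
    (fun x => (ch x).comp (D.comp .prodSwap))
    fun s x t p hp => (congrArg (ch x) (c t s (k hp))).trans hp.symm
  refine .of_emb H.emb.isEmbedding ψ G ψ0
    (H.ind (G0 0) fun x t => (G1 0 x t).trans (congrArg (ch x) (b t))) G0
    (H.ind (fun p _ => ⟨p, (G0 1 p).symm⟩) fun x t l => ?_)
  rw [ψ1] at l
  rw [G1]
  exact (H.bd x _).2 (e t l)

theorem st_one (d : ℕ) : St d (bi.{u} d) fun _ : Unit => ⟨.inl, continuous_inl⟩ := by
  have : CompactSpace (Bn d) := isCompact_iff_compactSpace.1 (IsClosed.isCompact (by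
    simp only [← mn_eq_zero]
    exact isClosed_eq mn_cont continuous_const))
  have : CompactSpace (Pl.{u} (Bn d)).X := inferInstanceAs (CompactSpace (_ ⊕ _))
  have : T2Space (Pl.{u} (Sx d)).X := inferInstanceAs (T2Space (_ ⊕ _))
  refine ⟨inferInstance, (bi d).1.continuous.isClosedEmbedding ?_, fun _ t => ⟨?_, fun h =>
    ⟨.inl ⟨t, h⟩, rfl⟩⟩, fun _ _ t t' e => .inr ⟨rfl, Sum.inl_injective e⟩, ?_,
    fun C _ h => isClosed_sum_iff.2 ⟨h (), isClosed_discrete _⟩⟩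
  · rintro (s | s) (t | t) e
    · exact congrArg Sum.inl (Subtype.ext (Sum.inl_injective e))
    · cases e
    · cases e
    · rfl
  · rintro ⟨s | s, e⟩
    · exact Sum.inl_injective e ▸ s.2
    · cases e
  · rintro (t | t)
    · exact .inr ⟨(), t, rfl⟩
    · exact .inl ⟨.inr t, rfl⟩

theorem dk_bd {t : Sx d} : dk.{u} t = (Dq d).pt ↔ ∃ k, t k = 0 :=
  qk_eq.trans ⟨fun h => h.elim (fun e => by cases e) fun e => ((st_one d).bd () t).1 e.1,
    fun h => .inr ⟨((st_one d).bd () t).2 h, _, (bi d).2⟩⟩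

theorem dk_cont : Continuous (dk.{u} : Sx d → _) := (qk (bi d)).1.continuous.comp continuous_inl

theorem dq_cases (y : (Dq.{u} d).X) : y = (Dq d).pt ∨ ∃ t, dk t = y :=
  qk_ind y fun
    | .inl t => .inr ⟨t, rfl⟩
    | .inr _ => .inl rfl

theorem dq_ext {Y : Ps.{u}} {f g : Dq d ⟶ Y} (h : ∀ t, f.1 (dk t) = g.1 (dk t)) : f = g :=
  Ps.ext fun y => by
    obtain rfl | ⟨t, rfl⟩ := dq_cases y
    exacts [f.2.trans g.2.symm, h t]

theorem qk_closed {C : Set (Q i).X} : IsClosed C ↔ IsClosed ((qk i).1 ⁻¹' C) :=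
  isQuotientMap_quot_mk.isClosed_preimage.symm

theorem t1_Q [T1Space T.X] (h : IsClosed (range i.1)) : T1Space (Q i).X := by
  refine ⟨fun y => qk_ind y fun x => qk_closed.2 ?_⟩
  have : (qk i).1 ⁻¹' {(qk i).1 x} = {x} ∪ range i.1 ∩ {_z | x ∈ range i.1} :=
    Set.ext fun _ => qk_eq
  rw [this]
  exact isClosed_singleton.union (h.inter isClosed_const)

theorem St.χ_dk (H : St d i ch) (x : J) (t : Sx d) : (H.χ x).1 (dk t) = (qk i).1 (ch x t) := rfl

/-- Maps out of the quotient. -/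
theorem St.ex_q (H : St d i ch) {Y : Ps.{u}} (F : J → C(Sx d, Y.X))
    (h : ∀ x t, (∃ k, t k = 0) → F x t = Y.pt) :
    ∃ p : Q i ⟶ Y, ∀ x t, p.1 ((qk i).1 (ch x t)) = F x t := by
  obtain ⟨f, a, b⟩ := H.glue (.const _ Y.pt) F fun x t p hp => h x t ((H.bd x t).1 ⟨p, hp⟩)
  exact ⟨qm ⟨f, i.2 ▸ a _⟩ a, b⟩

theorem St.ex_p (H : St d i ch) (x : J) : ∃ p : Q i ⟶ Dq d,
    (∀ t, p.1 ((qk i).1 (ch x t)) = dk t) ∧
      ∀ y, y ≠ x → ∀ t, p.1 ((qk i).1 (ch y t)) = (Dq d).pt := by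
  classical
  obtain ⟨p, hp⟩ := H.ex_q (Y := Dq d) (fun y => if y = x then ⟨dk, dk_cont⟩ else .const _ (Dq d).pt)
    fun y t h => by
      split_ifs
      exacts [dk_bd.2 h, rfl]
  exact ⟨p, fun t => by rw [hp, if_pos rfl]; rfl, fun y h t => by rw [hp, if_neg h]; rfl⟩

theorem St.ex_p' (H : St d i ch) : ∃ p : J → (Q i ⟶ Dq d),
    (∀ x, H.χ x ≫ p x = 𝟙 _) ∧ ∀ x y, y ≠ x → H.χ y ≫ p x = cst _ _ := by
  choose p a b using H.ex_p
  exact ⟨p, fun x => dq_ext (a x), fun x y h => dq_ext (b x y h)⟩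

theorem St.q_cases (H : St d i ch) (z : (Q i).X) :
    z = (Q i).pt ∨ ∃ x t, (qk i).1 (ch x t) = z :=
  qk_ind z (H.ind (fun a => .inl (qk_i a)) fun x t => .inr ⟨x, t, rfl⟩)

theorem St.jq (H : St d i ch) : Jq H.χ := by
  obtain ⟨p, a, -⟩ := H.ex_p'
  have := H.t1
  refine ⟨t1_Q H.emb.isClosed_range, fun x => LeftInverse.injective (g := (p x).1) fun y =>
    congrArg (fun f => f.1 y) (a x), fun z => (H.q_cases z).imp_right fun ⟨x, t, e⟩ =>
      ⟨x, dk t, e⟩, fun C h => qk_closed.2 (H.cl _ ?_ fun x => (h x).preimage dk_cont)⟩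
  have : i.1 ⁻¹' ((qk i).1 ⁻¹' C) = {_a | (Q i).pt ∈ C} := Set.ext fun a => by simp
  rw [this]
  exact isClosed_const

end Pool.Agent.Lib.MP_5d3e93_al.Br
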