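import Pool.Agent.Lib.MP_5d3e93_al.Br.Jq
import Pool.Agent.Lib.MP_5d3e93_al.Br.StA

/-! Cone and quotient agree for filtered pairs. -/

open CategoryTheory Topology Set Function Filter Opposite

namespace Pool.Agent.Lib.MP_5d3e93_al.Br

universe u v

open Ps

theorem Ndr.comp {A X Y : Ps.{u}} {i : A ⟶ X} {j : X ⟶ Y} (h : Ndr i) (k : Ndr j) :
    Ndr (i ≫ j) := by
  obtain ⟨u, D, r, hr, D₀, Di, ui, ri, ir⟩ := h
  obtain ⟨u', D', r', hr', D₀', Di', ui', ri', ir'⟩ := k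
  let U : Y.X → ℝ := fun y =>
    if 0 ≤ u' y then min (2 * u' y - 1) (max (u (r' y)) (-1)) else 2 * u' y - 1
  have Uc : Continuous U := by
    refine continuous_if_le continuous_const u'.continuous ?_ (by fun_prop) fun y e => ?_
    · exact ContinuousOn.inf (f := fun y => 2 * u' y - 1) (by fun_prop)
        (ContinuousOn.sup (u.continuous.comp_continuousOn hr') continuousOn_const)
    · exact min_eq_left (by rw [← e]; simp)
  have Up : ∀ y, 0 ≤ U y → 1 ≤ 2 * u' y ∧ 0 ≤ u (r' y) := fun y e => by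
    simp only [U] at e
    split_ifs at e with c
    · obtain ⟨a, b⟩ := le_min_iff.1 e
      exact ⟨by linarith, (le_max_iff.1 b).resolve_right (by norm_num)⟩
    · linarith
  let m : unitInterval × Y.X → ℝ := fun p => min (u' p.2) (2 * p.1 - 1)
  have mc : Continuous m := by fun_prop
  let E : unitInterval × Y.X → Y.X := fun p =>
    if 0 ≤ m p then j.1 (D (pj (2 * m p), r' p.2)) else D' (pj (2 * p.1), p.2)
  have Ec : Continuous E := by
    refine continuous_if_le continuous_const mc ?_ (by fun_prop) fun p e => ?_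
    · exact (j.1.continuous.comp D.continuous).comp_continuousOn (ContinuousOn.prodMk
        (by fun_prop) (hr'.comp continuousOn_snd fun p h => (le_min_iff.1 (show 0 ≤ m p from h)).1))
    · obtain ⟨a, b⟩ := le_min_iff.1 e.le
      rw [← e, mul_zero, pj_le le_rfl, D₀, pj_ge (by linarith), ir' _ a]
  refine ⟨⟨U, Uc⟩, ⟨E, Ec⟩, fun y => r (r' y), ?_, fun y => ?_, fun s a => ?_, fun a => ?_,
    fun a => ?_, fun y e => ?_⟩
  · exact hr.comp (hr'.mono fun y e => by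
      have := (Up y e).1
      show 0 ≤ u' y
      linarith) fun y e => (Up y e).2
  · refine (if_neg fun e => ?_).trans ?_
    · have := (le_min_iff.1 e).2
      norm_num at this
    · rw [pj_le (by simp), D₀']
  · show E (s, j.1 (i.1 a)) = j.1 (i.1 a)
    simp only [E]
    split_ifs
    · rw [ri', Di]
    · exact Di' _ _
  · show 1 ≤ U (j.1 (i.1 a))
    have := ui' (i.1 a)
    simp only [U, if_pos (zero_le_one.trans this), ri']
    exact le_min (by linarith) (le_max_of_le_left (ui a))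
  · show r (r' (j.1 (i.1 a))) = a
    rw [ri', ri]
  · obtain ⟨a, b⟩ := Up y e
    have c : 1 / 2 ≤ m (1, y) := le_min (by linarith) (by norm_num)
    refine ((if_pos (by linarith : 0 ≤ m (1, y))).trans ?_).symm
    rw [pj_ge (by linarith), ← ir _ b]
    rfl

section
variable {A X X' X'' : Ps.{u}} {i : A ⟶ X} {i' : A ⟶ X'} {i'' : A ⟶ X''}

/-- The map of cones. -/
def nq_c (b : X ⟶ X') (e : i ≫ b = i') : C i ⟶ C i' :=
  cm (b ≫ ci i') (cn i') (by fun_prop) (fun a => (cn_zero a).trans (e ▸ rfl)) cn_one cn_pt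

/-- The map of quotients. -/
def nq_q (b : X ⟶ X') (e : i ≫ b = i') : Q i ⟶ Q i' :=
  qm (b ≫ qk i') fun a => (congrArg (fun f => (qk i').1 (f.1 a)) e).trans (qk_i a)

theorem nq_cq (b : X ⟶ X') (e : i ≫ b = i') : nq_c b e ≫ cq i' = cq i ≫ nq_q b e :=
  C_ext (fun _ => rfl) fun _ _ => (nq_q b e).2.symm

theorem nq_bd (b : X ⟶ X') (e : i ≫ b = i') (n : ℤ) (z : Sh (n + 1) (C i)) :
    bd i' n (hm _ (nq_c b e) z) = bd i n z := by
  show ds A n (hm _ (cc i') _) = ds A n _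
  rw [← hm_comp]
  exact congrArg (fun f => ds A n (hm _ f z)) (C_ext (fun _ => rfl) fun _ _ => rfl)

theorem nq_cc {b : X ⟶ X'} {b' : X' ⟶ X''} {c : X ⟶ X''} (e : i ≫ b = i') (e' : i' ≫ b' = i'')
    (e'' : i ≫ c = i'') (k : b ≫ b' = c) : nq_c b e ≫ nq_c b' e' = nq_c c e'' :=
  C_ext (fun _ => k ▸ rfl) fun _ _ => rfl

theorem nq_qq {b : X ⟶ X'} {b' : X' ⟶ X''} {c : X ⟶ X''} (e : i ≫ b = i') (e' : i' ≫ b' = i'')
    (e'' : i ≫ c = i'') (k : b ≫ b' = c) : nq_q b e ≫ nq_q b' e' = nq_q c e'' :=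
  Q_ext fun _ => k ▸ rfl

theorem nq_inj {b : X ⟶ X'} (e : i ≫ b = i') (h : Injective b.1) : Injective (nq_q b e).1 := by
  subst e
  intro x y
  refine qk_ind x fun x => qk_ind y fun y k => qk_eq.2 ?_
  exact (qk_eq.1 k).imp (fun k => h k) fun ⟨⟨a, p⟩, c, q⟩ => ⟨⟨a, h p⟩, c, h q⟩

theorem nq_emb {b : X ⟶ X'} (e : i ≫ b = i') (h : IsClosedEmbedding b.1) :
    IsClosedEmbedding (nq_q b e).1 := by
  refine .of_continuous_injective_isClosedMap (map_continuous _) (nq_inj e h.injective)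
    fun K hK => isQuotientMap_quot_mk.isClosed_preimage.1 ?_
  subst e
  have k : (qk (i ≫ b)).1 ⁻¹' ((nq_q b rfl).1 '' K) = b.1 '' ((qk i).1 ⁻¹' K) := by
    ext y
    refine ⟨fun ⟨x, p, q⟩ => ?_, fun ⟨x, p, q⟩ => ⟨_, p, q ▸ rfl⟩⟩
    revert p q
    refine qk_ind x fun x p q => ?_
    obtain q | ⟨⟨a, s⟩, c, t⟩ := qk_eq.1 q
    · exact ⟨x, p, q⟩
    · refine ⟨i.1 c, ?_, t⟩
      rw [mem_preimage, qk_i, ← qk_i a, h.injective s]
      exact p
  exact k.symm ▸ h.isClosedMap _ (hK.preimage (map_continuous _))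

end

variable {T : Ps.{u}} (F : Fl T)

theorem nq_v0 : ∀ d, F.v0 d ≫ F.w d = F.w 0
  | 0 => Category.id_comp _
  | d + 1 => (Category.assoc _ _ _).trans ((congrArg (F.v0 d ≫ ·) (F.vw d)).trans (nq_v0 d))

theorem nq_ndr (h : ∀ d, Ndr (F.v d)) : ∀ d, Ndr (F.v0 d)
  | 0 => ⟨.const _ 1, .snd, id, continuousOn_id, fun _ => rfl, fun _ _ => rfl, fun _ => le_rfl,
      fun _ => rfl, fun _ _ => rfl⟩
  | d + 1 => (nq_ndr h d).comp (h d)

theorem nq_vs (d : ℕ) : F.v0 d ≫ F.v d = F.v0 (d + 1) := rfl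

/-- The filtration of the quotient. -/
def nq_fl : Fl (Q (F.w 0)) where
  W d := Q (F.v0 d)
  v d := nq_q (F.v d) (nq_vs F d)
  w d := nq_q (F.w d) (nq_v0 F d)
  vw d := nq_qq _ _ _ (F.vw d)
  jq :=
    { t1 := have := F.jq.t1; t1_Q (F.emb 0).isClosed_range
      inj := fun d => nq_inj _ (F.jq.inj d)
      surj := fun z => qk_ind z fun z => (F.jq.surj z).imp (congrArg _)
        fun ⟨d, y, e⟩ => ⟨d, (qk _).1 y, congrArg _ e⟩
      cl := fun _ k => isQuotientMap_quot_mk.isClosed_preimage.1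
        (F.jq.cl _ fun d => (k d).preimage (qk (F.v0 d)).1.continuous) }
  emb d := nq_emb _ (F.emb d)

theorem nq_up (n : ℤ) (d : ℕ) (z : Sh n (C (F.v0 d))) :
    hm n (nq_c (F.w (d + 1)) (nq_v0 F _)) (hm n (nq_c (F.v d) (nq_vs F d)) z) =
      hm n (nq_c (F.w d) (nq_v0 F d)) z := by
  rw [← hm_comp, nq_cc _ _ _ (F.vw d)]

theorem nq_fin (n : ℤ) (x : Sh n (C (F.w 0))) :
    ∃ d z, hm n (nq_c (F.w d) (nq_v0 F d)) z = x := by
  obtain ⟨n, rfl⟩ : ∃ m, n = m + 1 := ⟨n - 1, by ring⟩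
  have mono : Monotone fun d => range (hm (n + 1) (nq_c (F.w d) (nq_v0 F d))) :=
    monotone_nat_of_le_succ fun d _ ⟨z, e⟩ => ⟨_, (nq_up F _ d z).trans e⟩
  obtain ⟨d, e⟩ := F.zero (p := fun d y => ∀ b, hm n (F.v0 d) b = y → ∃ d', hm n (F.v0 d') b = 0)
    (fun d b e => ⟨d, e⟩) (fun d y k b e => k b ((hm_comp _ _ b).trans (congrArg _ e)))
    ((h_ex₃ (F.w 0)).apply_apply_eq_zero x) _ (hm_id _)
  obtain ⟨z, hz⟩ := (h_ex₃ (F.v0 d) _).1 e
  obtain ⟨t, ht⟩ := (h_ex₂ (F.w 0) (x - hm _ (nq_c (F.w d) (nq_v0 F d)) z)).1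
    (by rw [map_sub, nq_bd, hz, sub_self])
  obtain ⟨d', s, rfl⟩ := F.surj t
  obtain ⟨a, ha⟩ := mono (le_max_left d d') ⟨z, rfl⟩
  obtain ⟨b, hb⟩ := mono (le_max_right d d') ⟨hm _ (ci (F.v0 d')) s, rfl⟩
  refine ⟨max d d', a + b, ?_⟩
  rw [map_add, ha, hb, ← hm_comp, show ci (F.v0 d') ≫ nq_c (F.w d') (nq_v0 F d') =
    F.w d' ≫ ci (F.w 0) from rfl, hm_comp, ht, add_sub_cancel]

theorem Fl.cq {T : Ps.{u}} (F : Fl T) (h : ∀ d, Ndr (F.v d)) (n : ℤ) :
    Bijective (hm n (cq (F.w 0))) := by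
  refine ⟨(injective_iff_map_eq_zero _).2 fun x e => ?_, fun x => ?_⟩
  · obtain ⟨d, z, rfl⟩ := nq_fin F n x
    rw [← hm_comp, nq_cq, hm_comp] at e
    refine (nq_fl F).zero (p := fun d y => ∀ z, hm n (Br.cq (F.v0 d)) z = y →
      hm n (nq_c (F.w d) (nq_v0 F d)) z = 0) (fun d z e => ?_) (fun d y k z e => ?_) e z rfl
    · rw [(injective_iff_map_eq_zero _).1 (nq_ndr F h d).bij.1 z e, map_zero]
    · rw [← nq_up]
      refine k _ ?_
      rw [← hm_comp, nq_cq, hm_comp, e]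
      rfl
  · obtain ⟨d, y, rfl⟩ := (nq_fl F).surj x
    obtain ⟨z, rfl⟩ := (nq_ndr F h d).bij.2 y
    exact ⟨hm n (nq_c (F.w d) (nq_v0 F d)) z, by rw [← hm_comp, nq_cq, hm_comp]; rfl⟩

end Pool.Agent.Lib.MP_5d3e93_al.Br
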