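import Pool.Agent.Lib.MP_5d3e93_al.Br.Df
import Pool.Agent.Lib.MP_5d3e93_al.Br.Sa

/-! The complex of the cells of a simplicial pair. -/

open CategoryTheory Set Function Opposite Simplicial AlgebraicTopology.DoldKan

namespace Pool.Agent.Lib.MP_5d3e93_al.Br

universe u

variable {X Y : SSet.{u}} {a : ℕ}

/-- the differential of the chains. -/
noncomputable def nrmD (Y : SSet.{u}) (n : ℕ) : (Y _⦋n + 1⦌ →₀ ℤ) →+ (Y _⦋n⦌ →₀ ℤ) :=
  ((ZC.obj Y).d (n + 1) n).hom.toAddMonoidHom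

/-- the projection of Dold and Kan. -/
noncomputable def nrmP (Y : SSet.{u}) (n : ℕ) : (Y _⦋n⦌ →₀ ℤ) →+ (Y _⦋n⦌ →₀ ℤ) :=
  ((PInfty (X := ZF.obj Y)).f n).hom.toAddMonoidHom

/-- the induced map of chains. -/
noncomputable def nrmF (i : X ⟶ Y) (n : ℕ) : (X _⦋n⦌ →₀ ℤ) →+ (Y _⦋n⦌ →₀ ℤ) :=
  Finsupp.mapDomain.addMonoidHom (i.app _)

theorem nrm_d (n : ℕ) (y : Y _⦋n + 1⦌) (b : ℤ) : nrmD Y n (.single y b) =
    ∑ k : Fin (n + 2), (-1 : ℤ) ^ (k : ℕ) • Finsupp.single (Y.δ k y) b :=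
  (zc_d Y n _).trans (Finset.sum_congr rfl fun _ _ => congrArg _ Finsupp.mapDomain_single)

theorem nrm_dd (n : ℕ) (c) : nrmD Y n (nrmD Y (n + 1) c) = 0 := cn_dd (K := ZC.obj Y) _ _ _ c

theorem nrm_dP (n : ℕ) (c) : nrmP Y n (nrmD Y n c) = nrmD Y n (nrmP Y (n + 1) c) :=
  (ConcreteCategory.congr_hom ((PInfty (X := ZF.obj Y)).comm (n + 1) n) c).symm

theorem nrm_dF (i : X ⟶ Y) (n : ℕ) (c) : nrmF i n (nrmD X n c) = nrmD Y n (nrmF i (n + 1) c) :=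
  (ConcreteCategory.congr_hom ((ZC.map i).comm (n + 1) n) c).symm

theorem nrm_PF (i : X ⟶ Y) (n : ℕ) (c) : nrmP Y n (nrmF i n c) = nrmF i n (nrmP X n c) :=
  ConcreteCategory.congr_hom (PInfty_f_naturality n (ZF.map i)) c

theorem nrm_sig (M : SA.{u}) {n : ℕ} (j : Fin (n + 1)) (w : M _⦋n⦌) :
    ((PInfty (X := M)).f (n + 1)).hom ((M.σ j).hom w) = 0 :=
  LinearMap.congr_fun (congrArg ModuleCat.Hom.hom (σ_comp_PInfty M j)) w

theorem nrm_dec (M : SA.{u}) {n : ℕ} (c : M _⦋n + 1⦌) : ∃ (s : Finset (Fin (n + 1)))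
    (w : Fin (n + 1) → M _⦋n⦌) (q r : M _⦋n + 1⦌), q = ∑ j ∈ s, (M.σ j.rev).hom (w j) ∧
      r = ((PInfty (X := M)).f (n + 1)).hom c ∧ r + q = c := by
  have e := LinearMap.congr_fun (congrArg ModuleCat.Hom.hom (decomposition_Q (X := M) n (n + 1))) c
  rw [ModuleCat.hom_sum, LinearMap.sum_apply] at e
  exact ⟨_, _, _, _, e, rfl,
    LinearMap.congr_fun (congrArg ModuleCat.Hom.hom (PInfty_f_add_QInfty_f (X := M) (n + 1))) c⟩

theorem nrm_deg {n : ℕ} {y : Y _⦋n⦌} (h : y ∉ Y.nonDegenerate n) (b : ℤ) :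
    nrmP Y n (.single y b) = 0 := by
  rw [← SSet.mem_degenerate_iff_notMem_nonDegenerate] at h
  cases n with
  | zero => simp at h
  | succ n =>
    simp only [SSet.degenerate_eq_iUnion_range_σ, mem_iUnion, mem_range] at h
    obtain ⟨j, z, rfl⟩ := h
    rw [← Finsupp.mapDomain_single]
    exact nrm_sig (ZF.obj Y) j (Finsupp.single z b)

theorem nrm_PQ {B : Type*} [AddCommGroup B] {n : ℕ} (φ : (Y _⦋n⦌ →₀ ℤ) →+ B)
    (h : ∀ y ∉ Y.nonDegenerate n, ∀ b, φ (.single y b) = 0) (c) : φ (nrmP Y n c) = φ c := by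
  cases n with
  | zero => rfl
  | succ n =>
    obtain ⟨t, w, q, _, e1, rfl, e⟩ : ∃ (s : Finset (Fin (n + 1)))
        (w : Fin (n + 1) → (Y _⦋n⦌ →₀ ℤ)) (q r : Y _⦋n + 1⦌ →₀ ℤ),
        q = ∑ j ∈ s, Finsupp.mapDomain (Y.σ j.rev) (w j) ∧ r = nrmP Y (n + 1) c ∧ r + q = c :=
      nrm_dec (ZF.obj Y) c
    have s (j : Fin (n + 1)) (w : Y _⦋n⦌ →₀ ℤ) : φ (Finsupp.mapDomain (Y.σ j) w) = 0 := by
      induction w using Finsupp.induction_linear with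
      | zero => rw [Finsupp.mapDomain_zero, map_zero]
      | add u v hu hv => rw [Finsupp.mapDomain_add, map_add, hu, hv, add_zero]
      | single y b =>
        rw [Finsupp.mapDomain_single]
        exact h _ ((Y.mem_degenerate_iff_notMem_nonDegenerate _).1 (Y.σ_mem_degenerate j y)) b
    conv_rhs => rw [← e, map_add]
    rw [left_eq_add, e1, map_sum]
    exact Finset.sum_eq_zero fun j _ => s _ _

open Classical in
/-- the cell of a simplex. -/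
noncomputable def nrmC (i : X ⟶ Y) {d : ℕ} (y : Y _⦋d⦌) : Option (Cl i d) :=
  if h : y ∈ Y.nonDegenerate d ∧ y ∉ range (i.app _) then some ⟨⟨_, h.1⟩, h.2⟩ else none

/-- the projection to the cells. -/
noncomputable def nrmR (i : X ⟶ Y) (d : ℕ) : (Y _⦋d⦌ →₀ ℤ) →+ (Cl i d →₀ ℤ) :=
  Finsupp.liftAddHom fun y => (nrmC i y).elim 0 Finsupp.singleAddHom

/-- the inclusion of the cells. -/
noncomputable def nrmI (i : X ⟶ Y) (d : ℕ) : (Cl i d →₀ ℤ) →+ (Y _⦋d⦌ →₀ ℤ) :=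
  Finsupp.mapDomain.addMonoidHom fun z => z.1.1

variable (i : X ⟶ Y) {d : ℕ}

theorem nrm_cell (z : Cl i d) (b : ℤ) : nrmR i d (.single z.1.1 b) = .single z b := by
  rw [nrmR, Finsupp.liftAddHom_apply_single, nrmC, dif_pos ⟨z.1.2, z.2⟩]
  rfl

theorem nrm_none {y : Y _⦋d⦌} (h : y ∉ Y.nonDegenerate d ∨ y ∈ range (i.app _)) (b : ℤ) :
    nrmR i d (.single y b) = 0 := by
  rw [nrmR, Finsupp.liftAddHom_apply_single, nrmC, dif_neg fun k => h.elim (· k.1) k.2]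
  rfl

theorem nrm_cases (y : Y _⦋d⦌) :
    (∃ z : Cl i d, z.1.1 = y) ∨ y ∉ Y.nonDegenerate d ∨ y ∈ range (i.app _) := by
  by_contra! h
  exact h.1 ⟨⟨y, h.2.1⟩, h.2.2⟩ rfl

theorem nrm_I (z : Cl i d) (b : ℤ) : nrmI i d (.single z b) = .single z.1.1 b :=
  Finsupp.mapDomain_single

theorem nrm_RI (c) : nrmR i d (nrmI i d c) = c :=
  DFunLike.congr_fun (Finsupp.addHom_ext (f := (nrmR i d).comp (nrmI i d)) (g := .id _) fun z b =>
    (congrArg (nrmR i d) (nrm_I i z b)).trans (nrm_cell i z b)) c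

theorem nrm_RF (c) : nrmR i d (nrmF i d c) = 0 :=
  DFunLike.congr_fun (Finsupp.addHom_ext (f := (nrmR i d).comp (nrmF i d)) (g := 0) fun z b =>
    (congrArg _ Finsupp.mapDomain_single).trans (nrm_none i (.inr ⟨z, rfl⟩) b)) c

theorem nrm_RP (c) : nrmR i d (nrmP Y d c) = nrmR i d c :=
  nrm_PQ _ (fun _ h => nrm_none i (.inl h)) c

theorem nrm_Rd (c) : nrmR i d (nrmD Y d c) = cdif (clf i d) ℤ (nrmR i (d + 1) c) := by
  refine DFunLike.congr_fun (Finsupp.addHom_ext (f := (nrmR i d).comp (nrmD Y d))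
    (g := (cdif (clf i d) ℤ).comp (nrmR i (d + 1))) fun y b => ?_) c
  rw [AddMonoidHom.comp_apply, AddMonoidHom.comp_apply]
  rcases nrm_cases i y with ⟨z, rfl⟩ | h | ⟨x, rfl⟩
  · rw [nrm_cell, nrm_d, map_sum, cdif, Finsupp.liftAddHom_apply_single,
      AddMonoidHom.finsetSum_apply]
    refine Finset.sum_congr rfl fun k _ => ?_
    rw [map_zsmul, nrmR, Finsupp.liftAddHom_apply_single]
    rfl
  · rw [nrm_none i (.inl h), map_zero, ← nrm_RP, nrm_dP, nrm_deg h, map_zero, map_zero]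
  · rw [nrm_none i (.inr ⟨x, rfl⟩), map_zero, ← Finsupp.mapDomain_single]
    exact (congrArg _ (nrm_dF i d _).symm).trans (nrm_RF i _)

theorem nrm_ker (c) : ∃ x, nrmP Y d c = nrmP Y d (nrmI i d (nrmR i d c)) + nrmF i d x := by
  induction c using Finsupp.induction_linear with
  | zero => exact ⟨0, by simp⟩
  | add u v hu hv =>
    obtain ⟨x, hx⟩ := hu
    obtain ⟨y, hy⟩ := hv
    exact ⟨x + y, by rw [map_add, map_add, map_add, map_add, map_add, hx, hy, add_add_add_comm]⟩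
  | single y b =>
    rcases nrm_cases i y with ⟨z, rfl⟩ | h | ⟨x, rfl⟩
    · exact ⟨0, by rw [nrm_cell, map_zero, add_zero, nrm_I]⟩
    · exact ⟨0, by simp only [nrm_none i (.inl h), nrm_deg h, map_zero, add_zero]⟩
    · refine ⟨nrmP X d (.single x b), ?_⟩
      rw [nrm_none i (.inr ⟨x, rfl⟩), map_zero, map_zero, zero_add, ← nrm_PF]
      exact congrArg _ Finsupp.mapDomain_single.symm

omit i in
theorem clf_dd (i : X ⟶ Y) (d : ℕ) (c) : cdif (clf i d) ℤ (cdif (clf i (d + 1)) ℤ c) = 0 := by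
  rw [← nrm_RI i c, ← nrm_Rd, ← nrm_Rd, nrm_dd, map_zero]

omit i in
theorem clf_acy (i : X ⟶ Y) [Mono i] (h : Cn a (ZC.map i)) : Acy (clf i) ℤ a := by
  have key {d : ℕ} (hd : d < a) (y : Y _⦋d⦌ →₀ ℤ) (hy : IsCy (ZC.obj Y) d y) :
      ∃ b, cdif (clf i d) ℤ b = nrmR i d y := by
    obtain ⟨x, z, -, e'⟩ : ∃ (x : X _⦋d⦌ →₀ ℤ) (z : Y _⦋d + 1⦌ →₀ ℤ),
      _ ∧ y = nrmF i d x + nrmD Y d z := h.1 d hd y hy
    exact ⟨nrmR i (d + 1) z, by rw [e', map_add, nrm_RF, zero_add, nrm_Rd]⟩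
  have inj (d : ℕ) : Injective (nrmF i d) :=
    Finsupp.mapDomain_injective ((mono_iff_injective (i.app _)).1 inferInstance)
  refine ⟨fun ha c => ?_, fun d hd c hc => ?_⟩
  · obtain ⟨b, e⟩ := key ha (nrmI i 0 c) (cy_zero _)
    exact ⟨b, e.trans (nrm_RI i c)⟩
  · obtain ⟨x, e⟩ := nrm_ker i (nrmD Y d (nrmI i (d + 1) c))
    rw [nrm_Rd, nrm_RI, hc, map_zero, map_zero, zero_add, nrm_dP] at e
    obtain ⟨w, hw'⟩ : ∃ w : X _⦋d + 1⦌ →₀ ℤ, x = nrmD X d w := h.2 d hd x _ (by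
      cases d with
      | zero => exact cy_zero _
      | succ d => exact inj d (((nrm_dF i d x).trans (by rw [← e, nrm_dd])).trans (map_zero _).symm))
      e.symm
    obtain ⟨b, e'⟩ := key hd (nrmP Y _ (nrmI i (d + 1) c) - nrmF i _ w) (by
      change nrmD Y d _ = 0
      rw [map_sub, e, ← nrm_dF, ← hw', sub_self])
    exact ⟨b, by rw [e', map_sub, nrm_RF, sub_zero, nrm_RP, nrm_RI]⟩

end Pool.Agent.Lib.MP_5d3e93_al.Br
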