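import Pool.Agent.Lib.MP_5d3e93_al.Br.Sp

/-! Homotopy groups, suspension maps and cofibre sequences. -/

open CategoryTheory Topology Set unitInterval Function
open scoped Topology.Homotopy

namespace Pool.Agent.Lib.MP_5d3e93_al.Br.Ps

universe u v

variable {A X Y Z : Ps.{u}} {n k : ℕ}

/-- Loops. -/
abbrev Lp (n : ℕ) (X : Ps.{u}) := GenLoop (Fin n) X.X X.pt

theorem ht_of {f g : Lp n X} (H : C(I × (Fin n → I), X.X)) (h0 : ∀ t, H (0, t) = f t)
    (h1 : ∀ t, H (1, t) = g t) (hb : ∀ u, ∀ t ∈ Cube.boundary (Fin n), H (u, t) = X.pt) :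
    GenLoop.Homotopic f g :=
  ⟨⟨⟨H, h0, h1⟩, fun u t e => (hb u t e).trans (f.2 t e).symm⟩⟩

theorem ht_ex {f g : Lp n X} (h : GenLoop.Homotopic f g) : ∃ H : C(I × (Fin n → I), X.X),
    (∀ t, H (0, t) = f t) ∧ (∀ t, H (1, t) = g t) ∧
      ∀ u, ∀ t ∈ Cube.boundary (Fin n), H (u, t) = X.pt :=
  Nonempty.elim h fun H => ⟨H.1.1, H.1.2, H.1.3, fun u t e => (H.2 u t e).trans (f.2 t e)⟩

/-- The homotopy groups, written additively. -/
def G (X : Ps.{u}) (n : ℕ) : Type u := Additive (HomotopyGroup.Pi (n + 2) X.X X.pt)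

noncomputable instance : AddCommGroup (G X n) :=
  inferInstanceAs (AddCommGroup (Additive (HomotopyGroup (Fin (n + 2)) X.X X.pt)))

/-- The class of a loop. -/
def cl (f : Lp (n + 2) X) : G X n := Additive.ofMul (Quotient.mk _ f)

theorem cl_eq {f g : Lp (n + 2) X} : cl f = cl g ↔ GenLoop.Homotopic f g := Quotient.eq

theorem cl_const : cl (GenLoop.const : Lp (n + 2) X) = 0 := rfl

theorem cl_add (i) (f g : Lp (n + 2) X) : cl (GenLoop.transAt i g f) = cl f + cl g :=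
  (HomotopyGroup.mul_spec (i := i)).symm

@[elab_as_elim]
theorem cl_ind {p : G X n → Prop} (x : G X n) (h : ∀ f, p (cl f)) : p x := Quotient.inductionOn x h

theorem cl_zero {f : Lp (n + 2) X} (h : cl f = 0) : ∃ H : C(I × (Fin (n + 2) → I), X.X),
    (∀ t, H (0, t) = f t) ∧ (∀ t, H (1, t) = X.pt) ∧
      ∀ u, ∀ t ∈ Cube.boundary (Fin (n + 2)), H (u, t) = X.pt := ht_ex (cl_eq.1 h)

section
variable (e : Fin n → Fin k) (φ : C((Fin k → I) × X.X, Y.X)) (h0 : ∀ t, φ (t, X.pt) = Y.pt)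
  (h1 : ∀ t x a, t a = 0 ∨ t a = 1 → a ∈ range e ∨ φ (t, x) = Y.pt)

include h0 h1 in
theorem lp_bd {t} (h : t ∈ Cube.boundary (Fin k)) {x}
    (hx : t ∘ e ∈ Cube.boundary (Fin n) → x = X.pt) : φ (t, x) = Y.pt := by
  obtain ⟨a, h⟩ := h
  obtain ⟨b, rfl⟩ | c := h1 t x a h
  · rw [hx ⟨b, h⟩, h0]
  · exact c

/-- Operations on loops. -/
def lp (f : Lp n X) : Lp k Y := ⟨⟨fun t => φ (t, f (t ∘ e)), by fun_prop⟩,
  fun _ h => lp_bd e φ h0 h1 h (f.2 _)⟩

theorem lp_ht {f g : Lp n X} (h : GenLoop.Homotopic f g) :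
    GenLoop.Homotopic (lp e φ h0 h1 f) (lp e φ h0 h1 g) := by
  obtain ⟨H, a, b, c⟩ := ht_ex h
  exact ht_of ⟨fun p => φ (p.2, H (p.1, p.2 ∘ e)), by fun_prop⟩
    (fun t => congrArg (fun x => φ (t, x)) (a _)) (fun t => congrArg (fun x => φ (t, x)) (b _))
    fun u t h => lp_bd e φ h0 h1 h (c u _)

end

/-- Operations on homotopy groups. -/
noncomputable def op (e : Fin (n + 2) → Fin (k + 2)) (φ : C((Fin (k + 2) → I) × X.X, Y.X))
    (h0 : ∀ t, φ (t, X.pt) = Y.pt) (h1 : ∀ t x a, t a = 0 ∨ t a = 1 → a ∈ range e ∨ φ (t, x) = Y.pt)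
    (he : e.Injective) (h2 : ∀ t s x, φ (update t (e 0) s, x) = φ (t, x)) : G X n →+ G Y k :=
  .mk' (Quotient.map (lp e φ h0 h1) fun _ _ => lp_ht e φ h0 h1) fun x y =>
    cl_ind x fun f => cl_ind y fun g => by
      rw [← cl_add 0]
      refine Eq.trans (congrArg cl (GenLoop.ext _ _ fun t => ?_)) (cl_add (e 0) (lp e φ h0 h1 f)
        (lp e φ h0 h1 g))
      show φ (t, GenLoop.transAt 0 g f (t ∘ e)) = _
      simp only [GenLoop.transAt, GenLoop.coe_copy, Function.comp_apply]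
      have k : ∀ (l : Lp (n + 2) X) s, φ (t, l (update (t ∘ e) 0 s)) =
          lp e φ h0 h1 l (update t (e 0) s) := fun l s =>
        (h2 _ s _).symm.trans (by rw [← update_comp_eq_of_injective _ he]; rfl)
      split_ifs <;> exact k ..

/-- Induced maps. -/
noncomputable def pm (f : X ⟶ Y) : G X n →+ G Y n :=
  op id ⟨fun p => f.1 p.2, by fun_prop⟩ (fun _ => f.2) (fun _ _ a _ => .inl ⟨a, rfl⟩) injective_id
    fun _ _ _ => rfl

/-- Composition of a loop with a map. -/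
def lm (f : X ⟶ Y) (g : Lp n X) : Lp n Y :=
  ⟨f.1.comp g.1, fun t h => (congrArg f.1 (g.2 t h)).trans f.2⟩

@[simp] theorem lm_apply (f : X ⟶ Y) (g : Lp n X) (t) : lm f g t = f.1 (g t) := rfl

theorem pm_cl (f : X ⟶ Y) (g : Lp (n + 2) X) : pm f (cl g) = cl (lm f g) := rfl

theorem pm_comp (f : X ⟶ Y) (g : Y ⟶ Z) (x : G X n) : pm (f ≫ g) x = pm g (pm f x) :=
  cl_ind x fun _ => rfl

theorem pm_id (x : G X n) : pm (𝟙 X) x = x := cl_ind x fun _ => rfl

theorem Ho.pm {f g : X ⟶ Y} (h : Ho f g) (x : G X n) : pm f x = pm g x := by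
  obtain ⟨H, a, b, c⟩ := h.ex
  exact cl_ind x fun l => cl_eq.2 (ht_of ⟨fun p => H (p.1, l p.2), by fun_prop⟩ (fun _ => a _)
    (fun _ => b _) fun u t e => (congrArg (fun x => H (u, x)) (l.2 t e)).trans (c u))

theorem pm_cst (x : G X n) : pm (cst X Y) x = 0 := cl_ind x fun _ => rfl

/-- Suspension along the coordinate `a`. -/
noncomputable def su (a : Fin (n + 3)) : G X n →+ G X.S (n + 1) :=
  op a.succAbove ⟨fun p => sk (p.1 a) p.2, by fun_prop⟩ (fun _ => sk_pt _)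
    (fun t x b h => (Fin.eq_self_or_eq_succAbove a b).symm.imp (fun ⟨c, e⟩ => ⟨c, e.symm⟩)
      fun (e : b = a) => sk_bp (h.imp (e ▸ id) fun h => .inl (e ▸ h)))
    Fin.succAbove_right_injective
    fun t s x => congrArg (sk · x) (update_of_ne (Fin.succAbove_ne a 0).symm ..)

theorem su_pm (a : Fin (n + 3)) (f : X ⟶ Y) (x : G X n) :
    su a (pm f x) = pm (sp f) (su a x) := cl_ind x fun _ => rfl

/-- Stable exactness. -/
def Ex (a : A ⟶ X) (b : X ⟶ Y) : Prop :=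
  ∀ n (x : G X n), pm b x = 0 → ∃ y : G A.S (n + 1), pm (sp a) y = su 0 x

/-- Cofibre data. -/
def Tri (a : A ⟶ X) (b : X ⟶ Y) : Prop := ∃ (c : Y ⟶ A.S) (K : C(I × Y.X, X.S.X)),
  (∀ x, c.1 (b.1 x) = A.S.pt) ∧ (∀ y, K (0, y) = (sp a).1 (c.1 y)) ∧
    (∀ y, K (1, y) = X.S.pt) ∧ ∀ u x, K (u, b.1 x) = sk u x

theorem Tri.ex {a : A ⟶ X} {b : X ⟶ Y} (h : Tri a b) : Ex a b := by
  obtain ⟨c, K, c₀, K₀, K₁, K₂⟩ := h
  have Kp : ∀ u, K (u, Y.pt) = X.S.pt := fun u => by rw [← b.2, K₂, sk_pt]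
  refine fun n x => cl_ind x fun f e => ?_
  obtain ⟨H, H₀, H₁, H₂⟩ := cl_zero (f := lm b f) e
  have bd : ∀ {t : Fin (n + 3) → I}, t ∈ Cube.boundary _ →
      t 0 = 0 ∨ t 0 = 1 ∨ Fin.tail t ∈ Cube.boundary _ := fun ⟨a, h⟩ =>
    a.cases (fun h => h.imp_right .inl) (fun a h => .inr (.inr ⟨a, h⟩)) h
  refine ⟨cl ⟨⟨fun t => c.1 (H (t 0, Fin.tail t)), by fun_prop⟩, fun t h => ?_⟩, cl_eq.2 (ht_of
    ⟨fun p => K (pj (min 1 (2 * p.1 : ℝ) * p.2 0),
      H (pj (min 1 (2 - 2 * p.1 : ℝ) * p.2 0), Fin.tail p.2)), by fun_prop⟩ (fun t => ?_) (fun t => ?_) fun u t h => ?_)⟩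
  · obtain h | h | h := bd h
    · simp [h, H₀, c₀]
    · simp [h, H₁, c.2]
    · simp [H₂ _ _ h, c.2]
  · simp [pj_le, K₀]; rfl
  · simp [pj_le, H₀, K₂]; rfl
  · obtain h | h | h := bd h
    · simp [h, pj_le, H₀, K₂]
    · obtain k | k := le_total (1 / 2 : ℝ) u
      · simp [h, min_eq_left (show (1 : ℝ) ≤ 2 * u by linarith), pj_ge, K₁]
      · simp [h, min_eq_left (show (1 : ℝ) ≤ 2 - 2 * u by linarith), pj_ge, H₁, Kp]
    · simp [H₂ _ _ h, Kp]

theorem Tri.S {a : A ⟶ X} {b : X ⟶ Y} (h : Tri a b) : Tri (sp a) (sp b) := by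
  obtain ⟨c, K, c₀, K₀, K₁, K₂⟩ := h
  have Kp : ∀ u, K (u, Y.pt) = X.S.pt := fun u => by rw [← b.2, K₂, sk_pt]
  refine ⟨sp c ≫ A.sw, sd (Y := X.S.S) (fun u t y => X.sw.1 (sk t (K (u, y)))) (by fun_prop)
    (by simp [X.sw.2]) (by simp [X.sw.2]) (by simp [Kp, X.sw.2]), fun x => sk_ind x fun t x => ?_,
    fun y => sk_ind y fun t y => ?_, fun y => sk_ind y fun t y => ?_,
    fun u x => sk_ind x fun t x => ?_⟩
  · exact (congrArg (fun y => A.sw.1 (sk t y)) (c₀ x)).trans (by rw [sk_pt]; exact A.sw.2)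
  · exact (congrArg (fun y => X.sw.1 (sk t y)) (K₀ y)).trans
      (congrArg (fun f => f.1 (sk t (c.1 y))) (sw_nat a))
  · exact (congrArg (fun y => X.sw.1 (sk t y)) (K₁ y)).trans (by rw [sk_pt]; exact X.sw.2)
  · exact congrArg (fun y => X.sw.1 (sk t y)) (K₂ u x)

theorem tri_cone (i : A ⟶ X) : Tri i (ci i) :=
  ⟨cc i, cd (Y := X.S) sk (fun u t a => sk (pj (u + t)) (i.1 a)) (by fun_prop) (by fun_prop) sk_pt
    (by simp) (fun u a => by rw [pj_ge (by simpa using u.2.1), sk_one]) (by simp [i.2]),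
    fun _ => rfl, fun y => cn_ind y (fun x => (sk_zero x).trans (sp i).2.symm) (by simp),
    fun y => cn_ind y sk_one fun t a => by
      rw [cd_cn, pj_ge (by simpa using t.2.1), sk_one], fun _ _ => rfl⟩

theorem Ex.left {a : A ⟶ X} {b : X ⟶ Y} {c : X ⟶ Z} {l : Z ⟶ Y} (h : Ex a b) (k : Ho b (c ≫ l)) :
    Ex a c := fun n x e => h n x (by rw [k.pm, pm_comp, e, map_zero])

theorem Ex.rot {W : Ps.{u}} {a : A ⟶ X} {b : X ⟶ Y} {r : X ⟶ Z} {l : Z ⟶ X} {k : Z ⟶ W}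
    {φ : W ⟶ Y} (h : Ex a b) (e₁ : Ho (l ≫ r) (𝟙 Z)) (e₂ : l ≫ b = k ≫ φ) : Ex (a ≫ r) k := by
  intro n x e
  obtain ⟨y, hy⟩ := h n (pm l x) (by rw [← pm_comp, e₂, pm_comp, e, map_zero])
  exact ⟨y, by rw [sp_comp, pm_comp, hy, ← su_pm, ← pm_comp, e₁.pm, pm_id]⟩

/-- The line through the two cones. -/
noncomputable def ln (i : A ⟶ X) (w : ℝ) (a : A.X) : (C (ci i)).X :=
  if 0 ≤ w then (ci (ci i)).1 (cn i (pj w) a) else cn (ci i) (pj (-w)) (i.1 a)

variable {i : A ⟶ X}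

@[fun_prop]
theorem ln_cont {K : Type*} [TopologicalSpace K] {w : K → ℝ} {x : K → A.X} (h : Continuous w)
    (k : Continuous x) : Continuous fun a => ln i (w a) (x a) :=
  Continuous.if_le (by fun_prop) (by fun_prop) continuous_const h fun a e => by
    simp [← e, pj_le]

theorem ln_pos {w : ℝ} (h : 0 ≤ w) (a) : ln i w a = (ci (ci i)).1 (cn i (pj w) a) := if_pos h

theorem ln_neg {w : ℝ} (h : w ≤ 0) (a) : ln i w a = cn (ci i) (pj (-w)) (i.1 a) := by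
  obtain rfl | h := h.eq_or_lt
  · simp [ln, pj_le]
  · exact if_neg h.not_ge

@[simp] theorem ln_pt (w : ℝ) : ln i w A.pt = (C (ci i)).pt := by
  unfold ln; split_ifs <;> simp [i.2]

variable (i) in
/-- From the suspension to the double cone. -/
noncomputable def la : A.S ⟶ C (ci i) := sm (fun s a => ln i (2 * s - 1) a) (by fun_prop)
  (fun a => by rw [ln_neg (by simp), pj_ge (by simp), cn_one])
  (fun a => by rw [ln_pos (by norm_num), pj_ge (by norm_num), cn_one, ci_pt]) (by simp)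

variable (i) in
/-- From the double cone to the suspension. -/
def rh : C (ci i) ⟶ A.S := cm (cc i) (fun _ _ => A.S.pt) continuous_const (fun _ => rfl)
  (fun _ => rfl) fun _ => rfl

theorem ho_la : Ho (ci (ci i)) (cc i ≫ la i) :=
  .of (cd (Y := C (ci i)) (cn (ci i)) (fun r s a => ln i ((1 + r) * s - r) a) (by fun_prop)
    (by fun_prop) cn_pt (fun r a => by rw [ln_neg (by simpa using r.2.1)]; simp)
    (fun r a => by rw [ln_pos (by simp), pj_ge (by simp), cn_one, ci_pt]) (by simp))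
    (fun y => cn_ind y cn_zero fun t a => by rw [cd_cn, ln_pos (by simpa using t.2.1)]; simp)
    (fun y => cn_ind y (fun x => (cn_one x).trans (la i).2.symm) fun t a => by
      simp [la, one_add_one_eq_two]) cn_pt

theorem ho_rh : Ho (la i ≫ rh i) (𝟙 _) :=
  .of (sd (Y := A.S) (fun r s a => sk (pj ((2 - r) * s - (1 - r))) a) (by fun_prop)
    (fun r a => by rw [pj_le (by simpa using r.2.2), sk_zero])
    (fun r a => by rw [pj_ge (by simp; linarith), sk_one]) (by simp))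
    (fun y => sk_ind y fun t a => by
      obtain h | h := le_total (2 * (t : ℝ) - 1) 0
      · simp [la, ln_neg h, pj_le h, rh]
      · simp [la, ln_pos h, rh])
    (fun y => sk_ind y fun t a => by norm_num) fun r => by
      show sk _ A.pt = _
      simp

/-- The reversal of the first half. -/
noncomputable def fh (X : Ps.{u}) : X.S ⟶ X.S := sm (fun s x => sk (pj (1 - 2 * s)) x)
  (by fun_prop) (fun x => by simp [pj_ge]) (fun x => by rw [pj_le (by norm_num), sk_zero]) (by simp)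

theorem la_cc : la i ≫ cc (ci i) = sp i ≫ X.fh := S_ext fun t a => by
  obtain h | h := le_total (2 * (t : ℝ) - 1) 0
  · simp [la, ln_neg h, fh]
  · simp [la, ln_pos h, fh, pj_le (show 1 - 2 * (t : ℝ) ≤ 0 by linarith)]

/-- Functors that keep homotopies and cofibre data. -/
def Gd (F : Ps.{u} ⥤ Ps.{u}) : Prop :=
  (∀ {X Y} {f g : X ⟶ Y}, Ho f g → Ho (F.map f) (F.map g)) ∧
    ∀ {A X Y} {a : A ⟶ X} {b : X ⟶ Y}, Tri a b → Tri (F.map a) (F.map b)

theorem gd_id : Gd (𝟭 Ps.{u}) := ⟨id, id⟩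

theorem Gd.S {F} (h : Gd.{u} F) : Gd (F ⋙ SF) := ⟨fun k => (h.1 k).S, fun k => (h.2 k).S⟩

variable (i)

theorem Gd.ex₁ {F} (h : Gd.{u} F) : Ex (F.map i) (F.map (ci i)) := (h.2 (tri_cone i)).ex

theorem Gd.ex₂ {F} (h : Gd.{u} F) : Ex (F.map (ci i)) (F.map (cc i)) :=
  (h.ex₁ (ci i)).left (F.map_comp .. ▸ h.1 ho_la)

theorem Gd.ex₃ {F} (h : Gd.{u} F) : Ex (F.map (cc i)) (F.map (sp i)) := by
  have := (h.ex₂ (ci i)).rot (r := F.map (rh i)) (l := F.map (la i))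
    (k := F.map (sp i)) (φ := F.map X.fh) (by rw [← F.map_comp, ← F.map_id]; exact h.1 ho_rh)
    (by rw [← F.map_comp, la_cc, F.map_comp])
  rwa [← F.map_comp] at this

end Pool.Agent.Lib.MP_5d3e93_al.Br.Ps
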