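import Mathlib

/-! Colimits of doubly indexed sequences of groups along the diagonals. -/

open Filter

namespace Pool.Agent.Lib.MP_5d3e93_al.Br

universe u v

/-- Groups with two indices and diagonal transition maps. -/
structure Bs where
  G : ℕ → ℕ → Type u
  [grp : ∀ m j, AddCommGroup (G m j)]
  up : ∀ {m j}, G m j →+ G (m + 1) (j + 1)

attribute [instance] Bs.grp

namespace Bs

variable (B : Bs.{u}) (n : ℤ)

/-- Families that are finally compatible. -/
def T : AddSubgroup (∀ m j, B.G m j) where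
  carrier := {x | ∀ᶠ m : ℕ in atTop, ∀ j : ℕ, (j : ℤ) + 2 = n + m → B.up (x m j) = x (m + 1) (j + 1)}
  zero_mem' := .of_forall fun _ _ _ => map_zero _
  add_mem' := fun a b => (a.and b).mono fun m h j e => by
    simp only [Pi.add_apply, map_add, h.1 j e, h.2 j e]
  neg_mem' := fun a => a.mono fun m h j e => by simp only [Pi.neg_apply, map_neg, h j e]

/-- Families that finally vanish. -/
def Z : AddSubgroup (B.T n) where
  carrier := {x | ∀ᶠ m : ℕ in atTop, ∀ j : ℕ, (j : ℤ) + 2 = n + m → x.1 m j = 0}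
  zero_mem' := .of_forall fun _ _ _ => rfl
  add_mem' := fun {x y} a b => (a.and b).mono fun m h j e => by
    show x.1 m j + y.1 m j = 0
    rw [h.1 j e, h.2 j e, add_zero]
  neg_mem' := fun {x} a => a.mono fun m h j e => by
    show -x.1 m j = 0
    rw [h j e, neg_zero]

/-- The colimit in degree `n`. -/
def π : Type u := B.T n ⧸ B.Z n

instance : AddCommGroup (B.π n) := inferInstanceAs (AddCommGroup (B.T n ⧸ B.Z n))

variable {B n}

/-- Elements that die. -/
inductive Nul : ∀ {m j}, B.G m j → Prop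
  | zero {m j} : Nul (0 : B.G m j)
  | up {m j} {y : B.G m j} : Nul (B.up y) → Nul y

/-- The family generated by a family. -/
def gen (b : ∀ p : ℕ × ℕ, B.G p.1 p.2) : ∀ m j, B.G m j
  | 0, j => b (0, j)
  | m + 1, 0 => b (m + 1, 0)
  | m + 1, j + 1 => b (m + 1, j + 1) + B.up (gen b m j)

theorem gen_add (b c : ∀ p : ℕ × ℕ, B.G p.1 p.2) :
    ∀ m j, gen (b + c) m j = gen b m j + gen c m j
  | 0, _ => rfl
  | _ + 1, 0 => rfl
  | m + 1, j + 1 => by simp only [gen, Pi.add_apply, gen_add b c m j, map_add]; abel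

theorem gen_lt {m j} (y : B.G m j) : ∀ m' j', m' < m → gen (Pi.single (m, j) y) m' j' = 0
  | 0, _, h => Pi.single_eq_of_ne (fun e => by simp at e; omega) _
  | _ + 1, 0, h => Pi.single_eq_of_ne (fun e => by simp at e; omega) _
  | m' + 1, j' + 1, h => by
    rw [gen, gen_lt y m' j' (by omega), map_zero, add_zero]
    exact Pi.single_eq_of_ne (fun e => by simp at e; omega) _

theorem gen_self : ∀ {m j} (y : B.G m j), gen (Pi.single (m, j) y) m j = y
  | 0, _, _ => Pi.single_eq_same ..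
  | _ + 1, 0, _ => Pi.single_eq_same ..
  | m + 1, j + 1, y => by
    rw [gen, gen_lt y m j (by omega), map_zero, add_zero]
    exact Pi.single_eq_same (M := fun p : ℕ × ℕ => B.G p.1 p.2) ..

theorem gen_up {m j} (y : B.G m j) {m'} (h : m ≤ m') (j') :
    B.up (gen (Pi.single (m, j) y) m' j') = gen (Pi.single (m, j) y) (m' + 1) (j' + 1) := by
  rw [gen, Pi.single_eq_of_ne (fun e => by simp at e; omega), zero_add]

/-- The canonical maps to the colimit. -/
def of {m j : ℕ} (_h : (j : ℤ) + 2 = n + m) : B.G m j →+ B.π n :=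
  (QuotientAddGroup.mk' (B.Z n)).comp <| AddMonoidHom.mk' (fun y => ⟨gen (Pi.single (m, j) y),
    (eventually_ge_atTop m).mono fun _ h j' _ => gen_up y h j'⟩) fun y z =>
      Subtype.ext (funext₂ fun a b => by
        show gen (Pi.single (m, j) (y + z)) a b = _
        rw [Pi.single_add, gen_add]; rfl)

theorem ind_diag {m j : ℕ} (h : (j : ℤ) + 2 = n + m) {p : ℕ → ℕ → Prop} (h0 : p m j)
    (hs : ∀ m' j' : ℕ, m ≤ m' → (j' : ℤ) + 2 = n + m' → p m' j' → p (m' + 1) (j' + 1)) :
    ∀ m', m ≤ m' → ∀ j' : ℕ, (j' : ℤ) + 2 = n + m' → p m' j' := by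
  intro m' k
  induction m', k using Nat.le_induction with
  | base => intro j' e; obtain rfl : j' = j := by omega
            exact h0
  | succ m' k ih =>
    intro j' e
    obtain ⟨j', rfl⟩ : ∃ i, j' = i + 1 := ⟨j' - 1, by omega⟩
    exact hs m' j' k (by omega) (ih j' (by omega))

theorem of_eq {m j : ℕ} (h : (j : ℤ) + 2 = n + m) (x : B.T n)
    (k : ∀ m', m ≤ m' → ∀ j : ℕ, (j : ℤ) + 2 = n + m' → B.up (x.1 m' j) = x.1 (m' + 1) (j + 1)) :
    of h (x.1 m j) = QuotientAddGroup.mk' (B.Z n) x := by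
  refine QuotientAddGroup.eq.2 ((eventually_ge_atTop m).mono fun m' a j' e => ?_)
  refine neg_add_eq_zero.2 (ind_diag h (p := fun a b =>
    gen (Pi.single (m, j) (x.1 m j)) a b = x.1 a b) (gen_self _) (fun a b c d f => ?_) m' a j' e)
  rw [← gen_up _ c, f, k a c b d]

theorem of_up {m j : ℕ} (h : (j : ℤ) + 2 = n + m) (h') (y : B.G m j) :
    of (m := m + 1) (j := j + 1) h' (B.up y) = of h y := by
  have := of_eq h' ⟨gen (Pi.single (m, j) y),
    (eventually_ge_atTop m).mono fun _ h j' _ => gen_up y h j'⟩ fun m' a j' _ =>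
      gen_up y (by omega) j'
  rw [show B.up y = gen (Pi.single (m, j) y) (m + 1) (j + 1) by rw [← gen_up y le_rfl, gen_self]]
  exact this

theorem ex_of (x : B.π n) :
    ∀ᶠ m : ℕ in atTop, ∃ (j : ℕ) (h : (j : ℤ) + 2 = n + m) (y : B.G m j), of h y = x := by
  obtain ⟨x, rfl⟩ := QuotientAddGroup.mk'_surjective (B.Z n) x
  filter_upwards [eventually_forall_ge_atTop.2 x.2, eventually_ge_atTop (2 - n).toNat] with m a b
  exact ⟨(n + m - 2).toNat, by omega, _, of_eq _ x a⟩

theorem of_eq_zero {m j : ℕ} (h : (j : ℤ) + 2 = n + m) {y : B.G m j} : of h y = 0 ↔ Nul y := by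
  refine ⟨fun e => ?_, fun e => ?_⟩
  · obtain ⟨m', a, b⟩ := (((QuotientAddGroup.eq_zero_iff _).1 e).and (eventually_ge_atTop m)).exists
    refine ind_diag h (p := fun a b => Nul (gen (Pi.single (m, j) y) a b) → Nul y)
      (fun c => by rwa [gen_self] at c) (fun a b c d f g => f (.up ?_)) m' b
      (n + m' - 2).toNat (by omega) ?_
    · rwa [gen_up y c]
    · rw [show gen (Pi.single (m, j) y) m' _ = 0 from a (n + m' - 2).toNat (by omega)]
      exact .zero
  · induction e with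
    | zero => exact map_zero _
    | up _ ih => rw [← of_up h (by push_cast; omega), ih]

theorem ex_lift {A : Type v} [AddCommGroup A] (φ : ∀ (m j : ℕ), (j : ℤ) + 2 = n + m → B.G m j →+ A)
    (hφ : ∀ m j h h' y, φ (m + 1) (j + 1) h' (B.up y) = φ m j h y) :
    ∃ ψ : B.π n →+ A, ∀ m j h y, ψ (of h y) = φ m j h y := by
  have z : ∀ {m j} (y : B.G m j), Nul y → ∀ h, φ m j h y = 0 := fun y e => by
    induction e with
    | zero => exact fun _ => map_zero _
    | up _ ih => exact fun h => (hφ _ _ h (by push_cast; omega) _).symm.trans (ih _)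
  have u : ∀ {m j} h (y : B.G m j) m', m ≤ m' → ∀ j' : ℕ, (j' : ℤ) + 2 = n + m' →
      ∃ h' y', of h' y' = of h y ∧ φ m' j' h' y' = φ m j h y := fun h y =>
    ind_diag h ⟨h, y, rfl, rfl⟩ fun a b _ d ⟨_, y', e, f⟩ =>
      ⟨by push_cast; omega, B.up y', (of_up d _ _).trans e, (hφ _ _ d _ _).trans f⟩
  have w : ∀ {m j} h (y : B.G m j) {m' j'} h' (y' : B.G m' j'), of h y = of h' y' →
      φ m j h y = φ m' j' h' y' := fun {m j} h y {m' j'} h' y' e => by
    obtain ⟨k, a, b, c⟩ := u h y (m + m') (by omega) (j + m') (by push_cast; omega)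
    obtain ⟨_, a', b', c'⟩ := u h' y' (m + m') (by omega) (j + m') k
    rw [← c, ← c', ← sub_eq_zero, ← map_sub]
    exact z _ ((of_eq_zero k).1 (by rw [map_sub, b, b', e, sub_self])) k
  choose m j h y e using fun x : B.π n => (ex_of x).exists
  refine ⟨.mk' (fun x => φ _ _ (h x) (y x)) fun a b => ?_, fun _ _ _ _ => w _ _ _ _ (e _)⟩
  obtain ⟨m', ⟨j₁, h₁, y₁, e₁⟩, j₂, h₂, y₂, e₂⟩ := ((ex_of a).and (ex_of b)).exists
  obtain rfl : j₁ = j₂ := by omega
  rw [w _ _ h₁ y₁ ((e a).trans e₁.symm), w _ _ h₁ y₂ ((e b).trans e₂.symm), ← map_add]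
  exact w _ _ _ _ (by rw [e, map_add, e₁, e₂])

/-- The universal property. -/
noncomputable def lift {A : Type v} [AddCommGroup A]
    (φ : ∀ (m j : ℕ), (j : ℤ) + 2 = n + m → B.G m j →+ A)
    (hφ : ∀ m j h h' y, φ (m + 1) (j + 1) h' (B.up y) = φ m j h y) : B.π n →+ A :=
  (ex_lift φ hφ).choose

theorem lift_of {A : Type v} [AddCommGroup A] {φ : ∀ (m j : ℕ), (j : ℤ) + 2 = n + m → B.G m j →+ A}
    (hφ) {m j} (h) (y) : lift φ hφ (of h y) = φ m j h y := (ex_lift φ hφ).choose_spec ..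

@[elab_as_elim]
theorem ind {p : B.π n → Prop} (x : B.π n)
    (h : ∀ (m j : ℕ) (h : (j : ℤ) + 2 = n + m) (y : B.G m j), p (of h y)) : p x := by
  obtain ⟨m, j, k, y, rfl⟩ := (ex_of x).exists
  exact h ..

end Bs

end Pool.Agent.Lib.MP_5d3e93_al.Br
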