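import Pool.Agent.Lib.MP_5d3e93_al.Br.Pi
import Pool.Agent.Lib.MP_5d3e93_al.Br.Seq

/-! Prespectra, their homotopy groups and the long exact sequence. -/

open CategoryTheory Topology Set unitInterval Function Filter

namespace Pool.Agent.Lib.MP_5d3e93_al.Br

universe u v

/-- The first coordinate of a rotation of the square. -/
noncomputable def rot (u s t : I) : I :=
  pj (1 / 2 + (1 + 4 * u * (1 - u)) * ((1 - u) * (s - 1 / 2) + u * (t - 1 / 2)))

@[fun_prop]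
theorem rot_cont {K : Type*} [TopologicalSpace K] {u s t : K → I} (a : Continuous u)
    (b : Continuous s) (c : Continuous t) : Continuous fun k => rot (u k) (s k) (t k) := by
  unfold rot; fun_prop

@[simp] theorem rot_zero (s t : I) : rot 0 s t = s := by simp [rot]

@[simp] theorem rot_one (s t : I) : rot 1 s t = t := by simp [rot]

theorem rot_bd (u : I) {s t : I} (h : (s = 0 ∨ s = 1) ∨ t = 0 ∨ t = 1) :
    (rot u (σ s) t = 0 ∨ rot u (σ s) t = 1) ∨ rot u t s = 0 ∨ rot u t s = 1 := by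
  have k : ∀ r : ℝ, ¬ (pj (1 / 2 + r) = 0 ∨ pj (1 / 2 + r) = 1) → |r| < 1 / 2 := fun r e =>
    abs_lt.2 ⟨lt_of_not_ge fun l => e (.inl (pj_le (by linarith))),
      lt_of_not_ge fun l => e (.inr (pj_ge (by linarith)))⟩
  by_contra e
  obtain ⟨a, b⟩ := not_or.1 e
  have p := abs_lt.1 (k _ a)
  have q := abs_lt.1 (k _ b)
  obtain ⟨u, u₀, u₁⟩ := u
  have M : 1 ≤ (1 + 4 * u * (1 - u)) * ((1 - u) ^ 2 + u ^ 2) := by
    nlinarith [mul_nonneg (mul_nonneg u₀ (sub_nonneg.2 u₁)) (sq_nonneg (1 - 2 * u))]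
  have c : ∀ p q : ℝ, p < 1 / 2 → q < 1 / 2 → (1 - u) * p + u * q < 1 / 2 := fun p q a b => by
    obtain l | l := le_total p q <;> nlinarith
  simp only [coe_symm_eq] at p q
  have c₁ := c _ _ p.2 (neg_lt.2 q.1)
  have c₂ := c _ _ (neg_lt.2 p.1) q.2
  have c₃ := c _ _ q.2 p.2
  have c₄ := c _ _ (neg_lt.2 q.1) (neg_lt.2 p.1)
  obtain (rfl | rfl) | rfl | rfl := h <;> simp only [Icc.coe_zero, Icc.coe_one] at * <;> nlinarith

namespace Ps

variable {A X Y Z : Ps.{u}} {n : ℕ}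

/-- The reversal of the suspension coordinate. -/
def fl (X : Ps.{u}) : X.S ⟶ X.S := sm (fun s x => sk (σ s) x) (by fun_prop) (by simp) (by simp)
  (by simp)

theorem sk_rot (u : I) {s t : I} (h : (s = 0 ∨ s = 1) ∨ t = 0 ∨ t = 1) (x : X.X) :
    sk (rot u (σ s) t) (sk (rot u t s) x) = X.S.S.pt := by
  obtain (h | h) | h | h := rot_bd u h <;> simp [h]

theorem ho_sw : Ho X.S.fl X.sw :=
  .of (sd (Y := X.S.S) (fun u s y => sd (K := I × I) (Y := X.S.S)
      (fun p t x => sk (rot p.1 (σ p.2) t) (sk (rot p.1 t p.2) x)) (by fun_prop)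
      (fun p x => sk_rot _ (.inr (.inl rfl)) x) (fun p x => sk_rot _ (.inr (.inr rfl)) x) (by simp)
      ((u, s), y)) ((map_continuous _).comp' (show Continuous fun p : I × I × X.S.X =>
        ((p.1, p.2.1), p.2.2) by fun_prop))
    (fun u y => sk_ind y fun t x => sk_rot _ (.inl (.inl rfl)) x)
    (fun u y => sk_ind y fun t x => sk_rot _ (.inl (.inr rfl)) x)
    fun u s => sk_rot _ (.inr (.inl rfl)) _)
    (fun y => sk_ind y fun s y => sk_ind y fun t x => by simp [fl])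
    (fun y => sk_ind y fun s y => sk_ind y fun t x => by simp) fun u => sk_rot _ (.inr (.inl rfl)) _

/-- Cyclic permutation of the coordinates. -/
noncomputable def re : G X n →+ G X n :=
  op (finRotate (n + 2)) ⟨fun p => p.2, by fun_prop⟩ (fun _ => rfl)
    (fun _ _ a _ => .inl ((finRotate _).surjective a)) (finRotate _).injective fun _ _ _ => rfl

theorem su_re (x : G X n) : su 0 x = re (su (Fin.last _) x) :=
  cl_ind x fun f => congrArg cl (GenLoop.ext _ _ fun t => by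
    show sk (t 0) (f (t ∘ _)) = sk (t (finRotate _ (Fin.last _))) (f ((t ∘ finRotate _) ∘ _))
    rw [finRotate_last]
    congr 2
    funext k
    simp)

theorem fl_su (x : G X n) : pm X.fl (su 0 x) = su (Fin.last _) (re x) := by
  refine cl_ind x fun f => cl_eq.2 (ht_of ⟨fun p => sk (rot p.1 (σ (p.2 0)) (p.2 (Fin.last _)))
    (f (update (Fin.tail p.2) (Fin.last _) (rot p.1 (p.2 (Fin.last _)) (p.2 0)))), by fun_prop⟩
    (fun t => ?_) (fun t => ?_) fun u t ⟨a, h⟩ => ?_)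
  · show sk _ (f _) = sk (σ (t 0)) (f (Fin.tail t))
    rw [rot_zero, rot_zero]
    exact congrArg (fun x => sk _ (f x)) (update_eq_self ..)
  · show sk _ (f _) = sk (t (Fin.last _)) (f ((t ∘ _) ∘ finRotate _))
    rw [rot_one, rot_one]
    congr 2
    funext k
    refine k.lastCases (by simp) fun k => ?_
    rw [update_of_ne (Fin.castSucc_ne_last k)]
    simp [Fin.tail]
  · have r : (t 0 = 0 ∨ t 0 = 1) ∨ t (Fin.last _) = 0 ∨ t (Fin.last _) = 1 →
        sk (rot u (σ (t 0)) (t (Fin.last _)))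
          (f (update (Fin.tail t) (Fin.last _) (rot u (t (Fin.last _)) (t 0)))) = X.S.pt := fun h =>
      sk_bp ((rot_bd u h).elim (fun h => h.imp_right .inl) fun h =>
        .inr (.inr (f.2 _ ⟨Fin.last _, by rwa [update_self]⟩)))
    revert h
    refine a.cases (fun h => r (.inl h)) fun a => a.lastCases (fun h => r (.inr h)) fun a h => ?_
    exact sk_bp (.inr (.inr (f.2 _ ⟨a.castSucc, by rwa [update_of_ne (Fin.castSucc_ne_last a)]⟩)))

theorem su_su (x : G X n) : su (Fin.last _) (su 0 x) = pm X.sw (su 0 (su (Fin.last _) x)) :=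
  cl_ind x fun f => congrArg cl (GenLoop.ext _ _ fun t => by
    show sk (t (Fin.last _)) (sk _ (f ((t ∘ _) ∘ _))) = sk _ (sk (t 0) (f ((t ∘ _) ∘ _)))
    congr 3
    funext k
    simp)

theorem ho_ci (i : A ⟶ X) : Ho (i ≫ ci i) (cst _ _) :=
  .of ⟨fun p => cn i p.1 p.2, by fun_prop⟩ cn_zero cn_one cn_pt

theorem ho_cc (i : A ⟶ X) : Ho (cc i ≫ sp i) (cst _ _) := by
  obtain ⟨c, K, -, K₀, K₁, K₂⟩ : ∃ (c : C i ⟶ A.S) (K : C(I × (C i).X, X.S.X)), c = cc i ∧
      (∀ y, K (0, y) = (sp i).1 ((cc i).1 y)) ∧ (∀ y, K (1, y) = X.S.pt) ∧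
        ∀ u x, K (u, (ci i).1 x) = sk u x :=
    ⟨_, cd (Y := X.S) sk (fun u t a => sk (pj (u + t)) (i.1 a)) (by fun_prop) (by fun_prop) sk_pt
      (by simp) (fun u a => by rw [pj_ge (by simpa using u.2.1), sk_one]) (by simp [i.2]), rfl,
      fun y => cn_ind y (fun x => (sk_zero x).trans (sp i).2.symm) (by simp),
      fun y => cn_ind y sk_one fun t a => by
        rw [cd_cn, pj_ge (by simpa using t.2.1), sk_one], fun _ _ => rfl⟩
  exact .of K K₀ K₁ fun u => (K₂ u X.pt).trans (sk_pt u)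

end Ps

open Ps

/-- Prespectra. -/
structure Pre where
  X : ℕ → Ps.{u}
  ev : ∀ m, (X m).S ⟶ X (m + 1)

instance : Category Pre.{u} where
  Hom P Q := {f : ∀ m, P.X m ⟶ Q.X m // ∀ m, sp (f m) ≫ Q.ev m = P.ev m ≫ f (m + 1)}
  id P := ⟨fun _ => 𝟙 _, fun m => by rw [sp_id, Category.id_comp, Category.comp_id]⟩
  comp f g := ⟨fun m => f.1 m ≫ g.1 m, fun m => by
    rw [sp_comp, Category.assoc, g.2, ← Category.assoc, f.2, Category.assoc]⟩

namespace Pre

variable {A P Q R : Pre.{u}} {n : ℤ}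

/-- The groups of a prespectrum. -/
noncomputable def bs (P : Pre.{u}) : Bs.{u} := ⟨fun m j => G (P.X m) j, (pm (P.ev _)).comp (su 0)⟩

/-- The homotopy groups. -/
abbrev π (P : Pre.{u}) (n : ℤ) : Type u := P.bs.π n

/-- The stable class of an element. -/
noncomputable def of (P : Pre.{u}) {m j : ℕ} (h : (j : ℤ) + 2 = n + m) : G (P.X m) j →+ P.π n :=
  Bs.of (B := P.bs) h

theorem of_up {m j : ℕ} (h : (j : ℤ) + 2 = n + m) (h') (y : G (P.X m) j) :
    P.of (m := m + 1) (j := j + 1) h' (pm (P.ev m) (su 0 y)) = P.of h y := Bs.of_up (B := P.bs) h h' y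

theorem ex_of (x : P.π n) :
    ∀ᶠ m : ℕ in atTop, ∃ (j : ℕ) (h : (j : ℤ) + 2 = n + m) (y : G (P.X m) j), P.of h y = x :=
  Bs.ex_of x

@[elab_as_elim]
theorem ind {p : P.π n → Prop} (x : P.π n)
    (h : ∀ (m j : ℕ) (h : (j : ℤ) + 2 = n + m) (y : G (P.X m) j), p (P.of h y)) : p x := Bs.ind x h

theorem pm_up (φ : P ⟶ Q) {m j} (y : G (P.X m) j) :
    pm (φ.1 (m + 1)) (pm (P.ev m) (su 0 y)) = pm (Q.ev m) (su 0 (pm (φ.1 m) y)) := by
  rw [su_pm, ← pm_comp, ← pm_comp, φ.2]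

/-- Induced maps. -/
noncomputable def map (n : ℤ) (φ : P ⟶ Q) : P.π n →+ Q.π n :=
  Bs.lift (B := P.bs) (fun m _ h => (Q.of h).comp (pm (φ.1 m))) fun _ _ h h' y =>
    (congrArg (Q.of h') (pm_up φ y)).trans (of_up h h' _)

theorem map_of (φ : P ⟶ Q) {m j : ℕ} (h : (j : ℤ) + 2 = n + m) (y : G (P.X m) j) :
    map n φ (P.of h y) = Q.of h (pm (φ.1 m) y) := Bs.lift_of (B := P.bs) ..

theorem map_comp (φ : P ⟶ Q) (ψ : Q ⟶ R) (x : P.π n) : map n (φ ≫ ψ) x = map n ψ (map n φ x) :=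
  ind x fun _ _ _ _ => by rw [map_of, map_of, map_of, ← pm_comp]; rfl

theorem map_id (x : P.π n) : map n (𝟙 P) x = x :=
  ind x fun _ _ _ _ => by rw [map_of]; exact congrArg _ (pm_id _)

theorem map_ho {φ ψ : P ⟶ Q} (h : ∀ m, Ho (φ.1 m) (ψ.1 m)) (x : P.π n) : map n φ x = map n ψ x :=
  ind x fun _ _ _ _ => by rw [map_of, map_of, (h _).pm]

theorem map_null {φ : P ⟶ Q} (h : ∀ m, Ho (φ.1 m) (cst _ _)) (x : P.π n) : map n φ x = 0 :=
  ind x fun _ _ _ _ => by rw [map_of, (h _).pm, pm_cst, map_zero]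

/-- A relation that is kept by the transition maps survives until an element dies. -/
theorem of_zero {p : ∀ m j, G (P.X m) j → Prop} {m j : ℕ} {h : (j : ℤ) + 2 = n + m}
    {y : G (P.X m) j} (e : P.of h y = 0) (h0 : ∀ m j : ℕ, (j : ℤ) + 2 = n + m → p m j 0)
    (hs : ∀ (m j : ℕ) y, (j : ℤ) + 2 = n + m → p (m + 1) (j + 1) (pm (P.ev m) (su 0 y)) → p m j y) :
    p m j y := by
  have k : ∀ {m j} (y : P.bs.G m j), Bs.Nul y → (j : ℤ) + 2 = n + m → p m j y := fun y e => by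
    induction e with
    | zero => exact h0 _ _
    | up _ ih => exact fun h => hs _ _ _ h (ih (by push_cast; omega))
  exact k y ((Bs.of_eq_zero (B := P.bs) h).1 e) h

theorem ker (φ : P ⟶ Q) {x : P.π n} (e : map n φ x = 0) : ∀ᶠ m : ℕ in atTop,
    ∃ (j : ℕ) (h : (j : ℤ) + 2 = n + m) (y : G (P.X m) j), P.of h y = x ∧ pm (φ.1 m) y = 0 := by
  obtain ⟨m, j, h, y, rfl⟩ := (ex_of x).exists
  rw [map_of] at e
  obtain ⟨m, j, h, y, a, b⟩ := of_zero (p := fun m j z => ∀ h y, pm (φ.1 m) y = z →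
    ∃ (m' j' : ℕ) (h' : (j' : ℤ) + 2 = n + m') (y' : G (P.X m') j'),
      P.of h' y' = P.of h y ∧ pm (φ.1 m') y' = 0) e (fun m j _ h y e => ⟨m, j, h, y, rfl, e⟩)
    (fun m j z _ k h y e => by
      rw [← of_up h (by push_cast; omega)]
      exact k _ _ (by rw [pm_up, e])) h y rfl
  rw [← a]
  filter_upwards [eventually_ge_atTop m] with m' k
  obtain ⟨c, d⟩ := Bs.ind_diag h (p := fun a b => ∃ (k : (b : ℤ) + 2 = n + a) (z : G (P.X a) b),
    P.of k z = P.of h y ∧ pm (φ.1 a) z = 0) ⟨h, y, rfl, b⟩ (fun a b _ k ⟨_, z, c, d⟩ =>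
      ⟨by push_cast; omega, _, (of_up k _ z).trans c, by rw [pm_up, d, map_zero, map_zero]⟩) m' k
    (n + m' - 2).toNat (by omega)
  exact ⟨_, c, d⟩

theorem ex {a : A ⟶ P} {b : P ⟶ Q} (h : ∀ m, Ex (a.1 m) (b.1 m)) {x : P.π n}
    (e : map n b x = 0) : ∃ y, map n a y = x := by
  obtain ⟨m, j, k, y, rfl, e'⟩ := (ker b e).exists
  obtain ⟨z, hz⟩ := h m j y e'
  refine ⟨A.of (m := m + 1) (j := j + 1) (by push_cast; omega) (pm (A.ev m) z), ?_⟩
  rw [map_of, ← pm_comp, ← a.2, pm_comp, hz, of_up]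

theorem exact {a : A ⟶ P} {b : P ⟶ Q} (h : ∀ m, Ex (a.1 m) (b.1 m))
    (k : ∀ m, Ho (a.1 m ≫ b.1 m) (cst _ _)) : Function.Exact (map n a) (map n b) :=
  fun _ => ⟨ex h, fun ⟨y, e⟩ => by rw [← e, ← map_comp]; exact map_null k y⟩

theorem map_bij {φ : P ⟶ Q} (h : ∀ᶠ m : ℕ in atTop, ∀ j : ℕ, (j : ℤ) + 2 = n + m →
    Bijective (pm (φ.1 m) : G _ j → G _ j)) : Bijective (map n φ) := by
  refine ⟨(injective_iff_map_eq_zero _).2 fun x e => ?_, fun x => ?_⟩
  · obtain ⟨m, ⟨j, k, y, rfl, e'⟩, b⟩ := ((ker φ e).and h).exists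
    rw [(injective_iff_map_eq_zero _).1 (b j k).1 y e', map_zero]
  · obtain ⟨m, ⟨j, k, y, rfl⟩, b⟩ := ((ex_of x).and h).exists
    obtain ⟨z, rfl⟩ := (b j k).2 y
    exact ⟨_, map_of ..⟩

/-- The levelwise suspension. -/
def S (P : Pre.{u}) : Pre.{u} := ⟨fun m => (P.X m).S, fun m => (P.X m).sw ≫ sp (P.ev m)⟩

/-- The levelwise suspension of a map. -/
def spm (φ : P ⟶ Q) : P.S ⟶ Q.S := ⟨fun m => sp (φ.1 m), fun m => by
  show sp (sp (φ.1 m)) ≫ _ ≫ _ = (_ ≫ _) ≫ sp (φ.1 (m + 1))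
  rw [← Category.assoc, sw_nat, Category.assoc, Category.assoc, ← sp_comp, ← sp_comp, φ.2]⟩

theorem su_up {m j} (y : G (P.X m) j) : su (Fin.last _) (pm (P.ev m) (su 0 y)) =
    pm (P.S.ev m) (su 0 (su (Fin.last _) y)) := by
  rw [su_pm, su_su, ← pm_comp]; rfl

/-- The suspension map. -/
noncomputable def s (P : Pre.{u}) (n : ℤ) : P.π n →+ P.S.π (n + 1) :=
  Bs.lift (B := P.bs) (fun m j h => (P.S.of (m := m) (j := j + 1) (by push_cast; omega)).comp
    (su (Fin.last _))) fun m j _ _ y =>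
      (congrArg (P.S.of (m := m + 1) (j := j + 1 + 1) (by push_cast; omega)) (su_up y)).trans
        (of_up (by push_cast; omega) ..)

theorem s_of {m j : ℕ} (h : (j : ℤ) + 2 = n + m) (h') (y : G (P.X m) j) :
    P.s n (P.of h y) = P.S.of (m := m) (j := j + 1) h' (su (Fin.last _) y) :=
  (Bs.lift_of (B := P.bs) _ h y).trans rfl

theorem s_nat (φ : P ⟶ Q) (x : P.π n) : Q.s n (map n φ x) = map (n + 1) (spm φ) (P.s n x) :=
  ind x fun _ _ h _ => by
    rw [map_of, s_of h (by push_cast; omega), s_of h (by push_cast; omega), map_of, su_pm]; rfl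

theorem s_bij : Bijective (P.s n) := by
  refine ⟨(injective_iff_map_eq_zero _).2 fun x => ind x fun m j h y e => ?_,
    fun x => ind x fun m j h y => ?_⟩
  · rw [s_of h (by push_cast; omega)] at e
    refine of_zero (P := P.S) (p := fun m j z => ∀ j' (e : j = j' + 1) h y,
      su (Fin.last _) y = (e ▸ z : G (P.X m).S (j' + 1)) → P.of (n := n) h y = 0) e ?_ ?_ j rfl h y rfl
    · rintro m _ - j rfl h y e
      rw [← of_up h (by push_cast; omega), su_re, show su _ y = 0 from e, map_zero, map_zero,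
        map_zero]
    · rintro m _ z - k j rfl h y e
      rw [← of_up h (by push_cast; omega)]
      exact k _ rfl _ _ (by rw [su_up, e])
  · refine ⟨P.of (m := m + 1) (j := j) (by push_cast; omega) (pm (P.ev m) (re y)), ?_⟩
    rw [s_of _ (by push_cast; omega), su_pm, ← fl_su, ho_sw.pm, ← pm_comp]
    exact of_up (P := P.S) ..

/-- The levelwise cone. -/
def C (φ : P ⟶ Q) : Pre.{u} := ⟨fun m => Ps.C (φ.1 m), fun m => sm (fun t y =>
  cd (Y := Ps.C (φ.1 (m + 1))) (fun t x => (ci _).1 ((Q.ev m).1 (sk t x)))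
    (fun t r a => cn _ r ((P.ev m).1 (sk t a))) (by fun_prop) (by fun_prop)
    (by simp [(Q.ev m).2]) (fun t a => (cn_zero _).trans
      (congrArg (fun f => (ci _).1 (f.1 (sk t a))) (φ.2 m).symm)) (by simp) (by simp [(P.ev m).2])
    (t, y)) (map_continuous _)
  (fun y => cn_ind y (by simp [(Q.ev m).2]) (by simp [(P.ev m).2]))
  (fun y => cn_ind y (by simp [(Q.ev m).2]) (by simp [(P.ev m).2]))
  fun t => congrArg (ci _).1 ((congrArg (Q.ev m).1 (sk_pt t)).trans (Q.ev m).2)⟩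

/-- The inclusion in the cone. -/
def cim (φ : P ⟶ Q) : Q ⟶ C φ := ⟨fun _ => ci _, fun _ => S_ext fun _ _ => rfl⟩

/-- The projection of the cone. -/
def ccm (φ : P ⟶ Q) : C φ ⟶ P.S := ⟨fun _ => cc _, fun m => S_ext fun t y => cn_ind y
  (fun _ => (congrArg (P.S.ev m).1 (sk_pt t)).trans (P.S.ev m).2) fun _ _ => rfl⟩

theorem exact₁ (φ : P ⟶ Q) : Function.Exact (map n φ) (map n (cim φ)) :=
  exact (fun _ => gd_id.ex₁ _) fun _ => ho_ci _

theorem exact₂ (φ : P ⟶ Q) : Function.Exact (map n (cim φ)) (map n (ccm φ)) :=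
  exact (fun _ => gd_id.ex₂ _) fun _ => .refl _

theorem exact₃ (φ : P ⟶ Q) : Function.Exact (map n (ccm φ)) (map n (spm φ)) :=
  exact (fun _ => gd_id.ex₃ _) fun _ => ho_cc _

end Pre

end Pool.Agent.Lib.MP_5d3e93_al.Br
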