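import Pool.Agent.Lib.MP_5d3e93_al.Br.Tp

/-! Relative cubes. -/

open CategoryTheory Topology Set unitInterval Function Filter

namespace Pool.Agent.Lib.MP_5d3e93_al.Br

universe u

namespace Ps

variable {A X Y Z : Ps.{u}} {n : ℕ}

/-- Cubes that are constant on the boundary except on the face `t a = 0`. -/
def Hc (a : Fin (n + 1)) (u : C(Fin (n + 1) → I, X.X)) : Prop :=
  ∀ t, (t a = 1 ∨ t ∘ a.succAbove ∈ Cube.boundary (Fin n)) → u t = X.pt

/-- Relative cubes with face `f` and image `g`. -/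
def Rc (i : A ⟶ X) (q : X ⟶ Y) (a : Fin (n + 1)) (f : Lp n A) (g : Lp (n + 1) Y) : Prop :=
  ∃ u : C(Fin (n + 1) → I, X.X), Hc a u ∧ (∀ t, t a = 0 → u t = i.1 (f (t ∘ a.succAbove))) ∧
    ∀ t, g t = q.1 (u t)

theorem bd_iff (a : Fin (n + 1)) {t : Fin (n + 1) → I} : t ∈ Cube.boundary (Fin (n + 1)) ↔
    t a = 0 ∨ t a = 1 ∨ t ∘ a.succAbove ∈ Cube.boundary (Fin n) := by
  refine ⟨fun ⟨b, h⟩ => ?_, fun h => h.elim (fun h => ⟨a, .inl h⟩) fun h =>
    h.elim (fun h => ⟨a, .inr h⟩) fun ⟨b, h⟩ => ⟨_, h⟩⟩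
  obtain rfl | ⟨c, rfl⟩ := Fin.eq_self_or_eq_succAbove a b
  exacts [h.imp_right .inl, .inr (.inr ⟨c, h⟩)]

theorem upd_comp (a : Fin (n + 1)) (t : Fin (n + 1) → I) (s : I) :
    update t a s ∘ a.succAbove = t ∘ a.succAbove :=
  funext fun b => update_of_ne (Fin.succAbove_ne a b) ..

theorem cl_neg (a) (g : Lp (n + 2) X) : cl (GenLoop.symmAt a g) = -cl g :=
  (HomotopyGroup.inv_spec (i := a)).symm

/-- Two half cubes with the same face give a loop. -/
theorem glue {a : Fin (n + 2)} {u u' : C(Fin (n + 2) → I, X.X)} (h : Hc a u) (h' : Hc a u')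
    (e : ∀ t, t a = 0 → u t = u' t) : ∃ w : G X n, ∀ (Y : Ps.{u}) (φ : X ⟶ Y) (g g' : Lp (n + 2) Y),
      (∀ t, g t = φ.1 (u t)) → (∀ t, g' t = φ.1 (u' t)) → pm φ w = cl g' - cl g := by
  refine ⟨cl ⟨⟨fun t => if (t a : ℝ) ≤ 1 / 2 then u (update t a (σ (pj (2 * t a))))
    else u' (update t a (pj (2 * t a - 1))), Continuous.if_le (by fun_prop) (by fun_prop)
      (by fun_prop) continuous_const fun t k => ?_⟩, fun t k => ?_⟩, fun Y φ g g' k k' => ?_⟩
  · rw [k, pj_ge (by norm_num), pj_le (by norm_num), symm_one]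
    exact e _ (update_self ..)
  · obtain k | k | k := (bd_iff a).1 k
    · exact (if_pos (by simp [k])).trans (h _ (.inl (by simp [k, pj_le])))
    · exact (if_neg (by norm_num [k])).trans (h' _ (.inl (by
        rw [update_self, k, pj_ge (by norm_num)])))
    · show (if _ then _ else _) = _
      split_ifs
      exacts [h _ (.inr (by rwa [upd_comp])), h' _ (.inr (by rwa [upd_comp]))]
  · refine Eq.trans (congrArg cl (GenLoop.ext _ (GenLoop.transAt a (GenLoop.symmAt a g) g')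
      fun t => ?_)) (by rw [cl_add, cl_neg, sub_eq_add_neg])
    show φ.1 (if (t a : ℝ) ≤ 1 / 2 then u (update t a (σ (pj (2 * t a))))
      else u' (update t a (pj (2 * t a - 1)))) = _
    simp only [GenLoop.transAt, GenLoop.symmAt, GenLoop.coe_copy, k, k', update_self]
    split_ifs
    · refine congrArg (fun s => φ.1 (u s)) (funext fun b => ?_)
      by_cases c : b = a
      · rw [c, update_self, if_pos rfl]; rfl
      · rw [update_of_ne c, if_neg c, update_of_ne c]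
    · rfl

variable {i : A ⟶ X} {q : X ⟶ Y}

theorem Rc.cone {a : Fin (n + 3)} {f : Lp (n + 2) A} {g : Lp (n + 3) Y} (h : Rc i q a f g)
    {c : C i ⟶ Y} (h1 : ci i ≫ c = q) (h2 : ∀ t x, c.1 (cn i t x) = Y.pt) :
    ∃ w : G (C i) (n + 1), pm (cc i) w = -su a (cl f) ∧ pm c w = cl g := by
  obtain ⟨u, hu, h0, hg⟩ := h
  obtain ⟨w, hw⟩ := glue (X := C i) (a := a)
    (u := ⟨fun t => cn i (t a) (f (t ∘ a.succAbove)), by fun_prop⟩) (u' := (ci i).1.comp u)
    (fun t k => k.elim (fun k => by simp [k]) fun k => by simp [GenLoop.boundary f _ k])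
    (fun t k => congrArg (ci i).1 (hu t k)) fun t k => by simp [k, h0 t k]
  obtain ⟨s, e, k⟩ : ∃ s : Lp (n + 1 + 2) A.S, su a (cl f) = cl s ∧
      ∀ t, s t = sk (t a) (f (t ∘ a.succAbove)) := ⟨_, rfl, fun _ => rfl⟩
  refine ⟨w, ?_, ?_⟩
  · rw [hw _ _ s GenLoop.const k fun _ => rfl, e, cl_const, zero_sub]
  · rw [hw _ _ GenLoop.const g (fun t => (h2 ..).symm) fun t => by rw [hg, ← h1]; rfl, cl_const,
      sub_zero]

theorem rc_of_ht (z : ∀ x, q.1 (i.1 x) = Y.pt) (a : Fin (n + 1)) {f : Lp n A}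
    (h : GenLoop.Homotopic (lm i f) GenLoop.const) : ∃ g, Rc i q a f g := by
  obtain ⟨H, H₀, H₁, H₂⟩ := ht_ex h
  have c : Hc a ⟨fun t => H (t a, t ∘ a.succAbove), by fun_prop⟩ := fun t k =>
    k.elim (fun k => (congrArg (fun s => H (s, _)) k).trans (H₁ _)) (H₂ _ _)
  have d : ∀ t : Fin (n + 1) → I, t a = 0 → H (t a, t ∘ a.succAbove) = i.1 (f (t ∘ a.succAbove)) :=
    fun t k => (congrArg (fun s => H (s, _)) k).trans (H₀ _)
  exact ⟨⟨⟨fun t => q.1 (H (t a, t ∘ a.succAbove)), by fun_prop⟩, fun t k => ((bd_iff a).1 k).elim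
    (fun k => (congrArg q.1 (d t k)).trans (z _)) fun k => (congrArg q.1 (c t k)).trans q.2⟩,
    _, c, d, fun _ => rfl⟩

/-- In a contractible space the image of a relative cube depends only on the face. -/
theorem Rc.uniq (hX : Ho (𝟙 X) (cst X X)) (z : ∀ x, q.1 (i.1 x) = Y.pt) {a : Fin (n + 1)}
    {f : Lp n A} {g g' : Lp (n + 1) Y} (h : Rc i q a f g) (h' : Rc i q a f g') :
    GenLoop.Homotopic g g' := by
  obtain ⟨H, H₀, H₁, H₂⟩ := hX.ex
  obtain ⟨c, k⟩ : ∃ c : Lp (n + 1) Y, ∀ t, c t = q.1 (H (t a, i.1 (f (t ∘ a.succAbove)))) :=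
    ⟨⟨⟨fun t => q.1 (H (t a, i.1 (f (t ∘ a.succAbove)))), by fun_prop⟩, fun t k => by
      obtain k | k | k := (bd_iff a).1 k
      · simp [k, H₀, z]
      · simp [k, H₁, q.2]
      · simp [GenLoop.boundary f _ k, i.2, H₂, q.2]⟩, fun _ => rfl⟩
  have : ∀ g, Rc i q a f g → GenLoop.Homotopic g c := by
    rintro g ⟨u, hu, h0, hg⟩
    refine ht_of ⟨fun p => q.1 (H (pj (min 1 (2 * p.1 : ℝ) * p.2 a),
      u (update p.2 a (pj (min 1 (2 - 2 * p.1 : ℝ) * p.2 a))))), by fun_prop⟩ (fun t => ?_)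
      (fun t => ?_) fun s t e => ?_
    · simp [pj_le, H₀, hg]
    · simp [pj_le, k, h0 _ (update_self a 0 t), upd_comp]
    · obtain e | e | e := (bd_iff a).1 e
      · simp [e, pj_le, H₀, h0 _ (update_self a 0 t), z]
      · obtain l | l := le_total (1 / 2 : ℝ) s
        · simp [e, min_eq_left (show (1 : ℝ) ≤ 2 * s by linarith), pj_ge, H₁, q.2]
        · simp [e, min_eq_left (show (1 : ℝ) ≤ 2 - 2 * s by linarith), pj_ge,
            hu _ (.inl (update_self a 1 t)), H₂, q.2]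
      · simp [fun s => hu (update t a s) (.inr (by rwa [upd_comp])), H₂, q.2]
  exact (this g h).trans (this g' h').symm

theorem Rc.map {A' X' Y' : Ps.{u}} {i' : A' ⟶ X'} {q' : X' ⟶ Y'} {α : A ⟶ A'} {β : X ⟶ X'}
    {γ : Y ⟶ Y'} (e : i ≫ β = α ≫ i') (e' : q ≫ γ = β ≫ q') {a : Fin (n + 1)} {f : Lp n A} {g}
    (h : Rc i q a f g) : Rc i' q' a (lm α f) (lm γ g) := by
  obtain ⟨u, hu, h0, hg⟩ := h
  exact ⟨β.1.comp u, fun t k => (congrArg β.1 (hu t k)).trans β.2,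
    fun t k => (congrArg β.1 (h0 t k)).trans (congrArg (fun φ : A ⟶ X' => φ.1 _) e),
    fun t => (congrArg γ.1 (hg t)).trans (congrArg (fun φ : X ⟶ Y' => φ.1 _) e')⟩

/-- The suspension of a loop along the first coordinate. -/
def ls (f : Lp n X) : Lp (n + 1) X.S := ⟨⟨fun t => sk (t 0) (f (t ∘ Fin.succ)), by fun_prop⟩,
  fun t k => sk_bp (((bd_iff 0).1 k).imp_right fun k => k.imp_right (f.2 _))⟩

theorem ls_cl (f : Lp (n + 2) X) : cl (ls f) = su 0 (cl f) := rfl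

theorem ls_lm (φ : X ⟶ Y) (f : Lp n X) : ls (lm φ f) = lm (sp φ) (ls f) := rfl

theorem ls_ht {f g : Lp n X} (h : GenLoop.Homotopic f g) : GenLoop.Homotopic (ls f) (ls g) := by
  obtain ⟨H, a, b, c⟩ := ht_ex h
  exact ht_of ⟨fun p => sk (p.2 0) (H (p.1, p.2 ∘ Fin.succ)), by fun_prop⟩
    (fun t => congrArg (sk _) (a _)) (fun t => congrArg (sk _) (b _)) fun s t k =>
      sk_bp (((bd_iff 0).1 k).imp_right fun k => k.imp_right (c s _))

theorem lm_ht (φ : X ⟶ Y) {f g : Lp n X} (h : GenLoop.Homotopic f g) :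
    GenLoop.Homotopic (lm φ f) (lm φ g) := by
  obtain ⟨H, a, b, c⟩ := ht_ex h
  exact ht_of (φ.1.comp H) (fun t => congrArg φ.1 (a _)) (fun t => congrArg φ.1 (b _))
    fun s t k => (congrArg φ.1 (c s t k)).trans φ.2

theorem Rc.S {a : Fin (n + 1)} {f : Lp n A} {g} (h : Rc i q a f g) :
    Rc (sp i) (sp q) a.succ (ls f) (ls g) := by
  obtain ⟨u, hu, h0, hg⟩ := h
  have e (t : Fin (n + 2) → I) : (t ∘ a.succ.succAbove) ∘ Fin.succ = (t ∘ Fin.succ) ∘ a.succAbove :=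
    funext fun b => congrArg t (Fin.succ_succAbove_succ a b)
  have e0 (t : Fin (n + 2) → I) : (t ∘ a.succ.succAbove) 0 = t 0 :=
    congrArg t (Fin.succ_succAbove_zero a)
  refine ⟨⟨fun t => sk (t 0) (u (t ∘ Fin.succ)), by fun_prop⟩, fun t k => sk_bp ?_,
    fun t k => ?_, fun t => congrArg (sk _) (hg _)⟩
  · obtain k | k := k
    · exact .inr (.inr (hu _ (.inl k)))
    · exact ((bd_iff 0).1 k).imp (e0 t).symm.trans fun k => k.imp (e0 t).symm.trans
        fun k => hu _ (.inr (e t ▸ k))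
  · show sk _ _ = sk ((t ∘ a.succ.succAbove) 0) (i.1 (f ((t ∘ a.succ.succAbove) ∘ Fin.succ)))
    rw [e, e0, h0 _ k]

end Ps

open Ps

namespace Pre

variable {X P Y : Pre.{u}} {i : X ⟶ P} {q : P ⟶ Y} {n : ℤ} {m N : ℕ}

/-- The structure map on loops. -/
def lu (X : Pre.{u}) (f : Lp N (X.X m)) : Lp (N + 1) (X.X (m + 1)) := lm (X.ev m) (ls f)

theorem lu_ht {f g : Lp N (X.X m)} (h : GenLoop.Homotopic f g) :
    GenLoop.Homotopic (X.lu f) (X.lu g) := lm_ht _ (ls_ht h)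

theorem lu_lm (φ : X ⟶ Y) (f : Lp N (X.X m)) : Y.lu (lm (φ.1 m) f) = lm (φ.1 (m + 1)) (X.lu f) :=
  congrArg (lm · (ls f)) (φ.2 m)

theorem rc_lu {a : Fin (N + 1)} {f : Lp N (X.X m)} {g} (h : Rc (i.1 m) (q.1 m) a f g) :
    Rc (i.1 (m + 1)) (q.1 (m + 1)) a.succ (X.lu f) (Y.lu g) := h.S.map (i.2 m) (q.2 m)

/-- The stable class of a loop of any dimension. -/
noncomputable def cs (X : Pre.{u}) (h : (N : ℤ) = n + m) (f : Lp N (X.X m)) : X.π n :=
  X.of (m := m + 1 + 1) (j := N) (by push_cast; omega) (cl (X.lu (X.lu f)))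

theorem cs_ht (h : (N : ℤ) = n + m) {f g : Lp N (X.X m)} (k : GenLoop.Homotopic f g) :
    X.cs h f = X.cs h g := congrArg (X.of _) (cl_eq.2 (lu_ht (lu_ht k)))

theorem cs_lu (h : (N : ℤ) = n + m) (h') (f : Lp N (X.X m)) :
    X.cs (N := N + 1) (m := m + 1) h' (X.lu f) = X.cs h f :=
  of_up (P := X) (m := m + 1 + 1) (j := N) _ _ (cl (X.lu (X.lu f)))

theorem cs_cl (h : (N : ℤ) + 2 = n + m) (h') (f : Lp (N + 2) (X.X m)) :
    X.cs h' f = X.of h (cl f) :=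
  (of_up (P := X) (m := m + 1) (j := N + 1) (by push_cast; omega) _ (cl (X.lu f))).trans
    (of_up h _ (cl f))

theorem map_cs (φ : X ⟶ Y) (h : (N : ℤ) = n + m) (f : Lp N (X.X m)) :
    map n φ (X.cs h f) = Y.cs h (lm (φ.1 m) f) := by
  rw [cs, map_of, cs, lu_lm, lu_lm, pm_cl]

theorem Nl.τ_rc (z : Nl i q) (hP : P.Acy) (h : (N : ℤ) = n + m) (h') {f : Lp N (X.X m)} {g}
    (k : Rc (i.1 m) (q.1 m) (Fin.last N) f g) : z.τ hP n (X.cs h f) = -Y.cs h' g := by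
  obtain ⟨w, a, b⟩ := (rc_lu (rc_lu k)).cone (c := z.col.1 _) rfl fun _ _ => rfl
  refine (z.τ_eq hP).2 ⟨-(C i).of (m := m + 1 + 1) (j := N + 1) (by push_cast; omega) w, ?_, ?_⟩
  · rw [map_neg, map_of, cs, s_of _ (by push_cast; omega), ← map_neg]
    exact congrArg _ (neg_eq_iff_eq_neg.2 a)
  · rw [map_neg, map_of]
    exact congrArg (-Y.of _ ·) b

end Pre

end Pool.Agent.Lib.MP_5d3e93_al.Br
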