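import Pool.Agent.Lib.MP_5d3e93_al.Br.Hs

/-! Levelwise stable equivalences of prespectra are equivalences. -/

open CategoryTheory Topology Set Function Filter Opposite

namespace Pool.Agent.Lib.MP_5d3e93_al.Br

universe u v

open Ps

section Wp

/-- The iterated structure maps. -/
def wpE (P : Pre.{u}) (m : ℕ) : ∀ l, (Sl l).obj (P.X m) ⟶ P.X (m + l)
  | 0 => 𝟙 _
  | l + 1 => sp (wpE P m l) ≫ P.ev (m + l)

theorem wpE_nat {P R : Pre.{u}} (φ : P ⟶ R) (m : ℕ) :
    ∀ l, (Sl l).map (φ.1 m) ≫ wpE R m l = wpE P m l ≫ φ.1 (m + l)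
  | 0 => (Category.comp_id _).trans (Category.id_comp _).symm
  | l + 1 => by
    show sp ((Sl l).map (φ.1 m)) ≫ sp (wpE R m l) ≫ R.ev (m + l) =
      (sp (wpE P m l) ≫ P.ev (m + l)) ≫ φ.1 (m + l + 1)
    rw [← Category.assoc, ← sp_comp, wpE_nat φ m l, sp_comp, Category.assoc, Category.assoc, φ.2]

/-- From the stable homotopy of a level to the homotopy of the prespectrum. -/
noncomputable def wpM (P : Pre.{u}) (n : ℤ) (m : ℕ) : Sh (n + m) (P.X m) →+ P.π n :=
  Bs.lift (B := (inf (P.X m)).bs) (fun l j h =>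
    (P.of (m := m + l) (j := j) (by push_cast; omega)).comp (pm (wpE P m l))) fun l j h _ y =>
      Eq.trans (congrArg (P.of (m := m + l + 1) (j := j + 1) (by push_cast; omega))
        ((pm_comp _ _ _).trans (congrArg (pm (P.ev (m + l)))
          ((congrArg (pm (sp (wpE P m l))) (pm_id _)).trans (su_pm 0 _ y).symm))))
        (Pre.of_up (by push_cast; omega) _ _)

theorem wpM_of (P : Pre.{u}) {n : ℤ} {m l j : ℕ} (h : (j : ℤ) + 2 = n + m + l) (h')
    (y : G ((Sl l).obj (P.X m)) j) :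
    wpM P n m ((inf (P.X m)).of h y) = P.of (m := m + l) (j := j) h' (pm (wpE P m l) y) :=
  (Bs.lift_of (B := (inf (P.X m)).bs) _ h y).trans rfl

theorem wpM_zero (P : Pre.{u}) {n : ℤ} {m j : ℕ} (h : (j : ℤ) + 2 = n + m) (h')
    (y : G (P.X m) j) : wpM P n m ((inf (P.X m)).of (m := 0) h' y) = P.of h y :=
  (wpM_of P (l := 0) h' h y).trans (congrArg (P.of h) (pm_id y))

theorem wpM_nat {P R : Pre.{u}} (φ : P ⟶ R) {n : ℤ} {m : ℕ} (x : Sh (n + m) (P.X m)) :
    wpM R n m (hm (n + m) (φ.1 m) x) = Pre.map n φ (wpM P n m x) :=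
  Pre.ind x fun l j h y => by
    have k : (j : ℤ) + 2 = n + (m + l : ℕ) := by push_cast; omega
    refine (congrArg (wpM R n m) (Pre.map_of (infm (φ.1 m)) h y)).trans
      ((wpM_of R h k _).trans (Eq.trans (congrArg (R.of k) ?_)
        ((congrArg (Pre.map n φ) (wpM_of P h k y)).trans (Pre.map_of φ k _)).symm))
    exact (pm_comp _ _ y).symm.trans ((congrArg (pm · y) (wpE_nat φ m l)).trans (pm_comp _ _ y))

theorem Pre.bij_Sh {P R : Pre.{u}} (φ : P ⟶ R) {n : ℤ}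
    (h : ∀ᶠ m : ℕ in atTop, Bijective (hm (n + m) (φ.1 m))) : Bijective (Pre.map n φ) := by
  refine ⟨(injective_iff_map_eq_zero _).2 fun x e => ?_, fun x => ?_⟩
  · obtain ⟨m, ⟨j, k, y, rfl, e'⟩, b⟩ := ((Pre.ker φ e).and h).exists
    have k' : (j : ℤ) + 2 = n + m + (0 : ℕ) := by push_cast; omega
    rw [← wpM_zero P k k', (injective_iff_map_eq_zero _).1 b.1 _
      ((Pre.map_of (infm (φ.1 m)) (m := 0) k' y).trans
        ((congrArg ((inf (R.X m)).of (m := 0) k') e').trans (map_zero _))), map_zero]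
  · obtain ⟨m, ⟨j, k, y, rfl⟩, b⟩ := ((Pre.ex_of x).and h).exists
    have k' : (j : ℤ) + 2 = n + m + (0 : ℕ) := by push_cast; omega
    obtain ⟨z, hz⟩ := b.2 ((inf (R.X m)).of (m := 0) k' y)
    exact ⟨_, (wpM_nat φ z).symm.trans ((congrArg _ hz).trans (wpM_zero R k k' y))⟩

theorem Pre.zero_Sh {P : Pre.{u}} {n : ℤ} (h : ∀ᶠ m : ℕ in atTop, ∀ x : Sh (n + m) (P.X m), x = 0)
    (x : P.π n) : x = 0 := by
  obtain ⟨m, ⟨j, k, y, rfl⟩, b⟩ := ((Pre.ex_of x).and h).exists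
  exact (wpM_zero P k (by push_cast; omega) y).symm.trans ((congrArg _ (b _)).trans (map_zero _))

end Wp

end Pool.Agent.Lib.MP_5d3e93_al.Br
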