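import Pool.Agent.Lib.MP_5d3e93_al.Br.W0
import Pool.Agent.Lib.MP_5d3e93_al.Br.Wp
import Pool.Agent.Lib.MP_5d3e93_al.Br.Un
import Pool.Agent.Lib.MP_5d3e93_al.Br.Rc

/-! Simplicial prespectra. -/

open CategoryTheory Function Filter

namespace Pool.Agent.Lib.MP_5d3e93_al.Br

universe u v

open Ps Simplicial MonoidalCategory CartesianMonoidalCategory SSet

section
variable {X Y P : SSet.{u}} {x : X _⦋0⦌} {y : Y _⦋0⦌} {p : P _⦋0⦌}

theorem rlm_id (h) : rlm (x := x) (𝟙 X) h = 𝟙 (rl X x) := Ps.ext rm_id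

theorem rlm_comp {f : X ⟶ P} {g : P ⟶ Y} (a : f.app _ x = p) (b : g.app _ p = y) (c) :
    rlm (f ≫ g) c = rlm f a ≫ rlm g b := Ps.ext (rm_comp f g)

/-- A simplicial contraction, in either direction. -/
theorem rl_contr (H : X ⊗ Δ[1] ⟶ X)
    (h : ι₀ ≫ H = 𝟙 X ∧ ι₁ ≫ H = const x ∨ ι₀ ≫ H = const x ∧ ι₁ ≫ H = 𝟙 X)
    (hp : (const x : Δ[0] ⟶ X) ▷ Δ[1] ≫ H = const x) : Ho (𝟙 (rl X x)) (cst _ _) := by
  have c : (const x : X ⟶ X).app _ x = x := by simp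
  rw [← rlm_id rfl, ← rlm_const c]
  exact h.elim (fun h => rl_ho H h.1 h.2 hp) fun h => (rl_ho H h.1 h.2 hp).symm

/-- The structure map through a cone gives a relative cube. -/
theorem rc_evS {i : X ⟶ P} {q : P ⟶ Y} (hi : i.app _ x = p) (hq : q.app _ p = y)
    (c : X ⊗ Δ[1] ⟶ P) (c0 : ι₀ ≫ c = i) (c1 : ι₁ ≫ c = const p)
    (cp : (const x : Δ[0] ⟶ X) ▷ Δ[1] ≫ c = const p) (h0 h1 hp) {N : ℕ} (f : Lp N (rl X x)) :
    Rc (rlm i hi) (rlm q hq) 0 f (lm (evS (x := x) (c ≫ q) h0 h1 hp) (ls f)) := by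
  refine ⟨⟨fun t => rm c (pr X (f (t ∘ Fin.succ), t 0)), by fun_prop⟩, fun t k => ?_,
    fun t k => ?_, fun t => rm_comp c q _⟩
  · obtain k | k := k
    · show rm c (pr X (_, t 0)) = _
      rw [k, pr_one, ← rm_comp, c1]
      exact rm_const p v0 _
    · show rm c (pr X (f (t ∘ Fin.succ), t 0)) = _
      exact (congrArg (fun z => rm c (pr X (z, t 0))) (f.2 _ k)).trans (rH_base c x p cp _ v0 v0)
  · show rm c (pr X (_, t 0)) = _
    rw [k, pr_zero, ← rm_comp, c0]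
    rfl
end

/-- Simplicial prespectra. -/
structure SPr where
  X : ℕ → SSet.{u}
  x : ∀ m, X m _⦋0⦌
  H : ∀ m, X m ⊗ Δ[1] ⟶ X (m + 1)
  h0 : ∀ m, ι₀ ≫ H m = const (x (m + 1))
  h1 : ∀ m, ι₁ ≫ H m = const (x (m + 1))
  hp : ∀ m, (const (x m) : Δ[0] ⟶ X m) ▷ Δ[1] ≫ H m = const (x (m + 1))

namespace SPr

instance : Category SPr.{u} where
  Hom P Q := {f : ∀ m, P.X m ⟶ Q.X m //
    (∀ m, (f m).app _ (P.x m) = Q.x m) ∧ ∀ m, f m ▷ Δ[1] ≫ Q.H m = P.H m ≫ f (m + 1)}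
  id P := ⟨fun _ => 𝟙 _, fun _ => rfl, fun _ => by simp⟩
  comp f g := ⟨fun m => f.1 m ≫ g.1 m, fun m => (congrArg ((g.1 m).app _) (f.2.1 m)).trans (g.2.1 m),
    fun m => by rw [comp_whiskerRight, Category.assoc, g.2.2, ← Category.assoc, f.2.2,
      Category.assoc]⟩

theorem ext {P Q : SPr.{u}} {f g : P ⟶ Q} (h : ∀ m, f.1 m = g.1 m) : f = g := Subtype.ext (funext h)

/-- The realisation. -/
noncomputable def R : SPr.{u} ⥤ Pre.{u} where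
  obj P := ⟨fun m => rl (P.X m) (P.x m), fun m => evS (P.H m) (P.h0 m) (P.h1 m) (P.hp m)⟩
  map {P Q} f := ⟨fun m => rlm (f.1 m) (f.2.1 m), fun m => S_ext fun t z => by
    show rm (Q.H m) (pr _ (rm (f.1 m) z, t)) = rm (f.1 (m + 1)) (rm (P.H m) (pr _ (z, t)))
    rw [← pr_nat, ← rm_comp, ← rm_comp, f.2.2]⟩
  map_id _ := Pre.ext fun _ => rlm_id rfl
  map_comp f g := Pre.ext fun m => rlm_comp (f.2.1 m) (g.2.1 m) ((f ≫ g).2.1 m)

variable {X P Y : SPr.{u}} {a : ℕ → ℕ}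

/-- The range grows faster than the index. -/
def Gw (a : ℕ → ℕ) : Prop := Tendsto (fun m : ℕ => (a m : ℤ) - m) atTop atTop

theorem Gw.ev (h : Gw a) (n : ℤ) : ∀ᶠ m : ℕ in atTop, n + m + 1 < a m :=
  (h.eventually_ge_atTop (n + 2)).mono fun _ _ => by omega

theorem gw_two (c : ℕ) : Gw fun m => 2 * m - c := tendsto_atTop.2 fun b =>
  (eventually_ge_atTop (b.toNat + c)).mono fun _ _ => by dsimp only; omega

theorem bij (f : X ⟶ Y) (ha : Gw a) (h : ∀ m, Cn (a m) (ZC.map (f.1 m))) (n : ℤ) :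
    Bijective (Pre.map n (R.map f)) :=
  Pre.bij_Sh _ ((ha.ev n).mono fun m k => w0 _ (f.2.1 m) (h m) k)

theorem bij' (f : X ⟶ Y) (h : ∀ m b, Cn b (ZC.map (f.1 m))) (n : ℤ) :
    Bijective (Pre.map n (R.map f)) := bij f (gw_two 0) (fun _ => h _ _) n

theorem acy (ha : Gw a) (h : ∀ m, Cn (a m) (ZC.map (const (X.x m) : Δ[0] ⟶ X.X m))) :
    (R.obj X).Acy := fun n => Pre.zero_Sh ((ha.ev n).mono fun m k z => by
  obtain ⟨w, rfl⟩ := w0_surj (x := stdSimplex.obj₀Equiv.symm 0) (y := X.x m) _ (by simp)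
    (h m) (by omega) z
  rw [rlm_const]
  exact hm_cst w)

theorem acy_of_ho (h : ∀ m, Ho (𝟙 (rl (X.X m) (X.x m))) (cst _ _)) : (R.obj X).Acy := fun _ z =>
  (Pre.map_id z).symm.trans (Pre.map_null h z)

theorem map_ho {f g : X ⟶ Y} (H : ∀ m, X.X m ⊗ Δ[1] ⟶ Y.X m) (h0 : ∀ m, ι₀ ≫ H m = f.1 m)
    (h1 : ∀ m, ι₁ ≫ H m = g.1 m)
    (hp : ∀ m, (const (X.x m) : Δ[0] ⟶ X.X m) ▷ Δ[1] ≫ H m = const (Y.x m)) {n : ℤ} (z) :
    Pre.map n (R.map f) z = Pre.map n (R.map g) z :=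
  Pre.map_ho (fun m => rl_ho (hf := f.2.1 m) (hg := g.2.1 m) (H m) (h0 m) (h1 m) (hp m)) z

variable {i : X ⟶ P} {q : P ⟶ Y}

theorem nl (e : ∀ m, i.1 m ≫ q.1 m = const (Y.x m)) : Pre.Nl (R.map i) (R.map q) := fun m z =>
  (rm_comp (i.1 m) (q.1 m) z).symm.trans (by rw [e]; exact rm_const _ v0 z)

theorem col_bij [∀ m, Mono (i.1 m)] (e : ∀ m, i.1 m ≫ q.1 m = const (Y.x m)) (ha : Gw a)
    (h : ∀ m, Cn (a m) (ZC.map (sqm (i.1 m) (q.1 m) _ (e m)))) (k : Pre.Nl (R.map i) (R.map q))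
    (n : ℤ) : Bijective (Pre.map n k.col) :=
  Pre.bij_Sh _ ((ha.ev n).mono fun m l =>
    fs0 _ _ (i.2.1 m) (q.2.1 m) (e m) (h m) l _ rfl fun _ _ => rfl)

/-- Directed unions. -/
theorem un {J : Type v} [Preorder J] [IsDirected J (· ≤ ·)] [Nonempty J] {W : J → SPr.{u}}
    {v : ∀ {d e}, d ≤ e → (W d ⟶ W e)} {w : ∀ d, W d ⟶ X}
    (vv : ∀ {d e f} (h : d ≤ e) (k : e ≤ f), v h ≫ v k = v (h.trans k))
    (vw : ∀ {d e} (h : d ≤ e), v h ≫ w e = w d) [∀ d m, Mono ((w d).1 m)]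
    (h : ∀ m k z, ∃ d y, ((w d).1 m).app k y = z) :
    Pre.Un (fun l => R.map (v l)) fun d => R.map (w d) := by
  refine .of_cpt (fun a b => by rw [← R.map_comp, vv]) (fun a => by rw [← R.map_comp, vw])
    (fun d m => (rm_cemb _).isEmbedding) fun m d K hK => ?_
  have mo : Monotone fun d => Subcomplex.range ((w d).1 m) := fun d e l k _ ⟨y, o⟩ =>
    ⟨((v l).1 m).app k y, by rw [← o, ← vw l]; rfl⟩
  obtain ⟨e, s⟩ := cpt_dir mo.directed_le hK (by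
    rw [show ⨆ d, Subcomplex.range ((w d).1 m) = ⊤ from top_unique fun k z _ => by
      obtain ⟨d, y⟩ := h m k z
      exact le_iSup (fun d => Subcomplex.range ((w d).1 m)) d k y, range_rm_top]
    exact Set.subset_univ _)
  obtain ⟨g, b, c⟩ := exists_ge_ge d e
  exact ⟨g, b, (s.trans (range_rm_mono (mo c))).trans (range_rm_range _).subset⟩

end SPr

end Pool.Agent.Lib.MP_5d3e93_al.Br
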