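import Mathlib

/-! Pointed spaces, suspensions, cones and homotopy groups. -/

open CategoryTheory Topology Set unitInterval Function
open scoped Topology.Homotopy

namespace Pool.Agent.Lib.MP_5d3e93_al.Br

universe u v

/-- Pointed spaces. -/
structure Ps where
  X : Type u
  [top : TopologicalSpace X]
  pt : X

attribute [instance] Ps.top

instance : Category Ps.{u} where
  Hom X Y := {f : C(X.X, Y.X) // f X.pt = Y.pt}
  id X := ⟨.id _, rfl⟩
  comp f g := ⟨g.1.comp f.1, (congrArg g.1 f.2).trans g.2⟩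

/-- Projection to the unit interval. -/
noncomputable def pj (r : ℝ) : I := projIcc 0 1 zero_le_one r

@[fun_prop]
theorem pj_cont : Continuous pj := continuous_projIcc (h := zero_le_one)

@[simp]
theorem pj_coe (t : I) : pj t = t := projIcc_val _ t

theorem pj_le {r : ℝ} (h : r ≤ 0) : pj r = 0 := projIcc_of_le_left _ h

theorem pj_ge {r : ℝ} (h : 1 ≤ r) : pj r = 1 := projIcc_of_right_le _ h

/-- Maps out of a quotient, with parameters. -/
def lft {K Z Y : Type*} [TopologicalSpace K] [LocallyCompactSpace K] [TopologicalSpace Z]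
    [TopologicalSpace Y] {r : Z → Z → Prop} (F : C(K × Z, Y))
    (h : ∀ k a b, r a b → F (k, a) = F (k, b)) : C(K × Quot r, Y) :=
  ⟨fun p => Quot.lift (fun a => F (p.1, a)) (h p.1) p.2,
    isQuotientMap_quot_mk.continuous_lift_prod_right F.continuous⟩

namespace Ps

variable {A X Y Z : Ps.{u}}

theorem ext {f g : X ⟶ Y} (h : ∀ x, f.1 x = g.1 x) : f = g := Subtype.ext (ContinuousMap.ext h)

@[simp]
theorem comp_apply (f : X ⟶ Y) (g : Y ⟶ Z) (x) : (f ≫ g).1 x = g.1 (f.1 x) := rfl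

@[simp]
theorem id_apply (x : X.X) : (𝟙 X : X ⟶ X).1 x = x := rfl

/-- Pointed homotopy. -/
def Ho (f g : X ⟶ Y) : Prop := f.1.HomotopicRel g.1 {X.pt}

theorem Ho.of {f g : X ⟶ Y} (H : C(I × X.X, Y.X)) (h0 : ∀ x, H (0, x) = f.1 x)
    (h1 : ∀ x, H (1, x) = g.1 x) (hp : ∀ u, H (u, X.pt) = Y.pt) : Ho f g :=
  ⟨⟨⟨H, h0, h1⟩, fun u x (e : x = _) => by rw [e, f.2]; exact hp u⟩⟩

theorem Ho.ex {f g : X ⟶ Y} (h : Ho f g) : ∃ H : C(I × X.X, Y.X), (∀ x, H (0, x) = f.1 x) ∧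
    (∀ x, H (1, x) = g.1 x) ∧ ∀ u, H (u, X.pt) = Y.pt :=
  h.elim fun H => ⟨H.1.1, H.1.2, H.1.3, fun u => (H.2 u _ rfl).trans f.2⟩

theorem Ho.refl (f : X ⟶ Y) : Ho f f := ContinuousMap.HomotopicRel.refl _

theorem Ho.symm {f g : X ⟶ Y} (h : Ho f g) : Ho g f := ContinuousMap.HomotopicRel.symm h

theorem Ho.trans {f g k : X ⟶ Y} (h : Ho f g) (h' : Ho g k) : Ho f k :=
  ContinuousMap.HomotopicRel.trans h h'

theorem Ho.comp {f g : X ⟶ Y} (h : Ho f g) (a : A ⟶ X) (b : Y ⟶ Z) :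
    Ho (a ≫ f ≫ b) (a ≫ g ≫ b) := by
  obtain ⟨H, h0, h1, hp⟩ := h.ex
  exact .of ⟨fun p => b.1 (H (p.1, a.1 p.2)), by fun_prop⟩ (fun x => congrArg b.1 (h0 _))
    (fun x => congrArg b.1 (h1 _)) fun u => by simp [a.2, hp, b.2]

/-- The points that the suspension collapses. -/
def Bp (X : Ps.{u}) (a : I × X.X) : Prop := a.1 = 0 ∨ a.1 = 1 ∨ a.2 = X.pt

/-- The reduced suspension. -/
def S (X : Ps.{u}) : Ps.{u} := ⟨Quot fun a b => X.Bp a ∧ X.Bp b, Quot.mk _ (0, X.pt)⟩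

/-- The points of the suspension. -/
def sk (t : I) (x : X.X) : X.S.X := Quot.mk _ (t, x)

@[fun_prop]
theorem sk_cont {K : Type*} [TopologicalSpace K] {t : K → I} {x : K → X.X} (h : Continuous t)
    (k : Continuous x) : Continuous fun a => sk (t a) (x a) :=
  continuous_quot_mk.comp (h.prodMk k)

theorem sk_bp {t : I} {x : X.X} (h : X.Bp (t, x)) : sk t x = X.S.pt := Quot.sound ⟨h, .inl rfl⟩

@[simp] theorem sk_zero (x : X.X) : sk 0 x = X.S.pt := sk_bp (.inl rfl)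

@[simp] theorem sk_one (x : X.X) : sk 1 x = X.S.pt := sk_bp (.inr (.inl rfl))

@[simp] theorem sk_pt (t : I) : sk t X.pt = X.S.pt := sk_bp (.inr (.inr rfl))

@[elab_as_elim]
theorem sk_ind {p : X.S.X → Prop} (y : X.S.X) (h : ∀ t x, p (sk t x)) : p y :=
  Quot.inductionOn y fun a => h a.1 a.2

/-- Maps out of a suspension, with parameters. -/
def sd {K : Type v} [TopologicalSpace K] [LocallyCompactSpace K] (F : K → I → X.X → Y.X)
    (c : Continuous fun p : K × I × X.X => F p.1 p.2.1 p.2.2) (h0 : ∀ k x, F k 0 x = Y.pt)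
    (h1 : ∀ k x, F k 1 x = Y.pt) (hp : ∀ k t, F k t X.pt = Y.pt) : C(K × X.S.X, Y.X) :=
  lft ⟨_, c⟩ fun k a b e => by
    have : ∀ a, X.Bp a → F k a.1 a.2 = Y.pt := by
      rintro ⟨t, x⟩ (rfl | rfl | rfl)
      exacts [h0 .., h1 .., hp ..]
    exact (this a e.1).trans (this b e.2).symm

@[simp]
theorem sd_sk {K : Type v} [TopologicalSpace K] [LocallyCompactSpace K] {F : K → I → X.X → Y.X}
    {c h0 h1 hp} (k t x) : sd F c h0 h1 hp (k, sk t x) = F k t x := rfl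

/-- Maps out of a suspension. -/
def sm (F : I → X.X → Y.X) (c : Continuous fun p : I × X.X => F p.1 p.2) (h0 : ∀ x, F 0 x = Y.pt)
    (h1 : ∀ x, F 1 x = Y.pt) (hp : ∀ t, F t X.pt = Y.pt) : X.S ⟶ Y :=
  ⟨(sd (K := Unit) (fun _ => F) (c.comp continuous_snd) (fun _ => h0) (fun _ => h1)
    fun _ => hp).comp ⟨fun y => ((), y), by fun_prop⟩, h0 _⟩

@[simp]
theorem sm_sk {F : I → X.X → Y.X} {c h0 h1 hp} (t x) : (sm F c h0 h1 hp).1 (sk t x) = F t x := rfl

theorem S_ext {f g : X.S ⟶ Y} (h : ∀ t x, f.1 (sk t x) = g.1 (sk t x)) : f = g :=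
  ext fun y => sk_ind y h

/-- The suspension of a map. -/
def sp (f : X ⟶ Y) : X.S ⟶ Y.S :=
  sm (fun t x => sk t (f.1 x)) (by fun_prop) (by simp) (by simp) (by simp [f.2])

@[simp]
theorem sp_sk (f : X ⟶ Y) (t x) : (sp f).1 (sk t x) = sk t (f.1 x) := rfl

theorem sp_id : sp (𝟙 X) = 𝟙 _ := S_ext fun _ _ => rfl

theorem sp_comp (f : X ⟶ Y) (g : Y ⟶ Z) : sp (f ≫ g) = sp f ≫ sp g := S_ext fun _ _ => rfl

/-- The suspension functor. -/
def SF : Ps.{u} ⥤ Ps.{u} where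
  obj := S
  map := sp
  map_id _ := sp_id
  map_comp := sp_comp

theorem Ho.S {f g : X ⟶ Y} (h : Ho f g) : Ho (sp f) (sp g) := by
  obtain ⟨H, h0, h1, hp⟩ := h.ex
  exact .of (sd (Y := Y.S) (fun u t x => sk t (H (u, x))) (by fun_prop) (by simp) (by simp) (by simp [hp]))
    (fun y => sk_ind y fun t x => congrArg (sk t) (h0 x))
    (fun y => sk_ind y fun t x => congrArg (sk t) (h1 x)) fun u => sk_zero _

/-- The exchange of two suspension coordinates. -/
def sw (X : Ps.{u}) : X.S.S ⟶ X.S.S :=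
  sm (fun t y => sd (Y := X.S.S) (fun t s x => sk s (sk t x)) (by fun_prop) (by simp) (by simp)
    (by simp) (t, y)) (map_continuous _) (fun y => sk_ind y (by simp)) (fun y => sk_ind y (by simp))
    fun _ => sk_zero _

@[simp]
theorem sw_sk (t s) (x : X.X) : X.sw.1 (sk t (sk s x)) = sk s (sk t x) := rfl

theorem SS_ext {f g : X.S.S ⟶ Y} (h : ∀ t s x, f.1 (sk t (sk s x)) = g.1 (sk t (sk s x))) : f = g :=
  S_ext fun t y => sk_ind y (h t)

theorem sw_sw : X.sw ≫ X.sw = 𝟙 _ := SS_ext fun _ _ _ => rfl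

theorem sw_nat (f : X ⟶ Y) : sp (sp f) ≫ Y.sw = X.sw ≫ sp (sp f) :=
  SS_ext fun _ _ _ => rfl

/-- The identifications of the mapping cone. -/
inductive Cr (i : A ⟶ X) : X.X ⊕ I × A.X → X.X ⊕ I × A.X → Prop
  | zero (a) : Cr i (.inr (0, a)) (.inl (i.1 a))
  | one (a) : Cr i (.inr (1, a)) (.inl X.pt)
  | pt (t) : Cr i (.inr (t, A.pt)) (.inl X.pt)

/-- The reduced mapping cone. -/
def C (i : A ⟶ X) : Ps.{u} := ⟨Quot (Cr i), Quot.mk _ (.inl X.pt)⟩

/-- The inclusion in the cone. -/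
def ci (i : A ⟶ X) : X ⟶ C i := ⟨⟨fun x => Quot.mk _ (.inl x),
  continuous_quot_mk.comp continuous_inl⟩, rfl⟩

/-- The points of the cone. -/
def cn (i : A ⟶ X) (t : I) (a : A.X) : (C i).X := Quot.mk _ (.inr (t, a))

variable {i : A ⟶ X}

@[fun_prop]
theorem cn_cont {K : Type*} [TopologicalSpace K] {t : K → I} {x : K → A.X} (h : Continuous t)
    (k : Continuous x) : Continuous fun a => cn i (t a) (x a) :=
  continuous_quot_mk.comp (continuous_inr.comp (h.prodMk k))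

@[simp] theorem cn_zero (a) : cn i 0 a = (ci i).1 (i.1 a) := Quot.sound (.zero a)

@[simp] theorem cn_one (a) : cn i 1 a = (C i).pt := Quot.sound (.one a)

@[simp] theorem cn_pt (t) : cn i t A.pt = (C i).pt := Quot.sound (.pt t)

@[simp] theorem ci_pt : (ci i).1 X.pt = (C i).pt := rfl

@[elab_as_elim]
theorem cn_ind {p : (C i).X → Prop} (y : (C i).X) (h : ∀ x, p ((ci i).1 x))
    (k : ∀ t a, p (cn i t a)) : p y :=
  Quot.inductionOn y fun a => a.casesOn h fun a => k a.1 a.2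

/-- Maps out of a cone, with parameters. -/
def cd {K : Type v} [TopologicalSpace K] [LocallyCompactSpace K] (F : K → X.X → Y.X)
    (F' : K → I → A.X → Y.X) (c : Continuous fun p : K × X.X => F p.1 p.2)
    (c' : Continuous fun p : K × I × A.X => F' p.1 p.2.1 p.2.2) (h : ∀ k, F k X.pt = Y.pt)
    (h0 : ∀ k a, F' k 0 a = F k (i.1 a)) (h1 : ∀ k a, F' k 1 a = Y.pt)
    (hp : ∀ k t, F' k t A.pt = Y.pt) : C(K × (C i).X, Y.X) :=
  lft ⟨fun p => p.2.elim (F p.1) fun a => F' p.1 a.1 a.2, by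
    refine ((c.sumElim c').comp (Homeomorph.prodSumDistrib).continuous).congr ?_
    rintro ⟨k, a | a⟩ <;> rfl⟩ fun k a b e => by
      cases e
      exacts [h0 .., (h1 ..).trans (h k).symm, (hp ..).trans (h k).symm]

section
variable {K : Type v} [TopologicalSpace K] [LocallyCompactSpace K] {F : K → X.X → Y.X}
  {F' : K → I → A.X → Y.X} {c c' h h0 h1 hp}

@[simp]
theorem cd_ci (k x) : cd (i := i) F F' c c' h h0 h1 hp (k, (ci i).1 x) = F k x := rfl

@[simp]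
theorem cd_cn (k t a) : cd (i := i) F F' c c' h h0 h1 hp (k, cn i t a) = F' k t a := rfl

end

/-- Maps out of a cone. -/
def cm (F : X ⟶ Y) (F' : I → A.X → Y.X) (c' : Continuous fun p : I × A.X => F' p.1 p.2)
    (h0 : ∀ a, F' 0 a = F.1 (i.1 a)) (h1 : ∀ a, F' 1 a = Y.pt) (hp : ∀ t, F' t A.pt = Y.pt) :
    C i ⟶ Y :=
  ⟨(cd (K := Unit) (fun _ => F.1) (fun _ => F') (by fun_prop) (c'.comp continuous_snd)
    (fun _ => F.2) (fun _ => h0) (fun _ => h1) fun _ => hp).comp ⟨fun y => ((), y), by fun_prop⟩,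
    F.2⟩

@[simp]
theorem cm_ci {F : X ⟶ Y} {F' c' h0 h1 hp} (x) :
    (cm (i := i) F F' c' h0 h1 hp).1 ((ci i).1 x) = F.1 x := rfl

@[simp]
theorem cm_cn {F : X ⟶ Y} {F' c' h0 h1 hp} (t a) :
    (cm (i := i) F F' c' h0 h1 hp).1 (cn i t a) = F' t a := rfl

theorem C_ext {f g : C i ⟶ Y} (h : ∀ x, f.1 ((ci i).1 x) = g.1 ((ci i).1 x))
    (k : ∀ t a, f.1 (cn i t a) = g.1 (cn i t a)) : f = g := ext fun y => cn_ind y h k

variable (X Y) in
/-- The constant map. -/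
def cst : X ⟶ Y := ⟨.const _ Y.pt, rfl⟩

@[simp] theorem cst_apply (x) : (cst X Y).1 x = Y.pt := rfl

variable (i) in
/-- The projection from the cone to the suspension. -/
def cc : C i ⟶ A.S := cm (cst _ _) sk (by fun_prop) (by simp) (by simp) (by simp)

@[simp] theorem cc_ci (x) : (cc i).1 ((ci i).1 x) = A.S.pt := rfl

@[simp] theorem cc_cn (t a) : (cc i).1 (cn i t a) = sk t a := rfl

end Ps

end Pool.Agent.Lib.MP_5d3e93_al.Br
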