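import Pool.Agent.Lib.MP_5d3e93_al.Br.StA
import Pool.Agent.Lib.MP_5d3e93_al.Br.Jq
import Pool.Agent.Lib.MP_5d3e93_al.Br.Sum

/-! The stable homotopy of the quotient by the old part is the sum over the cells. -/

open CategoryTheory Topology Set Function Filter Opposite

namespace Pool.Agent.Lib.MP_5d3e93_al.Br

universe u v

open Ps

variable {d : ℕ} {A T : Ps.{u}} {i : A ⟶ T} {J : Type v} {ch : J → C(Sx d, T.X)} {n : ℤ}

theorem St.wedge (H : St d i ch) :
    Bijective (Finsupp.liftAddHom fun x => hm n (H.χ x) : (J →₀ Sh n (Dq d)) →+ Sh n (Q i)) := by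
  classical
  obtain ⟨p, a, b⟩ := H.ex_p'
  have a' (x y) : (p x).1 ((H.χ x).1 y) = y := congrArg (fun f => f.1 y) (a x)
  have b' {x y} (h : y ≠ x) (z) : (p x).1 ((H.χ y).1 z) = (Dq d).pt :=
    congrArg (fun f => f.1 z) (b x y h)
  have k (x) (c : J →₀ Sh n (Dq d)) :
      hm n (p x) (Finsupp.liftAddHom (fun x => hm n (H.χ x)) c) = c x := by
    induction c using Finsupp.induction_linear with
    | zero => simp
    | add c c' h h' => rw [map_add, map_add, h, h', Finsupp.add_apply]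
    | single y s =>
      rw [Finsupp.liftAddHom_apply_single, ← hm_comp, Finsupp.single_apply]
      split_ifs with e
      · rw [e, a, hm_id]
      · rw [b x y e, hm_cst]
  refine ⟨fun c c' e => Finsupp.ext fun x => by rw [← k, ← k, e], fun z => ?_⟩
  have ex (F : Finset J) := H.ex_q (Y := Q i)
    (fun y => if y ∈ F then (qk i).1.comp (ch y) else .const _ (Q i).pt) fun y t h => by
      split_ifs
      · exact qk_eq.2 (.inr ⟨(H.bd y t).2 h, _, i.2⟩)
      · rfl
  choose e he using ex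
  have e₁ (F) (j) (h : j ∈ F) : H.χ j ≫ e F = H.χ j :=
    dq_ext fun t => (he F j t).trans (by rw [if_pos h]; rfl)
  obtain ⟨F, hF⟩ := H.jq.supp (fun j l y w r => (eq_or_ne l j).imp .symm fun c => by
    rw [← a' j y, r, b' c, (H.χ j).2]) e e₁ z
  have := H.jq.t1
  refine ⟨∑ j ∈ F, Finsupp.single j (hm n (p j) z), Eq.trans ?_ hF⟩
  rw [hm_sum isClosed_singleton F (g := e F) (fun j => p j ≫ H.χ j) fun w => ?_, map_sum]
  · simp only [Finsupp.liftAddHom_apply_single, hm_comp]
  · obtain rfl | ⟨y, t, rfl⟩ := H.q_cases w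
    · exact .inr ⟨(e F).2, fun j _ => (p j ≫ H.χ j).2⟩
    have c {j} (l : j ≠ y) : (p j ≫ H.χ j).1 ((qk i).1 (ch y t)) = (Q i).pt :=
      (congrArg (H.χ j).1 (b' l.symm (dk t))).trans (H.χ j).2
    by_cases h : y ∈ F
    · exact .inl ⟨y, h, (congrArg (H.χ y).1 (a' y (dk t))).trans
        (congrArg (fun f => f.1 (dk t)) (e₁ F y h)).symm, fun j _ l => c l⟩
    · exact .inr ⟨(he F y t).trans (by rw [if_neg h]; rfl), fun j l => c fun r => h (r ▸ l)⟩

end Pool.Agent.Lib.MP_5d3e93_al.Br
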