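import Pool.Agent.Lib.MP_5d3e93_al.Br.KE
import Pool.Agent.Lib.MP_5d3e93_al.Br.R1F
import Pool.Agent.Lib.MP_5d3e93_al.Br.A1Gl
import Pool.Agent.Lib.MP_5d3e93_al.Br.A1Pz

/-! The swallowing lemma. -/

open CategoryTheory Limits Pretriangulated ZeroObject Opposite Simplicial

namespace Pool.Agent.Lib.MP_5d3e93_al.A2

open Gr Am Br Lab.Cv

universe v u v' u' w w' w'' x x'

set_option backward.isDefEq.respectTransparency false

section SwA
variable {V : Type (max u v)} [Category.{v} V] (w : MorphismProperty V) [w.IsMultiplicative]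

instance (J : Type) [Category.{0} J] : (w.functorCategory J).IsMultiplicative where
  id_mem _ _ := w.id_mem _
  comp_mem _ _ h k j := w.comp_mem _ _ (h j) (k j)

/-- Chains in `V` and the natural transformations with components in `w`. -/
abbrev Wf (q : SimplexCategoryᵒᵖ) : Type (max u v) :=
  WideSubcategory (w.functorCategory (Fq q))

/-- The bisimplicial set of grids. -/
def Gw : SimplexCategoryᵒᵖ ⥤ SSet.{max u v} where
  obj q := nerve (Wf w q)
  map {q q'} θ := nerveMap (C := Wf w q) (D := Wf w q')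
    { obj := fun σ => ⟨fq θ ⋙ σ.obj⟩
      map := fun φ => ⟨Functor.whiskerLeft (fq θ) φ.1, fun _ => φ.2 _⟩ }
  map_id _ := rfl
  map_comp _ _ := rfl

/-- The diagonal of a grid. -/
def dw : (dgG _ _).obj (Gw w) ⟶ nerve V where
  app n := ↾fun σ => (dgG (Fq n) V).obj (σ ⋙ wideSubcategoryInclusion _)
  naturality _ _ _ := rfl

/-- Functors with all maps in `w`. -/
def swaP (p : SimplexCategoryᵒᵖ) : ObjectProperty (Fq p ⥤ V) :=
  fun X => ∀ i j (g : i ⟶ j), w (X.map g)

/-- Constant chains. -/
def swaC (p : SimplexCategoryᵒᵖ) : V ⥤ (swaP w p).FullSubcategory :=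
  (swaP w p).lift (Functor.const _) fun _ _ _ _ => w.id_mem _

/-- A chain receives a map from its first object. -/
def swaN (p : SimplexCategoryᵒᵖ) :
    ((swaP w p).ι ⋙ (evaluation _ V).obj 0) ⋙ swaC w p ⟶ 𝟭 _ where
  app X := ObjectProperty.homMk
    { app := fun i => X.obj.map (homOfLE (Fin.zero_le i))
      naturality := fun _ _ g => (Category.id_comp _).trans (X.obj.map_comp _ g) }
  naturality _ _ f := ObjectProperty.hom_ext _
    (NatTrans.ext (funext fun _ => (f.hom.naturality _).symm))

theorem swa_c (p : SimplexCategoryᵒᵖ) (b : ℕ) : Cn b (ZC.map (nerveMap (swaC w p))) :=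
  cn_nerve (hi_of_zigzag _ ((swaP w p).ι ⋙ (evaluation _ V).obj 0) (Zigzag.refl _)
    (Zigzag.of_hom (swaN w p))) b

/-- A column of the grids is the nerve of the chains in `w`. -/
def swaI (p : SimplexCategoryᵒᵖ) : (Gw w).flip.obj p ≅ nerve (swaP w p).FullSubcategory where
  hom :=
    { app := fun q => ↾fun σ => (swaP w p).lift (σ ⋙ wideSubcategoryInclusion _).flip
        fun j _ _ g => (CategoryTheory.Functor.map σ g).2 j
      naturality := fun _ _ _ => rfl }
  inv :=
    { app := fun q => ↾fun τ =>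
        { obj := fun i => ⟨(τ ⋙ (swaP w p).ι).flip.obj i⟩
          map := fun g => ⟨(τ ⋙ (swaP w p).ι).flip.map g,
            fun j => (CategoryTheory.Functor.obj τ j).property _ _ g⟩ }
      naturality := fun _ _ _ => rfl }
  hom_inv_id := rfl
  inv_hom_id := rfl

/-- Degenerate grids. -/
def swaS : nerve V ⋙ Functor.const SimplexCategoryᵒᵖ ⟶ Gw w where
  app q :=
    { app := fun n => ↾fun σ => (Functor.const (Fq n)).obj (⟨σ⟩ : Wf w q)
      naturality := fun _ _ _ => rfl }
  naturality _ _ _ := rfl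

/-- Swallowing. `s : (q ↦ constant simplicial set on the objects) ⟶ Gw w`; column `n` of `Gw w` is
isomorphic (flip) to the nerve of the full subcategory `A n` of `Fin (n + 1) ⥤ V` on the functors
with all maps in `w`, and `const : V ⥤ A n`, `ev 0` are inverse up to one natural transformation
(`hi_of_zigzag`, `cn_nerve`); `r1F'` with `F = Fr`; the diagonal of the source is `nerve V` and
`dg s ≫ dw w` is the identity. -/
theorem swa (b : ℕ) : Cn b (ZC.map (dw w)) := by
  have a : ∀ b, Cn b (ZC.map ((dgG _ _).map (swaS w))) := fun b => r1F' Fr (swaS w) fun p =>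
    Cn.of_comp_left (g := ZC.map (swaI w (op ⦋p⦌)).hom)
      ((congrArg (Cn _) (ZC.map_comp (((flipFunctor _ _ _).map (swaS w)).app (op ⦋p⦌))
        (swaI w (op ⦋p⦌)).hom)).mp (swa_c w (op ⦋p⦌) _)) (cn_iso _ _)
  have i : ∀ n, IsIso (((dgG _ _).map (swaS w) ≫ dw w).app n) := fun n => by
    have e : ((dgG _ _).map (swaS w) ≫ dw w).app n = 𝟙 ((nerve V).obj n) := by
      ext σ
      exact Functor.hext (fun _ => rfl) fun _ _ _ => heq_of_eq (Category.id_comp _)
    rw [e]
    exact IsIso.id ((nerve V).obj n)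
  have := NatIso.isIso_of_isIso_app ((dgG _ _).map (swaS w) ≫ dw w)
  refine (Cn.of_comp_right ?_ (a b)).mono b.le_succ
  rw [← ZC.map_comp]
  exact cn_iso _ _
end SwA

end Pool.Agent.Lib.MP_5d3e93_al.A2
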