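import Pool.Agent.Lib.MP_5d3e93_al.Br.R1F
import Pool.Agent.Lib.MP_5d3e93_al.Br.Dg

/-! The swallowing lemma for grids. -/

open CategoryTheory Opposite Simplicial

namespace Pool.Agent.Lib.MP_5d3e93_al.Br

universe v u

set_option backward.isDefEq.respectTransparency false

variable {W : Type u} [Category.{v} W] (V : MorphismProperty W)

/-- The vertices of a simplex. -/
abbrev Vx (n : SimplexCategoryᵒᵖ) : Type := Fin (n.unop.len + 1)

/-- Grids whose maps in the second direction lie in `V`. -/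
def Grid (q p : SimplexCategoryᵒᵖ) : Type (max u v) :=
  {F : Vx q × Vx p ⥤ W // ∀ a b (h : a ⟶ b), a.1 = b.1 → V (F.map h)}

variable {V} in
/-- Reindexing of grids. -/
def Grid.re {q p q' p' : SimplexCategoryᵒᵖ} (f : Vx q' →o Vx q) (g : Vx q' × Vx p' →o Vx p)
    (F : Grid V q p) : Grid V q' p' :=
  ⟨{ obj := fun a => F.1.obj (f a.1, g a)
     map := fun h => F.1.map (homOfLE (f.monotone h.1.le), homOfLE (g.monotone ⟨h.1.le, h.2.le⟩))
     map_id := fun _ => F.1.map_id _
     map_comp := fun _ _ => F.1.map_comp (_, _) (_, _) },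
    fun _ _ _ e => F.2 _ _ _ (congrArg f e)⟩

/-- The bisimplicial set of grids. -/
def swB : SimplexCategoryᵒᵖ ⥤ SSet.{max u v} where
  obj q := { obj := fun p => Grid V q p
             map := fun θ => ↾Grid.re .id (θ.unop.toOrderHom.comp OrderHom.snd) }
  map θ := { app := fun _ => ↾Grid.re θ.unop.toOrderHom OrderHom.snd }

/-- The diagonal chain of a square grid. -/
def swd : (dgG _ (Type (max u v))).obj (swB V) ⟶ nerve W where
  app n := ↾fun F : Grid V n n =>
    { obj := fun i => F.1.obj (i, i)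
      map := fun h => F.1.map (h, h)
      map_id := fun _ => F.1.map_id _
      map_comp := fun _ _ => F.1.map_comp (_, _) (_, _) }
  naturality _ _ _ := rfl

variable [V.ContainsIdentities]

/-- Constant grids. -/
def sws : nerve W ⋙ Functor.const _ ⟶ swB V where
  app q := { app := fun p => ↾fun σ : Vx q ⥤ W => ⟨CategoryTheory.Prod.fst _ _ ⋙ σ, by
    rintro ⟨a, _⟩ ⟨_, _⟩ h ⟨⟩
    exact (σ.map_id a).symm ▸ V.id_mem _⟩ }

theorem sws_cn (p : SimplexCategoryᵒᵖ) (b : ℕ) :
    Cn b (ZC.map (((flipFunctor _ _ _).map (sws V)).app p)) := by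
  let e : (swB V).flip.obj p ⟶ (nerve W ⋙ Functor.const _).flip.obj p :=
    { app := fun q => ↾fun F : Grid V q p =>
        { obj := fun i => F.1.obj (i, 0)
          map := fun h => F.1.map (h, 𝟙 _)
          map_id := fun _ => F.1.map_id _
          map_comp := fun {i j l} h k =>
            F.1.map_comp (X := (i, 0)) (Y := (j, 0)) (Z := (l, 0)) (h, 𝟙 _) (k, 𝟙 _) }
      naturality := fun _ _ _ => rfl }
  refine cn_of_inv (ZC.map e) (.of_eq ?_) ?_ b
  · rw [← ZC.map_comp]
    exact ZC.map_id _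
  · let T : TH (e ≫ ((flipFunctor _ _ _).map (sws V)).app p) (𝟙 _) :=
      { H := fun n t => ↾Grid.re .id ⟨fun a => if t.toOrderHom a.1 = 0 then 0 else a.2,
          fun a a' h => by
            dsimp only
            split_ifs with c d d
            exacts [le_rfl, Fin.zero_le _,
              (c (Fin.le_zero_iff.1 (d ▸ t.toOrderHom.monotone h.1))).elim, h.2]⟩
        nat := fun _ _ => rfl
        h0 := fun _ => rfl
        h1 := fun _ => rfl }
    rw [← ZC.map_comp, ← ZC.map_id]
    exact T.hq Fr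

theorem swd_cn (b : ℕ) : Cn b (ZC.map (swd V)) := by
  let j : nerve W ⟶ (dgG _ (Type (max u v))).obj (nerve W ⋙ Functor.const _) :=
    { app := fun _ => 𝟙 _, naturality := fun _ _ _ => rfl }
  let j' : (dgG _ (Type (max u v))).obj (nerve W ⋙ Functor.const _) ⟶ nerve W :=
    { app := fun _ => 𝟙 _, naturality := fun _ _ _ => rfl }
  have : IsIso j := ⟨j', rfl, rfl⟩
  have h (c) : Cn c (ZC.map (j ≫ (dgG _ _).map (sws V))) :=
    cn_pre (asIso j) rfl (r1F' Fr (sws V) fun _ => sws_cn V _ _)
  refine (Cn.of_comp_right (a := b) ?_ (h b)).mono b.le_succ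
  rw [← ZC.map_comp]
  exact (ZC.map_id (nerve W)).symm ▸ cn_id _ _

end Pool.Agent.Lib.MP_5d3e93_al.Br
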