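import Pool.Agent.Lib.MP_5d3e93_al.Br.EndA

/-! Definitions for the transitivity principle. -/

open CategoryTheory Limits Function

namespace Pool.Agent.Lib.MP_5d3e93_al.Br

open Gr Am As A2

universe w v u v' u' v'' u''

/-- A directed family of classes and its union. -/
inductive Un4 {ι : Type v} [Preorder ι] :
    ∀ {W : ι → Tp.{v, u}} {Y : Tp.{v, u}}, (∀ r, W r ⟶ Y) → Prop where
  | mk {a : Am.{v, u}} {N : ι → ObjectProperty a.D} {S : ObjectProperty a.D} [∀ r, Tg (N r)] [Tg S]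
      (w : ∀ r, Tp.mk a (N r) ⟶ Tp.mk a S) (hw : ∀ r, (w r).f = a.idm) (m : Monotone N)
      (h : ∀ X, S X → ∃ r, N r X) : Un4 w

variable {J : Type u'} [Category.{v'} J] {J' : Type u''} [Category.{v''} J']

/-- Compatibility with directed unions. -/
def KU (K : (J ⥤ Tp.{v, u}) ⥤ Pre.{w}) : Prop :=
  ∀ {ι : Type v} [Preorder ι] [IsDirected ι (· ≤ ·)] [Nonempty ι] {W : ι → J ⥤ Tp.{v, u}}
    {Y : J ⥤ Tp.{v, u}} (v : ∀ {d e}, d ≤ e → (W d ⟶ W e)) (w : ∀ d, W d ⟶ Y),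
    (∀ {d e f} (h : d ≤ e) (k : e ≤ f), v h ≫ v k = v (h.trans k)) →
    (∀ {d e} (h : d ≤ e), v h ≫ w e = w d) → (∀ p, Un4 fun d => (w d).app p) →
    Pre.Un (fun l => K.map (v l)) fun d => K.map (w d)

theorem KU.pre {K : (J ⥤ Tp.{v, u}) ⥤ Pre.{w}} (h : KU K) (X : J ⥤ J') :
    KU ((Functor.whiskeringLeft J J' _).obj X ⋙ K) := fun v w a b c =>
  h (fun l => X.whiskerLeft (v l)) (fun d => X.whiskerLeft (w d))
    (fun l k => congrArg X.whiskerLeft (a l k)) (fun l => congrArg X.whiskerLeft (b l)) fun _ => c _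

theorem KU.cn {K K' : (J ⥤ Tp.{v, u}) ⥤ Pre.{w}} (h : KU K) (h' : KU K') (α : K ⟶ K') :
    KU (cnF α) := fun v w a b c => (h v w a b c).C (h' v w a b c)
  (fun l => (α.naturality (v l)).symm) fun d => (α.naturality (w d)).symm

/-- The cone of the map induced by a map of diagrams of indices. -/
noncomputable def Hc (K : (J ⥤ Tp.{v, u}) ⥤ Pre.{w}) {X X' : J ⥤ J'} (α : X ⟶ X') :
    (J' ⥤ Tp.{v, u}) ⥤ Pre.{w} :=
  cnF (Functor.whiskerRight ((Functor.whiskeringLeft _ _ _).map α) K)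

theorem KT.hc {K : (J ⥤ Tp.{v, u}) ⥤ Pre.{w}} (h : KT K) {X X' : J ⥤ J'} (α : X ⟶ X') :
    KT (Hc K α) := (h.pre X).cn (h.pre X') _

theorem KU.hc {K : (J ⥤ Tp.{v, u}) ⥤ Pre.{w}} (h : KU K) {X X' : J ⥤ J'} (α : X ⟶ X') :
    KU (Hc K α) := KU.cn (h.pre X) (h.pre X') _

/-- Diagrams of preadditive categories as diagrams of marked ambient categories. -/
noncomputable abbrev wA : (J ⥤ AC.{v, max u v}) ⥤ J ⥤ Tp.{v, max 1 u} :=
  (Functor.whiskeringRight _ _ _).obj AM.{v, u}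

/-- Towers of diagrams with zero composites and swindles. -/
def Fo (T : Ft (J ⥤ AC.{v, u})) : Prop :=
  (∀ k p x, IsZero (((T.i k ≫ T.q k).app p).F.obj x)) ∧ ∀ k p, Fq ((T.P k).obj p).C

theorem Fo.pre {T : Ft (J ⥤ AC.{v, u})} (t : Fo T) (X : J' ⥤ J) :
    Fo (T.map ((Functor.whiskeringLeft _ _ _).obj X)) := ⟨fun k _ => t.1 k _, fun k _ => t.2 k _⟩

/-- The iterated suspension. -/
noncomputable def sk : ℕ → AC.{v, u} ⥤ AC.{v, u} := Nat.rec (𝟭 _) fun _ F => F ⋙ susp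

/-- The tower of suspensions of a diagram. -/
noncomputable def fj (E : J ⥤ AC.{v, u}) : Ft (J ⥤ AC.{v, u}) :=
  ⟨fun k => E ⋙ sk k, fun k => (E ⋙ sk k) ⋙ cone, fun k => (E ⋙ sk k).whiskerLeft incl,
    fun k => (E ⋙ sk k).whiskerLeft proj⟩

theorem fj_fo (E : J ⥤ AC.{v, u}) : Fo (fj E) :=
  ⟨fun _ _ x => incl_proj x, fun _ _ => fq_cone _⟩

section
variable {H : (J ⥤ Tp.{v, max 1 u}) ⥤ Pre.{w}} {T : Ft (J ⥤ AC.{v, max u v})}

theorem Fo.ok (t : Fo T) (h : KT H) : (T.map (wA.{v, u} ⋙ H)).Ok :=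
  ⟨fun k => h.nl _ _ fun p => mm_le.{v, u, u} ((T.i k ≫ T.q k).app p).F (S := Zr)
    fun x _ => mo.map_isZero (t.1 k p x), fun k => fq_acy h _ (t.2 k)⟩

/-- All classes die in the tower. -/
def Zt (h : KT H) (t : Fo T) : Prop := ((T.map (wA.{v, u} ⋙ H)).tw (t.ok h)).Z

/-- All classes die in the tower of suspensions. -/
def ZS (h : KT H) (E : J ⥤ AC.{v, max u v}) : Prop := Zt.{w, v, u} h (fj_fo E)

end

variable {G L : Type v} [Group G] [Group L]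

theorem Gc.Ok.fo {T : Ft (Gc.{v, u} G)} (t : Gc.Ok T) : Fo (T.map TC) :=
  ⟨fun k p x => by
    have := (TC.map_comp (T.i k) (T.q k)).symm
    exact (congrArg (fun f => IsZero ((f.app p).F.obj x)) this).mpr
      ((Lb.at' x.as.t ⋙ twe (Lb.act p.T (T.X (k + 1)).ρ)).map_isZero (t.1 k x.as.A)),
    fun k p => fq_tc p.T (t.2 k)⟩

/-- Restriction of the action on coefficients. -/
def Gc.res (j : L →* G) : Gc.{v, u} G ⥤ Gc.{v, u} L where
  obj A := ⟨A.C, A.ρ.comap j⟩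
  map f := ⟨f.F, fun g => f.e (j g)⟩

/-- Restriction of the action on sets. -/
def Gs.res (j : L →* G) : Gs G ⥤ Gs L where
  obj T := @Gs.mk L _ T.T (MulAction.compHom _ j)
  map f := ⟨f.1, fun g => f.2 (j g)⟩

/-- Restriction of the action on the sets of the statement. -/
def gres (j : L →* G) (S : GS G) : GS L := @GS.mk L _ S.V (MulAction.compHom _ j)

theorem Gc.Ok.res {T : Ft (Gc.{v, u} G)} (t : Gc.Ok T) (j : L →* G) : Gc.Ok (T.map (Gc.res j)) :=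
  ⟨t.1, fun k => by
    obtain ⟨Φ, b, i, r, i', r', c, d, e⟩ := t.2 k
    exact ⟨Φ, b, i, r, i', r', c, d, fun g _ => e (j g) trivial⟩⟩

variable (G) (Y : Type v) [MulAction G Y]

/-- The product with a set with action. -/
def pY : Gs G ⥤ Gs G where
  obj T := ⟨T.T × Y⟩
  map f := ⟨Prod.map f.1 id, fun g t => Prod.ext (f.2 g t.1) rfl⟩

/-- The projection. -/
def pf : pY G Y ⟶ 𝟭 _ := ⟨fun _ => ⟨Prod.fst, fun _ _ => rfl⟩, fun _ _ _ => rfl⟩

end Pool.Agent.Lib.MP_5d3e93_al.Br
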