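import Pool.Agent.Lib.MP_5d3e93_al.Br.TDa
import Pool.Agent.Lib.MP_5d3e93_al.Br.AM
import Pool.Agent.Lib.MP_5d3e93_al.Br.KT

/-! The category in which the objects outside a clopen class are zero. -/

open CategoryTheory Limits Function

namespace Pool.Agent.Lib.MP_5d3e93_al.Br

open Gr Am As A2

universe w v u v' u'

section
variable {D : Type u} [Category.{v} D] [Preadditive D]

/-- The same objects, those outside `Q` being zero. -/
structure Tdb (Q : ObjectProperty D) where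
  as : D

variable {Q : ObjectProperty D}

/-- The morphisms that vanish unless both ends lie in `Q`. -/
def tdbH (Q : ObjectProperty D) (x y : D) : AddSubgroup (x ⟶ y) where
  carrier := {f | ¬ (Q x ∧ Q y) → f = 0}
  zero_mem' _ := rfl
  add_mem' a b c := by rw [a c, b c, add_zero]
  neg_mem' a c := by rw [a c, neg_zero]

open Classical in
/-- The part of a morphism that is kept. -/
noncomputable def tdbK (Q : ObjectProperty D) {x y : D} (f : x ⟶ y) : tdbH Q x y :=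
  ⟨if Q x ∧ Q y then f else 0, fun c => if_neg c⟩

theorem tdbK_pos {x y : D} (f : x ⟶ y) (a : Q x) (b : Q y) : (tdbK Q f).1 = f := if_pos ⟨a, b⟩

theorem tdbK_val {x y : D} (f : tdbH Q x y) : tdbK Q f.1 = f := Subtype.ext (by
  by_cases c : Q x ∧ Q y
  · exact if_pos c
  · exact (if_neg c).trans (f.2 c).symm)

noncomputable instance : Category.{v} (Tdb Q) where
  Hom x y := tdbH Q x.as y.as
  id x := tdbK Q (𝟙 x.as)
  comp {x y z} f g := ⟨f.1 ≫ g.1, fun c => by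
    by_cases a : Q x.as
    · rw [g.2 fun b => c ⟨a, b.2⟩, comp_zero]
    · rw [f.2 fun b => a b.1, zero_comp]⟩
  id_comp {x y} f := Subtype.ext (by
    by_cases a : Q x.as
    · exact (congrArg (· ≫ f.1) (tdbK_pos _ a a)).trans (Category.id_comp _)
    · exact (congrArg (_ ≫ ·) (f.2 fun b => a b.1)).trans
        (comp_zero.trans (f.2 fun b => a b.1).symm))
  comp_id {x y} f := Subtype.ext (by
    by_cases a : Q y.as
    · exact (congrArg (f.1 ≫ ·) (tdbK_pos _ a a)).trans (Category.comp_id _)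
    · exact (congrArg (· ≫ _) (f.2 fun b => a b.2)).trans
        (zero_comp.trans (f.2 fun b => a b.2).symm))
  assoc f g h := Subtype.ext (Category.assoc f.1 g.1 h.1)

noncomputable instance : Preadditive (Tdb Q) where
  homGroup x y := inferInstanceAs (AddCommGroup (tdbH Q x.as y.as))
  add_comp _ _ _ f g h := Subtype.ext (Preadditive.add_comp _ _ _ f.1 g.1 h.1)
  comp_add _ _ _ f g h := Subtype.ext (Preadditive.comp_add _ _ _ f.1 g.1 h.1)

theorem tdb_zero {x : Tdb Q} (h : ¬ Q x.as) : IsZero x :=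
  (IsZero.iff_id_eq_zero x).2 (Subtype.ext ((𝟙 x : x ⟶ x).2 fun c => h c.1))

/-- The projection. -/
noncomputable def tdbQ (hQ : ∀ (x y : D) (f : x ⟶ y), f ≠ 0 → (Q x ↔ Q y)) : D ⥤ Tdb Q where
  obj x := ⟨x⟩
  map f := tdbK Q f
  map_id _ := rfl
  map_comp {x y z} f g := by
    by_cases a : Q x
    swap
    · exact (tdb_zero (x := ⟨x⟩) a).eq_of_src _ _
    by_cases c : Q z
    swap
    · exact (tdb_zero (x := ⟨z⟩) c).eq_of_tgt _ _
    refine Subtype.ext ((tdbK_pos _ a c).trans ?_)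
    change _ = (tdbK Q f).1 ≫ (tdbK Q g).1
    by_cases b : Q y
    · rw [tdbK_pos _ a b, tdbK_pos _ b c]
    · obtain rfl : f = 0 := by_contra fun n => b ((hQ _ _ f n).1 a)
      rw [(tdbK Q (0 : x ⟶ y)).2 fun k => b k.2, zero_comp, zero_comp]

variable (hQ : ∀ (x y : D) (f : x ⟶ y), f ≠ 0 → (Q x ↔ Q y))

instance : (tdbQ hQ).Additive := ⟨fun {x y f g} => Subtype.ext (by
  change (tdbK Q (f + g)).1 = (tdbK Q f).1 + (tdbK Q g).1
  by_cases c : Q x ∧ Q y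
  · rw [tdbK_pos _ c.1 c.2, tdbK_pos _ c.1 c.2, tdbK_pos _ c.1 c.2]
  · rw [(tdbK Q _).2 c, (tdbK Q _).2 c, (tdbK Q _).2 c, add_zero])⟩

instance : (tdbQ hQ).Full := ⟨fun f => ⟨f.1, tdbK_val f⟩⟩

variable {E : Type u} [Category.{v} E] [Preadditive E] {R : ObjectProperty E} (F : D ⥤ E)
  [F.Additive] (h : ∀ x, R (F.obj x) ↔ Q x)

include h in
theorem tdbK_map {x y : D} (f : x ⟶ y) : F.map (tdbK Q f).1 = (tdbK R (F.map f)).1 := by
  by_cases c : Q x ∧ Q y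
  · rw [tdbK_pos _ c.1 c.2, tdbK_pos _ ((h _).2 c.1) ((h _).2 c.2)]
  · rw [(tdbK Q _).2 c, (tdbK R _).2 fun k => c ⟨(h _).1 k.1, (h _).1 k.2⟩, F.map_zero]

/-- Functoriality. -/
noncomputable def tdbM : Tdb Q ⥤ Tdb R where
  obj x := ⟨F.obj x.as⟩
  map f := ⟨F.map f.1, fun c => by rw [f.2 fun k => c ⟨(h _).2 k.1, (h _).2 k.2⟩, F.map_zero]⟩
  map_id x := Subtype.ext ((tdbK_map F h _).trans
    (congrArg (fun f => (tdbK R f).1) (F.map_id x.as)))
  map_comp f g := Subtype.ext (F.map_comp f.1 g.1)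

instance : (tdbM F h).Additive := ⟨Subtype.ext F.map_add⟩

theorem tdbM_nat (hR : ∀ (x y : E) (f : x ⟶ y), f ≠ 0 → (R x ↔ R y)) :
    F ⋙ tdbQ hR = tdbQ hQ ⋙ tdbM F h :=
  Functor.hext (fun _ => rfl) fun _ _ f => heq_of_eq (Subtype.ext (tdbK_map F h f).symm)

end

variable {J : Type u'} [Category.{v'} J]

theorem tdbM_id {A : AC.{v, u}} {Q : ObjectProperty A.C} {f : A ⟶ A} (e : f = 𝟙 A) (h) :
    tdbM (Q := Q) (R := Q) f.F h = 𝟭 _ := by
  subst e
  rfl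

theorem tdbM_comp {A B C : AC.{v, u}} {Q : ObjectProperty A.C} {R : ObjectProperty B.C}
    {S : ObjectProperty C.C} {f : A ⟶ B} {g : B ⟶ C} {k : A ⟶ C} (e : k = f ≫ g) (a b c) :
    tdbM (Q := Q) (R := S) k.F a = tdbM (R := R) f.F b ⋙ tdbM g.F c := by
  subst e
  rfl

/-- The diagram of the cut categories. -/
noncomputable def tdbD (B : J ⥤ AC.{v, u}) (Q : ∀ p, ObjectProperty (B.obj p).C)
    (h : ∀ p q (θ : p ⟶ q) x, Q q ((B.map θ).F.obj x) ↔ Q p x) : J ⥤ AC.{v, u} where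
  obj p := ⟨Tdb (Q p)⟩
  map θ := ⟨tdbM (B.map θ).F (h _ _ θ)⟩
  map_id p := AC.ext (tdbM_id (B.map_id p) (h _ _ _))
  map_comp f g := AC.ext (tdbM_comp (B.map_comp f g) (h _ _ _) (h _ _ f) (h _ _ g))

/-- The projection of diagrams. -/
noncomputable def tdbP (B : J ⥤ AC.{v, u}) (Q : ∀ p, ObjectProperty (B.obj p).C)
    (h : ∀ p q (θ : p ⟶ q) x, Q q ((B.map θ).F.obj x) ↔ Q p x)
    (k : ∀ p (x y : (B.obj p).C) (f : x ⟶ y), f ≠ 0 → (Q p x ↔ Q p y)) : B ⟶ tdbD B Q h where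
  app p := @AC.Hom.mk (B.obj p) ⟨Tdb (Q p)⟩ (tdbQ (k p)) _
  naturality p q θ := AC.ext (tdbM_nat (k p) (B.map θ).F (h p q θ) (k q))

/-- The localisation sequence of a clopen class. -/
theorem tdb_loc {D : Type (max u v)} [Category.{v} D] [Preadditive D] {P P' : ObjectProperty D}
    (hP : ∀ (x y : D) (f : x ⟶ y), f ≠ 0 → (¬ P x ↔ ¬ P y)) (hz : ∀ _ : D, ∃ z : D, IsZero z)
    (le : P ≤ P') : Gr.Loc (mm.{v, u, u} (tdbQ (Q := fun x => ¬ P x) hP)).D (mg.{v, u} P)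
      (mg.{v, u} P') (mg.{v, u} fun y => P' y.as) := by
  have := mm_loc.{v, u, u} (tdbQ (Q := fun x => ¬ P x) hP) (P := P) (P' := P')
    (R := fun y : Tdb _ => P' y.as) (mm_locOn _ (fun x a => tdb_zero (not_not.2 a)) fun x y f e => ?_) le
    (fun _ a => by exact a) fun y a => mg_mo ⟨y.as, a, ⟨.refl _⟩⟩
  · rwa [tda_le (fun x y f n => not_iff_not.1 (hP x y f n)) hz le] at this
  obtain ⟨z, hz⟩ := hz x
  by_cases c : P x
  · exact ⟨z, x, 0, 𝟙 _, ⟨0, 𝟙 _, hz.eq_of_src _ _, Category.id_comp _, by simp⟩, mg_mo c,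
      zero_comp⟩
  · refine ⟨x, z, 𝟙 _, 0, ⟨𝟙 _, 0, Category.id_comp _, hz.eq_of_src _ _, by simp⟩,
      Tg.zero _ (mo.map_isZero hz), (Category.id_comp _).trans (by_contra fun n => n ?_)⟩
    exact (tdbK_pos (Q := fun x => ¬ P x) f c ((hP x y f n).1 c)).symm.trans
      (congrArg Subtype.val e)

/-- The same ambient categories with other classes. -/
def tdbR (X : J ⥤ Tp.{v, u}) (S : ∀ p, ObjectProperty (X.obj p).a.D) [∀ p, Tg (S p)]
    (h : ∀ p q (θ : p ⟶ q), S p ≤ (S q).inverseImage (X.map θ).f.D) : J ⥤ Tp.{v, u} where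
  obj p := ⟨(X.obj p).a, S p⟩
  map θ := ⟨(X.map θ).f, h _ _ θ⟩
  map_id p := Tp.hom_ext (congrArg (·.f.F) (X.map_id p))
  map_comp f g := Tp.hom_ext (congrArg (·.f.F) (X.map_comp f g))

/-- The class generated by a natural class of entries. -/
noncomputable def tdbG (B : J ⥤ AC.{v, max u v}) (P : ∀ p, ObjectProperty (B.obj p).C)
    (h : ∀ p q (θ : p ⟶ q) x, P p x → P q ((B.map θ).F.obj x)) : J ⥤ Tp.{v, max 1 u} :=
  @tdbR _ _ (B ⋙ AM.{v, u}) (fun p => mg.{v, u} (P p))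
    (fun p => inferInstanceAs (Tg (mg.{v, u} (P p)))) fun p q θ => mm_maps _ (h p q θ)

/-- Maps between such diagrams. -/
noncomputable def tdbF {A B : J ⥤ AC.{v, max u v}} (f : A ⟶ B)
    {P : ∀ p, ObjectProperty (A.obj p).C} {Q : ∀ p, ObjectProperty (B.obj p).C} (a b)
    (h : ∀ p x, P p x → Q p ((f.app p).F.obj x)) : tdbG.{v, u} A P a ⟶ tdbG.{v, u} B Q b where
  app p := ⟨mm.{v, u, u} (f.app p).F, mm_maps _ (h p)⟩
  naturality _ _ θ := Tp.hom_ext (congrArg (fun f => (AM.{v, u}.map f).f.F) (f.naturality θ))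

/-- The finite step. -/
theorem tdb_step {H : (J ⥤ Tp.{v, max 1 u}) ⥤ Pre.{w}} (h : KT H) {B E : J ⥤ AC.{v, max u v}}
    {P P' : ∀ p, ObjectProperty (B.obj p).C}
    (c1 : ∀ p q (θ : p ⟶ q) x, P q ((B.map θ).F.obj x) ↔ P p x) (c1')
    (c2 : ∀ p (x y : (B.obj p).C) (f : x ⟶ y), f ≠ 0 → (P p x ↔ P p y))
    (c3 : ∀ p (_ : (B.obj p).C), ∃ z : (B.obj p).C, IsZero z) (le : ∀ p, P p ≤ P' p) (i : E ⟶ B)
    (i1 : ∀ p x y, Bijective ((i.app p).F.map : (x ⟶ y) → _))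
    (i2 : ∀ p x, P' p ((i.app p).F.obj x)) (i2' : ∀ p x, ¬ P p ((i.app p).F.obj x))
    (i3 : ∀ p y, P' p y → ¬ P p y → ∃ x, Nonempty ((i.app p).F.obj x ≅ y)) (n : ℤ)
    (x : (H.obj (tdbG.{v, u} B P' c1')).π n) : ∃ y z, x =
      Pre.map n (H.map (tdbF.{v, u} (𝟙 B) (fun p q θ x => (c1 p q θ x).2) c1' le)) y +
      Pre.map n (H.map (tdbF.{v, u} i (P := fun _ => ⊤) (fun _ _ _ _ _ => trivial) c1'
        fun p x _ => i2 p x)) z := by
  let k p (x y : (B.obj p).C) (f : x ⟶ y) (n : f ≠ 0) := not_congr (c2 p x y f n)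
  let C := tdbD B (fun p x => ¬ P p x) fun p q θ x => not_congr (c1 p q θ x)
  let π : B ⟶ C := tdbP B _ _ k
  let a := tdbF.{v, u} (𝟙 B) (fun p q θ x => (c1 p q θ x).2) c1' le
  let j := tdbF.{v, u} i (P := fun _ => ⊤) (fun _ _ _ _ _ => trivial) c1' fun p x _ => i2 p x
  let q := tdbF.{v, u} π (Q := fun p y => P' p y.as) c1' (fun p q θ x => c1' p q θ x.as)
    fun _ _ a => a
  have l (p) : Lc3 (a.app p) (q.app p) :=
    .mk (N := mg.{v, u} (P p)) (S := mg.{v, u} (P' p)) _ _ rfl (tdb_loc (k p) (c3 p) (le p))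
  have nl := h.nl a q fun p => (l p).kill
  have d := h.deq (j ≫ q) (fun p => by
    let F := (i.app p).F ⋙ tdbQ (k p)
    have : F.Full := ⟨fun {x y} f => by
      obtain ⟨g, e⟩ := (i1 p x y).2 f.1
      exact ⟨g, (congrArg (tdbK _) e).trans (tdbK_val f)⟩⟩
    have : F.Faithful := ⟨fun {x y f g} e => (i1 p x y).1
      ((tdbK_pos (Q := fun x => ¬ P p x) _ (i2' p x) (i2' p y)).symm.trans
        ((congrArg Subtype.val e).trans (tdbK_pos _ (i2' p x) (i2' p y))))⟩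
    refine mm_deq.{v, u, u} F (P := ⊤) (R := fun y : Tdb _ => P' p y.as)
      (fun x _ => by exact i2 p x) fun y b => ?_
    by_cases c : P p y.as
    · exact Tg.zero _ (mo.map_isZero (tdb_zero (not_not.2 c)))
    · obtain ⟨x, ⟨e⟩⟩ := i3 p y.as b c
      exact mg_mo ⟨x, trivial, ⟨(tdbQ (k p)).mapIso e⟩⟩) n
  obtain ⟨z, e⟩ := d.2 (Pre.map n (H.map q) x)
  have e' : Pre.map n (H.map q) (x - Pre.map n (H.map j) z) = 0 := by
    rw [map_sub, ← e, H.map_comp, Pre.map_comp, sub_self]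
  rw [← nl.cim_col, Pre.map_comp] at e'
  obtain ⟨y, hy⟩ := (Pre.exact₁ _ _).1 ((h.loc a q l nl n).1 (e'.trans (map_zero _).symm))
  exact ⟨y, z, (sub_eq_iff_eq_add.1 hy.symm)⟩

end Pool.Agent.Lib.MP_5d3e93_al.Br
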