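import Pool.Agent.Lib.MP_5d3e93_al.Br.TA
import Pool.Agent.Lib.MP_5d3e93_al.Br.TDb

/-! Diagrams of categories that split along colours. -/

open CategoryTheory Limits Function MulAction
open scoped Pointwise

namespace Pool.Agent.Lib.MP_5d3e93_al.Br

open Gr Am As A2

universe w v u v' u'

theorem td_union {D : Type (max u v)} [Category.{v} D] [Preadditive D] {Ω : Type v} (c : D → Ω) (X)
    (a : mg.{v, u} (⊤ : ObjectProperty D) X) : ∃ W : Finset Ω, mg.{v, u} (fun x => c x ∈ W) X := by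
  classical
  have : Tg fun X : (mam.{v, u} D).D => ∃ W : Finset Ω, mg.{v, u} (fun x => c x ∈ W) X :=
    Tg.mk' (fun _ a => ⟨∅, Tg.zero _ a⟩)
      (fun k _ ⟨W, a⟩ => ⟨W, (mg.{v, u} fun x => c x ∈ W).le_shift k _ a⟩) fun T t ⟨W, a⟩ ⟨U, b⟩ =>
        ⟨W ∪ U, (mg.{v, u} fun x => c x ∈ W ∪ U).ext_of_isTriangulatedClosed₂ T t
          (mg_mono (fun _ => Finset.mem_union_left _) _ a)
          (mg_mono (fun _ => Finset.mem_union_right _) _ b)⟩
  exact mg_le (S := fun X => ∃ W : Finset Ω, mg.{v, u} (fun x => c x ∈ W) X)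
    (fun x _ => ⟨{c x}, mg_mo (Finset.mem_singleton_self _)⟩) X a

variable {J : Type u'} [Category.{v'} J]

/-- A diagram of categories that splits along colours: every class is a finite sum of classes of
one colour. -/
theorem dec {H : (J ⥤ Tp.{v, max 1 u}) ⥤ Pre.{w}} (h : KT H) (o : KU H)
    {B : J ⥤ AC.{v, max u v}} {Ω : Type v} (c : ∀ p, (B.obj p).C → Ω)
    (c1 : ∀ p q (θ : p ⟶ q) x, c q ((B.map θ).F.obj x) = c p x)
    (c2 : ∀ p (x y : (B.obj p).C) (f : x ⟶ y), f ≠ 0 → c p x = c p y)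
    (c3 : ∀ p (x : (B.obj p).C), ∃ z, IsZero z ∧ c p z = c p x)
    {D : Ω → J ⥤ AC.{v, max u v}} (i : ∀ ω, D ω ⟶ B)
    (i1 : ∀ ω p x y, Bijective (((i ω).app p).F.map : (x ⟶ y) → _))
    (i2 : ∀ ω p x, c p (((i ω).app p).F.obj x) = ω)
    (i3 : ∀ ω p y, c p y = ω → ∃ x, Nonempty (((i ω).app p).F.obj x ≅ y))
    {n : ℤ} {P : (H.obj (B ⋙ AM.{v, u})).π n → Prop} (p0 : P 0)
    (pa : ∀ x y, P x → P y → P (x + y))
    (pi : ∀ ω y, P (Pre.map n (H.map (Functor.whiskerRight (i ω) AM.{v, u})) y)) (x) : P x := by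
  classical
  have m (W : Finset Ω) p q (θ : p ⟶ q) x : c q ((B.map θ).F.obj x) ∈ W ↔ c p x ∈ W := by rw [c1]
  let C (W : Finset Ω) := tdbG.{v, u} B (fun p x => c p x ∈ W) fun p q θ x => (m W p q θ x).2
  let v {W U : Finset Ω} (l : W ≤ U) : C W ⟶ C U := tdbF.{v, u} (𝟙 B) _ _ fun _ _ a => l a
  let t (W : Finset Ω) : C W ⟶ B ⋙ AM.{v, u} :=
    tdbF.{v, u} (𝟙 B) (Q := fun _ => ⊤) _ (fun _ _ _ _ _ => trivial) fun _ _ _ => trivial
  obtain ⟨W, y, rfl⟩ := (o v t (fun _ _ => rfl) (fun _ => rfl) fun p =>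
    .mk (N := fun W : Finset Ω => mg.{v, u} fun x => c p x ∈ W) (S := mg.{v, u} ⊤) _ (fun _ => rfl)
      (fun _ _ l => mg_mono fun _ a => l a) (td_union (c p))).surj n x
  induction W using Finset.induction_on with
  | empty =>
    rw [h.z (C ∅) (fun p => knl_zero (mg_le (S := Zr) fun _ a => (Finset.notMem_empty _ a).elim))
      n y, map_zero]
    exact p0
  | insert ω W e ih =>
    obtain ⟨y, z, rfl⟩ := tdb_step.{w, v, u} h (P := fun p x => c p x ∈ W) (m W) _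
      (fun p x y f k => by rw [c2 p x y f k]) (fun p x => (c3 p x).imp fun _ a => a.1)
      (fun _ _ => Finset.mem_insert_of_mem) (i ω) (i1 ω)
      (fun p x => (i2 ω p x).symm ▸ Finset.mem_insert_self _ _) (fun p x => (i2 ω p x).symm ▸ e)
      (fun p y a b => i3 ω p y ((Finset.mem_insert.1 a).resolve_right b)) n y
    rw [map_add, ← Pre.map_comp, ← Pre.map_comp, ← H.map_comp, ← H.map_comp]
    exact pa _ _ (ih y) (pi ω z)

end Pool.Agent.Lib.MP_5d3e93_al.Br
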