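import Pool.Agent.Lib.MP_5d3e93_al.Br.Mt

/-! Classes generated by a clopen class of entries are thick. -/

open CategoryTheory Limits Pretriangulated

namespace Pool.Agent.Lib.MP_5d3e93_al.Br

open Gr Am

universe v u

variable {D : Type (max u v)} [Category.{v} D] [Preadditive D] {P : ObjectProperty D}

/-- The projection to a clopen class. -/
theorem tda_ex (hP : ∀ (x y : D) (f : x ⟶ y), f ≠ 0 → (P x ↔ P y))
    (hz : ∀ _ : D, ∃ z : D, IsZero z) : ∃ (e : D ⥤ D) (_ : e.Additive) (α : e ⟶ 𝟭 D)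
      (r : 𝟭 D ⟶ e), α ≫ r = 𝟙 _ ∧ (∀ x, P x → r.app x ≫ α.app x = 𝟙 _ ∧ P (e.obj x)) ∧
        ∀ x, ¬ P x → IsZero (e.obj x) := by
  have k (x : D) : ∃ (y : D) (a : y ⟶ x) (r : x ⟶ y), a ≫ r = 𝟙 _ ∧
      (P x → r ≫ a = 𝟙 _ ∧ P y) ∧ (¬ P x → IsZero y) := by
    by_cases h : P x
    · exact ⟨x, 𝟙 _, 𝟙 _, Category.id_comp _, fun _ => ⟨Category.id_comp _, h⟩, fun n => (n h).elim⟩
    · obtain ⟨z, hz⟩ := hz x
      exact ⟨z, 0, 0, hz.eq_of_src _ _, fun n => (h n).elim, fun _ => hz⟩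
  choose o a r h1 h2 h3 using k
  have c1 {x y : D} (f : x ⟶ y) : a x ≫ f ≫ r y ≫ a y = a x ≫ f := by
    by_cases h : P y
    · rw [(h2 y h).1, Category.comp_id]
    by_cases f0 : f = 0
    · simp only [f0, zero_comp, comp_zero]
    · exact (h3 x fun n => h ((hP x y f f0).1 n)).eq_of_src _ _
  have c2 {x y : D} (f : x ⟶ y) : r x ≫ a x ≫ f ≫ r y = f ≫ r y := by
    by_cases h : P x
    · rw [reassoc_of% (h2 x h).1]
    by_cases f0 : f = 0
    · simp only [f0, zero_comp, comp_zero]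
    · exact (h3 y fun n => h ((hP x y f f0).2 n)).eq_of_tgt _ _
  let e : D ⥤ D :=
    { obj := o
      map := fun {x y} f => a x ≫ f ≫ r y
      map_id := fun x => by rw [Category.id_comp, h1]
      map_comp := fun f g => by simp only [Category.assoc, reassoc_of% c1] }
  exact ⟨e, ⟨fun {x y f g} => by simp only [e, Preadditive.add_comp, Preadditive.comp_add]⟩,
    ⟨a, fun x y f => by simpa only [e, Category.assoc, Functor.id_map] using c1 f⟩,
    ⟨r, fun x y f => (c2 f).symm⟩, NatTrans.ext (funext h1), h2, h3⟩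

theorem tda_th (hP : ∀ (x y : D) (f : x ⟶ y), f ≠ 0 → (P x ↔ P y))
    (hz : ∀ _ : D, ∃ z : D, IsZero z) (X : (mam.{v, u} D).D) (b : (mam.{v, u} D).bdd X)
    (h : Th (mg.{v, u} P) X) : mg.{v, u} P X := by
  obtain ⟨e, _, α, r, h1, h2, h3⟩ := tda_ex hP hz
  obtain ⟨e', _, α', r', k1, k2, k3⟩ := tda_ex (P := fun x => ¬ P x)
    (fun x y f n => not_congr (hP x y f n)) hz
  have k₁ : mnat.{v, u, u} α ≫ mnat.{v, u, u} r = 𝟙 _ := by rw [mnat_comp, h1, mnat_id]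
  have k₂ : mnat.{v, u, u} α' ≫ mnat.{v, u, u} r' = 𝟙 _ := by rw [mnat_comp, k1, mnat_id]
  have s : r ≫ α + r' ≫ α' = 𝟙 _ := NatTrans.ext (funext fun x => by
    change r.app x ≫ α.app x + r'.app x ≫ α'.app x = 𝟙 x
    by_cases c : P x
    · rw [(h2 x c).1, (k3 x (not_not.2 c)).eq_of_src (α'.app x) 0, comp_zero, add_zero]
      rfl
    · rw [(k2 x c).1, (h3 x c).eq_of_src (α.app x) 0, comp_zero, zero_add]
      rfl)
  have k₃ : mnat.{v, u, u} r ≫ mnat.{v, u, u} α + mnat.{v, u, u} r' ≫ mnat.{v, u, u} α' = 𝟙 _ := by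
    rw [mnat_comp, mnat_comp, mnat_add, s, mnat_id]
  obtain ⟨δ, t⟩ := (ses_of_split (f₁ := mm.{v, u, u} e) (f := (mam.{v, u} D).idm)
    (f₂ := mm.{v, u, u} e') (α := mnat.{v, u, u} α) (β := mnat.{v, u, u} r')
    (h := ad_zero k₁ k₂ k₃) (fun X => ⟨_, _, NatTrans.congr_app k₁ X, NatTrans.congr_app k₂ X,
      NatTrans.congr_app k₃ X⟩) ⊤).tri (X := X) trivial
  refine (mg.{v, u} P).ext_of_isTriangulatedClosed₂ _ t
    (mm_le e (P := ⊤) (fun x _ => ?_) X (mg_top.ge X b)) (Tg.zero _ ?_)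
  · by_cases c : P x
    · exact mg_mo (h2 x c).2
    · exact Tg.zero _ (mo.map_isZero (h3 x c))
  · obtain ⟨Y, a⟩ := h
    have z : IsZero ((mm.{v, u, u} e').D.obj (X ⊞ Y)) :=
      mm_le e' (S := Zr) (fun x c => mo.map_isZero (k3 x (not_not.2 c))) _ a
    change IsZero ((mm.{v, u, u} e').D.obj X)
    rw [IsZero.iff_id_eq_zero, ← CategoryTheory.Functor.map_id, ← biprod.inl_fst (Y := Y),
      Functor.map_comp, z.eq_of_src ((mm.{v, u, u} e').D.map biprod.fst) 0, comp_zero]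

theorem tda_le {P' : ObjectProperty D} (hP : ∀ (x y : D) (f : x ⟶ y), f ≠ 0 → (P x ↔ P y))
    (hz : ∀ _ : D, ∃ z : D, IsZero z) (le : P ≤ P') :
    mg.{v, u} P' ⊓ Th (mg.{v, u} P) = mg.{v, u} P :=
  le_antisymm (fun X a => tda_th hP hz X (((mg_mono le_top).trans mg_top.le) X a.1) a.2)
    fun X a => ⟨mg_mono le X a, Th.le X a⟩

end Pool.Agent.Lib.MP_5d3e93_al.Br
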