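import Pool.Agent.Lib.MP_5d3e93_al.Br.TA

/-! Diagrams that split along colours: reduction to one more colour. -/

open CategoryTheory Limits Function

namespace Pool.Agent.Lib.MP_5d3e93_al.Br

open Gr Am As A2

universe w v u v' u'

variable {J : Type u'} [Category.{v'} J] {B : J ⥤ AC.{v, max u v}} {Ω : Type v}
  (c : ∀ p, (B.obj p).C → Ω) (c1 : ∀ p q (θ : p ⟶ q) x, c q ((B.map θ).F.obj x) = c p x)

/-- The classes generated by the objects with colour in `W`. -/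
noncomputable def tdcW (W : Set Ω) : J ⥤ Tp.{v, max 1 u} where
  obj p := ⟨mam.{v, u} (B.obj p).C, mg.{v, u} fun x => c p x ∈ W⟩
  map {p q} θ := ⟨mm.{v, u, u} (B.map θ).F, mm_maps (B.map θ).F (R := fun x => c q x ∈ W)
    fun x a => (congrArg (· ∈ W) (c1 p q θ x)).mpr a⟩
  map_id p := Tp.hom_ext (congrArg (·.f.F) ((B ⋙ AM.{v, u}).map_id p))
  map_comp f g := Tp.hom_ext (congrArg (·.f.F) ((B ⋙ AM.{v, u}).map_comp f g))

/-- More colours. -/
noncomputable def tdcI {W W' : Set Ω} (h : W ⊆ W') : tdcW.{v, u} c c1 W ⟶ tdcW.{v, u} c c1 W' where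
  app _ := ⟨Am.idm _, mg_mono fun _ a => h a⟩
  naturality _ _ _ := rfl

/-- All colours. -/
noncomputable def tdcO (W : Set Ω) : tdcW.{v, u} c c1 W ⟶ B ⋙ AM.{v, u} where
  app p := ⟨Am.idm _, mg_mono.{v, u} (P := fun x => c p x ∈ W) le_top⟩
  naturality _ _ _ := rfl

/-- One colour. -/
noncomputable def tdcD {D : J ⥤ AC.{v, max u v}} (i : D ⟶ B) {W : Set Ω}
    (h : ∀ p x, c p ((i.app p).F.obj x) ∈ W) : D ⋙ AM.{v, u} ⟶ tdcW.{v, u} c c1 W where
  app p := ⟨mm.{v, u, u} (i.app p).F,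
    mm_maps (i.app p).F (R := fun x => c p x ∈ W) fun x _ => h p x⟩
  naturality _ _ θ :=
    Tp.hom_ext (congrArg (·.f.F) ((Functor.whiskerRight i AM.{v, u}).naturality θ))

theorem tdc_IO {W W' : Set Ω} (h : W ⊆ W') :
    tdcI.{v, u} c c1 h ≫ tdcO c c1 W' = tdcO c c1 W := rfl

theorem tdc_DO {D : J ⥤ AC.{v, max u v}} (i : D ⟶ B) {W : Set Ω}
    (h : ∀ p x, c p ((i.app p).F.obj x) ∈ W) :
    tdcD.{v, u} c c1 i h ≫ tdcO c c1 W = Functor.whiskerRight i AM.{v, u} := rfl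

theorem tdc_union {D : Type (max u v)} [Category.{v} D] [Preadditive D] (c : D → Ω) (X)
    (a : mg.{v, u} (⊤ : ObjectProperty D) X) :
    ∃ s : Finset Ω, mg.{v, u} (fun x => c x ∈ (s : Set Ω)) X := by
  classical
  have : Tg fun X : (mam.{v, u} D).D => ∃ s : Finset Ω, mg.{v, u} (fun x => c x ∈ (s : Set Ω)) X :=
    Tg.mk' (fun _ a => ⟨∅, Tg.zero _ a⟩)
      (fun k _ ⟨s, a⟩ => ⟨s, (mg.{v, u} _).le_shift k _ a⟩) fun T t ⟨s, a⟩ ⟨s', b⟩ =>
        ⟨s ∪ s', (mg.{v, u} _).ext_of_isTriangulatedClosed₂ T t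
          (mg_mono (fun _ e => Finset.mem_union_left _ e) _ a)
          (mg_mono (fun _ e => Finset.mem_union_right _ e) _ b)⟩
  exact mg_le (S := fun X => ∃ s : Finset Ω, mg.{v, u} (fun x => c x ∈ (s : Set Ω)) X)
    (fun x _ => ⟨{c x}, mg_mo (Finset.mem_singleton_self _)⟩) X a

variable {H : (J ⥤ Tp.{v, max 1 u}) ⥤ Pre.{w}}

/-- Every class lives on finitely many colours. -/
theorem tdc_fin (o : KU H) {n : ℤ} (x : (H.obj (B ⋙ AM.{v, u})).π n) :
    ∃ (s : Finset Ω) (y : _), Pre.map n (H.map (tdcO.{v, u} c c1 s)) y = x :=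
  (o (ι := Finset Ω) (W := fun s => tdcW.{v, u} c c1 s)
    (fun l => tdcI c c1 (Finset.coe_subset.2 l)) (fun s => tdcO c c1 s) (fun _ _ => rfl)
    (fun _ => rfl) fun p => .mk _ (fun _ => rfl) (fun _ _ l => mg_mono fun _ a => l a)
      (tdc_union (c p))).surj n x

theorem tdc_empty (h : KT H) : (H.obj (tdcW.{v, u} c c1 ∅)).Acy := fun n x => by
  have k := h.nl (𝟙 (tdcW.{v, u} c c1 ∅)) (𝟙 _) fun p =>
    mg_le (S := Zr) (P := fun x => c p x ∈ (∅ : Set Ω)) fun _ a => a.elim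
  have e := ((Pre.exact₁ (n := n) (H.map (𝟙 (tdcW.{v, u} c c1 ∅)))) _).2 ⟨x, rfl⟩
  have := congrArg (Pre.map n k.col) e
  rwa [← Pre.map_comp, k.cim_col, map_zero, H.map_id, Pre.map_id, Pre.map_id] at this

/-- The splitting follows from the step that adds one colour. -/
theorem tdc_dec (h : KT H) (o : KU H) {D : Ω → J ⥤ AC.{v, max u v}} (i : ∀ ω, D ω ⟶ B)
    (i2 : ∀ ω p x, c p (((i ω).app p).F.obj x) = ω) {n : ℤ}
    (st : ∀ (W : Set Ω) (ω : Ω), ω ∉ W → ∀ y : (H.obj (tdcW.{v, u} c c1 (insert ω W))).π n,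
      ∃ a b, y = Pre.map n (H.map (tdcI c c1 (Set.subset_insert ω W))) a +
        Pre.map n (H.map (tdcD c c1 (i ω) fun p x => .inl (i2 ω p x))) b)
    {P : (H.obj (B ⋙ AM.{v, u})).π n → Prop} (p0 : P 0) (pa : ∀ x y, P x → P y → P (x + y))
    (pi : ∀ ω y, P (Pre.map n (H.map (Functor.whiskerRight (i ω) AM.{v, u})) y)) (x) : P x := by
  classical
  obtain ⟨s, y, rfl⟩ := tdc_fin c c1 o x
  have k (W : Set Ω) (f : W.Finite) : ∀ y, P (Pre.map n (H.map (tdcO.{v, u} c c1 W)) y) := by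
    induction W, f using Set.Finite.induction_on with
    | empty => intro y; rw [tdc_empty c c1 h n y, map_zero]; exact p0
    | insert a _ b =>
      intro y
      obtain ⟨y₁, y₂, rfl⟩ := st _ _ a y
      rw [map_add, ← Pre.map_comp, ← Pre.map_comp, ← H.map_comp, ← H.map_comp, tdc_IO, tdc_DO]
      exact pa _ _ (b _) (pi _ _)
  exact k _ s.finite_toSet y

end Pool.Agent.Lib.MP_5d3e93_al.Br
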