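import Pool.Agent.Lib.MP_5d3e93_al.Br.TA
import Pool.Agent.Lib.MP_5d3e93_al.Br.KpA

/-! The iterated S-construction commutes with directed unions. -/

open CategoryTheory Function

namespace Pool.Agent.Lib.MP_5d3e93_al.Br

open Gr Am A2 SP

universe v u

theorem kp_un4 {ι : Type v} [Preorder ι] [IsDirected ι (· ≤ ·)] [Nonempty ι] {W : ι → Tp.{v, u}}
    {Y : Tp.{v, u}} {w : ∀ r, W r ⟶ Y} (a : Un4 w) (m) : (∀ r, Em ((KP m).map (w r))) ∧
      ∀ n s, ∃ r t, (((KP m).map (w r)).app n).1 t = s := by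
  obtain @⟨a, N, S, _, _, w, hw, mo, c⟩ := a
  have le (r) : N r ≤ S := by
    have := (w r).h
    rwa [hw] at this
  obtain rfl : w = fun r => ⟨a.idm, le r⟩ := funext fun r => Tp.hom_ext (congrArg (·.F) (hw r))
  exact ⟨fun r => kp_em (le r) m, fun n s =>
    (kp_un _ mo le c m n {s}).imp fun _ h => h s (Finset.mem_singleton_self s)⟩

theorem ku_kp : KU (wh A2.kp.{v, u} ⋙ PP.D) := fun v w a b c =>
  PP.D_un (v := fun l => (wh A2.kp).map (v l)) (w := fun d => (wh A2.kp).map (w d))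
    (fun l l' => by rw [← Functor.map_comp, a]) (fun l => by rw [← Functor.map_comp, b])
    (fun d p m => (kp_un4 (c p) m).1 d) fun p m n s => .inr ((kp_un4 (c p) m).2 n s)

end Pool.Agent.Lib.MP_5d3e93_al.Br
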