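import Pool.Agent.Lib.MP_5d3e93_al.Br.TT
import Pool.Agent.Lib.MP_5d3e93_al.Br.TU
import Pool.Agent.Lib.MP_5d3e93_al.Br.End
import Pool.Agent.Lib.MP_5d3e93_al.Br.DefE

/-! The Farrell-Jones property from vanishing relative to a set with action. -/

open CategoryTheory Limits Function MulAction
open scoped Pointwise

namespace Pool.Agent.Lib.MP_5d3e93_al.Br

open Gr Am As A2

universe w v u

variable {G : Type v} [Group G] {Y : Type v} [MulAction G Y]

theorem kz_top {C : Type u} [Category.{v} C] [Preadditive C] [HasBinaryBiproducts C]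
    [HasZeroObject C] {σ : Act G C} (h : KZ (σ.comap (⊤ : Subgroup G).subtype)) : KZ σ :=
  (kz_iff (σ := σ) (j := .id G) injective_id).2 (by
    rw [MonoidHom.range_eq_top.2 surjective_id]
    exact (kz_sub _).1 h)

theorem fj_kz (h : ∀ (D : Type (max 1 u v)) [Category.{v} D] [Preadditive D]
    [HasBinaryBiproducts D] [HasZeroObject D] (σ : Act G D), Sw σ → KZ σ) : FJ.{v, u} G :=
  fun S hS hI _ ρ n =>
    have : Nonempty S.V := (hS ⊥ 1 inferInstance).nonempty
    As.bridge S (set_fix (orb_vc hS hI)) (fun _ _ _ _ _ _ k => h _ _ (sw_of k hS)) ρ n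

theorem vc_sub {H K : Subgroup G} (e : H ≤ K) (h : ∃ x : K, (Subgroup.zpowers x).FiniteIndex) :
    ∃ x : H, (Subgroup.zpowers x).FiniteIndex := by
  obtain ⟨x, a⟩ := h
  have b : Fi (Subgroup.zpowers (x : G)) K :=
    ((fi_top.2 a).map K.subtype).mono (MonoidHom.map_zpowers ..).le
      fun g k => ⟨⟨g, k⟩, trivial, rfl⟩
  obtain ⟨y, c⟩ := (Subgroup.le_zpowers_iff (x : G) (Subgroup.zpowers (x : G) ⊓ H)).1 inf_le_left
  have d : (x : G) ^ y ∈ H := (c.ge (Subgroup.mem_zpowers _)).2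
  have f : Fi (Subgroup.zpowers (x : G) ⊓ H) H := (b.mono le_rfl e).inf (.of_le le_rfl)
  rw [c] at f
  refine ⟨⟨_, d⟩, ⟨mt (fun k => ?_) f⟩⟩
  rw [Subgroup.relIndex, ← k]
  congr 1
  ext g
  simp [Subgroup.mem_subgroupOf, Subgroup.mem_zpowers_iff, Subtype.ext_iff]

theorem vc_equiv {L : Type v} [Group L] (f : G ≃* L) (h : ∃ x : G, (Subgroup.zpowers x).FiniteIndex) :
    ∃ x : L, (Subgroup.zpowers x).FiniteIndex := h.elim fun x a => ⟨f x, fi_top.1
  (((fi_top.2 a).map f.toMonoidHom).mono (MonoidHom.map_zpowers ..).le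
    (Subgroup.map_top_of_surjective _ f.surjective).ge)⟩

theorem FJ_res {L : Subgroup G} (h : FJ.{v, u} L) (S : GS G)
    (hS : ∀ (H : Subgroup G) (x : H), (Subgroup.zpowers x).FiniteIndex →
      ∃ s : S.V, ∀ g ∈ H, g • s = s)
    (hI : ∀ s : S.V, ∃ x : stabilizer G s, (Subgroup.zpowers x).FiniteIndex)
    (A : AC.{v, u}) (ρ : Act L A.C) (n : ℤ) :
    Bij (Functor.whiskerRight (As.pr (As.cech (gres L.subtype S))) (star ρ)) n :=
  h (gres L.subtype S) (fun H x a =>
    (vc_equiv (H.equivMapOfInjective _ L.subtype_injective) ⟨x, a⟩).elim fun y b =>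
      (hS _ y b).imp fun _ k g c => k g ⟨g, c, rfl⟩)
    (fun s => vc_equiv (Subgroup.equivMapOfInjective _ _ L.subtype_injective).symm
      (vc_sub (by rintro _ ⟨g, c, rfl⟩; exact c) (hI s))) A ρ n

/-- Vanishing relative to a set with action whose stabilisers have the property. -/
theorem fj_of (hF : ∀ (H : Subgroup G) (y : Y), (orbit H y).Finite → ∃ z : Y, ∀ g ∈ H, g • z = z)
    (hY : ∀ y : Y, FJ.{v, max 1 u v} (stabilizer G y))
    (h : ∀ (D : Type (max 1 u v)) [Category.{v} D] [Preadditive D] [HasBinaryBiproducts D]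
      [HasZeroObject D] (σ : Act G D), Sw σ → SwF (Fam.fix G Y) σ → KZ σ) : FJ.{v, u} G := by
  intro S hS hI A ρ n
  have : Nonempty S.V := (hS ⊥ 1 inferInstance).nonempty
  refine trans_of (Y := S.V ⊕ Y) kt_kp.{v, max 1 u v} ku_kp.{v, max 1 u v} tau.{v, max u v}
    tau_bij.{v, max u v} S (set_fix fun H y a => ?_)
    (fun D _ _ _ _ σ k => h D σ (sw_of (fun s => (k (.inl s)).mono fun _ => congrArg Sum.inl) hS)
      (swF_of fun y => (k (.inr y)).mono fun _ => congrArg Sum.inr)) (fun y B σ m => ?_) ρ n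
  · obtain s | y := y
    · exact (orb_vc hS hI H s ((a.preimage Sum.inl_injective.injOn).subset (by
        rintro _ ⟨g, rfl⟩
        exact ⟨g, rfl⟩))).elim fun t k => ⟨.inl t, fun g c => congrArg Sum.inl (k g c)⟩
    · exact (hF H y ((a.preimage Sum.inr_injective.injOn).subset (by
        rintro _ ⟨g, rfl⟩
        exact ⟨g, rfl⟩))).elim fun t k => ⟨.inr t, fun g c => congrArg Sum.inr (k g c)⟩
  · obtain s | y := y
    · have : Nonempty (gres (stabilizer G (Sum.inl s : S.V ⊕ Y)).subtype S).V := this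
      have e (g : stabilizer G (Sum.inl s : S.V ⊕ Y)) : g.1 • s = s := Sum.inl_injective g.2
      exact As.bridge.{v, max 1 u v} (gres (stabilizer G (Sum.inl s : S.V ⊕ Y)).subtype S)
        (fun _ _ _ => ⟨s, fun g _ => e g⟩)
        (fun _ _ _ _ _ _ k => kz_swd ((k s).mono fun g _ => e g)) σ m
    · have e : stabilizer G y = stabilizer G (Sum.inr y : S.V ⊕ Y) :=
        Subgroup.ext fun g => ⟨congrArg Sum.inr, fun c => Sum.inr_injective c⟩
      exact FJ_res ((congrArg (fun L : Subgroup G => FJ.{v, max 1 u v} L) e).mp (hY y)) S hS hI B σ m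

end Pool.Agent.Lib.MP_5d3e93_al.Br
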