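import Pool.Agent.Lib.MP_5d3e93_al.TreeC

/-! A subgroup with a bounded orbit on a tree fixes a vertex. -/

namespace Pool.Agent.Lib.MP_5d3e93_al

variable {V : Type*} {T : SimpleGraph V} {G : Type*} [Group G] [MulAction G V]

theorem tfx_dist (hT : T.IsTree) (ha : ∀ (g : G) a b, T.Adj a b → T.Adj (g • a) (g • b)) (g : G)
    (a b : V) : T.dist (g • a) (g • b) ≤ T.dist a b := by
  obtain ⟨p, hp⟩ := hT.connected.exists_walk_length_eq_dist a b
  rw [← hp, ← p.length_map (⟨(g • ·), ha g _ _⟩ : T →g T)]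
  exact SimpleGraph.dist_le _

theorem tfx_adj (hT : T.IsTree) {O : Set V} {n : ℕ} {v w : V} (hv : ∀ o ∈ O, T.dist v o ≤ n + 1)
    (hw : ∀ o ∈ O, T.dist w o ≤ n + 1) :
    w = v ∨ T.Adj v w ∨ ∃ b, ∀ o ∈ O, T.dist b o ≤ n := by
  rcases half_ex hT v w with e | ⟨b, h1, h2⟩
  · exact .inl e
  rcases half_ex hT b w with e | ⟨c, h3, h4⟩
  · exact .inr (.inl (e ▸ h1))
  refine .inr (.inr ⟨b, fun o ho => Nat.le_of_lt_succ ?_⟩)
  by_cases k : o ∈ Half T v b
  · exact (half_dist hT h1.symm (half_disj hT h1 k) half_self).trans_le (hv o ho)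
  · refine (half_dist hT h3 (fun k' => k (half_nest hT h1 h3 (half_step half_self h3 fun e => ?_)
      k')) h4).trans_le (hw o ho)
    rcases Sym2.eq_iff.1 e with ⟨rfl, -⟩ | ⟨-, rfl⟩
    exacts [h1.ne rfl, half_disj hT h1 h2 h4]

theorem tfx_tri (hT : T.IsTree) {a b c : V} (h1 : T.Adj a b) (h2 : T.Adj a c) : ¬ T.Adj b c :=
  fun h3 => h3.ne (half_uniq hT h1 h2 (half_step half_self h3 fun e => by
    rcases Sym2.eq_iff.1 e with ⟨rfl, -⟩ | ⟨-, rfl⟩
    exacts [h1.ne rfl, h2.ne rfl]) half_self)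

/-- A subgroup with a bounded orbit fixes a vertex. -/
theorem tfx_bdd (hT : T.IsTree) (ha : ∀ (g : G) a b, T.Adj a b → T.Adj (g • a) (g • b))
    (hi : ∀ (g : G) a b, T.Adj a b → g • a = b → g • b ≠ a) (H : Subgroup G) (a : V) (n : ℕ) :
    ∀ v : V, (∀ g ∈ H, T.dist v (g • a) ≤ n) → ∃ v : V, ∀ g ∈ H, g • v = v := by
  induction n with
  | zero =>
    have e {v x : V} (h : T.dist v x ≤ 0) : v = x :=
      hT.connected.dist_eq_zero_iff.1 (Nat.le_zero.1 h)
    exact fun v h => ⟨a, fun g hg => (e (h g hg)).symm.trans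
      ((e (h 1 H.one_mem)).trans (one_smul _ _))⟩
  | succ n ih =>
    intro v h
    let O : Set V := {o | ∃ g ∈ H, g • a = o}
    have s (g : G) (hg : g ∈ H) : ∀ o ∈ O, T.dist (g • v) o ≤ n + 1 := by
      rintro _ ⟨k, hk, rfl⟩
      have := tfx_dist hT ha g v ((g⁻¹ * k) • a)
      rw [smul_smul, mul_inv_cancel_left] at this
      exact this.trans (h _ (H.mul_mem (H.inv_mem hg) hk))
    by_cases m : ∃ b, ∀ o ∈ O, T.dist b o ≤ n
    · obtain ⟨b, hb⟩ := m
      exact ih b fun g hg => hb _ ⟨g, hg, rfl⟩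
    have t (g : G) (hg : g ∈ H) (e : g • v ≠ v) : T.Adj v (g • v) :=
      ((tfx_adj hT (by simpa only [one_smul] using s 1 H.one_mem) (s g hg)).resolve_left
        e).resolve_right m
    refine ⟨v, fun g hg => by_contra fun e => ?_⟩
    have h1 := t g hg e
    have h2 := t (g * g) (H.mul_mem hg hg) (by rw [mul_smul]; exact hi g _ _ h1 rfl)
    rw [mul_smul] at h2
    exact tfx_tri hT h1 h2 (ha g _ _ h1)

/-- A subgroup with a finite orbit fixes a vertex. -/
theorem tfx_fix (hT : T.IsTree) (ha : ∀ (g : G) a b, T.Adj a b → T.Adj (g • a) (g • b))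
    (hi : ∀ (g : G) a b, T.Adj a b → g • a = b → g • b ≠ a) (H : Subgroup G) (a : V)
    (hf : (MulAction.orbit H a).Finite) : ∃ v : V, ∀ g ∈ H, g • v = v := by
  obtain ⟨n, hn⟩ := (hf.image (T.dist a)).bddAbove
  exact tfx_bdd hT ha hi H a n a fun g hg => hn ⟨_, ⟨⟨g, hg⟩, rfl⟩, rfl⟩

/-- A subgroup that leaves a finite non empty set of vertices invariant fixes a vertex. -/
theorem tfx_set (hT : T.IsTree) (ha : ∀ (g : G) a b, T.Adj a b → T.Adj (g • a) (g • b))
    (hi : ∀ (g : G) a b, T.Adj a b → g • a = b → g • b ≠ a) (H : Subgroup G) {s : Set V}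
    (hf : s.Finite) (hn : s.Nonempty) (h : ∀ g ∈ H, ∀ x ∈ s, g • x ∈ s) :
    ∃ v : V, ∀ g ∈ H, g • v = v := by
  obtain ⟨a, k⟩ := hn
  exact tfx_fix hT ha hi H a (hf.subset (by rintro _ ⟨g, rfl⟩; exact h g g.2 a k))

open scoped Pointwise in
/-- The stabiliser of a finite non empty set of vertices fixes a vertex. -/
theorem tfx_hl (hT : T.IsTree) (ha : ∀ (g : G) a b, T.Adj a b → T.Adj (g • a) (g • b))
    (hi : ∀ (g : G) a b, T.Adj a b → g • a = b → g • b ≠ a) (s : Set V) (hf : s.Finite)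
    (hn : s.Nonempty) : ∃ x : V, ∀ g : G, g • s = s → g • x = x :=
  tfx_set hT ha hi (MulAction.stabilizer G s) hf hn fun g hg _ hx =>
    (show g • s = s from hg) ▸ Set.smul_mem_smul_set hx

end Pool.Agent.Lib.MP_5d3e93_al
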