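import Pool.Agent.Lib.MP_5d3e93_al.Br.TA

/-! Classes that die along the suspensions die in every tower with swindles. -/

open CategoryTheory Limits Function

namespace Pool.Agent.Lib.MP_5d3e93_al.Br

open Gr Am As A2

universe w v u v' u'

open Pre in
theorem Tm.dies_of_row {T U V : To.{w}} (I : Tm T U) (Q : Tm U V) (a : ∀ k, Nl (I.a k) (Q.a k))
    (b : ∀ k, Nl (I.b k) (Q.b k)) (c : ∀ k, (U.X k).Acy)
    (o : ∀ k n x, (a k).τ (c k) n x = 0 → T.τ k n x = 0) {k n} {x : (T.X k).π n}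
    (h : V.Dies k (n + 1) ((a k).τ (c k) n x)) : T.Dies k n x := by
  let F : Tm I.C V := ⟨fun k => (a k).col, fun k => (b k).col,
    fun k => (a k).cf_col (b k) (I.hi k).symm (Q.hi k).symm,
    fun k => (b k).cf_col (a (k + 1)) (I.hq k).symm (Q.hq k).symm⟩
  have f : F.Inj := Tm.inj_of fun k n z e => by
    obtain ⟨n, rfl⟩ : ∃ m, n = m + 1 := ⟨n - 1, by omega⟩
    obtain ⟨y, d⟩ := s_bij.2 (map _ (ccm (I.a k)) z)
    refine Tm.inj_of' (F := I.cc) (fun k n => (ccm_bij (c k) _).1) k _ z (.up ?_)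
    have : T.S.τ k _ ((T.X k).s n y) = 0 := (Nl.τ_S ..).trans (by
      rw [show (T.z k).τ (T.ac k) n y = 0 from o k n y (((a k).τ_eq (c k)).2 ⟨z, d.symm, e⟩),
        map_zero, neg_zero]
      rfl)
    exact (congrArg (T.S.τ k _) d.symm).trans this ▸ .zero
  obtain ⟨z, d, e⟩ := ((a k).τ_eq (c k)).1 (rfl : (a k).τ (c k) n x = _)
  exact To.dies_s (I.cc.dies (f k _ z (e ▸ h))) n rfl x d.symm

theorem gl_gen {D : Type u'} [Category.{v'} D] {A B : D ⥤ D} {ι : 𝟭 D ⟶ A} {π : A ⟶ B}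
    {K : D ⥤ Pre.{w}} (a : ∀ E, Pre.Nl (K.map (ι.app E)) (K.map (π.app E)))
    (c : ∀ E, (K.obj (A.obj E)).Acy) {O : Ft D → Prop} (o : ∀ T, O T → (T.map K).Ok)
    (oA : ∀ T, O T → O (T.map A)) (oB : ∀ T, O T → O (T.map B))
    (s : ∀ T (t : O T) k n x, (a (T.X k)).τ (c _) n x = 0 → ((T.map K).tw (o T t)).τ k n x = 0)
    {W : Ft D} (p : ∀ k, W.P k ⟶ A.obj (W.X k)) (r : ∀ k, W.X (k + 1) ⟶ B.obj (W.X k))
    (hp : ∀ k, W.i k ≫ p k = ι.app _) (hr : ∀ k, W.q k ≫ r k = p k ≫ π.app _) {d j n y}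
    (h : ((W.map K).tw d).Dies j n y) : ∀ T (t : O T) k (f : W.X j ⟶ T.X k),
      ((T.map K).tw (o T t)).Dies k n (Pre.map n (K.map f) y) := by
  induction h with
  | zero => exact fun T t k f => (map_zero (Pre.map _ (K.map f))).symm ▸ .zero
  | @up j n y _ ih =>
    intro T t k f
    refine Tm.dies_of_row (T := (T.map K).tw (o T t)) (U := ((T.map A).map K).tw (o _ (oA T t)))
      (V := ((T.map B).map K).tw (o _ (oB T t))) (((T.nat ι).map K).tm _ _)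
      (((T.nat π).map K).tm _ _) (fun _ => a _) (fun _ => a _) (fun _ => c _) (s T t) ?_
    have e := (d.1 j).τ_nat (a _) (d.2 j) (c _) (b := K.map (p j ≫ A.map f))
      (c := K.map (r j ≫ B.map f))
      ((K.map_comp ..).symm.trans ((congrArg K.map (by
        rw [← Category.assoc, hp, ← ι.naturality]
        rfl)).trans (K.map_comp f _)))
      ((K.map_comp ..).symm.trans ((congrArg K.map (by
        rw [← Category.assoc, hr, Category.assoc, Category.assoc, π.naturality])).trans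
          (K.map_comp ..))) y
    exact e ▸ ih _ (oB T t) k (r j ≫ B.map f)

variable {J : Type u'} [Category.{v'} J]

/-- Postcomposition. -/
abbrev wr {C : Type*} [Category* C] {D : Type*} [Category* D] (F : C ⥤ D) : (J ⥤ C) ⥤ J ⥤ D :=
  (Functor.whiskeringRight _ _ _).obj F

/-- The inclusion in the cone. -/
noncomputable def wi : 𝟭 (J ⥤ AC.{v, u}) ⟶ wr cone :=
  ⟨fun E => E.whiskerLeft incl, fun _ _ f => NatTrans.ext (funext fun p => incl.naturality (f.app p))⟩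

/-- The projection to the suspension. -/
noncomputable def wp : (wr cone : (J ⥤ AC.{v, u}) ⥤ _) ⟶ wr susp :=
  (Functor.whiskeringRight ..).map proj

theorem Fo.cone {T : Ft (J ⥤ AC.{v, u})} (t : Fo T) : Fo (T.map (wr cone)) :=
  ⟨fun k p _ => mx_zero (Z := nat) fun _ => .inr (t.1 k p _), fun _ _ => fq_cone _⟩

theorem Fo.susp {T : Ft (J ⥤ AC.{v, u})} (t : Fo T) : Fo (T.map (wr susp)) :=
  ⟨fun k p x => (proj.app _).F.map_isZero (t.cone.1 k p x.as), fun k p => (t.2 k p).susp⟩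

variable {H : (J ⥤ Tp.{v, max 1 u}) ⥤ Pre.{w}}

/-- A diagram with a class of objects. -/
def glR (X : J ⥤ AC.{v, u}) (R : ∀ p, ObjectProperty (X.obj p).C)
    (h : ∀ ⦃p p'⦄ (f : p ⟶ p'), R p ≤ (R p').inverseImage (X.map f).F) : J ⥤ Rw.{v, u} where
  obj p := ⟨X.obj p, X.obj p, 𝟙 _, R p⟩
  map f := ⟨X.map f, X.map f, rfl, h f⟩
  map_id _ := Rw.Hom.ext (X.map_id _) (X.map_id _)
  map_comp _ _ := Rw.Hom.ext (X.map_comp ..) (X.map_comp ..)

/-- A map of diagrams with classes. -/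
def glM {X Y : J ⥤ AC.{v, u}} {R R' h h'} (φ : X ⟶ Y)
    (m : ∀ p, R p ≤ (R' p).inverseImage (φ.app p).F) : glR X R h ⟶ glR Y R' h' :=
  ⟨fun p => ⟨φ.app p, φ.app p, rfl, m p⟩,
    fun _ _ f => Rw.Hom.ext (φ.naturality f) (φ.naturality f)⟩

open Functor Rw in
theorem gl_one (h : KT H) {X P Y : J ⥤ AC.{v, max u v}} (i : X ⟶ P) (q : P ⟶ Y)
    (z : ∀ p x, IsZero (((i ≫ q).app p).F.obj x)) (s : ∀ p, Fq (P.obj p).C)
    (a : Pre.Nl ((wA.{v, u} ⋙ H).map (wi.app X)) ((wA.{v, u} ⋙ H).map (wp.app X))) (b)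
    (c : Pre.Nl ((wA.{v, u} ⋙ H).map i) ((wA.{v, u} ⋙ H).map q)) (d) {n x}
    (e : a.τ b n x = 0) : c.τ d n x = 0 := by
  let R0 := glR X (fun _ => ⊤) fun _ _ _ => le_top
  let R1 := glR (X ⋙ cone) (fun _ (y : Mx nat _) => y.I.Finite) fun _ _ _ _ c => c
  have m ⦃p p'⦄ (f : p ⟶ p') (y) (c : ∃ x, (i.app p).F.obj x = y) :
      ∃ x, (i.app p').F.obj x = (P.map f).F.obj y := c.elim fun x c =>
    ⟨_, (Functor.congr_obj (congrArg AC.Hom.F (i.naturality f)) x).trans (congrArg _ c)⟩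
  let R3 := glR P (fun p y => ∃ x, (i.app p).F.obj x = y) m
  let R2 := glR (P ⋙ cone) (fun p (y : Mx nat _) => y.I.Finite ∧ ∀ j, ∃ x, (i.app p).F.obj x = y.X j)
    fun _ _ f _ c => ⟨c.1, fun j => m f _ (c.2 j)⟩
  let a0 : X ⋙ AM.{v, u} ⟶ R0 ⋙ fN.{v, u} :=
    ⟨fun p => ⟨(mam.{v, u} (X.obj p).C).idm, fun _ c => ⟨c, Th.le _ c⟩⟩, fun _ _ _ => rfl⟩
  let a1 : R0 ⟶ R1 := glM (wi.app X) fun _ _ _ => Set.finite_singleton 0
  let a3 : R0 ⟶ R3 := glM i fun _ x _ => ⟨x, rfl⟩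
  let b1 : R1 ⟶ R2 := glM (whiskerRight i cone) fun _ y c => ⟨c, fun j => ⟨y.X j, rfl⟩⟩
  let b3 : R3 ⟶ R2 := glM (wi.app P) fun _ _ c => ⟨Set.finite_singleton 0, fun _ => c⟩
  have l (p) : Lc3 ((whiskerLeft R1 fi.{v, u}).app p) ((whiskerRight (wp.app X) AM.{v, u}).app p) :=
    Ok.lc (R := ⟨cone.obj (X.obj p), susp.obj (X.obj p), proj.app _, fun y : Mx nat _ => y.I.Finite⟩)
      ⟨kf_cone _, fq_cone _⟩
  have n1 := h.nl _ _ fun p => (l p).kill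
  have e1 : Pre.map n (H.map (a0 ≫ whiskerRight a1 fN.{v, u})) x = 0 := by
    refine (map_eq_zero_iff _ (n1.τ_bij b (h.loc _ _ l n1 _)).1).1 ((a.τ_nat n1 b b (b := 𝟙 _)
      (c := 𝟙 _) ?_ ((Category.comp_id _).trans (Category.id_comp _).symm) x).trans ?_)
    · exact (Category.comp_id _).trans (H.map_comp (a0 ≫ whiskerRight a1 fN.{v, u}) (whiskerLeft R1 fi))
    · rw [e, map_zero]
  have e3 : Pre.map n (H.map (a0 ≫ whiskerRight a3 fN.{v, u})) x = 0 := by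
    refine (map_eq_zero_iff _ (h.deq (whiskerRight b3 fN.{v, u}) (fun p => ?_) n).1).1 ?_
    · have o {A : AC.{v, max u v}} (s : Fq A.C) (R : ObjectProperty A.C) :
          mg.{v, u} ⊤ ⊓ Th (mg.{v, u} R) = Th (mg.{v, u} R) := inf_eq_right.2
        ((th_mono ((mg_mono le_top).trans mg_top.le)).trans (s.z.2.trans mg_top.ge))
      change Deq (mm.{v, u, u} (incl.app (P.obj p)).F).D (mg.{v, u} ⊤ ⊓ Th (mg.{v, u} _))
        (mg.{v, u} ⊤ ⊓ Th (mg.{v, u} _))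
      rw [o (s p), o (fq_cone _)]
      refine Kc.deq ⟨fun x y _ _ => ⟨fun f g c => congrFun₂ (congrArg Mx.Mor.e c) ⟨0, rfl⟩ ⟨0, rfl⟩,
        fun f => ⟨Mx.Mor.e f ⟨0, rfl⟩ ⟨0, rfl⟩, Mx.Mor.ext (funext₂ fun ⟨_, rfl⟩ ⟨_, rfl⟩ => rfl)⟩⟩,
        fun y c => ?_⟩ (b3.app p).m (s p)
      obtain ⟨n, e, r, j, k⟩ := kfP_fin y c.1
      exact ⟨n, fun l => y.X (e l), r, j, fun l => c.2 _, k⟩
    · rw [← Pre.map_comp, ← H.map_comp, Category.assoc, ← whiskerRight_comp,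
        show a3 ≫ b3 = a1 ≫ b1 from NatTrans.ext (funext fun p =>
          Rw.Hom.ext (incl.naturality (i.app p)) (incl.naturality (i.app p))), whiskerRight_comp,
        ← Category.assoc, H.map_comp, Pre.map_comp, e1, map_zero]
  refine c.τ_kill d (r := H.map (whiskerLeft R3 fi.{v, u})) (H.map_comp ..).symm
    (h.nl _ _ fun p y c => ?_) e3
  obtain ⟨_, j, r, k, o⟩ := th_ret (th_maps _ (mm_le.{v, u, u} (q.app p).F (S := Zr) fun y k =>
    mo.map_isZero (k.elim fun x k => k ▸ z p x)) y c.2)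
  exact (IsZero.iff_id_eq_zero _).2 (o.symm.trans ((congrArg (j ≫ ·) (IsZero.eq_of_src k r 0)).trans
    comp_zero))

/-- A class that dies along the suspensions dies in every tower. -/
theorem gl_dies (h : KT H) {E : J ⥤ AC.{v, max u v}} {j n y}
    (d : (((fj E).map (wA.{v, u} ⋙ H)).tw ((fj_fo E).ok h)).Dies j n y)
    {T : Ft (J ⥤ AC.{v, max u v})} (t : Fo T) {k} (f : (fj E).X j ⟶ T.X k) :
    ((T.map (wA.{v, u} ⋙ H)).tw (t.ok h)).Dies k n (Pre.map n ((wA.{v, u} ⋙ H).map f) y) :=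
  gl_gen (ι := wi) (π := wp) (fun E => ((fj_fo E).ok h).1 0) (fun E => ((fj_fo E).ok h).2 0)
    (fun _ t => Fo.ok t h) (fun _ => Fo.cone) (fun _ => Fo.susp)
    (fun T t k _ _ => gl_one h (T.i k) (T.q k) (t.1 k) (t.2 k) _ _ _ _) (W := fj E)
    (fun _ => 𝟙 _) (fun _ => 𝟙 _) (fun _ => rfl) (fun _ => rfl) d T t k f

theorem gl' (h : KT H) {T : Ft (J ⥤ AC.{v, max u v})} (t : Fo T)
    (z : ∀ k, ZS.{w, v, u} h (T.X k)) : Zt.{w, v, u} h t := fun k n x => by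
  have := gl_dies h (z k 0 n x) t (𝟙 (T.X k))
  exact (congrArg (Pre.map n · x) ((wA.{v, u} ⋙ H).map_id (T.X k))).trans (Pre.map_id x) ▸ this

theorem gl (h : KT H) {T : Ft (J ⥤ AC.{v, max u v})} (t : Fo T)
    (_f : ∀ k p x y, Bijective (((T.i k).app p).F.map : (x ⟶ y) → _))
    (z : ∀ k, ZS.{w, v, u} h (T.X k)) : Zt.{w, v, u} h t := gl' h t z

end Pool.Agent.Lib.MP_5d3e93_al.Br
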