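import Pool.Agent.Lib.MP_5d3e93_al.Br.TA

/-! Induction from a stabilizer on transport categories. -/

open CategoryTheory Limits Function MulAction

namespace Pool.Agent.Lib.MP_5d3e93_al.Br

open Gr Am As A2 Tw

universe w v u v' u'

variable {G L : Type v} [Group G] [Group L] {Y : Type v} [MulAction G Y]

section
variable {C : Type u} [Category.{v} C] [Preadditive C] {D : Type u'} [Category.{v} D]
  [Preadditive D] {ρ : Act G C} {τ : Act G D}

theorem ti_push (j : L →* G) (F : C ⥤ D) [F.Additive] (h : ∀ g, ρ.F g ⋙ F = F ⋙ τ.F g) :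
    pushF j ⋙ twm F h = twm (ρ := ρ.comap j) (τ := τ.comap j) F (fun g => h (j g)) ⋙ pushF j :=
  Functor.hext (fun _ => rfl) fun A B f => heq_of_eq (by
    change twH F h _ _ (push j f) =
      push j (twH (ρ := ρ.comap j) (τ := τ.comap j) F (fun g => h (j g)) A B f)
    induction f using ind' with
    | h0 =>
      exact ((congrArg _ (map_zero _)).trans (map_zero _)).trans
        ((congrArg _ (map_zero _)).trans (map_zero _)).symm
    | h1 a b c d =>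
      exact ((congrArg _ (map_add _ _ _)).trans (map_add _ _ _)).trans
        ((congrArg₂ (· + ·) c d).trans ((congrArg _ (map_add _ _ _)).trans (map_add _ _ _)).symm)
    | h2 γ a =>
      exact ((congrArg (twH F h _ _) (push_sg j γ a)).trans (twH_sg F h _ _)).trans
        ((congrArg (push j) (twH_sg (ρ := ρ.comap j) (τ := τ.comap j) F
          (fun g => h (j g)) γ a)).trans (push_sg j γ _)).symm)

theorem ti_shift (B : Tw ρ) (g : G) : Nonempty ((⟨(ρ.F g⁻¹).obj B.as⟩ : Tw ρ) ≅ B) := by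
  have e : B.as = (ρ.F g).obj ((ρ.F g⁻¹).obj B.as) := by
    have := Functor.congr_obj (ρ.mul g g⁻¹) B.as
    rwa [mul_inv_cancel, ρ.one] at this
  refine ⟨Tw.sg g⁻¹ (𝟙 _), Tw.sg g (eqToHom e), ?_, ?_⟩
  · rw [sg_comp, one_def]
    exact sg_congr (inv_mul_cancel g) (by simp [Tw.cmp, eqToHom_map])
  · rw [sg_comp, one_def]
    exact sg_congr (mul_inv_cancel g) (by simp [Tw.cmp])

end

variable (j : L →* G) {y : Y} (hy : ∀ γ, j γ • y = y)

/-- The relabelling `t ↦ (t, y)`. -/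
def tiE (A : Gc.{v, u} G) (T : Gs G) : Ef ((Gs.res j).obj T).T ((Gs.res j).obj ((pY G Y).obj T)).T
    (A.ρ.comap j) (A.ρ.comap j) :=
  Ef.of (𝟭 A.C) (fun _ => rfl) (fun t => (t, y)) fun γ _ => Prod.ext rfl (hy γ).symm

/-- The induction functor. -/
noncomputable def tiF (A : Gc.{v, u} G) (T : Gs G) :
    Tc (A.ρ.comap j) ((Gs.res j).obj T).T ⥤ Tc A.ρ ((pY G Y).obj T).T :=
  (tiE j hy A T).tc ⋙ pushF (ρ := Lb.act ((pY G Y).obj T).T A.ρ) j

instance ti_add (A : Gc.{v, u} G) (T : Gs G) : (tiF j hy A T).Additive :=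
  ⟨fun {_ _ f g} => have a := (tiE j hy A T).tc.map_add (f := f) (g := g)
    (congrArg (pushF (ρ := Lb.act ((pY G Y).obj T).T A.ρ) j).map a).trans
      (pushF (ρ := Lb.act ((pY G Y).obj T).T A.ρ) j).map_add⟩

theorem ti_nat {A B : Gc.{v, u} G} (f : A ⟶ B) {T T' : Gs G} (φ : T ⟶ T')
    (ψ : (pY G Y).obj T ⟶ (pY G Y).obj T') (e : ∀ t, ψ.1 (t, y) = (φ.1 t, y)) :
    (Ef.of (ρ := A.ρ.comap j) (τ := B.ρ.comap j) f.F (fun g => f.e (j g)) ((Gs.res j).map φ).1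
      ((Gs.res j).map φ).2).tc ⋙ tiF j hy B T' = tiF j hy A T ⋙ (Ef.of f.F f.e ψ.1 ψ.2).tc := by
  let k := Ef.of (ρ := A.ρ.comap j) (τ := B.ρ.comap j) f.F (fun g => f.e (j g))
    ((Gs.res j).map ψ).1 ((Gs.res j).map ψ).2
  let h : Ef ((Gs.res j).obj T).T ((Gs.res j).obj ((pY G Y).obj T')).T (A.ρ.comap j)
      (B.ρ.comap j) := Ef.of f.F (fun g => f.e (j g)) (fun t => (φ.1 t, y))
    fun γ t => Prod.ext (φ.2 (j γ) t) (hy γ).symm
  have a := Ef.tc_comp (Ef.of (ρ := A.ρ.comap j) (τ := B.ρ.comap j) f.F (fun g => f.e (j g))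
    ((Gs.res j).map φ).1 ((Gs.res j).map φ).2) (tiE j hy B T') h rfl fun _ _ => rfl
  have b := Ef.tc_comp (tiE j hy A T) k h rfl fun _ t => (e t).symm
  let k' := Ef.of f.F f.e ψ.1 ψ.2
  have c := ti_push j (Lb.map k'.F k'.add k'.φ k'.ok) (Lb.map_eqv k'.add k'.ok k'.e k'.e')
  have d := congrArg ((tiE j hy A T).tc ⋙ ·) c.symm
  exact (congrArg (· ⋙ pushF (ρ := Lb.act ((pY G Y).obj T').T B.ρ) j) (a.trans b.symm)).trans d

theorem ti_bij (hj : Injective j) (hs : ∀ g : G, g • y = y → ∃ γ, j γ = g) (A : Gc.{v, u} G)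
    (T : Gs G) (a b) : Bijective ((tiF j hy A T).map : (a ⟶ b) → _) := by
  have f1 : (Lb.map _ (tiE j hy A T).add _ (tiE j hy A T).ok).Faithful :=
    ⟨fun e => Lb.ext (congrArg Subtype.val e :)⟩
  have f2 : (Lb.map _ (tiE j hy A T).add _ (tiE j hy A T).ok).Full :=
    ⟨fun f => ⟨⟨f.1, fun k => f.2 fun e => k (congrArg Prod.fst e)⟩, rfl⟩⟩
  have f3 : (tiE j hy A T).tc.Faithful := inferInstanceAs (twm _ _).Faithful
  have f4 : (tiE j hy A T).tc.Full := inferInstanceAs (twm _ _).Full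
  have f5 := push_faithful (ρ := Lb.act ((pY G Y).obj T).T A.ρ) hj
  refine ⟨fun f g e => (tiE j hy A T).tc.map_injective
    ((pushF (ρ := Lb.act ((pY G Y).obj T).T A.ρ) j).map_injective e), fun f => ?_⟩
  induction f using ind' with
  | h0 => exact ⟨0, Functor.map_zero _ _ _⟩
  | h1 c d k l =>
    obtain ⟨c, rfl⟩ := k
    obtain ⟨d, rfl⟩ := l
    exact ⟨c + d, Functor.map_add _⟩
  | h2 g c =>
    by_cases e : g • y = y
    · obtain ⟨γ, rfl⟩ := hs g e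
      obtain ⟨x, hx⟩ := (tiE j hy A T).tc.map_surjective (X := a) (Y := b) (Tw.sg γ c)
      exact ⟨x, (congrArg (push (ρ := Lb.act ((pY G Y).obj T).T A.ρ) j) hx).trans (push_sg j γ _)⟩
    · obtain rfl : c = 0 := Lb.ext (c.2 fun k => e (congrArg Prod.snd k).symm)
      exact ⟨0, (Functor.map_zero _ _ _).trans (sg_zero g).symm⟩

/-- induction: `(A, t) ↦ (A, (t, y))`, formal sums extended by zero -/
theorem ex_ind (y : Y) : ∃ i : Gc.res.{v, u} (stabilizer G y).subtype ⋙ TC ⋙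
    (Functor.whiskeringLeft _ _ _).obj (Gs.res (stabilizer G y).subtype) ⟶
      TC ⋙ (Functor.whiskeringLeft _ _ _).obj (pY G Y), ∀ (A : Gc.{v, u} G) (T : Gs G),
    (∀ a b, Bijective (((i.app A).app T).F.map : (a ⟶ b) → _)) ∧
    (∀ a, (((i.app A).app T).F.obj a).as.t.2 = y) ∧
    ∀ (b : Tc A.ρ (T.T × Y)) (g : G), b.as.t.2 = g • y →
      ∃ a, Nonempty (((i.app A).app T).F.obj a ≅ b) := by
  have hy : ∀ γ, (stabilizer G y).subtype γ • y = y := fun γ => γ.2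
  refine ⟨⟨fun A => ⟨fun T => @AC.Hom.mk _ _ (tiF _ hy A T) (ti_add _ hy A T), fun T T' φ => AC.ext
    (ti_nat _ hy (𝟙 A) φ ((pY G Y).map φ) fun _ => rfl)⟩, fun A B f => NatTrans.ext (funext fun T =>
      AC.ext (ti_nat _ hy f (𝟙 T) (𝟙 _) fun _ => rfl))⟩, fun A T =>
    ⟨ti_bij _ hy (Subgroup.subtype_injective _) (fun g e => ⟨⟨g, e⟩, rfl⟩) A T, fun _ => rfl,
      fun b g e => ⟨⟨⟨(A.ρ.F g⁻¹).obj b.as.A, g⁻¹ • b.as.t.1⟩⟩, ?_⟩⟩⟩
  obtain ⟨k⟩ := ti_shift b g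
  refine ⟨eqToIso (congrArg (fun s => (⟨⟨(A.ρ.F g⁻¹).obj b.as.A, (g⁻¹ • b.as.t.1, s)⟩⟩ :
    Tc A.ρ (T.T × Y))) ?_) ≪≫ k⟩
  exact ((congrArg (g⁻¹ • ·) e).trans (inv_smul_smul g y)).symm

end Pool.Agent.Lib.MP_5d3e93_al.Br
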