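import Pool.Agent.Lib.MP_5d3e93_al.Br.TA

/-! Small facts on transport categories. -/

open CategoryTheory Limits Function MulAction
open scoped Pointwise

namespace Pool.Agent.Lib.MP_5d3e93_al.Br

open Gr Am As A2

universe w v u v' u'

variable {G : Type v} [Group G] {Y : Type v} [MulAction G Y]

/-- labels give a section -/
theorem ex_ret (A : Gc.{v, u} G) (l : A.C → Y)
    (h1 : ∀ ⦃B B' : A.C⦄ (f : B ⟶ B'), f ≠ 0 → l B = l B')
    (h2 : ∀ g B, l ((A.ρ.F g).obj B) = g • l B) :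
    ∃ s : TC.obj A ⟶ pY G Y ⋙ TC.obj A, s ≫ Functor.whiskerRight (pf G Y) (TC.obj A) = 𝟙 _ := by
  let e {T T' : Gs G} (φ : T ⟶ T') : Ef T.T (T'.T × Y) A.ρ A.ρ :=
    ⟨𝟭 _, inferInstance, fun B t => (φ.1 t, l B), fun _ _ f a _ => Prod.ext rfl (h1 f a),
      fun _ => rfl, fun g B t => Prod.ext (φ.2 g t) (h2 g B)⟩
  let m (T : Gs G) : (TC.obj A).obj T ⟶ (pY G Y ⋙ TC.obj A).obj T :=
    @AC.Hom.mk _ _ (e (𝟙 T)).tc (inferInstanceAs (twm _ _).Additive)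
  refine ⟨⟨m, fun T T' φ => AC.ext ((Ef.tc_comp _ (e (𝟙 T')) (e φ) rfl fun _ _ => rfl).trans
      (Ef.tc_comp (e (𝟙 T)) (Ef.of (𝟭 A.C) (fun _ => rfl) ((pY G Y).map φ).1 ((pY G Y).map φ).2)
        (e φ) rfl fun _ _ => rfl).symm)⟩, NatTrans.ext (funext fun T => AC.ext ?_)⟩
  exact (Ef.tc_comp _ _ (Ef.lb A.ρ id fun _ _ => rfl) rfl fun _ _ => rfl).trans
    (Ef.tc_id _ rfl fun _ _ => rfl)

theorem tc_orb (A : Gc.{v, u} G) (T : Type v) [MulAction G T] {x y : Tc A.ρ T} (f : x ⟶ y)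
    (h : f ≠ 0) : ∃ g : G, x.as.t = g • y.as.t := by
  by_contra k
  exact h (Tw.co_ext fun g =>
    (Lb.ext ((Tw.co g f).2 fun e => k ⟨g, e⟩)).trans (map_zero (Tw.co g)).symm)

theorem tc_zero (A : Gc.{v, u} G) {z : A.C} (h : IsZero z) (T : Type v) [MulAction G T] (t : T) :
    IsZero (⟨⟨z, t⟩⟩ : Tc A.ρ T) := (Lb.at' t ⋙ twe (Lb.act T A.ρ)).map_isZero h

theorem tc_ff {A B : Gc.{v, u} G} (f : A ⟶ B) [f.F.Full] [f.F.Faithful] (T : Gs G) (x y) :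
    Bijective (((TC.map f).app T).F.map : (x ⟶ y) → _) :=
  ⟨(Ef.fn T.T f.F f.e).tc.map_injective, (Ef.fn T.T f.F f.e).tc.map_surjective⟩

theorem j_ff (B : Gc.{v, u} G) : (Gc.j B).F.Full ∧ (Gc.j B).F.Faithful :=
  ⟨⟨fun f => ⟨Mx.Mor.e f ⟨0, rfl⟩ ⟨0, rfl⟩, Mx.Mor.ext (funext₂ fun ⟨_, a⟩ ⟨_, b⟩ => by
      cases a
      cases b
      rfl)⟩⟩,
    ⟨fun e => congrFun₂ (congrArg Mx.Mor.e e) ⟨0, rfl⟩ ⟨0, rfl⟩⟩⟩

section
variable (A : Gc.{v, u} G) (T : GS G)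

/-- Forgetting the labels. -/
def trU : Lb A.C T.V ⥤ A.C where
  obj x := x.A
  map f := f.1

instance : (trU A T).Additive := ⟨rfl⟩

theorem tr_eqv (g : G) : (Lb.act T.V A.ρ).F g ⋙ trU A T = trU A T ⋙ A.ρ.F g := rfl

theorem tr_co {x y : Tc A.ρ T.V} (f : x ⟶ y) (g : G) :
    Tw.co g ((twm (trU A T) (tr_eqv A T)).map f) = (Tw.co g f).1 := Category.comp_id _

/-- The comparison functor. -/
noncomputable def trF : Tc A.ρ T.V ⥤ As.St (A := A.ac) A.ρ T where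
  obj x := ⟨⟨x.as.A⟩, x.as.t⟩
  map f := ⟨(twm (trU A T) (tr_eqv A T)).map f, fun g h =>
    (tr_co A T f g).trans ((Tw.co g f).2 h)⟩
  map_id x := As.St.Mor.ext ((twm (trU A T) (tr_eqv A T)).map_id x)
  map_comp f g := As.St.Mor.ext ((twm (trU A T) (tr_eqv A T)).map_comp f g)

instance : (trF A T).Additive := ⟨As.St.Mor.ext (twm (trU A T) (tr_eqv A T)).map_add⟩

end

/-- the transport category against the category of the statement -/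
theorem ex_p1 (A : Gc.{v, u} G) : ∃ p : gs ⋙ TC.obj A ⟶ star (A := A.ac) A.ρ,
    ∀ T, Ke (p.app T) := by
  refine ⟨⟨fun T => @AC.Hom.mk _ (As.St.ob (A := A.ac) A.ρ T) (trF A T)
    (inferInstanceAs (trF A T).Additive), fun T T' s => AC.ext (Functor.hext (fun _ => rfl)
      fun _ _ f => heq_of_eq (As.St.Mor.ext (Tw.co_ext fun g => (tr_co A T' _ g).trans
        ((eq_of_heq (kfQ_co (Ef.of (𝟭 A.C) (fun _ => rfl) s.f s.eqv) f g)).trans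
          (tr_co A T f g).symm))))⟩, fun T => ⟨fun x y => ⟨fun f f' e => Tw.co_ext fun g =>
    Lb.ext ((tr_co A T f g).symm.trans ((congrArg (fun k => Tw.co g k.f) e).trans
      (tr_co A T f' g))), fun f => ?_⟩, fun ⟨⟨y⟩, t⟩ => ⟨⟨⟨y, t⟩⟩, rfl⟩⟩⟩
  exact ⟨DFinsupp.mk' (fun g => ⟨As.co f.f g, f.sp g⟩)
    (f.f.support'.map fun s => ⟨s.1, fun g => (s.2 g).imp_right fun e => Lb.ext e⟩),
    As.St.Mor.ext (Tw.co_ext fun g => tr_co A T _ g)⟩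

end Pool.Agent.Lib.MP_5d3e93_al.Br
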