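import Pool.Agent.Lib.MP_5d3e93_al.Br.TZ
import Pool.Agent.Lib.MP_5d3e93_al.Br.TG
import Pool.Agent.Lib.MP_5d3e93_al.Br.TD
import Pool.Agent.Lib.MP_5d3e93_al.Br.TI
import Pool.Agent.Lib.MP_5d3e93_al.Br.TR
import Pool.Agent.Lib.MP_5d3e93_al.Br.InT

/-! The transitivity principle. -/

open CategoryTheory Limits Function MulAction
open scoped Pointwise

namespace Pool.Agent.Lib.MP_5d3e93_al.Br

open Gr Am As A2

universe w v u

variable {G : Type v} [Group G] {Y : Type v} [MulAction G Y]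

/-- Towers with labels are trivial when the stabilisers of the labels are. -/
theorem lab_z {H : (Gs G ⥤ Tp.{v, max 1 u v}) ⥤ Pre.{w}} (h : KT H) (o : KU H)
    (z : ∀ (y : Y) (A : Gc.{v, u} (stabilizer G y)),
      ZS.{w, v, max 1 u v} h (Gs.res (stabilizer G y).subtype ⋙ TC.obj A))
    (U : Ft (Gc.{v, u} G)) (t : Gc.Ok U) (f : ∀ k, (U.i k).F.Full ∧ (U.i k).F.Faithful)
    (e : ∀ k, ∃ z : (U.X k).C, IsZero z)
    (l : ∀ k, ∃ l : (U.X k).C → Y, (∀ ⦃B B' : (U.X k).C⦄ (f : B ⟶ B'), f ≠ 0 → l B = l B') ∧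
      ∀ g B, l (((U.X k).ρ.F g).obj B) = g • l B) :
    ((U.map (gt ⋙ EG ⋙ H)).tw (ok_gt h t)).Z := by
  choose i i1 i2 i3 using fun y : Y => ex_ind.{v, u} (G := G) y
  have a (y : Y) : Zt.{w, v, max 1 u v} h (((t.res (stabilizer G y).subtype).fo).pre
      (Gs.res (stabilizer G y).subtype)) := gl h _ (fun k p =>
    @tc_ff _ _ _ _ ((Gc.res (stabilizer G y).subtype).map (U.i k)) (f k).1 (f k).2
      ((Gs.res (stabilizer G y).subtype).obj p)) fun k => z y _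
  have b : Zt.{w, v, max 1 u v} h (t.fo.pre (pY G Y)) := fun k n x =>
    dec.{w, v, max 1 u v} h o (B := pY G Y ⋙ TC.obj (U.X k)) (Ω := orbitRel.Quotient G Y)
      (fun _ x => Quotient.mk _ x.as.t.2) (fun _ _ _ _ => rfl)
      (fun p x y a b => (tc_orb _ _ a b).elim fun g c =>
        Quotient.sound ⟨g, (congrArg Prod.snd c).symm⟩)
      (fun p x => (e k).elim fun z c => ⟨⟨⟨z, x.as.t⟩⟩, tc_zero _ c _ _, rfl⟩)
      (fun ω => (i ω.out).app (U.X k)) (fun ω p => i1 _ _ p)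
      (fun ω p x => (congrArg _ (i2 _ _ p x)).trans ω.out_eq)
      (fun ω p y c => (Quotient.exact (c.trans ω.out_eq.symm)).elim fun g d => i3 _ _ p y g d.symm)
      (P := (((((U.map TC).map ((Functor.whiskeringLeft _ _ _).obj (pY G Y))).map
        (wA.{v, max 1 u v} ⋙ H)).tw ((t.fo.pre (pY G Y)).ok h))).Dies k n) .zero
      (fun _ _ => .add) (fun ω y => (((U.nat (i ω.out)).map (wA.{v, max 1 u v} ⋙ H)).tm
        ((((t.res _).fo).pre _).ok h) ((t.fo.pre (pY G Y)).ok h)).dies (a ω.out k n y)) x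
  intro k n x
  obtain ⟨l, l1, l2⟩ := l k
  obtain ⟨s, c⟩ := ex_ret (U.X k) l l1 l2
  have d := ((((U.map TC).nat ((Functor.whiskeringLeft _ _ _).map (pf G Y))).map
    (wA.{v, max 1 u v} ⋙ H)).tm ((t.fo.pre (pY G Y)).ok h) (t.fo.ok h)).dies
      (b k n (Pre.map n ((wA.{v, max 1 u v} ⋙ H).map s) x))
  have r (X : Gs G ⥤ AC.{v, max 1 u v}) (F : (Gs G ⥤ AC.{v, max 1 u v}) ⥤ Pre.{w}) {Z} (s : X ⟶ Z)
      (p : Z ⟶ X) (c : s ≫ p = 𝟙 _) (x) : Pre.map n (F.map p) (Pre.map n (F.map s) x) = x := by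
    rw [← Pre.map_comp, ← F.map_comp, c, F.map_id, Pre.map_id]
  exact (congrArg (((U.map (gt ⋙ EG ⋙ H)).tw (ok_gt h t)).Dies k n)
    (r _ (wA.{v, max 1 u v} ⋙ H) s _ c x)).mp d

/-- The transitivity principle. -/
theorem trans_of {K : (Dl ⥤ Tp.{v, max 1 u v}) ⥤ Pre.{max 1 u v}} (h : KT K) (o : KU K)
    (τ : KR.{v, max 1 u v} ⟶ wh AM.{v, max 1 u v} ⋙ K)
    (hτ : ∀ D n, Bijective (Pre.map n (τ.app D))) (S : GS G) [Nonempty Y]
    (hl : ∀ s : Set Y, s.Finite → s.Nonempty → ∃ x : Y, ∀ g : G, g • s = s → g • x = x)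
    (hK : ∀ (D : Type (max 1 u v)) [Category.{v} D] [Preadditive D] [HasBinaryBiproducts D]
      [HasZeroObject D] (σ : Act G D), (∀ s : Y, Swd σ fun g => g • s = s) → KZ σ)
    (hY : ∀ (y : Y) (A : AC.{v, max 1 u v}) (ρ : Act (stabilizer G y) A.C) (n : ℤ),
      Bij (Functor.whiskerRight (As.pr (As.cech (gres (stabilizer G y).subtype S))) (star ρ)) n)
    {A : AC.{v, u}} (ρ : Act G A.C) (n : ℤ) :
    Bij (Functor.whiskerRight (As.pr (As.cech S)) (star ρ)) n := by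
  obtain ⟨l, e⟩ := ex_lab2 hl
  have g (X : Dl ⥤ GS G) (k n) := (cmp_good.{v, u} (X := X ⋙ gs)
    (P := X.whiskerLeft (p0 ρ)) (.eqv _ fun p => p0_ke ρ (X.obj p)) k).bij.{_, v, max 1 u v} h n
  let α := Functor.whiskerRight (As.pr (As.cech S)) gs
  refine bij_of_tw h am_z.{v, max 1 u v} am_o.{v, max 1 u v} τ hτ tc_eg.{v, u}
    (cmp_sq α _ (Functor.whiskerLeft_comp_whiskerRight (As.pr (As.cech S)) (p0 ρ)).symm) (g _) (g _)
    (h := in_ok h (gtw_ok _) _) (k := in_ok h (gtw_ok _) _) (in_zt (h.hc α) (gtw_ok _) (fun _ => j_ff _) l e hK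
      (lab_z (h.hc α) (o.hc α) fun y B => ?_)) n
  obtain ⟨p, c⟩ := ex_p1 B
  exact zs_of_bij.{v, max 1 u v} h τ hτ α
    (P := (As.cech (gres (stabilizer G y).subtype S)).whiskerLeft p) (P' := (cpt _).whiskerLeft p)
    (.eqv _ fun _ => c _) (.eqv _ fun _ => c _)
    (Functor.whiskerLeft_comp_whiskerRight (As.pr (As.cech (gres (stabilizer G y).subtype S))) p).symm
    (hY y B.ac B.ρ)

end Pool.Agent.Lib.MP_5d3e93_al.Br
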