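import Pool.Agent.Lib.MP_5d3e93_al.Br.TE
import Pool.Agent.Lib.MP_5d3e93_al.Br.TF
import Pool.Agent.Lib.MP_5d3e93_al.K.TW

/-! Groups acting on products of trees with small stabilisers. -/

open CategoryTheory MulAction

namespace Pool.Agent.Lib.MP_5d3e93_al.Br

open As

universe v u

theorem fj_slim {G : Type v} [Group G] {ι : Type} [Finite ι] {W : ι → Type v}
    [∀ i, MulAction G (W i)] {U : ∀ i, SimpleGraph (W i)} (hU : ∀ i, (U i).IsTree)
    (hb : ∀ i (g : G) a b, (U i).Adj a b → (U i).Adj (g • a) (g • b))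
    (hj : ∀ i (g : G) a b, (U i).Adj a b → g • a = b → g • b ≠ a) {D : Subgroup G}
    (h : Slim (∀ i, W i) ⊤ D) : FJ.{v, u} D :=
  fj_kz fun _ _ _ _ _ _ s => kz_top (kz_sm2 (j := D.subtype) hU hb hj s fun x =>
    Cl.map (s := LH) D.subtype_injective.injOn (by
      rintro _ ⟨g, c, rfl⟩
      exact ⟨g.2, c.2⟩) (Sml.lh (j := .id G) h x))

end Pool.Agent.Lib.MP_5d3e93_al.Br
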