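import Pool.Agent.Lib.MP_5d3e93_al.Br.FinA

/-! A map that is bijective on the colimits has a trivial cone. -/

open CategoryTheory Limits Function

namespace Pool.Agent.Lib.MP_5d3e93_al.Br

universe u v w

open Ps Pre

namespace Tm

open To

variable {T U : To.{u}} {F : Tm T U} {k : ℕ} {n : ℤ}

theorem zb_s {x : (T.X k).π n} (h : T.Dies k n x) : T.S.Dies k (n + 1) ((T.X k).s n x) := by
  induction h with
  | zero => exact (map_zero ((T.X _).s _)).symm ▸ .zero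
  | up _ ih => exact .up ((Nl.τ_S ..).symm ▸ ih.neg)

theorem Hit.neg {y : (U.X k).π n} (h : F.Hit k n y) : F.Hit k n (-y) := by
  induction h with
  | im x => exact map_neg (map _ (F.a _)) x ▸ .im (-x)
  | up _ ih => exact .up (map_neg (U.τ _ _) _ ▸ ih)

theorem Hit.dies {y : (U.X k).π n} (h : F.Hit k n y) : F.C.Dies k n (map n (F.ci.a k) y) := by
  induction h with
  | im x => exact ((exact₁ _ _).2 ⟨x, rfl⟩ : map _ (cim (F.a _)) _ = 0) ▸ .zero
  | up _ ih => exact .up (F.ci.τ_nat _ ▸ ih)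

/-- A map that is injective and surjective in the limit has a trivial cone. -/
theorem z_of (i : F.Inj) (s : F.Surj) : F.C.Z := fun k n x => by
  have : ∀ k n w, T.S.Dies k n w → ∀ x, map n (F.cc.a k) x = w → F.C.Dies k n x :=
    fun k n w e => by
      induction e with
      | zero =>
        intro x e
        obtain ⟨z, rfl⟩ := (exact₂ _ x).1 e
        exact (s _ _ z).dies
      | up _ ih => exact fun x e => .up (ih _ (by rw [← F.cc.τ_nat, e]))
  obtain ⟨n, rfl⟩ : ∃ j, n = j + 1 := ⟨n - 1, by omega⟩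
  obtain ⟨y, e⟩ := (s_bij (P := T.X k) (n := n)).2 (map _ (ccm (F.a k)) x)
  refine this k _ _ (zb_s (i k n y ?_)) x e.symm
  have : map n (F.a k) y = 0 := (map_eq_zero_iff _ s_bij.1).1 (by
    rw [s_nat, e]
    exact (exact₃ _ _).2 ⟨x, rfl⟩)
  exact this ▸ .zero

theorem z_iff_bij : F.C.Z ↔ F.Inj ∧ F.Surj := ⟨fun h => ⟨inj_of_C h, surj_of_C h⟩, fun h => z_of h.1 h.2⟩

end Tm

namespace To

variable {T U : To.{u}} {F : Tm T U}

theorem zb_zero (r : ℕ) (a : T.Wd) (h : a.2.2 = 0) : (Wd.st^[r] a).2.2 = 0 := by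
  induction r generalizing a with
  | zero => exact h
  | succ r ih => exact ih a.st (neg_eq_zero.2 ((congrArg (T.τ _ _) h).trans (map_zero _)))

theorem zb_dies (r : ℕ) (a : T.Wd) (h : (Wd.st^[r] a).2.2 = 0) : T.Dies _ _ a.2.2 := by
  induction r generalizing a with
  | zero => exact (h : a.2.2 = 0) ▸ .zero
  | succ r ih => exact .up (neg_neg (T.τ _ _ a.2.2) ▸ (ih a.st h).neg)

theorem zb_hit (r : ℕ) (b : U.Wd) (c : T.Wd) (h : c.map F = Wd.st^[r] b) : F.Hit _ _ b.2.2 := by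
  induction r generalizing b with
  | zero =>
    obtain rfl : c.map F = b := h
    exact .im _
  | succ r ih => exact .up (neg_neg (U.τ _ _ b.2.2) ▸ (ih b.st h).neg)

/-- A map of towers that is bijective on the colimits has a trivial cone. -/
theorem z_of_rl (h : ∀ n, ∃ φ : Quot (Rl (T := T) (n := n)) → Quot (Rl (T := U) (n := n)),
    (∀ a, φ (Quot.mk _ a) = Quot.mk _ (a.map F)) ∧ Bijective φ) : F.C.Z := by
  refine Tm.z_of (fun k j x d => ?_) fun k j y => ?_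
  · obtain ⟨φ, e, c⟩ := h (j - k)
    obtain ⟨a, p⟩ := ex_val (T := T) (n := j - k) (a := ⟨k, j, x⟩) rfl
    obtain ⟨b, q⟩ := ex_val (T := T) (n := j - k) (a := ⟨k, j, 0⟩) rfl
    have s : Sm (a.map F).val (b.map F).val := by
      rw [El.val_map, El.val_map, p, q]
      exact sm_of_dies d _ _ (.inl ((congrArg _ (map_zero _)).trans (sub_zero _)))
    obtain ⟨r, r', o⟩ := ad_rl.eq.1 (c.1 ((e a).trans ((ad_rl.eq.2 s).trans (e b).symm)))
    rw [p, q] at o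
    exact zb_dies r ⟨k, j, x⟩ (o ▸ zb_zero r' ⟨k, j, 0⟩ rfl)
  · obtain ⟨φ, e, c⟩ := h (j - k)
    obtain ⟨b, q⟩ := ex_val (T := U) (n := j - k) (a := ⟨k, j, y⟩) rfl
    obtain ⟨⟨a⟩, p⟩ := c.2 (Quot.mk _ b)
    obtain ⟨r, r', o⟩ := ad_rl.eq.1 ((e a).symm.trans p)
    rw [El.val_map, ← (Wd.map_st F).iterate_right, q] at o
    exact zb_hit r' ⟨k, j, y⟩ _ o

end To

end Pool.Agent.Lib.MP_5d3e93_al.Br

namespace Pool.Agent.Lib.MP_5d3e93_al.As

open Br Gr Am A2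

universe v u u'

theorem z_of_bij {D D' : SA.{v, u}} (φ : D ⟶ D') (h h') (b : ∀ n, Bij φ n) :
    (((ftm φ).map KR).tm h h').C.Z := To.z_of_rl fun n => by
  obtain ⟨F, e, c⟩ := b n
  refine ⟨Quot.congr (el h' n) (step_iff h' n) ∘ F ∘ (Quot.congr (el h n) (step_iff h n)).symm,
    fun a => ?_, (Equiv.bijective _).comp (c.comp (Equiv.bijective _))⟩
  obtain ⟨a, rfl⟩ := (el h n).surjective a
  exact congrArg (Quot.congr (el h' n) (step_iff h' n)) ((congrArg F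
    ((Quot.congr (el h n) (step_iff h n)).symm_apply_eq.2 rfl)).trans (e a))

variable {K : (SimplexCategoryᵒᵖ ⥤ Tp.{v, u'}) ⥤ Pre.{max v u}} (hK : KT K)
  {M : AC.{v, u} ⥤ Tp.{v, u'}} (z : ∀ B, Z (M.obj (cone.obj B)).S)
  (o : ∀ B, (M.obj B).S ≤ Zr.inverseImage (M.map (incl.app B) ≫ M.map (proj.app B)).f.D)
include hK z o

/-- The converse of `bij_of_kt`. -/
theorem kt_of_bij (τ : KR.{v, u} ⟶ wh M ⋙ K) (hτ : ∀ D n, Bijective (Pre.map n (τ.app D)))
    {D D' : SimplexCategoryᵒᵖ ⥤ AC.{v, u}} (φ : D ⟶ D')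
    {T T' : Ft (SimplexCategoryᵒᵖ ⥤ Tp.{v, u'})} (f : T.Hom T') (g : T.Hom ((ft D).map (wh M)))
    (g' : T'.Hom ((ft D').map (wh M)))
    (ea : ∀ k, f.a k ≫ g'.a k = g.a k ≫ ((ftm φ).map (wh M)).a k)
    (eb : ∀ k, f.b k ≫ g'.b k = g.b k ≫ ((ftm φ).map (wh M)).b k)
    (a : ∀ l n, Bijective (Pre.map n (K.map (g.a l))))
    (b : ∀ l n, Bijective (Pre.map n (K.map (g'.a l)))) {h k} (c : ∀ n, Bij φ n) :
    ((f.map K).tm h k).C.Z :=
  have e (D : SimplexCategoryᵒᵖ ⥤ AC.{v, u}) : ((ft D).map KR).Ok := ft_ok fun l =>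
    Ft.acy_of_bij (τ.app _) (fun n => (hτ _ n).1) ((ft_ok' hK z o D).2 l)
  (Ft.z_sq K g g' ea eb h k _ _ a b).2 ((Ft.z_nat τ (ftm φ) _ _ (ft_ok' hK z o D) (ft_ok' hK z o D')
    (fun _ => hτ _) fun _ => hτ _).1 (z_of_bij φ (e D) (e D') c))

open Functor in
/-- The converse of `bij_of_tw`. -/
theorem tw_of_bij (τ : KR.{v, u} ⟶ wh M ⋙ K) (hτ : ∀ D n, Bijective (Pre.map n (τ.app D)))
    {C : Type*} [Category* C] {J : Type*} [Category* J] {T : Ft C} {F : C ⥤ J ⥤ AC.{v, u}}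
    {E : C ⥤ J ⥤ Tp.{v, u'}} (e : F ⋙ (whiskeringRight ..).obj M = E) {X X' : Dl ⥤ J} {α : X ⟶ X'}
    {D D' : SA.{v, u}} {φ : D ⟶ D'} {g : ((T.map F).map ((whiskeringLeft ..).obj X)).Hom (ft D)}
    {g' : ((T.map F).map ((whiskeringLeft ..).obj X')).Hom (ft D')}
    (s : ∀ k, whiskerRight α _ ≫ g'.a k = g.a k ≫ (ftm φ).a k ∧
      whiskerRight α _ ≫ g'.b k = g.b k ≫ (ftm φ).b k)
    (a : ∀ l n, Bijective (Pre.map n (K.map (whiskerRight (g.a l) M))))
    (b : ∀ l n, Bijective (Pre.map n (K.map (whiskerRight (g'.a l) M)))) {h k}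
    (c : ∀ n, Bij φ n) : ((((T.map E).nat ((whiskeringLeft ..).map α)).map K).tm h k).C.Z := by
  subst e
  exact kt_of_bij hK z o τ hτ φ _ (g.map (wh M)) (g'.map (wh M))
    (fun k => ((wh M).map_comp ..).symm.trans ((congrArg _ (s k).1).trans ((wh M).map_comp ..)))
    (fun k => ((wh M).map_comp ..).symm.trans ((congrArg _ (s k).2).trans ((wh M).map_comp ..)))
    a b c

end Pool.Agent.Lib.MP_5d3e93_al.As
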