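import Pool.Agent.Lib.MP_5d3e93_al.Br.TA
import Pool.Agent.Lib.MP_5d3e93_al.Br.ZB

/-! From the statement back to a theory on diagrams. -/

open CategoryTheory Limits Function

namespace Pool.Agent.Lib.MP_5d3e93_al.Br

open Gr Am As A2

universe v u v' u'

variable {J : Type u'} [Category.{v'} J]

theorem z_of_bij {D D' : As.SA.{v, u}} (φ : D ⟶ D') (h h') (b : ∀ n, Bij φ n) :
    (((ftm φ).map KR).tm h h').C.Z := As.z_of_bij φ h h' b

section
variable {X X' : Dl ⥤ J} {α : X ⟶ X'} {E : J ⥤ AC.{v, u}} {D D' : As.SA.{v, u}} {φ : D ⟶ D'}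

/-- The comparison on the suspensions. -/
noncomputable def tzA (P : X ⋙ E ⟶ D) : ∀ k, X ⋙ E ⋙ sk k ⟶ Sg D k :=
  Nat.rec P fun _ c => Functor.whiskerRight c susp

/-- The comparison of towers. -/
noncomputable def tzH (P : X ⋙ E ⟶ D) :
    (((fj E).map (𝟭 _)).map ((Functor.whiskeringLeft _ _ _).obj X)).Hom (ft D) :=
  ⟨tzA P, fun k => Functor.whiskerRight (tzA P k) cone,
    fun k => NatTrans.ext (funext fun p => (incl.naturality ((tzA P k).app p)).symm),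
    fun k => NatTrans.ext (funext fun p => (proj.naturality ((tzA P k).app p)).symm)⟩

variable {P : X ⋙ E ⟶ D} {P' : X' ⋙ E ⟶ D'}

theorem tz_good (h : Good P) : ∀ k, Good (tzA P k)
  | 0 => h
  | k + 1 => (tz_good h k).susp

theorem tz_step (F : AC.{v, u} ⥤ AC.{v, u}) (h : Functor.whiskerRight α E ≫ P' = P ≫ φ) :
    Functor.whiskerRight α (E ⋙ F) ≫ Functor.whiskerRight P' F =
      Functor.whiskerRight P F ≫ Functor.whiskerRight φ F :=
  NatTrans.ext (funext fun p => (F.map_comp ..).symm.trans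
    ((congrArg F.map (NatTrans.congr_app h p)).trans (F.map_comp ..)))

theorem tz_a (h : Functor.whiskerRight α E ≫ P' = P ≫ φ) :
    ∀ k, Functor.whiskerRight α (E ⋙ sk k) ≫ tzA P' k = tzA P k ≫ Sgm φ k
  | 0 => h
  | k + 1 => tz_step (E := E ⋙ sk k) susp (tz_a h k)

end

theorem zs_of_bij {K : (Dl ⥤ Tp.{v, max 1 u}) ⥤ Pre.{max u v}} (h : KT K)
    (τ : KR.{v, max u v} ⟶ wh AM.{v, u} ⋙ K) (hτ : ∀ D n, Bijective (Pre.map n (τ.app D)))
    {X X' : Dl ⥤ J} (α : X ⟶ X') {E : J ⥤ AC.{v, max u v}} {D D' : As.SA.{v, max u v}}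
    {φ : D ⟶ D'} {P : X ⋙ E ⟶ D} {P' : X' ⋙ E ⟶ D'} (a : Good P) (a' : Good P')
    (e : Functor.whiskerRight α E ≫ P' = P ≫ φ) (b : ∀ n, Bij φ n) :
    ZS.{max u v, v, u} (h.hc α) E :=
  tw_of_bij h am_z.{v, u} am_o.{v, u} τ hτ (T := fj E) (F := 𝟭 _) (E := wA.{v, u}) rfl (α := α)
    (g := tzH P) (g' := tzH P') (fun k => ⟨tz_a e k, tz_step (E := E ⋙ sk k) cone (tz_a e k)⟩)
    (fun k n => (tz_good a k).bij.{_, v, u} h n) (fun k n => (tz_good a' k).bij.{_, v, u} h n)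
    (h := ((fj_fo E).ok (h.pre X))) (k := ((fj_fo E).ok (h.pre X'))) b

end Pool.Agent.Lib.MP_5d3e93_al.Br
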