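import Pool.Agent.Lib.MP_5d3e93_al.Br.Kl
import Pool.Agent.Lib.MP_5d3e93_al.Br.Kq
import Pool.Agent.Lib.MP_5d3e93_al.Br.Ku
import Pool.Agent.Lib.MP_5d3e93_al.Br.KZ

/-! Vanishing Grayson groups give acyclic levels of the K-theory pairs. -/

open CategoryTheory Limits Pretriangulated ZeroObject Opposite Simplicial

namespace Pool.Agent.Lib.MP_5d3e93_al.A2

open Gr Am Br Lab.Cv

universe v u v' u' w w' w'' x x'

set_option backward.isDefEq.respectTransparency false

theorem th_kj (m : ℕ) : KJ (KP.{v, u} m) (2 * m) where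
  deq f h b := kp_deq f h m b
  nl f h n s := kp_nl f h m n s
  em h := kp_em h m
  loc h e := kp_loc (x := ⟨_, _⟩) (y := ⟨_, _⟩) ⟨_, h.maps⟩ h m e
  un le mo c n s :=
    let ⟨i, k⟩ := kp_un _ mo le c m n {s}
    ⟨i, k s (Finset.mem_singleton_self s)⟩

theorem kp_z (x : Tp.{v, u}) (h : Z x.S) (m : ℕ) :
    Br.Ac (2 * m - 1) (RC.obj ((KP m).obj x)) := by
  cases m with
  | zero => exact ac_iff_hh.2 fun j hj => absurd hj (by omega)
  | succ m => exact KJ.z (r := 2 * m + 1) (th_kj (m + 1)) x h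

end Pool.Agent.Lib.MP_5d3e93_al.A2
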