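import Pool.Agent.Lib.MP_5d3e93_al.Br.Pre

/-! Boundary relations of composable maps of prespectra with constant composite. -/

open CategoryTheory Topology Set unitInterval Function Filter

namespace Pool.Agent.Lib.MP_5d3e93_al.Br

universe u

open Ps

namespace Ps

variable {A A' X X' : Ps.{u}} {n : ℕ}

theorem fl_neg (a : Fin (n + 3)) (x : G X n) : pm X.fl (su a x) = -su a x := by
  refine cl_ind x fun f => ?_
  obtain ⟨g, e, k⟩ : ∃ g : Lp (n + 1 + 2) X.S, su a (cl f) = cl g ∧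
      ∀ t, g t = sk (t a) (f (t ∘ a.succAbove)) := ⟨_, rfl, fun _ => rfl⟩
  rw [e, pm_cl]
  refine Eq.trans (congrArg cl (GenLoop.ext _ _ fun t => ?_))
    (show cl (GenLoop.symmAt a g) = -cl g from (HomotopyGroup.inv_spec (i := a)).symm)
  simp only [GenLoop.symmAt, GenLoop.coe_copy, lm_apply, k, if_true]
  refine congrArg (fun y => sk (σ (t a)) (f y)) (funext fun b => ?_)
  simp [Fin.succAbove_ne]

/-- Maps of cones. -/
def cf {i : A ⟶ X} {i' : A' ⟶ X'} {a : A ⟶ A'} {b : X ⟶ X'} (e : i ≫ b = a ≫ i') : C i ⟶ C i' :=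
  cm (b ≫ ci i') (fun t y => cn i' t (a.1 y)) (by fun_prop)
    (fun y => (cn_zero _).trans (congrArg (fun f => (ci i').1 (f.1 y)) e.symm)) (by simp)
    (by simp [a.2])

/-- The suspension of a cone. -/
def sc (i : A ⟶ X) : (C i).S ⟶ C (sp i) := sm (fun t y =>
  cd (Y := C (sp i)) (fun t x => (ci _).1 (sk t x)) (fun t r a => cn _ r (sk t a)) (by fun_prop)
    (by fun_prop) (by simp) (fun t a => cn_zero _) (by simp) (by simp) (t, y)) (map_continuous _)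
  (fun y => cn_ind y (by simp) (by simp)) (fun y => cn_ind y (by simp) (by simp))
  fun t => congrArg (ci _).1 (sk_pt t)

/-- The exchange of two cone coordinates. -/
def xc {i : A ⟶ X} {i' : A' ⟶ X'} {a : A ⟶ A'} {b : X ⟶ X'} (e : i ≫ b = a ≫ i') :
    C (cf e) ⟶ C (cf e.symm) :=
  cm (cm (ci b ≫ ci _) (fun t y => cn _ t ((ci a).1 y)) (by fun_prop) (fun _ => cn_zero _) (by simp)
    (by simp)) (fun s y => cd (Y := C (cf e.symm)) (fun s x => (ci _).1 (cn b s x))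
      (fun s t z => cn _ t (cn a s z)) (by fun_prop) (by fun_prop) (by simp) (fun _ _ => cn_zero _)
      (by simp) (by simp) (s, y)) (map_continuous _)
    (fun y => cn_ind y (fun x => congrArg (ci _).1 (cn_zero x))
      fun t z => congrArg (cn _ t) (cn_zero z))
    (fun y => cn_ind y (by simp) (by simp)) fun t => congrArg (ci _).1 (cn_pt t)

end Ps

namespace Pre

variable {A A' P P' X X' Y Y' : Pre.{u}} {n : ℤ}

theorem ext {f g : X ⟶ Y} (h : ∀ m, f.1 m = g.1 m) : f = g := Subtype.ext (funext h)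

theorem map_sq {i : X ⟶ P} {b : P ⟶ P'} {a : X ⟶ X'} {i' : X' ⟶ P'} (e : i ≫ b = a ≫ i') (x) :
    map n b (map n i x) = map n i' (map n a x) := by rw [← map_comp, e, map_comp]

/-- All groups vanish. -/
def Acy (P : Pre.{u}) : Prop := ∀ n (x : P.π n), x = 0

theorem Acy.S (h : P.Acy) : P.S.Acy := fun n x => by
  obtain ⟨n, rfl⟩ : ∃ k, n = k + 1 := ⟨n - 1, by omega⟩
  obtain ⟨x, rfl⟩ := s_bij.2 x
  rw [h n x, map_zero]

theorem Acy.C {f : X ⟶ Y} (h : X.Acy) (k : Y.Acy) : (C f).Acy := fun n x => by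
  obtain ⟨y, rfl⟩ := (exact₂ f x).1 (h.S _ _)
  rw [k n y, map_zero]

theorem acy_C {f : X ⟶ Y} : (C f).Acy ↔ ∀ n, Bijective (map n f) := by
  refine ⟨fun h n => ⟨(injective_iff_map_eq_zero _).2 fun x e => ?_,
    fun y => (exact₁ f y).1 (h _ _)⟩, fun h n x => ?_⟩
  · obtain ⟨w, k⟩ := (exact₃ f (X.s n x)).1 (by rw [← s_nat, e, map_zero])
    exact (map_eq_zero_iff _ s_bij.1).1 (by rw [← k, h _ w, map_zero])
  · obtain ⟨n, rfl⟩ : ∃ k, n = k + 1 := ⟨n - 1, by omega⟩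
    obtain ⟨z, e⟩ := s_bij.2 (map _ (ccm f) x)
    have := (exact₃ f _).2 ⟨x, rfl⟩
    rw [← e, ← s_nat, map_eq_zero_iff _ s_bij.1, map_eq_zero_iff _ (h n).1] at this
    obtain ⟨y, rfl⟩ := (exact₂ f x).1 (by rw [← e, this, map_zero])
    exact (exact₁ f y).2 ((h _).2 y)

/-- Maps of cones. -/
def cf {i : A ⟶ X} {i' : A' ⟶ X'} {a : A ⟶ A'} {b : X ⟶ X'} (e : i ≫ b = a ≫ i') : C i ⟶ C i' :=
  ⟨fun m => Ps.cf (congrArg (·.1 m) e), fun m => S_ext fun t y => cn_ind y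
    (fun x => congrArg (fun f => (ci _).1 (f.1 (sk t x))) (b.2 m))
    fun r x => congrArg (fun f : (A.X m).S ⟶ A'.X (m + 1) => cn (i'.1 (m + 1)) r (f.1 (sk t x)))
      (a.2 m)⟩

section
variable {i : A ⟶ X} {i' : A' ⟶ X'} {a : A ⟶ A'} {b : X ⟶ X'} (e : i ≫ b = a ≫ i')

theorem cim_cf : cim i ≫ cf e = b ≫ cim i' := rfl

theorem cf_ccm : cf e ≫ ccm i' = ccm i ≫ spm a :=
  ext fun m => C_ext (fun _ => (sp (a.1 m)).2.symm) fun _ _ => rfl

/-- The exchange of two cone coordinates. -/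
def xc : C (cf e) ⟶ C (cf e.symm) := ⟨fun m => Ps.xc (congrArg (·.1 m) e), fun _ =>
  S_ext fun _ y => cn_ind y (fun y => cn_ind y (fun _ => rfl) fun _ _ => rfl)
    fun _ y => cn_ind y (fun _ => rfl) fun _ _ => rfl⟩

theorem xc_xc : xc e ≫ xc e.symm = 𝟙 _ := ext fun _ => C_ext
  (fun y => cn_ind y (fun _ => rfl) fun _ _ => rfl) fun _ y => cn_ind y (fun _ => rfl) fun _ _ => rfl

/-- A square is cocartesian in one direction if it is in the other. -/
theorem cf_bij (h : ∀ n, Bijective (map n (cf e.symm))) (n : ℤ) : Bijective (map n (cf e)) :=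
  acy_C.1 (fun n x => by rw [← map_id x, ← xc_xc e, map_comp, acy_C.2 h n (map n _ x), map_zero]) n

theorem cf_bij' (ha : ∀ n, Bijective (map n a)) (hb : ∀ n, Bijective (map n b)) (n : ℤ) :
    Bijective (map n (cf e)) :=
  cf_bij e (acy_C.1 ((acy_C.2 ha).C (acy_C.2 hb))) n

end

/-- The composite is constant. -/
def Nl (i : X ⟶ P) (q : P ⟶ Y) : Prop := ∀ m x, (q.1 m).1 ((i.1 m).1 x) = (Y.X m).pt

variable {i : X ⟶ P} {q : P ⟶ Y} {i' : X' ⟶ P'} {q' : P' ⟶ Y'}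

/-- The map that collapses the cone. -/
def Nl.col (h : Nl i q) : C i ⟶ Y :=
  ⟨fun m => cm (q.1 m) (fun _ _ => (Y.X m).pt) continuous_const (fun x => (h m x).symm)
    (fun _ => rfl) fun _ => rfl, fun m => S_ext fun t y => cn_ind y
      (fun x => congrArg (fun f => f.1 (sk t x)) (q.2 m))
      fun _ _ => (congrArg (Y.ev m).1 (sk_pt t)).trans (Y.ev m).2⟩

theorem Nl.cim_col (h : Nl i q) : cim i ≫ h.col = q := rfl

theorem Nl.cf_col (h : Nl i q) (h' : Nl i' q') {a : X ⟶ X'} {b : P ⟶ P'} {c : Y ⟶ Y'}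
    (e : i ≫ b = a ≫ i') (e' : q ≫ c = b ≫ q') : cf e ≫ h'.col = h.col ≫ c :=
  ext fun m => C_ext (fun x => congrArg (fun f => (f.1 m).1 x) e'.symm) fun _ _ => (c.1 m).2.symm

theorem Nl.S (h : Nl i q) : Nl (spm i) (spm q) := fun m x => sk_ind x fun t x =>
  (congrArg (sk t) (h m x)).trans (sk_pt t)

/-- The boundary relation. -/
def Nl.Bd (h : Nl i q) (x : X.π n) (y : Y.π (n + 1)) : Prop :=
  ∃ w, map (n + 1) (ccm i) w = X.s n x ∧ map (n + 1) h.col w = y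

theorem Nl.Bd.map {h : Nl i q} (h' : Nl i' q') {a : X ⟶ X'} {b : P ⟶ P'} {c : Y ⟶ Y'}
    (e : i ≫ b = a ≫ i') (e' : q ≫ c = b ≫ q') {x : X.π n} {y} (k : h.Bd x y) :
    h'.Bd (map n a x) (map (n + 1) c y) := by
  obtain ⟨w, k, rfl⟩ := k
  exact ⟨Pre.map _ (cf e) w, by rw [map_sq (cf_ccm e), k, s_nat], map_sq (h.cf_col h' e e') w⟩

theorem ccm_bij (hP : P.Acy) (i : X ⟶ P) : Bijective (map n (ccm i)) :=
  ⟨(injective_iff_map_eq_zero _).2 fun w e => by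
    obtain ⟨y, rfl⟩ := (exact₂ i w).1 e
    rw [hP n y, map_zero], fun z => (exact₃ i z).1 (hP.S _ _)⟩

/-- The transition map. -/
noncomputable def Nl.τ (h : Nl i q) (hP : P.Acy) (n : ℤ) : X.π n →+ Y.π (n + 1) :=
  ((map (n + 1) h.col).comp (AddEquiv.ofBijective _ (ccm_bij hP i)).symm.toAddMonoidHom).comp
    (X.s n)

theorem Nl.τ_eq (h : Nl i q) (hP : P.Acy) {x : X.π n} {y} : h.τ hP n x = y ↔ h.Bd x y :=
  ⟨fun e => ⟨_, (AddEquiv.ofBijective _ (ccm_bij hP i)).apply_symm_apply _, e⟩, fun ⟨w, a, b⟩ => by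
    rw [← b]
    exact congrArg (map _ h.col) ((AddEquiv.symm_apply_eq _).2 a.symm)⟩

theorem Nl.τ_nat (h : Nl i q) (h' : Nl i' q') (hP : P.Acy) (hP' : P'.Acy) {a : X ⟶ X'}
    {b : P ⟶ P'} {c : Y ⟶ Y'} (e : i ≫ b = a ≫ i') (e' : q ≫ c = b ≫ q') (x : X.π n) :
    h'.τ hP' n (map n a x) = map (n + 1) c (h.τ hP n x) :=
  (h'.τ_eq hP').2 (((h.τ_eq hP).1 rfl).map h' e e')

/-- A class that dies in a prespectrum over `P` that is killed by `q` has transition zero. -/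
theorem Nl.τ_kill (h : Nl i q) (hP : P.Acy) {a : X ⟶ X'} {r : X' ⟶ P} (e : a ≫ r = i)
    (h' : Nl r q) {x : X.π n} (k : map n a x = 0) : h.τ hP n x = 0 := by
  rw [← map_id (h.τ hP n x), ← h.τ_nat h' hP hP (a := a) (b := 𝟙 _) (by simp [e]) (by simp), k,
    map_zero]

theorem Nl.τ_bij (h : Nl i q) (hP : P.Acy) (k : Bijective (map (n + 1) h.col)) :
    Bijective (h.τ hP n) :=
  (k.comp (AddEquiv.ofBijective _ (ccm_bij hP i)).symm.bijective).comp s_bij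

/-- The exchange of two suspension coordinates. -/
def swm (X : Pre.{u}) : X.S.S ⟶ X.S.S :=
  ⟨fun m => (X.X m).sw, fun _ => SS_ext fun _ _ y => sk_ind y fun _ _ => rfl⟩

theorem swm_s (x : X.π n) : map _ X.swm (X.S.s _ (X.s n x)) = -X.S.s _ (X.s n x) :=
  ind x fun m j h y => by
    rw [s_of h (by push_cast; omega), s_of _ (by push_cast; omega), map_of, ← map_neg]
    exact congrArg _ ((ho_sw.pm _).symm.trans (fl_neg ..))

/-- The suspension of a cone. -/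
def scm (i : X ⟶ P) : (C i).S ⟶ C (spm i) := ⟨fun m => sc (i.1 m), fun _ =>
  SS_ext fun _ _ y => cn_ind y (fun _ => rfl) fun _ _ => rfl⟩

theorem Nl.Bd.S {h : Nl i q} {x : X.π n} {y} (k : h.Bd x y) : h.S.Bd (-X.s n x) (Y.s _ y) := by
  obtain ⟨w, k, rfl⟩ := k
  refine ⟨Pre.map _ (scm i) ((C i).s _ w), ?_, ?_⟩
  · rw [map_sq (show scm i ≫ ccm _ = spm (ccm i) ≫ X.swm from ext fun m => S_ext fun t y => cn_ind y
      (fun _ => ((congrArg (X.X m).sw.1 (sk_pt t)).trans (X.X m).sw.2).symm) fun _ _ => rfl),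
      ← s_nat, k, swm_s, map_neg]
  · rw [← map_comp, s_nat]
    exact congrArg (Pre.map _ · _) (ext fun m => S_ext fun t y => cn_ind y (fun _ => rfl)
      fun _ _ => (sk_pt t).symm)

theorem Nl.τ_S (h : Nl i q) (hP : P.Acy) (x : X.π n) :
    h.S.τ hP.S _ (X.s n x) = -Y.s _ (h.τ hP n x) := by
  rw [← (h.S.τ_eq hP.S).2 ((h.τ_eq hP).1 rfl).S, map_neg, neg_neg]

end Pre

end Pool.Agent.Lib.MP_5d3e93_al.Br
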