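import Pool.Agent.Lib.MP_5d3e93_al.Br.AH
import Pool.Agent.Lib.MP_5d3e93_al.Br.Cx
import Pool.Agent.Lib.MP_5d3e93_al.Br.Nrm
import Pool.Agent.Lib.MP_5d3e93_al.Br.Ho
import Pool.Agent.Lib.MP_5d3e93_al.Br.Nq

/-! Homological connectivity gives stable homotopical connectivity. -/

open CategoryTheory Function

namespace Pool.Agent.Lib.MP_5d3e93_al.Br

universe u v

open Ps

theorem Acy.equiv {J J' : ℕ → Type v} {fc : ∀ d, J (d + 1) → Fin (d + 2) → Option (J d)}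
    {fc' : ∀ d, J' (d + 1) → Fin (d + 2) → Option (J' d)} (b : ∀ d, J d ≃ J' d)
    (e : ∀ d z k, (fc d z k).map (b d) = fc' d (b _ z) k) {B : Type*} [AddCommGroup B] {a : ℕ}
    (h : Acy fc' B a) : Acy fc B a := by
  have k : ∀ d c, cdif (fc' d) B (Finsupp.domCongr (b _) c) =
      Finsupp.domCongr (b d) (cdif (fc d) B c) := fun d c => by
    induction c using Finsupp.induction_linear with
    | zero => simp
    | add x y p q => simp only [map_add, p, q]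
    | single z y =>
      simp only [cdif, Finsupp.domCongr_apply, Finsupp.equivMapDomain_single,
        Finsupp.liftAddHom_apply_single, AddMonoidHom.finsetSum_apply, AddMonoidHom.zsmul_apply]
      rw [← Finsupp.domCongr_apply, map_sum]
      refine Finset.sum_congr rfl fun i _ => ?_
      rw [map_zsmul, ← e]
      cases fc d z i <;> simp
  refine ⟨fun l c => ?_, fun d l c x => ?_⟩
  · obtain ⟨y, hy⟩ := h.zero l (Finsupp.domCongr (b 0) c)
    obtain ⟨y, rfl⟩ := (Finsupp.domCongr (b 1)).surjective y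
    exact ⟨y, (Finsupp.domCongr (b 0)).injective ((k 0 y).symm.trans hy)⟩
  · obtain ⟨y, hy⟩ := h.succ d l (Finsupp.domCongr (b _) c) (by rw [k, x, map_zero])
    obtain ⟨y, rfl⟩ := (Finsupp.domCongr (b _)).surjective y
    exact ⟨y, (Finsupp.domCongr (b _)).injective ((k _ y).symm.trans hy)⟩

theorem hm_iso {X Y : Ps.{u}} (e : X ≅ Y) (n : ℤ) : Bijective (hm n e.hom) :=
  hm_bij (g := e.inv) (e.hom_inv_id ▸ .refl _) (e.inv_hom_id ▸ .refl _)

theorem hm_comp_bij {X Y Z : Ps.{u}} {f : X ⟶ Y} {g : Y ⟶ Z} {n : ℤ} (a : Bijective (hm n f))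
    (b : Bijective (hm n g)) : Bijective (hm n (f ≫ g)) :=
  (funext (hm_comp f g) : ⇑(hm n (f ≫ g)) = _) ▸ b.comp a

/-- The map of cones of a commutative square. -/
def Ps.csq {A A' X X' : Ps.{u}} {i : A ⟶ X} {i' : A' ⟶ X'} (a : A ⟶ A') (b : X ⟶ X')
    (e : i ≫ b = a ≫ i') : C i ⟶ C i' :=
  cm (b ≫ ci i') (fun t y => cn i' t (a.1 y)) (by fun_prop)
    (fun y => (cn_zero _).trans (congrArg (fun f => (ci i').1 (f.1 y)) e.symm)) (by simp)
    (by simp [a.2])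

theorem cq_iso {A A' X : Ps.{u}} (e : A ≅ A') {w : A' ⟶ X} {i : A ⟶ X} (k : e.hom ≫ w = i) {n : ℤ}
    (h : Bijective (hm n (cq w))) : Bijective (hm n (cq i)) := by
  subst k
  have p : ∀ y, e.hom.1 (e.inv.1 y) = y := fun y => congrArg (fun f => f.1 y) e.inv_hom_id
  have q : ∀ y, e.inv.1 (e.hom.1 y) = y := fun y => congrArg (fun f => f.1 y) e.hom_inv_id
  let c : C (e.hom ≫ w) ≅ C w := ⟨csq e.hom (𝟙 _) (by simp), csq e.inv (𝟙 _) (by simp),
    C_ext (fun _ => rfl) fun t y => congrArg (cn _ t) (q y),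
    C_ext (fun _ => rfl) fun t y => congrArg (cn _ t) (p y)⟩
  let d : Q w ≅ Q (e.hom ≫ w) := ⟨qm (qk _) fun y => p y ▸ qk_i (i := e.hom ≫ w) (e.inv.1 y),
    qm (qk _) fun y => qk_i _, Q_ext fun _ => rfl, Q_ext fun _ => rfl⟩
  exact (show c.hom ≫ cq w ≫ d.hom = cq _ from C_ext (fun _ => rfl) fun _ _ => rfl) ▸
    hm_comp_bij (hm_iso c n) (hm_comp_bij h (hm_iso d n))

open Simplicial SSet

variable {X Y P : SSet.{u}} {x : X _⦋0⦌} {y : Y _⦋0⦌} {p : P _⦋0⦌} {a : ℕ} {n : ℤ}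

theorem w0_aux (f : X ⟶ Y) (h : f.app _ x = y) (c : Cn a (ZC.map f)) :
    (n < a → Surjective (hm n (rlm f h))) ∧ (n + 1 < a → Injective (hm n (rlm f h))) := by
  obtain ⟨Y', y', i, _, hi, r, hr, rfl, _, rb⟩ := ex_mono f h
  obtain ⟨K, e, b, k, hb⟩ := ex_cx i hi
  have c' : Cn a (ZC.map i) := (ZC.map_comp i r ▸ c).of_comp_left (cn_of_quasiIso _ _)
  have ac : ∀ B : Type u, ∀ [AddCommGroup B], Acy (fun _ => K.fc) B a := fun B _ =>
    .equiv b hb ((clf_acy i c').coef (clf_dd i) B)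
  have : ⇑(hm n (rlm (i ≫ r) h)) = hm n (rlm r hr) ∘ hm n (K.w 0) ∘ hm n e.hom := funext fun z => by
    rw [Function.comp_apply, Function.comp_apply, ← hm_comp e.hom, k, ← hm_comp]
    exact congrArg (hm n · z) (Ps.ext (rm_comp i r))
  rw [this]
  exact ⟨fun l => (rb n).2.comp ((K.surj ac l).comp (hm_iso e n).2),
    fun l => (rb n).1.comp ((K.inj ac l).comp (hm_iso e n).1)⟩

theorem w0_surj (f : X ⟶ Y) (h : f.app _ x = y) (c : Cn a (ZC.map f)) (hn : n < a) :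
    Surjective (hm n (rlm f h)) := (w0_aux f h c).1 hn

theorem w0 (f : X ⟶ Y) (h : f.app _ x = y) (c : Cn a (ZC.map f)) (hn : n + 1 < a) :
    Bijective (hm n (rlm f h)) := ⟨(w0_aux f h c).2 hn, (w0_aux f h c).1 (by omega)⟩

theorem cq_rl (i : X ⟶ P) [Mono i] (hi : i.app _ x = p) (n : ℤ) :
    Bijective (hm n (cq (rlm i hi))) := by
  obtain ⟨K, e, -, k, -⟩ := ex_cx i hi
  exact cq_iso e k (K.toFl.cq (fun d => (K.st d).ndr) n)

theorem fs0 (i : X ⟶ P) [Mono i] (q : P ⟶ Y) (hi : i.app _ x = p) (hq : q.app _ p = y)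
    (e : i ≫ q = const y) (c : Cn a (ZC.map (sqm i q y e))) (hn : n + 1 < a)
    (k : C (rlm i hi) ⟶ rl Y y) (k₁ : ci _ ≫ k = rlm q hq) (k₂ : ∀ t z, k.1 (cn _ t z) = (rl Y y).pt) :
    Bijective (hm n k) := by
  obtain ⟨d, hd⟩ := ex_sq i hi
  have : cq _ ≫ d.hom ≫ rlm (x := (sqk i).app _ p) (sqm i q y e) hq = k :=
    C_ext (fun z => (congrArg (rm (sqm i q y e)) (congrArg (fun f => f.1 z) hd)).trans
      ((rm_comp (sqk i) _ z).symm.trans (congrArg (fun f => f.1 z) k₁).symm))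
      fun t z => (d.hom ≫ _).2.trans (k₂ t z).symm
  exact this ▸ hm_comp_bij (cq_rl i hi n) (hm_comp_bij (hm_iso d n) (w0 _ _ c hn))

end Pool.Agent.Lib.MP_5d3e93_al.Br
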